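import Mathlib
import Pool.Agent.DPX.StmtsXD
import Pool.Agent.DPC.StmtsC

/-!
# Theorem P1: definitions

The paper proof is in `PAPER.md`.
-/

namespace Pool.Agent.RCB

open Pool.Agent.DP Pool.Agent.DPV Pool.Agent.DPB Pool.Agent.DPW Pool.Agent.DPX
open Pool.Agent.Lib_helper13 Representation

/-! ### Factor sets -/

/-- The coboundaries: the factor sets `b x * b y / b (x * y)`. -/
def cob (K : Type) [Group K] : Subgroup (K → K → ℂˣ) where
  carrier := {a | ∃ b : K → ℂˣ, ∀ x y, a x y = b x * b y * (b (x * y))⁻¹}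
  one_mem' := ⟨fun _ => 1, fun x y => by simp⟩
  mul_mem' := by
    rintro a a' ⟨b, hb⟩ ⟨b', hb'⟩
    refine ⟨fun x => b x * b' x, fun x y => ?_⟩
    rw [Pi.mul_apply, Pi.mul_apply, hb, hb', mul_inv]
    simp only [mul_assoc, mul_comm, mul_left_comm]
  inv_mem' := by
    rintro a ⟨b, hb⟩
    refine ⟨fun x => (b x)⁻¹, fun x y => ?_⟩
    rw [Pi.inv_apply, Pi.inv_apply, hb]
    simp only [mul_inv, inv_inv, mul_assoc, mul_comm, mul_left_comm]

theorem mem_cob {K : Type} [Group K] {a : K → K → ℂˣ} :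
    a ∈ cob K ↔ ∃ b : K → ℂˣ, ∀ x y, a x y = b x * b y * (b (x * y))⁻¹ := Iff.rfl

/-- `a` is the factor set of a projective representation of `Y` which extends a representation
of the normal subgroup `A` with character `θ`. -/
def FS {A Y K : Type} [Group A] [Group Y] [Group K] (j : A →* Y) (p : Y →* K) (θ : A → ℂ)
    (a : K → K → ℂˣ) : Prop :=
  ∃ (n : ℕ) (R : Representation ℂ A (Fin n → ℂ)) (T : Y → Module.End ℂ (Fin n → ℂ)),
    R.character = θ ∧ (∀ x, T (j x) = R x) ∧ (∀ x y, T (j x * y) = R x * T y) ∧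
    (∀ y y', T y * T y' = ((a (p y) (p y') : ℂˣ) : ℂ) • T (y * y')) ∧ ∀ y, IsUnit (T y)

/-! ### Covers -/

/-- `π : B' → B` is a covering of the extension `G → B → C` by the extension `G → B' → C'`. -/
structure Cov {G B C B' C' : Type} [Group G] [Group B] [Group C] [Group B'] [Group C']
    (ι : G →* B) (κ : B →* MulAut G) (ρ : B →* C) (ι' : G →* B') (κ' : B' →* MulAut G)
    (ρ' : B' →* C') (π : B' →* B) : Prop where
  lo : LocN ι κ ρ
  up : LocN ι' κ' ρ'
  surj : Function.Surjective π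
  emb : ∀ g, π (ι' g) = ι g
  act : κ' = κ.comp π

/-! ### The characters of the block and of the local block -/

section Sets

variable {G : Type} [Group G] [Fintype G] (𝔐 : Ideal (integralClosure ℤ ℂ))

open Classical in
/-- The inner product of the restrictions to the subgroup `S`. -/
noncomputable def mu (S : Subgroup G) (f φ : G → ℂ) : ℂ :=
  (∑ g, if g ∈ S then f g * φ g⁻¹ else 0) / Nat.card S

/-- The irreducible characters of `G` with the central function `ω`. -/
def XS (ω : G → (integralClosure ℤ ℂ) ⧸ 𝔐) : Set (G → ℂ) :=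
  {χ | IrrOn (stb ∅) χ ∧ ∀ g, cg 𝔐 χ g = ω g}

/-- The irreducible characters of the normalizer of `P₁` whose central function on `G`
is `ω`. -/
def YL (P₁ : Subgroup G) (ω : G → (integralClosure ℤ ℂ) ⧸ 𝔐) : Set (G → ℂ) :=
  {ψ | IrrOn (stb {P₁}) ψ ∧ ∀ g, cg 𝔐 ψ g = ω g}

/-- The irreducible characters of the centralizer of `P₁` under those in `YL`. -/
def ZC (P₁ : Subgroup G) (ω : G → (integralClosure ℤ ℂ) ⧸ 𝔐) : Set (G → ℂ) :=
  {φ | IrrOn (Subgroup.centralizer (P₁ : Set G)) φ ∧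
    ∃ ψ ∈ YL 𝔐 P₁ ω, mu (Subgroup.centralizer (P₁ : Set G)) ψ φ ≠ 0}

open Classical in
/-- The characters `χ` of `G` and `ψ` of the normalizer match: the multiplicities of `χ` are
constant up to a jump `± 1` on the constituents of `ψ`. -/
def Mtc (P₁ : Subgroup G) (ω : G → (integralClosure ℤ ℂ) ⧸ 𝔐) (χ ψ : G → ℂ) : Prop :=
  ∃ a b : ℤ, (b = 1 ∨ b = -1) ∧ ∀ φ ∈ ZC 𝔐 P₁ ω,
    mu (Subgroup.centralizer (P₁ : Set G)) χ φ =
      (a : ℂ) + if mu (Subgroup.centralizer (P₁ : Set G)) ψ φ ≠ 0 then (b : ℂ) else 0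

/-- The inertial index is greater than one: some element of the normalizer outside of the
centralizer stabilizes a block of the centralizer under the local block. -/
def EB (P₁ : Subgroup G) (ω : G → (integralClosure ℤ ℂ) ⧸ 𝔐) : Prop :=
  ∃ φ ∈ ZC 𝔐 P₁ ω, ∃ s ∈ stb {P₁}, s ∉ Subgroup.centralizer (P₁ : Set G) ∧
    ∀ g, cgT 𝔐 (Subgroup.centralizer (P₁ : Set G)) φ (s * g * s⁻¹) =
      cgT 𝔐 (Subgroup.centralizer (P₁ : Set G)) φ g

/-- The block with the central function `ω` has the cyclic defect group `P`, and `ω` is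
invariant under `B`. -/
structure StX {B : Type} [Group B] (ℓ n : ℕ) (κ : B →* MulAut G)
    (ω : G → (integralClosure ℤ ℂ) ⧸ 𝔐) (P₁ P : Subgroup G) (x₀ : G) : Prop where
  at' : AtX ℓ n ω P₁ P x₀
  inv : ∀ b g, ω (κ b g) = ω g
  ex : ∃ θ : G → ℂ, IsIrr θ ∧ cen 𝔐 (MonoidHom.id G) θ = ω

end Sets

end Pool.Agent.RCB
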