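import Mathlib
import Pool.Agent.RCB.DefsP

/-!
# Theorem P1: definitions for the parts C1 and C2
-/

namespace Pool.Agent.RCB

open Pool.Agent.DP Pool.Agent.DPV Pool.Agent.DPB Pool.Agent.DPW Pool.Agent.DPX
open Pool.Agent.Lib_helper13 Representation

/-! ### The configuration of part C1 -/

/-- The conjugate of a function on the normal subgroup `C`. -/
def cj {N : Type} [Group N] (C : Subgroup N) [C.Normal] (g : N) (φ : C → ℂ) : C → ℂ :=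
  fun c => φ (MulAut.conjNormal g c)

/-- `P` is a cyclic defect group of the block of the character `χ₀` of `T`, `P₁ ≤ P` has order
`ℓ`, `C` is the centralizer of `P₁`, `φ₀` is a character of `C` in a block under the
corresponding block of the normalizer of `P₁`. -/
structure Cf (𝔐 : Ideal (integralClosure ℤ ℂ)) (ℓ n : ℕ) {T : Type} [Group T] [Fintype T]
    (χ₀ : T → ℂ) (P₁ P : Subgroup T) (x₀ : T) [Fintype (NP P₁)] (C : Subgroup (NP P₁))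
    [C.Normal] (ψ₀ : NP P₁ → ℂ) (φ₀ : C → ℂ) : Prop where
  irr : IsIrr χ₀
  at' : AtX ℓ n (cen 𝔐 (MonoidHom.id T) χ₀) P₁ P x₀
  hC : C = Subgroup.centralizer ((P₁.subgroupOf (Subgroup.normalizer (P₁ : Set T)) :
    Subgroup (NP P₁)) : Set (NP P₁))
  irn : IsIrr ψ₀
  irc : IsIrr φ₀
  cn : cen 𝔐 (Subgroup.normalizer (P₁ : Set T)).subtype ψ₀ = cen 𝔐 (MonoidHom.id T) χ₀
  ov : ip (fun c : C => ψ₀ c) φ₀ ≠ 0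

/-- The irreducible characters in the block of `φ₀`. -/
def II (𝔐 : Ideal (integralClosure ℤ ℂ)) {C : Type} [Group C] [Fintype C] (φ₀ : C → ℂ) :
    Set (C → ℂ) :=
  {φ | IsIrr φ ∧ cen 𝔐 (MonoidHom.id C) φ = cen 𝔐 (MonoidHom.id C) φ₀}

/-- The multiplicity of `φ` in `χ`, as an integer. -/
noncomputable def ai {T : Type} [Group T] [Fintype T] {P₁ : Subgroup T} [Fintype (NP P₁)]
    (C : Subgroup (NP P₁)) (χ : T → ℂ) (φ : C → ℂ) : ℤ :=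
  ⌊(ip (fun c : C => χ ((c : NP P₁) : T)) φ).re⌋

/-- `φ` and `φ'` are conjugate under the stabilizer of the block. -/
def Cjg (𝔐 : Ideal (integralClosure ℤ ℂ)) {N : Type} [Group N] [Fintype N] (C : Subgroup N)
    [C.Normal] (φ₀ φ φ' : C → ℂ) : Prop :=
  ∃ g ∈ bS 𝔐 C φ₀, φ' = cj C g φ

open Classical in
/-- The multiplicities of `χ` on the block of `φ₀` are constant up to a jump `± 1` at the
conjugates of `φ`. -/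
def MtA (𝔐 : Ideal (integralClosure ℤ ℂ)) {T : Type} [Group T] [Fintype T] {P₁ : Subgroup T}
    [Fintype (NP P₁)] (C : Subgroup (NP P₁)) [C.Normal] (φ₀ : C → ℂ) (χ : T → ℂ)
    (φ : C → ℂ) : Prop :=
  ∃ a b : ℤ, (b = 1 ∨ b = -1) ∧ ∀ φ' ∈ II 𝔐 φ₀,
    ai C χ φ' = a + if Cjg 𝔐 C φ₀ φ φ' then b else 0

/-! ### The configuration of part C2 -/

section Sets

variable {G : Type} [Group G] [Fintype G] (𝔐 : Ideal (integralClosure ℤ ℂ))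

/-- `ψ` and `ψ'` have the same constituents. -/
def SupEq (P₁ : Subgroup G) (ω : G → (integralClosure ℤ ℂ) ⧸ 𝔐) (ψ ψ' : G → ℂ) : Prop :=
  ∀ φ ∈ ZC 𝔐 P₁ ω, (mu (Subgroup.centralizer (P₁ : Set G)) ψ φ ≠ 0 ↔
    mu (Subgroup.centralizer (P₁ : Set G)) ψ' φ ≠ 0)

/-- `ψ` is not the only character in `YL` with these constituents. -/
def Spc (P₁ : Subgroup G) (ω : G → (integralClosure ℤ ℂ) ⧸ 𝔐) (ψ : G → ℂ) : Prop :=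
  ∃ ψ' ∈ YL 𝔐 P₁ ω, ψ' ≠ ψ ∧ SupEq 𝔐 P₁ ω ψ ψ'

/-- The matching of the characters, general case (`r ≥ 2` in PAPER.md). -/
structure MtF (P₁ : Subgroup G) (ω : G → (integralClosure ℤ ℂ) ⧸ 𝔐) : Prop where
  ex : ∀ χ ∈ XS 𝔐 ω, ∃ ψ ∈ YL 𝔐 P₁ ω, Mtc 𝔐 P₁ ω χ ψ
  cnt : ∀ ψ ∈ YL 𝔐 P₁ ω, Nat.card {χ : G → ℂ // χ ∈ XS 𝔐 ω ∧ Mtc 𝔐 P₁ ω χ ψ} =
    Nat.card {ψ' : G → ℂ // ψ' ∈ YL 𝔐 P₁ ω ∧ SupEq 𝔐 P₁ ω ψ ψ'}
  uq : ∀ χ ∈ XS 𝔐 ω, ∀ ψ ∈ YL 𝔐 P₁ ω, ∀ ψ' ∈ YL 𝔐 P₁ ω, Mtc 𝔐 P₁ ω χ ψ →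
    Mtc 𝔐 P₁ ω χ ψ' → SupEq 𝔐 P₁ ω ψ ψ'

/-- The case `r = 1` of PAPER.md. -/
structure RnF (ℓ : ℕ) {B : Type} [Group B] (κ : B →* MulAut G) (P₁ : Subgroup G)
    (ω : G → (integralClosure ℤ ℂ) ⧸ 𝔐) : Prop where
  eb : EB 𝔐 P₁ ω
  cX : Nat.card (XS 𝔐 ω) = ℓ
  ns : Nat.card {ψ : G → ℂ // ψ ∈ YL 𝔐 P₁ ω ∧ ¬ Spc 𝔐 P₁ ω ψ} = 1
  v : ∃ v : (G → ℂ) → ℤ, (∀ χ ∈ XS 𝔐 ω, v χ = 1 ∨ v χ = -1) ∧
    (∑ᶠ χ : XS 𝔐 ω, (v χ : ℂ) * (χ : G → ℂ) 1 = 0) ∧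
    ∀ b ∈ Stx κ {P₁} (fun _ => 0), ∀ χ ∈ XS 𝔐 ω, v (fun g => χ (κ b g)) = v χ

end Sets

end Pool.Agent.RCB
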