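import Mathlib
import Pool.Agent.RCB.DefsQ

/-!
# Theorem P1: statements, block 2 (parts C1 and C2 of PAPER.md)

Notation in the proofs: `N = NP P₁`, `b` = the block of `χ₀`, `I = II 𝔐 φ₀`, `S = bS 𝔐 C φ₀` the
stabilizer of the block of `φ₀` in `N`, `e = C.relIndex S`, `L = ℓ ^ n`. The statements
`Stmt_...X` are those of `DPX/StmtsXA.lean` .. `StmtsXD.lean`; a module may use them as
hypotheses, as well as the statements of `DP` (`Stmt_SUMM`, `Stmt_CCOR`, `Stmt_GALL`,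
`Stmt_EXTC`, ...).
-/

namespace Pool.Agent.RCB

open Pool.Agent.DP Pool.Agent.DPV Pool.Agent.DPB Pool.Agent.DPW Pool.Agent.DPX
open Pool.Agent.Lib_helper13 Representation

/-! ### The centralizer -/

/-- RCB_ORC: the action of the stabilizer on the block of the centralizer.
Proof. `P₁.subgroupOf N` is normal in `N` of order `ℓ`, with centralizer `C`. By `ATNX` (with
`x₀ ∈ N`) and `ATCX` there is AtX for `cen φ₀` in `C` (with `P₁.subgroupOf ..` which is central in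
`C`); `NILO` gives `|I| = ℓ ^ n`. `FRXX` gives `C ≤ S`, `e ∣ ℓ - 1` (so `0 < e`, `¬ ℓ ∣ e`).
(`cj C g φ ∈ I ↔ g ∈ S`) is `ORBX` (last part) and the definition of `bS` (the block of `φ` is that
of `φ₀`). `S / C` embeds in `Aut P₁`, which is cyclic of order `ℓ - 1`; let `s ∈ S` generate
`S` modulo `C`. For `g ∈ S ∖ C` the automorphism `conjNormal g` of `C` moves an element of `P₁`,
has `g ^ (ℓ - 1) ∈ C`, and stabilizes the block, so by `ACTX` it has exactly one fixed point in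
`I`. If `e = 1` take `φ₁ = φ₀` (`S = C`, characters are invariant under inner automorphisms).
If `e > 1` let `φ₁` be the fixed point of `s`; every `g ∈ S` is `s ^ k * c`, `c ∈ C`, so it fixes
`φ₁`, and for `g ∉ C` it is the only fixed point. -/
def Stmt_ORC : Prop :=
  ∀ (T : Type) [Group T] [Fintype T] (𝔐 : Ideal (integralClosure ℤ ℂ)) (ℓ n : ℕ)
    [Fact ℓ.Prime], 𝔐.IsMaximal → (ℓ : integralClosure ℤ ℂ) ∈ 𝔐 →
    ∀ (χ₀ : T → ℂ) (P₁ P : Subgroup T) (x₀ : T) [Fintype (NP P₁)] (C : Subgroup (NP P₁))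
      [C.Normal] (ψ₀ : NP P₁ → ℂ) (φ₀ : C → ℂ), Cf 𝔐 ℓ n χ₀ P₁ P x₀ C ψ₀ φ₀ →
    0 < n ∧ C ≤ bS 𝔐 C φ₀ ∧ 0 < C.relIndex (bS 𝔐 C φ₀) ∧ C.relIndex (bS 𝔐 C φ₀) ∣ ℓ - 1 ∧
    Nat.card (II 𝔐 φ₀) = ℓ ^ n ∧
    (∀ φ ∈ II 𝔐 φ₀, ∀ g, cj C g φ ∈ II 𝔐 φ₀ ↔ g ∈ bS 𝔐 C φ₀) ∧
    (∃ s ∈ bS 𝔐 C φ₀, ∀ g ∈ bS 𝔐 C φ₀, ∃ k : ℤ, g * s ^ k ∈ C) ∧
    (∃ s : NP P₁, ∀ g : NP P₁, ∃ k : ℤ, g * s ^ k ∈ C) ∧
    ∃ φ₁ ∈ II 𝔐 φ₀, (∀ g ∈ bS 𝔐 C φ₀, cj C g φ₁ = φ₁) ∧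
      ∀ φ ∈ II 𝔐 φ₀, φ ≠ φ₁ → ∀ g ∈ bS 𝔐 C φ₀, cj C g φ = φ → g ∈ C

/-- RCB_LCC: the characters of the normalizer over the block of `φ₀`.
Proof. (1), (2): `ORBX` (for the blocks of `C` under a block of `N`, applied to `ψ₀`, `φ₀`)
and `ATNX` (the characters with `cen sub ψ = cen χ₀` are those of the block of `ψ₀`); for
(2) a constituent of `ψ|C` is conjugate to one in `I` and the multiplicities are constant on
conjugates (`SUMM` (3)). (3) `SUMM` (2): the constituents of `ψ|C` are conjugate under `N`; if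
both are in `I` then the conjugating element is in `S` (`ORC`). (4) `SUMM` (3). (5), (6): let
`φ ∈ I`, `N_φ` its stabilizer in `N` (`⊇ C`), contained in `S` by `ORC`: it is `S` if `φ` is
invariant under `S`, and otherwise (`φ ≠ φ₁`) it is `C`. In both cases `N_φ / C` is cyclic, `φ`
extends to `N_φ` (`EXTC`), and by `GALL` and `CCOR` the characters of `N` over `φ` are the
`Ind (E η)`, `η` one of the `|N_φ : C|` linear characters of `N_φ / C`, each with multiplicity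
`ip (ψ|C) φ = ip ((E η)|C) φ = 1`. -/
def Stmt_LCC : Prop :=
  ∀ (T : Type) [Group T] [Fintype T] (𝔐 : Ideal (integralClosure ℤ ℂ)) (ℓ n : ℕ)
    [Fact ℓ.Prime], 𝔐.IsMaximal → (ℓ : integralClosure ℤ ℂ) ∈ 𝔐 →
    ∀ (χ₀ : T → ℂ) (P₁ P : Subgroup T) (x₀ : T) [Fintype (NP P₁)] (C : Subgroup (NP P₁))
      [C.Normal] (ψ₀ : NP P₁ → ℂ) (φ₀ : C → ℂ), Cf 𝔐 ℓ n χ₀ P₁ P x₀ C ψ₀ φ₀ →
    (∀ ψ : NP P₁ → ℂ, IsIrr ψ → ∀ φ ∈ II 𝔐 φ₀, ip (fun c : C => ψ c) φ ≠ 0 →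
      cen 𝔐 (Subgroup.normalizer (P₁ : Set T)).subtype ψ = cen 𝔐 (MonoidHom.id T) χ₀) ∧
    (∀ ψ : NP P₁ → ℂ, IsIrr ψ →
      cen 𝔐 (Subgroup.normalizer (P₁ : Set T)).subtype ψ = cen 𝔐 (MonoidHom.id T) χ₀ →
      ∃ φ ∈ II 𝔐 φ₀, ip (fun c : C => ψ c) φ ≠ 0) ∧
    (∀ ψ : NP P₁ → ℂ, IsIrr ψ → ∀ φ ∈ II 𝔐 φ₀, ∀ φ' ∈ II 𝔐 φ₀,
      ip (fun c : C => ψ c) φ ≠ 0 → ip (fun c : C => ψ c) φ' ≠ 0 → Cjg 𝔐 C φ₀ φ φ') ∧
    (∀ (ψ : NP P₁ → ℂ) (g : NP P₁) (φ : C → ℂ), IsIrr ψ →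
      ip (fun c : C => ψ c) (cj C g φ) = ip (fun c : C => ψ c) φ) ∧
    (∀ ψ : NP P₁ → ℂ, IsIrr ψ → ∀ φ ∈ II 𝔐 φ₀, ip (fun c : C => ψ c) φ ≠ 0 →
      ip (fun c : C => ψ c) φ = 1) ∧
    ∀ φ ∈ II 𝔐 φ₀,
      ((∀ g ∈ bS 𝔐 C φ₀, cj C g φ = φ) →
        Nat.card {ψ : NP P₁ → ℂ // IsIrr ψ ∧ ip (fun c : C => ψ c) φ ≠ 0} =
          C.relIndex (bS 𝔐 C φ₀)) ∧
      ((¬ ∀ g ∈ bS 𝔐 C φ₀, cj C g φ = φ) →
        Nat.card {ψ : NP P₁ → ℂ // IsIrr ψ ∧ ip (fun c : C => ψ c) φ ≠ 0} = 1)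

/-- RCB_TOT: the number of characters of the block.
Proof. `CNTX`: it is the number of `ψ : N → ℂ`, `IsIrr ψ`, `cen sub ψ = cen χ₀` (call this set
`Y`). Count the pairs `(ψ, φ)`, `ψ ∈ Y`, `φ ∈ I`, `ip (ψ|C) φ ≠ 0`, with `ORC` and `LCC`. For each
`φ ∈ I`: `e` if `φ = φ₁`, and `1` if `φ ≠ φ₁` (if `e = 1` all are invariant, the number is
`1 = e`); so there are `e + (L - 1)` pairs. For `ψ ∈ Y` the `φ` form one orbit of `S` on `I`: `1`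
if `φ₁` is in it, `e` otherwise (the stabilizer of `φ ≠ φ₁` in `S` is `C`). The number of
`ψ ∈ Y` over `φ₁` is `e`. So `e + e * (|Y| - e) = e + (L - 1)`. Put `r = |Y| - e`. -/
def Stmt_TOT : Prop :=
  ∀ (T : Type) [Group T] [Fintype T] (𝔐 : Ideal (integralClosure ℤ ℂ)) (ℓ n : ℕ)
    [Fact ℓ.Prime], 𝔐.IsMaximal → (ℓ : integralClosure ℤ ℂ) ∈ 𝔐 →
    ∀ (χ₀ : T → ℂ) (P₁ P : Subgroup T) (x₀ : T) [Fintype (NP P₁)] (C : Subgroup (NP P₁))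
      [C.Normal] (ψ₀ : NP P₁ → ℂ) (φ₀ : C → ℂ), Cf 𝔐 ℓ n χ₀ P₁ P x₀ C ψ₀ φ₀ →
    ∃ r : ℕ, C.relIndex (bS 𝔐 C φ₀) * r + 1 = ℓ ^ n ∧
      Nat.card {χ : T → ℂ // IsIrr χ ∧
        cen 𝔐 (MonoidHom.id T) χ = cen 𝔐 (MonoidHom.id T) χ₀} =
          C.relIndex (bS 𝔐 C φ₀) + r

/-! ### Multiplicities -/

open Classical in
/-- RCB_MTY: the second main theorem for the characters outside of the block.
Proof. As `MT2X` (`DPX/MT2X.lean`; import it and reuse its lemmas): take the idempotent of the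
block of `χ₀` (`IDX` for `χ₀`), `M` a matrix representation over `O` affording `χ` (`RLZX`). Here
`Zop (redM M) e = 0` (the value of `IDX` at `χ` is `0`, since `cen χ ≠ cen χ₀`), so the last
equation of `MT2X.core` becomes `0 = Zop (rN P₁ (redM M)) (residue ∘ eh) + trS P (redM M) (redM M) h`
(from `KEX`): the reduction of the idempotent `J = mj (mN M) eh` is `- trS P .. h`, i.e. a trace.
The end of the proof of `MT2X_thm` applied with `J` in the place of `1 - J`: by `VANX` the trace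
of `M g * J` is `0` for `g ∈ N` with `P₁ ≤ zpowers g`, and it is the sum in the statement. -/
def Stmt_MTY : Prop :=
  ∀ (T : Type) [Group T] [Fintype T] (𝔐 : Ideal (integralClosure ℤ ℂ)) (ℓ n : ℕ)
    [Fact ℓ.Prime], 𝔐.IsMaximal → (ℓ : integralClosure ℤ ℂ) ∈ 𝔐 →
    ∀ χ₀ : T → ℂ, IsIrr χ₀ → ∀ (P₁ P : Subgroup T) [Fintype (NP P₁)] (x₀ : T),
      AtX ℓ n (cen 𝔐 (MonoidHom.id T) χ₀) P₁ P x₀ → ∀ χ : T → ℂ, IsIrr χ →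
      cen 𝔐 (MonoidHom.id T) χ ≠ cen 𝔐 (MonoidHom.id T) χ₀ →
      ∀ g : NP P₁, P₁ ≤ Subgroup.zpowers (g : T) →
        ∑ ψ ∈ irrF (NP P₁) with cen 𝔐 (Subgroup.normalizer (P₁ : Set T)).subtype ψ =
          cen 𝔐 (MonoidHom.id T) χ₀, ip (fun s : NP P₁ => χ s) ψ * ψ g = 0

/-- RCB_AIN: elementary properties of the multiplicities.
Proof. (1) `ip` of a character with an irreducible character is a natural number
(`Lib_helper13`). (2) `χ` is invariant under conjugation. (3) `ATCX` and `REGX` (the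
values of two characters of the block of `φ₀` at elements of order prime to `ℓ` agree, and both
vanish at the elements of order divisible by `ℓ` whose powers do not contain `P₁`); `φ 1 = φ' 1`.
(4) `OSIX` in the group `C` (for the block of `φ₀`) and the equality of the degrees. -/
def Stmt_AIN : Prop :=
  ∀ (T : Type) [Group T] [Fintype T] (𝔐 : Ideal (integralClosure ℤ ℂ)) (ℓ n : ℕ)
    [Fact ℓ.Prime], 𝔐.IsMaximal → (ℓ : integralClosure ℤ ℂ) ∈ 𝔐 →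
    ∀ (χ₀ : T → ℂ) (P₁ P : Subgroup T) (x₀ : T) [Fintype (NP P₁)] (C : Subgroup (NP P₁))
      [C.Normal] (ψ₀ : NP P₁ → ℂ) (φ₀ : C → ℂ), Cf 𝔐 ℓ n χ₀ P₁ P x₀ C ψ₀ φ₀ →
    (∀ (χ : T → ℂ) (φ : C → ℂ), IsIrr χ → IsIrr φ →
      (ai C χ φ : ℂ) = ip (fun c : C => χ ((c : NP P₁) : T)) φ) ∧
    (∀ (χ : T → ℂ) (φ : C → ℂ) (g : NP P₁), IsIrr χ → IsIrr φ →
      ai C χ (cj C g φ) = ai C χ φ) ∧
    (∀ φ ∈ II 𝔐 φ₀, ∀ φ' ∈ II 𝔐 φ₀, φ 1 = φ' 1 ∧ ∀ c : C,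
      ¬ P₁ ≤ Subgroup.zpowers ((c : NP P₁) : T) → φ c = φ' c) ∧
    ∀ c : C, ℓ ∣ orderOf c → ∑ᶠ φ : II 𝔐 φ₀, (φ : C → ℂ) c = 0

/-- RCB_OUT: the multiplicities of a character outside of the block are constant.
Proof. Let `δ = φ - φ'`; by `AIN` (3) `δ c⁻¹ ≠ 0` implies `P₁ ≤ zpowers c`. The class function
`χ|N` is `∑ ip (χ|N) ψ • ψ` over `ψ ∈ irrF N`, so `ip (χ|C) δ = ∑ ψ, ip (χ|N) ψ * ip (ψ|C) δ`; if
`ip (ψ|C) δ ≠ 0` then `ψ` lies over `φ` or `φ'`, so `cen sub ψ = cen χ₀` by `LCC` (1). Hence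
`ip (χ|C) δ = |C|⁻¹ * ∑ c, (∑ ψ ∈ .. with cen sub ψ = cen χ₀, ip (χ|N) ψ * ψ c) * δ c⁻¹ = 0` by
`MTY` (the summands with `P₁ ≤ zpowers c`; the others have `δ c⁻¹ = 0`). -/
def Stmt_OUT : Prop :=
  ∀ (T : Type) [Group T] [Fintype T] (𝔐 : Ideal (integralClosure ℤ ℂ)) (ℓ n : ℕ)
    [Fact ℓ.Prime], 𝔐.IsMaximal → (ℓ : integralClosure ℤ ℂ) ∈ 𝔐 →
    ∀ (χ₀ : T → ℂ) (P₁ P : Subgroup T) (x₀ : T) [Fintype (NP P₁)] (C : Subgroup (NP P₁))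
      [C.Normal] (ψ₀ : NP P₁ → ℂ) (φ₀ : C → ℂ), Cf 𝔐 ℓ n χ₀ P₁ P x₀ C ψ₀ φ₀ →
    ∀ χ : T → ℂ, IsIrr χ → cen 𝔐 (MonoidHom.id T) χ ≠ cen 𝔐 (MonoidHom.id T) χ₀ →
    ∀ φ ∈ II 𝔐 φ₀, ∀ φ' ∈ II 𝔐 φ₀, ai C χ φ = ai C χ φ'

/-- RCB_TIS: the isometry (trivial intersection).
Proof. `a δ := ip (χ|C) δ = |C|⁻¹ ∑ c, χ c * δ c⁻¹`. By the second orthogonality relation
`∑ χ ∈ irrF T, χ x * χ y⁻¹ = |{t : t x t⁻¹ = y}|` (and `χ`, `δ'` : use that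
`ip (χ|C) δ' = |C|⁻¹ ∑ c, χ c⁻¹ * δ' c`) the left side is
`|C|⁻² ∑ t : T, ∑ c : C with t c t⁻¹ ∈ C, δ c⁻¹ * δ' (t c t⁻¹)`. If the summand is not zero then
`P₁ ≤ zpowers c` and `P₁ ≤ zpowers (t c t⁻¹)` (hypothesis), so `P₁` and `t P₁ t⁻¹` are subgroups of
order `ℓ` of the cyclic group `zpowers (t c t⁻¹)`, hence equal, and `t ∈ N`. -/
def Stmt_TIS : Prop :=
  ∀ (T : Type) [Group T] [Fintype T] (ℓ : ℕ) [Fact ℓ.Prime] (P₁ : Subgroup T)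
    [Fintype (NP P₁)] (C : Subgroup (NP P₁)) [C.Normal], Nat.card P₁ = ℓ →
    ∀ δ δ' : C → ℂ,
    (∀ c : C, ¬ P₁ ≤ Subgroup.zpowers ((c : NP P₁) : T) → δ c = 0) →
    (∀ c : C, ¬ P₁ ≤ Subgroup.zpowers ((c : NP P₁) : T) → δ' c = 0) →
    ∑ χ ∈ irrF T, ip (fun c : C => χ ((c : NP P₁) : T)) δ *
        ip (fun c : C => χ ((c : NP P₁) : T)⁻¹) (fun c => δ' c⁻¹) =
      (Nat.card C : ℂ)⁻¹ * ∑ t : NP P₁, ip (cj C t δ') δ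

open Classical in
/-- RCB_GRM: the Gram matrix.
Proof. By `OUT` the characters `χ ∈ irrF T` outside of the block contribute `0`, so the sum may be
taken over `irrF T`; apply `TIS` to `δ = φ - φ₁`, `δ' = φ' - φ₁` (`AIN` (3): they vanish at `c`
unless `P₁ ≤ zpowers c`; `ip (χ|C) δ'` is real, it is equal to
`ip (fun c => χ c⁻¹) (fun c => δ' c⁻¹)`: substitute `c ↦ c⁻¹`). For `t ∉ S` the characters of
`cj C t δ'` are not in `I` (`ORC`), so `ip (cj C t δ') δ = 0`. For `t ∈ S`: `cj C t φ₁ = φ₁`,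
`ip (cj C t φ' - φ₁) (φ - φ₁) = [cj C t φ' = φ] + 1` (`φ ≠ φ₁`, `cj C t φ' ≠ φ₁`). The number of
`t ∈ S` with `cj C t φ' = φ` is `|C|` if `φ`, `φ'` are conjugate and `0` otherwise (the
stabilizer of `φ'` in `S` is `C`). Since `|S| = e * |C|` the sum is `e + [φ, φ' conjugate]`. -/
def Stmt_GRM : Prop :=
  ∀ (T : Type) [Group T] [Fintype T] (𝔐 : Ideal (integralClosure ℤ ℂ)) (ℓ n : ℕ)
    [Fact ℓ.Prime], 𝔐.IsMaximal → (ℓ : integralClosure ℤ ℂ) ∈ 𝔐 →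
    ∀ (χ₀ : T → ℂ) (P₁ P : Subgroup T) (x₀ : T) [Fintype (NP P₁)] (C : Subgroup (NP P₁))
      [C.Normal] (ψ₀ : NP P₁ → ℂ) (φ₀ : C → ℂ), Cf 𝔐 ℓ n χ₀ P₁ P x₀ C ψ₀ φ₀ →
    ∀ φ₁ ∈ II 𝔐 φ₀, (∀ g ∈ bS 𝔐 C φ₀, cj C g φ₁ = φ₁) →
      (∀ φ ∈ II 𝔐 φ₀, φ ≠ φ₁ → ∀ g ∈ bS 𝔐 C φ₀, cj C g φ = φ → g ∈ C) →
    ∀ φ ∈ II 𝔐 φ₀, ∀ φ' ∈ II 𝔐 φ₀, φ ≠ φ₁ → φ' ≠ φ₁ →
      ∑ χ ∈ irrF T with cen 𝔐 (MonoidHom.id T) χ = cen 𝔐 (MonoidHom.id T) χ₀,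
        (ai C χ φ - ai C χ φ₁) * (ai C χ φ' - ai C χ φ₁) =
      (C.relIndex (bS 𝔐 C φ₀) : ℤ) + if Cjg 𝔐 C φ₀ φ φ' then 1 else 0

/-- RCB_ROW: the multiplicities of a character of the block are not constant.
Proof. Otherwise the last part of `NRMX` (the quantity is `ℓ ^ n * (ℓ ^ n * a ^ 2) - (ℓ ^ n * a) ^ 2
= 0`, because `|I| = ℓ ^ n`) shows `χ g = 0` for all `g` with `P₁ ≤ zpowers g`; this contradicts
`HGTX.not_vanish` (`DPX/HGTX.lean`) for an element `x₁` as in `HGTX.exists_reg`. -/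
def Stmt_ROW : Prop :=
  ∀ (T : Type) [Group T] [Fintype T] (𝔐 : Ideal (integralClosure ℤ ℂ)) (ℓ n : ℕ)
    [Fact ℓ.Prime], 𝔐.IsMaximal → (ℓ : integralClosure ℤ ℂ) ∈ 𝔐 →
    ∀ (χ₀ : T → ℂ) (P₁ P : Subgroup T) (x₀ : T) [Fintype (NP P₁)] (C : Subgroup (NP P₁))
      [C.Normal] (ψ₀ : NP P₁ → ℂ) (φ₀ : C → ℂ), Cf 𝔐 ℓ n χ₀ P₁ P x₀ C ψ₀ φ₀ →
    ∀ χ : T → ℂ, IsIrr χ → cen 𝔐 (MonoidHom.id T) χ = cen 𝔐 (MonoidHom.id T) χ₀ →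
      ∃ φ ∈ II 𝔐 φ₀, ∃ φ' ∈ II 𝔐 φ₀, ai C χ φ ≠ ai C χ φ'

open Classical in
/-- RCB_LML: Lemma L of PAPER.md.
Proof. For `s ≠ s'`: `∑ x, (v x s - v x s') ^ 2 = 2`, so exactly two `x` have `v x s ≠ v x s'`
and there `|v x s - v x s'| = 1`. For `x` let `d x` be the number of ordered pairs
`(s, s')` with `v x s ≠ v x s'`; `∑ x, d x = 2 * r * (r - 1)`. If the row `v x` is not constant it
has exactly two values (any two different values differ by `1`, so three different values are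
impossible), taken `p` and `r - p` times, `0 < p < r`, `d x = 2 * p * (r - p) ≥ 2 * (r - 1)`. So
there are at most `r` nonconstant rows, hence at least `e` constant ones. A constant row has the
value `c ≠ 0`, so `c ^ 2 ≥ 1`; since `∑ x, v x s ^ 2 = e + 1` there are at most `e + 1` constant
rows, and if there were `e + 1` then all other rows (there are `r - 1 ≥ 1`) would be zero:
contradiction. So there are exactly `e` constant rows; `e ≤ ∑ (constant) c ^ 2 ≤ e + 1`; if some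
`c ^ 2 > 1` then `c ^ 2 ≥ 4`: `∑ ≥ e + 3`, impossible. So `c = ± 1`, `Z` = the set of the constant
rows, and for each `s` the sum of `v x s ^ 2` over `x ∉ Z` is `1`: exactly one `x ∉ Z` has
`v x s ≠ 0`, and it is `± 1`. Each of the `r` rows `x ∉ Z` is not zero; counting the pairs
`(x, s)`, `x ∉ Z`, `v x s ≠ 0` (there are `r`) each row `x ∉ Z` has exactly one nonzero entry,
at `f x`. -/
def Stmt_LML : Prop :=
  ∀ (X S : Type) [Fintype X] [Fintype S] (e r : ℕ), Fintype.card S = r →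
    Fintype.card X = e + r → 2 ≤ r → ∀ v : X → S → ℤ, (∀ x, ∃ s, v x s ≠ 0) →
    (∀ s s', ∑ x, v x s * v x s' = (e : ℤ) + if s = s' then 1 else 0) →
    ∃ (Z : Finset X) (f : X → S), Z.card = e ∧
      (∀ x ∈ Z, ∃ b : ℤ, (b = 1 ∨ b = -1) ∧ ∀ s, v x s = b) ∧
      (∀ x, x ∉ Z → ∃ b : ℤ, (b = 1 ∨ b = -1) ∧ ∀ s, v x s = if s = f x then b else 0) ∧
      ∀ s, ∃! x, x ∉ Z ∧ f x = s

/-- RCB_MTD: the multiplicities of the characters of the block, general case.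
Proof. `ORC` gives `φ₁`; `TOT` gives `r` with `e * r + 1 = L`, `|X| = e + r`, `X` = the characters
of the block; the hypothesis means `r ≥ 2`. Let `S'` be a set of representatives (a subtype or the
quotient) of the orbits of `S` on `I ∖ {φ₁}`; they have `e` elements each (stabilizer `C`), so
`|S'| = r`. Apply `LML` to `v χ s = ai C χ φ_s - ai C χ φ₁` (`GRM`; `ROW` and `AIN` (2): a zero
row means that `ai C χ` is constant on `I`). For `χ ∈ Z`, `v χ s = b`: `ai C χ φ' = a + b` for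
`φ' ≠ φ₁` and `a` for `φ' = φ₁`: this is `MtA` with `a + b`, `- b` and `φ = φ₁` (the conjugates of
`φ₁` are `φ₁`). For `χ ∉ Z`: `MtA` with `a = ai C χ φ₁`, `b` and `φ = φ_{f χ}`. Uniqueness: there
are `r + 1 ≥ 3` orbits, so a function `a + b * [φ' conjugate to φ]` on `I` (`b ≠ 0`) determines
the orbit of `φ` (it is the only orbit whose value is different from the values at all the other
orbits). Numbers: for `φ` invariant under `S`: if `e > 1` then `φ = φ₁`, and the number is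
`|Z| = e`; if `e = 1` then all orbits are single points, the number is `1` for each (for `φ₁` it is
`|Z| = 1`). If `φ` is not invariant then `φ ≠ φ₁`, `e > 1`, and the number is `1`. -/
def Stmt_MTD : Prop :=
  ∀ (T : Type) [Group T] [Fintype T] (𝔐 : Ideal (integralClosure ℤ ℂ)) (ℓ n : ℕ)
    [Fact ℓ.Prime], 𝔐.IsMaximal → (ℓ : integralClosure ℤ ℂ) ∈ 𝔐 →
    ∀ (χ₀ : T → ℂ) (P₁ P : Subgroup T) (x₀ : T) [Fintype (NP P₁)] (C : Subgroup (NP P₁))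
      [C.Normal] (ψ₀ : NP P₁ → ℂ) (φ₀ : C → ℂ), Cf 𝔐 ℓ n χ₀ P₁ P x₀ C ψ₀ φ₀ →
    C.relIndex (bS 𝔐 C φ₀) + 1 < ℓ ^ n →
    (∀ χ : T → ℂ, IsIrr χ → cen 𝔐 (MonoidHom.id T) χ = cen 𝔐 (MonoidHom.id T) χ₀ →
      ∃ φ ∈ II 𝔐 φ₀, MtA 𝔐 C φ₀ χ φ) ∧
    (∀ χ : T → ℂ, ∀ φ ∈ II 𝔐 φ₀, ∀ φ' ∈ II 𝔐 φ₀, MtA 𝔐 C φ₀ χ φ → MtA 𝔐 C φ₀ χ φ' →
      Cjg 𝔐 C φ₀ φ φ') ∧
    ∀ φ ∈ II 𝔐 φ₀,
      ((∀ g ∈ bS 𝔐 C φ₀, cj C g φ = φ) →
        Nat.card {χ : T → ℂ // (IsIrr χ ∧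
          cen 𝔐 (MonoidHom.id T) χ = cen 𝔐 (MonoidHom.id T) χ₀) ∧ MtA 𝔐 C φ₀ χ φ} =
            C.relIndex (bS 𝔐 C φ₀)) ∧
      ((¬ ∀ g ∈ bS 𝔐 C φ₀, cj C g φ = φ) →
        Nat.card {χ : T → ℂ // (IsIrr χ ∧
          cen 𝔐 (MonoidHom.id T) χ = cen 𝔐 (MonoidHom.id T) χ₀) ∧ MtA 𝔐 C φ₀ χ φ} = 1)

open Classical in
/-- RCB_RON: the case `r = 1`.
Proof. `e + 1 = L` and `e ∣ ℓ - 1` give `L ≤ ℓ`, so `n = 1`, `e = ℓ - 1 ≥ 2` (`ℓ ≠ 2`), and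
`|X| = e + 1 = ℓ` (`TOT`, `r = 1`). `S` permutes `I ∖ {φ₁}` regularly. For `φ ≠ φ₁`, `GRM` with
`φ' = φ`: `∑ χ, v χ ^ 2 = e + 1 = ℓ`, with `v χ = ai C χ φ - ai C χ φ₁ ≠ 0` (`ROW`, `AIN` (2)) and
`ℓ` summands: `v χ = ± 1`. Last: `∑ χ ∈ irrF T, ip (χ|C) (φ - φ₁) * χ 1 = ` (second
orthogonality: `∑ χ, χ c * χ 1 = 0` for `c ≠ 1`) `|C|⁻¹ * |T| * (φ - φ₁) 1 = 0`, and the characters
outside the block contribute `0` (`OUT`). -/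
def Stmt_RON : Prop :=
  ∀ (T : Type) [Group T] [Fintype T] (𝔐 : Ideal (integralClosure ℤ ℂ)) (ℓ n : ℕ)
    [Fact ℓ.Prime], 𝔐.IsMaximal → (ℓ : integralClosure ℤ ℂ) ∈ 𝔐 → ℓ ≠ 2 →
    ∀ (χ₀ : T → ℂ) (P₁ P : Subgroup T) (x₀ : T) [Fintype (NP P₁)] (C : Subgroup (NP P₁))
      [C.Normal] (ψ₀ : NP P₁ → ℂ) (φ₀ : C → ℂ), Cf 𝔐 ℓ n χ₀ P₁ P x₀ C ψ₀ φ₀ →
    C.relIndex (bS 𝔐 C φ₀) + 1 = ℓ ^ n → ∀ φ₁ ∈ II 𝔐 φ₀,
    (∀ g ∈ bS 𝔐 C φ₀, cj C g φ₁ = φ₁) → ∀ φ ∈ II 𝔐 φ₀, φ ≠ φ₁ →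
    1 < C.relIndex (bS 𝔐 C φ₀) ∧ C.relIndex (bS 𝔐 C φ₀) + 1 = ℓ ∧
    Nat.card {χ : T → ℂ // IsIrr χ ∧
      cen 𝔐 (MonoidHom.id T) χ = cen 𝔐 (MonoidHom.id T) χ₀} = ℓ ∧
    (∀ φ' ∈ II 𝔐 φ₀, φ' ≠ φ₁ → Cjg 𝔐 C φ₀ φ φ') ∧
    (∀ χ : T → ℂ, IsIrr χ → cen 𝔐 (MonoidHom.id T) χ = cen 𝔐 (MonoidHom.id T) χ₀ →
      ai C χ φ - ai C χ φ₁ = 1 ∨ ai C χ φ - ai C χ φ₁ = -1) ∧
    ∑ χ ∈ irrF T with cen 𝔐 (MonoidHom.id T) χ = cen 𝔐 (MonoidHom.id T) χ₀,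
      ((ai C χ φ - ai C χ φ₁ : ℤ) : ℂ) * χ 1 = 0

/-! ### Translation to functions on the group -/

/-- RCB_TRM: the dictionary between functions on subgroups of `NP P₁` and functions on `G`.
Here `z φ` is the extension by zero of `φ : C → ℂ`, `z' ψ` that of `ψ : NP P₁ → ℂ`.
Proof. `stb {P₁}` is the normalizer of `P₁` (`mem_stb`, `mem_stb_of` in `DPX/GDX.lean`),
`Subgroup.centralizer P₁` is the image of `C` in `G`; all statements are transport along these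
isomorphisms, `cg_eq`, `cg_eq_cen`, `cgT_eq` (see `DP/AA.lean`, `DP/BLKC.lean`, `DP/AAH.lean`,
`DPX/CYCX.lean`, `atX_equiv`). -/
def Stmt_TRM : Prop :=
  ∀ (G : Type) [Group G] [Fintype G] (𝔐 : Ideal (integralClosure ℤ ℂ)) (P₁ : Subgroup G)
    [Fintype (NP P₁)] (C : Subgroup (NP P₁)) [C.Normal],
    C = Subgroup.centralizer ((P₁.subgroupOf (Subgroup.normalizer (P₁ : Set G)) :
      Subgroup (NP P₁)) : Set (NP P₁)) →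
    ∃ (z : (C → ℂ) → (G → ℂ)) (z' : (NP P₁ → ℂ) → (G → ℂ)),
      (∀ φ (c : C), z φ ((c : NP P₁) : G) = φ c) ∧
      (∀ φ g, g ∉ Subgroup.centralizer (P₁ : Set G) → z φ g = 0) ∧
      (∀ ψ (s : NP P₁), z' ψ (s : G) = ψ s) ∧ (∀ ψ g, g ∉ stb {P₁} → z' ψ g = 0) ∧
      (∀ g, g ∈ stb {P₁} ↔ g ∈ Subgroup.normalizer (P₁ : Set G)) ∧
      (∀ c : NP P₁, c ∈ C ↔ (c : G) ∈ Subgroup.centralizer (P₁ : Set G)) ∧
      (∀ f : G → ℂ, IrrOn (Subgroup.centralizer (P₁ : Set G)) f ↔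
        ∃ φ, IsIrr φ ∧ f = z φ) ∧
      (∀ f : G → ℂ, IrrOn (stb {P₁}) f ↔ ∃ ψ, IsIrr ψ ∧ f = z' ψ) ∧
      Function.Injective z ∧ Function.Injective z' ∧
      (∀ (f : G → ℂ) (φ : C → ℂ), mu (Subgroup.centralizer (P₁ : Set G)) f (z φ) =
        ip (fun c : C => f ((c : NP P₁) : G)) φ) ∧
      (∀ ψ : NP P₁ → ℂ, ∀ g, cg 𝔐 (z' ψ) g =
        cen 𝔐 (Subgroup.normalizer (P₁ : Set G)).subtype ψ g) ∧
      (∀ (φ : C → ℂ) (c : C), cgT 𝔐 (Subgroup.centralizer (P₁ : Set G)) (z φ)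
        ((c : NP P₁) : G) = cen 𝔐 (MonoidHom.id C) φ c) ∧
      ∀ (φ : C → ℂ) (s : NP P₁) (g : G), z φ ((s : G) * g * (s : G)⁻¹) = z (cj C s φ) g

/-- RCB_DIC: the two cases.
Proof. Let `ω = cen θ`. Choose `ψ₀` (`CNTX`: the number of `ψ` with `cen sub ψ = ω` is positive)
and a constituent `φ₀` of `ψ₀|C`: a configuration `Cf`. With `TRM`, `XS`, `YL` are the sets of
the characters of the block and of `ψ` with `cen sub ψ = cen χ₀` (`IrrOn (stb ∅)` is `IsIrr`: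
`stb ∅ = ⊤`), and `ZC` is the set of the `z (cj C g φ)`, `φ ∈ I`, `g : N` (`LCC` (2), (4), and
`ORBX`, `SUMM` (2): constituents of `ψ|C` are conjugate under `N`). Since the multiplicities are
invariant under `N`, `Mtc χ ψ` is `MtA χ φ` for any `φ ∈ I` under `ψ` (`LCC` (3), (5)), and
`SupEq ψ ψ'` iff `ψ`, `ψ'` lie over conjugate (equivalently, one common) `φ ∈ I`; so if
`e + 1 < L`, `MTD` and `LCC` (6) give `MtF`. Otherwise `e + 1 = L` (`TOT`: `e * r + 1 = L`, `r ≥ 1`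
since `L ≥ ℓ ≥ 2`), and `RON` applies: `EB` because `e > 1`: some `g ∈ S ∖ C`; exactly one `ψ ∈ YL`
is not special (those over `φ₁` are `e ≥ 2` in number and special, the one over the other orbit
is not); `v χ = ai C χ φ - ai C χ φ₁` for some (all) `φ ∈ I ∖ {φ₁}`. Invariance of `v` under `b`:
`κ b` maps `ZC` to itself, so `κ b` maps the block of `φ₀` to an `N`-conjugate block; with some
`s ∈ N`, `φ ↦ φ ∘ κ b ∘ conj s` maps `I` to `I` and (because it permutes the characters in `I`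
invariant under `S`) `φ₁` to `φ₁`; the multiplicities of `χ ∘ κ b` at `φ ∘ κ b` are those of `χ` at
`φ`. -/
def Stmt_DIC : Prop :=
  ∀ (G B C : Type) [Group G] [Fintype G] [Group B] [Fintype B] [Group C]
    (𝔐 : Ideal (integralClosure ℤ ℂ)) (ℓ n : ℕ) [Fact ℓ.Prime], 𝔐.IsMaximal →
    (ℓ : integralClosure ℤ ℂ) ∈ 𝔐 → ℓ ≠ 2 → ∀ (ι : G →* B) (κ : B →* MulAut G) (ρ : B →* C),
    LocN ι κ ρ → ∀ (ω : G → (integralClosure ℤ ℂ) ⧸ 𝔐) (P₁ P : Subgroup G) (x₀ : G),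
    StX 𝔐 ℓ n κ ω P₁ P x₀ → MtF 𝔐 P₁ ω ∨ RnF 𝔐 ℓ κ P₁ ω

/-! ### The bijection -/

/-- RCB_EQV: elementary properties of the action of `B`.
Proof. `(Stx κ {P₁} 0).map ρ = ⊤` is `FXGX` (`YS ι {P₁}`, the normalizer of `ι P₁`, is
`Stx κ {P₁} 0`). The elements of `ι G` fix the characters of `G`, the elements of
`ι (stb {P₁})` those of `stb {P₁}`. Composition with `κ b` preserves `XS` (`ω` is invariant), `YL`
and `ZC` if `b` normalizes `P₁`, and the multiplicities `mu`. -/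
def Stmt_EQV : Prop :=
  ∀ (G B C : Type) [Group G] [Fintype G] [Group B] [Fintype B] [Group C]
    (𝔐 : Ideal (integralClosure ℤ ℂ)) (ℓ n : ℕ) [Fact ℓ.Prime], 𝔐.IsMaximal →
    (ℓ : integralClosure ℤ ℂ) ∈ 𝔐 → ∀ (ι : G →* B) (κ : B →* MulAut G) (ρ : B →* C),
    LocN ι κ ρ → ∀ (ω : G → (integralClosure ℤ ℂ) ⧸ 𝔐) (P₁ P : Subgroup G) (x₀ : G),
    StX 𝔐 ℓ n κ ω P₁ P x₀ →
    (∀ c : C, ∃ b ∈ Stx κ {P₁} (fun _ => 0), ρ b = c) ∧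
    (∀ χ ∈ XS 𝔐 ω, ∀ b : B, (fun g => χ (κ b g)) ∈ XS 𝔐 ω ∧
      (ρ b ∈ (Stx κ ∅ χ).map ρ ↔ (fun g => χ (κ b g)) = χ)) ∧
    (∀ ψ ∈ YL 𝔐 P₁ ω, ∀ b ∈ Stx κ {P₁} (fun _ => 0), (fun g => ψ (κ b g)) ∈ YL 𝔐 P₁ ω ∧
      (ρ b ∈ (Stx κ {P₁} ψ).map ρ ↔ (fun g => ψ (κ b g)) = ψ)) ∧
    (∀ φ : G → ℂ, ∀ b ∈ Stx κ {P₁} (fun _ => 0),
      (φ ∈ ZC 𝔐 P₁ ω ↔ (fun g => φ (κ b g)) ∈ ZC 𝔐 P₁ ω)) ∧
    (∀ f φ : G → ℂ, ∀ b ∈ Stx κ {P₁} (fun _ => 0),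
      mu (Subgroup.centralizer (P₁ : Set G)) (fun g => f (κ b g)) (fun g => φ (κ b g)) =
        mu (Subgroup.centralizer (P₁ : Set G)) f φ) ∧
    (∀ χ ψ : G → ℂ, ∀ b ∈ Stx κ {P₁} (fun _ => 0), Mtc 𝔐 P₁ ω χ ψ →
      Mtc 𝔐 P₁ ω (fun g => χ (κ b g)) (fun g => ψ (κ b g))) ∧
    (∀ ψ ψ' : G → ℂ, ∀ b ∈ Stx κ {P₁} (fun _ => 0), SupEq 𝔐 P₁ ω ψ ψ' →
      SupEq 𝔐 P₁ ω (fun g => ψ (κ b g)) (fun g => ψ' (κ b g)))

/-- RCB_FIL: the numbers of characters fixed by an element of order prime to `ℓ`.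
Proof. `FIXX` for the group `B₁ = (zpowers c).comap ρ`, `C₁ = zpowers c`, which is cyclic of
order prime to `ℓ`, so `LocV` holds: `IrrOn (stb σ) ψ` extends to `Stx κ₁ σ ψ` by `EXTC`
(`stb σ → Stx κ₁ σ ψ → C₁` has cyclic image). The stabilizers are compared by
`c ∈ (Stx κ₁ σ ψ).map ρ₁ ↔ c ∈ (Stx κ σ ψ).map ρ`. -/
def Stmt_FIL : Prop :=
  ∀ (G B C : Type) [Group G] [Fintype G] [Group B] [Fintype B] [Group C]
    (𝔐 : Ideal (integralClosure ℤ ℂ)) (ℓ n : ℕ) [Fact ℓ.Prime], 𝔐.IsMaximal →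
    (ℓ : integralClosure ℤ ℂ) ∈ 𝔐 → ∀ (ι : G →* B) (κ : B →* MulAut G) (ρ : B →* C),
    LocN ι κ ρ → ∀ (ω : G → (integralClosure ℤ ℂ) ⧸ 𝔐) (P₁ P : Subgroup G) (x₀ : G),
    AtX ℓ n ω P₁ P x₀ → ∀ c : C, ¬ ℓ ∣ orderOf c →
      Nat.card {χ : G → ℂ // χ ∈ XS 𝔐 ω ∧ c ∈ (Stx κ ∅ χ).map ρ} =
      Nat.card {ψ : G → ℂ // ψ ∈ YL 𝔐 P₁ ω ∧ c ∈ (Stx κ {P₁} ψ).map ρ}

/-- RCB_LSP: the special local characters.
Proof. Configuration `Cf` and dictionary `TRM` as in `DIC`; `SupEq ψ ψ'` iff they lie over a common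
`φ ∈ I`. By `LCC` (6) two different `ψ` lie over `φ` only if `φ` is invariant under `S`, and `e > 1`,
so `φ = φ₁`: the special `ψ` are those over `φ₁`, there are `e` of them (`e ≤ ℓ - 1`), `e > 1`;
`EB` holds (`g ∈ S ∖ C`). This gives (1), (2), (3), (5).
Stabilizers: let `J` be the set of `b ∈ Stx κ {P₁} 0` which stabilize the block of `φ₀` (i.e.
`φ ↦ φ ∘ κ b` maps `I` to `I`); `J.map ρ = ⊤` (`b` maps the block to a block under the same block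
of `N`, i.e. to an `N`-conjugate one). `J` normalizes `ι S`, so it permutes the characters in `I`
invariant under `S` and fixes `φ₁`. For `b ∈ J`, `s ∈ S` the commutator `[b, ι s]` lies in `ι C`
(it centralizes `P₁`: the automorphism group of `P₁` is abelian). Let `Z` be the set of the
extensions of `φ₁` to `S` (nonempty, `EXTC`), a torsor under the linear characters of `S/C`;
`ζ ↦ Ind ζ` is a bijection from `Z` to the special `ψ`, commuting with `b ∈ J`. For `b ∈ J`,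
`ζ ∘ κ b = λ_b ζ`, and since `(μ ζ) ∘ κ b = μ (ζ ∘ κ b)` for linear characters `μ` of `S/C`
(`[b, S] ≤ C`), `λ_b` does not depend on `ζ`; `b ↦ λ_b` is a homomorphism to the group of linear
characters of the cyclic group `S/C`, which is cyclic. `b` fixes `Ind ζ` iff `λ_b = 1`. So the
stabilizers in `C` of all special `ψ` are `ρ (ker λ)`, and the quotient is cyclic; this is
(1) second half and (4). -/
def Stmt_LSP : Prop :=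
  ∀ (G B C : Type) [Group G] [Fintype G] [Group B] [Fintype B] [Group C]
    (𝔐 : Ideal (integralClosure ℤ ℂ)) (ℓ n : ℕ) [Fact ℓ.Prime], 𝔐.IsMaximal →
    (ℓ : integralClosure ℤ ℂ) ∈ 𝔐 → ∀ (ι : G →* B) (κ : B →* MulAut G) (ρ : B →* C),
    LocN ι κ ρ → ∀ (ω : G → (integralClosure ℤ ℂ) ⧸ 𝔐) (P₁ P : Subgroup G) (x₀ : G),
    StX 𝔐 ℓ n κ ω P₁ P x₀ →
    (∀ ψ ∈ YL 𝔐 P₁ ω, ∀ ψ' ∈ YL 𝔐 P₁ ω, Spc 𝔐 P₁ ω ψ → Spc 𝔐 P₁ ω ψ' →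
      SupEq 𝔐 P₁ ω ψ ψ' ∧ (Stx κ {P₁} ψ).map ρ = (Stx κ {P₁} ψ').map ρ) ∧
    (∀ ψ ∈ YL 𝔐 P₁ ω, Spc 𝔐 P₁ ω ψ → EB 𝔐 P₁ ω) ∧
    Nat.card {ψ : G → ℂ // ψ ∈ YL 𝔐 P₁ ω ∧ Spc 𝔐 P₁ ω ψ} < ℓ ∧
    (∀ ψ ∈ YL 𝔐 P₁ ω, Spc 𝔐 P₁ ω ψ →
      ∃ c0 : C, ∀ c : C, ∃ k : ℤ, c * c0 ^ k ∈ (Stx κ {P₁} ψ).map ρ) ∧
    ∀ ψ ∈ YL 𝔐 P₁ ω, ∀ ψ' ∈ YL 𝔐 P₁ ω, SupEq 𝔐 P₁ ω ψ ψ' → Spc 𝔐 P₁ ω ψ →
      Spc 𝔐 P₁ ω ψ'

/-- RCB_BJA: the bijection in the general case.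
Proof. Put `C_χ = (Stx κ ∅ χ).map ρ`, `C_ψ = (Stx κ {P₁} ψ).map ρ`.
(1) If `Mtc χ ψ` and `ψ` is not special then `C_χ = C_ψ`: let `c = ρ b`, `b` normalizing `P₁`
(`EQV`). If `c ∈ C_ψ`, then `ψ ∘ κ b = ψ`, `Mtc (χ ∘ κ b) ψ`, and by `MtF.cnt` there is only one `χ`
with `Mtc χ ψ`, so `χ ∘ κ b = χ`. If `c ∈ C_χ` then `Mtc χ (ψ ∘ κ b)`, so `SupEq ψ (ψ ∘ κ b)`
(`MtF.uq`), and `ψ ∘ κ b = ψ` since `ψ` is not special.
(2) Let `X₀` be the set of `χ ∈ XS` with `Mtc χ ψ` for some special `ψ ∈ YL`, `Y₀` the set of the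
special `ψ ∈ YL`. If `Y₀ = ∅` we are done: every `χ` matches exactly one `ψ`, `Φ χ = ψ`, bijective
by `MtF.cnt` (all the numbers are `1`). Otherwise `|X₀| = |Y₀| = e' < ℓ` (`MtF.cnt`, `LSP` (1)),
both are stable under `C`, and all `ψ ∈ Y₀` have the same `C_ψ =: Γ`. For `c` of order prime to `ℓ`:
`FIL` and (1) (the nonspecial ones correspond bijectively with equal stabilizers) give
`|{χ ∈ X₀ : c ∈ C_χ}| = |{ψ ∈ Y₀ : c ∈ C_ψ}|`, which is `e'` if `c ∈ Γ` and `0` otherwise. An element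
`c` of `ℓ`-power order acts trivially on `X₀` and on `Y₀` (permutations of `ℓ`-power order of a set
with less than `ℓ` elements are trivial). An arbitrary `c` is a product of powers `c'`, `c''`
of `c` of order prime to `ℓ` and of `ℓ`-power order; so for `χ ∈ X₀`: `c ∈ C_χ ↔ c' ∈ C_χ ↔
c' ∈ Γ ↔ c ∈ Γ`. So `C_χ = Γ` for all `χ ∈ X₀`. Let `Φ` be the matching on `XS ∖ X₀` and any
bijection `X₀ → Y₀` on `X₀`; on `X₀` `EB` holds (`LSP` (2)), and `Mtc` as well. -/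
def Stmt_BJA : Prop :=
  ∀ (G B C : Type) [Group G] [Fintype G] [Group B] [Fintype B] [Group C]
    (𝔐 : Ideal (integralClosure ℤ ℂ)) (ℓ n : ℕ) [Fact ℓ.Prime], 𝔐.IsMaximal →
    (ℓ : integralClosure ℤ ℂ) ∈ 𝔐 → ∀ (ι : G →* B) (κ : B →* MulAut G) (ρ : B →* C),
    LocN ι κ ρ → ∀ (ω : G → (integralClosure ℤ ℂ) ⧸ 𝔐) (P₁ P : Subgroup G) (x₀ : G),
    StX 𝔐 ℓ n κ ω P₁ P x₀ → MtF 𝔐 P₁ ω →
    ∃ Φ : (G → ℂ) → (G → ℂ), Set.BijOn Φ (XS 𝔐 ω) (YL 𝔐 P₁ ω) ∧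
      ∀ χ ∈ XS 𝔐 ω, (Stx κ ∅ χ).map ρ = (Stx κ {P₁} (Φ χ)).map ρ ∧
        (EB 𝔐 P₁ ω ∨ Mtc 𝔐 P₁ ω χ (Φ χ))

/-- RCB_BJB: the bijection in the case `r = 1`.
Proof. `|XS| = |YL| = ℓ` (`CNTX`, or `FIL` for `c = 1`). `C` acts on `XS` and `YL`, `Γ = C_ψ` for all
special `ψ` (there are `ℓ - 1 ≥ 1` of them, `RnF.ns`), the nonspecial `ψ_e` is fixed by `C` (the
property is invariant, `EQV`), so `c ∈ C` fixes `ℓ` elements of `YL` if `c ∈ Γ` and `1` otherwise.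
An element `c` of `ℓ`-power order acts trivially on `XS`: otherwise it acts as an `ℓ`-cycle on the
`ℓ` elements of `XS`, and `v` (`RnF.v`, invariant) is constant on `XS`, `± 1`, so
`∑ v χ * χ 1 ≠ 0` (`χ 1 > 0`): contradiction. On `YL` it acts trivially too (it fixes `ψ_e` and the
`ℓ - 1 < ℓ` others). By `FIL` for the `ℓ'`-part of `c`: every `c : C` fixes `ℓ` elements of `XS` if
`c ∈ Γ` and `1` otherwise. If `Γ = ⊤` all stabilizers are `⊤`, take any bijection. Otherwise let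
`c0` be a generator modulo `Γ` (`LSP` (4)), `χ_e` its unique fixed point in `XS`. Every `c : C` is a
product of a power of `c0` and an element of `Γ` (which acts trivially on `XS`), so it fixes `χ_e`;
for `c ∉ Γ` it is the only fixed point. So `C_{χ_e} = ⊤ = C_{ψ_e}` and `C_χ = Γ` for `χ ≠ χ_e`. Let
`Φ χ_e = ψ_e` and `Φ` be any bijection of the others. `EB` holds. -/
def Stmt_BJB : Prop :=
  ∀ (G B C : Type) [Group G] [Fintype G] [Group B] [Fintype B] [Group C]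
    (𝔐 : Ideal (integralClosure ℤ ℂ)) (ℓ n : ℕ) [Fact ℓ.Prime], 𝔐.IsMaximal →
    (ℓ : integralClosure ℤ ℂ) ∈ 𝔐 → ℓ ≠ 2 → ∀ (ι : G →* B) (κ : B →* MulAut G) (ρ : B →* C),
    LocN ι κ ρ → ∀ (ω : G → (integralClosure ℤ ℂ) ⧸ 𝔐) (P₁ P : Subgroup G) (x₀ : G),
    StX 𝔐 ℓ n κ ω P₁ P x₀ → RnF 𝔐 ℓ κ P₁ ω →
    ∃ Φ : (G → ℂ) → (G → ℂ), Set.BijOn Φ (XS 𝔐 ω) (YL 𝔐 P₁ ω) ∧
      ∀ χ ∈ XS 𝔐 ω, (Stx κ ∅ χ).map ρ = (Stx κ {P₁} (Φ χ)).map ρ ∧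
        (EB 𝔐 P₁ ω ∨ Mtc 𝔐 P₁ ω χ (Φ χ))

end Pool.Agent.RCB
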