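import Mathlib
import Pool.Agent.RCB.DefsP

/-!
# Theorem P1: statements, block 3 (extension of linear characters, factor sets)
-/

namespace Pool.Agent.RCB

open Pool.Agent.DP Pool.Agent.DPV Pool.Agent.DPB Pool.Agent.DPW Pool.Agent.DPX
open Pool.Agent.Lib_helper13 Representation

/-! ### Extension of linear characters -/

/-- RCB_TRF: the transfer of a linear character.
Proof. `L` as a group `↥L`, `R' = R.subgroupOf L`; `m : R' →* ℂˣ` given by `μ` (the values are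
units since `μ x * μ x⁻¹ = μ 1 = 1`). Let `t = MonoidHom.transfer m : ↥L →* ℂˣ` (finite index).
For `u ∈ U` use `MonoidHom.transfer_def`/`transfer` for any left transversal `S` of `R'`: `t u` is
the product over the cosets `q = s R'` of `m (s₁⁻¹ * u * s)` where `s₁` is the representative of
`u s R'`; since `U` is normal in `L` and contained in `R`, `u s = s (s⁻¹ u s) ∈ s R'`, so `s₁ = s`
and the factor is `μ (s⁻¹ u s) = μ u` (invariance). Hence `t u = μ u ^ |L : R|`. Put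
`lam x = t x` for `x ∈ L`, `1` otherwise. (Instead of the transfer one can use any other proof, e.g.
the determinant of the induced representation.) -/
def Stmt_TRF : Prop :=
  ∀ (C : Type) [Group C] [Finite C] (L U R : Subgroup C), U ≤ R → R ≤ L →
    (∀ c ∈ L, ∀ u ∈ U, c * u * c⁻¹ ∈ U) → ∀ μ : C → ℂ, LinOn R μ →
    (∀ c ∈ L, ∀ u ∈ U, μ (c * u * c⁻¹) = μ u) →
    ∃ lam : C → ℂ, LinOn L lam ∧ ∀ u ∈ U, lam u = μ u ^ R.relIndex L

/-- RCB_EXL: an invariant linear character which extends to `U R` for all Sylow subgroups `R`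
extends.
Proof. For every prime `r` let `R` be a Sylow `r`-subgroup of `L`, `μ` the given extension to
`U ⊔ R`, and `lam_r` the linear character of `L` of `TRF`, whose restriction to `U` is
`ν ^ m_r`, `m_r = (U ⊔ R).relIndex L`, which is not divisible by `r` (`R ≤ U ⊔ R`). Let `m` be the
set of the `k : ℤ` such that `ν ^ k` (`fun u => ν u ^ k`, the values are nonzero) is the
restriction of a linear character of `L`: it is a subgroup of `ℤ` which contains all `m_r`, so it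
is `ℤ` (`Int.subgroup_cyclic`: it is `dℤ`, a prime divisor `r` of `d` would divide `m_r`;
`d ≠ 0` since `m_2 ≠ 0`). -/
def Stmt_EXL : Prop :=
  ∀ (C : Type) [Group C] [Finite C] (L U : Subgroup C), U ≤ L →
    (∀ c ∈ L, ∀ u ∈ U, c * u * c⁻¹ ∈ U) → ∀ ν : C → ℂ, LinOn U ν →
    (∀ c ∈ L, ∀ u ∈ U, ν (c * u * c⁻¹) = ν u) →
    (∀ r : ℕ, r.Prime → ∀ R ≤ L, IsPGroup r R →
      ∃ μ : C → ℂ, LinOn (U ⊔ R) μ ∧ ∀ u ∈ U, μ u = ν u) →
    ∃ lam : C → ℂ, LinOn L lam ∧ ∀ u ∈ U, lam u = ν u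

/-- RCB_CYL: extension of an invariant linear character over a cyclic quotient.
Proof. `U R` consists of the `u * c0 ^ i`. Let `k > 0` be minimal with `c0 ^ k ∈ U`, and `z` a
complex number with `z ^ k = ν (c0 ^ k)` (`Complex` is algebraically closed). Define
`μ (u * c0 ^ i) = ν u * z ^ i`; it is well defined (if `u * c0 ^ i = u' * c0 ^ j` then `k ∣ i - j`
and `u⁻¹ * u' = c0 ^ (i - j)`, `ν (c0 ^ (k m)) = z ^ (k m)`) and multiplicative since
`ν (c0 ^ i * u * c0 ^ (-i)) = ν u`. (Or use `Stmt_EXTC` of `DP/StmtsR.lean` for the groups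
`U ≤ U R`.) -/
def Stmt_CYL : Prop :=
  ∀ (C : Type) [Group C] [Finite C] (U R : Subgroup C), (∀ c ∈ R, ∀ u ∈ U, c * u * c⁻¹ ∈ U) →
    (∃ c0 ∈ R, ∀ c ∈ R, ∃ k : ℤ, c * c0 ^ k ∈ U) → ∀ ν : C → ℂ, LinOn U ν →
    (∀ c ∈ R, ∀ u ∈ U, ν (c * u * c⁻¹) = ν u) →
    ∃ μ : C → ℂ, LinOn (U ⊔ R) μ ∧ ∀ u ∈ U, μ u = ν u

/-- RCB_COL: extension of an invariant linear character over a coprime quotient.
Proof. Let `k` be the exponent with `ν u ^ k = 1`, `R` an `r`-group, `r` prime to `k`. For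
`x ∈ U ⊓ R` the value `ν x` has order dividing `k` and a power of `r`, so it is `1`. Define
`μ (u * x) = ν u` (`u ∈ U`, `x ∈ R`); well defined: `u * x = u' * x'` gives `u'⁻¹ * u ∈ U ⊓ R`;
multiplicative since `ν (x * u * x⁻¹) = ν u`. -/
def Stmt_COL : Prop :=
  ∀ (C : Type) [Group C] [Finite C] (U R : Subgroup C) (r k : ℕ), r.Prime → ¬ r ∣ k →
    IsPGroup r R → (∀ c ∈ R, ∀ u ∈ U, c * u * c⁻¹ ∈ U) → ∀ ν : C → ℂ, LinOn U ν →
    (∀ u ∈ U, ν u ^ k = 1) → (∀ c ∈ R, ∀ u ∈ U, ν (c * u * c⁻¹) = ν u) →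
    ∃ μ : C → ℂ, LinOn (U ⊔ R) μ ∧ ∀ u ∈ U, μ u = ν u

/-- RCB_TEI: lifting of a linear character modulo `𝔐`.
Proof. `F = (integralClosure ℤ ℂ) ⧸ 𝔐` is a field of characteristic `ℓ`; let `N` be the `ℓ'`-part
of the order of `U` (`Nat.card U = ℓ ^ a * N`). For `u ∈ U`: `ν u ^ Nat.card U = 1`, and since
`F` has characteristic `ℓ`, `(ν u ^ N) ^ ℓ ^ a = 1` gives `ν u ^ N = 1`. The reduction of the `N`-th
roots of unity of `ℂ` to those of `F` is injective (`X ^ N - 1` is separable mod `ℓ`; see the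
proof of `LINX` in `DPV/LINX.lean` or `DPX`, which contains this), and there are `N` of them in `ℂ`
and at most `N` in `F`, so it is a bijective homomorphism; let `ν̃ u` be the preimage of `ν u`. -/
def Stmt_TEI : Prop :=
  ∀ (C : Type) [Group C] [Finite C] (𝔐 : Ideal (integralClosure ℤ ℂ)) (ℓ : ℕ)
    [Fact ℓ.Prime], 𝔐.IsMaximal → (ℓ : integralClosure ℤ ℂ) ∈ 𝔐 → ∀ U : Subgroup C,
    ∀ ν : C → (integralClosure ℤ ℂ) ⧸ 𝔐, ν 1 = 1 →
      (∀ c ∈ U, ∀ c' ∈ U, ν (c * c') = ν c * ν c') →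
      ∃ (μ : C → ℂ) (k : ℕ), ¬ ℓ ∣ k ∧ LinOn U μ ∧ (∀ u ∈ U, μ u ^ k = 1) ∧
        (∀ u ∈ U, red 𝔐 (μ u) = ν u) ∧
        ∀ μ' : C → ℂ, LinOn U μ' → (∀ u ∈ U, red 𝔐 (μ' u) = ν u) →
          (∃ k' : ℕ, ¬ ℓ ∣ k' ∧ ∀ u ∈ U, μ' u ^ k' = 1) → ∀ u ∈ U, μ' u = μ u

/-- RCB_PRT: the `ℓ`-part and the `ℓ'`-part of a linear character.
Proof. `N = Nat.card L = ℓ ^ a * m`, `¬ ℓ ∣ m`; choose `s t : ℕ` with `s * m + t * ℓ ^ a ≡ 1`
modulo `N` (`s ≥ 0`, `t ≥ 0`); `lam x ^ N = 1`; put `l1 x = lam x ^ (s * m)`,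
`l2 x = lam x ^ (t * ℓ ^ a)`. The reduction of a number `z` with `z ^ ℓ ^ a = 1` is `1`. -/
def Stmt_PRT : Prop :=
  ∀ (C : Type) [Group C] [Finite C] (𝔐 : Ideal (integralClosure ℤ ℂ)) (ℓ : ℕ)
    [Fact ℓ.Prime], 𝔐.IsMaximal → (ℓ : integralClosure ℤ ℂ) ∈ 𝔐 → ∀ (L : Subgroup C)
    (lam : C → ℂ), LinOn L lam →
    ∃ (s t a k : ℕ), ¬ ℓ ∣ k ∧ LinOn L (fun x => lam x ^ s) ∧ LinOn L (fun x => lam x ^ t) ∧
      (∀ x ∈ L, lam x = lam x ^ s * lam x ^ t) ∧ (∀ x ∈ L, (lam x ^ s) ^ ℓ ^ a = 1) ∧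
      (∀ x ∈ L, (lam x ^ t) ^ k = 1) ∧ (∀ x ∈ L, red 𝔐 (lam x ^ s) = 1) ∧
      (∀ x ∈ L, red 𝔐 (lam x ^ t) = red 𝔐 (lam x)) ∧ ∀ x ∈ L, IsIntegral ℤ (lam x)

/-- RCB_GLU: gluing.
Proof. (1) By `TEI` there is a lift `ν̃` of `ν` on `U`, of order `k` prime to `ℓ`; by the
uniqueness part of `TEI` it is invariant under `L`. By `EXL` it extends to `L`: for `r ∣ k` or
`r ≠ ℓ` use (a) and `CYL`, for `r = ℓ` use `COL`. Let `l1` be the extension; by `PRT` we may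
assume that its order is prime to `ℓ` (replace `l1` by `l1 ^ t`: on `U`, `l1 ^ t` is again a lift
of `ν` of order prime to `ℓ`, so it is `ν̃` by the uniqueness). (2) By `PRT` (for the group `W`)
`τ = τ ^ s * τ ^ t` on `W`. `τ ^ s` is invariant and of `ℓ`-power order; it extends to `L` by `EXL`:
for `r = ℓ` by (b) (the power `s` of the given extension of `τ`), for `r ≠ ℓ` by `COL`; again by
`PRT` let `l2` be an extension of `ℓ`-power order (replace `l2` by `l2 ^ s'`: restricted to `W` both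
`τ ^ s` and `(τ ^ s) ^ s'` are the `ℓ`-part of `τ ^ s`; use
`lam = lam ^ s' * lam ^ t'` with `(lam ^ t') ^ k' = 1`, and `(τ ^ s) ^ ℓ ^ a = 1` forces
`(τ ^ s w) ^ t' = 1`). Put `lam = l1 * l2`. On `W`: `red (l1 w) = ν w = red (τ w)` =
`red (τ w ^ t)`, both `l1` and `τ ^ t` have order prime to `ℓ` on `W`, so `l1 w = τ w ^ t`
(uniqueness in `TEI` for `W`), and `lam w = τ w ^ t * τ w ^ s = τ w`. On `U`: `red (l2 u) = 1`
(`ℓ`-power order), so `red (lam u) = ν u`. -/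
def Stmt_GLU : Prop :=
  ∀ (C : Type) [Group C] [Finite C] (𝔐 : Ideal (integralClosure ℤ ℂ)) (ℓ : ℕ)
    [Fact ℓ.Prime], 𝔐.IsMaximal → (ℓ : integralClosure ℤ ℂ) ∈ 𝔐 → ∀ L U W : Subgroup C,
    W ≤ U → U ≤ L → (∀ c ∈ L, ∀ u ∈ U, c * u * c⁻¹ ∈ U) →
    (∀ c ∈ L, ∀ u ∈ W, c * u * c⁻¹ ∈ W) →
    ∀ ν : C → (integralClosure ℤ ℂ) ⧸ 𝔐, ν 1 = 1 →
      (∀ c ∈ U, ∀ c' ∈ U, ν (c * c') = ν c * ν c') →
      (∀ c ∈ L, ∀ u ∈ U, ν (c * u * c⁻¹) = ν u) →
    ∀ τ : C → ℂ, LinOn W τ → (∀ c ∈ L, ∀ u ∈ W, τ (c * u * c⁻¹) = τ u) →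
      (∀ w ∈ W, red 𝔐 (τ w) = ν w) →
    (∀ r : ℕ, r.Prime → r ≠ ℓ → ∀ R ≤ L, IsPGroup r R →
      ∃ c0 ∈ R, ∀ c ∈ R, ∃ k : ℤ, c * c0 ^ k ∈ U) →
    (∀ Q ≤ L, IsPGroup ℓ Q → ∃ μ : C → ℂ, LinOn (W ⊔ Q) μ ∧ ∀ u ∈ W, μ u = τ u) →
    ∃ lam : C → ℂ, LinOn L lam ∧ (∀ w ∈ W, lam w = τ w) ∧ ∀ u ∈ U, red 𝔐 (lam u) = ν u

/-! ### Factor sets -/

/-- RCB_FSE: existence.
Proof. `Stmt_PRJA` of `DPV/StmtsV.lean` (proved in `DPV/PRJA.lean`) with `R` a representation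
affording `θ` (`IsIrr`) gives `T` and numbers `ζ y y'` (choose them; `ζ ≠ 0` because a power of it
is `1`). They depend only on `p y`, `p y'`: `T (j x * y) * T y' = R x * T y * T y' =
ζ y y' • R x * T (y * y') = ζ y y' • T (j x * y * y')`, and `T` is invertible, so
`ζ (j x * y) y' = ζ y y'`; `T y * T (j x * y') = T y * R x * T y' = R (c y x) * T y * T y' =
ζ y y' • R (c y x) * T (y * y') = ζ y y' • T (y * j x * y')` (since
`j (c y x) * y = y * j x`), so `ζ y (j x * y') = ζ y y'`. (`n > 0`, scalars are determined since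
`T` is invertible and the space is nonzero.) Define `a k k' = ζ y y'` for chosen preimages. -/
def Stmt_FSE : Prop :=
  ∀ (A Y K : Type) [Group A] [Fintype A] [Group Y] [Fintype Y] [Group K] (j : A →* Y)
    (c : Y →* MulAut A) (p : Y →* K), ClG j c p → Function.Surjective p → ∀ θ : A → ℂ,
    IsIrr θ → (∀ y x, θ (c y x) = θ x) → ∃ a, FS j p θ a

/-- RCB_FSU: uniqueness up to coboundaries.
Proof. `(n, R, T)`, `(n', R', T')` for `a`, `a'`. `R` and `R'` are irreducible with the same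
character, so there is an isomorphism `e` between them (`n = n'`); replace `T'` by `e T' e⁻¹`: now
`R = R'`. For `y : Y`, `T y` and `T' y` both satisfy `T y * R x = R (c y x) * T y` (from
`T (j x * y) = R x * T y` and `T y * T (j x) = a (p y) 1 • T (y * j x)`, `a (p y) 1 = 1` because
`T 1 = R 1 = 1`), so `(T' y)⁻¹ * T y` commutes with `R`; by Schur it is a scalar `b y`; it depends
only on `p y` (compare `T (j x * y) = R x * T y`). Then `a (p y) (p y') = a' (p y) (p y') *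
b y * b y' * (b (y * y'))⁻¹`. -/
def Stmt_FSU : Prop :=
  ∀ (A Y K : Type) [Group A] [Fintype A] [Group Y] [Fintype Y] [Group K] (j : A →* Y)
    (c : Y →* MulAut A) (p : Y →* K), ClG j c p → Function.Surjective p → ∀ θ : A → ℂ,
    IsIrr θ → ∀ a a', FS j p θ a → FS j p θ a' → a * a'⁻¹ ∈ cob K

/-- RCB_FSM: the multiplicity lemma.
Proof. `(n, R, T)` for `θ`, `(m, R', T')` for `ζ`. Let `H` be the space of the linear maps
`f : (Fin m → ℂ) → (Fin n → ℂ)` with `R (i u) ∘ f = f ∘ R' u` for all `u : U`; its dimension is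
`k = ip (θ ∘ i) ζ` (the multiplicity; `ζ` is irreducible). For `s : S` let
`Φ s f = T (h s) ∘ f ∘ (T' s)⁻¹`; it maps `H` to `H` (`T y R x = R (c y x) T y`, as in `FSU`, and
the same for `T'`, `i (c' s u) = c (h s) (i u)` since `j` is injective and
`h (j' u) = j (i u)`); for `s = j' u` it is the identity on `H`. So `Φ s` depends only on
`q s : K` and `Φ s * Φ s' = (a (q s) (q s') / a' (q s) (q s')) • Φ (s * s')`. Take determinants:
`D s * D s' = (a / a') ^ k * D (s * s')`, `D s ≠ 0`, `D` depends only on `q s`. -/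
def Stmt_FSM : Prop :=
  ∀ (A Y U S K : Type) [Group A] [Fintype A] [Group Y] [Fintype Y] [Group U] [Fintype U]
    [Group S] [Fintype S] [Group K] (j : A →* Y) (c : Y →* MulAut A) (p : Y →* K)
    (j' : U →* S) (c' : S →* MulAut U) (q : S →* K) (i : U →* A) (h : S →* Y), ClG j c p →
    ClG j' c' q → Function.Surjective q → (∀ u, h (j' u) = j (i u)) → (∀ s, p (h s) = q s) →
    ∀ (θ : A → ℂ) (ζ : U → ℂ), IsIrr θ → IsIrr ζ → ∀ a a', FS j p θ a → FS j' q ζ a' →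
    ∀ k : ℕ, ip (fun u => θ (i u)) ζ = k → (a * a'⁻¹) ^ k ∈ cob K

/-- RCB_FSK: the class of a factor set is annihilated by the order of the group.
Proof. Associativity of `T y * T y' * T y''` gives the cocycle identity
`a x y * a (x * y) z = a y z * a x (y * z)` (`p` surjective, `T` invertible, `n > 0` because `θ`
is irreducible). Put `b x = ∏ z, a x z`. The product over `z` of the identity is
`a x y ^ |K| * b (x * y) = b y * b x`. -/
def Stmt_FSK : Prop :=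
  ∀ (A Y K : Type) [Group A] [Fintype A] [Group Y] [Fintype Y] [Group K] [Finite K]
    (j : A →* Y) (c : Y →* MulAut A) (p : Y →* K), ClG j c p → Function.Surjective p →
    ∀ θ : A → ℂ, IsIrr θ → ∀ a, FS j p θ a → a ^ Nat.card K ∈ cob K

/-- RCB_FSP: the multiplicity lemma for quotients which are `ℓ`-groups.
Proof. `FSM`: `(a * a'⁻¹) ^ k ∈ cob K`; `FSK` for `a` and `a'`: `(a * a'⁻¹) ^ |K| ∈ cob K`, and
`|K|` is a power of `ℓ`, prime to `k`; Bezout in the subgroup `cob K`. -/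
def Stmt_FSP : Prop :=
  ∀ (A Y U S K : Type) [Group A] [Fintype A] [Group Y] [Fintype Y] [Group U] [Fintype U]
    [Group S] [Fintype S] [Group K] [Finite K] (ℓ : ℕ) [Fact ℓ.Prime] (j : A →* Y)
    (c : Y →* MulAut A) (p : Y →* K) (j' : U →* S) (c' : S →* MulAut U) (q : S →* K)
    (i : U →* A) (h : S →* Y), ClG j c p → ClG j' c' q → Function.Surjective q →
    (∀ u, h (j' u) = j (i u)) → (∀ s, p (h s) = q s) → (∃ m, Nat.card K = ℓ ^ m) →
    ∀ (θ : A → ℂ) (ζ : U → ℂ), IsIrr θ → IsIrr ζ → ∀ a a', FS j p θ a → FS j' q ζ a' →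
    ∀ k : ℕ, ip (fun u => θ (i u)) ζ = k → ¬ ℓ ∣ k → a * a'⁻¹ ∈ cob K

/-- RCB_FSX: factor sets of restrictions, of linear characters, of products.
Proof. (1) `R` a representation of `Y` affording `E`; `T = R`. (2) `n = 1` (the degree of the
representation is the value at `1`); replace the spaces by `Fin 1 → ℂ` and multiply the scalars
by which `T y`, `T' y` act. -/
def Stmt_FSX : Prop :=
  ∀ (A Y K : Type) [Group A] [Fintype A] [Group Y] [Fintype Y] [Group K]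
    (j : A →* Y) (c : Y →* MulAut A) (p : Y →* K), ClG j c p → Function.Surjective p →
    (∀ E : Y → ℂ, IsIrr E → FS j p (fun x => E (j x)) 1) ∧
    ∀ θ θ' : A → ℂ, IsIrr θ → IsIrr θ' → θ 1 = 1 → θ' 1 = 1 → ∀ a a', FS j p θ a →
      FS j p θ' a' → IsIrr (fun x => θ x * θ' x) ∧ FS j p (fun x => θ x * θ' x) (a * a')

/-- RCB_FSC: factor sets and covers.
Proof. Let `π₁ : C' → C` be induced by `π` (`ρ' x = 1` implies `x = ι' g`, `ρ (π x) = 1`), so
`π₁ (ρ' x) = ρ (π x)`; choose a section `s : C → C'` of `π₁` (surjective). For `y : S` there is a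
unique `ỹ : S.comap π` with `π ỹ = y` and `ρ' ỹ = s (ρ y)` (choose `x` with `π x = y`;
`ρ' x` and `s (ρ y)` have the same image, so they differ by `ρ' w` with `π w = 1` up to
`ι' g`, ..: if `π₁ (ρ' z) = 1` then `π z = ι g = π (ι' g)`, so `z = ι' g * w`, `π w = 1`,
`ρ' z = ρ' w`; replace `x` by `x * w`; uniqueness: `π` and `ρ'` are jointly injective because
`π (ι' g) = ι g`). Let `F` be a representation of `S.comap π` affording `f`; an element `w` with
`π w = 1` acts on it by the scalar `f w / f 1` (it commutes with `ι' g`: `κ' w = 1`, and the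
restriction to `U` is irreducible). Put `T y = F ỹ`: `T (ι g * y) = F (ι' g) * T y`
(`s (ρ (ι g * y)) = s (ρ y)`), `ỹ * ỹ' = w * (y * y')~` with `π w = 1`, `ρ' w = s (ρ y) * s (ρ y') *
s (ρ (y y'))⁻¹`; so `T` shows `FS` with the factor set `λ_f (ρ' w)`, where
`λ_f (ρ' w) = f w / f 1`. The same for `f'` on `S'`. By `FSU` these factor sets are `a`, `a'` up to
coboundaries, so `λ_f (w c d) / λ_f' (w c d) = b c * b d / b (c * d)` with
`w c d = s c * s d * (s (c d))⁻¹`. Define `μ (ρ' w * s c) = (λ_f / λ_f') (ρ' w) * b c`; it is a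
linear character of `C'` (`λ_f`, `λ_f'` are invariant under conjugation by `C'`: conjugate
elements act by the same scalar). Here `S.map ρ = ⊤`, `S'.map ρ = ⊤`. -/
def Stmt_FSC : Prop :=
  ∀ (G B C B' C' : Type) [Group G] [Fintype G] [Group B] [Fintype B] [Group C] [Finite C]
    [Group B'] [Fintype B'] [Group C'] (ι : G →* B) (κ : B →* MulAut G) (ρ : B →* C)
    (ι' : G →* B') (κ' : B' →* MulAut G) (ρ' : B' →* C') (π : B' →* B),
    Cov ι κ ρ ι' κ' ρ' π →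
    ∀ (S S₁ : Subgroup B) (j : ↥(S.comap ι) →* S) (c : S →* MulAut ↥(S.comap ι))
      (j₁ : ↥(S₁.comap ι) →* S₁) (c₁ : S₁ →* MulAut ↥(S₁.comap ι)),
    ClG j c (ρ.comp S.subtype) → ClG j₁ c₁ (ρ.comp S₁.subtype) → S.map ρ = ⊤ →
    S₁.map ρ = ⊤ → (∀ g, (j g : B) = ι g) → (∀ g, (j₁ g : B) = ι g) → ∀ f f₁ : B' → ℂ,
    IrrOn (S.comap π) f → IrrOn (S₁.comap π) f₁ →
    IsIrr (fun g : ↥(S.comap ι) => f (ι' g)) →
    IsIrr (fun g : ↥(S₁.comap ι) => f₁ (ι' g)) → ∀ a a₁,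
    FS j (ρ.comp S.subtype) (fun g : ↥(S.comap ι) => f (ι' g)) a →
    FS j₁ (ρ.comp S₁.subtype) (fun g : ↥(S₁.comap ι) => f₁ (ι' g)) a₁ → a * a₁⁻¹ ∈ cob C →
    ∃ μ : C' → ℂ, LinOn ⊤ μ ∧ ∀ w, π w = 1 → f w * f₁ 1 = μ (ρ' w) * (f₁ w * f 1)

end Pool.Agent.RCB
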