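import Mathlib
import Pool.Agent.RCB.DefsP

/-!
# Theorem P1: the interface between the blocks

`Stmt_INN` and `Stmt_LTP` are the local theorem (parts A3 and C of `PAPER.md`), `Stmt_BIJ` is C2,
`Stmt_C4F` is C4, `Stmt_CLS` is C3 - C5, `Stmt_CN1` is the count of C0'.
-/

namespace Pool.Agent.RCB

open Pool.Agent.DP Pool.Agent.DPV Pool.Agent.DPB Pool.Agent.DPW Pool.Agent.DPX
open Pool.Agent.Lib_helper13 Representation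

/-- RCB_INN: the sum over the chains of `ℓ`-subgroups of the normal subgroup `M`
(A3 of PAPER.md). -/
def Stmt_INN : Prop :=
  ∀ (G : Type) [Group G] [Fintype G] (M : Subgroup G) [M.Normal]
    (𝔐 : Ideal (integralClosure ℤ ℂ)) (ℓ : ℕ) [Fact ℓ.Prime], 𝔐.IsMaximal →
    (ℓ : integralClosure ℤ ℂ) ∈ 𝔐 → ℓ ≠ 2 → ∀ (χ : G → ℂ) (ξ : M → ℂ), IsIrr χ → IsIrr ξ →
    ip (resj M.subtype χ) ξ ≠ 0 → DX ℓ (cen 𝔐 (MonoidHom.id M) ξ) → ∀ d : ℕ,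
    ∑ τ ∈ Ch ℓ (⊥ : Subgroup M), (-1 : ℚ) ^ τ.card *
      WW 𝔐 ℓ d (cen 𝔐 (MonoidHom.id G) χ) (stb (mapCh M.subtype τ)) = 0

/-- RCB_LTP: the local theorem LT: `G` is normal in `B`. -/
def Stmt_LTP : Prop :=
  ∀ (G B C : Type) [Group G] [Fintype G] [Group B] [Fintype B] [Group C]
    (𝔐 : Ideal (integralClosure ℤ ℂ)) (ℓ n : ℕ) [Fact ℓ.Prime], 𝔐.IsMaximal →
    (ℓ : integralClosure ℤ ℂ) ∈ 𝔐 → ℓ ≠ 2 → ∀ (ι : G →* B) (κ : B →* MulAut G) (ρ : B →* C),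
    LocN ι κ ρ → ∀ (χ : B → ℂ) (ξ : G → ℂ), IsIrr χ → IsIrr ξ → ip (resj ι χ) ξ ≠ 0 →
    ∀ (P₁ P : Subgroup G) (x₀ : G), AtX ℓ n (cen 𝔐 (MonoidHom.id G) ξ) P₁ P x₀ → ∀ d : ℕ,
      cnt 𝔐 ℓ d (MonoidHom.id B) (cen 𝔐 (MonoidHom.id B) χ) =
        cnt 𝔐 ℓ d (YS ι {P₁}).subtype (cen 𝔐 (MonoidHom.id B) χ)

/-- RCB_BIJ: the bijection (C2). -/
def Stmt_BIJ : Prop :=
  ∀ (G B C : Type) [Group G] [Fintype G] [Group B] [Fintype B] [Group C]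
    (𝔐 : Ideal (integralClosure ℤ ℂ)) (ℓ n : ℕ) [Fact ℓ.Prime], 𝔐.IsMaximal →
    (ℓ : integralClosure ℤ ℂ) ∈ 𝔐 → ℓ ≠ 2 → ∀ (ι : G →* B) (κ : B →* MulAut G) (ρ : B →* C),
    LocN ι κ ρ → ∀ (ω : G → (integralClosure ℤ ℂ) ⧸ 𝔐) (P₁ P : Subgroup G) (x₀ : G),
    StX 𝔐 ℓ n κ ω P₁ P x₀ → ∃ Φ : (G → ℂ) → (G → ℂ), Set.BijOn Φ (XS 𝔐 ω) (YL 𝔐 P₁ ω) ∧
      ∀ χ ∈ XS 𝔐 ω, (Stx κ ∅ χ).map ρ = (Stx κ {P₁} (Φ χ)).map ρ ∧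
        (EB 𝔐 P₁ ω ∨ Mtc 𝔐 P₁ ω χ (Φ χ))

/-- RCB_C4F: the classes over an `ℓ`-group (C4): `χ` and `ψ` are invariant under `B` and the
normalizer of `P₁` in `B`. -/
def Stmt_C4F : Prop :=
  ∀ (G B C : Type) [Group G] [Fintype G] [Group B] [Fintype B] [Group C]
    (𝔐 : Ideal (integralClosure ℤ ℂ)) (ℓ n : ℕ) [Fact ℓ.Prime], 𝔐.IsMaximal →
    (ℓ : integralClosure ℤ ℂ) ∈ 𝔐 → ℓ ≠ 2 → ∀ (ι : G →* B) (κ : B →* MulAut G) (ρ : B →* C),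
    LocN ι κ ρ → (∃ m, Nat.card C = ℓ ^ m) →
    ∀ (ω : G → (integralClosure ℤ ℂ) ⧸ 𝔐) (P₁ P : Subgroup G) (x₀ : G),
    StX 𝔐 ℓ n κ ω P₁ P x₀ → ∀ χ ∈ XS 𝔐 ω, ∀ ψ ∈ YL 𝔐 P₁ ω, (Stx κ ∅ χ).map ρ = ⊤ →
    (Stx κ {P₁} ψ).map ρ = ⊤ → (EB 𝔐 P₁ ω ∨ Mtc 𝔐 P₁ ω χ ψ) →
    ∀ (j : ↥(stb {P₁}) →* ↥(YS ι {P₁})), (∀ g, (j g : B) = ι g) →
    ∀ a a₁, FS ι ρ χ a → FS j (ρ.comp (YS ι {P₁}).subtype) (fun g : stb {P₁} => ψ g) a₁ →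
      a * a₁⁻¹ ∈ cob C

/-- RCB_CLS: extensions with the same weights and the same scalars (C3, C4, C5). -/
def Stmt_CLS : Prop :=
  ∀ (G B C B' C' : Type) [Group G] [Fintype G] [Group B] [Fintype B] [Group C]
    [Group B'] [Fintype B'] [Group C'] [Finite C']
    (𝔐 : Ideal (integralClosure ℤ ℂ)) (ℓ n : ℕ) [Fact ℓ.Prime], 𝔐.IsMaximal →
    (ℓ : integralClosure ℤ ℂ) ∈ 𝔐 → ℓ ≠ 2 → ∀ (ι : G →* B) (κ : B →* MulAut G) (ρ : B →* C)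
    (ι' : G →* B') (κ' : B' →* MulAut G) (ρ' : B' →* C') (π : B' →* B),
    Cov ι κ ρ ι' κ' ρ' π → LocV ι' κ' ρ' →
    ∀ (ω : G → (integralClosure ℤ ℂ) ⧸ 𝔐) (P₁ P : Subgroup G) (x₀ : G),
    StX 𝔐 ℓ n κ ω P₁ P x₀ → ∀ χ ∈ XS 𝔐 ω, ∀ ψ ∈ YL 𝔐 P₁ ω,
    (Stx κ ∅ χ).map ρ = (Stx κ {P₁} ψ).map ρ → (EB 𝔐 P₁ ω ∨ Mtc 𝔐 P₁ ω χ ψ) →
    ∃ f f₁ : B' → ℂ, ExtL ι' κ' ρ' ∅ χ ⊤ f ∧ ExtL ι' κ' ρ' {P₁} ψ ⊤ f₁ ∧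
      cgT 𝔐 ι'.range f = cgT 𝔐 ι'.range f₁ ∧ ∀ w, π w = 1 → f w * f₁ 1 = f₁ w * f 1

/-- RCB_CN1: the count (C0'). Here `S` is the stabilizer of `χ`, mapped to the ambient group
`X`. -/
def Stmt_CN1 : Prop :=
  ∀ (G S C S' C' X : Type) [Group G] [Fintype G] [Group S] [Fintype S] [Group C]
    [Group S'] [Fintype S'] [Group C'] [Finite C'] [Group X] [Fintype X]
    (𝔐 : Ideal (integralClosure ℤ ℂ)) (ℓ : ℕ) [Fact ℓ.Prime], 𝔐.IsMaximal →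
    (ℓ : integralClosure ℤ ℂ) ∈ 𝔐 → ∀ (ι : G →* S) (κ : S →* MulAut G) (ρ : S →* C)
    (ι' : G →* S') (κ' : S' →* MulAut G) (ρ' : S' →* C') (π : S' →* S) (i : S →* X),
    Cov ι κ ρ ι' κ' ρ' π → ∀ (P₁ : Subgroup G) (χ ψ : G → ℂ), Nat.card P₁ = ℓ → IsIrr χ →
    IrrOn (stb {P₁}) ψ → ∀ f f₁ : S' → ℂ, IsIrr f → (∀ g, f (ι' g) = χ g) →
    IrrOn (YS ι' {P₁}) f₁ → (∀ g, f₁ (ι' g) = ψ g) → (YS ι {P₁}).map ρ = ⊤ →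
    (∀ g, cgT 𝔐 ι'.range f g = cgT 𝔐 ι'.range f₁ g) →
    (∀ w, π w = 1 → f w * f₁ 1 = f₁ w * f 1) → df ℓ (stb (∅ : Finset (Subgroup G))) χ =
      df ℓ (stb {P₁}) ψ →
    ∀ (Ω : X → (integralClosure ℤ ℂ) ⧸ 𝔐) (d : ℕ),
      Nat.card {η : S → ℂ // IsIrr η ∧ ip (resj ι η) χ ≠ 0 ∧ HasDefect ℓ η d ∧
        ∀ x, cen 𝔐 i η x = Ω x} =
      Nat.card {η : ↥(YS ι {P₁}) → ℂ // IsIrr η ∧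
        ip (fun g : stb {P₁} => ext0 η (ι g)) (fun g : stb {P₁} => ψ g) ≠ 0 ∧
        HasDefect ℓ η d ∧ ∀ x, cen 𝔐 (i.comp (YS ι {P₁}).subtype) η x = Ω x}

end Pool.Agent.RCB
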