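import Mathlib
import Pool.Agent.RCB.StI
import Pool.Agent.RCB.St2
import Pool.Agent.RCB.St3

/-!
# Theorem P1: statements, block 4 (part C4 of PAPER.md: the classes over an `ℓ`-group)

`Stmt_C4F` of `StI.lean` from `Stmt_C4A` (inertial index `> 1`) and `Stmt_C4B` (inertial
index `1`). The statements `Stmt_...X` are those of `DPX/StmtsXA.lean` .. `StmtsXD.lean`; a module
may use them as hypotheses, as well as the statements of `St2.lean`, `St3.lean` and of `DP`.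
In the proofs: `N = stb {P₁}` is the normalizer of `P₁` in `G`, `C₀` its centralizer in `G`.
-/

namespace Pool.Agent.RCB

open Pool.Agent.DP Pool.Agent.DPV Pool.Agent.DPB Pool.Agent.DPW Pool.Agent.DPX
open Pool.Agent.Lib_helper13 Representation

/-! ### Definitions -/

/-- `a` reduces modulo `𝔐` to the block idempotent of the block of `φ`. -/
structure BIdm (𝔐 : Ideal (integralClosure ℤ ℂ)) {T : Type} [Group T] [Fintype T]
    (φ : T → ℂ) (a : T → integralClosure ℤ ℂ) : Prop where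
  cf : ∀ g x, a (g * x * g⁻¹) = a x
  idm : ∀ x, (∑ y, a y * a (y⁻¹ * x)) - a x ∈ 𝔐
  on : ∀ χ : T → ℂ, IsIrr χ → cen 𝔐 (MonoidHom.id T) χ = cen 𝔐 (MonoidHom.id T) φ →
    red 𝔐 (wt χ (fun h => (a h : ℂ))) = 1
  off : ∀ χ : T → ℂ, IsIrr χ → cen 𝔐 (MonoidHom.id T) χ ≠ cen 𝔐 (MonoidHom.id T) φ →
    red 𝔐 (wt χ (fun h => (a h : ℂ))) = 0

/-- `h` is in the support of the block idempotent of the block of `φ`. -/
def BSup (𝔐 : Ideal (integralClosure ℤ ℂ)) {T : Type} [Group T] [Fintype T] (φ : T → ℂ)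
    (h : T) : Prop :=
  ∃ a : T → integralClosure ℤ ℂ, BIdm 𝔐 φ a ∧ a h ∉ 𝔐

/-- The stabilizer, in the centralizer of `P₁` in `B`, of the block of the character `φ` of the
centralizer of `P₁` in `G`. -/
def WG (𝔐 : Ideal (integralClosure ℤ ℂ)) {G B : Type} [Group G] [Fintype G] [Group B]
    (κ : B →* MulAut G) (P₁ : Subgroup G) (φ : G → ℂ) : Subgroup B where
  carrier := {b | (∀ u ∈ P₁, κ b u = u) ∧
    ∀ g, cgT 𝔐 (Subgroup.centralizer (P₁ : Set G)) φ (κ b g) =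
      cgT 𝔐 (Subgroup.centralizer (P₁ : Set G)) φ g}
  one_mem' := by
    refine ⟨fun u _ => ?_, fun g => ?_⟩
    · rw [map_one, MulAut.one_apply]
    · rw [map_one, MulAut.one_apply]
  mul_mem' := by
    rintro a b ⟨ha1, ha2⟩ ⟨hb1, hb2⟩
    refine ⟨fun u hu => ?_, fun g => ?_⟩
    · rw [map_mul, MulAut.mul_apply, hb1 u hu, ha1 u hu]
    · rw [map_mul, MulAut.mul_apply, ha2, hb2]
  inv_mem' := by
    rintro a ⟨ha1, ha2⟩
    refine ⟨fun u hu => ?_, fun g => ?_⟩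
    · have h := congrArg (κ a⁻¹) (ha1 u hu)
      rw [← MulAut.mul_apply, ← map_mul, inv_mul_cancel, map_one, MulAut.one_apply] at h
      exact h.symm
    · have h := ha2 (κ a⁻¹ g)
      rw [← MulAut.mul_apply, ← map_mul, mul_inv_cancel, map_one, MulAut.one_apply] at h
      exact h.symm

/-- The coefficient of `χ` at the linear character `lam` of `P`, evaluated at `x`:
`|P|⁻¹ ∑ χ (u x) lam(u)⁻¹`. -/
noncomputable def fL {A P : Type} [Group A] [Group P] [Fintype P] (i : P →* A) (χ : A → ℂ)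
    (x : A) (lam : P →* ℂˣ) : ℂ :=
  (∑ u : P, χ (i u * x) * (((lam u)⁻¹ : ℂˣ) : ℂ)) / Nat.card P

/-! ### General lemmas -/

open Classical in
/-- RCB_FPS: sums over the fixed points of an `ℓ`-group.
Proof. Split `∑ o, f o` into the sum over the fixed points and the sum over the others, and the
latter over the orbits (`MulAction.orbitRel.Quotient D Ω`, `Finset.sum_fiberwise` or
`MulAction.selfEquivSigmaOrbits`): `f` is constant on an orbit, whose number of elements is a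
power of `ℓ` (index of a stabilizer), different from `1`, hence `0` in `R`. (Strong induction on
the number of elements of an invariant subset is another way. See also the proof of
`Stmt_SUPX`, `DPX/SUPX.lean`.) -/
def Stmt_FPS : Prop :=
  ∀ (D Ω R : Type) [Group D] [Finite D] [MulAction D Ω] [Fintype Ω] [CommRing R] (ℓ : ℕ)
    [Fact ℓ.Prime], (ℓ : R) = 0 → IsPGroup ℓ D → ∀ f : Ω → R, (∀ (d : D) o, f (d • o) = f o) →
    ∑ o, f o = ∑ o with (∀ d : D, d • o = o), f o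

/-- RCB_RLN: restriction to a subgroup `D` of `B` which maps onto `C`.
Proof. `j g = ⟨ι g, _⟩`, `c d = (κ d)` restricted to `T` (`ι (κ d g) = d * ι g * d⁻¹ ∈ D`). As `jS`,
`cS`, `clG_S` in `DP/DefsR.lean`. -/
def Stmt_RLN : Prop :=
  ∀ (G B C : Type) [Group G] [Group B] [Group C] (ι : G →* B) (κ : B →* MulAut G)
    (ρ : B →* C), LocN ι κ ρ → ∀ (D : Subgroup B) (T : Subgroup G), D.comap ι = T →
    D.map ρ = ⊤ → ∃ (j : T →* D) (c : D →* MulAut T), (∀ g, (j g : B) = ι g) ∧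
      (∀ (d : D) (g : T), (c d g : G) = κ d g) ∧ LocN j c (ρ.comp D.subtype)

/-- RCB_SYQ: Sylow subgroups of a subgroup `V` which maps onto the `ℓ`-group `C`.
Proof. Let `D` be a Sylow `ℓ`-subgroup of `V` containing `Q` (`IsPGroup.exists_le_sylow` in the
group `↥V`, then map to `B`). Conjugacy of the Sylow subgroups of `V` gives the fourth claim.
`D.map ρ` has index prime to `ℓ` in `V.map ρ = ⊤` (`[V.map ρ : D.map ρ]` divides `[V : D]`) and the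
order of `C` is a power of `ℓ`, so `D.map ρ = ⊤`. `|D| = |C| * |D.comap ι|`: `ρ` maps `D` onto `C` with
kernel `D ∩ ι G = ι (D.comap ι)` (`LocN`: `ρ b = 1 ↔ b ∈ ι.range`, `ι` injective). Last: in the same
way `|V| = |C| * |V.comap ι|`, so `|D.comap ι|` is the full `ℓ`-part of `|V.comap ι|`, and `|R|` is a
power of `ℓ` which divides `|V.comap ι|`. -/
def Stmt_SYQ : Prop :=
  ∀ (G B C : Type) [Group G] [Fintype G] [Group B] [Fintype B] [Group C] (ℓ : ℕ)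
    [Fact ℓ.Prime] (ι : G →* B) (κ : B →* MulAut G) (ρ : B →* C), LocN ι κ ρ →
    (∃ m, Nat.card C = ℓ ^ m) → ∀ V : Subgroup B, V.map ρ = ⊤ → ∀ Q ≤ V, IsPGroup ℓ Q →
    ∃ D : Subgroup B, Q ≤ D ∧ D ≤ V ∧ IsPGroup ℓ D ∧
      (∀ R ≤ V, IsPGroup ℓ R → ∃ v ∈ V, R.map (MulAut.conj v).toMonoidHom ≤ D) ∧
      D.map ρ = ⊤ ∧ Nat.card D = Nat.card C * Nat.card (D.comap ι) ∧
      ∀ R : Subgroup G, IsPGroup ℓ R → R ≤ V.comap ι → Nat.card R ∣ Nat.card (D.comap ι)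

/-! ### Block idempotents and outer groups -/

/-- RCB_BSA: existence, uniqueness and invariance of the block idempotent.
Proof. With `F = (integralClosure ℤ ℂ) ⧸ 𝔐` (a field, `letI := Ideal.Quotient.field 𝔐`) and
`r = Ideal.Quotient.mk 𝔐`: (1) is `IDX` (`Prm` contains `cvF e e = e`; `r` is a ring
homomorphism, `Ideal.Quotient.eq`). (2) the last part of `IDX`: any `a'` with `BIdm 𝔐 φ a'` agrees
modulo `𝔐` with the `a` of `IDX`. (3) If `BIdm 𝔐 φ a` and the automorphism `k` preserves the central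
function of `φ` then `a ∘ k` satisfies `BIdm` (for `χ` irreducible: `wt χ (a ∘ k) = wt (χ ∘ k⁻¹) a`
by substitution, and `cen (χ ∘ k⁻¹) g = cen χ (k⁻¹ g)`, so `cen (χ ∘ k⁻¹) = cen φ` iff
`cen χ = cen φ ∘ k = cen φ`); then use (2). -/
def Stmt_BSA : Prop :=
  ∀ (T : Type) [Group T] [Fintype T] (𝔐 : Ideal (integralClosure ℤ ℂ)) (ℓ : ℕ)
    [Fact ℓ.Prime], 𝔐.IsMaximal → (ℓ : integralClosure ℤ ℂ) ∈ 𝔐 → ∀ φ : T → ℂ, IsIrr φ →
    (∃ a, BIdm 𝔐 φ a) ∧ (∀ a a', BIdm 𝔐 φ a → BIdm 𝔐 φ a' → ∀ x, a x - a' x ∈ 𝔐) ∧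
    ∀ k : MulAut T, (∀ g, cen 𝔐 (MonoidHom.id T) φ (k g) = cen 𝔐 (MonoidHom.id T) φ g) →
      (∀ a, BIdm 𝔐 φ a → ∀ x, a (k x) - a x ∈ 𝔐) ∧
      ∀ h, BSup 𝔐 φ (k h) ↔ BSup 𝔐 φ h

/-- RCB_BSB: the block idempotents are supported on the elements of order prime to `ℓ`.
Proof. As `HGTX.exists_reg` in `DPX/HGTX.lean` (which contains exactly this): with `VALX`, `IDOX` the
residue of `eh x = (∑ χ 1 * χ x⁻¹) / |T|` (sum over the block) is the image of `a x`, and the sum is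
`0` by `OSIX` if `ℓ ∣ orderOf x`. -/
def Stmt_BSB : Prop :=
  ∀ (T : Type) [Group T] [Fintype T] (𝔐 : Ideal (integralClosure ℤ ℂ)) (ℓ : ℕ)
    [Fact ℓ.Prime], 𝔐.IsMaximal → (ℓ : integralClosure ℤ ℂ) ∈ 𝔐 → ∀ φ : T → ℂ, IsIrr φ →
    ∀ h, BSup 𝔐 φ h → ¬ ℓ ∣ orderOf h

/-- RCB_WFX: weights and invariant classes.
Proof. For `K : ConjClasses T` put `f K = red 𝔐 (a x) * cen 𝔐 id φ x`, `x ∈ K` (both factors are
constant on classes). Then `red 𝔐 (wt φ a) = ∑ K, f K` (`wt φ a = ∑_x a x * φ x / φ 1`; the part over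
`K` is `a x * wt φ (conjInd · x)`, everything integral, `red` is additive and multiplicative on
integral elements). Let `D` be an `ℓ`-subgroup of `V` with `D.map ρ = ⊤` (`SYQ` for the whole group).
`D` acts on `ConjClasses T` by `κ`, `f` is invariant (hypotheses on `a` and on `cen φ`), so by
`FPS` there is a fixed class `K` with `f K ≠ 0`. Every `v : V` is `ι g * d` with `d ∈ D` (`LocN`), and
`κ (ι g)` is conjugation by `g`, so the class is fixed by all `v`. -/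
def Stmt_WFX : Prop :=
  ∀ (T V C : Type) [Group T] [Fintype T] [Group V] [Fintype V] [Group C]
    (𝔐 : Ideal (integralClosure ℤ ℂ)) (ℓ : ℕ) [Fact ℓ.Prime], 𝔐.IsMaximal →
    (ℓ : integralClosure ℤ ℂ) ∈ 𝔐 → ∀ (ι : T →* V) (κ : V →* MulAut T) (ρ : V →* C),
    LocN ι κ ρ → (∃ m, Nat.card C = ℓ ^ m) → ∀ φ : T → ℂ, IsIrr φ →
    (∀ v g, cen 𝔐 (MonoidHom.id T) φ (κ v g) = cen 𝔐 (MonoidHom.id T) φ g) →
    ∀ a : T → integralClosure ℤ ℂ, (∀ g x, a (g * x * g⁻¹) = a x) →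
    (∀ v x, a (κ v x) - a x ∈ 𝔐) → red 𝔐 (wt φ (fun h => (a h : ℂ))) ≠ 0 →
    ∃ x, a x ∉ 𝔐 ∧ cen 𝔐 (MonoidHom.id T) φ x ≠ 0 ∧ ∀ v, ∃ g, κ v x = g * x * g⁻¹

/-- RCB_BSC: an invariant class in the support of the idempotent.
Proof. `BSA` (existence `a`, `BIdm.on` for `φ` itself gives the weight `1`, invariance) and
`WFX`. -/
def Stmt_BSC : Prop :=
  ∀ (T V C : Type) [Group T] [Fintype T] [Group V] [Fintype V] [Group C]
    (𝔐 : Ideal (integralClosure ℤ ℂ)) (ℓ : ℕ) [Fact ℓ.Prime], 𝔐.IsMaximal →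
    (ℓ : integralClosure ℤ ℂ) ∈ 𝔐 → ∀ (ι : T →* V) (κ : V →* MulAut T) (ρ : V →* C),
    LocN ι κ ρ → (∃ m, Nat.card C = ℓ ^ m) → ∀ φ : T → ℂ, IsIrr φ →
    (∀ v g, cen 𝔐 (MonoidHom.id T) φ (κ v g) = cen 𝔐 (MonoidHom.id T) φ g) →
    ∃ x, BSup 𝔐 φ x ∧ cen 𝔐 (MonoidHom.id T) φ x ≠ 0 ∧ ∀ v, ∃ g, κ v x = g * x * g⁻¹

/-- RCB_INY: the idempotent is a multiple of an invariant class sum, with an invariant factor.
Proof. `z = cvF e (clsF F t)` is in `CF F T`, `cvF e z = z` (`e` idempotent, associativity), so by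
`LOCX` there is `w ∈ CF F T` with `cvF e w = w`, `cvF z w = e`. Since `κ v` is an automorphism,
`(cvF a b) ∘ κ v = cvF (a ∘ κ v) (b ∘ κ v)`; `e` and `clsF F t` are invariant under `κ v` (the class
of `t` is), so `z` is, and `w ∘ κ v` is another inverse of `z` with `cvF e (w ∘ κ v) = w ∘ κ v`;
hence `w ∘ κ v = cvF e (w ∘ κ v) = cvF (cvF z w) (w ∘ κ v) = cvF w e = w` (the functions in `CF`
commute with everything). And `e = cvF z w = cvF (clsF F t) (cvF e w) = cvF (clsF F t) w`. -/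
def Stmt_INY : Prop :=
  ∀ (F T V : Type) [Field F] [Group T] [Fintype T] [Group V] (κ : V →* MulAut T)
    (e : T → F), Prm e → (∀ v x, e (κ v x) = e x) → ∀ t : T,
    (∀ v, ∃ g, κ v t = g * t * g⁻¹) → (¬ ∃ k, cvp (cvF e (clsF F t)) k = 0) →
    ∃ y ∈ CF F T, (∀ v x, y (κ v x) = y x) ∧ e = cvF (clsF F t) y

/-- RCB_SUV: the support of a product with an invariant class sum.
Proof. `cvF (clsF F t) y h = ∑ y (s⁻¹ * h)` over the elements `s` of the class of `t`. The group `U`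
acts on this class by `κ`; the summands are invariant since
`y ((κ u s)⁻¹ * h) = y (κ u (s⁻¹ * h)) = y (s⁻¹ * h)`. The sum is not `0`, so by `FPS` there is a
fixed point `s = g * t * g⁻¹`. -/
def Stmt_SUV : Prop :=
  ∀ (F T V : Type) [Field F] [Group T] [Fintype T] [Group V] [Finite V] (ℓ : ℕ)
    [Fact ℓ.Prime] [CharP F ℓ] (κ : V →* MulAut T) (t : T),
    (∀ v, ∃ g, κ v t = g * t * g⁻¹) → ∀ y : T → F, (∀ v x, y (κ v x) = y x) →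
    ∀ h : T, cvF (clsF F t) y h ≠ 0 → ∀ U : Subgroup V, IsPGroup ℓ U →
    (∀ u ∈ U, κ u h = h) → ∃ g, ∀ u ∈ U, κ u (g * t * g⁻¹) = g * t * g⁻¹

/-- RCB_BSD: `ℓ`-groups of automorphisms which centralize an element of the support.
Proof. Let `BIdm 𝔐 φ a`, `a h ∉ 𝔐`, `F = (integralClosure ℤ ℂ) ⧸ 𝔐`, `e = fun x => Ideal.Quotient.mk 𝔐
(a x)`. By `IDX` (and uniqueness, `BSA`) `Prm e`; `e` is invariant under `κ v` (`BSA`).
`w_φ (f) = red (wt φ f)` is multiplicative on class functions (integral values) and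
`w_φ (e) = 1`, `w_φ (clsF t) = cen φ t ≠ 0`, so `w_φ` of the powers of `cvF e (clsF F t)` is not `0`
and these powers are not `0` (see `DPX/IDX.lean`, `DPX/SUPX.lean`, `DPW` for the multiplicativity
of the weights). `INY` gives `y`, and `SUV` gives `g` with `κ u (g t g⁻¹) = g t g⁻¹`. Since
`ι (κ u x) = u * ι x * u⁻¹`, this is the claim (with `κ u h = h` from the hypothesis on `h`). -/
def Stmt_BSD : Prop :=
  ∀ (T V C : Type) [Group T] [Fintype T] [Group V] [Fintype V] [Group C]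
    (𝔐 : Ideal (integralClosure ℤ ℂ)) (ℓ : ℕ) [Fact ℓ.Prime], 𝔐.IsMaximal →
    (ℓ : integralClosure ℤ ℂ) ∈ 𝔐 → ∀ (ι : T →* V) (κ : V →* MulAut T) (ρ : V →* C),
    LocN ι κ ρ → ∀ φ : T → ℂ, IsIrr φ →
    (∀ v g, cen 𝔐 (MonoidHom.id T) φ (κ v g) = cen 𝔐 (MonoidHom.id T) φ g) →
    ∀ t : T, cen 𝔐 (MonoidHom.id T) φ t ≠ 0 → (∀ v, ∃ g, κ v t = g * t * g⁻¹) →
    ∀ h : T, BSup 𝔐 φ h → ∀ U : Subgroup V, IsPGroup ℓ U → (∀ u ∈ U, κ u h = h) →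
    ∃ g : T, ∀ u ∈ U, κ u (g * t * g⁻¹) = g * t * g⁻¹

/-! ### C4.0 -/

/-- RCB_NZX: the values of the characters of the block at `x` are not `0` modulo `𝔐`.
Proof. (1) `HGTX`: `|T| = ℓ ^ n * m * χ 1`, `¬ ℓ ∣ m`; `|C_T(x)| = ℓ ^ n * c`, `¬ ℓ ∣ c` (`AtX.mn`, `ne`,
`cd.sq`; `HGTX.cent`); `|C_T(x)| * w = |T| * χ x / χ 1` with `w = wt χ (conjInd · x)` (`DF1.mul_w`), so
`c * w = m * χ x`; `red w = cen χ x ≠ 0` and `red c ≠ 0`. (2) `XS`: `IrrOn (stb ∅) χ` is `IsIrr χ`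
(`stb ∅ = ⊤`), `cg = cen` ; (1). `YL`: `ATNX` (for `ψ` as a character of `NP P₁`, `x ∈ NP P₁` because it
centralizes `P₁`) gives `AtX` at `x` for the block of `ψ` in `NP P₁`; (1) for `NP P₁`. For the
translation use `Stmt_TRM` of `St2.lean` or the lemmas quoted there. -/
def Stmt_NZX : Prop :=
  (∀ (T : Type) [Group T] [Fintype T] (𝔐 : Ideal (integralClosure ℤ ℂ)) (ℓ n : ℕ)
    [Fact ℓ.Prime], 𝔐.IsMaximal → (ℓ : integralClosure ℤ ℂ) ∈ 𝔐 → ∀ χ : T → ℂ, IsIrr χ →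
    ∀ (P₁ P : Subgroup T) (x : T), AtX ℓ n (cen 𝔐 (MonoidHom.id T) χ) P₁ P x →
      red 𝔐 (χ x) ≠ 0) ∧
  ∀ (G : Type) [Group G] [Fintype G] (𝔐 : Ideal (integralClosure ℤ ℂ)) (ℓ n : ℕ)
    [Fact ℓ.Prime], 𝔐.IsMaximal → (ℓ : integralClosure ℤ ℂ) ∈ 𝔐 →
    ∀ (ω : G → (integralClosure ℤ ℂ) ⧸ 𝔐) (P₁ P : Subgroup G) (x : G), AtX ℓ n ω P₁ P x →
    (∃ θ : G → ℂ, IsIrr θ ∧ cen 𝔐 (MonoidHom.id G) θ = ω) →
    (∀ χ ∈ XS 𝔐 ω, IsIrr χ ∧ red 𝔐 (χ x) ≠ 0) ∧ ∀ ψ ∈ YL 𝔐 P₁ ω, red 𝔐 (ψ x) ≠ 0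

/-- RCB_DTL: an element with an invariant class whose centralizer in `B` has a Sylow subgroup
`D` with `D ∩ G = P` (C4.0 of PAPER.md).
Proof. Let `θ` be irreducible with `cen θ = ω`. `BSC` for `(G, B, C)`: `h` with `BSup 𝔐 θ h`,
`ω h ≠ 0` and an invariant class. `DXMX` (third part): some conjugate of `P` centralizes `h`, so for a
conjugate `x` of `h`: all `u ∈ P` commute with `x`. `BSup 𝔐 θ x` (`BIdm.cf`), `ω x ≠ 0` (`ω` is a class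
function). `BSB`: `¬ ℓ ∣ orderOf x`. Let `Q` be an `ℓ`-subgroup of `G` centralizing `x`: by `BSD` for
`V = G` (`MonoidHom.id G`, `MulAut.conj`, trivial quotient) and `t = x₀`, `Q` is conjugate to a
subgroup of `C_G(x₀)`, so `ℓ ^ (n + 1)` does not divide `|Q|`; hence `¬ ℓ ^ (n + 1) ∣ |C_G(x)|` (a
Sylow subgroup has order the `ℓ`-part; `Sylow.exists_subgroup_card_pow_prime`). So
`AtX ℓ n ω P₁ P x`. Let `V = centralizer {ι x}` in `B`; `V.map ρ = ⊤`: for `b : B`, `κ b x = g x g⁻¹`,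
so `(ι g)⁻¹ * b ∈ V`. Let `D` be as in `SYQ` for `Q = P.map ι`. `D.comap ι` is an `ℓ`-group
(`ι` injective) which contains `P` and centralizes `x`, so its order divides `|C_G(x)|` and is at
most `ℓ ^ n = |P|`: it is `P`. -/
def Stmt_DTL : Prop :=
  ∀ (G B C : Type) [Group G] [Fintype G] [Group B] [Fintype B] [Group C]
    (𝔐 : Ideal (integralClosure ℤ ℂ)) (ℓ n : ℕ) [Fact ℓ.Prime], 𝔐.IsMaximal →
    (ℓ : integralClosure ℤ ℂ) ∈ 𝔐 → ∀ (ι : G →* B) (κ : B →* MulAut G) (ρ : B →* C),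
    LocN ι κ ρ → (∃ m, Nat.card C = ℓ ^ m) →
    ∀ (ω : G → (integralClosure ℤ ℂ) ⧸ 𝔐) (P₁ P : Subgroup G) (x₀ : G),
    StX 𝔐 ℓ n κ ω P₁ P x₀ → ∃ (x : G) (D : Subgroup B), AtX ℓ n ω P₁ P x ∧
      ¬ ℓ ∣ orderOf x ∧ (∀ b, ∃ g, κ b x = g * x * g⁻¹) ∧ IsPGroup ℓ D ∧
      (∀ d ∈ D, d * ι x = ι x * d) ∧ D.comap ι = P ∧ D.map ρ = ⊤

/-! ### C4.1: inertial index greater than one -/

/-- RCB_ZCA: the blocks of the centralizer of `P₁`.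
Proof. Configuration: `φ ∈ ZC`, so `φ` is irreducible on `C₀` and lies under some `ψ ∈ YL`. With the
dictionary `Stmt_TRM` (`St2.lean`), `φ = z φ₀`, `ψ = z' ψ₀` and (`χ₀ = θ`) this is a `Cf`. (1) `ATNX` and
`ATCX` give `AtX` for the block of `φ₀` in `C` (a subgroup of `NP P₁`), whose part `mn` says that
`ℓ ^ n` divides `|C_C(t)|` for `cen φ₀ t ≠ 0`; transport to `C₀`. (2) `IrrOn C₀ φ` and `cgT_eq`: this is
`TRM`, with `cen 𝔐 (MonoidHom.id C₀)` of the restriction of `φ` to `C₀` (the same sum). For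
`g ∉ C₀` no `C₀`-conjugate of `g` is in `C₀` and `φ = 0` outside of `C₀`. (3) `P₁ ≤ C₀` is
abelian of prime order (`AtX.cd.c1`). (4) for `ψ' ∈ YL` over `φ'`: `ATNX` (last part) gives
`cen ψ' = cen ψ₀` in `NP P₁` and `ORBX` gives `g`. Conversely let `ψ'` be any irreducible character of
`NP P₁` over `φ'` (a constituent of the induced character, there is one): by `ORBX` (and `ATNX`)
`ψ' ∈ YL`. (5) `ORBX` with `g = 1` and `ATNX`. -/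
def Stmt_ZCA : Prop :=
  ∀ (G : Type) [Group G] [Fintype G] (𝔐 : Ideal (integralClosure ℤ ℂ)) (ℓ n : ℕ)
    [Fact ℓ.Prime], 𝔐.IsMaximal → (ℓ : integralClosure ℤ ℂ) ∈ 𝔐 →
    ∀ (ω : G → (integralClosure ℤ ℂ) ⧸ 𝔐) (P₁ P : Subgroup G) (x : G), AtX ℓ n ω P₁ P x →
    (∃ θ : G → ℂ, IsIrr θ ∧ cen 𝔐 (MonoidHom.id G) θ = ω) → ∀ φ ∈ ZC 𝔐 P₁ ω,
    (∀ t : Subgroup.centralizer (P₁ : Set G),
      cgT 𝔐 (Subgroup.centralizer (P₁ : Set G)) φ t ≠ 0 →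
      ℓ ^ n ∣ Nat.card (Subgroup.centralizer ({t} :
        Set (Subgroup.centralizer (P₁ : Set G))))) ∧
    (IsIrr (fun c : Subgroup.centralizer (P₁ : Set G) => φ c) ∧
      (∀ t : Subgroup.centralizer (P₁ : Set G),
        cen 𝔐 (MonoidHom.id (Subgroup.centralizer (P₁ : Set G)))
          (fun c : Subgroup.centralizer (P₁ : Set G) => φ c) t =
          cgT 𝔐 (Subgroup.centralizer (P₁ : Set G)) φ t) ∧
      ∀ g, g ∉ Subgroup.centralizer (P₁ : Set G) →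
        cgT 𝔐 (Subgroup.centralizer (P₁ : Set G)) φ g = 0) ∧
    P₁ ≤ Subgroup.centralizer (P₁ : Set G) ∧
    (∀ φ' : G → ℂ, IrrOn (Subgroup.centralizer (P₁ : Set G)) φ' →
      (φ' ∈ ZC 𝔐 P₁ ω ↔ ∃ s ∈ stb {P₁}, ∀ g,
        cgT 𝔐 (Subgroup.centralizer (P₁ : Set G)) φ' (s * g * s⁻¹) =
          cgT 𝔐 (Subgroup.centralizer (P₁ : Set G)) φ g)) ∧
    ∀ ψ : G → ℂ, IrrOn (stb {P₁}) ψ →
      mu (Subgroup.centralizer (P₁ : Set G)) ψ φ ≠ 0 → ψ ∈ YL 𝔐 P₁ ω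

/-- RCB_WST: the stabilizer `W` of the block in the centralizer of `P₁` in `B`.
Proof. (1) `ι c ∈ WG` iff `c` centralizes `P₁` (`κ (ι c)` is conjugation by `c`) and
`cgT (c g c⁻¹) = cgT g`, which holds for `c ∈ C₀` (`cjT C₀` is invariant).
(2) Let `b : B`. By `EQV` (1) we may assume that `b` normalizes `P₁` (`b ∈ Stx κ {P₁} 0`). By
`EQV` (4) `φ ∘ κ b ∈ ZC`. By `ZCA` (4) there is `s ∈ stb {P₁}` with
`cgT (φ ∘ κ b) (s g s⁻¹) = cgT φ g`, and `cgT (φ ∘ κ b) g = cgT φ (κ b g)` (`κ b` preserves `C₀`), so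
`y = b * ι s` satisfies `cgT φ (κ y g) = cgT φ g`, normalizes `P₁`, and `ρ y = ρ b`. `κ y` acts on `P₁`
(of order `ℓ`) as `u ↦ u ^ k`, `k` prime to `ℓ`, so `y ^ (ℓ - 1)` centralizes `P₁` (Fermat) and is in
`WG`. Let `i` with `i * (ℓ - 1) ≡ 1` modulo `|C| = ℓ ^ m`. Then `w = y ^ ((ℓ - 1) * i) ∈ WG`,
`ρ w = ρ b`. (3) direct computation: `κ (ι s) g = s g s⁻¹`. -/
def Stmt_WST : Prop :=
  ∀ (G B C : Type) [Group G] [Fintype G] [Group B] [Fintype B] [Group C]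
    (𝔐 : Ideal (integralClosure ℤ ℂ)) (ℓ n : ℕ) [Fact ℓ.Prime], 𝔐.IsMaximal →
    (ℓ : integralClosure ℤ ℂ) ∈ 𝔐 → ∀ (ι : G →* B) (κ : B →* MulAut G) (ρ : B →* C),
    LocN ι κ ρ → (∃ m, Nat.card C = ℓ ^ m) →
    ∀ (ω : G → (integralClosure ℤ ℂ) ⧸ 𝔐) (P₁ P : Subgroup G) (x₀ : G),
    StX 𝔐 ℓ n κ ω P₁ P x₀ → ∀ φ ∈ ZC 𝔐 P₁ ω,
    (WG 𝔐 κ P₁ φ).comap ι = Subgroup.centralizer (P₁ : Set G) ∧
    (WG 𝔐 κ P₁ φ).map ρ = ⊤ ∧
    ∀ s ∈ stb {P₁}, (∀ g, cgT 𝔐 (Subgroup.centralizer (P₁ : Set G)) φ (s * g * s⁻¹) =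
      cgT 𝔐 (Subgroup.centralizer (P₁ : Set G)) φ g) →
      ∀ w ∈ WG 𝔐 κ P₁ φ, ι s * w * (ι s)⁻¹ ∈ WG 𝔐 κ P₁ φ

/-- RCB_XTH: a conjugate of `x` whose class in `C₀` is invariant under `W` and has weight
different from zero ((iii) of C4.1).
Proof. Let `ψ ∈ YL` with `mu C₀ ψ φ ≠ 0`. Every `ℓ`-subgroup centralizing `x` is cyclic (`SUPX`,
second part: it is conjugate to a subgroup of `P`), i.e. `CyC ℓ ⊤ x`; so by `GDX` (second part)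
`ω x = cg 𝔐 ψ x = red 𝔐 (wt ψ (cjT (stb {P₁}) · x))`. Let `Y` be the set of the `s * x * s⁻¹`,
`s ∈ N = stb {P₁}`; `Y ⊆ C₀`. For every function `f` on `C₀` invariant under `N`,
`(∑ c ∈ C₀, f c * ψ c) / ψ 1 = (∑ c ∈ C₀, f c * φ c) / φ 1`: `ψ|C₀` is `k` times the sum of the
different `N`-conjugates of `φ` (Clifford, `SUMM`; see `DPX/ORBX.lean`). So with `T = C₀`, `φ|C₀` and
`a` the indicator function of `Y`: `red (wt φ a) = ω x ≠ 0`. By `WST` and `RLN` we have `LocN` for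
`(C₀, WG, C)`. `a` is invariant under `C₀`, and under `w ∈ WG`: for `y ∈ Y`, `κ w y` is
`G`-conjugate to `x` (hypothesis) and in `C₀` (`w` centralizes `P₁`), so by `GCX` (third part, `P₁`
centralizes `x` and `κ w y = g x g⁻¹`) it is conjugate to `x` under the normalizer of `P₁`, i.e.
`κ w y ∈ Y`. `WFX` gives the element (its central function is `cgT`, `ZCA` (2)). -/
def Stmt_XTH : Prop :=
  ∀ (G B C : Type) [Group G] [Fintype G] [Group B] [Fintype B] [Group C]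
    (𝔐 : Ideal (integralClosure ℤ ℂ)) (ℓ n : ℕ) [Fact ℓ.Prime], 𝔐.IsMaximal →
    (ℓ : integralClosure ℤ ℂ) ∈ 𝔐 → ∀ (ι : G →* B) (κ : B →* MulAut G) (ρ : B →* C),
    LocN ι κ ρ → (∃ m, Nat.card C = ℓ ^ m) →
    ∀ (ω : G → (integralClosure ℤ ℂ) ⧸ 𝔐) (P₁ P : Subgroup G) (x : G),
    StX 𝔐 ℓ n κ ω P₁ P x → (∀ b, ∃ g, κ b x = g * x * g⁻¹) → ∀ φ ∈ ZC 𝔐 P₁ ω,
    ∃ s ∈ stb {P₁}, cgT 𝔐 (Subgroup.centralizer (P₁ : Set G)) φ (s * x * s⁻¹) ≠ 0 ∧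
      ∀ w ∈ WG 𝔐 κ P₁ φ, ∃ c ∈ Subgroup.centralizer (P₁ : Set G),
        κ w (s * x * s⁻¹) = c * (s * x * s⁻¹) * c⁻¹

/-- RCB_CPA: the element `x` and a Sylow subgroup `D` of its centralizer in `W`.
Proof. `DTL` gives `y` with `AtX ℓ n ω P₁ P y` and an invariant class; `XTH` (for `y`; `StX` with `y` in
the place of `x₀`) gives `s₀ ∈ stb {P₁}`; put `x = s₀ * y * s₀⁻¹`, `P' = s₀ P s₀⁻¹`:
`AtX ℓ n ω P₁ P' x` (`ω` is a class function, `s₀` normalizes `P₁`; `|C_G(x)| = |C_G(y)|`), `x ∈ C₀`,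
`cgT φ x ≠ 0`, and the `C₀`-class of `x` is invariant under `W = WG 𝔐 κ P₁ φ`. Let
`W_x = W ⊓ centralizer {ι x}`; `W_x.map ρ = ⊤`: let `c : C`, `w ∈ W` with `ρ w = c` (`WST` (2)),
`κ w x = c' x c'⁻¹`, `c' ∈ C₀`; then `(ι c')⁻¹ * w ∈ W_x` (`WST` (1)). `D` := the subgroup of `SYQ` for
`V = W_x` and `Q = P'.map ι` (`P' ≤ C₀` since it is abelian and contains `P₁`, `ι C₀ ≤ W`, and `P'`
centralizes `x`). `D.comap ι` is an `ℓ`-group containing `P'` and centralizing `x`: it is `P'` (its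
order is at most `ℓ ^ n` by `AtX.cd.sq`). So `|D| = |C| * ℓ ^ n`. Last part: `U ≤ W_x`, so by `SYQ`
a conjugate of `U` under `W_x` is contained in `D`, hence equal to `D` by the orders. -/
def Stmt_CPA : Prop :=
  ∀ (G B C : Type) [Group G] [Fintype G] [Group B] [Fintype B] [Group C]
    (𝔐 : Ideal (integralClosure ℤ ℂ)) (ℓ n : ℕ) [Fact ℓ.Prime], 𝔐.IsMaximal →
    (ℓ : integralClosure ℤ ℂ) ∈ 𝔐 → ∀ (ι : G →* B) (κ : B →* MulAut G) (ρ : B →* C),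
    LocN ι κ ρ → (∃ m, Nat.card C = ℓ ^ m) →
    ∀ (ω : G → (integralClosure ℤ ℂ) ⧸ 𝔐) (P₁ P : Subgroup G) (x₀ : G),
    StX 𝔐 ℓ n κ ω P₁ P x₀ → ∀ φ ∈ ZC 𝔐 P₁ ω,
    ∃ (x : G) (P' : Subgroup G) (D : Subgroup B), AtX ℓ n ω P₁ P' x ∧
      x ∈ Subgroup.centralizer (P₁ : Set G) ∧
      cgT 𝔐 (Subgroup.centralizer (P₁ : Set G)) φ x ≠ 0 ∧
      (∀ w ∈ WG 𝔐 κ P₁ φ, ∃ c ∈ Subgroup.centralizer (P₁ : Set G),
        κ w x = c * x * c⁻¹) ∧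
      D ≤ WG 𝔐 κ P₁ φ ∧ IsPGroup ℓ D ∧ D.comap ι = P' ∧ D.map ρ = ⊤ ∧
      (∀ d ∈ D, d * ι x = ι x * d) ∧ Nat.card D = Nat.card C * ℓ ^ n ∧
      ∀ U ≤ WG 𝔐 κ P₁ φ, IsPGroup ℓ U → (∀ u ∈ U, u * ι x = ι x * u) →
        Nat.card D ≤ Nat.card U → ∃ v ∈ WG 𝔐 κ P₁ φ, D = U.map (MulAut.conj v).toMonoidHom

/-- RCB_CPC: an element `t` of the support and an `ℓ`-subgroup of its centralizer in `W`.
Proof. `W = WG 𝔐 κ P₁ φ`; by `WST`, `RLN`: `LocN` for `(C₀, ↥W, C)`. The central function of `φ|C₀` is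
`cgT φ` (`ZCA` (2)), invariant under `W` by the definition of `WG`. `BSC` gives `t ∈ C₀` with
`BSup (φ|C₀) t`, `cgT φ t ≠ 0` and a `W`-invariant `C₀`-class. `W_t = W ⊓ centralizer {ι t}`,
`W_t.map ρ = ⊤` (as in `CPA`), `D₀` := the subgroup of `SYQ` for `W_t`, `Q = ⊥`. By `ZCA` (1) `ℓ ^ n`
divides `|C_{C₀}(t)|`, so there is a subgroup `R` of `G` of order `ℓ ^ n`, contained in `C₀` and
centralizing `t` (`Sylow.exists_subgroup_card_pow_prime`), `R ≤ W_t.comap ι`; by `SYQ` `ℓ ^ n` divides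
`|D₀.comap ι|` and `|D₀| = |C| * |D₀.comap ι|`. -/
def Stmt_CPC : Prop :=
  ∀ (G B C : Type) [Group G] [Fintype G] [Group B] [Fintype B] [Group C]
    (𝔐 : Ideal (integralClosure ℤ ℂ)) (ℓ n : ℕ) [Fact ℓ.Prime], 𝔐.IsMaximal →
    (ℓ : integralClosure ℤ ℂ) ∈ 𝔐 → ∀ (ι : G →* B) (κ : B →* MulAut G) (ρ : B →* C),
    LocN ι κ ρ → (∃ m, Nat.card C = ℓ ^ m) →
    ∀ (ω : G → (integralClosure ℤ ℂ) ⧸ 𝔐) (P₁ P : Subgroup G) (x₀ : G),
    StX 𝔐 ℓ n κ ω P₁ P x₀ → ∀ φ ∈ ZC 𝔐 P₁ ω,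
    ∃ (t : Subgroup.centralizer (P₁ : Set G)) (D₀ : Subgroup B),
      BSup 𝔐 (fun c : Subgroup.centralizer (P₁ : Set G) => φ c) t ∧
      D₀ ≤ WG 𝔐 κ P₁ φ ∧ IsPGroup ℓ D₀ ∧ (∀ d ∈ D₀, d * ι t = ι t * d) ∧
      Nat.card C * ℓ ^ n ≤ Nat.card D₀

/-- RCB_CPN: the Sylow subgroup `D` of the centralizer of `x` in `W` is conjugate under `W` to
its conjugates under the stabilizer of the block ((iv) of C4.1).
Proof. `x, P', D` from `CPA`, `t, D₀` from `CPC`; `D ≤ W` gives the statement on `P₁`. `LocN` for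
`(C₀, ↥W, C)` as in `CPC`. Claim: for `s ∈ stb {P₁}` which stabilizes the block there is `y_s ∈ W` with
`D = y_s (ι s D₀ (ι s)⁻¹) y_s⁻¹`. Proof: `U = ι s D₀ (ι s)⁻¹` is an `ℓ`-subgroup of `W` (`WST` (3)) which
centralizes `ι (s t s⁻¹)`; `BSup (φ|C₀) (s t s⁻¹)` (`BSA` (3) for the automorphism `c ↦ s c s⁻¹` of
`C₀`). `BSD` for `(C₀, ↥W, C)` with `x` in the place of `t` and `h = s t s⁻¹`: some `g ∈ C₀` with `κ u`
fixing `g x g⁻¹` for `u ∈ U`; so `(ι g)⁻¹ U (ι g) ≤ W` centralizes `ι x` and has at least `|D|`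
elements (`|U| = |D₀|`), and the last part of `CPA` gives `v`; `y_s = v * (ι g)⁻¹`.
Apply the claim to `s` and to `1`: `D = y_1 D₀ y_1⁻¹`, so
`ι s D (ι s)⁻¹ = (ι s y_1 (ι s)⁻¹) U (ι s y_1 (ι s)⁻¹)⁻¹` and `U = y_s⁻¹ D y_s`; put
`w = ι s y_1 (ι s)⁻¹ y_s⁻¹ ∈ W` (`WST` (3)). -/
def Stmt_CPN : Prop :=
  ∀ (G B C : Type) [Group G] [Fintype G] [Group B] [Fintype B] [Group C]
    (𝔐 : Ideal (integralClosure ℤ ℂ)) (ℓ n : ℕ) [Fact ℓ.Prime], 𝔐.IsMaximal →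
    (ℓ : integralClosure ℤ ℂ) ∈ 𝔐 → ∀ (ι : G →* B) (κ : B →* MulAut G) (ρ : B →* C),
    LocN ι κ ρ → (∃ m, Nat.card C = ℓ ^ m) →
    ∀ (ω : G → (integralClosure ℤ ℂ) ⧸ 𝔐) (P₁ P : Subgroup G) (x₀ : G),
    StX 𝔐 ℓ n κ ω P₁ P x₀ → ∀ φ ∈ ZC 𝔐 P₁ ω,
    ∃ (x : G) (P' : Subgroup G) (D : Subgroup B), AtX ℓ n ω P₁ P' x ∧
      IsPGroup ℓ D ∧ D.comap ι = P' ∧ D.map ρ = ⊤ ∧ (∀ d ∈ D, d * ι x = ι x * d) ∧
      (∀ d ∈ D, ∀ u ∈ P₁, κ d u = u) ∧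
      ∀ s ∈ stb {P₁}, (∀ g, cgT 𝔐 (Subgroup.centralizer (P₁ : Set G)) φ (s * g * s⁻¹) =
        cgT 𝔐 (Subgroup.centralizer (P₁ : Set G)) φ g) →
        ∃ w : B, (∀ u ∈ P₁, κ w u = u) ∧
          D.map (MulAut.conj (ι s)).toMonoidHom = D.map (MulAut.conj w).toMonoidHom

/-- RCB_CPM: a complement ((v) of C4.1, group theory).
Proof. `|P₁| = ℓ` and `κ s` maps `P₁` to itself: it acts as `u ↦ u ^ k`. Put `s₂ = s ^ |C|`,
`|C| = ℓ ^ m`. `κ s₂` acts on `P₁` as `u ↦ u ^ (k ^ ℓ ^ m) = u ^ k` (Fermat: `k ^ ℓ ≡ k` modulo `ℓ`),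
so `κ s₂ u ≠ u` for some `u ∈ P₁`. `ρ s₂ = 1`. `s₂` normalizes `D`, so `κ s₂` maps `P = D.comap ι` to
itself (`ι (κ s₂ p) = s₂ * ι p * s₂⁻¹`). If `p ∈ P`, `κ s₂ p = p`, `p ≠ 1` then `P₁ ≤ zpowers p`
(`HGTX.le_zpowers`), so `κ s₂` is trivial on `P₁`, contradiction. So the homomorphism
`q ↦ q * (κ s₂ q)⁻¹` of the finite abelian group `P` to itself is injective, hence surjective.
Let `F = D ⊓ centralizer {s₂}`. `F.comap ι` consists of the `p ∈ P` with `κ s₂ p = p`: trivial.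
`F.map ρ = ⊤`: let `d ∈ D` with `ρ d = c`; `d⁻¹ * s₂ * d * s₂⁻¹ ∈ D` is in the kernel of `ρ`, so it is
`ι p`, `p ∈ P`; let `q ∈ P` with `q * (κ s₂ q)⁻¹ = p`; then
`s₂ * (d * ι q) * s₂⁻¹ = d * ι p * ι (κ s₂ q) = d * ι q`, so `d * ι q ∈ F`. -/
def Stmt_CPM : Prop :=
  ∀ (G B C : Type) [Group G] [Fintype G] [Group B] [Fintype B] [Group C] (ℓ n : ℕ)
    [Fact ℓ.Prime] (ι : G →* B) (κ : B →* MulAut G) (ρ : B →* C), LocN ι κ ρ →
    (∃ m, Nat.card C = ℓ ^ m) → ∀ (P₁ P : Subgroup G) (D : Subgroup B), P₁ ≤ P →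
    Nat.card P₁ = ℓ → IsCyclic P → Nat.card P = ℓ ^ n → D.comap ι = P → D.map ρ = ⊤ →
    ∀ s : B, D.map (MulAut.conj s).toMonoidHom = D → (∀ u ∈ P₁, κ s u ∈ P₁) →
    (∃ u ∈ P₁, κ s u ≠ u) → ∃ F ≤ D, F.comap ι = ⊥ ∧ F.map ρ = ⊤

/-- RCB_TRV: a complement which centralizes an element with a value different from zero.
Proof. `ip (fun u : zpowers x => χ u) om` is a natural number `k om` for every irreducible character
`om` of the cyclic group `U = ↥(zpowers x)`, and `χ x = ∑ k om * om x`. Since `red (χ x) ≠ 0` some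
`k = k om` is not divisible by `ℓ`. Let `S = ↥F × U`, `h : S →* B`, `h (f, u) = f * ι u` (a
homomorphism since `F` centralizes `ι x`), `j' u = (1, u)`, `c' = 1` (the trivial action; `U` is
abelian), `q (f, u) = ρ f`. `ClG j' c' q`: `q (f, u) = 1` iff `f ∈ ι G ∩ F = 1`. `q` is surjective.
`E (f, u) = om u` is an irreducible (linear) character of `S`, so by `FSX` (1) `FS j' q om 1`.
`FSP` with `θ = χ`, `ζ = om`, `a' = 1`: `a * 1⁻¹ ∈ cob C`. -/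
def Stmt_TRV : Prop :=
  ∀ (A Y K : Type) [Group A] [Fintype A] [Group Y] [Fintype Y] [Group K]
    (𝔐 : Ideal (integralClosure ℤ ℂ)) (ℓ : ℕ) [Fact ℓ.Prime], 𝔐.IsMaximal →
    (ℓ : integralClosure ℤ ℂ) ∈ 𝔐 → ∀ (j : A →* Y) (c : Y →* MulAut A) (p : Y →* K),
    ClG j c p → (∃ m, Nat.card K = ℓ ^ m) → ∀ (x : A) (F : Subgroup Y), F.comap j = ⊥ →
    F.map p = ⊤ → (∀ f ∈ F, f * j x = j x * f) → ∀ θ : A → ℂ, IsIrr θ → red 𝔐 (θ x) ≠ 0 →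
    ∀ a, FS j p θ a → a ∈ cob K

/-- RCB_C4A: inertial index greater than one: both classes are trivial (C4.1).
Proof. `EB`: `φ ∈ ZC`, `s ∈ stb {P₁}`, `s ∉ C₀`, stabilizing the block. `CPN` gives `x, P', D` and `w`;
`s' = w⁻¹ * ι s` normalizes `D`, maps `P₁` to itself (`s` normalizes, `w` centralizes `P₁`) and acts
nontrivially on `P₁` (`s ∉ C₀`). `CPM` (with `P'`) gives `F ≤ D`. `χ`: `TRV` for `(G, B, C)`, with
`red (χ x) ≠ 0` (`NZX`). `ψ`: `TRV` for `A = ↥(stb {P₁})`, `Y = ↥(YS ι {P₁})`, `j`, `clG_S` (for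
`c`; `j` is `jS`), `F.subgroupOf (YS ι {P₁})` (`F ≤ YS ι {P₁}` since `D` centralizes `P₁`),
`x ∈ stb {P₁}` (it centralizes `P₁`), `red (ψ x) ≠ 0` (`NZX`). -/
def Stmt_C4A : Prop :=
  ∀ (G B C : Type) [Group G] [Fintype G] [Group B] [Fintype B] [Group C]
    (𝔐 : Ideal (integralClosure ℤ ℂ)) (ℓ n : ℕ) [Fact ℓ.Prime], 𝔐.IsMaximal →
    (ℓ : integralClosure ℤ ℂ) ∈ 𝔐 → ∀ (ι : G →* B) (κ : B →* MulAut G) (ρ : B →* C),
    LocN ι κ ρ → (∃ m, Nat.card C = ℓ ^ m) →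
    ∀ (ω : G → (integralClosure ℤ ℂ) ⧸ 𝔐) (P₁ P : Subgroup G) (x₀ : G),
    StX 𝔐 ℓ n κ ω P₁ P x₀ → EB 𝔐 P₁ ω → ∀ χ ∈ XS 𝔐 ω, ∀ ψ ∈ YL 𝔐 P₁ ω,
    ∀ (j : ↥(stb {P₁}) →* ↥(YS ι {P₁})), (∀ g, (j g : B) = ι g) →
    ∀ a a₁, FS ι ρ χ a → FS j (ρ.comp (YS ι {P₁}).subtype) (fun g : stb {P₁} => ψ g) a₁ →
      a ∈ cob C ∧ a₁ ∈ cob C

/-! ### C4.2: inertial index one -/

open Classical in
/-- RCB_RZC: restriction to the centralizer of `P₁`.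
Proof. As functions on `N = stb {P₁}`: `χ = ∑ ψ' ∈ irrOn N, mu N χ ψ' * ψ'` (expansion of a character of
`↥N`, extended by zero; `irrOn`, `irrF`), and `ψ' = ∑ φ ∈ irrOn C₀, mu C₀ ψ' φ * φ` on `C₀`, with
`mu C₀ ψ' φ = 0` unless (`ψ' ∈ YL` iff `φ ∈ ZC`): if `mu C₀ ψ' φ ≠ 0` and `ψ' ∈ YL` then `φ ∈ ZC` by
definition; if `φ ∈ ZC` then `ψ' ∈ YL` by `ZCA` (5). So for `g ∈ C₀` both sides of (1) are
`∑ mu N χ ψ' * mu C₀ ψ' φ * φ g` over `ψ' ∈ YL`, `φ ∈ ZC` (and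
`mu C₀ χ φ = ∑ ψ', mu N χ ψ' * mu C₀ ψ' φ`). (2) the second formula for `ψ ∈ YL`. -/
def Stmt_RZC : Prop :=
  ∀ (G : Type) [Group G] [Fintype G] (𝔐 : Ideal (integralClosure ℤ ℂ)) (ℓ n : ℕ)
    [Fact ℓ.Prime], 𝔐.IsMaximal → (ℓ : integralClosure ℤ ℂ) ∈ 𝔐 →
    ∀ (ω : G → (integralClosure ℤ ℂ) ⧸ 𝔐) (P₁ P : Subgroup G) (x : G), AtX ℓ n ω P₁ P x →
    (∃ θ : G → ℂ, IsIrr θ ∧ cen 𝔐 (MonoidHom.id G) θ = ω) →
    (∀ χ : G → ℂ, IsIrr χ → ∀ g ∈ Subgroup.centralizer (P₁ : Set G),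
      ∑ ψ' ∈ irrOn (stb {P₁}) with ψ' ∈ YL 𝔐 P₁ ω, mu (stb {P₁}) χ ψ' * ψ' g =
        ∑ φ ∈ irrOn (Subgroup.centralizer (P₁ : Set G)) with φ ∈ ZC 𝔐 P₁ ω,
          mu (Subgroup.centralizer (P₁ : Set G)) χ φ * φ g) ∧
    ∀ ψ ∈ YL 𝔐 P₁ ω, ∀ g ∈ Subgroup.centralizer (P₁ : Set G),
      ψ g = ∑ φ ∈ irrOn (Subgroup.centralizer (P₁ : Set G)) with φ ∈ ZC 𝔐 P₁ ω,
        mu (Subgroup.centralizer (P₁ : Set G)) ψ φ * φ g

/-- RCB_MZC: inertial index one: the restriction of `ψ` is multiplicity free.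
Proof. `k = mu C₀ ψ φ` is a natural number; assume `k ≠ 0`. The conjugates `φ^s = φ ∘ conj s`,
`s ∈ stb {P₁}`, are irreducible characters of `C₀` with `mu C₀ ψ (φ^s) = k` (`ψ` is a class function of
`N`), and `φ^s = φ^s'` implies that `s' * s⁻¹` (or its inverse, according to the convention) fixes
`φ`, hence its central function, so it lies in `C₀` (not `EB`, `φ ∈ ZC`). So there are at least
`[N : C₀]` different ones, and `[N : C₀] * k ^ 2 ≤ |C₀|⁻¹ ∑ c ∈ C₀, |ψ c| ^ 2 ≤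
[N : C₀] * (|N|⁻¹ ∑ g ∈ N, |ψ g| ^ 2) = [N : C₀]` (`|ψ g|² = ψ g * ψ g⁻¹`). So `k ≤ 1`. (Or use
`LCC` (5), with `TRM`.) -/
def Stmt_MZC : Prop :=
  ∀ (G : Type) [Group G] [Fintype G] (𝔐 : Ideal (integralClosure ℤ ℂ)) (ℓ n : ℕ)
    [Fact ℓ.Prime], 𝔐.IsMaximal → (ℓ : integralClosure ℤ ℂ) ∈ 𝔐 →
    ∀ (ω : G → (integralClosure ℤ ℂ) ⧸ 𝔐) (P₁ P : Subgroup G) (x : G), AtX ℓ n ω P₁ P x →
    (∃ θ : G → ℂ, IsIrr θ ∧ cen 𝔐 (MonoidHom.id G) θ = ω) → ¬ EB 𝔐 P₁ ω →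
    ∀ ψ ∈ YL 𝔐 P₁ ω, ∀ φ ∈ ZC 𝔐 P₁ ω, mu (Subgroup.centralizer (P₁ : Set G)) ψ φ = 0 ∨
      mu (Subgroup.centralizer (P₁ : Set G)) ψ φ = 1

open Classical in
/-- RCB_SZC: the sum of the characters in `ZC` at the elements of order divisible by `ℓ`.
Proof. Group the sum by the central function (`cgT 𝔐 C₀ φ`); by `ZCA` (4) with `φ ∈ ZC` all
`φ'` irreducible on `C₀` with the same central function are in `ZC` (`s = 1` and transitivity), so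
each part is the sum over a full block of `↥C₀`. By `ATNX`, `ATCX` (as in `ZCA`) and `REGX` (`P₁` is
central in `C₀`) the degrees in a block are equal, and `OSIX` gives `∑ φ 1 * φ g = 0`. (Or: `AIN` (4)
for each block, with `TRM`.) -/
def Stmt_SZC : Prop :=
  ∀ (G : Type) [Group G] [Fintype G] (𝔐 : Ideal (integralClosure ℤ ℂ)) (ℓ n : ℕ)
    [Fact ℓ.Prime], 𝔐.IsMaximal → (ℓ : integralClosure ℤ ℂ) ∈ 𝔐 →
    ∀ (ω : G → (integralClosure ℤ ℂ) ⧸ 𝔐) (P₁ P : Subgroup G) (x : G), AtX ℓ n ω P₁ P x →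
    (∃ θ : G → ℂ, IsIrr θ ∧ cen 𝔐 (MonoidHom.id G) θ = ω) →
    ∀ g ∈ Subgroup.centralizer (P₁ : Set G), ℓ ∣ orderOf g →
      ∑ φ ∈ irrOn (Subgroup.centralizer (P₁ : Set G)) with φ ∈ ZC 𝔐 P₁ ω, φ g = 0

open Classical in
/-- RCB_VAL: matching characters have the same values up to sign at the elements whose powers
contain `P₁`.
Proof. `P₁ ≤ zpowers g`, so `g ∈ C₀ ≤ stb {P₁}` and `ℓ ∣ orderOf g`. `MT2X` (first part, for `χ`)
translated to functions on `G`: `χ g = ∑ ψ' ∈ irrOn (stb {P₁}) with ψ' ∈ YL, mu (stb {P₁}) χ ψ' * ψ' g`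
(`stb {P₁}` is the normalizer of `P₁`, `TRM`). By `RZC` (1), the hypothesis, `SZC`, `MZC` and
`RZC` (2): `χ g = ∑ φ, mu C₀ χ φ * φ g = a * ∑ φ, φ g + b * ∑ [mu C₀ ψ φ ≠ 0] φ g = 0 + b * ψ g`. -/
def Stmt_VAL : Prop :=
  ∀ (G : Type) [Group G] [Fintype G] (𝔐 : Ideal (integralClosure ℤ ℂ)) (ℓ n : ℕ)
    [Fact ℓ.Prime], 𝔐.IsMaximal → (ℓ : integralClosure ℤ ℂ) ∈ 𝔐 →
    ∀ (ω : G → (integralClosure ℤ ℂ) ⧸ 𝔐) (P₁ P : Subgroup G) (x : G), AtX ℓ n ω P₁ P x →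
    (∃ θ : G → ℂ, IsIrr θ ∧ cen 𝔐 (MonoidHom.id G) θ = ω) → ¬ EB 𝔐 P₁ ω →
    ∀ χ ∈ XS 𝔐 ω, ∀ ψ ∈ YL 𝔐 P₁ ω, ∀ a b : ℤ, (∀ φ ∈ ZC 𝔐 P₁ ω,
      mu (Subgroup.centralizer (P₁ : Set G)) χ φ =
        (a : ℂ) + if mu (Subgroup.centralizer (P₁ : Set G)) ψ φ ≠ 0 then (b : ℂ) else 0) →
    ∀ g : G, P₁ ≤ Subgroup.zpowers g → χ g = b * ψ g

open Classical in
/-- RCB_FLX: the coefficients `fL`.
Here `P` commutes with `x`. Proof. `U = P × ↥(zpowers x)`, `r : U →* A`, `r (u, y) = i u * y`. For an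
irreducible (linear) character `om : zpowers x →* ℂˣ` let `k om = ip (θ ∘ r) (lam ⊗ om)`, a natural
number (`lam ⊗ om` is an irreducible character of `U`); `∑ om, om x * om y⁻¹ = orderOf x` if `y = x`
and `0` otherwise (`y ∈ zpowers x`), so `∑ om, k om * om x = fL i θ x lam`. This gives (1) and (2)
(`red` of the sum is not `0`, so some `red (k om) ≠ 0`, i.e. `¬ ℓ ∣ k om`). (3)
`∑ lam, (lam u)⁻¹ = 0` for `u ≠ 1` and `|P|` for `u = 1` (`P` is abelian: the number of its linear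
characters is `|P|` and they separate the elements). (4) substitute `u ↦ cD u`. -/
def Stmt_FLX : Prop :=
  ∀ (A P : Type) [Group A] [Fintype A] [Group P] [Fintype P] (𝔐 : Ideal (integralClosure ℤ ℂ))
    (ℓ : ℕ) [Fact ℓ.Prime], 𝔐.IsMaximal → (ℓ : integralClosure ℤ ℂ) ∈ 𝔐 →
    (∀ u v : P, u * v = v * u) → ∀ (i : P →* A) (x : A), (∀ u, i u * x = x * i u) →
    ∀ θ : A → ℂ, IsIrr θ →
    (∀ lam : P →* ℂˣ, IsIntegral ℤ (fL i θ x lam)) ∧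
    (∀ lam : P →* ℂˣ, red 𝔐 (fL i θ x lam) ≠ 0 →
      ∃ (om : Subgroup.zpowers x →* ℂˣ) (k : ℕ), ¬ ℓ ∣ k ∧
        ip (fun u : P × Subgroup.zpowers x => θ (i u.1 * u.2))
          (fun u => ((lam u.1 : ℂˣ) : ℂ) * ((om u.2 : ℂˣ) : ℂ)) = k) ∧
    (∀ [Fintype (P →* ℂˣ)], ∑ lam : P →* ℂˣ, fL i θ x lam = θ x) ∧
    ∀ c : MulAut P, (∀ u, θ (i (c u) * x) = θ (i u * x)) → ∀ lam : P →* ℂˣ,
      fL i θ x (lam.comp c.toMonoidHom) = fL i θ x lam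

/-- RCB_MLX: the class of `θ` is the class of `lam` if the coefficient is not zero (ii).
Proof. `FLX` (2): `om`, `k`. `U = P × ↥(zpowers x)`, `S = D × ↥(zpowers x)`, `r (u, y) = i u * y`,
`h' (d, y) = h d * j y` (a homomorphism: `h d` commutes with `j x`; `i u` commutes with `x` because
`j (i u) = h (jD u)` and `j` is injective), `j' (u, y) = (jD u, y)`,
`c' (d, y) = (cD d) × id`, `q (d, y) = pD d`. `ClG j' c' q` (`zpowers x` is abelian), `q` surjective,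
`h' (j' u) = j (r u)`, `p (h' s) = q s` (`p (j y) = 1`). `FS jD pD lam b` gives
`FS j' q (lam ⊗ om) b`: multiply the operator `T d` by the scalar `om y`. `lam ⊗ om` is irreducible
(degree one). `FSP`: `a * b⁻¹ ∈ cob K`. -/
def Stmt_MLX : Prop :=
  ∀ (A Y P D K : Type) [Group A] [Fintype A] [Group Y] [Fintype Y] [Group P] [Fintype P]
    [Group D] [Fintype D] [Group K] (𝔐 : Ideal (integralClosure ℤ ℂ)) (ℓ : ℕ) [Fact ℓ.Prime],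
    𝔐.IsMaximal → (ℓ : integralClosure ℤ ℂ) ∈ 𝔐 → ∀ (j : A →* Y) (c : Y →* MulAut A)
    (p : Y →* K) (jD : P →* D) (cD : D →* MulAut P) (pD : D →* K) (i : P →* A) (h : D →* Y),
    ClG j c p → ClG jD cD pD → Function.Surjective pD → (∀ u, h (jD u) = j (i u)) →
    (∀ d, p (h d) = pD d) → (∃ m, Nat.card K = ℓ ^ m) → (∀ u v : P, u * v = v * u) →
    ∀ x : A, (∀ d, h d * j x = j x * h d) → ∀ θ : A → ℂ, IsIrr θ → ∀ lam : P →* ℂˣ,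
    red 𝔐 (fL i θ x lam) ≠ 0 → ∀ a b, FS j p θ a →
    FS jD pD (fun u => ((lam u : ℂˣ) : ℂ)) b → a * b⁻¹ ∈ cob K

/-- RCB_SEL: the selection lemma.
Proof. If `f lam ≠ 0` and `g lam ≠ 0` for some `lam` then `u = cl lam = v`. Otherwise the supports
`S_f`, `S_g` are disjoint. Let `f lam₀ ≠ 0`; then `g lam₀ = 0`, `c = f lam₀ ≠ 0`. If `g lam = 0` then
`f lam = c ≠ 0`. So `Λ` is the disjoint union of `S_f` and `S_g`, and since `|Λ|` is odd one of them,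
`S`, has more than `|Λ| / 2` elements. For every `m : Λ` the sets `S` and `m S` meet, so
`m = s * s'⁻¹` with `s, s' ∈ S` and `cl m = 1`. So `u = 1 = v` (both supports are not empty). -/
def Stmt_SEL : Prop :=
  ∀ (Λ F Q : Type) [CommGroup Λ] [Finite Λ] [Field F] [CommGroup Q] (f g : Λ → F) (c e : F)
    (cl : Λ →* Q) (u v : Q), Odd (Nat.card Λ) → (∀ lam, f lam = e * g lam + c) →
    (∃ lam, f lam ≠ 0) → (∃ lam, g lam ≠ 0) → (∀ lam, f lam ≠ 0 → cl lam = u) →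
    (∀ lam, g lam ≠ 0 → cl lam = v) → u = v

/-- RCB_CLA: the classes of the invariant linear characters form a homomorphism.
Proof. `Λ₀` (the invariant ones) is a subgroup of the group of linear characters of `P`, whose order is
`|P| = ℓ ^ n` (`P` abelian), so `|Λ₀|` is a power of `ℓ`, odd. For `lam ∈ Λ₀` choose by `FSE` a factor
set `b lam` of `fun u => lam u` (irreducible, degree one). `b (lam * mu)` and `b lam * b mu` are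
both factor sets of `lam * mu` (`FSX` (2)), so they differ by a coboundary (`FSU`). -/
def Stmt_CLA : Prop :=
  ∀ (P D K : Type) [Group P] [Fintype P] [Group D] [Fintype D] [Group K] (ℓ n : ℕ)
    [Fact ℓ.Prime], ℓ ≠ 2 → ∀ (jD : P →* D) (cD : D →* MulAut P) (pD : D →* K),
    ClG jD cD pD → Function.Surjective pD → (∀ u v : P, u * v = v * u) → Nat.card P = ℓ ^ n →
    ∃ (Λ₀ : Subgroup (P →* ℂˣ)) (cl : Λ₀ →* (K → K → ℂˣ) ⧸ cob K), Odd (Nat.card Λ₀) ∧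
      (∀ lam : P →* ℂˣ, lam ∈ Λ₀ ↔ ∀ d u, lam (cD d u) = lam u) ∧
      ∀ lam : Λ₀, ∃ b, FS jD pD (fun u => (((lam : P →* ℂˣ) u : ℂˣ) : ℂ)) b ∧
        cl lam = QuotientGroup.mk b

/-- RCB_C4B: inertial index one (C4.2).
Proof. `DTL`: `x, D` with `AtX ℓ n ω P₁ P x`, `D.comap ι = P`. `RLN` for `D`, `P`: `jD, cD`, `LocN`,
`pD = ρ ∘ subtype`. `D` normalizes `ι P₁` (the only subgroup of order `ℓ` of `ι P = D ∩ ι G`), so
`D ≤ YS ι {P₁}`; `x ∈ C₀ ≤ stb {P₁}`, `P ≤ stb {P₁}` (abelian). Put `i = P.subtype : P →* G`,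
`h = D.subtype : D →* B` for `χ`, and `i₁ : P →* ↥(stb {P₁})`, `h₁ : D →* ↥(YS ι {P₁})` the inclusions
for `ψ` (`clG_S` for `c`, `j` is `jS`), `x₁ = ⟨x, _⟩`. On `Λ = (P →* ℂˣ)` put `F lam = fL i χ x lam`,
`G lam = fL i₁ (ψ|stb {P₁}) x₁ lam` (the same sum with `ψ (u * x)`), both integral (`FLX` (1)).
(i) `χ (u x) = b * ψ (u x)` for `u ≠ 1` (`VAL`: `P₁ ≤ zpowers u ≤ zpowers (u x)`, `HGTX.le_zpowers`,
`HGTX.mem_zpowers_mul`, `¬ ℓ ∣ orderOf x`), with `a, b` from `Mtc`, so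
`F lam = b * G lam + c`, `c = (χ x - b * ψ x) / |P|`, which is integral.
(ii) `MLX` for `χ` and for `ψ`: `red (F lam) ≠ 0` implies `a_χ * b_lam⁻¹ ∈ cob C` for a factor set
`b_lam` of `lam`, and the same for `ψ`, `a₁`. (iii) `F (lam ∘ cD d) = F lam` for `d ∈ D` (`χ` is
invariant under `B` since `(Stx κ ∅ χ).map ρ = ⊤`, and `d` commutes with `ι x`), the same for `G`
(`(Stx κ {P₁} ψ).map ρ = ⊤`, `D ≤ YS ι {P₁}`); so by `FPS` (`D` acts on `Λ` by `lam ↦ lam ∘ cD d⁻¹`)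
`∑ lam ∈ Λ₀, red (F lam) = ∑ lam, red (F lam) = red (χ x) ≠ 0` (`FLX` (3), `NZX`), and the same for
`ψ`. Now `SEL` with `Λ₀`, `cl` of `CLA`, `f = red ∘ F`, `g = red ∘ G`, `e = red b`, `c = red c`,
`u = mk a`, `v = mk a₁`: `mk a = mk a₁`, i.e. `a * a₁⁻¹ ∈ cob C` (commutative group). -/
def Stmt_C4B : Prop :=
  ∀ (G B C : Type) [Group G] [Fintype G] [Group B] [Fintype B] [Group C]
    (𝔐 : Ideal (integralClosure ℤ ℂ)) (ℓ n : ℕ) [Fact ℓ.Prime], 𝔐.IsMaximal →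
    (ℓ : integralClosure ℤ ℂ) ∈ 𝔐 → ℓ ≠ 2 → ∀ (ι : G →* B) (κ : B →* MulAut G) (ρ : B →* C),
    LocN ι κ ρ → (∃ m, Nat.card C = ℓ ^ m) →
    ∀ (ω : G → (integralClosure ℤ ℂ) ⧸ 𝔐) (P₁ P : Subgroup G) (x₀ : G),
    StX 𝔐 ℓ n κ ω P₁ P x₀ → ¬ EB 𝔐 P₁ ω → ∀ χ ∈ XS 𝔐 ω, ∀ ψ ∈ YL 𝔐 P₁ ω,
    (Stx κ ∅ χ).map ρ = ⊤ → (Stx κ {P₁} ψ).map ρ = ⊤ → Mtc 𝔐 P₁ ω χ ψ →
    ∀ (j : ↥(stb {P₁}) →* ↥(YS ι {P₁})), (∀ g, (j g : B) = ι g) →
    ∀ a a₁, FS ι ρ χ a → FS j (ρ.comp (YS ι {P₁}).subtype) (fun g : stb {P₁} => ψ g) a₁ →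
      a * a₁⁻¹ ∈ cob C

/-- `Stmt_C4F` from the two cases. -/
theorem C4F_thm (h1 : Stmt_C4A) (h2 : Stmt_C4B) : Stmt_C4F := by
  intro G B C _ _ _ _ _ 𝔐 ℓ n _ h𝔐 hℓ h2' ι κ ρ hL hC ω P₁ P x₀ hS χ hχ ψ hψ hχ' hψ' hor j hj
    a a₁ ha ha₁
  by_cases hE : EB 𝔐 P₁ ω
  · obtain ⟨k1, k2⟩ := h1 G B C 𝔐 ℓ n h𝔐 hℓ ι κ ρ hL hC ω P₁ P x₀ hS hE χ hχ ψ hψ j hj a a₁
      ha ha₁
    exact (cob C).mul_mem k1 ((cob C).inv_mem k2)
  · have hM : Mtc 𝔐 P₁ ω χ ψ := hor.resolve_left hE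
    exact h2 G B C 𝔐 ℓ n h𝔐 hℓ h2' ι κ ρ hL hC ω P₁ P x₀ hS hE χ hχ ψ hψ hχ' hψ' hM j hj a a₁
      ha ha₁

end Pool.Agent.RCB
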