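import Mathlib
import Pool.Agent.RCB.St4
import Pool.Agent.DPX.GCX

/-!
# Theorem P1, module C4B: inertial index one (C4.2)
-/

set_option autoImplicit false

namespace Pool.Agent.RCB

open Pool.Agent.DP Pool.Agent.DPV Pool.Agent.DPB Pool.Agent.DPW Pool.Agent.DPX
open Pool.Agent.Lib_helper13 Representation

namespace C4B

section Grp

variable {T : Type} [Group T]

/-- the subgroup of order `ℓ` of a cyclic `ℓ`-group -/
theorem le_zpowers [Finite T] {ℓ n : ℕ} [hp : Fact ℓ.Prime] {P₁ P : Subgroup T} (hle : P₁ ≤ P)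
    (hc : IsCyclic P) (h1 : Nat.card P₁ = ℓ) (hn : Nat.card P = ℓ ^ n) {p : T} (hpP : p ∈ P)
    (hne : p ≠ 1) : P₁ ≤ Subgroup.zpowers p := by
  have h2 : orderOf p ∣ ℓ ^ n := by
    rw [← hn]
    exact Subgroup.orderOf_dvd_natCard P hpP
  obtain ⟨k, -, hk⟩ := (Nat.dvd_prime_pow hp.out).1 h2
  have hk0 : k ≠ 0 := by
    rintro rfl
    rw [pow_zero, orderOf_eq_one_iff] at hk
    exact hne hk
  obtain ⟨j, rfl⟩ := Nat.exists_eq_succ_of_ne_zero hk0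
  have h3 : orderOf (p ^ ℓ ^ j) = ℓ := by
    rw [orderOf_pow, hk, Nat.succ_eq_add_one, pow_succ, Nat.gcd_eq_right (Dvd.intro _ rfl),
      Nat.mul_div_cancel_left _ (pow_pos hp.out.pos _)]
  have h4 : P₁ = Subgroup.zpowers (p ^ ℓ ^ j) := by
    apply GCX.uniq' hc hle
    · rw [Subgroup.zpowers_le]
      exact P.pow_mem hpP _
    · rw [Nat.card_zpowers, h3, h1]
  rw [h4, Subgroup.zpowers_le]
  exact Subgroup.pow_mem _ (Subgroup.mem_zpowers p) _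

/-- the powers of the product of commuting elements of coprime orders -/
theorem mem_zpowers_mul {ℓ n : ℕ} [hp : Fact ℓ.Prime] {P : Subgroup T} (hn : Nat.card P = ℓ ^ n)
    {p x : T} (hpP : p ∈ P) (hx : ¬ ℓ ∣ orderOf x) (hcom : p * x = x * p) :
    p ∈ Subgroup.zpowers (p * x) := by
  have h2 : orderOf p ∣ ℓ ^ n := by
    rw [← hn]
    exact Subgroup.orderOf_dvd_natCard P hpP
  have h3 : Nat.Coprime (orderOf p) (orderOf x) :=
    Nat.Coprime.coprime_dvd_left h2 (Nat.Coprime.pow_left n ((hp.out.coprime_iff_not_dvd).2 hx))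
  obtain ⟨k, hk1, hk2⟩ := Nat.chineseRemainder h3 1 0
  have hc : Commute p x := hcom
  have h4 : (p * x) ^ k = p := by
    rw [hc.mul_pow]
    have e1 : p ^ k = p ^ 1 := pow_eq_pow_iff_modEq.2 hk1
    have e2 : x ^ k = x ^ 0 := pow_eq_pow_iff_modEq.2 hk2
    rw [e1, e2, pow_one, pow_zero, mul_one]
  exact ⟨k, by
    change (p * x) ^ (k : ℤ) = p
    rw [zpow_natCast, h4]⟩

end Grp

section Act

variable {G B C : Type} [Group G] [Group B] [Group C] {ι : G →* B} {κ : B →* MulAut G}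
  {ρ : B →* C}

theorem map_conj (h : ClG ι κ ρ) (P₁ : Subgroup G) (b : B) :
    (P₁.map ι).map (MulAut.conj b).toMonoidHom = (P₁.map (κ b).toMonoidHom).map ι := by
  rw [Subgroup.map_map, Subgroup.map_map]
  congr 1
  ext g
  exact (h.act b g).symm

theorem mem_YS1 (h : ClG ι κ ρ) (P₁ : Subgroup G) (b : B) :
    b ∈ YS ι {P₁} ↔ P₁.map (κ b).toMonoidHom = P₁ := by
  rw [show YS ι {P₁} = stb (mapCh ι {P₁}) from rfl, mem_stb]
  constructor
  · intro hb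
    have h1 := hb (P₁.map ι) (mem_mapCh.2 ⟨P₁, Finset.mem_singleton_self _, rfl⟩)
    rw [map_conj h] at h1
    exact Subgroup.map_injective h.inj h1
  · intro hb E hE
    obtain ⟨D, hD, rfl⟩ := mem_mapCh.1 hE
    obtain rfl := Finset.mem_singleton.1 hD
    rw [map_conj h, hb]

theorem kap_conj (h : ClG ι κ ρ) (g y : G) : κ (ι g) y = g * y * g⁻¹ := by
  apply h.inj
  rw [h.act, map_mul, map_mul, map_inv]

/-- functions whose stabilizer maps onto the quotient are invariant -/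
theorem inv_of_map (h : ClG ι κ ρ) (σ : Finset (Subgroup G)) {ψ : G → ℂ}
    (hψ : IrrOn (stb σ) ψ) (hm : (Stx κ σ ψ).map ρ = ⊤) {b : B}
    (hb : ∀ D ∈ σ, D.map (κ b).toMonoidHom = D) {g : G} (hg : g ∈ stb σ) : ψ (κ b g) = ψ g := by
  obtain ⟨b', hb', hρ⟩ : ρ b ∈ (Stx κ σ ψ).map ρ := by
    rw [hm]
    exact Subgroup.mem_top _
  obtain ⟨g₀, hg₀⟩ := (h.ker (b'⁻¹ * b)).1 (by rw [map_mul, map_inv, hρ, inv_mul_cancel])
  have hbb : b = b' * ι g₀ := by rw [hg₀, mul_inv_cancel_left]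
  have hgs : g₀ ∈ stb σ := by
    rw [mem_stb]
    intro D hD
    have h1 := hb D hD
    have h2 : (κ b).toMonoidHom = (κ b').toMonoidHom.comp (MulAut.conj g₀).toMonoidHom := by
      ext y
      change κ b y = κ b' (g₀ * y * g₀⁻¹)
      rw [hbb, map_mul, MulAut.mul_apply, kap_conj h]
    rw [h2, ← Subgroup.map_map] at h1
    have h3 : (D.map (MulAut.conj g₀).toMonoidHom).map (κ b').toMonoidHom =
        D.map (κ b').toMonoidHom := by rw [h1, hb'.1 D hD]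
    exact Subgroup.map_injective (κ b').injective h3
  have e1 : ψ (κ b g) = ψ (g₀ * g * g₀⁻¹) := by
    rw [hbb, map_mul, MulAut.mul_apply, kap_conj h, hb'.2]
  rw [e1]
  exact hψ.1.conj_eq ⟨g₀, hgs⟩ ⟨g, hg⟩

end Act

section Core

variable {A Y P D K : Type} [Group A] [Fintype A] [Group Y] [Fintype Y] [Group P] [Fintype P]
  [Group D] [Fintype D] [Group K]

/-- the action on the linear characters -/
@[reducible] def actL (cD : D →* MulAut P) : MulAction D (P →* ℂˣ) where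
  smul d lam := lam.comp (cD d⁻¹).toMonoidHom
  one_smul lam := by
    ext u
    change ((lam (cD 1⁻¹ u) : ℂˣ) : ℂ) = lam u
    rw [inv_one, map_one, MulAut.one_apply]
  mul_smul d e lam := by
    ext u
    change ((lam (cD (d * e)⁻¹ u) : ℂˣ) : ℂ) = lam (cD e⁻¹ (cD d⁻¹ u))
    rw [mul_inv_rev, map_mul, MulAut.mul_apply]

open Classical in
/-- The classes of the characters with a coefficient which is not zero. -/
theorem core (h5 : Stmt_FLX) (h6 : Stmt_MLX) (h8 : Stmt_FPS) {𝔐 : Ideal (integralClosure ℤ ℂ)}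
    {ℓ : ℕ} [Fact ℓ.Prime] (h𝔐 : 𝔐.IsMaximal) (hℓ : (ℓ : integralClosure ℤ ℂ) ∈ 𝔐)
    {j : A →* Y} {c : Y →* MulAut A} {p : Y →* K} {jD : P →* D} {cD : D →* MulAut P}
    {pD : D →* K} {i : P →* A} {h : D →* Y} (hY : ClG j c p) (hD : ClG jD cD pD)
    (hs : Function.Surjective pD) (hi : ∀ u, h (jD u) = j (i u)) (hp : ∀ d, p (h d) = pD d)
    (hK : ∃ m, Nat.card K = ℓ ^ m) (hP : ∀ u v : P, u * v = v * u) (hDp : IsPGroup ℓ D) {x : A}
    (hx : ∀ d, h d * j x = j x * h d) {θ : A → ℂ} (hθ : IsIrr θ)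
    (hinv : ∀ d u, θ (i (cD d u) * x) = θ (i u * x)) (hxv : red 𝔐 (θ x) ≠ 0)
    {a : K → K → ℂˣ} (ha : FS j p θ a) {Λ₀ : Subgroup (P →* ℂˣ)}
    {cl : Λ₀ →* (K → K → ℂˣ) ⧸ cob K} (hΛ : ∀ lam : P →* ℂˣ, lam ∈ Λ₀ ↔
      ∀ d u, lam (cD d u) = lam u)
    (hcl : ∀ lam : Λ₀, ∃ b, FS jD pD (fun u => (((lam : P →* ℂˣ) u : ℂˣ) : ℂ)) b ∧
        cl lam = QuotientGroup.mk b) :
    (∀ lam : P →* ℂˣ, IsIntegral ℤ (fL i θ x lam)) ∧
    (∃ lam : Λ₀, red 𝔐 (fL i θ x (lam : P →* ℂˣ)) ≠ 0) ∧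
    ∀ lam : Λ₀, red 𝔐 (fL i θ x (lam : P →* ℂˣ)) ≠ 0 → cl lam = QuotientGroup.mk a := by
  have hix : ∀ u, i u * x = x * i u := by
    intro u
    apply hY.inj
    rw [map_mul, map_mul, ← hi]
    exact hx _
  obtain ⟨f1, -, f3, f4⟩ := h5 A P 𝔐 ℓ h𝔐 hℓ hP i x hix θ hθ
  refine ⟨f1, ?_, ?_⟩
  · by_contra hne
    push Not at hne
    have : Fintype (P →* ℂˣ) := Fintype.ofFinite _
    let _ : MulAction D (P →* ℂˣ) := actL cD
    have hR : ((ℓ : ℕ) : (integralClosure ℤ ℂ) ⧸ 𝔐) = 0 := by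
      rw [← map_natCast (Ideal.Quotient.mk 𝔐)]
      exact Ideal.Quotient.eq_zero_iff_mem.mpr hℓ
    have k1 := h8 D (P →* ℂˣ) ((integralClosure ℤ ℂ) ⧸ 𝔐) ℓ hR hDp
      (fun lam => red 𝔐 (fL i θ x lam)) (by
        intro d lam
        change red 𝔐 (fL i θ x (lam.comp (cD d⁻¹).toMonoidHom)) = _
        rw [f4 (cD d⁻¹) (hinv d⁻¹) lam])
    have k2 : ∑ lam : P →* ℂˣ, red 𝔐 (fL i θ x lam) = red 𝔐 (θ x) := by
      rw [← red_sum 𝔐 _ _ (fun lam _ => f1 lam), f3]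
    rw [k2] at k1
    rw [k1] at hxv
    apply hxv
    refine Finset.sum_eq_zero fun lam hlam => ?_
    have h1 := ((@Finset.mem_filter _ _ (fun _ => Classical.propDecidable _) _ _).1 hlam).2
    have h2 : lam ∈ Λ₀ := by
      rw [hΛ]
      intro d u
      have h3 := congrArg (fun f : P →* ℂˣ => f u) (h1 d⁻¹)
      change lam (cD d⁻¹⁻¹ u) = lam u at h3
      rwa [inv_inv] at h3
    exact hne ⟨lam, h2⟩
  · intro lam hlam
    obtain ⟨b, hb, hb'⟩ := hcl lam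
    have h1 := h6 A Y P D K 𝔐 ℓ h𝔐 hℓ j c p jD cD pD i h hY hD hs hi hp hK hP x hx θ hθ
      (lam : P →* ℂˣ) hlam a b ha hb
    rw [hb', QuotientGroup.eq, mul_comm]
    exact h1

end Core

end C4B

open C4B in
/-- RCB_C4B. -/
theorem C4B_thm (h1 : Stmt_DTL) (h2 : Stmt_RLN) (h3 : Stmt_NZX) (h4 : Stmt_VAL) (h5 : Stmt_FLX)
    (h6 : Stmt_MLX) (h7 : Stmt_CLA) (h8 : Stmt_FPS) (h9 : Stmt_SEL) : Stmt_C4B := by
  classical
  intro G B C _ _ _ _ _ 𝔐 ℓ n _ h𝔐 hℓ hℓ2 ι κ ρ hL hC ω P₁ P x₀ hS hE χ hχ ψ hψ hχm hψm hM j hj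
    a a₁ ha ha₁
  obtain ⟨x, D, hx, hxo, -, hDp, hDx, hDP, hDρ⟩ :=
    h1 G B C 𝔐 ℓ n h𝔐 hℓ ι κ ρ hL hC ω P₁ P x₀ hS
  obtain ⟨jD, cD, hjD, hcD, hLD⟩ := h2 G B C ι κ ρ hL D P hDP hDρ
  have hP1 : P₁ ≤ P := hx.cd.le
  have hcyc : IsCyclic P := hx.cd.cyc
  have hcomm : ∀ u v : P, u * v = v * u := fun u v =>
    (IsCyclic.isMulCommutative (α := P)).is_comm.comm u v
  -- `D` normalizes `P₁`
  have hDY : D ≤ YS ι {P₁} := by
    intro d hd
    rw [mem_YS1 hL.cl]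
    apply GCX.uniq' hcyc _ hP1 (Subgroup.card_map_of_injective (κ d).injective)
    rintro _ ⟨u, hu, rfl⟩
    rw [← hDP, Subgroup.mem_comap]
    change ι (κ d u) ∈ D
    rw [hL.cl.act]
    refine D.mul_mem (D.mul_mem hd ?_) (D.inv_mem hd)
    rw [← Subgroup.mem_comap, hDP]
    exact hP1 hu
  have hst : ∀ g : G, g ∈ stb {P₁} ↔ P₁.map (MulAut.conj g).toMonoidHom = P₁ := by
    intro g
    rw [mem_stb]
    simp
  have hcs : ∀ g : G, (∀ u ∈ P₁, u * g = g * u) → g ∈ stb {P₁} := by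
    intro g hg
    rw [hst]
    ext y
    constructor
    · rintro ⟨u, hu, rfl⟩
      change g * u * g⁻¹ ∈ P₁
      rw [← hg u hu, mul_inv_cancel_right]
      exact hu
    · intro hy
      refine ⟨y, hy, ?_⟩
      change g * y * g⁻¹ = y
      rw [← hg y hy, mul_inv_cancel_right]
  have hPs : ∀ u ∈ P, u ∈ stb {P₁} := fun u hu => hcs u fun v hv => by
    have := hcomm ⟨v, hP1 hv⟩ ⟨u, hu⟩
    exact congrArg Subtype.val this
  have hxs : x ∈ stb {P₁} := hcs x fun u hu => hx.cd.cen u (hP1 hu)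
  -- the classes
  obtain ⟨Λ₀, cl, hodd, hΛ, hcl⟩ := h7 P D C ℓ n hℓ2 jD cD (ρ.comp D.subtype) hLD.cl hLD.surj
    hcomm hx.cd.card
  obtain ⟨hNX, hNY⟩ := h3.2 G 𝔐 ℓ n h𝔐 hℓ ω P₁ P x hx hS.ex
  obtain ⟨hχi, hχx⟩ := hNX χ hχ
  have hψx := hNY ψ hψ
  -- `χ`
  obtain ⟨F1, F2, F3⟩ := core h5 h6 h8 h𝔐 hℓ (j := ι) (c := κ) (p := ρ) (jD := jD) (cD := cD)
    (pD := ρ.comp D.subtype) (i := P.subtype) (h := D.subtype) hL.cl hLD.cl hLD.surj hjD
    (fun d => rfl) hC hcomm hDp (x := x) (fun d => hDx d d.2) (θ := χ) hχi (by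
      intro d u
      have e1 : P.subtype (cD d u) * x = κ (d : B) (u * x) := by
        rw [map_mul]
        change (cD d u : G) * x = _
        rw [hcD]
        congr 1
        apply hL.cl.inj
        rw [hL.cl.act, hDx d d.2, mul_inv_cancel_right]
      rw [e1]
      exact inv_of_map hL.cl ∅ hχ.1 hχm (by simp) (by rw [mem_stb]; simp)) hχx ha hΛ hcl
  -- `ψ`
  have hjS : j = jS hL.cl {P₁} := by
    ext g
    rw [hj]
    rfl
  have hclS : ClG j (cS hL.cl {P₁}) (ρ.comp (YS ι {P₁}).subtype) := by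
    rw [hjS]
    exact clG_S hL.cl {P₁}
  let i₁ : P →* ↥(stb {P₁}) := (P.subtype).codRestrict (stb {P₁}) (fun u => hPs u u.2)
  let hh₁ : D →* ↥(YS ι {P₁}) := (D.subtype).codRestrict (YS ι {P₁}) (fun d => hDY d.2)
  obtain ⟨G1, G2, G3⟩ := core h5 h6 h8 h𝔐 hℓ (j := j) (c := cS hL.cl {P₁})
    (p := ρ.comp (YS ι {P₁}).subtype) (jD := jD) (cD := cD)
    (pD := ρ.comp D.subtype) (i := i₁) (h := hh₁) hclS hLD.cl hLD.surj (by
      intro u
      apply Subtype.ext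
      rw [hj]
      exact hjD u)
    (fun d => rfl) hC hcomm hDp (x := ⟨x, hxs⟩) (by
      intro d
      apply Subtype.ext
      change (d : B) * (j ⟨x, hxs⟩ : B) = (j ⟨x, hxs⟩ : B) * d
      rw [hj]
      exact hDx d d.2) (θ := fun g : stb {P₁} => ψ g) hψ.1.1 (by
      intro d u
      have e1 : ((i₁ (cD d u) * ⟨x, hxs⟩ : ↥(stb {P₁})) : G) = κ (d : B) (u * x) := by
        rw [map_mul]
        change (cD d u : G) * x = _
        rw [hcD]
        congr 1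
        apply hL.cl.inj
        rw [hL.cl.act, hDx d d.2, mul_inv_cancel_right]
      change ψ ((i₁ (cD d u) * ⟨x, hxs⟩ : ↥(stb {P₁})) : G) = ψ (u * x)
      rw [e1]
      exact inv_of_map hL.cl {P₁} hψ.1 hψm (by
        intro E hE
        obtain rfl := Finset.mem_singleton.1 hE
        exact (mem_YS1 hL.cl _ _).1 (hDY d.2)) (mul_mem (hPs u u.2) hxs)) hψx ha₁ hΛ hcl
  -- the values
  obtain ⟨m, b, -, hmb⟩ := hM
  have hval : ∀ u ∈ P, u ≠ 1 → χ (u * x) = b * ψ (u * x) := by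
    intro u hu hu1
    apply h4 G 𝔐 ℓ n h𝔐 hℓ ω P₁ P x hx hS.ex hE χ hχ ψ hψ m b hmb
    refine (le_zpowers hP1 hcyc hx.cd.c1 hx.cd.card hu hu1).trans ?_
    rw [Subgroup.zpowers_le]
    exact mem_zpowers_mul hx.cd.card hu hxo (hx.cd.cen u hu)
  set cc : ℂ := (χ x - b * ψ x) / Nat.card P with hcc
  have hFG : ∀ lam : P →* ℂˣ, fL P.subtype χ x lam =
      b * fL i₁ (fun g : stb {P₁} => ψ g) ⟨x, hxs⟩ lam + cc := by
    intro lam
    have e1 : ∑ u : P, (χ (u * x) - b * ψ (u * x)) * (((lam u)⁻¹ : ℂˣ) : ℂ) =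
        χ x - b * ψ x := by
      rw [Finset.sum_eq_single (1 : P)]
      · simp
      · intro u _ hu1
        rw [hval u u.2 (fun h => hu1 (Subtype.ext h)), sub_self, zero_mul]
      · intro h
        exact absurd (Finset.mem_univ _) h
    rw [hcc, ← e1]
    unfold fL
    rw [mul_div_assoc', ← add_div]
    congr 1
    rw [Finset.mul_sum, ← Finset.sum_add_distrib]
    refine Finset.sum_congr rfl fun u _ => ?_
    change χ (u * x) * _ = b * (ψ (u * x) * _) + _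
    ring
  have hbi : IsIntegral ℤ (b : ℂ) := by
    have := isIntegral_algebraMap (R := ℤ) (A := ℂ) (x := b)
    simpa using this
  have hci : IsIntegral ℤ cc := by
    have e1 : cc = fL P.subtype χ x 1 - b * fL i₁ (fun g : stb {P₁} => ψ g) ⟨x, hxs⟩ 1 := by
      rw [hFG 1]
      ring
    rw [e1]
    exact (F1 1).sub (hbi.mul (G1 1))
  let _ : Field ((integralClosure ℤ ℂ) ⧸ 𝔐) := Ideal.Quotient.field 𝔐
  have hfin : Finite Λ₀ := inferInstance
  have key := h9 Λ₀ ((integralClosure ℤ ℂ) ⧸ 𝔐) ((C → C → ℂˣ) ⧸ cob C)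
    (fun lam => red 𝔐 (fL P.subtype χ x (lam : P →* ℂˣ)))
    (fun lam => red 𝔐 (fL i₁ (fun g : stb {P₁} => ψ g) ⟨x, hxs⟩ (lam : P →* ℂˣ)))
    (red 𝔐 cc) (red 𝔐 b) cl (QuotientGroup.mk a) (QuotientGroup.mk a₁) hodd (by
      intro lam
      rw [hFG, red_add 𝔐 (hbi.mul (G1 _)) hci, red_mul 𝔐 hbi (G1 _)]) F2 G2 F3 G3
  rw [QuotientGroup.eq] at key
  have e1 : a * a₁⁻¹ = (a⁻¹ * a₁)⁻¹ := by
    rw [mul_inv_rev, inv_inv, mul_comm]
  rw [e1]
  exact inv_mem key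

end Pool.Agent.RCB
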