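import Pool.Agent.RCB.CLR

/-!
# RCB_CLQ: the scalars on the kernel extend over the `ℓ`-subgroups
-/

namespace Pool.Agent.RCB

open Pool.Agent.DP Pool.Agent.DPV Pool.Agent.DPB Pool.Agent.DPW Pool.Agent.DPX Pool.Agent.DPC
open Pool.Agent.Lib_helper13 Representation

namespace CLQ

/-- Pull back of a factor set. -/
theorem fs_pull {A Y K A' Y' : Type} [Group A] [Group Y] [Group K] [Group A'] [Group Y']
    {j : A →* Y} {p : Y →* K} {θ : A → ℂ} {a : K → K → ℂˣ} (h : FS j p θ a) (j' : A' →* Y')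
    (eA : A' →* A) (eY : Y' →* Y) (hj : ∀ x, eY (j' x) = j (eA x)) {θ' : A' → ℂ}
    (hθ : ∀ x, θ' x = θ (eA x)) : FS j' (p.comp eY) θ' a := by
  obtain ⟨n, R, T, h1, h2, h3, h4, h5⟩ := h
  refine ⟨n, R.comp eA, fun y => T (eY y), ?_, ?_, ?_, ?_, ?_⟩
  · funext x
    rw [hθ x, ← h1]
    rfl
  · intro x
    change T (eY (j' x)) = R (eA x)
    rw [hj, h2]
  · intro x y
    change T (eY (j' x * y)) = R (eA x) * T (eY y)
    rw [map_mul, hj, h3]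
  · intro y y'
    change T (eY y) * T (eY y') = ((a (p (eY y)) (p (eY y')) : ℂˣ) : ℂ) • T (eY (y * y'))
    rw [map_mul, h4]
  · intro y
    exact h5 _

section

variable {G B C : Type} [Group G] [Group B] [Group C] {ι : G →* B} {κ : B →* MulAut G}
  {ρ : B →* C}

/-- The embedding of the inverse image of `S`. -/
def jT (ι : G →* B) (S : Subgroup B) : ↥(S.comap ι) →* S :=
  (ι.comp (S.comap ι).subtype).codRestrict S (fun a => a.2)

theorem mem_T (h : ClG ι κ ρ) (S : Subgroup B) (y : S) (a : ↥(S.comap ι)) :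
    κ (y : B) (a : G) ∈ S.comap ι := by
  rw [Subgroup.mem_comap, h.act]
  exact mul_mem (mul_mem y.2 a.2) (inv_mem y.2)

/-- The action on the inverse image of `S`. -/
def cT (h : ClG ι κ ρ) (S : Subgroup B) : S →* MulAut ↥(S.comap ι) where
  toFun y :=
    { toFun := fun a => ⟨κ (y : B) (a : G), mem_T h S y a⟩
      invFun := fun a => ⟨κ ((y⁻¹ : S) : B) (a : G), mem_T h S y⁻¹ a⟩
      left_inv := by
        intro a
        apply Subtype.ext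
        change κ ((y⁻¹ : S) : B) (κ (y : B) (a : G)) = a
        rw [← MulAut.mul_apply, ← map_mul]
        simp
      right_inv := by
        intro a
        apply Subtype.ext
        change κ (y : B) (κ ((y⁻¹ : S) : B) (a : G)) = a
        rw [← MulAut.mul_apply, ← map_mul]
        simp
      map_mul' := by
        intro a b
        apply Subtype.ext
        change κ (y : B) ((a * b : ↥(S.comap ι)) : G) = κ (y : B) (a : G) * κ (y : B) (b : G)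
        simp }
  map_one' := by
    ext a
    simp
  map_mul' := by
    intro x y
    ext a
    simp

theorem clG_T (h : ClG ι κ ρ) (S : Subgroup B) : ClG (jT ι S) (cT h S) (ρ.comp S.subtype) where
  inj := by
    intro a b hab
    apply Subtype.ext
    apply h.inj
    exact congrArg Subtype.val hab
  act := by
    intro y a
    apply Subtype.ext
    exact h.act (y : B) (a : G)
  ker := by
    intro y
    constructor
    · intro hy
      obtain ⟨a, ha⟩ := (h.ker (y : B)).mp hy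
      refine ⟨⟨a, ?_⟩, ?_⟩
      · rw [Subgroup.mem_comap, ha]
        exact y.2
      · apply Subtype.ext
        exact ha
    · rintro ⟨a, rfl⟩
      exact (h.ker (ι (a : G))).mpr ⟨a, rfl⟩

/-- The stabilizer in `B` of a character which covers `C` is everything. -/
theorem stx_eq [Finite G] (h : LocN ι κ ρ) {σ : Finset (Subgroup G)} {ψ : G → ℂ}
    (hψ : IrrOn (stb σ) ψ) (hst : (Stx κ σ ψ).map ρ = ⊤) : Stx κ σ ψ = YS ι σ := by
  have h0 : Stx κ σ ψ ≤ YS ι σ := by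
    intro b hb
    rw [mem_YS_iff h.cl]
    exact (mem_Stx.1 hb).1
  apply le_antisymm h0
  intro b hb
  have h1 : ρ b ∈ (Stx κ σ ψ).map ρ := by
    rw [hst]
    exact Subgroup.mem_top _
  obtain ⟨s, hs, hs2⟩ := h1
  have h2 : ρ (b * s⁻¹) = 1 := by rw [map_mul, map_inv, hs2, mul_inv_cancel]
  obtain ⟨g, hg⟩ := (h.cl.ker _).1 h2
  have h3 : ι g ∈ YS ι σ := by
    rw [hg]
    exact mul_mem hb (inv_mem (h0 hs))
  have h4 : g ∈ stb σ := (mem_YS h.cl σ).1 h3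
  have h5 : g ∈ (Stx κ σ ψ ⊓ (⊤ : Subgroup C).comap ρ).comap ι := by
    rw [Pool.Agent.DPC.EXTAR.comap_eq h.cl hψ (⊤ : Subgroup C)]
    exact h4
  have h6 : ι g ∈ Stx κ σ ψ := (Subgroup.mem_inf.1 h5).1
  have h7 : b = ι g * s := by rw [hg, inv_mul_cancel_right]
  rw [h7]
  exact mul_mem h6 hs

end

/-- An irreducible character of the stabilizer of the empty chain. -/
theorem irr_empty {G : Type} [Group G] [Finite G] {χ : G → ℂ}
    (h : IrrOn (stb (∅ : Finset (Subgroup G))) χ) : IsIrr χ := by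
  have h0 : ∀ g : G, g ∈ stb (∅ : Finset (Subgroup G)) := by
    intro g
    rw [stb_empty]
    exact Subgroup.mem_top g
  let φ : G →* ↥(stb (∅ : Finset (Subgroup G))) := (MonoidHom.id G).codRestrict _ h0
  exact CLR.irr_pull φ (Subgroup.subtype _)
    (F := fun s : ↥(stb (∅ : Finset (Subgroup G))) => χ s) h.1 h.1

end CLQ

/-- CLQ. -/
theorem CLQ_thm (h0 : Stmt_FSE) (h1 : Stmt_FSC) (h2 : Stmt_C4F) : Stmt_CLQ := by
  classical
  intro G B C B' C' _ _ _ _ _ _ _ _ _ 𝔐 ℓ n _ hM hl hl2 ι κ ρ ι' κ' ρ' π h ω P₁ P x₀ hSt χ hχ ψ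
    hψ hχst hψst hor f f₁ hf hf₁ Q hQ
  haveI : Finite C := Finite.of_surjective ρ h.lo.surj
  -- the `ℓ`-group
  obtain ⟨R, hRdef⟩ : ∃ R : Subgroup C, R = (Q.comap ρ').map (ρ.comp π) := ⟨_, rfl⟩
  have hRC : RC ρ ρ' π R = π.ker.map ρ' ⊔ Q := by
    rw [hRdef]
    exact RC_map h Q
  have hRp : IsPGroup ℓ R := by
    rintro ⟨c, hc⟩
    rw [hRdef] at hc
    obtain ⟨y, hy, rfl⟩ := hc
    obtain ⟨k, hk⟩ := hQ ⟨ρ' y, hy⟩
    refine ⟨k, Subtype.ext ?_⟩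
    have h3 : ρ' (y ^ ℓ ^ k) = ρ' 1 := by
      rw [map_pow, map_one]
      exact congrArg Subtype.val hk
    have h4 := rho_pi h h3
    rw [map_pow, map_pow, map_one, map_one] at h4
    exact h4
  have hRcard : ∃ m, Nat.card R = ℓ ^ m := IsPGroup.iff_card.1 hRp
  haveI : Fintype ↥(R.comap ρ) := Fintype.ofFinite _
  haveI : Fintype ↥((RC ρ ρ' π R).comap ρ') := Fintype.ofFinite _
  have hc := cov_R h R
  have hlo := locN_R h.lo R
  have hStR : StX 𝔐 ℓ n (kR κ ρ R) ω P₁ P x₀ := ⟨hSt.at', fun b g => hSt.inv b g, hSt.ex⟩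
  have hχR : Stx (kR κ ρ R) ∅ χ = ⊤ := by
    rw [Stx_R, hχst]
    rfl
  have hχm : (Stx (kR κ ρ R) ∅ χ).map (pR ρ R) = ⊤ := by
    rw [hχR, ← MonoidHom.range_eq_map, MonoidHom.range_eq_top.2 hlo.surj]
  have hψm : (Stx (kR κ ρ R) {P₁} ψ).map (pR ρ R) = ⊤ := by
    rw [eq_top_iff]
    intro c _
    have h3 : (c : C) ∈ (Stx κ {P₁} ψ).map ρ := by
      rw [hψst]
      exact Subgroup.mem_top _
    obtain ⟨b, hb, hbc⟩ := h3
    refine ⟨⟨b, ?_⟩, hb, Subtype.ext hbc⟩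
    rw [Subgroup.mem_comap, hbc]
    exact c.2
  have hψY : Stx (kR κ ρ R) {P₁} ψ = YS (iR h.lo R) {P₁} := CLQ.stx_eq hlo hψ.1 hψm
  have hYm : (YS (iR h.lo R) {P₁}).map (pR ρ R) = ⊤ := by
    rw [← hψY]
    exact hψm
  have hχirr : IsIrr χ := CLQ.irr_empty hχ.1
  -- factor sets
  obtain ⟨a, ha⟩ := h0 G ↥(R.comap ρ) R (iR h.lo R) (kR κ ρ R) (pR ρ R) hlo.cl hlo.surj χ hχirr (by
    intro y x
    have h3 : y ∈ Stx (kR κ ρ R) ∅ χ := by
      rw [hχR]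
      exact Subgroup.mem_top _
    exact (mem_Stx.1 h3).2 x)
  obtain ⟨a₁, ha₁⟩ := h0 ↥(stb {P₁}) ↥(YS (iR h.lo R) {P₁}) R (jS hlo.cl {P₁}) (cS hlo.cl {P₁})
    (pS (pR ρ R) (iR h.lo R) {P₁}) (clG_S hlo.cl {P₁}) (by
      intro c
      have h3 : c ∈ (YS (iR h.lo R) {P₁}).map (pR ρ R) := by
        rw [hYm]
        exact Subgroup.mem_top _
      obtain ⟨b, hb, hbc⟩ := h3
      exact ⟨⟨b, hb⟩, hbc⟩) (fun g : stb {P₁} => ψ g) hψ.1.1 (by
      intro y x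
      have h3 : (y : ↥(R.comap ρ)) ∈ Stx (kR κ ρ R) {P₁} ψ := by
        rw [hψY]
        exact y.2
      exact (mem_Stx.1 h3).2 x)
  have hcob := h2 G ↥(R.comap ρ) R 𝔐 ℓ n hM hl hl2 (iR h.lo R) (kR κ ρ R) (pR ρ R) hlo hRcard
    ω P₁ P x₀ hStR χ hχ ψ hψ hχm hψm hor (jS hlo.cl {P₁}) (fun _ => rfl) a a₁ ha ha₁
  -- the restrictions of the extensions
  have hfR := CLR.extL_R h.up (RC ρ ρ' π R) hχ.1 hf
  have hf₁R := CLR.extL_R h.up (RC ρ ρ' π R) hψ.1 hf₁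
  have e1 : Stx (kR κ' ρ' (RC ρ ρ' π R)) ∅ χ ⊓
      (⊤ : Subgroup ↥(RC ρ ρ' π R)).comap (pR ρ' (RC ρ ρ' π R)) =
      (⊤ : Subgroup ↥(R.comap ρ)).comap (piR h R) := by
    rw [Stx_pi hc, hχR, Subgroup.comap_top, Subgroup.comap_top, inf_top_eq]
  have e2 : Stx (kR κ' ρ' (RC ρ ρ' π R)) {P₁} ψ ⊓
      (⊤ : Subgroup ↥(RC ρ ρ' π R)).comap (pR ρ' (RC ρ ρ' π R)) =
      (YS (iR h.lo R) {P₁}).comap (piR h R) := by
    rw [Stx_pi hc, hψY, Subgroup.comap_top, inf_top_eq]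
  have i1 := hfR.1
  rw [e1] at i1
  have i2 := hf₁R.1
  rw [e2] at i2
  have v1 : ∀ g : G, f (((iR h.up (RC ρ ρ' π R)) g : ↥((RC ρ ρ' π R).comap ρ')) : B') = χ g :=
    fun g => hf.2 g
  have v2 : ∀ g : G, f₁ (((iR h.up (RC ρ ρ' π R)) g : ↥((RC ρ ρ' π R).comap ρ')) : B') = ψ g :=
    fun g => hf₁.2 g
  -- irreducibility on the subgroups
  have r1 : IsIrr (fun g : ↥((⊤ : Subgroup ↥(R.comap ρ)).comap (iR h.lo R)) =>
      f (((iR h.up (RC ρ ρ' π R)) g : ↥((RC ρ ρ' π R).comap ρ')) : B')) := by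
    have h3 : (fun g : ↥((⊤ : Subgroup ↥(R.comap ρ)).comap (iR h.lo R)) =>
        f (((iR h.up (RC ρ ρ' π R)) g : ↥((RC ρ ρ' π R).comap ρ')) : B')) =
        fun g : ↥((⊤ : Subgroup ↥(R.comap ρ)).comap (iR h.lo R)) =>
          χ ((Subgroup.subtype ((⊤ : Subgroup ↥(R.comap ρ)).comap (iR h.lo R))) g) := by
      funext g
      exact v1 g
    rw [h3]
    let j0 : G →* ↥((⊤ : Subgroup ↥(R.comap ρ)).comap (iR h.lo R)) :=
      (MonoidHom.id G).codRestrict _ (fun g => Subgroup.mem_top _)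
    exact CLR.irr_pull (Subgroup.subtype _) j0 (F := χ) hχirr hχirr
  have hcm : ∀ g : G, g ∈ (YS (iR h.lo R) {P₁}).comap (iR h.lo R) ↔ g ∈ stb {P₁} :=
    fun g => mem_YS hlo.cl {P₁}
  let e3 : ↥((YS (iR h.lo R) {P₁}).comap (iR h.lo R)) →* ↥(stb {P₁}) :=
    (Subgroup.subtype _).codRestrict _ (fun g => (hcm g).1 g.2)
  let e4 : ↥(stb {P₁}) →* ↥((YS (iR h.lo R) {P₁}).comap (iR h.lo R)) :=
    (Subgroup.subtype _).codRestrict _ (fun g => (hcm g).2 g.2)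
  have r2 : IsIrr (fun g : ↥((YS (iR h.lo R) {P₁}).comap (iR h.lo R)) =>
      f₁ (((iR h.up (RC ρ ρ' π R)) g : ↥((RC ρ ρ' π R).comap ρ')) : B')) := by
    have h3 : (fun g : ↥((YS (iR h.lo R) {P₁}).comap (iR h.lo R)) =>
        f₁ (((iR h.up (RC ρ ρ' π R)) g : ↥((RC ρ ρ' π R).comap ρ')) : B')) =
        fun g : ↥((YS (iR h.lo R) {P₁}).comap (iR h.lo R)) =>
          (fun s : ↥(stb {P₁}) => ψ s) (e3 g) := by
      funext g
      exact v2 g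
    rw [h3]
    exact CLR.irr_pull e3 e4 (F := fun s : ↥(stb {P₁}) => ψ s) hψ.1.1 hψ.1.1
  -- factor sets on the subgroups
  have s1 : FS (CLQ.jT (iR h.lo R) (⊤ : Subgroup ↥(R.comap ρ)))
      ((pR ρ R).comp (⊤ : Subgroup ↥(R.comap ρ)).subtype)
      (fun g : ↥((⊤ : Subgroup ↥(R.comap ρ)).comap (iR h.lo R)) =>
        f (((iR h.up (RC ρ ρ' π R)) g : ↥((RC ρ ρ' π R).comap ρ')) : B')) a :=
    CLQ.fs_pull ha _ (Subgroup.subtype _) (Subgroup.subtype _) (fun _ => rfl)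
      (fun g => v1 g)
  have s2 : FS (CLQ.jT (iR h.lo R) (YS (iR h.lo R) {P₁}))
      ((pR ρ R).comp (YS (iR h.lo R) {P₁}).subtype)
      (fun g : ↥((YS (iR h.lo R) {P₁}).comap (iR h.lo R)) =>
        f₁ (((iR h.up (RC ρ ρ' π R)) g : ↥((RC ρ ρ' π R).comap ρ')) : B')) a₁ :=
    CLQ.fs_pull (p := (pR ρ R).comp (YS (iR h.lo R) {P₁}).subtype) ha₁ _ e3 (MonoidHom.id _)
      (fun _ => rfl) (fun g => v2 g)
  obtain ⟨μ₁, hμ1, hμ2⟩ := h1 G ↥(R.comap ρ) R ↥((RC ρ ρ' π R).comap ρ') ↥(RC ρ ρ' π R)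
    (iR h.lo R) (kR κ ρ R) (pR ρ R) (iR h.up (RC ρ ρ' π R)) (kR κ' ρ' (RC ρ ρ' π R))
    (pR ρ' (RC ρ ρ' π R)) (piR h R) hc (⊤ : Subgroup ↥(R.comap ρ)) (YS (iR h.lo R) {P₁})
    (CLQ.jT _ _) (CLQ.cT hlo.cl _) (CLQ.jT _ _) (CLQ.cT hlo.cl _) (CLQ.clG_T hlo.cl _)
    (CLQ.clG_T hlo.cl _)
    (by rw [← MonoidHom.range_eq_map, MonoidHom.range_eq_top.2 hlo.surj]) hYm (fun _ => rfl)
    (fun _ => rfl) (fun x => f (x : B')) (fun x => f₁ (x : B')) i1 i2 r1 r2 a a₁ s1 s2 hcob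
  -- the linear character
  have hne : ∀ c, μ₁ c ≠ 0 := by
    intro c h3
    have h4 := hμ1.2 c (Subgroup.mem_top _) c⁻¹ (Subgroup.mem_top _)
    rw [mul_inv_cancel, hμ1.1, h3, zero_mul] at h4
    exact one_ne_zero h4
  let μ : C' → ℂ := fun c => if hc : c ∈ RC ρ ρ' π R then (μ₁ ⟨c, hc⟩)⁻¹ else 1
  have hμ : ∀ (c : C') (hc : c ∈ RC ρ ρ' π R), μ c = (μ₁ ⟨c, hc⟩)⁻¹ := fun c hc => dif_pos hc
  refine ⟨μ, ⟨?_, ?_⟩, ?_⟩
  · rw [hμ 1 (one_mem _)]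
    change (μ₁ 1)⁻¹ = 1
    rw [hμ1.1, inv_one]
  · intro x hx y hy
    rw [← hRC] at hx hy
    rw [hμ _ (mul_mem hx hy), hμ x hx, hμ y hy]
    change (μ₁ (⟨x, hx⟩ * ⟨y, hy⟩))⁻¹ = _
    rw [hμ1.2 _ (Subgroup.mem_top _) _ (Subgroup.mem_top _), mul_inv]
  · intro w hw
    have h3 : ρ' w ∈ RC ρ ρ' π R := ker_le_RC R ⟨w, hw, rfl⟩
    have h4 := hμ2 ⟨w, h3⟩ (Subtype.ext hw)
    have h5 : f w * f₁ 1 = μ₁ ⟨ρ' w, h3⟩ * (f₁ w * f 1) := h4
    rw [hμ _ h3, h5, inv_mul_cancel_left₀ (hne _)]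

end Pool.Agent.RCB
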