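import Mathlib
import Pool.Agent.DPX.FinalX
import Pool.Agent.DPC.StmtsC

/-!
# Theorem P1: the final statement and the reduction to the inner sums

`S_P1` is the statement to be handed in. `S_INNER` is what has to be proved about the chains
(`innerS`, `OutC`, `Ch`, `WW` and `cen` are those of the earlier projects).
-/

namespace Pool.Agent.RCB

open Pool.Agent.DP Pool.Agent.DPC Pool.Agent.DPW Pool.Agent.DPX Pool.Agent.Lib_helper13
  Representation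
open Pool.Agent.Lib_helper13.Dade (pCore DadeHolds dadeSum IsIrrChar)

/-- Theorem P1: `K` is a normal subgroup of the finite group `X` with `O_ℓ(K) = 1`, the irreducible
character `ξ` of `K` belongs to an `ℓ`-block with nontrivial cyclic defect groups (it has positive
defect, and its central character does not vanish modulo `𝔐` at the class of some `x` for which
all `ℓ`-subgroups of `C_K(x)` are cyclic), `χ` is an irreducible character of `X` over `ξ`. Then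
all alternating sums of Dade's conjecture for `X` and the block of `χ` are `0`. -/
def S_P1 (ℓ : ℕ) : Prop :=
  ∀ (X : Type) [Group X] [Finite X] (K : Subgroup X), K.Normal → pCore ℓ K = ⊥ →
    ∀ 𝔐 : Ideal (integralClosure ℤ ℂ), 𝔐.IsMaximal → (ℓ : integralClosure ℤ ℂ) ∈ 𝔐 →
    ∀ ξ : K → ℂ, IsIrrChar ξ → ¬ Dade.HasDefect ℓ ξ 0 →
    ∀ x : K, ¬ Dade.CongrMod 𝔐 (Dade.central ξ x) 0 →
      (∀ Q : Subgroup K, IsPGroup ℓ Q → (∀ u ∈ Q, u * x = x * u) → IsCyclic Q) →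
    ∀ χ : X → ℂ, IsIrrChar χ → ∑ᶠ k : K, χ k * ξ k⁻¹ ≠ 0 → ∀ d : ℕ, dadeSum 𝔐 ℓ χ d = 0

/-- The inner sums of the outer chains vanish (`Z` is `O_ℓ(X)` in the application). -/
def S_INNER (ℓ : ℕ) : Prop :=
  ∀ (X : Type) [Group X] [Fintype X] (K : Subgroup X) [K.Normal] (Z : Subgroup X) [Z.Normal]
    (𝔐 : Ideal (integralClosure ℤ ℂ)), 𝔐.IsMaximal → (ℓ : integralClosure ℤ ℂ) ∈ 𝔐 →
    pCore ℓ K = ⊥ → IsPGroup ℓ Z → Z ⊓ K = ⊥ →
    ∀ (ξ : K → ℂ) (χ : X → ℂ), IsIrr ξ → IsIrr χ → DX ℓ (cen 𝔐 (MonoidHom.id K) ξ) →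
      ip (resj K.subtype χ) ξ ≠ 0 → ∀ (d : ℕ) (c : Finset (Subgroup X)), IsCh ℓ Z c →
      (∀ D ∈ c, D ⊓ K = ⊥) →
      innerS ℓ Z K (WW 𝔐 ℓ d (cen 𝔐 (MonoidHom.id X) χ)) c = 0

/-- `O_ℓ(X) ∩ K ≤ O_ℓ(K)`. -/
theorem pCore_inf {ℓ : ℕ} [Fact ℓ.Prime] {X : Type} [Group X] [Finite X] (K : Subgroup X)
    (hK : pCore ℓ K = ⊥) : pCore ℓ X ⊓ K = ⊥ := by
  have hZ := isPGroup_pCore (G := X) ℓ
  have hn := pCore_normal (G := X) ℓ
  have h1 : (pCore ℓ X).subgroupOf K ≤ pCore ℓ K := by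
    apply le_sSup
    refine ⟨inferInstance, ?_⟩
    exact hZ.comap_of_injective K.subtype (Subgroup.subtype_injective K)
  rw [hK, le_bot_iff, Subgroup.subgroupOf_eq_bot] at h1
  exact disjoint_iff.mp h1

/-- The vanishing of Dade's sums, from the inner sums. -/
theorem dadeSum_zero (hSPLIT : Pool.Agent.DP.Stmt_SPLIT) {ℓ : ℕ} [Fact ℓ.Prime]
    (h : S_INNER ℓ) (X : Type) [Group X] [Fintype X] (K : Subgroup X) (hKn : K.Normal)
    (hcore : pCore ℓ K = ⊥) (𝔐 : Ideal (integralClosure ℤ ℂ)) (h𝔐 : 𝔐.IsMaximal)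
    (hℓ : (ℓ : integralClosure ℤ ℂ) ∈ 𝔐) (ξ : K → ℂ) (χ : X → ℂ) (hξ : IsIrr ξ) (hχ : IsIrr χ)
    (hD : DX ℓ (cen 𝔐 (MonoidHom.id K) ξ)) (hover : ip (resj K.subtype χ) ξ ≠ 0) (d : ℕ) :
    dadeSum 𝔐 ℓ χ d = 0 := by
  classical
  have hZ : IsPGroup ℓ (pCore ℓ X) := isPGroup_pCore ℓ
  have hZn : (pCore ℓ X).Normal := pCore_normal ℓ
  have hZK := pCore_inf (ℓ := ℓ) K hcore
  have h1 := dadeSum_eq 𝔐 ℓ d hχ
  have h2 : KK 𝔐 ℓ d (pCore ℓ X) (cen 𝔐 (MonoidHom.id X) χ) = 0 := by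
    rw [KK]
    refine Eq.trans (hSPLIT X ℓ (pCore ℓ X) K hZ hZK
      (WW 𝔐 ℓ d (cen 𝔐 (MonoidHom.id X) χ))) ?_
    refine Finset.sum_eq_zero fun c hc => ?_
    have hc' : IsCh ℓ (pCore ℓ X) c ∧ ∀ D ∈ c, D ⊓ K = ⊥ := by
      rw [OutC, Finset.mem_filter, mem_Ch] at hc
      exact hc
    rw [h X K (pCore ℓ X) 𝔐 h𝔐 hℓ hcore hZ hZK ξ χ hξ hχ hD hover d c hc'.1 hc'.2, mul_zero]
  rw [h2] at h1
  have h3 : (Nat.card X : ℚ) ≠ 0 := by exact_mod_cast Nat.card_pos.ne'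
  have h4 := (mul_eq_zero.mp h1).resolve_left h3
  exact_mod_cast h4

/-- P1 from the vanishing of the inner sums. -/
theorem P1_of_inner (hSPLIT : Pool.Agent.DP.Stmt_SPLIT) (ℓ : ℕ) (hℓp : ℓ.Prime)
    (h : S_INNER ℓ) : S_P1 ℓ := by
  classical
  intro X _ _ K hKn hcore 𝔐 h𝔐 hℓ𝔐 ξ hξ hd x hx hx2 χ hχ hover d
  have hf : Fact ℓ.Prime := ⟨hℓp⟩
  have hX' : Fintype X := Fintype.ofFinite X
  have hcen : cen 𝔐 (MonoidHom.id K) ξ x ≠ 0 := by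
    intro h0
    apply hx
    rw [central_eq]
    have h1 : red 𝔐 (wt ξ (fun y => conjInd (MonoidHom.id K y) x)) = red 𝔐 0 := by
      rw [red_zero]
      exact h0
    exact (red_eq_iff 𝔐 (isIntegral_wt_conj _ hξ x) isIntegral_zero).mp h1
  have hDX := dx_of 𝔐 ℓ h𝔐 hℓ𝔐 hξ x hcen hx2 hd
  refine dadeSum_zero hSPLIT h X K hKn hcore 𝔐 h𝔐 hℓ𝔐 ξ χ hξ hχ hDX ?_ d
  rw [finsum_eq_sum_of_fintype] at hover
  rw [ip]
  refine div_ne_zero ?_ natCard_ne_zero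
  exact hover

end Pool.Agent.RCB
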