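import Mathlib
import Pool.Agent.RCB.StI

/-!
# Theorem P1: restriction of the extensions to inverse images of subgroups
-/

namespace Pool.Agent.RCB

open Pool.Agent.DP Pool.Agent.DPV Pool.Agent.DPB Pool.Agent.DPW Pool.Agent.DPX
open Pool.Agent.Lib_helper13 Representation

section Restr

variable {G B C B' C' : Type} [Group G] [Group B] [Group C] [Group B'] [Group C']
  {ι : G →* B} {κ : B →* MulAut G} {ρ : B →* C} {ι' : G →* B'} {κ' : B' →* MulAut G}
  {ρ' : B' →* C'} {π : B' →* B}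

theorem rho_iota (h : LocN ι κ ρ) (g : G) : ρ (ι g) = 1 := (h.cl.ker _).2 ⟨g, rfl⟩

/-- The embedding of `G` in the inverse image of `R`. -/
def iR (h : LocN ι κ ρ) (R : Subgroup C) : G →* ↥(R.comap ρ) :=
  ι.codRestrict (R.comap ρ) (fun g => by
    rw [Subgroup.mem_comap, rho_iota h]
    exact R.one_mem)

/-- The action of the inverse image of `R`. -/
def kR (κ : B →* MulAut G) (ρ : B →* C) (R : Subgroup C) : ↥(R.comap ρ) →* MulAut G :=
  κ.comp (R.comap ρ).subtype

/-- The projection of the inverse image of `R`. -/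
def pR (ρ : B →* C) (R : Subgroup C) : ↥(R.comap ρ) →* R :=
  (ρ.comp (R.comap ρ).subtype).codRestrict R (fun x => x.2)

theorem iR_coe (h : LocN ι κ ρ) (R : Subgroup C) (g : G) : (iR h R g : B) = ι g := rfl

theorem kR_apply (κ : B →* MulAut G) (ρ : B →* C) (R : Subgroup C) (x : ↥(R.comap ρ)) (g : G) :
    kR κ ρ R x g = κ x g := rfl

theorem pR_coe (ρ : B →* C) (R : Subgroup C) (x : ↥(R.comap ρ)) : (pR ρ R x : C) = ρ x := rfl

theorem locN_R (h : LocN ι κ ρ) (R : Subgroup C) : LocN (iR h R) (kR κ ρ R) (pR ρ R) where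
  cl :=
    { inj := by
        intro a b hab
        apply h.cl.inj
        exact congrArg Subtype.val hab
      act := by
        intro y a
        apply Subtype.ext
        exact h.cl.act (y : B) a
      ker := by
        intro y
        constructor
        · intro hy
          obtain ⟨a, ha⟩ := (h.cl.ker (y : B)).mp (congrArg Subtype.val hy)
          exact ⟨a, Subtype.ext ha⟩
        · rintro ⟨a, rfl⟩
          exact Subtype.ext (rho_iota h a) }
  surj := by
    rintro ⟨c, hc⟩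
    obtain ⟨b, rfl⟩ := h.surj c
    exact ⟨⟨b, hc⟩, rfl⟩

theorem mem_YS_iff (h : ClG ι κ ρ) (σ : Finset (Subgroup G)) {b : B} :
    b ∈ YS ι σ ↔ ∀ D ∈ σ, D.map (κ b).toMonoidHom = D := by
  have key : ∀ D : Subgroup G, ((D.map ι).map (MulAut.conj b).toMonoidHom = D.map ι ↔
      D.map (κ b).toMonoidHom = D) := by
    intro D
    have h6 : ((MulAut.conj b).toMonoidHom).comp ι = ι.comp (κ b).toMonoidHom := by
      ext a
      change b * ι a * b⁻¹ = ι (κ b a)
      rw [h.act]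
    rw [Subgroup.map_map, h6, ← Subgroup.map_map]
    constructor
    · intro h1
      exact Subgroup.map_injective h.inj h1
    · intro h1
      rw [h1]
  rw [mem_stb]
  constructor
  · intro hb D hD
    exact (key D).1 (hb _ (mem_mapCh.mpr ⟨D, hD, rfl⟩))
  · intro hb D' hD'
    obtain ⟨D, hD, rfl⟩ := mem_mapCh.mp hD'
    exact (key D).2 (hb D hD)

theorem mem_Stx {κ : B →* MulAut G} {σ : Finset (Subgroup G)} {ψ : G → ℂ} {b : B} :
    b ∈ Stx κ σ ψ ↔ (∀ D ∈ σ, D.map (κ b).toMonoidHom = D) ∧ ∀ g, ψ (κ b g) = ψ g := Iff.rfl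

theorem Stx_R (κ : B →* MulAut G) (ρ : B →* C) (R : Subgroup C) (σ : Finset (Subgroup G))
    (ψ : G → ℂ) : Stx (kR κ ρ R) σ ψ = (Stx κ σ ψ).comap (R.comap ρ).subtype := rfl

theorem YS_R (h : LocN ι κ ρ) (R : Subgroup C) (σ : Finset (Subgroup G)) :
    YS (iR h R) σ = (YS ι σ).comap (R.comap ρ).subtype := by
  ext y
  rw [Subgroup.mem_comap, mem_YS_iff (locN_R h R).cl, mem_YS_iff h.cl]
  rfl

theorem YS_pi (h : Cov ι κ ρ ι' κ' ρ' π) (σ : Finset (Subgroup G)) :
    YS ι' σ = (YS ι σ).comap π := by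
  ext y
  rw [Subgroup.mem_comap, mem_YS_iff h.up.cl, mem_YS_iff h.lo.cl, h.act]
  rfl

theorem Stx_pi (h : Cov ι κ ρ ι' κ' ρ' π) (σ : Finset (Subgroup G)) (ψ : G → ℂ) :
    Stx κ' σ ψ = (Stx κ σ ψ).comap π := by
  ext y
  rw [Subgroup.mem_comap, mem_Stx, mem_Stx, h.act]
  rfl

/-- The inverse image in `C'` of the subgroup `R` of `C`. -/
def RC (ρ : B →* C) (ρ' : B' →* C') (π : B' →* B) (R : Subgroup C) : Subgroup C' :=
  (R.comap (ρ.comp π)).map ρ'

theorem rho_pi (h : Cov ι κ ρ ι' κ' ρ' π) {x y : B'} (hxy : ρ' x = ρ' y) :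
    ρ (π x) = ρ (π y) := by
  have h1 : ρ' (x * y⁻¹) = 1 := by rw [map_mul, map_inv, hxy, mul_inv_cancel]
  obtain ⟨g, hg⟩ := (h.up.cl.ker _).1 h1
  have h2 : ρ (π (x * y⁻¹)) = 1 := by rw [← hg, h.emb, rho_iota h.lo]
  rw [map_mul, map_mul, map_inv, map_inv] at h2
  exact mul_inv_eq_one.1 h2

theorem comap_RC (h : Cov ι κ ρ ι' κ' ρ' π) (R : Subgroup C) :
    (RC ρ ρ' π R).comap ρ' = R.comap (ρ.comp π) := by
  ext x
  constructor
  · rintro ⟨y, hy, hxy⟩
    change ρ (π x) ∈ R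
    rw [← rho_pi h hxy]
    exact hy
  · intro hx
    exact ⟨x, hx, rfl⟩

/-- The restriction of the covering. -/
def piR (h : Cov ι κ ρ ι' κ' ρ' π) (R : Subgroup C) :
    ↥((RC ρ ρ' π R).comap ρ') →* ↥(R.comap ρ) :=
  (π.comp ((RC ρ ρ' π R).comap ρ').subtype).codRestrict (R.comap ρ)
    (fun x => (comap_RC h R).le x.2)

theorem piR_coe (h : Cov ι κ ρ ι' κ' ρ' π) (R : Subgroup C) (x : ↥((RC ρ ρ' π R).comap ρ')) :
    (piR h R x : B) = π x := rfl

theorem cov_R (h : Cov ι κ ρ ι' κ' ρ' π) (R : Subgroup C) :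
    Cov (iR h.lo R) (kR κ ρ R) (pR ρ R) (iR h.up (RC ρ ρ' π R)) (kR κ' ρ' (RC ρ ρ' π R))
      (pR ρ' (RC ρ ρ' π R)) (piR h R) where
  lo := locN_R h.lo R
  up := locN_R h.up _
  surj := by
    rintro ⟨b, hb⟩
    obtain ⟨x, rfl⟩ := h.surj b
    refine ⟨⟨x, ?_⟩, rfl⟩
    rw [comap_RC h]
    exact hb
  emb := by
    intro g
    apply Subtype.ext
    exact h.emb g
  act := by
    apply MonoidHom.ext
    intro x
    apply MulEquiv.ext
    intro g
    change κ' x g = κ (π x) g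
    rw [h.act]
    rfl

/-- The kernel of the covering, in `C'`, is contained in all inverse images. -/
theorem ker_le_RC (R : Subgroup C) : π.ker.map ρ' ≤ RC ρ ρ' π R := by
  rintro _ ⟨w, hw, rfl⟩
  refine ⟨w, ?_, rfl⟩
  change ρ (π w) ∈ R
  rw [show π w = 1 from hw, map_one]
  exact R.one_mem

/-- The kernel of the covering is embedded in `C'`. -/
theorem ker_inj (h : Cov ι κ ρ ι' κ' ρ' π) {w : B'} (hw : π w = 1) (hw' : ρ' w = 1) : w = 1 := by
  obtain ⟨g, rfl⟩ := (h.up.cl.ker _).1 hw'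
  rw [h.emb] at hw
  have h1 : g = 1 := h.lo.cl.inj (by rw [hw, map_one])
  rw [h1, map_one]

/-- The inverse image of the image of a subgroup of `C'` is generated by it and the kernel. -/
theorem RC_map (h : Cov ι κ ρ ι' κ' ρ' π) (Q : Subgroup C') :
    RC ρ ρ' π ((Q.comap ρ').map (ρ.comp π)) = π.ker.map ρ' ⊔ Q := by
  apply le_antisymm
  · rintro _ ⟨x, ⟨y, hy, hxy⟩, rfl⟩
    have h0 : ρ (π (x * y⁻¹)) = 1 := by
      have h1 : ρ (π y) = ρ (π x) := hxy
      rw [map_mul, map_mul, map_inv, map_inv, h1, mul_inv_cancel]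
    obtain ⟨g, hg⟩ := (h.lo.cl.ker _).1 h0
    have h2 : π (x * y⁻¹ * (ι' g)⁻¹) = 1 := by rw [map_mul, map_inv, h.emb, hg, mul_inv_cancel]
    have h3 : ρ' x = ρ' (x * y⁻¹ * (ι' g)⁻¹) * ρ' y := by
      simp only [map_mul, map_inv, rho_iota h.up]
      simp
    rw [h3]
    exact mul_mem (Subgroup.mem_sup_left ⟨_, h2, rfl⟩) (Subgroup.mem_sup_right hy)
  · apply sup_le (ker_le_RC _)
    intro c hc
    obtain ⟨y, rfl⟩ := h.up.surj c
    exact ⟨y, ⟨y, hc, rfl⟩, rfl⟩

end Restr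

/-! ### Stabilizers of central functions, numbers of characters -/

section Cnt

variable {G B : Type} [Group G] [Group B]

/-- The stabilizer in `B` of the chain `σ` and the function `ω`. -/
def Sw {A : Type} (κ : B →* MulAut G) (σ : Finset (Subgroup G)) (ω : G → A) : Subgroup B where
  carrier := {b | (∀ D ∈ σ, D.map (κ b).toMonoidHom = D) ∧ ∀ g, ω (κ b g) = ω g}
  one_mem' := by
    constructor
    · intro D _
      rw [map_one]
      exact Subgroup.map_id D
    · intro g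
      rw [map_one, MulAut.one_apply]
  mul_mem' := by
    rintro x y ⟨hx1, hx2⟩ ⟨hy1, hy2⟩
    constructor
    · intro D hD
      have h1 : (κ (x * y)).toMonoidHom = (κ x).toMonoidHom.comp (κ y).toMonoidHom := by
        ext g
        simp
      rw [h1, ← Subgroup.map_map, hy1 D hD, hx1 D hD]
    · intro g
      rw [map_mul, MulAut.mul_apply, hx2, hy2]
  inv_mem' := by
    rintro x ⟨hx1, hx2⟩
    constructor
    · intro D hD
      have h1 : ((κ x⁻¹).toMonoidHom).comp (κ x).toMonoidHom = MonoidHom.id G := by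
        ext g
        simp
      calc D.map (κ x⁻¹).toMonoidHom
          = (D.map (κ x).toMonoidHom).map (κ x⁻¹).toMonoidHom := by rw [hx1 D hD]
        _ = D := by rw [Subgroup.map_map, h1, Subgroup.map_id]
    · intro g
      have h := hx2 (κ x⁻¹ g)
      rw [← h, ← MulAut.mul_apply, ← map_mul, mul_inv_cancel, map_one, MulAut.one_apply]

theorem mem_Sw {A : Type} {κ : B →* MulAut G} {σ : Finset (Subgroup G)} {ω : G → A} {b : B} :
    b ∈ Sw κ σ ω ↔ (∀ D ∈ σ, D.map (κ b).toMonoidHom = D) ∧ ∀ g, ω (κ b g) = ω g := Iff.rfl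

variable [Fintype G] [Fintype B]

/-- The number of the irreducible characters of the stabilizer of `(σ, θ)` over `θ` with given
defect and given central function on `B`. -/
noncomputable def nC (𝔐 : Ideal (integralClosure ℤ ℂ)) (ℓ d : ℕ) (ι : G →* B)
    (κ : B →* MulAut G) (σ : Finset (Subgroup G)) (Ω : B → (integralClosure ℤ ℂ) ⧸ 𝔐)
    (θ : G → ℂ) : ℕ :=
  Nat.card {η : ↥(Stx κ σ θ) → ℂ // IsIrr η ∧
    ip (fun g : stb σ => ext0 η (ι g)) (fun g : stb σ => θ g) ≠ 0 ∧ HasDefect ℓ η d ∧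
    ∀ x, cen 𝔐 (Stx κ σ θ).subtype η x = Ω x}

end Cnt

end Pool.Agent.RCB
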