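import Mathlib
import Pool.Agent.RCB.DefsR

/-!
# Theorem P1: definitions for the prime 2
-/

namespace Pool.Agent.RCB

open Pool.Agent.DP Pool.Agent.DPV Pool.Agent.DPB Pool.Agent.DPW Pool.Agent.DPX
open Pool.Agent.Lib_helper13 Representation

/-- The product with the sign function which is `-1` at the elements whose order is divisible
by `2 ^ n`. -/
noncomputable def sn (n : ℕ) {T : Type} [Group T] (χ : T → ℂ) : T → ℂ :=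
  fun g => if 2 ^ n ∣ orderOf g then -χ g else χ g

/-- The blocks with cyclic defect groups of order `2 ^ n` are closed under `sn n`. -/
def TWn (n : ℕ) : Prop :=
  ∀ (T : Type) [Group T] [Fintype T] (𝔐 : Ideal (integralClosure ℤ ℂ)), 𝔐.IsMaximal →
    ((2 : ℕ) : integralClosure ℤ ℂ) ∈ 𝔐 → ∀ χ : T → ℂ, IsIrr χ →
    ∀ (P₁ P : Subgroup T) (x₀ : T), AtX 2 n (cen 𝔐 (MonoidHom.id T) χ) P₁ P x₀ →
    IsIrr (sn n χ) ∧ cen 𝔐 (MonoidHom.id T) (sn n χ) = cen 𝔐 (MonoidHom.id T) χ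

/-- The same for the blocks whose defect groups contain a central subgroup of order 2. -/
def TWc (n : ℕ) : Prop :=
  ∀ (T : Type) [Group T] [Fintype T] (𝔐 : Ideal (integralClosure ℤ ℂ)), 𝔐.IsMaximal →
    ((2 : ℕ) : integralClosure ℤ ℂ) ∈ 𝔐 → ∀ χ : T → ℂ, IsIrr χ →
    ∀ (P₁ P : Subgroup T) (x₀ : T), P₁ ≤ Subgroup.center T →
    AtX 2 n (cen 𝔐 (MonoidHom.id T) χ) P₁ P x₀ →
    IsIrr (sn n χ) ∧ cen 𝔐 (MonoidHom.id T) (sn n χ) = cen 𝔐 (MonoidHom.id T) χ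

/-- The classes of `χ` and `ψ` over the subgroup `Q` of `C` agree. -/
def Agr {G B C : Type} [Group G] [Group B] [Group C] {ι : G →* B} {κ : B →* MulAut G}
    {ρ : B →* C} (h : LocN ι κ ρ) (P₁ : Subgroup G) (χ ψ : G → ℂ) (Q : Subgroup C) : Prop :=
  ∀ j : ↥(stb {P₁}) →* ↥(YS (iR h Q) {P₁}), (∀ g, (j g : ↥(Q.comap ρ)) = iR h Q g) →
    ∀ a a₁, FS (iR h Q) (pR ρ Q) χ a →
      FS j ((pR ρ Q).comp (YS (iR h Q) {P₁}).subtype) (fun g : stb {P₁} => ψ g) a₁ →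
      a * a₁⁻¹ ∈ cob Q

/-- `Stmt_LTP` for one prime, without exceptions. -/
def LTPn (ℓ : ℕ) : Prop :=
  ∀ (G B C : Type) [Group G] [Fintype G] [Group B] [Fintype B] [Group C]
    (𝔐 : Ideal (integralClosure ℤ ℂ)) (n : ℕ) [Fact ℓ.Prime], 𝔐.IsMaximal →
    (ℓ : integralClosure ℤ ℂ) ∈ 𝔐 → ∀ (ι : G →* B) (κ : B →* MulAut G) (ρ : B →* C),
    LocN ι κ ρ → ∀ (χ : B → ℂ) (ξ : G → ℂ), IsIrr χ → IsIrr ξ → ip (resj ι χ) ξ ≠ 0 →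
    ∀ (P₁ P : Subgroup G) (x₀ : G), AtX ℓ n (cen 𝔐 (MonoidHom.id G) ξ) P₁ P x₀ → ∀ d : ℕ,
      cnt 𝔐 ℓ d (MonoidHom.id B) (cen 𝔐 (MonoidHom.id B) χ) =
        cnt 𝔐 ℓ d (YS ι {P₁}).subtype (cen 𝔐 (MonoidHom.id B) χ)

/-- `Stmt_INN` for one prime, without exceptions. -/
def INNn (ℓ : ℕ) : Prop :=
  ∀ (G : Type) [Group G] [Fintype G] (M : Subgroup G) [M.Normal]
    (𝔐 : Ideal (integralClosure ℤ ℂ)) [Fact ℓ.Prime], 𝔐.IsMaximal →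
    (ℓ : integralClosure ℤ ℂ) ∈ 𝔐 → ∀ (χ : G → ℂ) (ξ : M → ℂ), IsIrr χ → IsIrr ξ →
    ip (resj M.subtype χ) ξ ≠ 0 → DX ℓ (cen 𝔐 (MonoidHom.id M) ξ) → ∀ d : ℕ,
    ∑ τ ∈ Ch ℓ (⊥ : Subgroup M), (-1 : ℚ) ^ τ.card *
      WW 𝔐 ℓ d (cen 𝔐 (MonoidHom.id G) χ) (stb (mapCh M.subtype τ)) = 0

end Pool.Agent.RCB
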