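import Mathlib
import Pool.Agent.RCB.DefsR
import Pool.Agent.RCB.St3
import Pool.Agent.DPC.StmtsZ

/-!
# Theorem P1: statements, block 5 (the local theorem from the bijection)

`Stmt_LTP`, `Stmt_CN1`, `Stmt_BIJ`, `Stmt_C4F` are in `StI.lean`. The restriction of the data
`(G, B, C)` to the inverse image of a subgroup `R` of `C` (`iR`, `kR`, `pR`, `locN_R`, `cov_R`)
is in `DefsR.lean`, with the elementary lemmas `mem_YS_iff`, `mem_Stx`, `YS_R`, `Stx_R`, `YS_pi`,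
`Stx_pi`, `comap_RC`, `RC_map`, `ker_inj`.

Throughout `ip (..) θ` is the multiplicity; `red 𝔐` is reduction modulo `𝔐`;
`mem_irrOn : f ∈ irrOn S ↔ IrrOn S f`.
-/

namespace Pool.Agent.RCB

open Pool.Agent.DP Pool.Agent.DPV Pool.Agent.DPB Pool.Agent.DPW Pool.Agent.DPX Pool.Agent.DPC
open Pool.Agent.Lib_helper13 Representation

/-! ### Extensions with the same central functions -/

/-- RCB_CLR: the quotients of the `r`-subgroups, `r ≠ ℓ`, are cyclic.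
Proof. `CYCX` for the group `↥(R.comap ρ)`, embedding `iR h R`, action `kR κ ρ R`, projection
`pR ρ R : _ →* R` (`locN_R`); `¬ ℓ ∣ Nat.card R` as `R` is an `r`-group (`IsPGroup.iff_card`),
`L = ⊤`, and the function `fun x => f (x : B)`. The hypothesis `⊤ ≤ (Stx (kR κ ρ R) {P₁} ψ).map
(pR ρ R)` follows from `(Stx κ {P₁} ψ).map ρ = ⊤` and `Stx_R`. `ExtL (iR h R) (kR κ ρ R) (pR ρ R)
{P₁} ψ ⊤ (fun x => f x)`: `f` is irreducible on `Stx κ {P₁} ψ` and its restriction to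
`ι (stb {P₁})` is the irreducible `ψ`; so the restriction to
`(Stx κ {P₁} ψ ⊓ R.comap ρ)` is a character (restrict the representation) whose restriction to
a subgroup is irreducible, hence it is irreducible (it is a sum of irreducible characters, all but
one would restrict to `0`; see the proof of truncation in `DPV/EXTV.lean`). Output `t : R.comap ρ`;
the class of `t` under `ι.range` is contained in `R.comap ρ`, so
`cgT 𝔐 (iR h R).range (fun x => f x) t = cgT 𝔐 ι.range f t` (the sum over `B` restricts to the sum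
over the subgroup because `cjT ι.range x t = 0` unless `ρ x = ρ t`). -/
def Stmt_CLR : Prop :=
  ∀ (G B C : Type) [Group G] [Fintype G] [Group B] [Fintype B] [Group C]
    (𝔐 : Ideal (integralClosure ℤ ℂ)) (ℓ n : ℕ) [Fact ℓ.Prime], 𝔐.IsMaximal →
    (ℓ : integralClosure ℤ ℂ) ∈ 𝔐 →
    ∀ (ι : G →* B) (κ : B →* MulAut G) (ρ : B →* C), LocN ι κ ρ →
    ∀ (P₁ P : Subgroup G) (x₀ : G) (ω : G → (integralClosure ℤ ℂ) ⧸ 𝔐),
    AtX ℓ n ω P₁ P x₀ → (∃ θ : G → ℂ, IsIrr θ ∧ cen 𝔐 (MonoidHom.id G) θ = ω) →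
    ∀ ψ : G → ℂ, IrrOn (stb {P₁}) ψ → (∀ g, cg 𝔐 ψ g = ω g) →
    (Stx κ {P₁} ψ).map ρ = ⊤ → ∀ f : B → ℂ, ExtL ι κ ρ {P₁} ψ ⊤ f →
    ∀ r : ℕ, r.Prime → r ≠ ℓ → ∀ R : Subgroup C, IsPGroup r R →
      ∃ c0 ∈ R, ∀ c ∈ R, ∃ (k : ℤ) (t : B), ρ t = c * c0 ^ k ∧ cgT 𝔐 ι.range f t ≠ 0

/-- RCB_CLQ: the scalars on the kernel extend over the `ℓ`-subgroups.
Proof. Let `R = (Q.comap ρ').map (ρ.comp π) ≤ C`, an `ℓ`-group (image of `Q.comap ρ'`; the element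
`ρ (π y)` has `ℓ`-power order as `ρ' y` has: `ρ' y ^ ℓ ^ k = 1` implies `ρ (π y) ^ ℓ ^ k = 1` by
`rho_pi`; `IsPGroup` means that every element has `ℓ`-power order, and then
`Nat.card R = ℓ ^ m` by `IsPGroup.iff_card`). `RC ρ ρ' π R = π.ker.map ρ' ⊔ Q` (`RC_map`). Consider
`cov_R h R`: the groups `B₁ = ↥(R.comap ρ)`, `B₁' = ↥((RC ρ ρ' π R).comap ρ')`, `κ₁ = kR κ ρ R` etc.
`Stx κ₁ ∅ χ = ⊤`, and `(Stx κ₁ {P₁} ψ).map (pR ρ R) = ⊤` (from `(Stx κ {P₁} ψ).map ρ = ⊤`), so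
`Stx κ₁ {P₁} ψ = YS (iR _ R) {P₁} =: Y₁` (if `b ∈ Y₁`, `ρ b = ρ s` with `s` in the stabilizer then
`b = ι g * s` with `ι g ∈ YS ι {P₁}`, so `g ∈ stb {P₁}` fixes `ψ`). `StX` holds for `κ₁`.
Factor sets: `FSE` for `ClG (iR _ R) κ₁ (pR ρ R)`, `χ` (invariant, irreducible) gives `a`; `FSE` for
`ClG (jS _ {P₁}) (cS _ {P₁}) (pS (pR ρ R) (iR _ R) {P₁})` (`clG_S`; the projection `Y₁ → R` is
surjective) and `fun g : stb {P₁} => ψ g` gives `a₁`. `C4F` for `(G, B₁, R)`: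
`a * a₁⁻¹ ∈ cob R`. `FSC` for `cov_R h R` with `S = ⊤`, `S₁ = Y₁`: here `j : ↥(⊤.comap ι₁) →* ⊤`,
`j₁ : ↥(Y₁.comap ι₁) →* Y₁` (`Y₁.comap ι₁ = stb {P₁}`, `mem_YS`; transport the factor sets along
these equalities of subgroups: state and prove a small lemma that `FS` is invariant under
isomorphisms of `A` and `Y` compatible with `j`, `p`, `θ`); `fun x => f x`,
`fun x => f₁ x` restricted to `B₁'` are irreducible on `⊤.comap π₁`, `Y₁.comap π₁ = YS ι₁' {P₁}`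
because their restrictions to `G`, `stb {P₁}` are irreducible (see `CLR`). Output
`μ₁ : ↥(RC ρ ρ' π R) → ℂ`, `LinOn ⊤ μ₁`, with `f w * f₁ 1 = μ₁ (ρ' w) * (f₁ w * f 1)` for
`π w = 1`. Put `μ c = (μ₁ ⟨c, hc⟩)⁻¹` for `c ∈ π.ker.map ρ' ⊔ Q = RC ρ ρ' π R`, `1` otherwise
(values of `μ₁` are nonzero: `μ₁ x * μ₁ x⁻¹ = μ₁ 1 = 1`). -/
def Stmt_CLQ : Prop :=
  ∀ (G B C B' C' : Type) [Group G] [Fintype G] [Group B] [Fintype B] [Group C]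
    [Group B'] [Fintype B'] [Group C'] [Finite C']
    (𝔐 : Ideal (integralClosure ℤ ℂ)) (ℓ n : ℕ) [Fact ℓ.Prime], 𝔐.IsMaximal →
    (ℓ : integralClosure ℤ ℂ) ∈ 𝔐 → ℓ ≠ 2 → ∀ (ι : G →* B) (κ : B →* MulAut G) (ρ : B →* C)
    (ι' : G →* B') (κ' : B' →* MulAut G) (ρ' : B' →* C') (π : B' →* B),
    Cov ι κ ρ ι' κ' ρ' π →
    ∀ (ω : G → (integralClosure ℤ ℂ) ⧸ 𝔐) (P₁ P : Subgroup G) (x₀ : G),
    StX 𝔐 ℓ n κ ω P₁ P x₀ → ∀ χ ∈ XS 𝔐 ω, ∀ ψ ∈ YL 𝔐 P₁ ω, Stx κ ∅ χ = ⊤ →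
    (Stx κ {P₁} ψ).map ρ = ⊤ → (EB 𝔐 P₁ ω ∨ Mtc 𝔐 P₁ ω χ ψ) → ∀ f f₁ : B' → ℂ,
    ExtL ι' κ' ρ' ∅ χ ⊤ f → ExtL ι' κ' ρ' {P₁} ψ ⊤ f₁ → ∀ Q : Subgroup C', IsPGroup ℓ Q →
      ∃ μ : C' → ℂ, LinOn (π.ker.map ρ' ⊔ Q) μ ∧
        ∀ w, π w = 1 → f₁ w * f 1 = μ (ρ' w) * (f w * f₁ 1)

/-- RCB_CLT: extensions with the same weights and the same scalars.
Proof. `LocV ι' κ' ρ'` gives extensions `f`, `f₀` of `χ`, `ψ` (`LocV.ext`, `σ = ∅`, `{P₁}`;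
`Stx κ' σ θ ⊓ ⊤.comap ρ' = Stx κ' σ θ`), so `ExtL ι' κ' ρ' ∅ χ ⊤ f`, `ExtL ι' κ' ρ' {P₁} ψ ⊤ f₀`.
`Stx κ' ∅ χ = ⊤` and `(Stx κ' {P₁} ψ).map ρ' = ⊤` (`Stx_pi`; for `c = ρ' x` let `ρ (π x) = ρ s`,
`s ∈ Stx κ {P₁} ψ`, `s = π y`; then `x * y⁻¹ = ι' g * w`, `π w = 1`, as in `RC_map`, and
`w * y ∈ Stx κ' {P₁} ψ`). `NUVW` (for `B'`, `σ = ∅`, `σ' = {P₁}`, `L = ⊤`) gives `U`, `ν` with
`cgT 𝔐 ι'.range f₀ t = ν (ρ' t) * cgT 𝔐 ι'.range f t`. `W = π.ker.map ρ'`: for `π w = 1` the element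
`w` commutes with `ι' g` (`κ' w = κ (π w) = 1`), so `cjT ι'.range x w` is the indicator of
`x = w` and `cgT 𝔐 ι'.range f w = red 𝔐 (f w / f 1)`; `z = f w / f 1` satisfies `z * z' = 1` where
`z' = f w⁻¹ / f 1` (`w` acts by a scalar in a representation affording `f`, Schur for the
restriction to `G`), both are roots of unity, so integral, and `red 𝔐 z ≠ 0`. So `W ≤ U`. The same
for `f₀`. Define `τ (ρ' w) = (f₀ w * f 1) / (f w * f₀ 1)` (`ker_inj`: `ρ'` is injective on the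
kernel), `τ c = 1` otherwise: `LinOn W τ`, invariant under conjugation (`f`, `f₀` are class
functions on `Stx κ' ..`, whose images are `⊤`, and `ι' g` centralizes `w`), `red 𝔐 (τ w) = ν w` on
`W`. `GLU` for `C'`, `L = ⊤`, `U`, `W`, `ν`, `τ`: hypothesis (a) from `CLR` for `f₀`
(`cgT 𝔐 ι'.range f₀ t ≠ 0` implies `cgT 𝔐 ι'.range f t ≠ 0`, i.e. `ρ' t ∈ U`), (b) from `CLQ`
(`μ (ρ' w) = τ (ρ' w)`). Output `lam`, `LinOn ⊤ lam`. Put `f₁ x = f₀ x * (lam (ρ' x))⁻¹`. It is an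
extension of `ψ` (`EXTV` (4)) and `cgT 𝔐 ι'.range f₁ t = red 𝔐 ((lam (ρ' t))⁻¹) * cgT 𝔐 ι'.range f₀ t`
(`BETV` (1); `IrrOn` for the restriction to `G` holds as it is `ψ`, `Stx κ' {P₁} ψ` has the
inverse image `stb {P₁}`, see `EXTV` (1)). For `ρ' t ∈ U` this is `ν⁻¹ * ν * cgT f t`; for
`ρ' t ∉ U` both sides are `0`. For `π w = 1`:
`f₁ w = f₀ w / τ (ρ' w) = f w * f₀ 1 / f 1`, `f₁ 1 = f₀ 1`. -/
def Stmt_CLT : Prop :=
  ∀ (G B C B' C' : Type) [Group G] [Fintype G] [Group B] [Fintype B] [Group C]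
    [Group B'] [Fintype B'] [Group C'] [Finite C']
    (𝔐 : Ideal (integralClosure ℤ ℂ)) (ℓ n : ℕ) [Fact ℓ.Prime], 𝔐.IsMaximal →
    (ℓ : integralClosure ℤ ℂ) ∈ 𝔐 → ℓ ≠ 2 → ∀ (ι : G →* B) (κ : B →* MulAut G) (ρ : B →* C)
    (ι' : G →* B') (κ' : B' →* MulAut G) (ρ' : B' →* C') (π : B' →* B),
    Cov ι κ ρ ι' κ' ρ' π → LocV ι' κ' ρ' →
    ∀ (ω : G → (integralClosure ℤ ℂ) ⧸ 𝔐) (P₁ P : Subgroup G) (x₀ : G),
    StX 𝔐 ℓ n κ ω P₁ P x₀ → ∀ χ ∈ XS 𝔐 ω, ∀ ψ ∈ YL 𝔐 P₁ ω, Stx κ ∅ χ = ⊤ →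
    (Stx κ {P₁} ψ).map ρ = ⊤ → (EB 𝔐 P₁ ω ∨ Mtc 𝔐 P₁ ω χ ψ) →
    ∃ f f₁ : B' → ℂ, ExtL ι' κ' ρ' ∅ χ ⊤ f ∧ ExtL ι' κ' ρ' {P₁} ψ ⊤ f₁ ∧
      cgT 𝔐 ι'.range f = cgT 𝔐 ι'.range f₁ ∧ ∀ w, π w = 1 → f w * f₁ 1 = f₁ w * f 1

/-! ### The count -/

/-- RCB_CGL: the characters of a quotient of the covering group over an extendible character.
Proof. `e R` is the function `η` with `η (q y) = f y * R (p y)`. By `GALL` (for `C'`)
`E y = f y * R (p y)` is irreducible on `H'`, and `E w = E 1` for `q w = 1`; so `w` is in the kernel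
of a representation affording `E` (there is a lemma for this in `Lib_helper13` or `DPC/TWE.lean`,
`DPV/HATC.lean`: `E w = E 1` implies `E (w * y) = E y`) and `E` factors through `q`;
`η` is irreducible (`IsIrr`; the representation factors through the surjective `q`), and
`ip (η ∘ q ∘ j) ψ = R 1 ≠ 0`. Injective: `GALL` (2). Surjective: for `η`, `η ∘ q` is irreducible on
`H'` and over `ψ`, so it is `f y * R (p y)` by `GALL` (3), and at `w` with `q w = 1` its value is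
`η 1`. -/
def Stmt_CGL : Prop :=
  ∀ (N H H' C' : Type) [Group N] [Fintype N] [Group H] [Fintype H] [Group H'] [Fintype H']
    [Group C'] [Fintype C'] (j : N →* H') (c : H' →* MulAut N) (p : H' →* C') (q : H' →* H),
    ClG j c p → Function.Surjective p → Function.Surjective q → ∀ (ψ : N → ℂ) (f : H' → ℂ),
    IsIrr ψ → IsChr f → (∀ g, f (j g) = ψ g) →
    ∃ e : {R : C' → ℂ // IsIrr R ∧ ∀ w, q w = 1 → f w * R (p w) = f 1 * R 1} ≃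
        {η : H → ℂ // IsIrr η ∧ ip (fun g => η (q (j g))) ψ ≠ 0},
      ∀ R y, (e R).1 (q y) = f y * R.1 (p y)

/-- RCB_CSC: a twisted sum with coefficients in `𝔐` lies in `𝔐`.
Proof. `VALX`: `O` with `VR ℓ 𝔐 O`. `RLZX` for `(O, C', R)`: `M : C' →* Matrix (Fin d) (Fin d) O` with
character `R`. (1) For `w ∈ W`, `M w = τ w • 1` (over `ℂ`): by `RLZX` for `a x = R x⁻¹` (class
function, algebraic integers, so in `O` by `VR.int`) `∑ x, R x⁻¹ • M x = z • 1`,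
`z = (∑ x, R x⁻¹ * R x) / R 1 = |C'| / R 1`; multiply by `M w`:
`z • M w = ∑ x, R x⁻¹ • M (w * x) = ∑ y, R (y⁻¹ * w) • M y = ∑ y, τ w * R y⁻¹ • M y = τ w * z • 1`.
(2) `RLZX` for `a = A`: `∑ x, A x • M x = u • 1`, `u = (∑ x, A x * R x) / R 1`. Since
`A (w * x) • M (w * x) = A x • M x` for `w ∈ W`, the left side is `|W| • S`,
`S = ∑ x ∈ T, A x • M x`, `T` a set of representatives of the cosets `W x` (sum over the
quotient; for instance `∑ x, g x = |W| * ∑ over the image of (x ↦ out of the coset)`). The entry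
`S 0 0` (`d > 0` as `R 1 ≠ 0`) is a sum of products `A x * M x 0 0` with `A x` of valuation `< 1`
(`VR.max`, `red 𝔐 (A x) = 0`) and `M x 0 0 ∈ O`, so it has valuation `< 1`, and it is
`u / |W| = (∑ x, A x * R x) / (|W| * R 1)`. This number is integral and of valuation `< 1`, so
it is in `𝔐` (`VR.max`). -/
def Stmt_CSC : Prop :=
  ∀ (C' : Type) [Group C'] [Fintype C'] (𝔐 : Ideal (integralClosure ℤ ℂ)) (ℓ : ℕ)
    [Fact ℓ.Prime], 𝔐.IsMaximal → (ℓ : integralClosure ℤ ℂ) ∈ 𝔐 →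
    ∀ (W : Subgroup C') (R A τ : C' → ℂ), IsIrr R → (∀ g x, A (g * x * g⁻¹) = A x) →
    (∀ x, IsIntegral ℤ (A x)) → (∀ x, red 𝔐 (A x) = 0) →
    (∀ w ∈ W, ∀ x, R (w * x) = τ w * R x) → (∀ w ∈ W, ∀ x, τ w * A (w * x) = A x) →
    IsIntegral ℤ ((∑ x, A x * R x) / (Nat.card W * R 1)) →
      red 𝔐 ((∑ x, A x * R x) / (Nat.card W * R 1)) = 0

/-- RCB_CFB: the sums over the cosets are integral and agree modulo `𝔐`.
Proof. Integrality: `FIBI` (1) for `ClG ι κ ρ` (`χ`, `f`) and for `clG_S h.cl {P₁}`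
(`fun g : stb {P₁} => ψ g`, `fun y : YS ι {P₁} => f₁ y`). Let `a y = F y` if `ρ y = c`, `0`
otherwise: integral, invariant under conjugation by `ι g`. `wt f a = fib ρ f (χ 1) F c`
(`f 1 = χ 1`), and `wt f₁ a` is the second sum (`f₁` vanishes outside of `YS ι {P₁}`,
`f₁ 1 = ψ 1`). `EXPV` with `ν = 1`; its two integrality hypotheses are `INTH` for `S = ⊤`, `f`, and
for `S = YS ι {P₁}`, `f₁` (`(YS ι {P₁}).comap ι = stb {P₁}` by `mem_YS`, and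
`fun h => f₁ (ι h)` is `ψ`; `F = fun x => cjT ι.range x t`). -/
def Stmt_CFB : Prop :=
  ∀ (G B C : Type) [Group G] [Fintype G] [Group B] [Fintype B] [Group C]
    (𝔐 : Ideal (integralClosure ℤ ℂ)) (ι : G →* B) (κ : B →* MulAut G) (ρ : B →* C),
    LocN ι κ ρ → ∀ (P₁ : Subgroup G) (χ ψ : G → ℂ) (f f₁ : B → ℂ), IsIrr χ →
    IrrOn (stb {P₁}) ψ → IsIrr f → (∀ g, f (ι g) = χ g) → IrrOn (YS ι {P₁}) f₁ →
    (∀ g, f₁ (ι g) = ψ g) → (∀ t, cgT 𝔐 ι.range f t = cgT 𝔐 ι.range f₁ t) →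
    ∀ F : B → ℂ, (∀ g x, F (ι g * x * (ι g)⁻¹) = F x) → (∀ x, IsIntegral ℤ (F x)) → ∀ c : C,
      IsIntegral ℤ (fib ρ f (χ 1) F c) ∧
      IsIntegral ℤ (fib (pS ρ ι {P₁}) (fun y : YS ι {P₁} => f₁ y) (ψ 1)
        (fun y : YS ι {P₁} => F y) c) ∧
      red 𝔐 (fib ρ f (χ 1) F c) =
        red 𝔐 (fib (pS ρ ι {P₁}) (fun y : YS ι {P₁} => f₁ y) (ψ 1)
          (fun y : YS ι {P₁} => F y) c)

/-- RCB_CNA: the weights of the characters of `CGL`.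
Proof. `F` a class function on `H`. `η (q y) = f y * R (p y)`. `q` is surjective with fibres of
order `|ker q|`: `∑ h, F h * η h = (∑ y, F (q y) * η (q y)) / |ker q|`. By `FIBI` (4)
`wt (fun y => f y * R (p y)) (fun y => F (q y)) = wt R (fib p f (ψ 1) (fun y => F (q y)))`, and
`η 1 = f 1 * R 1`. The second claim: `p` is injective on `ker q` by hypothesis. Third:
`fib p f (ψ 1) (F ∘ q) (p w * x) = (f w / f 1) * fib .. x` for `q w = 1`: substitute `y ↦ w * y`,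
`f (w * y) = (f w / f 1) * f y` (`w` commutes with `j g`, so it acts by a scalar in a
representation affording `f`, whose restriction to `N` is irreducible). The same for `R`: for
`q w = 1` the product `f w * R (p w) = f 1 * R 1` and `f w / f 1` is a root of unity `z`, so
`R (p w) = z⁻¹ * R 1`, `p w` acts by the scalar `z⁻¹` (a sum of `d` roots of unity of absolute
value `d` has equal terms; or: `p w` commutes with `C'` up to.. use that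
`f (w * y) * R (p (w * y)) = f y * R (p y)` since `η (q (w * y)) = η (q y)`, so
`z * f y * R (p w * p y) = f y * R (p y)`; given `x : C'` choose `y` with `p y = x` and `f y ≠ 0`:
possible by `COSET` in `DP/Stmts.lean`: `∑ a, f (y * j a) * f (y * j a)⁻¹ = |N|`). -/
def Stmt_CNA : Prop :=
  ∀ (N H H' C' : Type) [Group N] [Fintype N] [Group H] [Fintype H] [Group H'] [Fintype H']
    [Group C'] [Fintype C'] (j : N →* H') (c : H' →* MulAut N) (p : H' →* C') (q : H' →* H),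
    ClG j c p → Function.Surjective p → Function.Surjective q → (∀ w, q w = 1 → p w = 1 → w = 1) →
    (∀ w, q w = 1 → ∀ g, w * j g = j g * w) → ∀ (ψ : N → ℂ) (f : H' → ℂ), IsIrr ψ → IsChr f →
    (∀ g, f (j g) = ψ g) → ∀ (η : H → ℂ) (R : C' → ℂ), IsIrr η → IsIrr R →
    (∀ y, η (q y) = f y * R (p y)) →
    (∀ F : H → ℂ, wt η F = (∑ x, fib p f (ψ 1) (fun y => F (q y)) x * R x) /
        (Nat.card (q.ker.map p) * R 1)) ∧
    (∀ w, q w = 1 → f w ≠ 0 ∧ (∀ y, f (w * y) * f 1 = f w * f y) ∧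
      (∀ x, f w * R (p w * x) = f 1 * R x) ∧
      ∀ (F : H → ℂ) (x : C'), fib p f (ψ 1) (fun y => F (q y)) (p w * x) * f 1 =
        f w * fib p f (ψ 1) (fun y => F (q y)) x)

/-! ### The proof of `Stmt_CN1` (`StI.lean`)

Uses `CGL`, `CSC`, `CFB`, `CNA`, `FIBI`. (1) `CGL` for `N = G`, `H = S`, `H' = S'`, `ι'`, `κ'`,
`ρ'`, `q = π`, `ψ = χ`, `f`, and for `N = stb {P₁}`, `H = ↥(YS ι {P₁})`, `H' = ↥(YS ι' {P₁})`,
`jS h.up.cl {P₁}`, `cS`, `pS ρ' ι' {P₁}` (`clG_S`; surjective: for `c = ρ' x` choose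
`s ∈ YS ι {P₁}` with `ρ s = ρ (π x)`, `s = π y`; `x * y⁻¹ = ι' g * w` with `π w = 1`, see `RC_map`;
`w * y ∈ YS ι' {P₁}` by `YS_pi`), `q` = restriction of `π` (`YS_pi`; surjective), `ψ`, `f₁`. Both sets
of the `R` are equal because `f w * f₁ 1 = f₁ w * f 1` for `π w = 1` (`w ∈ YS ι' {P₁}`; `f 1`,
`f₁ 1 ≠ 0`), so there is a bijection `η ↔ η₁` with `η (π y) = f y * R (ρ' y)`,
`η₁ (π y) = f₁ y * R (ρ' y)`. (2) Defects: `|S| = |G| |C|`, `|YS ι {P₁}| = |stb {P₁}| |C|`,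
`η 1 = χ 1 * R 1`, `η₁ 1 = ψ 1 * R 1`; the degrees divide the orders of the groups
(`χ 1 ∣ |G|`: lemma in `Lib_helper13`), so the equality of `df` gives
`v |G| + v (ψ 1) = v |stb {P₁}| + v (χ 1)`, and `HasDefect ℓ η d ↔ HasDefect ℓ η₁ d`.
(3) Central functions: fix `x : X`, `F y = conjInd (i y) x`, a class function on `S`, and let
`A c = fib ρ' f (χ 1) (fun y => F (π y)) c`, `A₁ c` the second sum in `CFB` (for the group `S'`,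
`F ∘ π`). `CNA` (twice): `wt η F = (∑ c, A c * R c) / (|W| * R 1)`, `wt η₁ (F|) = (∑ c, A₁ c * R c) /
(|W| * R 1)`, `W = π.ker.map ρ'` (for the second: the image of the kernel of `q` under `pS` is the
same subgroup). Both are integral (`isIntegral_wt`). `CSC` for `A - A₁`, `τ (ρ' w) = f 1 / f w`:
class function on `C'` (`FIBI` (3), surjectivity), integral and `red 𝔐 (A c - A₁ c) = 0`
(`CFB` and `red_sub` or `red_add`), the twists by `CNA`. So `red 𝔐 (wt η F) = red 𝔐 (wt η₁ F|)`,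
i.e. `cen 𝔐 i η x = cen 𝔐 (i.comp (YS ι {P₁}).subtype) η₁ x`.

### The proof of `Stmt_LTP` (`StI.lean`)

Uses `BIJ`, `CEQ`, `CAG`, `CVB`, `FXGX`. `ω = cen 𝔐 id ξ`, `Ω = cen 𝔐 id χ`. `CVB` gives the
hypothesis of `CAG` for `σ = ∅` and `σ = {P₁}` (`nC ≠ 0` gives an `η`). `R = (Sw κ ∅ ω).map ρ`,
`Sw κ ∅ ω = R.comap ρ` (`ω` is a class function). `FXGX` for `(G, ↥(R.comap ρ), R)` (`locN_R`):
`(YS (iR h R) {P₁}).map (pR ρ R) = ⊤`, so `(Sw κ {P₁} ω).map ρ = R` (`YS_R`, `mem_YS_iff`). `BIJ` for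
`(G, ↥(R.comap ρ), R)`: `Φ`. For `θ ∈ XS 𝔐 ω`: `(Stx κ ∅ θ).map ρ = (Stx κ {P₁} (Φ θ)).map ρ`,
because both stabilizers are contained in `Sw κ ∅ ω` (an element fixing `θ` fixes `cg 𝔐 θ = ω`; an
element fixing `P₁` and `ψ` fixes `cg 𝔐 ψ = ω`; substitute in the sum) and `Stx_R`. `CEQ`:
`nC ∅ θ = nC {P₁} (Φ θ)`. The two sums in `CAG` agree (`Finset.sum_nbij`, `Φ` is a bijection from
`XS 𝔐 ω` to `YL 𝔐 P₁ ω`; `mem_irrOn`), so `|R| * cnt (YS ι ∅) = |R| * cnt (YS ι {P₁})`; and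
`YS ι ∅ = ⊤`, `cnt_comp_equiv` (`Subgroup.topEquiv`) gives `cnt 𝔐 ℓ d (MonoidHom.id B) Ω`.
-/

/-! ### Clifford theory over the group of the block -/

/-- RCB_CVB: the characters of the stabilizers in the block of `χ` lie over the conjugates of the
block of `ξ`.
Proof. Let `S = Stx κ σ θ`. (1) For `a : G → ℂ` integral with `a (κ b x) = a x`:
`red 𝔐 (wt ξ a) = red 𝔐 (wt (fun g : stb σ => θ g) (fun g => a g))`. Let `A : B → ℂ` be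
`A (ι g) = a g`, `0` outside of the range: a class function of `B` (`ι (κ b g) = b * ι g * b⁻¹`).
`SUMM` (4) for `ClG ι κ ρ`: `wt χ A = wt ξ a`; `SUMM` (4) for `stb σ → S` (a `ClG`:
`ι (stb σ) ≤ S`, and `ι g ∈ S` implies `g ∈ stb σ`; see `DPV/EXTV.lean`, or build it from `clG_S`):
`wt η (fun s => A s) = wt (θ | stb σ) (a | stb σ)` (`ip (fun g : stb σ => ext0 η (ι g)) .. ≠ 0`).
`cen 𝔐 S.subtype η = cen 𝔐 id χ` gives `red 𝔐 (wt η (fun s => A s)) = red 𝔐 (wt χ A)` (expand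
the class function `A` in the indicators of the classes of `B`; `wt_comp_classes`,
`Lib_helper13/Weights.lean`). (2) `cg 𝔐 θ = cen 𝔐 id θ₁` for some `θ₁ ∈ Irr(G)`: for `σ = ∅`,
`stb ∅ = ⊤`, `θ₁ = θ`; for `σ = {P₁}` it is `LOC` (`stb {P₁}` is the normalizer of `P₁`,
`stb_singleton` or `mem_stb`; `cg 𝔐 θ g = cen 𝔐 (normalizer).subtype (θ restricted) g` by restricting
the sum). So for `a` as in (1) also `red 𝔐 (wt (θ|) (a|)) = red 𝔐 (wt θ₁ a)` (`a` is a class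
function on `G`: `κ (ι g)` is conjugation; expansion again). (3) `COVW` for `ξ`, `θ₁`:
`b₀ : B` with `cen 𝔐 id (fun x => θ₁ (κ b₀ x)) = cen 𝔐 id ξ`, i.e. `cg 𝔐 θ (κ b₀ g) = ω g`,
`ω = cen 𝔐 id ξ` (substitute `x ↦ κ b₀ x` in the sum). For `σ = ∅`: `YS ι ∅ = ⊤`. (4) `σ = {P₁}`:
`cg 𝔐 θ` belongs to `AtX ℓ n (cg 𝔐 θ) (P₁.map (κ b₀)) (P.map (κ b₀)) (κ b₀ x₀)` (transport; copy
`FXGX.atX_map` of `DPX/FXGX.lean`). `CHNX` for the chain `{P₁}` (`IsCh ℓ ⊥ {P₁}`), `θ`: some `g`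
with `P₁ ≤ (P.map (κ b₀)).map (conj g)`. This group is cyclic of order `ℓ ^ n`, so it has only one
subgroup of order `ℓ`: `P₁ = (P₁.map (κ b₀)).map (conj g)`. Let `b = ι g * b₀`: `κ b` maps `P₁` to
`P₁`, so `b ∈ YS ι {P₁}` (`mem_YS_iff`), and `cg 𝔐 θ (κ b x) = cg 𝔐 θ (g * κ b₀ x * g⁻¹) =
cg 𝔐 θ (κ b₀ x)`. -/
def Stmt_CVB : Prop :=
  ∀ (G B C : Type) [Group G] [Fintype G] [Group B] [Fintype B] [Group C]
    (𝔐 : Ideal (integralClosure ℤ ℂ)) (ℓ n : ℕ) [Fact ℓ.Prime], 𝔐.IsMaximal →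
    (ℓ : integralClosure ℤ ℂ) ∈ 𝔐 → ∀ (ι : G →* B) (κ : B →* MulAut G) (ρ : B →* C),
    LocN ι κ ρ → ∀ (χ : B → ℂ) (ξ : G → ℂ), IsIrr χ → IsIrr ξ → ip (resj ι χ) ξ ≠ 0 →
    ∀ (P₁ P : Subgroup G) (x₀ : G), AtX ℓ n (cen 𝔐 (MonoidHom.id G) ξ) P₁ P x₀ →
    ∀ σ : Finset (Subgroup G), (σ = ∅ ∨ σ = {P₁}) → ∀ θ : G → ℂ, IrrOn (stb σ) θ →
    ∀ η : ↥(Stx κ σ θ) → ℂ, IsIrr η →
      ip (fun g : stb σ => ext0 η (ι g)) (fun g : stb σ => θ g) ≠ 0 →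
      (∀ x, cen 𝔐 (Stx κ σ θ).subtype η x = cen 𝔐 (MonoidHom.id B) χ x) →
      ∃ b ∈ YS ι σ, ∀ g, cg 𝔐 θ (κ b g) = cen 𝔐 (MonoidHom.id G) ξ g

/-- RCB_CAI: Clifford theory in the stabilizer of a chain.
Proof. `CCN` for `A = stb σ`, `Y = YS ι σ`, `jS h.cl σ`, `cS h.cl σ`, `pS ρ ι σ` (`clG_S`) and
`P η = HasDefect ℓ η d ∧ ∀ x, cen 𝔐 (YS ι σ).subtype η x = Ω x`. The sum over `irrF (stb σ)` is the
sum over `irrOn (stb σ)` (the image under `ext0`, which is injective). For `θ₀ ∈ irrF (stb σ)`,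
`θ = ext0 θ₀`: `inert (cS h.cl σ) θ₀` consists of the `y : YS ι σ` with `(y : B) ∈ Stx κ σ θ`
(`mem_YS_iff`; `θ (κ y x) = θ x` for `x ∉ stb σ` since both sides are `0`), and
`Stx κ σ θ ≤ YS ι σ`: so there is an isomorphism `inert .. ≃* ↥(Stx κ σ θ)` compatible with the
inclusions in `B`. `IND` for `Y = YS ι σ`: the defect of the induced character is that of
`ψ` (`indc ψ 1 * |S| = |Y| * ψ 1`), and
`cen 𝔐 (YS ι σ).subtype (indc ψ) = cen 𝔐 (.. inclusion of S in B) ψ` (`IND` (4) for the class function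
`y ↦ conjInd y x`). `card_irr_equiv` of `Lib_helper13/Cen.lean` transports the numbers. -/
def Stmt_CAI : Prop :=
  ∀ (G B C : Type) [Group G] [Fintype G] [Group B] [Fintype B] [Group C]
    (𝔐 : Ideal (integralClosure ℤ ℂ)) (ℓ : ℕ) [Fact ℓ.Prime], 𝔐.IsMaximal →
    ∀ (ι : G →* B) (κ : B →* MulAut G) (ρ : B →* C),
    LocN ι κ ρ → ∀ (σ : Finset (Subgroup G)) (Ω : B → (integralClosure ℤ ℂ) ⧸ 𝔐) (d : ℕ),
      (Nat.card (YS ι σ) : ℚ) * cnt 𝔐 ℓ d (YS ι σ).subtype Ω =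
        ∑ θ ∈ irrOn (stb σ), (Nat.card (Stx κ σ θ) : ℚ) * nC 𝔐 ℓ d ι κ σ Ω θ

/-- RCB_CAT: transport by an element of the stabilizer of the chain.
Proof. `κ b` maps `stb σ` to itself (`b` fixes all members of `σ`; `mem_YS_iff`). `IrrOn`: composition
of an irreducible character of `stb σ` with an automorphism. `cg`: substitute `x ↦ κ b x`,
`conjInd (κ b x) (κ b g) = conjInd x g`. `Stx κ σ (fun g => θ (κ b g)) = b⁻¹ (Stx κ σ θ) b`. The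
isomorphism `s ↦ b * s * b⁻¹` from the first to the second and `card_irr_equiv`:
`η ↦ η (b s b⁻¹)`; `HasDefect` (`hasDefect_comp_equiv`), `cen` (`cen_comp_equiv`, `cen_conj`: the
inclusions in `B` differ by conjugation), and the multiplicity: the sum over `stb σ` is
substituted by `κ b`, `ι (κ b g) = b * ι g * b⁻¹`. -/
def Stmt_CAT : Prop :=
  ∀ (G B C : Type) [Group G] [Fintype G] [Group B] [Fintype B] [Group C]
    (𝔐 : Ideal (integralClosure ℤ ℂ)) (ℓ : ℕ) [Fact ℓ.Prime], 𝔐.IsMaximal →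
    ∀ (ι : G →* B) (κ : B →* MulAut G) (ρ : B →* C),
    LocN ι κ ρ → ∀ (σ : Finset (Subgroup G)) (Ω : B → (integralClosure ℤ ℂ) ⧸ 𝔐) (d : ℕ),
    ∀ b ∈ YS ι σ, ∀ θ : G → ℂ, IrrOn (stb σ) θ →
      IrrOn (stb σ) (fun g => θ (κ b g)) ∧
      (∀ g, cg 𝔐 (fun g => θ (κ b g)) g = cg 𝔐 θ (κ b g)) ∧
      Nat.card (Stx κ σ (fun g => θ (κ b g))) = Nat.card (Stx κ σ θ) ∧
      nC 𝔐 ℓ d ι κ σ Ω (fun g => θ (κ b g)) = nC 𝔐 ℓ d ι κ σ Ω θ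

open Classical in
/-- RCB_CAG: the count over the characters with central function `ω`.
Proof. `F θ = |Stx κ σ θ| * nC θ` on `X = irrOn (stb σ)`; by `CAT` the group `Y = YS ι σ` acts on `X`
(`θ ↦ θ ∘ κ b`, bijective with inverse `θ ↦ θ ∘ κ b⁻¹`), `F` is invariant. Consider
`D = ∑ b ∈ Y, ∑ θ ∈ X with (cg 𝔐 θ ∘ κ b = ω), F θ`. For fixed `b` substitute `θ' = θ ∘ κ b`: the
inner sum is `∑ θ' ∈ X with cg 𝔐 θ' = ω, F θ'`; so `D = |Y| * ∑ θ with cg θ = ω, F θ`. For fixed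
`θ` the number of the `b ∈ Y` with `cg 𝔐 θ ∘ κ b = ω` is `|Sw κ σ ω|` if there is one (`b₀ * s`,
`s ∈ Sw κ σ ω`; `mem_YS_iff`), and if there is none then `F θ = 0` by the hypothesis. So
`D = |Sw κ σ ω| * ∑ θ ∈ X, F θ = |Sw κ σ ω| * |Y| * cnt` by `CAI`. Cancel `|Y|`. Finally
`|Stx κ σ θ| = |stb σ| * |(Stx κ σ θ).map ρ|` and `|Sw κ σ ω| = |stb σ| * |(Sw κ σ ω).map ρ|`: the
kernel of `ρ` on these groups is `ι (stb σ)` (`ι g ∈ YS ι σ` iff `g ∈ stb σ`, `mem_YS`; inner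
automorphisms fix `ω` and, for elements of `stb σ`, also `θ`). Cancel `|stb σ|`. -/
def Stmt_CAG : Prop :=
  ∀ (G B C : Type) [Group G] [Fintype G] [Group B] [Fintype B] [Group C]
    (𝔐 : Ideal (integralClosure ℤ ℂ)) (ℓ : ℕ) [Fact ℓ.Prime], 𝔐.IsMaximal →
    ∀ (ι : G →* B) (κ : B →* MulAut G) (ρ : B →* C),
    LocN ι κ ρ → ∀ (σ : Finset (Subgroup G)) (ω : G → (integralClosure ℤ ℂ) ⧸ 𝔐)
      (Ω : B → (integralClosure ℤ ℂ) ⧸ 𝔐) (d : ℕ), (∀ g x, ω (g * x * g⁻¹) = ω x) →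
    (∀ θ : G → ℂ, IrrOn (stb σ) θ → nC 𝔐 ℓ d ι κ σ Ω θ ≠ 0 →
      ∃ b ∈ YS ι σ, ∀ g, cg 𝔐 θ (κ b g) = ω g) →
      (Nat.card ((Sw κ σ ω).map ρ) : ℚ) * cnt 𝔐 ℓ d (YS ι σ).subtype Ω =
        ∑ θ ∈ irrOn (stb σ) with (∀ g, cg 𝔐 θ g = ω g),
          (Nat.card ((Stx κ σ θ).map ρ) : ℚ) * nC 𝔐 ℓ d ι κ σ Ω θ

/-- RCB_CEQ: corresponding characters contribute the same number.
Proof. `R = (Stx κ ∅ θ).map ρ`; `Stx κ ∅ θ = R.comap ρ` (`ι.range ≤ Stx κ ∅ θ`: `θ` is a class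
function). `locN_R h R`, `B₁ = ↥(R.comap ρ)`, `κ₁ = kR κ ρ R`. `HATG` for `(G, B₁, R)` and a prime `p`
which does not divide `|R|` (`Nat.exists_infinite_primes`; `Nat.card R` is finite and positive):
`B', C'`, `LocV ι' κ' ρ'`, `π : B' →* B₁`; `Cov` holds; `C'` is finite (`ρ'` is surjective).
`Stx κ₁ ∅ θ = ⊤`; `(Stx κ₁ {P₁} ψ).map (pR ρ R) = ⊤` (by `(Stx κ {P₁} ψ).map ρ = R`); `StX` for `κ₁`:
`ω (κ b g) = cg 𝔐 θ (κ b g) = cg 𝔐 (fun x => θ (κ b x)) g = cg 𝔐 θ g` for `b ∈ Stx κ ∅ θ`. `CLT`: `f`,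
`f₁`. `Stx κ' ∅ θ = ⊤` (`Stx_pi`), so `f` is irreducible on `B'`; `Stx κ₁ {P₁} ψ = YS (iR h R) {P₁}`
(see `CLQ`) and by `Stx_pi`, `YS_pi` `Stx κ' {P₁} ψ = YS ι' {P₁}`, so `IrrOn (YS ι' {P₁}) f₁`.
`DFX`: `df ℓ (stb ∅) θ = n = df ℓ (stb {P₁}) ψ`. `CN1` for `S = B₁`, `X = B`,
`i = (R.comap ρ).subtype`. Its left side is the left side here (`R.comap ρ = Stx κ ∅ θ`; the
isomorphism of the two types, `card_irr_equiv`; the multiplicity is the sum over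
`stb ∅ = ⊤`), its right side is the right side here: `Stx κ {P₁} ψ ≤ R.comap ρ` and
`YS (iR h R) {P₁}` is the inverse image of `Stx κ {P₁} ψ` in `R.comap ρ`
(`Subgroup.subgroupOfEquivOfLe`). -/
def Stmt_CEQ : Prop :=
  ∀ (G B C : Type) [Group G] [Fintype G] [Group B] [Fintype B] [Group C]
    (𝔐 : Ideal (integralClosure ℤ ℂ)) (ℓ n : ℕ) [Fact ℓ.Prime], 𝔐.IsMaximal →
    (ℓ : integralClosure ℤ ℂ) ∈ 𝔐 → ℓ ≠ 2 → ∀ (ι : G →* B) (κ : B →* MulAut G) (ρ : B →* C),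
    LocN ι κ ρ → ∀ (ω : G → (integralClosure ℤ ℂ) ⧸ 𝔐) (P₁ P : Subgroup G) (x₀ : G),
    AtX ℓ n ω P₁ P x₀ → (∃ θ : G → ℂ, IsIrr θ ∧ cen 𝔐 (MonoidHom.id G) θ = ω) →
    ∀ θ ∈ XS 𝔐 ω, ∀ ψ ∈ YL 𝔐 P₁ ω, (Stx κ ∅ θ).map ρ = (Stx κ {P₁} ψ).map ρ →
    (EB 𝔐 P₁ ω ∨ Mtc 𝔐 P₁ ω θ ψ) → ∀ (Ω : B → (integralClosure ℤ ℂ) ⧸ 𝔐) (d : ℕ),
      nC 𝔐 ℓ d ι κ ∅ Ω θ = nC 𝔐 ℓ d ι κ {P₁} Ω ψ

end Pool.Agent.RCB
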