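import Mathlib
import Pool.Agent.RCB.Defs
import Pool.Agent.RCB.DefsT
import Pool.Agent.RCB.St4
import Pool.Agent.RCB.St5

/-!
# Theorem P1: statements, block 6 (the prime 2)

`sn`, `TWn`, `TWc`, `Agr`, `LTPn`, `INNn` are in `DefsT.lean`. For the prime 2: `|P₁| = 2`, the
normalizer of `P₁` centralizes it (so `stb {P₁}` is the centralizer `C₀` of `P₁`), the inertial index
is `1`, the elements of `YL` and of `ZC` are the same functions. All statements of the earlier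
blocks and of `DPX/StmtsXA.lean` .. `StmtsXD.lean`, `DP`, `DPM/Stmts.lean` may be used as
hypotheses. `Fact (Nat.Prime 2)` is an instance (`Nat.fact_prime_two`).
-/

namespace Pool.Agent.RCB

open Pool.Agent.DP Pool.Agent.DPV Pool.Agent.DPB Pool.Agent.DPW Pool.Agent.DPX Pool.Agent.DPC
open Pool.Agent.Lib_helper13 Representation

/-! ### Vanishing (all primes) -/

/-- RCB_VZX: a character of the block vanishes at `g` if no power `g ^ i`, `i` prime to `ℓ`, is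
conjugate to an element of `P`.
Proof. `VALX` gives a valuation ring `O` with `VR ℓ 𝔐 O`, `RLZX` a homomorphism
`M : T →* Matrix (Fin d) (Fin d) O` affording `χ`. Let `Ω = T ⧸ P` and, for the coset `t P`,
`f (t P) = M (t * x₀ * t⁻¹)`, well defined since `P` centralizes `x₀` (`AtX.cd.cen`).
(1) `∑ ω, f ω = |C(x₀) : P| • ∑ y conjugate to x₀, M y` (fibres of `Ω → class of x₀`,
`t P ↦ t x₀ t⁻¹`, have `|C(x₀)| / |P|` elements) `= (|C(x₀) : P| * w) • 1`, where `w : O`,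
`(w : ℂ) = wt χ (conjInd (MonoidHom.id T · ) x₀)` (last part of `RLZX` for the indicator function of
the class). The residue of `w` is not `0` (`AtX.ne`: `cen χ x₀ = red 𝔐 (wt ..) ≠ 0`; the maximal ideal
of `O` meets the algebraic integers in `𝔐`, `VR`), and `|C(x₀) : P|` is prime to `ℓ`
(`AtX.cd.card`, `cd.sq`), so `u := |C(x₀) : P| * w` is a unit of `O`.
(2) `f (g ω) = M g * f ω * (M g)⁻¹`. If `g ^ i ω = ω` then `ℓ ∣ i` (hypothesis: `ω = t P`,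
`t⁻¹ g ^ i t ∈ P`). So there is `c : Ω → ZMod ℓ` with `c (g ω) = c ω + 1`: choose a representative
`ω₀` of every orbit of `zpowers g` and put `c (g ^ i ω₀) = i`.
(3) Let `ζ ∈ O` be a primitive `ℓ`-th root of unity of `ℂ` (in `O` because it is integral),
`β = ∑ ω, ζ ^ (-(c ω).val) • f ω` (write the exponent as `((-c ω : ZMod ℓ)).val`, `ζ ^ ℓ = 1`). Then
`M g * β * (M g)⁻¹ = ∑ ω, ζ ^ (-c ω) • f (g ω) = ζ • β` (substitute; `c (g⁻¹ ω) = c ω - 1`). In the residue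
field (characteristic `ℓ`) `ζ ^ ℓ = 1` gives `ζ = 1`, so the reduction of `β` is the reduction of
`∑ f ω = u • 1`, which is invertible; so `det β` is a unit, `β` is invertible.
(4) `M g * β = ζ • β * M g` gives `M g = ζ • β * M g * β⁻¹`, so `trace (M g) = ζ * trace (M g)` and
`χ g = 0` because `ζ ≠ 1`. -/
def Stmt_VZX : Prop :=
  ∀ (T : Type) [Group T] [Fintype T] (𝔐 : Ideal (integralClosure ℤ ℂ)) (ℓ n : ℕ)
    [Fact ℓ.Prime], 𝔐.IsMaximal → (ℓ : integralClosure ℤ ℂ) ∈ 𝔐 → ∀ χ : T → ℂ, IsIrr χ →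
    ∀ (P₁ P : Subgroup T) (x₀ : T), AtX ℓ n (cen 𝔐 (MonoidHom.id T) χ) P₁ P x₀ →
    ∀ g : T, (∀ (t : T) (i : ℤ), t * g ^ i * t⁻¹ ∈ P → (ℓ : ℤ) ∣ i) → χ g = 0

/-- RCB_VZC: consequences of `VZX`.
Proof. Let `t * g ^ i * t⁻¹ ∈ P` and suppose `ℓ` does not divide `i`. (1) `orderOf (g ^ i)` is
`orderOf g / gcd (orderOf g, i)`, still divisible by `ℓ ^ (n + 1)`; but it divides `|P| = ℓ ^ n`:
contradiction. (2) `ℓ ∣ orderOf (g ^ i)`, so `p = t * g ^ i * t⁻¹ ≠ 1` is in `P` and `P₁ ≤ zpowers p`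
(`GCX`, second part; `HGTX.le_zpowers`), hence `t⁻¹ P₁ t ≤ zpowers g`: contradiction. -/
def Stmt_VZC : Prop :=
  ∀ (T : Type) [Group T] [Fintype T] (𝔐 : Ideal (integralClosure ℤ ℂ)) (ℓ n : ℕ)
    [Fact ℓ.Prime], 𝔐.IsMaximal → (ℓ : integralClosure ℤ ℂ) ∈ 𝔐 → ∀ χ : T → ℂ, IsIrr χ →
    ∀ (P₁ P : Subgroup T) (x₀ : T), AtX ℓ n (cen 𝔐 (MonoidHom.id T) χ) P₁ P x₀ →
    (∀ g : T, ℓ ^ (n + 1) ∣ orderOf g → χ g = 0) ∧
    ∀ g : T, ℓ ∣ orderOf g →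
      (∀ t : T, ¬ P₁.map (MulAut.conj t).toMonoidHom ≤ Subgroup.zpowers g) → χ g = 0

open Classical in
/-- RCB_CZO: the columns (all primes).
Proof. As the last claim of `RON` (`RON.lean`, the case `g = 1`). Let `δ = φ - φ'`. By `OUT` the
characters outside of the block contribute `0` if the sum is taken over `irrF T`; by `AIN` (1) it is
`∑ χ ∈ irrF T, ip (χ|C) δ * χ g = |C|⁻¹ * ∑ c, δ c⁻¹ * ∑ χ, χ c * χ g`. By the second orthogonality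
relation (as in `TIS`) `∑ χ, χ c * χ g = 0` unless `c` is conjugate to `g⁻¹`. If `δ c⁻¹ ≠ 0` then
`P₁ ≤ zpowers c` (`AIN` (3), `zpowers c⁻¹ = zpowers c`), and if moreover `c = t * g⁻¹ * t⁻¹` then a
conjugate of `P₁` is contained in `zpowers g`, which is excluded. -/
def Stmt_CZO : Prop :=
  ∀ (T : Type) [Group T] [Fintype T] (𝔐 : Ideal (integralClosure ℤ ℂ)) (ℓ n : ℕ)
    [Fact ℓ.Prime], 𝔐.IsMaximal → (ℓ : integralClosure ℤ ℂ) ∈ 𝔐 →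
    ∀ (χ₀ : T → ℂ) (P₁ P : Subgroup T) (x₀ : T) [Fintype (NP P₁)] (C : Subgroup (NP P₁))
      [C.Normal] (ψ₀ : NP P₁ → ℂ) (φ₀ : C → ℂ), Cf 𝔐 ℓ n χ₀ P₁ P x₀ C ψ₀ φ₀ →
    ∀ φ ∈ II 𝔐 φ₀, ∀ φ' ∈ II 𝔐 φ₀, ∀ g : T,
    (∀ t : T, ¬ P₁.map (MulAut.conj t).toMonoidHom ≤ Subgroup.zpowers g) →
      ∑ χ ∈ irrF T with cen 𝔐 (MonoidHom.id T) χ = cen 𝔐 (MonoidHom.id T) χ₀,
        ((ai C χ φ - ai C χ φ' : ℤ) : ℂ) * χ g = 0

/-- RCB_SBL: characters which agree on the elements of order prime to `ℓ` are in the same block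
(all primes).
Proof. Let `BIdm 𝔐 χ a` (`BSA`). Put `a' x = a x` if `¬ ℓ ∣ orderOf x` and `0` otherwise. By `BSB` the
class function `a - a'` has values in `𝔐` (if `a x ∉ 𝔐` then `BSup 𝔐 χ x`), so
`red (wt θ a) = red (wt θ a')` for every irreducible `θ` (expand in class indicators; as in
`IDG.lean`). `wt χ a' = wt χ' a'` since the values agree (also at `1`). So
`red (wt χ' a) = red (wt χ a) = 1 ≠ 0` and by `BIdm.off` the central functions agree. -/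
def Stmt_SBL : Prop :=
  ∀ (T : Type) [Group T] [Fintype T] (𝔐 : Ideal (integralClosure ℤ ℂ)) (ℓ : ℕ)
    [Fact ℓ.Prime], 𝔐.IsMaximal → (ℓ : integralClosure ℤ ℂ) ∈ 𝔐 → ∀ χ χ' : T → ℂ, IsIrr χ →
    IsIrr χ' → (∀ g, ¬ ℓ ∣ orderOf g → χ g = χ' g) →
    cen 𝔐 (MonoidHom.id T) χ = cen 𝔐 (MonoidHom.id T) χ'

/-! ### The multiplicities, prime 2 -/

/-- RCB_TMT: the multiplicities, with one sign for all characters of the block.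
Proof. `ORC`: `0 < n`, the index `e = C.relIndex (bS 𝔐 C φ₀)` divides `1`, so `e = 1`,
`bS 𝔐 C φ₀ = C`; so `Cjg 𝔐 C φ₀ φ φ' ↔ φ' = φ` (elements of `C` fix the characters of `C`);
`|II| = 2 ^ n`. Let `X` be the set of the characters of the block.
(n ≥ 2) `MTD` applies (`e + 1 = 2 < 2 ^ n`): every `χ ∈ X` has exactly one `φ ∈ II` with
`MtA 𝔐 C φ₀ χ φ`, call it `Ψ χ`; for every `φ` there is exactly one `χ ∈ X` with `MtA χ φ` (first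
alternative, all `φ` are invariant under `bS = C`). So `Ψ` is bijective, and
`ai C χ φ = a_χ + (if φ = Ψ χ then b_χ else 0)`, `b_χ = ± 1`. For `χ ≠ χ'` in `X` `CZO` with `Ψ χ`,
`Ψ χ'` gives `b_χ * χ g - b_χ' * χ' g = 0`; for `g = 1` (`zpowers 1 = ⊥`) the degrees are positive,
so `b_χ = b_χ'` and then `χ g = χ' g`.
(n = 1) `II = {φ, φ'}`, `|X| = 2` (`TOT`: `r = 1`, `e + r = 2`). `v χ = ai C χ φ - ai C χ φ'` is not `0`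
(`ROW`) and `∑ v χ ^ 2 = e + 1 = 2` by `GRM` with the `φ₁` of `ORC` (it is `φ` or `φ'`; both values
are equal up to sign), so `v χ = ± 1`. `CZO` for `g = 1`: `∑ v χ * χ 1 = 0`, so the two signs are
different and the degrees are equal; `CZO` for `g`: `χ g = χ' g`. Put `b = 1`, `Ψ χ = φ` if
`v χ = 1` and `Ψ χ = φ'` if `v χ = -1`. -/
def Stmt_TMT : Prop :=
  ∀ (T : Type) [Group T] [Fintype T] (𝔐 : Ideal (integralClosure ℤ ℂ)) (n : ℕ),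
    𝔐.IsMaximal → ((2 : ℕ) : integralClosure ℤ ℂ) ∈ 𝔐 →
    ∀ (χ₀ : T → ℂ) (P₁ P : Subgroup T) (x₀ : T) [Fintype (NP P₁)] (C : Subgroup (NP P₁))
      [C.Normal] (ψ₀ : NP P₁ → ℂ) (φ₀ : C → ℂ), Cf 𝔐 2 n χ₀ P₁ P x₀ C ψ₀ φ₀ →
    0 < n ∧ Nat.card (II 𝔐 φ₀) = 2 ^ n ∧
    ∃ (b : ℤ) (Ψ : (T → ℂ) → (C → ℂ)), (b = 1 ∨ b = -1) ∧
      Set.BijOn Ψ {χ | IsIrr χ ∧ cen 𝔐 (MonoidHom.id T) χ = cen 𝔐 (MonoidHom.id T) χ₀}
        (II 𝔐 φ₀) ∧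
      (∀ χ : T → ℂ, IsIrr χ → cen 𝔐 (MonoidHom.id T) χ = cen 𝔐 (MonoidHom.id T) χ₀ →
        ∃ a : ℤ, (∀ φ ∈ II 𝔐 φ₀, φ ≠ Ψ χ → ai C χ φ = a) ∧ ai C χ (Ψ χ) = a + b) ∧
      ∀ χ χ' : T → ℂ, IsIrr χ → cen 𝔐 (MonoidHom.id T) χ = cen 𝔐 (MonoidHom.id T) χ₀ →
        IsIrr χ' → cen 𝔐 (MonoidHom.id T) χ' = cen 𝔐 (MonoidHom.id T) χ₀ → ∀ g : T,
        (∀ t : T, ¬ P₁.map (MulAut.conj t).toMonoidHom ≤ Subgroup.zpowers g) → χ g = χ' g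

/-- RCB_GM2: the bijection on the level of functions on `G`.
Proof. `s ∈ stb {P₁}` maps the generator `z` of `P₁` to a generator of `P₁`, i.e. to `z`, so it
centralizes `P₁` and `EB` is false. Choose a configuration `Cf` with `χ₀ = θ` (as in `DIC.lean`:
`ψ₀` with `cen sub ψ₀ = ω`, `φ₀` a constituent of the restriction to `C`); `C` is the whole group
`NP P₁`. Dictionary `TRM`: `XS` are the characters of the block, `YL` the functions `z' ψ`, `ψ`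
irreducible, `cen sub ψ = ω`; by `LCC` (1), (2) these are the `ψ` whose restriction to `C` is in `II`
(`C` is everything, so the restriction is irreducible and a constituent is the restriction
itself). So `ψ ↦ ψ|C` is a bijection from the `ψ` to `II`, `ZC = YL`, and
`mu C₀ (z' ψ) (z φ) ≠ 0 ↔ φ = ψ|C`. Third claim: `AIN` (3) for `g ∈ C₀` (both sides are `0` for
`g ∉ C₀`). Let `Ψ`, `b` be as in `TMT`, `Φ χ = z (Ψ χ)` (an element of `YL`): `BijOn`. The values: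
`mu C₀ χ φ = a + (if mu C₀ (Φ χ) φ ≠ 0 then b else 0)` for `φ ∈ ZC` (`TMT`, `AIN` (1)), so `VAL` gives
`χ g = b * Φ χ g` if `P₁ ≤ zpowers g`. The last claim is the last claim of `TMT`. -/
def Stmt_GM2 : Prop :=
  ∀ (G : Type) [Group G] [Fintype G] (𝔐 : Ideal (integralClosure ℤ ℂ)) (n : ℕ),
    𝔐.IsMaximal → ((2 : ℕ) : integralClosure ℤ ℂ) ∈ 𝔐 →
    ∀ (ω : G → (integralClosure ℤ ℂ) ⧸ 𝔐) (P₁ P : Subgroup G) (x₀ : G), AtX 2 n ω P₁ P x₀ →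
    (∃ θ : G → ℂ, IsIrr θ ∧ cen 𝔐 (MonoidHom.id G) θ = ω) →
    0 < n ∧ ¬ EB 𝔐 P₁ ω ∧
    (∀ ψ ∈ YL 𝔐 P₁ ω, ∀ ψ' ∈ YL 𝔐 P₁ ω, ∀ g, ¬ P₁ ≤ Subgroup.zpowers g → ψ g = ψ' g) ∧
    ∃ (b : ℤ) (Φ : (G → ℂ) → (G → ℂ)), (b = 1 ∨ b = -1) ∧
      Set.BijOn Φ (XS 𝔐 ω) (YL 𝔐 P₁ ω) ∧
      (∀ χ ∈ XS 𝔐 ω, ∀ g, P₁ ≤ Subgroup.zpowers g → χ g = b * Φ χ g) ∧
      ∀ χ ∈ XS 𝔐 ω, ∀ χ' ∈ XS 𝔐 ω, ∀ g,
        (∀ t : G, ¬ P₁.map (MulAut.conj t).toMonoidHom ≤ Subgroup.zpowers g) → χ g = χ' g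

/-! ### The twist by the character of order two -/

/-- RCB_TW1: defect groups of order 2.
Proof. Choose a configuration `Cf` for `χ` (as in `DIC.lean`). By `TMT` the block has `|II| = 2`
characters, `χ` and `χ'`. Claim `sn 1 χ = χ'`. Let `g : T`. If `2` does not divide `orderOf g` then
no conjugate of `P₁` (order 2) is contained in `zpowers g`, and `χ' g = χ g` by `TMT`; `g = 1`
gives the equality of the degrees. If `2 ∣ orderOf g`: `OSIX` gives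
`χ 1 * χ g + χ' 1 * χ' g = 0`, so `χ' g = - χ g`. -/
def Stmt_TW1 : Prop := TWn 1

/-- RCB_TWA: the character is not trivial on the central subgroup `P₁`.
Proof. `P₁ = {1, z}`, `z` central, `z ^ 2 = 1`: `χ (z * g) = (χ z / χ 1) * χ g` and
`(χ z / χ 1) ^ 2 = 1` (`z` acts by a scalar), so `χ (z * g) = - χ g`. Let `|T| = 2 ^ a * m`, `m` odd,
`A = max a (n + 2)`, and choose `k > 0` with `k ≡ 1` modulo `m`, `k ≡ 1 + 2 ^ n` modulo `2 ^ A`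
(`Nat.chineseRemainder`); `k` is odd (`n ≥ 1`) and prime to `|T|`. By `GAU` (`DPM/GAU.lean`, with
`n := |T|`; a divisor of `|T|` not divisible by 2 divides `m`) there is `σ : ℂ ≃+* ℂ` with
`σ ζ = ζ ^ k` for `ζ ^ |T| = 1`, so `σ (χ g) = χ (g ^ k)` (eigenvalues), and `σ ∘ χ` is irreducible
(`Dade90.isIrr_sig`, `Dade90/Twist.lean`). Claim: `χ (g ^ k) = sn (n + 1) χ g` for all `g`.
(a) `orderOf g` odd: it divides `m`, `g ^ k = g`. (b) `2 ∣ orderOf g`, `P₁` not contained in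
`zpowers g`: `zpowers (g ^ k) = zpowers g`, `P₁` is its only conjugate; by `VZC` (2) both `χ g` and
`χ (g ^ k)` are `0`. (c) `2 ^ (n + 2) ∣ orderOf g`: the same with `VZC` (1) (for `n + 1`).
(d) `P₁ ≤ zpowers g`, `orderOf g = 2 ^ j * r`, `r` odd, `1 ≤ j ≤ n + 1`: `r ∣ m ∣ k - 1` and
`k - 1 ≡ 2 ^ n` modulo `2 ^ (n + 1)`. If `j ≤ n` then `orderOf g ∣ k - 1` and `g ^ k = g`. If
`j = n + 1` then `g ^ (k - 1)` has order `2` (its square is `1`, and `orderOf g` does not divide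
`k - 1`), so it is `z`, the only element of order 2 of `zpowers g`, and
`χ (g ^ k) = χ (z * g) = - χ g`. The block: `SBL` (the characters agree at the elements of odd
order). -/
def Stmt_TWA : Prop :=
  ∀ (n : ℕ), 0 < n → ∀ (T : Type) [Group T] [Fintype T] (𝔐 : Ideal (integralClosure ℤ ℂ)),
    𝔐.IsMaximal → ((2 : ℕ) : integralClosure ℤ ℂ) ∈ 𝔐 → ∀ χ : T → ℂ, IsIrr χ →
    ∀ (P₁ P : Subgroup T) (x₀ : T), P₁ ≤ Subgroup.center T →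
    AtX 2 (n + 1) (cen 𝔐 (MonoidHom.id T) χ) P₁ P x₀ → (∃ u ∈ P₁, χ u ≠ χ 1) →
    IsIrr (sn (n + 1) χ) ∧
      cen 𝔐 (MonoidHom.id T) (sn (n + 1) χ) = cen 𝔐 (MonoidHom.id T) χ

/-- RCB_QAT: the block of the quotient (all primes).
Proof. `χ = χ' ∘ π` is irreducible. `IDX` for `χ` (`F = (integralClosure ℤ ℂ) ⧸ 𝔐`, `r` the quotient
map) gives the idempotent `e` with `BKX ℓ (n + 1) P₁ P x₀ e`, `Prm e`. `QUAX`:
`|C(x₀)| = ℓ * |C(π x₀)|`; `QUOX`: `P₂` with `CycD ℓ n P₂ (P.map π) (π x₀)` (`BKX.cd`). `ne`: with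
`DF1.mul_w` (`|C(x)| * w = |T| * χ x / χ 1` for `w = wt χ (conjInd (MonoidHom.id T · ) x)`) in `T` and
in `S` the weights of `χ` at `x₀` and of `χ'` at `π x₀` are equal (`|T| = ℓ * |S|`), so
`cen χ' (π x₀) = cen χ x₀ ≠ 0`. `mn`: let `cen χ' y ≠ 0`. `HGTX` for `χ`:
`|T| = ℓ ^ (n + 1) * m * χ 1`, `¬ ℓ ∣ m`, so `|S| = ℓ ^ n * m * χ' 1` and
`|C(y)| * w = ℓ ^ n * m * χ' y`. If `ℓ ^ n` does not divide `|C(y)| = ℓ ^ i * c`, `i < n`, `¬ ℓ ∣ c`, then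
`c * w = ℓ ^ (n - i) * m * χ' y`, so `red w = 0`: contradiction. -/
def Stmt_QAT : Prop :=
  ∀ (T S : Type) [Group T] [Fintype T] [Group S] [Fintype S]
    (𝔐 : Ideal (integralClosure ℤ ℂ)) (ℓ n : ℕ) [Fact ℓ.Prime], 𝔐.IsMaximal →
    (ℓ : integralClosure ℤ ℂ) ∈ 𝔐 → 0 < n → ∀ (π : T →* S) (P₁ P : Subgroup T) (x₀ : T),
    Function.Surjective π → π.ker = P₁ → P₁ ≤ Subgroup.center T → ∀ χ' : S → ℂ, IsIrr χ' →
    AtX ℓ (n + 1) (cen 𝔐 (MonoidHom.id T) (fun g => χ' (π g))) P₁ P x₀ →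
    ∃ (P₂ P' : Subgroup S) (x' : S), AtX ℓ n (cen 𝔐 (MonoidHom.id S) χ') P₂ P' x'

/-- RCB_TWB: the character is trivial on the central subgroup `P₁`.
Proof. `S = T ⧸ P₁` (`P₁` is normal since it is central), `π` the projection; `P₁` acts trivially
in a representation affording `χ` (`χ u = χ 1`), so `χ = χ' ∘ π` with `χ'` irreducible. `QAT`, then
`TWn n`: `sn n χ'` is irreducible. Claim: `sn (n + 1) χ = (sn n χ') ∘ π`. Let `g : T`. If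
`P₁ ≤ zpowers g` then `orderOf g = 2 * orderOf (π g)` (the kernel of `π` on `zpowers g` is `P₁`), so
`2 ^ (n + 1) ∣ orderOf g ↔ 2 ^ n ∣ orderOf (π g)`. Otherwise `P₁ ⊓ zpowers g = ⊥`,
`orderOf (π g) = orderOf g`; if `2 ∣ orderOf g` then `χ g = 0` (`VZC` (2), `P₁` is its only
conjugate) and both sides are `0`; if not, none of the two divisibilities holds (`n > 0`). The
block: `SBL`. -/
def Stmt_TWB : Prop :=
  ∀ (n : ℕ), 0 < n → TWn n → ∀ (T : Type) [Group T] [Fintype T]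
    (𝔐 : Ideal (integralClosure ℤ ℂ)), 𝔐.IsMaximal →
    ((2 : ℕ) : integralClosure ℤ ℂ) ∈ 𝔐 → ∀ χ : T → ℂ, IsIrr χ →
    ∀ (P₁ P : Subgroup T) (x₀ : T), P₁ ≤ Subgroup.center T →
    AtX 2 (n + 1) (cen 𝔐 (MonoidHom.id T) χ) P₁ P x₀ → (∀ u ∈ P₁, χ u = χ 1) →
    IsIrr (sn (n + 1) χ) ∧
      cen 𝔐 (MonoidHom.id T) (sn (n + 1) χ) = cen 𝔐 (MonoidHom.id T) χ

/-- RCB_TWY: the local characters.
Proof. With the dictionary `TRM` (or the lemmas `ext0_..` of `VAL.lean`): `ψ = z' ψ₀`, `ψ₀` irreducible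
on `NP P₁`, `cen sub ψ₀ = ω = cen θ`. `ATNX` (`x₀` centralizes `P₁`) gives `AtX 2 n` for
`cen (MonoidHom.id _) ψ₀` with `P₁.subgroupOf _`, which is central in `NP P₁` (order 2 and normal).
`TWc n`: `sn n ψ₀` is irreducible with the same central function, and the last part of `ATNX` gives
`cen sub (sn n ψ₀) = ω`. `z' (sn n ψ₀) = sn n (z' ψ₀)` (`orderOf` of an element of a subgroup; outside of
`stb {P₁}` both are `0`). -/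
def Stmt_TWY : Prop :=
  ∀ (n : ℕ), TWc n → ∀ (G : Type) [Group G] [Fintype G] (𝔐 : Ideal (integralClosure ℤ ℂ)),
    𝔐.IsMaximal → ((2 : ℕ) : integralClosure ℤ ℂ) ∈ 𝔐 →
    ∀ (ω : G → (integralClosure ℤ ℂ) ⧸ 𝔐) (P₁ P : Subgroup G) (x₀ : G), AtX 2 n ω P₁ P x₀ →
    (∃ θ : G → ℂ, IsIrr θ ∧ cen 𝔐 (MonoidHom.id G) θ = ω) →
    ∀ ψ ∈ YL 𝔐 P₁ ω, sn n ψ ∈ YL 𝔐 P₁ ω

/-- RCB_TWG: from the normalizer to the group.
Proof. `GM2`: `b`, `Φ`. Let `χ ∈ XS`, `ψ = Φ χ`, `sn n ψ ∈ YL` by hypothesis, so `sn n ψ = Φ χ'` with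
`χ' ∈ XS`. Claim: `χ' = sn n χ`. Let `g : G`. Both sides are class functions. If a conjugate of `P₁` is
contained in `zpowers g`, we may assume `P₁ ≤ zpowers g`; then `χ' g = b * sn n ψ g` and
`χ g = b * ψ g`. Otherwise `χ' g = χ g` (`GM2`); if `2 ∣ orderOf g` this value is `0` (`VZC` (2)), and if
not then `2 ^ n` does not divide `orderOf g` (`n > 0`). -/
def Stmt_TWG : Prop :=
  ∀ (G : Type) [Group G] [Fintype G] (𝔐 : Ideal (integralClosure ℤ ℂ)) (n : ℕ),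
    𝔐.IsMaximal → ((2 : ℕ) : integralClosure ℤ ℂ) ∈ 𝔐 →
    ∀ (ω : G → (integralClosure ℤ ℂ) ⧸ 𝔐) (P₁ P : Subgroup G) (x₀ : G), AtX 2 n ω P₁ P x₀ →
    (∃ θ : G → ℂ, IsIrr θ ∧ cen 𝔐 (MonoidHom.id G) θ = ω) →
    (∀ ψ ∈ YL 𝔐 P₁ ω, sn n ψ ∈ YL 𝔐 P₁ ω) → ∀ χ ∈ XS 𝔐 ω, sn n χ ∈ XS 𝔐 ω

/-- RCB_TWX: all blocks with cyclic defect groups of order `2 ^ n`.
Proof. `TWn 1` is `TW1`. If `0 < n` and `TWn n` then `TWc (n + 1)` by `TWA` and `TWB`, so for all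
`G` the sets `YL` (`TWY`) and `XS` (`TWG`) are closed under `sn (n + 1)`, which is `TWn (n + 1)` (`XS`
for `ω = cen χ` is the set of the irreducible characters of the block: `stb ∅ = ⊤`). Induction
gives `TWn n` for all `n > 0` (`0 < n` by `DXMX`), and `TWn n` implies `TWc n`; again `TWY`,
`TWG`. -/
def Stmt_TWX : Prop :=
  (∀ n : ℕ, 0 < n → TWn n) ∧
  ∀ (G : Type) [Group G] [Fintype G] (𝔐 : Ideal (integralClosure ℤ ℂ)) (n : ℕ),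
    𝔐.IsMaximal → ((2 : ℕ) : integralClosure ℤ ℂ) ∈ 𝔐 →
    ∀ (ω : G → (integralClosure ℤ ℂ) ⧸ 𝔐) (P₁ P : Subgroup G) (x₀ : G), AtX 2 n ω P₁ P x₀ →
    (∃ θ : G → ℂ, IsIrr θ ∧ cen 𝔐 (MonoidHom.id G) θ = ω) →
    (∀ ψ ∈ YL 𝔐 P₁ ω, sn n ψ ∈ YL 𝔐 P₁ ω) ∧ ∀ χ ∈ XS 𝔐 ω, sn n χ ∈ XS 𝔐 ω

/-! ### Classes, prime 2 -/

/-- RCB_SE2: the selection lemma for the prime 2.
Proof. If `f lam ≠ 0` and `g lam ≠ 0` for some `lam` then `u = cl lam = v`. Otherwise let `S` be the set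
of the `lam` with `f lam ≠ 0` and `S'` the set with `g lam ≠ 0`: disjoint and not empty. For `lam ∈ S`:
`g lam = 0`, so `f lam = c`, `c ≠ 0`; if `g lam = 0` then `f lam = c ≠ 0`. So `Λ` is the disjoint union
of `S` and `S'` and `∑ f = |S| * c ≠ 0`, so `|S|` is odd (characteristic 2). Let `u ≠ v`. Then
`S = cl⁻¹(u)`, `S' = cl⁻¹(v)`, both are cosets of the kernel, `|S| = |S'|`, `|Λ| = 2 * |S|` is a power
of 2 and `|S|` is odd, so `|S| = 1`, `|Λ| = 2`, `Λ = {1, l₀}`, and the element of `S` is `l₀` times the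
element of `S'`: `u = cl l₀ * v`. -/
def Stmt_SE2 : Prop :=
  ∀ (Λ F Q : Type) [CommGroup Λ] [Fintype Λ] [Field F] [CharP F 2] [CommGroup Q] (l₀ : Λ)
    (f g : Λ → F) (c e : F) (cl : Λ →* Q) (u v : Q), (∃ k, Nat.card Λ = 2 ^ k) → l₀ ≠ 1 →
    (∀ lam, f lam = e * g lam + c) → ∑ lam, f lam ≠ 0 → ∑ lam, g lam ≠ 0 →
    (∀ lam, f lam ≠ 0 → cl lam = u) → (∀ lam, g lam ≠ 0 → cl lam = v) →
      u = v ∨ u = cl l₀ * v

/-- RCB_CL2: the classes of the invariant linear characters, prime 2.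
Proof. As `CLA` (`CLA.lean`); `Λ₀` is a subgroup of the group of the linear characters, whose order is
`|P| = 2 ^ n`. `l₀`: let `p` generate `P`, `l₀ (p ^ i) = (-1) ^ i` (well defined since `2 ∣ orderOf p`;
`n > 0`); `l₀ u = -1` iff `i` is odd iff `p ^ i` generates `P` iff `2 ^ n ∣ orderOf u`. Automorphisms
preserve the order, so `l₀ ∈ Λ₀`. -/
def Stmt_CL2 : Prop :=
  ∀ (P D K : Type) [Group P] [Fintype P] [Group D] [Fintype D] [Group K] (n : ℕ), 0 < n →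
    ∀ (jD : P →* D) (cD : D →* MulAut P) (pD : D →* K), ClG jD cD pD →
    Function.Surjective pD → IsCyclic P → Nat.card P = 2 ^ n →
    ∃ (Λ₀ : Subgroup (P →* ℂˣ)) (cl : Λ₀ →* (K → K → ℂˣ) ⧸ cob K) (l₀ : Λ₀),
      (∃ k, Nat.card Λ₀ = 2 ^ k) ∧ l₀ ≠ 1 ∧
      (∀ u : P, (((l₀ : P →* ℂˣ) u : ℂˣ) : ℂ) = if 2 ^ n ∣ orderOf u then -1 else 1) ∧
      (∀ lam : P →* ℂˣ, lam ∈ Λ₀ ↔ ∀ d u, lam (cD d u) = lam u) ∧
      ∀ lam : Λ₀, ∃ b, FS jD pD (fun u => (((lam : P →* ℂˣ) u : ℂˣ) : ℂ)) b ∧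
        cl lam = QuotientGroup.mk b

/-- RCB_C4T: the classes over a 2-group (C4.2 of PAPER.md for the prime 2).
Proof. Copy `C4B.lean`, with `CL2`, `SE2` in the place of `CLA`, `SEL` and the hypothesis
`χ g = b * ψ g` in the place of `VAL`. Notation as there: `x, D, i, h, i₁, h₁, x₁`,
`F lam = fL i χ x lam`, `G lam = fL i₁ (ψ|stb {P₁}) x₁ lam`. New: `P` is cyclic of order `2 ^ n`
(`AtX.cd`), `0 < n` (`|P₁| = 2` divides `|P|`). For `u ∈ P`: `orderOf (u * x)` is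
`orderOf u * orderOf x`, `orderOf x` odd, so `2 ^ n ∣ orderOf (u * x) ↔ 2 ^ n ∣ orderOf u`, and
`sn n χ (u * x) = l₀ u * χ (u * x)`, so `fL i (sn n χ) x lam = F (lam * l₀⁻¹)`, the same for `sn n ψ`, `G`.
By `MLX` (for `χ`, `ψ`): for `lam ∈ Λ₀`: `red (F lam) ≠ 0` implies `mk a = cl lam`, `red (G lam) ≠ 0`
implies `mk a₁ = cl lam`. `∑ lam ∈ Λ₀, red (F lam) = red (χ x) ≠ 0`, `∑ red (G lam) = red (ψ x) ≠ 0`
(as in `C4B`). Choose `lam₁ ∈ Λ₀` with `red (F lam₁) ≠ 0`; then `red (fL i (sn n χ) x (lam₁ * l₀)) ≠ 0`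
and `MLX` for `sn n χ` (irreducible since it is in `XS`) gives
`mk a' = cl (lam₁ * l₀) = mk a * cl l₀`; in the same way `mk a₁' = mk a₁ * cl l₀`. This is the first
claim. `SE2` with `f = red ∘ F`, `g = red ∘ G`, `u = mk a`, `v = mk a₁`: `mk a = mk a₁` or
`mk a = cl l₀ * mk a₁ = mk a₁'`. -/
def Stmt_C4T : Prop :=
  ∀ (G B C : Type) [Group G] [Fintype G] [Group B] [Fintype B] [Group C]
    (𝔐 : Ideal (integralClosure ℤ ℂ)) (n : ℕ), 𝔐.IsMaximal →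
    ((2 : ℕ) : integralClosure ℤ ℂ) ∈ 𝔐 → ∀ (ι : G →* B) (κ : B →* MulAut G) (ρ : B →* C),
    LocN ι κ ρ → (∃ m, Nat.card C = 2 ^ m) →
    ∀ (ω : G → (integralClosure ℤ ℂ) ⧸ 𝔐) (P₁ P : Subgroup G) (x₀ : G),
    StX 𝔐 2 n κ ω P₁ P x₀ → ∀ χ ∈ XS 𝔐 ω, ∀ ψ ∈ YL 𝔐 P₁ ω, (Stx κ ∅ χ).map ρ = ⊤ →
    (Stx κ {P₁} ψ).map ρ = ⊤ → sn n χ ∈ XS 𝔐 ω → sn n ψ ∈ YL 𝔐 P₁ ω → ∀ b : ℤ,
    (b = 1 ∨ b = -1) → (∀ g, P₁ ≤ Subgroup.zpowers g → χ g = b * ψ g) →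
    ∀ (j : ↥(stb {P₁}) →* ↥(YS ι {P₁})), (∀ g, (j g : B) = ι g) →
    ∀ a a₁ a' a₁', FS ι ρ χ a →
      FS j (ρ.comp (YS ι {P₁}).subtype) (fun g : stb {P₁} => ψ g) a₁ →
      FS ι ρ (sn n χ) a' →
      FS j (ρ.comp (YS ι {P₁}).subtype) (fun g : stb {P₁} => sn n ψ g) a₁' →
      (a' * a⁻¹) * (a₁' * a₁⁻¹)⁻¹ ∈ cob C ∧ (a * a₁⁻¹ ∈ cob C ∨ a * a₁'⁻¹ ∈ cob C)

/-- RCB_AGM: transport of the agreement of classes (all primes).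
Proof. `m` restricts to `m' : ↥(Q₂.comap ρ₂) →* ↥(Q.comap ρ)`, `m' (iR h₂ Q₂ g) = iR h Q (s g)`,
`pR ρ Q (m' y) = mC (pR ρ₂ Q₂ y)` (as elements of `Q`). Let `j, a, a₁` be given for `Q₂`. By `FSE` there is
`α` with `FS (iR h Q) (pR ρ Q) χ α` (`χ` is invariant under `Q.comap ρ`: for `ρ b ∈ Q` there is
`b' ∈ Stx κ ∅ χ` with `ρ b' = ρ b`, and inner automorphisms fix `χ`). If `(n, R, T)` is as in the
definition of `FS` then `(n, R ∘ s, T ∘ m')` shows `FS (iR h₂ Q₂) (pR ρ₂ Q₂) χ (α ∘ mC)` (`χ ∘ s = χ`), so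
`a * (α ∘ mC)⁻¹ ∈ cob Q₂` (`FSU`). For `ψ`: `y ∈ YS (iR h₂ Q₂) {P₁}` implies `m' y ∈ YS (iR h Q) {P₁}`
(`P₁.map s = P₁`), `s` restricts to `stb {P₁}`; let `j'` be the embedding of `stb {P₁}` in
`YS (iR h Q) {P₁}` (`jS`), `clG_S`; the projection `YS (iR h Q) {P₁} → Q` is surjective
(`Q ≤ (Stx κ {P₁} ψ).map ρ`) and `ψ` is invariant under `YS (iR h Q) {P₁}` (if `y` normalizes `P₁`
and `ρ y = ρ b'`, `b' ∈ Stx κ {P₁} ψ`, then `y = ι g * b'` with `g ∈ stb {P₁}`, `mem_YS_iff`), so `FSE`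
gives `α₁`, and as before `a₁ * (α₁ ∘ mC)⁻¹ ∈ cob Q₂` (`FSU`; the projection of
`YS (iR h₂ Q₂) {P₁}` is surjective by hypothesis). `Agr h P₁ χ ψ Q` gives `α * α₁⁻¹ ∈ cob Q`, hence
`(α ∘ mC) * (α₁ ∘ mC)⁻¹ ∈ cob Q₂`. -/
def Stmt_AGM : Prop :=
  ∀ (G B C B₂ C₂ : Type) [Group G] [Fintype G] [Group B] [Fintype B] [Group C]
    [Group B₂] [Fintype B₂] [Group C₂] (ι : G →* B) (κ : B →* MulAut G) (ρ : B →* C)
    (ι₂ : G →* B₂) (κ₂ : B₂ →* MulAut G) (ρ₂ : B₂ →* C₂) (h : LocN ι κ ρ)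
    (h₂ : LocN ι₂ κ₂ ρ₂) (P₁ : Subgroup G) (χ ψ : G → ℂ), IsIrr χ → IrrOn (stb {P₁}) ψ →
    ∀ (s : MulAut G) (m : B₂ →* B) (mC : C₂ →* C), (∀ g, m (ι₂ g) = ι (s g)) →
    (∀ y, ρ (m y) = mC (ρ₂ y)) → P₁.map s.toMonoidHom = P₁ → (∀ g, χ (s g) = χ g) →
    (∀ g, ψ (s g) = ψ g) → ∀ (Q₂ : Subgroup C₂) (Q : Subgroup C), Q₂.map mC ≤ Q →
    Q ≤ (Stx κ ∅ χ).map ρ → Q ≤ (Stx κ {P₁} ψ).map ρ →
    (∀ c ∈ Q₂, ∃ y ∈ YS ι₂ {P₁}, ρ₂ y = c) → Agr h P₁ χ ψ Q → Agr h₂ P₁ χ ψ Q₂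

/-- RCB_AG2: the classes over all 2-subgroups.
Proof. `C` is finite (`ρ` is surjective). For a 2-subgroup `Q` of `C` the data `locN_R h Q`
(`B₁ = ↥(Q.comap ρ)`, `C₁ = ↥Q`) satisfy the hypotheses of `C4T` (`Stx_R`; `χ`, `ψ` are invariant). Call
this `C4T(Q)`. Second claim: let `j, a', a₁'` be given for `Q`, `sn n χ`, `sn n ψ`; `FSE` gives factor
sets `a`, `a₁` of `χ`, `ψ` over `Q` (as in `AGM`), `a * a₁⁻¹ ∈ cob Q` by hypothesis and `C4T(Q)` (first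
claim) gives `a' * a₁'⁻¹ ∈ cob Q`. First claim: assume that `Agr h P₁ χ ψ Q₀` fails for the 2-group
`Q₀`; let `R₀ ≥ Q₀` be a Sylow 2-subgroup of `C`. By `AGM` (`B₂ = B`, `s`, `m`, `mC` the identity)
`Agr h P₁ χ ψ R₀` fails: there are `j, a, a₁` with `a * a₁⁻¹ ∉ cob R₀`. Then
`Agr h P₁ χ (sn n ψ) R₀`: let `j', α, a₁'` be given; `j' = j` (injectivity of the inclusions),
`C4T(R₀)` for `a, a₁`, some `a'` (`FSE`) and `a₁'` gives `a * a₁'⁻¹ ∈ cob R₀`, and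
`α * a⁻¹ ∈ cob R₀` by `FSU`. Now let `Q` be any 2-subgroup. `Q` is contained in a Sylow 2-subgroup,
which is conjugate to `R₀`: `d : C` with `Q.map (conj d) ≤ R₀`. Let `b ∈ Stx κ {P₁} ψ`, `ρ b = d`; `b`
fixes `χ` (`(Stx κ ∅ χ).map ρ = ⊤`, inner automorphisms), normalizes `P₁` and fixes `ψ`, hence `sn n ψ`.
`AGM` with `m = conj b`, `s = κ b`, `mC = conj d` (`ι (κ b g) = b * ι g * b⁻¹`). -/
def Stmt_AG2 : Prop :=
  ∀ (G B C : Type) [Group G] [Fintype G] [Group B] [Fintype B] [Group C]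
    (𝔐 : Ideal (integralClosure ℤ ℂ)) (n : ℕ), 𝔐.IsMaximal →
    ((2 : ℕ) : integralClosure ℤ ℂ) ∈ 𝔐 → ∀ (ι : G →* B) (κ : B →* MulAut G) (ρ : B →* C)
    (h : LocN ι κ ρ) (ω : G → (integralClosure ℤ ℂ) ⧸ 𝔐) (P₁ P : Subgroup G) (x₀ : G),
    StX 𝔐 2 n κ ω P₁ P x₀ → ∀ χ ∈ XS 𝔐 ω, ∀ ψ ∈ YL 𝔐 P₁ ω, (Stx κ ∅ χ).map ρ = ⊤ →
    (Stx κ {P₁} ψ).map ρ = ⊤ → sn n χ ∈ XS 𝔐 ω → sn n ψ ∈ YL 𝔐 P₁ ω → ∀ b : ℤ,
    (b = 1 ∨ b = -1) → (∀ g, P₁ ≤ Subgroup.zpowers g → χ g = b * ψ g) →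
    ((∀ Q : Subgroup C, IsPGroup 2 Q → Agr h P₁ χ ψ Q) ∨
      ∀ Q : Subgroup C, IsPGroup 2 Q → Agr h P₁ χ (sn n ψ) Q) ∧
    ((∀ Q : Subgroup C, IsPGroup 2 Q → Agr h P₁ χ ψ Q) →
      ∀ Q : Subgroup C, IsPGroup 2 Q → Agr h P₁ (sn n χ) (sn n ψ) Q)

/-- RCB_BI2: the bijection for the prime 2.
Proof. `GM2`: `b`, `Φ₀`; `TWX`: `XS` and `YL` are closed under `sn n`; `sn n (sn n χ) = χ`.
(1) two elements of `YL` which agree at all `g` with `P₁ ≤ zpowers g` are equal (`GM2`, third claim).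
So `Φ₀ (sn n χ) = sn n (Φ₀ χ)` for `χ ∈ XS`.
(2) `(Stx κ ∅ χ).map ρ = (Stx κ {P₁} (Φ₀ χ)).map ρ`: let `c : C`, `b' ∈ Stx κ {P₁} 0` with `ρ b' = c`
(`EQV` (1)). By `EQV` (2), (3) the claim is `χ ∘ κ b' = χ ↔ (Φ₀ χ) ∘ κ b' = Φ₀ χ`. `κ b'` maps `P₁` to
`P₁`, so `P₁ ≤ zpowers g ↔ P₁ ≤ zpowers (κ b' g)`, and at these `g` the values of `χ` are `b` times
those of `Φ₀ χ`. If `χ ∘ κ b' = χ` then `(Φ₀ χ) ∘ κ b'` and `Φ₀ χ` agree there, so they are equal by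
(1). If `(Φ₀ χ) ∘ κ b' = Φ₀ χ` then `χ ∘ κ b'` and `χ` agree there, so also at the conjugates of these
`g`, and at the others by `GM2` (last claim).
(3) For `χ ∈ XS` let `R = (Stx κ ∅ χ).map ρ` and let `p χ` be the statement
`∀ Q : Subgroup R, IsPGroup 2 Q → Agr (locN_R h R) P₁ χ (Φ₀ χ) Q`. `sn n χ` and `sn n ψ` have the same
stabilizers as `χ` and `ψ` (`orderOf (κ b g) = orderOf g`), so `AG2` applies to `locN_R h R`, `χ`,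
`ψ = Φ₀ χ` (`Stx_R`; `StX` for `kR κ ρ R`): `p χ → p (sn n χ)` by (1), hence `p χ ↔ p (sn n χ)`
(the subgroup `R` is the same; rewrite along the equality of the stabilizers), and if `p χ` is false
then the classes of `χ` and `sn n (Φ₀ χ)` agree over all `Q`. Define `Φ χ = Φ₀ χ` if `p χ`,
`Φ χ = sn n (Φ₀ χ)` otherwise. `Φ` is injective on `XS`: if `Φ₀ χ₁ = sn n (Φ₀ χ₂) = Φ₀ (sn n χ₂)` then
`χ₁ = sn n χ₂` and `p χ₁ ↔ p χ₂`. It is surjective: for `ψ = Φ₀ χ`, either `p χ` and `Φ χ = ψ`, or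
`Φ (sn n χ) = sn n (Φ₀ (sn n χ)) = ψ`. -/
def Stmt_BI2 : Prop :=
  ∀ (G B C : Type) [Group G] [Fintype G] [Group B] [Fintype B] [Group C]
    (𝔐 : Ideal (integralClosure ℤ ℂ)) (n : ℕ), 𝔐.IsMaximal →
    ((2 : ℕ) : integralClosure ℤ ℂ) ∈ 𝔐 → ∀ (ι : G →* B) (κ : B →* MulAut G) (ρ : B →* C)
    (h : LocN ι κ ρ) (ω : G → (integralClosure ℤ ℂ) ⧸ 𝔐) (P₁ P : Subgroup G) (x₀ : G),
    StX 𝔐 2 n κ ω P₁ P x₀ → ∃ Φ : (G → ℂ) → (G → ℂ), Set.BijOn Φ (XS 𝔐 ω) (YL 𝔐 P₁ ω) ∧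
      ∀ χ ∈ XS 𝔐 ω, (Stx κ ∅ χ).map ρ = (Stx κ {P₁} (Φ χ)).map ρ ∧
        ∀ Q : Subgroup ↥((Stx κ ∅ χ).map ρ), IsPGroup 2 Q →
          Agr (locN_R h ((Stx κ ∅ χ).map ρ)) P₁ χ (Φ χ) Q

/-! ### The local theorem -/

/-- RCB_CLQ2: the scalars on the kernel extend over the `ℓ`-subgroups (all primes).
Proof. As `CLQ` (`CLQ.lean`), with the hypothesis on `Agr` (for the group `R` there) in the place of
`C4F`. -/
def Stmt_CLQ2 : Prop :=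
  ∀ (G B C B' C' : Type) [Group G] [Fintype G] [Group B] [Fintype B] [Group C]
    [Group B'] [Fintype B'] [Group C'] [Finite C']
    (𝔐 : Ideal (integralClosure ℤ ℂ)) (ℓ n : ℕ) [Fact ℓ.Prime], 𝔐.IsMaximal →
    (ℓ : integralClosure ℤ ℂ) ∈ 𝔐 → ∀ (ι : G →* B) (κ : B →* MulAut G) (ρ : B →* C)
    (ι' : G →* B') (κ' : B' →* MulAut G) (ρ' : B' →* C') (π : B' →* B)
    (h : Cov ι κ ρ ι' κ' ρ' π),
    ∀ (ω : G → (integralClosure ℤ ℂ) ⧸ 𝔐) (P₁ P : Subgroup G) (x₀ : G),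
    StX 𝔐 ℓ n κ ω P₁ P x₀ → ∀ χ ∈ XS 𝔐 ω, ∀ ψ ∈ YL 𝔐 P₁ ω, Stx κ ∅ χ = ⊤ →
    (Stx κ {P₁} ψ).map ρ = ⊤ →
    (∀ Q : Subgroup C, IsPGroup ℓ Q → Agr h.lo P₁ χ ψ Q) → ∀ f f₁ : B' → ℂ,
    ExtL ι' κ' ρ' ∅ χ ⊤ f → ExtL ι' κ' ρ' {P₁} ψ ⊤ f₁ → ∀ Q : Subgroup C', IsPGroup ℓ Q →
      ∃ μ : C' → ℂ, LinOn (π.ker.map ρ' ⊔ Q) μ ∧
        ∀ w, π w = 1 → f₁ w * f 1 = μ (ρ' w) * (f w * f₁ 1)

/-- RCB_CLT2: extensions with the same weights and the same scalars (all primes).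
Proof. As `CLT` (`CLT.lean`), with `CLQ2` in the place of `CLQ`. -/
def Stmt_CLT2 : Prop :=
  ∀ (G B C B' C' : Type) [Group G] [Fintype G] [Group B] [Fintype B] [Group C]
    [Group B'] [Fintype B'] [Group C'] [Finite C']
    (𝔐 : Ideal (integralClosure ℤ ℂ)) (ℓ n : ℕ) [Fact ℓ.Prime], 𝔐.IsMaximal →
    (ℓ : integralClosure ℤ ℂ) ∈ 𝔐 → ∀ (ι : G →* B) (κ : B →* MulAut G) (ρ : B →* C)
    (ι' : G →* B') (κ' : B' →* MulAut G) (ρ' : B' →* C') (π : B' →* B)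
    (h : Cov ι κ ρ ι' κ' ρ' π), LocV ι' κ' ρ' →
    ∀ (ω : G → (integralClosure ℤ ℂ) ⧸ 𝔐) (P₁ P : Subgroup G) (x₀ : G),
    StX 𝔐 ℓ n κ ω P₁ P x₀ → ∀ χ ∈ XS 𝔐 ω, ∀ ψ ∈ YL 𝔐 P₁ ω, Stx κ ∅ χ = ⊤ →
    (Stx κ {P₁} ψ).map ρ = ⊤ →
    (∀ Q : Subgroup C, IsPGroup ℓ Q → Agr h.lo P₁ χ ψ Q) →
    ∃ f f₁ : B' → ℂ, ExtL ι' κ' ρ' ∅ χ ⊤ f ∧ ExtL ι' κ' ρ' {P₁} ψ ⊤ f₁ ∧
      (∀ t, cgT 𝔐 ι'.range f t = cgT 𝔐 ι'.range f₁ t) ∧
      ∀ w, π w = 1 → f w * f₁ 1 = f₁ w * f 1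

/-- RCB_CEQ2: corresponding characters contribute the same number (all primes).
Proof. As `CEQ` (`CEQ.lean`), with `CLT2` in the place of `CLT` (applied to `locN_R h R`,
`R = (Stx κ ∅ θ).map ρ`; the proof of `LocN` in `Cov` does not matter, `LocN` is a proposition). -/
def Stmt_CEQ2 : Prop :=
  ∀ (G B C : Type) [Group G] [Fintype G] [Group B] [Fintype B] [Group C]
    (𝔐 : Ideal (integralClosure ℤ ℂ)) (ℓ n : ℕ) [Fact ℓ.Prime], 𝔐.IsMaximal →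
    (ℓ : integralClosure ℤ ℂ) ∈ 𝔐 → ∀ (ι : G →* B) (κ : B →* MulAut G) (ρ : B →* C)
    (h : LocN ι κ ρ) (ω : G → (integralClosure ℤ ℂ) ⧸ 𝔐) (P₁ P : Subgroup G) (x₀ : G),
    AtX ℓ n ω P₁ P x₀ → (∃ θ : G → ℂ, IsIrr θ ∧ cen 𝔐 (MonoidHom.id G) θ = ω) →
    ∀ θ ∈ XS 𝔐 ω, ∀ ψ ∈ YL 𝔐 P₁ ω, (Stx κ ∅ θ).map ρ = (Stx κ {P₁} ψ).map ρ →
    (∀ Q : Subgroup ↥((Stx κ ∅ θ).map ρ), IsPGroup ℓ Q →
      Agr (locN_R h ((Stx κ ∅ θ).map ρ)) P₁ θ ψ Q) →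
    ∀ (Ω : B → (integralClosure ℤ ℂ) ⧸ 𝔐) (d : ℕ),
      nC 𝔐 ℓ d ι κ ∅ Ω θ = nC 𝔐 ℓ d ι κ {P₁} Ω ψ

/-- RCB_LTP2: the local theorem for the prime 2.
Proof. As the proof of `Stmt_LTP` from `BIJ`, `CEQ`, `CAG`, `CVB`, `FXGX` (`St5.lean`, `LTP.lean`), with
`BI2` and `CEQ2`. `R₁ = (Sw κ ∅ ω).map ρ`, `Φ` from `BI2` for `(G, ↥(R₁.comap ρ), R₁)` (`locN_R h R₁`). For
`θ ∈ XS` the stabilizers agree as there, and the hypothesis of `CEQ2` on the classes follows from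
that in `BI2` by `AGM`: `(B₂, C₂)` = the inverse image in `B` of `Rθ = (Stx κ ∅ θ).map ρ` and `Rθ`,
`(B, C)` in `AGM` = the inverse image in `↥(R₁.comap ρ)` of `(Stx (kR κ ρ R₁) ∅ θ).map (pR ρ R₁)`
and this group; `s = 1`, `m x = ⟨⟨x, _⟩, _⟩`, `mC c = ⟨⟨c, _⟩, _⟩` (`Rθ ≤ R₁`; `Stx_R`), `Q` = the image of
`Q₂` (a 2-group). -/
def Stmt_LTP2 : Prop := LTPn 2

/-- RCB_INP2: `INNn` from `LTPn`.
Proof. As `INP.lean` (`Stmt_INP`), with one prime fixed. -/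
def Stmt_INP2 : Prop := ∀ ℓ : ℕ, LTPn ℓ → INNn ℓ

/-- RCB_SIN2: the inner sums vanish.
Proof. As `SIN.lean` (`Stmt_SIN`), with one prime fixed. -/
def Stmt_SIN2 : Prop := ∀ ℓ : ℕ, ℓ.Prime → INNn ℓ → S_INNER ℓ

end Pool.Agent.RCB
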