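import Mathlib
import Pool.Agent.RCB.St6
import Pool.Agent.RCB.C4B
import Pool.Agent.RCB.CLQ

/-!
# RCB_AG2: the classes over all 2-subgroups
-/

set_option autoImplicit false

namespace Pool.Agent.RCB

open Pool.Agent.DP Pool.Agent.DPV Pool.Agent.DPB Pool.Agent.DPW Pool.Agent.DPX
open Pool.Agent.Lib_helper13 Representation

namespace AG2

theorem gcom {M : Type} [CommGroup M] (x y z w : M) :
    (x * y⁻¹) * (z * w⁻¹)⁻¹ * (y * w⁻¹) = x * z⁻¹ := by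
  have h : Additive.ofMul x + -Additive.ofMul y + -(Additive.ofMul z + -Additive.ofMul w) +
      (Additive.ofMul y + -Additive.ofMul w) = Additive.ofMul x + -Additive.ofMul z := by abel
  exact h

theorem sn_inv {G : Type} [Group G] (n : ℕ) {f : G → ℂ} {s : MulAut G} {g : G}
    (h : f (s g) = f g) : sn n f (s g) = sn n f g := by
  have ho : orderOf (s g) = orderOf g := MulEquiv.orderOf_eq s g
  unfold sn
  rw [ho, h]

section

variable {G B C : Type} [Group G] [Group B] [Group C] {ι : G →* B} {κ : B →* MulAut G}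
  {ρ : B →* C}

theorem stx_sn (n : ℕ) (σ : Finset (Subgroup G)) (f : G → ℂ) :
    Stx κ σ f ≤ Stx κ σ (sn n f) := by
  intro b hb
  exact ⟨hb.1, fun g => sn_inv n (hb.2 g)⟩

/-- the stabilizer in the inverse image of `Q` covers `Q` -/
theorem map_R {σ : Finset (Subgroup G)} {f : G → ℂ} (hm : (Stx κ σ f).map ρ = ⊤)
    (Q : Subgroup C) : (Stx (kR κ ρ Q) σ f).map (pR ρ Q) = ⊤ := by
  rw [eq_top_iff]
  rintro ⟨q, hq⟩ -
  obtain ⟨b, hb, hbq⟩ : q ∈ (Stx κ σ f).map ρ := by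
    rw [hm]
    exact Subgroup.mem_top _
  have hbQ : b ∈ Q.comap ρ := by
    rw [Subgroup.mem_comap, hbq]
    exact hq
  exact ⟨⟨b, hbQ⟩, hb, Subtype.ext hbq⟩

/-- a homomorphism which is the embedding is `jS` -/
theorem eq_jS (h : ClG ι κ ρ) (σ : Finset (Subgroup G)) (j : ↥(stb σ) →* ↥(YS ι σ))
    (hj : ∀ g, (j g : B) = ι g) : j = jS h σ := by
  ext g
  exact hj g

/-- the projection of the stabilizer is surjective -/
theorem surj_S (h : ClG ι κ ρ) {σ : Finset (Subgroup G)} {f : G → ℂ}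
    (hm : (Stx κ σ f).map ρ = ⊤) : Function.Surjective (pS ρ ι σ) := by
  intro c
  obtain ⟨b, hb, hbc⟩ : c ∈ (Stx κ σ f).map ρ := by
    rw [hm]
    exact Subgroup.mem_top _
  exact ⟨⟨b, (mem_YS_iff h σ).2 hb.1⟩, hbc⟩

end

section

variable {G B C : Type} [Group G] [Fintype G] [Group B] [Fintype B] [Group C] {ι : G →* B}
  {κ : B →* MulAut G} {ρ : B →* C}

/-- existence of the factor sets -/
theorem ex_chi (h0 : Stmt_FSE) (h : LocN ι κ ρ) {χ : G → ℂ} (hχ : IrrOn (stb ∅) χ)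
    (hm : (Stx κ ∅ χ).map ρ = ⊤) : ∃ a, FS ι ρ χ a := by
  refine h0 G B C ι κ ρ h.cl h.surj χ (CLQ.irr_empty hχ) ?_
  intro y x
  have hx : x ∈ stb (∅ : Finset (Subgroup G)) := by
    rw [stb_empty]
    exact Subgroup.mem_top _
  exact C4B.inv_of_map h.cl ∅ hχ hm (fun D hD => absurd hD (Finset.notMem_empty D)) hx

theorem ex_psi (h0 : Stmt_FSE) (h : LocN ι κ ρ) {P₁ : Subgroup G} {ψ : G → ℂ}
    (hψ : IrrOn (stb {P₁}) ψ) (hm : (Stx κ {P₁} ψ).map ρ = ⊤)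
    (j : ↥(stb {P₁}) →* ↥(YS ι {P₁})) (hj : ∀ g, (j g : B) = ι g) :
    ∃ a, FS j (ρ.comp (YS ι {P₁}).subtype) (fun g : stb {P₁} => ψ g) a := by
  classical
  have : Fintype ↥(stb ({P₁} : Finset (Subgroup G))) := Fintype.ofFinite _
  have : Fintype ↥(YS ι ({P₁} : Finset (Subgroup G))) := Fintype.ofFinite _
  rw [eq_jS h.cl {P₁} j hj]
  refine h0 _ _ C (jS h.cl {P₁}) (cS h.cl {P₁}) (pS ρ ι {P₁}) (clG_S h.cl {P₁})
    (surj_S h.cl hm) _ hψ.1 ?_
  intro y x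
  exact C4B.inv_of_map h.cl {P₁} hψ hm ((mem_YS_iff h.cl {P₁}).1 y.2) x.2

theorem uniq_chi (h0 : Stmt_FSU) (h : LocN ι κ ρ) {χ : G → ℂ} (hχ : IrrOn (stb ∅) χ) {a a'}
    (ha : FS ι ρ χ a) (ha' : FS ι ρ χ a') : a * a'⁻¹ ∈ cob C :=
  h0 G B C ι κ ρ h.cl h.surj χ (CLQ.irr_empty hχ) a a' ha ha'

end

end AG2

/-- AG2. -/
theorem AG2_thm (h0 : Stmt_C4T) (h1 : Stmt_AGM) (h2 : Stmt_FSE) (h3 : Stmt_FSU) : Stmt_AG2 := by
  classical
  intro G B C _ _ _ _ _ 𝔐 n h𝔐 h2𝔐 ι κ ρ h ω P₁ P x₀ hS χ hχ ψ hψ hmχ hmψ hsχ hsψ b hb hv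
  have hfC : Finite C := Finite.of_surjective ρ h.surj
  -- stabilizers of the products with `sn`
  have hmsχ : (Stx κ ∅ (sn n χ)).map ρ = ⊤ := by
    rw [eq_top_iff, ← hmχ]
    exact Subgroup.map_mono (AG2.stx_sn n ∅ χ)
  have hmsψ : (Stx κ {P₁} (sn n ψ)).map ρ = ⊤ := by
    rw [eq_top_iff, ← hmψ]
    exact Subgroup.map_mono (AG2.stx_sn n {P₁} ψ)
  have hinv : ∀ (y : B) (g : G), χ (κ y g) = χ g := by
    intro y g
    have hx : g ∈ stb (∅ : Finset (Subgroup G)) := by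
      rw [stb_empty]
      exact Subgroup.mem_top _
    exact C4B.inv_of_map h.cl ∅ hχ.1 hmχ (fun D hD => absurd hD (Finset.notMem_empty D)) hx
  -- `C4T` over the 2-subgroups
  have core : ∀ Q : Subgroup C, IsPGroup 2 Q →
      ∀ j : ↥(stb {P₁}) →* ↥(YS (iR h Q) {P₁}), (∀ g, (j g : ↥(Q.comap ρ)) = iR h Q g) →
      ∀ a a₁ a' a₁', FS (iR h Q) (pR ρ Q) χ a →
        FS j ((pR ρ Q).comp (YS (iR h Q) {P₁}).subtype) (fun g : stb {P₁} => ψ g) a₁ →
        FS (iR h Q) (pR ρ Q) (sn n χ) a' →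
        FS j ((pR ρ Q).comp (YS (iR h Q) {P₁}).subtype) (fun g : stb {P₁} => sn n ψ g) a₁' →
        (a' * a⁻¹) * (a₁' * a₁⁻¹)⁻¹ ∈ cob Q ∧ (a * a₁⁻¹ ∈ cob Q ∨ a * a₁'⁻¹ ∈ cob Q) := by
    intro Q hQ
    have hcQ : ∃ m, Nat.card Q = 2 ^ m := (IsPGroup.iff_card).1 hQ
    have hfin : Fintype ↥(Q.comap ρ) := Fintype.ofFinite _
    have hSQ : StX 𝔐 2 n (kR κ ρ Q) ω P₁ P x₀ :=
      { at' := hS.at'
        inv := fun y g => hS.inv (y : B) g
        ex := hS.ex }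
    exact h0 G ↥(Q.comap ρ) ↥Q 𝔐 n h𝔐 h2𝔐 (iR h Q) (kR κ ρ Q) (pR ρ Q) (locN_R h Q) hcQ ω P₁ P
      x₀ hSQ χ hχ ψ hψ (AG2.map_R hmχ Q) (AG2.map_R hmψ Q) hsχ hsψ b hb hv
  constructor
  · by_cases hA : ∀ Q : Subgroup C, IsPGroup 2 Q → Agr h P₁ χ ψ Q
    · exact Or.inl hA
    · right
      push Not at hA
      obtain ⟨Q₀, hQ₀, hnA⟩ := hA
      obtain ⟨R₀, hR₀⟩ := hQ₀.exists_le_sylow
      -- the agreement fails over the Sylow subgroup
      have hcov : ∀ (Q : Subgroup C), ∀ c ∈ Q, ∃ y ∈ YS ι {P₁}, ρ y = c := by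
        intro Q c _
        obtain ⟨y, hy, hyc⟩ : c ∈ (Stx κ {P₁} ψ).map ρ := by
          rw [hmψ]
          exact Subgroup.mem_top _
        exact ⟨y, (mem_YS_iff h.cl {P₁}).2 hy.1, hyc⟩
      have hnR : ¬ Agr h P₁ χ ψ (R₀ : Subgroup C) := by
        intro hR
        apply hnA
        refine h1 G B C B C ι κ ρ ι κ ρ h h P₁ χ ψ (CLQ.irr_empty hχ.1) hψ.1 1
          (MonoidHom.id B) (MonoidHom.id C) (fun g => rfl) (fun y => rfl) ?_ (fun g => rfl)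
          (fun g => rfl) Q₀ R₀ ?_ ?_ ?_ (hcov Q₀) hR
        · exact Subgroup.map_id P₁
        · rw [Subgroup.map_id]
          exact hR₀
        · rw [hmχ]
          exact le_top
        · rw [hmψ]
          exact le_top
      have hAR : Agr h P₁ χ (sn n ψ) (R₀ : Subgroup C) := by
        unfold Agr at hnR
        push Not at hnR
        obtain ⟨j, hj, a, a₁, ha, ha₁, hna⟩ := hnR
        intro j' hj' α a₁' hα ha₁'
        have hjj : j' = j := by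
          ext g
          have e1 : (j' g : ↥((R₀ : Subgroup C).comap ρ)) = j g := by rw [hj, hj']
          exact congrArg Subtype.val e1
        rw [hjj] at ha₁'
        have hfin : Fintype ↥((R₀ : Subgroup C).comap ρ) := Fintype.ofFinite _
        obtain ⟨a', ha'⟩ := AG2.ex_chi h2 (locN_R h (R₀ : Subgroup C)) hsχ.1
          (AG2.map_R hmsχ (R₀ : Subgroup C))
        have k1 := ((core R₀ R₀.isPGroup' j hj a a₁ a' a₁' ha ha₁ ha' ha₁').2).resolve_left hna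
        have k2 := AG2.uniq_chi h3 (locN_R h (R₀ : Subgroup C)) hχ.1 hα ha
        have k3 := (cob (R₀ : Subgroup C)).mul_mem k2 k1
        rw [mul_assoc, inv_mul_cancel_left] at k3
        exact k3
      intro Q hQ
      obtain ⟨S, hS'⟩ := hQ.exists_le_sylow
      obtain ⟨d, hd⟩ := MulAction.exists_smul_eq C S R₀
      obtain ⟨y, hy, hyd⟩ : d ∈ (Stx κ {P₁} ψ).map ρ := by
        rw [hmψ]
        exact Subgroup.mem_top _
      refine h1 G B C B C ι κ ρ ι κ ρ h h P₁ χ (sn n ψ) (CLQ.irr_empty hχ.1) hsψ.1 (κ y)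
        (MulAut.conj y).toMonoidHom (MulAut.conj d).toMonoidHom ?_ ?_ (hy.1 P₁ (by simp))
        (hinv y) (fun g => AG2.sn_inv n (hy.2 g)) Q R₀ ?_ ?_ ?_ (hcov Q) hAR
      · intro g
        exact (h.cl.act y g).symm
      · intro z
        change ρ (y * z * y⁻¹) = d * ρ z * d⁻¹
        rw [map_mul, map_mul, map_inv, hyd]
      · rintro _ ⟨q, hq, rfl⟩
        rw [← hd]
        exact ⟨q, hS' hq, rfl⟩
      · rw [hmχ]
        exact le_top
      · rw [hmsψ]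
        exact le_top
  · intro hA Q hQ j hj a' a₁' ha' ha₁'
    have hfin : Fintype ↥(Q.comap ρ) := Fintype.ofFinite _
    obtain ⟨a, ha⟩ := AG2.ex_chi h2 (locN_R h Q) hχ.1 (AG2.map_R hmχ Q)
    obtain ⟨a₁, ha₁⟩ := AG2.ex_psi h2 (locN_R h Q) hψ.1 (AG2.map_R hmψ Q) j hj
    have k1 := (core Q hQ j hj a a₁ a' a₁' ha ha₁ ha' ha₁').1
    have k2 := hA Q hQ j hj a a₁ ha ha₁
    have k3 := (cob Q).mul_mem k1 k2
    rw [AG2.gcom] at k3
    exact k3

end Pool.Agent.RCB
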