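import Mathlib
import Pool.Agent.RCB.St6

/-!
# Theorem P1, block 6, module AGM: transport of the agreement of classes
-/

set_option autoImplicit false

namespace Pool.Agent.RCB

open Pool.Agent.DP Pool.Agent.DPV Pool.Agent.DPB Pool.Agent.DPW Pool.Agent.DPX
open Pool.Agent.Lib_helper13 Representation

namespace AGM

/-- the pullback of a projective extension -/
theorem fs_comp {A Y K A₂ Y₂ K₂ : Type} [Group A] [Group Y] [Group K] [Group A₂] [Group Y₂]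
    [Group K₂] {j : A →* Y} {p : Y →* K} {θ : A → ℂ} {α : K → K → ℂˣ} (hF : FS j p θ α)
    {j₂ : A₂ →* Y₂} {p₂ : Y₂ →* K₂} (s : A₂ →* A) (m : Y₂ →* Y) (mK : K₂ →* K)
    (h1 : ∀ x, m (j₂ x) = j (s x)) (h2 : ∀ y, p (m y) = mK (p₂ y)) :
    FS j₂ p₂ (fun x => θ (s x)) (fun x y => α (mK x) (mK y)) := by
  obtain ⟨n, R, T, hR, hT1, hT2, hT3, hT4⟩ := hF
  refine ⟨n, R.comp s, fun y => T (m y), ?_, ?_, ?_, ?_, ?_⟩
  · ext x
    rw [← hR]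
    rfl
  · intro x
    change T (m (j₂ x)) = R (s x)
    rw [h1, hT1]
  · intro x y
    change T (m (j₂ x * y)) = R (s x) * T (m y)
    rw [map_mul, h1, hT2]
  · intro y y'
    change T (m y) * T (m y') = ((α (mK (p₂ y)) (mK (p₂ y')) : ℂˣ) : ℂ) • T (m (y * y'))
    rw [hT3, map_mul, h2, h2]
  · intro y
    exact hT4 (m y)

theorem cob_comp {K K₂ : Type} [Group K] [Group K₂] (mK : K₂ →* K) {α : K → K → ℂˣ}
    (h : α ∈ cob K) : (fun x y => α (mK x) (mK y)) ∈ cob K₂ := by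
  obtain ⟨b, hb⟩ := h
  refine ⟨fun x => b (mK x), fun x y => ?_⟩
  change α (mK x) (mK y) = b (mK x) * b (mK y) * (b (mK (x * y)))⁻¹
  rw [hb, map_mul]

variable {G B C : Type} [Group G] [Group B] [Group C] {ι : G →* B} {κ : B →* MulAut G}
  {ρ : B →* C}

theorem kap (h : ClG ι κ ρ) (g x : G) : κ (ι g) x = g * x * g⁻¹ := by
  apply h.inj
  rw [h.act, map_mul, map_mul, map_inv]

theorem exists_mul (h : LocN ι κ ρ) {y b : B} (hyb : ρ b = ρ y) : ∃ g, y = ι g * b := by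
  have h1 : ρ (y * b⁻¹) = 1 := by rw [map_mul, map_inv, hyb, mul_inv_cancel]
  obtain ⟨g, hg⟩ := (h.cl.ker _).1 h1
  exact ⟨g, by rw [hg]; group⟩

/-- `χ` is invariant under the inverse image of `Q` -/
theorem inv_chi (h : LocN ι κ ρ) {χ : G → ℂ} (hχ : IsIrr χ) {Q : Subgroup C}
    (hQ : Q ≤ (Stx κ ∅ χ).map ρ) (y : B) (hy : ρ y ∈ Q) (x : G) : χ (κ y x) = χ x := by
  obtain ⟨b, hb, hby⟩ := hQ hy
  obtain ⟨g, rfl⟩ := exists_mul h hby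
  rw [map_mul, MulAut.mul_apply, kap h.cl, hχ.conj_eq]
  exact hb.2 x

/-- `ψ` is invariant under the normalizer of `P₁` in the inverse image of `Q` -/
theorem inv_psi (h : LocN ι κ ρ) {P₁ : Subgroup G} {ψ : G → ℂ} (hψ : IrrOn (stb {P₁}) ψ)
    {Q : Subgroup C} (hQ : Q ≤ (Stx κ {P₁} ψ).map ρ) (y : B) (hy : ρ y ∈ Q)
    (hyP : y ∈ YS ι {P₁}) (x : G) (hx : x ∈ stb {P₁}) : ψ (κ y x) = ψ x := by
  obtain ⟨b, hb, hby⟩ := hQ hy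
  obtain ⟨g, rfl⟩ := exists_mul h hby
  have hbP : b ∈ YS ι {P₁} := (mem_YS_iff h.cl {P₁}).2 hb.1
  have hg : g ∈ stb {P₁} := by
    rw [← mem_YS h.cl]
    have h1 := mul_mem hyP (inv_mem hbP)
    rwa [mul_assoc, mul_inv_cancel, mul_one] at h1
  have hbx : κ b x ∈ stb {P₁} := by
    rw [← mem_YS h.cl, h.cl.act]
    exact mul_mem (mul_mem hbP ((mem_YS h.cl _).2 hx)) (inv_mem hbP)
  rw [map_mul, MulAut.mul_apply, kap h.cl]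
  have h2 := hψ.1.conj_eq (⟨g, hg⟩ : stb {P₁}) ⟨κ b x, hbx⟩
  change ψ (g * κ b x * g⁻¹) = ψ (κ b x) at h2
  rw [h2]
  exact hb.2 x

end AGM

open AGM in
/-- RCB_AGM. -/
theorem AGM_thm (h0 : Stmt_FSE) (h1 : Stmt_FSU) : Stmt_AGM := by
  classical
  intro G B C B₂ C₂ _ _ _ _ _ _ _ _ ι κ ρ ι₂ κ₂ ρ₂ h h₂ P₁ χ ψ hχ hψ s m mC hm1 hm2 hsP hsχ
    hsψ Q₂ Q hQm hQχ hQψ hsur hA j hj a a₁ ha ha₁
  have hfQ : Fintype ↥(Q.comap ρ) := Fintype.ofFinite _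
  have hfQ₂ : Fintype ↥(Q₂.comap ρ₂) := Fintype.ofFinite _
  have hfS : Fintype ↥(stb {P₁}) := Fintype.ofFinite _
  have hfY : Fintype ↥(YS (iR h Q) {P₁}) := Fintype.ofFinite _
  have hfY₂ : Fintype ↥(YS (iR h₂ Q₂) {P₁}) := Fintype.ofFinite _
  have hL := locN_R h Q
  have hL₂ := locN_R h₂ Q₂
  -- the factor set of `χ` over `Q`
  obtain ⟨α, hα⟩ := h0 G ↥(Q.comap ρ) Q (iR h Q) (kR κ ρ Q) (pR ρ Q) hL.cl hL.surj χ hχ
    (fun y x => inv_chi h hχ hQχ y y.2 x)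
  -- the maps
  have hmem : ∀ y : ↥(Q₂.comap ρ₂), m y ∈ Q.comap ρ := by
    intro y
    rw [Subgroup.mem_comap, hm2]
    exact hQm ⟨ρ₂ y, y.2, rfl⟩
  obtain ⟨m', hm'⟩ : ∃ m' : ↥(Q₂.comap ρ₂) →* ↥(Q.comap ρ), ∀ y, (m' y : B) = m y :=
    ⟨(m.comp (Q₂.comap ρ₂).subtype).codRestrict _ hmem, fun y => rfl⟩
  obtain ⟨mQ, hmQ⟩ : ∃ mQ : Q₂ →* Q, ∀ c, (mQ c : C) = mC c :=
    ⟨(mC.comp Q₂.subtype).codRestrict _ (fun c => hQm ⟨c, c.2, rfl⟩), fun c => rfl⟩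
  have e1 : ∀ g, m' (iR h₂ Q₂ g) = iR h Q (s g) := by
    intro g
    apply Subtype.ext
    rw [hm', iR_coe, iR_coe, hm1]
  have e2 : ∀ y, pR ρ Q (m' y) = mQ (pR ρ₂ Q₂ y) := by
    intro y
    apply Subtype.ext
    rw [pR_coe, hmQ, hm', pR_coe, hm2]
  have hα₂ : FS (iR h₂ Q₂) (pR ρ₂ Q₂) χ (fun x y => α (mQ x) (mQ y)) := by
    have h3 := fs_comp hα (j₂ := iR h₂ Q₂) (p₂ := pR ρ₂ Q₂) s.toMonoidHom m' mQ e1 e2
    have h4 : (fun x => χ (s.toMonoidHom x)) = χ := by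
      ext x
      exact hsχ x
    rwa [h4] at h3
  have hc1 := h1 G ↥(Q₂.comap ρ₂) Q₂ (iR h₂ Q₂) (kR κ₂ ρ₂ Q₂) (pR ρ₂ Q₂) hL₂.cl hL₂.surj χ hχ
    a _ ha hα₂
  -- the factor set of `ψ` over `Q`
  obtain ⟨jj, hjj⟩ : ∃ jj, jj = jS hL.cl {P₁} := ⟨_, rfl⟩
  have hjc : ∀ g, (jj g : ↥(Q.comap ρ)) = iR h Q g := by
    intro g
    rw [hjj]
    rfl
  have hcl : ClG jj (cS hL.cl {P₁}) ((pR ρ Q).comp (YS (iR h Q) {P₁}).subtype) := by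
    rw [hjj]
    exact Pool.Agent.DP.clG_S hL.cl {P₁}
  have hsur1 : Function.Surjective ((pR ρ Q).comp (YS (iR h Q) {P₁}).subtype) := by
    rintro ⟨c, hc⟩
    obtain ⟨b, hb, rfl⟩ := hQψ hc
    have hb1 : (⟨b, hc⟩ : ↥(Q.comap ρ)) ∈ YS (iR h Q) {P₁} := by
      rw [YS_R h, Subgroup.mem_comap]
      exact (mem_YS_iff h.cl {P₁}).2 hb.1
    exact ⟨⟨⟨b, hc⟩, hb1⟩, Subtype.ext rfl⟩
  obtain ⟨α₁, hα₁⟩ := h0 (stb {P₁}) ↥(YS (iR h Q) {P₁}) Q jj (cS hL.cl {P₁})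
    ((pR ρ Q).comp (YS (iR h Q) {P₁}).subtype) hcl hsur1 (fun g : stb {P₁} => ψ g) hψ.1
    (fun y x => by
      change ψ (κ ((y : ↥(Q.comap ρ)) : B) x) = ψ x
      refine inv_psi h hψ hQψ _ (y : ↥(Q.comap ρ)).2 ?_ x x.2
      exact (YS_R h Q {P₁}).le y.2)
  have hsP' : ∀ x, x ∈ stb {P₁} → s x ∈ stb {P₁} := by
    intro x hx
    rw [mem_stb] at hx ⊢
    intro D hD
    have hD' : D = P₁ := by simpa using hD
    have h5 := hx P₁ (by simp)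
    rw [hD']
    have h6 : ((MulAut.conj (s x)).toMonoidHom).comp s.toMonoidHom =
        (s.toMonoidHom).comp (MulAut.conj x).toMonoidHom := by
      ext y
      simp
    calc P₁.map (MulAut.conj (s x)).toMonoidHom
        = (P₁.map s.toMonoidHom).map (MulAut.conj (s x)).toMonoidHom := by rw [hsP]
      _ = (P₁.map (MulAut.conj x).toMonoidHom).map s.toMonoidHom := by
          rw [Subgroup.map_map, h6, ← Subgroup.map_map]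
      _ = P₁ := by rw [h5, hsP]
  have hmY : ∀ y : ↥(Q₂.comap ρ₂), y ∈ YS (iR h₂ Q₂) {P₁} → m' y ∈ YS (iR h Q) {P₁} := by
    intro y hy
    rw [mem_YS_iff hL₂.cl] at hy
    rw [mem_YS_iff hL.cl]
    intro D hD
    have hD' : D = P₁ := by simpa using hD
    have h5 := hy P₁ (by simp)
    rw [hD']
    have h6 : ((kR κ ρ Q (m' y)).toMonoidHom).comp s.toMonoidHom =
        (s.toMonoidHom).comp (kR κ₂ ρ₂ Q₂ y).toMonoidHom := by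
      ext x
      change κ (m' y) (s x) = s (κ₂ y x)
      apply h.cl.inj
      rw [h.cl.act, hm', ← hm1, ← hm1, h₂.cl.act, map_mul, map_mul, map_inv]
    calc P₁.map (kR κ ρ Q (m' y)).toMonoidHom
        = (P₁.map s.toMonoidHom).map (kR κ ρ Q (m' y)).toMonoidHom := by rw [hsP]
      _ = (P₁.map (kR κ₂ ρ₂ Q₂ y).toMonoidHom).map s.toMonoidHom := by
          rw [Subgroup.map_map, h6, ← Subgroup.map_map]
      _ = P₁ := by rw [h5, hsP]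
  obtain ⟨m'', hm''⟩ : ∃ m'' : ↥(YS (iR h₂ Q₂) {P₁}) →* ↥(YS (iR h Q) {P₁}),
      ∀ y, (m'' y : ↥(Q.comap ρ)) = m' y :=
    ⟨(m'.comp (YS (iR h₂ Q₂) {P₁}).subtype).codRestrict _ (fun y => hmY y y.2), fun y => rfl⟩
  obtain ⟨s', hs'⟩ : ∃ s' : ↥(stb {P₁}) →* ↥(stb {P₁}), ∀ x, (s' x : G) = s x :=
    ⟨(s.toMonoidHom.comp (stb {P₁}).subtype).codRestrict _ (fun x => hsP' x x.2), fun x => rfl⟩
  have hα₁₂ : FS j ((pR ρ₂ Q₂).comp (YS (iR h₂ Q₂) {P₁}).subtype) (fun g : stb {P₁} => ψ g)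
      (fun x y => α₁ (mQ x) (mQ y)) := by
    have h3 := fs_comp hα₁ (j₂ := j) (p₂ := (pR ρ₂ Q₂).comp (YS (iR h₂ Q₂) {P₁}).subtype) s' m''
      mQ (fun x => by
        apply Subtype.ext
        rw [hm'', hj, e1, hjc, hs'])
      (fun y => by
        change pR ρ Q (m'' y : ↥(Q.comap ρ)) = mQ (pR ρ₂ Q₂ (y : ↥(Q₂.comap ρ₂)))
        rw [hm'', e2])
    have h4 : (fun x : stb {P₁} => ψ (s' x)) = fun x : stb {P₁} => ψ x := by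
      ext x
      rw [hs', hsψ]
    rwa [h4] at h3
  have hj' : j = jS hL₂.cl {P₁} := by
    apply MonoidHom.ext
    intro g
    apply Subtype.ext
    rw [hj]
    rfl
  have hcl₂ : ClG j (cS hL₂.cl {P₁}) ((pR ρ₂ Q₂).comp (YS (iR h₂ Q₂) {P₁}).subtype) := by
    rw [hj']
    exact Pool.Agent.DP.clG_S hL₂.cl {P₁}
  have hsur2 : Function.Surjective ((pR ρ₂ Q₂).comp (YS (iR h₂ Q₂) {P₁}).subtype) := by
    rintro ⟨c, hc⟩
    obtain ⟨y, hy, rfl⟩ := hsur c hc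
    have hy1 : (⟨y, hc⟩ : ↥(Q₂.comap ρ₂)) ∈ YS (iR h₂ Q₂) {P₁} := by
      rw [YS_R h₂, Subgroup.mem_comap]
      exact hy
    exact ⟨⟨⟨y, hc⟩, hy1⟩, Subtype.ext rfl⟩
  have hc2 := h1 (stb {P₁}) ↥(YS (iR h₂ Q₂) {P₁}) Q₂ j (cS hL₂.cl {P₁}) _ hcl₂ hsur2
    (fun g : stb {P₁} => ψ g) hψ.1 a₁ _ ha₁ hα₁₂
  have hc3 := cob_comp mQ (hA jj hjc α α₁ hα hα₁)
  have h7 : a * a₁⁻¹ = (a * (fun x y => α (mQ x) (mQ y) : Q₂ → Q₂ → ℂˣ)⁻¹) *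
      (fun x y => (α * α₁⁻¹) (mQ x) (mQ y) : Q₂ → Q₂ → ℂˣ) *
      (a₁ * (fun x y => α₁ (mQ x) (mQ y) : Q₂ → Q₂ → ℂˣ)⁻¹)⁻¹ := by
    funext x y
    simp only [Pi.mul_apply, Pi.inv_apply]
    group
  rw [h7]
  exact mul_mem (mul_mem hc1 hc3) (inv_mem hc2)

end Pool.Agent.RCB
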