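import Mathlib
import Pool.Agent.RCB.St2

/-!
# Theorem P1, RCB_AIN: elementary properties of the multiplicities
-/

set_option linter.unusedSectionVars false

namespace Pool.Agent.RCB

open Pool.Agent.DP Pool.Agent.DPV Pool.Agent.DPB Pool.Agent.DPW Pool.Agent.DPX
open Pool.Agent.Lib_helper13 Representation

namespace AIN

variable {N : Type} [Group N] [Fintype N] {C : Subgroup N} [C.Normal]

/-- The central element `x₀` normalizes `P₁`. -/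
theorem mem_norm {T F : Type} [Group T] [Zero F] {ℓ n : ℕ} {ω : T → F} {P₁ P : Subgroup T}
    {x₀ : T} (hA : AtX ℓ n ω P₁ P x₀) : x₀ ∈ Subgroup.normalizer (P₁ : Set T) := by
  rw [Subgroup.mem_normalizer_iff]
  intro u
  constructor
  · intro hu
    have e := hA.cd.cen u (hA.cd.le hu)
    have e' : x₀ * u * x₀⁻¹ = u := by rw [← e]; group
    change x₀ * u * x₀⁻¹ ∈ P₁
    rw [e']
    exact hu
  · intro hu
    have hu' : x₀ * u * x₀⁻¹ ∈ P₁ := hu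
    have e := hA.cd.cen _ (hA.cd.le hu')
    have e' : x₀ * u * x₀⁻¹ = u := by
      have e2 : x₀⁻¹ * (x₀ * u * x₀⁻¹ * x₀) = x₀⁻¹ * (x₀ * (x₀ * u * x₀⁻¹)) := by rw [e]
      have e3 : x₀⁻¹ * (x₀ * u * x₀⁻¹ * x₀) = u := by group
      have e4 : x₀⁻¹ * (x₀ * (x₀ * u * x₀⁻¹)) = x₀ * u * x₀⁻¹ := by group
      rw [e3, e4] at e2
      exact e2.symm
    rw [← e']
    exact hu'

/-- The block of `φ₀` in the centralizer has a cyclic defect group. -/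
theorem atC (h1 : Stmt_ATNX) (h2 : Stmt_ATCX) {T : Type} [Group T] [Fintype T]
    {𝔐 : Ideal (integralClosure ℤ ℂ)} {ℓ n : ℕ} [Fact ℓ.Prime] (h𝔐 : 𝔐.IsMaximal)
    (hℓ : (ℓ : integralClosure ℤ ℂ) ∈ 𝔐) {χ₀ : T → ℂ} {P₁ P : Subgroup T} {x₀ : T}
    [Fintype (NP P₁)] {C : Subgroup (NP P₁)} [C.Normal] {ψ₀ : NP P₁ → ℂ} {φ₀ : C → ℂ}
    (hcf : Cf 𝔐 ℓ n χ₀ P₁ P x₀ C ψ₀ φ₀) :
    ∃ (P' : Subgroup C) (x' : C), AtX ℓ n (cen 𝔐 (MonoidHom.id C) φ₀)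
      ((P₁.subgroupOf (Subgroup.normalizer (P₁ : Set T))).subgroupOf C) P' x' := by
  have hPN : (P₁.subgroupOf (Subgroup.normalizer (P₁ : Set T))).Normal := inferInstance
  obtain ⟨hAψ, -⟩ := h1 T 𝔐 ℓ n h𝔐 hℓ χ₀ hcf.irr P₁ P x₀ hcf.at' (mem_norm hcf.at') ψ₀
    hcf.irn hcf.cn
  obtain ⟨P', x', g, -, -, h⟩ := h2 (NP P₁) 𝔐 ℓ n h𝔐 hℓ _ _ _ ψ₀ hcf.irn hAψ C hcf.hC φ₀
    hcf.irc hcf.ov
  exact ⟨P', x', h⟩

/-- `P₁` is central in its centralizer. -/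
theorem center_le {T : Type} [Group T] {P₁ : Subgroup T} {C : Subgroup (NP P₁)}
    (hC : C = Subgroup.centralizer ((P₁.subgroupOf (Subgroup.normalizer (P₁ : Set T)) :
      Subgroup (NP P₁)) : Set (NP P₁))) :
    (P₁.subgroupOf (Subgroup.normalizer (P₁ : Set T))).subgroupOf C ≤ Subgroup.center C := by
  intro x hx
  rw [Subgroup.mem_center_iff]
  intro c
  rw [Subgroup.mem_subgroupOf] at hx
  apply Subtype.ext
  exact (Subgroup.mem_centralizer_iff.mp (hC.le c.2) _ hx).symm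

/-- Powers in the centralizer and in the group. -/
theorem le_zpowers {T : Type} [Group T] {P₁ : Subgroup T} {C : Subgroup (NP P₁)} {c : C}
    (hC : C = Subgroup.centralizer ((P₁.subgroupOf (Subgroup.normalizer (P₁ : Set T)) :
      Subgroup (NP P₁)) : Set (NP P₁)))
    (hab : ∀ u ∈ P₁, ∀ v ∈ P₁, u * v = v * u)
    (h : (P₁.subgroupOf (Subgroup.normalizer (P₁ : Set T))).subgroupOf C ≤
      Subgroup.zpowers c) : P₁ ≤ Subgroup.zpowers ((c : NP P₁) : T) := by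
  intro u hu
  have hPle : P₁ ≤ Subgroup.normalizer (P₁ : Set T) := Subgroup.le_normalizer
  have huC : (⟨u, hPle hu⟩ : NP P₁) ∈ C := by
    rw [hC, Subgroup.mem_centralizer_iff]
    intro v hv
    rw [SetLike.mem_coe, Subgroup.mem_subgroupOf] at hv
    exact Subtype.ext (hab v hv u hu)
  have h9 : (⟨⟨u, hPle hu⟩, huC⟩ : C) ∈ Subgroup.zpowers c := by
    apply h
    rw [Subgroup.mem_subgroupOf, Subgroup.mem_subgroupOf]
    exact hu
  obtain ⟨k, hk⟩ := Subgroup.mem_zpowers_iff.mp h9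
  rw [Subgroup.mem_zpowers_iff]
  exact ⟨k, congrArg (fun z : C => ((z : NP P₁) : T)) hk⟩

end AIN

open Classical AIN in
/-- RCB_AIN. -/
theorem AIN_thm (_h0 : Stmt_ORC) (h1 : Stmt_ATNX) (h2 : Stmt_ATCX) (h3 : Stmt_REGX)
    (h4 : Stmt_OSIX) : Stmt_AIN := by
  intro T _ _ 𝔐 ℓ n hp h𝔐 hℓ χ₀ P₁ P x₀ _ C _ ψ₀ φ₀ hcf
  obtain ⟨P', x', hA⟩ := atC h1 h2 h𝔐 hℓ hcf
  have hcenter := center_le hcf.hC
  have hP1 : Nat.card P₁ = ℓ := hcf.at'.cd.c1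
  have hab : ∀ u ∈ P₁, ∀ v ∈ P₁, u * v = v * u := by
    have hcyc : IsCyclic P₁ := isCyclic_of_prime_card hP1
    intro u hu v hv
    have hcomm := hcyc.isMulCommutative.is_comm.comm (⟨u, hu⟩ : P₁) ⟨v, hv⟩
    exact congrArg Subtype.val hcomm
  have hχC : ∀ χ : T → ℂ, IsIrr χ → IsChr (fun c : C => χ ((c : NP P₁) : T)) := fun χ hχ =>
    (hχ.isChr.comp (Subgroup.normalizer (P₁ : Set T)).subtype).comp C.subtype
  have hval : ∀ φ ∈ II 𝔐 φ₀, φ 1 = φ₀ 1 ∧ ∀ c : C,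
      ¬ P₁ ≤ Subgroup.zpowers ((c : NP P₁) : T) → φ c = φ₀ c := by
    rintro φ ⟨hφ, hφc⟩
    obtain ⟨hr1, hr2, -⟩ := h3 C 𝔐 ℓ n h𝔐 hℓ _ P' x' hcenter φ₀ hcf.irc hA
    have hA' := hA
    rw [← hφc] at hA'
    obtain ⟨-, hs2, -⟩ := h3 C 𝔐 ℓ n h𝔐 hℓ _ P' x' hcenter φ hφ hA'
    obtain ⟨ha, hb⟩ := hr1 φ hφ hφc
    refine ⟨ha, fun c hc => ?_⟩
    by_cases ho : ℓ ∣ orderOf c
    · have hz : ¬ (P₁.subgroupOf (Subgroup.normalizer (P₁ : Set T))).subgroupOf C ≤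
          Subgroup.zpowers c := fun hz => hc (le_zpowers hcf.hC hab hz)
      rw [hr2 c ho hz, hs2 c ho hz]
    · exact hb c ho
  refine ⟨?_, ?_, ?_, ?_⟩
  · intro χ φ hχ hφ
    obtain ⟨m, hm⟩ := (hχC χ hχ).exists_ip hφ.isChr
    rw [ai, hm, Complex.natCast_re, Int.floor_natCast, Int.cast_natCast]
  · intro χ φ g hχ _
    have h5 : ip (fun c : C => χ ((c : NP P₁) : T)) (cj C g φ) =
        ip (fun c : C => χ ((c : NP P₁) : T)) φ := by
      rw [ip, ip]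
      congr 1
      refine Fintype.sum_equiv (MulAut.conjNormal g : C ≃* C).toEquiv _ _ fun c => ?_
      have e1 : χ (((MulAut.conjNormal g c : C) : NP P₁) : T) = χ ((c : NP P₁) : T) := by
        change χ ((g : T) * ((c : NP P₁) : T) * (g : T)⁻¹) = χ ((c : NP P₁) : T)
        exact hχ.isChr.conj_eq _ _
      change χ ((c : NP P₁) : T) * φ (MulAut.conjNormal g c⁻¹) =
        χ (((MulAut.conjNormal g c : C) : NP P₁) : T) * φ (MulAut.conjNormal g c)⁻¹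
      rw [e1, map_inv]
    rw [ai, ai, h5]
  · intro φ hφ φ' hφ'
    obtain ⟨ha, hb⟩ := hval φ hφ
    obtain ⟨ha', hb'⟩ := hval φ' hφ'
    exact ⟨ha.trans ha'.symm, fun c hc => (hb c hc).trans (hb' c hc).symm⟩
  · intro c hc
    have h6 := h4 C 𝔐 ℓ h𝔐 hℓ φ₀ hcf.irc c hc
    have hset : II 𝔐 φ₀ = (((irrF C).filter fun φ : C → ℂ =>
        cen 𝔐 (MonoidHom.id C) φ = cen 𝔐 (MonoidHom.id C) φ₀ : Finset (C → ℂ)) :
          Set (C → ℂ)) := by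
      ext φ
      rw [Finset.mem_coe, Finset.mem_filter, mem_irrF]
      rfl
    rw [finsum_set_coe_eq_finsum_mem (f := fun φ : C → ℂ => φ c), hset,
      finsum_mem_coe_finset]
    have h7 : φ₀ 1 * ∑ φ ∈ irrF C with cen 𝔐 (MonoidHom.id C) φ =
        cen 𝔐 (MonoidHom.id C) φ₀, φ c = 0 := by
      rw [Finset.mul_sum, ← h6]
      refine Finset.sum_congr rfl fun φ hφ => ?_
      have h8 : φ ∈ II 𝔐 φ₀ := by
        rw [hset]
        exact hφ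
      rw [(hval φ h8).1]
    exact (mul_eq_zero.mp h7).resolve_left hcf.irc.one_ne_zero

end Pool.Agent.RCB
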