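import Mathlib
import Pool.Agent.RCB.Defs
import Pool.Agent.DPT.StmtsC
import Pool.Agent.DPK.FINS

/-!
# Theorem P2: the socle of the critical groups has noncyclic Sylow `ℓ`-subgroups

Notation and statements of `DPK`, `DPT`, `DPX`. This improves `DPK.mainK`
(`AlmostSimpleReduction`): in `CritA` the group `A` has noncyclic Sylow `ℓ`-subgroups, here the
simple group `S` has noncyclic Sylow `ℓ`-subgroups. The new ingredient is `S_P1`.
-/

namespace Pool.Agent.RCB

open Pool.Agent.DP Pool.Agent.DPC Pool.Agent.DPM Pool.Agent.DPN Pool.Agent.DPT Pool.Agent.DPF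
open Pool.Agent.DPK
open Pool.Agent.Lib_helper13 Representation
open Pool.Agent.Lib_helper13.Dade (pCore DadeHolds dadeSum)

/-- RCB_LMU: a block contains characters over all the possible linear characters of a central
subgroup.
Proof. For `χ` irreducible let `λ_χ : U →* ℂˣ` be its linear character (`χ (u t) = λ_χ u * χ t`:
`u` acts as a scalar; see `HRM`/`MINX` in `DPN` or `DPT/CEN..` for a lemma of this kind; for example
from a representation which affords `χ`). For `χ` in the block of `χ₀` and `u : U`: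
`cen χ u = red (λ_χ u)` (the class of `u` is `{u}`), so `red (λ_χ u) = red (λ_χ₀ u) = red (μ u)`.
If the order of `u` is prime to `ℓ` then `λ_χ u`, `μ u` are roots of unity of order prime to `ℓ`
with the same reduction, so they are equal (the quotient `ν` is a root of unity of order `m` prime
to `ℓ` with `red ν = 1`; if `ν ≠ 1` then `m = ∏ (1 - ζ)` over the `m`-th roots of unity `ζ ≠ 1`,
or `1 + ν + ... + ν ^ (m - 1) = 0` reduces to `m = 0` in the residue field; contradiction).
Suppose that no `χ` in the block has `λ_χ = μ`. Then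
`S := ∑ (χ in the block) χ 1 * ∑ (u : U) (μ u)⁻¹ * χ u = ∑ χ 1 ^ 2 * ∑ u, (μ u)⁻¹ * λ_χ u = 0`
(orthogonality of linear characters of `U`). On the other hand
`S = ∑ u, (μ u)⁻¹ * ∑ (χ in the block) χ 1 * χ u`, by `OSIX` only the `u` of order prime to `ℓ`
contribute, and for them `χ u = μ u * χ 1`, so `S` is the number of these `u` times `∑ χ 1 ^ 2`,
which is positive (`χ 1` is a positive integer, `χ₀` is in the block): contradiction. -/
def Stmt_LMU : Prop :=
  ∀ (T : Type) [Group T] [Fintype T] (𝔐 : Ideal (integralClosure ℤ ℂ)) (ℓ : ℕ)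
    [Fact ℓ.Prime], 𝔐.IsMaximal → (ℓ : integralClosure ℤ ℂ) ∈ 𝔐 →
    ∀ U : Subgroup T, U ≤ Subgroup.center T → ∀ χ₀ : T → ℂ, IsIrr χ₀ → ∀ μ : U →* ℂˣ,
    (∀ u : U, red 𝔐 ((μ u : ℂˣ) : ℂ) = cen 𝔐 (MonoidHom.id T) χ₀ u) →
    ∃ χ : T → ℂ, IsIrr χ ∧ cen 𝔐 (MonoidHom.id T) χ = cen 𝔐 (MonoidHom.id T) χ₀ ∧
      ∀ (u : U) (t : T), χ (u * t) = ((μ u : ℂˣ) : ℂ) * χ t

/-- RCB_ASX: the Sylow `ℓ`-subgroups of `N / Z(X)` are not cyclic.
Proof. Let `Z = center X`, `z = padicValNat ℓ (card (pCore ℓ X)) = padicValNat ℓ (card Z)`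
(`B0F.val_center`, `DPT/B0F.lean`), `K = ⁅N, N⁆`. `BAG`: `K` is normal in `X`, `pCore ℓ K = ⊥`, the
`ℓ`-subgroups of `K` are cyclic and `v(N) ≤ v(K) + z`, where `v` is the `ℓ`-adic value of the order.
(1) `KK ω ≠ 0`: there is a chain and a character of its stabilizer with central function `ω`, and by
`exists_irr_of_chain`, `exists_irr_of_mult` a `χ : X → ℂ` irreducible with `cen χ = ω`. Let `ξ` be a
constituent of `χ` restricted to `K` (`CLG.exists_under`).
(2) If `ξ` has positive defect, `S_P1` (with `x = 1`; `BAS.central_one`, `BAS.not_congr` in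
`DPK/BAS.lean`; there also the passage from `ip` to the sum in the hypothesis) gives
`dadeSum 𝔐 ℓ χ d = 0`, and `dadeSum_eq` (used in `RCB/Defs.lean`): `KK ℓ d (pCore ℓ X) (cen χ) =
card X * dadeSum = 0`, contradiction.
(3) So `ξ` has defect `0`: `v(K) = v(ξ 1)`. Let `θ''` be a constituent of the restriction of `χ` to
`M` which lies over `ξ` (restrict `χ` first to `M`; all constituents of `χ` on `K` are conjugate
in `X`, so they all have defect `0`, or choose `θ''` first and `ξ` under `θ''`: do (1) in this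
order). `ξ 1` divides `θ'' 1` (`DZS.deg_dvd`). `¬ ℓ ∣ relIndex N M` (an `ℓ`-element of `M / N` is
trivial, hypothesis and Cauchy), so the defect of `θ''` is at most
`v(M) - v(K) = v(N) - v(K) ≤ z`; it is at least `z` as `θ'' 1` divides the index of the central
subgroup `Z` of `M` (or: take the part `pCore ℓ X`; there is a lemma in `DPN/MINX.lean` or
`DPT`, the degree of a character divides the index of the centre; otherwise use that the defect of
`θ''` is `e` with `ℓ ^ e` ..; the lemma is needed for `HasDefect ℓ θ'' z`). So `HasDefect ℓ θ'' z`.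
(4) `GLU` gives (`K := X ⧸ center X`, `π` the quotient map) `μ` with `Pos 𝔐 ℓ π μ (M.map π) ω` and
`DKU ≠ 0`. `DKU ≠ 0` gives an irreducible `ψ` of `(stb σ).comap π` over `μ` with
`cen ψ g = ω g` for `g ∈ (M.map π).comap π = M`; for `g = u ∈ Z` this says `red (μ u) = ω u`. Also
`cen θ'' = ω` on `M`: `SUMM` (4) (`wt θ'' F = wt χ F` for the class functions `F` of `X` supported
on `M`), so for `u ∈ Z`: `cen (id M) θ'' u = ω u` too (the class of a central element is one
element).
(5) `LMU` for `T = M` (as the subgroup `(M.map π).comap π`), `U` = the inverse image of `Z`: `θ` with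
the same central function as `θ''` on `M` (so the same central function on `X`,
`= ω` on `M`; the central function on `X` is a sum of values of the one on `M`) which lies over `μ`.
`MINX` (first part, with the central `ℓ`-subgroup `pCore ℓ X` of `M`): `θ` has defect `z` as
well, `z = padicValNat ℓ (card π.ker)`. This contradicts `Pos`. -/
def Stmt_ASX : Prop :=
  ∀ (X H : Type) [Group X] [Fintype X] [Group H] [Finite H]
    (𝔐 : Ideal (integralClosure ℤ ℂ)) (ℓ : ℕ) [Fact ℓ.Prime], 𝔐.IsMaximal →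
    (ℓ : integralClosure ℤ ℂ) ∈ 𝔐 → S_P1 ℓ → pCore ℓ X ≤ Subgroup.center X →
    ∀ (d : ℕ) (ω : X → (integralClosure ℤ ℂ) ⧸ 𝔐),
    padicValNat ℓ (Nat.card (pCore ℓ X)) < d → KK 𝔐 ℓ d (pCore ℓ X) ω ≠ 0 →
    ∀ M : Subgroup X, M.Normal → ∀ f : X →* H, Function.Surjective f →
    (∀ x, f x = 1 ↔ x ∈ M) → HH ℓ H →
    ∀ N : Subgroup X, N.Normal → Subgroup.center X ≤ N → N ≤ ⁅N, N⁆ ⊔ Subgroup.center X →
    N ≤ M → (∀ x ∈ M, x ^ ℓ ∈ N → x ∈ N) →
    ∃ Q : Subgroup (N ⧸ (Subgroup.center X).subgroupOf N), IsPGroup ℓ Q ∧ ¬ IsCyclic Q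

/-- `A` has a nonabelian simple normal subgroup `S` with trivial centralizer whose Sylow
`ℓ`-subgroups are not cyclic, and `A / S` has a normal Sylow `ℓ`-subgroup `P / S` and a normal
subgroup `M / S` of order prime to `ℓ` such that `A / P` is nilpotent and generated by two
elements and `A / PM` is abelian. -/
def CritB (ℓ : ℕ) (A : Type) [Group A] : Prop :=
  ∃ S P M : Subgroup A, S.Normal ∧ IsSimpleGroup S ∧ (∃ a ∈ S, ∃ b ∈ S, a * b ≠ b * a) ∧
    (∃ Q : Subgroup A, Q ≤ S ∧ IsPGroup ℓ Q ∧ ¬ IsCyclic Q) ∧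
    Subgroup.centralizer (S : Set A) = ⊥ ∧
    ∃ _ : P.Normal, M.Normal ∧ S ≤ P ∧ S ≤ M ∧ (∀ x ∈ P, ∃ k : ℕ, x ^ ℓ ^ k ∈ S) ∧
      ¬ ℓ ∣ P.index ∧ Group.IsNilpotent (A ⧸ P) ∧
      (∃ x y : A, Subgroup.closure {x, y} ⊔ P = ⊤) ∧ (∀ x ∈ M, x ^ ℓ ∈ S → x ∈ S) ∧
      ∀ x y : A, x * y * x⁻¹ * y⁻¹ ∈ P ⊔ M

/-- RCB_MINT: the structure of a minimal counterexample.
Proof. As `MINS_thm` (`DPK/MINS.lean`): the same `N`, `P`, `M` and the same proofs of all the parts
except the first one. The noncyclic `ℓ`-subgroup of `N.map π`: `ASX` (with the `𝔐, d, ω` of `DLO`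
and the `M, H, f` of `OUT1r`; `UNC.perf` gives `N ≤ ⁅N, N⁆ ⊔ center X`) gives a noncyclic
`ℓ`-subgroup of `N ⧸ (center X).subgroupOf N`, which is isomorphic to `N.map π`; take its image. -/
def Stmt_MINT (Cl : ∀ (Y : Type) [Group Y], Prop) : Prop :=
  ∀ (X : Type) [Group X] [Fintype X] (ℓ : ℕ) [Fact ℓ.Prime], S_P1 ℓ →
    pCore ℓ X ≤ Subgroup.center X → Cl X → HR Cl ℓ ((Subgroup.center X).index - 1) →
    ¬ DadeHolds ℓ X →
    CritB ℓ (X ⧸ Subgroup.center X) ∧
      ∃ (Y : Type) (_ : Group Y) (_ : Finite Y) (πY : Y →* X ⧸ Subgroup.center X),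
        Function.Surjective πY ∧ πY.ker = Subgroup.center Y ∧ IsCyclic (Subgroup.center Y) ∧
        Subgroup.center Y ≤ ⁅(⊤ : Subgroup Y), ⊤⁆ ∧ pCore ℓ Y ≤ Subgroup.center Y ∧
        ¬ DadeHolds ℓ Y

/-- RCB_SC2: the Sylow `2`-subgroups of a nonabelian simple group are not cyclic.
Proof. If the Sylow `2`-subgroup is trivial or cyclic and `2` divides the order, `2` is the smallest
prime divisor of the order and the normalizer of the Sylow subgroup is contained in its centralizer
(`IsCyclic.normalizer_le_centralizer` in Mathlib), so there is a normal complement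
(`MonoidHom.ker_transferSylow_isComplement'`, or `IsCyclic.isComplement'`), which is `⊥` or `⊤`:
`S` is a cyclic `2`-group or of odd order. If `S` has even order this contradicts that `S` is not
abelian. -/
def Stmt_SC2 : Prop :=
  ∀ (S : Type) [Group S] [Finite S], IsSimpleGroup S → (∃ a b : S, a * b ≠ b * a) →
    2 ∣ Nat.card S → ∃ Q : Subgroup S, IsPGroup 2 Q ∧ ¬ IsCyclic Q

end Pool.Agent.RCB
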