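import Mathlib
import Pool.Agent.RCB.StA
import Pool.Agent.DPK.BAS
import Pool.Agent.DPT.B0F
import Pool.Agent.DPT.DZS
import Pool.Agent.DPN.MINX
import Pool.Agent.DPN.RDB

/-!
# ASX: the Sylow subgroups of the section are not cyclic
-/

set_option autoImplicit false

namespace Pool.Agent.RCB

open Pool.Agent.DP Pool.Agent.DPC Pool.Agent.DPM Pool.Agent.DPN Pool.Agent.DPT Pool.Agent.DPF
open Pool.Agent.DPK
open Pool.Agent.Lib_helper13 Representation
open Pool.Agent.Lib_helper13.Dade (pCore DadeHolds dadeSum)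

namespace ASX

/-- The condition `Pos` for a subgroup which is the inverse image. -/
theorem pos_elim {L K : Type} [Group L] [Fintype L] [Group K] [Fintype K]
    {𝔐 : Ideal (integralClosure ℤ ℂ)} {ℓ : ℕ} {π : L →* K} {μ : π.ker →* ℂˣ} {M' : Subgroup K}
    {ω : L → (integralClosure ℤ ℂ) ⧸ 𝔐} (hPos : Pos 𝔐 ℓ π μ M' ω) {M : Subgroup L}
    (hM : M'.comap π = M) (θ : M → ℂ) (hθ : IsIrr θ) (hov : OvL π.ker μ M θ)
    (hdef : HasDefect ℓ θ (padicValNat ℓ (Nat.card π.ker))) :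
    ¬ ∀ g ∈ M, cen 𝔐 M.subtype θ g = ω g := by
  subst hM
  exact hPos θ hθ hov hdef

/-- The central function at a central element. -/
theorem cen_central {S X : Type} [Group S] [Fintype S] [Group X]
    (𝔐 : Ideal (integralClosure ℤ ℂ)) (i : S →* X) (hi : Function.Injective i) (ψ : S → ℂ)
    (u : S) (hu : i u ∈ Subgroup.center X) : cen 𝔐 i ψ (i u) = red 𝔐 (ψ u / ψ 1) := by
  classical
  rw [cen, wt]
  congr 2
  rw [Finset.sum_eq_single u]
  · rw [conjInd, if_pos (IsConj.refl _), one_mul]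
  · intro y _ hy
    rw [conjInd, if_neg, zero_mul]
    intro h
    obtain ⟨c, hc⟩ := isConj_iff.mp h
    apply hy
    apply hi
    have h1 : i y = c⁻¹ * i u * c := by
      rw [← hc]
      group
    rw [h1, Subgroup.mem_center_iff.mp hu c⁻¹]
    group
  · intro h
    exact absurd (Finset.mem_univ _) h

/-- A character between. -/
theorem exists_between {K M X : Type} [Group K] [Fintype K] [Group M] [Fintype M] [Group X]
    [Fintype X]
    (j : K →* M) (i : M →* X) {χ : X → ℂ} (hχ : IsIrr χ) {ξ : K → ℂ}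
    (h : ip (resj (i.comp j) χ) ξ ≠ 0) :
    ∃ θ : M → ℂ, IsIrr θ ∧ ip (resj i χ) θ ≠ 0 ∧ ip (resj j θ) ξ ≠ 0 := by
  have h1 := class_fn_expand (resj i χ) (fun g x => (hχ.resj i).conj_eq g x)
  have h2 : resj (i.comp j) χ = fun x => ∑ η ∈ irrF M, ip (resj i χ) η * resj j η x := by
    funext x
    exact congrFun h1 (j x)
  rw [h2, ip_sum] at h
  obtain ⟨η, hη, hne⟩ := Finset.exists_ne_zero_of_sum_ne_zero h
  exact ⟨η, mem_irrF.mp hη, left_ne_zero_of_mul hne, right_ne_zero_of_mul hne⟩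

/-- A normal subgroup of a subgroup. -/
theorem clG_incl {X : Type} [Group X] {K M : Subgroup X} [K.Normal] (h : K ≤ M) :
    ClG (Subgroup.inclusion h) ((MulAut.conjNormal (H := K)).comp M.subtype)
      (QuotientGroup.mk' (K.subgroupOf M)) where
  inj := Subgroup.inclusion_injective h
  act := fun y a => by
    apply Subtype.ext
    exact MulAut.conjNormal_apply (y : X) a
  ker := fun y => by
    rw [QuotientGroup.mk'_apply, QuotientGroup.eq_one_iff, Subgroup.mem_subgroupOf]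
    constructor
    · intro hy
      exact ⟨⟨y, hy⟩, Subtype.ext rfl⟩
    · rintro ⟨a, rfl⟩
      exact a.2

end ASX

open ASX in
theorem ASX_thm (h1 : Stmt_LMU) (h2 : Pool.Agent.DPK.Stmt_BAG) (h3 : Pool.Agent.DPT.Stmt_GLU)
    (h4 : Pool.Agent.DPN.Stmt_MINX) (h5 : Pool.Agent.DP.Stmt_SUMM) : Stmt_ASX := by
  classical
  intro X H _ _ _ _ 𝔐 ℓ hp h𝔐 hℓ hP1 hcore d ω hd hKK M hM f hf hfM hHH N hN hZN hNK hNM hroot
  by_contra hcon
  have hcyc : ∀ Q : Subgroup (N ⧸ (Subgroup.center X).subgroupOf N),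
      IsPGroup ℓ Q → IsCyclic Q := by
    intro Q hQ
    by_contra hQ'
    exact hcon ⟨Q, hQ, hQ'⟩
  obtain ⟨hKn, hNeq, hKcore, hKcyc, hval⟩ := h2 X ℓ hcore N hN hZN hNK hcyc
  have hKN : ⁅N, N⁆ ≤ N := le_of_le_of_eq le_sup_left hNeq.symm
  have hprime : 𝔐.IsPrime := h𝔐.isPrime
  have hZM : Subgroup.center X ≤ M := hZN.trans hNM
  -- the character of the whole group
  obtain ⟨χ, hχ, hcen⟩ : ∃ χ : X → ℂ, IsIrr χ ∧ cen 𝔐 (MonoidHom.id X) χ = ω := by
    have hKK' := hKK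
    rw [Lib_helper13.KK] at hKK'
    obtain ⟨σ, hσ, hne⟩ := Finset.exists_ne_zero_of_sum_ne_zero hKK'
    have hcnt : cnt 𝔐 ℓ d (stb σ).subtype ω ≠ 0 := by
      intro h0
      apply hne
      rw [h0, Nat.cast_zero, mul_zero, mul_zero]
    rw [cnt] at hcnt
    have hne' : Nonempty {θ : stb σ → ℂ // IsIrr θ ∧ (HasDefect ℓ θ d ∧
        ∀ g, cen 𝔐 (stb σ).subtype θ g = ω g)} := by
      by_contra he
      rw [not_nonempty_iff] at he
      exact hcnt (Nat.card_eq_zero.mpr (Or.inl he))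
    obtain ⟨ψ, hψ, -, hψ2⟩ := hne'
    obtain ⟨χ, hχ, h⟩ := exists_irr_of_mult 𝔐 hψ
      (exists_irr_of_chain 𝔐 hℓ (mem_Ch.mp hσ) hψ)
    exact ⟨χ, hχ, h.trans (funext hψ2)⟩
  -- the characters of the normal subgroups
  obtain ⟨ξ, hξ, hip⟩ := CLG.exists_under (⁅N, N⁆ : Subgroup X).subtype hχ
  have hKM : ⁅N, N⁆ ≤ M := hKN.trans hNM
  obtain ⟨θ, hθ, hip1, hip2⟩ := exists_between (Subgroup.inclusion hKM) M.subtype hχ
    (ξ := ξ) hip
  have hξd : Dade.HasDefect ℓ ξ 0 := by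
    by_contra hnd
    have hz := hP1 X ⁅N, N⁆ hKn hKcore 𝔐 h𝔐 hℓ ξ hξ hnd 1
      (by rw [BAS.central_one hξ]; exact BAS.not_congr h𝔐) (fun Q hQ _ => hKcyc Q hQ) χ hχ
      (by
        rw [finsum_eq_sum_of_fintype]
        intro h
        apply hip
        rw [ip]
        have h2 : ∑ g : (⁅N, N⁆ : Subgroup X), resj (⁅N, N⁆ : Subgroup X).subtype χ g * ξ g⁻¹ =
          0 := h
        rw [h2, zero_div]) d
    have h6 := Lib_helper13.dadeSum_eq 𝔐 ℓ d hχ
    rw [hz, hcen] at h6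
    apply hKK
    rw [← h6]
    simp
  obtain ⟨n, hn, hvn⟩ := hξd
  obtain ⟨m, hm0, hm⟩ := hθ.exists_degree
  have hdvd : n ∣ m := DZS.deg_dvd (clG_incl hKM) hθ hξ hip2 hm hn
  -- the central `ℓ`-subgroup of `M`
  have hZX : pCore ℓ X ≤ M := hcore.trans hZM
  have hZc : (pCore ℓ X).subgroupOf M ≤ Subgroup.center M := by
    intro z hz
    rw [Subgroup.mem_center_iff]
    intro g
    apply Subtype.ext
    exact Subgroup.mem_center_iff.mp (hcore hz) g
  have hZp : IsPGroup ℓ ((pCore ℓ X).subgroupOf M) :=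
    (isPGroup_pCore (G := X) ℓ).comap_of_injective M.subtype M.subtype_injective
  have hZcard : Nat.card ((pCore ℓ X).subgroupOf M) = Nat.card (pCore ℓ X) :=
    Nat.card_congr (Subgroup.subgroupOfEquivOfLe hZX).toEquiv
  have hZnM : ((pCore ℓ X).subgroupOf M).Normal := ⟨fun w hw g => by
    have h6 := Subgroup.mem_center_iff.mp (hZc hw) g
    rw [h6, mul_inv_cancel_right]
    exact hw⟩
  have hvM : padicValNat ℓ (Nat.card M) = padicValNat ℓ (Nat.card N) :=
    DZS.val_eq ℓ N M hN hNM hroot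
  have hθd : HasDefect ℓ θ (padicValNat ℓ (Nat.card ((pCore ℓ X).subgroupOf M))) := by
    have : Fintype (M ⧸ (pCore ℓ X).subgroupOf M) := Fintype.ofFinite _
    have : Fintype (ConjClasses (M ⧸ (pCore ℓ X).subgroupOf M)) := Fintype.ofFinite _
    obtain ⟨r, hr⟩ := MINX.exists_reps (ℓ := ℓ) ((pCore ℓ X).subgroupOf M) hZp
    obtain ⟨lam, hlam⟩ := BTC.exists_cc hZc hθ
    obtain ⟨n', M', hn', hn1, hcM, hM0, hdef, -⟩ := MINX.exists_codegZ (ℓ := ℓ)
      ((pCore ℓ X).subgroupOf M) hZc hθ hlam r (fun C => (hr C).1)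
    obtain ⟨m', hm', hv'⟩ := hdef
    have hmm : m' = m := by
      have h6 : (m' : ℂ) = m := hm'.symm.trans hm
      exact_mod_cast h6
    subst hmm
    have h7 : padicValNat ℓ n ≤ padicValNat ℓ m' := by
      obtain ⟨r', rfl⟩ := hdvd
      have h8 := (Nat.mul_ne_zero_iff.mp hm0.ne')
      rw [padicValNat.mul h8.1 h8.2]
      omega
    refine ⟨m', hm', ?_⟩
    have hvn' : padicValNat ℓ (Nat.card ↥⁅N, N⁆) = 0 + padicValNat ℓ n := hvn
    have hZv : padicValNat ℓ (Nat.card ((pCore ℓ X).subgroupOf M)) =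
        padicValNat ℓ (Nat.card (pCore ℓ X)) := by rw [hZcard]
    omega
  -- the linear character of the centre
  have : Fintype (X ⧸ Subgroup.center X) := Fintype.ofFinite _
  obtain ⟨π, hπs, hker⟩ : ∃ π : X →* X ⧸ Subgroup.center X, Function.Surjective π ∧
      π.ker = Subgroup.center X :=
    ⟨QuotientGroup.mk' _, QuotientGroup.mk'_surjective _, QuotientGroup.ker_mk' _⟩
  obtain ⟨μ, hPos, hDKU⟩ := h3 X H 𝔐 ℓ h𝔐 hℓ hcore d ω hd hKK M hZM f hf hfM hHH
    (X ⧸ Subgroup.center X) π hπs hker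
  have hred : ∀ (u : X) (hu : u ∈ π.ker), red 𝔐 ((μ ⟨u, hu⟩ : ℂˣ) : ℂ) = ω u := by
    intro u hu
    rw [DPF.DKU] at hDKU
    obtain ⟨σ, hσ, hne⟩ := Finset.exists_ne_zero_of_sum_ne_zero hDKU
    have hne' : Nonempty {ψ : ↥((stb σ).comap π) → ℂ // IsIrr ψ ∧ OvL π.ker μ _ ψ ∧
        HasDefect ℓ ψ d ∧ ∀ g ∈ (M.map π).comap π, cen 𝔐 ((stb σ).comap π).subtype ψ g = ω g} := by
      by_contra he
      rw [not_nonempty_iff] at he
      apply hne
      rw [Nat.card_eq_zero.mpr (Or.inl he), Nat.cast_zero, mul_zero, mul_zero]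
    obtain ⟨ψ, hψ, hov, -, hψc⟩ := hne'
    have hu1 : π u = 1 := hu
    have huS : u ∈ (stb σ).comap π := by
      rw [Subgroup.mem_comap, hu1]
      exact one_mem _
    have huM : u ∈ (M.map π).comap π := by
      rw [Subgroup.mem_comap, hu1]
      exact one_mem _
    have h6 := hψc u huM
    have h7 := cen_central 𝔐 ((stb σ).comap π).subtype (Subgroup.subtype_injective _) ψ ⟨u, huS⟩
      (by rw [hker] at hu; exact hu)
    have h8 := hov ⟨u, huS⟩ 1 hu
    rw [mul_one] at h8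
    rw [← h6]
    refine Eq.trans ?_ h7.symm
    rw [h8, mul_div_assoc, div_self hψ.one_ne_zero, mul_one]
  -- the central function of `θ`
  have hcenθ : ∀ g ∈ M, cen 𝔐 M.subtype θ g = ω g := by
    intro g hg
    have h6 := (h5 M X (X ⧸ M) M.subtype (MulAut.conjNormal (H := M)) (QuotientGroup.mk' M)
      (BAS.clG_normal M)).2.2.2 θ χ (fun x => conjInd x g) hθ hχ hip1
      (fun a x => conjInd_conj a x g) (by
        intro y hy
        rw [conjInd, if_neg]
        intro hc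
        apply hy
        obtain ⟨c, hc⟩ := isConj_iff.mp hc
        rw [Subgroup.range_subtype]
        have h7 : y = c⁻¹ * g * c⁻¹⁻¹ := by
          rw [← hc]
          group
        rw [h7]
        exact hM.conj_mem g hg c⁻¹)
    rw [← hcen, cen, cen]
    exact congrArg (red 𝔐) h6.symm
  -- the linear character of the central subgroup of `M`
  have hUc : (Subgroup.center X).subgroupOf M ≤ Subgroup.center M := by
    intro z hz
    rw [Subgroup.mem_center_iff]
    intro g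
    apply Subtype.ext
    exact Subgroup.mem_center_iff.mp hz g
  let τ : ((Subgroup.center X).subgroupOf M) →* π.ker :=
    (M.subtype.comp ((Subgroup.center X).subgroupOf M).subtype).codRestrict π.ker (fun u => by
      rw [hker]
      exact u.2)
  have hμ' : ∀ u : (Subgroup.center X).subgroupOf M,
      red 𝔐 (((μ.comp τ) u : ℂˣ) : ℂ) = cen 𝔐 (MonoidHom.id M) θ u := by
    intro u
    have hu1 : ((u : M) : X) ∈ Subgroup.center X := u.2
    have h6 := cen_central 𝔐 (MonoidHom.id M) Function.injective_id θ (u : M) (hUc u.2)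
    have h7 := cen_central 𝔐 M.subtype M.subtype_injective θ (u : M) hu1
    have h8 := hcenθ ((u : M) : X) (u : M).2
    have h9 := hred ((u : M) : X) (by rw [hker]; exact hu1)
    refine Eq.trans h9 ?_
    rw [← h8]
    exact h7.trans h6.symm
  obtain ⟨θ₁, hθ₁, hcen₁, hmul⟩ := h1 M 𝔐 ℓ h𝔐 hℓ _ hUc θ hθ (μ.comp τ) hμ'
  have hdef₁ := (h4 M 𝔐 ℓ h𝔐 hℓ _ hZc hZp θ hθ hθd).1 θ₁ hθ₁ hcen₁
  have hMM : (M.map π).comap π = M := by
    rw [Subgroup.comap_map_eq, hker]
    exact sup_eq_left.mpr hZM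
  refine pos_elim hPos hMM θ₁ hθ₁ ?_ ?_ ?_
  · intro s t hs
    have hs' : s ∈ (Subgroup.center X).subgroupOf M := by
      rw [Subgroup.mem_subgroupOf, ← hker]
      exact hs
    exact hmul ⟨s, hs'⟩ t
  · rw [hker, B0F.val_center ℓ hcore, ← hZcard]
    exact hdef₁
  · intro g hg
    rw [RDB.cen_of_id 𝔐 M.subtype hθ₁ hθ hcen₁]
    exact hcenθ g hg

end Pool.Agent.RCB
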