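import Mathlib
import Pool.Agent.RCB.StA

/-!
# Theorem P2, stronger form: only the blocks over blocks with noncyclic defect groups of the
quasisimple normal subgroup have to be considered

`StA.lean` (`Stmt_LMU`, `Stmt_ASX`, `Stmt_MINT`) is the weaker form.
-/

namespace Pool.Agent.RCB

open Pool.Agent.DP Pool.Agent.DPC Pool.Agent.DPM Pool.Agent.DPN Pool.Agent.DPT Pool.Agent.DPF
open Pool.Agent.DPK
open Pool.Agent.Lib_helper13 Representation
open Pool.Agent.Lib_helper13.Dade (pCore DadeHolds dadeSum IsIrrChar)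

/-- RCB_ASY: the blocks of `⁅N, N⁆` below a nonvanishing chain sum do not have cyclic defect groups.
Proof. `z = padicValNat ℓ (card (pCore ℓ X)) = padicValNat ℓ (card (center X))`
(`B0F.val_center`, `DPT/B0F.lean`), `K = ⁅N, N⁆` is normal in `X`, `v` is the `ℓ`-adic value of the
order. `N = K ⊔ center X`, so `v(N) ≤ v(K) + z` (`card N` divides `card K * card (center X)`).
Suppose there is `x : K` with `cen ξ x ≠ 0` such that all `ℓ`-subgroups of `K` which commute with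
`x` are cyclic.
(1) If `ξ` has positive defect, `S_P1` (`x`; `cen` and `Dade.central`, `CongrMod`: as in
`P1_of_inner`, `RCB/Defs.lean`; the passage from `ip` to the sum as at the end of
`DPK/BAS.lean`) gives `dadeSum 𝔐 ℓ χ d = 0`, and `dadeSum_eq` (used in `RCB/Defs.lean`):
`KK ℓ d (pCore ℓ X) (cen χ) = card X * dadeSum = 0`, contradiction.
(2) So `ξ` has defect `0`. All constituents of `χ` on `K` are conjugate in `X`, so they have
defect `0`. Let `θ''` be a constituent of the restriction of `χ` to `M`, `ξ''` a constituent of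
`θ''` on `K`: it is a constituent of `χ`, so it has defect `0`. `ξ'' 1` divides `θ'' 1`
(`DZS.deg_dvd`). `¬ ℓ ∣ relIndex N M` (an element of `ℓ`-power order of `M / N` is
trivial: hypothesis and Cauchy), so the defect of `θ''` is at most
`v(M) - v(K) = v(N) - v(K) ≤ z`, and at least `z` (`DLO.defect_ge`, `DPN/DLO.lean`, for the
central subgroup `pCore ℓ X` of `M`). So `HasDefect ℓ θ'' z`.
(3) `GLU` gives (`K := X ⧸ center X`, `π` the quotient map) `μ` with `Pos 𝔐 ℓ π μ (M.map π) ω` and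
`DKU ≠ 0`. `DKU ≠ 0` gives an irreducible `ψ` of `(stb σ).comap π` over `μ` with
`cen ψ g = ω g` for `g ∈ (M.map π).comap π = M`; for `g = u ∈ center X` this says
`red (μ u) = ω u`. Also `cen θ'' = ω` on `M`: `SUMM` (4) (`wt θ'' F = wt χ F` for the class
functions `F` of `X` supported on `M`), so for `u ∈ center X`: `cen (id M) θ'' u = ω u` too (the
class of a central element is one element).
(4) `LMU` for `T = M` (as the subgroup `(M.map π).comap π`), `U` = the inverse image of `center X`: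
`θ` with the same central function as `θ''` on `M` (so the same central function on `X`,
`= ω` on `M`; the central function on `X` is a sum of values of the one on `M`) which lies over `μ`.
`MINX` (first part, with the central `ℓ`-subgroup `pCore ℓ X` of `M`): `θ` has defect `z` as
well, `z = padicValNat ℓ (card π.ker)`. This contradicts `Pos`. -/
def Stmt_ASY : Prop :=
  ∀ (X H : Type) [Group X] [Fintype X] [Group H] [Finite H]
    (𝔐 : Ideal (integralClosure ℤ ℂ)) (ℓ : ℕ) [Fact ℓ.Prime], 𝔐.IsMaximal →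
    (ℓ : integralClosure ℤ ℂ) ∈ 𝔐 → S_P1 ℓ → pCore ℓ X ≤ Subgroup.center X →
    ∀ (d : ℕ) (ω : X → (integralClosure ℤ ℂ) ⧸ 𝔐),
    padicValNat ℓ (Nat.card (pCore ℓ X)) < d → KK 𝔐 ℓ d (pCore ℓ X) ω ≠ 0 →
    ∀ M : Subgroup X, M.Normal → ∀ f : X →* H, Function.Surjective f →
    (∀ x, f x = 1 ↔ x ∈ M) → HH ℓ H →
    ∀ N : Subgroup X, N.Normal → Subgroup.center X ≤ N → N ≤ ⁅N, N⁆ ⊔ Subgroup.center X →
    N ≤ M → (∀ x ∈ M, x ^ ℓ ∈ N → x ∈ N) → pCore ℓ ↥⁅N, N⁆ = ⊥ →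
    ∀ χ : X → ℂ, IsIrr χ → cen 𝔐 (MonoidHom.id X) χ = ω → ∀ [Fintype ↥⁅N, N⁆],
    ∀ ξ : ↥⁅N, N⁆ → ℂ, IsIrr ξ → ip (resj (⁅N, N⁆ : Subgroup X).subtype χ) ξ ≠ 0 →
    ∀ x : ↥⁅N, N⁆, cen 𝔐 (MonoidHom.id ↥⁅N, N⁆) ξ x ≠ 0 →
    ∃ Q : Subgroup ↥⁅N, N⁆, IsPGroup ℓ Q ∧ (∀ u ∈ Q, u * x = x * u) ∧ ¬ IsCyclic Q

/-- RCB_LRG: a nonvanishing chain sum of large defect belongs to a block with large defect.
Proof. As in `DZC_thm` (`DPM/DZC.lean`): the `χ` and the case distinction on the block of `χ` (is there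
a `χ'` in the block of defect `e` with `card (pCore ℓ G) < ℓ ^ e` or not); in the second case
`DZC_thm` shows `ℓ ^ d ≤ card (pCore ℓ G)`, which contradicts the hypothesis on `d`
(`card (pCore ℓ X) = ℓ ^ padicValNat ..`). `dadeSum ≠ 0` is `dadeSum_eq` (`card X * dadeSum = KK`). -/
def Stmt_LRG : Prop :=
  ∀ (X : Type) [Group X] [Fintype X]
    (𝔐 : Ideal (integralClosure ℤ ℂ)) (ℓ : ℕ) [Fact ℓ.Prime], 𝔐.IsMaximal →
    (ℓ : integralClosure ℤ ℂ) ∈ 𝔐 → pCore ℓ X ≤ Subgroup.center X →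
    ∀ (d : ℕ) (ω : X → (integralClosure ℤ ℂ) ⧸ 𝔐),
    padicValNat ℓ (Nat.card (pCore ℓ X)) < d → KK 𝔐 ℓ d (pCore ℓ X) ω ≠ 0 →
    ∃ χ : X → ℂ, IsIrr χ ∧ cen 𝔐 (MonoidHom.id X) χ = ω ∧ dadeSum 𝔐 ℓ χ d ≠ 0 ∧
      ∃ (χ' : X → ℂ) (e : ℕ), IsIrrChar χ' ∧ Dade.SameBlock 𝔐 χ' χ ∧ Dade.HasDefect ℓ χ' e ∧
        Nat.card (pCore ℓ X) < ℓ ^ e

/-- The alternating sums of Dade's conjecture vanish for all the blocks of `Y` with defect groups
larger than `O_ℓ(Y)` which cover a block of the normal subgroup `K` whose defect groups are not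
cyclic (if `O_ℓ(K) ≠ 1`: for all the blocks). -/
def DHO (ℓ : ℕ) (Y : Type) [Group Y] (K : Subgroup Y) : Prop :=
  ∀ 𝔐 : Ideal (integralClosure ℤ ℂ), 𝔐.IsMaximal → (ℓ : integralClosure ℤ ℂ) ∈ 𝔐 →
    ∀ χ : Y → ℂ, IsIrrChar χ →
      (∃ (χ' : Y → ℂ) (e : ℕ), IsIrrChar χ' ∧ Dade.SameBlock 𝔐 χ' χ ∧ Dade.HasDefect ℓ χ' e ∧
        Nat.card (pCore ℓ Y) < ℓ ^ e) →
      ∀ ξ : K → ℂ, IsIrrChar ξ → ∑ᶠ k : K, χ k * ξ k⁻¹ ≠ 0 →
      (pCore ℓ K = ⊥ → ∀ x : K, ¬ Dade.CongrMod 𝔐 (Dade.central ξ x) 0 →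
        ∃ Q : Subgroup K, IsPGroup ℓ Q ∧ (∀ u ∈ Q, u * x = x * u) ∧ ¬ IsCyclic Q) →
      ∀ d : ℕ, dadeSum 𝔐 ℓ χ d = 0

/-- `S` is a nonabelian simple normal subgroup of `A` with trivial centralizer whose Sylow
`ℓ`-subgroups are not cyclic, and `A / S` has a normal Sylow `ℓ`-subgroup `P / S` and a normal
subgroup `M / S` of order prime to `ℓ` such that `A / P` is nilpotent and generated by two
elements and `A / PM` is abelian. -/
def CritS (ℓ : ℕ) (A : Type) [Group A] (S : Subgroup A) : Prop :=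
  S.Normal ∧ IsSimpleGroup S ∧ (∃ a ∈ S, ∃ b ∈ S, a * b ≠ b * a) ∧
    (∃ Q : Subgroup A, Q ≤ S ∧ IsPGroup ℓ Q ∧ ¬ IsCyclic Q) ∧
    Subgroup.centralizer (S : Set A) = ⊥ ∧
    ∃ (P M : Subgroup A) (_ : P.Normal), M.Normal ∧ S ≤ P ∧ S ≤ M ∧
      (∀ x ∈ P, ∃ k : ℕ, x ^ ℓ ^ k ∈ S) ∧ ¬ ℓ ∣ P.index ∧ Group.IsNilpotent (A ⧸ P) ∧
      (∃ x y : A, Subgroup.closure {x, y} ⊔ P = ⊤) ∧ (∀ x ∈ M, x ^ ℓ ∈ S → x ∈ S) ∧
      ∀ x y : A, x * y * x⁻¹ * y⁻¹ ∈ P ⊔ M

/-- RCB_MINU: the structure of a minimal counterexample, stronger form.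
Proof. As `MINS_thm` (`DPK/MINS.lean`) with `S = N.map π`, `π = mk' (center X)`: the same `N`, `P`,
`M`, `H`, `f`, `𝔐`, `d`, `ω` and the same proofs of all the parts of `CritS` except the
noncyclic `ℓ`-subgroup of `S`. `S.comap π = N` as `center X ≤ N`. `UNC.perf` gives
`N ≤ ⁅N, N⁆ ⊔ center X`; `K = ⁅N, N⁆`. `LRG` gives `χ` with `cen χ = ω`, `dadeSum 𝔐 ℓ χ d ≠ 0` and
the large block.
Not `DHO`: suppose `DHO ℓ X K`. Let `ξ` be a constituent of `χ` on `K` (`CLG.exists_under`). By `ASY`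
the condition on `ξ` in `DHO` is satisfied (if `pCore ℓ K = ⊥`; `cen` and `Dade.central`,
`CongrMod` as in `P1_of_inner`, `RCB/Defs.lean`), so `dadeSum 𝔐 ℓ χ d = 0`: contradiction.
The noncyclic `ℓ`-subgroup of `S`: otherwise all the `ℓ`-subgroups of
`N ⧸ (center X).subgroupOf N` (isomorphic to `S`) are cyclic, by `BAG` `pCore ℓ K = ⊥` and all the
`ℓ`-subgroups of `K` are cyclic; `ASY` for `ξ` and `x = 1` (`cen ξ 1 = 1 ≠ 0`) gives a contradiction. -/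
def Stmt_MINU (Cl : ∀ (Y : Type) [Group Y], Prop) : Prop :=
  ∀ (X : Type) [Group X] [Fintype X] (ℓ : ℕ) [Fact ℓ.Prime], S_P1 ℓ →
    pCore ℓ X ≤ Subgroup.center X → Cl X → HR Cl ℓ ((Subgroup.center X).index - 1) →
    ¬ DadeHolds ℓ X →
    ∃ S : Subgroup (X ⧸ Subgroup.center X), CritS ℓ (X ⧸ Subgroup.center X) S ∧
      ¬ DHO ℓ X ⁅S.comap (QuotientGroup.mk' (Subgroup.center X)),
        S.comap (QuotientGroup.mk' (Subgroup.center X))⁆

end Pool.Agent.RCB
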