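import Mathlib
import Pool.Agent.RCB.StB
import Pool.Agent.RCB.ASX
import Pool.Agent.DPK.BAG

/-!
# ASY: the blocks of the section below a nonvanishing chain sum
-/

set_option autoImplicit false

namespace Pool.Agent.RCB

open Pool.Agent.DP Pool.Agent.DPC Pool.Agent.DPM Pool.Agent.DPN Pool.Agent.DPT Pool.Agent.DPF
open Pool.Agent.DPK
open Pool.Agent.Lib_helper13 Representation
open Pool.Agent.Lib_helper13.Dade (pCore DadeHolds dadeSum IsIrrChar)

open ASX in
theorem ASY_thm (h1 : Stmt_LMU) (h3 : Pool.Agent.DPT.Stmt_GLU)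
    (h4 : Pool.Agent.DPN.Stmt_MINX) (h5 : Pool.Agent.DP.Stmt_SUMM) : Stmt_ASY := by
  classical
  intro X H _ _ _ _ 𝔐 ℓ hp h𝔐 hℓ hP1 hcore d ω hd hKK M hM f hf hfM hHH N hN hZN hNK hNM hroot
    hKcore χ hχ hcen hFt ξ hξ hip x hx
  by_contra hcon
  have hKcyc : ∀ Q : Subgroup ↥⁅N, N⁆, IsPGroup ℓ Q → (∀ u ∈ Q, u * x = x * u) → IsCyclic Q := by
    intro Q hQ hQx
    by_contra hQ'
    exact hcon ⟨Q, hQ, hQx, hQ'⟩
  have hKn : (⁅N, N⁆ : Subgroup X).Normal := Subgroup.commutator_normal N N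
  have hKN : ⁅N, N⁆ ≤ N := Subgroup.commutator_le_right N N
  have hNeq : N = ⁅N, N⁆ ⊔ Subgroup.center X := le_antisymm hNK (sup_le hKN hZN)
  have hval : padicValNat ℓ (Nat.card N) ≤
      padicValNat ℓ (Nat.card ↥⁅N, N⁆) + padicValNat ℓ (Nat.card (pCore ℓ X)) := by
    have h1 : Nat.card N ∣ Nat.card ↥⁅N, N⁆ * Nat.card (Subgroup.center X) := by
      have h2 : Nat.card N = Nat.card ↥⁅N, N⁆ * (⁅N, N⁆ : Subgroup X).relIndex N := by
        have h3 := Subgroup.card_mul_index ((⁅N, N⁆ : Subgroup X).subgroupOf N)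
        rw [Nat.card_congr (Subgroup.subgroupOfEquivOfLe hKN).toEquiv] at h3
        exact h3.symm
      have h4 : (⁅N, N⁆ : Subgroup X).relIndex N =
          (⁅N, N⁆ : Subgroup X).relIndex (Subgroup.center X) := by
        have h5 := Subgroup.relIndex_sup_left (K := ⁅N, N⁆) (H := Subgroup.center X)
        rw [← hNeq] at h5
        exact h5
      rw [h2, h4]
      exact mul_dvd_mul_left _ (Subgroup.relIndex_dvd_card _ _)
    have h2 := BAG.val_le (ℓ := ℓ) h1 (mul_ne_zero Nat.card_pos.ne' Nat.card_pos.ne')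
    rw [padicValNat.mul Nat.card_pos.ne' Nat.card_pos.ne'] at h2
    exact h2.trans (Nat.add_le_add_left (BAG.val_center ℓ) _)
  have hprime : 𝔐.IsPrime := h𝔐.isPrime
  have hZM : Subgroup.center X ≤ M := hZN.trans hNM
  have hKM : ⁅N, N⁆ ≤ M := hKN.trans hNM
  obtain ⟨θ, hθ, hip1, hip2⟩ := exists_between (Subgroup.inclusion hKM) M.subtype hχ
    (ξ := ξ) hip
  have hξd : Dade.HasDefect ℓ ξ 0 := by
    by_contra hnd
    have hz := hP1 X ⁅N, N⁆ hKn hKcore 𝔐 h𝔐 hℓ ξ hξ hnd x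
      (by
        intro h0
        apply hx
        rw [central_eq] at h0
        have h7 := (red_eq_iff 𝔐 (isIntegral_wt_conj _ hξ x) isIntegral_zero).mpr h0
        rw [red_zero] at h7
        exact h7) hKcyc χ hχ
      (by
        rw [finsum_eq_sum_of_fintype]
        intro h
        apply hip
        rw [ip]
        have h2 : ∑ g : (⁅N, N⁆ : Subgroup X), resj (⁅N, N⁆ : Subgroup X).subtype χ g * ξ g⁻¹ =
          0 := h
        rw [h2, zero_div]) d
    have h6 := Lib_helper13.dadeSum_eq 𝔐 ℓ d hχ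
    rw [hz, hcen] at h6
    apply hKK
    rw [← h6]
    simp
  obtain ⟨n, hn, hvn⟩ := hξd
  obtain ⟨m, hm0, hm⟩ := hθ.exists_degree
  have hdvd : n ∣ m := DZS.deg_dvd (clG_incl hKM) hθ hξ hip2 hm hn
  -- the central `ℓ`-subgroup of `M`
  have hZX : pCore ℓ X ≤ M := hcore.trans hZM
  have hZc : (pCore ℓ X).subgroupOf M ≤ Subgroup.center M := by
    intro z hz
    rw [Subgroup.mem_center_iff]
    intro g
    apply Subtype.ext
    exact Subgroup.mem_center_iff.mp (hcore hz) g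
  have hZp : IsPGroup ℓ ((pCore ℓ X).subgroupOf M) :=
    (isPGroup_pCore (G := X) ℓ).comap_of_injective M.subtype M.subtype_injective
  have hZcard : Nat.card ((pCore ℓ X).subgroupOf M) = Nat.card (pCore ℓ X) :=
    Nat.card_congr (Subgroup.subgroupOfEquivOfLe hZX).toEquiv
  have hZnM : ((pCore ℓ X).subgroupOf M).Normal := ⟨fun w hw g => by
    have h6 := Subgroup.mem_center_iff.mp (hZc hw) g
    rw [h6, mul_inv_cancel_right]
    exact hw⟩
  have hvM : padicValNat ℓ (Nat.card M) = padicValNat ℓ (Nat.card N) :=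
    DZS.val_eq ℓ N M hN hNM hroot
  have hθd : HasDefect ℓ θ (padicValNat ℓ (Nat.card ((pCore ℓ X).subgroupOf M))) := by
    have : Fintype (M ⧸ (pCore ℓ X).subgroupOf M) := Fintype.ofFinite _
    have : Fintype (ConjClasses (M ⧸ (pCore ℓ X).subgroupOf M)) := Fintype.ofFinite _
    obtain ⟨r, hr⟩ := MINX.exists_reps (ℓ := ℓ) ((pCore ℓ X).subgroupOf M) hZp
    obtain ⟨lam, hlam⟩ := BTC.exists_cc hZc hθ
    obtain ⟨n', M', hn', hn1, hcM, hM0, hdef, -⟩ := MINX.exists_codegZ (ℓ := ℓ)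
      ((pCore ℓ X).subgroupOf M) hZc hθ hlam r (fun C => (hr C).1)
    obtain ⟨m', hm', hv'⟩ := hdef
    have hmm : m' = m := by
      have h6 : (m' : ℂ) = m := hm'.symm.trans hm
      exact_mod_cast h6
    subst hmm
    have h7 : padicValNat ℓ n ≤ padicValNat ℓ m' := by
      obtain ⟨r', rfl⟩ := hdvd
      have h8 := (Nat.mul_ne_zero_iff.mp hm0.ne')
      rw [padicValNat.mul h8.1 h8.2]
      omega
    refine ⟨m', hm', ?_⟩
    have hvn' : padicValNat ℓ (Nat.card ↥⁅N, N⁆) = 0 + padicValNat ℓ n := hvn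
    have hZv : padicValNat ℓ (Nat.card ((pCore ℓ X).subgroupOf M)) =
        padicValNat ℓ (Nat.card (pCore ℓ X)) := by rw [hZcard]
    omega
  -- the linear character of the centre
  have : Fintype (X ⧸ Subgroup.center X) := Fintype.ofFinite _
  obtain ⟨π, hπs, hker⟩ : ∃ π : X →* X ⧸ Subgroup.center X, Function.Surjective π ∧
      π.ker = Subgroup.center X :=
    ⟨QuotientGroup.mk' _, QuotientGroup.mk'_surjective _, QuotientGroup.ker_mk' _⟩
  obtain ⟨μ, hPos, hDKU⟩ := h3 X H 𝔐 ℓ h𝔐 hℓ hcore d ω hd hKK M hZM f hf hfM hHH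
    (X ⧸ Subgroup.center X) π hπs hker
  have hred : ∀ (u : X) (hu : u ∈ π.ker), red 𝔐 ((μ ⟨u, hu⟩ : ℂˣ) : ℂ) = ω u := by
    intro u hu
    rw [DPF.DKU] at hDKU
    obtain ⟨σ, hσ, hne⟩ := Finset.exists_ne_zero_of_sum_ne_zero hDKU
    have hne' : Nonempty {ψ : ↥((stb σ).comap π) → ℂ // IsIrr ψ ∧ OvL π.ker μ _ ψ ∧
        HasDefect ℓ ψ d ∧ ∀ g ∈ (M.map π).comap π, cen 𝔐 ((stb σ).comap π).subtype ψ g = ω g} := by
      by_contra he
      rw [not_nonempty_iff] at he
      apply hne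
      rw [Nat.card_eq_zero.mpr (Or.inl he), Nat.cast_zero, mul_zero, mul_zero]
    obtain ⟨ψ, hψ, hov, -, hψc⟩ := hne'
    have hu1 : π u = 1 := hu
    have huS : u ∈ (stb σ).comap π := by
      rw [Subgroup.mem_comap, hu1]
      exact one_mem _
    have huM : u ∈ (M.map π).comap π := by
      rw [Subgroup.mem_comap, hu1]
      exact one_mem _
    have h6 := hψc u huM
    have h7 := cen_central 𝔐 ((stb σ).comap π).subtype (Subgroup.subtype_injective _) ψ ⟨u, huS⟩
      (by rw [hker] at hu; exact hu)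
    have h8 := hov ⟨u, huS⟩ 1 hu
    rw [mul_one] at h8
    rw [← h6]
    refine Eq.trans ?_ h7.symm
    rw [h8, mul_div_assoc, div_self hψ.one_ne_zero, mul_one]
  -- the central function of `θ`
  have hcenθ : ∀ g ∈ M, cen 𝔐 M.subtype θ g = ω g := by
    intro g hg
    have h6 := (h5 M X (X ⧸ M) M.subtype (MulAut.conjNormal (H := M)) (QuotientGroup.mk' M)
      (BAS.clG_normal M)).2.2.2 θ χ (fun x => conjInd x g) hθ hχ hip1
      (fun a x => conjInd_conj a x g) (by
        intro y hy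
        rw [conjInd, if_neg]
        intro hc
        apply hy
        obtain ⟨c, hc⟩ := isConj_iff.mp hc
        rw [Subgroup.range_subtype]
        have h7 : y = c⁻¹ * g * c⁻¹⁻¹ := by
          rw [← hc]
          group
        rw [h7]
        exact hM.conj_mem g hg c⁻¹)
    rw [← hcen, cen, cen]
    exact congrArg (red 𝔐) h6.symm
  -- the linear character of the central subgroup of `M`
  have hUc : (Subgroup.center X).subgroupOf M ≤ Subgroup.center M := by
    intro z hz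
    rw [Subgroup.mem_center_iff]
    intro g
    apply Subtype.ext
    exact Subgroup.mem_center_iff.mp hz g
  let τ : ((Subgroup.center X).subgroupOf M) →* π.ker :=
    (M.subtype.comp ((Subgroup.center X).subgroupOf M).subtype).codRestrict π.ker (fun u => by
      rw [hker]
      exact u.2)
  have hμ' : ∀ u : (Subgroup.center X).subgroupOf M,
      red 𝔐 (((μ.comp τ) u : ℂˣ) : ℂ) = cen 𝔐 (MonoidHom.id M) θ u := by
    intro u
    have hu1 : ((u : M) : X) ∈ Subgroup.center X := u.2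
    have h6 := cen_central 𝔐 (MonoidHom.id M) Function.injective_id θ (u : M) (hUc u.2)
    have h7 := cen_central 𝔐 M.subtype M.subtype_injective θ (u : M) hu1
    have h8 := hcenθ ((u : M) : X) (u : M).2
    have h9 := hred ((u : M) : X) (by rw [hker]; exact hu1)
    refine Eq.trans h9 ?_
    rw [← h8]
    exact h7.trans h6.symm
  obtain ⟨θ₁, hθ₁, hcen₁, hmul⟩ := h1 M 𝔐 ℓ h𝔐 hℓ _ hUc θ hθ (μ.comp τ) hμ'
  have hdef₁ := (h4 M 𝔐 ℓ h𝔐 hℓ _ hZc hZp θ hθ hθd).1 θ₁ hθ₁ hcen₁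
  have hMM : (M.map π).comap π = M := by
    rw [Subgroup.comap_map_eq, hker]
    exact sup_eq_left.mpr hZM
  refine pos_elim hPos hMM θ₁ hθ₁ ?_ ?_ ?_
  · intro s t hs
    have hs' : s ∈ (Subgroup.center X).subgroupOf M := by
      rw [Subgroup.mem_subgroupOf, ← hker]
      exact hs
    exact hmul ⟨s, hs'⟩ t
  · rw [hker, B0F.val_center ℓ hcore, ← hZcard]
    exact hdef₁
  · intro g hg
    rw [RDB.cen_of_id 𝔐 M.subtype hθ₁ hθ hcen₁]
    exact hcenθ g hg

end Pool.Agent.RCB
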