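import Mathlib
import Pool.Agent.RCB.St4

/-!
# Theorem P1: existence, uniqueness and invariance of the block idempotent (`Stmt_BSA`)
-/

namespace Pool.Agent.RCB

open Pool.Agent.DP Pool.Agent.DPV Pool.Agent.DPB Pool.Agent.DPW Pool.Agent.DPX
open Pool.Agent.Lib_helper13 Representation

namespace BSA

section Aut

variable {T : Type} [Group T] [Fintype T] {𝔐 : Ideal (integralClosure ℤ ℂ)}

theorem isConj_iff_symm (k : MulAut T) (y g : T) : IsConj (k y) g ↔ IsConj y (k.symm g) := by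
  constructor
  · intro h
    have h1 := (k.symm : T ≃* T).toMonoidHom.map_isConj h
    have h2 : k.symm.toMonoidHom (k y) = y := k.symm_apply_apply y
    rw [h2] at h1
    exact h1
  · intro h
    have h1 := (k : T ≃* T).toMonoidHom.map_isConj h
    have h2 : (k : T ≃* T).toMonoidHom (k.symm g) = g := k.apply_symm_apply g
    rw [h2] at h1
    exact h1

/-- The central function of `χ ∘ k⁻¹`. -/
theorem cen_symm (k : MulAut T) (χ : T → ℂ) (g : T) :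
    cen 𝔐 (MonoidHom.id T) (fun y => χ (k.symm y)) g = cen 𝔐 (MonoidHom.id T) χ (k.symm g) := by
  have h1 := cen_comp_equiv 𝔐 (k : T ≃* T) (MonoidHom.id T) (fun y => χ (k.symm y))
  rw [← h1]
  have h2 : (fun y => χ (k.symm ((k : T ≃* T) y))) = χ := by
    funext y
    exact congrArg χ (k.symm_apply_apply y)
  rw [h2]
  unfold cen
  congr 2
  funext y
  exact conjInd_congr (isConj_iff_symm k y g)

theorem cen_iff (k : MulAut T) {φ : T → ℂ}
    (hk : ∀ g, cen 𝔐 (MonoidHom.id T) φ (k g) = cen 𝔐 (MonoidHom.id T) φ g) (χ : T → ℂ) :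
    cen 𝔐 (MonoidHom.id T) (fun y => χ (k.symm y)) = cen 𝔐 (MonoidHom.id T) φ ↔
      cen 𝔐 (MonoidHom.id T) χ = cen 𝔐 (MonoidHom.id T) φ := by
  constructor
  · intro h
    funext g
    have h1 := congrFun h (k g)
    rw [cen_symm, hk] at h1
    rw [← h1]
    exact congrArg _ (k.symm_apply_apply g).symm
  · intro h
    funext g
    rw [cen_symm, h, ← hk]
    exact congrArg _ (k.apply_symm_apply g)

theorem wt_symm (k : MulAut T) (χ : T → ℂ) (f : T → ℂ) :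
    wt χ (fun y => f (k y)) = wt (fun y => χ (k.symm y)) f := by
  have h1 := wt_comp_equiv (k : T ≃* T) (fun y => χ (k.symm y)) f
  rw [← h1]
  congr 1
  funext y
  exact (congrArg χ (k.symm_apply_apply y)).symm

/-- The image of a block idempotent under an automorphism which preserves the central function. -/
theorem BIdm.aut {φ : T → ℂ} {a : T → integralClosure ℤ ℂ} (ha : BIdm 𝔐 φ a) (k : MulAut T)
    (hk : ∀ g, cen 𝔐 (MonoidHom.id T) φ (k g) = cen 𝔐 (MonoidHom.id T) φ g) :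
    BIdm 𝔐 φ (fun x => a (k x)) where
  cf := by
    intro g x
    rw [map_mul, map_mul, map_inv]
    exact ha.cf (k g) (k x)
  idm := by
    intro x
    have h1 : (∑ y, a (k y) * a (k (y⁻¹ * x))) = ∑ y, a y * a (y⁻¹ * k x) := by
      refine Fintype.sum_equiv (k : T ≃* T).toEquiv _ _ fun y => ?_
      show a (k y) * a (k (y⁻¹ * x)) = a (k y) * a ((k y)⁻¹ * k x)
      rw [map_mul, map_inv]
    rw [h1]
    exact ha.idm (k x)
  on := by
    intro χ hχ h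
    have h1 := ha.on (fun y => χ (k.symm y)) (hχ.comp_mulEquiv (k : T ≃* T).symm)
      ((cen_iff k hk χ).2 h)
    rw [← wt_symm] at h1
    exact h1
  off := by
    intro χ hχ h
    have h1 := ha.off (fun y => χ (k.symm y)) (hχ.comp_mulEquiv (k : T ≃* T).symm)
      (fun h2 => h ((cen_iff k hk χ).1 h2))
    rw [← wt_symm] at h1
    exact h1

end Aut

/-- Existence and uniqueness. -/
theorem exu (h1 : Stmt_IDX) (T : Type) [Group T] [Fintype T]
    (𝔐 : Ideal (integralClosure ℤ ℂ)) (ℓ : ℕ) [Fact ℓ.Prime] (h𝔐 : 𝔐.IsMaximal)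
    (hℓ : (ℓ : integralClosure ℤ ℂ) ∈ 𝔐) (φ : T → ℂ) (hφ : IsIrr φ) :
    ∃ a, BIdm 𝔐 φ a ∧ ∀ a', BIdm 𝔐 φ a' → ∀ x, a' x - a x ∈ 𝔐 := by
  letI : Field ((integralClosure ℤ ℂ) ⧸ 𝔐) := Ideal.Quotient.field 𝔐
  obtain ⟨a, ha1, ha2, ha3, -, -, -, ha7⟩ := h1 ((integralClosure ℤ ℂ) ⧸ 𝔐) T 𝔐 ℓ h𝔐 hℓ
    (Ideal.Quotient.mk 𝔐) Ideal.Quotient.mk_surjective (Ideal.mk_ker) φ hφ
  have hon : ∀ χ : T → ℂ, IsIrr χ → cen 𝔐 (MonoidHom.id T) χ = cen 𝔐 (MonoidHom.id T) φ →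
      red 𝔐 (wt χ (fun h => (a h : ℂ))) = 1 := by
    intro χ hχ h
    rw [ha3 χ hχ, if_pos h]
  have hoff : ∀ χ : T → ℂ, IsIrr χ → cen 𝔐 (MonoidHom.id T) χ ≠ cen 𝔐 (MonoidHom.id T) φ →
      red 𝔐 (wt χ (fun h => (a h : ℂ))) = 0 := by
    intro χ hχ h
    rw [ha3 χ hχ, if_neg h]
  refine ⟨a, ⟨ha1, fun x => ?_, hon, hoff⟩, fun a' ha' x => ?_⟩
  · have h2 := congrFun ha2.2.1 x
    rw [← Ideal.Quotient.eq, map_sum]
    refine Eq.trans ?_ h2
    exact Finset.sum_congr rfl fun y _ => map_mul _ _ _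
  · rw [← Ideal.Quotient.eq]
    refine ha7 a' ha'.cf ?_ ?_ x
    · funext x
      have h2 := Ideal.Quotient.eq.2 (ha'.idm x)
      rw [map_sum] at h2
      refine Eq.trans ?_ h2
      exact Finset.sum_congr rfl fun y _ => (map_mul _ _ _).symm
    · intro χ hχ
      by_cases h : cen 𝔐 (MonoidHom.id T) χ = cen 𝔐 (MonoidHom.id T) φ
      · rw [ha'.on χ hχ h, hon χ hχ h]
      · rw [ha'.off χ hχ h, hoff χ hχ h]

end BSA

/-- RCB_BSA: existence, uniqueness and invariance of the block idempotent. -/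
theorem BSA_thm (h1 : Stmt_IDX) : Stmt_BSA := by
  intro T _ _ 𝔐 ℓ _ h𝔐 hℓ φ hφ
  obtain ⟨a₀, ha₀, hu⟩ := BSA.exu h1 T 𝔐 ℓ h𝔐 hℓ φ hφ
  have huniq : ∀ a a', BIdm 𝔐 φ a → BIdm 𝔐 φ a' → ∀ x, a x - a' x ∈ 𝔐 := by
    intro a a' ha ha' x
    have h2 := 𝔐.sub_mem (hu a ha x) (hu a' ha' x)
    have h3 : a x - a₀ x - (a' x - a₀ x) = a x - a' x := by ring
    rwa [h3] at h2
  refine ⟨⟨a₀, ha₀⟩, huniq, fun k hk => ?_⟩
  have hinv : ∀ a, BIdm 𝔐 φ a → ∀ x, a (k x) - a x ∈ 𝔐 := fun a ha x =>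
    huniq _ _ (BSA.BIdm.aut ha k hk) ha x
  refine ⟨hinv, fun h => ?_⟩
  constructor
  · rintro ⟨a, ha, hah⟩
    refine ⟨a, ha, fun h0 => hah ?_⟩
    have h2 := 𝔐.add_mem (hinv a ha h) h0
    rwa [sub_add_cancel] at h2
  · rintro ⟨a, ha, hah⟩
    refine ⟨a, ha, fun h0 => hah ?_⟩
    have h2 := 𝔐.sub_mem h0 (hinv a ha h)
    rwa [sub_sub_cancel] at h2

end Pool.Agent.RCB
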