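import Mathlib
import Pool.Agent.RCB.St4
import Pool.Agent.DPX.HGTX

/-!
# Theorem P1, part C4: module BSB (the support of the block idempotents)
-/

namespace Pool.Agent.RCB

open Pool.Agent.DP Pool.Agent.DPV Pool.Agent.DPB Pool.Agent.DPW Pool.Agent.DPX
open Pool.Agent.Lib_helper13 Representation

namespace BSB

/-- the image of a block idempotent in the residue field of the valuation ring is an idempotent -/
theorem res_idm {ℓ : ℕ} {𝔐 : Ideal (integralClosure ℤ ℂ)} {O : ValuationSubring ℂ}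
    (hO : VR ℓ 𝔐 O) {T : Type} [Group T] [Fintype T] {φ : T → ℂ}
    {a : T → integralClosure ℤ ℂ} (ha : BIdm 𝔐 φ a) :
    cvF (fun x => hO.res (a x)) (fun x => hO.res (a x)) = fun x => hO.res (a x) := by
  funext x
  have h1 := HGTX.res_zero hO _ (ha.idm x)
  rw [map_sub, map_sum, sub_eq_zero] at h1
  rw [← h1]
  unfold cvF
  refine Finset.sum_congr rfl fun y _ => ?_
  rw [map_mul]

end BSB

theorem BSB_thm (h1 : Stmt_IDX) (h2 : Stmt_OSIX) (h3 : Stmt_IDOX) (h4 : Stmt_VALX) :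
    Stmt_BSB := by
  intro T _ _ 𝔐 ℓ _ h𝔐 hℓ φ hφ h hs hd
  obtain ⟨a, ha, hah⟩ := hs
  letI : Field ((integralClosure ℤ ℂ) ⧸ 𝔐) := Ideal.Quotient.field 𝔐
  obtain ⟨O, hO⟩ := h4 𝔐 ℓ h𝔐 hℓ
  obtain ⟨eh, -, he2, -, -, he5⟩ := h3 𝔐 ℓ h𝔐 hℓ O hO T φ hφ
  let f : (integralClosure ℤ ℂ) ⧸ 𝔐 →+* IsLocalRing.ResidueField O :=
    Ideal.Quotient.lift 𝔐 hO.res (HGTX.res_zero hO)
  have hf : ∀ x, f (Ideal.Quotient.mk 𝔐 x) = hO.res x := fun x => rfl
  have h5 := he5 a ha.cf (BSB.res_idm hO ha) (fun χ hχ => by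
    split_ifs with hc
    · exact ha.on χ hχ hc
    · exact ha.off χ hχ hc) h
  have h6 : (eh h : ℂ) = 0 := by
    rw [he2, h2 T 𝔐 ℓ h𝔐 hℓ φ hφ h⁻¹ (by rwa [orderOf_inv]), zero_div]
  have h7 : eh h = 0 := Subtype.ext h6
  rw [h7, map_zero, ← hf] at h5
  exact hah (Ideal.Quotient.eq_zero_iff_mem.1 ((map_eq_zero f).1 h5.symm))

end Pool.Agent.RCB
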