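import Mathlib
import Pool.Agent.RCB.St4

/-!
# Theorem P1: RCB_BSC, an invariant class in the support of the block idempotent
-/

namespace Pool.Agent.RCB

open Pool.Agent.DP Pool.Agent.DPV Pool.Agent.DPB Pool.Agent.DPW Pool.Agent.DPX
open Pool.Agent.Lib_helper13 Representation

/-- RCB_BSC -/
theorem BSC_thm (h1 : Stmt_BSA) (h2 : Stmt_WFX) : Stmt_BSC := by
  intro T V C _ _ _ _ _ 𝔐 ℓ _ h𝔐 hℓ ι κ ρ hL hC φ hφ hinv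
  obtain ⟨⟨a, ha⟩, -, h3⟩ := h1 T 𝔐 ℓ h𝔐 hℓ φ hφ
  have hw : red 𝔐 (wt φ (fun h => (a h : ℂ))) ≠ 0 := by
    rw [ha.on φ hφ rfl]
    have : Nontrivial ((integralClosure ℤ ℂ) ⧸ 𝔐) := Ideal.Quotient.nontrivial_iff.mpr h𝔐.ne_top
    exact one_ne_zero
  obtain ⟨x, hx, hc, hv⟩ := h2 T V C 𝔐 ℓ h𝔐 hℓ ι κ ρ hL hC φ hφ hinv a ha.cf
    (fun v x => (h3 (κ v) (hinv v)).1 a ha x) hw
  exact ⟨x, ⟨a, ha, hx⟩, hc, hv⟩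

end Pool.Agent.RCB
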