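import Mathlib
import Pool.Agent.RCB.St4
import Pool.Agent.DPX.StmtsXB
import Pool.Agent.DPX.IDX
import Pool.Agent.DPW.IDMB

/-!
# Theorem P1, block C4: module BSD
-/

set_option autoImplicit false

namespace Pool.Agent.RCB

open Pool.Agent.DP Pool.Agent.DPV Pool.Agent.DPB Pool.Agent.DPW Pool.Agent.DPX
open Pool.Agent.Lib_helper13 Representation

namespace BSD

open Pool.Agent.DPW.IDMB Pool.Agent.DPX.IDX

section
variable {F T : Type} [Field F] [Group T] [Fintype T] (r : integralClosure ℤ ℂ →+* F)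

omit [Fintype T] in
theorem clsF_mem (t : T) : clsF F t ∈ CF F T := by
  classical
  intro g x
  unfold clsF
  refine if_congr ?_ rfl rfl
  constructor
  · rintro ⟨s, hs⟩
    refine ⟨g⁻¹ * s, ?_⟩
    have h1 : x = g⁻¹ * (g * x * g⁻¹) * g := by group
    rw [h1, hs]
    group
  · rintro ⟨s, hs⟩
    refine ⟨g * s, ?_⟩
    rw [hs]
    group

theorem cvp_mem {z : T → F} (hz : z ∈ CF F T) (k : ℕ) : cvp z k ∈ CF F T := by
  classical
  induction k with
  | zero =>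
    intro g x
    show (Pi.single 1 1 : T → F) (g * x * g⁻¹) = (Pi.single 1 1 : T → F) x
    rw [Pi.single_apply, Pi.single_apply]
    refine if_congr ?_ rfl rfl
    constructor
    · intro h
      have h1 : x = g⁻¹ * (g * x * g⁻¹) * g := by group
      rw [h1, h]
      group
    · intro h
      rw [h]
      group
  | succ k ih => exact cvF_mem ih hz

theorem lam_cvp (hr : Function.Surjective r) {χ : T → ℂ} (hχ : IsIrr χ) {z : T → F}
    (hz : z ∈ CF F T) (k : ℕ) : lam r χ (cvp z k) = lam r χ z ^ k := by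
  classical
  induction k with
  | zero =>
    have h1 : (cvp z 0 : T → F) = IDMB.dl F T := by
      funext x
      show (Pi.single 1 1 : T → F) x = IDMB.dl F T x
      rw [Pi.single_apply]
      unfold IDMB.dl
      rfl
    rw [h1, lam_dl r hχ, pow_zero]
  | succ k ih =>
    show lam r χ (cvF (cvp z k) z) = _
    rw [lam_mul r hr hχ (cvp_mem hz k) hz, ih, pow_succ]

theorem lam_zero (χ : T → ℂ) : lam r χ (0 : T → F) = 0 := by
  have : Fintype (ConjClasses T) := Fintype.ofFinite _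
  rw [lam_eq]
  refine Finset.sum_eq_zero fun C _ => ?_
  show (0 : F) * _ = 0
  rw [zero_mul]

theorem lam_cls {𝔐 : Ideal (integralClosure ℤ ℂ)} (hker : RingHom.ker r = 𝔐) {χ : T → ℂ}
    (hχ : IsIrr χ) (t : T) (ht : cen 𝔐 (MonoidHom.id T) χ t ≠ 0) :
    lam r χ (clsF F t) ≠ 0 := by
  classical
  let b : T → integralClosure ℤ ℂ := fun x => if ∃ g, x = g * t * g⁻¹ then 1 else 0
  have hb : ∀ g x, b (g * x * g⁻¹) = b x := by
    intro g x
    refine if_congr ?_ rfl rfl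
    constructor
    · rintro ⟨s, hs⟩
      refine ⟨g⁻¹ * s, ?_⟩
      have h1 : x = g⁻¹ * (g * x * g⁻¹) * g := by group
      rw [h1, hs]
      group
    · rintro ⟨s, hs⟩
      refine ⟨g * s, ?_⟩
      rw [hs]
      group
  have e1 : (clsF F t : T → F) = fun x => r (b x) := by
    funext x
    unfold clsF
    by_cases h : ∃ g, x = g * t * g⁻¹
    · have h1 : b x = 1 := if_pos h
      rw [if_pos h, h1, map_one]
    · have h1 : b x = 0 := if_neg h
      rw [if_neg h, h1, map_zero]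
  have e2 : (fun y => conjInd (MonoidHom.id T y) t) = fun h => (b h : ℂ) := by
    funext y
    have h0 : IsConj y t ↔ ∃ g, y = g * t * g⁻¹ := by
      rw [isConj_comm, isConj_iff]
      exact ⟨fun ⟨g, hg⟩ => ⟨g, hg.symm⟩, fun ⟨g, hg⟩ => ⟨g, hg.symm⟩⟩
    show conjInd y t = _
    by_cases h : ∃ g, y = g * t * g⁻¹
    · have h1 : b y = 1 := if_pos h
      have h2 : conjInd y t = 1 := if_pos (h0.2 h)
      rw [h1, h2]
      rfl
    · have h1 : b y = 0 := if_neg h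
      have h2 : conjInd y t = 0 := if_neg fun h' => h (h0.1 h')
      rw [h1, h2]
      rfl
  intro h0
  apply ht
  have hint : IsIntegral ℤ (wt χ (fun h => (b h : ℂ))) :=
    isIntegral_wt hχ _ (fun g x => congrArg (fun t : integralClosure ℤ ℂ => (t : ℂ)) (hb g x))
      fun y => (b y).2
  show red 𝔐 (wt χ (fun y => conjInd (MonoidHom.id T y) t)) = 0
  rw [e2, ← red_zero 𝔐]
  refine (red_eq_iff_ro r hker hint isIntegral_zero).2 ?_
  rw [ro_zero, ← lam_red r hχ b hb, ← e1]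
  exact h0

/-- The weights of the idempotent. -/
theorem lam_one {𝔐 : Ideal (integralClosure ℤ ℂ)} (hker : RingHom.ker r = 𝔐) {χ : T → ℂ}
    (hχ : IsIrr χ) (a : T → integralClosure ℤ ℂ) (ha : ∀ g x, a (g * x * g⁻¹) = a x)
    (h : red 𝔐 (wt χ (fun h => (a h : ℂ))) = 1) : lam r χ (fun x => r (a x)) = 1 := by
  have hint : IsIntegral ℤ (wt χ (fun h => (a h : ℂ))) :=
    isIntegral_wt hχ _ (fun g x => congrArg (fun t : integralClosure ℤ ℂ => (t : ℂ)) (ha g x))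
      fun y => (a y).2
  have h2 : red 𝔐 (wt χ (fun h => (a h : ℂ))) = red 𝔐 1 := by
    rw [red_one]
    exact h
  have h3 := (red_eq_iff_ro r hker hint isIntegral_one).1 h2
  rw [ro_one] at h3
  exact (lam_red r hχ a ha).trans h3

end

/-- The statement with a residue field. -/
theorem core (h1 : Stmt_IDX) (h2 : Stmt_BSA) (h3 : Stmt_INY) (h4 : Stmt_SUV)
    (F T V : Type) [Field F] [Group T] [Fintype T] [Group V] [Fintype V]
    (𝔐 : Ideal (integralClosure ℤ ℂ)) (ℓ : ℕ) [hℓ : Fact ℓ.Prime] (h𝔐 : 𝔐.IsMaximal)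
    (hℓ𝔐 : (ℓ : integralClosure ℤ ℂ) ∈ 𝔐) (r : integralClosure ℤ ℂ →+* F)
    (hr : Function.Surjective r) (hker : RingHom.ker r = 𝔐) (κ : V →* MulAut T)
    (φ : T → ℂ) (hφ : IsIrr φ)
    (hinv : ∀ v g, cen 𝔐 (MonoidHom.id T) φ (κ v g) = cen 𝔐 (MonoidHom.id T) φ g)
    (t : T) (ht : cen 𝔐 (MonoidHom.id T) φ t ≠ 0) (hcl : ∀ v, ∃ g, κ v t = g * t * g⁻¹)
    (h : T) (hh : BSup 𝔐 φ h) (U : Subgroup V) (hU : IsPGroup ℓ U) (hUh : ∀ u ∈ U, κ u h = h) :
    ∃ g : T, ∀ u ∈ U, κ u (g * t * g⁻¹) = g * t * g⁻¹ := by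
  classical
  have hchar : CharP F ℓ := by
    rw [CharP.charP_iff_prime_eq_zero hℓ.out]
    have h2 : r (ℓ : integralClosure ℤ ℂ) = 0 := by
      rw [← RingHom.mem_ker, hker]
      exact hℓ𝔐
    rwa [map_natCast] at h2
  obtain ⟨a, ha, hah⟩ := hh
  obtain ⟨a0, hcf0, hprm0, hwt0, -, -, -, huniq⟩ := h1 F T 𝔐 ℓ h𝔐 hℓ𝔐 r hr hker φ hφ
  have hmem : ∀ x : integralClosure ℤ ℂ, x ∈ 𝔐 ↔ r x = 0 := fun x => by
    rw [← hker, RingHom.mem_ker]
  have hidm : cvF (fun x => r (a x)) (fun x => r (a x)) = fun x => r (a x) := by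
    funext x
    have hx := (hmem _).1 (ha.idm x)
    rw [map_sub, sub_eq_zero, map_sum] at hx
    rw [← hx]
    exact Finset.sum_congr rfl fun y _ => (map_mul r _ _).symm
  have he : ∀ x, r (a x) = r (a0 x) := by
    refine huniq a ha.cf hidm fun χ hχ => ?_
    rw [hwt0 χ hχ]
    split_ifs with hb
    · exact ha.on χ hχ hb
    · exact ha.off χ hχ hb
  have hprm : Prm (fun x => r (a x)) := by
    have h5 : (fun x => r (a x)) = fun x => r (a0 x) := funext he
    rw [h5]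
    exact hprm0
  have hei : ∀ v x, (fun x => r (a x)) (κ v x) = (fun x => r (a x)) x := by
    intro v x
    have h5 := ((h2 T 𝔐 ℓ h𝔐 hℓ𝔐 φ hφ).2.2 (κ v) (hinv v)).1 a ha x
    have h6 := (hmem _).1 h5
    rw [map_sub, sub_eq_zero] at h6
    exact h6
  have hlz : lam r φ (cvF (fun x => r (a x)) (clsF F t)) ≠ 0 := by
    rw [lam_mul r hr hφ hprm.1 (clsF_mem t), lam_one r hker hφ a ha.cf (ha.on φ hφ rfl), one_mul]
    exact lam_cls r hker hφ t ht
  obtain ⟨y, -, hyi, hy⟩ := h3 F T V κ (fun x => r (a x)) hprm hei t hcl (by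
    rintro ⟨k, hk⟩
    have h5 := lam_cvp r hr hφ (cvF_mem hprm.1 (clsF_mem (F := F) t)) k
    rw [hk, lam_zero] at h5
    exact pow_ne_zero k hlz h5.symm)
  have hne : cvF (clsF F t) y h ≠ 0 := by
    rw [← hy]
    exact fun h0 => hah ((hmem _).2 h0)
  exact h4 F T V ℓ κ t hcl y hyi h hne U hU hUh

end BSD

/-- RCB_BSD -/
theorem BSD_thm (h1 : Stmt_IDX) (h2 : Stmt_BSA) (h3 : Stmt_INY) (h4 : Stmt_SUV) : Stmt_BSD := by
  intro T V C _ _ _ _ _ 𝔐 ℓ _ h𝔐 hℓ𝔐 ι κ ρ _ φ hφ hinv t ht hcl h hh U hU hUh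
  let : Field (integralClosure ℤ ℂ ⧸ 𝔐) := Ideal.Quotient.field 𝔐
  exact BSD.core h1 h2 h3 h4 (integralClosure ℤ ℂ ⧸ 𝔐) T V 𝔐 ℓ h𝔐 hℓ𝔐 (Ideal.Quotient.mk 𝔐)
    Ideal.Quotient.mk_surjective Ideal.mk_ker κ φ hφ hinv t ht hcl h hh U hU hUh

end Pool.Agent.RCB
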