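import Mathlib
import Pool.Agent.RCB.St4

/-!
# C4A: inertial index greater than one: both classes are trivial
-/

namespace Pool.Agent.RCB

open Pool.Agent.DP Pool.Agent.DPV Pool.Agent.DPB Pool.Agent.DPW Pool.Agent.DPX
open Pool.Agent.Lib_helper13 Representation

namespace C4A

/-- The action of the elements of `G` is conjugation. -/
theorem act_i {G B C : Type} [Group G] [Group B] [Group C] {ι : G →* B} {κ : B →* MulAut G}
    {ρ : B →* C} (h : ClG ι κ ρ) (s u : G) : κ (ι s) u = s * u * s⁻¹ := by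
  apply h.inj
  rw [h.act, map_mul, map_mul, map_inv]

/-- A subgroup of `B` which acts trivially on `P₁` is in the stabilizer of the image of `P₁`. -/
theorem le_YS {G B C : Type} [Group G] [Group B] [Group C] {ι : G →* B} {κ : B →* MulAut G}
    {ρ : B →* C} (h : ClG ι κ ρ) (P₁ : Subgroup G) {d : B} (hd : ∀ u ∈ P₁, κ d u = u) :
    d ∈ YS ι {P₁} := by
  rw [mem_stb]
  intro D hD
  obtain ⟨E, hE, rfl⟩ := mem_mapCh.mp hD
  rw [Finset.mem_singleton] at hE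
  subst hE
  have key : ∀ u ∈ E, (MulAut.conj d).toMonoidHom (ι u) = ι u := by
    intro u hu
    change d * ι u * d⁻¹ = ι u
    rw [← h.act, hd u hu]
  apply le_antisymm
  · rintro _ ⟨_, ⟨u, hu, rfl⟩, rfl⟩
    rw [key u hu]
    exact ⟨u, hu, rfl⟩
  · rintro _ ⟨u, hu, rfl⟩
    exact ⟨ι u, ⟨u, hu, rfl⟩, key u hu⟩

/-- An element which centralizes `P₁` is in the stabilizer of `P₁`. -/
theorem mem_stb_cen {G : Type} [Group G] (P₁ : Subgroup G) {x : G}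
    (hx : ∀ u ∈ P₁, u * x = x * u) : x ∈ stb ({P₁} : Finset (Subgroup G)) := by
  rw [mem_stb]
  intro D hD
  rw [Finset.mem_singleton] at hD
  subst hD
  have key : ∀ u ∈ D, (MulAut.conj x).toMonoidHom u = u := by
    intro u hu
    change x * u * x⁻¹ = u
    rw [← hx u hu, mul_inv_cancel_right]
  apply le_antisymm
  · rintro _ ⟨u, hu, rfl⟩
    rw [key u hu]
    exact hu
  · intro u hu
    exact ⟨u, hu, key u hu⟩

/-- An element of the stabilizer of `P₁` normalizes `P₁`. -/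
theorem stb_conj {G : Type} [Group G] (P₁ : Subgroup G) {s : G}
    (hs : s ∈ stb ({P₁} : Finset (Subgroup G))) {u : G} (hu : u ∈ P₁) : s * u * s⁻¹ ∈ P₁ := by
  rw [mem_stb] at hs
  have h1 := hs P₁ (Finset.mem_singleton_self P₁)
  have h2 : (MulAut.conj s).toMonoidHom u ∈ P₁.map (MulAut.conj s).toMonoidHom := ⟨u, hu, rfl⟩
  rw [h1] at h2
  exact h2

/-- Conjugation by a product. -/
theorem map_conj_mul {B : Type} [Group B] (D : Subgroup B) (v w : B) :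
    D.map (MulAut.conj (v * w)).toMonoidHom =
      (D.map (MulAut.conj w).toMonoidHom).map (MulAut.conj v).toMonoidHom := by
  rw [Subgroup.map_map]
  congr 1
  ext y
  simp [mul_assoc]

theorem map_conj_one {B : Type} [Group B] (D : Subgroup B) :
    D.map (MulAut.conj (1 : B)).toMonoidHom = D := by
  have h : (MulAut.conj (1 : B)).toMonoidHom = MonoidHom.id B := by
    ext y
    simp
  rw [h, Subgroup.map_id]

end C4A

/-- Stmt_C4A: inertial index greater than one: both classes are trivial. -/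
theorem C4A_thm (h1 : Stmt_CPN) (h2 : Stmt_CPM) (h3 : Stmt_TRV) (h4 : Stmt_NZX) :
    Stmt_C4A := by
  classical
  intro G B C _ _ _ _ _ 𝔐 ℓ n _ h𝔐 hℓ ι κ ρ hL hC ω P₁ P x₀ hS hE χ hχ ψ hψ j hj a a₁ ha ha₁
  obtain ⟨φ, hφ, s, hs, hsC, hsφ⟩ := hE
  obtain ⟨x, P', D, hA, hD, hDι, hDρ, hDx, hDP, hDs⟩ :=
    h1 G B C 𝔐 ℓ n h𝔐 hℓ ι κ ρ hL hC ω P₁ P x₀ hS φ hφ
  obtain ⟨w, hw, hDw⟩ := hDs s hs hsφ
  have hcl : ClG ι κ ρ := hL.cl
  -- the element `w⁻¹ * ι s` normalizes `D`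
  have hs' : D.map (MulAut.conj (w⁻¹ * ι s)).toMonoidHom = D := by
    rw [C4A.map_conj_mul, hDw, ← C4A.map_conj_mul, inv_mul_cancel, C4A.map_conj_one]
  -- its action on `P₁`
  have hPs : ∀ u ∈ P₁, κ (w⁻¹ * ι s) u = s * u * s⁻¹ := by
    intro u hu
    have h5 : s * u * s⁻¹ ∈ P₁ := C4A.stb_conj P₁ hs hu
    rw [map_mul, MulAut.mul_apply, C4A.act_i hcl]
    have h6 := hw _ h5
    have h7 := congrArg (κ w⁻¹) h6
    rw [← MulAut.mul_apply, ← map_mul, inv_mul_cancel, map_one, MulAut.one_apply] at h7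
    exact h7.symm
  have hP1 : ∀ u ∈ P₁, κ (w⁻¹ * ι s) u ∈ P₁ := by
    intro u hu
    rw [hPs u hu]
    exact C4A.stb_conj P₁ hs hu
  have hP2 : ∃ u ∈ P₁, κ (w⁻¹ * ι s) u ≠ u := by
    by_contra hcon
    apply hsC
    rw [Subgroup.mem_centralizer_iff]
    intro u hu
    by_contra hne
    apply hcon
    refine ⟨u, hu, ?_⟩
    rw [hPs u hu]
    intro h8
    apply hne
    exact (mul_inv_eq_iff_eq_mul.mp h8).symm
  obtain ⟨F, hFD, hFι, hFρ⟩ := h2 G B C ℓ n ι κ ρ hL hC P₁ P' D hA.cd.le hA.cd.c1 hA.cd.cyc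
    hA.cd.card hDι hDρ (w⁻¹ * ι s) hs' hP1 hP2
  obtain ⟨hX, hY⟩ := h4.2 G 𝔐 ℓ n h𝔐 hℓ ω P₁ P' x hA hS.ex
  obtain ⟨hχi, hχx⟩ := hX χ hχ
  have hψx := hY ψ hψ
  refine ⟨h3 G B C 𝔐 ℓ h𝔐 hℓ ι κ ρ hcl hC x F hFι hFρ (fun f hf => hDx f (hFD hf)) χ hχi hχx
    a ha, ?_⟩
  -- the local character
  have hjS : j = jS hcl {P₁} := by
    ext g
    rw [hj]
    rfl
  have hxs : x ∈ stb ({P₁} : Finset (Subgroup G)) :=
    C4A.mem_stb_cen P₁ (fun u hu => hA.cd.cen u (hA.cd.le hu))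
  have hFY : F ≤ YS ι {P₁} := fun f hf => C4A.le_YS hcl P₁ (hDP f (hFD hf))
  let _ : Fintype ↥(stb ({P₁} : Finset (Subgroup G))) := Fintype.ofFinite _
  let _ : Fintype ↥(YS ι {P₁}) := Fintype.ofFinite _
  have hclS : ClG j (cS hcl {P₁}) (ρ.comp (YS ι {P₁}).subtype) := by
    rw [hjS]
    exact clG_S hcl {P₁}
  refine h3 ↥(stb ({P₁} : Finset (Subgroup G))) ↥(YS ι {P₁}) C 𝔐 ℓ h𝔐 hℓ j (cS hcl {P₁})
    (ρ.comp (YS ι {P₁}).subtype) hclS hC ⟨x, hxs⟩ (F.subgroupOf (YS ι {P₁})) ?_ ?_ ?_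
    (fun g : stb {P₁} => ψ g) hψ.1.1 hψx a₁ ha₁
  · rw [Subgroup.eq_bot_iff_forall]
    intro g hg
    have h5 : ((j g : YS ι {P₁}) : B) ∈ F := Subgroup.mem_subgroupOf.mp hg
    rw [hj] at h5
    have h6 : (g : G) ∈ F.comap ι := h5
    rw [hFι, Subgroup.mem_bot] at h6
    exact Subtype.ext h6
  · rw [Subgroup.eq_top_iff']
    intro c
    have h5 : c ∈ F.map ρ := by
      rw [hFρ]
      exact Subgroup.mem_top c
    obtain ⟨f, hf, hfc⟩ := h5
    exact ⟨⟨f, hFY hf⟩, Subgroup.mem_subgroupOf.mpr hf, hfc⟩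
  · intro f hf
    apply Subtype.ext
    have h5 := hDx (f : B) (hFD (Subgroup.mem_subgroupOf.mp hf))
    rw [Subgroup.coe_mul, Subgroup.coe_mul, hj]
    exact h5

end Pool.Agent.RCB
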