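import Mathlib
import Pool.Agent.RCB.St4
import Pool.Agent.DP.EXTAR

/-!
# Module RCB_CLA: the classes of the invariant linear characters form a homomorphism
-/

namespace Pool.Agent.RCB.CLA

open Pool.Agent.DP Pool.Agent.DPV Pool.Agent.DPB Pool.Agent.DPW Pool.Agent.DPX
open Pool.Agent.Lib_helper13 Representation

/-- the invariant linear characters -/
def Lam {P D : Type} [Group P] [Group D] (cD : D →* MulAut P) : Subgroup (P →* ℂˣ) where
  carrier := {lam | ∀ d u, lam (cD d u) = lam u}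
  one_mem' := fun _ _ => rfl
  mul_mem' := by
    intro a b ha hb d u
    rw [MonoidHom.mul_apply, MonoidHom.mul_apply, ha, hb]
  inv_mem' := by
    intro a ha d u
    rw [MonoidHom.inv_apply, MonoidHom.inv_apply, ha]

theorem mem_Lam {P D : Type} [Group P] [Group D] (cD : D →* MulAut P) (lam : P →* ℂˣ) :
    lam ∈ Lam cD ↔ ∀ d u, lam (cD d u) = lam u := Iff.rfl

/-- the number of linear characters of an abelian group -/
theorem card_hom {P : Type} [Group P] [Finite P] (h : ∀ u v : P, u * v = v * u) :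
    Nat.card (P →* ℂˣ) = Nat.card P := by
  let _ : CommGroup P := { (inferInstance : Group P) with mul_comm := h }
  exact CommGroup.card_monoidHom_of_hasEnoughRootsOfUnity P ℂ

end Pool.Agent.RCB.CLA

namespace Pool.Agent.RCB

open Pool.Agent.DP Pool.Agent.DPV Pool.Agent.DPB Pool.Agent.DPW Pool.Agent.DPX
open Pool.Agent.Lib_helper13 Representation Pool.Agent.RCB.CLA

/-- MODULE RCB_CLA -/
theorem CLA_thm (h1 : Stmt_FSE) (h2 : Stmt_FSU) (h3 : Stmt_FSX) : Stmt_CLA := by
  intro P D K _ _ _ _ _ ℓ n _ hℓ2 jD cD pD hG hsurj hab hcard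
  have hℓ : ℓ.Prime := Fact.out
  have hodd : Odd ℓ := hℓ.odd_of_ne_two hℓ2
  have hirr : ∀ lam : P →* ℂˣ, IsIrr (fun u => ((lam u : ℂˣ) : ℂ)) := fun lam => DP.EXTAR.isIrr_lin lam
  have hb : ∀ lam : Lam cD, ∃ b, FS jD pD (fun u => (((lam : P →* ℂˣ) u : ℂˣ) : ℂ)) b := by
    intro lam
    refine h1 P D K jD cD pD hG hsurj _ (hirr lam) fun y x => ?_
    rw [lam.2 y x]
  choose b hb using hb
  have hmul : ∀ x y : Lam cD, (QuotientGroup.mk (b (x * y)) : (K → K → ℂˣ) ⧸ cob K) =
      QuotientGroup.mk (b x) * QuotientGroup.mk (b y) := by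
    intro x y
    have k1 := (h3 P D K jD cD pD hG hsurj).2 _ _ (hirr x) (hirr y) (by simp) (by simp) _ _
      (hb x) (hb y)
    have k2 := h2 P D K jD cD pD hG hsurj _ k1.1 _ _ (hb (x * y)) k1.2
    rw [← QuotientGroup.mk_mul, QuotientGroup.eq, ← (cob K).inv_mem_iff, mul_inv_rev, inv_inv,
      mul_comm]
    exact k2
  refine ⟨Lam cD, MonoidHom.mk' (fun lam => QuotientGroup.mk (b lam)) hmul, ?_, fun lam => Iff.rfl,
    fun lam => ⟨b lam, hb lam, rfl⟩⟩
  have hdvd : Nat.card (Lam cD) ∣ ℓ ^ n := by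
    rw [← hcard, ← card_hom hab]
    exact Subgroup.card_subgroup_dvd_card _
  exact Odd.of_dvd_nat hodd.pow hdvd

end Pool.Agent.RCB
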