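import Mathlib
import Pool.Agent.RCB.St4

/-!
# RCB_CPA: the element `x` and a Sylow subgroup `D` of its centralizer in `W`
-/

set_option autoImplicit false

namespace Pool.Agent.RCB

open Pool.Agent.DP Pool.Agent.DPV Pool.Agent.DPB Pool.Agent.DPW Pool.Agent.DPX
open Pool.Agent.Lib_helper13 Representation

namespace CPA

theorem card_mc {G : Type} [Group G] (s : G) (P : Subgroup G) :
    Nat.card (P.map (MulAut.conj s).toMonoidHom) = Nat.card P :=
  (Nat.card_congr (P.equivMapOfInjective _ (MulAut.conj s).injective).toEquiv).symm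

theorem mem_map_conj {G : Type} [Group G] {s g : G} {P : Subgroup G} :
    g ∈ P.map (MulAut.conj s).toMonoidHom ↔ ∃ p ∈ P, s * p * s⁻¹ = g := by
  rw [Subgroup.mem_map]
  rfl

theorem map_centralizer {G : Type} [Group G] (s y : G) :
    (Subgroup.centralizer ({y} : Set G)).map (MulAut.conj s).toMonoidHom =
      Subgroup.centralizer ({s * y * s⁻¹} : Set G) := by
  ext g
  rw [mem_map_conj, Subgroup.mem_centralizer_singleton_iff]
  constructor
  · rintro ⟨p, hp, rfl⟩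
    rw [Subgroup.mem_centralizer_singleton_iff] at hp
    calc s * p * s⁻¹ * (s * y * s⁻¹) = s * (p * y) * s⁻¹ := by group
      _ = s * (y * p) * s⁻¹ := by rw [hp]
      _ = s * y * s⁻¹ * (s * p * s⁻¹) := by group
  · intro h
    refine ⟨s⁻¹ * g * s, ?_, by group⟩
    rw [Subgroup.mem_centralizer_singleton_iff]
    calc s⁻¹ * g * s * y = s⁻¹ * (g * (s * y * s⁻¹)) * s := by group
      _ = s⁻¹ * (s * y * s⁻¹ * g) * s := by rw [h]
      _ = y * (s⁻¹ * g * s) := by group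

/-- Conjugation of the data. -/
theorem atX_conj {ℓ n : ℕ} {G F : Type} [Group G] [Zero F] {ω : G → F} {P₁ P : Subgroup G}
    {y : G} (h : AtX ℓ n ω P₁ P y) (s : G) (hs : P₁.map (MulAut.conj s).toMonoidHom = P₁)
    (hω : ω (s * y * s⁻¹) = ω y) :
    AtX ℓ n ω P₁ (P.map (MulAut.conj s).toMonoidHom) (s * y * s⁻¹) where
  cd :=
    { le := by
        rw [← hs]
        exact Subgroup.map_mono h.cd.le
      c1 := h.cd.c1
      cyc := by
        have := h.cd.cyc
        exact isCyclic_of_surjective (P.equivMapOfInjective _ (MulAut.conj s).injective)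
          (P.equivMapOfInjective _ (MulAut.conj s).injective).surjective
      card := by rw [card_mc, h.cd.card]
      cen := by
        intro u hu
        obtain ⟨p, hp, rfl⟩ := mem_map_conj.1 hu
        calc s * p * s⁻¹ * (s * y * s⁻¹) = s * (p * y) * s⁻¹ := by group
          _ = s * (y * p) * s⁻¹ := by rw [h.cd.cen p hp]
          _ = s * y * s⁻¹ * (s * p * s⁻¹) := by group
      sq := by
        rw [← map_centralizer, card_mc]
        exact h.cd.sq }
  ne := by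
    rw [hω]
    exact h.ne
  mn := h.mn

/-- An `ℓ`-subgroup which contains `P` and centralizes `x` is `P`. -/
theorem eq_of_atX {ℓ n : ℕ} [Fact ℓ.Prime] {G F : Type} [Group G] [Finite G] [Zero F] {ω : G → F}
    {P₁ P : Subgroup G} {x : G} (h : AtX ℓ n ω P₁ P x) {E : Subgroup G} (hE : IsPGroup ℓ E)
    (hP : P ≤ E) (hx : ∀ g ∈ E, g * x = x * g) : E = P := by
  obtain ⟨k, hk⟩ := IsPGroup.iff_card.1 hE
  have hle : E ≤ Subgroup.centralizer ({x} : Set G) := fun g hg =>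
    Subgroup.mem_centralizer_singleton_iff.2 (hx g hg)
  have hd := Subgroup.card_dvd_of_le hle
  rw [hk] at hd
  have hkn : k ≤ n := by
    by_contra hlt
    exact h.cd.sq ((pow_dvd_pow ℓ (by omega)).trans hd)
  refine (Subgroup.eq_of_le_of_card_ge hP ?_).symm
  rw [hk, h.cd.card]
  exact Nat.pow_le_pow_right (Fact.out : ℓ.Prime).pos hkn

end CPA

open CPA

/-- RCB_CPA. -/
theorem CPA_thm (h1 : Stmt_DTL) (h2 : Stmt_XTH) (h3 : Stmt_WST) (h4 : Stmt_SYQ) :
    Stmt_CPA := by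
  intro G B C _ _ _ _ _ 𝔐 ℓ n _ h𝔐 hℓ ι κ ρ hL hC ω P₁ P x₀ hS φ hφ
  obtain ⟨y, -, hy, -, hyc, -, -, -, -⟩ := h1 G B C 𝔐 ℓ n h𝔐 hℓ ι κ ρ hL hC ω P₁ P x₀ hS
  obtain ⟨s, hs, hsφ, hsw⟩ := h2 G B C 𝔐 ℓ n h𝔐 hℓ ι κ ρ hL hC ω P₁ P y ⟨hy, hS.inv, hS.ex⟩ hyc
    φ hφ
  obtain ⟨hW1, hW2, -⟩ := h3 G B C 𝔐 ℓ n h𝔐 hℓ ι κ ρ hL hC ω P₁ P x₀ hS φ hφ
  set W := WG 𝔐 κ P₁ φ with hW
  have hs' : P₁.map (MulAut.conj s).toMonoidHom = P₁ :=
    mem_stb.1 hs P₁ (Finset.mem_singleton_self _)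
  have hω : ω (s * y * s⁻¹) = ω y := by
    obtain ⟨θ, -, hθ⟩ := hS.ex
    rw [← hθ]
    exact (cen_isConj 𝔐 (MonoidHom.id G) θ (isConj_iff.2 ⟨s, rfl⟩)).symm
  have hat := atX_conj hy s hs' hω
  set x := s * y * s⁻¹ with hx
  set P' := P.map (MulAut.conj s).toMonoidHom with hP'
  have hιx : ∀ g : G, ι g * ι x = ι x * ι g ↔ g * x = x * g := by
    intro g
    rw [← map_mul, ← map_mul]
    exact hL.cl.inj.eq_iff
  have hxC : x ∈ Subgroup.centralizer (P₁ : Set G) := by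
    rw [Subgroup.mem_centralizer_iff]
    intro u hu
    exact hat.cd.cen u (hat.cd.le hu)
  -- `P'` centralizes `P₁`
  have hPC : P' ≤ Subgroup.centralizer (P₁ : Set G) := by
    intro u hu
    rw [Subgroup.mem_centralizer_iff]
    intro v hv
    have hcyc := hat.cd.cyc
    have hcomm : ∀ a b : P', a * b = b * a := fun a b => by
      obtain ⟨g, hg⟩ := hcyc.exists_generator
      obtain ⟨i, hi⟩ := Subgroup.mem_zpowers_iff.1 (hg a)
      obtain ⟨j, hj⟩ := Subgroup.mem_zpowers_iff.1 (hg b)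
      rw [← hi, ← hj, ← zpow_add, ← zpow_add, add_comm]
    exact congrArg Subtype.val (hcomm ⟨v, hat.cd.le hv⟩ ⟨u, hu⟩)
  -- the centralizer of `x` in `W`
  have hV : (W ⊓ Subgroup.centralizer ({ι x} : Set B)).map ρ = ⊤ := by
    rw [eq_top_iff]
    intro c _
    have hc : c ∈ W.map ρ := by
      rw [hW2]
      exact Subgroup.mem_top c
    obtain ⟨w, hw, rfl⟩ := Subgroup.mem_map.1 hc
    obtain ⟨c', hc', hwc⟩ := hsw w hw
    refine Subgroup.mem_map.2 ⟨(ι c')⁻¹ * w, Subgroup.mem_inf.2 ⟨?_, ?_⟩, ?_⟩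
    · refine W.mul_mem (W.inv_mem ?_) hw
      have : c' ∈ W.comap ι := by
        rw [hW1]
        exact hc'
      exact this
    · rw [Subgroup.mem_centralizer_singleton_iff]
      have h5 := hL.cl.act w x
      rw [hwc, map_mul, map_mul, map_inv] at h5
      calc (ι c')⁻¹ * w * ι x = (ι c')⁻¹ * (w * ι x * w⁻¹) * w := by group
        _ = (ι c')⁻¹ * (ι c' * ι x * (ι c')⁻¹) * w := by rw [h5]
        _ = ι x * ((ι c')⁻¹ * w) := by group
    · rw [map_mul, map_inv, (hL.cl.ker (ι c')).2 ⟨c', rfl⟩, inv_one, one_mul]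
  have hQV : P'.map ι ≤ W ⊓ Subgroup.centralizer ({ι x} : Set B) := by
    rintro _ ⟨u, hu, rfl⟩
    refine Subgroup.mem_inf.2 ⟨?_, ?_⟩
    · have : u ∈ W.comap ι := by
        rw [hW1]
        exact hPC hu
      exact this
    · rw [Subgroup.mem_centralizer_singleton_iff]
      exact (hιx u).2 (hat.cd.cen u hu)
  have hPp : IsPGroup ℓ P' := IsPGroup.of_card hat.cd.card
  obtain ⟨D, hQD, hDV, hDp, hcj, hDρ, hDc, -⟩ := h4 G B C ℓ ι κ ρ hL hC
    (W ⊓ Subgroup.centralizer ({ι x} : Set B)) hV (P'.map ι) hQV (hPp.map ι)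
  have hDx : ∀ d ∈ D, d * ι x = ι x * d := fun d hd =>
    Subgroup.mem_centralizer_singleton_iff.1 (Subgroup.mem_inf.1 (hDV hd)).2
  have hDP : D.comap ι = P' := by
    refine eq_of_atX hat (hDp.comap_of_injective ι hL.cl.inj) ?_ ?_
    · intro u hu
      exact hQD ⟨u, hu, rfl⟩
    · intro g hg
      exact (hιx g).1 (hDx (ι g) hg)
  refine ⟨x, P', D, hat, hxC, hsφ, hsw, fun d hd => (Subgroup.mem_inf.1 (hDV hd)).1, hDp, hDP, hDρ, hDx, ?_, ?_⟩
  · rw [hDc, hDP, hat.cd.card]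
  · intro U hUW hUp hUx hUc
    obtain ⟨v, hv, hvD⟩ := hcj U (fun u hu => Subgroup.mem_inf.2
      ⟨hUW hu, Subgroup.mem_centralizer_singleton_iff.2 (hUx u hu)⟩) hUp
    refine ⟨v, (Subgroup.mem_inf.1 hv).1, (Subgroup.eq_of_le_of_card_ge hvD ?_).symm⟩
    rw [card_mc]
    exact hUc

end Pool.Agent.RCB
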