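import Mathlib
import Pool.Agent.RCB.St4

/-!
# RCB_CPC: an element of the support and an `ℓ`-subgroup of its centralizer in `W`
-/

set_option autoImplicit false

namespace Pool.Agent.RCB

open Pool.Agent.DP Pool.Agent.DPV Pool.Agent.DPB Pool.Agent.DPW Pool.Agent.DPX
open Pool.Agent.Lib_helper13 Representation

namespace CPC

theorem mem_WG {𝔐 : Ideal (integralClosure ℤ ℂ)} {G B : Type} [Group G] [Fintype G] [Group B]
    {κ : B →* MulAut G} {P₁ : Subgroup G} {φ : G → ℂ} {b : B} :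
    b ∈ WG 𝔐 κ P₁ φ ↔ (∀ u ∈ P₁, κ b u = u) ∧
      ∀ g, cgT 𝔐 (Subgroup.centralizer (P₁ : Set G)) φ (κ b g) =
        cgT 𝔐 (Subgroup.centralizer (P₁ : Set G)) φ g := Iff.rfl

/-- The centralizer of `t` in `W` maps onto `C`. -/
theorem map_top {G B C : Type} [Group G] [Group B] [Group C] {ι : G →* B} {κ : B →* MulAut G}
    {ρ : B →* C} (hL : LocN ι κ ρ) {W : Subgroup B} {C₀ : Subgroup G} (hW : W.comap ι = C₀)
    (hρ : W.map ρ = ⊤) {t : G} (ht : ∀ w ∈ W, ∃ g ∈ C₀, κ w t = g * t * g⁻¹) :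
    (W ⊓ Subgroup.centralizer ({ι t} : Set B)).map ρ = ⊤ := by
  rw [eq_top_iff]
  intro c _
  have hc : c ∈ W.map ρ := by rw [hρ]; exact Subgroup.mem_top c
  obtain ⟨w, hw, rfl⟩ := hc
  obtain ⟨g, hg, hgt⟩ := ht w hw
  have hgW : ι g ∈ W := by
    rw [← hW] at hg
    exact hg
  have h1 : w * ι t * w⁻¹ = ι g * ι t * (ι g)⁻¹ := by
    rw [← hL.cl.act, hgt, map_mul, map_mul, map_inv]
  refine ⟨(ι g)⁻¹ * w, Subgroup.mem_inf.2 ⟨W.mul_mem (W.inv_mem hgW) hw, ?_⟩, ?_⟩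
  · rw [Subgroup.mem_centralizer_singleton_iff]
    have h2 : w * ι t = ι g * ι t * (ι g)⁻¹ * w := by
      rw [← h1]; group
    calc (ι g)⁻¹ * w * ι t = (ι g)⁻¹ * (w * ι t) := by group
      _ = (ι g)⁻¹ * (ι g * ι t * (ι g)⁻¹ * w) := by rw [h2]
      _ = ι t * ((ι g)⁻¹ * w) := by group
  · rw [map_mul, map_inv, (hL.cl.ker (ι g)).2 ⟨g, rfl⟩, inv_one, one_mul]

end CPC

open CPC in
/-- RCB_CPC. -/
theorem CPC_thm (h1 : Stmt_WST) (h2 : Stmt_RLN) (h3 : Stmt_ZCA) (h4 : Stmt_BSC) (h5 : Stmt_SYQ) :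
    Stmt_CPC := by
  intro G B C _ _ _ _ _ 𝔐 ℓ n _ hM hℓ ι κ ρ hL hC ω P₁ P x₀ hS φ hφ
  obtain ⟨hW, hWρ, -⟩ := h1 G B C 𝔐 ℓ n hM hℓ ι κ ρ hL hC ω P₁ P x₀ hS φ hφ
  obtain ⟨hz1, ⟨hirr, hcen, -⟩, -, -, -⟩ :=
    h3 G 𝔐 ℓ n hM hℓ ω P₁ P x₀ hS.at' hS.ex φ hφ
  obtain ⟨j, c, hj, hc, hLW⟩ := h2 G B C ι κ ρ hL (WG 𝔐 κ P₁ φ)
    (Subgroup.centralizer (P₁ : Set G)) hW hWρ
  let _ : Fintype (WG 𝔐 κ P₁ φ) := Fintype.ofFinite _
  obtain ⟨t, ht1, ht2, ht3⟩ := h4 (Subgroup.centralizer (P₁ : Set G)) (WG 𝔐 κ P₁ φ) C 𝔐 ℓ hM hℓ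
    j c (ρ.comp (WG 𝔐 κ P₁ φ).subtype) hLW hC (fun c : Subgroup.centralizer (P₁ : Set G) => φ c)
    hirr (by
      intro v g
      rw [hcen, hcen, hc]
      exact (mem_WG.1 v.2).2 g)
  have hinv : ∀ w ∈ WG 𝔐 κ P₁ φ, ∃ g ∈ Subgroup.centralizer (P₁ : Set G),
      κ w (t : G) = g * t * g⁻¹ := by
    intro w hw
    obtain ⟨g, hg⟩ := ht3 ⟨w, hw⟩
    refine ⟨g, g.2, ?_⟩
    have h6 := congrArg (fun x : Subgroup.centralizer (P₁ : Set G) => (x : G)) hg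
    simp only [hc] at h6
    exact h6
  have htop := map_top hL hW hWρ hinv
  obtain ⟨D₀, -, hD1, hD2, -, -, hD3, hD4⟩ := h5 G B C ℓ ι κ ρ hL hC
    (WG 𝔐 κ P₁ φ ⊓ Subgroup.centralizer ({ι t} : Set B)) htop ⊥ bot_le IsPGroup.of_bot
  refine ⟨t, D₀, ht1, fun d hd => (hD1 hd).1, hD2, ?_, ?_⟩
  · intro d hd
    exact Subgroup.mem_centralizer_singleton_iff.1 (hD1 hd).2
  · have hdvd : ℓ ^ n ∣ Nat.card (Subgroup.centralizer ({t} :
        Set (Subgroup.centralizer (P₁ : Set G)))) := by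
      apply hz1 t
      rw [← hcen]
      exact ht2
    obtain ⟨R', hR'⟩ := Sylow.exists_subgroup_card_pow_prime ℓ hdvd
    set R : Subgroup G := (R'.map (Subgroup.subtype _)).map (Subgroup.subtype _) with hR
    have hRc : Nat.card R = ℓ ^ n := by
      rw [hR, Subgroup.card_map_of_injective (Subgroup.subtype_injective _),
        Subgroup.card_map_of_injective (Subgroup.subtype_injective _), hR']
    have hRp : IsPGroup ℓ R := IsPGroup.of_card hRc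
    have hRle : R ≤ (WG 𝔐 κ P₁ φ ⊓ Subgroup.centralizer ({ι t} : Set B)).comap ι := by
      rintro r ⟨r1, ⟨r2, hr2, rfl⟩, rfl⟩
      rw [Subgroup.mem_comap, Subgroup.mem_inf]
      refine ⟨?_, ?_⟩
      · have h7 : ((r2 : Subgroup.centralizer (P₁ : Set G)) : G) ∈ (WG 𝔐 κ P₁ φ).comap ι := by
          rw [hW]
          exact (r2 : Subgroup.centralizer (P₁ : Set G)).2
        exact h7
      · rw [Subgroup.mem_centralizer_singleton_iff]
        have h8 := Subgroup.mem_centralizer_singleton_iff.1 r2.2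
        have h9 := congrArg (fun x : Subgroup.centralizer (P₁ : Set G) => ι (x : G)) h8
        simpa using h9
    have hfin := hD4 R hRp hRle
    rw [hRc] at hfin
    have hle : ℓ ^ n ≤ Nat.card (D₀.comap ι) := Nat.le_of_dvd Nat.card_pos hfin
    rw [hD3]
    exact Nat.mul_le_mul_left _ hle

end Pool.Agent.RCB
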