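import Mathlib
import Pool.Agent.RCB.St4
import Pool.Agent.DPX.HGTX

/-!
# Module CPM: a complement
-/

namespace Pool.Agent.RCB

open Pool.Agent.DP Pool.Agent.DPV Pool.Agent.DPX

namespace CPM

variable {G B C : Type} [Group G] [Group B] [Group C]

/-- A subset closed under the conjugation by `s` is closed under the conjugation by its powers. -/
theorem conj_pow {D : Subgroup B} {s : B} (h : ∀ d ∈ D, s * d * s⁻¹ ∈ D) (j : ℕ) :
    ∀ d ∈ D, s ^ j * d * (s ^ j)⁻¹ ∈ D := by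
  induction j with
  | zero =>
    intro d hd
    simpa using hd
  | succ j ih =>
    intro d hd
    have h1 := h _ (ih d hd)
    have h2 : s ^ (j + 1) * d * (s ^ (j + 1))⁻¹ = s * (s ^ j * d * (s ^ j)⁻¹) * s⁻¹ := by
      rw [pow_succ', mul_inv_rev]
      group
    rwa [h2]

theorem act_pow (κ : B →* MulAut G) {s : B} {u : G} {k : ℕ} (h : κ s u = u ^ k) (j : ℕ) :
    κ (s ^ j) u = u ^ (k ^ j) := by
  induction j with
  | zero => simp
  | succ j ih =>
    rw [pow_succ', map_mul, MulAut.mul_apply, ih, map_pow, h, ← pow_mul, pow_succ']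

/-- The action of the power `ℓ ^ m` on a subgroup of order `ℓ`. -/
theorem act_frob {ℓ : ℕ} [hp : Fact ℓ.Prime] {P₁ : Subgroup G} (h1 : Nat.card P₁ = ℓ)
    (κ : B →* MulAut G) {s : B} (hs : ∀ u ∈ P₁, κ s u ∈ P₁) {u : G} (hu : u ∈ P₁)
    (hne : κ s u ≠ u) (m : ℕ) : κ (s ^ ℓ ^ m) u = κ s u := by
  have hu1 : u ≠ 1 := by
    rintro rfl
    exact hne (map_one _)
  have h2 : orderOf u = ℓ := by
    have h3 : orderOf u ∣ ℓ := by
      rw [← h1]
      exact Subgroup.orderOf_dvd_natCard P₁ hu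
    rcases (Nat.dvd_prime hp.out).1 h3 with h | h
    · exact absurd (orderOf_eq_one_iff.1 h) hu1
    · exact h
  have h3 : Subgroup.zpowers u = P₁ := by
    have hf : Finite P₁ := Nat.finite_of_card_ne_zero (by rw [h1]; exact hp.out.ne_zero)
    have hle : Subgroup.zpowers u ≤ P₁ := by
      rw [Subgroup.zpowers_le]
      exact hu
    exact Subgroup.eq_of_le_of_card_ge hle (by rw [Nat.card_zpowers, h1, h2])
  have h4 : κ s u ∈ Subgroup.zpowers u := by
    rw [h3]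
    exact hs u hu
  have h5 : IsOfFinOrder u := by
    rw [← orderOf_pos_iff, h2]
    exact hp.out.pos
  obtain ⟨k, hk⟩ := (h5.mem_powers_iff_mem_zpowers.2 h4)
  simp only at hk
  rw [act_pow κ hk.symm, ← hk, pow_eq_pow_iff_modEq, h2, ← ZMod.natCast_eq_natCast_iff]
  push_cast
  exact ZMod.pow_card_pow _

end CPM

/-- CPM -/
theorem CPM_thm : Stmt_CPM := by
  intro G B C _ _ _ _ _ ℓ n hp ι κ ρ hloc hC P₁ P D hle hc1 hcyc hcn hDP hDρ s hDs hs1 hne
  obtain ⟨m, hm⟩ := hC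
  obtain ⟨u, hu, hune⟩ := hne
  have hDs' : ∀ d ∈ D, s * d * s⁻¹ ∈ D := by
    intro d hd
    rw [← hDs]
    exact ⟨d, hd, rfl⟩
  obtain ⟨t, ht⟩ : ∃ t, t = s ^ ℓ ^ m := ⟨_, rfl⟩
  have hDt : ∀ d ∈ D, t * d * t⁻¹ ∈ D := by
    rw [ht]
    exact CPM.conj_pow hDs' _
  have hut : κ t u ≠ u := by
    rw [ht, CPM.act_frob hc1 κ hs1 hu hune m]
    exact hune
  have hρt : ρ t = 1 := by
    rw [ht, map_pow, ← hm]
    exact pow_card_eq_one'
  have hPt : ∀ p ∈ P, κ t p ∈ P := by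
    intro p hp
    rw [← hDP, Subgroup.mem_comap] at hp ⊢
    rw [hloc.cl.act]
    exact hDt _ hp
  have hfix : ∀ p ∈ P, κ t p = p → p = 1 := by
    intro p hpP hpt
    by_contra hp1
    have h1 := HGTX.le_zpowers hle hcyc hc1 hcn hpP hp1 hu
    obtain ⟨j, rfl⟩ := h1
    apply hut
    simp only [map_zpow, hpt]
  have hsurj : ∀ p ∈ P, ∃ q ∈ P, q * (κ t q)⁻¹ = p := by
    have h1 : Function.Injective (fun q : P => (⟨q.1 * (κ t q.1)⁻¹,
        P.mul_mem q.2 (P.inv_mem (hPt _ q.2))⟩ : P)) := by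
      intro q q' hqq
      have h2 : q.1 * (κ t q.1)⁻¹ = q'.1 * (κ t q'.1)⁻¹ := congrArg Subtype.val hqq
      have h3 : κ t (q'.1⁻¹ * q.1) = q'.1⁻¹ * q.1 := by
        rw [map_mul, map_inv]
        have h4 : q'.1⁻¹ * (q.1 * (κ t q.1)⁻¹) * κ t q.1 =
            q'.1⁻¹ * (q'.1 * (κ t q'.1)⁻¹) * κ t q.1 := by rw [h2]
        simpa [mul_assoc] using h4.symm
      have h5 := hfix _ (P.mul_mem (P.inv_mem q'.2) q.2) h3
      exact Subtype.ext (inv_mul_eq_one.1 h5).symm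
    intro p hp
    obtain ⟨q, hq⟩ := (Finite.injective_iff_surjective.1 h1) ⟨p, hp⟩
    exact ⟨q.1, q.2, congrArg Subtype.val hq⟩
  refine ⟨D ⊓ Subgroup.centralizer {t}, inf_le_left, ?_, ?_⟩
  · rw [eq_bot_iff]
    intro p hp
    rw [Subgroup.mem_comap, Subgroup.mem_inf, Subgroup.mem_centralizer_singleton_iff] at hp
    have h1 : p ∈ P := by
      rw [← hDP]
      exact hp.1
    rw [Subgroup.mem_bot]
    apply hfix p h1
    apply hloc.cl.inj
    rw [hloc.cl.act, ← hp.2, mul_inv_cancel_right]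
  · rw [eq_top_iff]
    intro c _
    have h1 : c ∈ D.map ρ := by
      rw [hDρ]
      exact Subgroup.mem_top c
    obtain ⟨d, hd, rfl⟩ := h1
    have h2 : d⁻¹ * (t * d * t⁻¹) ∈ D := D.mul_mem (D.inv_mem hd) (hDt d hd)
    have h3 : ρ (d⁻¹ * (t * d * t⁻¹)) = 1 := by
      simp [hρt]
    obtain ⟨p, hp⟩ := (hloc.cl.ker _).1 h3
    have hpP : p ∈ P := by
      rw [← hDP, Subgroup.mem_comap, hp]
      exact h2
    obtain ⟨q, hqP, hq⟩ := hsurj p hpP
    have hqD : ι q ∈ D := by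
      rw [← hDP] at hqP
      exact hqP
    have h4 : t * (d * ι q) * t⁻¹ = d * ι q := by
      have h5 : t * d * t⁻¹ = d * ι p := by
        rw [hp]
        group
      have h6 : t * ι q * t⁻¹ = ι (κ t q) := (hloc.cl.act t q).symm
      have h7 : t * (d * ι q) * t⁻¹ = (t * d * t⁻¹) * (t * ι q * t⁻¹) := by group
      rw [h7, h5, h6, ← hq, mul_assoc, ← map_mul, inv_mul_cancel_right]
    refine ⟨d * ι q, Subgroup.mem_inf.2 ⟨D.mul_mem hd hqD,
      Subgroup.mem_centralizer_singleton_iff.2 (mul_inv_eq_iff_eq_mul.1 h4).symm⟩, ?_⟩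
    · have h5 : ρ (ι q) = 1 := (hloc.cl.ker _).2 ⟨q, rfl⟩
      rw [map_mul, h5, mul_one]

end Pool.Agent.RCB
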