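import Mathlib
import Pool.Agent.RCB.St4

/-!
# RCB_DTL: an element with an invariant class whose centralizer has a good Sylow subgroup
-/

namespace Pool.Agent.RCB

open Pool.Agent.DP Pool.Agent.DPV Pool.Agent.DPB Pool.Agent.DPW Pool.Agent.DPX
open Pool.Agent.Lib_helper13 Representation

namespace DTL

/-- the trivial extension of a group by the trivial group -/
theorem locN_triv (G : Type) [Group G] :
    LocN (MonoidHom.id G) (MulAut.conj : G →* MulAut G) (1 : G →* PUnit.{1}) where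
  cl :=
    { inj := fun _ _ h => h
      act := fun y a => by
        rw [MonoidHom.id_apply, MonoidHom.id_apply, MulAut.conj_apply]
      ker := fun y => ⟨fun _ => ⟨y, rfl⟩, fun _ => rfl⟩ }
  surj := fun _ => ⟨1, rfl⟩

/-- conjugates in the centralizer -/
theorem card_dvd {G : Type} [Group G] [Finite G] (Q : Subgroup G) (g x : G)
    (h : ∀ u ∈ Q, MulAut.conj u (g * x * g⁻¹) = g * x * g⁻¹) :
    Nat.card Q ∣ Nat.card (Subgroup.centralizer ({x} : Set G)) := by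
  have hle : Q.map (MulAut.conj g⁻¹).toMonoidHom ≤ Subgroup.centralizer ({x} : Set G) := by
    rintro _ ⟨u, hu, rfl⟩
    rw [Subgroup.mem_centralizer_singleton_iff]
    have h1 := h u hu
    rw [MulAut.conj_apply, mul_inv_eq_iff_eq_mul] at h1
    show (g⁻¹ * u * g⁻¹⁻¹) * x = x * (g⁻¹ * u * g⁻¹⁻¹)
    calc (g⁻¹ * u * g⁻¹⁻¹) * x = g⁻¹ * (u * (g * x * g⁻¹)) * g := by group
      _ = g⁻¹ * (g * x * g⁻¹ * u) * g := by rw [h1]
      _ = x * (g⁻¹ * u * g⁻¹⁻¹) := by group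
  have hc : Nat.card (Q.map (MulAut.conj g⁻¹).toMonoidHom) = Nat.card Q :=
    (Nat.card_congr (Q.equivMapOfInjective _ (MulAut.conj g⁻¹).injective).toEquiv).symm
  rw [← hc]
  exact Subgroup.card_dvd_of_le hle

end DTL

open DTL in
/-- RCB_DTL -/
theorem DTL_thm (h1 : Stmt_BSC) (h2 : Stmt_BSB) (h3 : Stmt_BSD) (h4 : Stmt_DXMX)
    (h5 : Stmt_SYQ) : Stmt_DTL := by
  intro G B C _ _ _ _ _ 𝔐 ℓ n _ hM hl ι κ ρ hL hC ω P₁ P x₀ hS
  obtain ⟨hat, hinv, θ, hθ, rfl⟩ := hS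
  have hl' : ℓ.Prime := Fact.out
  obtain ⟨h, hb, hn, hcl⟩ := h1 G B C 𝔐 ℓ hM hl ι κ ρ hL hC θ hθ hinv
  obtain ⟨-, -, hcj, -⟩ := (h4 G 𝔐 ℓ hM hl θ hθ).2 n P₁ P x₀ hat
  obtain ⟨t, ht⟩ := hcj h hn
  -- the element
  obtain ⟨x, hx⟩ : ∃ x : G, x = t⁻¹ * h * t := ⟨_, rfl⟩
  have hxh : h = t * x * t⁻¹ := by rw [hx]; group
  have hPx : ∀ u ∈ P, u * x = x * u := by
    intro u hu
    have h6 := ht u hu
    rw [hx]
    calc u * (t⁻¹ * h * t) = t⁻¹ * (t * u * t⁻¹ * h) * t := by group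
      _ = t⁻¹ * (h * (t * u * t⁻¹)) * t := by rw [h6]
      _ = t⁻¹ * h * t * u := by group
  have hconj : IsConj h x := isConj_iff.2 ⟨t⁻¹, by rw [hx, inv_inv]⟩
  have hbx : BSup 𝔐 θ x := by
    obtain ⟨a, ha, han⟩ := hb
    refine ⟨a, ha, ?_⟩
    have h6 := ha.cf t⁻¹ h
    rw [inv_inv, ← hx] at h6
    rw [h6]
    exact han
  have hnx : cen 𝔐 (MonoidHom.id G) θ x ≠ 0 := by
    rw [← cen_isConj 𝔐 (MonoidHom.id G) θ hconj]
    exact hn
  have hclx : ∀ b, ∃ g, κ b x = g * x * g⁻¹ := by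
    intro b
    obtain ⟨g, hg⟩ := hcl b
    refine ⟨(κ b t)⁻¹ * g * t, ?_⟩
    rw [hx, map_mul, map_mul, map_inv, hg]
    group
  have hord : ¬ ℓ ∣ orderOf x := h2 G 𝔐 ℓ hM hl θ hθ x hbx
  have hsq : ¬ ℓ ^ (n + 1) ∣ Nat.card (Subgroup.centralizer ({x} : Set G)) := by
    intro hd
    obtain ⟨K, hK⟩ := Sylow.exists_subgroup_card_pow_prime ℓ hd
    obtain ⟨Q, hQ⟩ : ∃ Q : Subgroup G,
      Q = K.map (Subgroup.centralizer ({x} : Set G)).subtype := ⟨_, rfl⟩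
    have hQc : Nat.card Q = ℓ ^ (n + 1) := by
      rw [hQ, ← hK]
      exact (Nat.card_congr (K.equivMapOfInjective _ (Subgroup.subtype_injective _)).toEquiv).symm
    have hQp : IsPGroup ℓ Q := IsPGroup.of_card hQc
    have hQx : ∀ u ∈ Q, MulAut.conj u x = x := by
      intro u hu
      rw [hQ] at hu
      obtain ⟨v, -, rfl⟩ := hu
      have h6 := (Subgroup.mem_centralizer_singleton_iff).1 v.2
      rw [MulAut.conj_apply, mul_inv_eq_iff_eq_mul]
      exact h6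
    obtain ⟨g, hg⟩ := h3 G G PUnit.{1} 𝔐 ℓ hM hl (MonoidHom.id G) MulAut.conj 1 (locN_triv G) θ hθ
      (fun v g => (cen_isConj 𝔐 (MonoidHom.id G) θ (isConj_iff.2 ⟨v, rfl⟩)).symm) x₀ hat.ne
      (fun v => ⟨v, rfl⟩) x hbx Q hQp hQx
    apply hat.cd.sq
    rw [← hQc]
    exact card_dvd Q g x₀ hg
  have hatx : AtX ℓ n (cen 𝔐 (MonoidHom.id G) θ) P₁ P x :=
    { cd :=
        { le := hat.cd.le
          c1 := hat.cd.c1
          cyc := hat.cd.cyc
          card := hat.cd.card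
          cen := hPx
          sq := hsq }
      ne := hnx
      mn := hat.mn }
  -- the centralizer in `B`
  obtain ⟨V, hV⟩ : ∃ V : Subgroup B, V = Subgroup.centralizer ({ι x} : Set B) := ⟨_, rfl⟩
  have hVm : ∀ v, v ∈ V ↔ v * ι x = ι x * v := by
    intro v
    rw [hV, Subgroup.mem_centralizer_singleton_iff]
  have hρι : ∀ g, ρ (ι g) = 1 := fun g => (hL.cl.ker _).2 ⟨g, rfl⟩
  have hVρ : V.map ρ = ⊤ := by
    rw [eq_top_iff]
    intro c _
    obtain ⟨b, rfl⟩ := hL.surj c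
    obtain ⟨g, hg⟩ := hclx b
    refine ⟨(ι g)⁻¹ * b, ?_, ?_⟩
    · show (ι g)⁻¹ * b ∈ V
      rw [hVm]
      have h6 := hL.cl.act b x
      rw [hg, map_mul, map_mul, map_inv] at h6
      calc (ι g)⁻¹ * b * ι x = (ι g)⁻¹ * (b * ι x * b⁻¹) * b := by group
        _ = (ι g)⁻¹ * (ι g * ι x * (ι g)⁻¹) * b := by rw [h6]
        _ = ι x * ((ι g)⁻¹ * b) := by group
    · rw [map_mul, map_inv, hρι, inv_one, one_mul]
  have hPp : IsPGroup ℓ P := IsPGroup.of_card hat.cd.card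
  obtain ⟨D, hPD, hDV, hDp, -, hDρ, -, -⟩ := h5 G B C ℓ ι κ ρ hL hC V hVρ (P.map ι) (by
    rintro _ ⟨u, hu, rfl⟩
    rw [hVm, ← map_mul, ← map_mul, hPx u hu]) (hPp.map ι)
  refine ⟨x, D, hatx, hord, hclx, hDp, fun d hd => (hVm d).1 (hDV hd), ?_, hDρ⟩
  have hle : P ≤ D.comap ι := Subgroup.map_le_iff_le_comap.1 hPD
  have hDc : IsPGroup ℓ (D.comap ι) := hDp.comap_of_injective ι hL.cl.inj
  obtain ⟨k, hk⟩ := IsPGroup.iff_card.1 hDc
  have hdc : Nat.card (D.comap ι) ∣ Nat.card (Subgroup.centralizer ({x} : Set G)) := by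
    apply Subgroup.card_dvd_of_le
    intro g hg
    rw [Subgroup.mem_centralizer_singleton_iff]
    apply hL.cl.inj
    rw [map_mul, map_mul]
    exact (hVm (ι g)).1 (hDV hg)
  have hkn : k ≤ n := by
    by_contra hcon
    push Not at hcon
    apply hsq
    refine dvd_trans ?_ hdc
    rw [hk]
    exact pow_dvd_pow ℓ hcon
  symm
  apply Subgroup.eq_of_le_of_card_ge hle
  rw [hk, hat.cd.card]
  exact Nat.pow_le_pow_right hl'.pos hkn

end Pool.Agent.RCB
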