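import Mathlib
import Pool.Agent.RCB.St4
import Pool.Agent.Lib_helper13.Fourier
import Pool.Agent.Lib_helper13.ClaimC
import Pool.Agent.Lib_helper13.Clifford

/-!
# Theorem P1, module FLX: the coefficients `fL`
-/

set_option autoImplicit false

namespace Pool.Agent.RCB

open Pool.Agent.DP Pool.Agent.DPV Pool.Agent.DPB Pool.Agent.DPW Pool.Agent.DPX
open Pool.Agent.Lib_helper13 Representation

namespace FLX

section Dual

variable {Z : Type} [Group Z]

theorem finite_dual [Finite Z] (hc : ∀ a b : Z, a * b = b * a) : Finite (Z →* ℂˣ) := by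
  let _ : CommGroup Z := { ‹Group Z› with mul_comm := hc }
  exact finiteLinChar

theorem card_dual [Finite Z] (hc : ∀ a b : Z, a * b = b * a) :
    Nat.card (Z →* ℂˣ) = Nat.card Z := by
  let _ : CommGroup Z := { ‹Group Z› with mul_comm := hc }
  have : NeZero (Monoid.exponent Z : ℂ) := by
    constructor
    have := Monoid.exponent_ne_zero_of_finite (G := Z)
    exact_mod_cast this
  obtain ⟨e⟩ := CommGroup.monoidHom_mulEquiv_of_hasEnoughRootsOfUnity Z ℂ
  exact Nat.card_congr e.toEquiv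

theorem sum_dual' [Finite Z] (hc : ∀ a b : Z, a * b = b * a) [Fintype (Z →* ℂˣ)] {a : Z}
    (ha : a ≠ 1) : ∑ μ : Z →* ℂˣ, ((μ a : ℂˣ) : ℂ) = 0 := by
  let _ : CommGroup Z := { ‹Group Z› with mul_comm := hc }
  exact sum_dual ha

theorem sum_dual_one [Finite Z] (hc : ∀ a b : Z, a * b = b * a) [Fintype (Z →* ℂˣ)] :
    ∑ μ : Z →* ℂˣ, ((μ 1 : ℂˣ) : ℂ) = Nat.card Z := by
  simp only [map_one, Units.val_one, Finset.sum_const, Finset.card_univ, nsmul_eq_mul, mul_one]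
  rw [← Nat.card_eq_fintype_card, card_dual hc]

theorem lin_integral [Finite Z] (om : Z →* ℂˣ) (z : Z) : IsIntegral ℤ ((om z : ℂˣ) : ℂ) := by
  apply IsIntegral.of_pow (n := Nat.card Z) Nat.card_pos
  rw [← Units.val_pow_eq_pow_val, ← map_pow, pow_card_eq_one', map_one, Units.val_one]
  exact isIntegral_one

end Dual

section Key

variable {P Z : Type} [Group P] [Fintype P] [Group Z] [Fintype Z]

/-- Fourier inversion in the second variable. -/
theorem key (hZ : ∀ a b : Z, a * b = b * a) [Fintype (Z →* ℂˣ)] (f : P → Z → ℂ)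
    (lam : P →* ℂˣ) (z₀ : Z) :
    ∑ om : Z →* ℂˣ, ip (fun u : P × Z => f u.1 u.2)
      (fun u => ((lam u.1 : ℂˣ) : ℂ) * ((om u.2 : ℂˣ) : ℂ)) * ((om z₀ : ℂˣ) : ℂ) =
      (∑ u : P, f u z₀ * (((lam u)⁻¹ : ℂˣ) : ℂ)) / Nat.card P := by
  classical
  have hP : (Nat.card P : ℂ) ≠ 0 := natCard_ne_zero
  have hZ0 : (Nat.card Z : ℂ) ≠ 0 := natCard_ne_zero
  have e1 : ∀ om : Z →* ℂˣ, ip (fun u : P × Z => f u.1 u.2)
      (fun u => ((lam u.1 : ℂˣ) : ℂ) * ((om u.2 : ℂˣ) : ℂ)) * ((om z₀ : ℂˣ) : ℂ) =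
      (∑ u : P, ∑ z : Z, f u z * (((lam u)⁻¹ : ℂˣ) : ℂ) * ((om (z⁻¹ * z₀) : ℂˣ) : ℂ)) /
        (Nat.card P * Nat.card Z) := by
    intro om
    rw [ip, Nat.card_prod, Nat.cast_mul, div_mul_eq_mul_div, Finset.sum_mul,
      Fintype.sum_prod_type]
    congr 1
    refine Finset.sum_congr rfl fun u _ => Finset.sum_congr rfl fun z _ => ?_
    change f u z * (((lam u⁻¹ : ℂˣ) : ℂ) * ((om z⁻¹ : ℂˣ) : ℂ)) * ((om z₀ : ℂˣ) : ℂ) = _
    rw [map_inv lam, map_mul om, Units.val_mul]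
    ring
  rw [Finset.sum_congr rfl fun om _ => e1 om, ← Finset.sum_div]
  have e2 : ∑ om : Z →* ℂˣ, ∑ u : P, ∑ z : Z,
      f u z * (((lam u)⁻¹ : ℂˣ) : ℂ) * ((om (z⁻¹ * z₀) : ℂˣ) : ℂ) =
      (∑ u : P, f u z₀ * (((lam u)⁻¹ : ℂˣ) : ℂ)) * Nat.card Z := by
    rw [Finset.sum_comm, Finset.sum_mul]
    refine Finset.sum_congr rfl fun u _ => ?_
    rw [Finset.sum_comm]
    simp only [← Finset.mul_sum]
    rw [Finset.sum_eq_single z₀]
    · rw [inv_mul_cancel, sum_dual_one hZ]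
    · intro z _ hz
      rw [sum_dual' hZ, mul_zero]
      intro h
      apply hz
      exact inv_mul_eq_one.mp h
    · intro h
      exact absurd (Finset.mem_univ _) h
  rw [e2]
  field_simp

end Key

end FLX

open FLX in
/-- FLX. -/
theorem FLX_thm : Stmt_FLX := by
  classical
  intro A P _ _ _ _ 𝔐 ℓ _ h𝔐 hℓ hP i x hx θ hθ
  have hp : 𝔐.IsPrime := h𝔐.isPrime
  have hcomm : ∀ (u : P) (z : Subgroup.zpowers x), Commute (i u) ((Subgroup.zpowers x).subtype z) := by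
    rintro u ⟨z, hz⟩
    obtain ⟨k, rfl⟩ := Subgroup.mem_zpowers_iff.mp hz
    exact (show Commute (i u) x from hx u).zpow_right k
  have hZ : ∀ a b : Subgroup.zpowers x, a * b = b * a := by
    rintro ⟨a, ha⟩ ⟨b, hb⟩
    obtain ⟨k, rfl⟩ := Subgroup.mem_zpowers_iff.mp ha
    obtain ⟨m, rfl⟩ := Subgroup.mem_zpowers_iff.mp hb
    apply Subtype.ext
    change x ^ k * x ^ m = x ^ m * x ^ k
    rw [← zpow_add, ← zpow_add, add_comm]
  have hfin : Finite (Subgroup.zpowers x →* ℂˣ) := finite_dual hZ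
  let _ : Fintype (Subgroup.zpowers x →* ℂˣ) := Fintype.ofFinite _
  set z₀ : Subgroup.zpowers x := ⟨x, Subgroup.mem_zpowers x⟩ with hz₀
  -- the multiplicities
  have hk : ∀ (lam : P →* ℂˣ) (om : Subgroup.zpowers x →* ℂˣ), ∃ k : ℕ,
      ip (fun u : P × Subgroup.zpowers x => θ (i u.1 * u.2))
        (fun u => ((lam u.1 : ℂˣ) : ℂ) * ((om u.2 : ℂˣ) : ℂ)) = k := by
    intro lam om
    have h1 : IsChr (fun u : P × Subgroup.zpowers x => θ (i u.1 * u.2)) :=
      hθ.isChr.comp (MonoidHom.noncommCoprod i (Subgroup.zpowers x).subtype hcomm)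
    have h2 : IsChr (fun u : P × Subgroup.zpowers x => ((lam u.1 : ℂˣ) : ℂ) * ((om u.2 : ℂˣ) : ℂ)) := by
      have h3 := isChr_lin ((lam.comp (MonoidHom.fst P (Subgroup.zpowers x))) *
        (om.comp (MonoidHom.snd P (Subgroup.zpowers x))))
      have e : (fun u : P × Subgroup.zpowers x => ((lam u.1 : ℂˣ) : ℂ) * ((om u.2 : ℂˣ) : ℂ)) =
          fun y => ((((lam.comp (MonoidHom.fst P (Subgroup.zpowers x))) *
        (om.comp (MonoidHom.snd P (Subgroup.zpowers x)))) y : ℂˣ) : ℂ) := by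
        funext u
        rw [MonoidHom.mul_apply, Units.val_mul]
        rfl
      rw [e]
      exact h3
    exact h1.exists_ip h2
  choose k hk using hk
  have hfL : ∀ lam : P →* ℂˣ, fL i θ x lam =
      ∑ om : Subgroup.zpowers x →* ℂˣ, (k lam om : ℂ) * ((om z₀ : ℂˣ) : ℂ) := by
    intro lam
    have h1 := key hZ (fun (u : P) (z : Subgroup.zpowers x) => θ (i u * z)) lam z₀
    rw [fL]
    refine h1.symm.trans (Finset.sum_congr rfl fun om _ => ?_)
    rw [← hk lam om]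
  have hint : ∀ (lam : P →* ℂˣ) (om : Subgroup.zpowers x →* ℂˣ),
      IsIntegral ℤ ((k lam om : ℂ) * ((om z₀ : ℂˣ) : ℂ)) := fun lam om =>
    (isIntegral_natCast _).mul (lin_integral om z₀)
  refine ⟨?_, ?_, ?_, ?_⟩
  · intro lam
    rw [hfL]
    exact isIntegral_sum _ _ fun om _ => hint lam om
  · intro lam hne
    by_contra hcon
    push Not at hcon
    apply hne
    rw [hfL, red_sum 𝔐 _ _ fun om _ => hint lam om]
    refine Finset.sum_eq_zero fun om _ => ?_
    have h1 : ℓ ∣ k lam om := by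
      by_contra h2
      exact hcon om (k lam om) h2 (hk lam om)
    obtain ⟨m, hm⟩ := h1
    rw [red_natCast_mul 𝔐 _ (lin_integral om z₀), hm, mul_nsmul, nsmul_quot_eq_zero 𝔐 hℓ, smul_zero]
  · intro _
    have h1 : ∀ lam : P →* ℂˣ, fL i θ x lam =
        ∑ u : P, θ (i u * x) / Nat.card P * ((lam u⁻¹ : ℂˣ) : ℂ) := by
      intro lam
      rw [fL, Finset.sum_div]
      refine Finset.sum_congr rfl fun u _ => ?_
      rw [map_inv]
      ring
    rw [Finset.sum_congr rfl fun lam _ => h1 lam, Finset.sum_comm]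
    simp only [← Finset.mul_sum]
    rw [Finset.sum_eq_single 1]
    · rw [inv_one, sum_dual_one hP, map_one, one_mul, div_mul_cancel₀ _ natCard_ne_zero]
    · intro u _ hu
      rw [sum_dual' hP (inv_ne_one.mpr hu), mul_zero]
    · intro h
      exact absurd (Finset.mem_univ _) h
  · intro c hc lam
    rw [fL, fL]
    congr 1
    refine Fintype.sum_equiv c.toEquiv _ _ fun u => ?_
    change θ (i u * x) * (((lam (c u))⁻¹ : ℂˣ) : ℂ) = θ (i (c u) * x) * (((lam (c u))⁻¹ : ℂˣ) : ℂ)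
    rw [hc]

end Pool.Agent.RCB
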