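import Mathlib
import Pool.Agent.RCB.St4

/-!
# RCB_FPS: sums over the fixed points of an `ℓ`-group
-/

set_option autoImplicit false

namespace Pool.Agent.RCB

namespace FPS

open Classical in
theorem class_sum {D Ω R : Type} [Group D] [Finite D] [MulAction D Ω] [Fintype Ω] [CommRing R]
    (ℓ : ℕ) [Fact ℓ.Prime] (hR : (ℓ : R) = 0) (hD : IsPGroup ℓ D) (f : Ω → R)
    (hf : ∀ (d : D) o, f (d • o) = f o) (a : Ω) :
    ∑ o with (Quotient.mk (MulAction.orbitRel D Ω) o) = Quotient.mk _ a, f o =
      ∑ o ∈ (Finset.univ.filter fun o : Ω => ∀ d : D, d • o = o) with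
        (Quotient.mk (MulAction.orbitRel D Ω) o) = Quotient.mk _ a, f o := by
  have hmem : ∀ o : Ω, (Quotient.mk (MulAction.orbitRel D Ω) o) = Quotient.mk _ a ↔
      ∃ d : D, d • a = o := by
    intro o
    rw [Quotient.eq]
    exact MulAction.orbitRel_apply
  by_cases ha : ∀ d : D, d • a = a
  · have h1 : ∀ o : Ω, (Quotient.mk (MulAction.orbitRel D Ω) o) = Quotient.mk _ a ↔ o = a := by
      intro o
      rw [hmem]
      constructor
      · rintro ⟨d, rfl⟩
        exact ha d
      · rintro rfl
        exact ⟨1, one_smul _ _⟩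
    have h2 : (Finset.univ.filter fun o : Ω => (Quotient.mk (MulAction.orbitRel D Ω) o) =
        Quotient.mk _ a) = {a} := by
      ext o
      simp only [Finset.mem_filter, Finset.mem_univ, true_and, Finset.mem_singleton]
      exact h1 o
    have h3 : ((Finset.univ.filter fun o : Ω => ∀ d : D, d • o = o).filter fun o =>
        (Quotient.mk (MulAction.orbitRel D Ω) o) = Quotient.mk _ a) = {a} := by
      ext o
      simp only [Finset.mem_filter, Finset.mem_univ, true_and, Finset.mem_singleton]
      constructor
      · rintro ⟨_, h⟩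
        exact (h1 o).1 h
      · rintro rfl
        exact ⟨ha, rfl⟩
    rw [h2, h3]
  · have h3 : ((Finset.univ.filter fun o : Ω => ∀ d : D, d • o = o).filter fun o =>
        (Quotient.mk (MulAction.orbitRel D Ω) o) = Quotient.mk _ a) = ∅ := by
      ext o
      simp only [Finset.mem_filter, Finset.mem_univ, true_and, Finset.notMem_empty, iff_false]
      rintro ⟨h, h'⟩
      obtain ⟨d, rfl⟩ := (hmem o).1 h'
      apply ha
      have h4 : d • a = a := by
        have h5 := h d⁻¹
        rw [inv_smul_smul] at h5
        exact h5.symm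
      intro e
      have h6 := h e
      rw [h4] at h6
      exact h6
    rw [h3, Finset.sum_empty]
    have h4 : ∀ o ∈ (Finset.univ.filter fun o : Ω => (Quotient.mk (MulAction.orbitRel D Ω) o) =
        Quotient.mk _ a), f o = f a := by
      intro o ho
      rw [Finset.mem_filter] at ho
      obtain ⟨d, rfl⟩ := (hmem o).1 ho.2
      exact hf d a
    rw [Finset.sum_congr rfl h4, Finset.sum_const, nsmul_eq_mul]
    have h5 : (Finset.univ.filter fun o : Ω => (Quotient.mk (MulAction.orbitRel D Ω) o) =
        Quotient.mk _ a).card = Nat.card (MulAction.orbit D a) := by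
      rw [Nat.card_eq_fintype_card, Fintype.card_subtype]
      congr 1
      ext o
      simp only [Finset.mem_filter, Finset.mem_univ, true_and]
      exact hmem o
    obtain ⟨k, hk⟩ := hD.card_orbit a
    have hk0 : k ≠ 0 := by
      rintro rfl
      rw [pow_zero, Nat.card_eq_one_iff_unique] at hk
      obtain ⟨hs, -⟩ := hk
      apply ha
      intro d
      have h6 : (⟨d • a, ⟨d, rfl⟩⟩ : MulAction.orbit D a) = ⟨a, MulAction.mem_orbit_self a⟩ :=
        Subsingleton.elim _ _
      exact congrArg Subtype.val h6
    rw [h5, hk]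
    push_cast
    rw [hR, zero_pow hk0, zero_mul]

end FPS

open Classical in
/-- RCB_FPS -/
theorem FPS_thm : Stmt_FPS := by
  intro D Ω R _ _ _ _ _ ℓ _ hR hD f hf
  have h1 := Finset.sum_fiberwise (Finset.univ : Finset Ω)
    (fun o => (Quotient.mk (MulAction.orbitRel D Ω) o)) f
  have h2 := Finset.sum_fiberwise (Finset.univ.filter fun o : Ω => ∀ d : D, d • o = o)
    (fun o => (Quotient.mk (MulAction.orbitRel D Ω) o)) f
  rw [← h1]
  refine Eq.trans ?_ (h2.trans ?_)
  · refine Finset.sum_congr rfl fun q _ => ?_
    obtain ⟨a, rfl⟩ := Quotient.exists_rep q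
    exact FPS.class_sum ℓ hR hD f hf a
  · refine Finset.sum_congr ?_ fun _ _ => rfl
    ext o
    simp only [Finset.mem_filter, Finset.mem_univ, true_and]

end Pool.Agent.RCB
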