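import Mathlib
import Pool.Agent.RCB.St4

/-!
# Theorem P1, module INY: the idempotent is a multiple of an invariant class sum
-/

namespace Pool.Agent.RCB

open Pool.Agent.DP Pool.Agent.DPV Pool.Agent.DPB Pool.Agent.DPW Pool.Agent.DPX
open Pool.Agent.Lib_helper13 Representation

namespace INY

variable {F T : Type} [Field F] [Group T]

theorem cvF_assoc [Fintype T] (a b c : T → F) : cvF (cvF a b) c = cvF a (cvF b c) := by
  funext x
  simp only [cvF, Finset.sum_mul, Finset.mul_sum]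
  rw [Finset.sum_comm]
  refine Finset.sum_congr rfl fun y _ => ?_
  rw [← Equiv.sum_comp (Equiv.mulLeft y)]
  refine Finset.sum_congr rfl fun u _ => ?_
  simp only [Equiv.coe_mulLeft, inv_mul_cancel_left, mul_inv_rev]
  rw [mul_assoc, mul_assoc (u⁻¹)]

theorem cvF_comm [Fintype T] {z : T → F} (hz : z ∈ CF F T) (b : T → F) : cvF z b = cvF b z := by
  funext x
  simp only [cvF]
  rw [← Equiv.sum_comp ((Equiv.inv T).trans (Equiv.mulLeft x))]
  refine Finset.sum_congr rfl fun u _ => ?_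
  have h1 : z (x * u⁻¹) = z (u⁻¹ * x) := by
    have h := hz (u⁻¹) (x * u⁻¹)
    rw [← h]
    congr 1
    group
  simp only [Equiv.trans_apply, Equiv.inv_apply, Equiv.coe_mulLeft]
  rw [h1, mul_comm]
  congr 2
  group

theorem cvF_mem [Fintype T] {a b : T → F} (ha : a ∈ CF F T) (hb : b ∈ CF F T) :
    cvF a b ∈ CF F T := by
  intro g x
  simp only [cvF]
  rw [← Equiv.sum_comp (MulAut.conj g).toEquiv]
  refine Finset.sum_congr rfl fun u _ => ?_
  have e1 : (MulAut.conj g).toEquiv u = g * u * g⁻¹ := rfl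
  rw [e1, ha g u]
  have h2 : (g * u * g⁻¹)⁻¹ * (g * x * g⁻¹) = g * (u⁻¹ * x) * g⁻¹ := by group
  rw [h2, hb g (u⁻¹ * x)]

theorem cvF_comp [Fintype T] (φ : MulAut T) (a b : T → F) :
    (fun x => cvF a b (φ x)) = cvF (fun x => a (φ x)) (fun x => b (φ x)) := by
  funext x
  show ∑ y, a y * b (y⁻¹ * φ x) = ∑ y, a (φ y) * b (φ (y⁻¹ * x))
  symm
  refine Fintype.sum_equiv φ.toEquiv _ _ fun y => ?_
  show a (φ y) * b (φ (y⁻¹ * x)) = a (φ y) * b ((φ y)⁻¹ * φ x)
  rw [map_mul, map_inv]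

/-- The class sum is a class function. -/
theorem clsF_mem (x₀ : T) : clsF F x₀ ∈ CF F T := by
  classical
  intro g x
  have h : (∃ t, g * x * g⁻¹ = t * x₀ * t⁻¹) ↔ ∃ t, x = t * x₀ * t⁻¹ := by
    constructor
    · rintro ⟨t, ht⟩
      refine ⟨g⁻¹ * t, ?_⟩
      calc x = g⁻¹ * (g * x * g⁻¹) * g := by group
        _ = g⁻¹ * (t * x₀ * t⁻¹) * g := by rw [ht]
        _ = g⁻¹ * t * x₀ * (g⁻¹ * t)⁻¹ := by group
    · rintro ⟨t, ht⟩
      refine ⟨g * t, ?_⟩
      rw [ht]
      group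
  unfold clsF
  by_cases h1 : ∃ t, x = t * x₀ * t⁻¹
  · rw [if_pos h1, if_pos (h.2 h1)]
  · rw [if_neg h1, if_neg (fun h2 => h1 (h.1 h2))]

/-- The sum of an invariant class is invariant. -/
theorem clsF_inv {V : Type} [Group V] (κ : V →* MulAut T) (t : T)
    (ht : ∀ v, ∃ g, κ v t = g * t * g⁻¹) (v : V) (x : T) : clsF F t (κ v x) = clsF F t x := by
  classical
  have key : ∀ (v : V) (x : T), (∃ g, x = g * t * g⁻¹) → ∃ g, κ v x = g * t * g⁻¹ := by
    rintro v x ⟨g, rfl⟩
    obtain ⟨g', hg'⟩ := ht v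
    refine ⟨κ v g * g', ?_⟩
    rw [map_mul, map_mul, map_inv, hg']
    group
  have h : (∃ g, κ v x = g * t * g⁻¹) ↔ ∃ g, x = g * t * g⁻¹ := by
    constructor
    · intro h
      have h1 := key v⁻¹ (κ v x) h
      have h2 : κ v⁻¹ (κ v x) = x := by
        rw [map_inv]
        exact MulAut.inv_apply_self T (κ v) x
      rwa [h2] at h1
    · exact key v x
  unfold clsF
  by_cases h1 : ∃ g, x = g * t * g⁻¹
  · rw [if_pos h1, if_pos (h.2 h1)]
  · rw [if_neg h1, if_neg (fun h2 => h1 (h.1 h2))]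

end INY

theorem INY_thm (h1 : Stmt_LOCX) : Stmt_INY := by
  intro F T V _ _ _ _ κ e he hinv t ht hnil
  obtain ⟨hec, hee, -, -⟩ := id he
  have hc : clsF F t ∈ CF F T := INY.clsF_mem t
  have hz : cvF e (clsF F t) ∈ CF F T := INY.cvF_mem hec hc
  have hez : cvF e (cvF e (clsF F t)) = cvF e (clsF F t) := by
    rw [← INY.cvF_assoc, hee]
  rcases h1 F T e he _ hz hez with h | ⟨w, hw, hew, hzw⟩
  · exact absurd h hnil
  refine ⟨w, hw, ?_, ?_⟩
  · intro v x
    -- the composition with an automorphism is another inverse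
    have hinv' : (fun x => e (κ v x)) = e := funext (hinv v)
    have hcl : (fun x => clsF F t (κ v x)) = clsF F t := funext (INY.clsF_inv κ t ht v)
    have hew' : cvF e (fun x => w (κ v x)) = fun x => w (κ v x) := by
      have h2 := INY.cvF_comp (κ v) e w
      rw [hew, hinv'] at h2
      exact h2.symm
    have hzz : (fun x => cvF e (clsF F t) (κ v x)) = cvF e (clsF F t) := by
      have h2 := INY.cvF_comp (κ v) e (clsF F t)
      rw [hinv', hcl] at h2
      exact h2
    have hzw' : cvF (cvF e (clsF F t)) (fun x => w (κ v x)) = e := by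
      have h2 := INY.cvF_comp (κ v) (cvF e (clsF F t)) w
      rw [hzw, hinv', hzz] at h2
      exact h2.symm
    have h3 : (fun x => w (κ v x)) = w := by
      calc (fun x => w (κ v x)) = cvF e (fun x => w (κ v x)) := hew'.symm
        _ = cvF (cvF (cvF e (clsF F t)) w) (fun x => w (κ v x)) := by rw [hzw]
        _ = cvF (cvF w (cvF e (clsF F t))) (fun x => w (κ v x)) := by rw [INY.cvF_comm hw]
        _ = cvF w (cvF (cvF e (clsF F t)) (fun x => w (κ v x))) := INY.cvF_assoc _ _ _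
        _ = cvF w e := by rw [hzw']
        _ = cvF e w := (INY.cvF_comm hec w).symm
        _ = w := hew
    exact congrFun h3 x
  · calc e = cvF (cvF e (clsF F t)) w := hzw.symm
      _ = cvF (cvF (clsF F t) e) w := by rw [INY.cvF_comm hec]
      _ = cvF (clsF F t) (cvF e w) := INY.cvF_assoc _ _ _
      _ = cvF (clsF F t) w := by rw [hew]

end Pool.Agent.RCB
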