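import Mathlib
import Pool.Agent.RCB.St4
import Pool.Agent.DP.EXTAR

/-!
# RCB_MLX: the class of `θ` is the class of `lam` if the coefficient is not zero
-/

namespace Pool.Agent.RCB

open Pool.Agent.DP Pool.Agent.DPV Pool.Agent.DPB Pool.Agent.DPW Pool.Agent.DPX
open Pool.Agent.Lib_helper13 Representation

namespace MLX

/-- The action on the product with a group on which it is trivial. -/
def cP {D P Z : Type} [Group D] [Group P] [Group Z] (cD : D →* MulAut P) :
    D × Z →* MulAut (P × Z) where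
  toFun s := MulEquiv.prodCongr (cD s.1) (MulEquiv.refl Z)
  map_one' := by
    ext u
    · show cD 1 u.1 = u.1
      rw [map_one, MulAut.one_apply]
    · rfl
  map_mul' := by
    intro s t
    ext u
    · show cD (s.1 * t.1) u.1 = cD s.1 (cD t.1 u.1)
      rw [map_mul, MulAut.mul_apply]
    · rfl

/-- The Clifford data of the product with an abelian group. -/
theorem clG_prod {D P K Z : Type} [Group D] [Group P] [Group K] [Group Z]
    {jD : P →* D} {cD : D →* MulAut P} {pD : D →* K} (h : ClG jD cD pD)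
    (hZ : ∀ y z : Z, y * z = z * y) :
    ClG (MonoidHom.prodMap jD (MonoidHom.id Z)) (cP cD) (pD.comp (MonoidHom.fst D Z)) := by
  refine ⟨?_, ?_, ?_⟩
  · rintro ⟨u, y⟩ ⟨u', y'⟩ he
    have h1 : jD u = jD u' := congrArg Prod.fst he
    have h2 : y = y' := congrArg Prod.snd he
    rw [h.inj h1, h2]
  · rintro ⟨d, y⟩ ⟨u, z⟩
    apply Prod.ext
    · exact h.act d u
    · show z = y * z * y⁻¹
      rw [hZ y z, mul_inv_cancel_right]
  · rintro ⟨d, y⟩
    constructor
    · intro hd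
      obtain ⟨u, hu⟩ := (h.ker d).1 hd
      exact ⟨(u, y), Prod.ext hu rfl⟩
    · rintro ⟨⟨u, z⟩, hu⟩
      exact (h.ker d).2 ⟨u, congrArg Prod.fst hu⟩

/-- The factor set of the product with a linear character. -/
theorem fs_prod {D P K Z : Type} [Group D] [Group P] [Group K] [Group Z]
    {jD : P →* D} {pD : D →* K} {lam : P → ℂ} {b : K → K → ℂˣ} (h : FS jD pD lam b)
    (om : Z →* ℂˣ) :
    FS (MonoidHom.prodMap jD (MonoidHom.id Z)) (pD.comp (MonoidHom.fst D Z))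
      (fun u : P × Z => lam u.1 * ((om u.2 : ℂˣ) : ℂ)) b := by
  obtain ⟨n, R, T, h1, h2, h3, h4, h5⟩ := h
  refine ⟨n, ?_, ?_⟩
  · exact
      { toFun := fun u => ((om u.2 : ℂˣ) : ℂ) • R u.1
        map_one' := by
          show ((om 1 : ℂˣ) : ℂ) • R 1 = 1
          rw [map_one, map_one, Units.val_one, one_smul]
        map_mul' := by
          intro u v
          show ((om (u.2 * v.2) : ℂˣ) : ℂ) • R (u.1 * v.1) =
            (((om u.2 : ℂˣ) : ℂ) • R u.1) * (((om v.2 : ℂˣ) : ℂ) • R v.1)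
          rw [map_mul, map_mul, Units.val_mul, smul_mul_smul_comm] }
  refine ⟨fun s => ((om s.2 : ℂˣ) : ℂ) • T s.1, ?_, ?_, ?_, ?_, ?_⟩
  · funext u
    show LinearMap.trace ℂ (Fin n → ℂ) (((om u.2 : ℂˣ) : ℂ) • R u.1) =
      lam u.1 * ((om u.2 : ℂˣ) : ℂ)
    rw [map_smul, ← h1, smul_eq_mul, mul_comm]
    rfl
  · intro u
    show ((om u.2 : ℂˣ) : ℂ) • T (jD u.1) = ((om u.2 : ℂˣ) : ℂ) • R u.1
    rw [h2]
  · intro u s
    show ((om (u.2 * s.2) : ℂˣ) : ℂ) • T (jD u.1 * s.1) =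
      (((om u.2 : ℂˣ) : ℂ) • R u.1) * (((om s.2 : ℂˣ) : ℂ) • T s.1)
    rw [map_mul, Units.val_mul, h3, smul_mul_smul_comm]
  · intro s t
    show (((om s.2 : ℂˣ) : ℂ) • T s.1) * (((om t.2 : ℂˣ) : ℂ) • T t.1) =
      ((b (pD s.1) (pD t.1) : ℂˣ) : ℂ) • (((om (s.2 * t.2) : ℂˣ) : ℂ) • T (s.1 * t.1))
    rw [smul_mul_smul_comm, h4, map_mul, Units.val_mul, smul_smul, smul_smul, mul_comm]
  · intro s
    show IsUnit (((om s.2 : ℂˣ) : ℂ) • T s.1)
    have := (h5 s.1).smul (om s.2)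
    exact this

end MLX

open MLX in
theorem MLX_thm (h1 : Stmt_FLX) (h2 : Stmt_FSP) : Stmt_MLX := by
  classical
  intro A Y P D K _ _ _ _ _ _ _ _ _ 𝔐 ℓ _ hM hl j c p jD cD pD i h hcl hclD hpD hji hph
    hK hPc x hx θ hθ lam hlam a b ha hb
  have hKf : Finite K := Finite.of_surjective pD hpD
  have hxi : ∀ u, i u * x = x * i u := by
    intro u
    apply hcl.inj
    rw [map_mul, map_mul, ← hji, hx]
  obtain ⟨om, k, hk, hip⟩ := (h1 A P 𝔐 ℓ hM hl hPc i x hxi θ hθ).2.1 lam hlam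
  have hZ : ∀ y z : Subgroup.zpowers x, y * z = z * y := by
    rintro ⟨_, m, rfl⟩ ⟨_, m', rfl⟩
    exact Subtype.ext ((Commute.refl x).zpow_zpow m m')
  have hci : ∀ (u : P) (y : Subgroup.zpowers x),
      Commute (i u) ((Subgroup.zpowers x).subtype y) := by
    rintro u ⟨_, m, rfl⟩
    exact Commute.zpow_right (hxi u) m
  have hch : ∀ (d : D) (y : Subgroup.zpowers x),
      Commute (h d) (j.comp (Subgroup.zpowers x).subtype y) := by
    rintro d ⟨_, m, rfl⟩
    show Commute (h d) (j (x ^ m))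
    rw [map_zpow]
    exact Commute.zpow_right (hx d) m
  refine h2 A Y (P × Subgroup.zpowers x) (D × Subgroup.zpowers x) K ℓ j c p
    (MonoidHom.prodMap jD (MonoidHom.id _)) (cP cD) (pD.comp (MonoidHom.fst D _))
    (MonoidHom.noncommCoprod i (Subgroup.zpowers x).subtype hci)
    (MonoidHom.noncommCoprod h (j.comp (Subgroup.zpowers x).subtype) hch) hcl
    (clG_prod hclD hZ) ?_ ?_ ?_ hK θ
    (fun u => ((lam u.1 : ℂˣ) : ℂ) * ((om u.2 : ℂˣ) : ℂ)) hθ ?_ a b ha (fs_prod hb om) k ?_ hk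
  · intro q
    obtain ⟨d, hd⟩ := hpD q
    exact ⟨(d, 1), hd⟩
  · intro u
    show h (jD u.1) * j (u.2 : A) = j (i u.1 * (u.2 : A))
    rw [map_mul, hji]
  · intro s
    show p (h s.1 * j (s.2 : A)) = pD s.1
    rw [map_mul, hph, (hcl.ker (j (s.2 : A))).2 ⟨_, rfl⟩, mul_one]
  · have h5 := Pool.Agent.DP.EXTAR.isIrr_lin
      (MonoidHom.coprod lam om : P × Subgroup.zpowers x →* ℂˣ)
    have h6 : (fun k => (((MonoidHom.coprod lam om : P × Subgroup.zpowers x →* ℂˣ) k : ℂˣ) : ℂ)) =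
        fun u : P × Subgroup.zpowers x => ((lam u.1 : ℂˣ) : ℂ) * ((om u.2 : ℂˣ) : ℂ) := by
      funext u
      rw [MonoidHom.coprod_apply, Units.val_mul]
    rw [← h6]
    exact h5
  · exact hip

end Pool.Agent.RCB
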