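import Mathlib
import Pool.Agent.RCB.St2
import Pool.Agent.DP.TJ

/-!
# RCB_EQV: elementary properties of the action of the outer group
-/

namespace Pool.Agent.RCB

open Pool.Agent.DP Pool.Agent.DPV Pool.Agent.DPB Pool.Agent.DPW Pool.Agent.DPX
open Pool.Agent.Lib_helper13 Representation

namespace EQV

section Aut

variable {G : Type} [Group G] [Fintype G]

/-- The restriction of an automorphism to an invariant subgroup. -/
noncomputable def resE (α : MulAut G) (S : Subgroup G) (hS : ∀ x, α x ∈ S ↔ x ∈ S) : S ≃* S where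
  toFun s := ⟨α s, (hS _).mpr s.2⟩
  invFun s := ⟨α.symm s, by rw [← hS, MulEquiv.apply_symm_apply]; exact s.2⟩
  left_inv s := Subtype.ext (α.symm_apply_apply _)
  right_inv s := Subtype.ext (α.apply_symm_apply _)
  map_mul' s t := Subtype.ext (map_mul α _ _)

theorem irrOn_comp (α : MulAut G) {S : Subgroup G} (hS : ∀ x, α x ∈ S ↔ x ∈ S) {f : G → ℂ}
    (h : IrrOn S f) : IrrOn S (fun g => f (α g)) := by
  haveI : Fintype S := Fintype.ofFinite _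
  exact ⟨h.1.comp_mulEquiv (resE α S hS), fun x hx => h.2 _ (fun h' => hx ((hS x).mp h'))⟩

theorem mu_comp (α : MulAut G) {S : Subgroup G} (hS : ∀ x, α x ∈ S ↔ x ∈ S) (f φ : G → ℂ) :
    mu S (fun g => f (α g)) (fun g => φ (α g)) = mu S f φ := by
  classical
  rw [mu, mu]
  congr 1
  refine Fintype.sum_equiv α.toEquiv _ _ fun x => ?_
  change (if x ∈ S then f (α x) * φ (α x⁻¹) else 0) =
    (if α x ∈ S then f (α x) * φ (α x)⁻¹ else 0)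
  rw [map_inv]
  exact if_congr (hS x).symm rfl rfl

theorem irrOn_conj {S : Subgroup G} {f : G → ℂ} (h : IrrOn S f) {s : G} (hs : s ∈ S) (x : G) :
    f (s * x * s⁻¹) = f x := by
  by_cases hx : x ∈ S
  · exact h.1.conj_eq ⟨s, hs⟩ ⟨x, hx⟩
  · rw [h.2 x hx, h.2]
    intro h'
    apply hx
    have h2 := S.mul_mem (S.mul_mem (S.inv_mem hs) h') hs
    have h3 : s⁻¹ * (s * x * s⁻¹) * s = x := by group
    rwa [h3] at h2

theorem mem_iff (α : MulAut G) {P₁ : Subgroup G} (h : P₁.map α.toMonoidHom = P₁) (y : G) :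
    α y ∈ P₁ ↔ y ∈ P₁ := by
  constructor
  · intro hy
    rw [← h] at hy
    obtain ⟨z, hz, hzy⟩ := hy
    have h2 : z = y := α.injective hzy
    rwa [← h2]
  · intro hy
    have h2 : α y ∈ P₁.map α.toMonoidHom := ⟨y, hy, rfl⟩
    rwa [h] at h2

variable {P₁ : Subgroup G} {α : MulAut G}

theorem symm_iff (h : ∀ y, α y ∈ P₁ ↔ y ∈ P₁) (y : G) : α.symm y ∈ P₁ ↔ y ∈ P₁ := by
  rw [← h, MulEquiv.apply_symm_apply]

theorem stb_iff (h : ∀ y, α y ∈ P₁ ↔ y ∈ P₁) (x : G) :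
    α x ∈ stb {P₁} ↔ x ∈ stb {P₁} := by
  rw [mem_stb', mem_stb']
  constructor
  · intro h1 D hD y
    have hD' := Finset.mem_singleton.mp hD
    subst hD'
    have h2 := h1 D hD (α y)
    rwa [← map_inv, ← map_mul, ← map_mul, h, h] at h2
  · intro h1 D hD y
    have hD' := Finset.mem_singleton.mp hD
    subst hD'
    obtain ⟨z, rfl⟩ := α.surjective y
    rw [← map_inv, ← map_mul, ← map_mul, h, h]
    exact h1 D hD z

theorem cen_iff (h : ∀ y, α y ∈ P₁ ↔ y ∈ P₁) (x : G) :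
    α x ∈ Subgroup.centralizer (P₁ : Set G) ↔ x ∈ Subgroup.centralizer (P₁ : Set G) := by
  rw [Subgroup.mem_centralizer_iff, Subgroup.mem_centralizer_iff]
  constructor
  · intro h1 y hy
    apply α.injective
    rw [map_mul, map_mul]
    exact h1 _ ((h y).mpr hy)
  · intro h1 y hy
    obtain ⟨z, rfl⟩ := α.surjective y
    rw [← map_mul, ← map_mul, h1 z ((h z).mp hy)]

variable {𝔐 : Ideal (integralClosure ℤ ℂ)} {ω : G → (integralClosure ℤ ℂ) ⧸ 𝔐}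

theorem xs_comp (hω : ∀ g, ω (α g) = ω g) {χ : G → ℂ} (h : χ ∈ XS 𝔐 ω) :
    (fun g => χ (α g)) ∈ XS 𝔐 ω := by
  refine ⟨irrOn_comp α (fun x => ?_) h.1, fun g => ?_⟩
  · rw [stb_empty]
    exact ⟨fun _ => Subgroup.mem_top _, fun _ => Subgroup.mem_top _⟩
  · rw [TJ.cg_comp, h.2, hω]

theorem yl_comp (hP : ∀ y, α y ∈ P₁ ↔ y ∈ P₁) (hω : ∀ g, ω (α g) = ω g) {ψ : G → ℂ}
    (h : ψ ∈ YL 𝔐 P₁ ω) : (fun g => ψ (α g)) ∈ YL 𝔐 P₁ ω := by
  refine ⟨irrOn_comp α (stb_iff hP) h.1, fun g => ?_⟩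
  rw [TJ.cg_comp, h.2, hω]

theorem zc_comp (hP : ∀ y, α y ∈ P₁ ↔ y ∈ P₁) (hω : ∀ g, ω (α g) = ω g) {φ : G → ℂ}
    (h : φ ∈ ZC 𝔐 P₁ ω) : (fun g => φ (α g)) ∈ ZC 𝔐 P₁ ω := by
  obtain ⟨h1, ψ, h2, h3⟩ := h
  refine ⟨irrOn_comp α (cen_iff hP) h1, _, yl_comp hP hω h2, ?_⟩
  rw [mu_comp α (cen_iff hP)]
  exact h3

theorem symm_omega (hω : ∀ g, ω (α g) = ω g) (g : G) : ω (α.symm g) = ω g := by
  rw [← hω, MulEquiv.apply_symm_apply]

theorem zc_iff (hP : ∀ y, α y ∈ P₁ ↔ y ∈ P₁) (hω : ∀ g, ω (α g) = ω g) (φ : G → ℂ) :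
    φ ∈ ZC 𝔐 P₁ ω ↔ (fun g => φ (α g)) ∈ ZC 𝔐 P₁ ω := by
  refine ⟨zc_comp hP hω, fun h => ?_⟩
  have h2 := zc_comp (α := α.symm) (symm_iff hP) (symm_omega hω) h
  have h3 : (fun g => φ (α (α.symm g))) = φ := by
    funext g
    rw [MulEquiv.apply_symm_apply]
  rwa [h3] at h2

/-- Every function in `ZC` is a composition with the automorphism. -/
theorem zc_exists (hP : ∀ y, α y ∈ P₁ ↔ y ∈ P₁) (hω : ∀ g, ω (α g) = ω g) {φ : G → ℂ}
    (h : φ ∈ ZC 𝔐 P₁ ω) : ∃ φ' ∈ ZC 𝔐 P₁ ω, φ = fun g => φ' (α g) := by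
  refine ⟨_, zc_comp (α := α.symm) (symm_iff hP) (symm_omega hω) h, ?_⟩
  funext g
  rw [MulEquiv.symm_apply_apply]

theorem mtc_comp (hP : ∀ y, α y ∈ P₁ ↔ y ∈ P₁) (hω : ∀ g, ω (α g) = ω g) {χ ψ : G → ℂ}
    (h : Mtc 𝔐 P₁ ω χ ψ) : Mtc 𝔐 P₁ ω (fun g => χ (α g)) (fun g => ψ (α g)) := by
  obtain ⟨a, b, hb, h1⟩ := h
  refine ⟨a, b, hb, fun φ hφ => ?_⟩
  obtain ⟨φ', hφ', rfl⟩ := zc_exists hP hω hφ
  rw [mu_comp α (cen_iff hP), mu_comp α (cen_iff hP)]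
  exact h1 φ' hφ'

theorem supEq_comp (hP : ∀ y, α y ∈ P₁ ↔ y ∈ P₁) (hω : ∀ g, ω (α g) = ω g) {ψ ψ' : G → ℂ}
    (h : SupEq 𝔐 P₁ ω ψ ψ') : SupEq 𝔐 P₁ ω (fun g => ψ (α g)) (fun g => ψ' (α g)) := by
  intro φ hφ
  obtain ⟨φ', hφ', rfl⟩ := zc_exists hP hω hφ
  rw [mu_comp α (cen_iff hP), mu_comp α (cen_iff hP)]
  exact h φ' hφ'

variable {B C : Type} [Group B] [Group C] {ι : G →* B} {κ : B →* MulAut G} {ρ : B →* C}

theorem kap (h : LocN ι κ ρ) (s x : G) : κ (ι s) x = s * x * s⁻¹ := by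
  apply h.cl.inj
  rw [h.cl.act, map_mul, map_mul, map_inv]

theorem map_iff (h : LocN ι κ ρ) (σ : Finset (Subgroup G)) {ψ : G → ℂ} (hψ : IrrOn (stb σ) ψ)
    {b : B} (hb : b ∈ Stx κ σ (fun _ => 0)) :
    ρ b ∈ (Stx κ σ ψ).map ρ ↔ (fun g => ψ (κ b g)) = ψ := by
  constructor
  · rintro ⟨b', hb', hρ⟩
    have h0 : b' ∈ Stx κ σ (fun _ => 0) := ⟨hb'.1, fun _ => rfl⟩
    have h1 : b'⁻¹ * b ∈ ι.range := by
      rw [← h.cl.ker, map_mul, map_inv, hρ, inv_mul_cancel]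
    obtain ⟨s, hs⟩ := h1
    have h2 : ι s ∈ Stx κ σ (fun _ => 0) := by
      rw [hs]
      exact mul_mem (inv_mem h0) hb
    have h3 : s ∈ stb σ := by
      rw [mem_stb]
      intro D hD
      have h4 := h2.1 D hD
      have h5 : (κ (ι s)).toMonoidHom = (MulAut.conj s).toMonoidHom := by
        ext x
        exact kap h s x
      rwa [h5] at h4
    funext g
    have h4 : b = b' * ι s := by rw [hs, mul_inv_cancel_left]
    rw [h4, map_mul, MulAut.mul_apply, hb'.2, kap h]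
    exact irrOn_conj hψ h3 g
  · intro h1
    exact ⟨b, ⟨hb.1, fun g => congrFun h1 g⟩, rfl⟩

theorem stx_of_ys (h : LocN ι κ ρ) {y : B} (hy : y ∈ YS ι {P₁}) :
    y ∈ Stx κ {P₁} (fun _ => 0) := by
  refine ⟨fun D hD => ?_, fun _ => rfl⟩
  have hy' : y ∈ stb (mapCh ι {P₁}) := hy
  rw [mem_stb] at hy'
  have h1 := hy' (D.map ι) (mem_mapCh.mpr ⟨D, hD, rfl⟩)
  have h2 : (MulAut.conj y).toMonoidHom.comp ι = ι.comp (κ y).toMonoidHom := by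
    ext a
    exact (h.cl.act y a).symm
  rw [Subgroup.map_map, h2, ← Subgroup.map_map] at h1
  exact Subgroup.map_injective h.cl.inj h1

end Aut

end EQV

open EQV in
theorem EQV_thm (h : Stmt_FXGX) : Stmt_EQV := by
  intro G B C _ _ _ _ _ 𝔐 ℓ n _ hmax hℓ ι κ ρ hL ω P₁ P x₀ hS
  have hP : ∀ b ∈ Stx κ {P₁} (fun _ => 0), ∀ y, κ b y ∈ P₁ ↔ y ∈ P₁ := fun b hb =>
    mem_iff (κ b) (hb.1 P₁ (Finset.mem_singleton_self _))
  have hω : ∀ b g, ω (κ b g) = ω g := hS.inv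
  refine ⟨fun c => ?_, fun χ hχ b => ⟨xs_comp (hω b) hχ, map_iff hL ∅ hχ.1 ⟨?_, fun _ => rfl⟩⟩,
    fun ψ hψ b hb => ⟨yl_comp (hP b hb) (hω b) hψ, map_iff hL {P₁} hψ.1 hb⟩,
    fun φ b hb => zc_iff (hP b hb) (hω b) φ,
    fun f φ b hb => mu_comp (κ b) (cen_iff (hP b hb)) f φ,
    fun χ ψ b hb hm => mtc_comp (hP b hb) (hω b) hm,
    fun ψ ψ' b hb hm => supEq_comp (hP b hb) (hω b) hm⟩
  · have h1 := h G B C 𝔐 ℓ n hmax hℓ ι κ ρ hL ω P₁ P x₀ hS.at' hS.inv hS.ex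
    have h2 : c ∈ (YS ι {P₁}).map ρ := by
      rw [h1]
      exact Subgroup.mem_top _
    obtain ⟨y, hy, rfl⟩ := h2
    exact ⟨y, stx_of_ys hL hy, rfl⟩
  · intro D hD
    exact absurd hD (Finset.notMem_empty D)

end Pool.Agent.RCB
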