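import Mathlib
import Pool.Agent.RCB.St2
import Pool.Agent.DP.BLKC

/-!
# TRM: dictionary between functions on subgroups and functions on the group
-/

namespace Pool.Agent.RCB

open Pool.Agent.DP Pool.Agent.DPV Pool.Agent.DPB Pool.Agent.DPW Pool.Agent.DPX
open Pool.Agent.Lib_helper13 Representation

namespace TRM

/-- The stabilizer of `P₁` is its normalizer. -/
theorem stb_single {G : Type} [Group G] (P₁ : Subgroup G) :
    stb ({P₁} : Finset (Subgroup G)) = Subgroup.normalizer (P₁ : Set G) := by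
  simp [stb]

section

variable {G : Type} [Group G] {P₁ : Subgroup G} {C : Subgroup (NP P₁)}

theorem mem_C (hC : C = Subgroup.centralizer ((P₁.subgroupOf (Subgroup.normalizer (P₁ : Set G)) :
      Subgroup (NP P₁)) : Set (NP P₁))) (c : NP P₁) :
    c ∈ C ↔ (c : G) ∈ Subgroup.centralizer (P₁ : Set G) := by
  rw [hC, Subgroup.mem_centralizer_iff, Subgroup.mem_centralizer_iff]
  constructor
  · intro h x hx
    have hx' : x ∈ Subgroup.normalizer (P₁ : Set G) := Subgroup.le_normalizer hx
    have := h ⟨x, hx'⟩ hx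
    exact congrArg Subtype.val this
  · intro h x hx
    apply Subtype.ext
    exact h x hx

theorem cen_le : Subgroup.centralizer (P₁ : Set G) ≤ Subgroup.normalizer (P₁ : Set G) :=
  Subgroup.centralizer_le_normalizer _

theorem inj : Function.Injective (fun c : C => ((c : NP P₁) : G)) :=
  fun _ _ h => Subtype.ext (Subtype.ext h)

/-- The isomorphism of `C` with the centralizer in `G`. -/
def eC (h : ∀ c : NP P₁, c ∈ C ↔ (c : G) ∈ Subgroup.centralizer (P₁ : Set G)) :
    C ≃* Subgroup.centralizer (P₁ : Set G) where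
  toFun c := ⟨((c : NP P₁) : G), (h c).1 c.2⟩
  invFun x := ⟨⟨x, cen_le x.2⟩, (h _).2 x.2⟩
  left_inv c := rfl
  right_inv x := rfl
  map_mul' x y := rfl

end

end TRM

open TRM in
theorem TRM_thm : Stmt_TRM := by
  classical
  intro G _ _ 𝔐 P₁ _ C hCn hC
  have hm := mem_C hC
  have hst := stb_single P₁
  obtain ⟨i, hi⟩ : ∃ i : C → G, i = fun c : C => ((c : NP P₁) : G) := ⟨_, rfl⟩
  have hinj : Function.Injective i := by rw [hi]; exact inj
  obtain ⟨i', hi'⟩ : ∃ i' : NP P₁ → G, i' = fun s : NP P₁ => (s : G) := ⟨_, rfl⟩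
  have hinj' : Function.Injective i' := by rw [hi']; exact Subtype.val_injective
  have h1 : ∀ (φ : C → ℂ) (c : C), Function.extend i φ 0 ((c : NP P₁) : G) = φ c := by
    intro φ c
    have := hinj.extend_apply φ 0 c
    rwa [hi] at this ⊢
  have h2 : ∀ (φ : C → ℂ) (g : G), g ∉ Subgroup.centralizer (P₁ : Set G) →
      Function.extend i φ 0 g = 0 := by
    intro φ g hg
    rw [Function.extend_apply']
    · rfl
    · rintro ⟨c, rfl⟩
      rw [hi] at hg
      exact hg ((hm c).1 c.2)
  have h3 : ∀ (ψ : NP P₁ → ℂ) (s : NP P₁), Function.extend i' ψ 0 (s : G) = ψ s := by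
    intro ψ s
    have := hinj'.extend_apply ψ 0 s
    rwa [hi'] at this ⊢
  have h4 : ∀ (ψ : NP P₁ → ℂ) (g : G), g ∉ Subgroup.normalizer (P₁ : Set G) →
      Function.extend i' ψ 0 g = 0 := by
    intro ψ g hg
    rw [Function.extend_apply']
    · rfl
    · rintro ⟨c, rfl⟩
      rw [hi'] at hg
      exact hg c.2
  -- the elements of the centralizer
  have hc : ∀ g, g ∈ Subgroup.centralizer (P₁ : Set G) → ∃ c : C, ((c : NP P₁) : G) = g :=
    fun g hg => ⟨(eC hm).symm ⟨g, hg⟩, rfl⟩
  obtain ⟨z, hz⟩ : ∃ z : (C → ℂ) → G → ℂ, z = fun φ => Function.extend i φ 0 := ⟨_, rfl⟩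
  obtain ⟨z', hz'⟩ : ∃ z' : (NP P₁ → ℂ) → G → ℂ, z' = fun ψ => Function.extend i' ψ 0 := ⟨_, rfl⟩
  replace h1 : ∀ (φ : C → ℂ) (c : C), z φ ((c : NP P₁) : G) = φ c := by
    intro φ c; rw [hz]; exact h1 φ c
  replace h2 : ∀ (φ : C → ℂ) (g : G), g ∉ Subgroup.centralizer (P₁ : Set G) → z φ g = 0 := by
    intro φ g hg; rw [hz]; exact h2 φ g hg
  replace h3 : ∀ (ψ : NP P₁ → ℂ) (s : NP P₁), z' ψ (s : G) = ψ s := by
    intro ψ s; rw [hz']; exact h3 ψ s
  replace h4 : ∀ (ψ : NP P₁ → ℂ) (g : G), g ∉ Subgroup.normalizer (P₁ : Set G) → z' ψ g = 0 := by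
    intro ψ g hg; rw [hz']; exact h4 ψ g hg
  clear hz hz'
  refine ⟨z, z', h1, h2, h3, ?_, ?_, hm, ?_, ?_, ?_, ?_, ?_, ?_, ?_, ?_⟩
  · intro ψ g hg
    exact h4 ψ g (by rwa [hst] at hg)
  · intro g
    rw [hst]
  · -- irreducible characters of the centralizer
    intro f
    constructor
    · intro hf
      refine ⟨fun c : C => f ((c : NP P₁) : G), hf.1.comp_mulEquiv (eC hm), ?_⟩
      funext g
      by_cases hg : g ∈ Subgroup.centralizer (P₁ : Set G)
      · obtain ⟨c, rfl⟩ := hc g hg
        rw [h1]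
      · rw [hf.2 g hg, h2 _ g hg]
    · rintro ⟨φ, hφ, rfl⟩
      refine ⟨?_, h2 φ⟩
      have e : (fun s : Subgroup.centralizer (P₁ : Set G) => z φ (s : G)) =
          fun s => φ ((eC hm).symm s) := by
        funext s
        exact h1 φ ((eC hm).symm s)
      rw [e]
      exact hφ.comp_mulEquiv (eC hm).symm
  · -- irreducible characters of the normalizer
    intro f
    rw [hst]
    constructor
    · intro hf
      refine ⟨fun s : NP P₁ => f s, hf.1, ?_⟩
      funext g
      by_cases hg : g ∈ Subgroup.normalizer (P₁ : Set G)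
      · exact (h3 (fun s : NP P₁ => f s) ⟨g, hg⟩).symm
      · rw [hf.2 g hg, h4 _ g hg]
    · rintro ⟨ψ, hψ, rfl⟩
      refine ⟨?_, h4 ψ⟩
      have e : (fun s : Subgroup.normalizer (P₁ : Set G) => z' ψ (s : G)) =
          ψ := by
        funext s
        exact h3 ψ s
      rw [e]
      exact hψ
  · intro φ φ' h
    funext c
    rw [← h1 φ c, ← h1 φ' c]
    exact congrFun h _
  · intro ψ ψ' h
    funext s
    rw [← h3 ψ s, ← h3 ψ' s]
    exact congrFun h _
  · -- inner products
    intro f φ
    have e1 : ip (fun c : C => f ((c : NP P₁) : G)) φ =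
        ip (fun s : Subgroup.centralizer (P₁ : Set G) => f s)
          (fun s => φ ((eC hm).symm s)) := by
      rw [← BLKC.ip_comp_equiv (eC hm)]
      rfl
    rw [e1, mu, ip]
    congr 1
    rw [← Finset.sum_filter, Finset.sum_subtype
      (Finset.univ.filter (fun x => x ∈ Subgroup.centralizer (P₁ : Set G)))
      (p := fun x => x ∈ Subgroup.centralizer (P₁ : Set G)) (fun x => by simp)]
    refine Finset.sum_congr rfl fun x _ => ?_
    congr 1
    exact h1 φ ((eC hm).symm x⁻¹)
  · -- central functions of the normalizer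
    intro ψ g
    rw [← BLKC.cg_eq_cen 𝔐 (Subgroup.normalizer (P₁ : Set G)) (z' ψ) (h4 ψ) g]
    congr 1
    funext s
    exact h3 ψ s
  · -- central functions of the centralizer
    intro φ c
    rw [cgT, cen, wt]
    congr 2
    · have e1 : ∑ x, cjT (Subgroup.centralizer (P₁ : Set G)) x ((c : NP P₁) : G) *
          z φ x = ∑ x ∈ Finset.univ.filter
            (fun x => x ∈ Subgroup.centralizer (P₁ : Set G)),
          cjT (Subgroup.centralizer (P₁ : Set G)) x ((c : NP P₁) : G) *
            z φ x := by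
        rw [Finset.sum_filter]
        refine Finset.sum_congr rfl fun x _ => ?_
        split_ifs with hx
        · rfl
        · rw [h2 φ x hx, mul_zero]
      rw [e1, Finset.sum_subtype
        (Finset.univ.filter (fun x => x ∈ Subgroup.centralizer (P₁ : Set G)))
        (p := fun x => x ∈ Subgroup.centralizer (P₁ : Set G)) (fun x => by simp)]
      refine (Fintype.sum_equiv (eC hm).toEquiv _ _ fun y => ?_).symm
      change conjInd y c * φ y = cjT (Subgroup.centralizer (P₁ : Set G)) ((y : NP P₁) : G)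
        ((c : NP P₁) : G) * z φ ((y : NP P₁) : G)
      have key : IsConj y c ↔ ∃ t ∈ Subgroup.centralizer (P₁ : Set G),
          ((y : NP P₁) : G) = t * ((c : NP P₁) : G) * t⁻¹ := by
        refine (isConj_comm.trans isConj_iff).trans ?_
        constructor
        · rintro ⟨t, ht⟩
          refine ⟨((t : NP P₁) : G), (hm t).1 t.2, ?_⟩
          rw [← ht]
          rfl
        · rintro ⟨t, ht, h⟩
          obtain ⟨t', rfl⟩ := hc t ht
          refine ⟨t', ?_⟩
          apply Subtype.ext
          apply Subtype.ext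
          exact h.symm
      rw [h1, cjT]
      by_cases h : IsConj y c
      · rw [conjInd_of h, if_pos (key.1 h)]
      · rw [conjInd_of_not h, if_neg fun h' => h (key.2 h')]
    · have := h1 φ 1
      exact this
  · -- conjugation
    intro φ s g
    by_cases hg : g ∈ Subgroup.centralizer (P₁ : Set G)
    · obtain ⟨c, rfl⟩ := hc g hg
      rw [h1]
      exact h1 φ (MulAut.conjNormal s c)
    · rw [h2 _ g hg, h2]
      intro h
      apply hg
      obtain ⟨c, hc'⟩ := hc _ h
      have e : g = (((MulAut.conjNormal s⁻¹ c : C) : NP P₁) : G) := by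
        rw [MulAut.conjNormal_apply]
        simp only [Subgroup.coe_mul, InvMemClass.coe_inv, inv_inv, hc']
        group
      rw [e]
      exact (hm _).1 (MulAut.conjNormal s⁻¹ c : C).2

end Pool.Agent.RCB
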