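import Mathlib
import Pool.Agent.RCB.St4
import Pool.Agent.RCB.EQV
import Pool.Agent.RCB.TRM
import Pool.Agent.DPX.NRMX

/-!
# Theorem P1, RCB_MZC: inertial index one, the restriction of `ψ` is multiplicity free
-/

set_option linter.unusedSectionVars false

namespace Pool.Agent.RCB

open Pool.Agent.DP Pool.Agent.DPV Pool.Agent.DPB Pool.Agent.DPW Pool.Agent.DPX
open Pool.Agent.Lib_helper13 Representation

namespace MZC

variable {G : Type} [Group G] [Fintype G]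

open Classical in
theorem sum_sub (S : Subgroup G) [Fintype S] (F : G → ℂ) :
    ∑ s : S, F s = ∑ g, if g ∈ S then F g else 0 := by
  rw [← Finset.sum_filter]
  exact (Finset.sum_subtype _ (fun x => by simp) F).symm

theorem mu_eq (S : Subgroup G) [Fintype S] (f φ : G → ℂ) :
    mu S f φ = ip (fun c : S => f c) (fun c : S => φ c) := by
  classical
  rw [mu, ip]
  congr 1
  rw [← sum_sub S (fun g => f g * φ g⁻¹)]
  rfl

theorem cgT_conj (𝔐 : Ideal (integralClosure ℤ ℂ)) (S : Subgroup G) (φ : G → ℂ) (t : G)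
    (ht : ∀ x, t * x * t⁻¹ ∈ S ↔ x ∈ S) (h : ∀ g, φ (t * g * t⁻¹) = φ g) (g : G) :
    cgT 𝔐 S φ (t * g * t⁻¹) = cgT 𝔐 S φ g := by
  classical
  rw [cgT, cgT]
  congr 2
  symm
  refine Fintype.sum_equiv (MulAut.conj t).toEquiv _ _ fun x => ?_
  change cjT S x g * φ x = cjT S (t * x * t⁻¹) (t * g * t⁻¹) * φ (t * x * t⁻¹)
  rw [h]
  congr 1
  have hiff : (∃ u ∈ S, x = u * g * u⁻¹) ↔
      ∃ u ∈ S, t * x * t⁻¹ = u * (t * g * t⁻¹) * u⁻¹ := by
    constructor
    · rintro ⟨u, hu, rfl⟩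
      exact ⟨t * u * t⁻¹, (ht u).2 hu, by group⟩
    · rintro ⟨u, hu, hx⟩
      refine ⟨t⁻¹ * u * t, (ht _).1 ?_, ?_⟩
      · have e : t * (t⁻¹ * u * t) * t⁻¹ = u := by group
        rw [e]
        exact hu
      · have e : x = t⁻¹ * (t * x * t⁻¹) * t := by group
        rw [e, hx]
        group
  unfold cjT
  by_cases hc : ∃ u ∈ S, x = u * g * u⁻¹
  · rw [if_pos hc, if_pos (hiff.1 hc)]
  · rw [if_neg hc, if_neg fun h' => hc (hiff.2 h')]

/-- The number of the different conjugates of `φ`. -/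
theorem card_le {N S : Subgroup G} [Fintype N] (φ : G → ℂ) (T : Finset (S → ℂ))
    (hφ : ∀ g, g ∉ S → φ g = 0) (hN : ∀ s ∈ N, ∀ x, s * x * s⁻¹ ∈ S ↔ x ∈ S)
    (hT : ∀ s : N, (fun c : S => φ (s * c * (s : G)⁻¹)) ∈ T)
    (hfix : ∀ t ∈ N, (∀ g, φ (t * g * t⁻¹) = φ g) → t ∈ S) :
    Nat.card N ≤ Nat.card S * T.card := by
  classical
  have : Fintype S := Fintype.ofFinite _
  have h1 := Finset.card_le_mul_card_image (f := fun s : N => fun c : S => φ (s * c * (s : G)⁻¹))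
    (Finset.univ : Finset N) (Nat.card S) ?_
  · rw [Finset.card_univ, ← Nat.card_eq_fintype_card] at h1
    refine h1.trans (Nat.mul_le_mul_left _ (Finset.card_le_card ?_))
    intro η hη
    obtain ⟨s, _, rfl⟩ := Finset.mem_image.1 hη
    exact hT s
  · intro η hη
    obtain ⟨s, _, rfl⟩ := Finset.mem_image.1 hη
    rw [Nat.card_eq_fintype_card, ← Finset.card_univ]
    have key : ∀ s' : N, (fun c : S => φ (s' * c * (s' : G)⁻¹)) =
        (fun c : S => φ (s * c * (s : G)⁻¹)) → (s' : G) * (s : G)⁻¹ ∈ S := by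
      intro s' h
      refine hfix _ (N.mul_mem s'.2 (N.inv_mem s.2)) fun g => ?_
      by_cases hg : g ∈ S
      · have e1 : (s : G)⁻¹ * g * ((s : G)⁻¹)⁻¹ ∈ S := (hN _ (N.inv_mem s.2) g).2 hg
        have e2 := congrFun h ⟨_, e1⟩
        have e3 : (s' : G) * ((s : G)⁻¹ * g * ((s : G)⁻¹)⁻¹) * (s' : G)⁻¹ =
            (s' : G) * (s : G)⁻¹ * g * ((s' : G) * (s : G)⁻¹)⁻¹ := by group
        have e4 : (s : G) * ((s : G)⁻¹ * g * ((s : G)⁻¹)⁻¹) * (s : G)⁻¹ = g := by group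
        change φ ((s' : G) * ((s : G)⁻¹ * g * ((s : G)⁻¹)⁻¹) * (s' : G)⁻¹) =
          φ ((s : G) * ((s : G)⁻¹ * g * ((s : G)⁻¹)⁻¹) * (s : G)⁻¹) at e2
        rw [e3, e4] at e2
        exact e2
      · rw [hφ g hg, hφ]
        intro h'
        exact hg ((hN _ (N.mul_mem s'.2 (N.inv_mem s.2)) g).1 h')
    refine Finset.card_le_card_of_injOn
      (fun s' : N => if h : (s' : G) * (s : G)⁻¹ ∈ S then (⟨_, h⟩ : S) else 1)
      (fun _ _ => Finset.mem_coe.2 (Finset.mem_univ _)) ?_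
    intro a ha b hb hab
    have ha' := key a (Finset.mem_filter.1 (Finset.mem_coe.1 ha)).2
    have hb' := key b (Finset.mem_filter.1 (Finset.mem_coe.1 hb)).2
    simp only [dif_pos ha', dif_pos hb'] at hab
    have h2 := congrArg Subtype.val hab
    exact Subtype.ext (mul_right_cancel h2)

/-- The sum of the squares of the multiplicities. -/
theorem sum_sq_le {Y : Type} [Group Y] [Fintype Y] {f : Y → ℂ} (hf : IsChr f) (k : ℕ)
    (T : Finset (Y → ℂ)) (hT : ∀ η ∈ T, IsIrr η ∧ ip f η = k) :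
    ((T.card * k ^ 2 : ℕ) : ℝ) * Nat.card Y ≤ ∑ y, ‖f y‖ ^ 2 := by
  classical
  have hm : ∀ χ : Y → ℂ, ∃ m : ℕ, IsIrr χ → ip f χ = m := by
    intro χ
    by_cases hχ : IsIrr χ
    · obtain ⟨m, hm⟩ := hf.exists_ip hχ.isChr
      exact ⟨m, fun _ => hm⟩
    · exact ⟨0, fun h => absurd h hχ⟩
  choose m hm using hm
  have h1 := ip_expand f f (fun g x => hf.conj_eq g x)
  have h2 : ∑ χ ∈ irrF Y, ip f χ * ip χ f = ((∑ χ ∈ irrF Y, m χ ^ 2 : ℕ) : ℂ) := by
    push_cast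
    refine Finset.sum_congr rfl fun χ hχ => ?_
    rw [ip_comm χ f, hm χ (mem_irrF.1 hχ)]
    ring
  rw [h2] at h1
  have h3 : (T.card * k ^ 2 : ℕ) ≤ ∑ χ ∈ irrF Y, m χ ^ 2 := by
    calc T.card * k ^ 2 = ∑ η ∈ T, k ^ 2 := by rw [Finset.sum_const, smul_eq_mul]
      _ = ∑ η ∈ T, m η ^ 2 := by
          refine Finset.sum_congr rfl fun η hη => ?_
          have e := (hT η hη).2
          rw [hm η (hT η hη).1] at e
          rw [Nat.cast_injective e]
      _ ≤ ∑ χ ∈ irrF Y, m χ ^ 2 := by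
          refine Finset.sum_le_sum_of_subset fun η hη => ?_
          exact mem_irrF.2 (hT η hη).1
  have h4 : ((∑ y, ‖f y‖ ^ 2 : ℝ) : ℂ) = ((∑ χ ∈ irrF Y, m χ ^ 2 : ℕ) : ℂ) * Nat.card Y := by
    rw [← h1, ip, div_mul_cancel₀ _ natCard_ne_zero]
    push_cast
    refine Finset.sum_congr rfl fun y _ => ?_
    rw [NRMX.char_inv hf, Complex.mul_conj, Complex.normSq_eq_norm_sq]
    push_cast
    rfl
  have h5 : (∑ y, ‖f y‖ ^ 2 : ℝ) = ((∑ χ ∈ irrF Y, m χ ^ 2 : ℕ) : ℝ) * Nat.card Y := by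
    exact_mod_cast h4
  rw [h5]
  exact mul_le_mul_of_nonneg_right (by exact_mod_cast h3) (by positivity)

/-- The norm of an irreducible character. -/
theorem sum_norm {Y : Type} [Group Y] [Fintype Y] {f : Y → ℂ} (hf : IsIrr f) :
    ∑ y, ‖f y‖ ^ 2 = Nat.card Y := by
  have h1 := hf.sum_self
  have h2 : ((∑ y, ‖f y‖ ^ 2 : ℝ) : ℂ) = (Nat.card Y : ℂ) := by
    rw [← h1]
    push_cast
    refine Finset.sum_congr rfl fun y _ => ?_
    rw [NRMX.char_inv hf.isChr, Complex.mul_conj, Complex.normSq_eq_norm_sq]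
    push_cast
    rfl
  exact_mod_cast h2

theorem sum_norm_le {S N : Subgroup G} [Fintype S] [Fintype N] (hSN : S ≤ N) (f : G → ℂ) :
    ∑ y : S, ‖f y‖ ^ 2 ≤ ∑ y : N, ‖f y‖ ^ 2 := by
  classical
  rw [← Finset.sum_subtype (Finset.univ.filter fun g : G => g ∈ S) (fun x => by simp)
      (fun g => ‖f g‖ ^ 2),
    ← Finset.sum_subtype (Finset.univ.filter fun g : G => g ∈ N) (fun x => by simp)
      (fun g => ‖f g‖ ^ 2)]
  refine Finset.sum_le_sum_of_subset_of_nonneg (fun g hg => ?_) fun _ _ _ => by positivity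
  rw [Finset.mem_filter] at hg ⊢
  exact ⟨hg.1, hSN hg.2⟩

end MZC

open MZC in
theorem MZC_thm : Stmt_MZC := by
  classical
  intro G _ _ 𝔐 ℓ n _ _ _ ω P₁ P x _ _ hEB ψ hψ φ hφ
  have hst := TRM.stb_single P₁
  have hSN : Subgroup.centralizer (P₁ : Set G) ≤ stb {P₁} := by
    rw [hst]
    exact Subgroup.centralizer_le_normalizer _
  have hconj : ∀ s ∈ stb {P₁}, ∀ x, s * x * s⁻¹ ∈ Subgroup.centralizer (P₁ : Set G) ↔
      x ∈ Subgroup.centralizer (P₁ : Set G) := by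
    intro s hs x
    refine EQV.cen_iff (α := MulAut.conj s) (fun y => ?_) x
    exact ((mem_stb'.1 hs) P₁ (Finset.mem_singleton_self _) y).symm
  obtain ⟨S, hS⟩ : ∃ S : Subgroup G, S = Subgroup.centralizer (P₁ : Set G) := ⟨_, rfl⟩
  have hφI : IrrOn S φ := by rw [hS]; exact hφ.1
  have hψI : IrrOn (stb {P₁}) ψ := hψ.1
  have hfix : ∀ t ∈ stb {P₁}, (∀ g, φ (t * g * t⁻¹) = φ g) → t ∈ S := by
    intro t ht h
    by_contra hcon
    apply hEB
    refine ⟨φ, hφ, t, ht, by rwa [← hS], fun g => ?_⟩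
    exact cgT_conj 𝔐 _ φ t (hconj t ht) h g
  rw [← hS] at hSN hconj ⊢
  have : Fintype S := Fintype.ofFinite _
  have : Fintype (stb {P₁} : Subgroup G) := Fintype.ofFinite _
  -- the restriction of `ψ`
  have hf : IsChr (fun c : S => ψ c) :=
    hψI.1.isChr.comp (Subgroup.inclusion hSN)
  obtain ⟨k, hk⟩ := hf.exists_ip hφI.1.isChr
  have hmu : mu S ψ φ = k := by rw [mu_eq, hk]
  let T : Finset (S → ℂ) :=
    (Finset.univ : Finset (stb {P₁} : Subgroup G)).image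
      (fun s : (stb {P₁} : Subgroup G) => fun c : S => φ ((s : G) * c * (s : G)⁻¹))
  have hT : ∀ η ∈ T, IsIrr η ∧ ip (fun c : S => ψ c) η = k := by
    intro η hη
    obtain ⟨s, _, rfl⟩ := Finset.mem_image.1 hη
    have hI := EQV.irrOn_comp (MulAut.conj (s : G)) (hconj s s.2) hφI
    refine ⟨hI.1, ?_⟩
    have h1 := EQV.mu_comp (MulAut.conj (s : G)) (hconj s s.2) ψ φ
    have h2 : (fun g => ψ ((MulAut.conj (s : G)) g)) = ψ := by
      funext g
      exact EQV.irrOn_conj hψI s.2 g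
    rw [h2, hmu, mu_eq] at h1
    exact h1
  have hc := card_le φ T hφI.2 hconj (fun s => Finset.mem_image_of_mem _ (Finset.mem_univ s)) hfix
  have h1 := sum_sq_le hf k T hT
  have h2 := sum_norm_le hSN ψ
  have h3 := sum_norm hψI.1
  have hTpos : 0 < T.card :=
    Finset.card_pos.2 ⟨_, Finset.mem_image_of_mem _ (Finset.mem_univ 1)⟩
  have hSpos : 0 < Nat.card S := Nat.card_pos
  have h4 : (T.card * k ^ 2) * Nat.card S ≤ Nat.card S * T.card := by
    have h5 : (((T.card * k ^ 2) * Nat.card S : ℕ) : ℝ) ≤ ((Nat.card S * T.card : ℕ) : ℝ) := by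
      refine le_trans ?_ (Nat.cast_le.2 hc)
      push_cast at h1 ⊢
      rw [← h3]
      linarith
    exact_mod_cast h5
  have h6 : k ^ 2 ≤ 1 := by
    by_contra hcon
    push Not at hcon
    have h7 : 0 < Nat.card S * T.card := Nat.mul_pos hSpos hTpos
    nlinarith
  have h8 : k ≤ 1 := by
    by_contra hcon
    push Not at hcon
    nlinarith
  rw [hmu]
  interval_cases k
  · left; simp
  · right; simp

end Pool.Agent.RCB
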