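import Mathlib
import Pool.Agent.RCB.St4
import Pool.Agent.RCB.TRM
import Pool.Agent.DPX.HGTX

/-!
# RCB_NZX: the values of the characters of the block at `x` are not `0` modulo `𝔐`
-/

namespace Pool.Agent.RCB

open Pool.Agent.DP Pool.Agent.DPV Pool.Agent.DPB Pool.Agent.DPW Pool.Agent.DPX
open Pool.Agent.Lib_helper13 Representation

namespace NZX

/-- the value at `x` is not `0` modulo `𝔐` -/
theorem value (h1 : Stmt_HGTX) {T : Type} [Group T] [Fintype T]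
    (𝔐 : Ideal (integralClosure ℤ ℂ)) (ℓ n : ℕ) [hp : Fact ℓ.Prime] (h𝔐 : 𝔐.IsMaximal)
    (hℓ : (ℓ : integralClosure ℤ ℂ) ∈ 𝔐) {χ : T → ℂ} (hχ : IsIrr χ) {P₁ P : Subgroup T} {x : T}
    (hat : AtX ℓ n (cen 𝔐 (MonoidHom.id T) χ) P₁ P x) : red 𝔐 (χ x) ≠ 0 := by
  haveI := h𝔐.isPrime
  intro h0
  obtain ⟨m, -, hm⟩ := h1 T 𝔐 ℓ n h𝔐 hℓ χ hχ P₁ P x hat
  obtain ⟨c, hc, hcc⟩ := HGTX.cent ℓ n hat
  have h2 := DF1.mul_w hχ x hm
  rw [hcc] at h2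
  have hl0 : (ℓ : ℂ) ^ n ≠ 0 := pow_ne_zero _ (Nat.cast_ne_zero.mpr hp.out.ne_zero)
  have h3 : (c : ℂ) * DF1.w χ x = (m : ℂ) * χ x := by
    apply mul_left_cancel₀ hl0
    push_cast at h2
    linear_combination h2
  apply hat.ne
  rw [DF1.cen_eq]
  refine DF1.red_cancel 𝔐 hℓ hc (DF1.isIntegral_w hχ x) ?_
  rw [h3, red_natCast_mul 𝔐 m (isIntegral_char hχ x), h0, smul_zero]

end NZX

theorem NZX_thm (h1 : Stmt_HGTX) (h2 : Stmt_ATNX) (_h3 : Stmt_TRM) : Stmt_NZX := by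
  refine ⟨?_, ?_⟩
  · intro T _ _ 𝔐 ℓ n _ h𝔐 hℓ χ hχ P₁ P x hat
    exact NZX.value h1 𝔐 ℓ n h𝔐 hℓ hχ hat
  · intro G _ _ 𝔐 ℓ n _ h𝔐 hℓ ω P₁ P x hat hθ
    obtain ⟨θ, hθ, rfl⟩ := hθ
    refine ⟨?_, ?_⟩
    · rintro χ ⟨hχ, hc⟩
      have hirr : IsIrr χ := by
        have h5 := hχ.1
        rw [stb_empty] at h5
        exact h5.comp_mulEquiv (Subgroup.topEquiv (G := G)).symm
      have hcen : cen 𝔐 (MonoidHom.id G) χ = cen 𝔐 (MonoidHom.id G) θ := by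
        funext g
        exact hc g
      refine ⟨hirr, NZX.value h1 𝔐 ℓ n h𝔐 hℓ hirr (P₁ := P₁) (P := P) ?_⟩
      rw [hcen]
      exact hat
    · rintro f ⟨hf, hc⟩
      letI : Fintype (NP P₁) := Fintype.ofFinite _
      rw [TRM.stb_single] at hf
      have hx : x ∈ Subgroup.normalizer (P₁ : Set G) := by
        apply TRM.cen_le
        rw [Subgroup.mem_centralizer_iff]
        intro u hu
        exact hat.cd.cen u (hat.cd.le hu)
      have hcen : cen 𝔐 (Subgroup.normalizer (P₁ : Set G)).subtype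
          (fun s : NP P₁ => f s) = cen 𝔐 (MonoidHom.id G) θ := by
        funext g
        have h5 := BLKC.cg_eq_cen 𝔐 (Subgroup.normalizer (P₁ : Set G)) f hf.2 g
        rw [← hc g]
        exact h5
      have h6 := (h2 G 𝔐 ℓ n h𝔐 hℓ θ hθ P₁ P x hat hx (fun s : NP P₁ => f s) hf.1 hcen).1
      exact NZX.value h1 𝔐 ℓ n h𝔐 hℓ hf.1 h6

end Pool.Agent.RCB
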