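import Mathlib
import Pool.Agent.RCB.St4

/-!
# RCB_RLN: restriction to a subgroup
-/

set_option autoImplicit false

namespace Pool.Agent.RCB

open Pool.Agent.DP Pool.Agent.DPV

namespace RLN

variable {G B C : Type} [Group G] [Group B] [Group C] {ι : G →* B} {κ : B →* MulAut G}
  {ρ : B →* C}

theorem mem_T (D : Subgroup B) (T : Subgroup G) (hT : D.comap ι = T) {g : G} :
    ι g ∈ D ↔ g ∈ T := by
  rw [← hT, Subgroup.mem_comap]

theorem mem_act (h : ClG ι κ ρ) (D : Subgroup B) (T : Subgroup G) (hT : D.comap ι = T) (d : D)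
    (g : T) : κ (d : B) (g : G) ∈ T := by
  rw [← mem_T D T hT, h.act]
  exact mul_mem (mul_mem d.2 ((mem_T D T hT).mpr g.2)) (inv_mem d.2)

/-- The embedding. -/
noncomputable def jR (D : Subgroup B) (T : Subgroup G) (hT : D.comap ι = T) : T →* D :=
  (ι.comp T.subtype).codRestrict D (fun g => (mem_T D T hT).mpr g.2)

/-- The action. -/
noncomputable def cR (h : ClG ι κ ρ) (D : Subgroup B) (T : Subgroup G) (hT : D.comap ι = T) :
    D →* MulAut T where
  toFun y :=
    { toFun := fun a => ⟨κ (y : B) (a : G), mem_act h D T hT y a⟩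
      invFun := fun a => ⟨κ ((y⁻¹ : D) : B) (a : G), mem_act h D T hT y⁻¹ a⟩
      left_inv := by
        intro a
        apply Subtype.ext
        change κ ((y⁻¹ : D) : B) (κ (y : B) (a : G)) = a
        rw [← MulAut.mul_apply, ← map_mul]
        simp
      right_inv := by
        intro a
        apply Subtype.ext
        change κ (y : B) (κ ((y⁻¹ : D) : B) (a : G)) = a
        rw [← MulAut.mul_apply, ← map_mul]
        simp
      map_mul' := by
        intro a b
        apply Subtype.ext
        change κ (y : B) ((a * b : T) : G) = κ (y : B) (a : G) * κ (y : B) (b : G)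
        simp }
  map_one' := by
    ext a
    simp
  map_mul' := by
    intro x y
    ext a
    simp

end RLN

open RLN in
theorem RLN_thm : Stmt_RLN := by
  intro G B C _ _ _ ι κ ρ h D T hT hD
  refine ⟨jR D T hT, cR h.cl D T hT, fun _ => rfl, fun _ _ => rfl, ⟨⟨?_, ?_, ?_⟩, ?_⟩⟩
  · intro a b hab
    apply Subtype.ext
    apply h.cl.inj
    exact congrArg Subtype.val hab
  · intro y a
    apply Subtype.ext
    exact h.cl.act (y : B) (a : G)
  · intro y
    constructor
    · intro hy
      obtain ⟨a, ha⟩ := (h.cl.ker (y : B)).mp hy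
      refine ⟨⟨a, (mem_T D T hT).mp (by rw [ha]; exact y.2)⟩, ?_⟩
      apply Subtype.ext
      exact ha
    · rintro ⟨a, rfl⟩
      exact (h.cl.ker (ι (a : G))).mpr ⟨a, rfl⟩
  · intro c
    have hc : c ∈ D.map ρ := by rw [hD]; trivial
    obtain ⟨d, hd, rfl⟩ := hc
    exact ⟨⟨d, hd⟩, rfl⟩

end Pool.Agent.RCB
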