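import Mathlib
import Pool.Agent.RCB.St4

/-!
# Theorem P1, module RZC: restriction to the centralizer of `P₁`
-/

namespace Pool.Agent.RCB

open Pool.Agent.DP Pool.Agent.DPV Pool.Agent.DPB Pool.Agent.DPW Pool.Agent.DPX
open Pool.Agent.Lib_helper13 Representation

namespace RZC

variable {G : Type} [Group G] [Fintype G]

theorem mem_irrOn {S : Subgroup G} {f : G → ℂ} : f ∈ irrOn S ↔ IrrOn S f := by
  classical
  rw [irrOn, Finset.mem_image]
  constructor
  · rintro ⟨ψ, hψ, rfl⟩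
    refine ⟨?_, fun x hx => ext0_of_not_mem ψ hx⟩
    have h1 : (fun s : S => ext0 ψ (s : G)) = ψ := by
      funext s
      exact ext0_of_mem ψ s.2
    rw [h1]
    exact mem_irrF.mp hψ
  · rintro ⟨h1, h2⟩
    refine ⟨fun s : S => f s, mem_irrF.mpr h1, ?_⟩
    funext x
    by_cases hx : x ∈ S
    · rw [ext0_of_mem _ hx]
    · rw [ext0_of_not_mem _ hx, h2 x hx]

/-- `mu` is an inner product on the subgroup. -/
theorem mu_eq_ip (S : Subgroup G) (f φ : G → ℂ) :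
    mu S f φ = ip (fun s : S => f s) (fun s : S => φ s) := by
  classical
  rw [mu, ip]
  congr 1
  rw [← Finset.sum_filter]
  refine Finset.sum_bij' (fun g hg => ⟨g, (Finset.mem_filter.mp hg).2⟩) (fun s _ => (s : G))
    (fun _ _ => Finset.mem_univ _) (fun s _ => Finset.mem_filter.mpr ⟨Finset.mem_univ _, s.2⟩)
    (fun _ _ => rfl) (fun _ _ => rfl) (fun _ _ => rfl)

/-- The expansion of a class function of `S`. -/
theorem expand (S : Subgroup G) (f : G → ℂ)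
    (hf : ∀ s ∈ S, ∀ x ∈ S, f (s * x * s⁻¹) = f x) {g : G} (hg : g ∈ S) :
    f g = ∑ ψ ∈ irrOn S, mu S f ψ * ψ g := by
  classical
  have h1 := congrFun (class_fn_expand (fun s : S => f s)
    (fun s x => hf s s.2 x x.2)) ⟨g, hg⟩
  refine h1.trans ?_
  rw [irrOn, Finset.sum_image]
  · refine Finset.sum_congr rfl fun χ _ => ?_
    rw [mu_eq_ip]
    have h2 : (fun s : S => ext0 χ (s : G)) = χ := by
      funext s
      exact ext0_of_mem χ s.2
    rw [h2, ext0_of_mem χ hg]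
  · intro χ _ χ' _ h
    funext s
    have h3 := congrFun h (s : G)
    simp only at h3
    rwa [ext0_of_mem χ s.2, ext0_of_mem χ' s.2] at h3

/-- Multiplicities in two steps. -/
theorem mu_trans {S T : Subgroup G} (hTS : T ≤ S) (f φ : G → ℂ)
    (hf : ∀ s ∈ S, ∀ x ∈ S, f (s * x * s⁻¹) = f x) :
    mu T f φ = ∑ ψ ∈ irrOn S, mu S f ψ * mu T ψ φ := by
  classical
  have h1 : ∀ ψ : G → ℂ, mu S f ψ * mu T ψ φ =
      (∑ g, if g ∈ T then mu S f ψ * ψ g * φ g⁻¹ else 0) / Nat.card T := by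
    intro ψ
    rw [mu, mu, ← mul_div_assoc, Finset.mul_sum]
    congr 1
    refine Finset.sum_congr rfl fun g _ => ?_
    split_ifs
    · rw [mul_assoc]
    · rw [mul_zero]
  rw [Finset.sum_congr rfl fun ψ _ => h1 ψ, ← Finset.sum_div, Finset.sum_comm, mu]
  congr 1
  refine Finset.sum_congr rfl fun g _ => ?_
  split_ifs with hg
  · rw [← Finset.sum_mul, ← expand S f hf (hTS hg)]
  · rw [Finset.sum_const_zero]

omit [Fintype G] in
theorem irrOn_class {S : Subgroup G} {f : G → ℂ} (h : IrrOn S f) :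
    ∀ s ∈ S, ∀ x ∈ S, f (s * x * s⁻¹) = f x := by
  intro s hs x hx
  exact h.1.conj_eq ⟨s, hs⟩ ⟨x, hx⟩

omit [Fintype G] in
theorem cent_le_stb (P₁ : Subgroup G) :
    Subgroup.centralizer (P₁ : Set G) ≤ stb {P₁} := by
  intro g hg
  rw [stb, Subgroup.mem_iInf]
  intro D
  rw [Subgroup.mem_iInf]
  intro hD
  rw [Finset.mem_singleton] at hD
  subst hD
  exact Subgroup.centralizer_le_normalizer _ hg

end RZC

open Classical in
theorem RZC_thm (h1 : Stmt_ZCA) : Stmt_RZC := by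
  intro G _ _ 𝔐 ℓ n _ h𝔐 hℓ ω P₁ P x hx hθ
  have hle := RZC.cent_le_stb P₁
  have hZ : ∀ φ, φ ∈ irrOn (Subgroup.centralizer (P₁ : Set G)) → ∀ ψ,
      IrrOn (stb {P₁}) ψ → mu (Subgroup.centralizer (P₁ : Set G)) ψ φ ≠ 0 →
      (ψ ∈ YL 𝔐 P₁ ω ↔ φ ∈ ZC 𝔐 P₁ ω) := by
    intro φ hφ ψ hψ hm
    constructor
    · intro h
      exact ⟨RZC.mem_irrOn.mp hφ, ψ, h, hm⟩
    · intro h
      exact (h1 G 𝔐 ℓ n h𝔐 hℓ ω P₁ P x hx hθ φ h).2.2.2.2 ψ hψ hm
  refine ⟨?_, ?_⟩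
  · intro χ hχ g hg
    have hχc : ∀ s ∈ stb {P₁}, ∀ x ∈ stb {P₁}, χ (s * x * s⁻¹) = χ x :=
      fun s _ x _ => hχ.conj_eq s x
    have e1 : ∀ ψ' ∈ (irrOn (stb {P₁})).filter (fun ψ' => ψ' ∈ YL 𝔐 P₁ ω),
        mu (stb {P₁}) χ ψ' * ψ' g = ∑ φ ∈ irrOn (Subgroup.centralizer (P₁ : Set G)),
          mu (stb {P₁}) χ ψ' * (mu (Subgroup.centralizer (P₁ : Set G)) ψ' φ * φ g) := by
      intro ψ' hψ'
      have h2 := RZC.mem_irrOn.mp (Finset.mem_filter.mp hψ').1
      rw [← Finset.mul_sum, ← RZC.expand (Subgroup.centralizer (P₁ : Set G)) ψ' _ hg]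
      intro s hs x hx
      exact RZC.irrOn_class h2 s (hle hs) x (hle hx)
    have e2 : ∀ φ ∈ (irrOn (Subgroup.centralizer (P₁ : Set G))).filter
        (fun φ => φ ∈ ZC 𝔐 P₁ ω), mu (Subgroup.centralizer (P₁ : Set G)) χ φ * φ g =
          ∑ ψ' ∈ irrOn (stb {P₁}),
          mu (stb {P₁}) χ ψ' * (mu (Subgroup.centralizer (P₁ : Set G)) ψ' φ * φ g) := by
      intro φ _
      rw [RZC.mu_trans hle χ φ hχc, Finset.sum_mul]
      exact Finset.sum_congr rfl fun ψ _ => mul_assoc _ _ _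
    rw [Finset.sum_congr rfl e1, Finset.sum_congr rfl e2, Finset.sum_filter, Finset.sum_filter]
    have e3 : ∀ ψ' ∈ irrOn (stb {P₁}), (if ψ' ∈ YL 𝔐 P₁ ω then
        ∑ φ ∈ irrOn (Subgroup.centralizer (P₁ : Set G)),
          mu (stb {P₁}) χ ψ' * (mu (Subgroup.centralizer (P₁ : Set G)) ψ' φ * φ g) else 0) =
        ∑ φ ∈ irrOn (Subgroup.centralizer (P₁ : Set G)), if φ ∈ ZC 𝔐 P₁ ω then
          mu (stb {P₁}) χ ψ' * (mu (Subgroup.centralizer (P₁ : Set G)) ψ' φ * φ g) else 0 := by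
      intro ψ' hψ'
      have h2 := RZC.mem_irrOn.mp hψ'
      have h3 : ∀ φ ∈ irrOn (Subgroup.centralizer (P₁ : Set G)), (if φ ∈ ZC 𝔐 P₁ ω then
          mu (stb {P₁}) χ ψ' * (mu (Subgroup.centralizer (P₁ : Set G)) ψ' φ * φ g) else 0) =
          if ψ' ∈ YL 𝔐 P₁ ω then
          mu (stb {P₁}) χ ψ' * (mu (Subgroup.centralizer (P₁ : Set G)) ψ' φ * φ g) else 0 := by
        intro φ hφ
        by_cases hm : mu (Subgroup.centralizer (P₁ : Set G)) ψ' φ = 0
        · rw [hm, zero_mul, mul_zero, ite_self, ite_self]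
        · exact if_congr (hZ φ hφ ψ' h2 hm).symm rfl rfl
      rw [Finset.sum_congr rfl h3]
      split_ifs
      · rfl
      · rw [Finset.sum_const_zero]
    rw [Finset.sum_congr rfl e3, Finset.sum_comm]
    refine Finset.sum_congr rfl fun φ _ => ?_
    split_ifs
    · rfl
    · rw [Finset.sum_const_zero]
  · intro ψ hψ g hg
    have h2 : IrrOn (stb {P₁}) ψ := hψ.1
    rw [Finset.sum_filter]
    refine (RZC.expand (Subgroup.centralizer (P₁ : Set G)) ψ
      (fun s hs x hx => RZC.irrOn_class h2 s (hle hs) x (hle hx)) hg).trans ?_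
    refine Finset.sum_congr rfl fun φ hφ => ?_
    split_ifs with h3
    · rfl
    · by_cases hm : mu (Subgroup.centralizer (P₁ : Set G)) ψ φ = 0
      · rw [hm, zero_mul]
      · exact absurd ((hZ φ hφ ψ h2 hm).mp hψ) h3

end Pool.Agent.RCB
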