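import Mathlib
import Pool.Agent.RCB.St4

/-!
# Theorem P1, block 4: the selection lemma
-/

namespace Pool.Agent.RCB

namespace SEL

/-- a homomorphism which is constant on more than half of the group is trivial -/
theorem trivial_of_half {Λ Q : Type} [CommGroup Λ] [Fintype Λ] [DecidableEq Λ] [CommGroup Q]
    (cl : Λ →* Q) (S : Finset Λ) (u : Q) (hS : ∀ lam ∈ S, cl lam = u)
    (hc : Fintype.card Λ < 2 * S.card) (m : Λ) : cl m = 1 := by
  have h1 : ¬ Disjoint S (S.image (fun s => m * s)) := by
    intro hd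
    have h2 := Finset.card_union_of_disjoint hd
    have h3 : (S.image (fun s => m * s)).card = S.card :=
      Finset.card_image_of_injective _ (mul_right_injective m)
    have h4 : (S ∪ S.image (fun s => m * s)).card ≤ Fintype.card Λ := Finset.card_le_univ _
    omega
  rw [Finset.not_disjoint_iff] at h1
  obtain ⟨a, ha, hb⟩ := h1
  obtain ⟨s, hs, rfl⟩ := Finset.mem_image.1 hb
  have h5 := hS _ ha
  have h6 := hS _ hs
  rw [map_mul, h6] at h5
  exact mul_eq_right.1 h5

end SEL

/-- RCB_SEL: the selection lemma. -/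
theorem SEL_thm : Stmt_SEL := by
  classical
  intro Λ F Q _ _ _ _ f g c e cl u v hodd hf ⟨l0, h0⟩ ⟨l1, h1⟩ hu hv
  letI : Fintype Λ := Fintype.ofFinite Λ
  by_cases hex : ∃ lam, f lam ≠ 0 ∧ g lam ≠ 0
  · obtain ⟨lam, ha, hb⟩ := hex
    exact (hu lam ha).symm.trans (hv lam hb)
  have hdis : ∀ lam, f lam ≠ 0 → g lam = 0 := by
    intro lam h2
    by_contra h3
    exact hex ⟨lam, h2, h3⟩
  have hc : c ≠ 0 := by
    intro h2
    apply h0
    rw [hf, hdis l0 h0, h2, mul_zero, add_zero]
  have hcov : ∀ lam, g lam = 0 → f lam ≠ 0 := by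
    intro lam h2
    rw [hf, h2, mul_zero, zero_add]
    exact hc
  rw [Nat.card_eq_fintype_card] at hodd
  have hsum : (Finset.univ.filter fun lam => f lam ≠ 0).card +
      (Finset.univ.filter fun lam => ¬ f lam ≠ 0).card = Fintype.card Λ := by
    rw [← Finset.card_univ]
    exact Finset.card_filter_add_card_filter_not (s := Finset.univ) (fun lam => f lam ≠ 0)
  have key : ∀ m : Λ, cl m = 1 := by
    rcases lt_or_ge (Fintype.card Λ) (2 * (Finset.univ.filter fun lam => f lam ≠ 0).card)
      with h2 | h2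
    · exact SEL.trivial_of_half cl _ u (fun lam hl => hu lam (Finset.mem_filter.1 hl).2) h2
    · refine SEL.trivial_of_half cl (Finset.univ.filter fun lam => ¬ f lam ≠ 0) v
        (fun lam hl => hv lam fun h3 => (Finset.mem_filter.1 hl).2 (hcov lam h3)) ?_
      rcases hodd with ⟨k, hk⟩
      omega
  rw [← hu l0 h0, ← hv l1 h1, key, key]

end Pool.Agent.RCB
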