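import Mathlib
import Pool.Agent.RCB.St4

/-!
# RCB_SUV: the support of a product with an invariant class sum
-/

namespace Pool.Agent.RCB

open Pool.Agent.DP Pool.Agent.DPV Pool.Agent.DPB Pool.Agent.DPW Pool.Agent.DPX
open Pool.Agent.Lib_helper13 Representation

namespace SUV

theorem cls_iff {T V : Type} [Group T] [Group V] (κ : V →* MulAut T) (t : T)
    (ht : ∀ v, ∃ g, κ v t = g * t * g⁻¹) (v : V) (s : T) :
    (∃ g, κ v s = g * t * g⁻¹) ↔ ∃ g, s = g * t * g⁻¹ := by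
  have h1 : ∀ (v : V) (s : T), (∃ g, s = g * t * g⁻¹) → ∃ g, κ v s = g * t * g⁻¹ := by
    rintro v s ⟨g, rfl⟩
    obtain ⟨a, ha⟩ := ht v
    refine ⟨κ v g * a, ?_⟩
    rw [map_mul, map_mul, map_inv, ha, mul_inv_rev]
    simp only [mul_assoc]
  refine ⟨fun h => ?_, h1 v s⟩
  have h2 := h1 v⁻¹ _ h
  rwa [← MulAut.mul_apply, ← map_mul, inv_mul_cancel, map_one, MulAut.one_apply] at h2

theorem cls_eq {F T V : Type} [Field F] [Group T] [Group V] (κ : V →* MulAut T) (t : T)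
    (ht : ∀ v, ∃ g, κ v t = g * t * g⁻¹) (v : V) (s : T) :
    clsF F t (κ v s) = clsF F t s := by
  classical
  unfold clsF
  exact if_congr (cls_iff κ t ht v s) rfl rfl

end SUV

open SUV in
theorem SUV_thm (h1 : Stmt_FPS) : Stmt_SUV := by
  intro F T V _ _ _ _ _ ℓ _ _ κ t ht y hy h hh U hU hUh
  letI : MulAction U T := MulAction.compHom T (κ.comp U.subtype)
  have hsm : ∀ (u : U) (s : T), u • s = κ (u : V) s := fun u s => rfl
  have h2 := h1 U T F ℓ (CharP.cast_eq_zero F ℓ) hU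
    (fun s => clsF F t s * y (s⁻¹ * h)) (fun u s => by
      rw [hsm]
      congr 1
      · exact cls_eq κ t ht u s
      · have h3 : (κ (u : V) s)⁻¹ * h = κ (u : V) (s⁻¹ * h) := by
          rw [map_mul, map_inv, hUh u u.2]
        rw [h3, hy])
  have h4 : cvF (clsF F t) y h = ∑ s : T, clsF F t s * y (s⁻¹ * h) := rfl
  rw [h4, h2] at hh
  obtain ⟨s, hs, hs0⟩ := Finset.exists_ne_zero_of_sum_ne_zero hh
  have hs' := ((@Finset.mem_filter _ _ (fun _ => Classical.propDecidable _) _ _).mp hs).2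
  have h5 : clsF F t s ≠ 0 := left_ne_zero_of_mul hs0
  have h6 : ∃ g, s = g * t * g⁻¹ := by
    by_contra h7
    apply h5
    unfold clsF
    exact if_neg h7
  obtain ⟨g, hg⟩ := h6
  refine ⟨g, fun u hu => ?_⟩
  rw [← hg]
  exact hs' ⟨u, hu⟩

end Pool.Agent.RCB
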