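import Mathlib
import Pool.Agent.RCB.St4

/-!
# Theorem P1, part C4: module SYQ (Sylow subgroups of a subgroup which maps onto `C`)
-/

namespace Pool.Agent.RCB

open Pool.Agent.DP Pool.Agent.DPV Pool.Agent.DPB Pool.Agent.DPW Pool.Agent.DPX
open Pool.Agent.Lib_helper13 Representation

namespace SYQ

/-- the order of a subgroup which maps onto `C` -/
theorem card_eq {G B C : Type} [Group G] [Group B] [Finite B] [Group C]
    {ι : G →* B} {κ : B →* MulAut G} {ρ : B →* C} (h : LocN ι κ ρ) (D : Subgroup B)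
    (hD : D.map ρ = ⊤) : Nat.card D = Nat.card C * Nat.card (D.comap ι) := by
  have hr : (ρ.comp D.subtype).range = ⊤ := by
    rw [MonoidHom.range_comp, Subgroup.range_subtype]
    exact hD
  have h1 := Subgroup.index_ker (ρ.comp D.subtype)
  have h2 := Subgroup.card_mul_index (ρ.comp D.subtype).ker
  rw [h1, hr, Subgroup.card_top] at h2
  have h3 : Nat.card (D.comap ι) = Nat.card (ρ.comp D.subtype).ker := by
    have hk : ∀ x : D.comap ι, (⟨ι x, x.2⟩ : D) ∈ (ρ.comp D.subtype).ker := by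
      intro x
      show ρ (ι x) = 1
      exact (h.cl.ker _).mpr ⟨x, rfl⟩
    refine Nat.card_congr (Equiv.ofBijective
      (fun x : D.comap ι => (⟨⟨ι x, x.2⟩, hk x⟩ : (ρ.comp D.subtype).ker)) ⟨?_, ?_⟩)
    · intro x y hxy
      have : ι x = ι y := congrArg (fun z : (ρ.comp D.subtype).ker => ((z : D) : B)) hxy
      exact Subtype.ext (h.cl.inj this)
    · rintro ⟨⟨d, hd⟩, hk'⟩
      obtain ⟨x, rfl⟩ := (h.cl.ker d).mp hk'
      exact ⟨⟨x, hd⟩, rfl⟩
  rw [h3, mul_comm]
  exact h2.symm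

end SYQ

theorem SYQ_thm : Stmt_SYQ := by
  intro G B C _ _ _ _ _ ℓ _ ι κ ρ hL hC V hV Q hQV hQ
  obtain ⟨m, hm⟩ := hC
  have hQ' : IsPGroup ℓ (Q.subgroupOf V) :=
    hQ.comap_of_injective V.subtype V.subtype_injective
  obtain ⟨P, hP⟩ := hQ'.exists_le_sylow
  have hsur : Function.Surjective (ρ.comp V.subtype) := by
    rw [← MonoidHom.range_eq_top, MonoidHom.range_comp, Subgroup.range_subtype]
    exact hV
  have hCp : IsPGroup ℓ C := IsPGroup.of_card hm
  have hDV : (P : Subgroup V).map V.subtype ≤ V := Subgroup.map_subtype_le _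
  have hDtop : ((P : Subgroup V).map V.subtype).map ρ = ⊤ := by
    rw [Subgroup.map_map]
    have h1 : ((P.mapSurjective hsur : Sylow ℓ C) : Subgroup C) =
      (P : Subgroup V).map (ρ.comp V.subtype) := Sylow.coe_mapSurjective hsur P
    rw [← h1]
    exact ((P.mapSurjective hsur).is_maximal' (IsPGroup.to_subgroup hCp ⊤) le_top).symm
  refine ⟨(P : Subgroup V).map V.subtype, ?_, hDV, P.isPGroup'.map V.subtype, ?_, hDtop,
    SYQ.card_eq hL _ hDtop, ?_⟩
  · intro q hq
    exact ⟨⟨q, hQV hq⟩, hP hq, rfl⟩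
  · intro R hRV hR
    have hR' : IsPGroup ℓ (R.subgroupOf V) :=
      hR.comap_of_injective V.subtype V.subtype_injective
    obtain ⟨P', hP'⟩ := hR'.exists_le_sylow
    obtain ⟨g, hg⟩ := MulAction.exists_smul_eq V P' P
    refine ⟨g, g.2, ?_⟩
    rintro _ ⟨r, hr, rfl⟩
    refine ⟨g * ⟨r, hRV hr⟩ * g⁻¹, ?_, rfl⟩
    have h1 : g * ⟨r, hRV hr⟩ * g⁻¹ ∈ ((g • P' : Sylow ℓ V) : Subgroup V) := by
      rw [Sylow.coe_subgroup_smul]
      exact ⟨⟨r, hRV hr⟩, hP' hr, rfl⟩
    rw [hg] at h1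
    exact h1
  · intro R hR hRV
    obtain ⟨r, hr⟩ := (IsPGroup.iff_card (p := ℓ) (G := R)).mp hR
    have hRd : Nat.card R ∣ Nat.card (V.comap ι) := Subgroup.card_dvd_of_le hRV
    have hVc := SYQ.card_eq hL V hV
    have hDc := SYQ.card_eq hL _ hDtop
    rw [hm] at hVc hDc
    rw [hr] at hRd ⊢
    have h1 : ℓ ^ (m + r) ∣ Nat.card V := by
      rw [hVc, pow_add]
      exact Nat.mul_dvd_mul_left _ hRd
    have h2 := P.pow_dvd_card_of_pow_dvd_card h1
    have h3 : Nat.card ((P : Subgroup V).map V.subtype) = Nat.card P :=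
      Nat.card_congr ((P : Subgroup V).equivMapOfInjective V.subtype
        V.subtype_injective).toEquiv.symm
    rw [← h3, hDc, pow_add] at h2
    exact Nat.dvd_of_mul_dvd_mul_left (pow_pos (Fact.out : ℓ.Prime).pos m) h2

end Pool.Agent.RCB
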