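import Mathlib
import Pool.Agent.RCB.St4
import Pool.Agent.DP.CLIFF

/-!
# RCB_SZC: the sum of the characters in `ZC` at the elements of order divisible by `ℓ`
-/

namespace Pool.Agent.RCB

open Pool.Agent.DP Pool.Agent.DPV Pool.Agent.DPB Pool.Agent.DPW Pool.Agent.DPX
open Pool.Agent.Lib_helper13 Representation

open Classical in
theorem SZC_thm (h1 : Stmt_ZCA) (h2 : Stmt_TRM) (h3 : Stmt_AIN) : Stmt_SZC := by
  classical
  intro G _ _ 𝔐 ℓ n _ h𝔐 hℓ ω P₁ P x hat hex g₀ hg₀ hord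
  have hexs := hex
  obtain ⟨θ, hθ, hω⟩ := hexs
  let _ : Fintype (NP P₁) := Fintype.ofFinite _
  obtain ⟨C, hC⟩ : ∃ C : Subgroup (NP P₁), C = Subgroup.centralizer
      ((P₁.subgroupOf (Subgroup.normalizer (P₁ : Set G)) : Subgroup (NP P₁)) :
        Set (NP P₁)) := ⟨_, rfl⟩
  have hCn : C.Normal := by
    rw [hC]
    infer_instance
  obtain ⟨z, z', t1, t2, t3, t4, t5, t6, t7, t8, t9, t10, t11, t12, t13, -⟩ :=
    h2 G 𝔐 P₁ C hC
  have hgN : g₀ ∈ Subgroup.normalizer (P₁ : Set G) := Subgroup.centralizer_le_normalizer _ hg₀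
  have hgC : (⟨g₀, hgN⟩ : NP P₁) ∈ C := (t6 _).2 hg₀
  obtain ⟨c₀, hc₀⟩ : ∃ c₀ : C, ((c₀ : NP P₁) : G) = g₀ := ⟨⟨⟨g₀, hgN⟩, hgC⟩, rfl⟩
  have hordc : ℓ ∣ orderOf c₀ := by
    rw [← hc₀, Subgroup.orderOf_coe, Subgroup.orderOf_coe] at hord
    exact hord
  obtain ⟨Φ, hΦ⟩ : ∃ Φ : (G → ℂ) → G → (integralClosure ℤ ℂ) ⧸ 𝔐,
      Φ = fun φ => cgT 𝔐 (Subgroup.centralizer (P₁ : Set G)) φ := ⟨_, rfl⟩
  obtain ⟨s, hs⟩ : ∃ s : Finset (G → ℂ), s = (irrOn (Subgroup.centralizer (P₁ : Set G))).filter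
      (fun φ => φ ∈ ZC 𝔐 P₁ ω) := ⟨_, rfl⟩
  have hmem : ∀ φ, φ ∈ s ↔ φ ∈ ZC 𝔐 P₁ ω := by
    intro φ
    rw [hs, Finset.mem_filter, CLIFF.mem_irrOn]
    exact ⟨fun h => h.2, fun h => ⟨h.1, h⟩⟩
  rw [← hs, ← Finset.sum_fiberwise_of_maps_to (g := Φ) (t := s.image Φ)
    (fun φ hφ => Finset.mem_image_of_mem Φ hφ)]
  refine Finset.sum_eq_zero fun b hb => ?_
  obtain ⟨φ₁, hφ₁s, rfl⟩ := Finset.mem_image.mp hb
  have hφ₁ := (hmem φ₁).1 hφ₁s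
  obtain ⟨hz1, hz2, hz3, hz4, -⟩ := h1 G 𝔐 ℓ n h𝔐 hℓ ω P₁ P x hat hex φ₁ hφ₁
  obtain ⟨hir, ψ, ⟨hψ1, hψ2⟩, hmu⟩ := hφ₁
  obtain ⟨φ₀, hφ₀, rfl⟩ := (t7 φ₁).1 hir
  obtain ⟨ψ₀, hψ₀, rfl⟩ := (t8 ψ).1 hψ1
  rw [t11] at hmu
  have hmu' : ip (fun c : C => ψ₀ c) φ₀ ≠ 0 := by
    have e : (fun c : C => z' ψ₀ ((c : NP P₁) : G)) = fun c : C => ψ₀ c := by
      funext c
      exact t3 ψ₀ c
    rwa [e] at hmu
  have hCf : Cf 𝔐 ℓ n θ P₁ P x C ψ₀ φ₀ := by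
    refine ⟨hθ, ?_, hC, hψ₀, hφ₀, ?_, hmu'⟩
    · rw [hω]
      exact hat
    · rw [hω]
      funext g
      rw [← t12, hψ2]
  obtain ⟨-, -, -, a4⟩ := h3 G 𝔐 ℓ n h𝔐 hℓ θ P₁ P x C ψ₀ φ₀ hCf
  have hsum := a4 c₀ hordc
  -- membership in the fibre
  have hfib : ∀ φ : C → ℂ, IsIrr φ → (cgT 𝔐 (Subgroup.centralizer (P₁ : Set G)) (z φ) =
      cgT 𝔐 (Subgroup.centralizer (P₁ : Set G)) (z φ₀) ↔
      cen 𝔐 (MonoidHom.id C) φ = cen 𝔐 (MonoidHom.id C) φ₀) := by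
    intro φ hφ
    constructor
    · intro h
      funext c
      rw [← t13, ← t13, h]
    · intro h
      have hon : ∀ c : C, cgT 𝔐 (Subgroup.centralizer (P₁ : Set G)) (z φ) ((c : NP P₁) : G) =
          cgT 𝔐 (Subgroup.centralizer (P₁ : Set G)) (z φ₀) ((c : NP P₁) : G) := by
        intro c
        rw [t13, t13, h]
      funext g
      by_cases hg : g ∈ Subgroup.centralizer (P₁ : Set G)
      · have hgN' : g ∈ Subgroup.normalizer (P₁ : Set G) :=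
          Subgroup.centralizer_le_normalizer _ hg
        exact hon ⟨⟨g, hgN'⟩, (t6 _).2 hg⟩
      · have hoff : ∀ f : G → ℂ, (∀ x, x ∉ Subgroup.centralizer (P₁ : Set G) → f x = 0) →
            cgT 𝔐 (Subgroup.centralizer (P₁ : Set G)) f g = 0 := by
          intro f hf
          have hzero : ∀ x, cjT (Subgroup.centralizer (P₁ : Set G)) x g * f x = 0 := by
            intro x
            by_cases hx : x ∈ Subgroup.centralizer (P₁ : Set G)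
            · have hno : ¬ ∃ t ∈ Subgroup.centralizer (P₁ : Set G), x = t * g * t⁻¹ := by
                rintro ⟨t, ht, rfl⟩
                apply hg
                have e1 : g = t⁻¹ * (t * g * t⁻¹) * t := by group
                rw [e1]
                exact Subgroup.mul_mem _ (Subgroup.mul_mem _ (Subgroup.inv_mem _ ht) hx) ht
              rw [cjT, if_neg hno, zero_mul]
            · rw [hf x hx, mul_zero]
          rw [cgT, Finset.sum_eq_zero (fun x _ => hzero x), zero_div]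
          exact red_zero 𝔐
        rw [hoff _ (t2 φ), hoff _ (t2 φ₀)]
  have hII : II 𝔐 φ₀ = (((irrF C).filter fun φ : C → ℂ =>
      cen 𝔐 (MonoidHom.id C) φ = cen 𝔐 (MonoidHom.id C) φ₀ : Finset (C → ℂ)) :
        Set (C → ℂ)) := by
    ext φ
    rw [Finset.mem_coe, Finset.mem_filter, mem_irrF]
    rfl
  rw [finsum_set_coe_eq_finsum_mem (f := fun φ : C → ℂ => φ c₀), hII,
    finsum_mem_coe_finset] at hsum
  rw [← hsum]
  symm
  refine Finset.sum_bij (fun φ _ => z φ) ?_ (fun φ _ φ' _ h => t9 h) ?_ ?_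
  · intro φ hφ
    rw [Finset.mem_filter, mem_irrF] at hφ
    have hirr : IrrOn (Subgroup.centralizer (P₁ : Set G)) (z φ) := (t7 _).2 ⟨φ, hφ.1, rfl⟩
    have hcg := (hfib φ hφ.1).2 hφ.2
    rw [Finset.mem_filter, hmem, hΦ]
    refine ⟨(hz4 (z φ) hirr).2 ⟨1, Subgroup.one_mem _, fun g => ?_⟩, hcg⟩
    rw [inv_one, mul_one, one_mul, hcg]
  · intro f hf
    rw [Finset.mem_filter, hmem, hΦ] at hf
    obtain ⟨φ, hφ, rfl⟩ := (t7 f).1 hf.1.1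
    refine ⟨φ, ?_, rfl⟩
    rw [Finset.mem_filter, mem_irrF]
    exact ⟨hφ, (hfib φ hφ).1 hf.2⟩
  · intro φ _
    rw [← hc₀, t1]

end Pool.Agent.RCB
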