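import Mathlib
import Pool.Agent.RCB.St4

/-!
# TRV: a complement which centralizes an element with a nonzero value makes the class trivial
-/

set_option autoImplicit false

namespace Pool.Agent.RCB

open Pool.Agent.DP Pool.Agent.DPV Pool.Agent.DPB Pool.Agent.DPW Pool.Agent.DPX
open Pool.Agent.Lib_helper13 Representation

namespace TRV

/-- A character with a value which is not zero modulo `𝔐` has a constituent on a subgroup with a
multiplicity prime to `ℓ`. -/
theorem exists_mult (𝔐 : Ideal (integralClosure ℤ ℂ)) (ℓ : ℕ)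
    (hℓ : (ℓ : integralClosure ℤ ℂ) ∈ 𝔐) {U : Type} [Group U] [Fintype U] (f : U → ℂ)
    (hf : IsChr f) (u : U) (hu : red 𝔐 (f u) ≠ 0) :
    ∃ om : U → ℂ, IsIrr om ∧ ∃ k : ℕ, ip f om = k ∧ ¬ ℓ ∣ k := by
  classical
  by_contra hcon
  push Not at hcon
  apply hu
  have h1 : ∀ χ : U → ℂ, ∃ k : ℕ, IsIrr χ → ip f χ = ((ℓ * k : ℕ) : ℂ) := by
    intro χ
    by_cases hχ : IsIrr χ
    · obtain ⟨m, hm⟩ := hf.exists_ip hχ.isChr
      obtain ⟨k, hk⟩ := hcon χ hχ m hm
      exact ⟨k, fun _ => by rw [hm, hk]⟩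
    · exact ⟨0, fun h => absurd h hχ⟩
  choose k hk using h1
  have h2 : f u = ∑ χ ∈ irrF U, ip f χ * χ u :=
    congrFun (class_fn_expand f (fun g x => hf.conj_eq g x)) u
  have h3 : f u = ∑ χ ∈ irrF U, (ℓ : ℂ) * ((k χ : ℂ) * χ u) := by
    rw [h2]
    refine Finset.sum_congr rfl fun χ hχ => ?_
    rw [hk χ (mem_irrF.1 hχ)]
    push_cast
    ring
  have hint : ∀ χ ∈ irrF U, IsIntegral ℤ ((k χ : ℂ) * χ u) := fun χ hχ =>
    (isIntegral_natCast _).mul (isIntegral_char (mem_irrF.1 hχ) u)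
  rw [h3, red_sum 𝔐 _ _ (fun χ hχ => (isIntegral_natCast ℓ).mul (hint χ hχ))]
  refine Finset.sum_eq_zero fun χ hχ => ?_
  rw [red_natCast_mul 𝔐 ℓ (hint χ hχ), nsmul_quot_eq_zero 𝔐 hℓ]

/-- An irreducible character of a factor is an irreducible character of the product. -/
theorem irr_snd {V U : Type} [Group V] [Fintype V] [Group U] [Fintype U] {om : U → ℂ}
    (h : IsIrr om) : IsIrr (fun s : V × U => om s.2) := by
  refine (h.isChr.comp (MonoidHom.snd V U)).isIrr ?_
  have h1 : ∑ g : V × U, om g.2 * om (g⁻¹).2 = ∑ _v : V, ∑ u : U, om u * om u⁻¹ := by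
    rw [Fintype.sum_prod_type]
    rfl
  refine Eq.trans h1 ?_
  rw [Finset.sum_const, h.sum_self, Nat.card_prod, Finset.card_univ, ← Nat.card_eq_fintype_card,
    nsmul_eq_mul, Nat.cast_mul]

end TRV

open TRV in
theorem TRV_thm (h1 : Stmt_FSP) (h2 : Stmt_FSX) : Stmt_TRV := by
  classical
  intro A Y K _ _ _ _ _ 𝔐 ℓ _ h𝔐 hℓ j c p hcl hK x F hF1 hF2 hF3 θ hθ hred a ha
  have hpj : ∀ u : A, p (j u) = 1 := fun u => (hcl.ker (j u)).2 ⟨u, rfl⟩
  have hKf : Finite K := by
    obtain ⟨m, hm⟩ := hK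
    refine Nat.finite_of_card_ne_zero ?_
    rw [hm]
    exact pow_ne_zero _ (Fact.out : ℓ.Prime).ne_zero
  let _ : Fintype (Subgroup.zpowers x) := Fintype.ofFinite _
  let _ : Fintype F := Fintype.ofFinite _
  have hcent : ∀ f ∈ F, ∀ u ∈ Subgroup.zpowers x, f * j u = j u * f := by
    intro f hf u hu
    obtain ⟨n, rfl⟩ := Subgroup.mem_zpowers_iff.1 hu
    have h3 : Commute f (j x) := hF3 f hf
    have h4 := h3.zpow_right n
    rw [map_zpow]
    exact h4
  obtain ⟨om, hom, k, hk, hk'⟩ := exists_mult 𝔐 ℓ hℓ (fun u : Subgroup.zpowers x => θ u)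
    (hθ.isChr.comp (Subgroup.zpowers x).subtype) ⟨x, Subgroup.mem_zpowers x⟩ hred
  let S : Type := F × Subgroup.zpowers x
  let i : Subgroup.zpowers x →* A := (Subgroup.zpowers x).subtype
  let j' : Subgroup.zpowers x →* F × Subgroup.zpowers x := MonoidHom.inr _ _
  let c' : F × Subgroup.zpowers x →* MulAut (Subgroup.zpowers x) := 1
  let q : F × Subgroup.zpowers x →* K := (p.comp F.subtype).comp (MonoidHom.fst _ _)
  let h : F × Subgroup.zpowers x →* Y :=
    { toFun := fun s => (s.1 : Y) * j (s.2 : A)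
      map_one' := by simp
      map_mul' := by
        rintro ⟨f, u⟩ ⟨f', u'⟩
        have h3 := hcent f' f'.2 u u.2
        simp only [Prod.mk_mul_mk, Subgroup.coe_mul, map_mul]
        calc (f : Y) * f' * (j u * j u') = f * (f' * j u) * j u' := by group
          _ = f * (j u * f') * j u' := by rw [h3]
          _ = f * j u * (f' * j u') := by group }
  have hcl' : ClG j' c' q := by
    refine ⟨?_, ?_, ?_⟩
    · intro u v huv
      exact congrArg Prod.snd huv
    · rintro ⟨f, u⟩ v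
      obtain ⟨u, hu⟩ := u
      obtain ⟨v, hv⟩ := v
      obtain ⟨m, rfl⟩ := Subgroup.mem_zpowers_iff.1 hu
      obtain ⟨n, rfl⟩ := Subgroup.mem_zpowers_iff.1 hv
      refine Prod.ext ?_ (Subtype.ext ?_)
      · change (1 : F) = f * 1 * f⁻¹
        rw [mul_one, mul_inv_cancel]
      · change x ^ n = x ^ m * x ^ n * (x ^ m)⁻¹
        rw [← zpow_add, add_comm, zpow_add, mul_inv_cancel_right]
    · rintro ⟨f, u⟩
      constructor
      · intro h3
        have h4 : p f = 1 := h3
        obtain ⟨b, hb⟩ := (hcl.ker f).1 h4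
        have h5 : b ∈ F.comap j := by
          rw [Subgroup.mem_comap, hb]
          exact f.2
        rw [hF1, Subgroup.mem_bot] at h5
        refine ⟨u, Prod.ext (Subtype.ext ?_) rfl⟩
        rw [h5, map_one] at hb
        exact hb
      · rintro ⟨v, hv⟩
        have h4 : (1 : F) = f := congrArg Prod.fst hv
        change p f = 1
        rw [← h4]
        exact map_one p
  have hq : Function.Surjective q := by
    intro t
    have h3 : t ∈ F.map p := by
      rw [hF2]
      exact Subgroup.mem_top t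
    obtain ⟨f, hf, rfl⟩ := h3
    exact ⟨(⟨f, hf⟩, 1), rfl⟩
  have hE : IsIrr (fun s : F × Subgroup.zpowers x => om s.2) := irr_snd hom
  have hFS' : FS j' q om 1 :=
    (h2 (Subgroup.zpowers x) (F × Subgroup.zpowers x) K j' c' q hcl' hq).1 _ hE
  have h5 := h1 A Y (Subgroup.zpowers x) (F × Subgroup.zpowers x) K ℓ j c p j' c' q i h hcl hcl' hq
    (fun u => by
      change ((1 : F) : Y) * j u = j u
      rw [Subgroup.coe_one, one_mul])
    (fun s => by
      change p ((s.1 : Y) * j (s.2 : A)) = p s.1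
      rw [map_mul, hpj, mul_one])
    hK θ om hθ hom a 1 ha hFS' k hk hk'
  rw [inv_one, mul_one] at h5
  exact h5

end Pool.Agent.RCB
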