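import Mathlib
import Pool.Agent.RCB.St4
import Pool.Agent.DP.BLKC
import Pool.Agent.DP.CLIFF

/-!
# RCB_VAL: matching characters have the same values up to sign
-/

namespace Pool.Agent.RCB

open Pool.Agent.DP Pool.Agent.DPV Pool.Agent.DPB Pool.Agent.DPW Pool.Agent.DPX
open Pool.Agent.Lib_helper13 Representation

namespace VAL

theorem stb_single {G : Type} [Group G] (P₁ : Subgroup G) :
    stb {P₁} = Subgroup.normalizer (P₁ : Set G) := by
  simp [stb]

section Sub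

variable {G : Type} [Group G]

theorem ext0_coe {S : Subgroup G} (ψ : S → ℂ) : (fun s : S => ext0 ψ (s : G)) = ψ := by
  ext s
  rw [ext0_of_mem ψ s.2]

theorem ext0_inj {S : Subgroup G} {ψ ψ' : S → ℂ} (h : ext0 ψ = ext0 ψ') : ψ = ψ' := by
  rw [← ext0_coe ψ, ← ext0_coe ψ', h]

theorem ext0_res {S : Subgroup G} {f : G → ℂ} (h : ∀ x, x ∉ S → f x = 0) :
    ext0 (fun s : S => f s) = f := by
  ext x
  by_cases hx : x ∈ S
  · rw [ext0_of_mem _ hx]
  · rw [ext0_of_not_mem _ hx, h x hx]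

theorem irrOn_ext0 {S : Subgroup G} {ψ : S → ℂ} (h : IsIrr ψ) : IrrOn S (ext0 ψ) :=
  ⟨by rw [ext0_coe]; exact h, fun _ hx => ext0_of_not_mem ψ hx⟩

theorem mu_ext0 [Fintype G] (S : Subgroup G) [Fintype S] (f : G → ℂ) (ψ : S → ℂ) :
    mu S f (ext0 ψ) = ip (fun s : S => f s) ψ := by
  classical
  rw [mu, ip]
  congr 1
  have h1 : (∑ g, if g ∈ S then f g * ext0 ψ g⁻¹ else 0) =
      ∑ g ∈ Finset.univ.filter (fun x => x ∈ S), f g * ext0 ψ g⁻¹ := by
    rw [Finset.sum_filter]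
  rw [h1, Finset.sum_subtype (Finset.univ.filter (fun x => x ∈ S)) (p := fun x => x ∈ S)
    (fun x => by simp)]
  refine Finset.sum_congr rfl fun s _ => ?_
  congr 1
  exact ext0_of_mem ψ (S.inv_mem s.2)

/-- The translation of the sums over the characters of a subgroup. -/
theorem sum_tr [Fintype G] (𝔐 : Ideal (integralClosure ℤ ℂ)) (S : Subgroup G) [Fintype S]
    (p : (G → ℂ) → Prop) [DecidablePred p] (q : (S → ℂ) → Prop) [DecidablePred q]
    (hpq : ∀ ψ : S → ℂ, IsIrr ψ → (q ψ ↔ p (ext0 ψ))) (f : G → ℂ) (g : S) :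
    ∑ ψ ∈ irrF S with q ψ, ip (fun s : S => f s) ψ * ψ g =
      ∑ ψ' ∈ irrOn S with p ψ', mu S f ψ' * ψ' g := by
  refine Finset.sum_bij (fun ψ _ => ext0 ψ) ?_ ?_ ?_ ?_
  · intro ψ hψ
    rw [Finset.mem_filter, mem_irrF] at hψ
    rw [Finset.mem_filter, CLIFF.mem_irrOn]
    exact ⟨irrOn_ext0 hψ.1, (hpq ψ hψ.1).1 hψ.2⟩
  · intro ψ _ ψ' _ h
    exact ext0_inj h
  · intro f' hf'
    rw [Finset.mem_filter, CLIFF.mem_irrOn] at hf'
    have h1 := ext0_res hf'.1.2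
    refine ⟨fun s => f' s, ?_, h1⟩
    rw [Finset.mem_filter, mem_irrF]
    refine ⟨hf'.1.1, ?_⟩
    rw [hpq _ hf'.1.1, h1]
    exact hf'.2
  · intro ψ _
    rw [mu_ext0, ext0_of_mem ψ g.2]

end Sub

end VAL

open Classical in
/-- RCB_VAL: matching characters have the same values up to sign. -/
theorem VAL_thm (h1 : Stmt_MT2X) (h2 : Stmt_RZC) (h3 : Stmt_MZC) (h4 : Stmt_SZC)
    (_h5 : Stmt_TRM) : Stmt_VAL := by
  intro G _ _ 𝔐 ℓ n _ hM hl ω P₁ P x hAt hex hEB χ hχ ψ hψ a b hab g hg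
  letI : Fintype (NP P₁) := Fintype.ofFinite _
  -- the character `χ`
  have hχi : IsIrr χ := by
    have h5 := hχ.1.1
    rw [stb_empty] at h5
    exact h5.comp_mulEquiv (Subgroup.topEquiv (G := G)).symm
  have hχω : cen 𝔐 (MonoidHom.id G) χ = ω := by
    funext y
    exact hχ.2 y
  -- the element `g`
  have hgc : g ∈ Subgroup.centralizer (P₁ : Set G) := by
    rw [Subgroup.mem_centralizer_iff]
    intro u hu
    obtain ⟨k, rfl⟩ := Subgroup.mem_zpowers_iff.1 (hg hu)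
    exact ((Commute.refl g).zpow_left k).eq
  have hgn : g ∈ Subgroup.normalizer (P₁ : Set G) := by
    rw [Subgroup.mem_normalizer_iff]
    rw [Subgroup.mem_centralizer_iff] at hgc
    intro u
    constructor
    · intro hu
      rw [← hgc u hu, mul_assoc, mul_inv_cancel, mul_one]
      exact hu
    · intro hu
      have h6 := hgc _ hu
      have h7 : g * u * g⁻¹ = u := by
        have h8 : g * u * g⁻¹ * g = g * u := by group
        rw [h8] at h6
        exact (mul_left_cancel h6).symm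
      rw [← h7]
      exact hu
  have hlg : ℓ ∣ orderOf g := by
    rw [← hAt.cd.c1, ← Nat.card_zpowers]
    exact Subgroup.card_dvd_of_le hg
  -- the expansion of `χ g` over the characters of the normalizer
  have hAt' : AtX ℓ n (cen 𝔐 (MonoidHom.id G) χ) P₁ P x := by
    rw [hχω]
    exact hAt
  have e1 := (h1 G 𝔐 ℓ n hM hl χ hχi P₁ P x hAt').1 ⟨g, hgn⟩ hg
  have e2 : χ g = ∑ ψ' ∈ irrOn (stb {P₁}) with ψ' ∈ YL 𝔐 P₁ ω,
      mu (stb {P₁}) χ ψ' * ψ' g := by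
    rw [VAL.stb_single]
    refine Eq.trans e1 (VAL.sum_tr 𝔐 (Subgroup.normalizer (P₁ : Set G)) _ _ ?_ χ ⟨g, hgn⟩)
    intro ψ' hψ'
    have h8 : ∀ y, cg 𝔐 (ext0 ψ') y =
        cen 𝔐 (Subgroup.normalizer (P₁ : Set G)).subtype ψ' y := by
      intro y
      have h9 := BLKC.cg_eq_cen 𝔐 (Subgroup.normalizer (P₁ : Set G)) (ext0 ψ')
        (fun y hy => ext0_of_not_mem ψ' hy) y
      rw [VAL.ext0_coe] at h9
      exact h9.symm
    rw [hχω]
    constructor
    · intro h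
      refine ⟨?_, fun y => ?_⟩
      · rw [VAL.stb_single]
        exact VAL.irrOn_ext0 hψ'
      · rw [h8, h]
    · rintro ⟨-, h⟩
      funext y
      rw [← h8]
      exact h y
  -- the restriction to the centralizer
  obtain ⟨r1, r2⟩ := h2 G 𝔐 ℓ n hM hl ω P₁ P x hAt hex
  rw [e2, r1 χ hχi g hgc, r2 ψ hψ g hgc, Finset.mul_sum]
  have h6 := h4 G 𝔐 ℓ n hM hl ω P₁ P x hAt hex g hgc hlg
  have h7 : ∑ φ ∈ irrOn (Subgroup.centralizer (P₁ : Set G)) with φ ∈ ZC 𝔐 P₁ ω,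
      mu (Subgroup.centralizer (P₁ : Set G)) χ φ * φ g =
      ∑ φ ∈ irrOn (Subgroup.centralizer (P₁ : Set G)) with φ ∈ ZC 𝔐 P₁ ω,
        ((a : ℂ) * φ g + (b : ℂ) * (mu (Subgroup.centralizer (P₁ : Set G)) ψ φ * φ g)) := by
    refine Finset.sum_congr rfl fun φ hφ => ?_
    have h8 := (Finset.mem_filter.1 hφ).2
    rw [hab φ h8]
    rcases h3 G 𝔐 ℓ n hM hl ω P₁ P x hAt hex hEB ψ hψ φ h8 with h9 | h9
    · rw [if_neg (by rw [h9]; simp), h9]
      ring
    · rw [if_pos (by rw [h9]; simp), h9]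
      ring
  rw [h7, Finset.sum_add_distrib, ← Finset.mul_sum, h6, mul_zero, zero_add]

end Pool.Agent.RCB
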