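import Mathlib
import Pool.Agent.RCB.St4
import Pool.Agent.DPW.DF1

/-!
# Module RCB_WFX: weights and invariant classes
-/

namespace Pool.Agent.RCB

open Pool.Agent.DP Pool.Agent.DPV Pool.Agent.DPB Pool.Agent.DPW Pool.Agent.DPX
open Pool.Agent.Lib_helper13 Representation

namespace WFX

variable {T : Type} [Group T]

/-- The action of a subgroup on the conjugacy classes. -/
@[reducible] def act {V : Type} [Group V] (κ : V →* MulAut T) (D : Subgroup V) :
    MulAction D (ConjClasses T) where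
  smul d K := ConjClasses.map (κ (d : V)).toMonoidHom K
  one_smul K := by
    obtain ⟨x, rfl⟩ := ConjClasses.exists_rep K
    change ConjClasses.mk (κ ((1 : D) : V) x) = _
    rw [Subgroup.coe_one, map_one, MulAut.one_apply]
  mul_smul d d' K := by
    obtain ⟨x, rfl⟩ := ConjClasses.exists_rep K
    change ConjClasses.mk (κ ((d * d' : D) : V) x) = ConjClasses.mk (κ (d : V) (κ (d' : V) x))
    rw [Subgroup.coe_mul, map_mul, MulAut.mul_apply]

/-- A representative. -/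
noncomputable def rp (K : ConjClasses T) : T := Quotient.out K

theorem mk_rp (K : ConjClasses T) : ConjClasses.mk (rp K) = K := Quotient.out_eq K

theorem rp_mk {R : Type} (F : T → R) (hF : ∀ g x, F (g * x * g⁻¹) = F x) (x : T) :
    F (rp (ConjClasses.mk x)) = F x := by
  have h1 : IsConj x (rp (ConjClasses.mk x)) :=
    ConjClasses.mk_eq_mk_iff_isConj.1 (mk_rp _).symm
  obtain ⟨g, hg⟩ := isConj_iff.1 h1
  rw [← hg, hF]

variable [Fintype T]

open Classical in
theorem wt_classes (𝔐 : Ideal (integralClosure ℤ ℂ)) {φ : T → ℂ} (hφ : IsIrr φ)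
    (a : T → integralClosure ℤ ℂ) (ha : ∀ g x, a (g * x * g⁻¹) = a x) :
    red 𝔐 (wt φ (fun h => (a h : ℂ))) =
      ∑ K : ConjClasses T, Ideal.Quotient.mk 𝔐 (a (rp K)) *
        cen 𝔐 (MonoidHom.id T) φ (rp K) := by
  have h1 : wt φ (fun h => (a h : ℂ)) = ∑ K : ConjClasses T, (a (rp K) : ℂ) *
      DF1.w φ (rp K) := by
    have h2 : ∀ K : ConjClasses T, (a (rp K) : ℂ) * DF1.w φ (rp K) =
        (∑ y, (if ConjClasses.mk y = K then (a y : ℂ) * φ y else 0)) / φ 1 := by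
      intro K
      rw [DF1.w, wt, mul_div_assoc', Finset.mul_sum]
      congr 1
      refine Finset.sum_congr rfl fun y _ => ?_
      rw [MonoidHom.id_apply, conjInd]
      by_cases h : ConjClasses.mk y = K
      · have h3 : IsConj y (rp K) := by
          rw [← ConjClasses.mk_eq_mk_iff_isConj, mk_rp, h]
        rw [if_pos h, if_pos h3, one_mul]
        have h4 := rp_mk a ha y
        rw [h] at h4
        rw [h4]
      · have h3 : ¬ IsConj y (rp K) := by
          rw [← ConjClasses.mk_eq_mk_iff_isConj, mk_rp]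
          exact h
        rw [if_neg h, if_neg h3, zero_mul, mul_zero]
    rw [Finset.sum_congr rfl fun K _ => h2 K, ← Finset.sum_div, Finset.sum_comm, wt]
    congr 1
    refine Finset.sum_congr rfl fun y _ => ?_
    rw [Finset.sum_ite_eq, if_pos (Finset.mem_univ _)]
  rw [h1, red_sum]
  · refine Finset.sum_congr rfl fun K _ => ?_
    rw [red_mul 𝔐 (a (rp K)).2 (DF1.isIntegral_w hφ _), red_of_integral 𝔐 (a (rp K)).2]
    rfl
  · intro K _
    exact (a (rp K)).2.mul (DF1.isIntegral_w hφ _)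

end WFX

open Classical in
theorem WFX_thm (h1 : Stmt_FPS) (h2 : Stmt_SYQ) : Stmt_WFX := by
  intro T V C _ _ _ _ _ 𝔐 ℓ hp h𝔐 hℓ ι κ ρ hL hC φ hφ hcen a ha hainv hne
  obtain ⟨D, -, -, hD, -, hDρ, -⟩ := h2 T V C ℓ ι κ ρ hL hC ⊤
    (Subgroup.map_top_of_surjective ρ hL.surj) ⊥ bot_le IsPGroup.of_bot
  rw [WFX.wt_classes 𝔐 hφ a ha] at hne
  let _ := WFX.act κ D
  set f : ConjClasses T → (integralClosure ℤ ℂ) ⧸ 𝔐 := fun K =>
    Ideal.Quotient.mk 𝔐 (a (WFX.rp K)) * cen 𝔐 (MonoidHom.id T) φ (WFX.rp K) with hf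
  have hcc : ∀ g x, cen 𝔐 (MonoidHom.id T) φ (g * x * g⁻¹) =
      cen 𝔐 (MonoidHom.id T) φ x := by
    intro g x
    rw [DF1.cen_eq, DF1.cen_eq, DF1.w, DF1.w]
    have h3 : (fun y => conjInd (MonoidHom.id T y) (g * x * g⁻¹)) =
        fun y => conjInd (MonoidHom.id T y) x := by
      funext y
      exact conjInd_right (isConj_iff.2 ⟨g, rfl⟩).symm _
    rw [h3]
  have hfmk : ∀ x : T, f (ConjClasses.mk x) =
      Ideal.Quotient.mk 𝔐 (a x) * cen 𝔐 (MonoidHom.id T) φ x := by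
    intro x
    exact WFX.rp_mk (fun x => Ideal.Quotient.mk 𝔐 (a x) * cen 𝔐 (MonoidHom.id T) φ x)
      (fun g x => by rw [ha, hcc]) x
  have hfinv : ∀ (d : D) (K : ConjClasses T), f (d • K) = f K := by
    intro d K
    obtain ⟨x, rfl⟩ := ConjClasses.exists_rep K
    change f (ConjClasses.mk (κ (d : V) x)) = f (ConjClasses.mk x)
    rw [hfmk, hfmk, hcen, Ideal.Quotient.eq.2 (hainv (d : V) x)]
  have hℓ0 : ((ℓ : ℕ) : (integralClosure ℤ ℂ) ⧸ 𝔐) = 0 := by
    rw [← map_natCast (Ideal.Quotient.mk 𝔐)]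
    exact Ideal.Quotient.eq_zero_iff_mem.mpr hℓ
  have h3 : ∑ K, f K = ∑ K with (∀ d : D, d • K = K), f K := by
    convert h1 D (ConjClasses T) ((integralClosure ℤ ℂ) ⧸ 𝔐) ℓ hℓ0 hD f hfinv
  obtain ⟨K, hK, hfK⟩ : ∃ K : ConjClasses T, (∀ d : D, d • K = K) ∧ f K ≠ 0 := by
    by_contra hcon
    push Not at hcon
    apply hne
    rw [h3]
    refine Finset.sum_eq_zero fun K hK => hcon K ?_
    exact (Finset.mem_filter.1 hK).2
  obtain ⟨x, rfl⟩ := ConjClasses.exists_rep K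
  have hfK' := hfK
  rw [hfmk] at hfK'
  refine ⟨x, fun hx => hfK' ?_, fun hx => hfK' ?_, fun v => ?_⟩
  · rw [Ideal.Quotient.eq_zero_iff_mem.2 hx, zero_mul]
  · rw [hx, mul_zero]
  · obtain ⟨d, hd, hdv⟩ : ∃ d ∈ D, ρ d = ρ v := by
      have h4 : ρ v ∈ D.map ρ := by
        rw [hDρ]
        exact Subgroup.mem_top _
      exact h4
    have h5 : ρ (v * d⁻¹) = 1 := by
      rw [map_mul, map_inv, hdv, mul_inv_cancel]
    obtain ⟨g, hg⟩ := (hL.cl.ker _).1 h5
    have h6 : ConjClasses.mk (κ d x) = ConjClasses.mk x := hK ⟨d, hd⟩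
    obtain ⟨s, hs⟩ := isConj_iff.1 (ConjClasses.mk_eq_mk_iff_isConj.1 h6.symm)
    have h7 : ∀ y, κ (ι g) y = g * y * g⁻¹ := by
      intro y
      apply hL.cl.inj
      rw [hL.cl.act, map_mul, map_mul, map_inv]
    refine ⟨g * s, ?_⟩
    have h8 : v = ι g * d := by
      rw [hg, inv_mul_cancel_right]
    rw [h8, map_mul, MulAut.mul_apply, h7, ← hs]
    group

end Pool.Agent.RCB
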