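import Mathlib
import Pool.Agent.RCB.St4

/-!
# RCB_WST: the stabilizer of the block in the centralizer of `P₁`
-/

namespace Pool.Agent.RCB

open Pool.Agent.DP Pool.Agent.DPV Pool.Agent.DPB Pool.Agent.DPW Pool.Agent.DPX
open Pool.Agent.Lib_helper13 Representation

namespace WST

section A

variable {G : Type} [Group G]

theorem cjT_act (α : MulAut G) {T : Subgroup G} (hT : ∀ x, α x ∈ T ↔ x ∈ T) (x g : G) :
    cjT T (α x) (α g) = cjT T x g := by
  classical
  unfold cjT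
  have h : (∃ t ∈ T, α x = t * α g * t⁻¹) ↔ ∃ t ∈ T, x = t * g * t⁻¹ := by
    constructor
    · rintro ⟨t, ht, h⟩
      refine ⟨α.symm t, (hT _).mp (by rw [MulEquiv.apply_symm_apply]; exact ht), ?_⟩
      apply α.injective
      rw [h, map_mul, map_mul, map_inv, MulEquiv.apply_symm_apply]
    · rintro ⟨t, ht, h⟩
      exact ⟨α t, (hT t).mpr ht, by rw [h, map_mul, map_mul, map_inv]⟩
  exact if_congr h rfl rfl

theorem cjT_conj {T : Subgroup G} {c : G} (hc : c ∈ T) (x g : G) :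
    cjT T x (c * g * c⁻¹) = cjT T x g := by
  classical
  unfold cjT
  have h : (∃ t ∈ T, x = t * (c * g * c⁻¹) * t⁻¹) ↔ ∃ t ∈ T, x = t * g * t⁻¹ := by
    constructor
    · rintro ⟨t, ht, h⟩
      refine ⟨t * c, mul_mem ht hc, ?_⟩
      rw [h]
      group
    · rintro ⟨t, ht, h⟩
      refine ⟨t * c⁻¹, mul_mem ht (inv_mem hc), ?_⟩
      rw [h]
      group
  exact if_congr h rfl rfl

variable [Fintype G] (𝔐 : Ideal (integralClosure ℤ ℂ))

theorem cgT_act (α : MulAut G) {T : Subgroup G} (hT : ∀ x, α x ∈ T ↔ x ∈ T) (f : G → ℂ)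
    (g : G) : cgT 𝔐 T (fun x => f (α x)) g = cgT 𝔐 T f (α g) := by
  unfold cgT
  simp only [map_one]
  congr 2
  refine Fintype.sum_equiv α.toEquiv _ _ fun x => ?_
  have h : cjT T (α x) (α g) = cjT T x g := cjT_act α hT x g
  rw [← h]
  rfl

theorem cgT_conj {T : Subgroup G} {c : G} (hc : c ∈ T) (f : G → ℂ) (g : G) :
    cgT 𝔐 T f (c * g * c⁻¹) = cgT 𝔐 T f g := by
  unfold cgT
  congr 2
  exact Finset.sum_congr rfl fun x _ => by rw [cjT_conj hc]

end A

section B

variable {G B C : Type} [Group G] [Group B] [Group C] {ι : G →* B} {κ : B →* MulAut G}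
  {ρ : B →* C}

theorem kap (h : LocN ι κ ρ) (s x : G) : κ (ι s) x = s * x * s⁻¹ := by
  apply h.cl.inj
  rw [h.cl.act, map_mul, map_mul, map_inv]

/-- membership in `P₁` under an automorphism which maps `P₁` to `P₁` -/
theorem mem_iff (α : MulAut G) {P₁ : Subgroup G} (h : P₁.map α.toMonoidHom = P₁) (y : G) :
    α y ∈ P₁ ↔ y ∈ P₁ := by
  constructor
  · intro hy
    have hy' : α y ∈ P₁.map α.toMonoidHom := by rw [h]; exact hy
    obtain ⟨z, hz, hzy⟩ := hy'
    have h1 : z = y := α.injective hzy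
    rw [← h1]
    exact hz
  · intro hy
    have h1 : α y ∈ P₁.map α.toMonoidHom := ⟨y, hy, rfl⟩
    rw [h] at h1
    exact h1

theorem cen_iff (α : MulAut G) {P₁ : Subgroup G} (h : ∀ y, α y ∈ P₁ ↔ y ∈ P₁) (x : G) :
    α x ∈ Subgroup.centralizer (P₁ : Set G) ↔ x ∈ Subgroup.centralizer (P₁ : Set G) := by
  constructor
  · intro hx
    rw [Subgroup.mem_centralizer_iff] at hx ⊢
    intro u hu
    apply α.injective
    rw [map_mul, map_mul]
    exact hx (α u) ((h u).mpr hu)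
  · intro hx
    rw [Subgroup.mem_centralizer_iff] at hx ⊢
    intro u hu
    have h1 : α.symm u ∈ P₁ := by
      rw [← h, MulEquiv.apply_symm_apply]
      exact hu
    have h2 := congrArg α (hx (α.symm u) h1)
    rw [map_mul, map_mul, MulEquiv.apply_symm_apply] at h2
    exact h2

/-- an automorphism which preserves a subgroup of prime order `ℓ` has a power `ℓ - 1` trivial on
it -/
theorem fermat {ℓ : ℕ} [Fact ℓ.Prime] {P₁ : Subgroup G} (hc : Nat.card P₁ = ℓ) (y : B)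
    (h : P₁.map (κ y).toMonoidHom = P₁) (u : G) (hu : u ∈ P₁) : κ (y ^ (ℓ - 1)) u = u := by
  have hfin : Finite P₁ := Nat.finite_of_card_ne_zero (by
    rw [hc]
    exact (Fact.out : ℓ.Prime).ne_zero)
  have hcyc : IsCyclic P₁ := isCyclic_of_prime_card hc
  let α : MulAut P₁ := (P₁.equivMapOfInjective (κ y).toMonoidHom (κ y).injective).trans
    (MulEquiv.subgroupCongr h)
  have hα : ∀ v : P₁, (α v : G) = κ y v := fun v => rfl
  have hαn : ∀ (n : ℕ) (v : P₁), (((α ^ n : MulAut P₁) v : P₁) : G) = κ (y ^ n) v := by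
    intro n
    induction n with
    | zero => intro v; simp
    | succ n ih =>
      intro v
      rw [pow_succ', pow_succ', MulAut.mul_apply, map_mul, MulAut.mul_apply, hα, ih]
  have hcard : Nat.card (MulAut P₁) = ℓ - 1 := by
    rw [IsCyclic.card_mulAut, hc, Nat.totient_prime (Fact.out : ℓ.Prime)]
  have h1 : α ^ (ℓ - 1) = 1 := by
    rw [← hcard]
    exact pow_card_eq_one'
  have h2 := hαn (ℓ - 1) ⟨u, hu⟩
  rw [h1] at h2
  exact h2.symm

end B

end WST

open WST in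
/-- RCB_WST. -/
theorem WST_thm (h1 : Stmt_EQV) (h2 : Stmt_ZCA) : Stmt_WST := by
  intro G B C _ _ _ _ _ 𝔐 ℓ n _ h𝔐 hℓ ι κ ρ hL hC ω P₁ P x₀ hS φ hφ
  obtain ⟨e1, -, -, e4, -⟩ := h1 G B C 𝔐 ℓ n h𝔐 hℓ ι κ ρ hL ω P₁ P x₀ hS
  obtain ⟨-, -, -, z4, -⟩ := h2 G 𝔐 ℓ n h𝔐 hℓ ω P₁ P x₀ hS.at' hS.ex φ hφ
  set C₀ := Subgroup.centralizer (P₁ : Set G) with hC₀
  have hPc : Nat.card P₁ = ℓ := hS.at'.cd.c1
  refine ⟨?_, ?_, ?_⟩
  · ext x
    rw [Subgroup.mem_comap]
    constructor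
    · rintro ⟨hx, -⟩
      rw [hC₀, Subgroup.mem_centralizer_iff]
      intro u hu
      have h3 := hx u hu
      rw [kap hL] at h3
      rw [mul_inv_eq_iff_eq_mul] at h3
      exact h3.symm
    · intro hx
      refine ⟨fun u hu => ?_, fun g => ?_⟩
      · rw [kap hL, mul_inv_eq_iff_eq_mul]
        rw [hC₀, Subgroup.mem_centralizer_iff] at hx
        exact (hx u hu).symm
      · rw [kap hL]
        exact cgT_conj 𝔐 hx φ g
  · rw [eq_top_iff]
    intro c _
    obtain ⟨b, hb, hbc⟩ := e1 c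
    have hbP : P₁.map (κ b).toMonoidHom = P₁ := hb.1 P₁ (Finset.mem_singleton_self _)
    have hφ' : (fun g => φ (κ b g)) ∈ ZC 𝔐 P₁ ω := (e4 φ b hb).mp hφ
    obtain ⟨s, hs, hsg⟩ := (z4 _ hφ'.1).mp hφ'
    have hsP : P₁.map (MulAut.conj s).toMonoidHom = P₁ :=
      (mem_stb.mp hs) P₁ (Finset.mem_singleton_self _)
    set y := b * ι s with hy
    have hyg : ∀ g, cgT 𝔐 C₀ φ (κ y g) = cgT 𝔐 C₀ φ g := by
      intro g
      rw [← hsg g, cgT_act 𝔐 (κ b) (cen_iff (κ b) (mem_iff (κ b) hbP)), hy, map_mul,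
        MulAut.mul_apply, kap hL]
    have hyP : P₁.map (κ y).toMonoidHom = P₁ := by
      have h3 : (κ y).toMonoidHom =
          (κ b).toMonoidHom.comp (MulAut.conj s).toMonoidHom := by
        ext g
        show κ y g = κ b (MulAut.conj s g)
        rw [hy, map_mul, MulAut.mul_apply, kap hL, MulAut.conj_apply]
      rw [h3, ← Subgroup.map_map, hsP, hbP]
    have hρy : ρ y = c := by
      rw [hy, map_mul, hbc, (hL.cl.ker (ι s)).mpr ⟨s, rfl⟩, mul_one]
    have hypow : ∀ m g, cgT 𝔐 C₀ φ (κ (y ^ m) g) = cgT 𝔐 C₀ φ g := by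
      intro m
      induction m with
      | zero => intro g; rw [pow_zero, map_one, MulAut.one_apply]
      | succ m ih => intro g; rw [pow_succ, map_mul, MulAut.mul_apply, ih, hyg]
    have hz : y ^ (ℓ - 1) ∈ WG 𝔐 κ P₁ φ :=
      ⟨fun u hu => fermat hPc y hyP u hu, hypow (ℓ - 1)⟩
    obtain ⟨m, hm⟩ := hC
    have hcop : (ℓ - 1).Coprime (orderOf c) := by
      have h3 : (ℓ - 1).Coprime (ℓ ^ m) := by
        apply Nat.Coprime.pow_right
        have h4 : ℓ = (ℓ - 1) + 1 := by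
          have := (Fact.out : ℓ.Prime).pos
          omega
        rw [h4]
        simp
      refine Nat.Coprime.of_dvd_right ?_ h3
      rw [← hm]
      exact orderOf_dvd_natCard c
    obtain ⟨i, hi⟩ := exists_pow_eq_self_of_coprime hcop
    refine ⟨(y ^ (ℓ - 1)) ^ i, pow_mem hz i, ?_⟩
    rw [map_pow, map_pow, hρy, hi]
  · intro s hs hsg w hw
    have hsP : P₁.map (MulAut.conj s).toMonoidHom = P₁ :=
      (mem_stb.mp hs) P₁ (Finset.mem_singleton_self _)
    have hκ : ∀ g, κ (ι s * w * (ι s)⁻¹) g = s * κ w (s⁻¹ * g * s) * s⁻¹ := by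
      intro g
      rw [map_mul, map_mul, MulAut.mul_apply, MulAut.mul_apply, kap hL, ← map_inv, kap hL, inv_inv]
    refine ⟨fun u hu => ?_, fun g => ?_⟩
    · rw [hκ]
      have h3 : s⁻¹ * u * s ∈ P₁ := by
        rw [← mem_iff (MulAut.conj s) hsP, MulAut.conj_apply]
        have h4 : s * (s⁻¹ * u * s) * s⁻¹ = u := by group
        rw [h4]
        exact hu
      rw [hw.1 _ h3]
      group
    · rw [hκ, hsg, hw.2, ← hsg]
      congr 1
      group

end Pool.Agent.RCB
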