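import Mathlib
import Pool.Agent.RCB.St4
import Pool.Agent.DPX.ORBX

/-!
# XTH: a conjugate of `x` with a class invariant under `W` and a weight different from zero
-/

namespace Pool.Agent.RCB

open Pool.Agent.DP Pool.Agent.DPV Pool.Agent.DPB Pool.Agent.DPW Pool.Agent.DPX
open Pool.Agent.Lib_helper13 Representation

namespace XTH

open Classical in
theorem sum_sub {G : Type} [Group G] [Fintype G] (S : Subgroup G) [Fintype S] (F : G → ℂ) :
    ∑ g : G, (if g ∈ S then F g else 0) = ∑ s : S, F s := by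
  rw [← Finset.sum_filter]
  exact Finset.sum_subtype _ (fun x => by simp) F

/-- The weight of an invariant function supported on the normal subgroup. -/
theorem wt_key {G : Type} [Group G] [Fintype G] {C N : Subgroup G} [Fintype C] (hCN : C ≤ N)
    (hn : ∀ n ∈ N, ∀ c ∈ C, n * c * n⁻¹ ∈ C) {ψ φ : G → ℂ} (hψ : IrrOn N ψ) (hφ : IrrOn C φ)
    (hmu : mu C ψ φ ≠ 0) {f : G → ℂ} (hf : ∀ n ∈ N, ∀ x, f (n * x * n⁻¹) = f x)
    (hf0 : ∀ x, x ∉ C → f x = 0) :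
    wt ψ f = wt (fun c : C => φ c) (fun c : C => f c) := by
  classical
  have hfN : Fintype N := Fintype.ofFinite N
  have hnorm : (C.subgroupOf N).Normal := by
    refine ⟨fun c hc n => ?_⟩
    rw [Subgroup.mem_subgroupOf] at hc ⊢
    exact hn n n.2 c hc
  have hfC : Fintype (C.subgroupOf N) := Fintype.ofFinite _
  let e : C.subgroupOf N ≃* C := Subgroup.subgroupOfEquivOfLe hCN
  have he : ∀ c : C.subgroupOf N, ((e c : C) : G) = ((c : N) : G) := fun c => rfl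
  have h1 : wt ψ f = wt (fun n : N => ψ n) (fun n : N => f n) := by
    rw [wt, wt]
    congr 1
    rw [← sum_sub N (fun g => f g * ψ g)]
    refine Finset.sum_congr rfl fun g _ => ?_
    split_ifs with hg
    · rfl
    · rw [hψ.2 g hg, mul_zero]
  have hcl := ORBX.clg (C.subgroupOf N)
  have h2 : (fun n : N => f n) =
      FXF.exF (C.subgroupOf N).subtype (fun c : C.subgroupOf N => f (c : N)) := by
    funext n
    by_cases hc : (n : G) ∈ C
    · have h3 := FXF.exF_j hcl.inj (fun c : C.subgroupOf N => f (c : N)) ⟨n, hc⟩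
      exact h3.symm
    · rw [hf0 _ hc, FXF.exF_zero]
      rintro ⟨c, hc'⟩
      apply hc
      rw [← hc']
      exact c.2
  have hφ' : IsIrr (fun c : C.subgroupOf N => φ (c : N)) := hφ.1.comp_mulEquiv e
  have h3 : ip (resj (C.subgroupOf N).subtype (fun n : N => ψ n))
      (fun c : C.subgroupOf N => φ (c : N)) = mu C ψ φ := by
    rw [ip, mu, Nat.card_congr e.toEquiv]
    congr 1
    have h4 : ∑ g : G, (if g ∈ C then ψ g * φ g⁻¹ else 0) = ∑ s : C, ψ s * φ (s : G)⁻¹ :=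
      sum_sub C (fun g => ψ g * φ g⁻¹)
    rw [h4]
    exact Fintype.sum_equiv e.toEquiv _ _ fun c => rfl
  rw [h1, h2, FXF.wt_ex hcl hφ' hψ.1 (by rw [h3]; exact hmu)]
  · exact wt_comp_equiv e (fun c : C => φ c) (fun c : C => f c)
  · intro y c
    rw [MulAut.conjNormal_apply]
    exact hf y y.2 _

theorem mem_stb1 {G : Type} [Group G] {P₁ : Subgroup G} {g : G} :
    g ∈ stb {P₁} ↔ ∀ x, x ∈ P₁ ↔ g * x * g⁻¹ ∈ P₁ := by
  rw [mem_stb']
  constructor
  · intro h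
    exact h P₁ (Finset.mem_singleton_self _)
  · intro h D hD
    rw [Finset.mem_singleton] at hD
    subst hD
    exact h

theorem cen_le_stb {G : Type} [Group G] (P₁ : Subgroup G) :
    Subgroup.centralizer (P₁ : Set G) ≤ stb {P₁} := by
  intro g hg
  rw [mem_stb1]
  rw [Subgroup.mem_centralizer_iff] at hg
  intro x
  constructor
  · intro hx
    have h1 := hg x hx
    have h2 : g * x * g⁻¹ = x := by rw [← h1]; group
    rw [h2]
    exact hx
  · intro hx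
    have h1 := hg _ hx
    have h2 : g * x * g⁻¹ = x := by
      have h3 : g * x * g⁻¹ * g = g * (g * x * g⁻¹) := h1
      have h4 : g * x = g * (g * x * g⁻¹) := by
        rw [← h3]
        group
      exact (mul_left_cancel h4).symm
    rw [← h2]
    exact hx

theorem conj_mem_cen {G : Type} [Group G] {P₁ : Subgroup G} {n c : G} (hn : n ∈ stb {P₁})
    (hc : c ∈ Subgroup.centralizer (P₁ : Set G)) :
    n * c * n⁻¹ ∈ Subgroup.centralizer (P₁ : Set G) := by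
  rw [Subgroup.mem_centralizer_iff] at hc ⊢
  intro u hu
  have hn' := (stb {P₁}).inv_mem hn
  rw [mem_stb1] at hn'
  have h1 := hc _ ((hn' u).mp hu)
  rw [inv_inv] at h1
  calc u * (n * c * n⁻¹) = n * (n⁻¹ * u * n * c) * n⁻¹ := by group
    _ = n * (c * (n⁻¹ * u * n)) * n⁻¹ := by rw [h1]
    _ = n * c * n⁻¹ * u := by group

theorem cyc_of (hS : Stmt_SUPX) {G : Type} [Group G] [Fintype G] {ℓ n : ℕ} [Fact ℓ.Prime]
    {P₁ P : Subgroup G} {x : G} (h : CycD ℓ n P₁ P x) (Q : Subgroup G) (hQ : IsPGroup ℓ Q)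
    (hQx : ∀ u ∈ Q, u * x = x * u) : IsCyclic Q := by
  obtain ⟨t, -, ht⟩ := hS.2.1 ℓ n G P₁ P x h Q hQ hQx
  have hcyc := h.cyc
  let f : Q →* P :=
    ((MulAut.conj t).toMonoidHom.comp Q.subtype).codRestrict P fun u => ht u u.2
  refine isCyclic_of_injective f ?_
  intro a b hab
  have h1 : t * (a : G) * t⁻¹ = t * (b : G) * t⁻¹ := congrArg Subtype.val hab
  exact Subtype.ext (mul_left_cancel (mul_right_cancel h1))

theorem cjT_zero {G : Type} [Group G] {T : Subgroup G} {x g : G}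
    (h : ¬ ∃ t ∈ T, x = t * g * t⁻¹) : cjT T x g = 0 := by
  unfold cjT
  exact if_neg h

theorem cjT_one {G : Type} [Group G] {T : Subgroup G} {x g : G}
    (h : ∃ t ∈ T, x = t * g * t⁻¹) : cjT T x g = 1 := by
  unfold cjT
  exact if_pos h

theorem cjT_congr {G : Type} [Group G] {T : Subgroup G} {x g x' g' : G}
    (h : (∃ t ∈ T, x = t * g * t⁻¹) ↔ ∃ t ∈ T, x' = t * g' * t⁻¹) : cjT T x g = cjT T x' g' := by
  by_cases h' : ∃ t ∈ T, x' = t * g' * t⁻¹
  · rw [cjT_one (h.mpr h'), cjT_one h']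
  · rw [cjT_zero (fun h1 => h' (h.mp h1)), cjT_zero h']

open Classical in
/-- The indicator function with integral values. -/
noncomputable def aiT {G : Type} [Group G] (T : Subgroup G) (g x : G) : integralClosure ℤ ℂ :=
  if ∃ t ∈ T, x = t * g * t⁻¹ then 1 else 0

theorem aiT_one {G : Type} [Group G] {T : Subgroup G} {g x : G}
    (h : ∃ t ∈ T, x = t * g * t⁻¹) : aiT T g x = 1 := by
  unfold aiT
  exact if_pos h

theorem aiT_zero {G : Type} [Group G] {T : Subgroup G} {g x : G}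
    (h : ¬ ∃ t ∈ T, x = t * g * t⁻¹) : aiT T g x = 0 := by
  unfold aiT
  exact if_neg h

theorem aiT_coe {G : Type} [Group G] (T : Subgroup G) (g x : G) :
    ((aiT T g x : integralClosure ℤ ℂ) : ℂ) = cjT T x g := by
  by_cases h : ∃ t ∈ T, x = t * g * t⁻¹
  · rw [cjT_one h, aiT_one h]
    rfl
  · rw [cjT_zero h, aiT_zero h]
    rfl

theorem aiT_congr {G : Type} [Group G] {T : Subgroup G} {x g x' g' : G}
    (h : (∃ t ∈ T, x = t * g * t⁻¹) ↔ ∃ t ∈ T, x' = t * g' * t⁻¹) : aiT T g x = aiT T g' x' := by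
  by_cases h' : ∃ t ∈ T, x' = t * g' * t⁻¹
  · rw [aiT_one (h.mpr h'), aiT_one h']
  · rw [aiT_zero (fun h1 => h' (h.mp h1)), aiT_zero h']

theorem cls_conj {G : Type} [Group G] {T : Subgroup G} {n : G} (hn : n ∈ T) (x y : G) :
    (∃ t ∈ T, n * y * n⁻¹ = t * x * t⁻¹) ↔ ∃ t ∈ T, y = t * x * t⁻¹ := by
  constructor
  · rintro ⟨t, ht, e⟩
    refine ⟨n⁻¹ * t, mul_mem (inv_mem hn) ht, ?_⟩
    calc y = n⁻¹ * (n * y * n⁻¹) * n := by group
      _ = n⁻¹ * (t * x * t⁻¹) * n := by rw [e]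
      _ = n⁻¹ * t * x * (n⁻¹ * t)⁻¹ := by group
  · rintro ⟨t, ht, e⟩
    refine ⟨n * t, mul_mem hn ht, ?_⟩
    rw [e]
    group

end XTH

open XTH in
theorem XTH_thm (h1 : Stmt_SUPX) (h2 : Stmt_GDX) (h3 : Stmt_GCX) (h4 : Stmt_WFX)
    (h5 : Stmt_WST) (h6 : Stmt_RLN) (h7 : Stmt_ZCA) : Stmt_XTH := by
  intro G B C _ _ _ _ _ 𝔐 ℓ n _ h𝔐 hℓ ι κ ρ hL hC ω P₁ P x hX hinv φ hφ
  obtain ⟨hat, hωB, hex⟩ := hX
  have hcd := hat.cd
  have hPx : ∀ u ∈ P₁, u * x = x * u := fun u hu => hcd.cen u (hcd.le hu)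
  have hcyc := cyc_of h1 hcd
  obtain ⟨hφi, ψ, hψ, hmu⟩ := hφ
  have hφZ : φ ∈ ZC 𝔐 P₁ ω := ⟨hφi, ψ, hψ, hmu⟩
  obtain ⟨w1, w2, -⟩ := h5 G B C 𝔐 ℓ n h𝔐 hℓ ι κ ρ hL hC ω P₁ P x ⟨hat, hωB, hex⟩ φ hφZ
  obtain ⟨-, ⟨z1, z2, -⟩, -⟩ := h7 G 𝔐 ℓ n h𝔐 hℓ ω P₁ P x hat hex φ hφZ
  -- the weight of the function
  have hw := (h2 G B C 𝔐 ℓ h𝔐 hℓ ι κ ρ hL P₁ hcd.c1 ψ hψ.1).2 x hPx
    (fun Q hQ _ hQx => hcyc Q hQ hQx)
  have hw1 := hw.1
  rw [hψ.2 x] at hw1
  have hxC : x ∈ Subgroup.centralizer (P₁ : Set G) := by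
    rw [Subgroup.mem_centralizer_iff]
    exact hPx
  have hf : ∀ n ∈ stb {P₁}, ∀ y, cjT (stb {P₁}) (n * y * n⁻¹) x = cjT (stb {P₁}) y x :=
    fun n hn y => cjT_congr (cls_conj hn x y)
  have hf0 : ∀ y, y ∉ Subgroup.centralizer (P₁ : Set G) → cjT (stb {P₁}) y x = 0 := by
    intro y hy
    apply cjT_zero
    rintro ⟨t, ht, e⟩
    apply hy
    rw [e]
    exact conj_mem_cen ht hxC
  have hne := hat.ne
  rw [hw1, wt_key (cen_le_stb P₁) (fun n hn c hc => conj_mem_cen hn hc) hψ.1 hφi hmu hf hf0]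
    at hne
  obtain ⟨j, c, hj, hc, hLc⟩ := h6 G B C ι κ ρ hL (WG 𝔐 κ P₁ φ)
    (Subgroup.centralizer (P₁ : Set G)) w1 w2
  -- the set of the conjugates of `x` is invariant
  have hone : ∀ v ∈ WG 𝔐 κ P₁ φ, ∀ y : G, (∃ t ∈ stb {P₁}, y = t * x * t⁻¹) →
      ∃ t ∈ stb {P₁}, κ v y = t * x * t⁻¹ := by
    rintro v hv y ⟨t, ht, rfl⟩
    obtain ⟨g, hg⟩ := hinv v
    have e1 : κ v (t * x * t⁻¹) = κ v t * g * x * (κ v t * g)⁻¹ := by
      rw [map_mul, map_mul, map_inv, hg]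
      group
    have e2 : ∀ u ∈ P₁, u * (κ v t * g * x * (κ v t * g)⁻¹) =
        κ v t * g * x * (κ v t * g)⁻¹ * u := by
      intro u hu
      rw [← e1]
      have e3 := (Subgroup.mem_centralizer_iff.mp (conj_mem_cen ht hxC)) u hu
      have e4 : κ v u * κ v (t * x * t⁻¹) = κ v (t * x * t⁻¹) * κ v u := by
        rw [← map_mul, ← map_mul, e3]
      rw [hv.1 u hu] at e4
      exact e4
    obtain ⟨m, hm, e5⟩ := (h3 ℓ G P₁ hcd.c1).2.2.1 x hPx hcyc (κ v t * g) e2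
    refine ⟨m, ?_, ?_⟩
    · rw [mem_stb1]
      rw [Subgroup.mem_normalizer_iff] at hm
      exact hm
    · rw [e1, e5]
  have hiff : ∀ v ∈ WG 𝔐 κ P₁ φ, ∀ y : G, (∃ t ∈ stb {P₁}, κ v y = t * x * t⁻¹) ↔
      ∃ t ∈ stb {P₁}, y = t * x * t⁻¹ := by
    intro v hv y
    constructor
    · intro h
      have h8 := hone v⁻¹ (inv_mem hv) _ h
      rw [← MulAut.mul_apply, ← map_mul, inv_mul_cancel, map_one, MulAut.one_apply] at h8
      exact h8
    · exact hone v hv y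
  have A1 : ∀ g y : Subgroup.centralizer (P₁ : Set G),
      aiT (stb {P₁} : Subgroup G) x ((g * y * g⁻¹ : Subgroup.centralizer (P₁ : Set G)) : G) =
        aiT (stb {P₁} : Subgroup G) x (y : G) := fun g y =>
    aiT_congr (cls_conj (cen_le_stb P₁ g.2) x (y : G))
  have A2 : ∀ (v : WG 𝔐 κ P₁ φ) (y : Subgroup.centralizer (P₁ : Set G)),
      aiT (stb {P₁} : Subgroup G) x ((c v y : Subgroup.centralizer (P₁ : Set G)) : G) -
        aiT (stb {P₁} : Subgroup G) x (y : G) ∈ 𝔐 := by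
    intro v y
    have e : aiT (stb {P₁} : Subgroup G) x ((c v y : Subgroup.centralizer (P₁ : Set G)) : G) =
        aiT (stb {P₁} : Subgroup G) x (y : G) := by
      apply aiT_congr
      rw [hc]
      exact hiff v v.2 y
    rw [e, sub_self]
    exact zero_mem _
  have A3 : red 𝔐 (wt (fun c : Subgroup.centralizer (P₁ : Set G) => φ c)
      (fun h : Subgroup.centralizer (P₁ : Set G) =>
        ((aiT (stb {P₁} : Subgroup G) x (h : G) : integralClosure ℤ ℂ) : ℂ))) ≠ 0 := by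
    simp only [aiT_coe]
    exact hne
  obtain ⟨y, hy1, hy2, hy3⟩ := h4 (Subgroup.centralizer (P₁ : Set G)) (WG 𝔐 κ P₁ φ) C 𝔐 ℓ h𝔐 hℓ
    j c _ hLc hC (fun c => φ c) z1 (by
      intro v g
      rw [z2, z2, hc]
      exact v.2.2 g)
    (fun c : Subgroup.centralizer (P₁ : Set G) => aiT (stb {P₁} : Subgroup G) x (c : G)) A1 A2 A3
  have hy4 : ∃ t ∈ stb {P₁}, (y : G) = t * x * t⁻¹ := by
    by_contra hcon
    apply hy1
    rw [aiT_zero hcon]
    exact zero_mem _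
  obtain ⟨s, hs, e⟩ := hy4
  rw [z2] at hy2
  refine ⟨s, hs, ?_, ?_⟩
  · rw [← e]
    exact hy2
  · intro w hw
    obtain ⟨g, hg⟩ := hy3 ⟨w, hw⟩
    refine ⟨g, g.2, ?_⟩
    rw [← e, ← hc ⟨w, hw⟩ y, hg]
    rfl

end Pool.Agent.RCB
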