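import Mathlib
import Pool.Agent.RCB.St4
import Pool.Agent.RCB.TRM
import Pool.Agent.RCB.AIN
import Pool.Agent.DPX.NRMX

/-!
# RCB_ZCA: the blocks of the centralizer of `P₁`
-/

namespace Pool.Agent.RCB

open Pool.Agent.DP Pool.Agent.DPV Pool.Agent.DPB Pool.Agent.DPW Pool.Agent.DPX
open Pool.Agent.Lib_helper13 Representation

namespace ZCA

/-- The reduced central function with respect to the centralizer vanishes outside of it. -/
theorem cgT_out {G : Type} [Group G] [Fintype G] (𝔐 : Ideal (integralClosure ℤ ℂ))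
    (T : Subgroup G) (f : G → ℂ) (hf : ∀ g, g ∉ T → f g = 0) {g : G} (hg : g ∉ T) :
    cgT 𝔐 T f g = red 𝔐 0 := by
  have h : ∀ x, cjT T x g * f x = 0 := by
    intro x
    by_cases hx : x ∈ T
    · have : ¬ ∃ t ∈ T, x = t * g * t⁻¹ := by
        rintro ⟨t, ht, rfl⟩
        apply hg
        have h1 : g = t⁻¹ * (t * g * t⁻¹) * t := by group
        rw [h1]
        exact T.mul_mem (T.mul_mem (T.inv_mem ht) hx) ht
      rw [cjT, if_neg this, zero_mul]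
    · rw [hf x hx, mul_zero]
  rw [cgT]
  congr 1
  rw [Finset.sum_eq_zero (fun x _ => h x), zero_div]

/-- The indicator of the conjugacy under an isomorphism. -/
theorem conjInd_equiv {T T' : Type} [Group T] [Group T'] (e : T ≃* T') (y s : T) :
    conjInd (e y) (e s) = conjInd y s := by
  have key : IsConj (e y) (e s) ↔ IsConj y s := by
    rw [isConj_iff, isConj_iff]
    constructor
    · rintro ⟨c, hc⟩
      refine ⟨e.symm c, e.injective ?_⟩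
      rw [map_mul, map_mul, map_inv, e.apply_symm_apply, hc]
    · rintro ⟨c, hc⟩
      exact ⟨e c, by rw [← map_mul, ← map_inv, ← map_mul, hc]⟩
  by_cases h : IsConj y s
  · rw [conjInd_of h, conjInd_of (key.2 h)]
  · rw [conjInd_of_not h, conjInd_of_not fun h' => h (key.1 h')]

/-- The central function under an isomorphism. -/
theorem cen_equiv {T T' : Type} [Group T] [Fintype T] [Group T'] [Fintype T']
    (𝔐 : Ideal (integralClosure ℤ ℂ)) (e : T ≃* T') (f : T' → ℂ) (c : T) :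
    cen 𝔐 (MonoidHom.id T') f (e c) = cen 𝔐 (MonoidHom.id T) (fun t => f (e t)) c := by
  rw [cen, cen, wt, wt]
  congr 2
  · symm
    refine Fintype.sum_equiv e.toEquiv _ _ fun y => ?_
    show conjInd y c * f (e y) = conjInd (e y) (e c) * f (e y)
    rw [conjInd_equiv]
  · show f 1 = f (e 1)
    rw [map_one]

/-- Orders of centralizers under an isomorphism. -/
theorem card_centralizer_equiv {T T' : Type} [Group T] [Group T'] (e : T ≃* T') (c : T) :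
    Nat.card (Subgroup.centralizer ({e c} : Set T')) =
      Nat.card (Subgroup.centralizer ({c} : Set T)) := by
  symm
  refine Nat.card_congr (e.toEquiv.subtypeEquiv fun y => ?_)
  show y ∈ Subgroup.centralizer ({c} : Set T) ↔ e y ∈ Subgroup.centralizer ({e c} : Set T')
  rw [Subgroup.mem_centralizer_singleton_iff, Subgroup.mem_centralizer_singleton_iff,
    ← map_mul, ← map_mul, e.injective.eq_iff]

end ZCA

open ZCA in
theorem ZCA_thm (h1 : Stmt_TRM) (h2 : Stmt_ATNX) (h3 : Stmt_ATCX) (h4 : Stmt_ORBX) :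
    Stmt_ZCA := by
  classical
  intro G _ _ 𝔐 ℓ n _ hM hl ω P₁ P x hat ⟨θ, hθ, hω⟩ φ hφ
  subst hω
  let _ : Fintype (NP P₁) := Fintype.ofFinite _
  obtain ⟨C, hC⟩ : ∃ C : Subgroup (NP P₁), C = Subgroup.centralizer
      ((P₁.subgroupOf (Subgroup.normalizer (P₁ : Set G)) : Subgroup (NP P₁)) :
        Set (NP P₁)) := ⟨_, rfl⟩
  have hCn : C.Normal := by
    rw [hC]
    infer_instance
  have hPN : (P₁.subgroupOf (Subgroup.normalizer (P₁ : Set G))).Normal := inferInstance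
  have hPle : P₁ ≤ Subgroup.normalizer (P₁ : Set G) := Subgroup.le_normalizer
  have hPNc : Nat.card (P₁.subgroupOf (Subgroup.normalizer (P₁ : Set G))) = ℓ := by
    rw [NRMX.card_subgroupOf hPle, hat.cd.c1]
  have hm := TRM.mem_C hC
  obtain ⟨z, z', t1, t2, t3, t4, t5, t6, t7, t8, t9, t10, t11, t12, t13, t14⟩ :=
    h1 G 𝔐 P₁ C hC
  -- multiplicities
  have hmu : ∀ (ψ : NP P₁ → ℂ) (φ : C → ℂ),
      mu (Subgroup.centralizer (P₁ : Set G)) (z' ψ) (z φ) = ip (fun c : C => ψ c) φ := by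
    intro ψ φ
    rw [t11]
    congr 1
    funext c
    exact t3 ψ c
  have hyl : ∀ f : G → ℂ, f ∈ YL 𝔐 P₁ (cen 𝔐 (MonoidHom.id G) θ) ↔
      ∃ ψ : NP P₁ → ℂ, (IsIrr ψ ∧ cen 𝔐 (Subgroup.normalizer (P₁ : Set G)).subtype ψ =
        cen 𝔐 (MonoidHom.id G) θ) ∧ f = z' ψ := by
    intro f
    constructor
    · rintro ⟨hf, hcf⟩
      obtain ⟨ψ, hψ, rfl⟩ := (t8 f).1 hf
      refine ⟨ψ, ⟨hψ, ?_⟩, rfl⟩
      funext g
      rw [← t12]
      exact hcf g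
    · rintro ⟨ψ, ⟨hψ, hc⟩, rfl⟩
      refine ⟨(t8 _).2 ⟨ψ, hψ, rfl⟩, fun g => ?_⟩
      rw [t12, hc]
  obtain ⟨hφi, ψf, hψf, hne⟩ := hφ
  obtain ⟨φ₀, hφ₀, rfl⟩ := (t7 φ).1 hφi
  obtain ⟨ψ₀, ⟨hψ₀, hcψ₀⟩, rfl⟩ := (hyl ψf).1 hψf
  rw [hmu] at hne
  have hCf : Cf 𝔐 ℓ n θ P₁ P x C ψ₀ φ₀ := ⟨hθ, hat, hC, hψ₀, hφ₀, hcψ₀, hne⟩
  obtain ⟨P', x', hA⟩ := AIN.atC h2 h3 hM hl hCf
  obtain ⟨-, hN⟩ := h2 G 𝔐 ℓ n hM hl θ hθ P₁ P x hat (AIN.mem_norm hat) ψ₀ hψ₀ hcψ₀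
  obtain ⟨hor, hor'⟩ := h4 (NP P₁) 𝔐 ℓ hM hl _ hPNc C hC ψ₀ hψ₀ φ₀ hφ₀ hne
  -- central functions
  have hcgT : ∀ (φ : C → ℂ) (t : Subgroup.centralizer (P₁ : Set G)),
      cgT 𝔐 (Subgroup.centralizer (P₁ : Set G)) (z φ) t =
        cen 𝔐 (MonoidHom.id C) φ ((TRM.eC hm).symm t) := by
    intro φ t
    exact t13 φ ((TRM.eC hm).symm t)
  have hcen : ∀ (φ : C → ℂ) (t : Subgroup.centralizer (P₁ : Set G)),
      cen 𝔐 (MonoidHom.id (Subgroup.centralizer (P₁ : Set G)))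
          (fun c : Subgroup.centralizer (P₁ : Set G) => z φ c) t =
        cgT 𝔐 (Subgroup.centralizer (P₁ : Set G)) (z φ) t := by
    intro φ t
    rw [hcgT]
    have e1 : (fun c : Subgroup.centralizer (P₁ : Set G) => z φ (c : G)) =
        fun c => φ ((TRM.eC hm).symm c) := by
      funext c
      exact t1 φ ((TRM.eC hm).symm c)
    rw [e1, ← cen_equiv 𝔐 (TRM.eC hm).symm φ t]
  -- conjugation
  have hconj : ∀ (φ : C → ℂ), IsIrr φ → ∀ (g : NP P₁),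
      (∀ y : G, cgT 𝔐 (Subgroup.centralizer (P₁ : Set G)) (z φ) ((g : G) * y * (g : G)⁻¹) =
        cgT 𝔐 (Subgroup.centralizer (P₁ : Set G)) (z φ₀) y) ↔
      cen 𝔐 (MonoidHom.id C) (fun c => φ (MulAut.conjNormal g c)) =
        cen 𝔐 (MonoidHom.id C) φ₀ := by
    intro φ hφ g
    obtain ⟨-, hcj⟩ := hor' φ g hφ
    have e2 : ∀ c : C, (((MulAut.conjNormal g c : C) : NP P₁) : G) =
        (g : G) * ((c : NP P₁) : G) * (g : G)⁻¹ := by
      intro c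
      rw [MulAut.conjNormal_apply]
      rfl
    constructor
    · intro h
      funext c
      rw [hcj, ← t13 φ (MulAut.conjNormal g c), e2, h, t13]
    · intro h y
      by_cases hy : y ∈ Subgroup.centralizer (P₁ : Set G)
      · have h5 := congrFun h ((TRM.eC hm).symm ⟨y, hy⟩)
        rw [hcj, ← t13 φ (MulAut.conjNormal g _), e2, ← t13] at h5
        exact h5
      · have hy' : (g : G) * y * (g : G)⁻¹ ∉ Subgroup.centralizer (P₁ : Set G) := by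
          intro hgs
          apply hy
          have h6 := hCn.conj_mem _ ((TRM.eC hm).symm ⟨_, hgs⟩).2 g⁻¹
          have h7 := (t6 _).1 h6
          have h8 : ((g⁻¹ * (((TRM.eC hm).symm ⟨_, hgs⟩ : C) : NP P₁) * g⁻¹⁻¹ : NP P₁) : G) =
              y := by
            show (g : G)⁻¹ * ((g : G) * y * (g : G)⁻¹) * (g : G)⁻¹⁻¹ = y
            group
          rw [h8] at h7
          exact h7
        rw [cgT_out 𝔐 _ (z φ) (t2 φ) hy', cgT_out 𝔐 _ (z φ₀) (t2 φ₀) hy]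
  refine ⟨?_, ⟨hφi.1, fun t => hcen φ₀ t, ?_⟩, ?_, ?_, ?_⟩
  · intro t ht
    rw [hcgT] at ht
    have h5 := hA.mn _ ht
    rwa [card_centralizer_equiv] at h5
  · intro g hg
    rw [cgT_out 𝔐 _ (z φ₀) (t2 φ₀) hg]
    exact red_zero 𝔐
  · intro u hu
    rw [Subgroup.mem_centralizer_iff]
    intro v hv
    have hcyc : IsCyclic P₁ := isCyclic_of_prime_card hat.cd.c1
    have hcomm := hcyc.isMulCommutative.is_comm.comm (⟨v, hv⟩ : P₁) ⟨u, hu⟩
    exact congrArg Subtype.val hcomm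
  · intro φf hφf
    obtain ⟨φ₁, hφ₁, rfl⟩ := (t7 φf).1 hφf
    constructor
    · rintro ⟨-, ψf, hψf', hne'⟩
      obtain ⟨ψ₁, ⟨hψ₁, hcψ₁⟩, rfl⟩ := (hyl ψf).1 hψf'
      rw [hmu] at hne'
      obtain ⟨g, hg⟩ := (hor ψ₁ φ₁ hψ₁ hφ₁ hne').1 ((hN ψ₁ hψ₁).2 hcψ₁)
      exact ⟨(g : G), (t5 _).2 g.2, (hconj φ₁ hφ₁ g).2 hg⟩
    · rintro ⟨s, hs, hcj⟩
      obtain ⟨ψ₁, hψ₁, hip⟩ := NRMX.exists_over (N := NP P₁) hφ₁
      refine ⟨hφf, z' ψ₁, (hyl _).2 ⟨ψ₁, ⟨hψ₁, ?_⟩, rfl⟩, ?_⟩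
      · exact (hN ψ₁ hψ₁).1 ((hor ψ₁ φ₁ hψ₁ hφ₁ hip).2
          ⟨⟨s, (t5 s).1 hs⟩, (hconj φ₁ hφ₁ ⟨s, (t5 s).1 hs⟩).1 hcj⟩)
      · rw [hmu]
        exact hip
  · intro ψf hψf' hne'
    obtain ⟨ψ₁, hψ₁, rfl⟩ := (t8 ψf).1 hψf'
    rw [hmu] at hne'
    refine (hyl _).2 ⟨ψ₁, ⟨hψ₁, (hN ψ₁ hψ₁).1 ((hor ψ₁ φ₀ hψ₁ hφ₀ hne').2 ⟨1, ?_⟩)⟩, rfl⟩
    congr 1
    funext c
    rw [map_one, MulAut.one_apply]

end Pool.Agent.RCB
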