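import Mathlib
import Pool.Agent.RCB.FPS
import Pool.Agent.RCB.RLN
import Pool.Agent.RCB.SYQ
import Pool.Agent.RCB.BSA
import Pool.Agent.RCB.BSB
import Pool.Agent.RCB.WFX
import Pool.Agent.RCB.BSC
import Pool.Agent.RCB.INY
import Pool.Agent.RCB.SUV
import Pool.Agent.RCB.BSD
import Pool.Agent.RCB.NZX
import Pool.Agent.RCB.DTL
import Pool.Agent.RCB.ZCA
import Pool.Agent.RCB.WST
import Pool.Agent.RCB.XTH
import Pool.Agent.RCB.CPA
import Pool.Agent.RCB.CPC
import Pool.Agent.RCB.CPN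
import Pool.Agent.RCB.CPM
import Pool.Agent.RCB.TRV
import Pool.Agent.RCB.C4A
import Pool.Agent.RCB.RZC
import Pool.Agent.RCB.MZC
import Pool.Agent.RCB.SZC
import Pool.Agent.RCB.VAL
import Pool.Agent.RCB.FLX
import Pool.Agent.RCB.MLX
import Pool.Agent.RCB.SEL
import Pool.Agent.RCB.CLA
import Pool.Agent.RCB.C4B

/-!
# Theorem P1: part C4 of PAPER.md, assembly
-/

namespace Pool.Agent.RCB

open Pool.Agent.DP Pool.Agent.DPV Pool.Agent.DPB Pool.Agent.DPW Pool.Agent.DPX

/-- The statement `C4F` from the statements of the library and of the blocks 2 and 3. -/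
theorem C4F_all (idx : Stmt_IDX) (osix : Stmt_OSIX) (idox : Stmt_IDOX) (valx : Stmt_VALX)
    (locx : Stmt_LOCX) (hgtx : Stmt_HGTX) (atnx : Stmt_ATNX) (atcx : Stmt_ATCX)
    (orbx : Stmt_ORBX) (dxmx : Stmt_DXMX) (supx : Stmt_SUPX) (gdx : Stmt_GDX)
    (gcx : Stmt_GCX) (mt2x : Stmt_MT2X) (trm : Stmt_TRM) (eqv : Stmt_EQV) (ain : Stmt_AIN)
    (fse : Stmt_FSE) (fsu : Stmt_FSU) (fsx : Stmt_FSX) (fsp : Stmt_FSP) : Stmt_C4F := by
  have fps := FPS_thm
  have rln := RLN_thm
  have syq := SYQ_thm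
  have bsa := BSA_thm idx
  have bsb := BSB_thm idx osix idox valx
  have wfx := WFX_thm fps syq
  have bsc := BSC_thm bsa wfx
  have iny := INY_thm locx
  have suv := SUV_thm fps
  have bsd := BSD_thm idx bsa iny suv
  have nzx := NZX_thm hgtx atnx trm
  have dtl := DTL_thm bsc bsb bsd dxmx syq
  have zca := ZCA_thm trm atnx atcx orbx
  have wst := WST_thm eqv zca
  have xth := XTH_thm supx gdx gcx wfx wst rln zca
  have cpa := CPA_thm dtl xth wst syq
  have cpc := CPC_thm wst rln zca bsc syq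
  have cpn := CPN_thm cpa cpc wst rln zca bsa bsd
  have cpm := CPM_thm
  have trv := TRV_thm fsp fsx
  have c4a := C4A_thm cpn cpm trv nzx
  have rzc := RZC_thm zca
  have mzc := MZC_thm
  have szc := SZC_thm zca trm ain
  have val := VAL_thm mt2x rzc mzc szc trm
  have flx := FLX_thm
  have mlx := MLX_thm flx fsp
  have cla := CLA_thm fse fsu fsx
  have c4b := C4B_thm dtl rln nzx val flx mlx cla fps SEL_thm
  exact C4F_thm c4a c4b

end Pool.Agent.RCB
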