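import Mathlib
import Pool.Agent.RCB.St2
import Pool.Agent.DP.CLIFF

/-!
# RCB_BJA: the bijection in the general case
-/

namespace Pool.Agent.RCB

open Pool.Agent.DP Pool.Agent.DPV Pool.Agent.DPB Pool.Agent.DPW Pool.Agent.DPX
open Pool.Agent.Lib_helper13 Representation

namespace BJA

/-- A map of `ℓ`-power order on a set with less than `ℓ` elements is trivial. -/
theorem triv {α : Type} {ℓ : ℕ} (hl : ℓ.Prime) {S : Set α} (hS : S.Finite) (hc : S.ncard < ℓ)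
    {f : α → α} (hm : Set.MapsTo f S S) {k : ℕ} (hp : ∀ x ∈ S, f^[ℓ ^ k] x = x) {x : α}
    (hx : x ∈ S) : f x = x := by
  have h1 : Function.minimalPeriod f x ∣ ℓ ^ k :=
    Function.IsPeriodicPt.minimalPeriod_dvd (hp x hx)
  obtain ⟨j, _, hj⟩ := (Nat.dvd_prime_pow hl).mp h1
  have h2 : Function.minimalPeriod f x ≤ S.ncard := by
    have h3 : (Set.Iio (Function.minimalPeriod f x)).ncard ≤ S.ncard := by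
      refine Set.ncard_le_ncard_of_injOn (fun i => f^[i] x) (fun i _ => ?_)
        (Function.iterate_injOn_Iio_minimalPeriod) hS
      exact hm.iterate i hx
    have h4 : (Set.Iio (Function.minimalPeriod f x)).ncard = Function.minimalPeriod f x := by
      rw [Set.ncard_eq_toFinset_card', Set.toFinset_Iio, Nat.card_Iio]
    rwa [h4] at h3
  have h5 : j = 0 := by
    by_contra h0
    have h6 : ℓ ≤ ℓ ^ j := Nat.le_self_pow h0 ℓ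
    omega
  rw [h5, pow_zero] at hj
  exact Function.minimalPeriod_eq_one_iff_isFixedPt.mp hj

/-- An element is the product of powers of order prime to `ℓ` and of `ℓ`-power order. -/
theorem dec {C : Type} [Group C] [Finite C] {ℓ : ℕ} (hl : ℓ.Prime) (c : C) :
    ∃ c1 c2 : C, c = c1 * c2 ∧ (∃ i : ℤ, c1 = c ^ i) ∧ (∃ k : ℕ, c2 ^ (ℓ ^ k) = 1) ∧
      ¬ ℓ ∣ orderOf c1 := by
  have h0 : orderOf c ≠ 0 := (orderOf_pos c).ne'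
  obtain ⟨k, m, hm, hkm⟩ := Nat.exists_eq_pow_mul_and_not_dvd h0 ℓ hl.ne_one
  have hco : Nat.Coprime (ℓ ^ k) m := Nat.Coprime.pow_left k ((hl.coprime_iff_not_dvd).mpr hm)
  have hb := Nat.gcd_eq_gcd_ab (ℓ ^ k) m
  rw [hco.gcd_eq_one] at hb
  set u := Nat.gcdA (ℓ ^ k) m with hu
  set v := Nat.gcdB (ℓ ^ k) m with hv
  refine ⟨c ^ (((ℓ ^ k : ℕ) : ℤ) * u), c ^ ((m : ℤ) * v), ?_, ⟨_, rfl⟩, ⟨k, ?_⟩, ?_⟩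
  · rw [← zpow_add, ← hb]
    simp
  · rw [← zpow_natCast, ← zpow_mul]
    have h1 : (m : ℤ) * v * ((ℓ ^ k : ℕ) : ℤ) = ((orderOf c : ℕ) : ℤ) * v := by
      rw [hkm]
      push_cast
      ring
    rw [h1, zpow_mul, zpow_natCast, pow_orderOf_eq_one, one_zpow]
  · intro hd
    have h1 : orderOf (c ^ (((ℓ ^ k : ℕ) : ℤ) * u)) ∣ m := by
      apply orderOf_dvd_of_pow_eq_one
      rw [← zpow_natCast, ← zpow_mul]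
      have h2 : ((ℓ ^ k : ℕ) : ℤ) * u * (m : ℤ) = ((orderOf c : ℕ) : ℤ) * u := by
        rw [hkm]
        push_cast
        ring
      rw [h2, zpow_mul, zpow_natCast, pow_orderOf_eq_one, one_zpow]
    exact hm (hd.trans h1)

/-- Two subgroups which contain the elements of `ℓ`-power order are equal if they contain the
same elements of order prime to `ℓ`. -/
theorem sub_eq {C : Type} [Group C] [Finite C] {ℓ : ℕ} (hl : ℓ.Prime) {H K : Subgroup C}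
    (hH : ∀ c : C, ∀ k : ℕ, c ^ (ℓ ^ k) = 1 → c ∈ H)
    (hK : ∀ c : C, ∀ k : ℕ, c ^ (ℓ ^ k) = 1 → c ∈ K)
    (h : ∀ c : C, ¬ ℓ ∣ orderOf c → (c ∈ H ↔ c ∈ K)) : H = K := by
  ext c
  obtain ⟨c1, c2, h1, ⟨i, h2⟩, ⟨k, h3⟩, h4⟩ := dec hl c
  constructor
  · intro hc
    have h5 : c1 ∈ H := by rw [h2]; exact H.zpow_mem hc i
    rw [h1]
    exact K.mul_mem ((h c1 h4).mp h5) (hK c2 k h3)
  · intro hc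
    have h5 : c1 ∈ K := by rw [h2]; exact K.zpow_mem hc i
    rw [h1]
    exact H.mul_mem ((h c1 h4).mpr h5) (hH c2 k h3)

/-- The combinatorial part. -/
theorem glue {α C : Type} [Group C] [Finite C] {ℓ : ℕ} (hl : ℓ.Prime) {X Y : Set α}
    (hX : X.Finite) (hY : Y.Finite) (cx cy : α → Subgroup C) (M : α → α → Prop)
    (Sp : α → Prop) (hex : ∀ χ ∈ X, ∃ ψ ∈ Y, M χ ψ)
    (hux : ∀ ψ ∈ Y, ¬ Sp ψ → ∃! χ, χ ∈ X ∧ M χ ψ)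
    (huy : ∀ χ ∈ X, ∀ ψ ∈ Y, ∀ ψ' ∈ Y, M χ ψ → M χ ψ' → ¬ Sp ψ → ψ' = ψ)
    (hst : ∀ χ ∈ X, ∀ ψ ∈ Y, M χ ψ → ¬ Sp ψ → cx χ = cy ψ)
    (hcard : {χ | χ ∈ X ∧ ∃ ψ ∈ Y, Sp ψ ∧ M χ ψ}.ncard = {ψ | ψ ∈ Y ∧ Sp ψ}.ncard)
    (hΓ : ∀ ψ ∈ Y, ∀ ψ' ∈ Y, Sp ψ → Sp ψ' → cy ψ = cy ψ')
    (hpx : ∀ c : C, ∀ k : ℕ, c ^ (ℓ ^ k) = 1 → ∀ χ ∈ X, (∃ ψ ∈ Y, Sp ψ ∧ M χ ψ) → c ∈ cx χ)
    (hpy : ∀ c : C, ∀ k : ℕ, c ^ (ℓ ^ k) = 1 → ∀ ψ ∈ Y, Sp ψ → c ∈ cy ψ)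
    (hfil : ∀ c : C, ¬ ℓ ∣ orderOf c →
      {χ | χ ∈ X ∧ c ∈ cx χ}.ncard = {ψ | ψ ∈ Y ∧ c ∈ cy ψ}.ncard) :
    ∃ Φ : α → α, Set.BijOn Φ X Y ∧ ∀ χ ∈ X, cx χ = cy (Φ χ) ∧ (Sp (Φ χ) ∨ M χ (Φ χ)) := by
  classical
  set X₀ : Set α := {χ | χ ∈ X ∧ ∃ ψ ∈ Y, Sp ψ ∧ M χ ψ} with hX₀
  set Y₀ : Set α := {ψ | ψ ∈ Y ∧ Sp ψ} with hY₀
  have hX₀f : X₀.Finite := hX.subset fun χ h => h.1
  have hY₀f : Y₀.Finite := hY.subset fun χ h => h.1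
  choose! F hFY hFM using hex
  have hFn : ∀ χ ∈ X \ X₀, ¬ Sp (F χ) := fun χ hχ hs =>
    hχ.2 ⟨hχ.1, F χ, hFY χ hχ.1, hs, hFM χ hχ.1⟩
  have hF : Set.BijOn F (X \ X₀) (Y \ Y₀) := by
    refine ⟨fun χ hχ => ⟨hFY χ hχ.1, fun h => hFn χ hχ h.2⟩, ?_, ?_⟩
    · intro χ hχ χ' hχ' he
      obtain ⟨χ₁, _, h2⟩ := hux (F χ) (hFY χ hχ.1) (hFn χ hχ)
      rw [h2 χ ⟨hχ.1, hFM χ hχ.1⟩, h2 χ' ⟨hχ'.1, by rw [he]; exact hFM χ' hχ'.1⟩]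
    · intro ψ hψ
      have hns : ¬ Sp ψ := fun h => hψ.2 ⟨hψ.1, h⟩
      obtain ⟨χ, ⟨h1, h2⟩, _⟩ := hux ψ hψ.1 hns
      refine ⟨χ, ⟨h1, ?_⟩, huy χ h1 ψ hψ.1 (F χ) (hFY χ h1) h2 (hFM χ h1) hns⟩
      rintro ⟨_, ψ', h3, h4, h5⟩
      exact hns (by rwa [← huy χ h1 ψ hψ.1 ψ' h3 h2 h5 hns])
  have hFst : ∀ χ ∈ X \ X₀, cx χ = cy (F χ) := fun χ hχ =>
    hst χ hχ.1 (F χ) (hFY χ hχ.1) (hFM χ hχ.1) (hFn χ hχ)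
  -- the numbers of fixed points
  have hfix : ∀ c : C, ¬ ℓ ∣ orderOf c →
      {χ | χ ∈ X₀ ∧ c ∈ cx χ}.ncard = {ψ | ψ ∈ Y₀ ∧ c ∈ cy ψ}.ncard := by
    intro c hc
    have h1 := hfil c hc
    have h2 : {χ | χ ∈ X ∧ c ∈ cx χ} = {χ | χ ∈ X₀ ∧ c ∈ cx χ} ∪
        {χ | χ ∈ X \ X₀ ∧ c ∈ cx χ} := by
      ext χ
      constructor
      · rintro ⟨h3, h4⟩
        by_cases h5 : χ ∈ X₀
        · exact Or.inl ⟨h5, h4⟩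
        · exact Or.inr ⟨⟨h3, h5⟩, h4⟩
      · rintro (⟨h3, h4⟩ | ⟨h3, h4⟩)
        · exact ⟨h3.1, h4⟩
        · exact ⟨h3.1, h4⟩
    have h3 : {ψ | ψ ∈ Y ∧ c ∈ cy ψ} = {ψ | ψ ∈ Y₀ ∧ c ∈ cy ψ} ∪
        {ψ | ψ ∈ Y \ Y₀ ∧ c ∈ cy ψ} := by
      ext χ
      constructor
      · rintro ⟨h3, h4⟩
        by_cases h5 : χ ∈ Y₀
        · exact Or.inl ⟨h5, h4⟩
        · exact Or.inr ⟨⟨h3, h5⟩, h4⟩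
      · rintro (⟨h3, h4⟩ | ⟨h3, h4⟩)
        · exact ⟨h3.1, h4⟩
        · exact ⟨h3.1, h4⟩
    have h4 : {χ | χ ∈ X \ X₀ ∧ c ∈ cx χ}.ncard = {ψ | ψ ∈ Y \ Y₀ ∧ c ∈ cy ψ}.ncard := by
      have h5 : F '' {χ | χ ∈ X \ X₀ ∧ c ∈ cx χ} = {ψ | ψ ∈ Y \ Y₀ ∧ c ∈ cy ψ} := by
        ext ψ
        constructor
        · rintro ⟨χ, ⟨h6, h7⟩, rfl⟩
          exact ⟨hF.mapsTo h6, by rwa [← hFst χ h6]⟩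
        · rintro ⟨h6, h7⟩
          obtain ⟨χ, h8, rfl⟩ := hF.surjOn h6
          exact ⟨χ, ⟨h8, by rwa [hFst χ h8]⟩, rfl⟩
      rw [← h5]
      exact (Set.InjOn.ncard_image (hF.injOn.mono fun χ h => h.1)).symm
    have hd1 : Disjoint {χ | χ ∈ X₀ ∧ c ∈ cx χ} {χ | χ ∈ X \ X₀ ∧ c ∈ cx χ} := by
      rw [Set.disjoint_left]
      rintro χ ⟨h5, _⟩ ⟨h6, _⟩
      exact h6.2 h5
    have hd2 : Disjoint {ψ | ψ ∈ Y₀ ∧ c ∈ cy ψ} {ψ | ψ ∈ Y \ Y₀ ∧ c ∈ cy ψ} := by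
      rw [Set.disjoint_left]
      rintro χ ⟨h5, _⟩ ⟨h6, _⟩
      exact h6.2 h5
    have h5 := Set.ncard_union_eq hd1 (hX₀f.subset fun χ h => h.1)
      (hX.subset fun χ h => h.1.1)
    have h6 := Set.ncard_union_eq hd2 (hY₀f.subset fun χ h => h.1)
      (hY.subset fun χ h => h.1.1)
    rw [h2, h3, h5, h6, h4] at h1
    exact Nat.add_right_cancel h1
  -- the stabilizers on `X₀`
  have hst₀ : ∀ χ ∈ X₀, ∀ ψ ∈ Y₀, cx χ = cy ψ := by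
    intro χ hχ ψ hψ
    refine sub_eq hl (fun c k hc => hpx c k hc χ hχ.1 hχ.2)
      (fun c k hc => hpy c k hc ψ hψ.1 hψ.2) fun c hc => ?_
    have h1 := hfix c hc
    by_cases h2 : c ∈ cy ψ
    · have h3 : {ψ | ψ ∈ Y₀ ∧ c ∈ cy ψ} = Y₀ := by
        ext ψ'
        refine ⟨fun h => h.1, fun h => ⟨h, ?_⟩⟩
        rwa [hΓ ψ' h.1 ψ hψ.1 h.2 hψ.2]
      rw [h3, ← hcard] at h1
      have h4 : {χ | χ ∈ X₀ ∧ c ∈ cx χ} = X₀ :=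
        Set.eq_of_subset_of_ncard_le (fun χ h => h.1) h1.ge hX₀f
      have h5 : χ ∈ {χ | χ ∈ X₀ ∧ c ∈ cx χ} := by rw [h4]; exact hχ
      exact ⟨fun _ => h2, fun _ => h5.2⟩
    · have h3 : {ψ | ψ ∈ Y₀ ∧ c ∈ cy ψ} = ∅ := by
        ext ψ'
        refine ⟨fun h => ?_, fun h => absurd h (Set.notMem_empty _)⟩
        exact (h2 (by rw [← hΓ ψ' h.1.1 ψ hψ.1 h.1.2 hψ.2]; exact h.2)).elim
      rw [h3, Set.ncard_empty, Set.ncard_eq_zero (hX₀f.subset fun χ h => h.1)] at h1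
      refine ⟨fun h => ?_, fun h => (h2 h).elim⟩
      have h5 : χ ∈ {χ | χ ∈ X₀ ∧ c ∈ cx χ} := ⟨hχ, h⟩
      rw [h1] at h5
      exact absurd h5 (Set.notMem_empty _)
  -- the bijection on `X₀`
  obtain ⟨F₀, hF₀⟩ : ∃ F₀ : α → α, Set.BijOn F₀ X₀ Y₀ := by
    rcases isEmpty_or_nonempty α with hα | hα
    · refine ⟨id, ?_⟩
      have h1 : X₀ = ∅ := Set.eq_empty_of_isEmpty _
      have h2 : Y₀ = ∅ := Set.eq_empty_of_isEmpty _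
      rw [h1, h2]
      exact Set.bijOn_empty _
    · apply hX₀f.exists_bijOn_of_encard_eq
      rw [← hX₀f.cast_ncard_eq, ← hY₀f.cast_ncard_eq, hcard]
  set Φ : α → α := fun χ => if χ ∈ X₀ then F₀ χ else F χ with hΦ
  have hΦ₀ : ∀ χ ∈ X₀, Φ χ = F₀ χ := fun χ h => by rw [hΦ]; exact if_pos h
  have hΦ₁ : ∀ χ ∈ X \ X₀, Φ χ = F χ := fun χ h => by rw [hΦ]; exact if_neg h.2
  refine ⟨Φ, ⟨?_, ?_, ?_⟩, ?_⟩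
  · intro χ hχ
    by_cases h : χ ∈ X₀
    · rw [hΦ₀ χ h]
      exact (hF₀.mapsTo h).1
    · rw [hΦ₁ χ ⟨hχ, h⟩]
      exact (hF.mapsTo ⟨hχ, h⟩).1
  · intro χ hχ χ' hχ' he
    by_cases h : χ ∈ X₀
    · by_cases h' : χ' ∈ X₀
      · rw [hΦ₀ χ h, hΦ₀ χ' h'] at he
        exact hF₀.injOn h h' he
      · rw [hΦ₀ χ h, hΦ₁ χ' ⟨hχ', h'⟩] at he
        have h1 := hF₀.mapsTo h
        rw [he] at h1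
        exact ((hF.mapsTo ⟨hχ', h'⟩).2 h1).elim
    · by_cases h' : χ' ∈ X₀
      · rw [hΦ₁ χ ⟨hχ, h⟩, hΦ₀ χ' h'] at he
        have h1 := hF₀.mapsTo h'
        rw [← he] at h1
        exact ((hF.mapsTo ⟨hχ, h⟩).2 h1).elim
      · rw [hΦ₁ χ ⟨hχ, h⟩, hΦ₁ χ' ⟨hχ', h'⟩] at he
        exact hF.injOn ⟨hχ, h⟩ ⟨hχ', h'⟩ he
  · intro ψ hψ
    by_cases h : ψ ∈ Y₀
    · obtain ⟨χ, h1, h2⟩ := hF₀.surjOn h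
      exact ⟨χ, h1.1, by rw [hΦ₀ χ h1]; exact h2⟩
    · obtain ⟨χ, h1, h2⟩ := hF.surjOn ⟨hψ, h⟩
      exact ⟨χ, h1.1, by rw [hΦ₁ χ h1]; exact h2⟩
  · intro χ hχ
    by_cases h : χ ∈ X₀
    · rw [hΦ₀ χ h]
      exact ⟨hst₀ χ h _ (hF₀.mapsTo h), Or.inl (hF₀.mapsTo h).2⟩
    · rw [hΦ₁ χ ⟨hχ, h⟩]
      exact ⟨hFst χ ⟨hχ, h⟩, Or.inr (hFM χ hχ)⟩

/-- The iterates of the composition with an automorphism. -/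
theorem iter {G B : Type} [Group G] [Group B] (κ : B →* MulAut G) (b : B) (m : ℕ) (χ : G → ℂ) :
    (fun (f : G → ℂ) (g : G) => f (κ b g))^[m] χ = fun g => χ (κ (b ^ m) g) := by
  induction m with
  | zero =>
    funext g
    rw [Function.iterate_zero, id, pow_zero, map_one, MulAut.one_apply]
  | succ m ih =>
    rw [Function.iterate_succ_apply', ih]
    funext g
    change χ (κ (b ^ m) (κ b g)) = χ (κ (b ^ (m + 1)) g)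
    rw [pow_succ, map_mul, MulAut.mul_apply]

theorem fin_on {G : Type} [Group G] [Fintype G] (S : Subgroup G) (X : Set (G → ℂ))
    (h : ∀ f ∈ X, IrrOn S f) : X.Finite := by
  classical
  refine (Finset.finite_toSet (irrOn S)).subset fun f hf => ?_
  exact CLIFF.mem_irrOn.mpr (h f hf)

end BJA

open BJA in
theorem BJA_thm (h0 : Stmt_EQV) (h1 : Stmt_FIL) (h2 : Stmt_LSP) : Stmt_BJA := by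
  intro G B C _ _ _ _ _ 𝔐 ℓ n _ hmax hℓ ι κ ρ hL ω P₁ P x₀ hS hM
  have hl : ℓ.Prime := Fact.out
  have : Finite C := Finite.of_surjective ρ hL.surj
  obtain ⟨e1, e2, e3, _, _, e6, e7⟩ := h0 G B C 𝔐 ℓ n hmax hℓ ι κ ρ hL ω P₁ P x₀ hS
  obtain ⟨l1, l2, l3, _, l5⟩ := h2 G B C 𝔐 ℓ n hmax hℓ ι κ ρ hL ω P₁ P x₀ hS
  have hfil := h1 G B C 𝔐 ℓ n hmax hℓ ι κ ρ hL ω P₁ P x₀ hS.at'
  have hXf : (XS 𝔐 ω).Finite := fin_on (stb ∅) _ fun f hf => hf.1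
  have hYf : (YL 𝔐 P₁ ω).Finite := fin_on (stb {P₁}) _ fun f hf => hf.1
  -- the relation depends only on the constituents
  have hMS : ∀ χ ψ ψ', Mtc 𝔐 P₁ ω χ ψ → SupEq 𝔐 P₁ ω ψ ψ' → Mtc 𝔐 P₁ ω χ ψ' := by
    rintro χ ψ ψ' ⟨a, b, hb, h3⟩ h4
    refine ⟨a, b, hb, fun φ hφ => ?_⟩
    rw [h3 φ hφ]
    by_cases h5 : mu (Subgroup.centralizer (P₁ : Set G)) ψ φ ≠ 0
    · rw [if_pos h5, if_pos ((h4 φ hφ).mp h5)]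
    · rw [if_neg h5, if_neg (fun h => h5 ((h4 φ hφ).mpr h))]
  have hrefl : ∀ ψ, SupEq 𝔐 P₁ ω ψ ψ := fun ψ φ _ => Iff.rfl
  have hsymm : ∀ ψ ψ', SupEq 𝔐 P₁ ω ψ ψ' → SupEq 𝔐 P₁ ω ψ' ψ :=
    fun ψ ψ' h φ hφ => (h φ hφ).symm
  -- composition is injective
  have hinj : ∀ (b : B) (f f' : G → ℂ), (fun g => f (κ b g)) = (fun g => f' (κ b g)) →
      f = f' := by
    intro b f f' h
    funext g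
    obtain ⟨g', rfl⟩ := (κ b).surjective g
    exact congrFun h g'
  -- the nonspecial characters
  have hux : ∀ ψ ∈ YL 𝔐 P₁ ω, ¬ Spc 𝔐 P₁ ω ψ → ∃! χ, χ ∈ XS 𝔐 ω ∧ Mtc 𝔐 P₁ ω χ ψ := by
    intro ψ hψ hns
    have h3 := hM.cnt ψ hψ
    have h4 : Nat.card {ψ' : G → ℂ // ψ' ∈ YL 𝔐 P₁ ω ∧ SupEq 𝔐 P₁ ω ψ ψ'} = 1 := by
      rw [Nat.card_eq_one_iff_unique]
      refine ⟨⟨fun a b => ?_⟩, ⟨⟨ψ, hψ, hrefl ψ⟩⟩⟩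
      have h5 : ∀ a : {ψ' : G → ℂ // ψ' ∈ YL 𝔐 P₁ ω ∧ SupEq 𝔐 P₁ ω ψ ψ'}, (a : G → ℂ) = ψ := by
        intro a
        by_contra hne
        exact hns ⟨a, a.2.1, hne, a.2.2⟩
      exact Subtype.ext ((h5 a).trans (h5 b).symm)
    rw [h4, Nat.card_eq_one_iff_unique] at h3
    obtain ⟨h5, ⟨χ, hχ⟩⟩ := h3
    exact ⟨χ, hχ, fun χ' hχ' => congrArg Subtype.val (h5.elim ⟨χ', hχ'⟩ ⟨χ, hχ⟩)⟩
  have huy : ∀ χ ∈ XS 𝔐 ω, ∀ ψ ∈ YL 𝔐 P₁ ω, ∀ ψ' ∈ YL 𝔐 P₁ ω, Mtc 𝔐 P₁ ω χ ψ →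
      Mtc 𝔐 P₁ ω χ ψ' → ¬ Spc 𝔐 P₁ ω ψ → ψ' = ψ := by
    intro χ hχ ψ hψ ψ' hψ' h3 h4 hns
    by_contra hne
    exact hns ⟨ψ', hψ', hne, hM.uq χ hχ ψ hψ ψ' hψ' h3 h4⟩
  have hst : ∀ χ ∈ XS 𝔐 ω, ∀ ψ ∈ YL 𝔐 P₁ ω, Mtc 𝔐 P₁ ω χ ψ → ¬ Spc 𝔐 P₁ ω ψ →
      (Stx κ ∅ χ).map ρ = (Stx κ {P₁} ψ).map ρ := by
    intro χ hχ ψ hψ hm hns
    ext c
    obtain ⟨b, hb, rfl⟩ := e1 c
    rw [(e2 χ hχ b).2, (e3 ψ hψ b hb).2]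
    have h3 := e6 χ ψ b hb hm
    constructor
    · intro h4
      rw [h4] at h3
      exact huy χ hχ ψ hψ _ (e3 ψ hψ b hb).1 hm h3 hns
    · intro h4
      rw [h4] at h3
      exact (hux ψ hψ hns).unique ⟨(e2 χ hχ b).1, h3⟩ ⟨hχ, hm⟩
  -- the special characters
  have hcard : {χ | χ ∈ XS 𝔐 ω ∧ ∃ ψ ∈ YL 𝔐 P₁ ω, Spc 𝔐 P₁ ω ψ ∧ Mtc 𝔐 P₁ ω χ ψ}.ncard =
      {ψ | ψ ∈ YL 𝔐 P₁ ω ∧ Spc 𝔐 P₁ ω ψ}.ncard := by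
    by_cases hne : ∃ ψ₁ ∈ YL 𝔐 P₁ ω, Spc 𝔐 P₁ ω ψ₁
    · obtain ⟨ψ₁, h3, h4⟩ := hne
      have h5 : {χ | χ ∈ XS 𝔐 ω ∧ ∃ ψ ∈ YL 𝔐 P₁ ω, Spc 𝔐 P₁ ω ψ ∧ Mtc 𝔐 P₁ ω χ ψ} =
          {χ | χ ∈ XS 𝔐 ω ∧ Mtc 𝔐 P₁ ω χ ψ₁} := by
        ext χ
        constructor
        · rintro ⟨h6, ψ, h7, h8, h9⟩
          exact ⟨h6, hMS χ ψ ψ₁ h9 (l1 ψ h7 ψ₁ h3 h8 h4).1⟩
        · rintro ⟨h6, h7⟩
          exact ⟨h6, ψ₁, h3, h4, h7⟩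
      have h6 : {ψ | ψ ∈ YL 𝔐 P₁ ω ∧ Spc 𝔐 P₁ ω ψ} =
          {ψ | ψ ∈ YL 𝔐 P₁ ω ∧ SupEq 𝔐 P₁ ω ψ₁ ψ} := by
        ext ψ
        constructor
        · rintro ⟨h6, h7⟩
          exact ⟨h6, (l1 ψ₁ h3 ψ h6 h4 h7).1⟩
        · rintro ⟨h6, h7⟩
          exact ⟨h6, l5 ψ₁ h3 ψ h6 h7 h4⟩
      rw [h5, h6]
      exact hM.cnt ψ₁ h3
    · have h5 : {χ | χ ∈ XS 𝔐 ω ∧ ∃ ψ ∈ YL 𝔐 P₁ ω, Spc 𝔐 P₁ ω ψ ∧ Mtc 𝔐 P₁ ω χ ψ} = ∅ := by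
        ext χ
        refine ⟨?_, fun h => absurd h (Set.notMem_empty _)⟩
        rintro ⟨_, ψ, h7, h8, _⟩
        exact (hne ⟨ψ, h7, h8⟩).elim
      have h6 : {ψ | ψ ∈ YL 𝔐 P₁ ω ∧ Spc 𝔐 P₁ ω ψ} = ∅ := by
        ext ψ
        refine ⟨?_, fun h => absurd h (Set.notMem_empty _)⟩
        rintro ⟨h7, h8⟩
        exact (hne ⟨ψ, h7, h8⟩).elim
      rw [h5, h6]
  have hspc : ∀ b ∈ Stx κ {P₁} (fun _ => 0), ∀ ψ ∈ YL 𝔐 P₁ ω, Spc 𝔐 P₁ ω ψ →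
      Spc 𝔐 P₁ ω (fun g => ψ (κ b g)) := by
    rintro b hb ψ hψ ⟨ψ', h3, h4, h5⟩
    exact ⟨_, (e3 ψ' h3 b hb).1, fun h => h4 (hinj b _ _ h), e7 ψ ψ' b hb h5⟩
  have hY₀ : {ψ | ψ ∈ YL 𝔐 P₁ ω ∧ Spc 𝔐 P₁ ω ψ}.ncard < ℓ := l3
  -- elements of `ℓ`-power order
  have hpow : ∀ c : C, ∀ k : ℕ, c ^ (ℓ ^ k) = 1 → ∀ b : B, ρ b = c → ∀ (L : Subgroup C),
      ρ (b ^ (ℓ ^ k)) ∈ L := by
    intro c k hc b hb L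
    rw [map_pow, hb, hc]
    exact L.one_mem
  have hpx : ∀ c : C, ∀ k : ℕ, c ^ (ℓ ^ k) = 1 → ∀ χ ∈ XS 𝔐 ω,
      (∃ ψ ∈ YL 𝔐 P₁ ω, Spc 𝔐 P₁ ω ψ ∧ Mtc 𝔐 P₁ ω χ ψ) → c ∈ (Stx κ ∅ χ).map ρ := by
    intro c k hc χ hχ hχ₀
    obtain ⟨b, hb, hbc⟩ := e1 c
    rw [← hbc, (e2 χ hχ b).2]
    refine triv hl (S := {χ | χ ∈ XS 𝔐 ω ∧ ∃ ψ ∈ YL 𝔐 P₁ ω, Spc 𝔐 P₁ ω ψ ∧
      Mtc 𝔐 P₁ ω χ ψ}) (hXf.subset fun χ h => h.1) (hcard ▸ hY₀)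
      (f := fun (f : G → ℂ) (g : G) => f (κ b g)) ?_ (k := k) ?_ ⟨hχ, hχ₀⟩
    · rintro χ' ⟨h3, ψ, h4, h5, h6⟩
      exact ⟨(e2 χ' h3 b).1, _, (e3 ψ h4 b hb).1, hspc b hb ψ h4 h5, e6 χ' ψ b hb h6⟩
    · rintro χ' ⟨h3, _⟩
      rw [iter]
      exact (e2 χ' h3 (b ^ (ℓ ^ k))).2.mp (hpow c k hc b hbc _)
  have hpy : ∀ c : C, ∀ k : ℕ, c ^ (ℓ ^ k) = 1 → ∀ ψ ∈ YL 𝔐 P₁ ω, Spc 𝔐 P₁ ω ψ →
      c ∈ (Stx κ {P₁} ψ).map ρ := by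
    intro c k hc ψ hψ hψ₀
    obtain ⟨b, hb, hbc⟩ := e1 c
    rw [← hbc, (e3 ψ hψ b hb).2]
    refine triv hl (S := {ψ | ψ ∈ YL 𝔐 P₁ ω ∧ Spc 𝔐 P₁ ω ψ}) (hYf.subset fun χ h => h.1) hY₀
      (f := fun (f : G → ℂ) (g : G) => f (κ b g)) ?_ (k := k) ?_ ⟨hψ, hψ₀⟩
    · rintro ψ' ⟨h4, h5⟩
      exact ⟨(e3 ψ' h4 b hb).1, hspc b hb ψ' h4 h5⟩
    · rintro ψ' ⟨h4, _⟩
      rw [iter]
      exact (e3 ψ' h4 (b ^ (ℓ ^ k)) (pow_mem hb _)).2.mp (hpow c k hc b hbc _)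
  obtain ⟨Φ, h3, h4⟩ := glue hl hXf hYf (fun χ => (Stx κ ∅ χ).map ρ)
    (fun ψ => (Stx κ {P₁} ψ).map ρ) (Mtc 𝔐 P₁ ω) (Spc 𝔐 P₁ ω) hM.ex hux huy hst hcard
    (fun ψ h3 ψ' h4 h5 h6 => (l1 ψ h3 ψ' h4 h5 h6).2) hpx hpy hfil
  exact ⟨Φ, h3, fun χ hχ => ⟨(h4 χ hχ).1, (h4 χ hχ).2.imp
    (fun h => l2 _ (h3.mapsTo hχ) h) id⟩⟩

end Pool.Agent.RCB
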