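import Pool.Agent.RCB.St2

/-!
# Module RCB_BJB: the bijection in the case `r = 1`
-/

namespace Pool.Agent.RCB

open Pool.Agent.DP Pool.Agent.DPV Pool.Agent.DPB Pool.Agent.DPW Pool.Agent.DPX
open Pool.Agent.Lib_helper13 Representation

namespace BJB

section Abs

variable {C X Y : Type} [Group C] [Finite C]

/-- The parts of an element of order prime to `ℓ` and of `ℓ`-power order. -/
theorem decomp (ℓ : ℕ) [hp : Fact ℓ.Prime] (c : C) :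
    ∃ c' c'' : C, c = c' * c'' ∧ ¬ ℓ ∣ orderOf c' ∧ ∃ k : ℕ, c'' ^ ℓ ^ k = 1 := by
  obtain ⟨k, m, hm, ho⟩ := Nat.exists_eq_pow_mul_and_not_dvd (orderOf_pos c).ne' ℓ hp.out.ne_one
  have hcop : Nat.Coprime (ℓ ^ k) m :=
    Nat.Coprime.pow_left k ((hp.out.coprime_iff_not_dvd).2 hm)
  obtain ⟨u, v, huv⟩ := (Nat.isCoprime_iff_coprime.2 hcop)
  have ho1 : c ^ ((ℓ ^ k : ℕ) : ℤ) = c ^ ((ℓ ^ k : ℕ) : ℤ) := rfl
  have hone : ∀ w : ℤ, c ^ (w * ((ℓ ^ k : ℕ) : ℤ) * (m : ℤ)) = 1 := by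
    intro w
    rw [mul_assoc, mul_comm, zpow_mul]
    have : c ^ (((ℓ ^ k : ℕ) : ℤ) * (m : ℤ)) = 1 := by
      rw [← Nat.cast_mul, zpow_natCast, ← ho, pow_orderOf_eq_one]
    rw [this, one_zpow]
  refine ⟨c ^ (u * ((ℓ ^ k : ℕ) : ℤ)), c ^ (v * (m : ℤ)), ?_, ?_, k, ?_⟩
  · rw [← zpow_add, huv, zpow_one]
  · intro hd
    have h1 : (c ^ (u * ((ℓ ^ k : ℕ) : ℤ))) ^ m = 1 := by
      rw [← zpow_natCast, ← zpow_mul]
      exact hone u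
    exact hm (hd.trans (orderOf_dvd_of_pow_eq_one h1))
  · rw [← zpow_natCast, ← zpow_mul, mul_right_comm]
    exact hone v

/-- The combinatorial part. -/
theorem abs (ℓ : ℕ) [hp : Fact ℓ.Prime] (CX : X → Subgroup C) (CY : Y → Subgroup C)
    (hX : Nat.card X = ℓ) (hY : Nat.card Y = ℓ) (ye : Y) (Γ : Subgroup C) (hye : CY ye = ⊤)
    (hyΓ : ∀ y, y ≠ ye → CY y = Γ)
    (hpow : ∀ c : C, (∃ k : ℕ, c ^ ℓ ^ k = 1) → c ∈ Γ ∧ ∀ x, c ∈ CX x)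
    (hfix : ∀ c : C, ¬ ℓ ∣ orderOf c → Nat.card {x // c ∈ CX x} = Nat.card {y // c ∈ CY y})
    (c0 : C) (hc0 : ∀ c, ∃ k : ℤ, c * c0 ^ k ∈ Γ) :
    ∃ e : X ≃ Y, ∀ x, CX x = CY (e x) := by
  have : Finite X := Nat.finite_of_card_ne_zero (by rw [hX]; exact hp.out.ne_zero)
  have : Finite Y := Nat.finite_of_card_ne_zero (by rw [hY]; exact hp.out.ne_zero)
  have s1 : ∀ c ∈ Γ, ∀ x, c ∈ CX x := by
    intro c hc x
    obtain ⟨c', c'', rfl, h1, h2⟩ := decomp ℓ c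
    obtain ⟨h3, h4⟩ := hpow c'' h2
    have h5 : c' ∈ Γ := (Subgroup.mul_mem_cancel_right Γ h3).1 hc
    have h6 : ∀ y, c' ∈ CY y := by
      intro y
      by_cases hy : y = ye
      · rw [hy, hye]
        exact Subgroup.mem_top _
      · rw [hyΓ y hy]
        exact h5
    have h7 : Nat.card {y // c' ∈ CY y} = ℓ := by
      rw [← hY]
      exact Nat.card_congr (Equiv.subtypeUnivEquiv h6)
    have h8 := (hfix c' h1).trans h7
    by_contra hx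
    have h9 : ¬ c' ∈ CX x := fun h => hx ((CX x).mul_mem h (h4 x))
    have h10 := Finite.card_subtype_lt (p := fun x => c' ∈ CX x) h9
    rw [h8, hX] at h10
    exact lt_irrefl _ h10
  have s2 : ∀ c, c ∉ Γ → Nat.card {x // c ∈ CX x} = 1 := by
    intro c hc
    obtain ⟨c', c'', rfl, h1, h2⟩ := decomp ℓ c
    obtain ⟨h3, h4⟩ := hpow c'' h2
    have h5 : c' ∉ Γ := fun h => hc (Γ.mul_mem h h3)
    have h6 : Nat.card {x // c' * c'' ∈ CX x} = Nat.card {x // c' ∈ CX x} :=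
      Nat.card_congr (Equiv.subtypeEquivRight fun x => Subgroup.mul_mem_cancel_right _ (h4 x))
    rw [h6, hfix c' h1, Nat.card_eq_one_iff_exists]
    refine ⟨⟨ye, by rw [hye]; exact Subgroup.mem_top _⟩, ?_⟩
    rintro ⟨y, hy⟩
    by_contra hne
    have hne' : y ≠ ye := fun h => hne (Subtype.ext h)
    rw [hyΓ y hne'] at hy
    exact h5 hy
  obtain ⟨e0⟩ : Nonempty (X ≃ Y) := Finite.card_eq.1 (hX.trans hY.symm)
  by_cases hT : Γ = ⊤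
  · refine ⟨e0, fun x => ?_⟩
    have h1 : CX x = ⊤ := by
      rw [eq_top_iff]
      intro c _
      exact s1 c (hT ▸ Subgroup.mem_top c) x
    have h2 : CY (e0 x) = ⊤ := by
      by_cases hy : e0 x = ye
      · rw [hy, hye]
      · rw [hyΓ _ hy, hT]
    rw [h1, h2]
  · have h0 : c0 ∉ Γ := by
      intro h
      apply hT
      rw [eq_top_iff]
      intro c _
      obtain ⟨k, hk⟩ := hc0 c
      exact (Subgroup.mul_mem_cancel_right Γ (Γ.zpow_mem h k)).1 hk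
    obtain ⟨⟨xe, hxe⟩, -⟩ := Nat.card_eq_one_iff_exists.1 (s2 c0 h0)
    have h1 : ∀ c, c ∈ CX xe := by
      intro c
      obtain ⟨k, hk⟩ := hc0 c
      exact (Subgroup.mul_mem_cancel_right _ ((CX xe).zpow_mem hxe k)).1 (s1 _ hk xe)
    have h2 : ∀ x, x ≠ xe → CX x = Γ := by
      intro x hx
      refine le_antisymm ?_ (fun c hc => s1 c hc x)
      intro c hc
      by_contra hcΓ
      obtain ⟨z, hz⟩ := Nat.card_eq_one_iff_exists.1 (s2 c hcΓ)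
      have e1 := hz ⟨x, hc⟩
      have e2 := hz ⟨xe, h1 c⟩
      exact hx (congrArg Subtype.val (e1.trans e2.symm))
    classical
    refine ⟨e0.trans (Equiv.swap (e0 xe) ye), fun x => ?_⟩
    by_cases hx : x = xe
    · subst hx
      rw [Equiv.trans_apply, Equiv.swap_apply_left, hye, eq_top_iff]
      exact fun c _ => h1 c
    · rw [h2 x hx]
      have h3 : (e0.trans (Equiv.swap (e0 xe) ye)) x ≠ ye := by
        intro h
        apply hx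
        apply (e0.trans (Equiv.swap (e0 xe) ye)).injective
        rw [h, Equiv.trans_apply, Equiv.swap_apply_left]
      rw [hyΓ _ h3]

end Abs

section Fix

variable {G B : Type} [Group G] [Group B]

open Classical in
/-- Fixed points of an element of `ℓ`-power order. -/
theorem fixcount (κ : B →* MulAut G) (ℓ k : ℕ) [hp : Fact ℓ.Prime] (b : B)
    (S : Set (G → ℂ)) (hS : S.Finite) (hst : ∀ f ∈ S, (fun g => f (κ b g)) ∈ S)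
    (hk : ∀ f ∈ S, (fun g => f (κ (b ^ ℓ ^ k) g)) = f) :
    Nat.card S ≡ Nat.card {f : G → ℂ // f ∈ S ∧ (fun g => f (κ b g)) = f} [MOD ℓ] := by
  let _ : Fintype S := hS.fintype
  let T : Function.End S := fun f => ⟨fun g => f.1 (κ b g), hst _ f.2⟩
  have hT : ∀ (m : ℕ) (f : S) (g : G), ((T ^ m) f).1 g = f.1 (κ (b ^ m) g) := by
    intro m
    induction m with
    | zero =>
      intro f g
      rw [pow_zero, pow_zero, map_one]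
      rfl
    | succ m ih =>
      intro f g
      rw [pow_succ', pow_succ, map_mul]
      change ((T ^ m) f).1 (κ b g) = _
      rw [ih]
      rfl
  have h1 : T ^ ℓ ^ k = 1 := by
    funext f
    apply Subtype.ext
    funext g
    rw [hT]
    exact congrFun (hk f.1 f.2) g
  have h2 := Equiv.Perm.card_fixedPoints_modEq (p := ℓ) h1
  rw [← Nat.card_eq_fintype_card, ← Nat.card_eq_fintype_card] at h2
  have h3 : Nat.card (Function.fixedPoints T) =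
      Nat.card {f : G → ℂ // f ∈ S ∧ (fun g => f (κ b g)) = f} := by
    refine Nat.card_congr ⟨fun f => ⟨f.1.1, f.1.2, congrArg Subtype.val f.2⟩,
      fun f => ⟨⟨f.1, f.2.1⟩, Subtype.ext f.2.2⟩, fun f => rfl, fun f => rfl⟩
  rwa [h3] at h2

end Fix

section Main

variable {G B C : Type} [Group G] [Fintype G] [Group B] [Group C]
  {𝔐 : Ideal (integralClosure ℤ ℂ)} {κ : B →* MulAut G} {ρ : B →* C}
  {ω : G → (integralClosure ℤ ℂ) ⧸ 𝔐} {P₁ : Subgroup G}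

/-- The degree of a character in `XS` is a positive integer. -/
theorem deg_pos {χ : G → ℂ} (h : χ ∈ XS 𝔐 ω) : ∃ n : ℕ, 0 < n ∧ χ 1 = n := by
  obtain ⟨n, hn, h1⟩ := h.1.1.exists_degree
  exact ⟨n, hn, h1⟩

/-- `C` acts trivially on `XS` through its elements of `ℓ`-power order. -/
theorem trivX (ℓ : ℕ) [hp : Fact ℓ.Prime] (hcX : Nat.card (XS 𝔐 ω) = ℓ)
    (e2 : ∀ χ ∈ XS 𝔐 ω, ∀ b : B, (fun g => χ (κ b g)) ∈ XS 𝔐 ω ∧
      (ρ b ∈ (Stx κ ∅ χ).map ρ ↔ (fun g => χ (κ b g)) = χ))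
    (v : (G → ℂ) → ℤ) (hv1 : ∀ χ ∈ XS 𝔐 ω, v χ = 1 ∨ v χ = -1)
    (hv2 : ∑ᶠ χ : XS 𝔐 ω, (v χ : ℂ) * (χ : G → ℂ) 1 = 0)
    (b : B) (hv3 : ∀ χ ∈ XS 𝔐 ω, v (fun g => χ (κ b g)) = v χ) (k : ℕ)
    (hk : ρ b ^ ℓ ^ k = 1) : ∀ χ ∈ XS 𝔐 ω, ρ b ∈ (Stx κ ∅ χ).map ρ := by
  classical
  have hfin : Finite (XS 𝔐 ω) :=
    Nat.finite_of_card_ne_zero (by rw [hcX]; exact hp.out.ne_zero)
  let _ : Fintype (XS 𝔐 ω) := Fintype.ofFinite _
  have hSfin : (XS 𝔐 ω).Finite := Set.toFinite _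
  have hfix : ∀ χ ∈ XS 𝔐 ω, (fun g => χ (κ (b ^ ℓ ^ k) g)) = χ := by
    intro χ hχ
    refine ((e2 χ hχ (b ^ ℓ ^ k)).2).1 ?_
    rw [map_pow, hk]
    exact one_mem _
  -- both signs occur
  have sgn : ∀ s : ℤ, (s = 1 ∨ s = -1) → ∃ χ ∈ XS 𝔐 ω, v χ = s := by
    intro s hs
    by_contra hcon
    push Not at hcon
    have h1 : ∀ χ ∈ XS 𝔐 ω, v χ = -s := by
      intro χ hχ
      have h2 := hcon χ hχ
      rcases hv1 χ hχ with h3 | h3 <;> rcases hs with h4 | h4 <;> omega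
    rw [finsum_eq_sum_of_fintype] at hv2
    have h2 : ∀ χ : XS 𝔐 ω, ∃ n : ℕ, 0 < n ∧ (χ : G → ℂ) 1 = n := fun χ => deg_pos χ.2
    choose d hd1 hd2 using h2
    have h3 : ((-s * ∑ χ : XS 𝔐 ω, (d χ : ℤ) : ℤ) : ℂ) = 0 := by
      rw [← hv2]
      push_cast
      rw [Finset.mul_sum]
      refine Finset.sum_congr rfl fun χ _ => ?_
      rw [h1 χ.1 χ.2, hd2 χ]
      push_cast
      ring
    have h4 : (-s * ∑ χ : XS 𝔐 ω, (d χ : ℤ) : ℤ) = 0 := by exact_mod_cast h3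
    have h5 : 0 < ∑ χ : XS 𝔐 ω, (d χ : ℤ) := by
      apply Finset.sum_pos
      · intro χ _
        exact_mod_cast hd1 χ
      · rw [Finset.univ_nonempty_iff, ← Finite.card_pos_iff, hcX]
        exact hp.out.pos
    rcases mul_eq_zero.1 h4 with h6 | h6
    · rcases hs with h7 | h7 <;> omega
    · omega
  -- a fixed point
  let S : Set (G → ℂ) := {χ | χ ∈ XS 𝔐 ω ∧ v χ = 1}
  have hSs : S ⊆ XS 𝔐 ω := fun χ h => h.1
  have hSf : S.Finite := hSfin.subset hSs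
  have c1 := fixcount κ ℓ k b S hSf (fun f hf => ⟨(e2 f hf.1 b).1, by rw [hv3 f hf.1]; exact hf.2⟩)
    (fun f hf => hfix f hf.1)
  have c2 : 0 < Nat.card S := by
    obtain ⟨χ, hχ, hχ1⟩ := sgn 1 (Or.inl rfl)
    have := hSf.to_subtype
    exact Finite.card_pos_iff.2 ⟨⟨χ, hχ, hχ1⟩⟩
  have c3 : Nat.card S < ℓ := by
    obtain ⟨χ, hχ, hχ1⟩ := sgn (-1) (Or.inr rfl)
    have h1 : S.ncard < (XS 𝔐 ω).ncard := by
      apply Set.ncard_lt_ncard _ hSfin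
      refine ⟨hSs, fun h => ?_⟩
      have h2 := (h hχ).2
      omega
    rw [← hcX]
    exact h1
  have c4 : 0 < Nat.card {f : G → ℂ // f ∈ S ∧ (fun g => f (κ b g)) = f} := by
    rcases Nat.eq_zero_or_pos (Nat.card {f : G → ℂ // f ∈ S ∧ (fun g => f (κ b g)) = f}) with h | h
    · exfalso
      rw [h] at c1
      have h1 := (Nat.modEq_zero_iff_dvd.1 c1)
      exact absurd (Nat.le_of_dvd c2 h1) (by omega)
    · exact h
  obtain ⟨⟨χ₁, hχ₁, hfx⟩⟩ := (Nat.card_pos_iff.1 c4).1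
  have c5 := fixcount κ ℓ k b (XS 𝔐 ω) hSfin (fun f hf => (e2 f hf b).1) hfix
  rw [hcX] at c5
  have c6 : ℓ ∣ Nat.card {f : G → ℂ // f ∈ XS 𝔐 ω ∧ (fun g => f (κ b g)) = f} :=
    Nat.modEq_zero_iff_dvd.1 (c5.symm.trans (Nat.modEq_zero_iff_dvd.2 dvd_rfl))
  have c7 : 0 < Nat.card {f : G → ℂ // f ∈ XS 𝔐 ω ∧ (fun g => f (κ b g)) = f} := by
    have : Finite {f : G → ℂ // f ∈ XS 𝔐 ω ∧ (fun g => f (κ b g)) = f} :=
      (hSfin.subset (fun f h => h.1) : Set.Finite {f : G → ℂ | f ∈ XS 𝔐 ω ∧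
        (fun g => f (κ b g)) = f}).to_subtype
    exact Finite.card_pos_iff.2 ⟨⟨χ₁, hχ₁.1, hfx⟩⟩
  have c8 := Nat.le_of_dvd c7 c6
  intro χ hχ
  rw [(e2 χ hχ b).2]
  by_contra hne
  have h1 : ({f : G → ℂ | f ∈ XS 𝔐 ω ∧ (fun g => f (κ b g)) = f}).ncard < (XS 𝔐 ω).ncard := by
    apply Set.ncard_lt_ncard _ hSfin
    refine ⟨fun f h => h.1, fun h => ?_⟩
    exact hne (h hχ).2
  have h2 : (XS 𝔐 ω).ncard = ℓ := hcX
  rw [h2] at h1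
  exact absurd c8 (not_le.2 h1)

end Main

end BJB

open BJB in
theorem BJB_thm (h0 : Stmt_EQV) (h1 : Stmt_FIL) (h2 : Stmt_LSP) : Stmt_BJB := by
  classical
  intro G B C _ _ _ _ _ 𝔐 ℓ n hp h𝔐 hℓ hl2 ι κ ρ hL ω P₁ P x₀ hst hr
  have : Finite C := Finite.of_surjective ρ hL.surj
  obtain ⟨e1, e2, e3, -, -, -, e7⟩ := h0 G B C 𝔐 ℓ n h𝔐 hℓ ι κ ρ hL ω P₁ P x₀ hst
  have hfil := h1 G B C 𝔐 ℓ n h𝔐 hℓ ι κ ρ hL ω P₁ P x₀ hst.at'
  obtain ⟨l1, -, -, l4, -⟩ := h2 G B C 𝔐 ℓ n h𝔐 hℓ ι κ ρ hL ω P₁ P x₀ hst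
  have hcX := hr.cX
  -- the number of local characters
  have hcY : Nat.card (YL 𝔐 P₁ ω) = ℓ := by
    have h3 := hfil 1 (by rw [orderOf_one]; exact fun h => hp.out.one_lt.ne' (Nat.dvd_one.1 h))
    have h4 : Nat.card {χ : G → ℂ // χ ∈ XS 𝔐 ω ∧ (1 : C) ∈ (Stx κ ∅ χ).map ρ} =
        Nat.card (XS 𝔐 ω) :=
      Nat.card_congr (Equiv.subtypeEquivRight fun χ => ⟨fun h => h.1, fun h => ⟨h, one_mem _⟩⟩)
    have h5 : Nat.card {ψ : G → ℂ // ψ ∈ YL 𝔐 P₁ ω ∧ (1 : C) ∈ (Stx κ {P₁} ψ).map ρ} =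
        Nat.card (YL 𝔐 P₁ ω) :=
      Nat.card_congr (Equiv.subtypeEquivRight fun χ => ⟨fun h => h.1, fun h => ⟨h, one_mem _⟩⟩)
    rw [← h5, ← h3, h4, hcX]
  have hYf : Finite (YL 𝔐 P₁ ω) :=
    Nat.finite_of_card_ne_zero (by rw [hcY]; exact hp.out.ne_zero)
  have hYfin : (YL 𝔐 P₁ ω).Finite := Set.toFinite _
  -- the nonspecial character
  obtain ⟨⟨ψe, hψe, hψs⟩, hψu⟩ := Nat.card_eq_one_iff_exists.1 hr.ns
  -- the property of being special is invariant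
  have act_inv : ∀ (f : G → ℂ) (b : B), (fun g => (fun g => f (κ b g)) (κ b⁻¹ g)) = f := by
    intro f b
    funext g
    change f (κ b (κ b⁻¹ g)) = f g
    rw [← MulAut.mul_apply, ← map_mul, mul_inv_cancel, map_one, MulAut.one_apply]
  have spc : ∀ b ∈ Stx κ {P₁} (fun _ : G => (0 : ℂ)), ∀ ψ ∈ YL 𝔐 P₁ ω,
      Spc 𝔐 P₁ ω ψ → Spc 𝔐 P₁ ω (fun g => ψ (κ b g)) := by
    rintro b hb ψ hψ ⟨ψ', h3, h4, h5⟩
    refine ⟨fun g => ψ' (κ b g), (e3 ψ' h3 b hb).1, fun h => h4 ?_, e7 ψ ψ' b hb h5⟩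
    have h6 := act_inv ψ' b
    have h7 := act_inv ψ b
    rw [← h6, ← h7]
    funext g
    exact congrFun h (κ b⁻¹ g)
  have spc' : ∀ b ∈ Stx κ {P₁} (fun _ : G => (0 : ℂ)), ∀ ψ ∈ YL 𝔐 P₁ ω,
      Spc 𝔐 P₁ ω (fun g => ψ (κ b g)) → Spc 𝔐 P₁ ω ψ := by
    intro b hb ψ hψ h
    have h3 := spc b⁻¹ (inv_mem hb) _ (e3 ψ hψ b hb).1 h
    rwa [act_inv ψ b] at h3
  have hψe_top : (Stx κ {P₁} ψe).map ρ = ⊤ := by
    rw [eq_top_iff]
    intro c _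
    obtain ⟨b, hb, rfl⟩ := e1 c
    rw [(e3 ψe hψe b hb).2]
    have h3 := hψu ⟨fun g => ψe (κ b g), (e3 ψe hψe b hb).1,
      fun h => hψs (spc' b hb ψe hψe h)⟩
    exact congrArg Subtype.val h3
  have hns : ∀ ψ ∈ YL 𝔐 P₁ ω, ψ ≠ ψe → Spc 𝔐 P₁ ω ψ := by
    intro ψ hψ hne
    by_contra h
    exact hne (congrArg Subtype.val (hψu ⟨ψ, hψ, h⟩))
  -- the special characters
  let S : Set (G → ℂ) := {ψ | ψ ∈ YL 𝔐 P₁ ω ∧ Spc 𝔐 P₁ ω ψ}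
  have hSeq : S = YL 𝔐 P₁ ω \ {ψe} := by
    ext ψ
    constructor
    · rintro ⟨h3, h4⟩
      refine ⟨h3, fun h => hψs ?_⟩
      rw [← (Set.mem_singleton_iff.1 h)]
      exact h4
    · rintro ⟨h3, h4⟩
      exact ⟨h3, hns ψ h3 h4⟩
  have hScard : Nat.card S = ℓ - 1 := by
    have h3 : S.ncard = (YL 𝔐 P₁ ω).ncard - 1 := by
      rw [hSeq]
      exact Set.ncard_sdiff_singleton_of_mem hψe
    have h4 : (YL 𝔐 P₁ ω).ncard = ℓ := hcY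
    rw [h4] at h3
    exact h3
  have hSf : S.Finite := hYfin.subset fun ψ h => h.1
  have hl3 : 2 < ℓ := lt_of_le_of_ne hp.out.two_le (Ne.symm hl2)
  obtain ⟨⟨ψ₁, hψ₁, hψ₁s⟩⟩ : Nonempty S := by
    have := hSf.to_subtype
    rw [← Finite.card_pos_iff, hScard]
    omega
  obtain ⟨c0, hc0⟩ := l4 ψ₁ hψ₁ hψ₁s
  obtain ⟨v, hv1, hv2, hv3⟩ := hr.v
  have hA : ∀ c : C, (∃ k : ℕ, c ^ ℓ ^ k = 1) → c ∈ (Stx κ {P₁} ψ₁).map ρ ∧
      ∀ χ : XS 𝔐 ω, c ∈ (Stx κ ∅ χ.1).map ρ := by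
    -- elements of `ℓ`-power order
    rintro c ⟨k, hk⟩
    obtain ⟨b, hb, rfl⟩ := e1 c
    constructor
    · have c1 := fixcount κ ℓ k b S hSf
        (fun f hf => ⟨(e3 f hf.1 b hb).1, spc b hb f hf.1 hf.2⟩) (fun f hf => by
          refine ((e3 f hf.1 (b ^ ℓ ^ k) (pow_mem hb _)).2).1 ?_
          rw [map_pow, hk]
          exact one_mem _)
      have c2 : 0 < Nat.card {f : G → ℂ // f ∈ S ∧ (fun g => f (κ b g)) = f} := by
        rcases Nat.eq_zero_or_pos (Nat.card {f : G → ℂ // f ∈ S ∧ (fun g => f (κ b g)) = f})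
          with h | h
        · exfalso
          rw [h, hScard] at c1
          have h1 := (Nat.modEq_zero_iff_dvd.1 c1)
          exact absurd (Nat.le_of_dvd (by omega) h1) (by omega)
        · exact h
      obtain ⟨⟨ψ₂, hψ₂, hfx⟩⟩ := (Nat.card_pos_iff.1 c2).1
      rw [← (l1 ψ₂ hψ₂.1 ψ₁ hψ₁ hψ₂.2 hψ₁s).2, (e3 ψ₂ hψ₂.1 b hb).2]
      exact hfx
    · intro χ
      exact trivX ℓ hcX e2 v hv1 hv2 b (hv3 b hb) k hk χ.1 χ.2
  have hB : ∀ c : C, ¬ ℓ ∣ orderOf c → Nat.card {χ : XS 𝔐 ω // c ∈ (Stx κ ∅ χ.1).map ρ} =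
      Nat.card {ψ : YL 𝔐 P₁ ω // c ∈ (Stx κ {P₁} ψ.1).map ρ} := by
    -- elements of order prime to `ℓ`
    intro c hc
    have h3 := hfil c hc
    have h4 : Nat.card {χ : XS 𝔐 ω // c ∈ (Stx κ ∅ χ.1).map ρ} =
        Nat.card {χ : G → ℂ // χ ∈ XS 𝔐 ω ∧ c ∈ (Stx κ ∅ χ).map ρ} :=
      Nat.card_congr (Equiv.subtypeSubtypeEquivSubtypeInter (fun χ => χ ∈ XS 𝔐 ω)
        fun χ => c ∈ (Stx κ ∅ χ).map ρ)
    have h5 : Nat.card {ψ : YL 𝔐 P₁ ω // c ∈ (Stx κ {P₁} ψ.1).map ρ} =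
        Nat.card {ψ : G → ℂ // ψ ∈ YL 𝔐 P₁ ω ∧ c ∈ (Stx κ {P₁} ψ).map ρ} :=
      Nat.card_congr (Equiv.subtypeSubtypeEquivSubtypeInter (fun ψ => ψ ∈ YL 𝔐 P₁ ω)
        fun ψ => c ∈ (Stx κ {P₁} ψ).map ρ)
    exact (h4.trans h3).trans h5.symm
  obtain ⟨e, he⟩ := BJB.abs (X := XS 𝔐 ω) (Y := YL 𝔐 P₁ ω) ℓ
    (fun χ => (Stx κ ∅ χ.1).map ρ) (fun ψ => (Stx κ {P₁} ψ.1).map ρ) hcX hcY ⟨ψe, hψe⟩
    ((Stx κ {P₁} ψ₁).map ρ) hψe_top (fun ψ hne => (l1 ψ.1 ψ.2 ψ₁ hψ₁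
      (hns ψ.1 ψ.2 fun h => hne (Subtype.ext h)) hψ₁s).2) hA hB c0 hc0
  refine ⟨fun f => if h : f ∈ XS 𝔐 ω then (e ⟨f, h⟩ : G → ℂ) else f, ⟨?_, ?_, ?_⟩, ?_⟩
  · intro χ hχ
    simp only [dif_pos hχ]
    exact (e ⟨χ, hχ⟩).2
  · intro χ hχ χ' hχ' h
    simp only [dif_pos hχ, dif_pos hχ'] at h
    exact congrArg Subtype.val (e.injective (Subtype.ext h))
  · intro ψ hψ
    refine ⟨(e.symm ⟨ψ, hψ⟩).1, (e.symm ⟨ψ, hψ⟩).2, ?_⟩
    simp only [dif_pos (e.symm ⟨ψ, hψ⟩).2, Subtype.coe_eta, Equiv.apply_symm_apply]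
  · intro χ hχ
    refine ⟨?_, Or.inl hr.eb⟩
    simp only [dif_pos hχ]
    exact he ⟨χ, hχ⟩

end Pool.Agent.RCB
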