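import Mathlib
import Pool.Agent.RCB.StI
import Pool.Agent.RCB.Defs

/-!
# Theorem P1: statements, block 1 (parts A and B of PAPER.md)

The statements `Stmt_...X` are those of `DPX/StmtsXA.lean` .. `StmtsXD.lean`; a module may use
them as hypotheses, as well as the statements of `DP`, `DPC` (`Stmt_SUMM`, `Stmt_DGN`,
`Stmt_INY`, `Stmt_MIX`, ...).
-/

namespace Pool.Agent.RCB

open Pool.Agent.DP Pool.Agent.DPV Pool.Agent.DPB Pool.Agent.DPW Pool.Agent.DPX
open Pool.Agent.Lib_helper13 Representation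
open Pool.Agent.Lib_helper13.Dade (pCore)

open Classical in
/-- RCB_IDG: the idempotent of a block of `G` and its conjugates under `B`.
Proof. Let `r : integralClosure ℤ ℂ → F = (integralClosure ℤ ℂ) ⧸ 𝔐` and let `a` be the function of
`IDX` for `ξ`: `red (wt μ a) = [cen μ = cen ξ]`, `e = r ∘ a` is a primitive idempotent, and
(`IDX`, `BKX` from `AtX`, `SUPX` third part) if `e x ≠ 0` then every `ℓ`-subgroup of the
centralizer of `x` is conjugate to a subgroup of `P`. For `b : B` the function `a ∘ κ b` has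
the same properties for the character `ξ ∘ κ b`; in particular `e ∘ κ b` depends only on the
block of `ξ ∘ κ b` (last part of `IDX`). Let `F₀ : G → F` be the sum of the functions `e ∘ κ b`
over a set `R ⊆ B` of representatives for the different functions `cen (ξ ∘ κ b)`; then `F₀` is
invariant under `κ b'` for all `b' : B` (`e ∘ κ b ∘ κ b'` is the function of the block of
`ξ ∘ κ (b b')`, and right multiplication by `b'` permutes the blocks of the `ξ ∘ κ b`). For each orbit of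
`B` on `G` choose an algebraic integer with the reduction `F₀ x`; this gives `F`, constant on the
orbits. For `μ : G → ℂ` irreducible, `red (wt μ F)` depends only on the reductions of the values
of the class function `F` (`red (wt μ (F - F')) = 0` if `F - F'` is a class function with values in
`𝔐`), so it is the sum over `b ∈ R` of `red (wt μ (a ∘ κ b)) = [cen μ = cen (ξ ∘ κ b)]`, i.e. `1`
if `cen μ` is one of them, and `0` otherwise. `cen (ξ ∘ κ b) = cen ξ ∘ κ b`. If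
`red (F x) ≠ 0` then `e (κ b x) ≠ 0` for some `b`; apply the property of `e` to `κ b (Q)`. -/
def Stmt_IDG : Prop :=
  ∀ (G B : Type) [Group G] [Fintype G] [Group B] [Fintype B]
    (𝔐 : Ideal (integralClosure ℤ ℂ)) (ℓ n : ℕ) [Fact ℓ.Prime], 𝔐.IsMaximal →
    (ℓ : integralClosure ℤ ℂ) ∈ 𝔐 → ∀ (ι : G →* B) (κ : B →* MulAut G),
    (∀ b g, ι (κ b g) = b * ι g * b⁻¹) → Function.Injective ι →
    ∀ ξ : G → ℂ, IsIrr ξ → ∀ (P₁ P : Subgroup G) (x₀ : G),
    AtX ℓ n (cen 𝔐 (MonoidHom.id G) ξ) P₁ P x₀ →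
    ∃ F : G → ℂ, (∀ x, IsIntegral ℤ (F x)) ∧ (∀ b x, F (κ b x) = F x) ∧
      (∀ μ : G → ℂ, IsIrr μ → red 𝔐 (wt μ F) =
        if ∃ b : B, ∀ g, cen 𝔐 (MonoidHom.id G) μ g = cen 𝔐 (MonoidHom.id G) ξ (κ b g)
          then 1 else 0) ∧
      ∀ x, red 𝔐 (F x) ≠ 0 → ∀ Q : Subgroup G, IsPGroup ℓ Q → (∀ u ∈ Q, u * x = x * u) →
        ∃ b : B, ∀ u ∈ Q, κ b u ∈ P

/-- RCB_GEL: an element of `G` at which the block of `χ` does not vanish.
Proof. `F` from `IDG`, extended by zero to `F' : B → ℂ` (`F' (ι g) = F g`), a class function of `B`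
with integral values supported on `ι.range`. `SUMM` (4): `wt χ F' = wt ξ F`, so
`red (wt χ F') = 1`. Expand `F'` in class indicators: `wt χ F' = ∑ (over the classes) F' x *
wt χ (conjInd · x)`, so there is `x : G` with `red (F x) ≠ 0` and
`cen 𝔐 (MonoidHom.id B) χ (ι x) ≠ 0`. -/
def Stmt_GEL : Prop :=
  ∀ (G B C : Type) [Group G] [Fintype G] [Group B] [Fintype B] [Group C]
    (𝔐 : Ideal (integralClosure ℤ ℂ)) (ℓ n : ℕ) [Fact ℓ.Prime], 𝔐.IsMaximal →
    (ℓ : integralClosure ℤ ℂ) ∈ 𝔐 → ∀ (ι : G →* B) (κ : B →* MulAut G) (ρ : B →* C),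
    LocN ι κ ρ → ∀ (χ : B → ℂ) (ξ : G → ℂ), IsIrr χ → IsIrr ξ → ip (resj ι χ) ξ ≠ 0 →
    ∀ (P₁ P : Subgroup G) (x₀ : G), AtX ℓ n (cen 𝔐 (MonoidHom.id G) ξ) P₁ P x₀ →
    ∃ x : G, cen 𝔐 (MonoidHom.id B) χ (ι x) ≠ 0 ∧
      ∀ Q : Subgroup G, IsPGroup ℓ Q → (∀ u ∈ Q, u * x = x * u) → ∃ b : B, ∀ u ∈ Q, κ b u ∈ P

/-- RCB_CHG: only the chains of subgroups conjugate to subgroups of the defect group contribute.
Proof. As `CHNX_thm` (`DPX/CHNX.lean`). Let `σ = mapCh ι τ` (a chain of `ℓ`-subgroups of `B`), `Q`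
its greatest member, `R = Q ⊓ stb σ`, a normal `ℓ`-subgroup of `stb σ`. Let `x` be as in `GEL`;
`CHNW.exists_conj` (for the extension by zero of `ψ`; `cg` is `cen (stb σ).subtype ψ`) gives `t : B`
such that `R` commutes with `t ι x t⁻¹`. `R ≤ ι.range`, so `t⁻¹ R t` is `ι` of an `ℓ`-subgroup of
the centralizer of `x`, and by `GEL` it is conjugate to a subgroup of `ι P`. So `R` is cyclic, by
`CHNX.le_stb_of_cyc` all the members of `σ` are contained in `R`, and so conjugate (by one element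
of `B`) to subgroups of `ι P`. -/
def Stmt_CHG : Prop :=
  ∀ (G B C : Type) [Group G] [Fintype G] [Group B] [Fintype B] [Group C]
    (𝔐 : Ideal (integralClosure ℤ ℂ)) (ℓ n : ℕ) [Fact ℓ.Prime], 𝔐.IsMaximal →
    (ℓ : integralClosure ℤ ℂ) ∈ 𝔐 → ∀ (ι : G →* B) (κ : B →* MulAut G) (ρ : B →* C),
    LocN ι κ ρ → ∀ (χ : B → ℂ) (ξ : G → ℂ), IsIrr χ → IsIrr ξ → ip (resj ι χ) ξ ≠ 0 →
    ∀ (P₁ P : Subgroup G) (x₀ : G), AtX ℓ n (cen 𝔐 (MonoidHom.id G) ξ) P₁ P x₀ →
    ∀ τ : Finset (Subgroup G), IsCh ℓ ⊥ τ → ∀ ψ : YS ι τ → ℂ, IsIrr ψ →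
      cen 𝔐 (YS ι τ).subtype ψ = cen 𝔐 (MonoidHom.id B) χ →
      ∃ b : B, ∀ D ∈ τ, D.map (κ b).toMonoidHom ≤ P

/-- RCB_TOG: the cancellation (as in `DPX/VSXX.lean`).
Proof. Call a chain `τ` of `G` good if for some `b` all `κ b D`, `D ∈ τ`, are contained in `P`;
the other chains contribute `0`. For a good nonempty chain all members contain the same subgroup
`Ω` of order `ℓ` (`κ b⁻¹ P₁`; a nontrivial subgroup of the cyclic `ℓ`-group `κ b⁻¹ P` contains its only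
subgroup of order `ℓ`, `VSXX.om_le`), it is the only subgroup of order `ℓ` of each member, so it
does not depend on `b`, and `YS ι (insert Ω τ) = YS ι τ` (`b` normalizing a member `D` of `τ` normalizes
`Ω`). The involution `τ ↦ τ ∆ {Ω}` on the good nonempty chains different from the `{κ b P₁}`
changes the sign. There remain `τ = ∅` with `YS ι ∅ = ⊤` and the `{κ b P₁}`, `b : B`; their number
is `|B| / |YS ι {P₁}|` (`YS ι {P₁}` is the stabilizer of `P₁` in `B`), and each contributes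
`- W (YS ι {κ b P₁}) = - W (YS ι {P₁})` (conjugation invariance). -/
def Stmt_TOG : Prop :=
  ∀ (G B C : Type) [Group G] [Fintype G] [Group B] [Fintype B] [Group C] (ℓ : ℕ)
    [Fact ℓ.Prime] (ι : G →* B) (κ : B →* MulAut G) (ρ : B →* C), LocN ι κ ρ →
    ∀ (P₁ P : Subgroup G), P₁ ≤ P → IsCyclic P → IsPGroup ℓ P → Nat.card P₁ = ℓ →
    ∀ W : Subgroup B → ℚ, (∀ (b : B) (S : Subgroup B),
      W (S.map (MulAut.conj b).toMonoidHom) = W S) →
    (∀ τ : Finset (Subgroup G), IsCh ℓ ⊥ τ → W (YS ι τ) ≠ 0 →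
      ∃ b : B, ∀ D ∈ τ, D.map (κ b).toMonoidHom ≤ P) →
    (Nat.card (YS ι {P₁}) : ℚ) * ∑ τ ∈ Ch ℓ (⊥ : Subgroup G), (-1 : ℚ) ^ τ.card * W (YS ι τ) =
      (Nat.card (YS ι {P₁}) : ℚ) * W ⊤ - (Nat.card B : ℚ) * W (YS ι {P₁})

/-- RCB_INP: `Stmt_INN` from the local theorem.
Proof. `ι = M.subtype`, `κ` the conjugation action, `ρ` the quotient map. `DXMX` gives `AtX` for
`cen ξ`. Apply `TOG` with `W = WW 𝔐 ℓ d (cen χ)` (`WW_conj`); its last hypothesis is `CHG`
(`cnt ≠ 0` gives a `ψ`). `WW ⊤ = |G| * cnt (id)`, `WW (YS ι {P₁}) = |YS ι {P₁}| * cnt ..`, and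
`LTP` says that the two numbers `cnt` are equal. -/
def Stmt_INP : Prop := Stmt_LTP → Stmt_INN

/-- RCB_BTW: the characters below (B2 of PAPER.md).
Proof. `DXMX` gives `AtX` for `ξ`, `n`, `P₁`, `P`, `x₀`. `F` from `IDG` for `K ≤ X` (`ι` the
inclusion, `κ` conjugation), `F'` its extension by zero to `X`. For any class function `F' : X → ℂ`
with integral values supported on `K`: `red (wt χ₁ (F'|Y)) = red (wt χ F')` because
`cen Y.subtype χ₁ = cen χ` (expand `F'` in class indicators), and by `SUMM` (4)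
`wt χ₁ (F'|Y) = wt ξ₁ (F'|M)`, `wt χ F' = wt ξ (F'|K)`, where `M = K.subgroupOf Y`. So
`red (wt ξ₁ (F'|M)) = red (wt ξ F) = 1`. Hence (expand `F'|M` in class indicators of `M`)
there is `y : M` with `red (F' y) ≠ 0` and `cen ξ₁ y ≠ 0`, and every `ℓ`-subgroup `Q` of the
centralizer of `y` in `M` is isomorphic to a subgroup of `P`, so it is cyclic. By
`dx_of` (`DPX/FinalX.lean`) it remains to show that `ξ₁` has not defect `0`. Suppose it has. `M` is
isomorphic to `FX κ' E`, where `κ' : E →* MulAut K` is the conjugation (use the whole group `X` as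
`B` in `Stmt_DGN`, `κ : X →* MulAut K`, `P := E`): `y ∈ Y ⊓ K ↔ y ∈ K ⊓ centralizer E`. `DGN` gives
`ξ' : K → ℂ` irreducible of defect `0` with `red (wt ξ₁ (F|M)) = red (wt ξ' F)`, so
`red (wt ξ' F) ≠ 0` and by the property of `F` `cen ξ' = cen ξ ∘ κ b` for some `b`. Then
`cen ξ'` has `AtX` with conjugated data, and `HGTX` gives `|K| = ℓ ^ n * m * ξ' 1`, `0 < n`,
contradicting defect `0`. -/
def Stmt_BTW : Prop :=
  ∀ (X : Type) [Group X] [Fintype X] (K Y E : Subgroup X) [K.Normal]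
    (𝔐 : Ideal (integralClosure ℤ ℂ)) (ℓ : ℕ) [Fact ℓ.Prime], 𝔐.IsMaximal →
    (ℓ : integralClosure ℤ ℂ) ∈ 𝔐 → IsPGroup ℓ E → E ⊓ K = ⊥ →
    (∀ y, y ∈ Y ∧ y ∈ K ↔ y ∈ K ∧ y ∈ Subgroup.centralizer (E : Set X)) →
    ∀ (χ : X → ℂ) (ξ : K → ℂ), IsIrr χ → IsIrr ξ → ip (resj K.subtype χ) ξ ≠ 0 →
    DX ℓ (cen 𝔐 (MonoidHom.id K) ξ) → ∀ χ₁ : Y → ℂ, IsIrr χ₁ →
    cen 𝔐 Y.subtype χ₁ = cen 𝔐 (MonoidHom.id X) χ → ∀ ξ₁ : ↥(K.subgroupOf Y) → ℂ, IsIrr ξ₁ →
    ip (resj (K.subgroupOf Y).subtype χ₁) ξ₁ ≠ 0 → DX ℓ (cen 𝔐 (MonoidHom.id _) ξ₁)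

/-- RCB_SIN: the inner sums vanish.
Proof. As `inner_zeroC` in `DPC/FinalC.lean` (lines 189 - 226): `INY` gives `E = tp Z c`,
`IsPGroup ℓ E`, `E ⊓ K = ⊥`, `stb c ⊓ K = cN K E`, and the inner sum as a sum over the chains of
`M = K.subgroupOf (stb c)`; `MIX` splits it according to the central functions `ω'` on `stb c`;
if the part of `ω'` is not zero there is a chain `τ` and `ψ` with `cen ψ = ω'`, and by
`exists_irr_of_chain`, `exists_irr_of_mult` a `χ₁ : stb c → ℂ` irreducible with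
`cen χ₁ = ω'`, `cen (stb c).subtype χ₁ = cen χ`. Let `ξ₁` be a constituent of the restriction of
`χ₁` to `M`; `BTW` gives `DX`, and `Stmt_INN` for `M ⊴ stb c`, `χ₁`, `ξ₁` says that the part of `ω'`
is zero. -/
def Stmt_SIN : Prop := Stmt_INN → ∀ ℓ : ℕ, ℓ.Prime → ℓ ≠ 2 → S_INNER ℓ

end Pool.Agent.RCB
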