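import Mathlib
import Pool.Agent.RCB.St1
import Pool.Agent.DPC.RDZ

/-!
# RCB_BTW: the characters below
-/

namespace Pool.Agent.RCB

open Pool.Agent.DP Pool.Agent.DPV Pool.Agent.DPB Pool.Agent.DPW Pool.Agent.DPX
open Pool.Agent.Lib_helper13 Representation

namespace BTW

variable {X : Type} [Group X]

/-- The inclusion of `K ⊓ Y` in `K`. -/
def inK (K Y : Subgroup X) : ↥(K.subgroupOf Y) →* K where
  toFun y := ⟨((y : Y) : X), Subgroup.mem_subgroupOf.mp y.2⟩
  map_one' := rfl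
  map_mul' _ _ := rfl

theorem inK_inj (K Y : Subgroup X) : Function.Injective (inK K Y) := by
  intro a b h
  have h1 : (((inK K Y a : K)) : X) = ((inK K Y b : K) : X) := congrArg Subtype.val h
  exact Subtype.ext (Subtype.ext h1)

/-- The fixed points of `E` in `K` are `K ⊓ Y`. -/
def eqM (K Y E : Subgroup X) [K.Normal]
    (h : ∀ y, y ∈ Y ∧ y ∈ K ↔ y ∈ K ∧ y ∈ Subgroup.centralizer (E : Set X)) :
    ↥(Pool.Agent.DPC.FX (MulAut.conjNormal (H := K)) E) ≃* ↥(K.subgroupOf Y) := by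
  have hmem : ∀ g : K, g ∈ Pool.Agent.DPC.FX (MulAut.conjNormal (H := K)) E ↔ (g : X) ∈ Y := by
    intro g
    rw [Pool.Agent.DPC.mem_FX]
    constructor
    · intro h1
      refine ((h g).2 ⟨g.2, ?_⟩).1
      rw [Subgroup.mem_centralizer_iff]
      intro b hb
      have h2 := congrArg (Subtype.val) (h1 b hb)
      rw [MulAut.conjNormal_apply] at h2
      rw [mul_inv_eq_iff_eq_mul] at h2
      exact h2
    · intro h1 b hb
      have h2 := ((h g).1 ⟨h1, g.2⟩).2
      rw [Subgroup.mem_centralizer_iff] at h2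
      apply Subtype.ext
      rw [MulAut.conjNormal_apply, h2 b hb, mul_inv_cancel_right]
  exact
    { toFun := fun g => ⟨⟨((g : K) : X), (hmem g).1 g.2⟩, Subgroup.mem_subgroupOf.mpr (g : K).2⟩
      invFun := fun y => ⟨inK K Y y, (hmem _).2 (y : Y).2⟩
      left_inv := fun _ => rfl
      right_inv := fun _ => rfl
      map_mul' := fun _ _ => rfl }

theorem inK_eqM (K Y E : Subgroup X) [K.Normal]
    (h : ∀ y, y ∈ Y ∧ y ∈ K ↔ y ∈ K ∧ y ∈ Subgroup.centralizer (E : Set X))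
    (g : ↥(Pool.Agent.DPC.FX (MulAut.conjNormal (H := K)) E)) :
    inK K Y (eqM K Y E h g) = (g : K) := rfl

end BTW

open BTW Pool.Agent.DPC in
/-- RCB_BTW: the characters below. -/
theorem BTW_thm (h1 : Pool.Agent.DPX.Stmt_DXMX) (h2 : Stmt_IDG)
    (_h3 : Pool.Agent.DP.Stmt_SUMM) (h4 : Pool.Agent.DPC.Stmt_DGN)
    (h5 : Pool.Agent.DPX.Stmt_HGTX) : Stmt_BTW := by
  intro X _ _ K Y E _ 𝔐 ℓ _ h𝔐 hℓ hE _hEK hYK χ ξ hχ hξ hip hDX χ₁ hχ₁ hcen ξ₁ hξ₁ hip₁
  classical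
  obtain ⟨n, P₁, P, x₀, hAt⟩ := (h1 K 𝔐 ℓ h𝔐 hℓ ξ hξ).1 hDX
  obtain ⟨hn, -, -, -⟩ := (h1 K 𝔐 ℓ h𝔐 hℓ ξ hξ).2 n P₁ P x₀ hAt
  obtain ⟨F, hFi, hFB, hF1, hF2⟩ := h2 K X 𝔐 ℓ n h𝔐 hℓ K.subtype (MulAut.conjNormal (H := K))
    (fun b g => MulAut.conjNormal_apply b g) Subtype.val_injective ξ hξ P₁ P x₀ hAt
  have hprime := h𝔐.isPrime
  have h10 : (1 : (integralClosure ℤ ℂ) ⧸ 𝔐) ≠ 0 := by
    intro h0
    apply hprime.ne_top
    rw [Ideal.eq_top_iff_one]
    exact Ideal.Quotient.eq_zero_iff_mem.1 h0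
  have hFcl : ∀ g x : K, F (g * x * g⁻¹) = F x := by
    intro g x
    have h := hFB (g : X) x
    have h' : MulAut.conjNormal (H := K) (g : X) x = g * x * g⁻¹ := by
      apply Subtype.ext
      rw [MulAut.conjNormal_apply]
      rfl
    rwa [h'] at h
  have hcl : ClG (K.subtype) (MulAut.conjNormal (H := K)) (QuotientGroup.mk' K) := by
    refine ⟨Subtype.val_injective, ?_, ?_⟩
    · intro y a
      exact MulAut.conjNormal_apply y a
    · intro y
      rw [QuotientGroup.mk'_apply, QuotientGroup.eq_one_iff, Subgroup.range_subtype]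
  have hred : red 𝔐 (wt ξ₁ (fun a => F (inK K Y a))) = red 𝔐 (wt ξ F) :=
    Pool.Agent.DPC.RDZ.red_eq 𝔐 hcl hχ hξ hip Y hχ₁ hcen (inK K Y)
      (K.subgroupOf Y).subtype (inK_inj K Y) (fun _ => rfl)
      (fun a ha => ⟨⟨⟨(a : X), ha⟩, Subgroup.mem_subgroupOf.mpr a.2⟩, rfl⟩) hξ₁ hip₁ F hFB hFi
  have hone : red 𝔐 (wt ξ F) = 1 := by
    rw [hF1 ξ hξ, if_pos]
    refine ⟨1, fun g => ?_⟩
    rw [map_one, MulAut.one_apply]
  rw [hone] at hred
  -- an element at which the block does not vanish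
  have hFMcl : ∀ g x : ↥(K.subgroupOf Y), F (inK K Y (g * x * g⁻¹)) = F (inK K Y x) := by
    intro g x
    rw [map_mul, map_mul, map_inv, hFcl]
  obtain ⟨y, hy1, hy2⟩ : ∃ y : ↥(K.subgroupOf Y), red 𝔐 (F (inK K Y y)) ≠ 0 ∧
      cen 𝔐 (MonoidHom.id _) ξ₁ y ≠ 0 := by
    by_contra hcon
    push Not at hcon
    have h6 := red_wt_eq_pair 𝔐 (MonoidHom.id ↥(K.subgroupOf Y)) hξ₁
      (fun a => F (inK K Y a)) hFMcl (fun x => hFi _)
    have h7 : pair 𝔐 (fun a => F (inK K Y a)) (cen 𝔐 (MonoidHom.id ↥(K.subgroupOf Y)) ξ₁) = 0 := by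
      rw [pair]
      refine finsum_eq_zero_of_forall_eq_zero fun C => ?_
      by_cases h8 : red 𝔐 (F (inK K Y C.out)) = 0
      · rw [h8, zero_mul]
      · rw [hcon _ h8, mul_zero]
    rw [h7] at h6
    apply h10
    rw [← hred]
    exact h6
  refine dx_of 𝔐 ℓ h𝔐 hℓ hξ₁ y hy2 ?_ ?_
  · intro Q hQ hQy
    obtain ⟨b, hb⟩ := hF2 (inK K Y y) hy1 (Q.map (inK K Y)) (hQ.map _) (by
      rintro _ ⟨u, hu, rfl⟩
      rw [← map_mul, hQy u hu, map_mul])
    have hPc : IsCyclic P := hAt.cd.cyc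
    let f : Q →* P :=
      { toFun := fun u => ⟨MulAut.conjNormal (H := K) b (inK K Y u),
          hb _ ⟨u, u.2, rfl⟩⟩
        map_one' := by
          apply Subtype.ext
          show MulAut.conjNormal (H := K) b (inK K Y ((1 : Q) : ↥(K.subgroupOf Y))) = 1
          rw [Subgroup.coe_one, map_one, map_one]
        map_mul' := by
          intro u v
          apply Subtype.ext
          show MulAut.conjNormal (H := K) b (inK K Y ((u * v : Q) : ↥(K.subgroupOf Y))) = _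
          rw [Subgroup.coe_mul, map_mul, map_mul]
          rfl }
    refine isCyclic_of_injective f ?_
    intro u v huv
    have h8 : MulAut.conjNormal (H := K) b (inK K Y u) = MulAut.conjNormal (H := K) b (inK K Y v) :=
      congrArg Subtype.val huv
    exact Subtype.ext (inK_inj K Y ((MulAut.conjNormal (H := K) b).injective h8))
  · intro h0
    let e := eqM K Y E hYK
    obtain ⟨ξ', hξ', hd, hF3⟩ := h4 K X 𝔐 ℓ h𝔐 hℓ (MulAut.conjNormal (H := K)) E hE
      (fun g => ξ₁ (e g)) (hξ₁.comp_mulEquiv e) ((hasDefect_comp_equiv e).2 h0)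
    have h6 := hF3 F hFcl (fun b _ x => hFB b x) hFi
    have h7 : wt (fun g => ξ₁ (e g)) (fun x => F (x : K)) = wt ξ₁ (fun a => F (inK K Y a)) :=
      wt_comp_equiv e ξ₁ (fun a => F (inK K Y a))
    rw [h7, hred, hF1 ξ' hξ'] at h6
    have h8 : ∃ b : X, ∀ g, cen 𝔐 (MonoidHom.id K) ξ' g =
        cen 𝔐 (MonoidHom.id K) ξ (MulAut.conjNormal (H := K) b g) := by
      by_contra hcon
      rw [if_neg hcon] at h6
      exact h10 h6
    obtain ⟨b, hb⟩ := h8
    have hcen' : cen 𝔐 (MonoidHom.id K)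
        (fun g => ξ' ((MulAut.conjNormal (H := K) b)⁻¹ g)) = cen 𝔐 (MonoidHom.id K) ξ := by
      funext g
      have h9 : cen 𝔐 (MonoidHom.id K) (fun g => ξ' ((MulAut.conjNormal (H := K) b)⁻¹ g)) g =
          cen 𝔐 (MonoidHom.id K) ξ' ((MulAut.conjNormal (H := K) b)⁻¹ g) := by
        rw [cen, cen, ← wt_comp_equiv ((MulAut.conjNormal (H := K) b)⁻¹ : K ≃* K) ξ']
        congr 2
        funext y
        apply conjInd_congr
        rw [MonoidHom.id_apply, MonoidHom.id_apply]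
        constructor
        · intro h
          exact MonoidHom.map_isConj ((MulAut.conjNormal (H := K) b)⁻¹ : K ≃* K).toMonoidHom h
        · intro h
          have h' := MonoidHom.map_isConj (MulAut.conjNormal (H := K) b : K ≃* K).toMonoidHom h
          have e1 : ∀ z : K, (MulAut.conjNormal (H := K) b : K ≃* K).toMonoidHom
              ((MulAut.conjNormal (H := K) b)⁻¹ z) = z := by
            intro z
            exact MulAut.apply_inv_self _ _ _
          rwa [e1, e1] at h'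
      rw [h9, hb]
      congr 1
      exact MulAut.apply_inv_self _ _ _
    obtain ⟨m, hm, hcard⟩ := h5 K 𝔐 ℓ n h𝔐 hℓ
      (fun g => ξ' ((MulAut.conjNormal (H := K) b)⁻¹ g)) (hξ'.comp_mulEquiv
      ((MulAut.conjNormal (H := K) b)⁻¹ : K ≃* K)) P₁ P x₀ (by
        rw [hcen']
        exact hAt)
    obtain ⟨k, hk1, hk2⟩ := hd
    have hk3 : ξ' ((MulAut.conjNormal (H := K) b)⁻¹ (1 : K)) = k := by
      rw [map_one, hk1]
    rw [hk3] at hcard
    have hcard' : Nat.card K = ℓ ^ n * m * k := by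
      exact_mod_cast hcard
    have hℓp : ℓ.Prime := Fact.out
    have hne : Nat.card K ≠ 0 := Nat.card_pos.ne'
    rw [hcard'] at hne
    have hk0 : k ≠ 0 := right_ne_zero_of_mul hne
    have hlm : ℓ ^ n * m ≠ 0 := left_ne_zero_of_mul hne
    have hm0 : m ≠ 0 := right_ne_zero_of_mul hlm
    rw [hcard', padicValNat.mul hlm hk0, padicValNat.mul (pow_ne_zero _ hℓp.ne_zero) hm0,
      padicValNat.prime_pow] at hk2
    omega

end Pool.Agent.RCB
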