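import Mathlib
import Pool.Agent.RCB.St5
import Pool.Agent.DP.TRBR
import Pool.Agent.DP.CLIFF

/-!
# RCB_CAG: the count over the characters with given central function (orbit counting)
-/

set_option autoImplicit false

namespace Pool.Agent.RCB

open Pool.Agent.DP Pool.Agent.DPV Pool.Agent.DPB Pool.Agent.DPW Pool.Agent.DPX Pool.Agent.DPC
open Pool.Agent.Lib_helper13 Representation

namespace CAG

section

variable {G B C : Type} [Group G] [Group B] [Group C] {ι : G →* B} {κ : B →* MulAut G}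
  {ρ : B →* C}

/-- The order of a subgroup of `B` in terms of its intersection with `G` and its image. -/
theorem card_split [Finite B] (h : ClG ι κ ρ) (S : Subgroup B) :
    Nat.card S = Nat.card (S.comap ι) * Nat.card (S.map ρ) := by
  have h1 := Subgroup.card_eq_card_quotient_mul_card_subgroup (ρ.comp S.subtype).ker
  have h2 : Nat.card (S ⧸ (ρ.comp S.subtype).ker) = Nat.card (S.map ρ) := by
    rw [Nat.card_congr (QuotientGroup.quotientKerEquivRange (ρ.comp S.subtype)).toEquiv]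
    have h3 : (ρ.comp S.subtype).range = S.map ρ := by
      rw [MonoidHom.range_comp, Subgroup.range_subtype]
    rw [h3]
  have h4 : Nat.card (ρ.comp S.subtype).ker = Nat.card (S.comap ι) := by
    symm
    apply Nat.card_congr
    refine Equiv.ofBijective (fun g : S.comap ι => (⟨⟨ι g, g.2⟩, ?_⟩ : (ρ.comp S.subtype).ker))
      ⟨?_, ?_⟩
    · rw [MonoidHom.mem_ker]
      exact (h.ker _).2 ⟨g, rfl⟩
    · intro a b hab
      apply Subtype.ext
      apply h.inj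
      exact congrArg (fun x : (ρ.comp S.subtype).ker => ((x : S) : B)) hab
    · rintro ⟨⟨b, hb⟩, hb'⟩
      obtain ⟨g, hg⟩ := (h.ker b).1 hb'
      refine ⟨⟨g, ?_⟩, ?_⟩
      · rw [Subgroup.mem_comap, hg]
        exact hb
      · apply Subtype.ext
        apply Subtype.ext
        exact hg
  rw [h1, h2, h4, mul_comm]

theorem kappa_iota (h : ClG ι κ ρ) (x : G) : κ (ι x) = MulAut.conj x := by
  ext y
  apply h.inj
  rw [h.act, MulAut.conj_apply, map_mul, map_mul, map_inv]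

theorem stx_comap [Fintype G] [Fintype B] (h : ClG ι κ ρ) {σ : Finset (Subgroup G)} {θ : G → ℂ}
    (hθ : IrrOn (stb σ) θ) : (Stx κ σ θ).comap ι = stb σ := by
  ext x
  rw [Subgroup.mem_comap]
  exact TRBR.iota_mem h hθ x

theorem sw_comap {A : Type} (h : ClG ι κ ρ) (σ : Finset (Subgroup G)) {ω : G → A}
    (hω : ∀ g x, ω (g * x * g⁻¹) = ω x) : (Sw κ σ ω).comap ι = stb σ := by
  ext x
  rw [Subgroup.mem_comap, mem_Sw, mem_stb, kappa_iota h]
  constructor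
  · rintro ⟨h1, -⟩
    exact h1
  · intro h1
    refine ⟨h1, fun g => ?_⟩
    rw [MulAut.conj_apply, hω]

/-- The elements of the stabilizer of the chain which transport `f` to `ω`. -/
theorem card_coset {A : Type} [Finite B] (h : ClG ι κ ρ) (σ : Finset (Subgroup G)) (f ω : G → A)
    {b₀ : B} (hb₀ : b₀ ∈ YS ι σ) (hf : ∀ g, f (κ b₀ g) = ω g) :
    Nat.card {b : YS ι σ // ∀ g, f (κ (b : B) g) = ω g} = Nat.card (Sw κ σ ω) := by
  symm
  apply Nat.card_congr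
  have hle : ∀ s ∈ Sw κ σ ω, s ∈ YS ι σ := fun s hs => (mem_YS_iff h σ).2 hs.1
  refine Equiv.ofBijective (fun s : Sw κ σ ω =>
    (⟨⟨b₀ * s, (YS ι σ).mul_mem hb₀ (hle s s.2)⟩, ?_⟩ :
      {b : YS ι σ // ∀ g, f (κ (b : B) g) = ω g})) ⟨?_, ?_⟩
  · intro g
    change f (κ (b₀ * (s : B)) g) = ω g
    rw [map_mul, MulAut.mul_apply, hf]
    exact s.2.2 g
  · intro a b hab
    have h1 : b₀ * (a : B) = b₀ * (b : B) :=
      congrArg (fun x : {b : YS ι σ // ∀ g, f (κ (b : B) g) = ω g} => ((x : YS ι σ) : B)) hab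
    exact Subtype.ext (mul_left_cancel h1)
  · rintro ⟨⟨b, hb⟩, hb'⟩
    have h2 : b₀⁻¹ * b ∈ YS ι σ := (YS ι σ).mul_mem ((YS ι σ).inv_mem hb₀) hb
    refine ⟨⟨b₀⁻¹ * b, (mem_YS_iff h σ).1 h2, fun g => ?_⟩, ?_⟩
    · rw [← hf, ← MulAut.mul_apply, ← map_mul, mul_inv_cancel_left]
      exact hb' g
    · apply Subtype.ext
      apply Subtype.ext
      change b₀ * (b₀⁻¹ * b) = b
      rw [mul_inv_cancel_left]

end

end CAG

open Classical in
/-- RCB_CAG. -/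
theorem CAG_thm (h0 : Stmt_CAI) (h1 : Stmt_CAT) : Stmt_CAG := by
  intro G B C _ _ _ _ _ 𝔐 ℓ _ hM ι κ ρ hL σ ω Ω d hω hex
  have hCAI := h0 G B C 𝔐 ℓ hM ι κ ρ hL σ Ω d
  have hCAT := h1 G B C 𝔐 ℓ hM ι κ ρ hL σ Ω d
  obtain ⟨F, hF⟩ : ∃ F : (G → ℂ) → ℚ,
      ∀ θ, F θ = (Nat.card (Stx κ σ θ) : ℚ) * nC 𝔐 ℓ d ι κ σ Ω θ := ⟨_, fun _ => rfl⟩
  have hY : ((Nat.card (YS ι σ) : ℕ) : ℚ) ≠ 0 := by
    exact_mod_cast Nat.card_pos.ne'
  have hS : ((Nat.card (stb σ) : ℕ) : ℚ) ≠ 0 := by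
    exact_mod_cast Nat.card_pos.ne'
  let _ : Fintype (YS ι σ) := Fintype.ofFinite _
  -- the double sum, first way
  have hA : ∀ b : YS ι σ, (∑ θ ∈ irrOn (stb σ), if (∀ g, cg 𝔐 θ (κ (b : B) g) = ω g) then F θ
      else 0) = ∑ θ ∈ irrOn (stb σ), if (∀ g, cg 𝔐 θ g = ω g) then F θ else 0 := by
    intro b
    refine Finset.sum_nbij' (fun θ g => θ (κ (b : B) g)) (fun θ g => θ (κ (b : B)⁻¹ g)) ?_ ?_ ?_ ?_ ?_
    · intro θ hθ
      exact CLIFF.mem_irrOn.2 (hCAT b b.2 θ (CLIFF.mem_irrOn.1 hθ)).1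
    · intro θ hθ
      exact CLIFF.mem_irrOn.2 (hCAT (b : B)⁻¹ ((YS ι σ).inv_mem b.2) θ (CLIFF.mem_irrOn.1 hθ)).1
    · intro θ _
      funext g
      change θ (κ (b : B) (κ (b : B)⁻¹ g)) = θ g
      rw [← MulAut.mul_apply, ← map_mul, mul_inv_cancel, map_one, MulAut.one_apply]
    · intro θ _
      funext g
      change θ (κ (b : B)⁻¹ (κ (b : B) g)) = θ g
      rw [← MulAut.mul_apply, ← map_mul, inv_mul_cancel, map_one, MulAut.one_apply]
    · intro θ hθ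
      obtain ⟨-, h2, h3, h4⟩ := hCAT b b.2 θ (CLIFF.mem_irrOn.1 hθ)
      have e1 : (∀ g, cg 𝔐 (fun g => θ (κ (b : B) g)) g = ω g) ↔
          ∀ g, cg 𝔐 θ (κ (b : B) g) = ω g := by
        constructor
        · intro h g; rw [← h2]; exact h g
        · intro h g; rw [h2]; exact h g
      have e2 : F (fun g => θ (κ (b : B) g)) = F θ := by
        rw [hF, hF, h3, h4]
      by_cases hc : ∀ g, cg 𝔐 θ (κ (b : B) g) = ω g
      · rw [if_pos hc, if_pos (e1.2 hc), e2]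
      · rw [if_neg hc, if_neg (fun h => hc (e1.1 h))]
  -- second way
  have hB : ∀ θ ∈ irrOn (stb σ), (∑ b : YS ι σ, if (∀ g, cg 𝔐 θ (κ (b : B) g) = ω g) then F θ
      else 0) = (Nat.card (Sw κ σ ω) : ℚ) * F θ := by
    intro θ hθ
    by_cases hn : nC 𝔐 ℓ d ι κ σ Ω θ = 0
    · have hFz : F θ = 0 := by rw [hF, hn, Nat.cast_zero, mul_zero]
      rw [hFz, mul_zero]
      apply Finset.sum_eq_zero
      intro b _
      split_ifs <;> rfl
    · obtain ⟨b₀, hb₀, hf⟩ := hex θ (CLIFF.mem_irrOn.1 hθ) hn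
      have hc := CAG.card_coset hL.cl σ (cg 𝔐 θ) ω hb₀ hf
      rw [← Finset.sum_filter, Finset.sum_const, nsmul_eq_mul, ← hc, Nat.card_eq_fintype_card,
        Fintype.card_subtype]
  have hD : (Nat.card (YS ι σ) : ℚ) * (∑ θ ∈ irrOn (stb σ), if (∀ g, cg 𝔐 θ g = ω g) then F θ
      else 0) = (Nat.card (Sw κ σ ω) : ℚ) * ∑ θ ∈ irrOn (stb σ), F θ := by
    have e1 : (Nat.card (Sw κ σ ω) : ℚ) * ∑ θ ∈ irrOn (stb σ), F θ =
        ∑ θ ∈ irrOn (stb σ), ∑ b : YS ι σ,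
          if (∀ g, cg 𝔐 θ (κ (b : B) g) = ω g) then F θ else 0 := by
      rw [Finset.mul_sum]
      exact Finset.sum_congr rfl fun θ hθ => (hB θ hθ).symm
    rw [e1, Finset.sum_comm, Finset.sum_congr rfl (fun b _ => hA b), Finset.sum_const,
      nsmul_eq_mul, Finset.card_univ, ← Nat.card_eq_fintype_card]
  have hI : ∑ θ ∈ irrOn (stb σ), F θ =
      (Nat.card (YS ι σ) : ℚ) * cnt 𝔐 ℓ d (YS ι σ).subtype Ω := by
    rw [hCAI]
    exact Finset.sum_congr rfl fun θ _ => hF θ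
  rw [hI] at hD
  have hE : (∑ θ ∈ irrOn (stb σ), if (∀ g, cg 𝔐 θ g = ω g) then F θ else 0) =
      (Nat.card (Sw κ σ ω) : ℚ) * cnt 𝔐 ℓ d (YS ι σ).subtype Ω := by
    apply mul_left_cancel₀ hY
    rw [hD]
    ring
  rw [CAG.card_split hL.cl (Sw κ σ ω), CAG.sw_comap hL.cl σ hω, ← Finset.sum_filter] at hE
  apply mul_left_cancel₀ hS
  rw [← mul_assoc, ← Nat.cast_mul, ← hE, Finset.mul_sum]
  apply Finset.sum_congr rfl
  intro θ hθ
  rw [hF, CAG.card_split hL.cl (Stx κ σ θ),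
    CAG.stx_comap hL.cl (CLIFF.mem_irrOn.1 (Finset.mem_filter.1 hθ).1)]
  push_cast
  ring

end Pool.Agent.RCB
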