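import Mathlib
import Pool.Agent.RCB.St5

/-!
# Theorem P1, module CAI: Clifford theory in the stabilizer of a chain
-/

namespace Pool.Agent.RCB

open Pool.Agent.DP Pool.Agent.DPV Pool.Agent.DPB Pool.Agent.DPW Pool.Agent.DPX
open Pool.Agent.Lib_helper13 Representation

namespace CAI

section Indu

theorem hasDefect_indc (hI : DP.Stmt_IND) {S : Type} [Group S] [Fintype S] {ℓ : ℕ}
    [Fact ℓ.Prime] (I : Subgroup S) {φ : I → ℂ} (hφ : IsIrr φ) (d : ℕ) :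
    HasDefect ℓ (indc I φ) d ↔ HasDefect ℓ φ d := by
  obtain ⟨n, hn0, hn⟩ := hφ.exists_degree
  have h1 := (hI S I φ).1
  have hI : (Nat.card I : ℂ) ≠ 0 := natCard_ne_zero
  have hidx : Nat.card I * I.index = Nat.card S := Subgroup.card_mul_index I
  have hidx0 : I.index ≠ 0 := Subgroup.index_ne_zero_of_finite
  have hI0 : Nat.card I ≠ 0 := Nat.card_pos.ne'
  have h2 : indc I φ 1 = ((I.index * n : ℕ) : ℂ) := by
    apply mul_right_cancel₀ hI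
    rw [h1, hn, ← hidx]
    push_cast
    ring
  have h3 : padicValNat ℓ (Nat.card S) = padicValNat ℓ (Nat.card I) + padicValNat ℓ I.index := by
    rw [← hidx, padicValNat.mul hI0 hidx0]
  have h4 : padicValNat ℓ (I.index * n) = padicValNat ℓ I.index + padicValNat ℓ n :=
    padicValNat.mul hidx0 hn0.ne'
  constructor
  · rintro ⟨m, hm, hd⟩
    refine ⟨n, hn, ?_⟩
    have hm' : m = I.index * n := by
      rw [h2] at hm
      exact_mod_cast hm.symm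
    rw [hm', h4, h3] at hd
    omega
  · rintro ⟨m, hm, hd⟩
    refine ⟨I.index * n, h2, ?_⟩
    have hm' : m = n := by
      rw [hn] at hm
      exact_mod_cast hm.symm
    rw [hm'] at hd
    rw [h4, h3]
    omega

theorem cen_indc (hI : DP.Stmt_IND) {X : Type} [Group X] [Fintype X] {S : Subgroup X}
    (I : Subgroup S) (𝔐 : Ideal (integralClosure ℤ ℂ)) {φ : I → ℂ}
    (hφ : IsIrr φ) (g : X) :
    cen 𝔐 S.subtype (indc I φ) g = cen 𝔐 (S.subtype.comp I.subtype) φ g := by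
  rw [cen, cen]
  congr 1
  refine (hI S I φ).2.2.2 hφ.one_ne_zero (fun y => conjInd (S.subtype y) g) ?_
  intro a x
  change conjInd (((a * x * a⁻¹ : S) : X)) g = conjInd (x : X) g
  rw [Subgroup.coe_mul, Subgroup.coe_mul, Subgroup.coe_inv]
  exact conjInd_conj _ _ _

end Indu

section Stab

variable {G B C : Type} [Group G] [Group B] [Group C]
  {ι : G →* B} {κ : B →* MulAut G} {ρ : B →* C}

theorem mem_iff (h : LocN ι κ ρ) (σ : Finset (Subgroup G)) (θ₀ : stb σ → ℂ) (y : YS ι σ) :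
    y ∈ inert (cS h.cl σ) θ₀ ↔ (y : B) ∈ Stx κ σ (ext0 θ₀) := by
  have hy1 : ∀ D ∈ σ, D.map (κ (y : B)).toMonoidHom = D := (mem_YS_iff h.cl σ).1 y.2
  constructor
  · intro hy
    refine ⟨hy1, fun g => ?_⟩
    by_cases hg : g ∈ stb σ
    · have h2 : κ (y : B) g ∈ stb σ := mem_stb_act h.cl σ y ⟨g, hg⟩
      rw [ext0_of_mem θ₀ hg, ext0_of_mem θ₀ h2]
      exact hy ⟨g, hg⟩
    · have h2 : κ (y : B) g ∉ stb σ := by
        intro h3
        apply hg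
        have h4 := mem_stb_act h.cl σ y⁻¹ ⟨κ (y : B) g, h3⟩
        have h5 : κ ((y⁻¹ : YS ι σ) : B) (κ (y : B) g) = g := by
          rw [← MulAut.mul_apply, ← map_mul]
          simp
        rwa [h5] at h4
      rw [ext0_of_not_mem θ₀ hg, ext0_of_not_mem θ₀ h2]
  · rintro ⟨-, hy⟩ a
    have h2 := hy (a : G)
    rw [ext0_of_mem θ₀ a.2, ext0_of_mem θ₀ (mem_stb_act h.cl σ y a)] at h2
    exact h2

/-- The inertia group in the stabilizer of the chain. -/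
noncomputable def eq (h : LocN ι κ ρ) (σ : Finset (Subgroup G)) (θ₀ : stb σ → ℂ) :
    inert (cS h.cl σ) θ₀ ≃* ↥(Stx κ σ (ext0 θ₀)) where
  toFun s := ⟨((s : YS ι σ) : B), (mem_iff h σ θ₀ s).1 s.2⟩
  invFun t := ⟨⟨(t : B), (mem_YS_iff h.cl σ).2 t.2.1⟩, (mem_iff h σ θ₀ _).2 t.2⟩
  left_inv _ := rfl
  right_inv _ := rfl
  map_mul' _ _ := rfl

theorem ext0_eq (h : LocN ι κ ρ) (σ : Finset (Subgroup G)) (θ₀ : stb σ → ℂ)
    (η : ↥(Stx κ σ (ext0 θ₀)) → ℂ) (a : stb σ) :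
    ext0 (fun s => η (eq h σ θ₀ s)) (jS h.cl σ a) = ext0 η (ι a) := by
  by_cases ha : jS h.cl σ a ∈ inert (cS h.cl σ) θ₀
  · have h2 : ι a ∈ Stx κ σ (ext0 θ₀) := (mem_iff h σ θ₀ _).1 ha
    rw [ext0_of_mem _ ha, ext0_of_mem _ h2]
    rfl
  · have h2 : ι a ∉ Stx κ σ (ext0 θ₀) := fun h3 => ha ((mem_iff h σ θ₀ _).2 h3)
    rw [ext0_of_not_mem _ ha, ext0_of_not_mem _ h2]

theorem ext0_inj {S : Subgroup G} : Function.Injective (fun ψ : S → ℂ => ext0 ψ) := by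
  intro ψ ψ' he
  funext s
  have h1 := congrFun he (s : G)
  change ext0 ψ (s : G) = ext0 ψ' (s : G) at h1
  rw [ext0_of_mem ψ s.2, ext0_of_mem ψ' s.2] at h1
  exact h1

end Stab

end CAI

theorem CAI_thm (h0 : DPC.Stmt_CCN) (h1 : DP.Stmt_IND) : Stmt_CAI := by
  classical
  intro G B C _ _ _ _ _ 𝔐 ℓ _ h𝔐 ι κ ρ h σ Ω d
  have hCC := h0 (stb σ) (YS ι σ) C (jS h.cl σ) (cS h.cl σ) (pS ρ ι σ) (clG_S h.cl σ)
    (fun χ => HasDefect ℓ χ d ∧ ∀ x, cen 𝔐 (YS ι σ).subtype χ x = Ω x)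
  have hcnt : (cnt 𝔐 ℓ d (YS ι σ).subtype Ω : ℚ) = Nat.card {χ : YS ι σ → ℂ // IsIrr χ ∧
    (HasDefect ℓ χ d ∧ ∀ x, cen 𝔐 (YS ι σ).subtype χ x = Ω x)} := rfl
  rw [hcnt, hCC]
  unfold irrOn
  rw [Finset.sum_image (fun ψ _ ψ' _ he => CAI.ext0_inj he)]
  apply Finset.sum_congr rfl
  intro θ₀ _
  have e1 : Nat.card (inert (cS h.cl σ) θ₀) = Nat.card (Stx κ σ (ext0 θ₀)) :=
    Nat.card_congr (CAI.eq h σ θ₀).toEquiv
  have e2 : Nat.card {ψ : inert (cS h.cl σ) θ₀ → ℂ // IsIrr ψ ∧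
      (ip (fun a => ext0 ψ (jS h.cl σ a)) θ₀ ≠ 0 ∧
        (HasDefect ℓ (indc (inert (cS h.cl σ) θ₀) ψ) d ∧
        ∀ x, cen 𝔐 (YS ι σ).subtype (indc (inert (cS h.cl σ) θ₀) ψ) x = Ω x))} =
      nC 𝔐 ℓ d ι κ σ Ω (ext0 θ₀) := by
    unfold nC
    refine card_irr_equiv (CAI.eq h σ θ₀) _ _ ?_
    intro η hη
    have hη' : IsIrr (fun s => η (CAI.eq h σ θ₀ s)) := hη.comp_mulEquiv (CAI.eq h σ θ₀)
    have f1 : (fun a : stb σ => ext0 (fun s => η (CAI.eq h σ θ₀ s)) (jS h.cl σ a)) =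
        fun g : stb σ => ext0 η (ι g) := funext (CAI.ext0_eq h σ θ₀ η)
    have f2 : (fun g : stb σ => ext0 θ₀ (g : G)) = θ₀ := by
      funext g
      rw [ext0_of_mem θ₀ g.2]
    have f3 : ∀ x, cen 𝔐 (YS ι σ).subtype
        (indc (inert (cS h.cl σ) θ₀) (fun s => η (CAI.eq h σ θ₀ s))) x =
        cen 𝔐 (Stx κ σ (ext0 θ₀)).subtype η x := by
      intro x
      rw [CAI.cen_indc h1 _ 𝔐 hη']
      have f4 := congrFun (cen_comp_equiv 𝔐 (CAI.eq h σ θ₀) (Stx κ σ (ext0 θ₀)).subtype η) x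
      exact f4
    rw [f1, f2, CAI.hasDefect_indc h1 _ hη', hasDefect_comp_equiv]
    simp only [f3]
  change (Nat.card (inert (cS h.cl σ) θ₀) : ℚ) * (Nat.card {ψ : inert (cS h.cl σ) θ₀ → ℂ //
    IsIrr ψ ∧ (ip (fun a => ext0 ψ (jS h.cl σ a)) θ₀ ≠ 0 ∧
        (HasDefect ℓ (indc (inert (cS h.cl σ) θ₀) ψ) d ∧
        ∀ x, cen 𝔐 (YS ι σ).subtype (indc (inert (cS h.cl σ) θ₀) ψ) x = Ω x))} : ℚ) = _
  rw [e1, e2]

end Pool.Agent.RCB
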