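import Mathlib
import Pool.Agent.RCB.St5
import Pool.Agent.DPX.StmtsXC
import Pool.Agent.DPC.TJ
import Pool.Agent.DP.TRBR
import Pool.Agent.DP.BLKC

/-!
# RCB_CEQ: corresponding characters contribute the same number
-/

set_option autoImplicit false

namespace Pool.Agent.RCB

open Pool.Agent.DP Pool.Agent.DPV Pool.Agent.DPB Pool.Agent.DPW Pool.Agent.DPX Pool.Agent.DPC
open Pool.Agent.Lib_helper13 Representation

namespace CEQ

section

variable {G B C : Type} [Group G] [Group B] [Group C] {ι : G →* B} {κ : B →* MulAut G}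
  {ρ : B →* C}

theorem comap_map_stx [Fintype G] [Fintype B] (h : LocN ι κ ρ) {σ : Finset (Subgroup G)} {θ : G → ℂ}
    (hθ : IrrOn (stb σ) θ) (hσ : stb σ = ⊤) :
    ((Stx κ σ θ).map ρ).comap ρ = Stx κ σ θ := by
  rw [Subgroup.comap_map_eq, sup_eq_left]
  intro b hb
  obtain ⟨g, rfl⟩ := (h.cl.ker b).1 hb
  rw [TRBR.iota_mem h.cl hθ, hσ]
  exact Subgroup.mem_top _

/-- The stabilizer of `(σ, ψ)` is the stabilizer of `σ` if its image is everything. -/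
theorem stx_eq_YS [Fintype G] [Fintype B] (h : LocN ι κ ρ) {σ : Finset (Subgroup G)} {ψ : G → ℂ}
    (hψ : IrrOn (stb σ) ψ) (ht : (Stx κ σ ψ).map ρ = ⊤) : Stx κ σ ψ = YS ι σ := by
  apply le_antisymm
  · intro b hb
    exact (mem_YS_iff h.cl σ).2 hb.1
  · intro b hb
    have h1 : ρ b ∈ (Stx κ σ ψ).map ρ := by
      rw [ht]
      exact Subgroup.mem_top _
    obtain ⟨s, hs, hsb⟩ := h1
    have hsY : s ∈ YS ι σ := (mem_YS_iff h.cl σ).2 hs.1
    have h2 : ρ (b * s⁻¹) = 1 := by rw [map_mul, map_inv, hsb, mul_inv_cancel]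
    obtain ⟨g, hg⟩ := (h.cl.ker _).1 h2
    have h3 : ι g ∈ YS ι σ := by
      rw [hg]
      exact (YS ι σ).mul_mem hb ((YS ι σ).inv_mem hsY)
    have h4 : g ∈ stb σ := by
      rw [mem_stb]
      intro D hD
      have h5 := (mem_YS_iff h.cl σ).1 h3 D hD
      rwa [TRBR.kappa_iota h.cl] at h5
    have h6 : ι g ∈ Stx κ σ ψ := (TRBR.iota_mem h.cl hψ g).2 h4
    have h7 : b = ι g * s := by rw [hg, inv_mul_cancel_right]
    rw [h7]
    exact (Stx κ σ ψ).mul_mem h6 hs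

end

end CEQ

/-- RCB_CEQ. -/
theorem CEQ_thm (h0 : DPV.Stmt_HATG) (h1 : Stmt_CLT) (h2 : Stmt_CN1) (h3 : Stmt_DFX) :
    Stmt_CEQ := by
  classical
  intro G B C _ _ _ _ _ 𝔐 ℓ n _ hM hl hl2 ι κ ρ h ω P₁ P x₀ hAt hex θ hθ ψ hψ hst hmt Ω d
  have : Finite C := Finite.of_surjective ρ h.surj
  obtain ⟨R, hR⟩ : ∃ R, R = (Stx κ ∅ θ).map ρ := ⟨_, rfl⟩
  have hSR : Stx κ ∅ θ = R.comap ρ := by
    rw [hR, CEQ.comap_map_stx h hθ.1 stb_empty]
  have hR' : (Stx κ {P₁} ψ).map ρ = R := by rw [hR, hst]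
  have hψR : Stx κ {P₁} ψ ≤ R.comap ρ := by
    rw [← Subgroup.map_le_iff_le_comap, hR']
  let _ : Fintype ↥(R.comap ρ) := Fintype.ofFinite _
  -- the prime
  obtain ⟨p, hp1, hp2⟩ := Nat.exists_infinite_primes (Nat.card R + 1)
  have : Fact p.Prime := ⟨hp2⟩
  have hpR : ¬ p ∣ Nat.card R := by
    intro hd
    have := Nat.le_of_dvd Nat.card_pos hd
    omega
  obtain ⟨B', C', _, _, _, ι', κ', ρ', π, hV, hsurj, hemb, hact, -, -⟩ :=
    h0 G ↥(R.comap ρ) R p (iR h R) (kR κ ρ R) (pR ρ R) (locN_R h R) hpR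
  have hCov : Cov (iR h R) (kR κ ρ R) (pR ρ R) ι' κ' ρ' π :=
    ⟨locN_R h R, hV.locN, hsurj, hemb, hact⟩
  have : Finite C' := Finite.of_surjective ρ' hV.surj
  have hst0 : Stx (kR κ ρ R) ∅ θ = ⊤ := by
    rw [Stx_R, hSR]
    ext x
    simp only [Subgroup.mem_top, iff_true]
    exact x.2
  have hst1 : (Stx (kR κ ρ R) {P₁} ψ).map (pR ρ R) = ⊤ := by
    rw [eq_top_iff]
    intro c _
    have h5 : (c : C) ∈ (Stx κ {P₁} ψ).map ρ := by
      rw [hR']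
      exact c.2
    obtain ⟨b, hb, hbc⟩ := h5
    refine ⟨⟨b, hψR hb⟩, hb, Subtype.ext hbc⟩
  have hX : StX 𝔐 ℓ n (kR κ ρ R) ω P₁ P x₀ := by
    refine ⟨hAt, fun b g => ?_, hex⟩
    have hb : (b : B) ∈ Stx κ ∅ θ := by
      rw [hSR]
      exact b.2
    rw [kR_apply, ← hθ.2, ← hθ.2]
    have h5 : (fun x => θ (κ (b : B) x)) = θ := funext hb.2
    rw [← Pool.Agent.DPC.TJ.cg_comp 𝔐 (κ (b : B)) θ g, h5]
  obtain ⟨f, f₁, hf, hf₁, hff, hsc⟩ := h1 G ↥(R.comap ρ) R B' C' 𝔐 ℓ n hM hl hl2 (iR h R) (kR κ ρ R)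
    (pR ρ R) ι' κ' ρ' π hCov hV ω P₁ P x₀ hX θ hθ ψ hψ hst0 hst1 hmt
  have hstY : Stx (kR κ ρ R) {P₁} ψ = YS (iR h R) {P₁} := CEQ.stx_eq_YS (locN_R h R) hψ.1 hst1
  have hstY' : Stx κ' {P₁} ψ = YS ι' {P₁} := by
    rw [Stx_pi hCov, YS_pi hCov, hstY]
  have hfi : IsIrr f := by
    have h5 := hf.1.1
    have h6 : Stx κ' ∅ θ ⊓ (⊤ : Subgroup C').comap ρ' = ⊤ := by
      rw [Stx_pi hCov, hst0, Subgroup.comap_top, Subgroup.comap_top, inf_top_eq]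
    rw [h6] at h5
    exact h5.comp_mulEquiv Subgroup.topEquiv.symm
  have hfi₁ : IrrOn (YS ι' {P₁}) f₁ := by
    have h5 := hf₁.1
    rw [Subgroup.comap_top, inf_top_eq, hstY'] at h5
    exact h5
  have hYt : (YS (iR h R) {P₁}).map (pR ρ R) = ⊤ := by rw [← hstY, hst1]
  have hdf : df ℓ (stb (∅ : Finset (Subgroup G))) θ = df ℓ (stb {P₁}) ψ := by
    obtain ⟨h5, h6⟩ := h3 G 𝔐 ℓ n hM hl ω P₁ P x₀ hAt
    rw [h5 θ hθ.1 hθ.2, h6 ψ hψ.1 hψ.2]
  have hθi : IsIrr θ := by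
    have h5 := hθ.1.1
    exact h5.comp_mulEquiv (BLKC.eE G)
  have key := h2 G ↥(R.comap ρ) R B' C' B 𝔐 ℓ hM hl (iR h R) (kR κ ρ R) (pR ρ R) ι' κ' ρ' π
    (R.comap ρ).subtype hCov P₁ θ ψ hAt.cd.c1 hθi hψ.1 f f₁ hfi hf.2 hfi₁ hf₁.2 hYt
    (fun g => congrFun hff g) hsc hdf Ω d
  -- the two sides
  have hL : nC 𝔐 ℓ d ι κ ∅ Ω θ = Nat.card {η : ↥(R.comap ρ) → ℂ // IsIrr η ∧
      ip (resj (iR h R) η) θ ≠ 0 ∧ HasDefect ℓ η d ∧
        ∀ x, cen 𝔐 (R.comap ρ).subtype η x = Ω x} := by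
    unfold nC
    refine card_irr_equiv (MulEquiv.subgroupCongr hSR) _ _ ?_
    intro η _
    have f1 : ip (fun g : stb (∅ : Finset (Subgroup G)) =>
        ext0 (fun s => η (MulEquiv.subgroupCongr hSR s)) (ι g))
        (fun g : stb (∅ : Finset (Subgroup G)) => θ g) = ip (resj (iR h R) η) θ := by
      rw [← BLKC.ip_comp_equiv (BLKC.eE G)]
      congr 1
      funext g
      have hm : ι ((BLKC.eE G g : stb (∅ : Finset (Subgroup G))) : G) ∈ Stx κ ∅ θ := by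
        rw [hSR]
        exact (iR h R g).2
      rw [ext0_of_mem _ hm]
      rfl
    have f3 : ∀ x, cen 𝔐 (Stx κ ∅ θ).subtype (fun s => η (MulEquiv.subgroupCongr hSR s)) x =
        cen 𝔐 (R.comap ρ).subtype η x := by
      intro x
      exact congrFun (cen_comp_equiv 𝔐 (MulEquiv.subgroupCongr hSR) (R.comap ρ).subtype η) x
    rw [f1, hasDefect_comp_equiv]
    simp only [f3]
  have hYS : YS (iR h R) {P₁} = (Stx κ {P₁} ψ).subgroupOf (R.comap ρ) := by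
    rw [← hstY, Stx_R]
    rfl
  let e : ↥(Stx κ {P₁} ψ) ≃* ↥(YS (iR h R) {P₁}) :=
    (Subgroup.subgroupOfEquivOfLe hψR).symm.trans (MulEquiv.subgroupCongr hYS.symm)
  have he : ∀ s, (((e s : ↥(YS (iR h R) {P₁})) : ↥(R.comap ρ)) : B) = s := fun s => rfl
  have hRt : nC 𝔐 ℓ d ι κ {P₁} Ω ψ = Nat.card {η : ↥(YS (iR h R) {P₁}) → ℂ // IsIrr η ∧
        ip (fun g : stb {P₁} => ext0 η (iR h R g)) (fun g : stb {P₁} => ψ g) ≠ 0 ∧
        HasDefect ℓ η d ∧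
        ∀ x, cen 𝔐 ((R.comap ρ).subtype.comp (YS (iR h R) {P₁}).subtype) η x = Ω x} := by
    unfold nC
    refine card_irr_equiv e _ _ ?_
    intro η _
    have f1 : (fun g : stb {P₁} => ext0 (fun s => η (e s)) (ι g)) =
        fun g : stb {P₁} => ext0 η (iR h R g) := by
      funext g
      have hm : ι (g : G) ∈ Stx κ {P₁} ψ := (TRBR.iota_mem h.cl hψ.1 _).2 g.2
      have hm' : iR h R (g : G) ∈ YS (iR h R) {P₁} := by
        rw [hYS]
        exact hm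
      rw [ext0_of_mem _ hm, ext0_of_mem _ hm']
      rfl
    have f3 : ∀ x, cen 𝔐 (Stx κ {P₁} ψ).subtype (fun s => η (e s)) x =
        cen 𝔐 ((R.comap ρ).subtype.comp (YS (iR h R) {P₁}).subtype) η x := by
      intro x
      exact congrFun (cen_comp_equiv 𝔐 e ((R.comap ρ).subtype.comp (YS (iR h R) {P₁}).subtype) η) x
    rw [f1, hasDefect_comp_equiv]
    simp only [f3]
  rw [hL, hRt]
  exact key

end Pool.Agent.RCB
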