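import Mathlib
import Pool.Agent.RCB.St5

/-!
# RCB_CFB: the sums over the cosets are integral and agree modulo `𝔐`
-/

namespace Pool.Agent.RCB

open Pool.Agent.DP Pool.Agent.DPV Pool.Agent.DPB Pool.Agent.DPW Pool.Agent.DPX Pool.Agent.DPC
open Pool.Agent.Lib_helper13 Representation

namespace CFB

theorem isChr {Y : Type} [Group Y] {θ : Y → ℂ} (h : IsIrr θ) : IsChr θ := by
  obtain ⟨n, r, -, h⟩ := h
  exact ⟨n, r, h⟩

section

variable {B : Type} [Group B]

theorem cjT_integral (T : Subgroup B) (x g : B) : IsIntegral ℤ (cjT T x g) := by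
  unfold cjT
  split_ifs
  · exact isIntegral_one
  · exact isIntegral_zero

theorem cjT_conj {T : Subgroup B} {u : B} (hu : u ∈ T) (x g : B) :
    cjT T (u * x * u⁻¹) g = cjT T x g := by
  have h1 : (∃ t ∈ T, u * x * u⁻¹ = t * g * t⁻¹) ↔ ∃ t ∈ T, x = t * g * t⁻¹ := by
    constructor
    · rintro ⟨t, ht, h⟩
      refine ⟨u⁻¹ * t, T.mul_mem (T.inv_mem hu) ht, ?_⟩
      have h2 : x = u⁻¹ * (u * x * u⁻¹) * u := by group
      rw [h2, h]
      group
    · rintro ⟨t, ht, h⟩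
      refine ⟨u * t, T.mul_mem hu ht, ?_⟩
      rw [h]
      group
  unfold cjT
  by_cases h : ∃ t ∈ T, x = t * g * t⁻¹
  · rw [if_pos h, if_pos (h1.mpr h)]
  · rw [if_neg h, if_neg (fun h' => h (h1.mp h'))]

theorem irrOn_top [Fintype B] {θ : B → ℂ} (h : IsIrr θ) : IrrOn (⊤ : Subgroup B) θ := by
  refine ⟨?_, fun x hx => absurd (Subgroup.mem_top x) hx⟩
  exact h.comp_mulEquiv (Subgroup.topEquiv (G := B))

theorem sum_sub [Fintype B] (S : Subgroup B) (g : B → ℂ) (hg : ∀ x, x ∉ S → g x = 0) :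
    ∑ y : S, g y = ∑ x, g x := by
  classical
  have e1 : ∑ x ∈ Finset.univ.filter (fun x => x ∈ S), g x = ∑ y : S, g y :=
    Finset.sum_subtype _ (fun x => by simp) g
  rw [← e1, Finset.sum_filter]
  refine Finset.sum_congr rfl fun x _ => ?_
  split_ifs with h
  · rfl
  · exact (hg x h).symm

end

end CFB

theorem CFB_thm (h0 : DPC.Stmt_FIBI) (h1 : DP.Stmt_INTH) (h2 : DPV.Stmt_EXPV) : Stmt_CFB := by
  intro G B C _ _ _ _ _ 𝔐 ι κ ρ h P₁ χ ψ f f₁ hχ hψ hf hfχ hf₁ hfψ hcg F hF hFi c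
  classical
  have hcl := h.cl
  have hf1 : f 1 = χ 1 := by rw [← hfχ 1, map_one]
  have hf₁1 : f₁ 1 = ψ 1 := by rw [← hfψ 1, map_one]
  have i1 := (h0 G B C 𝔐 ι κ ρ hcl χ f hχ (CFB.isChr hf) hfχ).1 F hF hFi c
  have i2 := (h0 (stb {P₁}) (YS ι {P₁}) C 𝔐 (jS hcl {P₁}) (cS hcl {P₁}) (pS ρ ι {P₁})
    (clG_S hcl {P₁}) (fun g : stb {P₁} => ψ g) (fun y : YS ι {P₁} => f₁ y) hψ.1
    (CFB.isChr hf₁.1) (fun a => hfψ a)).1 (fun y : YS ι {P₁} => F y) (fun a x => hF a x)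
    (fun x => hFi x) c
  refine ⟨i1, i2, ?_⟩
  -- the function supported on the coset
  have ha : ∀ g x, (if ρ (ι g * x * (ι g)⁻¹) = c then F (ι g * x * (ι g)⁻¹) else 0) =
      if ρ x = c then F x else 0 := by
    intro g x
    have e1 : ρ (ι g * x * (ι g)⁻¹) = ρ x := by
      rw [map_mul, map_mul, map_inv, rho_iota h, inv_one, mul_one, one_mul]
    rw [e1, hF]
  have hai : ∀ x, IsIntegral ℤ (if ρ x = c then F x else 0) := by
    intro x
    split_ifs
    · exact hFi x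
    · exact isIntegral_zero
  have j1 : ∀ t, IsIntegral ℤ ((∑ x, cjT ι.range x t * f x) / f 1) := by
    intro t
    refine h1 G B C ι κ ρ hcl ⊤ f (CFB.irrOn_top hf) ?_ (fun x => cjT ι.range x t)
      (fun x => CFB.cjT_integral _ _ _) (fun g x => CFB.cjT_conj (MonoidHom.mem_range.mpr ⟨g, rfl⟩) _ _)
    rw [Subgroup.comap_top, funext hfχ]
    exact CFB.irrOn_top hχ
  have j2 : ∀ t, IsIntegral ℤ ((∑ x, cjT ι.range x t * f₁ x) / f₁ 1) := by
    intro t
    refine h1 G B C ι κ ρ hcl (YS ι {P₁}) f₁ hf₁ ?_ (fun x => cjT ι.range x t)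
      (fun x => CFB.cjT_integral _ _ _) (fun g x => CFB.cjT_conj (MonoidHom.mem_range.mpr ⟨g, rfl⟩) _ _)
    have e1 : (YS ι {P₁}).comap ι = stb {P₁} := by
      ext g
      rw [Subgroup.mem_comap]
      exact mem_YS hcl {P₁}
    rw [e1, funext hfψ]
    exact hψ
  have h3 := (h2 G B 𝔐 ι f f₁ j1 j2 (fun x => if ρ x = c then F x else 0) ha hai).2.2 1
    (fun t _ => by rw [one_mul, hcg])
  rw [one_mul] at h3
  have e1 : fib ρ f (χ 1) F c = wt f (fun x => if ρ x = c then F x else 0) := by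
    unfold fib wt
    rw [hf1]
    congr 1
    refine Finset.sum_congr rfl fun x _ => ?_
    show (if ρ x = c then F x * f x else 0) = (if ρ x = c then F x else 0) * f x
    by_cases hx : ρ x = c
    · rw [if_pos hx, if_pos hx]
    · rw [if_neg hx, if_neg hx, zero_mul]
  have e2 : fib (pS ρ ι {P₁}) (fun y : YS ι {P₁} => f₁ y) (ψ 1) (fun y : YS ι {P₁} => F y) c =
      wt f₁ (fun x => if ρ x = c then F x else 0) := by
    unfold fib wt
    rw [hf₁1]
    congr 1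
    rw [← CFB.sum_sub (YS ι {P₁}) (fun x => (if ρ x = c then F x else 0) * f₁ x)
      (fun x hx => by rw [hf₁.2 x hx, mul_zero])]
    refine Finset.sum_congr rfl fun x _ => ?_
    show (if ρ x = c then F x * f₁ x else 0) = (if ρ x = c then F x else 0) * f₁ x
    by_cases hx : ρ x = c
    · rw [if_pos hx, if_pos hx]
    · rw [if_neg hx, if_neg hx, zero_mul]
  rw [e1, e2, h3]

end Pool.Agent.RCB
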