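import Mathlib
import Pool.Agent.RCB.St5
import Pool.Agent.DP.QB

/-!
# CGL: the characters of a quotient over an extendible character
-/

set_option autoImplicit false

namespace Pool.Agent.RCB

open Pool.Agent.DP Pool.Agent.DPV Pool.Agent.DPB Pool.Agent.DPW Pool.Agent.DPX Pool.Agent.DPC
open Pool.Agent.Lib_helper13 Representation

namespace CGL

/-- deflation of a character with value `θ 1` on the kernel -/
theorem defl_of_eq {S T : Type} [Group S] [Fintype S] [Group T] [Fintype T] {q : S →* T}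
    (hq : Function.Surjective q) {θ : S → ℂ} (hθ : IsIrr θ) (h1 : θ 1 ≠ 0)
    (hw : ∀ w, q w = 1 → θ w = θ 1) : ∃ ψ : T → ℂ, IsIrr ψ ∧ ∀ s, θ s = ψ (q s) := by
  classical
  apply QB.defl hq hθ
  have h2 : ∑ n : q.ker, θ n = (Fintype.card q.ker : ℂ) * θ 1 := by
    rw [Finset.sum_congr rfl fun n _ => hw n.1 (MonoidHom.mem_ker.1 n.2), Finset.sum_const,
      Finset.card_univ, nsmul_eq_mul]
  rw [h2]
  refine mul_ne_zero ?_ h1
  exact_mod_cast Fintype.card_ne_zero

end CGL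

/-- CGL -/
theorem CGL_thm (h0 : DP.Stmt_GALL) : Stmt_CGL := by
  intro N H H' C' _ _ _ _ _ _ _ _ j c p q hcl hp hq ψ f hψ hf hres
  obtain ⟨g1, g2, g3⟩ := h0 N H' C' j c p hcl hp ψ f hψ hf hres
  have hf1 : f 1 ≠ 0 := by
    have h1 := hres 1
    rw [map_one] at h1
    rw [h1]
    exact hψ.one_ne_zero
  have ex : ∀ R : {R : C' → ℂ // IsIrr R ∧ ∀ w, q w = 1 → f w * R (p w) = f 1 * R 1},
      ∃ η : H → ℂ, IsIrr η ∧ ∀ y, f y * R.1 (p y) = η (q y) := by
    rintro ⟨R, hR, hw⟩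
    refine CGL.defl_of_eq hq (g1 R hR).1 ?_ ?_
    · rw [map_one]
      exact mul_ne_zero hf1 hR.one_ne_zero
    · intro w hqw
      rw [map_one]
      exact hw w hqw
  choose E hE1 hE2 using ex
  have hne : ∀ R, ip (fun g => E R (q (j g))) ψ ≠ 0 := by
    intro R
    have h1 := (g1 R.1 R.2.1).2
    have h2 : resj j (fun y => f y * R.1 (p y)) = fun g => E R (q (j g)) := by
      funext g
      exact hE2 R (j g)
    rw [h2] at h1
    exact h1
  refine ⟨Equiv.ofBijective (fun R => ⟨E R, hE1 R, hne R⟩) ⟨?_, ?_⟩, fun R y =>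
    (hE2 R y).symm⟩
  · intro R R' h
    have h1 : E R = E R' := congrArg Subtype.val h
    apply Subtype.ext
    apply g2 R.1 R'.1 R.2.1 R'.2.1
    funext y
    rw [hE2 R y, hE2 R' y, h1]
  · rintro ⟨η, hη, hηψ⟩
    obtain ⟨R, hR, hR2⟩ := g3 (fun y => η (q y)) (QB.infl hq hη) hηψ
    have hw : ∀ w, q w = 1 → f w * R (p w) = f 1 * R 1 := by
      intro w hqw
      have h1 := congrFun hR2 w
      have h2 := congrFun hR2 1
      rw [hqw] at h1
      rw [map_one, map_one] at h2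
      rw [← h1, ← h2]
    refine ⟨⟨R, hR, hw⟩, ?_⟩
    apply Subtype.ext
    funext x
    obtain ⟨y, rfl⟩ := hq x
    have h1 := congrFun hR2 y
    have h2 := hE2 ⟨R, hR, hw⟩ y
    change E ⟨R, hR, hw⟩ (q y) = η (q y)
    rw [← h2, ← h1]

end Pool.Agent.RCB
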