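import Pool.Agent.RCB.St1
import Pool.Agent.DPX.CHNX
import Pool.Agent.DP.IRRPI

/-!
# Theorem P1, module CHG: only the chains of subgroups conjugate to subgroups of the defect group
contribute
-/

set_option autoImplicit false

namespace Pool.Agent.RCB

open Pool.Agent.DP Pool.Agent.DPV Pool.Agent.DPB Pool.Agent.DPW Pool.Agent.DPX
open Pool.Agent.Lib_helper13 Representation

/-- CHG. -/
theorem CHG_thm (h1 : Stmt_GEL) : Stmt_CHG := by
  classical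
  intro G B C _ _ _ _ _ 𝔐 ℓ n _ h𝔐 hℓ ι κ ρ hL χ ξ hχ hξ hover P₁ P x₀ hAt τ hτ ψ hψ hcen
  have hinj := hL.cl.inj
  have hact := hL.cl.act
  rcases τ.eq_empty_or_nonempty with hne | hne
  · exact ⟨1, fun D hD => by rw [hne] at hD; exact absurd hD (Finset.notMem_empty D)⟩
  -- the chain in `B`
  have hσ : IsCh ℓ ⊥ (mapCh ι τ) := by
    have h2 := (isCh_mapCh_iff hinj (ℓ := ℓ) (Z := ⊥) (τ := τ)).mpr hτ
    rwa [Subgroup.map_bot] at h2
  have hσne : (mapCh ι τ).Nonempty := by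
    obtain ⟨D, hD⟩ := hne
    exact ⟨D.map ι, mem_mapCh.mpr ⟨D, hD, rfl⟩⟩
  obtain ⟨Q, hQ, hQmax⟩ := hσ.exists_top hσne
  have hRp : IsPGroup ℓ ↥(Q ⊓ stb (mapCh ι τ)) := (hσ.1 Q hQ).1.to_le inf_le_left
  -- the element
  obtain ⟨x, hx, hxQ⟩ := h1 G B C 𝔐 ℓ n h𝔐 hℓ ι κ ρ hL χ ξ hχ hξ hover P₁ P x₀ hAt
  have hirr : IrrOn (stb (mapCh ι τ)) (ext0 ψ) := IRRPI.irrOn_ext0 hψ
  have hcg : cg 𝔐 (ext0 ψ) (ι x) ≠ 0 := by
    rw [← AA.cg_eq 𝔐 (stb (mapCh ι τ)) hirr]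
    have e : (fun s : stb (mapCh ι τ) => ext0 ψ (s : B)) = ψ := by
      funext s
      rw [ext0_of_mem ψ s.2]
    rw [e]
    have h3 := congrFun hcen (ι x)
    change cen 𝔐 (stb (mapCh ι τ)).subtype ψ (ι x) ≠ 0
    rw [h3]
    exact hx
  obtain ⟨t, ht⟩ := CHNW.exists_conj 𝔐 h𝔐 hℓ (S := stb (mapCh ι τ))
    (R := Q ⊓ stb (mapCh ι τ)) hirr inf_le_right
    (fun s hs r hr => ⟨((mem_stb'.mp hs) Q hQ r).mp hr.1,
      (stb (mapCh ι τ)).mul_mem ((stb (mapCh ι τ)).mul_mem hs hr.2)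
        ((stb (mapCh ι τ)).inv_mem hs)⟩) hRp (x₀ := ι x) hcg
  -- the inverse image in `G`
  set V : Subgroup G := (Q ⊓ stb (mapCh ι τ)).comap ι with hV
  have hVmap : V.map ι = Q ⊓ stb (mapCh ι τ) := by
    apply Subgroup.map_comap_eq_self
    obtain ⟨D, _, hD⟩ := mem_mapCh.mp hQ
    refine inf_le_left.trans ?_
    rw [← hD, MonoidHom.range_eq_map]
    exact Subgroup.map_mono le_top
  have hVp : IsPGroup ℓ V := hRp.comap_of_injective ι hinj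
  obtain ⟨b, hb⟩ := hxQ (V.map (κ t⁻¹).toMonoidHom) (hVp.map _) (by
    rintro _ ⟨v, hv, rfl⟩
    apply hinj
    have h4 := ht (ι v) hv
    have e : ι ((κ t⁻¹).toMonoidHom v) = t⁻¹ * ι v * t := by
      change ι (κ t⁻¹ v) = _
      rw [hact, inv_inv]
    rw [map_mul, map_mul, e]
    calc t⁻¹ * ι v * t * ι x = t⁻¹ * (ι v * (t * ι x * t⁻¹)) * t := by group
      _ = t⁻¹ * (t * ι x * t⁻¹ * ι v) * t := by rw [h4]
      _ = ι x * (t⁻¹ * ι v * t) := by group)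
  have hVP : ∀ v ∈ V, κ (b * t⁻¹) v ∈ P := by
    intro v hv
    have h5 := hb (κ t⁻¹ v) ⟨v, hv, rfl⟩
    rw [map_mul]
    exact h5
  have hVcyc : IsCyclic V := by
    have hPcyc := hAt.cd.cyc
    refine isCyclic_of_injective (G := V) (G' := P)
      (((κ (b * t⁻¹)).toMonoidHom.comp (Subgroup.subtype _)).codRestrict P
        fun q => hVP q q.2) ?_
    intro u v huv
    have h6 := congrArg (fun z : P => (z : G)) huv
    exact Subtype.ext ((κ (b * t⁻¹)).injective h6)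
  have hRcyc : IsCyclic ↥(Q ⊓ stb (mapCh ι τ)) := by
    rw [← hVmap]
    exact isCyclic_of_surjective (V.equivMapOfInjective ι hinj)
      (V.equivMapOfInjective ι hinj).surjective
  have hall := CHNX.le_stb_of_cyc hσ hQmax hRcyc
  refine ⟨b * t⁻¹, fun D hD => ?_⟩
  rintro _ ⟨u, hu, rfl⟩
  apply hVP u
  exact hall (D.map ι) (mem_mapCh.mpr ⟨D, hD, rfl⟩) ⟨u, hu, rfl⟩

end Pool.Agent.RCB
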