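import Pool.Agent.RCB.St5
import Pool.Agent.DPX.StmtsXC
import Pool.Agent.DPC.EXTBR
import Pool.Agent.DPC.EXTAR

/-!
# RCB_CLR: the quotients of the `r`-subgroups, `r ≠ ℓ`, are cyclic
-/

namespace Pool.Agent.RCB

open Pool.Agent.DP Pool.Agent.DPV Pool.Agent.DPB Pool.Agent.DPW Pool.Agent.DPX Pool.Agent.DPC
open Pool.Agent.Lib_helper13 Representation

namespace CLR

/-- Pull back of an irreducible character whose further pull back is irreducible. -/
theorem irr_pull {T S A : Type} [Group T] [Group S] [Group A] [Finite A] (φ : S →* T) (j : A →* S)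
    {F : T → ℂ} (hF : IsIrr F) (hA : IsIrr (fun a => F (φ (j a)))) : IsIrr (fun s => F (φ s)) := by
  have : Fintype A := Fintype.ofFinite A
  obtain ⟨n, r, hr, hc⟩ := hF
  let r' : Representation ℂ S (Fin n → ℂ) := r.comp φ
  have hc' : r'.character = fun s : S => F (φ s) := by
    funext s
    exact congrFun hc (φ s)
  refine ⟨n, r', Pool.Agent.DPC.EXTBR.irr_of_comp j r' ?_, hc'⟩
  rw [hc']
  exact hA

section

variable {G B C : Type} [Group G] [Group B] [Group C] {ι : G →* B} {κ : B →* MulAut G}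
  {ρ : B →* C}

/-- Restriction of an extension to the inverse image of `R`. -/
theorem extL_R [Finite G] (h : LocN ι κ ρ) (R : Subgroup C) {σ : Finset (Subgroup G)} {ψ : G → ℂ}
    (hψ : IrrOn (stb σ) ψ) {f : B → ℂ} (hf : ExtL ι κ ρ σ ψ ⊤ f) :
    ExtL (iR h R) (kR κ ρ R) (pR ρ R) σ ψ ⊤ (fun x => f (x : B)) := by
  refine ⟨⟨?_, ?_⟩, fun g => hf.2 g⟩
  · let φ : ↥(Stx (kR κ ρ R) σ ψ ⊓ (⊤ : Subgroup R).comap (pR ρ R)) →*
        ↥(Stx κ σ ψ ⊓ (⊤ : Subgroup C).comap ρ) :=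
      ((R.comap ρ).subtype.comp (Subgroup.subtype _)).codRestrict _ (fun x =>
        Subgroup.mem_inf.2 ⟨(Subgroup.mem_inf.1 x.2).1, Subgroup.mem_top _⟩)
    let j : ↥(stb σ) →* ↥(Stx (kR κ ρ R) σ ψ ⊓ (⊤ : Subgroup R).comap (pR ρ R)) :=
      ((iR h R).comp (stb σ).subtype).codRestrict _ (fun a => by
        have hc := Pool.Agent.DPC.EXTAR.comap_eq (locN_R h R).cl hψ (⊤ : Subgroup R)
        have h1 : (a : G) ∈ (Stx (kR κ ρ R) σ ψ ⊓ (⊤ : Subgroup R).comap (pR ρ R)).comap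
            (iR h R) := by
          rw [hc]
          exact a.2
        exact h1)
    have h2 := irr_pull φ j (F := fun s : ↥(Stx κ σ ψ ⊓ (⊤ : Subgroup C).comap ρ) => f s) hf.1.1 ?_
    · exact h2
    · have h3 : (fun a : stb σ => f ((φ (j a) :
          ↥(Stx κ σ ψ ⊓ (⊤ : Subgroup C).comap ρ)) : B)) = fun a : stb σ => ψ a := by
        funext a
        exact hf.2 a
      rw [h3]
      exact hψ.1
  · intro x hx
    apply hf.1.2
    intro hx2
    exact hx (Subgroup.mem_inf.2 ⟨(Subgroup.mem_inf.1 hx2).1, Subgroup.mem_top _⟩)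

/-- The central function of the restriction. -/
theorem cgT_R (h : LocN ι κ ρ) (R : Subgroup C) (𝔐 : Ideal (integralClosure ℤ ℂ)) [Fintype B]
    [Fintype ↥(R.comap ρ)] (f : B → ℂ) (t : ↥(R.comap ρ)) :
    cgT 𝔐 (iR h R).range (fun x : ↥(R.comap ρ) => f x) t = cgT 𝔐 ι.range f t := by
  classical
  unfold cgT
  congr 2
  have h1 : ∀ x : B, cjT ι.range x (t : B) * f x ≠ 0 → x ∈ R.comap ρ := by
    intro x hx
    have h2 : cjT ι.range x (t : B) ≠ 0 := left_ne_zero_of_mul hx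
    have h3 : ∃ u ∈ ι.range, x = u * (t : B) * u⁻¹ := by
      by_contra h3
      exact h2 (if_neg h3)
    obtain ⟨u, ⟨g, rfl⟩, rfl⟩ := h3
    rw [Subgroup.mem_comap, map_mul, map_mul, map_inv, rho_iota h, one_mul, inv_one, mul_one]
    exact t.2
  have h2 : ∑ x : B, cjT ι.range x (t : B) * f x =
      ∑ x ∈ Finset.univ.filter (fun x => x ∈ R.comap ρ), cjT ι.range x (t : B) * f x := by
    symm
    apply Finset.sum_filter_of_ne
    intro x _ hx
    exact h1 x hx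
  rw [h2, Finset.sum_subtype (Finset.univ.filter (fun x => x ∈ R.comap ρ))
    (p := fun x => x ∈ R.comap ρ) (fun x => by simp)]
  refine Finset.sum_congr rfl fun x _ => ?_
  congr 1
  unfold cjT
  congr 1
  apply propext
  constructor
  · rintro ⟨u, ⟨g, rfl⟩, hu⟩
    exact ⟨ι g, ⟨g, rfl⟩, congrArg Subtype.val hu⟩
  · rintro ⟨u, ⟨g, rfl⟩, hu⟩
    exact ⟨iR h R g, ⟨g, rfl⟩, Subtype.ext hu⟩

end

end CLR

/-- CLR. -/
theorem CLR_thm (h0 : Stmt_CYCX) : Stmt_CLR := by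
  classical
  intro G B C _ _ _ _ _ 𝔐 ℓ n _ hM hl ι κ ρ h P₁ P x₀ ω hAt hθ ψ hψ hcg hst f hf r hr hrl R hR
  haveI : Finite C := Finite.of_surjective ρ h.surj
  haveI : Fact r.Prime := ⟨hr⟩
  haveI : Fintype ↥(R.comap ρ) := Fintype.ofFinite _
  have hcop : ¬ ℓ ∣ Nat.card R := by
    obtain ⟨m, hm⟩ := IsPGroup.iff_card.1 hR
    rw [hm]
    intro hd
    have h1 : ℓ ∣ r := (Fact.out : ℓ.Prime).dvd_of_dvd_pow hd
    exact hrl ((Nat.prime_dvd_prime_iff_eq (Fact.out : ℓ.Prime) hr).1 h1).symm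
  have htop : (⊤ : Subgroup R) ≤ (Stx (kR κ ρ R) {P₁} ψ).map (pR ρ R) := by
    intro c _
    have h1 : (c : C) ∈ (Stx κ {P₁} ψ).map ρ := by
      rw [hst]
      exact Subgroup.mem_top _
    obtain ⟨b, hb, hbc⟩ := h1
    refine ⟨⟨b, ?_⟩, hb, Subtype.ext hbc⟩
    rw [Subgroup.mem_comap, hbc]
    exact c.2
  obtain ⟨c0, -, h2⟩ := h0 G ↥(R.comap ρ) R 𝔐 ℓ n hM hl (iR h R) (kR κ ρ R) (pR ρ R) (locN_R h R)
    hcop P₁ P x₀ ω hAt hθ ψ hψ hcg ⊤ htop (fun x => f (x : B)) (CLR.extL_R h R hψ hf)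
  refine ⟨c0, c0.2, fun c hc => ?_⟩
  obtain ⟨k, t, h3, h4⟩ := h2 ⟨c, hc⟩ (Subgroup.mem_top _)
  refine ⟨k, t, ?_, ?_⟩
  · have h5 := congrArg Subtype.val h3
    rw [pR_coe] at h5
    rw [h5]
    rfl
  · rw [CLR.cgT_R h R 𝔐 f t] at h4
    exact h4

end Pool.Agent.RCB
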