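import Mathlib
import Pool.Agent.RCB.St5
import Pool.Agent.DP.COSET

/-!
# RCB_CNA: the weights of the characters of the covering group
-/

namespace Pool.Agent.RCB

open Pool.Agent.DP Pool.Agent.DPV Pool.Agent.DPB Pool.Agent.DPW Pool.Agent.DPX Pool.Agent.DPC
open Pool.Agent.Lib_helper13 Representation

namespace CNA

theorem sum_comp_surj {X Y : Type*} [Group X] [Fintype X] [Group Y] [Fintype Y] (p : X →* Y)
    (hp : Function.Surjective p) (f : Y → ℂ) :
    ∑ x, f (p x) = (Nat.card p.ker : ℂ) * ∑ y, f y := by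
  classical
  rw [← Finset.sum_fiberwise_of_maps_to (s := Finset.univ) (t := Finset.univ) (g := p)
    (fun x _ => Finset.mem_univ (p x)), Finset.mul_sum]
  refine Finset.sum_congr rfl fun y _ => ?_
  obtain ⟨x0, rfl⟩ := hp y
  have h1 : ∑ x ∈ Finset.univ.filter (fun x => p x = p x0), f (p x) =
      ∑ x ∈ Finset.univ.filter (fun x => p x = p x0), f (p x0) := by
    refine Finset.sum_congr rfl fun x hx => ?_
    rw [(Finset.mem_filter.1 hx).2]
  rw [h1, Finset.sum_const, nsmul_eq_mul]
  congr 2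
  have h2 : Finset.univ.filter (fun x => p x = p x0) =
      (Finset.univ : Finset p.ker).image (fun k : p.ker => x0 * (k : X)) := by
    ext x
    simp only [Finset.mem_filter, Finset.mem_univ, true_and, Finset.mem_image]
    constructor
    · intro h
      refine ⟨⟨x0⁻¹ * x, ?_⟩, ?_⟩
      · rw [MonoidHom.mem_ker, map_mul, map_inv, h, inv_mul_cancel]
      · simp
    · rintro ⟨k, rfl⟩
      rw [map_mul, MonoidHom.mem_ker.1 k.2, mul_one]
  rw [h2, Finset.card_image_of_injective _ (fun a b h => Subtype.ext (mul_left_cancel h)),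
    Finset.card_univ, Nat.card_eq_fintype_card]

/-- An element which commutes with the normal subgroup acts by a nonzero scalar. -/
theorem scal {N Y : Type} [Group N] [Fintype N] [Group Y] (j : N →* Y) {ψ : N → ℂ} {f : Y → ℂ}
    (hψ : IsIrr ψ) (hf : IsChr f) (hj : ∀ g, f (j g) = ψ g) (w : Y)
    (hw : ∀ g, w * j g = j g * w) :
    f w ≠ 0 ∧ f 1 ≠ 0 ∧ ∀ y, f (w * y) * f 1 = f w * f y := by
  obtain ⟨n, ρ, rfl⟩ := hf
  have hc : Representation.character (ρ.comp j : Representation ℂ N (Fin n → ℂ)) = ψ := by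
    ext a
    exact hj a
  have hirr : Representation.IsIrreducible (ρ.comp j : Representation ℂ N (Fin n → ℂ)) := by
    apply irreducible_of_sum
    rw [hc]
    exact hψ.sum_self
  obtain ⟨z, hz⟩ := COSET.scalar (ρ.comp j : Representation ℂ N (Fin n → ℂ)) (ρ w) (by
    intro g v
    change ρ w (ρ (j g) v) = ρ (j g) (ρ w v)
    have h1 := congrArg ρ (hw g)
    rw [map_mul, map_mul] at h1
    exact congrArg (fun T : (Fin n → ℂ) →ₗ[ℂ] (Fin n → ℂ) => T v) h1)
  have h1 : ρ.character 1 ≠ 0 := by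
    have h2 := hψ.one_ne_zero
    rw [← hj, map_one] at h2
    exact h2
  have h3 : ∀ y, ρ.character (w * y) = z * ρ.character y := by
    intro y
    rw [Representation.character, map_mul, hz]
    have h4 : (z • LinearMap.id : Module.End ℂ (Fin n → ℂ)) * ρ y = z • ρ y := by
      ext v
      simp
    rw [h4, map_smul, smul_eq_mul]
    rfl
  have h5 : ρ.character w = z * ρ.character 1 := by
    have := h3 1
    rwa [mul_one] at this
  have hz0 : z ≠ 0 := by
    intro h0
    apply h1
    have h6 := h3 w⁻¹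
    rw [mul_inv_cancel, h0, zero_mul] at h6
    exact h6
  refine ⟨?_, h1, ?_⟩
  · rw [h5]
    exact mul_ne_zero hz0 h1
  · intro y
    rw [h3, h5]
    ring

end CNA

theorem CNA_thm (h0 : Stmt_FIBI) (h1 : Stmt_COSET) : Stmt_CNA := by
  classical
  intro N H H' C' _ _ _ _ _ _ _ _ j c p q hcl hp hq hinj hcomm ψ f hψ hf hfj η R hη hR hηR
  have hf1 : f 1 = ψ 1 := by
    rw [← hfj, map_one]
  have hψ1 : ψ 1 ≠ 0 := hψ.one_ne_zero
  have hR1 : R 1 ≠ 0 := hR.one_ne_zero
  refine ⟨?_, ?_⟩
  · intro F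
    have e1 := CNA.sum_comp_surj q hq (fun h => F h * η h)
    have e2 : (∑ y, F (q y) * η (q y)) = ∑ y, F (q y) * (f y * R (p y)) := by
      refine Finset.sum_congr rfl fun y _ => ?_
      rw [hηR]
    have e3 := (h0 N H' C' ⊥ j c p hcl ψ f hψ hf hfj).2.2.2 R (fun y => F (q y))
    have e4 : Nat.card (q.ker.map p) = Nat.card q.ker := by
      refine (Nat.card_congr (Equiv.ofBijective (fun w : q.ker => (⟨p w, ⟨w, w.2, rfl⟩⟩ :
        q.ker.map p)) ⟨?_, ?_⟩)).symm
      · intro a b hab
        have h2 : p a = p b := congrArg Subtype.val hab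
        have h3 : ((a : H') * (b : H')⁻¹) = 1 := by
          apply hinj
          · rw [map_mul, map_inv, MonoidHom.mem_ker.1 a.2, MonoidHom.mem_ker.1 b.2, inv_one,
              mul_one]
          · rw [map_mul, map_inv, h2, mul_inv_cancel]
        exact Subtype.ext (mul_inv_eq_one.1 h3)
      · rintro ⟨_, w, hw, rfl⟩
        exact ⟨⟨w, hw⟩, rfl⟩
    have e5 : η 1 = f 1 * R 1 := by
      have := hηR 1
      rwa [map_one, map_one] at this
    have hK : (Nat.card q.ker : ℂ) ≠ 0 := by
      exact_mod_cast Nat.card_pos.ne'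
    unfold wt at e3 ⊢
    beta_reduce at e3
    rw [e4, e5]
    rw [map_one, eq_div_iff hR1] at e3
    rw [← e3, ← e2, e1]
    rw [hf1]
    field_simp
  · intro w hw
    obtain ⟨hw0, hf10, hwy⟩ := CNA.scal j hψ hf hfj w (hcomm w hw)
    have hRx : ∀ x, f w * R (p w * x) = f 1 * R x := by
      intro x
      obtain ⟨y0, hy0⟩ := hp x
      have e1 := h1 N H' C' j c p hcl ψ f hψ hf hfj y0
      obtain ⟨a, ha⟩ : ∃ a, f (y0 * j a) ≠ 0 := by
        by_contra hne
        push Not at hne
        rw [Finset.sum_eq_zero (fun a _ => by rw [hne a, zero_mul])] at e1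
        exact (Nat.card_pos (α := N)).ne' (by exact_mod_cast e1.symm)
      have e2 : p (y0 * j a) = x := by
        rw [map_mul, (hcl.ker _).2 ⟨a, rfl⟩, mul_one, hy0]
      have e3 := hηR (w * (y0 * j a))
      rw [map_mul, hw, one_mul, hηR, map_mul p w, e2] at e3
      have e4 := hwy (y0 * j a)
      apply mul_left_cancel₀ ha
      calc f (y0 * j a) * (f w * R (p w * x)) = (f w * f (y0 * j a)) * R (p w * x) := by ring
        _ = (f (w * (y0 * j a)) * f 1) * R (p w * x) := by rw [e4]
        _ = f 1 * (f (w * (y0 * j a)) * R (p w * x)) := by ring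
        _ = f 1 * (f (y0 * j a) * R x) := by rw [← e3]
        _ = f (y0 * j a) * (f 1 * R x) := by ring
    refine ⟨hw0, hwy, hRx, ?_⟩
    intro F x
    unfold fib
    rw [← Equiv.sum_comp (Equiv.mulLeft w)]
    rw [div_mul_eq_mul_div, ← mul_div_assoc, Finset.sum_mul, Finset.mul_sum]
    congr 1
    refine Finset.sum_congr rfl fun y _ => ?_
    beta_reduce
    rw [Equiv.coe_mulLeft]
    beta_reduce
    rw [map_mul, map_mul, hw, one_mul]
    by_cases hy : p y = x
    · rw [if_pos (by rw [hy]), if_pos hy, mul_assoc, hwy]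
      ring
    · rw [if_neg (fun h => hy (mul_left_cancel h)), if_neg hy, zero_mul, mul_zero]

end Pool.Agent.RCB
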