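import Mathlib
import Pool.Agent.RCB.CLR
import Pool.Agent.RCB.CNA

/-!
# RCB_CLT: extensions with the same weights and the same scalars
-/

namespace Pool.Agent.RCB

open Pool.Agent.DP Pool.Agent.DPV Pool.Agent.DPB Pool.Agent.DPW Pool.Agent.DPX Pool.Agent.DPC
open Pool.Agent.Lib_helper13 Representation

namespace CLT

section

variable {G B C B' C' : Type} [Group G] [Group B] [Group C] [Group B'] [Group C']
  {ι : G →* B} {κ : B →* MulAut G} {ρ : B →* C} {ι' : G →* B'} {κ' : B' →* MulAut G}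
  {ρ' : B' →* C'} {π : B' →* B}

theorem ker_mem (h : Cov ι κ ρ ι' κ' ρ' π) (σ : Finset (Subgroup G)) (ψ : G → ℂ) {w : B'}
    (hw : π w = 1) : w ∈ Stx κ' σ ψ := by
  rw [Stx_pi h, Subgroup.mem_comap, hw]
  exact one_mem _

theorem ker_comm (h : Cov ι κ ρ ι' κ' ρ' π) {w : B'} (hw : π w = 1) (g : G) :
    w * ι' g = ι' g * w := by
  have h1 : κ' w g = g := by
    rw [h.act]
    change κ (π w) g = g
    rw [hw, map_one, MulAut.one_apply]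
  have h2 := h.up.cl.act w g
  rw [h1] at h2
  exact (eq_mul_inv_iff_mul_eq.1 h2).symm

/-- The stabilizer covers `C'`. -/
theorem map_top (h : Cov ι κ ρ ι' κ' ρ' π) {σ : Finset (Subgroup G)} {ψ : G → ℂ}
    (hst : (Stx κ σ ψ).map ρ = ⊤) : (Stx κ' σ ψ).map ρ' = ⊤ := by
  rw [eq_top_iff]
  intro c _
  obtain ⟨x, rfl⟩ := h.up.surj c
  have h1 : ρ (π x) ∈ (Stx κ σ ψ).map ρ := by
    rw [hst]
    exact Subgroup.mem_top _
  obtain ⟨s, hs, hs2⟩ := h1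
  obtain ⟨y, rfl⟩ := h.surj s
  have h3 : ρ (π (x * y⁻¹)) = 1 := by
    rw [map_mul, map_mul, map_inv, map_inv, ← hs2, mul_inv_cancel]
  obtain ⟨g, hg⟩ := (h.lo.cl.ker _).1 h3
  have h4 : π (x * y⁻¹ * (ι' g)⁻¹) = 1 := by rw [map_mul, map_inv, h.emb, hg, mul_inv_cancel]
  refine ⟨x * y⁻¹ * (ι' g)⁻¹ * y, ?_, ?_⟩
  · refine mul_mem (ker_mem h σ ψ h4) ?_
    rw [Stx_pi h]
    exact hs
  · simp only [map_mul, map_inv, rho_iota h.up]
    simp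

/-- The elements of the kernel act by nonzero scalars. -/
theorem scalL [Fintype G] (h : Cov ι κ ρ ι' κ' ρ' π) {σ : Finset (Subgroup G)} {ψ : G → ℂ}
    (hψ : IrrOn (stb σ) ψ) {F : B' → ℂ} (hF : ExtL ι' κ' ρ' σ ψ ⊤ F) {w : B'} (hw : π w = 1) :
    F w ≠ 0 ∧ F 1 ≠ 0 ∧ ∀ y, F (w * y) * F 1 = F w * F y := by
  classical
  let S : Subgroup B' := Stx κ' σ ψ ⊓ (⊤ : Subgroup C').comap ρ'
  have hwS : w ∈ S := Subgroup.mem_inf.2 ⟨ker_mem h σ ψ hw, Subgroup.mem_top _⟩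
  have hc := Pool.Agent.DPC.EXTAR.comap_eq h.up.cl hψ (⊤ : Subgroup C')
  let j : ↥(stb σ) →* ↥S := (ι'.comp (stb σ).subtype).codRestrict S (fun a => by
    have h1 : (a : G) ∈ (Stx κ' σ ψ ⊓ (⊤ : Subgroup C').comap ρ').comap ι' := by
      rw [hc]
      exact a.2
    exact h1)
  have hN : Fintype ↥(stb σ) := Fintype.ofFinite _
  obtain ⟨h1, h2, h3⟩ := CNA.scal j (ψ := fun a : stb σ => ψ a) (f := fun s : S => F s)
    hψ.1 hF.1.1.isChr (fun g => hF.2 g) ⟨w, hwS⟩ (fun g => Subtype.ext (ker_comm h hw g))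
  refine ⟨h1, h2, fun y => ?_⟩
  by_cases hy : y ∈ S
  · exact h3 ⟨y, hy⟩
  · have h4 : w * y ∉ S := fun hwy => hy ((Subgroup.mul_mem_cancel_left S hwS).1 hwy)
    rw [hF.1.2 y hy, hF.1.2 _ h4, zero_mul, mul_zero]

/-- The scalars are roots of unity. -/
theorem root [Fintype G] [Finite B'] (h : Cov ι κ ρ ι' κ' ρ' π) {σ : Finset (Subgroup G)}
    {ψ : G → ℂ} (hψ : IrrOn (stb σ) ψ) {F : B' → ℂ} (hF : ExtL ι' κ' ρ' σ ψ ⊤ F) {w : B'}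
    (hw : π w = 1) : (F w / F 1) ^ orderOf w = 1 := by
  have h1 : ∀ n : ℕ, F (w ^ n) / F 1 = (F w / F 1) ^ n := by
    intro n
    have h2 := scalL h hψ hF hw
    induction n with
    | zero => rw [pow_zero, pow_zero, div_self h2.2.1]
    | succ n ih =>
      have h3 := h2.2.2 (w ^ n)
      rw [pow_succ' w n, pow_succ', ← ih]
      field_simp [h2.2.1]
      linear_combination h3
  rw [← h1, pow_orderOf_eq_one, div_self (scalL h hψ hF hw).2.1]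

theorem int_of_root {z : ℂ} {n : ℕ} (hn : 0 < n) (hz : z ^ n = 1) : IsIntegral ℤ z :=
  IsIntegral.of_pow hn (by rw [hz]; exact isIntegral_one)

theorem red_pw (𝔐 : Ideal (integralClosure ℤ ℂ)) {a : ℂ} (ha : IsIntegral ℤ a) (n : ℕ) :
    red 𝔐 (a ^ n) = red 𝔐 a ^ n := by
  induction n with
  | zero => rw [pow_zero, pow_zero, red_one]
  | succ n ih => rw [pow_succ, pow_succ, red_mul 𝔐 (ha.pow n) ha, ih]

/-- The value of the central function at an element of the kernel. -/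
theorem cgT_ker [Fintype B'] (h : Cov ι κ ρ ι' κ' ρ' π) (𝔐 : Ideal (integralClosure ℤ ℂ))
    (F : B' → ℂ) {w : B'} (hw : π w = 1) : cgT 𝔐 ι'.range F w = red 𝔐 (F w / F 1) := by
  classical
  unfold cgT
  congr 2
  have h1 : ∀ x : B', cjT ι'.range x w * F x = if x = w then F w else 0 := by
    intro x
    unfold cjT
    have h2 : (∃ t ∈ ι'.range, x = t * w * t⁻¹) ↔ x = w := by
      constructor
      · rintro ⟨t, ⟨g, rfl⟩, rfl⟩
        rw [← ker_comm h hw g, mul_inv_cancel_right]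
      · rintro rfl
        exact ⟨1, one_mem _, by simp⟩
    by_cases h3 : x = w
    · rw [if_pos (h2.2 h3), if_pos h3, one_mul, h3]
    · rw [if_neg (fun h4 => h3 (h2.1 h4)), if_neg h3, zero_mul]
  rw [Finset.sum_congr rfl (fun x _ => h1 x)]
  simp

theorem linOn_ne {K : Subgroup C} {lam : C → ℂ} (h : LinOn K lam) {c : C} (hc : c ∈ K) :
    lam c ≠ 0 := by
  intro h0
  have h1 := h.2 c hc c⁻¹ (inv_mem hc)
  rw [mul_inv_cancel, h.1, h0, zero_mul] at h1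
  exact one_ne_zero h1

theorem linOn_pow {K : Subgroup C} {lam : C → ℂ} (h : LinOn K lam) {c : C} (hc : c ∈ K) (n : ℕ) :
    lam (c ^ n) = lam c ^ n := by
  induction n with
  | zero => rw [pow_zero, pow_zero, h.1]
  | succ n ih => rw [pow_succ, pow_succ, h.2 _ (pow_mem hc n) _ hc, ih]

theorem linOn_root [Finite C] {K : Subgroup C} {lam : C → ℂ} (h : LinOn K lam) {c : C}
    (hc : c ∈ K) : lam c ^ orderOf c = 1 := by
  rw [← linOn_pow h hc, pow_orderOf_eq_one, h.1]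

theorem linOn_inv {K : Subgroup C} {lam : C → ℂ} (h : LinOn K lam) :
    LinOn K (fun c => (lam c)⁻¹) := by
  refine ⟨?_, fun x hx y hy => ?_⟩
  · change (lam 1)⁻¹ = 1
    rw [h.1, inv_one]
  · change (lam (x * y))⁻¹ = (lam x)⁻¹ * (lam y)⁻¹
    rw [h.2 x hx y hy, mul_inv]

theorem linOn_mono {K K' : Subgroup C} (hK : K ≤ K') {lam : C → ℂ} (h : LinOn K' lam) :
    LinOn K lam := ⟨h.1, fun x hx y hy => h.2 x (hK hx) y (hK hy)⟩

end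

end CLT

/-- CLT. -/
theorem CLT_thm (h0 : Stmt_GLU) (h1 : Stmt_CLR) (h2 : Stmt_CLQ) (h3 : Stmt_NUVW)
    (h4 : DPV.Stmt_EXTV) (h5 : DPV.Stmt_BETV) : Stmt_CLT := by
  classical
  intro G B C B' C' _ _ _ _ _ _ _ _ _ 𝔐 ℓ n _ hM hl hl2 ι κ ρ ι' κ' ρ' π h hLV ω P₁ P x₀ hSt χ hχ
    ψ hψ hχtop hψtop hEM
  have hfld : (𝔐.IsPrime) := hM.isPrime
  have hdom : IsDomain ((integralClosure ℤ ℂ) ⧸ 𝔐) := Ideal.Quotient.isDomain 𝔐
  -- the extensions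
  obtain ⟨f, hf⟩ : ∃ f, ExtL ι' κ' ρ' ∅ χ ⊤ f := (h4 G B' C' ι' κ' ρ' hLV ∅ χ hχ.1 ⊤).2.2.1
  obtain ⟨f₀, hf₀⟩ : ∃ f, ExtL ι' κ' ρ' {P₁} ψ ⊤ f :=
    (h4 G B' C' ι' κ' ρ' hLV {P₁} ψ hψ.1 ⊤).2.2.1
  have hStop : Stx κ' ∅ χ = ⊤ := by
    rw [Stx_pi h, hχtop, Subgroup.comap_top]
  have hm1 : (Stx κ' ∅ χ).map ρ' = ⊤ := by
    rw [hStop, eq_top_iff]
    intro c _
    obtain ⟨x, rfl⟩ := h.up.surj c
    exact ⟨x, Subgroup.mem_top _, rfl⟩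
  have hm2 : (Stx κ' {P₁} ψ).map ρ' = ⊤ := CLT.map_top h hψtop
  obtain ⟨U, ν, hUL, hUc, hUi, hν1, hνm, hνe⟩ := h3 G B' C' 𝔐 ℓ hM hl ι' κ' ρ' hLV ∅ {P₁} χ ψ
    (Or.inl rfl) (Or.inr ⟨P₁, rfl, hSt.at'.cd.c1⟩) hχ.1 hψ.1
    (fun g => (hχ.2 g).trans (hψ.2 g).symm) ⊤ (by rw [hm1]) (by rw [hm2]) f f₀ hf hf₀
  -- the scalars
  have hs : ∀ w, π w = 1 → f w ≠ 0 ∧ f 1 ≠ 0 ∧ ∀ y, f (w * y) * f 1 = f w * f y :=
    fun w hw => CLT.scalL h hχ.1 hf hw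
  have hs₀ : ∀ w, π w = 1 → f₀ w ≠ 0 ∧ f₀ 1 ≠ 0 ∧ ∀ y, f₀ (w * y) * f₀ 1 = f₀ w * f₀ y :=
    fun w hw => CLT.scalL h hψ.1 hf₀ hw
  have hf1 : f 1 ≠ 0 := (hs 1 (map_one π)).2.1
  have hf01 : f₀ 1 ≠ 0 := (hs₀ 1 (map_one π)).2.1
  have hr : ∀ w, π w = 1 → (f w / f 1) ^ orderOf w = 1 := fun w hw => CLT.root h hχ.1 hf hw
  have hr₀ : ∀ w, π w = 1 → (f₀ w / f₀ 1) ^ orderOf w = 1 := fun w hw => CLT.root h hψ.1 hf₀ hw
  have hord : ∀ w : B', 0 < orderOf w := fun w => orderOf_pos w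
  have hredf : ∀ w, π w = 1 → red 𝔐 (f w / f 1) ≠ 0 := by
    intro w hw h6
    have h7 := hr w hw
    have h8 : red 𝔐 ((f w / f 1) ^ orderOf w) = red 𝔐 (f w / f 1) ^ orderOf w :=
      CLT.red_pw 𝔐 (CLT.int_of_root (hord w) h7) _
    rw [h7, red_one, h6, zero_pow (hord w).ne'] at h8
    exact one_ne_zero h8
  have hWU : π.ker.map ρ' ≤ U := by
    rintro _ ⟨w, hw, rfl⟩
    refine (hUi _).2 ⟨Subgroup.mem_top _, w, rfl, ?_⟩
    rw [CLT.cgT_ker h 𝔐 f hw]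
    exact hredf w hw
  -- the function `τ`
  let τ : C' → ℂ := fun c => if hc : ∃ w, π w = 1 ∧ ρ' w = c then
    f₀ hc.choose * f 1 / (f hc.choose * f₀ 1) else 1
  have hτ : ∀ w, π w = 1 → τ (ρ' w) = f₀ w * f 1 / (f w * f₀ 1) := by
    intro w hw
    have hc : ∃ v, π v = 1 ∧ ρ' v = ρ' w := ⟨w, hw, rfl⟩
    have h6 : hc.choose = w := by
      have h7 := hc.choose_spec
      have h8 : hc.choose * w⁻¹ = 1 := ker_inj h (by rw [map_mul, map_inv, h7.1, hw]; simp)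
        (by rw [map_mul, map_inv, h7.2, mul_inv_cancel])
      exact mul_inv_eq_one.1 h8
    change (if hc : ∃ v, π v = 1 ∧ ρ' v = ρ' w then
      f₀ hc.choose * f 1 / (f hc.choose * f₀ 1) else 1) = _
    rw [dif_pos hc, h6]
  have hτL : LinOn (π.ker.map ρ') τ := by
    constructor
    · have h6 := hτ 1 (map_one π)
      rw [map_one] at h6
      rw [h6, mul_comm (f₀ 1), div_self (mul_ne_zero hf1 hf01)]
    · rintro _ ⟨w, hw, rfl⟩ _ ⟨v, hv, rfl⟩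
      have hw' : π w = 1 := hw
      have hv' : π v = 1 := hv
      rw [← map_mul, hτ _ (by rw [map_mul, hw', hv', mul_one]), hτ w hw', hτ v hv']
      have e1 := (hs w hw').2.2 v
      have e2 := (hs₀ w hw').2.2 v
      have n1 := (hs w hw').1
      have n2 := (hs v hv').1
      have n3 : f (w * v) ≠ 0 := (hs _ (by rw [map_mul, hw', hv', mul_one])).1
      rw [div_mul_div_comm, div_eq_div_iff (mul_ne_zero n3 hf01)
        (mul_ne_zero (mul_ne_zero n1 hf01) (mul_ne_zero n2 hf01))]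
      linear_combination (f 1 * f w * f v * f₀ 1) * e2 - (f₀ w * f₀ v * f 1 * f₀ 1) * e1
  have hτc : ∀ c ∈ (⊤ : Subgroup C'), ∀ u ∈ π.ker.map ρ',
      c * u * c⁻¹ ∈ π.ker.map ρ' ∧ τ (c * u * c⁻¹) = τ u := by
    rintro c - _ ⟨w, hw, rfl⟩
    have hw' : π w = 1 := hw
    have hc : c ∈ (Stx κ' {P₁} ψ).map ρ' := by
      rw [hm2]
      exact Subgroup.mem_top _
    obtain ⟨x, hx, rfl⟩ := hc
    have h6 : π (x * w * x⁻¹) = 1 := by rw [map_mul, map_mul, map_inv, hw', mul_one, mul_inv_cancel]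
    have h7 : ρ' x * ρ' w * (ρ' x)⁻¹ = ρ' (x * w * x⁻¹) := by rw [map_mul, map_mul, map_inv]
    rw [h7]
    refine ⟨⟨_, h6, rfl⟩, ?_⟩
    rw [hτ _ h6, hτ w hw']
    have h8 : f₀ (x * w * x⁻¹) = f₀ w := hf₀.1.1.conj_eq
      (⟨x, Subgroup.mem_inf.2 ⟨hx, Subgroup.mem_top _⟩⟩ :
        ↥(Stx κ' {P₁} ψ ⊓ (⊤ : Subgroup C').comap ρ'))
      ⟨w, Subgroup.mem_inf.2 ⟨CLT.ker_mem h {P₁} ψ hw', Subgroup.mem_top _⟩⟩
    have h9 : f (x * w * x⁻¹) = f w := hf.1.1.conj_eq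
      (⟨x, Subgroup.mem_inf.2 ⟨by rw [hStop]; exact Subgroup.mem_top _, Subgroup.mem_top _⟩⟩ :
        ↥(Stx κ' ∅ χ ⊓ (⊤ : Subgroup C').comap ρ'))
      ⟨w, Subgroup.mem_inf.2 ⟨CLT.ker_mem h ∅ χ hw', Subgroup.mem_top _⟩⟩
    rw [h8, h9]
  have hτν : ∀ w ∈ π.ker.map ρ', red 𝔐 (τ w) = ν w := by
    rintro _ ⟨w, hw, rfl⟩
    have hw' : π w = 1 := hw
    have e1 := hνe w
    rw [CLT.cgT_ker h 𝔐 f hw', CLT.cgT_ker h 𝔐 f₀ hw'] at e1
    have i1 : IsIntegral ℤ (f w / f 1) := CLT.int_of_root (hord w) (hr w hw')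
    have h10 : τ (ρ' w) = (f₀ w / f₀ 1) * (f w / f 1)⁻¹ := by
      rw [hτ w hw', inv_div, div_mul_div_comm, mul_comm (f₀ 1)]
    have i2 : IsIntegral ℤ (τ (ρ' w)) := by
      rw [h10]
      refine (CLT.int_of_root (hord w) (hr₀ w hw')).mul (CLT.int_of_root (hord w) ?_)
      rw [inv_pow, hr w hw', inv_one]
    have e2 : τ (ρ' w) * (f w / f 1) = f₀ w / f₀ 1 := by
      rw [h10, mul_assoc, inv_mul_cancel₀ (div_ne_zero (hs w hw').1 hf1), mul_one]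
    have e3 := red_mul 𝔐 i2 i1
    rw [e2, e1] at e3
    exact (mul_right_cancel₀ (hredf w hw') e3).symm
  -- gluing
  obtain ⟨lam, hlam, hlamW, hlamU⟩ := h0 C' 𝔐 ℓ hM hl ⊤ U (π.ker.map ρ') hWU hUL
    (fun c hc u hu => (hUc c hc u hu).1) (fun c hc u hu => (hτc c hc u hu).1) ν hν1 hνm
    (fun c hc u hu => (hUc c hc u hu).2) τ hτL (fun c hc u hu => (hτc c hc u hu).2) hτν
    (by
      intro r hr' hrl R _ hR
      obtain ⟨c0, hc0, hc1⟩ := h1 G B' C' 𝔐 ℓ n hM hl ι' κ' ρ' h.up P₁ P x₀ ω hSt.at' hSt.ex ψ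
        hψ.1 hψ.2 hm2 f₀ hf₀ r hr' hrl R hR
      refine ⟨c0, hc0, fun c hc => ?_⟩
      obtain ⟨k, t, ht, ht2⟩ := hc1 c hc
      refine ⟨k, ?_⟩
      rw [hνe t] at ht2
      exact (hUi _).2 ⟨Subgroup.mem_top _, t, ht, right_ne_zero_of_mul ht2⟩)
    (by
      intro Q _ hQ
      obtain ⟨μ, hμ, hμe⟩ := h2 G B C B' C' 𝔐 ℓ n hM hl hl2 ι κ ρ ι' κ' ρ' π h ω P₁ P x₀ hSt χ hχ
        ψ hψ hχtop hψtop hEM f f₀ hf hf₀ Q hQ
      refine ⟨μ, hμ, ?_⟩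
      rintro _ ⟨w, hw, rfl⟩
      have hw' : π w = 1 := hw
      rw [hτ w hw', eq_div_iff (mul_ne_zero (hs w hw').1 hf01)]
      exact (hμe w hw').symm)
  -- the twisted extension
  have hil : LinOn (⊤ : Subgroup C') (fun c => (lam c)⁻¹) := CLT.linOn_inv hlam
  refine ⟨f, fun x => f₀ x * (lam (ρ' x))⁻¹, hf,
    (h4 G B' C' ι' κ' ρ' hLV {P₁} ψ hψ.1 ⊤).2.2.2.1 f₀ (fun c => (lam c)⁻¹)
      (CLT.linOn_mono le_top hil) hf₀, ?_, ?_⟩
  · funext t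
    have hcom := (h4 G B' C' ι' κ' ρ' hLV {P₁} ψ hψ.1 ⊤).1
    have h6 := (h5 G B' C' 𝔐 ι' κ' ρ' hLV).1 _ f₀ hf₀.1 (by
      rw [hcom]
      have h7 : (fun g => f₀ (ι' g)) = ψ := funext hf₀.2
      rw [h7]
      exact hψ.1) (fun c => (lam c)⁻¹) (CLT.linOn_mono le_top hil) t
    rw [h6, hνe t]
    by_cases ht : ρ' t ∈ U
    · have i1 : IsIntegral ℤ (lam (ρ' t)) :=
        CLT.int_of_root (orderOf_pos _) (CLT.linOn_root hlam (Subgroup.mem_top (ρ' t)))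
      have i2 : IsIntegral ℤ (lam (ρ' t))⁻¹ :=
        CLT.int_of_root (orderOf_pos _) (CLT.linOn_root hil (Subgroup.mem_top (ρ' t)))
      rw [← hlamU _ ht, ← mul_assoc, ← red_mul 𝔐 i2 i1,
        inv_mul_cancel₀ (CLT.linOn_ne hlam (Subgroup.mem_top _)), red_one, one_mul]
    · have h8 : cgT 𝔐 ι'.range f t = 0 := by
        by_contra h9
        exact ht ((hUi _).2 ⟨Subgroup.mem_top _, t, rfl, h9⟩)
      rw [h8, mul_zero, mul_zero]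
  · intro w hw
    change f w * (f₀ 1 * (lam (ρ' 1))⁻¹) = f₀ w * (lam (ρ' w))⁻¹ * f 1
    rw [hlamW _ ⟨w, hw, rfl⟩, hτ w hw, map_one, hlam.1, inv_one, mul_one, inv_div]
    have n1 := (hs₀ w hw).1
    field_simp

end Pool.Agent.RCB
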