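import Pool.Agent.RCB.St5

/-!
# Theorem P1: the count `Stmt_CN1`
-/

namespace Pool.Agent.RCB

open Pool.Agent.DP Pool.Agent.DPV Pool.Agent.DPB Pool.Agent.DPW Pool.Agent.DPX Pool.Agent.DPC
open Pool.Agent.Lib_helper13 Representation

namespace CN1

section Grp

variable {G B C B' C' : Type} [Group G] [Group B] [Group C] [Group B'] [Group C']
  {ι : G →* B} {κ : B →* MulAut G} {ρ : B →* C} {ι' : G →* B'} {κ' : B' →* MulAut G}
  {ρ' : B' →* C'} {π : B' →* B}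

theorem mem_pi (h : Cov ι κ ρ ι' κ' ρ' π) (σ : Finset (Subgroup G)) {w : B'} :
    w ∈ YS ι' σ ↔ π w ∈ YS ι σ := by
  rw [YS_pi h, Subgroup.mem_comap]

/-- The restriction of the covering to the stabilizers. -/
noncomputable def qS (h : Cov ι κ ρ ι' κ' ρ' π) (σ : Finset (Subgroup G)) :
    YS ι' σ →* YS ι σ :=
  (π.comp (YS ι' σ).subtype).codRestrict (YS ι σ) (fun x => (mem_pi h σ).1 x.2)

theorem qS_coe (h : Cov ι κ ρ ι' κ' ρ' π) (σ : Finset (Subgroup G)) (y : YS ι' σ) :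
    ((qS h σ y : YS ι σ) : B) = π y := rfl

theorem qS_surj (h : Cov ι κ ρ ι' κ' ρ' π) (σ : Finset (Subgroup G)) :
    Function.Surjective (qS h σ) := by
  rintro ⟨s, hs⟩
  obtain ⟨y, rfl⟩ := h.surj s
  exact ⟨⟨y, (mem_pi h σ).2 hs⟩, rfl⟩

theorem pS_surj (h : Cov ι κ ρ ι' κ' ρ' π) (σ : Finset (Subgroup G))
    (hs : (YS ι σ).map ρ = ⊤) : Function.Surjective (pS ρ' ι' σ) := by
  intro c
  obtain ⟨x, rfl⟩ := h.up.surj c
  have h1 : ρ (π x) ∈ (YS ι σ).map ρ := by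
    rw [hs]
    exact Subgroup.mem_top _
  obtain ⟨s, hsY, hsx⟩ := h1
  obtain ⟨y, rfl⟩ := h.surj s
  have h2 : ρ (π (x * y⁻¹)) = 1 := by
    rw [map_mul, map_mul, map_inv, map_inv, hsx, mul_inv_cancel]
  obtain ⟨g, hg⟩ := (h.lo.cl.ker _).1 h2
  have h3 : π ((ι' g)⁻¹ * (x * y⁻¹)) = 1 := by
    rw [map_mul, map_inv, h.emb, hg, inv_mul_cancel]
  refine ⟨⟨(ι' g)⁻¹ * (x * y⁻¹) * y, (mem_pi h σ).2 ?_⟩, ?_⟩
  · rw [map_mul, h3, one_mul]
    exact hsY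
  · change ρ' ((ι' g)⁻¹ * (x * y⁻¹) * y) = ρ' x
    have h4 : (ι' g)⁻¹ * (x * y⁻¹) * y = (ι' g)⁻¹ * x := by group
    rw [h4, map_mul, map_inv, rho_iota h.up, inv_one, one_mul]

theorem comm_ker (h : Cov ι κ ρ ι' κ' ρ' π) {w : B'} (hw : π w = 1) (g : G) :
    w * ι' g = ι' g * w := by
  have h1 := h.up.cl.act w g
  have h2 : κ' w g = g := by
    rw [h.act]
    change κ (π w) g = g
    rw [hw, map_one]
    rfl
  rw [h2] at h1
  exact (eq_mul_inv_iff_mul_eq.1 h1).symm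

theorem ker_map (h : Cov ι κ ρ ι' κ' ρ' π) (σ : Finset (Subgroup G)) :
    (qS h σ).ker.map (pS ρ' ι' σ) = π.ker.map ρ' := by
  ext c
  constructor
  · rintro ⟨w, hw, rfl⟩
    exact ⟨w, congrArg Subtype.val hw, rfl⟩
  · rintro ⟨w, hw, rfl⟩
    have hw1 : π w = 1 := hw
    refine ⟨⟨w, (mem_pi h σ).2 ?_⟩, ?_, rfl⟩
    · rw [hw1]
      exact one_mem _
    · exact Subtype.ext hw1

end Grp

/-- The order of a group with a normal subgroup. -/
theorem card_Y {A Y K : Type} [Group A] [Group Y] [Group K] {j : A →* Y} {c : Y →* MulAut A}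
    {p : Y →* K} [Finite Y] (h : ClG j c p) (hs : Function.Surjective p) :
    Nat.card Y = Nat.card A * Nat.card K := by
  have h1 : p.ker = j.range := by
    ext y
    rw [MonoidHom.mem_ker]
    exact h.ker y
  have h2 := Subgroup.card_mul_index p.ker
  rw [Subgroup.index_ker, MonoidHom.range_eq_top.mpr hs, h1] at h2
  rw [← h2, Nat.card_congr (MonoidHom.ofInjective h.inj).toEquiv.symm,
    Nat.card_congr (Subgroup.topEquiv (G := K)).toEquiv]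

/-- The defects agree. -/
theorem defect {G H K : Type} [Group G] [Fintype G] [Group H] [Fintype H] [Group K] [Fintype K]
    {C' : Type} [Group C'] (ℓ d : ℕ) [Fact ℓ.Prime] (S : Subgroup G) {χ : G → ℂ} {ψ : S → ℂ}
    {R : C' → ℂ} {η : H → ℂ} {η₁ : K → ℂ} (hχ : IsIrr χ) (hψ : IsIrr ψ) (hR : IsIrr R)
    (h1 : η 1 = χ 1 * R 1) (h2 : η₁ 1 = ψ 1 * R 1) (c : ℕ) (hc : c ≠ 0)
    (hH : Nat.card H = Nat.card G * c) (hK : Nat.card K = Nat.card S * c)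
    (hdf : padicValNat ℓ (Nat.card G) - padicValNat ℓ ⌊(χ 1).re⌋₊ =
      padicValNat ℓ (Nat.card S) - padicValNat ℓ ⌊(ψ 1).re⌋₊) :
    HasDefect ℓ η d ↔ HasDefect ℓ η₁ d := by
  obtain ⟨a, ha, ha'⟩ := hχ.exists_degree
  obtain ⟨b, hb, hb'⟩ := hψ.exists_degree
  obtain ⟨r, hr, hr'⟩ := hR.exists_degree
  have hda := hχ.degree_dvd ha'
  have hdb := hψ.degree_dvd hb'
  rw [ha', hb'] at hdf
  simp only [Complex.natCast_re, Nat.floor_natCast] at hdf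
  have key : ∀ {n m : ℕ}, m ∣ n → n ≠ 0 → padicValNat ℓ m ≤ padicValNat ℓ n := by
    rintro n m ⟨k, rfl⟩ hn
    have h3 : m ≠ 0 := left_ne_zero_of_mul hn
    have h4 : k ≠ 0 := right_ne_zero_of_mul hn
    rw [padicValNat.mul h3 h4]
    exact Nat.le_add_right _ _
  have hG0 : Nat.card G ≠ 0 := Nat.card_pos.ne'
  have hS0 : Nat.card S ≠ 0 := Nat.card_pos.ne'
  have hva := key hda hG0
  have hvb := key hdb hS0
  have e1 : η 1 = ((a * r : ℕ) : ℂ) := by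
    rw [h1, ha', hr']
    push_cast
    ring
  have e2 : η₁ 1 = ((b * r : ℕ) : ℂ) := by
    rw [h2, hb', hr']
    push_cast
    ring
  have v1 : padicValNat ℓ (Nat.card H) = padicValNat ℓ (Nat.card G) + padicValNat ℓ c := by
    rw [hH, padicValNat.mul hG0 hc]
  have v2 : padicValNat ℓ (Nat.card K) = padicValNat ℓ (Nat.card S) + padicValNat ℓ c := by
    rw [hK, padicValNat.mul hS0 hc]
  have v3 : padicValNat ℓ (a * r) = padicValNat ℓ a + padicValNat ℓ r :=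
    padicValNat.mul ha.ne' hr.ne'
  have v4 : padicValNat ℓ (b * r) = padicValNat ℓ b + padicValNat ℓ r :=
    padicValNat.mul hb.ne' hr.ne'
  constructor
  · rintro ⟨n, hn, hn'⟩
    rw [e1] at hn
    have hn2 : a * r = n := by exact_mod_cast hn
    refine ⟨b * r, e2, ?_⟩
    rw [← hn2] at hn'
    omega
  · rintro ⟨n, hn, hn'⟩
    rw [e2] at hn
    have hn2 : b * r = n := by exact_mod_cast hn
    refine ⟨a * r, e1, ?_⟩
    rw [← hn2] at hn'
    omega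

section Cen

variable {G S C S' C' X : Type} [Group G] [Fintype G] [Group S] [Fintype S] [Group C]
  [Group S'] [Fintype S'] [Group C'] [Fintype C'] [Group X]

/-- The central functions agree. -/
theorem cen_agree (h1 : Stmt_CSC) (h2 : Stmt_CFB) (h3 : Stmt_CNA) (h4 : DPC.Stmt_FIBI)
    (𝔐 : Ideal (integralClosure ℤ ℂ)) (ℓ : ℕ) [Fact ℓ.Prime] (hM : 𝔐.IsMaximal)
    (hℓ : (ℓ : integralClosure ℤ ℂ) ∈ 𝔐) {ι : G →* S} {κ : S →* MulAut G} {ρ : S →* C}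
    {ι' : G →* S'} {κ' : S' →* MulAut G} {ρ' : S' →* C'} {π : S' →* S} (i : S →* X)
    (h : Cov ι κ ρ ι' κ' ρ' π) (P₁ : Subgroup G) {χ ψ : G → ℂ} (hχ : IsIrr χ)
    (hψ : IrrOn (stb {P₁}) ψ) {f f₁ : S' → ℂ} (hf : IsIrr f) (hfχ : ∀ g, f (ι' g) = χ g)
    (hf₁ : IrrOn (YS ι' {P₁}) f₁) (hfψ : ∀ g, f₁ (ι' g) = ψ g) (hY : (YS ι {P₁}).map ρ = ⊤)
    (hcg : ∀ g, cgT 𝔐 ι'.range f g = cgT 𝔐 ι'.range f₁ g)
    (hsc : ∀ w, π w = 1 → f w * f₁ 1 = f₁ w * f 1) {R : C' → ℂ} (hR : IsIrr R)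
    {η : S → ℂ} (hη : IsIrr η) (hηR : ∀ y, η (π y) = f y * R (ρ' y))
    {η₁ : YS ι {P₁} → ℂ} (hη₁ : IsIrr η₁)
    (hη₁R : ∀ y : YS ι' {P₁}, η₁ (qS h {P₁} y) = f₁ y * R (pS ρ' ι' {P₁} y)) (x : X) :
    cen 𝔐 i η x = cen 𝔐 (i.comp (YS ι {P₁}).subtype) η₁ x := by
  classical
  let F : S → ℂ := fun y => conjInd (i y) x
  have hFc : ∀ g y, F (g * y * g⁻¹) = F y := fun g y => by
    change conjInd (i (g * y * g⁻¹)) x = conjInd (i y) x
    rw [map_mul, map_mul, map_inv, conjInd_conj]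
  have hFi : ∀ y, IsIntegral ℤ (F y) := fun y => isIntegral_conjInd _ _
  let A : C' → ℂ := fib ρ' f (χ 1) (fun y => F (π y))
  let A₁ : C' → ℂ := fib (pS ρ' ι' {P₁}) (fun y : YS ι' {P₁} => f₁ y) (ψ 1)
    (fun y : YS ι' {P₁} => F (π y))
  have hps := pS_surj h {P₁} hY
  -- the weights
  obtain ⟨w0, s0⟩ := h3 G S S' C' ι' κ' ρ' π h.up.cl h.up.surj h.surj
    (fun w hw hw' => ker_inj h hw hw') (fun w hw g => comm_ker h hw g) χ f hχ hf.isChr hfχ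
    η R hη hR hηR
  obtain ⟨w1, s1⟩ := h3 (stb {P₁}) (YS ι {P₁}) (YS ι' {P₁}) C' (jS h.up.cl {P₁})
    (cS h.up.cl {P₁}) (pS ρ' ι' {P₁}) (qS h {P₁}) (clG_S h.up.cl {P₁}) hps (qS_surj h {P₁})
    (fun w hw hw' => Subtype.ext (ker_inj h (congrArg Subtype.val hw) hw'))
    (fun w hw g => Subtype.ext (comm_ker h (congrArg Subtype.val hw) (g : G)))
    (fun g => ψ g) (fun y => f₁ y) hψ.1 hf₁.1.isChr (fun g => hfψ g) η₁ R hη₁ hR hη₁R
  have e0 := w0 F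
  have e1 := w1 (fun y => F y)
  rw [ker_map h {P₁}] at e1
  change wt η F = (∑ c, A c * R c) / _ at e0
  change wt η₁ (fun y => F y) = (∑ c, A₁ c * R c) / _ at e1
  -- the sums over the cosets
  have hfb := h2 G S' C' 𝔐 ι' κ' ρ' h.up P₁ χ ψ f f₁ hχ hψ hf hfχ hf₁ hfψ hcg
    (fun y => F (π y)) (fun g y => by rw [map_mul, map_mul, map_inv, hFc]) (fun y => hFi _)
  have hAi : ∀ c, IsIntegral ℤ (A c) := fun c => (hfb c).1
  have hA₁i : ∀ c, IsIntegral ℤ (A₁ c) := fun c => (hfb c).2.1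
  have hAA : ∀ c, red 𝔐 (A c) = red 𝔐 (A₁ c) := fun c => (hfb c).2.2
  have hf1 : f 1 ≠ 0 := by
    have := hfχ 1
    rw [map_one] at this
    rw [this]
    exact hχ.one_ne_zero
  have hf₁1 : f₁ 1 ≠ 0 := hf₁.1.one_ne_zero
  -- class functions
  have hAc : ∀ g c, A (g * c * g⁻¹) = A c := by
    intro g c
    obtain ⟨y, rfl⟩ := h.up.surj g
    exact (h4 G S' C' 𝔐 ι' κ' ρ' h.up.cl χ f hχ hf.isChr hfχ).2.2.1 (fun y => F (π y))
      (fun g y => by rw [map_mul, map_mul, map_inv, hFc]) y c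
  have hA₁c : ∀ g c, A₁ (g * c * g⁻¹) = A₁ c := by
    intro g c
    obtain ⟨y, rfl⟩ := hps g
    exact (h4 (stb {P₁}) (YS ι' {P₁}) C' 𝔐 (jS h.up.cl {P₁}) (cS h.up.cl {P₁})
      (pS ρ' ι' {P₁}) (clG_S h.up.cl {P₁}) (fun g => ψ g) (fun y => f₁ y) hψ.1 hf₁.1.isChr
      (fun g => hfψ g)).2.2.1 (fun y => F (π y))
      (fun g y => by
        change F (π ((g : S') * (y : S') * (g : S')⁻¹)) = F (π y)
        rw [map_mul, map_mul, map_inv, hFc]) y c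
  -- the scalars
  let τ : C' → ℂ := fun c => if hc : ∃ w, π w = 1 ∧ ρ' w = c then f 1 / f hc.choose else 1
  have hτ : ∀ c ∈ π.ker.map ρ', ∃ w, π w = 1 ∧ ρ' w = c ∧ τ c = f 1 / f w := by
    rintro c ⟨w, hw, hwc⟩
    have hc : ∃ w, π w = 1 ∧ ρ' w = c := ⟨w, hw, hwc⟩
    exact ⟨hc.choose, hc.choose_spec.1, hc.choose_spec.2, dif_pos hc⟩
  have hint0 : IsIntegral ℤ (wt η F) := isIntegral_wt hη F hFc hFi
  have hint1 : IsIntegral ℤ (wt η₁ (fun y => F y)) :=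
    isIntegral_wt hη₁ _ (fun g y => hFc (g : S) (y : S)) (fun y => hFi _)
  have hdiff : (∑ c, (A c - A₁ c) * R c) / (Nat.card (π.ker.map ρ') * R 1) =
      wt η F - wt η₁ (fun y => F y) := by
    rw [e0, e1, ← sub_div, ← Finset.sum_sub_distrib]
    congr 1
    exact Finset.sum_congr rfl fun c _ => by ring
  have hred : red 𝔐 ((∑ c, (A c - A₁ c) * R c) / (Nat.card (π.ker.map ρ') * R 1)) = 0 := by
    refine h1 C' 𝔐 ℓ hM hℓ (π.ker.map ρ') R (fun c => A c - A₁ c) τ hR ?_ ?_ ?_ ?_ ?_ ?_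
    · intro g c
      rw [hAc, hA₁c]
    · intro c
      exact (hAi c).sub (hA₁i c)
    · intro c
      have h5 : A c = (A c - A₁ c) + A₁ c := by ring
      have h6 := hAA c
      rw [h5, red_add 𝔐 ((hAi c).sub (hA₁i c)) (hA₁i c)] at h6
      exact add_eq_right.mp h6
    · intro c hc y
      obtain ⟨w, hw, rfl, hτc⟩ := hτ c hc
      obtain ⟨hfw, -, hRw, -⟩ := s0 w hw
      rw [hτc, div_mul_eq_mul_div, eq_div_iff hfw, mul_comm, hRw y]
    · intro c hc y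
      obtain ⟨w, hw, rfl, hτc⟩ := hτ c hc
      obtain ⟨hfw, -, -, hFw⟩ := s0 w hw
      have hwY : w ∈ YS ι' {P₁} := (mem_pi h {P₁}).2 (by rw [hw]; exact one_mem _)
      obtain ⟨hfw₁, -, -, hFw₁⟩ := s1 ⟨w, hwY⟩ (Subtype.ext hw)
      have a0 : A (ρ' w * y) * f 1 = f w * A y := hFw F y
      have a1 : A₁ (ρ' w * y) * f₁ 1 = f₁ w * A₁ y := hFw₁ (fun y => F y) y
      have hs := hsc w hw
      have b1 : A₁ (ρ' w * y) * f 1 = f w * A₁ y := by
        apply mul_right_cancel₀ hf₁1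
        calc A₁ (ρ' w * y) * f 1 * f₁ 1 = (A₁ (ρ' w * y) * f₁ 1) * f 1 := by ring
          _ = A₁ y * (f₁ w * f 1) := by rw [a1]; ring
          _ = f w * A₁ y * f₁ 1 := by rw [← hs]; ring
      rw [hτc, div_mul_eq_mul_div, div_eq_iff hfw]
      linear_combination a0 - b1
    · rw [hdiff]
      exact hint0.sub hint1
  rw [hdiff] at hred
  change red 𝔐 (wt η F) = red 𝔐 (wt η₁ (fun y => F y))
  have h7 : wt η F = (wt η F - wt η₁ (fun y => F y)) + wt η₁ (fun y => F y) := by ring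
  rw [h7, red_add 𝔐 (hint0.sub hint1) hint1, hred, zero_add]

end Cen

end CN1

open CN1 in
theorem CN1_thm (h0 : Stmt_CGL) (h1 : Stmt_CSC) (h2 : Stmt_CFB) (h3 : Stmt_CNA)
    (h4 : DPC.Stmt_FIBI) : Stmt_CN1 := by
  classical
  intro G S C S' C' X _ _ _ _ _ _ _ _ _ _ _ 𝔐 ℓ hp hM hℓ ι κ ρ ι' κ' ρ' π i h P₁ χ ψ hP₁ hχ hψ
    f f₁ hf hfχ hf₁ hfψ hY hcg hsc hdf Ω d
  have hC' : Fintype C' := Fintype.ofFinite C'
  have hps := pS_surj h {P₁} hY
  have hf1 : f 1 ≠ 0 := by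
    have := hfχ 1
    rw [map_one] at this
    rw [this]
    exact hχ.one_ne_zero
  have hf₁1 : f₁ 1 ≠ 0 := hf₁.1.one_ne_zero
  obtain ⟨e₀, he₀⟩ := h0 G S S' C' ι' κ' ρ' π h.up.cl h.up.surj h.surj χ f hχ hf.isChr hfχ
  obtain ⟨e₁, he₁⟩ := h0 (stb {P₁}) (YS ι {P₁}) (YS ι' {P₁}) C' (jS h.up.cl {P₁})
    (cS h.up.cl {P₁}) (pS ρ' ι' {P₁}) (qS h {P₁}) (clG_S h.up.cl {P₁}) hps (qS_surj h {P₁})
    (fun g => ψ g) (fun y => f₁ y) hψ.1 hf₁.1.isChr (fun g => hfψ g)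
  have hset : ∀ R : C' → ℂ, (IsIrr R ∧ ∀ w, π w = 1 → f w * R (ρ' w) = f 1 * R 1) ↔
      (IsIrr R ∧ ∀ w : YS ι' {P₁}, qS h {P₁} w = 1 →
        f₁ w * R (pS ρ' ι' {P₁} w) = f₁ ((1 : YS ι' {P₁}) : S') * R 1) := by
    intro R
    refine and_congr_right fun _ => ⟨fun hw w hq => ?_, fun hw w hq => ?_⟩
    · have hq' : π w = 1 := congrArg Subtype.val hq
      have a := hw w hq'
      have b := hsc w hq'
      change f₁ w * R (ρ' w) = f₁ 1 * R 1
      apply mul_left_cancel₀ hf1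
      linear_combination f₁ 1 * a - R (ρ' w) * b
    · have hwY : w ∈ YS ι' {P₁} := (mem_pi h {P₁}).2 (by rw [hq]; exact one_mem _)
      have a : f₁ w * R (ρ' w) = f₁ 1 * R 1 := hw ⟨w, hwY⟩ (Subtype.ext hq)
      have b := hsc w hq
      apply mul_left_cancel₀ hf₁1
      linear_combination f 1 * a + R (ρ' w) * b
  let E := e₀.symm.trans ((Equiv.subtypeEquivRight hset).trans e₁)
  have hρY : Function.Surjective (pS ρ ι {P₁}) := by
    intro c
    have h5 : c ∈ (YS ι {P₁}).map ρ := by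
      rw [hY]
      exact Subgroup.mem_top _
    obtain ⟨s, hs, rfl⟩ := h5
    exact ⟨⟨s, hs⟩, rfl⟩
  have hcS : Nat.card S = Nat.card G * Nat.card C := CN1.card_Y h.lo.cl h.lo.surj
  have hcY : Nat.card (YS ι {P₁}) = Nat.card (stb {P₁}) * Nat.card C :=
    CN1.card_Y (clG_S h.lo.cl {P₁}) hρY
  have hC0 : Nat.card C ≠ 0 := by
    intro h5
    rw [h5, mul_zero] at hcS
    exact Nat.card_pos.ne' hcS
  have hstb : (stb (∅ : Finset (Subgroup G))) = ⊤ := by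
    unfold stb
    simp
  have hdf' : padicValNat ℓ (Nat.card G) - padicValNat ℓ ⌊(χ 1).re⌋₊ =
      padicValNat ℓ (Nat.card (stb {P₁})) - padicValNat ℓ ⌊(ψ 1).re⌋₊ := by
    unfold df at hdf
    rw [hstb, Subgroup.card_top] at hdf
    exact hdf
  have hkey : ∀ a, (HasDefect ℓ a.1 d ∧ ∀ x, cen 𝔐 i a.1 x = Ω x) ↔
      (HasDefect ℓ (E a).1 d ∧ ∀ x, cen 𝔐 (i.comp (YS ι {P₁}).subtype) (E a).1 x = Ω x) := by
    intro a
    obtain ⟨R, rfl⟩ := e₀.surjective a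
    have hE : E (e₀ R) = e₁ ((Equiv.subtypeEquivRight hset) R) := by
      change e₁ ((Equiv.subtypeEquivRight hset) (e₀.symm (e₀ R))) = _
      rw [Equiv.symm_apply_apply]
    rw [hE]
    have hR := R.2.1
    have ha := he₀ R
    have hb := he₁ ((Equiv.subtypeEquivRight hset) R)
    have hcen := cen_agree h1 h2 h3 h4 𝔐 ℓ hM hℓ i h P₁ hχ hψ hf hfχ hf₁ hfψ hY hcg hsc hR
      (e₀ R).2.1 ha (e₁ ((Equiv.subtypeEquivRight hset) R)).2.1 hb
    have hd := defect (G := G) ℓ d (stb {P₁}) hχ hψ.1 hR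
      (η := (e₀ R).1) (η₁ := (e₁ ((Equiv.subtypeEquivRight hset) R)).1)
      (by
        have h5 := ha 1
        rw [map_one, map_one] at h5
        have h6 := hfχ 1
        rw [map_one] at h6
        exact h5.trans (congrArg (fun z => z * R.1 1) h6))
      (by
        have h5 := hb 1
        rw [map_one, map_one] at h5
        have h6 := hfψ 1
        rw [map_one] at h6
        exact h5.trans (congrArg (fun z => z * R.1 1) h6))
      (Nat.card C) hC0 hcS hcY hdf'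
    rw [hd]
    refine and_congr_right fun _ => forall_congr' fun x => ?_
    rw [hcen x]
  have hL : Nat.card {η : S → ℂ // IsIrr η ∧ ip (resj ι η) χ ≠ 0 ∧ HasDefect ℓ η d ∧
        ∀ x, cen 𝔐 i η x = Ω x} =
      Nat.card {a : {η : S → ℂ // IsIrr η ∧ ip (fun g => η (π (ι' g))) χ ≠ 0} //
        HasDefect ℓ a.1 d ∧ ∀ x, cen 𝔐 i a.1 x = Ω x} := by
    refine Nat.card_congr ((Equiv.subtypeEquivRight ?_).trans
      (Equiv.subtypeSubtypeEquivSubtypeInter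
        (fun η : S → ℂ => IsIrr η ∧ ip (fun g => η (π (ι' g))) χ ≠ 0)
        (fun η => HasDefect ℓ η d ∧ ∀ x, cen 𝔐 i η x = Ω x)).symm)
    intro η
    have h5 : (fun g => η (π (ι' g))) = resj ι η := by
      funext g
      rw [h.emb]
      rfl
    rw [h5, and_assoc]
  have hRt : Nat.card {η : ↥(YS ι {P₁}) → ℂ // IsIrr η ∧
        ip (fun g : stb {P₁} => ext0 η (ι g)) (fun g : stb {P₁} => ψ g) ≠ 0 ∧
        HasDefect ℓ η d ∧ ∀ x, cen 𝔐 (i.comp (YS ι {P₁}).subtype) η x = Ω x} =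
      Nat.card {a : {η : YS ι {P₁} → ℂ // IsIrr η ∧
          ip (fun g : stb {P₁} => η (qS h {P₁} (jS h.up.cl {P₁} g)))
            (fun g : stb {P₁} => ψ g) ≠ 0} //
        HasDefect ℓ a.1 d ∧ ∀ x, cen 𝔐 (i.comp (YS ι {P₁}).subtype) a.1 x = Ω x} := by
    refine Nat.card_congr ((Equiv.subtypeEquivRight ?_).trans
      (Equiv.subtypeSubtypeEquivSubtypeInter
        (fun η : YS ι {P₁} → ℂ => IsIrr η ∧
          ip (fun g : stb {P₁} => η (qS h {P₁} (jS h.up.cl {P₁} g)))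
            (fun g : stb {P₁} => ψ g) ≠ 0)
        (fun η => HasDefect ℓ η d ∧
          ∀ x, cen 𝔐 (i.comp (YS ι {P₁}).subtype) η x = Ω x)).symm)
    intro η
    have h5 : (fun g : stb {P₁} => η (qS h {P₁} (jS h.up.cl {P₁} g))) =
        fun g : stb {P₁} => ext0 η (ι g) := by
      funext g
      have hg : ι g ∈ YS ι {P₁} := (mem_YS h.lo.cl {P₁}).2 g.2
      rw [ext0_of_mem η hg]
      congr 1
      apply Subtype.ext
      exact h.emb (g : G)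
    rw [h5, and_assoc]
  rw [hL, hRt]
  exact Nat.card_congr (Equiv.subtypeEquiv E hkey)

end Pool.Agent.RCB
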