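import Pool.Agent.RCB.St3

/-!
# Theorem P1, module COL: extension of an invariant linear character over a coprime quotient
-/

namespace Pool.Agent.RCB

open Pool.Agent.DP Pool.Agent.DPV Pool.Agent.DPB Pool.Agent.DPW Pool.Agent.DPX
open Pool.Agent.Lib_helper13 Representation

namespace COLx

variable {C : Type} [Group C]

/-- The products `u * x` with `u ∈ U`, `x ∈ R`. -/
def prd (U R : Subgroup C) (h : ∀ c ∈ R, ∀ u ∈ U, c * u * c⁻¹ ∈ U) : Subgroup C where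
  carrier := {y | ∃ u ∈ U, ∃ x ∈ R, y = u * x}
  one_mem' := ⟨1, U.one_mem, 1, R.one_mem, (mul_one 1).symm⟩
  mul_mem' := by
    rintro a b ⟨u, hu, x, hx, rfl⟩ ⟨u', hu', x', hx', rfl⟩
    exact ⟨u * (x * u' * x⁻¹), U.mul_mem hu (h x hx u' hu'), x * x', R.mul_mem hx hx', by group⟩
  inv_mem' := by
    rintro a ⟨u, hu, x, hx, rfl⟩
    refine ⟨x⁻¹ * u⁻¹ * x⁻¹⁻¹, h _ (R.inv_mem hx) _ (U.inv_mem hu), x⁻¹, R.inv_mem hx, ?_⟩
    group

theorem sup_le_prd (U R : Subgroup C) (h : ∀ c ∈ R, ∀ u ∈ U, c * u * c⁻¹ ∈ U) :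
    U ⊔ R ≤ prd U R h :=
  sup_le (fun u hu => ⟨u, hu, 1, R.one_mem, (mul_one u).symm⟩)
    (fun x hx => ⟨1, U.one_mem, x, hx, (one_mul x).symm⟩)

theorem lin_pow {U : Subgroup C} {ν : C → ℂ} (hν : LinOn U ν) {t : C} (ht : t ∈ U) (j : ℕ) :
    ν (t ^ j) = ν t ^ j := by
  induction j with
  | zero => rw [pow_zero, pow_zero, hν.1]
  | succ j ih => rw [pow_succ, pow_succ, hν.2 _ (U.pow_mem ht j) _ ht, ih]

end COLx

theorem COL_thm : Stmt_COL := by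
  classical
  intro C _ _ U R r k hr hrk hR hnorm ν hν hk hinv
  -- the character is trivial on the intersection
  have h1 : ∀ t : C, t ∈ U → t ∈ R → ν t = 1 := by
    intro t htU htR
    obtain ⟨m, hm⟩ := hR ⟨t, htR⟩
    have hm' : t ^ r ^ m = 1 := congrArg Subtype.val hm
    have h2 : ν t ^ r ^ m = 1 := by
      rw [← COLx.lin_pow hν htU, hm', hν.1]
    have h3 : (r ^ m).gcd k = 1 :=
      Nat.Coprime.pow_left m ((Nat.Prime.coprime_iff_not_dvd hr).2 hrk)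
    have h4 : ν t ^ (r ^ m).gcd k = 1 := pow_gcd_eq_one.2 ⟨h2, hk t htU⟩
    rw [h3, pow_one] at h4
    exact h4
  -- the value does not depend on the decomposition
  have h2 : ∀ u ∈ U, ∀ u' ∈ U, ∀ x ∈ R, ∀ x' ∈ R, u * x = u' * x' → ν u = ν u' := by
    intro u hu u' hu' x hx x' hx' he
    have e1 : u'⁻¹ * u = x' * x⁻¹ := by
      rw [inv_mul_eq_iff_eq_mul, ← mul_assoc, ← he, mul_assoc, mul_inv_cancel, mul_one]
    have e2 : ν (u'⁻¹ * u) = 1 :=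
      h1 _ (U.mul_mem (U.inv_mem hu') hu) (by rw [e1]; exact R.mul_mem hx' (R.inv_mem hx))
    have e3 := hν.2 u' hu' (u'⁻¹ * u) (U.mul_mem (U.inv_mem hu') hu)
    rw [mul_inv_cancel_left, e2, mul_one] at e3
    exact e3
  obtain ⟨μ, hμ⟩ : ∃ μ : C → ℂ, ∀ u ∈ U, ∀ x ∈ R, μ (u * x) = ν u := by
    refine ⟨fun y => if h : ∃ u ∈ U, ∃ x ∈ R, y = u * x then ν h.choose else 1, ?_⟩
    intro u hu x hx
    have h : ∃ u' ∈ U, ∃ x' ∈ R, u * x = u' * x' := ⟨u, hu, x, hx, rfl⟩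
    change (if h : ∃ u' ∈ U, ∃ x' ∈ R, u * x = u' * x' then ν h.choose else 1) = ν u
    rw [dif_pos h]
    obtain ⟨hc, x', hx', he⟩ := h.choose_spec
    exact (h2 u hu _ hc x hx x' hx' he).symm
  have hU : ∀ u ∈ U, μ u = ν u := by
    intro u hu
    have := hμ u hu 1 R.one_mem
    rwa [mul_one] at this
  refine ⟨μ, ⟨?_, ?_⟩, hU⟩
  · rw [hU 1 U.one_mem, hν.1]
  · intro a ha b hb
    obtain ⟨u, hu, x, hx, rfl⟩ := COLx.sup_le_prd U R hnorm ha
    obtain ⟨u', hu', x', hx', rfl⟩ := COLx.sup_le_prd U R hnorm hb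
    have e1 : u * x * (u' * x') = (u * (x * u' * x⁻¹)) * (x * x') := by group
    rw [e1, hμ _ (U.mul_mem hu (hnorm x hx u' hu')) _ (R.mul_mem hx hx'),
      hν.2 u hu _ (hnorm x hx u' hu'), hinv x hx u' hu', hμ u hu x hx, hμ u' hu' x' hx']

end Pool.Agent.RCB
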