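import Mathlib
import Pool.Agent.RCB.St4

/-!
# RCB_CPN: the Sylow subgroup `D` is conjugate under `W` to its conjugates under the stabilizer
-/

namespace Pool.Agent.RCB

open Pool.Agent.DP Pool.Agent.DPV Pool.Agent.DPB Pool.Agent.DPW Pool.Agent.DPX
open Pool.Agent.Lib_helper13 Representation

namespace CPN

lemma map_conj {B : Type} [Group B] (K : Subgroup B) (a b : B) :
    (K.map (MulAut.conj a).toMonoidHom).map (MulAut.conj b).toMonoidHom =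
      K.map (MulAut.conj (b * a)).toMonoidHom := by
  rw [Subgroup.map_map]
  congr 1
  ext x
  simp [mul_assoc]

lemma map_conj_one {B : Type} [Group B] (K : Subgroup B) :
    K.map (MulAut.conj (1 : B)).toMonoidHom = K := by
  ext x
  simp

/-- an element which normalizes `P₁` normalizes the centralizer of `P₁` -/
lemma conj_mem {G : Type} [Group G] {P₁ : Subgroup G} {s : G} (hs : s ∈ stb {P₁}) {c : G}
    (hc : c ∈ Subgroup.centralizer (P₁ : Set G)) :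
    s * c * s⁻¹ ∈ Subgroup.centralizer (P₁ : Set G) := by
  rw [Subgroup.mem_centralizer_iff] at hc ⊢
  intro u hu
  have h1 : s⁻¹ * u * s ∈ P₁ := by
    have h2 := (mem_stb'.1 hs) P₁ (Finset.mem_singleton_self _) (s⁻¹ * u * s)
    rw [h2]
    have h3 : s * (s⁻¹ * u * s) * s⁻¹ = u := by group
    rw [h3]
    exact hu
  have h4 := hc _ h1
  have h5 : u * (s * c * s⁻¹) = s * ((s⁻¹ * u * s) * c) * s⁻¹ := by group
  rw [h5, h4]
  group

/-- conjugation by `s` on the centralizer -/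
def kS {G : Type} [Group G] {P₁ : Subgroup G} {s : G} (hs : s ∈ stb {P₁}) :
    MulAut (Subgroup.centralizer (P₁ : Set G)) where
  toFun c := ⟨s * c * s⁻¹, conj_mem hs c.2⟩
  invFun c := ⟨s⁻¹ * c * s, by
    have := conj_mem (Subgroup.inv_mem _ hs) c.2
    rwa [inv_inv] at this⟩
  left_inv c := by
    apply Subtype.ext
    change s⁻¹ * (s * (c : G) * s⁻¹) * s = c
    group
  right_inv c := by
    apply Subtype.ext
    change s * (s⁻¹ * (c : G) * s) * s⁻¹ = c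
    group
  map_mul' c d := by
    apply Subtype.ext
    change s * ((c : G) * d) * s⁻¹ = s * c * s⁻¹ * (s * d * s⁻¹)
    group

end CPN

open CPN in
theorem CPN_thm (h1 : Stmt_CPA) (h2 : Stmt_CPC) (h3 : Stmt_WST) (h4 : Stmt_RLN)
    (h5 : Stmt_ZCA) (h6 : Stmt_BSA) (h7 : Stmt_BSD) : Stmt_CPN := by
  intro G B C _ _ _ _ _ 𝔐 ℓ n _ hmax hmem ι κ ρ hloc hcard ω P₁ P x₀ hst φ hφ
  obtain ⟨x, P', D, hat, hxC, hcx, hinv, hDW, hDp, hDc, hDm, hDx, hDcard, hDu⟩ :=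
    h1 G B C 𝔐 ℓ n hmax hmem ι κ ρ hloc hcard ω P₁ P x₀ hst φ hφ
  obtain ⟨t, D₀, hsup, hD₀W, hD₀p, hD₀t, hD₀c⟩ :=
    h2 G B C 𝔐 ℓ n hmax hmem ι κ ρ hloc hcard ω P₁ P x₀ hst φ hφ
  obtain ⟨hW1, hW2, hW3⟩ := h3 G B C 𝔐 ℓ n hmax hmem ι κ ρ hloc hcard ω P₁ P x₀ hst φ hφ
  obtain ⟨-, ⟨hirr, hcen, -⟩, -, -, -⟩ := h5 G 𝔐 ℓ n hmax hmem ω P₁ P x₀ hst.at' hst.ex φ hφ
  obtain ⟨j, c, hj, hc, hlocW⟩ := h4 G B C ι κ ρ hloc (WG 𝔐 κ P₁ φ) _ hW1 hW2
  have hact : ∀ (b : B) (g : G), ι (κ b g) = b * ι g * b⁻¹ := hloc.cl.act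
  have hιinj : Function.Injective ι := hloc.cl.inj
  have hιW : ∀ g ∈ Subgroup.centralizer (P₁ : Set G), ι g ∈ WG 𝔐 κ P₁ φ := by
    intro g hg
    rw [← hW1] at hg
    exact hg
  -- the claim
  have claim : ∀ s ∈ stb {P₁}, (∀ g, cgT 𝔐 (Subgroup.centralizer (P₁ : Set G)) φ (s * g * s⁻¹) =
      cgT 𝔐 (Subgroup.centralizer (P₁ : Set G)) φ g) → ∃ y ∈ WG 𝔐 κ P₁ φ,
      D = D₀.map (MulAut.conj (y * ι s)).toMonoidHom := by
    intro s hs hsg
    have hBS : BSup 𝔐 (fun c : Subgroup.centralizer (P₁ : Set G) => φ c) (kS hs t) := by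
      refine (((h6 _ 𝔐 ℓ hmax hmem _ hirr).2.2 (kS hs) ?_).2 t).2 hsup
      intro g
      rw [hcen, hcen]
      exact hsg g
    obtain ⟨U, hU⟩ : ∃ U : Subgroup B, U = D₀.map (MulAut.conj (ι s)).toMonoidHom := ⟨_, rfl⟩
    have hUW : U ≤ WG 𝔐 κ P₁ φ := by
      rw [hU]
      rintro _ ⟨d, hd, rfl⟩
      exact hW3 s hs hsg d (hD₀W hd)
    have hUp : IsPGroup ℓ U := by
      rw [hU]
      exact hD₀p.map _
    have hUk : ∀ u ∈ U, κ u (kS hs t : G) = (kS hs t : G) := by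
      rw [hU]
      rintro _ ⟨d, hd, rfl⟩
      apply hιinj
      rw [hact]
      change (ι s * d * (ι s)⁻¹) * ι (s * t * s⁻¹) * (ι s * d * (ι s)⁻¹)⁻¹ = ι (s * t * s⁻¹)
      have e := hD₀t d hd
      rw [map_mul, map_mul, map_inv]
      have e2 : (ι s * d * (ι s)⁻¹) * (ι s * ι t * (ι s)⁻¹) * (ι s * d * (ι s)⁻¹)⁻¹ =
        ι s * (d * ι t) * d⁻¹ * (ι s)⁻¹ := by group
      rw [e2, e]
      group
    have : Fintype (WG 𝔐 κ P₁ φ) := Fintype.ofFinite _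
    obtain ⟨g, hg⟩ := h7 (Subgroup.centralizer (P₁ : Set G)) (WG 𝔐 κ P₁ φ) C 𝔐 ℓ hmax hmem j c
      (ρ.comp (WG 𝔐 κ P₁ φ).subtype) hlocW (fun c => φ c) hirr
      (by
        intro v g
        rw [hcen, hcen, hc]
        exact v.2.2 g)
      ⟨x, hxC⟩
      (by
        rw [hcen]
        exact hcx)
      (by
        intro v
        obtain ⟨c', hc', he⟩ := hinv v v.2
        refine ⟨⟨c', hc'⟩, ?_⟩
        apply Subtype.ext
        rw [hc]
        exact he)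
      (kS hs t) hBS (U.subgroupOf (WG 𝔐 κ P₁ φ)) (hUp.comap_subtype)
      (by
        intro u hu
        apply Subtype.ext
        rw [hc]
        exact hUk u hu)
    have hgU : ∀ u ∈ U, κ u ((g : G) * x * (g : G)⁻¹) = (g : G) * x * (g : G)⁻¹ := by
      intro u hu
      have h8 := hg ⟨u, hUW hu⟩ hu
      have h9 := congrArg (Subtype.val) h8
      rw [hc] at h9
      exact h9
    have hιg := hιW g g.2
    obtain ⟨v, hv, hDv⟩ := hDu (U.map (MulAut.conj (ι g)⁻¹).toMonoidHom)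
      (by
        rintro _ ⟨u, hu, rfl⟩
        change (ι g)⁻¹ * u * ((ι g)⁻¹)⁻¹ ∈ _
        exact Subgroup.mul_mem _ (Subgroup.mul_mem _ (Subgroup.inv_mem _ hιg) (hUW hu))
          (Subgroup.inv_mem _ (Subgroup.inv_mem _ hιg)))
      (hUp.map _)
      (by
        rintro _ ⟨u, hu, rfl⟩
        change (ι g)⁻¹ * u * ((ι g)⁻¹)⁻¹ * ι x = ι x * ((ι g)⁻¹ * u * ((ι g)⁻¹)⁻¹)
        have h8 := congrArg ι (hgU u hu)
        rw [hact, map_mul, map_mul, map_inv] at h8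
        rw [inv_inv]
        have h9 : u * (ι g * ι x * (ι g)⁻¹) = (ι g * ι x * (ι g)⁻¹) * u :=
          mul_inv_eq_iff_eq_mul.1 h8
        have e1 : (ι g)⁻¹ * u * ι g * ι x = (ι g)⁻¹ * (u * (ι g * ι x * (ι g)⁻¹)) * ι g := by
          group
        rw [e1, h9]
        group)
      (by
        rw [card_map_conj, hU, card_map_conj, hDcard]
        exact hD₀c)
    refine ⟨v * (ι g)⁻¹, Subgroup.mul_mem _ hv (Subgroup.inv_mem _ hιg), ?_⟩
    rw [hDv, hU, map_conj, map_conj]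
  obtain ⟨y₁, hy₁, hD₁⟩ := claim 1 (Subgroup.one_mem _) (fun g => by rw [one_mul, inv_one, mul_one])
  rw [map_one, mul_one] at hD₁
  refine ⟨x, P', D, hat, hDp, hDc, hDm, hDx, fun d hd => (hDW hd).1, ?_⟩
  intro s hs hsg
  obtain ⟨y, hy, hDy⟩ := claim s hs hsg
  have hD₀ : D₀ = D.map (MulAut.conj (y * ι s)⁻¹).toMonoidHom := by
    conv_rhs => rw [hDy, map_conj, inv_mul_cancel, map_conj_one]
  have hw : ι s * y₁ * (ι s)⁻¹ * y⁻¹ ∈ WG 𝔐 κ P₁ φ :=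
    Subgroup.mul_mem _ (hW3 s hs hsg y₁ hy₁) (Subgroup.inv_mem _ hy)
  refine ⟨ι s * y₁ * (ι s)⁻¹ * y⁻¹, hw.1, ?_⟩
  have e1 : D.map (MulAut.conj (ι s)).toMonoidHom =
      D₀.map (MulAut.conj (ι s * y₁)).toMonoidHom := by
    conv_lhs => rw [hD₁, map_conj]
  rw [e1, hD₀, map_conj]
  congr 3
  group

end Pool.Agent.RCB
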