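import Mathlib
import Pool.Agent.RCB.St5
import Pool.Agent.Lib_helper13.Bridge

/-!
# RCB_CSC: a twisted sum with coefficients in the maximal ideal lies in the maximal ideal
-/

namespace Pool.Agent.RCB

open Pool.Agent.DP Pool.Agent.DPV Pool.Agent.DPB Pool.Agent.DPW Pool.Agent.DPX
open Pool.Agent.Lib_helper13 Representation

namespace CSC

/-- The sum of a function invariant under left multiplication by the elements of a subgroup. -/
theorem sum_cosets {C' : Type} [Group C'] [Fintype C'] (W : Subgroup C') (g : C' → ℂ)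
    (hg : ∀ w ∈ W, ∀ x, g (w * x) = g x) [Fintype (C' ⧸ W)] :
    ∑ x, g x = (Nat.card W : ℂ) * ∑ q : C' ⧸ W, g (q.out)⁻¹ := by
  classical
  have h1 : ∑ x, g x = ∑ x : C', g x⁻¹ := (Equiv.sum_comp (Equiv.inv C') g).symm
  have h2 : Function.Bijective (fun p : (C' ⧸ W) × W => p.1.out * (p.2 : C')) := by
    constructor
    · rintro ⟨q, w⟩ ⟨q', w'⟩ h
      change q.out * (w : C') = q'.out * (w' : C') at h
      have h3 : ∀ (q : C' ⧸ W) (w : W), ((q.out * (w : C') : C') : C' ⧸ W) = q := by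
        intro q w
        rw [QuotientGroup.mk_mul_of_mem _ w.2, QuotientGroup.out_eq']
      have h4 : q = q' := by rw [← h3 q w, h, h3 q' w']
      subst h4
      exact Prod.ext rfl (Subtype.ext (mul_left_cancel h))
    · intro x
      obtain ⟨h, hh⟩ := QuotientGroup.mk_out_eq_mul W x
      refine ⟨((x : C' ⧸ W), h⁻¹), ?_⟩
      change (x : C' ⧸ W).out * ((h⁻¹ : W) : C') = x
      rw [hh, Subgroup.coe_inv, mul_inv_cancel_right]
  have h3 : ∑ x : C', g x⁻¹ = ∑ p : (C' ⧸ W) × W, g (p.1.out * (p.2 : C'))⁻¹ :=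
    (Function.Bijective.sum_comp h2 (fun x => g x⁻¹)).symm
  rw [h1, h3, Fintype.sum_prod_type, Finset.mul_sum]
  refine Finset.sum_congr rfl fun q _ => ?_
  have h4 : ∀ w : W, g (q.out * (w : C'))⁻¹ = g (q.out)⁻¹ := by
    intro w
    rw [mul_inv_rev]
    exact hg _ (W.inv_mem w.2) _
  rw [Finset.sum_congr rfl (fun w _ => h4 w), Finset.sum_const, Finset.card_univ,
    Nat.card_eq_fintype_card, nsmul_eq_mul]

end CSC

open CSC in
theorem CSC_thm (h0 : Stmt_VALX) (h1 : Stmt_RLZX) : Stmt_CSC := by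
  classical
  intro C' _ _ 𝔐 ℓ _ hmax hℓ W R A τ hR hA hAi hAr hRτ hAτ hint
  obtain ⟨O, hO⟩ := h0 𝔐 ℓ hmax hℓ
  obtain ⟨d, M, hd, htr, hsc⟩ := h1 O C' R hR
  have hR1 : R 1 ≠ 0 := hR.one_ne_zero
  have hRi : ∀ x, IsIntegral ℤ (R x) := fun x => isIntegral_char hR x
  have hmemO : ∀ x : ℂ, IsIntegral ℤ x → x ∈ O := fun x hx => hO.int ⟨x, hx⟩
  -- the elements of `W` act as scalars
  obtain ⟨z, hz, hzM⟩ := hsc (fun x => ⟨R x⁻¹, hmemO _ (hRi _)⟩) (by
    intro g x
    apply Subtype.ext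
    change R (g * x * g⁻¹)⁻¹ = R x⁻¹
    have h2 : (g * x * g⁻¹)⁻¹ = g * x⁻¹ * g⁻¹ := by group
    rw [h2, hR.conj_eq])
  have hz0 : (z : ℂ) ≠ 0 := by
    rw [hz, wt]
    refine div_ne_zero ?_ hR1
    have h2 : ∑ y, R y⁻¹ * R y = Nat.card C' := by
      rw [← hR.sum_self]
      exact Finset.sum_congr rfl fun y _ => mul_comm _ _
    rw [h2]
    exact Nat.cast_ne_zero.mpr Nat.card_pos.ne'
  have hE : ∀ i j, ∑ h, R h⁻¹ * (((M h i j : O)) : ℂ) = (z : ℂ) * (if i = j then 1 else 0) := by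
    intro i j
    have h2 := congrArg (fun X : Matrix (Fin d) (Fin d) O => ((X i j : O) : ℂ)) hzM
    simp only [Matrix.sum_apply, Matrix.smul_apply, smul_eq_mul, Matrix.one_apply] at h2
    push_cast at h2
    rw [h2]
    by_cases hij : i = j
    · rw [if_pos hij, if_pos hij]
      rfl
    · rw [if_neg hij, if_neg hij]
      rfl
  have hMw : ∀ w ∈ W, ∀ i j, (((M w i j : O)) : ℂ) = if i = j then τ w else 0 := by
    intro w hw i j
    have h2 : ∑ h, R h⁻¹ * (((M (w * h) i j : O)) : ℂ) = (z : ℂ) * (((M w i j : O)) : ℂ) := by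
      have h3 : ∀ h, (((M (w * h) i j : O)) : ℂ) =
          ∑ k, (((M w i k : O)) : ℂ) * (((M h k j : O)) : ℂ) := by
        intro h
        rw [map_mul, Matrix.mul_apply]
        push_cast
        rfl
      calc ∑ h, R h⁻¹ * (((M (w * h) i j : O)) : ℂ)
          = ∑ h, ∑ k, (((M w i k : O)) : ℂ) * (R h⁻¹ * (((M h k j : O)) : ℂ)) := by
            refine Finset.sum_congr rfl fun h _ => ?_
            rw [h3, Finset.mul_sum]
            exact Finset.sum_congr rfl fun k _ => by ring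
        _ = ∑ k, (((M w i k : O)) : ℂ) * ((z : ℂ) * (if k = j then 1 else 0)) := by
            rw [Finset.sum_comm]
            refine Finset.sum_congr rfl fun k _ => ?_
            rw [← Finset.mul_sum, hE]
        _ = (z : ℂ) * (((M w i j : O)) : ℂ) := by
            simp only [mul_ite, mul_one, mul_zero, Finset.sum_ite_eq', Finset.mem_univ, if_true]
            ring
    have h4 : ∑ h, R h⁻¹ * (((M (w * h) i j : O)) : ℂ) =
        τ w * ∑ h, R h⁻¹ * (((M h i j : O)) : ℂ) := by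
      rw [Finset.mul_sum, ← Equiv.sum_comp (Equiv.mulLeft w)
        (fun y => τ w * (R y⁻¹ * (((M y i j : O)) : ℂ)))]
      refine Finset.sum_congr rfl fun h _ => ?_
      have h5 : R h⁻¹ = τ w * R (w * h)⁻¹ := by
        rw [← hRτ w hw (w * h)⁻¹]
        have h6 : w * (w * h)⁻¹ = w * h⁻¹ * w⁻¹ := by group
        rw [h6, hR.conj_eq]
      change R h⁻¹ * (((M (w * h) i j : O)) : ℂ) =
        τ w * (R (w * h)⁻¹ * (((M (w * h) i j : O)) : ℂ))
      rw [h5]
      ring
    rw [hE, h2] at h4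
    apply mul_left_cancel₀ hz0
    rw [h4]
    by_cases hij : i = j
    · rw [if_pos hij, if_pos hij]
      ring
    · rw [if_neg hij, if_neg hij]
      ring
  -- the entry
  have hd0 : 0 < d := by
    rcases Nat.eq_zero_or_pos d with h2 | h2
    · rw [h2, Nat.cast_zero] at hd
      exact absurd hd.symm hR1
    · exact h2
  set i0 : Fin d := ⟨0, hd0⟩ with hi0
  have hwx : ∀ w ∈ W, ∀ x, (((M (w * x) i0 i0 : O)) : ℂ) = τ w * (((M x i0 i0 : O)) : ℂ) := by
    intro w hw x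
    rw [map_mul, Matrix.mul_apply]
    push_cast
    rw [Finset.sum_congr rfl (fun k _ => by rw [hMw w hw i0 k])]
    simp only [ite_mul, zero_mul, Finset.sum_ite_eq, Finset.mem_univ, if_true]
  have hAO : ∀ x, A x ∈ O := fun x => hmemO _ (hAi x)
  obtain ⟨u, hu, huM⟩ := hsc (fun x => ⟨A x, hAO x⟩) (by
    intro g x
    apply Subtype.ext
    exact hA g x)
  have hU : ∑ x, A x * (((M x i0 i0 : O)) : ℂ) = (∑ x, A x * R x) / R 1 := by
    have h2 := congrArg (fun X : Matrix (Fin d) (Fin d) O => ((X i0 i0 : O) : ℂ)) huM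
    simp only [Matrix.sum_apply, Matrix.smul_apply, smul_eq_mul, Matrix.one_apply_eq,
      mul_one] at h2
    push_cast at h2
    rw [h2, hu, wt]
  let _ : Fintype (C' ⧸ W) := Fintype.ofFinite _
  have hS := sum_cosets W (fun x => A x * (((M x i0 i0 : O)) : ℂ)) (by
    intro w hw x
    change A (w * x) * (((M (w * x) i0 i0 : O)) : ℂ) = A x * (((M x i0 i0 : O)) : ℂ)
    rw [hwx w hw x, ← hAτ w hw x]
    ring)
  set S : O := ∑ q : C' ⧸ W, (⟨A (q.out)⁻¹, hAO _⟩ : O) * M (q.out)⁻¹ i0 i0 with hSdef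
  have hSc : (S : ℂ) = ∑ q : C' ⧸ W, A (q.out)⁻¹ * (((M (q.out)⁻¹ i0 i0 : O)) : ℂ) := by
    rw [hSdef]
    push_cast
    rfl
  have hSm : S ∈ IsLocalRing.maximalIdeal O := by
    refine Ideal.sum_mem _ fun q _ => Ideal.mul_mem_right _ _ ?_
    rw [ValuationSubring.valuation_lt_one_iff]
    refine (hO.max ⟨A (q.out)⁻¹, hAi _⟩).1 ?_
    have h2 := hAr (q.out)⁻¹
    rw [red_of_integral 𝔐 (hAi _), Ideal.Quotient.eq_zero_iff_mem] at h2
    exact h2
  have hT : (∑ x, A x * R x) / (Nat.card W * R 1) = (S : ℂ) := by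
    have hW : (Nat.card W : ℂ) ≠ 0 := Nat.cast_ne_zero.mpr Nat.card_pos.ne'
    rw [hU, ← hSc] at hS
    rw [mul_comm (Nat.card W : ℂ), ← div_div, hS]
    field_simp
  rw [red_of_integral 𝔐 hint, Ideal.Quotient.eq_zero_iff_mem, hO.max]
  change O.valuation ((∑ x, A x * R x) / (Nat.card W * R 1)) < 1
  rw [hT, ← ValuationSubring.valuation_lt_one_iff]
  exact hSm

end Pool.Agent.RCB
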