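import Mathlib
import Pool.Agent.RCB.St5
import Pool.Agent.DP.BLKC
import Pool.Agent.DPW.FXF
import Pool.Agent.DPX.GCX
import Pool.Agent.DPX.FXGX

/-!
# RCB_CVB: characters of the stabilizers lie over conjugates of the block
-/

set_option autoImplicit false

namespace Pool.Agent.RCB

open Pool.Agent.DP Pool.Agent.DPV Pool.Agent.DPB Pool.Agent.DPW Pool.Agent.DPX
open Pool.Agent.Lib_helper13 Representation

namespace CVB

section Cl

variable {G B C : Type} [Group G] [Group B] [Group C] {ι : G →* B} {κ : B →* MulAut G}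
  {ρ : B →* C}

theorem act_iota (h : ClG ι κ ρ) (g x : G) : κ (ι g) x = g * x * g⁻¹ := by
  apply h.inj
  rw [h.act, map_mul, map_mul, map_inv]

/-- The stabilizer of the chain in `G` stabilizes its characters. -/
theorem iota_mem [Finite G] (h : ClG ι κ ρ) {σ : Finset (Subgroup G)} {θ : G → ℂ}
    (hθ : IrrOn (stb σ) θ) (g : stb σ) : ι g ∈ Stx κ σ θ := by
  rw [mem_Stx]
  constructor
  · exact (mem_YS_iff h σ).1 ((mem_YS h σ).2 g.2)
  · intro x
    rw [act_iota h]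
    by_cases hx : x ∈ stb σ
    · exact hθ.1.conj_eq g ⟨x, hx⟩
    · rw [hθ.2 x hx, hθ.2]
      intro hx'
      apply hx
      have h1 := (stb σ).mul_mem ((stb σ).mul_mem ((stb σ).inv_mem g.2) hx') g.2
      have e : (g : G)⁻¹ * ((g : G) * x * (g : G)⁻¹) * (g : G) = x := by group
      rwa [e] at h1

theorem Stx_le (h : ClG ι κ ρ) (σ : Finset (Subgroup G)) (θ : G → ℂ) :
    Stx κ σ θ ≤ YS ι σ := fun b hb => (mem_YS_iff h σ).2 (mem_Stx.1 hb).1

/-- The embedding in the stabilizer. -/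
noncomputable def jT [Finite G] (h : ClG ι κ ρ) {σ : Finset (Subgroup G)} {θ : G → ℂ}
    (hθ : IrrOn (stb σ) θ) : stb σ →* Stx κ σ θ :=
  (ι.comp (stb σ).subtype).codRestrict (Stx κ σ θ) (iota_mem h hθ)

/-- The action of the stabilizer. -/
noncomputable def cT (h : ClG ι κ ρ) (σ : Finset (Subgroup G)) (θ : G → ℂ) :
    Stx κ σ θ →* MulAut (stb σ) :=
  (cS h σ).comp (Subgroup.inclusion (Stx_le h σ θ))

theorem clG_T [Finite G] (h : ClG ι κ ρ) {σ : Finset (Subgroup G)} {θ : G → ℂ}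
    (hθ : IrrOn (stb σ) θ) : ClG (jT h hθ) (cT h σ θ) (ρ.comp (Stx κ σ θ).subtype) where
  inj := by
    intro a b hab
    apply Subtype.ext
    apply h.inj
    exact congrArg Subtype.val hab
  act := by
    intro y a
    apply Subtype.ext
    exact h.act (y : B) (a : G)
  ker := by
    intro y
    constructor
    · intro hy
      obtain ⟨a, ha⟩ := (h.ker (y : B)).mp hy
      refine ⟨⟨a, (mem_YS h σ).mp (by rw [ha]; exact Stx_le h σ θ y.2)⟩, ?_⟩
      apply Subtype.ext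
      exact ha
    · rintro ⟨a, rfl⟩
      exact (h.ker (ι (a : G))).mpr ⟨a, rfl⟩

/-- The extension by zero on the stabilizer. -/
theorem exF_stx [Finite G] (h : ClG ι κ ρ) {σ : Finset (Subgroup G)} {θ : G → ℂ}
    (hθ : IrrOn (stb σ) θ) (a : G → ℂ) (s : Stx κ σ θ) :
    FXF.exF (jT h hθ) (fun g : stb σ => a g) s = FXF.exF ι a (s : B) := by
  by_cases hs : (s : B) ∈ ι.range
  · obtain ⟨g, hg⟩ := hs
    have hgs : g ∈ stb σ := (mem_YS h σ).mp (by rw [hg]; exact Stx_le h σ θ s.2)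
    have h1 : s = jT h hθ ⟨g, hgs⟩ := Subtype.ext hg.symm
    rw [h1, FXF.exF_j (clG_T h hθ).inj]
    exact (FXF.exF_j h.inj a g).symm
  · rw [FXF.exF_zero a hs, FXF.exF_zero]
    rintro ⟨x, hx⟩
    apply hs
    exact ⟨x, congrArg Subtype.val hx⟩

end Cl

section Wt

variable {G B C : Type} [Group G] [Fintype G] [Group B] [Fintype B] [Group C]
  {ι : G →* B} {κ : B →* MulAut G} {ρ : B →* C}

/-- Step 1: the weights of the invariant functions. -/
theorem wt_eq (𝔐 : Ideal (integralClosure ℤ ℂ)) (h : ClG ι κ ρ) {χ : B → ℂ} {ξ : G → ℂ}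
    (hχ : IsIrr χ) (hξ : IsIrr ξ) (hip : ip (resj ι χ) ξ ≠ 0) {σ : Finset (Subgroup G)}
    {θ : G → ℂ} (hθ : IrrOn (stb σ) θ) {η : Stx κ σ θ → ℂ} (hη : IsIrr η)
    (hip' : ip (fun g : stb σ => ext0 η (ι g)) (fun g : stb σ => θ g) ≠ 0)
    (hc : ∀ x, cen 𝔐 (Stx κ σ θ).subtype η x = cen 𝔐 (MonoidHom.id B) χ x)
    (a : G → ℂ) (ha : ∀ b x, a (κ b x) = a x) (hai : ∀ x, IsIntegral ℤ (a x)) :
    red 𝔐 (wt ξ a) = red 𝔐 (wt (fun g : stb σ => θ g) (fun g : stb σ => a g)) := by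
  have h1 := FXF.wt_ex h hξ hχ hip ha
  have h2 : resj (jT h hθ) η = fun g : stb σ => ext0 η (ι g) := by
    funext g
    exact (ext0_of_mem η (iota_mem h hθ g)).symm
  have h3 := FXF.wt_ex (clG_T h hθ) hθ.1 hη (by rw [h2]; exact hip')
    (a := fun g : stb σ => a g) (fun y x => ha (y : B) (x : G))
  have h4 : FXF.exF (jT h hθ) (fun g : stb σ => a g) = fun s : Stx κ σ θ => FXF.exF ι a (s : B) :=
    funext (exF_stx h hθ a)
  rw [h4] at h3
  rw [← h1, ← h3]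
  have h5 := red_wt_eq_pair 𝔐 (MonoidHom.id B) hχ (FXF.exF ι a) (FXF.exF_class h ha)
    (FXF.exF_int hai)
  have h6 := red_wt_eq_pair 𝔐 (Stx κ σ θ).subtype hη (FXF.exF ι a) (FXF.exF_class h ha)
    (FXF.exF_int hai)
  have h7 : cen 𝔐 (Stx κ σ θ).subtype η = cen 𝔐 (MonoidHom.id B) χ := funext hc
  rw [h7, ← h5] at h6
  exact h6.symm

end Wt

theorem atX_aut {G F : Type} [Group G] [Zero F] {ℓ n : ℕ} {ω : G → F} {P₁ P : Subgroup G}
    {x₀ : G} (e : MulAut G) (h : AtX ℓ n (fun g => ω (e g)) P₁ P x₀) :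
    AtX ℓ n ω (P₁.map e.toMonoidHom) (P.map e.toMonoidHom) (e x₀) := by
  refine ⟨⟨Subgroup.map_mono h.cd.le, ?_, ?_, ?_, ?_, ?_⟩, h.ne, ?_⟩
  · rw [← h.cd.c1]
    exact Nat.card_congr (Subgroup.equivMapOfInjective P₁ _ e.injective).toEquiv.symm
  · have := h.cd.cyc
    exact isCyclic_of_surjective (Subgroup.equivMapOfInjective P e.toMonoidHom
      e.injective) (Subgroup.equivMapOfInjective P _ e.injective).surjective
  · rw [← h.cd.card]
    exact Nat.card_congr (Subgroup.equivMapOfInjective P _ e.injective).toEquiv.symm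
  · rintro u ⟨v, hv, rfl⟩
    change e v * e x₀ = e x₀ * e v
    rw [← map_mul, ← map_mul, h.cd.cen v hv]
  · rw [FXGX.card_cen_map]
    exact h.cd.sq
  · intro x hx
    have h1 := h.mn (e.symm x) (by rwa [MulEquiv.apply_symm_apply])
    rwa [← FXGX.card_cen_map e, MulEquiv.apply_symm_apply] at h1

/-- Step 2: a character of `G` with the same central function. -/
theorem exists_irr (h1 : Stmt_LOC) {G : Type} [Group G] [Fintype G]
    (𝔐 : Ideal (integralClosure ℤ ℂ)) {ℓ : ℕ} [Fact ℓ.Prime] (h𝔐 : 𝔐.IsMaximal)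
    (hℓ : (ℓ : integralClosure ℤ ℂ) ∈ 𝔐) {P₁ : Subgroup G} (hP₁ : Nat.card P₁ = ℓ)
    {σ : Finset (Subgroup G)} (hσ : σ = ∅ ∨ σ = {P₁}) {θ : G → ℂ} (hθ : IrrOn (stb σ) θ) :
    ∃ θ₁ : G → ℂ, IsIrr θ₁ ∧ cen 𝔐 (MonoidHom.id G) θ₁ = cg 𝔐 θ := by
  classical
  rcases hσ with rfl | rfl
  · exact ⟨θ, hθ.1.comp_mulEquiv (BLKC.eE G), rfl⟩
  · have hst : stb ({P₁} : Finset (Subgroup G)) = Subgroup.normalizer (P₁ : Set G) := by
      simp [stb]
    rw [hst] at hθ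
    have : Fintype (NP P₁) := Fintype.ofFinite _
    obtain ⟨⟨θ₁, hθ₁, hc⟩, -⟩ := h1 G 𝔐 ℓ h𝔐 hℓ P₁ hP₁ (fun s : NP P₁ => θ s) hθ.1
    refine ⟨θ₁, hθ₁, ?_⟩
    rw [hc]
    funext g
    exact BLKC.cg_eq_cen 𝔐 (Subgroup.normalizer (P₁ : Set G)) θ hθ.2 g

end CVB

open CVB

/-- RCB_CVB. -/
theorem CVB_thm (_h0 : Stmt_SUMM) (h1 : Stmt_LOC) (h2 : Stmt_COVW) (h3 : Stmt_CHNX) :
    Stmt_CVB := by
  classical
  intro G B C _ _ _ _ _ 𝔐 ℓ n _ h𝔐 hℓ ι κ ρ hL χ ξ hχ hξ hip P₁ P x₀ hA σ hσ θ hθ η hη hip' hc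
  obtain ⟨θ₁, hθ₁, hcg⟩ := exists_irr h1 𝔐 h𝔐 hℓ hA.cd.c1 hσ hθ
  obtain ⟨b₀, hb₀⟩ := h2 G B C 𝔐 ℓ h𝔐 hℓ ι κ ρ hL.cl ξ θ₁ hξ hθ₁ (by
    intro a ha hai
    have hcl : ∀ g x, a (g * x * g⁻¹) = a x := fun g x => by rw [← act_iota hL.cl, ha]
    rw [wt_eq 𝔐 hL.cl hχ hξ hip hθ hη hip' hc a ha hai]
    have h4 := red_wt_eq_pair 𝔐 (stb σ).subtype hθ.1 a hcl hai
    have h5 := red_wt_eq_pair 𝔐 (MonoidHom.id G) hθ₁ a hcl hai
    have h6 : cen 𝔐 (stb σ).subtype (fun s : stb σ => θ s) = cen 𝔐 (MonoidHom.id G) θ₁ := by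
      rw [hcg]
      funext g
      exact BLKC.cg_eq_cen 𝔐 (stb σ) θ hθ.2 g
    rw [h6, ← h5] at h4
    exact h4)
  have hω : ∀ g, cg 𝔐 θ (κ b₀ g) = cen 𝔐 (MonoidHom.id G) ξ g := by
    intro g
    rw [← hb₀, FXF.cen_twist, hcg]
  rcases hσ with rfl | rfl
  · refine ⟨b₀, ?_, hω⟩
    rw [mem_YS_iff hL.cl]
    intro D hD
    exact absurd hD (Finset.notMem_empty D)
  · have hA' : AtX ℓ n (cg 𝔐 θ) (P₁.map (κ b₀).toMonoidHom) (P.map (κ b₀).toMonoidHom)
        (κ b₀ x₀) := by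
      apply atX_aut
      have e : (fun g => cg 𝔐 θ (κ b₀ g)) = cen 𝔐 (MonoidHom.id G) ξ := funext hω
      rw [e]
      exact hA
    have hpr : ℓ.Prime := Fact.out
    have hch : IsCh ℓ (⊥ : Subgroup G) {P₁} := by
      constructor
      · intro D hD
        rw [Finset.mem_singleton] at hD
        subst hD
        refine ⟨IsPGroup.of_card (n := 1) (by rw [hA.cd.c1, pow_one]), ?_⟩
        rw [bot_lt_iff_ne_bot]
        rintro rfl
        have := hA.cd.c1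
        rw [Subgroup.card_bot] at this
        exact hpr.one_lt.ne this
      · rw [Finset.coe_singleton]
        exact IsChain.singleton
    obtain ⟨g, hg⟩ := h3 G 𝔐 ℓ n h𝔐 hℓ _ _ _ _ hA' {P₁} hch θ hθ (fun _ => rfl)
    have hg1 := hg P₁ (Finset.mem_singleton_self _)
    have hcardm : ∀ D : Subgroup G, Nat.card (D.map (MulAut.conj g).toMonoidHom) = Nat.card D :=
      fun D => Nat.card_congr
        (Subgroup.equivMapOfInjective D _ (MulAut.conj g).injective).toEquiv.symm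
    have hcyc : IsCyclic ((P.map (κ b₀).toMonoidHom).map (MulAut.conj g).toMonoidHom) := by
      have := hA'.cd.cyc
      exact isCyclic_of_surjective (Subgroup.equivMapOfInjective (P.map (κ b₀).toMonoidHom)
        (MulAut.conj g).toMonoidHom (MulAut.conj g).injective)
        (Subgroup.equivMapOfInjective _ _ (MulAut.conj g).injective).surjective
    have heq : (P₁.map (κ b₀).toMonoidHom).map (MulAut.conj g).toMonoidHom = P₁ := by
      refine GCX.uniq' hcyc (Subgroup.map_mono hA'.cd.le) hg1 ?_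
      rw [hcardm, hA'.cd.c1, hA.cd.c1]
    have hκ : ∀ x, κ (ι g * b₀) x = g * κ b₀ x * g⁻¹ := by
      intro x
      rw [map_mul, MulAut.mul_apply, act_iota hL.cl]
    refine ⟨ι g * b₀, ?_, ?_⟩
    · rw [mem_YS_iff hL.cl]
      intro D hD
      rw [Finset.mem_singleton] at hD
      subst hD
      have e : (κ (ι g * b₀)).toMonoidHom =
          ((MulAut.conj g).toMonoidHom).comp (κ b₀).toMonoidHom := by
        ext x
        exact hκ x
      rw [e, ← Subgroup.map_map, heq]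
    · intro x
      rw [hκ, ← hω x, ← hcg]
      exact (cen_isConj 𝔐 (MonoidHom.id G) θ₁ (isConj_iff.2 ⟨g, rfl⟩)).symm

end Pool.Agent.RCB
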