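import Mathlib
import Pool.Agent.RCB.St2

/-!
# RCB_DIC: the two cases of the matching of the characters
-/

namespace Pool.Agent.RCB

open Pool.Agent.DP Pool.Agent.DPV Pool.Agent.DPB Pool.Agent.DPW Pool.Agent.DPX
open Pool.Agent.Lib_helper13 Representation

namespace DIC

/-- The dictionary between functions on subgroups of the normalizer and functions on `G`, with
the elementary properties of the characters over the block of `φ₀`. -/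
structure Dic {G : Type} [Group G] [Fintype G] (𝔐 : Ideal (integralClosure ℤ ℂ))
    (P₁ : Subgroup G) [Fintype (NP P₁)] (C : Subgroup (NP P₁)) [C.Normal]
    (ω : G → (integralClosure ℤ ℂ) ⧸ 𝔐) (χ₀ : G → ℂ) (φ₀ : C → ℂ)
    (z : (C → ℂ) → (G → ℂ)) (z' : (NP P₁ → ℂ) → (G → ℂ)) : Prop where
  xs : ∀ χ : G → ℂ, χ ∈ XS 𝔐 ω ↔
    IsIrr χ ∧ cen 𝔐 (MonoidHom.id G) χ = cen 𝔐 (MonoidHom.id G) χ₀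
  yl : ∀ f : G → ℂ, f ∈ YL 𝔐 P₁ ω ↔ ∃ ψ : NP P₁ → ℂ, (IsIrr ψ ∧
    cen 𝔐 (Subgroup.normalizer (P₁ : Set G)).subtype ψ = cen 𝔐 (MonoidHom.id G) χ₀) ∧
      f = z' ψ
  zc : ∀ f : G → ℂ, f ∈ ZC 𝔐 P₁ ω ↔ ∃ g : NP P₁, ∃ φ ∈ II 𝔐 φ₀, f = z (cj C g φ)
  inj : Function.Injective z'
  mu1 : ∀ (χ : G → ℂ) (φ : C → ℂ) (g : NP P₁), IsIrr χ → φ ∈ II 𝔐 φ₀ →
    mu (Subgroup.centralizer (P₁ : Set G)) χ (z (cj C g φ)) = (ai C χ φ : ℂ)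
  mu2 : ∀ (ψ : NP P₁ → ℂ) (φ : C → ℂ) (g : NP P₁), IsIrr ψ → φ ∈ II 𝔐 φ₀ →
    mu (Subgroup.centralizer (P₁ : Set G)) (z' ψ) (z (cj C g φ)) = ip (fun c : C => ψ c) φ
  cn : ∀ ψ : NP P₁ → ℂ, IsIrr ψ → ∀ φ ∈ II 𝔐 φ₀, ip (fun c : C => ψ c) φ ≠ 0 →
    cen 𝔐 (Subgroup.normalizer (P₁ : Set G)).subtype ψ = cen 𝔐 (MonoidHom.id G) χ₀
  ov : ∀ ψ : NP P₁ → ℂ, IsIrr ψ →
    cen 𝔐 (Subgroup.normalizer (P₁ : Set G)).subtype ψ = cen 𝔐 (MonoidHom.id G) χ₀ →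
    ∃ φ ∈ II 𝔐 φ₀, ip (fun c : C => ψ c) φ ≠ 0
  cc : ∀ ψ : NP P₁ → ℂ, IsIrr ψ → ∀ φ ∈ II 𝔐 φ₀, ∀ φ' ∈ II 𝔐 φ₀,
    ip (fun c : C => ψ c) φ ≠ 0 → (ip (fun c : C => ψ c) φ' ≠ 0 ↔ Cjg 𝔐 C φ₀ φ φ')
  ex : ∀ φ ∈ II 𝔐 φ₀, ∃ ψ : NP P₁ → ℂ, IsIrr ψ ∧ ip (fun c : C => ψ c) φ ≠ 0

section Core

variable {G : Type} [Group G] [Fintype G] {𝔐 : Ideal (integralClosure ℤ ℂ)}
    {P₁ : Subgroup G} [Fintype (NP P₁)] {C : Subgroup (NP P₁)} [C.Normal]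
    {ω : G → (integralClosure ℤ ℂ) ⧸ 𝔐} {χ₀ : G → ℂ} {φ₀ : C → ℂ}
    {z : (C → ℂ) → (G → ℂ)} {z' : (NP P₁ → ℂ) → (G → ℂ)}

/-- Matching characters. -/
theorem Dic.mtc (h : Dic 𝔐 P₁ C ω χ₀ φ₀ z z') {χ : G → ℂ} (hχ : IsIrr χ) {ψ : NP P₁ → ℂ}
    (hψ : IsIrr ψ) {φ : C → ℂ} (hφ : φ ∈ II 𝔐 φ₀) (hip : ip (fun c : C => ψ c) φ ≠ 0) :
    Mtc 𝔐 P₁ ω χ (z' ψ) ↔ MtA 𝔐 C φ₀ χ φ := by
  classical
  constructor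
  · rintro ⟨a, b, hb, hab⟩
    refine ⟨a, b, hb, fun φ' hφ' => ?_⟩
    have h1 := hab (z (cj C 1 φ')) ((h.zc _).2 ⟨1, φ', hφ', rfl⟩)
    rw [h.mu1 χ φ' 1 hχ hφ', h.mu2 ψ φ' 1 hψ hφ'] at h1
    have h2 := h.cc ψ hψ φ hφ φ' hφ' hip
    by_cases h3 : Cjg 𝔐 C φ₀ φ φ'
    · rw [if_pos (h2.2 h3)] at h1
      rw [if_pos h3]
      exact_mod_cast h1
    · rw [if_neg (fun h4 => h3 (h2.1 h4))] at h1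
      rw [if_neg h3]
      rw [add_zero] at h1 ⊢
      exact_mod_cast h1
  · rintro ⟨a, b, hb, hab⟩
    refine ⟨a, b, hb, fun f hf => ?_⟩
    obtain ⟨g, φ', hφ', rfl⟩ := (h.zc f).1 hf
    rw [h.mu1 χ φ' g hχ hφ', h.mu2 ψ φ' g hψ hφ', hab φ' hφ']
    have h2 := h.cc ψ hψ φ hφ φ' hφ' hip
    by_cases h3 : Cjg 𝔐 C φ₀ φ φ'
    · rw [if_pos (h2.2 h3), if_pos h3]
      push_cast
      rfl
    · rw [if_neg (fun h4 => h3 (h2.1 h4)), if_neg h3]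
      push_cast
      rfl

/-- Characters with the same constituents. -/
theorem Dic.sup (h : Dic 𝔐 P₁ C ω χ₀ φ₀ z z') {ψ ψ' : NP P₁ → ℂ}
    (hψ : IsIrr ψ) (hψ' : IsIrr ψ') {φ : C → ℂ} (hφ : φ ∈ II 𝔐 φ₀)
    (hip : ip (fun c : C => ψ c) φ ≠ 0) :
    SupEq 𝔐 P₁ ω (z' ψ) (z' ψ') ↔ ip (fun c : C => ψ' c) φ ≠ 0 := by
  constructor
  · intro hs
    have h1 := hs (z (cj C 1 φ)) ((h.zc _).2 ⟨1, φ, hφ, rfl⟩)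
    rw [h.mu2 ψ φ 1 hψ hφ, h.mu2 ψ' φ 1 hψ' hφ] at h1
    exact h1.1 hip
  · intro hs f hf
    obtain ⟨g, φ', hφ', rfl⟩ := (h.zc f).1 hf
    rw [h.mu2 ψ φ' g hψ hφ', h.mu2 ψ' φ' g hψ' hφ', h.cc ψ hψ φ hφ φ' hφ' hip,
      h.cc ψ' hψ' φ hφ φ' hφ' hs]

/-- The general case. -/
theorem Dic.mtF (h : Dic 𝔐 P₁ C ω χ₀ φ₀ z z')
    (hm1 : ∀ χ : G → ℂ, IsIrr χ → cen 𝔐 (MonoidHom.id G) χ = cen 𝔐 (MonoidHom.id G) χ₀ →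
      ∃ φ ∈ II 𝔐 φ₀, MtA 𝔐 C φ₀ χ φ)
    (hm2 : ∀ χ : G → ℂ, ∀ φ ∈ II 𝔐 φ₀, ∀ φ' ∈ II 𝔐 φ₀, MtA 𝔐 C φ₀ χ φ → MtA 𝔐 C φ₀ χ φ' →
      Cjg 𝔐 C φ₀ φ φ')
    (hm3 : ∀ φ ∈ II 𝔐 φ₀, Nat.card {χ : G → ℂ // (IsIrr χ ∧
      cen 𝔐 (MonoidHom.id G) χ = cen 𝔐 (MonoidHom.id G) χ₀) ∧ MtA 𝔐 C φ₀ χ φ} =
        Nat.card {ψ : NP P₁ → ℂ // IsIrr ψ ∧ ip (fun c : C => ψ c) φ ≠ 0}) :
    MtF 𝔐 P₁ ω where
  ex := by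
    intro χ hχ
    obtain ⟨h1, h2⟩ := (h.xs χ).1 hχ
    obtain ⟨φ, hφ, hM⟩ := hm1 χ h1 h2
    obtain ⟨ψ, hψ, hip⟩ := h.ex φ hφ
    exact ⟨z' ψ, (h.yl _).2 ⟨ψ, ⟨hψ, h.cn ψ hψ φ hφ hip⟩, rfl⟩, (h.mtc h1 hψ hφ hip).2 hM⟩
  cnt := by
    intro f hf
    obtain ⟨ψ, ⟨hψ, hc⟩, rfl⟩ := (h.yl f).1 hf
    obtain ⟨φ, hφ, hip⟩ := h.ov ψ hψ hc
    have e1 : Nat.card {χ : G → ℂ // χ ∈ XS 𝔐 ω ∧ Mtc 𝔐 P₁ ω χ (z' ψ)} =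
        Nat.card {χ : G → ℂ // (IsIrr χ ∧
      cen 𝔐 (MonoidHom.id G) χ = cen 𝔐 (MonoidHom.id G) χ₀) ∧ MtA 𝔐 C φ₀ χ φ} := by
      apply Nat.card_congr
      apply Equiv.subtypeEquivRight
      intro χ
      rw [h.xs χ]
      constructor
      · rintro ⟨h1, h2⟩
        exact ⟨h1, (h.mtc h1.1 hψ hφ hip).1 h2⟩
      · rintro ⟨h1, h2⟩
        exact ⟨h1, (h.mtc h1.1 hψ hφ hip).2 h2⟩
    have e2 : Nat.card {ψ' : NP P₁ → ℂ // IsIrr ψ' ∧ ip (fun c : C => ψ' c) φ ≠ 0} =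
        Nat.card {ψ' : G → ℂ // ψ' ∈ YL 𝔐 P₁ ω ∧ SupEq 𝔐 P₁ ω (z' ψ) ψ'} := by
      refine Nat.card_congr (Equiv.ofBijective (fun x => ⟨z' x.1,
        (h.yl _).2 ⟨x.1, ⟨x.2.1, h.cn x.1 x.2.1 φ hφ x.2.2⟩, rfl⟩,
        (h.sup hψ x.2.1 hφ hip).2 x.2.2⟩) ⟨?_, ?_⟩)
      · intro x y hxy
        exact Subtype.ext (h.inj (congrArg Subtype.val hxy))
      · rintro ⟨f, hf, hs⟩
        obtain ⟨ψ', ⟨hψ', hc'⟩, rfl⟩ := (h.yl f).1 hf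
        exact ⟨⟨ψ', hψ', (h.sup hψ hψ' hφ hip).1 hs⟩, rfl⟩
    rw [e1, ← e2, hm3 φ hφ]
  uq := by
    intro χ hχ f hf f' hf' h1 h2
    obtain ⟨hc1, hc2⟩ := (h.xs χ).1 hχ
    obtain ⟨ψ, ⟨hψ, hc⟩, rfl⟩ := (h.yl f).1 hf
    obtain ⟨ψ', ⟨hψ', hc'⟩, rfl⟩ := (h.yl f').1 hf'
    obtain ⟨φ, hφ, hip⟩ := h.ov ψ hψ hc
    obtain ⟨φ', hφ', hip'⟩ := h.ov ψ' hψ' hc'
    have h3 := hm2 χ φ' hφ' φ hφ ((h.mtc hc1 hψ' hφ' hip').1 h2) ((h.mtc hc1 hψ hφ hip).1 h1)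
    exact (h.sup hψ hψ' hφ hip).2 ((h.cc ψ' hψ' φ' hφ' φ hφ hip').2 h3)

/-- The case `r = 1`: exactly one local character is not special. -/
theorem Dic.spc (h : Dic 𝔐 P₁ C ω χ₀ φ₀ z z') {φ₁ φ : C → ℂ} (hφ₁ : φ₁ ∈ II 𝔐 φ₀)
    (hφ : φ ∈ II 𝔐 φ₀)
    (hc : ∀ φ' ∈ II 𝔐 φ₀, φ' ≠ φ₁ → Cjg 𝔐 C φ₀ φ φ')
    (h1 : 1 < Nat.card {ψ : NP P₁ → ℂ // IsIrr ψ ∧ ip (fun c : C => ψ c) φ₁ ≠ 0})
    (h2 : Nat.card {ψ : NP P₁ → ℂ // IsIrr ψ ∧ ip (fun c : C => ψ c) φ ≠ 0} = 1) :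
    (∀ ψ : NP P₁ → ℂ, IsIrr ψ → ip (fun c : C => ψ c) φ₁ ≠ 0 → Spc 𝔐 P₁ ω (z' ψ)) ∧
    (∀ ψ : NP P₁ → ℂ, IsIrr ψ → ip (fun c : C => ψ c) φ ≠ 0 → ¬ Spc 𝔐 P₁ ω (z' ψ)) ∧
    (∀ ψ : NP P₁ → ℂ, IsIrr ψ → ∀ φ' ∈ II 𝔐 φ₀, φ' ≠ φ₁ → ip (fun c : C => ψ c) φ' ≠ 0 →
      ip (fun c : C => ψ c) φ ≠ 0) ∧
    Nat.card {ψ : G → ℂ // ψ ∈ YL 𝔐 P₁ ω ∧ ¬ Spc 𝔐 P₁ ω ψ} = 1 := by
  classical
  have a1 : ∀ ψ : NP P₁ → ℂ, IsIrr ψ → ip (fun c : C => ψ c) φ₁ ≠ 0 → Spc 𝔐 P₁ ω (z' ψ) := by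
    intro ψ hψ hip
    have hfin : Finite {ψ : NP P₁ → ℂ // IsIrr ψ ∧ ip (fun c : C => ψ c) φ₁ ≠ 0} :=
      Nat.finite_of_card_ne_zero (by omega)
    have hnt := Finite.one_lt_card_iff_nontrivial.1 h1
    obtain ⟨⟨ψ', hψ', hip'⟩, hne⟩ := exists_ne
      (⟨ψ, hψ, hip⟩ : {ψ : NP P₁ → ℂ // IsIrr ψ ∧ ip (fun c : C => ψ c) φ₁ ≠ 0})
    refine ⟨z' ψ', (h.yl _).2 ⟨ψ', ⟨hψ', h.cn ψ' hψ' φ₁ hφ₁ hip'⟩, rfl⟩, ?_, ?_⟩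
    · intro he
      exact hne (Subtype.ext (h.inj he))
    · exact (h.sup hψ hψ' hφ₁ hip).2 hip'
  have a2 : ∀ ψ : NP P₁ → ℂ, IsIrr ψ → ip (fun c : C => ψ c) φ ≠ 0 →
      ¬ Spc 𝔐 P₁ ω (z' ψ) := by
    rintro ψ hψ hip ⟨f, hf, hne, hs⟩
    obtain ⟨ψ', ⟨hψ', hc'⟩, rfl⟩ := (h.yl f).1 hf
    have h3 := (h.sup hψ hψ' hφ hip).1 hs
    obtain ⟨x, hx⟩ := Nat.card_eq_one_iff_exists.1 h2
    have h4 := hx ⟨ψ, hψ, hip⟩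
    have h5 := hx ⟨ψ', hψ', h3⟩
    apply hne
    have h6 : ψ' = ψ := congrArg Subtype.val (h5.trans h4.symm)
    rw [h6]
  have a3 : ∀ ψ : NP P₁ → ℂ, IsIrr ψ → ∀ φ' ∈ II 𝔐 φ₀, φ' ≠ φ₁ →
      ip (fun c : C => ψ c) φ' ≠ 0 → ip (fun c : C => ψ c) φ ≠ 0 := by
    intro ψ hψ φ' hφ' hne hip
    obtain ⟨ψe, hψe, hipe⟩ := h.ex φ hφ
    have h4 := (h.cc ψe hψe φ hφ φ' hφ' hipe).2 (hc φ' hφ' hne)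
    by_contra hcon
    have h5 : Cjg 𝔐 C φ₀ φ' φ := (h.cc ψe hψe φ' hφ' φ hφ h4).1 hipe
    exact (h.cc ψ hψ φ' hφ' φ hφ hip).2 h5 hcon
  refine ⟨a1, a2, a3, ?_⟩
  obtain ⟨⟨ψe, hψe, hipe⟩, hu⟩ := Nat.card_eq_one_iff_exists.1 h2
  rw [Nat.card_eq_one_iff_exists]
  refine ⟨⟨z' ψe, (h.yl _).2 ⟨ψe, ⟨hψe, h.cn ψe hψe φ hφ hipe⟩, rfl⟩, a2 ψe hψe hipe⟩, ?_⟩
  rintro ⟨f, hf, hns⟩
  obtain ⟨ψ, ⟨hψ, hcn⟩, rfl⟩ := (h.yl f).1 hf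
  obtain ⟨φ', hφ', hip⟩ := h.ov ψ hψ hcn
  have h6 : φ' ≠ φ₁ := by
    rintro rfl
    exact hns (a1 ψ hψ hip)
  have h7 : ψ = ψe := congrArg Subtype.val (hu ⟨ψ, hψ, a3 ψ hψ φ' hφ' h6 hip⟩)
  apply Subtype.ext
  show z' ψ = z' ψe
  rw [h7]

/-- The difference of the multiplicities is invariant. -/
theorem Dic.inv (h : Dic 𝔐 P₁ C ω χ₀ φ₀ z z') {B : Type} [Group B] (κ : B →* MulAut G)
    (hai : ∀ (χ : G → ℂ) (φ φ' : C → ℂ), IsIrr χ → φ ∈ II 𝔐 φ₀ → φ' ∈ II 𝔐 φ₀ →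
      Cjg 𝔐 C φ₀ φ φ' → ai C χ φ' = ai C χ φ)
    (e1 : ∀ χ ∈ XS 𝔐 ω, ∀ b : B, (fun g => χ (κ b g)) ∈ XS 𝔐 ω)
    (e2 : ∀ ψ ∈ YL 𝔐 P₁ ω, ∀ b ∈ Stx κ {P₁} (fun _ => 0), (fun g => ψ (κ b g)) ∈ YL 𝔐 P₁ ω)
    (e3 : ∀ φ : G → ℂ, ∀ b ∈ Stx κ {P₁} (fun _ => 0),
      (φ ∈ ZC 𝔐 P₁ ω ↔ (fun g => φ (κ b g)) ∈ ZC 𝔐 P₁ ω))
    (e4 : ∀ f φ : G → ℂ, ∀ b ∈ Stx κ {P₁} (fun _ => 0),
      mu (Subgroup.centralizer (P₁ : Set G)) (fun g => f (κ b g)) (fun g => φ (κ b g)) =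
        mu (Subgroup.centralizer (P₁ : Set G)) f φ)
    (e5 : ∀ ψ ψ' : G → ℂ, ∀ b ∈ Stx κ {P₁} (fun _ => 0), SupEq 𝔐 P₁ ω ψ ψ' →
      SupEq 𝔐 P₁ ω (fun g => ψ (κ b g)) (fun g => ψ' (κ b g)))
    {φ₁ φ : C → ℂ} (hφ₁ : φ₁ ∈ II 𝔐 φ₀) (hφ : φ ∈ II 𝔐 φ₀) (hne : φ ≠ φ₁)
    (hc : ∀ φ' ∈ II 𝔐 φ₀, φ' ≠ φ₁ → Cjg 𝔐 C φ₀ φ φ')
    (h1 : 1 < Nat.card {ψ : NP P₁ → ℂ // IsIrr ψ ∧ ip (fun c : C => ψ c) φ₁ ≠ 0})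
    (h2 : Nat.card {ψ : NP P₁ → ℂ // IsIrr ψ ∧ ip (fun c : C => ψ c) φ ≠ 0} = 1)
    {b : B} (hb : b ∈ Stx κ {P₁} (fun _ => 0)) {χ : G → ℂ} (hχ : χ ∈ XS 𝔐 ω) :
    ai C (fun g => χ (κ b g)) φ - ai C (fun g => χ (κ b g)) φ₁ =
      ai C χ φ - ai C χ φ₁ := by
  obtain ⟨a1, a2, a3, -⟩ := h.spc hφ₁ hφ hc h1 h2
  have hκ : ∀ (b : B) (f : G → ℂ), (fun g => (fun g => f (κ b g)) (κ b⁻¹ g)) = f := by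
    intro b f
    funext g
    show f (κ b (κ b⁻¹ g)) = f g
    rw [← MulAut.mul_apply, ← map_mul, mul_inv_cancel, map_one, MulAut.one_apply]
  have hsp : ∀ b ∈ Stx κ {P₁} (fun _ => 0), ∀ f : G → ℂ,
      Spc 𝔐 P₁ ω f → Spc 𝔐 P₁ ω (fun g => f (κ b g)) := by
    rintro b hb f ⟨f', hf', hne, hs⟩
    refine ⟨fun g => f' (κ b g), e2 f' hf' b hb, ?_, e5 f f' b hb hs⟩
    intro he
    apply hne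
    rw [← hκ b f', ← hκ b f]
    exact congrArg (fun (F : G → ℂ) (g : G) => F (κ b⁻¹ g)) he
  -- the image of a character of `C`
  have key : ∀ φa ∈ II 𝔐 φ₀, ∃ s : NP P₁, ∃ φb ∈ II 𝔐 φ₀,
      (fun g => z (cj C 1 φa) (κ b g)) = z (cj C s φb) ∧ (φa = φ₁ ↔ φb = φ₁) := by
    intro φa hφa
    have k1 : (fun g => z (cj C 1 φa) (κ b g)) ∈ ZC 𝔐 P₁ ω :=
      (e3 _ b hb).1 ((h.zc _).2 ⟨1, φa, hφa, rfl⟩)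
    obtain ⟨s, φb, hφb, hz⟩ := (h.zc _).1 k1
    refine ⟨s, φb, hφb, hz, ?_⟩
    obtain ⟨ψ, hψ, hip⟩ := h.ex φa hφa
    have k2 : z' ψ ∈ YL 𝔐 P₁ ω := (h.yl _).2 ⟨ψ, ⟨hψ, h.cn ψ hψ φa hφa hip⟩, rfl⟩
    obtain ⟨ψ', ⟨hψ', hcn'⟩, hz'⟩ := (h.yl _).1 (e2 _ k2 b hb)
    have k3 : ip (fun c : C => ψ' c) φb ≠ 0 := by
      rw [← h.mu2 ψ' φb s hψ' hφb, ← hz, ← hz', e4 _ _ b hb, h.mu2 ψ φa 1 hψ hφa]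
      exact hip
    have k4 : Spc 𝔐 P₁ ω (z' ψ) ↔ Spc 𝔐 P₁ ω (z' ψ') := by
      constructor
      · intro hs
        rw [← hz']
        exact hsp b hb _ hs
      · intro hs
        rw [← hz'] at hs
        have := hsp b⁻¹ (inv_mem hb) _ hs
        rwa [hκ b] at this
    constructor
    · intro he
      subst he
      by_contra hcon
      exact a2 ψ' hψ' (a3 ψ' hψ' φb hφb hcon k3) (k4.1 (a1 ψ hψ hip))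
    · intro he
      subst he
      by_contra hcon
      exact a2 ψ hψ (a3 ψ hψ φa hφa hcon hip) (k4.2 (a1 ψ' hψ' k3))
  have hχi := ((h.xs χ).1 hχ).1
  have hχb := ((h.xs _).1 (e1 χ hχ b)).1
  have key2 : ∀ φa ∈ II 𝔐 φ₀, ∃ φb ∈ II 𝔐 φ₀, (φa = φ₁ ↔ φb = φ₁) ∧
      ai C (fun g => χ (κ b g)) φb = ai C χ φa := by
    intro φa hφa
    obtain ⟨s, φb, hφb, hz, hiff⟩ := key φa hφa
    refine ⟨φb, hφb, hiff, ?_⟩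
    have k5 : ((ai C (fun g => χ (κ b g)) φb : ℤ) : ℂ) = (ai C χ φa : ℤ) := by
      rw [← h.mu1 _ φb s hχb hφb, ← hz, e4 _ _ b hb, h.mu1 χ φa 1 hχi hφa]
    exact_mod_cast k5
  obtain ⟨φb, hφb, hiff, hab⟩ := key2 φ₁ hφ₁
  have hb1 : φb = φ₁ := hiff.1 rfl
  obtain ⟨φc, hφc, hiff', hac⟩ := key2 φ hφ
  have hc1 : φc ≠ φ₁ := fun he => hne (hiff'.2 he)
  rw [← hab, ← hac, hb1, hai _ φ φc hχb hφ hφc (hc φc hφc hc1)]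

end Core

/-- The construction of the dictionary. -/
theorem exists_dic (h1 : Stmt_LCC) (h3 : Stmt_AIN) (h6 : Stmt_TRM) (h0 : Stmt_ORC)
    (h10 : Pool.Agent.DP.Stmt_SUMM)
    (G : Type) [Group G] [Fintype G] (𝔐 : Ideal (integralClosure ℤ ℂ)) (ℓ n : ℕ)
    [Fact ℓ.Prime] (hM : 𝔐.IsMaximal) (hl : (ℓ : integralClosure ℤ ℂ) ∈ 𝔐)
    (χ₀ : G → ℂ) (P₁ P : Subgroup G) (x₀ : G) [Fintype (NP P₁)] (C : Subgroup (NP P₁))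
    [C.Normal] (ψ₀ : NP P₁ → ℂ) (φ₀ : C → ℂ) (hCf : Cf 𝔐 ℓ n χ₀ P₁ P x₀ C ψ₀ φ₀)
    (ω : G → (integralClosure ℤ ℂ) ⧸ 𝔐) (hω : cen 𝔐 (MonoidHom.id G) χ₀ = ω) :
    ∃ (z : (C → ℂ) → (G → ℂ)) (z' : (NP P₁ → ℂ) → (G → ℂ)),
      Dic 𝔐 P₁ C ω χ₀ φ₀ z z' ∧
      (∀ g, g ∈ stb {P₁} ↔ g ∈ Subgroup.normalizer (P₁ : Set G)) ∧
      (∀ c : NP P₁, c ∈ C ↔ (c : G) ∈ Subgroup.centralizer (P₁ : Set G)) ∧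
      (∀ φ g, g ∉ Subgroup.centralizer (P₁ : Set G) → z φ g = 0) ∧
      (∀ (φ : C → ℂ) (c : C), cgT 𝔐 (Subgroup.centralizer (P₁ : Set G)) (z φ)
        ((c : NP P₁) : G) = cen 𝔐 (MonoidHom.id C) φ c) := by
  classical
  subst hω
  obtain ⟨z, z', t1, t2, t3, t4, t5, t6, t7, t8, t9, t10, t11, t12, t13, t14⟩ :=
    h6 G 𝔐 P₁ C hCf.hC
  obtain ⟨l1, l2, l3, l4, l5, l6⟩ := h1 G 𝔐 ℓ n hM hl χ₀ P₁ P x₀ C ψ₀ φ₀ hCf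
  obtain ⟨a1, a2, a3, a4⟩ := h3 G 𝔐 ℓ n hM hl χ₀ P₁ P x₀ C ψ₀ φ₀ hCf
  obtain ⟨o1, o2, o3, o4, o5, o6, o7, o8, o9⟩ := h0 G 𝔐 ℓ n hM hl χ₀ P₁ P x₀ C ψ₀ φ₀ hCf
  have hcl : ClG C.subtype (MulAut.conjNormal (H := C)) (QuotientGroup.mk' C) := by
    refine ⟨Subtype.val_injective, fun y a => ?_, fun y => ?_⟩
    · exact MulAut.conjNormal_apply y a
    · rw [QuotientGroup.mk'_apply, QuotientGroup.eq_one_iff, Subgroup.range_subtype]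
  have hirr : ∀ (g : NP P₁) (φ : C → ℂ), IsIrr φ → IsIrr (cj C g φ) := fun g φ hφ =>
    hφ.comp_mulEquiv (MulAut.conjNormal g)
  have hex : ∀ φ ∈ II 𝔐 φ₀, ∃ ψ : NP P₁ → ℂ, IsIrr ψ ∧ ip (fun c : C => ψ c) φ ≠ 0 := by
    intro φ hφ
    have hpos : 0 < Nat.card {ψ : NP P₁ → ℂ // IsIrr ψ ∧ ip (fun c : C => ψ c) φ ≠ 0} := by
      by_cases hi : ∀ g ∈ bS 𝔐 C φ₀, cj C g φ = φ
      · rw [(l6 φ hφ).1 hi]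
        exact o3
      · rw [(l6 φ hφ).2 hi]
        exact Nat.one_pos
    obtain ⟨⟨ψ, hψ⟩⟩ := (Nat.card_pos_iff.1 hpos).1
    exact ⟨ψ, hψ⟩
  refine ⟨z, z', ?_, t5, t6, t2, t13⟩
  have hyl : ∀ f : G → ℂ, f ∈ YL 𝔐 P₁ (cen 𝔐 (MonoidHom.id G) χ₀) ↔
      ∃ ψ : NP P₁ → ℂ, (IsIrr ψ ∧ cen 𝔐 (Subgroup.normalizer (P₁ : Set G)).subtype ψ =
        cen 𝔐 (MonoidHom.id G) χ₀) ∧ f = z' ψ := by
    intro f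
    constructor
    · rintro ⟨hf, hcf⟩
      obtain ⟨ψ, hψ, rfl⟩ := (t8 f).1 hf
      refine ⟨ψ, ⟨hψ, ?_⟩, rfl⟩
      funext g
      rw [← t12]
      exact hcf g
    · rintro ⟨ψ, ⟨hψ, hc⟩, rfl⟩
      refine ⟨(t8 _).2 ⟨ψ, hψ, rfl⟩, fun g => ?_⟩
      rw [t12, hc]
  have hmu2 : ∀ (ψ : NP P₁ → ℂ) (φ : C → ℂ),
      mu (Subgroup.centralizer (P₁ : Set G)) (z' ψ) (z φ) = ip (fun c : C => ψ c) φ := by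
    intro ψ φ
    rw [t11]
    congr 1
    funext c
    exact t3 ψ c
  refine ⟨?_, hyl, ?_, t10, ?_, ?_, l1, l2, ?_, hex⟩
  · intro χ
    constructor
    · rintro ⟨hχ, hc⟩
      constructor
      · have h5 := hχ.1
        rw [stb_empty] at h5
        exact h5.comp_mulEquiv (Subgroup.topEquiv (G := G)).symm
      · funext g
        exact hc g
    · rintro ⟨hχ, hc⟩
      constructor
      · rw [stb_empty]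
        exact ⟨hχ.comp_mulEquiv (Subgroup.topEquiv (G := G)),
          fun x hx => absurd (Subgroup.mem_top x) hx⟩
      · intro g
        rw [← hc]
        rfl
  · intro f
    constructor
    · rintro ⟨hf, ψf, hψf, hne⟩
      obtain ⟨φ', hφ', rfl⟩ := (t7 f).1 hf
      obtain ⟨ψ, ⟨hψ, hc⟩, rfl⟩ := (hyl _).1 hψf
      rw [hmu2] at hne
      obtain ⟨φ, hφ, hip⟩ := l2 ψ hψ hc
      obtain ⟨y, hy⟩ := (h10 _ _ _ _ _ _ hcl).2.1 φ φ' ψ hφ.1 hφ' hψ hip hne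
      refine ⟨y, φ, hφ, ?_⟩
      congr 1
      funext a
      exact (hy a).symm
    · rintro ⟨g, φ, hφ, rfl⟩
      obtain ⟨ψ, hψ, hip⟩ := hex φ hφ
      refine ⟨(t7 _).2 ⟨cj C g φ, hirr g φ hφ.1, rfl⟩, z' ψ,
        (hyl _).2 ⟨ψ, ⟨hψ, l1 ψ hψ φ hφ hip⟩, rfl⟩, ?_⟩
      rw [hmu2, l4 ψ g φ hψ]
      exact hip
  · intro χ φ g hχ hφ
    rw [t11, ← a1 χ (cj C g φ) hχ (hirr g φ hφ.1), a2 χ φ g hχ hφ.1]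
  · intro ψ φ g hψ hφ
    rw [hmu2, l4 ψ g φ hψ]
  · intro ψ hψ φ hφ φ' hφ' hip
    constructor
    · intro hip'
      exact l3 ψ hψ φ hφ φ' hφ' hip hip'
    · rintro ⟨g, -, rfl⟩
      rw [l4 ψ g φ hψ]
      exact hip

/-- The reduced central function with respect to the centralizer vanishes outside of it. -/
theorem cgT_out {G : Type} [Group G] [Fintype G] (𝔐 : Ideal (integralClosure ℤ ℂ))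
    (T : Subgroup G) (f : G → ℂ) (hf : ∀ g, g ∉ T → f g = 0) {g : G} (hg : g ∉ T) :
    cgT 𝔐 T f g = red 𝔐 0 := by
  have h : ∀ x, cjT T x g * f x = 0 := by
    intro x
    by_cases hx : x ∈ T
    · have : ¬ ∃ t ∈ T, x = t * g * t⁻¹ := by
        rintro ⟨t, ht, rfl⟩
        apply hg
        have h1 : g = t⁻¹ * (t * g * t⁻¹) * t := by group
        rw [h1]
        exact T.mul_mem (T.mul_mem (T.inv_mem ht) hx) ht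
      rw [cjT, if_neg this, zero_mul]
    · rw [hf x hx, mul_zero]
  rw [cgT]
  congr 1
  rw [Finset.sum_eq_zero (fun x _ => h x), zero_div]

end DIC

open DIC in
theorem DIC_thm (h0 : Stmt_ORC) (h1 : Stmt_LCC) (h2 : Stmt_TOT) (h3 : Stmt_AIN)
    (h4 : Stmt_MTD) (h5 : Stmt_RON) (h6 : Stmt_TRM) (h7 : Stmt_EQV) (h8 : Stmt_CNTX)
    (h9 : Stmt_ORBX) (h10 : Pool.Agent.DP.Stmt_SUMM) : Stmt_DIC := by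
  classical
  intro G B K _ _ _ _ _ 𝔐 ℓ n _ hM hl hℓ2 ι κ ρ hloc ω P₁ P x₀ hst
  obtain ⟨χ₀, hχ₀, hω⟩ := hst.ex
  let _ : Fintype (NP P₁) := Fintype.ofFinite _
  have hat : AtX ℓ n (cen 𝔐 (MonoidHom.id G) χ₀) P₁ P x₀ := by
    rw [hω]
    exact hst.at'
  -- the configuration
  obtain ⟨C, hC⟩ : ∃ C : Subgroup (NP P₁), C = Subgroup.centralizer
      ((P₁.subgroupOf (Subgroup.normalizer (P₁ : Set G)) : Subgroup (NP P₁)) :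
        Set (NP P₁)) := ⟨_, rfl⟩
  have hCn : C.Normal := by
    rw [hC]
    infer_instance
  have hcnt := h8 G 𝔐 ℓ n hM hl χ₀ hχ₀ P₁ P x₀ hat
  have hfin : Finite {χ : G → ℂ // IsIrr χ ∧
      cen 𝔐 (MonoidHom.id G) χ = cen 𝔐 (MonoidHom.id G) χ₀} :=
    ((finite_isIrr (H := G)).subset (fun χ hχ => hχ.1)).to_subtype
  have hpos : 0 < Nat.card {ψ : NP P₁ → ℂ // IsIrr ψ ∧
      cen 𝔐 (Subgroup.normalizer (P₁ : Set G)).subtype ψ =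
        cen 𝔐 (MonoidHom.id G) χ₀} := by
    rw [← hcnt]
    have : Nonempty {χ : G → ℂ // IsIrr χ ∧
      cen 𝔐 (MonoidHom.id G) χ = cen 𝔐 (MonoidHom.id G) χ₀} := ⟨⟨χ₀, hχ₀, rfl⟩⟩
    exact Nat.card_pos
  obtain ⟨⟨ψ₀, hψ₀, hcψ₀⟩⟩ := (Nat.card_pos_iff.1 hpos).1
  obtain ⟨φ₀, hφ₀, hip₀⟩ : ∃ φ : C → ℂ, IsIrr φ ∧ ip (fun c : C => ψ₀ c) φ ≠ 0 := by
    by_contra hcon
    push Not at hcon
    have hcf : ∀ g x : C, (fun c : C => ψ₀ c) (g * x * g⁻¹) = (fun c : C => ψ₀ c) x := by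
      intro g x
      exact hψ₀.conj_eq (g : NP P₁) (x : NP P₁)
    have hex := congrFun (class_fn_expand (fun c : C => ψ₀ c) hcf) 1
    rw [Finset.sum_eq_zero (fun χ hχ => by rw [hcon χ (mem_irrF.mp hχ), zero_mul])] at hex
    exact hψ₀.one_ne_zero hex
  have hCf : Cf 𝔐 ℓ n χ₀ P₁ P x₀ C ψ₀ φ₀ := ⟨hχ₀, hat, hC, hψ₀, hφ₀, hcψ₀, hip₀⟩
  obtain ⟨z, z', hD, t5, t6, t2, t13⟩ :=
    exists_dic h1 h3 h6 h0 h10 G 𝔐 ℓ n hM hl χ₀ P₁ P x₀ C ψ₀ φ₀ hCf ω hω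
  obtain ⟨l1, l2, l3, l4, l5, l6⟩ := h1 G 𝔐 ℓ n hM hl χ₀ P₁ P x₀ C ψ₀ φ₀ hCf
  obtain ⟨a1, a2, a3, a4⟩ := h3 G 𝔐 ℓ n hM hl χ₀ P₁ P x₀ C ψ₀ φ₀ hCf
  obtain ⟨o1, o2, o3, o4, o5, o6, o7, o8, φ₁, hφ₁, o9, o10⟩ :=
    h0 G 𝔐 ℓ n hM hl χ₀ P₁ P x₀ C ψ₀ φ₀ hCf
  obtain ⟨r, hr, hrX⟩ := h2 G 𝔐 ℓ n hM hl χ₀ P₁ P x₀ C ψ₀ φ₀ hCf
  by_cases hlt : C.relIndex (bS 𝔐 C φ₀) + 1 < ℓ ^ n
  · left
    obtain ⟨m1, m2, m3⟩ := h4 G 𝔐 ℓ n hM hl χ₀ P₁ P x₀ C ψ₀ φ₀ hCf hlt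
    refine hD.mtF m1 m2 ?_
    intro φ hφ
    by_cases hi : ∀ g ∈ bS 𝔐 C φ₀, cj C g φ = φ
    · rw [(l6 φ hφ).1 hi, (m3 φ hφ).1 hi]
    · rw [(l6 φ hφ).2 hi, (m3 φ hφ).2 hi]
  · right
    have hL2 : 2 ≤ ℓ ^ n := by
      have h2l : 2 ≤ ℓ := (Fact.out : ℓ.Prime).two_le
      calc 2 ≤ ℓ := h2l
        _ = ℓ ^ 1 := (pow_one ℓ).symm
        _ ≤ ℓ ^ n := Nat.pow_le_pow_right (by omega) o1
    have heL : C.relIndex (bS 𝔐 C φ₀) + 1 = ℓ ^ n := by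
      rcases r with _ | r
      · rw [mul_zero] at hr
        omega
      · have : C.relIndex (bS 𝔐 C φ₀) ≤ C.relIndex (bS 𝔐 C φ₀) * (r + 1) :=
          Nat.le_mul_of_pos_right _ (Nat.succ_pos r)
        omega
    have hIfin : Finite (II 𝔐 φ₀) := Nat.finite_of_card_ne_zero (by rw [o5]; omega)
    obtain ⟨φ, hφ, hne⟩ : ∃ φ ∈ II 𝔐 φ₀, φ ≠ φ₁ := by
      have hnt : Nontrivial (II 𝔐 φ₀) :=
        Finite.one_lt_card_iff_nontrivial.1 (by rw [o5]; omega)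
      obtain ⟨⟨φ, hφ⟩, hn⟩ := exists_ne (⟨φ₁, hφ₁⟩ : II 𝔐 φ₀)
      exact ⟨φ, hφ, fun he => hn (Subtype.ext he)⟩
    obtain ⟨r1, r2, r3, r4, r5, r6⟩ := h5 G 𝔐 ℓ n hM hl hℓ2 χ₀ P₁ P x₀ C ψ₀ φ₀ hCf heL
      φ₁ hφ₁ o9 φ hφ hne
    -- an element of `S` outside of `C`
    obtain ⟨s, hsS, hsC⟩ : ∃ s ∈ bS 𝔐 C φ₀, s ∉ C := by
      by_contra hcon
      push Not at hcon
      have : C.relIndex (bS 𝔐 C φ₀) = 1 := Subgroup.relIndex_eq_one.2 hcon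
      omega
    have hni : ¬ ∀ g ∈ bS 𝔐 C φ₀, cj C g φ = φ := fun hi =>
      hsC (o10 φ hφ hne s hsS (hi s hsS))
    have c1 : 1 < Nat.card {ψ : NP P₁ → ℂ // IsIrr ψ ∧ ip (fun c : C => ψ c) φ₁ ≠ 0} := by
      rw [(l6 φ₁ hφ₁).1 o9]
      exact r1
    have c2 := (l6 φ hφ).2 hni
    have hsp := hD.spc hφ₁ hφ r4 c1 c2
    obtain ⟨q1, q2, q3, q4, q5, q6, q7⟩ := h7 G B K 𝔐 ℓ n hM hl ι κ ρ hloc ω P₁ P x₀ hst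
    refine ⟨?_, ?_, hsp.2.2.2, fun χ => ai C χ φ - ai C χ φ₁, ?_, ?_, ?_⟩
    · refine ⟨z (cj C 1 φ₀), (hD.zc _).2 ⟨1, φ₀, ⟨hφ₀, rfl⟩, rfl⟩, (s : G),
        (t5 _).2 s.2, fun hs => hsC ((t6 s).2 hs), ?_⟩
      have hcj : cj C 1 φ₀ = φ₀ := by
        funext c
        show φ₀ (MulAut.conjNormal (1 : NP P₁) c) = φ₀ c
        rw [map_one, MulAut.one_apply]
      rw [hcj]
      intro g
      by_cases hg : g ∈ Subgroup.centralizer (P₁ : Set G)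
      · have hgN : g ∈ Subgroup.normalizer (P₁ : Set G) :=
          Subgroup.centralizer_le_normalizer _ hg
        have hgC : (⟨g, hgN⟩ : NP P₁) ∈ C := (t6 ⟨g, hgN⟩).2 hg
        have e1 := t13 φ₀ ⟨⟨g, hgN⟩, hgC⟩
        have e2 := t13 φ₀ (MulAut.conjNormal s ⟨⟨g, hgN⟩, hgC⟩)
        have e3 : (((MulAut.conjNormal s (⟨⟨g, hgN⟩, hgC⟩ : C) : C) : NP P₁) : G) =
            (s : G) * g * (s : G)⁻¹ := by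
          rw [MulAut.conjNormal_apply]
          rfl
        rw [e3] at e2
        rw [e2]
        exact (hsS ⟨⟨g, hgN⟩, hgC⟩).trans e1.symm
      · have hg' : (s : G) * g * (s : G)⁻¹ ∉ Subgroup.centralizer (P₁ : Set G) := by
          intro hgs
          apply hg
          have hN' : (s : G) * g * (s : G)⁻¹ ∈ Subgroup.normalizer (P₁ : Set G) :=
            Subgroup.centralizer_le_normalizer _ hgs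
          have hc' : (⟨(s : G) * g * (s : G)⁻¹, hN'⟩ : NP P₁) ∈ C := (t6 _).2 hgs
          have hc'' := hCn.conj_mem _ hc' s⁻¹
          have h11 := (t6 _).1 hc''
          have h12 : ((s⁻¹ * (⟨(s : G) * g * (s : G)⁻¹, hN'⟩ : NP P₁) * s⁻¹⁻¹ : NP P₁) : G) =
              g := by
            show (s : G)⁻¹ * ((s : G) * g * (s : G)⁻¹) * (s : G)⁻¹⁻¹ = g
            group
          rw [h12] at h11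
          exact h11
        rw [cgT_out 𝔐 _ (z φ₀) (t2 φ₀) hg', cgT_out 𝔐 _ (z φ₀) (t2 φ₀) hg]
    · rw [← r3]
      apply Nat.card_congr
      apply Equiv.subtypeEquivRight
      intro χ
      exact hD.xs χ
    · intro χ hχ
      obtain ⟨hχ1, hχ2⟩ := (hD.xs χ).1 hχ
      exact r5 χ hχ1 hχ2
    · have hXS : XS 𝔐 ω = (((irrF G).filter (fun χ : G → ℂ =>
          cen 𝔐 (MonoidHom.id G) χ = cen 𝔐 (MonoidHom.id G) χ₀) : Finset (G → ℂ)) :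
            Set (G → ℂ)) := by
        ext χ
        rw [hD.xs, Finset.mem_coe, Finset.mem_filter, mem_irrF]
      have hf := finsum_set_coe_eq_finsum_mem (s := XS 𝔐 ω)
        (f := fun χ : G → ℂ => ((ai C χ φ - ai C χ φ₁ : ℤ) : ℂ) * χ 1)
      rw [hXS, finsum_mem_coe_finset] at hf
      rw [hXS]
      exact hf.trans r6
    · intro b hb χ hχ
      refine hD.inv κ ?_ (fun χ hχ b => (q2 χ hχ b).1) (fun ψ hψ b hb => (q3 ψ hψ b hb).1)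
        q4 q5 q7 hφ₁ hφ hne r4 c1 c2 hb hχ
      rintro χ φ φ' hχ hφ hφ' ⟨g, -, rfl⟩
      exact a2 χ φ g hχ hφ.1

end Pool.Agent.RCB
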