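import Pool.Agent.RCB.St3

/-!
# Theorem P1: EXL, extension of an invariant linear character
-/

namespace Pool.Agent.RCB

open Pool.Agent.DP Pool.Agent.DPV Pool.Agent.DPB Pool.Agent.DPW Pool.Agent.DPX
open Pool.Agent.Lib_helper13 Representation

namespace EXL

variable {C : Type} [Group C]

theorem ne_zero {U : Subgroup C} {ν : C → ℂ} (h : LinOn U ν) {u : C} (hu : u ∈ U) : ν u ≠ 0 := by
  intro h0
  have h1 := h.2 u hu u⁻¹ (U.inv_mem hu)
  rw [mul_inv_cancel, h.1, h0, zero_mul] at h1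
  exact one_ne_zero h1

/-- the exponents `k` for which `ν ^ k` extends to `L` -/
def expo (L U : Subgroup C) (ν : C → ℂ) (hν : LinOn U ν) : AddSubgroup ℤ where
  carrier := {k | ∃ lam : C → ℂ, LinOn L lam ∧ ∀ u ∈ U, lam u = ν u ^ k}
  zero_mem' := ⟨fun _ => 1, ⟨rfl, fun _ _ _ _ => (mul_one _).symm⟩, fun u _ => (zpow_zero _).symm⟩
  add_mem' := by
    rintro k l ⟨a, ha, ha'⟩ ⟨b, hb, hb'⟩
    refine ⟨fun x => a x * b x, ⟨?_, fun x hx y hy => ?_⟩, fun u hu => ?_⟩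
    · simp only [ha.1, hb.1, mul_one]
    · simp only [ha.2 x hx y hy, hb.2 x hx y hy]
      ring
    · simp only [ha' u hu, hb' u hu]
      rw [zpow_add₀ (ne_zero hν hu)]
  neg_mem' := by
    rintro k ⟨a, ha, ha'⟩
    refine ⟨fun x => (a x)⁻¹, ⟨?_, fun x hx y hy => ?_⟩, fun u hu => ?_⟩
    · simp only [ha.1, inv_one]
    · simp only [ha.2 x hx y hy, mul_inv]
    · simp only [ha' u hu, zpow_neg]

theorem exists_sylow [Finite C] (L U : Subgroup C) (r : ℕ) (hr : r.Prime) :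
    ∃ R ≤ L, IsPGroup r R ∧ ¬ r ∣ (U ⊔ R).relIndex L := by
  have : Fact r.Prime := ⟨hr⟩
  obtain ⟨P⟩ : Nonempty (Sylow r L) := inferInstance
  refine ⟨(P : Subgroup L).map L.subtype, ?_, ?_, ?_⟩
  · rintro _ ⟨x, _, rfl⟩
    exact x.2
  · exact P.2.map _
  · intro h
    have h1 : (U ⊔ (P : Subgroup L).map L.subtype).relIndex L ∣
        ((P : Subgroup L).map L.subtype).relIndex L :=
      Subgroup.relIndex_dvd_of_le_left L le_sup_right
    have h2 : ((P : Subgroup L).map L.subtype).relIndex L = (P : Subgroup L).index := by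
      unfold Subgroup.relIndex
      congr 1
      ext x
      simp [Subgroup.mem_subgroupOf]
    rw [h2] at h1
    exact P.not_dvd_index (h.trans h1)

end EXL

open EXL in
theorem EXL_thm (h : Stmt_TRF) : Stmt_EXL := by
  intro C _ _ L U hUL hn ν hν hinv hext
  obtain ⟨d, hd⟩ := Int.subgroup_cyclic (expo L U ν hν)
  have hd1 : d.natAbs = 1 := by
    by_contra hne
    obtain ⟨r, hr, hrd⟩ := Nat.exists_prime_and_dvd hne
    obtain ⟨R, hRL, hRp, hRn⟩ := exists_sylow L U r hr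
    obtain ⟨μ, hμ, hμν⟩ := hext r hr R hRL hRp
    obtain ⟨lam, hlam, hlamu⟩ := h C L U (U ⊔ R) le_sup_left (sup_le hUL hRL) hn μ hμ (by
      intro c hc u hu
      rw [hμν _ (hn c hc u hu), hμν u hu, hinv c hc u hu])
    have hm : (((U ⊔ R).relIndex L : ℕ) : ℤ) ∈ expo L U ν hν :=
      ⟨lam, hlam, fun u hu => by rw [hlamu u hu, hμν u hu, zpow_natCast]⟩
    rw [hd, AddSubgroup.mem_closure_singleton] at hm
    obtain ⟨n, hn'⟩ := hm
    apply hRn
    have h3 : d ∣ (((U ⊔ R).relIndex L : ℕ) : ℤ) := ⟨n, by rw [← hn', smul_eq_mul, mul_comm]⟩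
    have h4 : d.natAbs ∣ (U ⊔ R).relIndex L := by
      have := Int.natAbs_dvd_natAbs.2 h3
      rwa [Int.natAbs_natCast] at this
    exact hrd.trans h4
  have h1 : (1 : ℤ) ∈ expo L U ν hν := by
    rw [hd, AddSubgroup.mem_closure_singleton]
    rcases Int.natAbs_eq_iff.1 hd1 with h2 | h2
    · exact ⟨1, by rw [h2]; simp⟩
    · exact ⟨-1, by rw [h2]; simp⟩
  obtain ⟨lam, hlam, hu⟩ := h1
  exact ⟨lam, hlam, fun u hu' => by rw [hu u hu', zpow_one]⟩

end Pool.Agent.RCB
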