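import Mathlib
import Pool.Agent.RCB.St2
import Pool.Agent.DP.EXTAR

/-!
# Theorem P1: FIL, the numbers of characters fixed by an element of order prime to `ℓ`
-/

namespace Pool.Agent.RCB.FIL

open Pool.Agent.DP Pool.Agent.DPV Pool.Agent.DPX Pool.Agent.Lib_helper13

section Loc

variable {G B C : Type} [Group G] [Group B] [Group C] {ι : G →* B} {κ : B →* MulAut G}
  {ρ : B →* C}

/-- the inverse image of the cyclic group generated by `c` -/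
abbrev B1 (ρ : B →* C) (c : C) : Subgroup B := (Subgroup.zpowers c).comap ρ

/-- the embedding -/
def i1 (h : ClG ι κ ρ) (c : C) : G →* B1 ρ c :=
  ι.codRestrict _ fun g => by
    rw [Subgroup.mem_comap, EXTAR.rho_iota h]
    exact one_mem _

/-- the action -/
def k1 (κ : B →* MulAut G) (ρ : B →* C) (c : C) : B1 ρ c →* MulAut G := κ.comp (B1 ρ c).subtype

/-- the projection -/
def r1 (ρ : B →* C) (c : C) : B1 ρ c →* Subgroup.zpowers c :=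
  (ρ.comp (B1 ρ c).subtype).codRestrict _ fun b => b.2

theorem clG1 (h : ClG ι κ ρ) (c : C) : ClG (i1 h c) (k1 κ ρ c) (r1 ρ c) where
  inj := by
    intro a b hab
    exact h.inj (congrArg Subtype.val hab)
  act := by
    intro y a
    apply Subtype.ext
    exact h.act (y : B) a
  ker := by
    intro y
    constructor
    · intro hy
      obtain ⟨g, hg⟩ := (h.ker (y : B)).mp (congrArg Subtype.val hy)
      exact ⟨g, Subtype.ext hg⟩
    · rintro ⟨a, rfl⟩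
      exact Subtype.ext (EXTAR.rho_iota h a)

theorem surj1 (h : Function.Surjective ρ) (c : C) : Function.Surjective (r1 ρ c) := by
  rintro ⟨x, hx⟩
  obtain ⟨b, rfl⟩ := h x
  exact ⟨⟨b, hx⟩, rfl⟩

theorem locV1 [Fintype G] [Fintype B] (hE : Stmt_EXTC) (h : LocN ι κ ρ) (c : C) :
    LocV (i1 h.cl c) (k1 κ ρ c) (r1 ρ c) where
  cl := clG1 h.cl c
  surj := surj1 h.surj c
  ext := by
    classical
    intro σ ψ hψ
    have : Fintype (B1 ρ c) := Fintype.ofFinite _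
    obtain ⟨f, hf1, hf2⟩ := EXTAR.exists_ext hE (clG1 h.cl c) inferInstance hψ ⊤
    refine ⟨f, ?_, hf2⟩
    rwa [Subgroup.comap_top, inf_top_eq] at hf1

theorem mem_iff (σ : Finset (Subgroup G)) (ψ : G → ℂ) (c : C) :
    (⟨c, Subgroup.mem_zpowers c⟩ : Subgroup.zpowers c) ∈ (Stx (k1 κ ρ c) σ ψ).map (r1 ρ c) ↔
      c ∈ (Stx κ σ ψ).map ρ := by
  constructor
  · rintro ⟨b, hb, hc⟩
    exact ⟨b, hb, congrArg Subtype.val hc⟩
  · rintro ⟨b, hb, hc⟩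
    exact ⟨⟨b, by rw [Subgroup.mem_comap, hc]; exact Subgroup.mem_zpowers c⟩, hb,
      Subtype.ext hc⟩

end Loc

end Pool.Agent.RCB.FIL

namespace Pool.Agent.RCB

open Pool.Agent.DP Pool.Agent.DPV Pool.Agent.DPX Pool.Agent.Lib_helper13

/-- RCB_FIL -/
theorem FIL_thm (h1 : Stmt_FIXX) (h2 : Pool.Agent.DP.Stmt_EXTC) : Stmt_FIL := by
  classical
  intro G B C _ _ _ _ _ 𝔐 ℓ n _ hM hℓ ι κ ρ hN ω P₁ P x₀ hA c hc
  have : Fintype (FIL.B1 ρ c) := Fintype.ofFinite _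
  have key := h1 G (FIL.B1 ρ c) (Subgroup.zpowers c) 𝔐 ℓ n hM hℓ (FIL.i1 hN.cl c)
    (FIL.k1 κ ρ c) (FIL.r1 ρ c) (FIL.locV1 h2 hN c) (by rwa [Nat.card_zpowers]) ω P₁ P x₀ hA
    ⟨c, Subgroup.mem_zpowers c⟩
  have e1 : ∀ χ : G → ℂ, (χ ∈ XS 𝔐 ω ∧ c ∈ (Stx κ ∅ χ).map ρ) ↔
      (IrrOn (stb ∅) χ ∧ (∀ g, cg 𝔐 χ g = ω g) ∧
        (⟨c, Subgroup.mem_zpowers c⟩ : Subgroup.zpowers c) ∈
          (Stx (FIL.k1 κ ρ c) ∅ χ).map (FIL.r1 ρ c)) := by
    intro χ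
    rw [FIL.mem_iff]
    exact and_assoc
  have e2 : ∀ ψ : G → ℂ, (ψ ∈ YL 𝔐 P₁ ω ∧ c ∈ (Stx κ {P₁} ψ).map ρ) ↔
      (IrrOn (stb {P₁}) ψ ∧ (∀ g, cg 𝔐 ψ g = ω g) ∧
        (⟨c, Subgroup.mem_zpowers c⟩ : Subgroup.zpowers c) ∈
          (Stx (FIL.k1 κ ρ c) {P₁} ψ).map (FIL.r1 ρ c)) := by
    intro ψ
    rw [FIL.mem_iff]
    exact and_assoc
  rw [Nat.card_congr (Equiv.subtypeEquivRight e1), Nat.card_congr (Equiv.subtypeEquivRight e2)]
  exact key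

end Pool.Agent.RCB
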