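import Mathlib
import Pool.Agent.RCB.St3
import Pool.Agent.DPV.PRJA

/-!
# RCB_FSC: factor sets and covers
-/

namespace Pool.Agent.RCB

open Pool.Agent.DP Pool.Agent.DPV Pool.Agent.DPB Pool.Agent.DPW Pool.Agent.DPX
open Pool.Agent.Lib_helper13 Representation

namespace FSC

/-- A representation of an extension compared with a projective representation of a quotient. -/
theorem half {A Y Y' K K' : Type} [Group A] [Fintype A] [Group Y] [Group Y'] [Group K] [Group K']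
    (j : A →* Y) (c : Y →* MulAut A) (p : Y →* K) (hc : ClG j c p) (i : A →* Y') (q : Y' →* Y)
    (p' : Y' →* K') (π₁ : K' →* K) (hqi : ∀ a, q (i a) = j a)
    (hact : ∀ y a, i (c (q y) a) = y * i a * y⁻¹) (hker : ∀ y, p' y = 1 → y ∈ i.range)
    (hsurj : Function.Surjective p') (hπ : ∀ y, π₁ (p' y) = p (q y)) {n : ℕ}
    (F : Representation ℂ Y' (Fin n → ℂ)) (hθ : IsIrr (fun a => F.character (i a)))
    (α : K → K → ℂˣ) (hα : FS j p (fun a => F.character (i a)) α) :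
    α 1 1 = 1 ∧ ∃ β : K' → ℂˣ, (∀ x y, β (x * y) = β x * β y * α (π₁ x) (π₁ y)) ∧
      ∀ w, q w = 1 → F.character w = β (p' w) * F.character 1 := by
  classical
  obtain ⟨n', R, T, hR, hTj, hTl, hTm, hTu⟩ := hα
  -- the degrees agree
  have hn : n' = n := by
    have h1 := congrFun hR 1
    simp only [map_one] at h1
    rw [Representation.char_one, Representation.char_one, Module.finrank_fin_fun,
      Module.finrank_fin_fun] at h1
    exact_mod_cast h1
  subst hn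
  have hRi : R.IsIrreducible := by
    apply irreducible_of_sum
    rw [hR]
    exact hθ.sum_self
  obtain ⟨P, hP1, hP2⟩ := EXTC.exists_P R (F.comp i : Representation ℂ A (Fin n' → ℂ)) hRi (by
    rw [hR]
    rfl)
  have hPu := PRJA.isUnit_of_inj P hP1
  have hinj := PRJA.smul_inj R hRi
  have hpj : ∀ a, p (j a) = 1 := fun a => (hc.ker _).2 ⟨a, rfl⟩
  have hT1 : T 1 = 1 := by
    have := hTj 1
    rwa [map_one, map_one] at this
  have hα1 : ∀ y, (α (p y) 1 : ℂˣ) = 1 := by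
    intro y
    have h1 := hTm y 1
    rw [hT1, mul_one, mul_one, map_one] at h1
    have h2 := hinj _ (hTu y) _ _ ((one_smul ℂ (T y)).trans h1)
    exact Units.ext h2.symm
  have hTR : ∀ y a, T y * R a = R (c y a) * T y := by
    intro y a
    rw [← hTj, hTm, hpj, hα1, Units.val_one, one_smul, ← hTl, hc.act]
    congr 1
    group
  -- the scalars
  have hβ : ∀ x : Y', ∃ b : ℂ, F x * P = b • (P * T (q x)) := by
    intro x
    obtain ⟨Pu, hPu'⟩ := hPu
    obtain ⟨Tu, hTu'⟩ := hTu (q x)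
    have e1 : ∀ a, (↑Pu⁻¹ : Module.End ℂ (Fin n' → ℂ)) * F (i a) =
        R a * (↑Pu⁻¹ : Module.End ℂ (Fin n' → ℂ)) := by
      intro a
      have h1 : P * R a = F (i a) * P := hP2 a
      rw [← hPu'] at h1
      calc (↑Pu⁻¹ : Module.End ℂ (Fin n' → ℂ)) * F (i a)
          = ↑Pu⁻¹ * (F (i a) * ↑Pu) * ↑Pu⁻¹ := by
            rw [mul_assoc, mul_assoc, Units.mul_inv, mul_one]
        _ = R a * ↑Pu⁻¹ := by
            rw [← h1, ← mul_assoc, Units.inv_mul, one_mul]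
    have e2 : ∀ a, (↑Tu⁻¹ : Module.End ℂ (Fin n' → ℂ)) * R (c (q x) a) =
        R a * (↑Tu⁻¹ : Module.End ℂ (Fin n' → ℂ)) := by
      intro a
      have h1 : T (q x) * R a = R (c (q x) a) * T (q x) := hTR _ a
      rw [← hTu'] at h1
      calc (↑Tu⁻¹ : Module.End ℂ (Fin n' → ℂ)) * R (c (q x) a)
          = ↑Tu⁻¹ * (R (c (q x) a) * ↑Tu) * ↑Tu⁻¹ := by
            rw [mul_assoc, mul_assoc, Units.mul_inv, mul_one]
        _ = R a * ↑Tu⁻¹ := by
            rw [← h1, ← mul_assoc, Units.inv_mul, one_mul]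
    have e3 : ∀ a, F x * F (i a) = F (i (c (q x) a)) * F x := by
      intro a
      rw [← map_mul, ← map_mul, hact, inv_mul_cancel_right]
    have hcomm : ∀ a, ((↑Tu⁻¹ : Module.End ℂ (Fin n' → ℂ)) * (↑Pu⁻¹ * (F x * P))) * R a =
        R a * ((↑Tu⁻¹ : Module.End ℂ (Fin n' → ℂ)) * (↑Pu⁻¹ * (F x * P))) := by
      intro a
      have h1 : P * R a = F (i a) * P := hP2 a
      calc ((↑Tu⁻¹ : Module.End ℂ (Fin n' → ℂ)) * (↑Pu⁻¹ * (F x * P))) * R a
          = ↑Tu⁻¹ * (↑Pu⁻¹ * (F x * (P * R a))) := by simp only [mul_assoc]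
        _ = ↑Tu⁻¹ * (↑Pu⁻¹ * ((F x * F (i a)) * P)) := by rw [h1]; simp only [mul_assoc]
        _ = ↑Tu⁻¹ * ((↑Pu⁻¹ * F (i (c (q x) a))) * (F x * P)) := by
            rw [e3]; simp only [mul_assoc]
        _ = (↑Tu⁻¹ * R (c (q x) a)) * (↑Pu⁻¹ * (F x * P)) := by
            rw [e1]; simp only [mul_assoc]
        _ = _ := by rw [e2, mul_assoc]
    have : R.IsIrreducible := hRi
    obtain ⟨b, hb⟩ := COSET.scalar R
      ((↑Tu⁻¹ : Module.End ℂ (Fin n' → ℂ)) * (↑Pu⁻¹ * (F x * P))) (fun a v => by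
        have := congrArg (fun T : Module.End ℂ (Fin n' → ℂ) => T v) (hcomm a)
        exact this)
    refine ⟨b, ?_⟩
    calc F x * P = ↑Pu * (↑Tu * ((↑Tu⁻¹ : Module.End ℂ (Fin n' → ℂ)) * (↑Pu⁻¹ * (F x * P)))) := by
          rw [Units.mul_inv_cancel_left, Units.mul_inv_cancel_left]
      _ = ↑Pu * (↑Tu * (b • (1 : Module.End ℂ (Fin n' → ℂ)))) := by
          rw [hb]
          rfl
      _ = b • (P * T (q x)) := by
          rw [mul_smul_comm, mul_one, mul_smul_comm, hPu', hTu']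
  choose b hb using hβ
  have hFu : ∀ x, IsUnit (F x) := by
    intro x
    refine ⟨⟨F x, F x⁻¹, ?_, ?_⟩, rfl⟩
    · rw [← map_mul, mul_inv_cancel, map_one]
    · rw [← map_mul, inv_mul_cancel, map_one]
  have hb0 : ∀ x, b x ≠ 0 := by
    intro x h0
    have h1 := hb x
    rw [h0, zero_smul] at h1
    obtain ⟨w, hw⟩ := (hFu x).mul hPu
    apply PRJA.one_ne_zero' R hRi
    calc (1 : Module.End ℂ (Fin n' → ℂ)) = (w : Module.End ℂ (Fin n' → ℂ)) * ↑w⁻¹ := by
          rw [Units.mul_inv]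
      _ = 0 := by rw [hw, h1, zero_mul]
  have hPT : ∀ y, IsUnit (P * T y) := fun y => hPu.mul (hTu y)
  have hbm : ∀ x y, b (x * y) = b x * b y * (α (p (q x)) (p (q y)) : ℂˣ) := by
    intro x y
    apply hinj _ (hPT (q (x * y)))
    rw [← hb, map_mul F, mul_assoc, hb, mul_smul_comm, ← mul_assoc, hb, smul_mul_assoc,
      mul_assoc P, hTm, mul_smul_comm, smul_smul, smul_smul, map_mul q]
    congr 1
    ring
  have hbi : ∀ a x, b (i a * x) = b x := by
    intro a x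
    have h1 : P * R a = F (i a) * P := hP2 a
    apply hinj _ (hPT (q (i a * x)))
    rw [← hb, map_mul F, mul_assoc, hb, mul_smul_comm, ← mul_assoc, ← h1, mul_assoc, ← hTl,
      map_mul q, hqi]
  have hbp : ∀ x y, p' x = p' y → b x = b y := by
    intro x y h
    obtain ⟨a, ha⟩ := hker (x * y⁻¹) (by rw [map_mul, map_inv, h, mul_inv_cancel])
    have h2 : x = i a * y := by rw [ha, inv_mul_cancel_right]
    rw [h2, hbi]
  choose s hs using hsurj
  refine ⟨?_, fun k => Units.mk0 (b (s k)) (hb0 _), ?_, ?_⟩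
  · have := hα1 1
    rwa [map_one] at this
  · intro x y
    apply Units.ext
    show b (s (x * y)) = b (s x) * b (s y) * (α (π₁ x) (π₁ y) : ℂˣ)
    rw [hbp (s (x * y)) (s x * s y) (by rw [map_mul, hs, hs, hs]), hbm, ← hπ, ← hπ, hs, hs]
  · intro w hw
    have h1 := hb w
    rw [hw, hT1, mul_one] at h1
    obtain ⟨Pu, hPu'⟩ := hPu
    have h2 : F w = b w • (1 : Module.End ℂ (Fin n' → ℂ)) := by
      calc F w = (F w * P) * ↑Pu⁻¹ := by rw [← hPu', Units.mul_inv_cancel_right]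
        _ = b w • (P * ↑Pu⁻¹) := by rw [h1, smul_mul_assoc]
        _ = _ := by rw [← hPu', Units.mul_inv]
    show F.character w = b (s (p' w)) * F.character 1
    rw [hbp (s (p' w)) w (hs _)]
    rw [Representation.character, Representation.character, h2, map_one, map_smul, smul_eq_mul]

/-- The comparison for the characters of the inverse image of a subgroup. -/
theorem half' {G B C B' C' : Type} [Group G] [Fintype G] [Group B] [Group C]
    [Group B'] [Group C'] {ι : G →* B} {κ : B →* MulAut G} {ρ : B →* C}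
    {ι' : G →* B'} {κ' : B' →* MulAut G} {ρ' : B' →* C'} {π : B' →* B}
    (hC : Cov ι κ ρ ι' κ' ρ' π) (π₁ : C' →* C) (hπ₁ : ∀ x, π₁ (ρ' x) = ρ (π x))
    (S : Subgroup B) (j : ↥(S.comap ι) →* S) (c : S →* MulAut ↥(S.comap ι))
    (hc : ClG j c (ρ.comp S.subtype)) (hS : S.map ρ = ⊤) (hj : ∀ g, (j g : B) = ι g)
    (f : B' → ℂ) (hf : IrrOn (S.comap π) f) (hθ : IsIrr (fun g : ↥(S.comap ι) => f (ι' g)))
    (a : C → C → ℂˣ) (ha : FS j (ρ.comp S.subtype) (fun g : ↥(S.comap ι) => f (ι' g)) a) :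
    a 1 1 = 1 ∧ f 1 ≠ 0 ∧ ∃ β : C' → ℂˣ, (∀ x y, β (x * y) = β x * β y * a (π₁ x) (π₁ y)) ∧
      ∀ w, π w = 1 → f w = β (ρ' w) * f 1 := by
  classical
  obtain ⟨n, F, hFi, hF⟩ := hf.1
  have hmem : ∀ g : ↥(S.comap ι), ι' g ∈ S.comap π := by
    intro g
    rw [Subgroup.mem_comap, hC.emb]
    exact g.2
  let i : ↥(S.comap ι) →* ↥(S.comap π) :=
    { toFun := fun g => ⟨ι' g, hmem g⟩
      map_one' := Subtype.ext (by
        show ι' ((1 : ↥(S.comap ι)) : G) = 1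
        rw [OneMemClass.coe_one, map_one])
      map_mul' := fun x y => Subtype.ext (by
        show ι' ((x * y : ↥(S.comap ι)) : G) = ι' x * ι' y
        rw [Subgroup.coe_mul, map_mul]) }
  let q : ↥(S.comap π) →* S :=
    { toFun := fun x => ⟨π x, x.2⟩
      map_one' := Subtype.ext (by
        show π ((1 : ↥(S.comap π)) : B') = 1
        rw [OneMemClass.coe_one, map_one])
      map_mul' := fun x y => Subtype.ext (by
        show π ((x * y : ↥(S.comap π)) : B') = π x * π y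
        rw [Subgroup.coe_mul, map_mul]) }
  have hchar : ∀ s : ↥(S.comap π), F.character s = f s := fun s => congrFun hF s
  have hθ2 : (fun g : ↥(S.comap ι) => F.character (i g)) =
      fun g : ↥(S.comap ι) => f (ι' g) := by
    funext g
    exact hchar (i g)
  have hone : F.character 1 = f 1 := by
    rw [hchar]
    rfl
  have h := half j c (ρ.comp S.subtype) hc i q (ρ'.comp (S.comap π).subtype) π₁ ?_ ?_ ?_ ?_ ?_ F
    (by rw [hθ2]; exact hθ) a (by rw [hθ2]; exact ha)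
  · obtain ⟨h1, β, h2, h3⟩ := h
    refine ⟨h1, ?_, β, h2, fun w hw => ?_⟩
    · have := hf.1.one_ne_zero
      exact this
    · have hw' : w ∈ S.comap π := by
        rw [Subgroup.mem_comap, hw]
        exact S.one_mem
      have h4 := h3 ⟨w, hw'⟩ (Subtype.ext hw)
      rw [hchar, hone] at h4
      exact h4
  · intro g
    apply Subtype.ext
    show π (ι' g) = j g
    rw [hC.emb, hj]
  · intro y g
    apply Subtype.ext
    show ι' ((c (q y) g : ↥(S.comap ι)) : G) = y * ι' g * (y : B')⁻¹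
    rw [← hC.up.cl.act, hC.act]
    congr 1
    apply hC.lo.cl.inj
    rw [← hj, hc.act]
    show ((q y : B) * (j g : B) * (q y : B)⁻¹) = ι (κ (π y) g)
    rw [hC.lo.cl.act, hj]
    rfl
  · intro y hy
    have h1 : ρ' (y : B') = 1 := hy
    obtain ⟨g, hg⟩ := (hC.up.cl.ker _).1 h1
    have hgS : g ∈ S.comap ι := by
      rw [Subgroup.mem_comap, ← hC.emb, hg]
      exact y.2
    exact ⟨⟨g, hgS⟩, Subtype.ext hg⟩
  · intro k
    obtain ⟨x, rfl⟩ := hC.up.surj k
    have h1 : ρ (π x) ∈ S.map ρ := by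
      rw [hS]
      exact Subgroup.mem_top _
    obtain ⟨y, hy, hy2⟩ := h1
    have h2 : ρ (y * (π x)⁻¹) = 1 := by
      rw [map_mul, map_inv, hy2, mul_inv_cancel]
    obtain ⟨g, hg⟩ := (hC.lo.cl.ker _).1 h2
    have h3 : π (ι' g * x) = y := by
      rw [map_mul, hC.emb, hg, inv_mul_cancel_right]
    refine ⟨⟨ι' g * x, ?_⟩, ?_⟩
    · rw [Subgroup.mem_comap, h3]
      exact hy
    · show ρ' (ι' g * x) = ρ' x
      rw [map_mul, (hC.up.cl.ker _).2 ⟨g, rfl⟩, one_mul]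
  · intro y
    exact hπ₁ y

end FSC

theorem FSC_thm' : Stmt_FSC := by
  intro G B C B' C' _ _ _ _ _ _ _ _ _ ι κ ρ ι' κ' ρ' π hC S S₁ j c j₁ c₁ hc hc₁ hS hS₁ hj hj₁
    f f₁ hf hf₁ hθ hθ₁ a a₁ ha ha₁ hcob
  obtain ⟨π₁, hπ₁⟩ : ∃ π₁ : C' →* C, ∀ x, π₁ (ρ' x) = ρ (π x) := by
    have hker : ρ'.ker ≤ (ρ.comp π).ker := by
      intro x hx
      obtain ⟨g, rfl⟩ := (hC.up.cl.ker _).1 hx
      show ρ (π (ι' g)) = 1
      rw [hC.emb]
      exact (hC.lo.cl.ker _).2 ⟨g, rfl⟩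
    refine ⟨ρ'.liftOfSurjective hC.up.surj ⟨ρ.comp π, hker⟩, fun x => ?_⟩
    exact MonoidHom.liftOfRightInverse_comp_apply _ _ _ ⟨ρ.comp π, hker⟩ x
  obtain ⟨h1, hf1, β, h2, h3⟩ := FSC.half' hC π₁ hπ₁ S j c hc hS hj f hf hθ a ha
  obtain ⟨h1', hf1', β', h2', h3'⟩ := FSC.half' hC π₁ hπ₁ S₁ j₁ c₁ hc₁ hS₁ hj₁ f₁ hf₁ hθ₁ a₁ ha₁
  obtain ⟨b, hb⟩ := mem_cob.1 hcob
  have hb1 : b 1 = 1 := by
    have := hb 1 1
    rw [Pi.mul_apply, Pi.mul_apply, Pi.inv_apply, Pi.inv_apply, h1, h1', inv_one, mul_one,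
      mul_one, mul_inv_cancel_right] at this
    exact this.symm
  have hm : ∀ x y, β (x * y) * (β' (x * y))⁻¹ * b (π₁ (x * y)) =
      (β x * (β' x)⁻¹ * b (π₁ x)) * (β y * (β' y)⁻¹ * b (π₁ y)) := by
    intro x y
    have h4 := hb (π₁ x) (π₁ y)
    rw [Pi.mul_apply, Pi.mul_apply, Pi.inv_apply, Pi.inv_apply] at h4
    have h5 : a (π₁ x) (π₁ y) = b (π₁ x) * b (π₁ y) * (b (π₁ x * π₁ y))⁻¹ * a₁ (π₁ x) (π₁ y) := by
      rw [← h4, inv_mul_cancel_right]
    rw [h2, h2', map_mul, h5]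
    generalize β x = t1
    generalize β y = t2
    generalize β' x = t3
    generalize β' y = t4
    generalize b (π₁ x) = t5
    generalize b (π₁ y) = t6
    generalize b (π₁ x * π₁ y) = t7
    generalize a₁ (π₁ x) (π₁ y) = t8
    apply Units.ext
    push_cast
    field_simp
  have hm1 : β 1 * (β' 1)⁻¹ * b (π₁ 1) = 1 := by
    have := hm 1 1
    rw [mul_one] at this
    exact (left_eq_mul.1 this)
  refine ⟨fun x => ((β x * (β' x)⁻¹ * b (π₁ x) : ℂˣ) : ℂ), ⟨?_, ?_⟩, ?_⟩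
  · show ((β 1 * (β' 1)⁻¹ * b (π₁ 1) : ℂˣ) : ℂ) = 1
    rw [hm1, Units.val_one]
  · intro x _ y _
    show ((β (x * y) * (β' (x * y))⁻¹ * b (π₁ (x * y)) : ℂˣ) : ℂ) = _
    rw [hm, Units.val_mul]
  · intro w hw
    show f w * f₁ 1 = ((β (ρ' w) * (β' (ρ' w))⁻¹ * b (π₁ (ρ' w)) : ℂˣ) : ℂ) * (f₁ w * f 1)
    rw [h3 w hw, h3' w hw, hπ₁, hw, map_one, hb1, mul_one]
    push_cast
    have hne : ((β' (ρ' w) : ℂˣ) : ℂ) ≠ 0 := Units.ne_zero _
    field_simp

theorem FSC_thm (_ : Stmt_FSU) : Stmt_FSC := FSC_thm'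

end Pool.Agent.RCB
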