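import Mathlib
import Pool.Agent.RCB.St3
import Pool.Agent.DPV.StmtsV

/-!
# Theorem P1: existence of a factor set (FSE)
-/

namespace Pool.Agent.RCB

open Pool.Agent.DP Pool.Agent.DPV
open Pool.Agent.Lib_helper13 Representation

namespace FSE

/-- A scalar is determined by its product with a unit. -/
theorem smul_unit_inj {V : Type} [AddCommGroup V] [Module ℂ V] [Nontrivial V]
    {M : Module.End ℂ V} (hM : IsUnit M) {a b : ℂ} (h : a • M = b • M) : a = b := by
  obtain ⟨u, rfl⟩ := hM
  have h1 : a • (1 : Module.End ℂ V) = b • (1 : Module.End ℂ V) := by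
    have h2 := congrArg (fun X => X * (↑u⁻¹ : Module.End ℂ V)) h
    simp only [smul_mul_assoc, Units.mul_inv] at h2
    exact h2
  obtain ⟨v, hv⟩ := exists_ne (0 : V)
  have h3 := congrArg (fun X : Module.End ℂ V => X v) h1
  simp only [LinearMap.smul_apply, Module.End.one_apply] at h3
  have h4 : (a - b) • v = 0 := by rw [sub_smul, h3, sub_self]
  rcases smul_eq_zero.mp h4 with h5 | h5
  · exact sub_eq_zero.mp h5
  · exact absurd h5 hv

end FSE

open FSE in
theorem FSE_thm (h : Pool.Agent.DPV.Stmt_PRJA) : Stmt_FSE := by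
  intro A Y K _ _ _ _ _ j c p hG hp θ hθ hinv
  obtain ⟨n, R, hR, hRθ⟩ := hθ
  obtain ⟨T, hTj, hTjy, hTc, hTu, hζ⟩ := h A Y K j c p hG n R hR (by rw [hRθ]; exact hinv)
  choose ζ hζ1 hζ2 using hζ
  have hnt : Nontrivial (Fin n → ℂ) := by
    have hs : IsSimpleOrder (Subrepresentation R) := hR
    have h2 : Nontrivial (Subrepresentation R) := inferInstance
    by_contra hcon
    rw [not_nontrivial_iff_subsingleton] at hcon
    obtain ⟨S1, S2, hS⟩ := h2
    apply hS
    apply SetLike.ext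
    intro v
    have hv : v = 0 := Subsingleton.elim _ _
    rw [hv]
    exact ⟨fun _ => S2.toSubmodule.zero_mem, fun _ => S1.toSubmodule.zero_mem⟩
  have hfin : Finite p.range := Finite.of_surjective p.rangeRestrict p.rangeRestrict_surjective
  have hne : ∀ y y', ζ y y' ≠ 0 := by
    intro y y' h0
    have h1 := hζ1 y y'
    rw [h0, zero_pow Nat.card_pos.ne'] at h1
    exact zero_ne_one h1
  have hl : ∀ x y y', ζ (j x * y) y' = ζ y y' := by
    intro x y y'
    refine smul_unit_inj (hTu (j x * y * y')) ?_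
    rw [← hζ2, hTjy, mul_assoc, hζ2 y y', mul_smul_comm, ← hTjy, mul_assoc]
  have hr : ∀ x y y', ζ y (j x * y') = ζ y y' := by
    intro x y y'
    refine smul_unit_inj (hTu (y * (j x * y'))) ?_
    have e : y * (j x * y') = j (c y x) * (y * y') := by
      rw [hG.act]
      group
    rw [← hζ2, hTjy, ← mul_assoc, hTc, mul_assoc, hζ2 y y', mul_smul_comm, ← hTjy, e]
  have hk : ∀ y₁ y₂, p y₁ = p y₂ → ∃ x, y₁ = j x * y₂ := by
    intro y₁ y₂ he
    have h1 : p (y₁ * y₂⁻¹) = 1 := by rw [map_mul, map_inv, he, mul_inv_cancel]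
    obtain ⟨x, hx⟩ := (hG.ker _).1 h1
    exact ⟨x, by rw [hx, inv_mul_cancel_right]⟩
  refine ⟨fun k k' => Units.mk0 (ζ (Function.surjInv hp k) (Function.surjInv hp k'))
    (hne _ _), n, R, T, hRθ, hTj, hTjy, ?_, hTu⟩
  intro y y'
  rw [hζ2 y y', Units.val_mk0]
  obtain ⟨x, hx⟩ := hk y (Function.surjInv hp (p y)) (Function.surjInv_eq hp (p y)).symm
  obtain ⟨x', hx'⟩ := hk y' (Function.surjInv hp (p y')) (Function.surjInv_eq hp (p y')).symm
  have e1 : ζ y y' = ζ (Function.surjInv hp (p y)) (Function.surjInv hp (p y')) := by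
    conv_lhs => rw [hx, hx']
    rw [hl, hr]
  rw [e1]

end Pool.Agent.RCB
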