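import Pool.Agent.RCB.St3

/-!
# Theorem P1, module FSK: the class of a factor set is annihilated by the order of the group
-/

namespace Pool.Agent.RCB

open Pool.Agent.DP Pool.Agent.DPV Pool.Agent.DPB Pool.Agent.DPW Pool.Agent.DPX
open Pool.Agent.Lib_helper13 Representation

theorem FSK_thm : Stmt_FSK := by
  intro A Y K _ _ _ _ _ _ j c p _ hp θ hθ a hFS
  obtain ⟨n, R, T, hR, -, -, hmul, hu⟩ := hFS
  classical
  have hfin : Fintype K := Fintype.ofFinite K
  have hn : n ≠ 0 := by
    rintro rfl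
    apply hθ.one_ne_zero
    rw [← hR, Representation.char_one]
    simp
  have hnz : NeZero n := ⟨hn⟩
  have hne : ∀ y, T y ≠ 0 := fun y => (hu y).ne_zero
  have hcoc : ∀ x y z : K, a x y * a (x * y) z = a y z * a x (y * z) := by
    intro x y z
    obtain ⟨x, rfl⟩ := hp x
    obtain ⟨y, rfl⟩ := hp y
    obtain ⟨z, rfl⟩ := hp z
    have h1 : (T x * T y) * T z = T x * (T y * T z) := mul_assoc _ _ _
    rw [hmul x y, hmul y z, smul_mul_assoc, mul_smul_comm, hmul (x * y) z, hmul x (y * z),
      smul_smul, smul_smul, map_mul, map_mul, mul_assoc x y z] at h1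
    have h2 := smul_left_injective ℂ (hne (x * (y * z))) h1
    apply Units.ext
    push_cast
    exact h2
  refine ⟨fun x => ∏ z, a x z, fun x y => ?_⟩
  rw [Pi.pow_apply, Pi.pow_apply, Nat.card_eq_fintype_card, eq_mul_inv_iff_mul_eq]
  calc a x y ^ Fintype.card K * ∏ z, a (x * y) z
      = ∏ z, (a x y * a (x * y) z) := by
        rw [Finset.prod_mul_distrib, Finset.prod_const, Finset.card_univ]
    _ = ∏ z, (a y z * a x (y * z)) := Finset.prod_congr rfl fun z _ => hcoc x y z
    _ = (∏ z, a y z) * ∏ z, a x (y * z) := Finset.prod_mul_distrib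
    _ = (∏ z, a y z) * ∏ z, a x z := by
        rw [← Equiv.prod_comp (Equiv.mulLeft y) (fun z => a x z)]
        rfl
    _ = (∏ z, a x z) * ∏ z, a y z := mul_comm _ _

end Pool.Agent.RCB
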