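import Mathlib
import Pool.Agent.RCB.St3

/-!
# RCB_FSM: the multiplicity lemma for factor sets
-/

set_option autoImplicit false

namespace Pool.Agent.RCB

open Pool.Agent.DP Pool.Agent.DPV Pool.Agent.DPB Pool.Agent.DPW Pool.Agent.DPX
open Pool.Agent.Lib_helper13 Representation

namespace FSM

/-! ### The operators of a factor set -/

section One

variable {A Y K : Type} [Group A] [Group Y] [Group K] {n : ℕ} {j : A →* Y}
  {c : Y →* MulAut A} {p : Y →* K} {R : Representation ℂ A (Fin n → ℂ)}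
  {T : Y → Module.End ℂ (Fin n → ℂ)} {a : K → K → ℂˣ}

theorem T_one (h1 : ∀ x, T (j x) = R x) : T 1 = 1 := by
  rw [← map_one j, h1, map_one]

theorem smul_inj' [Nontrivial (Fin n → ℂ)] {P : Module.End ℂ (Fin n → ℂ)} (hP : IsUnit P)
    {x y : ℂ} (h : x • P = y • P) : x = y := by
  by_contra hxy
  refine hP.ne_zero ?_
  apply LinearMap.ext
  intro v
  funext i
  have h3 : x * P v i = y * P v i :=
    congrArg (fun T : Module.End ℂ (Fin n → ℂ) => T v i) h
  rcases mul_eq_zero.1 (show (x - y) * P v i = 0 by rw [sub_mul, h3, sub_self]) with h4 | h4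
  · exact absurd (sub_eq_zero.1 h4) hxy
  · exact h4

theorem a_one [Nontrivial (Fin n → ℂ)] (h1 : ∀ x, T (j x) = R x)
    (h3 : ∀ y y', T y * T y' = ((a (p y) (p y') : ℂˣ) : ℂ) • T (y * y'))
    (h4 : ∀ y, IsUnit (T y)) (y : Y) : ((a (p y) 1 : ℂˣ) : ℂ) = 1 := by
  have e := h3 y 1
  rw [map_one, T_one h1, mul_one, mul_one] at e
  refine smul_inj' (h4 y) ?_
  rw [← e, one_smul]

theorem T_comm [Nontrivial (Fin n → ℂ)] (hc : ClG j c p) (h1 : ∀ x, T (j x) = R x)
    (h2 : ∀ x y, T (j x * y) = R x * T y)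
    (h3 : ∀ y y', T y * T y' = ((a (p y) (p y') : ℂˣ) : ℂ) • T (y * y'))
    (h4 : ∀ y, IsUnit (T y)) (y : Y) (x : A) : T y * R x = R (c y x) * T y := by
  have e := h3 y (j x)
  have hp : p (j x) = 1 := (hc.ker _).2 ⟨x, rfl⟩
  rw [hp, a_one h1 h3 h4, one_smul, h1] at e
  rw [e, ← h2, hc.act, inv_mul_cancel_right]

end One

/-! ### The space of intertwining maps -/

section Two

variable {U : Type} [Group U] {n m : ℕ}

/-- the operator `f ↦ P f Q` -/
def Ph (ρ : Representation ℂ U (Fin m → ℂ)) (σ : Representation ℂ U (Fin n → ℂ))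
    (P : Module.End ℂ (Fin n → ℂ)) (Q : Module.End ℂ (Fin m → ℂ))
    (hPQ : ∀ (f : IntertwiningMap ρ σ) (u : U) (x : Fin m → ℂ),
      P (f (Q (ρ u x))) = σ u (P (f (Q x)))) :
    IntertwiningMap ρ σ →ₗ[ℂ] IntertwiningMap ρ σ where
  toFun f := ⟨P ∘ₗ f.toLinearMap ∘ₗ Q, fun u => LinearMap.ext fun x => hPQ f u x⟩
  map_add' f g := by
    apply IntertwiningMap.ext
    apply LinearMap.ext
    intro x
    simp
  map_smul' z f := by
    apply IntertwiningMap.ext
    apply LinearMap.ext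
    intro x
    simp

end Two

/-! ### Inverse operators -/

section Inv

variable {U S K : Type} [Group U] [Group S] [Group K] {m : ℕ} {j : U →* S} {q : S →* K}
  {R : Representation ℂ U (Fin m → ℂ)} {T Q : S → Module.End ℂ (Fin m → ℂ)}
  {a : K → K → ℂˣ}

theorem Q_one (h1 : ∀ x, T (j x) = R x) (hQ : ∀ s, T s * Q s = 1) : Q 1 = 1 := by
  have := hQ 1
  rwa [T_one h1, one_mul] at this

theorem Q_j (h2 : ∀ x y, T (j x * y) = R x * T y) (hQ : ∀ s, T s * Q s = 1)
    (hQ' : ∀ s, Q s * T s = 1) (u : U) (s : S) : Q (j u * s) = Q s * R u⁻¹ := by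
  have e1 : R u⁻¹ * R u = 1 := by rw [← map_mul, inv_mul_cancel, map_one]
  calc Q (j u * s) = (Q s * (R u⁻¹ * R u) * T s) * Q (j u * s) := by
        rw [e1, mul_one, hQ', one_mul]
    _ = Q s * R u⁻¹ * ((R u * T s) * Q (j u * s)) := by simp only [mul_assoc]
    _ = Q s * R u⁻¹ := by rw [← h2, hQ, mul_one]

theorem Q_mul (h3 : ∀ y y', T y * T y' = ((a (q y) (q y') : ℂˣ) : ℂ) • T (y * y'))
    (hQ : ∀ s, T s * Q s = 1) (hQ' : ∀ s, Q s * T s = 1) (s s' : S) :
    Q s' * Q s = (((a (q s) (q s'))⁻¹ : ℂˣ) : ℂ) • Q (s * s') := by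
  have e1 : T (s * s') = (((a (q s) (q s'))⁻¹ : ℂˣ) : ℂ) • (T s * T s') := by
    rw [h3, smul_smul, ← Units.val_mul, inv_mul_cancel, Units.val_one, one_smul]
  calc Q s' * Q s = Q s' * Q s * (T (s * s') * Q (s * s')) := by rw [hQ, mul_one]
    _ = (((a (q s) (q s'))⁻¹ : ℂˣ) : ℂ) •
        (Q s' * ((Q s * T s) * (T s' * Q (s * s')))) := by
        rw [e1, smul_mul_assoc, mul_smul_comm]
        simp only [mul_assoc]
    _ = (((a (q s) (q s'))⁻¹ : ℂˣ) : ℂ) • Q (s * s') := by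
        rw [hQ', one_mul, ← mul_assoc, hQ', one_mul]

theorem Q_comm {c : S →* MulAut U} (h : ∀ s u, T s * R u = R (c s u) * T s)
    (hQ : ∀ s, T s * Q s = 1) (hQ' : ∀ s, Q s * T s = 1) (s : S) (u : U) :
    Q s * R (c s u) = R u * Q s := by
  calc Q s * R (c s u) = Q s * R (c s u) * (T s * Q s) := by rw [hQ, mul_one]
    _ = Q s * (R (c s u) * T s) * Q s := by simp only [mul_assoc]
    _ = (Q s * T s) * R u * Q s := by rw [← h]; simp only [mul_assoc]
    _ = R u * Q s := by rw [hQ', one_mul]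

end Inv

end FSM

open FSM in
/-- RCB_FSM: the multiplicity lemma. -/
theorem FSM_thm : Stmt_FSM := by
  intro A Y U S K _ _ _ _ _ _ _ _ _ j c p j' c' q i h hC hC' hq hh hp θ ζ hθ hζ a a' hF hF' k hk
  obtain ⟨n, R, T, hRθ, hT1, hT2, hT3, hT4⟩ := hF
  obtain ⟨m, R', T', hRζ, hT1', hT2', hT3', hT4'⟩ := hF'
  subst hRθ
  subst hRζ
  have hn : n ≠ 0 := by
    rintro rfl
    have h1 := hθ.one_ne_zero
    rw [char_one] at h1
    simp at h1
  have hm : m ≠ 0 := by
    rintro rfl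
    have h1 := hζ.one_ne_zero
    rw [char_one] at h1
    simp at h1
  have : Nonempty (Fin n) := ⟨⟨0, Nat.pos_of_ne_zero hn⟩⟩
  have : Nonempty (Fin m) := ⟨⟨0, Nat.pos_of_ne_zero hm⟩⟩
  obtain ⟨σ, hσ⟩ : ∃ σ : Representation ℂ U (Fin n → ℂ), σ = R.comp i := ⟨_, rfl⟩
  have hσR : ∀ u, σ u = R (i u) := fun u => by rw [hσ]; rfl
  have hfin : Module.finrank ℂ (IntertwiningMap R' σ) = k := by
    have h1 := sum_char_eq_finrank R' σ
    have h2 : ∀ u, σ.character u = R.character (i u) := fun u => by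
      rw [Representation.character, Representation.character, hσR]
    simp only [h2] at h1
    rw [ip, h1, mul_div_cancel_left₀ _ natCard_ne_zero] at hk
    exact_mod_cast hk
  choose v hv using hT4'
  let Q : S → Module.End ℂ (Fin m → ℂ) := fun s => ((v s)⁻¹ : (Module.End ℂ (Fin m → ℂ))ˣ)
  have hQ : ∀ s, T' s * Q s = 1 := fun s => by
    rw [← hv s]; exact (v s).mul_inv
  have hQ' : ∀ s, Q s * T' s = 1 := fun s => by
    rw [← hv s]; exact (v s).inv_mul
  have hU' : ∀ s, IsUnit (T' s) := fun s => ⟨v s, hv s⟩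
  have hTc := T_comm hC hT1 hT2 hT3 hT4
  have hTc' := T_comm hC' hT1' hT2' hT3' hU'
  have hi : ∀ s u, c (h s) (i u) = i (c' s u) := by
    intro s u
    apply hC.inj
    rw [hC.act, ← hh, ← hh, hC'.act, map_mul, map_mul, map_inv]
  have hmem : ∀ s, ∀ (f : IntertwiningMap R' σ) (u : U) (x : Fin m → ℂ),
      T (h s) (f (Q s (R' u x))) = σ u (T (h s) (f (Q s x))) := by
    intro s f w x
    obtain ⟨u, rfl⟩ := (c' s).surjective w
    have e1 := LinearMap.congr_fun (hTc (h s) (i u)) (f (Q s x))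
    have e2 := LinearMap.congr_fun (Q_comm hTc' hQ hQ' s u) x
    rw [hi] at e1
    simp only [Module.End.mul_apply] at e1 e2
    rw [e2, f.isIntertwining, hσR, hσR, e1]
  let Φ : S → (IntertwiningMap R' σ →ₗ[ℂ] IntertwiningMap R' σ) :=
    fun s => Ph R' σ (T (h s)) (Q s) (hmem s)
  have hΦ : ∀ s (f : IntertwiningMap R' σ) x, Φ s f x = T (h s) (f (Q s x)) :=
    fun s f x => rfl
  have hext : ∀ (F G : IntertwiningMap R' σ →ₗ[ℂ] IntertwiningMap R' σ),
      (∀ f x, F f x = G f x) → F = G := by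
    intro F G hFG
    apply LinearMap.ext
    intro f
    apply IntertwiningMap.ext
    apply LinearMap.ext
    intro x
    exact hFG f x
  have hΦ1 : Φ 1 = 1 := by
    apply hext
    intro f x
    rw [hΦ, map_one, T_one hT1, Q_one hT1' hQ]
    rfl
  have hΦj : ∀ u s, Φ (j' u * s) = Φ s := by
    intro u s
    apply hext
    intro f x
    have e1 : Φ s f (R' u (R' u⁻¹ x)) = σ u (Φ s f (R' u⁻¹ x)) :=
      IntertwiningMap.isIntertwining R' σ (Φ s f) u (R' u⁻¹ x)
    have e2 : R' u (R' u⁻¹ x) = x := by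
      rw [← Module.End.mul_apply, ← map_mul, mul_inv_cancel, map_one]
      rfl
    rw [e2] at e1
    rw [e1, hΦ, hΦ, map_mul, hh, hT2, Q_j hT2' hQ hQ', hσR]
    rfl
  have hΦm : ∀ s s', Φ s * Φ s' =
      (((a (q s) (q s') * (a' (q s) (q s'))⁻¹ : ℂˣ)) : ℂ) • Φ (s * s') := by
    intro s s'
    apply hext
    intro f x
    have e1 := LinearMap.congr_fun (hT3 (h s) (h s')) (f ((Q s' * Q s) x))
    rw [hp, hp] at e1
    have e2 := LinearMap.congr_fun (Q_mul hT3' hQ hQ' s s') x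
    have e3 : ((Φ s * Φ s') f) x = (T (h s) * T (h s')) (f ((Q s' * Q s) x)) := rfl
    rw [e3, e1, e2, LinearMap.smul_apply, LinearMap.smul_apply, map_smul, map_smul, smul_smul,
      ← Units.val_mul, ← map_mul]
    rfl
  let D : S → ℂ := fun s => LinearMap.det (Φ s)
  have hDm : ∀ s s', D s * D s' =
      (((a (q s) (q s') * (a' (q s) (q s'))⁻¹ : ℂˣ)) : ℂ) ^ k * D (s * s') := by
    intro s s'
    have e1 : D s * D s' = LinearMap.det (Φ s * Φ s') := by
      rw [map_mul]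
    rw [e1, hΦm, LinearMap.det_smul, hfin]
  have hD1 : D 1 = 1 := by
    change LinearMap.det (Φ 1) = 1
    rw [hΦ1, map_one]
  have hD0 : ∀ s, D s ≠ 0 := by
    intro s h0
    have e1 := hDm s s⁻¹
    rw [h0, zero_mul, mul_inv_cancel, hD1, mul_one] at e1
    exact pow_ne_zero k (Units.ne_zero _) e1.symm
  have hDq : ∀ s s', q s = q s' → D s' = D s := by
    intro s s' hs
    have h1 : s' * s⁻¹ ∈ j'.range := by
      rw [← hC'.ker, map_mul, map_inv, hs, mul_inv_cancel]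
    obtain ⟨u, hu⟩ := h1
    have h2 : s' = j' u * s := by rw [hu, inv_mul_cancel_right]
    change LinearMap.det (Φ s') = LinearMap.det (Φ s)
    rw [h2, hΦj]
  choose g hg using hq
  refine ⟨fun κ => Units.mk0 (D (g κ)) (hD0 _), fun x y => ?_⟩
  apply Units.ext
  have e1 := hDm (g x) (g y)
  have e2 : D (g x * g y) = D (g (x * y)) := hDq _ _ (by rw [hg, map_mul, hg, hg])
  rw [hg, hg, e2] at e1
  have e3 : (((a * a'⁻¹) ^ k) x y : ℂˣ) = (a x y * (a' x y)⁻¹) ^ k := rfl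
  rw [e3, Units.val_mul, Units.val_mul, Units.val_mk0, Units.val_mk0, e1, Units.val_pow_eq_pow_val,
    Units.val_inv_eq_inv_val, Units.val_mk0, mul_assoc, mul_inv_cancel₀ (hD0 _), mul_one]

end Pool.Agent.RCB
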