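import Pool.Agent.RCB.St3

/-!
# Theorem P1, module FSP: the multiplicity lemma for quotients which are `ℓ`-groups
-/

set_option autoImplicit false

namespace Pool.Agent.RCB

open Pool.Agent.DP Pool.Agent.DPV Pool.Agent.DPB Pool.Agent.DPW Pool.Agent.DPX
open Pool.Agent.Lib_helper13 Representation

/-- RCB_FSP. -/
theorem FSP_thm (h1 : Stmt_FSM) (h2 : Stmt_FSK) : Stmt_FSP := by
  intro A Y U S K _ _ _ _ _ _ _ _ _ _ ℓ hℓ j c p j' c' q i h hj hj' hq hh hp ⟨m, hm⟩ θ ζ hθ hζ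
    a a' ha ha' k hk hlk
  have hpS : Function.Surjective p := fun x => by
    obtain ⟨s, hs⟩ := hq x
    exact ⟨h s, by rw [hp, hs]⟩
  have e1 : (a * a'⁻¹) ^ k ∈ cob K :=
    h1 A Y U S K j c p j' c' q i h hj hj' hq hh hp θ ζ hθ hζ a a' ha ha' k hk
  have e2 : (a * a'⁻¹) ^ Nat.card K ∈ cob K := by
    rw [mul_pow, inv_pow]
    exact mul_mem (h2 A Y K j c p hj hpS θ hθ a ha)
      (inv_mem (h2 U S K j' c' q hj' hq ζ hζ a' ha'))
  have hco : Nat.Coprime k (Nat.card K) := by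
    rw [hm]
    exact ((Nat.Prime.coprime_iff_not_dvd hℓ.out).2 hlk).symm.pow_right m
  have hb : ((k : ℤ)) * k.gcdA (Nat.card K) + (Nat.card K : ℤ) * k.gcdB (Nat.card K) = 1 := by
    rw [← Nat.gcd_eq_gcd_ab, hco]; rfl
  have e3 : (a * a'⁻¹) = ((a * a'⁻¹) ^ k) ^ k.gcdA (Nat.card K) *
      ((a * a'⁻¹) ^ Nat.card K) ^ k.gcdB (Nat.card K) := by
    rw [← zpow_natCast, ← zpow_natCast, ← zpow_mul, ← zpow_mul, ← zpow_add, hb, zpow_one]
  rw [e3]
  exact mul_mem (zpow_mem e1 _) (zpow_mem e2 _)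

end Pool.Agent.RCB
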