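import Mathlib
import Pool.Agent.RCB.St3
import Pool.Agent.DPV.PRJA

/-!
# RCB_FSU: uniqueness of the factor set up to coboundaries
-/

namespace Pool.Agent.RCB

open Pool.Agent.DP Pool.Agent.DPV Pool.Agent.DPB Pool.Agent.DPW Pool.Agent.DPX
open Pool.Agent.Lib_helper13 Representation

namespace FSU

section

variable {A Y K : Type} [Group A] [Group Y] [Group K] {n : ℕ}

/-- The value `1` of the factor set. -/
theorem a_one {j : A →* Y} {p : Y →* K} {R : Representation ℂ A (Fin n → ℂ)}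
    (hR : R.IsIrreducible) {T : Y → Module.End ℂ (Fin n → ℂ)} {a : K → K → ℂˣ}
    (h1 : ∀ x, T (j x) = R x)
    (h3 : ∀ y y', T y * T y' = ((a (p y) (p y') : ℂˣ) : ℂ) • T (y * y'))
    (h4 : ∀ y, IsUnit (T y)) (y : Y) : ((a (p y) 1 : ℂˣ) : ℂ) = 1 := by
  have e1 : T 1 = 1 := by
    have := h1 1
    rw [map_one, map_one] at this
    exact this
  have e2 := h3 y 1
  rw [e1, mul_one, mul_one, map_one] at e2
  have e3 : ((a (p y) 1 : ℂˣ) : ℂ) • T y = (1 : ℂ) • T y := by rw [← e2, one_smul]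
  exact PRJA.smul_inj R hR (T y) (h4 y) _ _ e3

/-- Commutation with the representation of the normal subgroup. -/
theorem comm {j : A →* Y} {c : Y →* MulAut A} {p : Y →* K} (hc : ClG j c p)
    {R : Representation ℂ A (Fin n → ℂ)}
    (hR : R.IsIrreducible) {T : Y → Module.End ℂ (Fin n → ℂ)} {a : K → K → ℂˣ}
    (h1 : ∀ x, T (j x) = R x) (h2 : ∀ x y, T (j x * y) = R x * T y)
    (h3 : ∀ y y', T y * T y' = ((a (p y) (p y') : ℂˣ) : ℂ) • T (y * y'))
    (h4 : ∀ y, IsUnit (T y)) (y : Y) (x : A) : T y * R x = R (c y x) * T y := by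
  have e1 : p (j x) = 1 := (hc.ker _).2 ⟨x, rfl⟩
  have e2 := h3 y (j x)
  rw [e1, a_one hR h1 h3 h4 y, one_smul, h1 x] at e2
  have e3 : y * j x = j (c y x) * y := by
    rw [hc.act]
    group
  rw [e2, e3, h2]

/-- Two extensions of the same representation differ by scalars. -/
theorem scal {c : Y →* MulAut A} {R : Representation ℂ A (Fin n → ℂ)}
    (hR : R.IsIrreducible) {T T' : Y → Module.End ℂ (Fin n → ℂ)}
    (h : ∀ y x, T y * R x = R (c y x) * T y) (h' : ∀ y x, T' y * R x = R (c y x) * T' y)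
    (h4 : ∀ y, IsUnit (T y)) (h4' : ∀ y, IsUnit (T' y)) (y : Y) :
    ∃ b : ℂˣ, T y = (b : ℂ) • T' y := by
  obtain ⟨u, hu⟩ := h4' y
  have hu1 : (↑u⁻¹ : Module.End ℂ (Fin n → ℂ)) * T' y = 1 := by rw [← hu, Units.inv_mul]
  have hu2 : T' y * (↑u⁻¹ : Module.End ℂ (Fin n → ℂ)) = 1 := by rw [← hu, Units.mul_inv]
  have e2 : ∀ x, (↑u⁻¹ : Module.End ℂ (Fin n → ℂ)) * R (c y x) =
      R x * (↑u⁻¹ : Module.End ℂ (Fin n → ℂ)) := by
    intro x
    calc (↑u⁻¹ : Module.End ℂ (Fin n → ℂ)) * R (c y x)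
        = (↑u⁻¹ : Module.End ℂ (Fin n → ℂ)) * R (c y x) *
            (T' y * (↑u⁻¹ : Module.End ℂ (Fin n → ℂ))) := by rw [hu2, mul_one]
      _ = (↑u⁻¹ : Module.End ℂ (Fin n → ℂ)) * (R (c y x) * T' y) *
            (↑u⁻¹ : Module.End ℂ (Fin n → ℂ)) := by simp only [mul_assoc]
      _ = (↑u⁻¹ : Module.End ℂ (Fin n → ℂ)) * (T' y * R x) *
            (↑u⁻¹ : Module.End ℂ (Fin n → ℂ)) := by rw [h']
      _ = ((↑u⁻¹ : Module.End ℂ (Fin n → ℂ)) * T' y) * R x *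
            (↑u⁻¹ : Module.End ℂ (Fin n → ℂ)) := by simp only [mul_assoc]
      _ = R x * (↑u⁻¹ : Module.End ℂ (Fin n → ℂ)) := by rw [hu1, one_mul]
  have hcomm : ∀ x, ((↑u⁻¹ : Module.End ℂ (Fin n → ℂ)) * T y) * R x =
      R x * ((↑u⁻¹ : Module.End ℂ (Fin n → ℂ)) * T y) := by
    intro x
    rw [mul_assoc, h, ← mul_assoc, e2, mul_assoc]
  have : R.IsIrreducible := hR
  obtain ⟨z, hz⟩ := COSET.scalar R ((↑u⁻¹ : Module.End ℂ (Fin n → ℂ)) * T y)
    (fun a v => by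
      have := congrArg (fun T : Module.End ℂ (Fin n → ℂ) => T v) (hcomm a)
      exact this)
  have hz' : T y = z • T' y := by
    calc T y = (T' y * (↑u⁻¹ : Module.End ℂ (Fin n → ℂ))) * T y := by rw [hu2, one_mul]
      _ = T' y * ((↑u⁻¹ : Module.End ℂ (Fin n → ℂ)) * T y) := by rw [mul_assoc]
      _ = T' y * (z • (1 : Module.End ℂ (Fin n → ℂ))) := by
          rw [hz]
          rfl
      _ = z • T' y := by rw [mul_smul_comm, mul_one]
  have hz0 : z ≠ 0 := by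
    rintro rfl
    rw [zero_smul] at hz'
    obtain ⟨w, hw⟩ := h4 y
    apply PRJA.one_ne_zero' R hR
    calc (1 : Module.End ℂ (Fin n → ℂ)) = (w : Module.End ℂ (Fin n → ℂ)) * ↑w⁻¹ := by
          rw [Units.mul_inv]
      _ = 0 := by rw [hw, hz', zero_mul]
  exact ⟨Units.mk0 z hz0, hz'⟩

/-- The case of the same representation of the normal subgroup. -/
theorem same {j : A →* Y} {c : Y →* MulAut A} {p : Y →* K} (hc : ClG j c p)
    (hp : Function.Surjective p) {R : Representation ℂ A (Fin n → ℂ)}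
    (hR : R.IsIrreducible) {T T' : Y → Module.End ℂ (Fin n → ℂ)} {a a' : K → K → ℂˣ}
    (h1 : ∀ x, T (j x) = R x) (h2 : ∀ x y, T (j x * y) = R x * T y)
    (h3 : ∀ y y', T y * T y' = ((a (p y) (p y') : ℂˣ) : ℂ) • T (y * y'))
    (h4 : ∀ y, IsUnit (T y))
    (h1' : ∀ x, T' (j x) = R x) (h2' : ∀ x y, T' (j x * y) = R x * T' y)
    (h3' : ∀ y y', T' y * T' y' = ((a' (p y) (p y') : ℂˣ) : ℂ) • T' (y * y'))
    (h4' : ∀ y, IsUnit (T' y)) : a * a'⁻¹ ∈ cob K := by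
  have hb := scal hR (comm hc hR h1 h2 h3 h4) (comm hc hR h1' h2' h3' h4') h4 h4'
  choose b hb using hb
  -- `b` depends only on the class
  have hbj : ∀ x y, b (j x * y) = b y := by
    intro x y
    have e1 : ((b (j x * y) : ℂˣ) : ℂ) • T' (j x * y) = ((b y : ℂˣ) : ℂ) • T' (j x * y) := by
      rw [← hb, h2, h2', hb y, mul_smul_comm]
    exact Units.ext (PRJA.smul_inj R hR _ (h4' _) _ _ e1)
  have hbp : ∀ y y', p y = p y' → b y = b y' := by
    intro y y' h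
    have e1 : p (y * y'⁻¹) = 1 := by rw [map_mul, map_inv, h, mul_inv_cancel]
    obtain ⟨x, hx⟩ := (hc.ker _).1 e1
    have e2 : y = j x * y' := by rw [hx]; group
    rw [e2, hbj]
  choose s hs using hp
  rw [mem_cob]
  refine ⟨fun k => b (s k), fun k k' => ?_⟩
  have e1 : b (s k * s k') = b (s (k * k')) := hbp _ _ (by rw [map_mul, hs, hs, hs])
  have e2 := h3 (s k) (s k')
  have e3 := h3' (s k) (s k')
  rw [hb (s k), hb (s k'), hb (s k * s k'), smul_mul_smul_comm, e3, smul_smul, smul_smul, hs, hs]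
    at e2
  have e4 := PRJA.smul_inj R hR _ (h4' _) _ _ e2
  have e5 : b (s k) * b (s k') * a' k k' = a k k' * b (s k * s k') := by
    apply Units.ext
    push_cast
    exact e4
  change a k k' * (a' k k')⁻¹ = b (s k) * b (s k') * (b (s (k * k')))⁻¹
  rw [← e1, eq_mul_inv_iff_mul_eq, mul_right_comm, ← e5, mul_inv_cancel_right]

end

end FSU

open FSU in
theorem FSU_thm : Stmt_FSU := by
  intro A Y K _ _ _ _ _ j c p hc hp θ hθ a a' ha ha'
  obtain ⟨n, R, T, hχ, h1, h2, h3, h4⟩ := ha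
  obtain ⟨n', R', T', hχ', h1', h2', h3', h4'⟩ := ha'
  have hone : ∀ (m : ℕ) (Q : Representation ℂ A (Fin m → ℂ)), Q.character 1 = m := by
    intro m Q
    simp [Representation.character]
  have hn : n = n' := by
    have e1 : R.character 1 = R'.character 1 := by rw [hχ, hχ']
    rw [hone, hone] at e1
    exact_mod_cast e1
  subst hn
  have irr : ∀ S : Representation ℂ A (Fin n → ℂ), S.character = θ → S.IsIrreducible := by
    intro S hS
    obtain ⟨m, Q, hQ, hQθ⟩ := hθ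
    rw [irreducible_iff_sum, hS, ← hQθ]
    exact (irreducible_iff_sum Q).1 hQ
  have hR := irr R hχ
  have hR' := irr R' hχ'
  obtain ⟨P, hP1, hP2⟩ := EXTC.exists_P R R' hR (by rw [hχ, hχ'])
  obtain ⟨u, hu⟩ := PRJA.isUnit_of_inj P hP1
  have hu1 : (↑u⁻¹ : Module.End ℂ (Fin n → ℂ)) * P = 1 := by rw [← hu, Units.inv_mul]
  have hu2 : P * (↑u⁻¹ : Module.End ℂ (Fin n → ℂ)) = 1 := by rw [← hu, Units.mul_inv]
  have hRR : ∀ x, (↑u⁻¹ : Module.End ℂ (Fin n → ℂ)) * R' x * P = R x := by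
    intro x
    rw [mul_assoc, ← hP2, ← mul_assoc, hu1, one_mul]
  have hmul : ∀ X Z : Module.End ℂ (Fin n → ℂ),
      ((↑u⁻¹ : Module.End ℂ (Fin n → ℂ)) * X * P) * ((↑u⁻¹ : Module.End ℂ (Fin n → ℂ)) * Z * P) =
        (↑u⁻¹ : Module.End ℂ (Fin n → ℂ)) * (X * Z) * P := by
    intro X Z
    calc _ = (↑u⁻¹ : Module.End ℂ (Fin n → ℂ)) * X *
          (P * (↑u⁻¹ : Module.End ℂ (Fin n → ℂ))) * Z * P := by simp only [mul_assoc]
      _ = _ := by rw [hu2, mul_one]; simp only [mul_assoc]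
  refine same (T := T) (T' := fun y => (↑u⁻¹ : Module.End ℂ (Fin n → ℂ)) * T' y * P) hc hp hR
    h1 h2 h3 h4 ?_ ?_ ?_ ?_
  · intro x
    change (↑u⁻¹ : Module.End ℂ (Fin n → ℂ)) * T' (j x) * P = R x
    rw [h1', hRR]
  · intro x y
    change (↑u⁻¹ : Module.End ℂ (Fin n → ℂ)) * T' (j x * y) * P =
      R x * ((↑u⁻¹ : Module.End ℂ (Fin n → ℂ)) * T' y * P)
    rw [h2', ← hRR x, hmul]
  · intro y y'
    change ((↑u⁻¹ : Module.End ℂ (Fin n → ℂ)) * T' y * P) *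
      ((↑u⁻¹ : Module.End ℂ (Fin n → ℂ)) * T' y' * P) = _ •
        ((↑u⁻¹ : Module.End ℂ (Fin n → ℂ)) * T' (y * y') * P)
    rw [hmul, h3', mul_smul_comm, smul_mul_assoc]
  · intro y
    change IsUnit ((↑u⁻¹ : Module.End ℂ (Fin n → ℂ)) * T' y * P)
    have e1 : IsUnit (↑u⁻¹ : Module.End ℂ (Fin n → ℂ)) := Units.isUnit u⁻¹
    have e2 : IsUnit P := ⟨u, hu⟩
    exact (e1.mul (h4' y)).mul e2

end Pool.Agent.RCB
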