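import Mathlib
import Pool.Agent.RCB.St3

/-!
# Theorem P1: factor sets of restrictions and of products of linear characters
-/

namespace Pool.Agent.RCB

open Pool.Agent.DP Pool.Agent.DPV Pool.Agent.DPB Pool.Agent.DPW Pool.Agent.DPX
open Pool.Agent.Lib_helper13 Representation

namespace FSXaux

/-- The scalar of an endomorphism of `Fin 1 → ℂ`. -/
noncomputable def sc (f : Module.End ℂ (Fin 1 → ℂ)) : ℂ := f (fun _ => 1) 0

theorem sc_smul (c : ℂ) : sc (c • (1 : Module.End ℂ (Fin 1 → ℂ))) = c := by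
  simp [sc]

theorem eq_sc (f : Module.End ℂ (Fin 1 → ℂ)) : f = sc f • (1 : Module.End ℂ (Fin 1 → ℂ)) := by
  refine LinearMap.ext fun v => ?_
  have hv : v = v 0 • (fun _ : Fin 1 => (1 : ℂ)) := by
    funext i
    rw [Subsingleton.elim i 0]
    simp
  have h1 : f v = v 0 • f (fun _ : Fin 1 => (1 : ℂ)) := by
    conv_lhs => rw [hv]
    rw [map_smul]
  funext i
  rw [Subsingleton.elim i 0, h1]
  simp [sc, mul_comm]

theorem sc_one : sc (1 : Module.End ℂ (Fin 1 → ℂ)) = 1 := by
  simp [sc]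

theorem sc_mul (f g : Module.End ℂ (Fin 1 → ℂ)) : sc (f * g) = sc f * sc g := by
  have h : f * g = (sc f * sc g) • (1 : Module.End ℂ (Fin 1 → ℂ)) := by
    conv_lhs => rw [eq_sc f, eq_sc g]
    rw [smul_mul_smul_comm, one_mul]
  rw [h, sc_smul]

theorem sc_smul' (c : ℂ) (f : Module.End ℂ (Fin 1 → ℂ)) : sc (c • f) = c * sc f := by
  simp [sc]

theorem trace_sc (f : Module.End ℂ (Fin 1 → ℂ)) : LinearMap.trace ℂ (Fin 1 → ℂ) f = sc f := by
  conv_lhs => rw [eq_sc f]
  rw [map_smul, LinearMap.trace_one]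
  simp

theorem isUnit_sc (f : Module.End ℂ (Fin 1 → ℂ)) (h : IsUnit f) : sc f ≠ 0 := by
  obtain ⟨u, rfl⟩ := h
  intro h0
  have h1 : sc ((u : Module.End ℂ (Fin 1 → ℂ)) * ((u⁻¹ : (Module.End ℂ (Fin 1 → ℂ))ˣ) :
      Module.End ℂ (Fin 1 → ℂ))) = 1 := by
    rw [Units.mul_inv, sc_one]
  rw [sc_mul, h0, zero_mul] at h1
  exact zero_ne_one h1

theorem isUnit_of (c : ℂ) (h : c ≠ 0) : IsUnit (c • (1 : Module.End ℂ (Fin 1 → ℂ))) := by
  refine ⟨⟨c • 1, c⁻¹ • 1, ?_, ?_⟩, rfl⟩
  · rw [smul_mul_smul_comm, mul_inv_cancel₀ h, one_mul, one_smul]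
  · rw [smul_mul_smul_comm, inv_mul_cancel₀ h, one_mul, one_smul]

end FSXaux

open FSXaux

theorem FSX_thm : Stmt_FSX := by
  intro A Y K _ _ _ _ _ j c p hcl hp
  refine ⟨?_, ?_⟩
  · rintro E ⟨n, R, hR, rfl⟩
    refine ⟨n, R.comp j, R, ?_, fun x => rfl, fun x y => map_mul R _ _, fun y y' => ?_, fun y => ?_⟩
    · funext x
      rfl
    · simp only [Pi.one_apply, Units.val_one, one_smul]
      rw [map_mul]
    · refine ⟨⟨R y, R y⁻¹, ?_, ?_⟩, rfl⟩
      · rw [← map_mul, mul_inv_cancel, map_one]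
      · rw [← map_mul, inv_mul_cancel, map_one]
  · intro θ θ' hθ hθ' h1 h1' a a' ha ha'
    obtain ⟨n, R, T, hch, hTj, hTR, hTT, hu⟩ := ha
    obtain ⟨m, R', T', hch', hTj', hTR', hTT', hu'⟩ := ha'
    have hn : n = 1 := by
      have h := congrFun hch 1
      rw [h1, Representation.char_one] at h
      rw [Module.finrank_fin_fun] at h
      exact_mod_cast h
    have hm : m = 1 := by
      have h := congrFun hch' 1
      rw [h1', Representation.char_one] at h
      rw [Module.finrank_fin_fun] at h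
      exact_mod_cast h
    subst hn
    subst hm
    have hθx : ∀ x, θ x = sc (R x) := fun x => by
      rw [← hch]
      exact trace_sc (R x)
    have hθx' : ∀ x, θ' x = sc (R' x) := fun x => by
      rw [← hch']
      exact trace_sc (R' x)
    let R2 : Representation ℂ A (Fin 1 → ℂ) :=
      { toFun := fun x => (sc (R x) * sc (R' x)) • 1
        map_one' := by
          rw [map_one, map_one, sc_one, one_mul, one_smul]
        map_mul' := fun x y => by
          rw [map_mul, map_mul, sc_mul, sc_mul, smul_mul_smul_comm, one_mul]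
          congr 1
          ring }
    have hR2 : R2.character = fun x => θ x * θ' x := by
      funext x
      have h : R2.character x = sc (R2 x) := trace_sc (R2 x)
      rw [h, hθx, hθx']
      exact sc_smul _
    refine ⟨?_, ?_⟩
    · rw [← hR2]
      refine isIrr_of_rep_sum R2 ?_
      rw [hR2]
      have h : ∀ g : A, (θ g * θ' g) * (θ g⁻¹ * θ' g⁻¹) = 1 := by
        intro g
        have e1 : θ g * θ g⁻¹ = 1 := by
          rw [hθx, hθx, ← sc_mul, ← map_mul, mul_inv_cancel, map_one, sc_one]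
        have e2 : θ' g * θ' g⁻¹ = 1 := by
          rw [hθx', hθx', ← sc_mul, ← map_mul, mul_inv_cancel, map_one, sc_one]
        calc (θ g * θ' g) * (θ g⁻¹ * θ' g⁻¹) = (θ g * θ g⁻¹) * (θ' g * θ' g⁻¹) := by ring
          _ = 1 := by rw [e1, e2, one_mul]
      simp only [h]
      simp [Nat.card_eq_fintype_card]
    · refine ⟨1, R2, fun y => (sc (T y) * sc (T' y)) • 1, hR2, fun x => ?_, fun x y => ?_,
        fun y y' => ?_, fun y => ?_⟩
      · show (sc (T (j x)) * sc (T' (j x))) • (1 : Module.End ℂ (Fin 1 → ℂ)) =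
          (sc (R x) * sc (R' x)) • (1 : Module.End ℂ (Fin 1 → ℂ))
        rw [hTj, hTj']
      · show (sc (T (j x * y)) * sc (T' (j x * y))) • (1 : Module.End ℂ (Fin 1 → ℂ)) =
          ((sc (R x) * sc (R' x)) • (1 : Module.End ℂ (Fin 1 → ℂ))) *
            ((sc (T y) * sc (T' y)) • (1 : Module.End ℂ (Fin 1 → ℂ)))
        rw [hTR, hTR', sc_mul, sc_mul, smul_mul_smul_comm, one_mul]
        congr 1
        ring
      · show ((sc (T y) * sc (T' y)) • (1 : Module.End ℂ (Fin 1 → ℂ))) *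
          ((sc (T y') * sc (T' y')) • (1 : Module.End ℂ (Fin 1 → ℂ))) =
          (((a * a') (p y) (p y') : ℂˣ) : ℂ) •
            ((sc (T (y * y')) * sc (T' (y * y'))) • (1 : Module.End ℂ (Fin 1 → ℂ)))
        have e1 : sc (T y) * sc (T y') = ((a (p y) (p y') : ℂˣ) : ℂ) * sc (T (y * y')) := by
          rw [← sc_mul, hTT, sc_smul']
        have e2 : sc (T' y) * sc (T' y') = ((a' (p y) (p y') : ℂˣ) : ℂ) * sc (T' (y * y')) := by
          rw [← sc_mul, hTT', sc_smul']
        rw [smul_mul_smul_comm, one_mul, smul_smul, Pi.mul_apply, Pi.mul_apply, Units.val_mul]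
        congr 1
        calc sc (T y) * sc (T' y) * (sc (T y') * sc (T' y'))
            = (sc (T y) * sc (T y')) * (sc (T' y) * sc (T' y')) := by ring
          _ = _ := by rw [e1, e2]; ring
      · exact isUnit_of _ (mul_ne_zero (isUnit_sc _ (hu y)) (isUnit_sc _ (hu' y)))

end Pool.Agent.RCB
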