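import Pool.Agent.RCB.St1

/-!
# RCB, module GEL: an element of `G` at which the block of `χ` does not vanish
-/

set_option autoImplicit false

namespace Pool.Agent.RCB

open Pool.Agent.DP Pool.Agent.DPV Pool.Agent.DPB Pool.Agent.DPW Pool.Agent.DPX
open Pool.Agent.Lib_helper13 Representation
open Pool.Agent.Lib_helper13.Dade (pCore)

namespace GEL

/-- the expansion of an integral class function in class indicators, reduced -/
theorem red_expand {B : Type} [Group B] [Fintype B] [Fintype (ConjClasses B)]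
    (𝔐 : Ideal (integralClosure ℤ ℂ)) {χ : B → ℂ} (hχ : IsIrr χ) {E : B → ℂ}
    (hE : ∀ g x, E (g * x * g⁻¹) = E x) (hEi : ∀ x, IsIntegral ℤ (E x)) :
    red 𝔐 (wt χ E) = ∑ C : ConjClasses B, red 𝔐 (E C.out) * cen 𝔐 (MonoidHom.id B) χ C.out := by
  classical
  have h1 : ∀ x : B, E x = ∑ C : ConjClasses B, E C.out * conjInd (MonoidHom.id B x) C.out := by
    intro x
    rw [MonoidHom.id_apply]
    have hout : ∀ C : ConjClasses B, ConjClasses.mk C.out = C := fun C => Quotient.out_eq C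
    rw [Finset.sum_eq_single (ConjClasses.mk x)]
    · have h2 : IsConj x (ConjClasses.mk x).out := by
        rw [← ConjClasses.mk_eq_mk_iff_isConj, hout]
      rw [conjInd, if_pos h2, mul_one]
      obtain ⟨c, hc⟩ := isConj_iff.mp h2
      rw [← hc, hE]
    · intro C _ hC
      rw [conjInd, if_neg, mul_zero]
      intro h2
      apply hC
      rw [← hout C, ConjClasses.mk_eq_mk_iff_isConj]
      exact h2.symm
    · simp
  have hint : ∀ g : B, IsIntegral ℤ (wt χ (fun y => conjInd (MonoidHom.id B y) g)) :=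
    isIntegral_wt_conj (MonoidHom.id B) hχ
  have h2 : wt χ E = wt χ (fun y => ∑ C : ConjClasses B,
      E C.out * conjInd (MonoidHom.id B y) C.out) := by
    congr 1
    exact funext h1
  rw [h2, wt_sum, red_sum]
  · refine Finset.sum_congr rfl fun C _ => ?_
    rw [wt_smul, red_mul 𝔐 (hEi _) (hint _)]
    rfl
  · intro C _
    rw [wt_smul]
    exact (hEi _).mul (hint _)

end GEL

open GEL in
theorem GEL_thm (h1 : Stmt_IDG) (h2 : Pool.Agent.DP.Stmt_SUMM) : Stmt_GEL := by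
  classical
  intro G B C _ _ _ _ _ 𝔐 ℓ n _ h𝔐 hℓ ι κ ρ hL χ ξ hχ hξ hover P₁ P x₀ hAt
  obtain ⟨F, hFi, hFc, hFw, hFx⟩ := h1 G B 𝔐 ℓ n h𝔐 hℓ ι κ hL.cl.act hL.cl.inj ξ hξ P₁ P x₀ hAt
  -- extension by zero
  obtain ⟨F', hF', hF0⟩ : ∃ F' : B → ℂ, (∀ g, F' (ι g) = F g) ∧
      ∀ y, y ∉ ι.range → F' y = 0 := by
    refine ⟨fun y => if h : y ∈ ι.range then F h.choose else 0, fun g => ?_,
      fun y hy => dif_neg hy⟩
    have h : ι g ∈ ι.range := ⟨g, rfl⟩
    show (if h : ι g ∈ ι.range then F h.choose else 0) = F g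
    rw [dif_pos h]
    exact congrArg F (hL.cl.inj h.choose_spec)
  have hF'i : ∀ y, IsIntegral ℤ (F' y) := by
    intro y
    by_cases hy : y ∈ ι.range
    · obtain ⟨g, rfl⟩ := hy
      rw [hF']
      exact hFi g
    · rw [hF0 y hy]
      exact isIntegral_zero
  have hF'c : ∀ g x, F' (g * x * g⁻¹) = F' x := by
    intro b y
    by_cases hy : y ∈ ι.range
    · obtain ⟨g, rfl⟩ := hy
      rw [← hL.cl.act, hF', hF', hFc]
    · rw [hF0 y hy, hF0]
      intro h
      apply hy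
      obtain ⟨g, hg⟩ := h
      refine ⟨κ b⁻¹ g, ?_⟩
      rw [hL.cl.act, hg]
      group
  have hw : red 𝔐 (wt χ F') = 1 := by
    rw [(h2 G B C ι κ ρ hL.cl).2.2.2 ξ χ F' hξ hχ hover hF'c hF0]
    have h3 : (fun a => F' (ι a)) = F := funext hF'
    rw [h3, hFw ξ hξ, if_pos ⟨1, fun g => by rw [map_one]; rfl⟩]
  have hft : Fintype (ConjClasses B) := Fintype.ofFinite _
  rw [red_expand 𝔐 hχ hF'c hF'i] at hw
  have hne : ∃ D : ConjClasses B,
      red 𝔐 (F' D.out) * cen 𝔐 (MonoidHom.id B) χ D.out ≠ 0 := by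
    by_contra hcon
    push Not at hcon
    rw [Finset.sum_eq_zero fun D _ => hcon D] at hw
    have hnt : Nontrivial ((integralClosure ℤ ℂ) ⧸ 𝔐) :=
      Ideal.Quotient.nontrivial_iff.2 h𝔐.ne_top
    exact zero_ne_one hw
  obtain ⟨D, hD⟩ := hne
  have ha : red 𝔐 (F' D.out) ≠ 0 := left_ne_zero_of_mul hD
  have hb : cen 𝔐 (MonoidHom.id B) χ D.out ≠ 0 := right_ne_zero_of_mul hD
  have hr : D.out ∈ ι.range := by
    by_contra hcon
    apply ha
    rw [hF0 _ hcon, red_zero]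
  obtain ⟨x, hx⟩ := hr
  rw [← hx, hF'] at ha
  rw [← hx] at hb
  exact ⟨x, hb, hFx x ha⟩

end Pool.Agent.RCB
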