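import Pool.Agent.RCB.St3

/-!
# Theorem P1: GLU, gluing of linear characters
-/

namespace Pool.Agent.RCB

open Pool.Agent.DP Pool.Agent.DPV Pool.Agent.DPB Pool.Agent.DPW Pool.Agent.DPX
open Pool.Agent.Lib_helper13 Representation

namespace GLU

variable {C : Type} [Group C]

theorem mono {L U : Subgroup C} {μ : C → ℂ} (h : LinOn L μ) (hUL : U ≤ L) : LinOn U μ :=
  ⟨h.1, fun x hx y hy => h.2 x (hUL hx) y (hUL hy)⟩

theorem mul {L : Subgroup C} {μ μ' : C → ℂ} (h : LinOn L μ) (h' : LinOn L μ') :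
    LinOn L (fun x => μ x * μ' x) := by
  refine ⟨by simp only [h.1, h'.1, mul_one], fun x hx y hy => ?_⟩
  simp only [h.2 x hx y hy, h'.2 x hx y hy]
  ring

theorem pow {L : Subgroup C} {μ : C → ℂ} (h : LinOn L μ) (n : ℕ) :
    LinOn L (fun x => μ x ^ n) := by
  refine ⟨by simp only [h.1, one_pow], fun x hx y hy => ?_⟩
  simp only [h.2 x hx y hy, mul_pow]

theorem conj {L U : Subgroup C} {μ : C → ℂ} (h : LinOn U μ)
    (hn : ∀ c ∈ L, ∀ u ∈ U, c * u * c⁻¹ ∈ U) {c : C} (hc : c ∈ L) :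
    LinOn U (fun x => μ (c * x * c⁻¹)) := by
  refine ⟨?_, fun x hx y hy => ?_⟩
  · show μ (c * 1 * c⁻¹) = 1
    rw [mul_one, mul_inv_cancel]
    exact h.1
  · show μ (c * (x * y) * c⁻¹) = μ (c * x * c⁻¹) * μ (c * y * c⁻¹)
    rw [← h.2 _ (hn c hc x hx) _ (hn c hc y hy)]
    congr 1
    group

theorem one_of_coprime {z : ℂ} {m n : ℕ} (h : m.Coprime n) (hm : z ^ m = 1) (hn : z ^ n = 1) :
    z = 1 := by
  have h1 : orderOf z ∣ m := orderOf_dvd_of_pow_eq_one hm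
  have h2 : orderOf z ∣ n := orderOf_dvd_of_pow_eq_one hn
  have h3 : orderOf z ∣ 1 := by
    rw [← Nat.coprime_iff_gcd_eq_one.1 h]
    exact Nat.dvd_gcd h1 h2
  exact orderOf_eq_one_iff.1 (Nat.dvd_one.1 h3)

theorem integral_of_pow {z : ℂ} {k : ℕ} (hk : k ≠ 0) (h : z ^ k = 1) : IsIntegral ℤ z := by
  refine ⟨Polynomial.X ^ k - 1, Polynomial.monic_X_pow_sub_C 1 hk, ?_⟩
  simp [h]

end GLU

open GLU in
theorem GLU_thm (h1 : Stmt_EXL) (h2 : Stmt_CYL) (h3 : Stmt_COL) (h4 : Stmt_TEI)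
    (h5 : Stmt_PRT) : Stmt_GLU := by
  intro C _ _ 𝔐 ℓ _ hmax hℓ L U W hWU hUL hnU hnW ν hν1 hνm hνinv τ hτ hτinv hτν ha hb
  have hℓp : ℓ.Prime := Fact.out
  have hWL : W ≤ L := hWU.trans hUL
  -- the lift of `ν`
  obtain ⟨μ0, k0, hk0, hμ0, hμk, hμr, hμu⟩ := h4 C 𝔐 ℓ hmax hℓ U ν hν1 hνm
  have hinv : ∀ c ∈ L, ∀ u ∈ U, μ0 (c * u * c⁻¹) = μ0 u := by
    intro c hc
    refine hμu (fun x => μ0 (c * x * c⁻¹)) (conj hμ0 hnU hc) (fun u hu => ?_)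
      ⟨k0, hk0, fun u hu => hμk _ (hnU c hc u hu)⟩
    show red 𝔐 (μ0 (c * u * c⁻¹)) = ν u
    rw [hμr _ (hnU c hc u hu), hνinv c hc u hu]
  obtain ⟨l1', hl1', hl1u⟩ := h1 C L U hUL hnU μ0 hμ0 hinv (by
    intro r hr R hR hRp
    by_cases hrl : r = ℓ
    · subst hrl
      exact h3 C U R r k0 hr hk0 hRp (fun c hc => hnU c (hR hc)) μ0 hμ0 hμk
        (fun c hc => hinv c (hR hc))
    · exact h2 C U R (fun c hc => hnU c (hR hc)) (ha r hr hrl R hR hRp) μ0 hμ0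
        (fun c hc => hinv c (hR hc)))
  obtain ⟨s1, t1, a1, k1, hk1, _, hl1, _, _, hl1k, _, hl1r, hl1i⟩ :=
    h5 C 𝔐 ℓ hmax hℓ L l1' hl1'
  have hl1U : ∀ u ∈ U, l1' u ^ t1 = μ0 u := by
    refine hμu (fun x => l1' x ^ t1) (mono hl1 hUL) (fun u hu => ?_)
      ⟨k1, hk1, fun u hu => hl1k u (hUL hu)⟩
    show red 𝔐 (l1' u ^ t1) = ν u
    rw [hl1r u (hUL hu), hl1u u hu, hμr u hu]
  -- the `ℓ`-part of `τ`
  obtain ⟨s2, t2, a2, k2, hk2, hσ, hτt, hτst, hσa, hτk, hσr, hτr, hτi⟩ :=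
    h5 C 𝔐 ℓ hmax hℓ W τ hτ
  have hσinv : ∀ c ∈ L, ∀ u ∈ W, (fun x => τ x ^ s2) (c * u * c⁻¹) = (fun x => τ x ^ s2) u := by
    intro c hc u hu
    show τ (c * u * c⁻¹) ^ s2 = τ u ^ s2
    rw [hτinv c hc u hu]
  obtain ⟨l2', hl2', hl2w⟩ := h1 C L W hWL hnW (fun x => τ x ^ s2) hσ hσinv (by
    intro r hr R hR hRp
    by_cases hrl : r = ℓ
    · subst hrl
      obtain ⟨μ, hμ, hμτ⟩ := hb R hR hRp
      exact ⟨fun x => μ x ^ s2, pow hμ s2, fun u hu => by simp only [hμτ u hu]⟩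
    · refine h3 C W R r (ℓ ^ a2) hr ?_ hRp (fun c hc => hnW c (hR hc)) _ hσ hσa
        (fun c hc => hσinv c (hR hc))
      intro hd
      have := hr.dvd_of_dvd_pow hd
      exact hrl ((Nat.prime_dvd_prime_iff_eq hr hℓp).1 this))
  obtain ⟨s3, t3, a3, k3, hk3, hl2, _, hl2st, _, hl2k, hl2r, _, hl2i⟩ :=
    h5 C 𝔐 ℓ hmax hℓ L l2' hl2'
  have hl2W : ∀ w ∈ W, l2' w ^ s3 = τ w ^ s2 := by
    intro w hw
    have e1 := hl2st w (hWL hw)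
    have e2 : l2' w ^ t3 = 1 := by
      refine one_of_coprime (m := k3) (n := ℓ ^ a2) ?_ (hl2k w (hWL hw)) ?_
      · exact Nat.Coprime.pow_right _ (((Nat.Prime.coprime_iff_not_dvd hℓp).2 hk3).symm)
      · rw [← pow_mul, mul_comm, pow_mul, hl2w w hw]
        show ((τ w ^ s2) ^ ℓ ^ a2) ^ t3 = 1
        rw [hσa w hw, one_pow]
    rw [e2, mul_one] at e1
    rw [← e1, hl2w w hw]
  -- uniqueness on `W`
  obtain ⟨μW, _, _, _, _, _, hWu⟩ := h4 C 𝔐 ℓ hmax hℓ W ν hν1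
    (fun c hc c' hc' => hνm c (hWU hc) c' (hWU hc'))
  have e1 : ∀ w ∈ W, μ0 w = μW w := hWu μ0 (mono hμ0 hWU) (fun w hw => hμr w (hWU hw))
    ⟨k0, hk0, fun w hw => hμk w (hWU hw)⟩
  have e2 : ∀ w ∈ W, τ w ^ t2 = μW w := hWu (fun x => τ x ^ t2) hτt
    (fun w hw => by
      show red 𝔐 (τ w ^ t2) = ν w
      rw [hτr w hw, hτν w hw]) ⟨k2, hk2, hτk⟩
  refine ⟨fun x => l1' x ^ t1 * l2' x ^ s3, mul hl1 hl2, fun w hw => ?_, fun u hu => ?_⟩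
  · show l1' w ^ t1 * l2' w ^ s3 = τ w
    rw [hl1U w (hWU hw), hl2W w hw, e1 w hw, ← e2 w hw, mul_comm, ← hτst w hw]
  · show red 𝔐 (l1' u ^ t1 * l2' u ^ s3) = ν u
    rw [red_mul 𝔐 ((hl1i u (hUL hu)).pow t1) ((hl2i u (hUL hu)).pow s3), hl1U u hu,
      hl2r u (hUL hu), mul_one, hμr u hu]

end Pool.Agent.RCB
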