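import Mathlib
import Pool.Agent.RCB.St2

/-!
# RCB_GRM: the Gram matrix of the multiplicities
-/

namespace Pool.Agent.RCB

open Pool.Agent.DP Pool.Agent.DPV Pool.Agent.DPB Pool.Agent.DPW Pool.Agent.DPX
open Pool.Agent.Lib_helper13 Representation

namespace GRM

section Conj

variable {N : Type} [Group N] {C : Subgroup N} [C.Normal]

theorem cj_mul (g h : N) (φ : C → ℂ) : cj C (g * h) φ = cj C h (cj C g φ) := by
  funext c
  simp only [cj, map_mul, MulAut.mul_apply]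

theorem cj_one (φ : C → ℂ) : cj C (1 : N) φ = φ := by
  funext c
  simp only [cj, map_one, MulAut.one_apply]

theorem cj_inv (g : N) (φ : C → ℂ) : cj C g⁻¹ (cj C g φ) = φ := by
  rw [← cj_mul, mul_inv_cancel, cj_one]

theorem cj_inv' (g : N) (φ : C → ℂ) : cj C g (cj C g⁻¹ φ) = φ := by
  rw [← cj_mul, inv_mul_cancel, cj_one]

theorem irr_cj [Fintype C] {φ : C → ℂ} (h : IsIrr φ) (g : N) : IsIrr (cj C g φ) :=
  h.comp_mulEquiv (MulAut.conjNormal g)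

/-- The elements of `C` act trivially. -/
theorem cj_mem [Fintype N] {φ : C → ℂ} (h : IsIrr φ) {g : N} (hg : g ∈ C) : cj C g φ = φ := by
  have : Fintype C := Fintype.ofFinite C
  funext c
  have h1 : (MulAut.conjNormal g c : C) = ⟨g, hg⟩ * c * ⟨g, hg⟩⁻¹ := by
    apply Subtype.ext
    simp [MulAut.conjNormal_apply]
  rw [cj, h1, h.conj_eq]

end Conj

section Inner

variable {Y : Type} [Group Y] [Fintype Y]

theorem ip_sub_left (f f' χ : Y → ℂ) : ip (fun y => f y - f' y) χ = ip f χ - ip f' χ := by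
  rw [ip, ip, ip, ← sub_div, ← Finset.sum_sub_distrib]
  congr 1
  exact Finset.sum_congr rfl fun y _ => sub_mul _ _ _

theorem ip_sub_right (f χ χ' : Y → ℂ) : ip f (fun y => χ y - χ' y) = ip f χ - ip f χ' := by
  rw [ip, ip, ip, ← sub_div, ← Finset.sum_sub_distrib]
  congr 1
  exact Finset.sum_congr rfl fun y _ => mul_sub _ _ _

theorem ip_inv (f χ : Y → ℂ) : ip (fun y => f y⁻¹) (fun y => χ y⁻¹) = ip f χ := by
  rw [ip, ip]
  congr 1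
  exact Fintype.sum_equiv (Equiv.inv Y) _ _ fun y => by simp

end Inner

open Classical in
theorem sum_mem {N : Type} [Group N] [Fintype N] (S : Subgroup N) :
    ∑ t : N, (if t ∈ S then (1 : ℂ) else 0) = Nat.card S := by
  rw [Finset.sum_boole, Nat.card_eq_fintype_card, Fintype.card_subtype]

open Classical in
/-- The sum over the group `N`. -/
theorem count {𝔐 : Ideal (integralClosure ℤ ℂ)} {N : Type} [Group N] [Fintype N]
    {C : Subgroup N} [C.Normal] {φ₀ φ φ' : C → ℂ} (hCS : C ≤ bS 𝔐 C φ₀) (h' : IsIrr φ')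
    (hfree : ∀ g ∈ bS 𝔐 C φ₀, cj C g φ' = φ' → g ∈ C) :
    ∑ t : N, (if t ∈ bS 𝔐 C φ₀ then (1 + if cj C t φ' = φ then (1 : ℂ) else 0) else 0) =
      (Nat.card C : ℂ) * ((C.relIndex (bS 𝔐 C φ₀) : ℂ) +
        if Cjg 𝔐 C φ₀ φ φ' then 1 else 0) := by
  have e1 : ∀ t : N, (if t ∈ bS 𝔐 C φ₀ then (1 + if cj C t φ' = φ then (1 : ℂ) else 0) else 0) =
      (if t ∈ bS 𝔐 C φ₀ then (1 : ℂ) else 0) +
        (if t ∈ bS 𝔐 C φ₀ ∧ cj C t φ' = φ then (1 : ℂ) else 0) := by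
    intro t
    by_cases h1 : t ∈ bS 𝔐 C φ₀
    · by_cases h2 : cj C t φ' = φ
      · rw [if_pos h1, if_pos h2, if_pos h1, if_pos ⟨h1, h2⟩]
      · rw [if_pos h1, if_neg h2, if_pos h1, if_neg (fun h => h2 h.2)]
    · rw [if_neg h1, if_neg h1, if_neg (fun h => h1 h.1), add_zero]
  rw [Finset.sum_congr rfl (fun t _ => e1 t), Finset.sum_add_distrib, sum_mem]
  have e2 : (Nat.card (bS 𝔐 C φ₀) : ℂ) =
      (Nat.card C : ℂ) * (C.relIndex (bS 𝔐 C φ₀) : ℂ) := by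
    have h := Subgroup.relIndex_mul_relIndex (⊥ : Subgroup N) C (bS 𝔐 C φ₀) bot_le hCS
    rw [Subgroup.relIndex_bot_left, Subgroup.relIndex_bot_left] at h
    rw [← h]
    push_cast
    ring
  rw [e2, mul_add]
  congr 1
  by_cases hc : Cjg 𝔐 C φ₀ φ φ'
  · rw [if_pos hc, mul_one]
    obtain ⟨g, hg, rfl⟩ := hc
    have e3 : ∀ t : N, (t ∈ bS 𝔐 C φ₀ ∧ cj C t (cj C g φ) = φ) ↔ t * g ∈ C := by
      intro t
      constructor
      · rintro ⟨h1, h2⟩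
        refine hfree _ (mul_mem h1 hg) ?_
        rw [cj_mul, h2]
      · intro h1
        have h2 : t ∈ bS 𝔐 C φ₀ := by
          have h3 := mul_mem (hCS h1) (inv_mem hg)
          rwa [mul_inv_cancel_right] at h3
        refine ⟨h2, ?_⟩
        have h3 := cj_mem h' h1
        rw [cj_mul] at h3
        rw [← cj_inv g (cj C t (cj C g φ)), h3, cj_inv]
    rw [← sum_mem C]
    refine Fintype.sum_equiv (Equiv.mulRight g) _ _ fun t => ?_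
    rw [Equiv.coe_mulRight]
    by_cases h1 : t * g ∈ C
    · rw [if_pos ((e3 t).2 h1), if_pos h1]
    · rw [if_neg (fun h => h1 ((e3 t).1 h)), if_neg h1]
  · rw [if_neg hc, mul_zero]
    refine Finset.sum_eq_zero fun t _ => if_neg ?_
    rintro ⟨h1, h2⟩
    apply hc
    refine ⟨t⁻¹, inv_mem h1, ?_⟩
    rw [← h2, cj_inv]

end GRM

open Classical in
/-- RCB_GRM: the Gram matrix. -/
theorem GRM_thm (h0 : Stmt_ORC) (h1 : Stmt_AIN) (h2 : Stmt_OUT) (h3 : Stmt_TIS) : Stmt_GRM := by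
  intro T _ _ 𝔐 ℓ n _ hmax hℓ χ₀ P₁ P x₀ _ C _ ψ₀ φ₀ hCf φ₁ hφ₁ hinv hfree φ hφ φ' hφ' hne hne'
  obtain ⟨-, hCS, -, -, -, horc, -, -, -⟩ := h0 T 𝔐 ℓ n hmax hℓ χ₀ P₁ P x₀ C ψ₀ φ₀ hCf
  obtain ⟨hai, -, hreg, -⟩ := h1 T 𝔐 ℓ n hmax hℓ χ₀ P₁ P x₀ C ψ₀ φ₀ hCf
  have hout := h2 T 𝔐 ℓ n hmax hℓ χ₀ P₁ P x₀ C ψ₀ φ₀ hCf
  have hcard : Nat.card P₁ = ℓ := hCf.at'.cd.c1
  -- all characters of `T`
  have s1 : ∑ χ ∈ irrF T with cen 𝔐 (MonoidHom.id T) χ = cen 𝔐 (MonoidHom.id T) χ₀,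
        (ai C χ φ - ai C χ φ₁) * (ai C χ φ' - ai C χ φ₁) =
      ∑ χ ∈ irrF T, (ai C χ φ - ai C χ φ₁) * (ai C χ φ' - ai C χ φ₁) := by
    rw [Finset.sum_filter]
    refine Finset.sum_congr rfl fun χ hχ => ?_
    split_ifs with h
    · rfl
    · rw [hout χ (mem_irrF.1 hχ) h φ hφ φ₁ hφ₁, sub_self, zero_mul]
  rw [s1]
  have t := h3 T ℓ P₁ C hcard (fun c => φ c - φ₁ c) (fun c => φ' c - φ₁ c)
    (fun c hc => sub_eq_zero.2 ((hreg φ hφ φ₁ hφ₁).2 c hc))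
    (fun c hc => sub_eq_zero.2 ((hreg φ' hφ' φ₁ hφ₁).2 c hc))
  -- the left side
  have L : ∀ χ ∈ irrF T, ip (fun c : C => χ ((c : NP P₁) : T)) (fun c => φ c - φ₁ c) *
      ip (fun c : C => χ ((c : NP P₁) : T)⁻¹) (fun c => (fun c => φ' c - φ₁ c) c⁻¹) =
      (((ai C χ φ - ai C χ φ₁) * (ai C χ φ' - ai C χ φ₁) : ℤ) : ℂ) := by
    intro χ hχ
    have iχ := mem_irrF.1 hχ
    have e1 : ip (fun c : C => χ ((c : NP P₁) : T)⁻¹) (fun c => (fun c => φ' c - φ₁ c) c⁻¹) =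
        ip (fun c : C => χ ((c : NP P₁) : T)) (fun c => φ' c - φ₁ c) :=
      GRM.ip_inv (fun c : C => χ ((c : NP P₁) : T)) (fun c => φ' c - φ₁ c)
    rw [e1, GRM.ip_sub_right, GRM.ip_sub_right, ← hai χ φ iχ hφ.1, ← hai χ φ₁ iχ hφ₁.1,
      ← hai χ φ' iχ hφ'.1]
    push_cast
    ring
  rw [Finset.sum_congr rfl L, ← Int.cast_sum] at t
  -- the right side
  have R : ∀ g : NP P₁, ip (cj C g (fun c => φ' c - φ₁ c)) (fun c => φ c - φ₁ c) =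
      if g ∈ bS 𝔐 C φ₀ then (1 + if cj C g φ' = φ then (1 : ℂ) else 0) else 0 := by
    intro g
    have e1 : cj C g (fun c => φ' c - φ₁ c) = fun c => cj C g φ' c - cj C g φ₁ c := rfl
    rw [e1, GRM.ip_sub_left, GRM.ip_sub_right, GRM.ip_sub_right]
    have i' := GRM.irr_cj hφ'.1 g
    have i1 := GRM.irr_cj hφ₁.1 g
    by_cases hg : g ∈ bS 𝔐 C φ₀
    · rw [if_pos hg, hinv g hg, ip_self hφ₁.1, ip_ne hφ₁.1 hφ.1 (Ne.symm hne)]
      have e2 : cj C g φ' ≠ φ₁ := by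
        intro h
        apply hne'
        rw [← GRM.cj_inv g φ', h]
        exact hinv _ (inv_mem hg)
      rw [ip_ne i' hφ₁.1 e2]
      by_cases hc : cj C g φ' = φ
      · rw [if_pos hc, hc, ip_self hφ.1]
        ring
      · rw [if_neg hc, ip_ne i' hφ.1 hc]
        ring
    · rw [if_neg hg]
      have n1 : ∀ φ'' ∈ II 𝔐 φ₀, ∀ φ₂ ∈ II 𝔐 φ₀, cj C g φ'' ≠ φ₂ := by
        intro φ'' h'' φ₂ h₂ h
        apply hg
        rw [← horc φ'' h'' g, h]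
        exact h₂
      rw [ip_ne i' hφ.1 (n1 φ' hφ' φ hφ), ip_ne i' hφ₁.1 (n1 φ' hφ' φ₁ hφ₁),
        ip_ne i1 hφ.1 (n1 φ₁ hφ₁ φ hφ), ip_ne i1 hφ₁.1 (n1 φ₁ hφ₁ φ₁ hφ₁)]
      ring
  rw [Finset.sum_congr rfl (fun g _ => R g),
    GRM.count hCS hφ'.1 (hfree φ' hφ' hne'), ← mul_assoc, inv_mul_cancel₀ natCard_ne_zero,
    one_mul] at t
  have t2 : ((∑ χ ∈ irrF T, (ai C χ φ - ai C χ φ₁) * (ai C χ φ' - ai C χ φ₁) : ℤ) : ℂ) =
      (((C.relIndex (bS 𝔐 C φ₀) : ℤ) + if Cjg 𝔐 C φ₀ φ φ' then 1 else 0 : ℤ) : ℂ) := by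
    rw [t]
    split_ifs <;> simp
  exact_mod_cast t2

end Pool.Agent.RCB
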