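import Mathlib
import Pool.Agent.RCB.St1

/-!
# Module RCB_INP: the alternating sums over a normal subgroup, from the local theorem
-/

set_option autoImplicit false

namespace Pool.Agent.RCB

open Pool.Agent.DP Pool.Agent.DPV Pool.Agent.DPB Pool.Agent.DPW Pool.Agent.DPX
open Pool.Agent.Lib_helper13 Representation
open Pool.Agent.Lib_helper13.Dade (pCore)

namespace INP

theorem locN_conj {G : Type} [Group G] (M : Subgroup G) [M.Normal] :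
    LocN M.subtype (MulAut.conjNormal : G →* MulAut M) (QuotientGroup.mk' M) := by
  refine ⟨⟨M.subtype_injective, fun y a => ?_, fun y => ?_⟩, QuotientGroup.mk'_surjective M⟩
  · simp
  · rw [Subgroup.range_subtype]
    exact QuotientGroup.eq_one_iff y

theorem WW_top {G : Type} [Group G] [Fintype G] (𝔐 : Ideal (integralClosure ℤ ℂ))
    (ℓ d : ℕ) (ω : G → (integralClosure ℤ ℂ) ⧸ 𝔐) :
    WW 𝔐 ℓ d ω ⊤ = (Nat.card G : ℚ) * cnt 𝔐 ℓ d (MonoidHom.id G) ω := by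
  have h1 : cnt 𝔐 ℓ d (⊤ : Subgroup G).subtype ω = cnt 𝔐 ℓ d (MonoidHom.id G) ω := by
    rw [← cnt_comp_equiv 𝔐 ℓ d (Subgroup.topEquiv (G := G))]
    rfl
  rw [WW, h1, Subgroup.card_top]

end INP

/-- RCB_INP. -/
theorem INP_thm (h1 : Pool.Agent.DPX.Stmt_DXMX) (h2 : Stmt_CHG) (h3 : Stmt_TOG) : Stmt_INP := by
  classical
  intro hL G _ _ M _ 𝔐 ℓ _ h𝔐 hℓ hℓ2 χ ξ hχ hξ hover hDX d
  obtain ⟨n, P₁, P, x₀, hAt⟩ := (h1 M 𝔐 ℓ h𝔐 hℓ ξ hξ).1 hDX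
  have hloc := INP.locN_conj M
  have hPp : IsPGroup ℓ P := IsPGroup.of_card hAt.cd.card
  have hT := h3 M G (G ⧸ M) ℓ M.subtype MulAut.conjNormal (QuotientGroup.mk' M) hloc P₁ P
    hAt.cd.le hAt.cd.cyc hPp hAt.cd.c1 (WW 𝔐 ℓ d (cen 𝔐 (MonoidHom.id G) χ))
    (fun b S => WW_conj 𝔐 ℓ d _ b S) (fun τ hτ hne => by
      have hc : cnt 𝔐 ℓ d (YS M.subtype τ).subtype (cen 𝔐 (MonoidHom.id G) χ) ≠ 0 := by
        intro h0
        apply hne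
        rw [WW, h0, Nat.cast_zero, mul_zero]
      rw [cnt] at hc
      obtain ⟨⟨ψ, hψ, -, hψ2⟩⟩ := (Nat.card_pos_iff.1 (Nat.pos_of_ne_zero hc)).1
      exact h2 M G (G ⧸ M) 𝔐 ℓ n h𝔐 hℓ M.subtype MulAut.conjNormal (QuotientGroup.mk' M) hloc χ ξ
        hχ hξ hover P₁ P x₀ hAt τ hτ ψ hψ (funext hψ2))
  have hcnt := hL M G (G ⧸ M) 𝔐 ℓ n h𝔐 hℓ hℓ2 M.subtype MulAut.conjNormal
    (QuotientGroup.mk' M) hloc χ ξ hχ hξ hover P₁ P x₀ hAt d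
  rw [INP.WW_top, hcnt] at hT
  have h4 : WW 𝔐 ℓ d (cen 𝔐 (MonoidHom.id G) χ) (YS M.subtype {P₁}) =
      (Nat.card (YS M.subtype {P₁}) : ℚ) *
        cnt 𝔐 ℓ d (YS M.subtype {P₁}).subtype (cen 𝔐 (MonoidHom.id G) χ) := rfl
  rw [h4] at hT
  have h5 : (Nat.card (YS M.subtype {P₁}) : ℚ) ≠ 0 := by exact_mod_cast Nat.card_pos.ne'
  have h6 : (Nat.card (YS M.subtype {P₁}) : ℚ) * ∑ τ ∈ Ch ℓ (⊥ : Subgroup M),
      (-1 : ℚ) ^ τ.card * WW 𝔐 ℓ d (cen 𝔐 (MonoidHom.id G) χ) (YS M.subtype τ) = 0 := by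
    rw [hT]
    ring
  exact (mul_eq_zero.mp h6).resolve_left h5

end Pool.Agent.RCB
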