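import Mathlib
import Pool.Agent.RCB.St2
import Pool.Agent.DP.CLG
import Pool.Agent.DP.StmtsR

/-!
# RCB_LCC: the characters of the normalizer over the block of `φ₀`
-/

namespace Pool.Agent.RCB

open Pool.Agent.DP Pool.Agent.DPV Pool.Agent.DPB Pool.Agent.DPW Pool.Agent.DPX
open Pool.Agent.Lib_helper13 Representation

namespace LCC

/-- The irreducible characters of a cyclic group have degree one. -/
theorem one_of_cyc {K : Type} [Group K] (hc : IsCyclic K) {η : K → ℂ} (h : IsIrr η) :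
    η 1 = 1 := by
  obtain ⟨n, τ, hτ, rfl⟩ := h
  let _ : CommGroup K := IsCyclic.commGroup
  have : IsMulCommutative K := ⟨⟨fun a b => mul_comm a b⟩⟩
  have h1 := Representation.IsIrreducible.finrank_eq_one_of_isMulCommutative τ
  rw [Representation.char_one, h1, Nat.cast_one]

theorem card_irr_cyc {K : Type} [Group K] [Fintype K] (hc : IsCyclic K) :
    (irrF K).card = Nat.card K := by
  have h1 := sum_sq (Y := K)
  have h2 : ∑ χ ∈ irrF K, χ 1 * χ 1 = ((irrF K).card : ℂ) := by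
    rw [Finset.sum_congr rfl (fun χ hχ => by
      rw [one_of_cyc hc (mem_irrF.mp hχ), mul_one])]
    simp
  rw [h2] at h1
  exact_mod_cast h1

open Classical in
/-- Clifford theory over a normal subgroup with cyclic quotient. -/
theorem cyc (h3 : Stmt_SUMM) (h4 : Stmt_CCOR) (h5 : Stmt_GALL) (h6 : Stmt_EXTC)
    {A Y K : Type} [Group A] [Fintype A] [Group Y] [Fintype Y] [Group K] [Finite K]
    {j : A →* Y} {c : Y →* MulAut A} {p : Y →* K} (hj : ClG j c p) (hK : IsCyclic K)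
    {θ : A → ℂ} (hθ : IsIrr θ) :
    (∀ χ : Y → ℂ, IsIrr χ → ip (resj j χ) θ ≠ 0 → ip (resj j χ) θ = 1) ∧
      Nat.card {χ : Y → ℂ // IsIrr χ ∧ ip (resj j χ) θ ≠ 0} * Nat.card A =
        Nat.card (inert c θ) := by
  have hA0 : (Nat.card A : ℂ) ≠ 0 := natCard_ne_zero
  set M : Subgroup K := (inert c θ).map p with hM
  have iS : Fintype (inert c θ) := Fintype.ofFinite _
  have iM : Fintype M := Fintype.ofFinite _
  have hcM : IsCyclic M := Subgroup.isCyclic M
  have hmap : (inert c θ).map p = M := rfl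
  -- the extension
  obtain ⟨E, hE, hEθ⟩ := h6 A (inert c θ) M (CLG.jS hj hθ) (c.comp (inert c θ).subtype)
    (CLG.qS hmap) (CLG.clG_S hj hθ hmap) (CLG.qS_surj hmap) hcM θ hθ (fun y a => y.2 a)
  obtain ⟨g1, g2, -⟩ := h5 A (inert c θ) M (CLG.jS hj hθ) (c.comp (inert c θ).subtype)
    (CLG.qS hmap) (CLG.clG_S hj hθ hmap) (CLG.qS_surj hmap) θ E hθ hE.isChr hEθ
  obtain ⟨c1, c2, -⟩ := h4 A Y K j c p hj θ hθ
  have hext : ∀ ψ : inert c θ → ℂ, (fun a => ext0 ψ (j a)) = resj (CLG.jS hj hθ) ψ := by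
    intro ψ
    funext a
    rw [ext0_of_mem ψ (CLG.j_mem hj hθ a)]
    rfl
  -- the injection
  set F : Finset (Y → ℂ) := (irrF Y).filter (fun χ => ip (resj j χ) θ ≠ 0) with hF
  have hcard : Nat.card M ≤ F.card := by
    rw [← card_irr_cyc hcM]
    refine Finset.card_le_card_of_injOn
      (fun η => indc (inert c θ) (fun y => E y * η (CLG.qS hmap y))) ?_ ?_
    · intro η hη
      have hη' : IsIrr η := mem_irrF.mp (Finset.mem_coe.mp hη)
      obtain ⟨a1, a2⟩ := g1 η hη'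
      obtain ⟨b1, b2⟩ := c1 _ a1 (by rw [hext]; exact a2)
      exact Finset.mem_coe.mpr (Finset.mem_filter.mpr ⟨mem_irrF.mpr b1, b2⟩)
    · intro η hη η' hη' he
      have i1 : IsIrr η := mem_irrF.mp (Finset.mem_coe.mp hη)
      have i2 : IsIrr η' := mem_irrF.mp (Finset.mem_coe.mp hη')
      obtain ⟨a1, a2⟩ := g1 η i1
      obtain ⟨a1', a2'⟩ := g1 η' i2
      exact g2 η η' i1 i2 (c2 _ _ a1 a1' (by rw [hext]; exact a2) (by rw [hext]; exact a2') he)
  -- the order of the inertia group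
  have hord : Nat.card (inert c θ) = Nat.card A * Nat.card M := by
    have e1 := Subgroup.card_mul_index (CLG.qS hmap).ker
    rw [Subgroup.index_ker] at e1
    have e2 : (CLG.qS hmap).range = ⊤ :=
      MonoidHom.range_eq_top.mpr (CLG.qS_surj hmap)
    have e3 : (CLG.qS hmap).ker = (CLG.jS hj hθ).range := by
      ext y
      rw [MonoidHom.mem_ker]
      exact (CLG.clG_S hj hθ hmap).ker y
    have e4 : Nat.card (CLG.jS hj hθ).range = Nat.card A :=
      (Nat.card_congr (MonoidHom.ofInjective (CLG.clG_S hj hθ hmap).inj).toEquiv).symm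
    rw [e2, Subgroup.card_top, e3, e4] at e1
    exact e1.symm
  -- the multiplicities
  have hm : ∀ χ : Y → ℂ, ∃ k : ℕ, IsIrr χ → ip (resj j χ) θ = k := by
    intro χ
    by_cases hχ : IsIrr χ
    · obtain ⟨k, hk⟩ := (hχ.resj j).exists_ip hθ.isChr
      exact ⟨k, fun _ => hk⟩
    · exact ⟨0, fun h => absurd h hχ⟩
  choose k hk using hm
  have hsum : ∑ χ ∈ F, k χ * k χ = Nat.card M := by
    have s1 := (h3 A Y K j c p hj).1 θ θ hθ hθ
    have s2 : (Nat.card {y : Y // ∀ a, θ (c y a) = θ a} : ℂ) =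
        (Nat.card A : ℂ) * (Nat.card M : ℂ) := by
      have : Nat.card {y : Y // ∀ a, θ (c y a) = θ a} = Nat.card (inert c θ) := rfl
      rw [this, hord]
      push_cast
      rfl
    rw [s2] at s1
    have s3 := mul_left_cancel₀ hA0 s1
    have s4 : ∑ χ ∈ irrF Y, ip (resj j χ) θ * ip (resj j χ) θ =
        ∑ χ ∈ F, ip (resj j χ) θ * ip (resj j χ) θ := by
      rw [hF, Finset.sum_filter]
      refine Finset.sum_congr rfl fun χ _ => ?_
      split_ifs with h
      · rfl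
      · push Not at h
        rw [h, mul_zero]
    rw [s4] at s3
    have s5 : ∑ χ ∈ F, ip (resj j χ) θ * ip (resj j χ) θ = ((∑ χ ∈ F, k χ * k χ : ℕ) : ℂ) := by
      push_cast
      refine Finset.sum_congr rfl fun χ hχ => ?_
      rw [hk χ (mem_irrF.mp (Finset.mem_filter.mp hχ).1)]
    rw [s5] at s3
    exact_mod_cast s3
  have hk1 : ∀ χ ∈ F, 1 ≤ k χ * k χ := by
    intro χ hχ
    obtain ⟨h1, h2⟩ := Finset.mem_filter.mp hχ
    have h7 : k χ ≠ 0 := by
      intro h0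
      apply h2
      rw [hk χ (mem_irrF.mp h1), h0, Nat.cast_zero]
    exact Nat.one_le_iff_ne_zero.mpr (mul_ne_zero h7 h7)
  have hle : F.card ≤ ∑ χ ∈ F, k χ * k χ := by
    rw [Finset.card_eq_sum_ones]
    exact Finset.sum_le_sum hk1
  have hFc : F.card = Nat.card M := by omega
  have heq : ∀ χ ∈ F, 1 = k χ * k χ := by
    refine (Finset.sum_eq_sum_iff_of_le hk1).mp ?_
    rw [← Finset.card_eq_sum_ones, hsum, hFc]
  refine ⟨fun χ h1 h2 => ?_, ?_⟩
  · have h7 := heq χ (Finset.mem_filter.mpr ⟨mem_irrF.mpr h1, h2⟩)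
    have h8 : k χ = 1 := Nat.eq_one_of_mul_eq_one_right h7.symm
    rw [hk χ h1, h8, Nat.cast_one]
  · have h7 : Nat.card {χ : Y → ℂ // IsIrr χ ∧ ip (resj j χ) θ ≠ 0} = F.card := by
      have h8 : Nat.card {χ : Y → ℂ // χ ∈ F} = F.card := by
        rw [Nat.card_eq_fintype_card, Fintype.card_coe]
      rw [← h8]
      refine Nat.card_congr (Equiv.subtypeEquivRight fun χ => ?_)
      rw [hF, Finset.mem_filter, mem_irrF]
    rw [h7, hFc, hord, mul_comm]

/-- The data of Clifford theory for a normal subgroup. -/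
theorem clN {N : Type} [Group N] (C : Subgroup N) [C.Normal] :
    ClG C.subtype (MulAut.conjNormal : N →* MulAut C) (QuotientGroup.mk' C) where
  inj := Subtype.val_injective
  act := fun y a => MulAut.conjNormal_apply y a
  ker := by
    intro y
    rw [Subgroup.range_subtype]
    exact QuotientGroup.eq_one_iff y

theorem cj_one {N : Type} [Group N] (C : Subgroup N) [C.Normal] (φ : C → ℂ) : cj C 1 φ = φ := by
  funext c
  unfold cj
  rw [map_one, MulAut.one_apply]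

theorem relIndex_mul {N : Type} [Group N] {C S : Subgroup N} (h : C ≤ S) :
    C.relIndex S * Nat.card C = Nat.card S := by
  have h1 := Subgroup.index_mul_card (C.subgroupOf S)
  rw [Nat.card_congr (Subgroup.subgroupOfEquivOfLe h).toEquiv] at h1
  exact h1

end LCC

open LCC in
theorem LCC_thm (h0 : Stmt_ORC) (h1 : Stmt_ATNX) (h2 : Stmt_ORBX) (h3 : Stmt_SUMM)
    (h4 : Stmt_CCOR) (h5 : Stmt_GALL) (h6 : Stmt_EXTC) : Stmt_LCC := by
  intro T _ _ 𝔐 ℓ n _ hM hℓ χ₀ P₁ P x₀ _ C _ ψ₀ φ₀ hcf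
  obtain ⟨-, hCS, -, -, -, hst, -, ⟨s, hs⟩, φ₁, hφ₁, hinv, hun⟩ :=
    h0 T 𝔐 ℓ n hM hℓ χ₀ P₁ P x₀ C ψ₀ φ₀ hcf
  have hx : x₀ ∈ Subgroup.normalizer (P₁ : Set T) := by
    rw [Subgroup.mem_normalizer_iff]
    intro u
    have key : ∀ v ∈ P₁, x₀ * v * x₀⁻¹ = v := fun v hv => by
      rw [← hcf.at'.cd.cen v (hcf.at'.cd.le hv), mul_inv_cancel_right]
    constructor
    · intro hu
      rw [key u hu]
      exact hu
    · intro hu
      have h7 := key _ hu
      have h8 : x₀ * u * x₀⁻¹ = u := by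
        have h9 : x₀ * (x₀ * u * x₀⁻¹) * x₀⁻¹ = x₀ * u * x₀⁻¹ := h7
        have h10 := mul_right_cancel h9
        exact mul_left_cancel h10
      rwa [h8] at hu
  obtain ⟨-, hatn⟩ := h1 T 𝔐 ℓ n hM hℓ χ₀ hcf.irr P₁ P x₀ hcf.at' hx ψ₀ hcf.irn hcf.cn
  have hc1 : Nat.card (P₁.subgroupOf (Subgroup.normalizer (P₁ : Set T))) = ℓ := by
    rw [← hcf.at'.cd.c1]
    exact Nat.card_congr (Subgroup.subgroupOfEquivOfLe Subgroup.le_normalizer).toEquiv
  obtain ⟨horb, hcjI⟩ := h2 (NP P₁) 𝔐 ℓ hM hℓ (P₁.subgroupOf (Subgroup.normalizer (P₁ : Set T)))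
    hc1 C hcf.hC ψ₀ hcf.irn φ₀ hcf.irc hcf.ov
  obtain ⟨-, hs2, hs3, -⟩ := h3 C (NP P₁) (NP P₁ ⧸ C) C.subtype MulAut.conjNormal
    (QuotientGroup.mk' C) (clN C)
  have hcyc : IsCyclic (NP P₁ ⧸ C) := by
    refine ⟨⟨QuotientGroup.mk' C s, fun x => ?_⟩⟩
    obtain ⟨g, rfl⟩ := QuotientGroup.mk'_surjective C x
    obtain ⟨k, hk⟩ := hs g
    refine ⟨-k, ?_⟩
    have h7 : QuotientGroup.mk' C (g * s ^ k) = 1 := (QuotientGroup.eq_one_iff _).mpr hk
    rw [map_mul, map_zpow] at h7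
    change QuotientGroup.mk' C s ^ (-k) = QuotientGroup.mk' C g
    rw [zpow_neg]
    exact (eq_inv_of_mul_eq_one_left h7).symm
  have hcliff := fun (φ : C → ℂ) (hφ : IsIrr φ) =>
    cyc h3 h4 h5 h6 (clN C) hcyc hφ
  refine ⟨?_, ?_, ?_, ?_, ?_, ?_⟩
  · intro ψ hψ φ hφ hne
    rw [← hatn ψ hψ, horb ψ φ hψ hφ.1 hne]
    refine ⟨1, ?_⟩
    have h7 : (fun c => φ (MulAut.conjNormal (1 : NP P₁) c)) = φ := cj_one C φ
    rw [h7]
    exact hφ.2
  · intro ψ hψ hcen
    obtain ⟨φ, hφ, hne⟩ := CLG.exists_under C.subtype hψ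
    have h7 := (hatn ψ hψ).mpr hcen
    rw [horb ψ φ hψ hφ hne] at h7
    obtain ⟨g, hg⟩ := h7
    refine ⟨cj C g φ, ⟨(hcjI φ g hφ).1, hg⟩, ?_⟩
    have h8 := hs3 φ ψ g hψ
    change ip (resj C.subtype ψ) (fun a => φ (MulAut.conjNormal g a)) ≠ 0
    rw [h8]
    exact hne
  · intro ψ hψ φ hφ φ' hφ' hne hne'
    obtain ⟨y, hy⟩ := hs2 φ φ' ψ hφ.1 hφ'.1 hψ hne hne'
    have h7 : φ' = cj C y φ := (funext hy).symm
    exact ⟨y, (hst φ hφ y).mp (h7 ▸ hφ'), h7⟩
  · intro ψ g φ hψ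
    exact hs3 φ ψ g hψ
  · intro ψ hψ φ hφ hne
    exact (hcliff φ hφ.1).1 ψ hψ hne
  · intro φ hφ
    obtain ⟨-, hcard⟩ := hcliff φ hφ.1
    have hC0 : 0 < Nat.card C := Nat.card_pos
    have hcard' : Nat.card {ψ : NP P₁ → ℂ // IsIrr ψ ∧ ip (fun c : C => ψ c) φ ≠ 0} *
        Nat.card C = Nat.card (inert (MulAut.conjNormal : NP P₁ →* MulAut C) φ) := hcard
    have hsub : ∀ g : NP P₁, cj C g φ = φ → g ∈ bS 𝔐 C φ₀ := fun g hg =>
      (hst φ hφ g).mp (hg.symm ▸ hφ)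
    constructor
    · intro hall
      have h7 : inert (MulAut.conjNormal : NP P₁ →* MulAut C) φ = bS 𝔐 C φ₀ := by
        ext g
        constructor
        · intro hg
          exact hsub g (funext hg)
        · intro hg a
          exact congrFun (hall g hg) a
      rw [h7, ← relIndex_mul hCS] at hcard'
      exact Nat.eq_of_mul_eq_mul_right hC0 hcard'
    · intro hnall
      have hne1 : φ ≠ φ₁ := by
        rintro rfl
        exact hnall hinv
      have h7 : inert (MulAut.conjNormal : NP P₁ →* MulAut C) φ = C := by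
        ext g
        constructor
        · intro hg
          exact hun φ hφ hne1 g (hsub g (funext hg)) (funext hg)
        · intro hg
          exact CLG.j_mem (clN C) hφ.1 ⟨g, hg⟩
      rw [h7] at hcard'
      exact Nat.eq_of_mul_eq_mul_right hC0 (by rw [hcard', one_mul])

end Pool.Agent.RCB
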