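import Pool.Agent.RCB.St2

/-!
# RCB_LML: Lemma L of PAPER.md (pure combinatorics of integer matrices)
-/

namespace Pool.Agent.RCB

open Classical in
/-- The sum of the squares of the differences of two columns is `2`. -/
theorem lml_diff {X S : Type} [Fintype X] [Fintype S] (e : ℕ) (v : X → S → ℤ)
    (h2 : ∀ s s', ∑ x, v x s * v x s' = (e : ℤ) + if s = s' then 1 else 0)
    {s s' : S} (hs : s ≠ s') : ∑ x, (v x s - v x s') ^ 2 = 2 := by
  have e1 : ∑ x, (v x s - v x s') ^ 2
      = ∑ x, v x s * v x s - 2 * ∑ x, v x s * v x s' + ∑ x, v x s' * v x s' := by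
    rw [Finset.mul_sum, ← Finset.sum_sub_distrib, ← Finset.sum_add_distrib]
    exact Finset.sum_congr rfl fun x _ => by ring
  rw [e1, h2, h2, h2]
  simp [hs]
  ring

open Classical in
theorem lml_all {X S : Type} [Fintype X] [Fintype S] (e r : ℕ) (hS : Fintype.card S = r)
    (v : X → S → ℤ)
    (h2 : ∀ s s', ∑ x, v x s * v x s' = (e : ℤ) + if s = s' then 1 else 0) :
    ∑ x, ∑ s, ∑ s', (v x s - v x s') ^ 2 = 2 * (r : ℤ) * ((r : ℤ) - 1) := by
  have e1 : ∑ x, ∑ s, ∑ s', (v x s - v x s') ^ 2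
      = ∑ s, ∑ s', ∑ x, (v x s - v x s') ^ 2 := by
    rw [Finset.sum_comm]
    refine Finset.sum_congr rfl fun s _ => ?_
    rw [Finset.sum_comm]
  rw [e1]
  have e2 : ∀ s : S, ∑ s', ∑ x, (v x s - v x s') ^ 2 = 2 * ((r : ℤ) - 1) := by
    intro s
    have e3 : ∀ s' : S, ∑ x, (v x s - v x s') ^ 2 = 2 - if s = s' then 2 else 0 := by
      intro s'
      by_cases hs : s = s'
      · subst hs
        simp
      · rw [lml_diff e v h2 hs]
        simp [hs]
    rw [Finset.sum_congr rfl fun s' _ => e3 s', Finset.sum_sub_distrib]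
    simp [hS]
    ring
  rw [Finset.sum_congr rfl fun s _ => e2 s]
  simp [hS]
  ring

open Classical in
/-- A nonconstant row separates at least `r - 1` pairs. -/
theorem lml_row {S : Type} [Fintype S] (r : ℕ) (hS : Fintype.card S = r) (w : S → ℤ)
    (s₀ s₁ : S) (h : w s₀ ≠ w s₁) :
    2 * ((r : ℤ) - 1) ≤ ∑ s, ∑ s', (w s - w s') ^ 2 := by
  have hne : s₀ ≠ s₁ := fun h' => h (by rw [h'])
  have hone : ∀ s : S, 1 ≤ (w s - w s₀) ^ 2 + (w s - w s₁) ^ 2 := by
    intro s
    by_contra hc
    have h0 : (w s - w s₀) ^ 2 + (w s - w s₁) ^ 2 = 0 := by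
      have := sq_nonneg (w s - w s₀)
      have := sq_nonneg (w s - w s₁)
      omega
    have ha : (w s - w s₀) ^ 2 = 0 := by
      have := sq_nonneg (w s - w s₀)
      have := sq_nonneg (w s - w s₁)
      omega
    have hb : (w s - w s₁) ^ 2 = 0 := by
      have := sq_nonneg (w s - w s₀)
      have := sq_nonneg (w s - w s₁)
      omega
    have ha' : w s - w s₀ = 0 := by simpa using ha
    have hb' : w s - w s₁ = 0 := by simpa using hb
    exact h (by omega)
  have hsplit : ∑ s, ∑ s', (w s - w s') ^ 2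
      = ∑ s ∈ (Finset.univ \ {s₀, s₁} : Finset S), ∑ s', (w s - w s') ^ 2
        + ∑ s ∈ ({s₀, s₁} : Finset S), ∑ s', (w s - w s') ^ 2 :=
    (Finset.sum_sdiff (Finset.subset_univ _)).symm
  rw [hsplit, Finset.sum_pair hne, ← Finset.sum_add_distrib]
  have hA : ((r : ℤ) - 2) ≤ ∑ s ∈ (Finset.univ \ {s₀, s₁} : Finset S), ∑ s', (w s - w s') ^ 2 := by
    have hcard : (Finset.univ \ {s₀, s₁} : Finset S).card = r - 2 := by
      rw [Finset.card_sdiff_of_subset (Finset.subset_univ _), Finset.card_pair hne,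
        Finset.card_univ, hS]
    have h1 : ∀ s ∈ (Finset.univ \ {s₀, s₁} : Finset S), (1 : ℤ) ≤ ∑ s', (w s - w s') ^ 2 := by
      intro s _
      refine (hone s).trans ?_
      rw [← Finset.sum_pair (f := fun s' => (w s - w s') ^ 2) hne]
      exact Finset.sum_le_univ_sum_of_nonneg fun s' => sq_nonneg _
    have h2 := Finset.card_nsmul_le_sum _ _ _ h1
    rw [hcard] at h2
    simp only [nsmul_eq_mul, mul_one] at h2
    omega
  have hB : (r : ℤ) ≤ ∑ s', ((w s₀ - w s') ^ 2 + (w s₁ - w s') ^ 2) := by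
    have h1 : ∀ s' ∈ (Finset.univ : Finset S),
        (1 : ℤ) ≤ (w s₀ - w s') ^ 2 + (w s₁ - w s') ^ 2 := by
      intro s' _
      refine (hone s').trans (le_of_eq ?_)
      ring
    have h2 := Finset.card_nsmul_le_sum _ _ _ h1
    rw [Finset.card_univ, hS] at h2
    simpa using h2
  linarith

open Classical in
theorem LML_thm : Stmt_LML := by
  intro X S _ _ e r hS hX hr v h1 h2
  obtain ⟨s₀⟩ : Nonempty S := by
    rw [← Fintype.card_pos_iff]
    omega
  -- the constant rows
  set K : Finset X := Finset.univ.filter fun x => ∀ s s', v x s = v x s' with hK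
  have hKc : ∀ x ∈ K, ∀ s s', v x s = v x s' := fun x hx => (Finset.mem_filter.mp hx).2
  have hNc : ∀ x, x ∉ K → ∃ s s', v x s ≠ v x s' := by
    intro x hx
    by_contra hc
    push Not at hc
    exact hx (Finset.mem_filter.mpr ⟨Finset.mem_univ _, hc⟩)
  have hsq : ∀ s, ∑ x, v x s ^ 2 = (e : ℤ) + 1 := by
    intro s
    have := h2 s s
    simp only [if_true] at this
    rw [← this]
    exact Finset.sum_congr rfl fun x _ => by ring
  -- at most `r` nonconstant rows
  have hN : (Finset.univ \ K).card ≤ r := by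
    have hb : ∀ x ∈ Finset.univ \ K, 2 * ((r : ℤ) - 1) ≤ ∑ s, ∑ s', (v x s - v x s') ^ 2 := by
      intro x hx
      obtain ⟨s, s', hs⟩ := hNc x (Finset.mem_sdiff.mp hx).2
      exact lml_row r hS (v x) s s' hs
    have h3 := Finset.card_nsmul_le_sum _ _ _ hb
    have h4 : ∑ x ∈ Finset.univ \ K, ∑ s, ∑ s', (v x s - v x s') ^ 2
        ≤ ∑ x, ∑ s, ∑ s', (v x s - v x s') ^ 2 :=
      Finset.sum_le_sum_of_subset_of_nonneg (Finset.subset_univ _) fun x _ _ =>
        Finset.sum_nonneg fun s _ => Finset.sum_nonneg fun s' _ => sq_nonneg _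
    rw [lml_all e r hS v h2] at h4
    rw [nsmul_eq_mul] at h3
    have h5 : ((Finset.univ \ K).card : ℤ) * (2 * ((r : ℤ) - 1)) ≤ r * (2 * ((r : ℤ) - 1)) := by
      refine h3.trans (h4.trans (le_of_eq ?_))
      ring
    have h6 : (0 : ℤ) < 2 * ((r : ℤ) - 1) := by
      have : (2 : ℤ) ≤ r := by exact_mod_cast hr
      linarith
    exact_mod_cast le_of_mul_le_mul_right h5 h6
  have hcard : (Finset.univ \ K).card + K.card = e + r := by
    rw [Finset.card_sdiff_add_card_eq_card (Finset.subset_univ _), Finset.card_univ, hX]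
  have hKe : e ≤ K.card := by omega
  -- squares of the values of the constant rows
  have hone : ∀ x ∈ K, ∀ s, (1 : ℤ) ≤ v x s ^ 2 := by
    intro x hx s
    obtain ⟨s', hs'⟩ := h1 x
    have h3 : v x s ≠ 0 := by
      rw [hKc x hx s s']
      exact hs'
    have := pow_pos (abs_pos.mpr h3) 2
    rw [sq_abs] at this
    omega
  have hsplit : ∀ s, ∑ x ∈ Finset.univ \ K, v x s ^ 2 + ∑ x ∈ K, v x s ^ 2 = (e : ℤ) + 1 := by
    intro s
    rw [Finset.sum_sdiff (Finset.subset_univ _), hsq]
  have hKs : ∀ s, (K.card : ℤ) ≤ ∑ x ∈ K, v x s ^ 2 := by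
    intro s
    have := Finset.card_nsmul_le_sum K (fun x => v x s ^ 2) 1 fun x hx => hone x hx s
    simpa using this
  have hNs : ∀ s, 0 ≤ ∑ x ∈ Finset.univ \ K, v x s ^ 2 := fun s =>
    Finset.sum_nonneg fun x _ => sq_nonneg _
  have hKe' : K.card = e := by
    have h3 : K.card ≤ e + 1 := by
      have a := hsplit s₀
      have b := hKs s₀
      have c := hNs s₀
      omega
    by_contra hne
    have h4 : K.card = e + 1 := by omega
    have h5 : 0 < (Finset.univ \ K).card := by omega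
    obtain ⟨x, hx⟩ := Finset.card_pos.mp h5
    obtain ⟨s, hs⟩ := h1 x
    have a := hsplit s
    have b := hKs s
    have c := hNs s
    have d : ∑ x ∈ Finset.univ \ K, v x s ^ 2 = 0 := by omega
    have d' := (Finset.sum_eq_zero_iff_of_nonneg fun x _ => sq_nonneg (v x s)).mp d x hx
    exact hs (by simpa using d')
  -- the constant rows are `± 1`
  have hpm : ∀ x ∈ K, ∀ s, v x s ^ 2 = 1 := by
    intro x hx s
    by_contra hc
    have h3 := hone x hx s
    have h4 : 4 ≤ v x s ^ 2 := by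
      have h5 : 1 < v x s ^ 2 := lt_of_le_of_ne h3 (Ne.symm hc)
      have h6 : 1 < |v x s| := by
        by_contra h7
        push Not at h7
        have h8 : |v x s| ^ 2 ≤ 1 := pow_le_one₀ (abs_nonneg _) h7
        rw [sq_abs] at h8
        omega
      have h9 : 2 ≤ |v x s| := h6
      calc (4 : ℤ) = 2 ^ 2 := by norm_num
        _ ≤ |v x s| ^ 2 := pow_le_pow_left₀ (by norm_num) h9 2
        _ = v x s ^ 2 := sq_abs _
    have h5 : ∑ y ∈ K, v y s ^ 2 = ∑ y ∈ K.erase x, v y s ^ 2 + v x s ^ 2 :=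
      (Finset.sum_erase_add K (fun y => v y s ^ 2) hx).symm
    have h6 : ((K.erase x).card : ℤ) ≤ ∑ y ∈ K.erase x, v y s ^ 2 := by
      have := Finset.card_nsmul_le_sum (K.erase x) (fun y => v y s ^ 2) 1
        fun y hy => hone y (Finset.mem_of_mem_erase hy) s
      simpa using this
    have h7 : (K.erase x).card = e - 1 := by rw [Finset.card_erase_of_mem hx, hKe']
    have h8 : 0 < e := by
      rw [← hKe']
      exact Finset.card_pos.mpr ⟨x, hx⟩
    have a := hsplit s
    have c := hNs s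
    omega
  have hcol : ∀ s, ∑ x ∈ Finset.univ \ K, v x s ^ 2 = 1 := by
    intro s
    have a := hsplit s
    have b : ∑ x ∈ K, v x s ^ 2 = e := by
      rw [Finset.sum_congr rfl fun x hx => hpm x hx s]
      simp [hKe']
    omega
  -- exactly one nonzero entry outside of `K` in every column
  have hg : ∀ s, ∃ x, x ∉ K ∧ v x s ^ 2 = 1 ∧ ∀ y, y ∉ K → v y s ≠ 0 → y = x := by
    intro s
    have h3 : ∃ x ∈ Finset.univ \ K, v x s ≠ 0 := by
      by_contra hc
      push Not at hc
      have := hcol s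
      rw [Finset.sum_congr rfl fun x hx => by rw [hc x hx]] at this
      simp at this
    obtain ⟨x, hx, hxs⟩ := h3
    have hx' := (Finset.mem_sdiff.mp hx).2
    have h4 : ∑ y ∈ Finset.univ \ K, v y s ^ 2
        = ∑ y ∈ (Finset.univ \ K).erase x, v y s ^ 2 + v x s ^ 2 :=
      (Finset.sum_erase_add _ (fun y => v y s ^ 2) hx).symm
    have h5 : 0 ≤ ∑ y ∈ (Finset.univ \ K).erase x, v y s ^ 2 :=
      Finset.sum_nonneg fun y _ => sq_nonneg _
    have h6 : 1 ≤ v x s ^ 2 := by
      have := pow_pos (abs_pos.mpr hxs) 2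
      rw [sq_abs] at this
      omega
    have h7 := hcol s
    have h8 : ∑ y ∈ (Finset.univ \ K).erase x, v y s ^ 2 = 0 := by omega
    refine ⟨x, hx', by omega, fun y hy hys => ?_⟩
    by_contra hyx
    have := (Finset.sum_eq_zero_iff_of_nonneg fun y _ => sq_nonneg (v y s)).mp h8 y
      (Finset.mem_erase.mpr ⟨hyx, Finset.mem_sdiff.mpr ⟨Finset.mem_univ _, hy⟩⟩)
    exact hys (by simpa using this)
  choose g hgK hg1 hgu using hg
  choose f hf using h1
  have hgf : ∀ x, x ∉ K → g (f x) = x := fun x hx => (hgu (f x) x hx (hf x)).symm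
  have hginj : Function.Injective g := by
    let G : S → {x // x ∉ K} := fun s => ⟨g s, hgK s⟩
    have hGs : Function.Surjective G := fun x => ⟨f x.1, Subtype.ext (hgf x.1 x.2)⟩
    have hc : Fintype.card S = Fintype.card {x // x ∉ K} := by
      have : Fintype.card {x // x ∉ K} = (Finset.univ \ K).card := by
        rw [Fintype.card_of_subtype]
        intro x
        simp
      omega
    have hG : Function.Bijective G := (Fintype.bijective_iff_surjective_and_card G).mpr ⟨hGs, hc⟩
    intro s s' hss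
    exact hG.1 (Subtype.ext hss)
  have hpm' : ∀ a : ℤ, a ^ 2 = 1 → a = 1 ∨ a = -1 := by
    intro a ha
    have h3 : (a - 1) * (a + 1) = 0 := by linear_combination ha
    rcases mul_eq_zero.mp h3 with h4 | h4
    · left
      omega
    · right
      omega
  refine ⟨K, f, hKe', fun x hx => ⟨v x s₀, hpm' _ (hpm x hx s₀), fun s => hKc x hx s s₀⟩,
    fun x hx => ⟨v x (f x), ?_, fun s => ?_⟩, fun s => ⟨g s, ⟨hgK s, ?_⟩, ?_⟩⟩
  · apply hpm'
    have := hg1 (f x)
    rwa [hgf x hx] at this
  · by_cases hs : s = f x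
    · simp [hs]
    · rw [if_neg hs]
      by_contra hc
      have h3 := hgu s x hx hc
      exact hs (hginj (by rw [← h3, hgf x hx]))
  · exact hginj (hgf (g s) (hgK s))
  · rintro y ⟨hy, hys⟩
    rw [← hgf y hy, hys]

end Pool.Agent.RCB
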