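import Mathlib
import Pool.Agent.RCB.St2
import Pool.Agent.DP.EXTAR
import Pool.Agent.DP.LKB

set_option linter.unusedSectionVars false
set_option linter.unusedVariables false

/-!
# RCB_LSP, part A: the action on the characters over an invariant character
-/

namespace Pool.Agent.RCB.LSP

open Pool.Agent.DP Pool.Agent.DPV Pool.Agent.DPB Pool.Agent.DPW Pool.Agent.DPX
open Pool.Agent.Lib_helper13 Representation

section Abs

variable {N : Type} [Group N] [Fintype N] (D : Subgroup N) [D.Normal]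

/-- The standard Clifford situation for a normal subgroup. -/
theorem clG_N : ClG D.subtype (MulAut.conjNormal (H := D)) (QuotientGroup.mk' D) where
  inj := Subgroup.subtype_injective D
  act := fun _ _ => rfl
  ker := by
    intro y
    rw [QuotientGroup.mk'_apply, QuotientGroup.eq_one_iff, Subgroup.range_subtype]

variable (S : Subgroup N) (hDS : D ≤ S)

theorem clG_S : ClG (Subgroup.inclusion hDS) ((MulAut.conjNormal (H := D)).comp S.subtype)
    (QuotientGroup.mk' (D.subgroupOf S)) where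
  inj := Subgroup.inclusion_injective hDS
  act := fun _ _ => rfl
  ker := by
    intro y
    rw [QuotientGroup.mk'_apply, QuotientGroup.eq_one_iff, Subgroup.mem_subgroupOf]
    constructor
    · intro hy
      exact ⟨⟨y, hy⟩, rfl⟩
    · rintro ⟨a, rfl⟩
      exact a.2

theorem cyc_S (hcyc : ∃ s ∈ S, ∀ g ∈ S, ∃ k : ℤ, g * s ^ k ∈ D) :
    IsCyclic (S ⧸ D.subgroupOf S) := by
  obtain ⟨s, hs, h⟩ := hcyc
  refine ⟨⟨QuotientGroup.mk (⟨s, hs⟩ : S), ?_⟩⟩
  intro x
  obtain ⟨g, rfl⟩ := QuotientGroup.mk_surjective x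
  obtain ⟨k, hk⟩ := h (g : N) g.2
  refine ⟨-k, ?_⟩
  change (QuotientGroup.mk (⟨s, hs⟩ : S) : S ⧸ D.subgroupOf S) ^ (-k) = _
  rw [← QuotientGroup.mk_zpow, QuotientGroup.eq, Subgroup.mem_subgroupOf]
  have h1 : (((⟨s, hs⟩ : S) ^ (-k))⁻¹ * g : S) = (⟨s, hs⟩ : S) ^ k * g := by
    rw [zpow_neg, inv_inv]
  rw [h1]
  have h2 : (((⟨s, hs⟩ : S) ^ k * g : S) : N) = (g : N)⁻¹ * ((g : N) * s ^ k) * (g : N) := by
    push_cast
    group
  rw [h2]
  have h3 := (inferInstance : D.Normal).conj_mem _ hk (g : N)⁻¹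
  rwa [inv_inv] at h3

/-- The action on the characters over `φ` is by translations. -/
theorem torsor (hCC : Stmt_CCOR) (hGA : Stmt_GALL) (hEX : Stmt_EXTC) {J : Type} [Group J]
    (φ : D → ℂ) (hφ : IsIrr φ) (hDS : D ≤ inert (MulAut.conjNormal (H := D)) φ)
    (hcyc : ∃ s ∈ inert (MulAut.conjNormal (H := D)) φ,
      ∀ g ∈ inert (MulAut.conjNormal (H := D)) φ, ∃ k : ℤ, g * s ^ k ∈ D)
    (α : J →* MulAut N) (hD : ∀ b, ∀ c ∈ D, α b c ∈ D)
    (hφα : ∀ b (c : D), φ ⟨α b c, hD b c c.2⟩ = φ c)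
    (htr : ∀ b, ∀ s ∈ inert (MulAut.conjNormal (H := D)) φ, s⁻¹ * α b s ∈ D) :
    ∃ μ : J →* ℂˣ, ∀ ψ : N → ℂ, IsIrr ψ → ip (fun c : D => ψ c) φ ≠ 0 → ∀ b,
      (fun n => ψ (α b n)) = ψ ↔ μ b = 1 := by
  classical
  obtain ⟨S, hS⟩ : ∃ S : Subgroup N, S = inert (MulAut.conjNormal (H := D)) φ := ⟨_, rfl⟩
  have hL : IsCyclic (S ⧸ D.subgroupOf S) := cyc_S D S (by rw [hS]; exact hcyc)
  have hfL : Fintype (S ⧸ D.subgroupOf S) := Fintype.ofFinite _
  have hDS' : D ≤ S := by rw [hS]; exact hDS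
  have htr' : ∀ b, ∀ s ∈ S, s⁻¹ * α b s ∈ D := by rw [hS]; exact htr
  -- the group `S` is preserved
  have hαS : ∀ b, ∀ s ∈ S, α b s ∈ S := by
    intro b s hs
    have h1 := S.mul_mem hs (hDS' (htr' b s hs))
    rwa [mul_inv_cancel_left] at h1
  have hαS' : ∀ b s, α b s ∈ S → s ∈ S := by
    intro b s hs
    have h1 := hαS b⁻¹ _ hs
    rwa [← MulAut.mul_apply, ← map_mul, inv_mul_cancel, map_one, MulAut.one_apply] at h1
  let q := QuotientGroup.mk' (D.subgroupOf S)
  have hq : ∀ b (s : S), q ⟨α b s, hαS b s s.2⟩ = q s := by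
    intro b s
    symm
    change (QuotientGroup.mk s : S ⧸ D.subgroupOf S) = QuotientGroup.mk _
    rw [QuotientGroup.eq, Subgroup.mem_subgroupOf]
    exact htr' b s s.2
  -- the extension
  obtain ⟨E, hE, hEφ⟩ := hEX D S (S ⧸ D.subgroupOf S) (Subgroup.inclusion hDS')
    ((MulAut.conjNormal (H := D)).comp S.subtype) q (clG_S D S hDS')
    (QuotientGroup.mk'_surjective _) hL φ hφ (by
      intro y a
      have h1 : (y : N) ∈ inert (MulAut.conjNormal (H := D)) φ := by
        rw [← hS]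
        exact y.2
      exact h1 a)
  obtain ⟨g1, g2, g3⟩ := hGA D S (S ⧸ D.subgroupOf S) (Subgroup.inclusion hDS')
    ((MulAut.conjNormal (H := D)).comp S.subtype) q (clG_S D S hDS')
    (QuotientGroup.mk'_surjective _) φ E hφ hE.isChr hEφ
  -- the automorphism of `S`
  let β : J → (S ≃* S) := fun b =>
    { toFun := fun s => ⟨α b s, hαS b s s.2⟩
      invFun := fun s => ⟨α b⁻¹ s, hαS b⁻¹ s s.2⟩
      left_inv := by
        intro s
        apply Subtype.ext
        change α b⁻¹ (α b s) = s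
        rw [← MulAut.mul_apply, ← map_mul, inv_mul_cancel, map_one, MulAut.one_apply]
      right_inv := by
        intro s
        apply Subtype.ext
        change α b (α b⁻¹ s) = s
        rw [← MulAut.mul_apply, ← map_mul, mul_inv_cancel, map_one, MulAut.one_apply]
      map_mul' := by
        intro s t
        apply Subtype.ext
        change α b ((s : N) * t) = α b s * α b t
        rw [map_mul] }
  have hβ : ∀ b s, ((β b s : S) : N) = α b s := fun _ _ => rfl
  have hβq : ∀ b s, q (β b s) = q s := hq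
  have hβm : ∀ b b' s, β (b * b') s = β b (β b' s) := by
    intro b b' s
    apply Subtype.ext
    rw [hβ, hβ, hβ, map_mul, MulAut.mul_apply]
  -- the linear characters
  have hlam : ∀ b, ∃ lam : (S ⧸ D.subgroupOf S) →* ℂˣ,
      ∀ s, E (β b s) = E s * ((lam (q s) : ℂˣ) : ℂ) := by
    intro b
    have h4 : resj (Subgroup.inclusion hDS') (fun s => E (β b s)) = φ := by
      funext a
      change E (β b (Subgroup.inclusion hDS' a)) = φ a
      have h5 : β b (Subgroup.inclusion hDS' a) =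
          Subgroup.inclusion hDS' ⟨α b a, hD b a a.2⟩ := Subtype.ext rfl
      rw [h5, hEφ, hφα]
    obtain ⟨η, hη, hη'⟩ := g3 (fun s => E (β b s)) (hE.comp_mulEquiv (β b)) (by
      rw [h4, ip_self hφ]
      exact _root_.one_ne_zero)
    have h5 : η 1 = 1 := by
      have h6 := congrFun hη' 1
      simp only [map_one] at h6
      exact (mul_left_cancel₀ hE.one_ne_zero (h6.symm.trans (mul_one _).symm))
    obtain ⟨l, hl⟩ := EXTAR.exists_lin hη h5
    refine ⟨l, fun s => ?_⟩
    rw [hl]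
    exact congrFun hη' s
  choose lam hlam using hlam
  have huniq : ∀ l l' : (S ⧸ D.subgroupOf S) →* ℂˣ,
      (∀ s, E s * ((l (q s) : ℂˣ) : ℂ) = E s * ((l' (q s) : ℂˣ) : ℂ)) → l = l' := by
    intro l l' h
    have h1 := g2 _ _ (EXTAR.isIrr_lin l) (EXTAR.isIrr_lin l') (funext h)
    apply MonoidHom.ext
    intro x
    exact Units.ext (congrFun h1 x)
  have hlm : ∀ b b', lam (b * b') = lam b * lam b' := by
    intro b b'
    apply huniq
    intro s
    rw [← hlam, hβm, hlam, hlam, hβq, MonoidHom.mul_apply, Units.val_mul]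
    ring
  obtain ⟨g0, hg0⟩ := hL.exists_generator
  refine ⟨MonoidHom.mk' (fun b => lam b g0) (fun b b' => by
    rw [hlm, MonoidHom.mul_apply]), ?_⟩
  intro ψ hψ hov b
  have hmu : (MonoidHom.mk' (fun b => lam b g0) (fun b b' => by
    rw [hlm, MonoidHom.mul_apply]) : J →* ℂˣ) b = lam b g0 := rfl
  rw [hmu]
  have hone : lam b g0 = 1 ↔ lam b = 1 := by
    constructor
    · intro h
      apply MonoidHom.ext
      intro x
      obtain ⟨k, rfl⟩ := Subgroup.mem_zpowers_iff.mp (hg0 x)
      rw [map_zpow, h, one_zpow, MonoidHom.one_apply]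
    · intro h
      rw [h, MonoidHom.one_apply]
  rw [hone]
  -- the Clifford correspondence
  obtain ⟨c1, c2, c3⟩ := hCC D N (N ⧸ D) D.subtype (MulAut.conjNormal (H := D))
    (QuotientGroup.mk' D) (clG_N D) φ hφ
  subst hS
  obtain ⟨ξ, hξ, hξo, hξi⟩ := c3 ψ hψ hov
  have hres : ∀ f : inert (MulAut.conjNormal (H := D)) φ → ℂ,
      (fun a : D => ext0 f (D.subtype a)) = resj (Subgroup.inclusion hDS') f := by
    intro f
    funext a
    exact ext0_of_mem f (hDS' a.2)
  obtain ⟨η, hη, hξη⟩ := g3 ξ hξ (by rw [← hres]; exact hξo)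
  have hcomm : IsMulCommutative (↥(inert (MulAut.conjNormal (H := D)) φ) ⧸
      D.subgroupOf (inert (MulAut.conjNormal (H := D)) φ)) := by
    let _ : CommGroup (↥(inert (MulAut.conjNormal (H := D)) φ) ⧸
      D.subgroupOf (inert (MulAut.conjNormal (H := D)) φ)) := IsCyclic.commGroup
    exact ⟨⟨fun a b => mul_comm a b⟩⟩
  obtain ⟨l, hl⟩ := EXTAR.exists_lin hη (LKB.one_of_comm hη)
  have hξl : ∀ s, ξ s = E s * ((l (q s) : ℂˣ) : ℂ) := by
    intro s
    rw [hl]
    exact congrFun hξη s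
  have hξb : ∀ s, ξ (β b s) = E s * (((lam b * l) (q s) : ℂˣ) : ℂ) := by
    intro s
    rw [hξl, hlam, hβq, MonoidHom.mul_apply, Units.val_mul]
    ring
  -- induction commutes with the automorphism
  have hind : (fun n => ψ (α b n)) =
      indc (inert (MulAut.conjNormal (H := D)) φ) (fun s => ξ (β b s)) := by
    funext n
    rw [← hξi, indc, indc]
    congr 1
    rw [← Equiv.sum_comp (α b).toEquiv]
    refine Finset.sum_congr rfl fun z _ => ?_
    change ext0 ξ ((α b z)⁻¹ * α b n * α b z) = _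
    rw [← map_inv, ← map_mul, ← map_mul]
    by_cases hz : z⁻¹ * n * z ∈ inert (MulAut.conjNormal (H := D)) φ
    · rw [ext0_of_mem _ hz, ext0_of_mem _ (hαS b _ hz)]
      rfl
    · rw [ext0_of_not_mem _ hz, ext0_of_not_mem _ (fun h => hz (hαS' b _ h))]
  have hirr : IsIrr (fun s => ξ (β b s)) := hξ.comp_mulEquiv (β b)
  constructor
  · intro h
    have h1 : indc (inert (MulAut.conjNormal (H := D)) φ) (fun s => ξ (β b s)) =
        indc (inert (MulAut.conjNormal (H := D)) φ) ξ := by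
      rw [← hind, h, hξi]
    have h2 := c2 _ _ hirr hξ ?_ hξo h1
    · have h3 : lam b * l = l := by
        apply huniq
        intro s
        rw [← hξb, ← hξl]
        exact congrFun h2 s
      exact mul_right_cancel (h3.trans (one_mul l).symm)
    · rw [hres]
      have h4 := (g1 _ (EXTAR.isIrr_lin (lam b * l))).2
      have h5 : (fun s => E s * (((lam b * l) (q s) : ℂˣ) : ℂ)) = fun s => ξ (β b s) :=
        funext fun s => (hξb s).symm
      rw [← h5]
      exact h4
  · intro h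
    rw [hind, ← hξi]
    congr 1
    funext s
    rw [hξb, hξl, h, show (1 * l) = l from one_mul l]

end Abs

end Pool.Agent.RCB.LSP
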