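import Mathlib
import Pool.Agent.RCB.LSPA
import Pool.Agent.DPX.CYCX

set_option linter.unusedSectionVars false
set_option linter.unusedVariables false

/-!
# RCB_LSP: the special local characters
-/

namespace Pool.Agent.RCB.LSP

open Pool.Agent.DP Pool.Agent.DPV Pool.Agent.DPB Pool.Agent.DPW Pool.Agent.DPX
open Pool.Agent.Lib_helper13 Representation

section Act

variable {G B : Type} [Group G] [Group B] (κ : B →* MulAut G) (P₁ : Subgroup G)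

theorem mem_P_iff {b : B} (hb : P₁.map (κ b).toMonoidHom = P₁) (x : G) :
    κ b x ∈ P₁ ↔ x ∈ P₁ := by
  constructor
  · intro h
    rw [← hb] at h
    obtain ⟨y, hy, hyx⟩ := h
    have h1 : y = x := (κ b).injective hyx
    rw [← h1]
    exact hy
  · intro h
    rw [← hb]
    exact ⟨x, h, rfl⟩

theorem mem_norm {b : B} (hb : P₁.map (κ b).toMonoidHom = P₁) {n : G}
    (hn : n ∈ Subgroup.normalizer (P₁ : Set G)) : κ b n ∈ Subgroup.normalizer (P₁ : Set G) := by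
  rw [Subgroup.mem_normalizer_iff] at hn ⊢
  intro x
  obtain ⟨y, rfl⟩ := (κ b).surjective x
  change κ b y ∈ P₁ ↔ κ b n * κ b y * (κ b n)⁻¹ ∈ P₁
  rw [← map_inv, ← map_mul, ← map_mul, mem_P_iff κ P₁ hb, mem_P_iff κ P₁ hb]
  exact hn y

/-- The action on the normalizer. -/
def rA (J : Subgroup B) (hJ : ∀ b ∈ J, P₁.map (κ b).toMonoidHom = P₁) :
    J →* MulAut (NP P₁) where
  toFun b :=
    { toFun := fun n => ⟨κ (b : B) n, mem_norm κ P₁ (hJ b b.2) n.2⟩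
      invFun := fun n => ⟨κ ((b⁻¹ : J) : B) n, mem_norm κ P₁ (hJ _ (b⁻¹).2) n.2⟩
      left_inv := by
        intro n
        apply Subtype.ext
        change κ ((b⁻¹ : J) : B) (κ (b : B) n) = n
        rw [← MulAut.mul_apply, ← map_mul, Subgroup.coe_inv, inv_mul_cancel, map_one,
          MulAut.one_apply]
      right_inv := by
        intro n
        apply Subtype.ext
        change κ (b : B) (κ ((b⁻¹ : J) : B) n) = n
        rw [← MulAut.mul_apply, ← map_mul, Subgroup.coe_inv, mul_inv_cancel, map_one,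
          MulAut.one_apply]
      map_mul' := by
        intro n m
        apply Subtype.ext
        change κ (b : B) ((n : G) * m) = κ (b : B) n * κ (b : B) m
        rw [map_mul] }
  map_one' := by
    apply MulEquiv.ext
    intro n
    apply Subtype.ext
    change κ ((1 : J) : B) n = n
    rw [Subgroup.coe_one, map_one, MulAut.one_apply]
  map_mul' := by
    intro b b'
    apply MulEquiv.ext
    intro n
    apply Subtype.ext
    change κ ((b * b' : J) : B) n = κ (b : B) (κ (b' : B) n)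
    rw [Subgroup.coe_mul, map_mul, MulAut.mul_apply]

theorem rA_coe (J : Subgroup B) (hJ : ∀ b ∈ J, P₁.map (κ b).toMonoidHom = P₁) (b : J)
    (n : NP P₁) : ((rA κ P₁ J hJ b n : NP P₁) : G) = κ (b : B) n := rfl

/-- Automorphisms of a cyclic group commute. -/
theorem comm_aut [hc : IsCyclic P₁] {b : B} (hb : P₁.map (κ b).toMonoidHom = P₁) {s : G}
    (hs : s ∈ Subgroup.normalizer (P₁ : Set G)) :
    s⁻¹ * κ b s ∈ Subgroup.centralizer (P₁ : Set G) := by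
  let σ : P₁ →* P₁ :=
    { toFun := fun u => ⟨κ b u, (mem_P_iff κ P₁ hb u).mpr u.2⟩
      map_one' := by
        apply Subtype.ext
        exact map_one (κ b)
      map_mul' := by
        intro u v
        apply Subtype.ext
        exact map_mul (κ b) (u : G) (v : G) }
  obtain ⟨m, hm⟩ := MonoidHom.map_cyclic σ
  have h1 : ∀ u ∈ P₁, κ b u = u ^ m := by
    intro u hu
    have h2 := congrArg Subtype.val (hm ⟨u, hu⟩)
    rw [Subgroup.coe_zpow] at h2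
    exact h2
  rw [Subgroup.mem_centralizer_iff]
  intro v hv
  obtain ⟨u, rfl⟩ := (κ b).surjective v
  have hu : u ∈ P₁ := (mem_P_iff κ P₁ hb u).mp hv
  have h3 : s * u * s⁻¹ ∈ P₁ := (Subgroup.mem_normalizer_iff.mp hs u).mp hu
  have h4 : κ b (s * u * s⁻¹) = s * κ b u * s⁻¹ := by
    rw [h1 _ h3, h1 _ hu, conj_zpow]
  rw [map_mul, map_mul, map_inv] at h4
  have h5 : s⁻¹ * (κ b s * κ b u * (κ b s)⁻¹) * κ b s = s⁻¹ * (s * κ b u * s⁻¹) * κ b s := by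
    rw [h4]
  simp only [mul_assoc, inv_mul_cancel_left, inv_mul_cancel, mul_one] at h5 ⊢
  exact h5.symm

end Act

theorem cgT_out {G : Type} [Group G] [Fintype G] (𝔐 : Ideal (integralClosure ℤ ℂ))
    (T : Subgroup G) (f : G → ℂ) (hf : ∀ g, g ∉ T → f g = 0) {g : G} (hg : g ∉ T) :
    cgT 𝔐 T f g = red 𝔐 0 := by
  rw [cgT]
  congr 1
  rw [Finset.sum_eq_zero, zero_div]
  intro x _
  by_cases hx : x ∈ T
  · rw [cjT, if_neg, zero_mul]
    rintro ⟨t, ht, rfl⟩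
    apply hg
    have h1 := T.mul_mem (T.mul_mem (T.inv_mem ht) hx) ht
    have h2 : t⁻¹ * (t * g * t⁻¹) * t = g := by group
    rwa [h2] at h1
  · rw [hf x hx, mul_zero]

end Pool.Agent.RCB.LSP

namespace Pool.Agent.RCB

open Pool.Agent.DP Pool.Agent.DPV Pool.Agent.DPB Pool.Agent.DPW Pool.Agent.DPX
open Pool.Agent.Lib_helper13 Representation

theorem LSP_thm (h0 : Stmt_ORC) (h1 : Stmt_LCC) (h2 : Stmt_TRM) (h3 : Stmt_EQV)
    (h4 : Stmt_CNTX) (h5 : Stmt_ORBX) (h6 : Pool.Agent.DP.Stmt_SUMM)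
    (h7 : Pool.Agent.DP.Stmt_CCOR) (h8 : Pool.Agent.DP.Stmt_GALL)
    (h9 : Pool.Agent.DP.Stmt_EXTC) : Stmt_LSP := by
  classical
  intro G B C _ _ _ _ _ 𝔐 ℓ n _ hM hl ι κ ρ hloc ω P₁ P x₀ hSt
  obtain ⟨e1, e2, e3, e4, e5, e6, e7⟩ := h3 G B C 𝔐 ℓ n hM hl ι κ ρ hloc ω P₁ P x₀ hSt
  obtain ⟨θ, hθ, hθω⟩ := hSt.ex
  have hAt := hSt.at'
  have hcl := hloc.cl
  subst hθω
  have hfin : Fintype (NP P₁) := inferInstance
  obtain ⟨D, hD⟩ : ∃ D : Subgroup (NP P₁), D = Subgroup.centralizer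
    ((P₁.subgroupOf (Subgroup.normalizer (P₁ : Set G)) : Subgroup (NP P₁)) :
      Set (NP P₁)) := ⟨_, rfl⟩
  have hDn : D.Normal := by
    rw [hD]
    infer_instance
  -- the configuration
  have hcard := h4 G 𝔐 ℓ n hM hl θ hθ P₁ P x₀ hAt
  obtain ⟨ψ₀, hψ₀, hψ₀c⟩ : ∃ ψ₀ : NP P₁ → ℂ, IsIrr ψ₀ ∧
      cen 𝔐 (Subgroup.normalizer (P₁ : Set G)).subtype ψ₀ = cen 𝔐 (MonoidHom.id G) θ := by
    have hf : Finite {χ : G → ℂ // IsIrr χ ∧
        cen 𝔐 (MonoidHom.id G) χ = cen 𝔐 (MonoidHom.id G) θ} :=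
      ((finite_isIrr (H := G)).subset fun χ hχ => hχ.1).to_subtype
    have hn : Nonempty {χ : G → ℂ // IsIrr χ ∧
        cen 𝔐 (MonoidHom.id G) χ = cen 𝔐 (MonoidHom.id G) θ} := ⟨⟨θ, hθ, rfl⟩⟩
    have hp : 0 < Nat.card {χ : G → ℂ // IsIrr χ ∧
        cen 𝔐 (MonoidHom.id G) χ = cen 𝔐 (MonoidHom.id G) θ} := Nat.card_pos
    rw [hcard] at hp
    obtain ⟨⟨ψ, h⟩⟩ := (Nat.card_pos_iff.mp hp).1
    exact ⟨ψ, h⟩
  obtain ⟨φ₀, hφ₀, hov₀⟩ := CYCX.exists_constituent (fun c : D => ψ₀ c)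
    (fun g x => hψ₀.conj_eq (g : NP P₁) x) hψ₀.one_ne_zero
  have hCf : Cf 𝔐 ℓ n θ P₁ P x₀ D ψ₀ φ₀ := ⟨hθ, hAt, hD, hψ₀, hφ₀, hψ₀c, hov₀⟩
  obtain ⟨-, o2, o3, o4, -, o6, o7, -, φ₁, o9, o10, o11⟩ :=
    h0 G 𝔐 ℓ n hM hl θ P₁ P x₀ D ψ₀ φ₀ hCf
  obtain ⟨l1, l2, l3, l4, l5, l6⟩ := h1 G 𝔐 ℓ n hM hl θ P₁ P x₀ D ψ₀ φ₀ hCf
  obtain ⟨z, z', t1, t2, t3, t4, t5, t6, t7, t8, t9, t10, t11, t12, t13, t14⟩ :=
    h2 G 𝔐 P₁ D hD
  obtain ⟨-, s2, -, -⟩ := h6 D (NP P₁) (NP P₁ ⧸ D) D.subtype (MulAut.conjNormal (H := D))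
    (QuotientGroup.mk' D) (LSP.clG_N D)
  obtain ⟨Cz, hCz⟩ : ∃ Cz : Subgroup G, Cz = Subgroup.centralizer (P₁ : Set G) := ⟨_, rfl⟩
  -- dictionary
  have hYL : ∀ f : G → ℂ, f ∈ YL 𝔐 P₁ (cen 𝔐 (MonoidHom.id G) θ) → ∃ ψ : NP P₁ → ℂ,
      IsIrr ψ ∧ cen 𝔐 (Subgroup.normalizer (P₁ : Set G)).subtype ψ =
        cen 𝔐 (MonoidHom.id G) θ ∧ f = z' ψ := by
    rintro f ⟨hf1, hf2⟩
    obtain ⟨ψ, hψ, rfl⟩ := (t8 f).mp hf1
    refine ⟨ψ, hψ, ?_, rfl⟩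
    funext g
    rw [← t12]
    exact hf2 g
  have hYL' : ∀ ψ : NP P₁ → ℂ, IsIrr ψ →
      cen 𝔐 (Subgroup.normalizer (P₁ : Set G)).subtype ψ = cen 𝔐 (MonoidHom.id G) θ →
      z' ψ ∈ YL 𝔐 P₁ (cen 𝔐 (MonoidHom.id G) θ) := by
    intro ψ hψ hc
    refine ⟨(t8 _).mpr ⟨ψ, hψ, rfl⟩, ?_⟩
    intro g
    rw [t12, hc]
  have hmu : ∀ (ψ : NP P₁ → ℂ) (φ : D → ℂ),
      mu (Subgroup.centralizer (P₁ : Set G)) (z' ψ) (z φ) = ip (fun c : D => ψ c) φ := by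
    intro ψ φ
    rw [t11]
    congr 1
    funext c
    exact t3 ψ c
  have hZC' : ∀ (φ : D → ℂ) (ψ : NP P₁ → ℂ), IsIrr φ → IsIrr ψ →
      cen 𝔐 (Subgroup.normalizer (P₁ : Set G)).subtype ψ = cen 𝔐 (MonoidHom.id G) θ →
      ip (fun c : D => ψ c) φ ≠ 0 → z φ ∈ ZC 𝔐 P₁ (cen 𝔐 (MonoidHom.id G) θ) := by
    intro φ ψ hφ hψ hc hov
    refine ⟨(t7 _).mpr ⟨φ, hφ, rfl⟩, z' ψ, hYL' ψ hψ hc, ?_⟩
    rw [hmu]
    exact hov
  have hZC : ∀ f : G → ℂ, f ∈ ZC 𝔐 P₁ (cen 𝔐 (MonoidHom.id G) θ) →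
      ∃ φ : D → ℂ, IsIrr φ ∧ f = z φ := fun f hf => (t7 f).mp hf.1
  have hsup1 : ∀ (ψ ψ' : NP P₁ → ℂ) (φ : D → ℂ), IsIrr ψ →
      cen 𝔐 (Subgroup.normalizer (P₁ : Set G)).subtype ψ = cen 𝔐 (MonoidHom.id G) θ →
      IsIrr φ → ip (fun c : D => ψ c) φ ≠ 0 →
      SupEq 𝔐 P₁ (cen 𝔐 (MonoidHom.id G) θ) (z' ψ) (z' ψ') →
      ip (fun c : D => ψ' c) φ ≠ 0 := by
    intro ψ ψ' φ hψ hc hφ hov hs
    have h := (hs (z φ) (hZC' φ ψ hφ hψ hc hov)).mp (by rw [hmu]; exact hov)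
    rwa [hmu] at h
  have hsup2 : ∀ (ψ ψ' : NP P₁ → ℂ) (φ : D → ℂ), IsIrr ψ → IsIrr ψ' → IsIrr φ →
      ip (fun c : D => ψ c) φ ≠ 0 → ip (fun c : D => ψ' c) φ ≠ 0 →
      SupEq 𝔐 P₁ (cen 𝔐 (MonoidHom.id G) θ) (z' ψ) (z' ψ') := by
    have haux : ∀ (ψ ψ' : NP P₁ → ℂ) (φ φ' : D → ℂ), IsIrr ψ → IsIrr ψ' → IsIrr φ →
        IsIrr φ' → ip (fun c : D => ψ c) φ ≠ 0 → ip (fun c : D => ψ' c) φ ≠ 0 →
        ip (fun c : D => ψ c) φ' ≠ 0 → ip (fun c : D => ψ' c) φ' ≠ 0 := by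
      intro ψ ψ' φ φ' hψ hψ' hφ hφ' h a b
      obtain ⟨y, hy⟩ := s2 φ φ' ψ hφ hφ' hψ h b
      have h10 : φ' = cj D y φ := (funext hy).symm
      rw [h10, l4 ψ' y φ hψ']
      exact a
    intro ψ ψ' φ hψ hψ' hφ ho ho' f hf
    obtain ⟨φ', hφ', rfl⟩ := hZC f hf
    rw [hmu, hmu]
    exact ⟨haux ψ ψ' φ φ' hψ hψ' hφ hφ' ho ho', haux ψ' ψ φ φ' hψ' hψ hφ hφ' ho' ho⟩
  have hindex : 1 < D.relIndex (bS 𝔐 D φ₀) → ∃ g ∈ bS 𝔐 D φ₀, g ∉ D := by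
    intro h
    by_contra hcon
    push Not at hcon
    have h10 := Subgroup.relIndex_eq_one.mpr (show bS 𝔐 D φ₀ ≤ D from fun g hg => hcon g hg)
    omega
  have hφ₁ : IsIrr φ₁ := o9.1
  -- the special characters lie over `φ₁`
  have hspc : ∀ ψ : NP P₁ → ℂ, IsIrr ψ →
      cen 𝔐 (Subgroup.normalizer (P₁ : Set G)).subtype ψ = cen 𝔐 (MonoidHom.id G) θ →
      Spc 𝔐 P₁ (cen 𝔐 (MonoidHom.id G) θ) (z' ψ) →
      1 < D.relIndex (bS 𝔐 D φ₀) ∧ ip (fun c : D => ψ c) φ₁ ≠ 0 := by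
    rintro ψ hψ hc ⟨f', hf', hne, hsup⟩
    obtain ⟨ψ', hψ', hc', rfl⟩ := hYL f' hf'
    obtain ⟨φ, hφ, hov⟩ := l2 ψ hψ hc
    have hov' := hsup1 ψ ψ' φ hψ hc hφ.1 hov hsup
    have hne' : ψ' ≠ ψ := fun h => hne (by rw [h])
    have hfi : Finite {ψ : NP P₁ → ℂ // IsIrr ψ ∧ ip (fun c : D => ψ c) φ ≠ 0} :=
      ((finite_isIrr (H := NP P₁)).subset fun χ hχ => hχ.1).to_subtype
    have hlt : 1 < Nat.card {ψ : NP P₁ → ℂ // IsIrr ψ ∧ ip (fun c : D => ψ c) φ ≠ 0} := by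
      rw [Finite.one_lt_card_iff_nontrivial]
      exact ⟨⟨⟨ψ', hψ', hov'⟩, ⟨ψ, hψ, hov⟩, fun h => hne' (congrArg Subtype.val h)⟩⟩
    by_cases hinv : ∀ g ∈ bS 𝔐 D φ₀, cj D g φ = φ
    · rw [(l6 φ hφ).1 hinv] at hlt
      refine ⟨hlt, ?_⟩
      by_cases hφφ : φ = φ₁
      · rw [← hφφ]
        exact hov
      · exfalso
        obtain ⟨g, hg, hgD⟩ := hindex hlt
        exact hgD (o11 φ hφ hφφ g hg (hinv g hg))
    · rw [(l6 φ hφ).2 hinv] at hlt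
      exact absurd hlt (lt_irrefl 1)
  have hone : P₁.map (κ 1).toMonoidHom = P₁ := by
    rw [map_one]
    exact Subgroup.map_id P₁
  -- the group `J`
  obtain ⟨J, hJ⟩ : ∃ J : Subgroup B, J = Stx κ {P₁} (z φ₁) := ⟨_, rfl⟩
  have hJm : ∀ b ∈ J, P₁.map (κ b).toMonoidHom = P₁ := by
    intro b hb
    rw [hJ] at hb
    exact hb.1 P₁ (Finset.mem_singleton_self P₁)
  have hJz : ∀ b ∈ J, ∀ g, z φ₁ (κ b g) = z φ₁ g := by
    intro b hb
    rw [hJ] at hb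
    exact hb.2
  have hJ0 : ∀ b ∈ J, b ∈ Stx κ {P₁} (fun _ => 0) := by
    intro b hb
    rw [hJ] at hb
    exact ⟨hb.1, fun _ => rfl⟩
  have hcycP : IsCyclic P₁ := isCyclic_of_prime_card hAt.cd.c1
  have hcov : ∀ ψ ∈ YL 𝔐 P₁ (cen 𝔐 (MonoidHom.id G) θ),
      Spc 𝔐 P₁ (cen 𝔐 (MonoidHom.id G) θ) ψ → ∀ c : C, ∃ b : J, ρ (b : B) = c := by
    intro f hf hs c
    obtain ⟨b, hb, rfl⟩ := e1 c
    obtain ⟨f', hf', hne, hsup⟩ := hs
    have hs' : Spc 𝔐 P₁ (cen 𝔐 (MonoidHom.id G) θ) (fun g => f (κ b g)) := by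
      refine ⟨fun g => f' (κ b g), (e3 f' hf' b hb).1, ?_, e7 f f' b hb hsup⟩
      intro h
      apply hne
      funext g
      obtain ⟨g', rfl⟩ := (κ b).surjective g
      exact congrFun h g'
    obtain ⟨ψb, hψb, hcb, hfb⟩ := hYL _ (e3 f hf b hb).1
    rw [hfb] at hs'
    obtain ⟨-, hovb⟩ := hspc ψb hψb hcb hs'
    obtain ⟨ψ, hψ, hc, rfl⟩ := hYL f hf
    obtain ⟨hlt, hov⟩ := hspc ψ hψ hc ⟨f', hf', hne, hsup⟩
    have hz := (e4 (z φ₁) b hb).mp (hZC' φ₁ ψ hφ₁ hψ hc hov)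
    obtain ⟨φ', hφ', hzφ'⟩ := hZC _ hz
    have hov' : ip (fun c : D => ψb c) φ' ≠ 0 := by
      rw [← hmu, ← hfb, ← hzφ', e5 (z' ψ) (z φ₁) b hb, hmu]
      exact hov
    obtain ⟨y, hy⟩ := s2 φ' φ₁ ψb hφ' hφ₁ hψb hov' hovb
    have hy' : cj D y φ' = φ₁ := funext hy
    have hιy : P₁.map (κ (ι (y : G))).toMonoidHom = P₁ := by
      rw [EXTAR.kap_conj hcl]
      exact mem_stb.mp ((t5 _).mpr y.2) P₁ (Finset.mem_singleton_self P₁)
    have hmem : b * ι (y : G) ∈ J := by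
      rw [hJ]
      constructor
      · intro Q hQ
        rw [Finset.mem_singleton] at hQ
        subst hQ
        have h10 : (κ (b * ι (y : G))).toMonoidHom =
            (κ b).toMonoidHom.comp (κ (ι (y : G))).toMonoidHom := by
          ext g
          simp
        rw [h10, ← Subgroup.map_map, hιy]
        exact hb.1 _ (Finset.mem_singleton_self _)
      · intro g
        rw [map_mul, MulAut.mul_apply, EXTAR.kap hcl]
        have h10 := congrFun hzφ' ((y : G) * g * (y : G)⁻¹)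
        change z φ₁ (κ b ((y : G) * g * (y : G)⁻¹)) = _ at h10
        rw [h10, t14, hy']
    refine ⟨⟨b * ι (y : G), hmem⟩, ?_⟩
    change ρ (b * ι (y : G)) = ρ b
    rw [map_mul, EXTAR.rho_iota hcl, mul_one]
  -- the inertia group
  have hinert : inert (MulAut.conjNormal (H := D)) φ₁ = bS 𝔐 D φ₀ := by
    ext g
    constructor
    · intro hg
      have h10 : cj D g φ₁ = φ₁ := funext hg
      rw [← o6 φ₁ o9 g, h10]
      exact o9
    · intro hg a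
      exact congrFun (o10 g hg) a
  have hαD : ∀ b : J, ∀ c ∈ D, LSP.rA κ P₁ J hJm b c ∈ D := by
    intro b c hc
    rw [t6] at hc ⊢
    rw [LSP.rA_coe]
    rw [Subgroup.mem_centralizer_iff] at hc ⊢
    intro v hv
    obtain ⟨u, rfl⟩ := (κ (b : B)).surjective v
    rw [← map_mul, ← map_mul, hc u ((LSP.mem_P_iff κ P₁ (hJm b b.2) u).mp hv)]
  obtain ⟨μ, hμ⟩ := LSP.torsor D h7 h8 h9 φ₁ hφ₁ (by rw [hinert]; exact o2)
    (by rw [hinert]; exact o7) (LSP.rA κ P₁ J hJm) hαD (by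
      intro b c
      have h10 := hJz b b.2 ((c : NP P₁) : G)
      rw [t1] at h10
      rw [← h10]
      exact (t1 φ₁ ⟨LSP.rA κ P₁ J hJm b c, hαD b c c.2⟩).symm) (by
      intro b s _
      rw [t6]
      exact LSP.comm_aut κ P₁ (hJm b b.2) s.2)
  have hkey : ∀ ψ : NP P₁ → ℂ, IsIrr ψ →
      cen 𝔐 (Subgroup.normalizer (P₁ : Set G)).subtype ψ = cen 𝔐 (MonoidHom.id G) θ →
      Spc 𝔐 P₁ (cen 𝔐 (MonoidHom.id G) θ) (z' ψ) → ∀ b : J,
      (ρ (b : B) ∈ (Stx κ {P₁} (z' ψ)).map ρ ↔ μ b = 1) := by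
    intro ψ hψ hc hs b
    obtain ⟨-, hov⟩ := hspc ψ hψ hc hs
    rw [← hμ ψ hψ hov b, (e3 (z' ψ) (hYL' ψ hψ hc) b (hJ0 b b.2)).2]
    constructor
    · intro h
      funext m
      have h10 := congrFun h (m : G)
      rw [t3] at h10
      rw [← h10]
      exact (t3 ψ (LSP.rA κ P₁ J hJm b m)).symm
    · intro h
      funext g
      by_cases hg : g ∈ Subgroup.normalizer (P₁ : Set G)
      · have h10 := congrFun h (⟨g, hg⟩ : NP P₁)
        have h11 := t3 ψ (LSP.rA κ P₁ J hJm b ⟨g, hg⟩)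
        have h12 := t3 ψ ⟨g, hg⟩
        exact h11.trans (h10.trans h12.symm)
      · have hg' : κ (b : B) g ∉ Subgroup.normalizer (P₁ : Set G) := by
          intro h10
          apply hg
          have h11 := LSP.mem_norm κ P₁ (hJm _ (b⁻¹).2) h10
          rwa [← MulAut.mul_apply, ← map_mul, Subgroup.coe_inv, inv_mul_cancel, map_one,
            MulAut.one_apply] at h11
        rw [t4 ψ g (fun h10 => hg ((t5 g).mp h10)),
          t4 ψ _ (fun h10 => hg' ((t5 _).mp h10))]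
  refine ⟨?_, ?_, ?_, ?_, ?_⟩
  · intro f hf f' hf' hs hs'
    obtain ⟨ψ, hψ, hc, rfl⟩ := hYL f hf
    obtain ⟨ψ', hψ', hc', rfl⟩ := hYL f' hf'
    refine ⟨hsup2 ψ ψ' φ₁ hψ hψ' hφ₁ (hspc ψ hψ hc hs).2 (hspc ψ' hψ' hc' hs').2, ?_⟩
    ext c
    obtain ⟨b, rfl⟩ := hcov _ hf hs c
    rw [hkey ψ hψ hc hs b, hkey ψ' hψ' hc' hs' b]
  · intro f hf hs
    obtain ⟨ψ, hψ, hc, rfl⟩ := hYL f hf
    obtain ⟨hlt, hov⟩ := hspc ψ hψ hc hs
    obtain ⟨g, hg, hgD⟩ := hindex hlt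
    refine ⟨z φ₁, hZC' φ₁ ψ hφ₁ hψ hc hov, (g : G), (t5 _).mpr g.2,
      fun h => hgD ((t6 g).mpr h), ?_⟩
    intro x
    by_cases hx : x ∈ Subgroup.centralizer (P₁ : Set G)
    · have hxN : x ∈ Subgroup.normalizer (P₁ : Set G) := by
        rw [Subgroup.mem_normalizer_iff]
        intro u
        rw [Subgroup.mem_centralizer_iff] at hx
        constructor
        · intro hu
          rw [← hx u hu, mul_inv_cancel_right]
          exact hu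
        · intro hu
          have h10 := hx _ hu
          have h11 : x * u * x⁻¹ = u := by
            have h12 : x⁻¹ * (x * u * x⁻¹ * x) * x⁻¹ = x⁻¹ * (x * (x * u * x⁻¹)) * x⁻¹ := by
              rw [h10]
            have h13 : x⁻¹ * (x * u * x⁻¹ * x) * x⁻¹ = u * x⁻¹ := by group
            have h14 : x⁻¹ * (x * (x * u * x⁻¹)) * x⁻¹ = x * u * x⁻¹ * x⁻¹ := by group
            rw [h13, h14] at h12
            exact (mul_right_cancel h12).symm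
          rwa [h11] at hu
      have hxD : (⟨x, hxN⟩ : NP P₁) ∈ D := (t6 _).mpr hx
      have h10 := t13 φ₁ (⟨⟨x, hxN⟩, hxD⟩ : D)
      have h11 := t13 φ₁ (MulAut.conjNormal g (⟨⟨x, hxN⟩, hxD⟩ : D))
      have h12 := hg (⟨⟨x, hxN⟩, hxD⟩ : D)
      rw [← o9.2] at h12
      exact h11.trans (h12.trans h10.symm)
    · have hx' : (g : G) * x * (g : G)⁻¹ ∉ Subgroup.centralizer (P₁ : Set G) := by
        intro h10
        apply hx
        rw [Subgroup.mem_centralizer_iff] at h10 ⊢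
        intro u hu
        have h11 : (g : G) * u * (g : G)⁻¹ ∈ P₁ := (Subgroup.mem_normalizer_iff.mp g.2 u).mp hu
        have h12 := h10 _ h11
        have h13 : (g : G)⁻¹ * ((g : G) * u * (g : G)⁻¹ * ((g : G) * x * (g : G)⁻¹)) * (g : G) =
            (g : G)⁻¹ * ((g : G) * x * (g : G)⁻¹ * ((g : G) * u * (g : G)⁻¹)) * (g : G) := by
          rw [h12]
        have h14 : (g : G)⁻¹ * ((g : G) * u * (g : G)⁻¹ * ((g : G) * x * (g : G)⁻¹)) *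
          (g : G) = u * x := by group
        have h15 : (g : G)⁻¹ * ((g : G) * x * (g : G)⁻¹ * ((g : G) * u * (g : G)⁻¹)) *
          (g : G) = x * u := by group
        rwa [h14, h15] at h13
      rw [LSP.cgT_out 𝔐 _ _ (t2 φ₁) hx, LSP.cgT_out 𝔐 _ _ (t2 φ₁) hx']
  · have hch : ∀ f : {ψ : G → ℂ // ψ ∈ YL 𝔐 P₁ (cen 𝔐 (MonoidHom.id G) θ) ∧
        Spc 𝔐 P₁ (cen 𝔐 (MonoidHom.id G) θ) ψ},
        ∃ ψ : {ψ : NP P₁ → ℂ // IsIrr ψ ∧ ip (fun c : D => ψ c) φ₁ ≠ 0},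
          f.1 = z' ψ.1 := by
      rintro ⟨f, hf, hs⟩
      obtain ⟨ψ, hψ, hc, rfl⟩ := hYL f hf
      exact ⟨⟨ψ, hψ, (hspc ψ hψ hc hs).2⟩, rfl⟩
    choose F hF using hch
    have hfi : Finite {ψ : NP P₁ → ℂ // IsIrr ψ ∧ ip (fun c : D => ψ c) φ₁ ≠ 0} :=
      ((finite_isIrr (H := NP P₁)).subset fun χ hχ => hχ.1).to_subtype
    have hle := Nat.card_le_card_of_injective F (by
      intro a b hab
      apply Subtype.ext
      rw [hF a, hF b, hab])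
    rw [(l6 φ₁ o9).1 o10] at hle
    have hℓ : 2 ≤ ℓ := (Fact.out : ℓ.Prime).two_le
    have h10 := Nat.le_of_dvd (by omega) o4
    omega
  · intro f hf hs
    obtain ⟨ψ, hψ, hc, rfl⟩ := hYL f hf
    have hfr : Finite μ.range := by
      have : Finite J := inferInstance
      exact Set.finite_range μ
    have hcy : IsCyclic μ.range := inferInstance
    obtain ⟨⟨_, b0, rfl⟩, hb0⟩ := hcy.exists_generator
    refine ⟨ρ (b0 : B), ?_⟩
    intro c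
    obtain ⟨b, rfl⟩ := hcov _ hf hs c
    obtain ⟨k, hk⟩ := Subgroup.mem_zpowers_iff.mp (hb0 ⟨μ b, b, rfl⟩)
    have hk' : μ b0 ^ k = μ b := congrArg Subtype.val hk
    refine ⟨-k, ?_⟩
    have h10 := (hkey ψ hψ hc hs (b * b0 ^ (-k))).mpr (by
      rw [map_mul, map_zpow, ← hk', zpow_neg, mul_inv_cancel])
    rw [Subgroup.coe_mul, Subgroup.coe_zpow, map_mul, map_zpow] at h10
    exact h10
  · intro f hf f' hf' hsup hs
    by_cases h10 : f' = f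
    · rw [h10]
      exact hs
    · exact ⟨f, hf, fun h11 => h10 h11.symm, fun φ hφ => (hsup φ hφ).symm⟩

end Pool.Agent.RCB
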