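import Mathlib
import Pool.Agent.RCB.St5
import Pool.Agent.DPW.FIXW

/-!
# Theorem P1, RCB_LTP: the local theorem
-/

set_option linter.unusedSectionVars false

namespace Pool.Agent.RCB

open Pool.Agent.DP Pool.Agent.DPV Pool.Agent.DPB Pool.Agent.DPW Pool.Agent.DPX Pool.Agent.DPC
open Pool.Agent.Lib_helper13 Representation

namespace LTP

variable {G B C : Type} [Group G] [Group B] [Group C] {ι : G →* B} {κ : B →* MulAut G}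
  {ρ : B →* C}

/-- The central function of a character is a class function. -/
theorem cen_cl [Fintype G] (𝔐 : Ideal (integralClosure ℤ ℂ)) (ξ : G → ℂ) (g x : G) :
    cen 𝔐 (MonoidHom.id G) ξ (g * x * g⁻¹) = cen 𝔐 (MonoidHom.id G) ξ x := by
  unfold cen
  have h1 : (fun y : G => conjInd ((MonoidHom.id G) y) (g * x * g⁻¹)) =
      fun y : G => conjInd ((MonoidHom.id G) y) x := by
    funext y
    refine conjInd_congr ?_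
    have h2 : IsConj x (g * x * g⁻¹) := isConj_iff.mpr ⟨g, rfl⟩
    exact ⟨fun h3 => h3.trans h2.symm, fun h3 => h3.trans h2⟩
  rw [h1]

/-- The stabilizer of a class function is the inverse image of its image. -/
theorem Sw_comap {A : Type} (h : LocN ι κ ρ) {ω : G → A}
    (hω : ∀ g x, ω (g * x * g⁻¹) = ω x) :
    ((Sw κ ∅ ω).map ρ).comap ρ = Sw κ ∅ ω := by
  apply le_antisymm
  · rintro b ⟨b', hb', hbb⟩
    have h1 : ρ (b * b'⁻¹) = 1 := by rw [map_mul, map_inv, hbb, mul_inv_cancel]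
    obtain ⟨u, hu⟩ := (h.cl.ker _).mp h1
    have h2 : b = ι u * b' := by rw [hu, inv_mul_cancel_right]
    refine ⟨by simp, fun g => ?_⟩
    rw [h2, map_mul, MulAut.mul_apply, Pool.Agent.DPC.EXTAR.kap_conj h.cl]
    change ω (u * κ b' g * u⁻¹) = ω g
    rw [hω, hb'.2]
  · exact Subgroup.le_comap_map ρ _

/-- The image of the stabilizer of a character, through the inverse image of `R`. -/
theorem map_Stx_R (κ : B →* MulAut G) (ρ : B →* C) (R : Subgroup C) (σ : Finset (Subgroup G))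
    (θ : G → ℂ) (hle : Stx κ σ θ ≤ R.comap ρ) :
    (Stx κ σ θ).map ρ = ((Stx (kR κ ρ R) σ θ).map (pR ρ R)).map R.subtype := by
  ext c
  constructor
  · rintro ⟨b, hb, rfl⟩
    exact ⟨pR ρ R ⟨b, hle hb⟩, ⟨⟨b, hle hb⟩, hb, rfl⟩, rfl⟩
  · rintro ⟨_, ⟨b, hb, rfl⟩, rfl⟩
    exact ⟨(b : B), hb, rfl⟩

theorem YS_empty (h : ClG ι κ ρ) : YS ι ∅ = ⊤ := by
  rw [eq_top_iff]
  intro b _
  rw [mem_YS_iff h]
  simp

end LTP

open LTP in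
/-- RCB_LTP. -/
theorem LTP_thm (h0 : Stmt_BIJ) (h1 : Stmt_CEQ) (h2 : Stmt_CAG) (h3 : Stmt_CVB)
    (h4 : Stmt_FXGX) : Stmt_LTP := by
  classical
  intro G B C _ _ _ _ _ 𝔐 ℓ n hp h𝔐 hℓ hℓ2 ι κ ρ h χ ξ hχ hξ hover P₁ P x₀ hA d
  have hfin : Finite C := Finite.of_surjective ρ h.surj
  obtain ⟨ω, hω⟩ : ∃ ω, ω = cen 𝔐 (MonoidHom.id G) ξ := ⟨_, rfl⟩
  have hex : ∃ θ : G → ℂ, IsIrr θ ∧ cen 𝔐 (MonoidHom.id G) θ = ω := ⟨ξ, hξ, hω.symm⟩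
  have hA' := hA
  rw [← hω] at hA'
  have hωc : ∀ g x, ω (g * x * g⁻¹) = ω x := by
    intro g x
    rw [hω]
    exact cen_cl 𝔐 ξ g x
  obtain ⟨Ω, hΩ⟩ : ∃ Ω, Ω = cen 𝔐 (MonoidHom.id B) χ := ⟨_, rfl⟩
  rw [← hΩ]
  -- the count over the characters
  have hcag : ∀ σ : Finset (Subgroup G), (σ = ∅ ∨ σ = {P₁}) →
      (Nat.card ((Sw κ σ ω).map ρ) : ℚ) * cnt 𝔐 ℓ d (YS ι σ).subtype Ω =
        ∑ θ ∈ irrOn (stb σ) with (∀ g, cg 𝔐 θ g = ω g),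
          (Nat.card ((Stx κ σ θ).map ρ) : ℚ) * nC 𝔐 ℓ d ι κ σ Ω θ := by
    intro σ hσ
    refine h2 G B C 𝔐 ℓ h𝔐 ι κ ρ h σ ω Ω d hωc ?_
    intro θ hθ hn
    obtain ⟨⟨η, hη1, hη2, hη3, hη4⟩⟩ := (Nat.card_ne_zero.mp hn).1
    obtain ⟨b, hb, hbg⟩ := h3 G B C 𝔐 ℓ n h𝔐 hℓ ι κ ρ h χ ξ hχ hξ hover P₁ P x₀ hA σ hσ θ hθ η
      hη1 hη2 (fun x => by rw [hη4 x, hΩ])
    exact ⟨b, hb, fun g => by rw [hbg, hω]⟩
  -- the stabilizer of the block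
  obtain ⟨R, hR⟩ : ∃ R, R = (Sw κ ∅ ω).map ρ := ⟨_, rfl⟩
  have hRc : R.comap ρ = Sw κ ∅ ω := by
    rw [hR]
    exact Sw_comap h hωc
  have hinv : ∀ (b : ↥(R.comap ρ)) (g : G), ω (kR κ ρ R b g) = ω g := by
    intro b g
    have hb : (b : B) ∈ Sw κ ∅ ω := by
      rw [← hRc]
      exact b.2
    exact hb.2 g
  have hfR : Fintype ↥(R.comap ρ) := Fintype.ofFinite _
  have hfx := h4 G ↥(R.comap ρ) R 𝔐 ℓ n h𝔐 hℓ (iR h R) (kR κ ρ R) (pR ρ R) (locN_R h R) ω P₁ P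
    x₀ hA' hinv hex
  have hRP : (Sw κ {P₁} ω).map ρ = R := by
    apply le_antisymm
    · rw [hR]
      apply Subgroup.map_mono
      intro b hb
      exact ⟨by simp, hb.2⟩
    · intro c hc
      have h5 : (⟨c, hc⟩ : R) ∈ (YS (iR h R) {P₁}).map (pR ρ R) := by
        rw [hfx]
        exact Subgroup.mem_top _
      obtain ⟨y, hy, hyc⟩ := h5
      rw [YS_R h] at hy
      have hy1 : (y : B) ∈ YS ι {P₁} := hy
      rw [mem_YS_iff h.cl] at hy1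
      exact ⟨(y : B), ⟨hy1, hinv y⟩, congrArg Subtype.val hyc⟩
  -- the bijection
  obtain ⟨Φ, hbij, hΦ⟩ := h0 G ↥(R.comap ρ) R 𝔐 ℓ n h𝔐 hℓ hℓ2 (iR h R) (kR κ ρ R) (pR ρ R)
    (locN_R h R) ω P₁ P x₀ ⟨hA', hinv, hex⟩
  have hStx : ∀ (σ : Finset (Subgroup G)) (θ : G → ℂ), (∀ g, cg 𝔐 θ g = ω g) →
      Stx κ σ θ ≤ R.comap ρ := by
    intro σ θ hθ b hb
    rw [hRc]
    refine ⟨by simp, fun g => ?_⟩
    rw [← hθ, ← hθ]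
    exact FIXW.cg_stx 𝔐 hb g
  have hmap : ∀ θ ∈ XS 𝔐 ω, (Stx κ ∅ θ).map ρ = (Stx κ {P₁} (Φ θ)).map ρ := by
    intro θ hθ
    have hθ' := hbij.mapsTo hθ
    rw [map_Stx_R κ ρ R ∅ θ (hStx _ _ hθ.2), map_Stx_R κ ρ R {P₁} (Φ θ) (hStx _ _ hθ'.2),
      (hΦ θ hθ).1]
  have hceq : ∀ θ ∈ XS 𝔐 ω, nC 𝔐 ℓ d ι κ ∅ Ω θ = nC 𝔐 ℓ d ι κ {P₁} Ω (Φ θ) := by
    intro θ hθ
    exact h1 G B C 𝔐 ℓ n h𝔐 hℓ hℓ2 ι κ ρ h ω P₁ P x₀ hA' hex θ hθ (Φ θ) (hbij.mapsTo hθ)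
      (hmap θ hθ) (hΦ θ hθ).2 Ω d
  have hmem : ∀ (σ : Finset (Subgroup G)) (θ : G → ℂ),
      θ ∈ (irrOn (stb σ)).filter (fun θ => ∀ g, cg 𝔐 θ g = ω g) ↔
        IrrOn (stb σ) θ ∧ ∀ g, cg 𝔐 θ g = ω g := by
    intro σ θ
    rw [Finset.mem_filter, CLIFF.mem_irrOn]
  have hsum : ∑ θ ∈ irrOn (stb (∅ : Finset (Subgroup G))) with (∀ g, cg 𝔐 θ g = ω g),
        (Nat.card ((Stx κ ∅ θ).map ρ) : ℚ) * nC 𝔐 ℓ d ι κ ∅ Ω θ =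
      ∑ θ ∈ irrOn (stb {P₁}) with (∀ g, cg 𝔐 θ g = ω g),
        (Nat.card ((Stx κ {P₁} θ).map ρ) : ℚ) * nC 𝔐 ℓ d ι κ {P₁} Ω θ := by
    refine Finset.sum_bij (fun θ _ => Φ θ) ?_ ?_ ?_ ?_
    · intro θ hθ
      rw [hmem] at hθ ⊢
      exact hbij.mapsTo hθ
    · intro θ hθ θ' hθ' he
      rw [hmem] at hθ hθ'
      exact hbij.injOn hθ hθ' he
    · intro ψ hψ
      rw [hmem] at hψ
      obtain ⟨θ, hθ, he⟩ := hbij.surjOn hψ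
      exact ⟨θ, (hmem _ _).mpr hθ, he⟩
    · intro θ hθ
      rw [hmem] at hθ
      rw [hmap θ hθ, hceq θ hθ]
  have h6 := hcag ∅ (Or.inl rfl)
  have h7 := hcag {P₁} (Or.inr rfl)
  rw [hsum, ← h7, ← hR, hRP] at h6
  have hRne : (Nat.card R : ℚ) ≠ 0 := by
    exact_mod_cast Nat.card_pos.ne'
  have h8 := mul_left_cancel₀ hRne h6
  have h9 : cnt 𝔐 ℓ d (YS ι ∅).subtype Ω = cnt 𝔐 ℓ d (MonoidHom.id B) Ω :=
    cnt_comp_equiv 𝔐 ℓ d ((MulEquiv.subgroupCongr (YS_empty h.cl)).trans Subgroup.topEquiv)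
      (MonoidHom.id B) Ω
  rw [← h9]
  exact_mod_cast h8

end Pool.Agent.RCB
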