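import Mathlib
import Pool.Agent.RCB.St2

/-!
# Theorem P1, module MTD: the multiplicities of the characters of the block, general case
-/

namespace Pool.Agent.RCB

open Pool.Agent.DP Pool.Agent.DPV Pool.Agent.DPB Pool.Agent.DPW Pool.Agent.DPX
open Pool.Agent.Lib_helper13 Representation

namespace MTD

/-! ### The combinatorial part -/

section Comb

variable {F : Type}

open Classical in
/-- The function `h` is constant on `I` up to a jump `± 1` on the class of `φ`. -/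
def Mt (I : Set F) (R : F → F → Prop) (h : F → ℤ) (φ : F) : Prop :=
  ∃ a b : ℤ, (b = 1 ∨ b = -1) ∧ ∀ φ' ∈ I, h φ' = a + if R φ φ' then b else 0

variable {I : Set F} {R : F → F → Prop} {φ₁ : F} {e r : ℕ}

/-- Three classes are not covered by two of them. -/
theorem exists_third (hr : 2 ≤ r) (hI : Nat.card I = e * r + 1)
    (hcl : ∀ φ ∈ I, Nat.card {φ' : F // φ' ∈ I ∧ R φ φ'} ≤ e) (φ φ' : F) (h : φ ∈ I)
    (h' : φ' ∈ I) : ∃ ψ ∈ I, ¬ R φ ψ ∧ ¬ R φ' ψ := by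
  classical
  by_contra hcon
  push Not at hcon
  have hfin : I.Finite := by
    apply Set.finite_of_ncard_ne_zero
    rw [← Nat.card_coe_set_eq, hI]
    omega
  have hsub : I ⊆ {ψ | ψ ∈ I ∧ R φ ψ} ∪ {ψ | ψ ∈ I ∧ R φ' ψ} := by
    intro ψ hψ
    by_cases h1 : R φ ψ
    · exact Or.inl ⟨hψ, h1⟩
    · exact Or.inr ⟨hψ, hcon ψ hψ h1⟩
  have hf1 : {ψ | ψ ∈ I ∧ R φ ψ}.Finite := hfin.subset fun x hx => hx.1
  have hf2 : {ψ | ψ ∈ I ∧ R φ' ψ}.Finite := hfin.subset fun x hx => hx.1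
  have h1 := Set.ncard_le_ncard hsub (hf1.union hf2)
  have h2 := Set.ncard_union_le {ψ | ψ ∈ I ∧ R φ ψ} {ψ | ψ ∈ I ∧ R φ' ψ}
  have h3 : Set.ncard {ψ | ψ ∈ I ∧ R φ ψ} ≤ e := by
    rw [← Nat.card_coe_set_eq]
    exact hcl φ h
  have h4 : Set.ncard {ψ | ψ ∈ I ∧ R φ' ψ} ≤ e := by
    rw [← Nat.card_coe_set_eq]
    exact hcl φ' h'
  rw [← Nat.card_coe_set_eq I, hI] at h1
  have : e * 2 ≤ e * r := Nat.mul_le_mul_left e hr
  omega

theorem Mt.uniq (hr : 2 ≤ r) (hI : Nat.card I = e * r + 1)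
    (hrefl : ∀ φ, R φ φ) (hcl : ∀ φ ∈ I, Nat.card {φ' : F // φ' ∈ I ∧ R φ φ'} ≤ e)
    {h : F → ℤ} {φ φ' : F} (hφ : φ ∈ I) (hφ' : φ' ∈ I) (hM : Mt I R h φ) (hM' : Mt I R h φ')
    (hsymm : ∀ a b, R a b → R b a) : R φ φ' := by
  classical
  by_contra hne
  obtain ⟨ψ, hψ, h1, h2⟩ := exists_third hr hI hcl φ φ' hφ hφ'
  obtain ⟨a, b, hb, hab⟩ := hM
  obtain ⟨a', b', hb', hab'⟩ := hM'
  have e1 := hab ψ hψ
  have e2 := hab' ψ hψ
  have e3 := hab φ hφ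
  have e4 := hab' φ hφ
  rw [if_neg h1] at e1
  rw [if_neg h2] at e2
  rw [if_pos (hrefl φ)] at e3
  rw [if_neg fun h => hne (hsymm _ _ h)] at e4
  rcases hb with rfl | rfl <;> omega

/-- The setoid of the classes different from that of `φ₁`. -/
def st (I : Set F) (R : F → F → Prop) (φ₁ : F) (hrefl : ∀ φ, R φ φ)
    (hsymm : ∀ a b, R a b → R b a) (htrans : ∀ a b c, R a b → R b c → R a c) :
    Setoid {φ : F // φ ∈ I ∧ φ ≠ φ₁} where
  r x y := R x.1 y.1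
  iseqv := ⟨fun x => hrefl x.1, fun {x y} h => hsymm x.1 y.1 h,
    fun {x y z} h h' => htrans x.1 y.1 z.1 h h'⟩

open Classical in
/-- The combinatorial core. -/
theorem core (hLML : Stmt_LML) {X : Type} [Fintype X] (he : 0 < e) (hr : 2 ≤ r)
    (hI : Nat.card I = e * r + 1) (hrefl : ∀ φ, R φ φ) (hsymm : ∀ a b, R a b → R b a)
    (htrans : ∀ a b c, R a b → R b c → R a c) (h1 : φ₁ ∈ I) (h1' : ∀ φ, R φ₁ φ → φ = φ₁)
    (hcl : ∀ φ ∈ I, φ ≠ φ₁ → Nat.card {φ' : F // φ' ∈ I ∧ R φ φ'} = e)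
    (hX : Fintype.card X = e + r) (a : X → F → ℤ)
    (hinv : ∀ x, ∀ φ ∈ I, ∀ φ', R φ φ' → a x φ = a x φ')
    (hrow : ∀ x, ∃ φ ∈ I, ∃ φ' ∈ I, a x φ ≠ a x φ')
    (hgrm : ∀ φ ∈ I, ∀ φ' ∈ I, φ ≠ φ₁ → φ' ≠ φ₁ →
      ∑ x, (a x φ - a x φ₁) * (a x φ' - a x φ₁) = (e : ℤ) + if R φ φ' then 1 else 0) :
    (∀ x, ∃ φ ∈ I, Mt I R (a x) φ) ∧
    (∀ h : F → ℤ, ∀ φ ∈ I, ∀ φ' ∈ I, Mt I R h φ → Mt I R h φ' → R φ φ') ∧
    Nat.card {x // Mt I R (a x) φ₁} = e ∧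
    ∀ φ ∈ I, φ ≠ φ₁ → Nat.card {x // Mt I R (a x) φ} = 1 := by
  have hfin : I.Finite := by
    apply Set.finite_of_ncard_ne_zero
    rw [← Nat.card_coe_set_eq, hI]
    omega
  have hcl' : ∀ φ ∈ I, Nat.card {φ' : F // φ' ∈ I ∧ R φ φ'} ≤ e := by
    intro φ hφ
    by_cases h : φ = φ₁
    · have : Subsingleton {φ' : F // φ' ∈ I ∧ R φ φ'} :=
        ⟨fun x y => Subtype.ext (by
          rw [h1' x.1 (h ▸ x.2.2), h1' y.1 (h ▸ y.2.2)])⟩
      have := Finite.card_le_one_iff_subsingleton.2 this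
      omega
    · exact (hcl φ hφ h).le
  have huniq : ∀ h : F → ℤ, ∀ φ ∈ I, ∀ φ' ∈ I, Mt I R h φ → Mt I R h φ' → R φ φ' :=
    fun h φ hφ φ' hφ' hM hM' => Mt.uniq hr hI hrefl hcl' hφ hφ' hM hM' hsymm
  -- the classes
  let J := {φ : F // φ ∈ I ∧ φ ≠ φ₁}
  have hJ0 : {φ : F | φ ∈ I ∧ φ ≠ φ₁}.Finite := hfin.subset fun x hx => hx.1
  have hJfin : Finite J := hJ0.to_subtype
  have : Fintype J := Fintype.ofFinite J
  let s := st I R φ₁ hrefl hsymm htrans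
  let S := Quotient s
  have : Fintype S := Fintype.ofFinite S
  have hJcard : Fintype.card J = e * r := by
    have e1 : Nat.card J = Set.ncard (I \ {φ₁}) := by
      rw [← Nat.card_coe_set_eq]
      rfl
    rw [← Nat.card_eq_fintype_card, e1, Set.ncard_sdiff_singleton_of_mem h1,
      ← Nat.card_coe_set_eq, hI]
    omega
  have hne1 : ∀ φ φ' : F, φ ≠ φ₁ → R φ φ' → φ' ≠ φ₁ := by
    intro φ φ' h h2 h3
    subst h3
    exact h (h1' φ (hsymm _ _ h2))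
  have hfib : ∀ y : S, Fintype.card {x : J // (Quotient.mk s x) = y} = e := by
    intro y
    induction y using Quotient.inductionOn with
    | h φ =>
      rw [← Nat.card_eq_fintype_card, ← hcl φ.1 φ.2.1 φ.2.2]
      refine Nat.card_congr ⟨fun x => ⟨x.1.1, x.1.2.1, ?_⟩, fun φ' => ⟨⟨φ'.1, φ'.2.1, ?_⟩, ?_⟩,
        ?_, ?_⟩
      · exact hsymm _ _ (Quotient.exact x.2)
      · exact hne1 _ _ φ.2.2 φ'.2.2
      · exact Quotient.sound (hsymm _ _ φ'.2.2)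
      · intro x
        rfl
      · intro x
        rfl
  have hS : Fintype.card S = r := by
    have e1 := Fintype.card_congr (Equiv.sigmaFiberEquiv (Quotient.mk s))
    rw [Fintype.card_sigma, Finset.sum_congr rfl fun y _ => hfib y, Finset.sum_const,
      Finset.card_univ, smul_eq_mul] at e1
    have e2 : Fintype.card S * e = r * e := by
      rw [e1, mul_comm r e]
      convert hJcard using 1
    exact Nat.eq_of_mul_eq_mul_right he e2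
  -- the rows
  let v : X → S → ℤ := fun x y => a x (Quotient.out y).1 - a x φ₁
  have hav : ∀ x (φ : F) (hφ : φ ∈ I) (hne : φ ≠ φ₁),
      a x φ = a x φ₁ + v x (Quotient.mk s ⟨φ, hφ, hne⟩) := by
    intro x φ hφ hne
    have h2 : R (Quotient.out (Quotient.mk s ⟨φ, hφ, hne⟩)).1 φ := Quotient.mk_out (s := s) _
    have h3 := hinv x φ hφ _ (hsymm _ _ h2)
    simp only [v]
    rw [h3]
    ring
  have hv0 : ∀ x, ∃ y, v x y ≠ 0 := by
    intro x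
    by_contra hcon
    push Not at hcon
    have hconst : ∀ φ ∈ I, a x φ = a x φ₁ := by
      intro φ hφ
      by_cases h : φ = φ₁
      · rw [h]
      · rw [hav x φ hφ h, hcon, add_zero]
    obtain ⟨φ, hφ, φ', hφ', hne⟩ := hrow x
    exact hne (by rw [hconst φ hφ, hconst φ' hφ'])
  have hvg : ∀ y y', ∑ x, v x y * v x y' = (e : ℤ) + if y = y' then 1 else 0 := by
    intro y y'
    have h2 := hgrm (Quotient.out y).1 (Quotient.out y).2.1 (Quotient.out y').1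
      (Quotient.out y').2.1 (Quotient.out y).2.2 (Quotient.out y').2.2
    have h3 : (R (Quotient.out y).1 (Quotient.out y').1) ↔ y = y' :=
      ⟨fun h => by
        have := Quotient.sound (s := s) h
        rwa [Quotient.out_eq, Quotient.out_eq] at this,
      fun h => by rw [h]; exact hrefl _⟩
    simp only [v]
    rw [h2]
    congr 1
    by_cases hy : y = y'
    · rw [if_pos hy, if_pos (h3.2 hy)]
    · rw [if_neg hy, if_neg fun h => hy (h3.1 h)]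
  obtain ⟨Z, f, hZ, hZ1, hZ2, hZ3⟩ := hLML X S e r hS hX hr v hv0 (by
    intro y y'
    convert hvg y y')
  have hMZ : ∀ x ∈ Z, Mt I R (a x) φ₁ := by
    intro x hx
    obtain ⟨b, hb, hbv⟩ := hZ1 x hx
    refine ⟨a x φ₁ + b, -b, ?_, ?_⟩
    · rcases hb with rfl | rfl
      · exact Or.inr rfl
      · exact Or.inl (by norm_num)
    · intro φ' hφ'
      by_cases h : φ' = φ₁
      · rw [h, if_pos (hrefl _)]
        ring
      · rw [if_neg fun h2 => h (h1' φ' h2), hav x φ' hφ' h, hbv]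
        ring
  have hMN : ∀ x, x ∉ Z → ∀ φ ∈ I, ∀ hne : φ ≠ φ₁, ∀ hφ : φ ∈ I,
      Quotient.mk s ⟨φ, hφ, hne⟩ = f x → Mt I R (a x) φ := by
    intro x hx φ _ hne hφ hf
    obtain ⟨b, hb, hbv⟩ := hZ2 x hx
    refine ⟨a x φ₁, b, hb, ?_⟩
    intro φ' hφ'
    by_cases h : φ' = φ₁
    · rw [h, if_neg fun h2 => hne (h1' φ (hsymm _ _ h2)), add_zero]
    · rw [hav x φ' hφ' h, hbv, ← hf]
      congr 1
      by_cases h4 : R φ φ'
      · rw [if_pos h4, if_pos (Quotient.sound (s := s) (hsymm _ _ h4))]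
      · rw [if_neg h4, if_neg fun h5 => h4 (hsymm _ _ (Quotient.exact (s := s) h5))]
  have hMf : ∀ x, x ∉ Z → Mt I R (a x) (Quotient.out (f x)).1 := by
    intro x hx
    exact hMN x hx _ (Quotient.out (f x)).2.1 (Quotient.out (f x)).2.2 (Quotient.out (f x)).2.1
      (Quotient.out_eq (f x))
  refine ⟨?_, huniq, ?_, ?_⟩
  · intro x
    by_cases hx : x ∈ Z
    · exact ⟨φ₁, h1, hMZ x hx⟩
    · exact ⟨_, (Quotient.out (f x)).2.1, hMf x hx⟩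
  · have h2 : ∀ x, Mt I R (a x) φ₁ ↔ x ∈ Z := by
      intro x
      refine ⟨fun h => ?_, hMZ x⟩
      by_contra hx
      have h3 := huniq _ _ (Quotient.out (f x)).2.1 φ₁ h1 (hMf x hx) h
      exact (Quotient.out (f x)).2.2 (h1' _ (hsymm _ _ h3))
    rw [Nat.card_congr (Equiv.subtypeEquivRight h2), Nat.card_eq_fintype_card,
      Fintype.card_coe, hZ]
  · intro φ hφ hne
    obtain ⟨x₀, ⟨hx0, hf0⟩, hu⟩ := hZ3 (Quotient.mk s ⟨φ, hφ, hne⟩)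
    rw [Nat.card_eq_one_iff_unique]
    refine ⟨⟨fun x y => Subtype.ext ?_⟩, ⟨⟨x₀, hMN x₀ hx0 φ hφ hne hφ hf0.symm⟩⟩⟩
    have key : ∀ x, Mt I R (a x) φ → x = x₀ := by
      intro x hx
      have hxZ : x ∉ Z := fun h =>
        hne (h1' φ (huniq _ φ₁ h1 φ hφ (hMZ x h) hx))
      refine hu x ⟨hxZ, ?_⟩
      have h3 := huniq _ _ (Quotient.out (f x)).2.1 φ hφ (hMf x hxZ) hx
      rw [← Quotient.out_eq (f x)]
      exact Quotient.sound (s := s) h3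
    rw [key x.1 x.2, key y.1 y.2]

end Comb

/-! ### Conjugation -/

section Conj

variable {N : Type} [Group N] {C : Subgroup N} [C.Normal]

theorem cj_mul (g h : N) (φ : C → ℂ) : cj C g (cj C h φ) = cj C (h * g) φ := by
  funext c
  simp only [cj, map_mul, MulAut.mul_apply]

theorem cj_one (φ : C → ℂ) : cj C 1 φ = φ := by
  funext c
  simp only [cj, map_one, MulAut.one_apply]

theorem cj_mem [Fintype C] {φ : C → ℂ} (h : IsIrr φ) {g : N} (hg : g ∈ C) : cj C g φ = φ := by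
  funext c
  have h2 : MulAut.conjNormal g c = (⟨g, hg⟩ : C) * c * (⟨g, hg⟩ : C)⁻¹ := by
    apply Subtype.ext
    simp [MulAut.conjNormal_apply]
  simp only [cj, h2]
  exact h.conj_eq _ _

theorem card_cls [Fintype C] (S : Subgroup N) (I : Set (C → ℂ)) {φ : C → ℂ} (hφ : IsIrr φ)
    (hI : ∀ g ∈ S, cj C g φ ∈ I) (hst : ∀ g ∈ S, cj C g φ = φ → g ∈ C) :
    Nat.card {φ' // φ' ∈ I ∧ ∃ g ∈ S, φ' = cj C g φ} = C.relIndex S := by
  classical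
  symm
  have hwd : ∀ g h : S, (QuotientGroup.leftRel (C.subgroupOf S)) g h →
      cj C ((g : N)⁻¹) φ = cj C ((h : N)⁻¹) φ := by
    intro g h hgh
    rw [QuotientGroup.leftRel_apply, Subgroup.mem_subgroupOf] at hgh
    have e1 : ((h : N)⁻¹) = ((g : N)⁻¹ * h)⁻¹ * (g : N)⁻¹ := by group
    have e2 : ((g : N)⁻¹ * h) ∈ C := hgh
    rw [e1, ← cj_mul, cj_mem hφ (C.inv_mem e2)]
  let F : (S ⧸ C.subgroupOf S) → {φ' // φ' ∈ I ∧ ∃ g ∈ S, φ' = cj C g φ} :=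
    fun q => Quotient.liftOn' q (fun g : S => ⟨cj C ((g : N)⁻¹) φ, hI _ (S.inv_mem g.2),
      (g : N)⁻¹, S.inv_mem g.2, rfl⟩) fun g h hgh => Subtype.ext (hwd g h hgh)
  have hF : Function.Bijective F := by
    constructor
    · intro x y hxy
      induction x using Quotient.inductionOn' with
      | h g =>
        induction y using Quotient.inductionOn' with
        | h h =>
          have h2 : cj C ((g : N)⁻¹) φ = cj C ((h : N)⁻¹) φ := congrArg Subtype.val hxy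
          apply Quotient.sound'
          rw [QuotientGroup.leftRel_apply, Subgroup.mem_subgroupOf]
          have h3 := congrArg (cj C (g : N)) h2
          rw [cj_mul, cj_mul, inv_mul_cancel, cj_one] at h3
          have h4 := hst ((h : N)⁻¹ * g) (S.mul_mem (S.inv_mem h.2) g.2) h3.symm
          have h5 := C.inv_mem h4
          simpa using h5
    · rintro ⟨φ', hφ', g, hg, rfl⟩
      refine ⟨Quotient.mk'' ⟨g⁻¹, S.inv_mem hg⟩, ?_⟩
      apply Subtype.ext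
      show cj C (((⟨g⁻¹, S.inv_mem hg⟩ : S) : N)⁻¹) φ = cj C g φ
      simp
  rw [Subgroup.relIndex, Subgroup.index]
  exact Nat.card_congr (Equiv.ofBijective F hF)

end Conj

end MTD

open MTD in
theorem MTD_thm (h0 : Stmt_ORC) (h1 : Stmt_TOT) (h2 : Stmt_AIN) (h3 : Stmt_GRM)
    (h4 : Stmt_ROW) (h5 : Stmt_LML) : Stmt_MTD := by
  intro T _ _ 𝔐 ℓ n _ h𝔐 hℓ χ₀ P₁ P x₀ _ C _ ψ₀ φ₀ hCf hlt
  classical
  obtain ⟨-, hCS, he, -, hIcard, hIS, -, -, φ₁, hφ₁, hinv1, hst⟩ :=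
    h0 T 𝔐 ℓ n h𝔐 hℓ χ₀ P₁ P x₀ C ψ₀ φ₀ hCf
  obtain ⟨r, hr1, hXc⟩ := h1 T 𝔐 ℓ n h𝔐 hℓ χ₀ P₁ P x₀ C ψ₀ φ₀ hCf
  obtain ⟨-, hai, -, -⟩ := h2 T 𝔐 ℓ n h𝔐 hℓ χ₀ P₁ P x₀ C ψ₀ φ₀ hCf
  have hg := h3 T 𝔐 ℓ n h𝔐 hℓ χ₀ P₁ P x₀ C ψ₀ φ₀ hCf φ₁ hφ₁ hinv1 hst
  have hrow := h4 T 𝔐 ℓ n h𝔐 hℓ χ₀ P₁ P x₀ C ψ₀ φ₀ hCf
  have hr : 2 ≤ r := by
    by_contra hcon
    have : r = 0 ∨ r = 1 := by omega
    rcases this with rfl | rfl
    · omega
    · omega
  let p : (T → ℂ) → Prop := fun χ => IsIrr χ ∧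
    cen 𝔐 (MonoidHom.id T) χ = cen 𝔐 (MonoidHom.id T) χ₀
  have hpF : ∀ χ, χ ∈ (irrF T).filter (fun χ => cen 𝔐 (MonoidHom.id T) χ =
      cen 𝔐 (MonoidHom.id T) χ₀) ↔ p χ := by
    intro χ
    rw [Finset.mem_filter, mem_irrF]
  let X := {χ // χ ∈ (irrF T).filter (fun χ => cen 𝔐 (MonoidHom.id T) χ =
      cen 𝔐 (MonoidHom.id T) χ₀)}
  have hX : Fintype.card X = C.relIndex (bS 𝔐 C φ₀) + r := by
    rw [← Nat.card_eq_fintype_card, ← hXc]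
    exact Nat.card_congr (Equiv.subtypeEquivRight hpF)
  have hrefl : ∀ φ, Cjg 𝔐 C φ₀ φ φ := fun φ => ⟨1, Subgroup.one_mem _, (cj_one φ).symm⟩
  have hsymm : ∀ a b, Cjg 𝔐 C φ₀ a b → Cjg 𝔐 C φ₀ b a := by
    rintro a b ⟨g, hg, rfl⟩
    exact ⟨g⁻¹, Subgroup.inv_mem _ hg, by rw [cj_mul, mul_inv_cancel, cj_one]⟩
  have htrans : ∀ a b c, Cjg 𝔐 C φ₀ a b → Cjg 𝔐 C φ₀ b c → Cjg 𝔐 C φ₀ a c := by
    rintro a b c ⟨g, hg, rfl⟩ ⟨h, hh, rfl⟩
    exact ⟨g * h, Subgroup.mul_mem _ hg hh, by rw [cj_mul]⟩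
  have hfix : ∀ φ, Cjg 𝔐 C φ₀ φ₁ φ → φ = φ₁ := by
    rintro φ ⟨g, hg, rfl⟩
    exact hinv1 g hg
  have hcl : ∀ φ ∈ II 𝔐 φ₀, φ ≠ φ₁ → Nat.card {φ' // φ' ∈ II 𝔐 φ₀ ∧ Cjg 𝔐 C φ₀ φ φ'} =
      C.relIndex (bS 𝔐 C φ₀) := fun φ hφ hne =>
    card_cls (bS 𝔐 C φ₀) (II 𝔐 φ₀) hφ.1 (fun g hg => (hIS φ hφ g).2 hg) (hst φ hφ hne)
  obtain ⟨c1, c2, c3, c4⟩ := core (I := II 𝔐 φ₀) (R := Cjg 𝔐 C φ₀) (φ₁ := φ₁) h5 (X := X)
    he hr (by rw [hIcard, hr1]) hrefl hsymm htrans hφ₁ hfix hcl hX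
    (fun x φ => ai C x.1 φ) (by
      rintro x φ hφ φ' ⟨g, hg, rfl⟩
      exact (hai x.1 φ g ((hpF x.1).1 x.2).1 hφ.1).symm)
    (fun x => hrow x.1 ((hpF x.1).1 x.2).1 ((hpF x.1).1 x.2).2)
    (by
      intro φ hφ φ' hφ' hne hne'
      have h6 := hg φ hφ φ' hφ' hne hne'
      rw [← h6]
      exact Finset.sum_coe_sort ((irrF T).filter (fun χ => cen 𝔐 (MonoidHom.id T) χ =
        cen 𝔐 (MonoidHom.id T) χ₀)) (fun χ => (ai C χ φ - ai C χ φ₁) *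
        (ai C χ φ' - ai C χ φ₁)))
  have hcard : ∀ φ, Nat.card {χ : T → ℂ // (IsIrr χ ∧
      cen 𝔐 (MonoidHom.id T) χ = cen 𝔐 (MonoidHom.id T) χ₀) ∧ MtA 𝔐 C φ₀ χ φ} =
      Nat.card {x : X // Mt (II 𝔐 φ₀) (Cjg 𝔐 C φ₀) (fun φ' => ai C x.1 φ') φ} := by
    intro φ
    refine Nat.card_congr ((Equiv.subtypeEquivRight ?_).trans
      (Equiv.subtypeSubtypeEquivSubtypeInter _ (fun χ => MtA 𝔐 C φ₀ χ φ)).symm)
    intro χ
    exact and_congr (hpF χ).symm Iff.rfl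
  refine ⟨?_, ?_, ?_⟩
  · intro χ hχ hχ'
    exact c1 ⟨χ, (hpF χ).2 ⟨hχ, hχ'⟩⟩
  · intro χ φ hφ φ' hφ' hM hM'
    exact c2 (fun φ' => ai C χ φ') φ hφ φ' hφ' hM hM'
  · intro φ hφ
    constructor
    · intro hinv
      rw [hcard]
      by_cases hne : φ = φ₁
      · rw [hne]
        exact c3
      · rw [c4 φ hφ hne]
        have hSC : bS 𝔐 C φ₀ ≤ C := fun g hg => hst φ hφ hne g hg (hinv g hg)
        rw [Subgroup.relIndex_eq_one.2 hSC]
    · intro hninv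
      rw [hcard]
      refine c4 φ hφ ?_
      rintro rfl
      exact hninv hinv1

end Pool.Agent.RCB
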