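import Pool.Agent.RCB.St2
import Pool.Agent.DPX.MT2X

/-!
# MTY: the second main theorem for the characters outside of the block
-/

set_option autoImplicit false

namespace Pool.Agent.RCB

open Pool.Agent.DP Pool.Agent.DPV Pool.Agent.DPB Pool.Agent.DPW Pool.Agent.DPX
open Pool.Agent.Lib_helper13
open Representation

namespace MTY

open Pool.Agent.DPX.MT2X

open Classical in
/-- the sum of the conjugates of the opposite map -/
lemma trS_neg {F V T : Type} [Field F] [AddCommGroup V] [Module F V] [Group T] [Fintype T]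
    (ρ : Representation F T V) (P : Subgroup T) (h : V →ₗ[F] V) :
    trS P ρ ρ (-h) = -trS P ρ ρ h := by
  rw [trS, trS, ← Finset.sum_neg_distrib]
  refine Finset.sum_congr rfl fun x _ => ?_
  split_ifs
  · rw [LinearMap.neg_comp, LinearMap.comp_neg]
  · rw [neg_zero]

open Classical in
/-- the data for the proof -/
lemma core (h1 : Stmt_VALX) (h2 : Stmt_FEXX) (h3 : Stmt_RLZX) (h5 : Stmt_IDOX)
    (h6 : Stmt_IDX) (h7 : Stmt_BKNX) (h9 : Stmt_KEX) (h10 : Stmt_ATNX)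
    {T : Type} [Group T] [Fintype T] {𝔐 : Ideal (integralClosure ℤ ℂ)} {ℓ n : ℕ}
    [Fact ℓ.Prime] (hmax : 𝔐.IsMaximal) (hℓ : (ℓ : integralClosure ℤ ℂ) ∈ 𝔐)
    {χ₀ χ : T → ℂ} (hχ₀ : IsIrr χ₀) (hχ : IsIrr χ) {P₁ P : Subgroup T} [Fintype (NP P₁)] {x₀ : T}
    (hAt : AtX ℓ n (cen 𝔐 (MonoidHom.id T) χ₀) P₁ P x₀)
    (hne : cen 𝔐 (MonoidHom.id T) χ ≠ cen 𝔐 (MonoidHom.id T) χ₀) :
    ∃ (O : ValuationSubring ℂ) (_ : VR ℓ 𝔐 O) (d : ℕ) (M : T →* Matrix (Fin d) (Fin d) O)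
      (eh : NP P₁ → O) (h : (Fin d → IsLocalRing.ResidueField O) →ₗ[IsLocalRing.ResidueField O]
        (Fin d → IsLocalRing.ResidueField O)),
      (∀ g, (((M g).trace : O) : ℂ) = χ g) ∧ (∀ g x, eh (g * x * g⁻¹) = eh x) ∧
      (∀ ψ : NP P₁ → ℂ, IsIrr ψ → wt ψ (fun x => (eh x : ℂ)) =
        if cen 𝔐 (Subgroup.normalizer (P₁ : Set T)).subtype ψ = cen 𝔐 (MonoidHom.id T) χ₀
          then 1 else 0) ∧
      0 = Zop (rN P₁ (redM M)) (fun x => IsLocalRing.residue O (eh x)) +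
        trS P (redM M) (redM M) h := by
  obtain ⟨O, hO⟩ := h1 𝔐 ℓ hmax hℓ
  obtain ⟨d, M, hd, hM, hMa⟩ := h3 O T χ hχ
  let _ : Field ((integralClosure ℤ ℂ) ⧸ 𝔐) := Ideal.Quotient.field 𝔐
  have hrs : Function.Surjective (Ideal.Quotient.mk 𝔐) := Ideal.Quotient.mk_surjective
  have hac : IsAlgClosed ((integralClosure ℤ ℂ) ⧸ 𝔐) := ACF_thm _ (Ideal.Quotient.mk 𝔐) hrs
  have hch : CharP ((integralClosure ℤ ℂ) ⧸ 𝔐) ℓ := by
    rw [CharP.charP_iff_prime_eq_zero (Fact.out : ℓ.Prime)]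
    rw [← map_natCast (Ideal.Quotient.mk 𝔐)]
    exact Ideal.Quotient.eq_zero_iff_mem.mpr hℓ
  have hchK : CharP (IsLocalRing.ResidueField O) ℓ := hO.chr
  obtain ⟨a, ha, hPrm, hval, -, -, hBK, -⟩ := h6 _ T 𝔐 ℓ hmax hℓ (Ideal.Quotient.mk 𝔐) hrs
    Ideal.mk_ker χ₀ hχ₀
  have hsep : CNTB.Sp 𝔐 a χ₀ := by
    intro χ' hχ'
    have h := hval χ' hχ'
    constructor
    · intro he
      rw [h, if_pos he]
    · intro h5
      by_contra hne
      rw [h, if_neg hne] at h5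
      exact zero_ne_one h5
  obtain ⟨hB, -⟩ := hBK n P₁ P x₀ hAt
  obtain ⟨-, -, hf3, hf4, -⟩ := h2 ℓ n _ _ T (ff hO)
  have hBO := hf3 P₁ P x₀ _ hB
  -- the value of `e`
  have hzero : Zop (redM M) (fun x => ff hO (Ideal.Quotient.mk 𝔐 (a x))) = 0 := by
    obtain ⟨w, hw, hw'⟩ := hMa (fun x => hO.inc (a x)) (fun g x => by rw [ha])
    have e1 : Zop (redM M) (fun x => ff hO (Ideal.Quotient.mk 𝔐 (a x))) =
        Matrix.toLin' ((mj M (fun x => hO.inc (a x))).map (IsLocalRing.residue O)) := by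
      rw [red_mj]
      rfl
    have hi := CNT.isInt hχ ha
    have e2 : w = hO.inc ⟨_, hi⟩ := Subtype.ext hw
    have e3 : IsLocalRing.residue O w = 0 := by
      rw [e2]
      show hO.res ⟨_, hi⟩ = 0
      rw [← ff_red hO hi, hval χ hχ, if_neg hne, map_zero]
    rw [e1, mj, hw', ← RingHom.mapMatrix_apply]
    have e4 : (IsLocalRing.residue O).mapMatrix (w • (1 : Matrix (Fin d) (Fin d) O)) = 0 := by
      ext i j
      rw [RingHom.mapMatrix_apply, Matrix.map_apply, Matrix.smul_apply, smul_eq_mul, map_mul, e3,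
        zero_mul]
      rfl
    rw [e4, map_zero]
  -- the point `x₀` is in the normalizer
  have hx : x₀ ∈ Subgroup.normalizer (P₁ : Set T) := by
    apply Subgroup.centralizer_le_normalizer
    rw [Subgroup.mem_centralizer_iff]
    intro u hu
    exact hAt.cd.cen u (hAt.cd.le hu)
  -- a character of the normalizer
  have hN1 := (h7.2 ℓ n _ T P₁ P x₀ _ hB).2 hx
  have hBN := hN1.2
  obtain ⟨ψ₀, hψ₀, hψ₀c⟩ : ∃ ψ₀ : NP P₁ → ℂ, IsIrr ψ₀ ∧
      cen 𝔐 (Subgroup.normalizer (P₁ : Set T)).subtype ψ₀ = cen 𝔐 (MonoidHom.id T) χ₀ := by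
    have hcard := CNTB.count_N (r := Ideal.Quotient.mk 𝔐) hmax hℓ hAt.cd.c1 Ideal.mk_ker ha hsep
    obtain ⟨y, hy, -⟩ := hBN.nz
    have hpos := pos_mlt hBN.cf hBN.idem hy
    rw [← hcard] at hpos
    obtain ⟨⟨ψ₀, h11, h12⟩⟩ := (Nat.card_pos_iff.1 hpos).1
    exact ⟨ψ₀, h11, h12⟩
  obtain ⟨-, hblk⟩ := h10 T 𝔐 ℓ n hmax hℓ χ₀ hχ₀ P₁ P x₀ hAt hx ψ₀ hψ₀ hψ₀c
  obtain ⟨eh, heh1, -, heh3, -, heh5⟩ := h5 𝔐 ℓ hmax hℓ O hO (NP P₁) ψ₀ hψ₀
  have hres : ∀ x, IsLocalRing.residue O (eh x) = hO.res (CNT.ba P₁ a x) := by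
    apply heh5 _ (CNT.ba_conj P₁ ha)
    · have e1 := congrArg (fun F : NP P₁ → (integralClosure ℤ ℂ) ⧸ 𝔐 => fun x => ff hO (F x))
        hBN.idem
      rw [CNT.brz_eq] at e1
      have e2 := (h2 ℓ n _ _ (NP P₁) (ff hO)).1 (fun x => Ideal.Quotient.mk 𝔐 (CNT.ba P₁ a x))
        (fun x => Ideal.Quotient.mk 𝔐 (CNT.ba P₁ a x))
      exact e2.trans e1
    · intro ψ hψ
      obtain ⟨⟨χ', hχ', hc⟩, hL, -⟩ := LOC_thm T 𝔐 ℓ hmax hℓ P₁ hAt.cd.c1 ψ hψ
      have hr := hL χ' hχ' hc a ha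
      have hfun : (fun n : NP P₁ => brz (F := ℂ) P₁ (fun h => (a h : ℂ)) n) =
          fun n => (CNT.ba P₁ a n : ℂ) := funext fun n => CNT.brz_eq_coe P₁ a n
      rw [hfun] at hr
      rw [hr, hval χ' hχ', hc]
      exact if_congr (hblk ψ hψ).symm rfl rfl
  obtain ⟨⟨h, hh⟩, -⟩ := h9 ℓ n _ T (Fin d → IsLocalRing.ResidueField O) P₁ P x₀ _ hBO (redM M)
  refine ⟨O, hO, d, M, eh, h, hM, heh1, ?_, ?_⟩
  · intro ψ hψ
    rw [heh3 ψ hψ]
    exact if_congr (hblk ψ hψ) rfl rfl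
  · rw [← hzero, hh]
    congr 2
    rw [hf4 P₁, CNT.brz_eq]
    funext x
    rw [hres]
    rfl

end MTY

open Pool.Agent.DPX.MT2X

open Classical in
/-- MTY: the second main theorem for the characters outside of the block. -/
theorem MTY_thm (h1 : Stmt_VALX) (h2 : Stmt_FEXX) (h3 : Stmt_RLZX) (h4 : Stmt_VANX)
    (h5 : Stmt_IDOX) (h6 : Stmt_IDX) (h7 : Stmt_BKNX) (h8 : Stmt_PRMX) (h9 : Stmt_KEX)
    (h10 : Stmt_ATNX) : Stmt_MTY := by
  have _ := h8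
  intro T _ _ 𝔐 ℓ n hℓp hmax hℓ χ₀ hχ₀ P₁ P _ x₀ hAt χ hχ hne g hg
  obtain ⟨O, hO, d, M, eh, h, hM, heh1, heh3, hzero⟩ :=
    MTY.core h1 h2 h3 h5 h6 h7 h9 h10 hmax hℓ hχ₀ hχ hAt hne
  have hchK : CharP (IsLocalRing.ResidueField O) ℓ := hO.chr
  have hcf : (fun x => (eh x : ℂ)) ∈ CF ℂ (NP P₁) := by
    intro g x
    show ((eh (g * x * g⁻¹) : O) : ℂ) = (eh x : ℂ)
    rw [heh1]
  have hid : mj (mN M P₁) eh * mj (mN M P₁) eh = mj (mN M P₁) eh := by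
    apply mj_idem
    apply idem_of_wt hcf
    intro ψ hψ
    rw [heh3 ψ hψ]
    split_ifs
    · exact Or.inr rfl
    · exact Or.inl rfl
  set J := mj (mN M P₁) eh with hJ
  have hred : Matrix.toLin' (J.map (IsLocalRing.residue O)) =
      trS P (redM M) (redM M) (-h) := by
    rw [MTY.trS_neg, hJ, red_mj, redM_mN]
    exact eq_neg_of_add_eq_zero_left hzero.symm
  have htr : ∀ g : NP P₁, (((J * M (g : T)).trace : O) : ℂ) =
      ∑ ψ ∈ irrF (NP P₁) with cen 𝔐 (Subgroup.normalizer (P₁ : Set T)).subtype ψ =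
          cen 𝔐 (MonoidHom.id T) χ₀, ip (fun s : NP P₁ => χ s) ψ * ψ g := by
    intro g
    have e1 := trace_mj (mN M P₁) hcf g
    have e2 : (fun n : NP P₁ => (((mN M P₁ n).trace : O) : ℂ)) = fun s : NP P₁ => χ s :=
      funext fun s => hM s
    rw [e2] at e1
    rw [Finset.sum_filter]
    refine e1.trans (Finset.sum_congr rfl fun ψ hψ => ?_)
    rw [heh3 ψ (mem_irrF.1 hψ)]
    split_ifs
    · rw [one_mul]
    · rw [zero_mul, mul_zero]
  rw [← htr g]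
  obtain ⟨k, r, u, s, hu, hs, hus, hu1, hs1, hr, hz, hord⟩ := dec hAt.cd.c1 hg
  have hle : Subgroup.zpowers (g : T) ≤ Subgroup.normalizer (P₁ : Set T) := by
    rw [Subgroup.zpowers_le]
    exact g.2
  have hcomm : ∀ x ∈ Subgroup.zpowers (g : T), M x * J = J * M x := by
    intro x hx
    exact mj_comm (mN M P₁) heh1 ⟨x, hle hx⟩
  have husc : u * s = s * u := by
    obtain ⟨i, rfl⟩ := Subgroup.mem_zpowers_iff.1 hu
    obtain ⟨j, rfl⟩ := Subgroup.mem_zpowers_iff.1 hs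
    exact (Commute.zpow_zpow_self (g : T) i j)
  have hv := h4 O ℓ k r d hO.chr hr (M u) (M s) J
    (by rw [← map_pow, hu1, map_one]) (by rw [← map_pow, hs1, map_one]) hid
    (by rw [← map_mul, ← map_mul, husc]) (hcomm u hu) (hcomm s hs)
    (by
      intro v hv1 hv2
      rw [← map_pow] at hv2
      have e1 : trS P (redM M) (redM M) (-h) v = v := by
        rw [← hred]
        exact hv1
      obtain ⟨w, hw⟩ := fix_tr (redM M) hAt.cd.le (-h) hz (v := v) hv2 e1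
      refine ⟨w, hw.trans ?_⟩
      rw [hord]
      refine Finset.sum_congr rfl fun i _ => ?_
      rw [← map_pow M u, ← map_pow M]
      rfl)
  have e1 : (M u * M s * J).trace = (J * M (g : T)).trace := by
    rw [← map_mul, hus, Matrix.trace_mul_comm (M (g : T)) J]
  rw [e1] at hv
  rw [hv]
  exact ZeroMemClass.coe_zero O

end Pool.Agent.RCB
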