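import Mathlib
import Pool.Agent.RCB.St2
import Pool.Agent.DPX.FRXX

/-!
# RCB_ORC: the action of the stabilizer on the block of the centralizer
-/

namespace Pool.Agent.RCB

open Pool.Agent.DP Pool.Agent.DPV Pool.Agent.DPB Pool.Agent.DPW Pool.Agent.DPX
open Pool.Agent.Lib_helper13 Representation

namespace ORC

open Pool.Agent.DPX.FRXX (comm_act cen_aut)

section

variable {N : Type} [Group N] {ℓ : ℕ} [hℓ : Fact ℓ.Prime]

/-- The quotient by the centralizer of a normal subgroup of prime order is cyclic. -/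
theorem cyc (P₁ : Subgroup N) [P₁.Normal] (hPc : Nat.card P₁ = ℓ) (C : Subgroup N)
    (hC : C = Subgroup.centralizer (P₁ : Set N)) (B : Subgroup N) :
    ∃ s ∈ B, ∀ g ∈ B, ∃ k : ℤ, g * s ^ k ∈ C := by
  have hcyc : IsCyclic P₁ := isCyclic_of_prime_card hPc
  let f : N →* MulAut P₁ := MulAut.conjNormal
  have hker : ∀ x, f x = 1 → x ∈ C := by
    intro x hx
    rw [hC, Subgroup.mem_centralizer_iff]
    intro u hu
    have h1 : ((f x) ⟨u, hu⟩ : N) = u := by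
      rw [hx]
      rfl
    have h2 : x * u * x⁻¹ = u := h1
    exact (mul_inv_eq_iff_eq_mul.mp h2).symm
  have hM : IsCyclic (MulAut P₁) := by
    have e1 := IsCyclic.mulAutMulEquiv P₁
    rw [hPc] at e1
    exact isCyclic_of_surjective e1.symm e1.symm.surjective
  have hB : IsCyclic (B.map f) := inferInstance
  obtain ⟨⟨z, hz⟩, hz2⟩ := hB.exists_generator
  obtain ⟨s, hs, rfl⟩ := Subgroup.mem_map.1 hz
  refine ⟨s, hs, fun g hg => ?_⟩
  obtain ⟨k, hk⟩ := Subgroup.mem_zpowers_iff.1 (hz2 ⟨f g, Subgroup.mem_map_of_mem f hg⟩)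
  have hk2 : f s ^ k = f g := congrArg Subtype.val hk
  refine ⟨-k, hker _ ?_⟩
  rw [map_mul, map_zpow, zpow_neg, hk2, mul_inv_cancel]

end

theorem core (h1 : Stmt_ACTX) {N : Type} [Group N] [Fintype N]
    (𝔐 : Ideal (integralClosure ℤ ℂ)) (ℓ n : ℕ) [Fact ℓ.Prime] (h𝔐 : 𝔐.IsMaximal)
    (hℓ : (ℓ : integralClosure ℤ ℂ) ∈ 𝔐) (P₁ : Subgroup N) [P₁.Normal] (C : Subgroup N)
    [C.Normal] (hPc : Nat.card P₁ = ℓ) (hC : C = Subgroup.centralizer (P₁ : Set N))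
    (φ₀ : C → ℂ) (P : Subgroup C) (x₀ : C) (hφ₀ : IsIrr φ₀)
    (hat : AtX ℓ n (cen 𝔐 (MonoidHom.id C) φ₀) (P₁.subgroupOf C) P x₀) :
    ∃ φ₁ ∈ II 𝔐 φ₀, (∀ g ∈ bS 𝔐 C φ₀, cj C g φ₁ = φ₁) ∧
      ∀ φ ∈ II 𝔐 φ₀, φ ≠ φ₁ → ∀ g ∈ bS 𝔐 C φ₀, cj C g φ = φ → g ∈ C := by
  classical
  have hlp : ℓ.Prime := Fact.out
  have hCmem : ∀ x, x ∈ C ↔ ∀ u ∈ P₁, x * u = u * x := by
    intro x
    rw [hC, Subgroup.mem_centralizer_iff]
    exact ⟨fun h u hu => (h u hu).symm, fun h u hu => (h u hu).symm⟩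
  have hcyc : IsCyclic P₁ := isCyclic_of_prime_card hPc
  have hcomm := comm_act P₁ ℓ hPc
  have hBmem : ∀ g, g ∈ bS 𝔐 C φ₀ ↔ ∀ x, cen 𝔐 (MonoidHom.id C) φ₀ (MulAut.conjNormal g x) =
      cen 𝔐 (MonoidHom.id C) φ₀ x := fun g => Iff.rfl
  have hcf : ∀ φ : C → ℂ, IsIrr φ → ∀ c ∈ C, ∀ x : C, φ (MulAut.conjNormal c x) = φ x := by
    intro φ hφ c hc x
    have h2 : MulAut.conjNormal c x = (⟨c, hc⟩ : C) * x * (⟨c, hc⟩ : C)⁻¹ := Subtype.ext rfl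
    rw [h2, hφ.conj_eq]
  have hCB : C ≤ bS 𝔐 C φ₀ := by
    intro c hc
    rw [hBmem]
    intro x
    have h2 : (fun y : C => φ₀ (MulAut.conjNormal c y)) = φ₀ := funext (hcf φ₀ hφ₀ c hc)
    rw [← cen_aut 𝔐 φ₀ (MulAut.conjNormal c) x, h2]
  have hidx : C.index ∣ ℓ - 1 := by
    let f : N →* MulAut P₁ := MulAut.conjNormal
    have hker : f.ker = C := by
      ext x
      rw [MonoidHom.mem_ker, hCmem]
      constructor
      · intro hx u hu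
        have h1 : ((f x) ⟨u, hu⟩ : N) = u := by
          rw [hx]
          rfl
        have h2 : x * u * x⁻¹ = u := h1
        exact mul_inv_eq_iff_eq_mul.mp h2
      · intro hx
        ext ⟨u, hu⟩
        change x * u * x⁻¹ = u
        rw [hx u hu, mul_inv_cancel_right]
    have h1 : Nat.card (MulAut P₁) = ℓ - 1 := by
      have e1 := IsCyclic.mulAutMulEquiv P₁
      rw [hPc] at e1
      rw [Nat.card_congr e1.toEquiv, Nat.card_eq_fintype_card, ZMod.card_units]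
    rw [← hker, Subgroup.index_ker, ← h1]
    exact Subgroup.card_subgroup_dvd_card _
  have hpow : ∀ g : N, g ^ (ℓ - 1) ∈ C := by
    intro g
    obtain ⟨k, hk⟩ := hidx
    rw [hk, pow_mul]
    exact C.pow_mem (C.pow_index_mem g) k
  have hnd : ¬ ℓ ∣ ℓ - 1 := by
    intro h
    have h2 := Nat.le_of_dvd (by have := hlp.two_le; omega) h
    have := hlp.two_le
    omega
  have hcen : P₁.subgroupOf C ≤ Subgroup.center C := by
    intro u hu
    rw [Subgroup.mem_center_iff]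
    intro x
    apply Subtype.ext
    exact (hCmem _).mp x.2 u (Subgroup.mem_subgroupOf.mp hu)
  have hPC : P₁ ≤ C := by
    intro u hu
    rw [hCmem]
    intro v hv
    have hcg : ∀ a b : P₁, a * b = b * a := by
      let _ := IsCyclic.commGroup (α := P₁)
      exact mul_comm
    exact congrArg Subtype.val (hcg ⟨u, hu⟩ ⟨v, hv⟩)
  -- the fixed point of an element outside the centralizer
  have hfix : ∀ g ∈ bS 𝔐 C φ₀, g ∉ C → ∃ φ₁ : C → ℂ, IsIrr φ₁ ∧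
      cen 𝔐 (MonoidHom.id C) φ₁ = cen 𝔐 (MonoidHom.id C) φ₀ ∧
      (∀ x, φ₁ (MulAut.conjNormal g x) = φ₁ x) ∧
      ∀ φ : C → ℂ, IsIrr φ → cen 𝔐 (MonoidHom.id C) φ = cen 𝔐 (MonoidHom.id C) φ₀ →
        (∀ x, φ (MulAut.conjNormal g x) = φ x) → φ = φ₁ := by
    intro g hg hgC
    refine (h1 C 𝔐 ℓ n h𝔐 hℓ (P₁.subgroupOf C) P x₀ hcen φ₀ hφ₀ hat (MulAut.conjNormal g)
      hg ?_ ⟨ℓ - 1, hnd, ⟨g ^ (ℓ - 1), hpow g⟩, ?_⟩).2 ?_
    · intro u hu
      rw [Subgroup.mem_subgroupOf] at hu ⊢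
      exact (inferInstance : P₁.Normal).conj_mem _ hu g
    · intro x
      rw [← map_pow]
      exact Subtype.ext rfl
    · by_contra hcon
      push Not at hcon
      apply hgC
      rw [hCmem]
      intro u hu
      have h2 := hcon ⟨u, hPC hu⟩ (Subgroup.mem_subgroupOf.mpr hu)
      have h3 : g * u * g⁻¹ = u := congrArg Subtype.val h2
      exact mul_inv_eq_iff_eq_mul.mp h3
  -- conjugation by the stabilizer preserves the block
  have hblk : ∀ g ∈ bS 𝔐 C φ₀, ∀ φ : C → ℂ, IsIrr φ →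
      cen 𝔐 (MonoidHom.id C) φ = cen 𝔐 (MonoidHom.id C) φ₀ →
      IsIrr (fun x => φ (MulAut.conjNormal g x)) ∧
      cen 𝔐 (MonoidHom.id C) (fun x => φ (MulAut.conjNormal g x)) =
        cen 𝔐 (MonoidHom.id C) φ₀ := by
    intro g hg φ hφ hc
    refine ⟨hφ.comp_mulEquiv (MulAut.conjNormal g : C ≃* C), ?_⟩
    funext x
    rw [cen_aut, hc]
    exact hg x
  by_cases hBC : ∃ g ∈ bS 𝔐 C φ₀, g ∉ C
  · obtain ⟨g₀, hg₀, hg₀C⟩ := hBC
    obtain ⟨φ₁, hφ₁, hφ₁c, hφ₁f, hφ₁u⟩ := hfix g₀ hg₀ hg₀C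
    have hall : ∀ h ∈ bS 𝔐 C φ₀, ∀ x, φ₁ (MulAut.conjNormal h x) = φ₁ x := by
      intro h hh
      obtain ⟨h2, h3⟩ := hblk h hh φ₁ hφ₁ hφ₁c
      refine congrFun (hφ₁u _ h2 h3 ?_)
      intro x
      change φ₁ (MulAut.conjNormal h (MulAut.conjNormal g₀ x)) = φ₁ (MulAut.conjNormal h x)
      -- h g₀ = c g₀ h
      have hc : h * g₀ * h⁻¹ * g₀⁻¹ ∈ C := (hCmem _).mpr (hcomm h g₀)
      have e1 : MulAut.conjNormal h (MulAut.conjNormal g₀ x) =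
          MulAut.conjNormal (h * g₀ * h⁻¹ * g₀⁻¹)
            (MulAut.conjNormal g₀ (MulAut.conjNormal h x)) := by
        rw [← MulAut.mul_apply, ← MulAut.mul_apply, ← MulAut.mul_apply, ← map_mul, ← map_mul,
          ← map_mul]
        congr 2
        group
      rw [e1, hcf φ₁ hφ₁ _ hc, hφ₁f]
    have huniq : ∀ g ∈ bS 𝔐 C φ₀, g ∉ C → ∀ φ : C → ℂ, IsIrr φ →
        cen 𝔐 (MonoidHom.id C) φ = cen 𝔐 (MonoidHom.id C) φ₀ →
        (∀ x, φ (MulAut.conjNormal g x) = φ x) → φ = φ₁ := by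
      intro g hg hgC φ hφ hc hf
      obtain ⟨φ₂, -, -, -, h2⟩ := hfix g hg hgC
      rw [h2 φ hφ hc hf, h2 φ₁ hφ₁ hφ₁c (hall g hg)]
    refine ⟨φ₁, ⟨hφ₁, hφ₁c⟩, fun h hh => funext (hall h hh), ?_⟩
    intro φ hφ hne g hg hf
    by_contra hgC
    exact hne (huniq g hg hgC φ hφ.1 hφ.2 (fun x => congrFun hf x))
  · push Not at hBC
    exact ⟨φ₀, ⟨hφ₀, rfl⟩, fun g hg => funext (hcf φ₀ hφ₀ g (hBC g hg)),
      fun φ _ _ g hg _ => hBC g hg⟩

end ORC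

open ORC in
theorem ORC_thm (h1 : Stmt_ATNX) (h2 : Stmt_ATCX) (h3 : Stmt_NILO) (h4 : Stmt_ACTX)
    (_h5 : Stmt_ORBX) (h6 : Stmt_FRXX) : Stmt_ORC := by
  intro T _ _ 𝔐 ℓ n _ h𝔐 hℓ χ₀ P₁ P x₀ _ C _ ψ₀ φ₀ cf
  classical
  have hlp : ℓ.Prime := Fact.out
  set Q₁ : Subgroup (NP P₁) := P₁.subgroupOf (Subgroup.normalizer (P₁ : Set T)) with hQ₁
  have hQn : Q₁.Normal := inferInstance
  have hx : x₀ ∈ Subgroup.normalizer (P₁ : Set T) := by
    have hx0 : x₀ ∈ Subgroup.centralizer (P₁ : Set T) := by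
      rw [Subgroup.mem_centralizer_iff]
      intro u hu
      exact cf.at'.cd.cen u (cf.at'.cd.le hu)
    rw [Subgroup.mem_normalizer_iff]
    intro u
    constructor
    · intro hu
      have e1 := Subgroup.mem_centralizer_iff.1 hx0 u hu
      rw [← e1, mul_inv_cancel_right]
      exact hu
    · intro hu
      have e1 := Subgroup.mem_centralizer_iff.1 hx0 _ hu
      have e2 : x₀ * u * x₀⁻¹ = u := by
        have e3 : x₀ * u = x₀ * (x₀ * u * x₀⁻¹) := by rw [← e1]; group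
        have e4 := mul_left_cancel e3
        exact e4.symm
      rw [e2] at hu
      exact hu
  have hat := (h1 T 𝔐 ℓ n h𝔐 hℓ χ₀ cf.irr P₁ P x₀ cf.at' hx ψ₀ cf.irn cf.cn).1
  have hQc : Nat.card Q₁ = ℓ := hat.cd.c1
  obtain ⟨P', x', g, -, -, hat'⟩ := h2 (NP P₁) 𝔐 ℓ n h𝔐 hℓ Q₁
    (P.subgroupOf (Subgroup.normalizer (P₁ : Set T))) ⟨x₀, hx⟩ ψ₀ cf.irn hat C cf.hC φ₀ cf.irc
    cf.ov
  have hn : 0 < n := by
    rcases Nat.eq_zero_or_pos n with h | h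
    · exfalso
      have e1 := Subgroup.card_le_of_le hat'.cd.le
      rw [hat'.cd.c1, hat'.cd.card, h, pow_zero] at e1
      have := hlp.two_le
      omega
    · exact h
  have hcen : Q₁.subgroupOf C ≤ Subgroup.center C := by
    intro u hu
    rw [Subgroup.mem_center_iff]
    intro x
    apply Subtype.ext
    have e1 : (x : NP P₁) ∈ Subgroup.centralizer (Q₁ : Set (NP P₁)) := cf.hC.le x.2
    exact (Subgroup.mem_centralizer_iff.1 e1 _ (Subgroup.mem_subgroupOf.mp hu)).symm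
  obtain ⟨f1, f2, -, -⟩ := h6 (NP P₁) 𝔐 ℓ n h𝔐 hℓ Q₁ C hQc cf.hC φ₀ P' x' cf.irc hat'
  have hpos : 0 < ℓ - 1 := by have := hlp.two_le; omega
  refine ⟨hn, f1, Nat.pos_of_dvd_of_pos f2 hpos, f2,
    h3 C 𝔐 ℓ n h𝔐 hℓ (Q₁.subgroupOf C) P' x' hcen φ₀ cf.irc hat', ?_, cyc Q₁ hQc C cf.hC _, ?_,
    core h4 𝔐 ℓ n h𝔐 hℓ Q₁ C hQc cf.hC φ₀ P' x' cf.irc hat'⟩
  · intro φ hφ y
    have e1 : ∀ x, cen 𝔐 (MonoidHom.id C) (cj C y φ) x =
        cen 𝔐 (MonoidHom.id C) φ₀ (MulAut.conjNormal y x) := by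
      intro x
      rw [← hφ.2]
      exact DPX.FRXX.cen_aut 𝔐 φ (MulAut.conjNormal y) x
    constructor
    · intro h x
      rw [← e1 x, h.2]
    · intro h
      refine ⟨hφ.1.comp_mulEquiv (MulAut.conjNormal y : C ≃* C), ?_⟩
      funext x
      rw [e1 x]
      exact h x
  · obtain ⟨s, -, hs⟩ := cyc Q₁ hQc C cf.hC ⊤
    exact ⟨s, fun g => hs g (Subgroup.mem_top g)⟩

end Pool.Agent.RCB
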