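import Mathlib
import Pool.Agent.RCB.St2

/-!
# RCB_OUT: the multiplicities of a character outside of the block are constant
-/

namespace Pool.Agent.RCB

open Pool.Agent.DP Pool.Agent.DPV Pool.Agent.DPB Pool.Agent.DPW Pool.Agent.DPX
open Pool.Agent.Lib_helper13 Representation

namespace OUT

variable {Y : Type} [Group Y] [Fintype Y]

theorem ip_sub (f φ φ' : Y → ℂ) : ip f (fun y => φ y - φ' y) = ip f φ - ip f φ' := by
  simp only [ip, mul_sub, Finset.sum_sub_distrib, sub_div]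

theorem ip_zero' (f φ : Y → ℂ) (h : ∀ c, f c * φ c⁻¹ = 0) : ip f φ = 0 := by
  simp only [ip, h, Finset.sum_const_zero, zero_div]

end OUT

open Classical in
theorem OUT_thm (h0 : Stmt_AIN) (h1 : Stmt_LCC) (h2 : Stmt_MTY) : Stmt_OUT := by
  intro T _ _ 𝔐 ℓ n _ h𝔐 hℓ χ₀ P₁ P x₀ _ C _ ψ₀ φ₀ hCf χ hχ hcen φ hφ φ' hφ'
  obtain ⟨a1, -, a3, -⟩ := h0 T 𝔐 ℓ n h𝔐 hℓ χ₀ P₁ P x₀ C ψ₀ φ₀ hCf
  obtain ⟨l1, -⟩ := h1 T 𝔐 ℓ n h𝔐 hℓ χ₀ P₁ P x₀ C ψ₀ φ₀ hCf
  have hm := h2 T 𝔐 ℓ n h𝔐 hℓ χ₀ hCf.irr P₁ P x₀ hCf.at' χ hχ hcen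
  have key : ip (fun c : C => χ ((c : NP P₁) : T)) φ - ip (fun c : C => χ ((c : NP P₁) : T)) φ' =
      0 := by
    rw [← OUT.ip_sub]
    have he := class_fn_expand (Y := NP P₁) (fun s => χ s) (fun g x => by
      show χ ((g * x * g⁻¹ : NP P₁) : T) = χ x
      exact hχ.conj_eq (g : T) (x : T))
    have he2 : (fun c : C => χ ((c : NP P₁) : T)) = fun c : C => ∑ ψ ∈ irrF (NP P₁),
        ip (fun s : NP P₁ => χ s) ψ * (fun c : C => ψ c) c := by
      funext c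
      exact congrFun he (c : NP P₁)
    rw [he2, ip_sum]
    have h4 : ∀ ψ ∈ irrF (NP P₁), ¬ cen 𝔐 (Subgroup.normalizer (P₁ : Set T)).subtype ψ =
        cen 𝔐 (MonoidHom.id T) χ₀ →
        ip (fun s : NP P₁ => χ s) ψ * ip (fun c : C => ψ c) (fun y => φ y - φ' y) = 0 := by
      intro ψ hψ hne
      have e1 : ip (fun c : C => ψ c) φ = 0 := by
        by_contra h
        exact hne (l1 ψ (mem_irrF.1 hψ) φ hφ h)
      have e2 : ip (fun c : C => ψ c) φ' = 0 := by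
        by_contra h
        exact hne (l1 ψ (mem_irrF.1 hψ) φ' hφ' h)
      rw [OUT.ip_sub, e1, e2, sub_zero, mul_zero]
    have h5 : ∑ ψ ∈ irrF (NP P₁), ip (fun s : NP P₁ => χ s) ψ *
        ip (fun c : C => ψ c) (fun y => φ y - φ' y) =
        ∑ ψ ∈ irrF (NP P₁) with cen 𝔐 (Subgroup.normalizer (P₁ : Set T)).subtype ψ =
          cen 𝔐 (MonoidHom.id T) χ₀, ip (fun s : NP P₁ => χ s) ψ *
            ip (fun c : C => ψ c) (fun y => φ y - φ' y) := by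
      rw [Finset.sum_filter]
      refine Finset.sum_congr rfl fun ψ hψ => ?_
      split_ifs with h
      · rfl
      · exact h4 ψ hψ h
    rw [h5, ← ip_sum]
    refine OUT.ip_zero' _ _ fun c => ?_
    by_cases hc : P₁ ≤ Subgroup.zpowers ((c : NP P₁) : T)
    · have h6 := hm (c : NP P₁) hc
      rw [h6, zero_mul]
    · have hc' : ¬ P₁ ≤ Subgroup.zpowers (((c⁻¹ : C) : NP P₁) : T) := by
        have h7 : (((c⁻¹ : C) : NP P₁) : T) = ((c : NP P₁) : T)⁻¹ := rfl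
        rw [h7, Subgroup.zpowers_inv]
        exact hc
      have h8 := (a3 φ hφ φ' hφ').2 c⁻¹ hc'
      rw [h8, sub_self, mul_zero]
  rw [← a1 χ φ hχ hφ.1, ← a1 χ φ' hχ hφ'.1, sub_eq_zero] at key
  exact_mod_cast key

end Pool.Agent.RCB
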