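import Mathlib
import Pool.Agent.RCB.St3

/-!
# The `ℓ`-part and the `ℓ'`-part of a linear character
-/

namespace Pool.Agent.RCB

open Pool.Agent.DP Pool.Agent.DPV Pool.Agent.DPB Pool.Agent.DPW Pool.Agent.DPX
open Pool.Agent.Lib_helper13

namespace PRT

variable {C : Type} [Group C]

theorem lin_pow {L : Subgroup C} {lam : C → ℂ} (h : LinOn L lam) {x : C} (hx : x ∈ L) :
    ∀ k : ℕ, lam (x ^ k) = lam x ^ k
  | 0 => by simpa using h.1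
  | k + 1 => by rw [pow_succ, h.2 _ (L.pow_mem hx k) _ hx, lin_pow h hx k, pow_succ]

theorem card_pow [Finite C] {L : Subgroup C} {lam : C → ℂ} (h : LinOn L lam) {x : C}
    (hx : x ∈ L) : lam x ^ Nat.card L = 1 := by
  rw [← lin_pow h hx]
  have h1 : (⟨x, hx⟩ : L) ^ Nat.card L = 1 := pow_card_eq_one'
  have h2 : x ^ Nat.card L = 1 := congrArg (Subtype.val) h1
  rw [h2, h.1]

theorem lin_powl {L : Subgroup C} {lam : C → ℂ} (h : LinOn L lam) (k : ℕ) :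
    LinOn L (fun x => lam x ^ k) := by
  refine ⟨by simp [h.1], fun x hx y hy => ?_⟩
  show lam (x * y) ^ k = lam x ^ k * lam y ^ k
  rw [h.2 x hx y hy, mul_pow]

theorem red_pw (𝔐 : Ideal (integralClosure ℤ ℂ)) {a : ℂ} (ha : IsIntegral ℤ a) :
    ∀ n : ℕ, red 𝔐 (a ^ n) = red 𝔐 a ^ n
  | 0 => by rw [pow_zero, pow_zero, red_one]
  | n + 1 => by rw [pow_succ, red_mul 𝔐 (ha.pow n) ha, red_pw 𝔐 ha n, pow_succ]

theorem red_one_of_pow {𝔐 : Ideal (integralClosure ℤ ℂ)} {ℓ : ℕ} [hp : Fact ℓ.Prime]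
    (h𝔐 : 𝔐.IsMaximal) (hℓ : (ℓ : integralClosure ℤ ℂ) ∈ 𝔐) {z : ℂ} (hz : IsIntegral ℤ z) (a : ℕ)
    (h : z ^ ℓ ^ a = 1) : red 𝔐 z = 1 := by
  have := h𝔐.isPrime
  have h0 : ((ℓ : ℕ) : (integralClosure ℤ ℂ) ⧸ 𝔐) = 0 := by
    have := Ideal.Quotient.eq_zero_iff_mem.2 hℓ
    simpa using this
  have : CharP ((integralClosure ℤ ℂ) ⧸ 𝔐) ℓ := by
    rcases CharP.exists ((integralClosure ℤ ℂ) ⧸ 𝔐) with ⟨q, hq⟩
    have hd : q ∣ ℓ := (CharP.cast_eq_zero_iff _ q ℓ).1 h0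
    rcases (Nat.dvd_prime hp.out).1 hd with h1 | h1
    · exfalso
      have h2 : ((1 : ℕ) : (integralClosure ℤ ℂ) ⧸ 𝔐) = 0 := by
        rw [CharP.cast_eq_zero_iff _ q, h1]
      simp at h2
    · rwa [h1] at hq
  have h1 : red 𝔐 z ^ ℓ ^ a = 1 := by rw [← red_pw 𝔐 hz, h, red_one]
  have h2 : (red 𝔐 z - 1) ^ ℓ ^ a = 0 := by
    rw [sub_pow_char_pow, h1, one_pow, sub_self]
  exact sub_eq_zero.1 (pow_eq_zero_iff (pow_pos hp.out.pos a).ne' |>.1 h2)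

end PRT

open PRT in
theorem PRT_thm : Stmt_PRT := by
  intro C _ _ 𝔐 ℓ hp h𝔐 hℓ L lam hlam
  have hN : Nat.card L ≠ 0 := Nat.card_pos.ne'
  obtain ⟨a, m, hm, hNm⟩ := Nat.exists_eq_pow_mul_and_not_dvd hN ℓ hp.out.ne_one
  have hco : Nat.Coprime (ℓ ^ a) m := ((Nat.Prime.coprime_iff_not_dvd hp.out).2 hm).pow_left a
  obtain ⟨w, hw1, hw2⟩ := Nat.chineseRemainder hco 1 0
  obtain ⟨v, hv1, hv2⟩ := Nat.chineseRemainder hco 0 1
  have hint : ∀ x ∈ L, IsIntegral ℤ (lam x) := fun x hx =>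
    IsIntegral.of_pow (Nat.pos_of_ne_zero hN) (by rw [card_pow hlam hx]; exact isIntegral_one)
  have hw3 : m ∣ w := (Nat.modEq_zero_iff_dvd).1 hw2
  have hv3 : ℓ ^ a ∣ v := (Nat.modEq_zero_iff_dvd).1 hv1
  have hsum : w + v ≡ 1 [MOD (Nat.card L)] := by
    rw [hNm]
    refine (Nat.modEq_and_modEq_iff_modEq_mul hco).1 ⟨?_, ?_⟩
    · simpa using hw1.add hv1
    · simpa using hw2.add hv2
  have hmod : ∀ x ∈ L, lam x = lam x ^ w * lam x ^ v := fun x hx => by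
    have h1 := card_pow hlam hx
    rw [← pow_add]
    have h2 : lam x ^ (w + v) = lam x ^ 1 := by
      rw [pow_eq_pow_mod (w + v) h1, pow_eq_pow_mod 1 h1, hsum]
    rw [h2, pow_one]
  have hs : ∀ x ∈ L, (lam x ^ w) ^ ℓ ^ a = 1 := fun x hx => by
    obtain ⟨c, hc⟩ := hw3
    rw [← pow_mul, hc, show m * c * ℓ ^ a = (ℓ ^ a * m) * c by ring, ← hNm, pow_mul,
      card_pow hlam hx, one_pow]
  have ht : ∀ x ∈ L, (lam x ^ v) ^ m = 1 := fun x hx => by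
    obtain ⟨c, hc⟩ := hv3
    rw [← pow_mul, hc, show ℓ ^ a * c * m = (ℓ ^ a * m) * c by ring, ← hNm, pow_mul,
      card_pow hlam hx, one_pow]
  have hr : ∀ x ∈ L, red 𝔐 (lam x ^ w) = 1 := fun x hx =>
    red_one_of_pow h𝔐 hℓ ((hint x hx).pow w) a (hs x hx)
  refine ⟨w, v, a, m, hm, lin_powl hlam w, lin_powl hlam v, hmod, hs, ht, hr, fun x hx => ?_,
    hint⟩
  conv_rhs => rw [hmod x hx]
  rw [red_mul 𝔐 ((hint x hx).pow w) ((hint x hx).pow v), hr x hx, one_mul]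

end Pool.Agent.RCB
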