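import Mathlib
import Pool.Agent.RCB.St2

/-!
# Theorem P1, part C1: module RON (the case `r = 1`)
-/

namespace Pool.Agent.RCB

open Pool.Agent.DP Pool.Agent.DPV Pool.Agent.DPB Pool.Agent.DPW Pool.Agent.DPX
open Pool.Agent.Lib_helper13 Representation

namespace RON

theorem cj_cj {N : Type} [Group N] (C : Subgroup N) [C.Normal] (g h : N) (φ : C → ℂ) :
    cj C h (cj C g φ) = cj C (g * h) φ := by
  funext c
  unfold cj
  rw [map_mul, MulAut.mul_apply]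

theorem cj_one {N : Type} [Group N] (C : Subgroup N) [C.Normal] (φ : C → ℂ) :
    cj C 1 φ = φ := by
  funext c
  unfold cj
  rw [map_one, MulAut.one_apply]

open Classical in
/-- the regular character -/
theorem sum_reg {Y : Type} [Group Y] [Fintype Y] (x : Y) :
    ∑ χ ∈ irrF Y, χ x * χ 1 = if x = 1 then (Nat.card Y : ℂ) else 0 := by
  classical
  have h := class_fn_expand (Y := Y) (fun x => if x = 1 then 1 else 0) (by
    intro g x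
    by_cases h : x = 1
    · subst h
      simp
    · rw [if_neg, if_neg h]
      intro h'
      apply h
      have : x = g⁻¹ * (g * x * g⁻¹) * g := by group
      rw [this, h']
      group)
  have h1 := congrFun h x
  have h2 : ∀ χ : Y → ℂ, ip (fun x : Y => if x = 1 then (1 : ℂ) else 0) χ =
      χ 1 / Nat.card Y := by
    intro χ
    rw [ip]
    congr 1
    rw [Finset.sum_eq_single (1 : Y)]
    · simp
    · intro b _ hb
      rw [if_neg hb, zero_mul]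
    · simp
  simp only [h2] at h1
  have h3 : ∑ χ ∈ irrF Y, χ 1 / (Nat.card Y : ℂ) * χ x =
      (∑ χ ∈ irrF Y, χ x * χ 1) / Nat.card Y := by
    rw [Finset.sum_div]
    exact Finset.sum_congr rfl fun _ _ => by ring
  rw [h3] at h1
  have h4 : (Nat.card Y : ℂ) ≠ 0 := natCard_ne_zero
  rw [eq_div_iff h4] at h1
  rw [← h1]
  by_cases hx : x = 1
  · rw [if_pos hx, if_pos hx, one_mul]
  · rw [if_neg hx, if_neg hx, zero_mul]

/-- `∑ χ, ip (χ|C) (φ - φ₁) * χ 1 = 0` -/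
theorem sum_deg {T : Type} [Group T] [Fintype T] {P₁ : Subgroup T} [Fintype (NP P₁)]
    (C : Subgroup (NP P₁)) (φ φ₁ : C → ℂ) (h : φ 1 = φ₁ 1) :
    ∑ χ ∈ irrF T, (ip (fun c : C => χ ((c : NP P₁) : T)) φ -
      ip (fun c : C => χ ((c : NP P₁) : T)) φ₁) * χ 1 = 0 := by
  classical
  have h1 : ∀ χ : T → ℂ, (ip (fun c : C => χ ((c : NP P₁) : T)) φ -
      ip (fun c : C => χ ((c : NP P₁) : T)) φ₁) * χ 1 =
      (∑ c : C, (φ c⁻¹ - φ₁ c⁻¹) * (χ ((c : NP P₁) : T) * χ 1)) / Nat.card C := by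
    intro χ
    rw [ip, ip, ← sub_div, ← Finset.sum_sub_distrib, div_mul_eq_mul_div, Finset.sum_mul]
    congr 1
    exact Finset.sum_congr rfl fun c _ => by ring
  rw [Finset.sum_congr rfl fun χ _ => h1 χ, ← Finset.sum_div, Finset.sum_comm]
  have h2 : ∀ c : C, ∑ χ ∈ irrF T, (φ c⁻¹ - φ₁ c⁻¹) * (χ ((c : NP P₁) : T) * χ 1) = 0 := by
    intro c
    rw [← Finset.mul_sum, sum_reg]
    by_cases hc : ((c : NP P₁) : T) = 1
    · have hc' : c = 1 := by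
        apply Subtype.ext
        apply Subtype.ext
        exact hc
      rw [hc', inv_one, h, sub_self, zero_mul]
    · rw [if_neg hc, mul_zero]
  rw [Finset.sum_eq_zero fun c _ => h2 c, zero_div]

end RON

open RON in
open Classical in
theorem RON_thm (h0 : Stmt_ORC) (h1 : Stmt_TOT) (h2 : Stmt_AIN) (h3 : Stmt_GRM)
    (h4 : Stmt_ROW) (h5 : Stmt_OUT) : Stmt_RON := by
  intro T _ _ 𝔐 ℓ n _ h𝔐 hℓ𝔐 hℓ2 χ₀ P₁ P x₀ _ C _ ψ₀ φ₀ hcf he φ₁ hφ₁ hinv φ hφ hne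
  obtain ⟨o1, o2, o3, o4, o5, o6, -, -, o9⟩ := h0 T 𝔐 ℓ n h𝔐 hℓ𝔐 χ₀ P₁ P x₀ C ψ₀ φ₀ hcf
  obtain ⟨r, t1, t2⟩ := h1 T 𝔐 ℓ n h𝔐 hℓ𝔐 χ₀ P₁ P x₀ C ψ₀ φ₀ hcf
  obtain ⟨a1, a2, a3, -⟩ := h2 T 𝔐 ℓ n h𝔐 hℓ𝔐 χ₀ P₁ P x₀ C ψ₀ φ₀ hcf
  set e := C.relIndex (bS 𝔐 C φ₀) with hedef
  have hp : ℓ.Prime := Fact.out
  have hp2 : 2 ≤ ℓ := hp.two_le
  have hele : e ≤ ℓ - 1 := Nat.le_of_dvd (by omega) o4
  have hn1 : n = 1 := by
    by_contra hn
    have hn2 : 2 ≤ n := by omega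
    have h6 : ℓ ^ 2 ≤ ℓ ^ n := Nat.pow_le_pow_right (by omega) hn2
    have h7 : ℓ < ℓ ^ 2 := by nlinarith
    omega
  have heℓ : e + 1 = ℓ := by rw [he, hn1, pow_one]
  have he1 : 1 < e := by omega
  have hr : r = 1 := by
    have h6 : e * r + 1 = e * 1 + 1 := by rw [t1, mul_one, he]
    have h7 : e * r = e * 1 := by omega
    exact Nat.eq_of_mul_eq_mul_left o3 h7
  have hcard : Nat.card {χ : T → ℂ // IsIrr χ ∧
      cen 𝔐 (MonoidHom.id T) χ = cen 𝔐 (MonoidHom.id T) χ₀} = ℓ := by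
    rw [t2, hr, heℓ]
  -- the stabilizers
  have hfree : ∀ φ ∈ II 𝔐 φ₀, φ ≠ φ₁ → ∀ g ∈ bS 𝔐 C φ₀, cj C g φ = φ → g ∈ C := by
    obtain ⟨φ₂, hφ₂, hinv₂, hfr₂⟩ := o9
    have h6 : φ₁ = φ₂ := by
      by_contra h7
      have h8 : bS 𝔐 C φ₀ ≤ C := fun g hg => hfr₂ φ₁ hφ₁ h7 g hg (hinv g hg)
      have h9 : e = 1 := by
        rw [hedef]
        exact Subgroup.relIndex_eq_one.2 h8
      omega
    rw [h6]
    exact hfr₂
  -- the action is transitive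
  have hmem : ∀ g ∈ bS 𝔐 C φ₀, cj C g φ ∈ II 𝔐 φ₀ ∧ cj C g φ ≠ φ₁ := by
    intro g hg
    refine ⟨(o6 φ hφ g).2 hg, fun h6 => hne ?_⟩
    have h7 : cj C g⁻¹ (cj C g φ) = φ := by rw [cj_cj, mul_inv_cancel, cj_one]
    rw [← h7, h6]
    exact hinv _ ((bS 𝔐 C φ₀).inv_mem hg)
  have htr : ∀ φ' ∈ II 𝔐 φ₀, φ' ≠ φ₁ → Cjg 𝔐 C φ₀ φ φ' := by
    have hfin : (II 𝔐 φ₀).Finite := by
      refine Set.Finite.subset (finite_isIrr (H := C)) fun φ hφ => hφ.1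
    have hfin2 : Finite {φ' : C → ℂ // φ' ∈ II 𝔐 φ₀ \ {φ₁}} :=
      (hfin.subset Set.sdiff_subset).to_subtype
    let F : (bS 𝔐 C φ₀) ⧸ (C.subgroupOf (bS 𝔐 C φ₀)) → {φ' : C → ℂ // φ' ∈ II 𝔐 φ₀ \ {φ₁}} :=
      fun q => ⟨cj C ((Quotient.out q : bS 𝔐 C φ₀) : NP P₁) φ,
        (hmem _ (Quotient.out q : bS 𝔐 C φ₀).2).1, (hmem _ (Quotient.out q : bS 𝔐 C φ₀).2).2⟩
    have hFinj : Function.Injective F := by
      intro q q' hq
      have h6 : cj C ((Quotient.out q : bS 𝔐 C φ₀) : NP P₁) φ =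
          cj C ((Quotient.out q' : bS 𝔐 C φ₀) : NP P₁) φ := congrArg Subtype.val hq
      set a := (Quotient.out q : bS 𝔐 C φ₀) with ha
      set b := (Quotient.out q' : bS 𝔐 C φ₀) with hb
      have h7 : cj C ((a : NP P₁) * (b : NP P₁)⁻¹) φ = φ := by
        rw [← cj_cj, h6, cj_cj, mul_inv_cancel, cj_one]
      have h8 : (a : NP P₁) * (b : NP P₁)⁻¹ ∈ C :=
        hfree φ hφ hne _ ((bS 𝔐 C φ₀).mul_mem a.2 ((bS 𝔐 C φ₀).inv_mem b.2)) h7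
      have h9 : (a : NP P₁)⁻¹ * (b : NP P₁) ∈ C := by
        have h10 : (b : NP P₁) * (a : NP P₁)⁻¹ ∈ C := by
          have := C.inv_mem h8
          rwa [mul_inv_rev, inv_inv] at this
        have h11 := (inferInstance : C.Normal).conj_mem _ h10 (a : NP P₁)⁻¹
        have h12 : (a : NP P₁)⁻¹ * ((b : NP P₁) * (a : NP P₁)⁻¹) * ((a : NP P₁)⁻¹)⁻¹ =
            (a : NP P₁)⁻¹ * (b : NP P₁) := by group
        rwa [h12] at h11
      rw [← Quotient.out_eq q, ← Quotient.out_eq q']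
      refine QuotientGroup.eq.2 ?_
      rw [Subgroup.mem_subgroupOf]
      exact h9
    have hFbij : Function.Bijective F := by
      rw [Nat.bijective_iff_injective_and_card]
      refine ⟨hFinj, ?_⟩
      have h6 : Nat.card {φ' : C → ℂ // φ' ∈ II 𝔐 φ₀ \ {φ₁}} = Nat.card (II 𝔐 φ₀) - 1 := by
        have h7 := Set.ncard_sdiff_singleton_of_mem hφ₁
        rw [← Nat.card_coe_set_eq, ← Nat.card_coe_set_eq] at h7
        exact h7
      rw [h6, o5, ← he, Nat.add_sub_cancel]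
      rfl
    intro φ' hφ' hne'
    obtain ⟨q, hq⟩ := hFbij.2 ⟨φ', hφ', hne'⟩
    exact ⟨_, (Quotient.out q : bS 𝔐 C φ₀).2, (congrArg Subtype.val hq).symm⟩
  -- the multiplicities
  have hvne : ∀ χ : T → ℂ, IsIrr χ →
      cen 𝔐 (MonoidHom.id T) χ = cen 𝔐 (MonoidHom.id T) χ₀ → ai C χ φ - ai C χ φ₁ ≠ 0 := by
    intro χ hχ hcen h6
    have h7 : ∀ φ' ∈ II 𝔐 φ₀, ai C χ φ' = ai C χ φ₁ := by
      intro φ' hφ'
      by_cases h8 : φ' = φ₁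
      · rw [h8]
      · obtain ⟨g, hg, rfl⟩ := htr φ' hφ' h8
        rw [a2 χ φ g hχ hφ.1]
        omega
    obtain ⟨φ', hφ', φ'', hφ'', h8⟩ := h4 T 𝔐 ℓ n h𝔐 hℓ𝔐 χ₀ P₁ P x₀ C ψ₀ φ₀ hcf χ hχ hcen
    exact h8 (by rw [h7 φ' hφ', h7 φ'' hφ''])
  have hsq : ∑ χ ∈ irrF T with cen 𝔐 (MonoidHom.id T) χ = cen 𝔐 (MonoidHom.id T) χ₀,
      (ai C χ φ - ai C χ φ₁) * (ai C χ φ - ai C χ φ₁) = (ℓ : ℤ) := by
    rw [h3 T 𝔐 ℓ n h𝔐 hℓ𝔐 χ₀ P₁ P x₀ C ψ₀ φ₀ hcf φ₁ hφ₁ hinv hfree φ hφ φ hφ hne hne,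
      if_pos ⟨1, (bS 𝔐 C φ₀).one_mem, (cj_one C φ).symm⟩, ← heℓ]
    push_cast
    rfl
  have hcf2 : ({χ ∈ irrF T | cen 𝔐 (MonoidHom.id T) χ =
      cen 𝔐 (MonoidHom.id T) χ₀} : Finset (T → ℂ)).card = ℓ := by
    rw [← hcard]
    exact (Nat.subtype_card _ (fun χ => by rw [Finset.mem_filter, mem_irrF])).symm
  refine ⟨he1, heℓ, hcard, htr, ?_, ?_⟩
  · intro χ hχ hcen
    have h6 : ∑ χ ∈ irrF T with cen 𝔐 (MonoidHom.id T) χ = cen 𝔐 (MonoidHom.id T) χ₀,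
        ((ai C χ φ - ai C χ φ₁) * (ai C χ φ - ai C χ φ₁) - 1) = 0 := by
      rw [Finset.sum_sub_distrib, hsq, Finset.sum_const, hcf2]
      simp
    have h7 := (Finset.sum_eq_zero_iff_of_nonneg (fun χ hχ => ?_)).1 h6 χ
      (Finset.mem_filter.2 ⟨mem_irrF.2 hχ, hcen⟩)
    · have h8 : (ai C χ φ - ai C χ φ₁ - 1) * (ai C χ φ - ai C χ φ₁ + 1) = 0 := by
        linear_combination h7
      rcases mul_eq_zero.1 h8 with h9 | h9
      · left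
        omega
      · right
        omega
    · rw [Finset.mem_filter] at hχ
      have h8 := hvne χ (mem_irrF.1 hχ.1) hχ.2
      have h9 : 0 < (ai C χ φ - ai C χ φ₁) * (ai C χ φ - ai C χ φ₁) :=
        mul_self_pos.2 h8
      omega
  · have h6 := sum_deg C φ φ₁ (a3 φ hφ φ₁ hφ₁).1
    rw [← h6, Finset.sum_filter]
    refine Finset.sum_congr rfl fun χ hχ => ?_
    rw [mem_irrF] at hχ
    rw [← a1 χ φ hχ hφ.1, ← a1 χ φ₁ hχ hφ₁.1]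
    by_cases h7 : cen 𝔐 (MonoidHom.id T) χ = cen 𝔐 (MonoidHom.id T) χ₀
    · rw [if_pos h7]
      push_cast
      rfl
    · rw [if_neg h7, h5 T 𝔐 ℓ n h𝔐 hℓ𝔐 χ₀ P₁ P x₀ C ψ₀ φ₀ hcf χ hχ h7 φ hφ φ₁ hφ₁, sub_self,
        zero_mul]

end Pool.Agent.RCB
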