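import Pool.Agent.RCB.St2
import Pool.Agent.DPX.HGTX

/-!
# Module RCB_ROW: the multiplicities of a character of the block are not constant
-/

namespace Pool.Agent.RCB

open Pool.Agent.DP Pool.Agent.DPV Pool.Agent.DPB Pool.Agent.DPW Pool.Agent.DPX
open Pool.Agent.Lib_helper13 Representation

namespace ROW

open Classical in
/-- the number of characters of the block as the cardinality of a finset -/
theorem card_filter (𝔐 : Ideal (integralClosure ℤ ℂ)) {C : Type} [Group C] [Fintype C]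
    (φ₀ : C → ℂ) :
    ((irrF C).filter fun φ => cen 𝔐 (MonoidHom.id C) φ = cen 𝔐 (MonoidHom.id C) φ₀).card =
      Nat.card (II 𝔐 φ₀) := by
  have h : II 𝔐 φ₀ = ((irrF C).filter fun φ =>
      cen 𝔐 (MonoidHom.id C) φ = cen 𝔐 (MonoidHom.id C) φ₀ : Finset (C → ℂ)) := by
    ext φ
    rw [Finset.mem_coe, Finset.mem_filter, mem_irrF]
    exact Iff.rfl
  rw [h]
  simp

end ROW

open Classical in
theorem ROW_thm (h0 : Stmt_ORC) (h1 : Stmt_AIN) (h2 : Stmt_NRMX) (h3 : Stmt_IDX)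
    (h4 : Stmt_OSIX) (h5 : Stmt_IDOX) (h6 : Stmt_VALX) : Stmt_ROW := by
  intro T _ _ 𝔐 ℓ n hp h𝔐 hℓ χ₀ P₁ P x₀ _ C _ ψ₀ φ₀ hc χ hχ hcen
  by_contra hcon
  push Not at hcon
  have hat : AtX ℓ n (cen 𝔐 (MonoidHom.id T) χ) P₁ P x₀ := by
    rw [hcen]
    exact hc.at'
  have hcard := (h0 T 𝔐 ℓ n h𝔐 hℓ χ₀ P₁ P x₀ C ψ₀ φ₀ hc).2.2.2.2.1
  have hai := (h1 T 𝔐 ℓ n h𝔐 hℓ χ₀ P₁ P x₀ C ψ₀ φ₀ hc).1
  have hn : cen 𝔐 (Subgroup.normalizer (P₁ : Set T)).subtype ψ₀ = cen 𝔐 (MonoidHom.id T) χ := by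
    rw [hcen]
    exact hc.cn
  obtain ⟨a, -, ha2, -, -, ha5⟩ := h2 T 𝔐 ℓ n h𝔐 hℓ χ hχ P₁ P x₀ hat C hc.hC ψ₀ φ₀ hc.irn
    hc.irc hn hc.ov
  have hφ₀ : φ₀ ∈ II 𝔐 φ₀ := ⟨hc.irc, rfl⟩
  -- the multiplicities are constant on the block
  have hconst : ∀ φ ∈ (irrF C).filter (fun φ =>
      cen 𝔐 (MonoidHom.id C) φ = cen 𝔐 (MonoidHom.id C) φ₀), a φ = a φ₀ := by
    intro φ hφ
    rw [Finset.mem_filter, mem_irrF] at hφ
    have e1 : (a φ : ℂ) = (ai C χ φ : ℂ) := (ha2 φ hφ.1).trans (hai χ φ hχ hφ.1).symm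
    have e2 : (a φ₀ : ℂ) = (ai C χ φ₀ : ℂ) := (ha2 φ₀ hc.irc).trans (hai χ φ₀ hχ hc.irc).symm
    have e3 : a φ = ai C χ φ := by exact_mod_cast e1
    have e4 : a φ₀ = ai C χ φ₀ := by exact_mod_cast e2
    rw [e3, e4]
    exact hcon φ hφ φ₀ hφ₀
  have s1 : (∑ φ ∈ irrF C with cen 𝔐 (MonoidHom.id C) φ = cen 𝔐 (MonoidHom.id C) φ₀, a φ) =
      (ℓ : ℤ) ^ n * a φ₀ := by
    rw [Finset.sum_congr rfl hconst, Finset.sum_const, ROW.card_filter, hcard, nsmul_eq_mul]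
    push_cast
    ring
  have s2 : (∑ φ ∈ irrF C with cen 𝔐 (MonoidHom.id C) φ = cen 𝔐 (MonoidHom.id C) φ₀,
      a φ ^ 2) = (ℓ : ℤ) ^ n * a φ₀ ^ 2 := by
    rw [Finset.sum_congr rfl (fun φ hφ => by rw [hconst φ hφ]), Finset.sum_const,
      ROW.card_filter, hcard, nsmul_eq_mul]
    push_cast
    ring
  obtain ⟨x₁, hat1, hx1⟩ := HGTX.exists_reg 𝔐 ℓ n h3 h4 h5 h6 h𝔐 hℓ χ hχ P₁ P x₀ hat
  refine HGTX.not_vanish 𝔐 ℓ n h𝔐 hℓ hχ hat1 hx1 (ha5 ?_)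
  rw [s1, s2]
  ring

end Pool.Agent.RCB
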