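import Mathlib
import Pool.Agent.RCB.St1

/-!
# Theorem P1, module SIN: the inner sums vanish
-/

namespace Pool.Agent.RCB

open Pool.Agent.DP Pool.Agent.DPV Pool.Agent.DPB Pool.Agent.DPW Pool.Agent.DPX
open Pool.Agent.Lib_helper13 Representation
open Pool.Agent.Lib_helper13.Dade (pCore)

namespace SIN

variable {Y X : Type} [Group Y] [Fintype Y] [Group X] [Fintype X]

theorem exists_of_cnt {𝔐 : Ideal (integralClosure ℤ ℂ)} {ℓ d : ℕ} {i : Y →* X}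
    {ω : X → (integralClosure ℤ ℂ) ⧸ 𝔐} (h : cnt 𝔐 ℓ d i ω ≠ 0) :
    ∃ ψ : Y → ℂ, IsIrr ψ ∧ cen 𝔐 i ψ = ω := by
  rw [cnt, Nat.card_ne_zero] at h
  obtain ⟨⟨ψ, h3, h4, h5⟩⟩ := h.1
  exact ⟨ψ, h3, funext h5⟩

/-- the image of a chain of a subgroup is a chain -/
theorem isCh_sub {ℓ : ℕ} {N : Type} [Group N] {j : N →* Y} (hj : Function.Injective j)
    {τ : Finset (Subgroup N)} (hτ : IsCh ℓ ⊥ τ) : IsCh ℓ (⊥ : Subgroup Y) (mapCh j τ) := by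
  have h := (isCh_mapCh_iff (ℓ := ℓ) (Z := (⊥ : Subgroup N)) hj (τ := τ)).mpr hτ
  rwa [Subgroup.map_bot] at h

/-- A character of the subgroup under an irreducible character exists. -/
theorem exists_under (j : X →* Y) {χ : Y → ℂ} (hχ : IsIrr χ) :
    ∃ θ : X → ℂ, IsIrr θ ∧ ip (resj j χ) θ ≠ 0 := by
  by_contra hn
  push Not at hn
  have h := class_fn_expand (resj j χ) (fun g x => (hχ.resj j).conj_eq g x)
  have h1 := congrFun h 1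
  have h2 : ∑ θ ∈ irrF X, ip (resj j χ) θ * θ 1 = 0 :=
    Finset.sum_eq_zero fun θ hθ => by rw [hn θ (mem_irrF.mp hθ), zero_mul]
  rw [h2] at h1
  apply hχ.one_ne_zero
  rw [← h1, resj, map_one]

end SIN

open SIN in
theorem SIN_thm (h1 : Pool.Agent.DPC.Stmt_INY) (h2 : Pool.Agent.DPC.Stmt_MIX)
    (h3 : Stmt_BTW) : Stmt_SIN := by
  classical
  intro hINN ℓ hℓp hℓ2 X _ _ K _ Z _ 𝔐 h𝔐 hℓ hcore hZ hZK ξ χ hξ hχ hDX hover d c hc hcK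
  have hf : Fact ℓ.Prime := ⟨hℓp⟩
  have hprime : 𝔐.IsPrime := h𝔐.isPrime
  obtain ⟨hQ, hQN, hst, hcNs, hcN2, hsum⟩ := h1 X ℓ Z K c hc hcK hZK hZ
  set M : Subgroup (stb c) := K.subgroupOf (stb c) with hMdef
  have hMn : M.Normal := by rw [hMdef]; infer_instance
  rw [hsum M (fun y => Subgroup.mem_subgroupOf) _]
  obtain ⟨F, hF1, hF2⟩ := h2 X (stb c) 𝔐 ℓ (stb c).subtype (cen 𝔐 (MonoidHom.id X) χ)
  have h4 : ∀ τ ∈ Ch ℓ (⊥ : Subgroup M), (-1 : ℚ) ^ τ.card *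
      WW 𝔐 ℓ d (cen 𝔐 (MonoidHom.id X) χ) ((stb (mapCh M.subtype τ)).map (stb c).subtype) =
      ∑ ω' ∈ F, (-1 : ℚ) ^ τ.card * WW 𝔐 ℓ d ω' (stb (mapCh M.subtype τ)) := by
    intro τ _
    rw [WW_map 𝔐 ℓ d _ (stb c).subtype (Subgroup.subtype_injective _), hF1, Finset.mul_sum,
      Finset.mul_sum]
    rfl
  rw [Finset.sum_congr rfl h4, Finset.sum_comm]
  refine Finset.sum_eq_zero fun ω' hω' => ?_
  by_contra hne
  obtain ⟨τ, hτ, h5⟩ := Finset.exists_ne_zero_of_sum_ne_zero hne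
  have h6 : cnt 𝔐 ℓ d (stb (mapCh M.subtype τ)).subtype ω' ≠ 0 := by
    intro h
    rw [WW, h] at h5
    simp at h5
  obtain ⟨ψ, hψ, hcen⟩ := exists_of_cnt h6
  obtain ⟨χ1, hχ1, hcen1⟩ := exists_irr_of_mult 𝔐 hψ (exists_irr_of_chain 𝔐 hℓ
    (isCh_sub (Subgroup.subtype_injective _) (mem_Ch.mp hτ)) hψ)
  have hω : cen 𝔐 (MonoidHom.id (stb c)) χ1 = ω' := by rw [hcen1, hcen]
  have h7 : cen 𝔐 (stb c).subtype χ1 = cen 𝔐 (MonoidHom.id X) χ := by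
    have h8 := hF2 ω' hω' ⊤ (fun y => χ1 (Subgroup.topEquiv y)) (hχ1.comp_mulEquiv _) (by
      rw [← hω]
      exact cen_comp_equiv 𝔐 Subgroup.topEquiv (MonoidHom.id (stb c)) χ1)
    rw [← h8]
    exact (cen_comp_equiv 𝔐 Subgroup.topEquiv (stb c).subtype χ1).symm
  obtain ⟨ξ1, hξ1, hip1⟩ := exists_under M.subtype hχ1
  have hDX1 : DX ℓ (cen 𝔐 (MonoidHom.id M) ξ1) := by
    refine h3 X K (stb c) (tp Z c) 𝔐 ℓ h𝔐 hℓ hQ hQN ?_ χ ξ hχ hξ hover hDX χ1 hχ1 h7 ξ1 hξ1 hip1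
    intro y
    constructor
    · rintro ⟨hy, hyK⟩
      exact ⟨hyK, (hcN2 y hy hyK).2⟩
    · rintro ⟨hyK, hyc⟩
      exact ⟨hcNs ⟨hyK, hyc⟩, hyK⟩
  have h9 := hINN (stb c) M 𝔐 ℓ h𝔐 hℓ hℓ2 χ1 ξ1 hχ1 hξ1 hip1 hDX1 d
  rw [hω] at h9
  exact hne h9

end Pool.Agent.RCB
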