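import Pool.Agent.RCB.St3

/-!
# RCB_TEI: lifting of a linear character modulo `𝔐` to roots of unity of order prime to `ℓ`
-/

namespace Pool.Agent.RCB

open Pool.Agent.DP Pool.Agent.DPV Pool.Agent.DPB Pool.Agent.DPW Pool.Agent.DPX
open Pool.Agent.Lib_helper13 Representation

namespace TEI

/-- A primitive root of unity of order prime to `ℓ` stays primitive modulo `𝔐`. -/
theorem prim (𝔐 : Ideal (integralClosure ℤ ℂ)) (ℓ : ℕ) [Fact ℓ.Prime] (hmax : 𝔐.IsMaximal)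
    (hℓ : (ℓ : integralClosure ℤ ℂ) ∈ 𝔐) (N : ℕ) (hN : ¬ ℓ ∣ N) :
    ∃ w : integralClosure ℤ ℂ, IsPrimitiveRoot (w : ℂ) N ∧
      IsPrimitiveRoot (Ideal.Quotient.mk 𝔐 w) N := by
  classical
  let _ : Field ((integralClosure ℤ ℂ) ⧸ 𝔐) := Ideal.Quotient.field 𝔐
  have hN0 : N ≠ 0 := by
    rintro rfl
    exact hN (dvd_zero _)
  have hNF : ((N : ℕ) : (integralClosure ℤ ℂ) ⧸ 𝔐) ≠ 0 := by
    intro h0
    have hNm : ((N : ℕ) : integralClosure ℤ ℂ) ∈ 𝔐 := by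
      rw [← Ideal.Quotient.eq_zero_iff_mem, map_natCast]
      exact h0
    have hcop : Nat.Coprime ℓ N := (Nat.Prime.coprime_iff_not_dvd Fact.out).2 hN
    have hb := Nat.gcd_eq_gcd_ab ℓ N
    rw [hcop.gcd_eq_one] at hb
    apply hmax.ne_top
    rw [Ideal.eq_top_iff_one]
    have : (1 : integralClosure ℤ ℂ) =
        (ℓ : integralClosure ℤ ℂ) * ((Nat.gcdA ℓ N : ℤ) : integralClosure ℤ ℂ) +
          (N : integralClosure ℤ ℂ) * ((Nat.gcdB ℓ N : ℤ) : integralClosure ℤ ℂ) := by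
      have := congrArg (fun x : ℤ => (x : integralClosure ℤ ℂ)) hb
      push_cast at this
      simpa using this
    rw [this]
    exact 𝔐.add_mem (𝔐.mul_mem_right _ hℓ) (𝔐.mul_mem_right _ hNm)
  have hζ : IsPrimitiveRoot (Complex.exp (2 * Real.pi * Complex.I / N)) N :=
    Complex.isPrimitiveRoot_exp N hN0
  set ζ := Complex.exp (2 * Real.pi * Complex.I / N) with hζd
  have hζi : IsIntegral ℤ ζ := hζ.isIntegral (Nat.pos_of_ne_zero hN0)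
  let w : integralClosure ℤ ℂ := ⟨ζ, hζi⟩
  have hw : IsPrimitiveRoot w N := by
    refine IsPrimitiveRoot.of_map_of_injective (f := algebraMap (integralClosure ℤ ℂ) ℂ) ?_
      Subtype.val_injective
    exact hζ
  have _ : NeZero ((N : ℕ) : (integralClosure ℤ ℂ) ⧸ 𝔐) := ⟨hNF⟩
  have _ : NeZero ((N : ℕ) : integralClosure ℤ ℂ) := ⟨by
    intro h0
    apply hNF
    have := congrArg (Ideal.Quotient.mk 𝔐) h0
    rwa [map_natCast, map_zero] at this⟩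
  have hwF : IsPrimitiveRoot (Ideal.Quotient.mk 𝔐 w) N := by
    rw [← Polynomial.isRoot_cyclotomic_iff] at hw ⊢
    have := hw.map (f := Ideal.Quotient.mk 𝔐)
    rwa [Polynomial.map_cyclotomic] at this
  exact ⟨w, hζ, hwF⟩

/-- Powers of a primitive root with the same reduction are equal. -/
theorem key {𝔐 : Ideal (integralClosure ℤ ℂ)} (hmax : 𝔐.IsMaximal) {N : ℕ} (hN0 : N ≠ 0)
    {w : integralClosure ℤ ℂ} (hw : IsPrimitiveRoot (w : ℂ) N)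
    (hwF : IsPrimitiveRoot (Ideal.Quotient.mk 𝔐 w) N) (a b : ℕ)
    (h : Ideal.Quotient.mk 𝔐 w ^ a = Ideal.Quotient.mk 𝔐 w ^ b) : (w : ℂ) ^ a = (w : ℂ) ^ b := by
  let _ : Field ((integralClosure ℤ ℂ) ⧸ 𝔐) := Ideal.Quotient.field 𝔐
  have hkey' : ∀ a d : ℕ, Ideal.Quotient.mk 𝔐 w ^ a = Ideal.Quotient.mk 𝔐 w ^ (a + d) →
      (w : ℂ) ^ a = (w : ℂ) ^ (a + d) := by
    intro a d h
    have hw0 : Ideal.Quotient.mk 𝔐 w ≠ 0 := hwF.ne_zero hN0
    have h2 : Ideal.Quotient.mk 𝔐 w ^ d = 1 := by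
      rw [pow_add] at h
      exact mul_left_cancel₀ (pow_ne_zero a hw0) (by rw [mul_one]; exact h.symm)
    rw [pow_add, (hw.pow_eq_one_iff_dvd d).2 ((hwF.pow_eq_one_iff_dvd d).1 h2), mul_one]
  rcases le_total a b with hab | hab
  · obtain ⟨d, rfl⟩ := Nat.exists_eq_add_of_le hab
    exact hkey' a d h
  · obtain ⟨d, rfl⟩ := Nat.exists_eq_add_of_le hab
    exact (hkey' b d h.symm).symm

/-- The reduction is injective on the roots of unity of order prime to `ℓ`. -/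
theorem red_inj (𝔐 : Ideal (integralClosure ℤ ℂ)) (ℓ : ℕ) [Fact ℓ.Prime] (hmax : 𝔐.IsMaximal)
    (hℓ : (ℓ : integralClosure ℤ ℂ) ∈ 𝔐) {M : ℕ} (hM : ¬ ℓ ∣ M) {x y : ℂ} (hx : x ^ M = 1)
    (hy : y ^ M = 1) (h : red 𝔐 x = red 𝔐 y) : x = y := by
  obtain ⟨w, hw, hwF⟩ := prim 𝔐 ℓ hmax hℓ M hM
  have hM0 : M ≠ 0 := by
    rintro rfl
    exact hM (dvd_zero _)
  have _ : NeZero M := ⟨hM0⟩
  obtain ⟨a, -, ha⟩ := hw.eq_pow_of_pow_eq_one hx
  obtain ⟨b, -, hb⟩ := hw.eq_pow_of_pow_eq_one hy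
  have hwi : IsIntegral ℤ (w : ℂ) := w.2
  have hr : ∀ n : ℕ, red 𝔐 ((w : ℂ) ^ n) = Ideal.Quotient.mk 𝔐 w ^ n := by
    intro n
    rw [red_of_integral 𝔐 (hwi.pow n), ← map_pow]
    rfl
  rw [← ha, ← hb, hr, hr] at h
  rw [← ha, ← hb]
  exact key hmax hM0 hw hwF a b h

end TEI

theorem TEI_thm : Stmt_TEI := by
  intro C _ _ 𝔐 ℓ _ hmax hℓ U ν h1 hmul
  classical
  let _ : Field ((integralClosure ℤ ℂ) ⧸ 𝔐) := Ideal.Quotient.field 𝔐
  have hchar : CharP ((integralClosure ℤ ℂ) ⧸ 𝔐) ℓ := by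
    rw [CharP.charP_iff_prime_eq_zero Fact.out]
    rw [← map_natCast (Ideal.Quotient.mk 𝔐), Ideal.Quotient.eq_zero_iff_mem]
    exact hℓ
  have hc0 : Nat.card U ≠ 0 := Nat.card_pos.ne'
  obtain ⟨a, N, hN, hcard⟩ :=
    Nat.exists_eq_pow_mul_and_not_dvd hc0 ℓ (Nat.Prime.one_lt Fact.out).ne'
  have hN0 : N ≠ 0 := by
    rintro rfl
    exact hN (dvd_zero _)
  have _ : NeZero N := ⟨hN0⟩
  obtain ⟨w, hw, hwF⟩ := TEI.prim 𝔐 ℓ hmax hℓ N hN
  have hwi : IsIntegral ℤ (w : ℂ) := w.2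
  have hpow : ∀ x ∈ U, ∀ n : ℕ, ν (x ^ n) = ν x ^ n := by
    intro x hx n
    induction n with
    | zero => simp [h1]
    | succ n ih => rw [pow_succ, hmul _ (U.pow_mem hx n) _ hx, ih, pow_succ]
  have hroot : ∀ x ∈ U, ∃ i : ℕ, Ideal.Quotient.mk 𝔐 w ^ i = ν x := by
    intro x hx
    have h3 : x ^ Nat.card U = 1 := by
      have := pow_card_eq_one' (x := (⟨x, hx⟩ : U))
      exact congrArg Subtype.val this
    have h2 : ν x ^ N = 1 := by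
      have h4 : ν x ^ (ℓ ^ a * N) = 1 := by
        rw [← hcard, ← hpow x hx, h3, h1]
      have : ExpChar ((integralClosure ℤ ℂ) ⧸ 𝔐) ℓ := ExpChar.prime Fact.out
      exact (ExpChar.pow_prime_pow_mul_eq_one_iff ℓ a N (ν x)).1 h4
    obtain ⟨i, -, hi⟩ := hwF.eq_pow_of_pow_eq_one h2
    exact ⟨i, hi⟩
  choose! i hi using hroot
  have hadd : ∀ x ∈ U, ∀ y ∈ U, (w : ℂ) ^ i (x * y) = (w : ℂ) ^ i x * (w : ℂ) ^ i y := by
    intro x hx y hy
    have h3 : Ideal.Quotient.mk 𝔐 w ^ i (x * y) = Ideal.Quotient.mk 𝔐 w ^ (i x + i y) := by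
      rw [hi _ (U.mul_mem hx hy), hmul x hx y hy, pow_add, hi x hx, hi y hy]
    rw [← pow_add]
    exact TEI.key hmax hN0 hw hwF _ _ h3
  have hw0 : (w : ℂ) ≠ 0 := hw.ne_zero hN0
  have hN1 : ∀ u : C, ((w : ℂ) ^ i u) ^ N = 1 := by
    intro u
    rw [← pow_mul, mul_comm, pow_mul, hw.pow_eq_one, one_pow]
  have hred : ∀ u ∈ U, red 𝔐 ((w : ℂ) ^ i u) = ν u := by
    intro u hu
    rw [red_of_integral 𝔐 (hwi.pow _), ← hi u hu, ← map_pow]
    rfl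
  refine ⟨fun x => (w : ℂ) ^ i x, N, hN, ⟨?_, hadd⟩, fun u _ => hN1 u, hred, ?_⟩
  · have h5 := hadd 1 U.one_mem 1 U.one_mem
    rw [mul_one] at h5
    exact (mul_left_cancel₀ (pow_ne_zero _ hw0) (by rw [mul_one]; exact h5)).symm
  · intro μ' _ hμ' hk u hu
    obtain ⟨k', hk', hk1⟩ := hk
    refine TEI.red_inj 𝔐 ℓ hmax hℓ (M := N * k') ?_ ?_ ?_ ((hμ' u hu).trans (hred u hu).symm)
    · intro hd
      rcases (Nat.Prime.dvd_mul Fact.out).1 hd with h | h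
      · exact hN h
      · exact hk' h
    · rw [mul_comm, pow_mul, hk1 u hu, one_pow]
    · show ((w : ℂ) ^ i u) ^ (N * k') = 1
      rw [pow_mul, hN1 u, one_pow]

end Pool.Agent.RCB
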