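import Mathlib
import Pool.Agent.RCB.St2

/-!
# RCB_TIS: the isometry (trivial intersection)
-/

namespace Pool.Agent.RCB

open Pool.Agent.DP Pool.Agent.DPV Pool.Agent.DPB Pool.Agent.DPW Pool.Agent.DPX
open Pool.Agent.Lib_helper13 Representation

namespace TIS

/-- a cyclic group has at most one subgroup of a given order -/
theorem uniq {C : Type} [Group C] [Finite C] [IsCyclic C] {A B : Subgroup C}
    (h : Nat.card A = Nat.card B) : A = B := by
  classical
  have : Fintype C := Fintype.ofFinite C
  set n := Nat.card A with hn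
  have hn0 : 0 < n := Nat.card_pos
  set S : Set C := {a : C | a ^ n = 1} with hS
  have hSn : S.ncard ≤ n := by
    have h1 := IsCyclic.card_pow_eq_one_le (α := C) hn0
    have h2 : S.ncard = (Finset.univ.filter fun a : C => a ^ n = 1).card := by
      rw [← Set.ncard_coe_finset]
      congr 1
      ext a
      simp [hS]
    rw [h2]
    exact h1
  have key : ∀ D : Subgroup C, Nat.card D = n → (D : Set C) = S := by
    intro D hD
    apply Set.eq_of_subset_of_ncard_le _ _ (Set.toFinite S)
    · intro a ha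
      have h1 : (⟨a, ha⟩ : D) ^ Nat.card D = 1 := pow_card_eq_one'
      rw [hD] at h1
      exact congrArg Subtype.val h1
    · have h1 : (D : Set C).ncard = n := by
        rw [← hD]
        rfl
      rw [h1]
      exact hSn
  exact SetLike.coe_injective ((key A hn.symm).trans (key B h.symm).symm)

theorem uniq' {T : Type} [Group T] [Finite T] {P A B : Subgroup T} (hP : IsCyclic P)
    (hA : A ≤ P) (hB : B ≤ P) (h : Nat.card A = Nat.card B) : A = B := by
  have h1 : A.subgroupOf P = B.subgroupOf P := by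
    apply uniq
    rw [Nat.card_congr (Subgroup.subgroupOfEquivOfLe hA).toEquiv,
      Nat.card_congr (Subgroup.subgroupOfEquivOfLe hB).toEquiv, h]
  have h2 := Subgroup.subgroupOf_inj.1 h1
  rwa [inf_eq_left.2 hA, inf_eq_left.2 hB] at h2

/-- If `P₁` is contained in the groups generated by `c` and by `t c t⁻¹` then `t` normalizes
`P₁`. -/
theorem mem_nor {T : Type} [Group T] [Finite T] {P₁ : Subgroup T} {c t : T}
    (h : P₁ ≤ Subgroup.zpowers c) (h' : P₁ ≤ Subgroup.zpowers (t * c * t⁻¹)) :
    t ∈ Subgroup.normalizer (P₁ : Set T) := by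
  have h1 : P₁.map (MulAut.conj t).toMonoidHom ≤ Subgroup.zpowers (t * c * t⁻¹) := by
    rw [Subgroup.map_le_iff_le_comap]
    refine h.trans ?_
    rw [Subgroup.zpowers_le, Subgroup.mem_comap]
    exact Subgroup.mem_zpowers _
  have h2 : P₁ = P₁.map (MulAut.conj t).toMonoidHom := by
    refine uniq' (P := Subgroup.zpowers (t * c * t⁻¹)) inferInstance h' h1 ?_
    exact Nat.card_congr (P₁.equivMapOfInjective _ (MulAut.conj t).injective).toEquiv
  rw [Subgroup.mem_normalizer_iff]
  intro x
  constructor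
  · intro hx
    show t * x * t⁻¹ ∈ P₁
    rw [h2]
    exact ⟨x, hx, rfl⟩
  · intro hx
    have hx' : t * x * t⁻¹ ∈ P₁ := hx
    rw [h2] at hx'
    obtain ⟨y, hy, hyx⟩ := hx'
    have h3 : t * y * t⁻¹ = t * x * t⁻¹ := hyx
    have h4 : y = x := mul_left_cancel (mul_right_cancel h3)
    rw [← h4]
    exact hy

open Classical in
/-- The second orthogonality relation. -/
theorem col {T : Type} [Group T] [Fintype T] (x y : T) :
    ∑ χ ∈ irrF T, χ x * χ y⁻¹ = ∑ t : T, if t * x * t⁻¹ = y then (1 : ℂ) else 0 := by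
  set f : T → ℂ := fun x => ∑ t : T, if t * x * t⁻¹ = y then (1 : ℂ) else 0 with hf
  have hc : ∀ g x, f (g * x * g⁻¹) = f x := by
    intro g x
    simp only [hf]
    refine Fintype.sum_equiv (Equiv.mulRight g) _ _ fun t => ?_
    have h1 : t * (g * x * g⁻¹) * t⁻¹ = (Equiv.mulRight g t) * x * (Equiv.mulRight g t)⁻¹ := by
      simp only [Equiv.coe_mulRight]
      group
    rw [h1]
  have hip : ∀ χ : T → ℂ, IsIrr χ → ip f χ = χ y⁻¹ := by
    intro χ hχ
    have h1 : ∑ x, f x * χ x⁻¹ = (Nat.card T : ℂ) * χ y⁻¹ := by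
      calc ∑ x, f x * χ x⁻¹ = ∑ x, ∑ t : T, (if t * x * t⁻¹ = y then (1 : ℂ) else 0) * χ x⁻¹ := by
            refine Finset.sum_congr rfl fun x _ => ?_
            simp only [hf]
            rw [Finset.sum_mul]
        _ = ∑ t : T, ∑ x, (if t * x * t⁻¹ = y then (1 : ℂ) else 0) * χ x⁻¹ := Finset.sum_comm
        _ = ∑ t : T, χ y⁻¹ := by
            refine Finset.sum_congr rfl fun t _ => ?_
            rw [Finset.sum_eq_single (t⁻¹ * y * t)]
            · have h2 : t * (t⁻¹ * y * t) * t⁻¹ = y := by group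
              rw [if_pos h2, one_mul]
              have h3 : (t⁻¹ * y * t)⁻¹ = t⁻¹ * y⁻¹ * (t⁻¹)⁻¹ := by group
              rw [h3, hχ.conj_eq]
            · intro x _ hx
              rw [if_neg, zero_mul]
              intro h2
              apply hx
              rw [← h2]
              group
            · intro h
              exact absurd (Finset.mem_univ _) h
        _ = (Nat.card T : ℂ) * χ y⁻¹ := by
            rw [Finset.sum_const, Finset.card_univ, nsmul_eq_mul, Nat.card_eq_fintype_card]
    rw [ip, h1, mul_div_assoc, mul_comm, div_mul_cancel₀ _ natCard_ne_zero]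
  have h1 := congrFun (class_fn_expand f hc) x
  rw [show (∑ t : T, if t * x * t⁻¹ = y then (1 : ℂ) else 0) = f x from rfl, h1]
  refine Finset.sum_congr rfl fun χ hχ => ?_
  rw [hip χ (mem_irrF.mp hχ), mul_comm]

end TIS

open Classical in
/-- RCB_TIS: the isometry. -/
theorem TIS_thm : Stmt_TIS := by
  intro T _ _ ℓ _ P₁ _ C _ _ δ δ' hδ hδ'
  have hC : (Nat.card C : ℂ) ≠ 0 := by exact_mod_cast Nat.card_pos.ne'
  -- the contribution of `t`
  set F : T → ℂ := fun t => ∑ c : C, ∑ c' : C,
    (if t * ((c : NP P₁) : T) * t⁻¹ = ((c' : NP P₁) : T) then (1 : ℂ) else 0) *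
      (δ c⁻¹ * δ' c') with hF
  have hL : ∑ χ ∈ irrF T, ip (fun c : C => χ ((c : NP P₁) : T)) δ *
        ip (fun c : C => χ ((c : NP P₁) : T)⁻¹) (fun c => δ' c⁻¹) =
      (∑ t : T, F t) / ((Nat.card C : ℂ) * (Nat.card C : ℂ)) := by
    have h1 : ∀ χ ∈ irrF T, ip (fun c : C => χ ((c : NP P₁) : T)) δ *
        ip (fun c : C => χ ((c : NP P₁) : T)⁻¹) (fun c => δ' c⁻¹) =
        (∑ c : C, ∑ c' : C, χ ((c : NP P₁) : T) * χ ((c' : NP P₁) : T)⁻¹ * (δ c⁻¹ * δ' c')) /
          ((Nat.card C : ℂ) * (Nat.card C : ℂ)) := by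
      intro χ _
      rw [ip, ip, div_mul_div_comm, Finset.sum_mul_sum]
      congr 1
      refine Finset.sum_congr rfl fun c _ => Finset.sum_congr rfl fun c' _ => ?_
      rw [inv_inv]
      ring
    rw [Finset.sum_congr rfl h1, ← Finset.sum_div]
    congr 1
    calc ∑ χ ∈ irrF T, ∑ c : C, ∑ c' : C,
          χ ((c : NP P₁) : T) * χ ((c' : NP P₁) : T)⁻¹ * (δ c⁻¹ * δ' c')
        = ∑ c : C, ∑ c' : C, (∑ χ ∈ irrF T,
            χ ((c : NP P₁) : T) * χ ((c' : NP P₁) : T)⁻¹) * (δ c⁻¹ * δ' c') := by
          rw [Finset.sum_comm]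
          refine Finset.sum_congr rfl fun c _ => ?_
          rw [Finset.sum_comm]
          refine Finset.sum_congr rfl fun c' _ => ?_
          rw [Finset.sum_mul]
      _ = ∑ c : C, ∑ c' : C, ∑ t : T,
            (if t * ((c : NP P₁) : T) * t⁻¹ = ((c' : NP P₁) : T) then (1 : ℂ) else 0) *
              (δ c⁻¹ * δ' c') := by
          refine Finset.sum_congr rfl fun c _ => Finset.sum_congr rfl fun c' _ => ?_
          rw [TIS.col, Finset.sum_mul]
      _ = ∑ t : T, F t := by
          simp only [hF]
          exact Eq.trans (Finset.sum_congr rfl fun c _ => Finset.sum_comm) Finset.sum_comm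
  -- the elements outside of the normalizer do not contribute
  have hout : ∀ t : T, t ∉ Subgroup.normalizer (P₁ : Set T) → F t = 0 := by
    intro t ht
    simp only [hF]
    refine Finset.sum_eq_zero fun c _ => Finset.sum_eq_zero fun c' _ => ?_
    by_cases h1 : t * ((c : NP P₁) : T) * t⁻¹ = ((c' : NP P₁) : T)
    · by_cases h2 : δ c⁻¹ = 0
      · rw [h2, zero_mul, mul_zero]
      · by_cases h3 : δ' c' = 0
        · rw [h3, mul_zero, mul_zero]
        · exfalso
          have h4 : P₁ ≤ Subgroup.zpowers (((c⁻¹ : C) : NP P₁) : T) := by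
            by_contra h
            exact h2 (hδ _ h)
          have h5 : P₁ ≤ Subgroup.zpowers ((c' : NP P₁) : T) := by
            by_contra h
            exact h3 (hδ' _ h)
          have h6 : Subgroup.zpowers (((c⁻¹ : C) : NP P₁) : T) =
              Subgroup.zpowers ((c : NP P₁) : T) := by
            have h7 : (((c⁻¹ : C) : NP P₁) : T) = ((c : NP P₁) : T)⁻¹ := rfl
            rw [h7, Subgroup.zpowers_inv]
          rw [h6] at h4
          rw [← h1] at h5
          exact ht (TIS.mem_nor h4 h5)
    · rw [if_neg h1, zero_mul]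
  -- the contribution of the elements of the normalizer
  have hin : ∀ t : NP P₁, F (t : T) = (Nat.card C : ℂ) * ip (cj C t δ') δ := by
    intro t
    rw [ip, mul_div_cancel₀ _ hC]
    simp only [hF]
    refine Finset.sum_congr rfl fun c _ => ?_
    have h0 : ((((MulAut.conjNormal t c : C)) : NP P₁) : T) =
        (t : T) * ((c : NP P₁) : T) * (t : T)⁻¹ := by
      rw [MulAut.conjNormal_apply]
      rfl
    rw [Finset.sum_eq_single (MulAut.conjNormal t c : C)]
    · rw [if_pos h0.symm, one_mul, mul_comm]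
      rfl
    · intro c' _ hc'
      rw [if_neg, zero_mul]
      intro h1
      apply hc'
      apply Subtype.ext
      apply Subtype.ext
      rw [← h1, h0]
    · intro h
      exact absurd (Finset.mem_univ _) h
  have hsum : ∑ t : T, F t = ∑ t : NP P₁, F (t : T) := by
    rw [← Finset.sum_subtype (Finset.univ.filter fun t => t ∈ Subgroup.normalizer (P₁ : Set T))
      (fun t => by simp) F]
    symm
    refine Finset.sum_subset (Finset.filter_subset _ _) fun t _ ht => ?_
    apply hout
    intro h
    exact ht (Finset.mem_filter.mpr ⟨Finset.mem_univ _, h⟩)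
  rw [hL, hsum, Finset.sum_congr rfl fun t _ => hin t, ← Finset.mul_sum]
  field_simp

end Pool.Agent.RCB
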