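import Mathlib
import Pool.Agent.RCB.St1
import Pool.Agent.DPX.VSXX

set_option linter.unusedSectionVars false

/-!
# RCB_TOG: the cancellation over the chains
-/

namespace Pool.Agent.RCB

open Pool.Agent.DP Pool.Agent.DPV Pool.Agent.DPB Pool.Agent.DPW Pool.Agent.DPX
open Pool.Agent.Lib_helper13 Representation

namespace TOG

open Pool.Agent.DPX.VSXX (uniq' ch_insert)

section Act

variable {G B C : Type} [Group G] [Fintype G] [Group B] [Fintype B] [Group C] {ℓ : ℕ}
  [hℓ : Fact ℓ.Prime] {P₁ P : Subgroup G} {ι : G →* B} {κ : B →* MulAut G} {ρ : B →* C}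

/-- the conjugate of a subgroup of `G` under an element of `B` -/
abbrev kj (κ : B →* MulAut G) (b : B) (H : Subgroup G) : Subgroup G :=
  H.map (κ b).toMonoidHom

theorem kj_mul (a b : B) (H : Subgroup G) : kj κ (a * b) H = kj κ a (kj κ b H) := by
  unfold kj
  rw [Subgroup.map_map, map_mul]
  rfl

theorem kj_one (H : Subgroup G) : kj κ 1 H = H := by
  unfold kj
  rw [map_one]
  exact Subgroup.map_id H

theorem kj_inv (b : B) (H : Subgroup G) : kj κ b⁻¹ (kj κ b H) = H := by
  rw [← kj_mul, inv_mul_cancel, kj_one]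

theorem kj_inv' (b : B) (H : Subgroup G) : kj κ b (kj κ b⁻¹ H) = H := by
  rw [← kj_mul, mul_inv_cancel, kj_one]

theorem kj_mono {A D : Subgroup G} (h : A ≤ D) (b : B) : kj κ b A ≤ kj κ b D :=
  Subgroup.map_mono h

theorem kj_cyc (hP : IsCyclic P) (b : B) : IsCyclic (kj κ b P) :=
  isCyclic_of_surjective (P.equivMapOfInjective (κ b).toMonoidHom (κ b).injective)
    (P.equivMapOfInjective (κ b).toMonoidHom (κ b).injective).surjective

theorem card_kj (b : B) (H : Subgroup G) : Nat.card (kj κ b H) = Nat.card H :=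
  Nat.card_congr (H.equivMapOfInjective (κ b).toMonoidHom (κ b).injective).symm.toEquiv

theorem kj_le {b : B} {A D : Subgroup G} (h : kj κ b A ≤ D) : A ≤ kj κ b⁻¹ D := by
  have h1 := kj_mono (κ := κ) h b⁻¹
  rwa [kj_inv] at h1

/-- The stabilizer in `B` of a set of subgroups of `G`. -/
theorem mem_YS_iff (hL : LocN ι κ ρ) (τ : Finset (Subgroup G)) (b : B) :
    b ∈ YS ι τ ↔ ∀ D ∈ τ, kj κ b D = D := by
  have key : ∀ D : Subgroup G, (D.map ι).map (MulAut.conj b).toMonoidHom = (kj κ b D).map ι := by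
    intro D
    unfold kj
    rw [Subgroup.map_map, Subgroup.map_map]
    congr 1
    ext g
    simp only [MonoidHom.coe_comp, Function.comp_apply, MulEquiv.coe_toMonoidHom]
    rw [MulAut.conj_apply, hL.cl.act]
  rw [mem_stb]
  constructor
  · intro h D hD
    have h1 := h (D.map ι) (mem_mapCh.mpr ⟨D, hD, rfl⟩)
    rw [key] at h1
    exact Subgroup.map_injective hL.cl.inj h1
  · intro h E hE
    obtain ⟨D, hD, rfl⟩ := mem_mapCh.mp hE
    rw [key, h D hD]

theorem YS_kj (hL : LocN ι κ ρ) (b : B) (D : Subgroup G) :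
    YS ι {kj κ b D} = (YS ι {D}).map (MulAut.conj b).toMonoidHom := by
  ext x
  rw [Subgroup.mem_map_equiv, MulAut.conj_symm_apply, mem_YS_iff hL, mem_YS_iff hL]
  simp only [Finset.mem_singleton, forall_eq]
  rw [kj_mul, kj_mul]
  constructor
  · intro h
    rw [h, kj_inv]
  · intro h
    have h1 := congrArg (kj κ b) h
    rwa [kj_inv'] at h1

theorem YS_empty : YS ι (∅ : Finset (Subgroup G)) = ⊤ := by
  rw [eq_top_iff]
  intro x _
  rw [mem_stb]
  intro D hD
  obtain ⟨E, hE, -⟩ := mem_mapCh.mp hD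
  exact absurd hE (Finset.notMem_empty E)

open Pointwise in
/-- The number of conjugates of a subgroup. -/
theorem card_orb (hL : LocN ι κ ρ) (Q : Subgroup G) :
    Nat.card {D : Subgroup G // ∃ b : B, kj κ b Q = D} *
      Nat.card (YS ι ({Q} : Finset (Subgroup G))) = Nat.card B := by
  let _ : MulAction B (Subgroup G) := MulAction.compHom (Subgroup G) κ
  have hs : ∀ b : B, b • Q = kj κ b Q := fun b => rfl
  have h1 : MulAction.stabilizer B Q = YS ι ({Q} : Finset (Subgroup G)) := by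
    ext b
    rw [MulAction.mem_stabilizer_iff, hs, mem_YS_iff hL]
    constructor
    · intro h D hD
      rw [Finset.mem_singleton.mp hD]
      exact h
    · intro h
      exact h Q (Finset.mem_singleton_self Q)
  have h2 : Nat.card {D : Subgroup G // ∃ b : B, kj κ b Q = D} =
      (MulAction.stabilizer B Q).index := by
    rw [MulAction.index_stabilizer, ← Nat.card_coe_set_eq]
    rfl
  rw [h2, h1, mul_comm]
  exact Subgroup.card_mul_index _

/-- A nontrivial subgroup of a cyclic group of order a power of `ℓ` contains the subgroup of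
order `ℓ`. -/
theorem om_le (hP : IsCyclic P) (hle : P₁ ≤ P) (hc : Nat.card P₁ = ℓ) {D : Subgroup G}
    (hD : IsPGroup ℓ D) (hne : ⊥ < D) {b : B} (hDP : D ≤ kj κ b P) : kj κ b P₁ ≤ D := by
  have hdvd : ℓ ∣ Nat.card D := by
    obtain ⟨k, hk⟩ := (IsPGroup.iff_card (p := ℓ) (G := D)).1 hD
    rw [hk]
    apply dvd_pow_self
    rintro rfl
    rw [pow_zero] at hk
    exact hne.ne' (Subgroup.card_eq_one.1 hk)
  obtain ⟨x, hx⟩ := exists_prime_orderOf_dvd_card' ℓ hdvd
  have h1 : (Subgroup.zpowers (x : G)) ≤ D := by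
    rw [Subgroup.zpowers_le]
    exact x.2
  have h2 : Nat.card (Subgroup.zpowers (x : G)) = ℓ := by
    rw [Nat.card_zpowers, ← hx]
    exact Subgroup.orderOf_coe x
  have h3 : kj κ b P₁ = Subgroup.zpowers (x : G) :=
    uniq' (kj_cyc hP b) (kj_mono hle b) (h1.trans hDP) (by rw [card_kj, hc, h2])
  rw [h3]
  exact h1

/-- The members of the chain are subgroups of one conjugate of `P`. -/
def Gd (κ : B →* MulAut G) (P : Subgroup G) (σ : Finset (Subgroup G)) : Prop :=
  ∃ b : B, ∀ D ∈ σ, D ≤ kj κ b P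

open Classical in
/-- The subgroup of order `ℓ` of the members. -/
noncomputable def Om (κ : B →* MulAut G) (P₁ P : Subgroup G) (σ : Finset (Subgroup G)) :
    Subgroup G :=
  if h : Gd κ P σ then kj κ h.choose P₁ else ⊥

theorem Om_eq (hP : IsCyclic P) (hle : P₁ ≤ P) (hc : Nat.card P₁ = ℓ)
    {σ : Finset (Subgroup G)} (hσ : IsCh ℓ (⊥ : Subgroup G) σ) (hne : σ.Nonempty) {b : B}
    (hb : ∀ D ∈ σ, D ≤ kj κ b P) : Om κ P₁ P σ = kj κ b P₁ := by
  have hG : Gd κ P σ := ⟨b, hb⟩
  have h1 : Om κ P₁ P σ = kj κ hG.choose P₁ := by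
    unfold Om
    rw [dif_pos hG]
  rw [h1]
  obtain ⟨D, hD⟩ := hne
  obtain ⟨hD1, hD2⟩ := hσ.1 D hD
  have h2 := om_le hP hle hc hD1 hD2 (hG.choose_spec D hD)
  exact uniq' (kj_cyc hP b) (h2.trans (hb D hD)) (kj_mono hle b) (by rw [card_kj, card_kj])

open Classical in
/-- the involution -/
noncomputable def inv (κ : B →* MulAut G) (P₁ P : Subgroup G) (σ : Finset (Subgroup G)) :
    Finset (Subgroup G) :=
  if Om κ P₁ P σ ∈ σ then σ.erase (Om κ P₁ P σ) else insert (Om κ P₁ P σ) σ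

/-- The chain is good, not empty and not of the form `{O}`. -/
structure Bd (κ : B →* MulAut G) (ℓ : ℕ) (P₁ P : Subgroup G) (σ : Finset (Subgroup G)) :
    Prop where
  ch : IsCh ℓ (⊥ : Subgroup G) σ
  gd : Gd κ P σ
  ne : σ.Nonempty
  sg : ∀ b : B, σ ≠ {kj κ b P₁}

open Classical in
theorem ys_insert (hL : LocN ι κ ρ) (hP : IsCyclic P)
    {σ : Finset (Subgroup G)} {O D : Subgroup G} {b : B}
    (hD : D ∈ σ) (hOD : O ≤ D) (hDP : D ≤ kj κ b P) : YS ι (insert O σ) = YS ι σ := by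
  ext x
  rw [mem_YS_iff hL, mem_YS_iff hL]
  constructor
  · intro h E hE
    exact h E (Finset.mem_insert_of_mem hE)
  · intro h E hE
    rcases Finset.mem_insert.1 hE with rfl | hE
    · have h1 : kj κ x E ≤ D := by
        have h2 := kj_mono (κ := κ) hOD x
        rwa [h D hD] at h2
      exact uniq' (kj_cyc hP b) (h1.trans hDP) (hOD.trans hDP) (card_kj x E)
    · exact h E hE

end Act

end TOG

open TOG Pool.Agent.DPX.VSXX in
/-- RCB_TOG: the cancellation. -/
theorem TOG_thm : Stmt_TOG := by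
  classical
  intro G B C _ _ _ _ _ ℓ _ ι κ ρ hL P₁ P hle hPc hPp hc1 W hWc hW
  set T : Finset (Subgroup G) → ℚ := fun σ => (-1 : ℚ) ^ σ.card * W (YS ι σ) with hT
  have h3 : ∑ τ ∈ Ch ℓ (⊥ : Subgroup G), (-1 : ℚ) ^ τ.card * W (YS ι τ) =
      ∑ σ ∈ Ch ℓ (⊥ : Subgroup G), T σ := rfl
  set S₀ : Finset (Subgroup G) :=
    Finset.univ.filter (fun D : Subgroup G => ∃ b : B, kj κ b P₁ = D) with hS₀
  set S₁ : Finset (Finset (Subgroup G)) :=
    S₀.image (fun D => ({D} : Finset (Subgroup G))) with hS₁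
  have hne : (∅ : Finset (Subgroup G)) ∉ S₁ := by
    rw [hS₁, Finset.mem_image]
    rintro ⟨D, -, hD⟩
    exact Finset.singleton_ne_empty D hD
  have h4 : ∀ D ∈ S₀, T {D} = - W (YS ι {P₁}) := by
    intro D hD
    show (-1 : ℚ) ^ ({D} : Finset (Subgroup G)).card * W (YS ι {D}) = _
    obtain ⟨b, hb⟩ := (Finset.mem_filter.mp hD).2
    rw [← hb, YS_kj hL, hWc, Finset.card_singleton, pow_one, neg_one_mul]
  have h8 : (S₀.card : ℚ) * (Nat.card (YS ι ({P₁} : Finset (Subgroup G))) : ℚ) =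
      Nat.card B := by
    have h9 := card_orb hL P₁
    have h10 : Nat.card {D : Subgroup G // ∃ b : B, kj κ b P₁ = D} = S₀.card :=
      Nat.subtype_card _ (fun D => by
        rw [hS₀, Finset.mem_filter]
        exact ⟨fun h => h.2, fun h => ⟨Finset.mem_univ _, h⟩⟩)
    rw [h10] at h9
    exact_mod_cast h9
  have hOp : ∀ b : B, IsPGroup ℓ (kj κ b P₁) ∧ ⊥ < kj κ b P₁ := by
    intro b
    have h12 : Nat.card (kj κ b P₁) = ℓ := by
      rw [card_kj, hc1]
    exact ⟨Pool.Agent.DPB.BRD.isPGroup_of_card h12,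
      bot_lt_iff_ne_bot.2 (Pool.Agent.DPB.BRD.ne_bot h12)⟩
  have hsub : insert ∅ S₁ ⊆ Ch ℓ (⊥ : Subgroup G) := by
    intro σ hσ
    rw [mem_Ch]
    rcases Finset.mem_insert.mp hσ with rfl | hσ
    · exact ⟨by simp, by simp⟩
    · obtain ⟨D, hD, rfl⟩ := Finset.mem_image.mp hσ
      obtain ⟨b, hb⟩ := (Finset.mem_filter.mp hD).2
      rw [← hb]
      exact Pool.Agent.DPB.LOC.isCh_singleton (hOp b).1 (hOp b).2.ne'
  -- the chains which are not good do not contribute
  have hzero : ∀ σ ∈ Ch ℓ (⊥ : Subgroup G), ¬ Gd κ P σ → T σ = 0 := by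
    intro σ hσ hnot
    have hN : W (YS ι σ) = 0 := by
      by_contra hne0
      apply hnot
      obtain ⟨b, hb⟩ := hW σ (mem_Ch.mp hσ) hne0
      exact ⟨b⁻¹, fun D hD => kj_le (hb D hD)⟩
    show (-1 : ℚ) ^ σ.card * W (YS ι σ) = 0
    rw [hN, mul_zero]
  -- the good chains cancel
  set R : Finset (Finset (Subgroup G)) :=
    (Ch ℓ (⊥ : Subgroup G)).filter (fun σ => TOG.Bd κ ℓ P₁ P σ) with hR
  have hins : ∀ σ : Finset (Subgroup G), IsCh ℓ (⊥ : Subgroup G) σ → σ.Nonempty → ∀ b : B,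
      (∀ D ∈ σ, D ≤ kj κ b P) → YS ι (insert (kj κ b P₁) σ) = YS ι σ ∧
      IsCh ℓ (⊥ : Subgroup G) (insert (kj κ b P₁) σ) := by
    intro σ hσ hσne b hb
    obtain ⟨D, hD⟩ := hσne
    have h12 : ∀ E ∈ σ, kj κ b P₁ ≤ E := fun E hE =>
      TOG.om_le hPc hle hc1 (hσ.1 E hE).1 (hσ.1 E hE).2 (hb E hE)
    exact ⟨ys_insert hL hPc hD (h12 D hD) (hb D hD), ch_insert hσ (hOp b).1 (hOp b).2 h12⟩
  have hTins : ∀ σ : Finset (Subgroup G), IsCh ℓ (⊥ : Subgroup G) σ → σ.Nonempty → ∀ b : B,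
      (∀ D ∈ σ, D ≤ kj κ b P) → kj κ b P₁ ∉ σ → T (insert (kj κ b P₁) σ) = - T σ := by
    intro σ hσ hσne b hb hnot
    obtain ⟨h12, -⟩ := hins σ hσ hσne b hb
    show (-1 : ℚ) ^ (insert (kj κ b P₁) σ).card * W (YS ι (insert (kj κ b P₁) σ)) =
      - ((-1 : ℚ) ^ σ.card * W (YS ι σ))
    rw [h12, Finset.card_insert_of_notMem hnot, pow_succ]
    ring
  have hinv : ∀ σ : Finset (Subgroup G), TOG.Bd κ ℓ P₁ P σ → ∃ b : B,
      (∀ D ∈ σ, D ≤ kj κ b P) ∧
      TOG.Om κ P₁ P σ = kj κ b P₁ ∧ ((kj κ b P₁ ∈ σ ∧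
        TOG.inv κ P₁ P σ = σ.erase (kj κ b P₁) ∧ (σ.erase (kj κ b P₁)).Nonempty) ∨
        (kj κ b P₁ ∉ σ ∧ TOG.inv κ P₁ P σ = insert (kj κ b P₁) σ)) := by
    intro σ hσ
    obtain ⟨b, hb⟩ := hσ.gd
    have h12 := TOG.Om_eq hPc hle hc1 hσ.ch hσ.ne hb
    refine ⟨b, hb, h12, ?_⟩
    by_cases hmem : kj κ b P₁ ∈ σ
    · left
      refine ⟨hmem, ?_, ?_⟩
      · unfold TOG.inv
        rw [h12, if_pos hmem]
      · rw [Finset.nonempty_iff_ne_empty]
        intro h13
        apply hσ.sg b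
        rw [Finset.erase_eq_empty_iff] at h13
        rcases h13 with h13 | h13
        · exact absurd h13 hσ.ne.ne_empty
        · exact h13
    · right
      refine ⟨hmem, ?_⟩
      unfold TOG.inv
      rw [h12, if_neg hmem]
  have hRsum : ∑ σ ∈ R, T σ = 0 := by
    refine Finset.sum_involution (fun σ _ => TOG.inv κ P₁ P σ) ?_ ?_ ?_ ?_
    · intro σ hσ
      have hB : TOG.Bd κ ℓ P₁ P σ := (Finset.mem_filter.1 hσ).2
      obtain ⟨b, hb, -, h | h⟩ := hinv σ hB
      · obtain ⟨hmem, h12, h13⟩ := h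
        rw [h12]
        have h14 := hTins (σ.erase (kj κ b P₁)) (hB.ch.subset (Finset.erase_subset _ _)) h13 b
          (fun D hD => hb D (Finset.mem_of_mem_erase hD)) (Finset.notMem_erase _ _)
        rw [Finset.insert_erase hmem] at h14
        rw [h14]
        ring
      · obtain ⟨hmem, h12⟩ := h
        rw [h12, hTins σ hB.ch hB.ne b hb hmem]
        ring
    · intro σ hσ _
      have hB : TOG.Bd κ ℓ P₁ P σ := (Finset.mem_filter.1 hσ).2
      obtain ⟨b, hb, -, h | h⟩ := hinv σ hB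
      · obtain ⟨hmem, h12, h13⟩ := h
        rw [h12]
        intro h14
        have h15 := Finset.notMem_erase (kj κ b P₁) σ
        rw [h14] at h15
        exact h15 hmem
      · obtain ⟨hmem, h12⟩ := h
        rw [h12]
        intro h14
        apply hmem
        have h15 := Finset.mem_insert_self (kj κ b P₁) σ
        rwa [h14] at h15
    · intro σ hσ
      have hB : TOG.Bd κ ℓ P₁ P σ := (Finset.mem_filter.1 hσ).2
      rw [hR, Finset.mem_filter, mem_Ch]
      obtain ⟨b, hb, -, h | h⟩ := hinv σ hB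
      · obtain ⟨hmem, h12, h13⟩ := h
        rw [h12]
        have h14 : IsCh ℓ (⊥ : Subgroup G) (σ.erase (kj κ b P₁)) :=
          hB.ch.subset (Finset.erase_subset _ _)
        have h15 : ∀ D ∈ σ.erase (kj κ b P₁), D ≤ kj κ b P :=
          fun D hD => hb D (Finset.mem_of_mem_erase hD)
        refine ⟨h14, h14, ⟨b, h15⟩, h13, ?_⟩
        intro b' hb'
        have h16 : kj κ b' P₁ ∈ σ.erase (kj κ b P₁) := by
          rw [hb']
          exact Finset.mem_singleton_self _
        have h17 : kj κ b' P₁ = kj κ b P₁ :=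
          uniq' (kj_cyc hPc b) (h15 _ h16) (kj_mono hle b) (by rw [card_kj, card_kj])
        rw [h17] at h16
        exact Finset.notMem_erase _ _ h16
      · obtain ⟨hmem, h12⟩ := h
        rw [h12]
        have h14 := (hins σ hB.ch hB.ne b hb).2
        have h15 : ∀ D ∈ insert (kj κ b P₁) σ, D ≤ kj κ b P := by
          intro D hD
          rcases Finset.mem_insert.1 hD with rfl | hD
          · exact kj_mono hle b
          · exact hb D hD
        refine ⟨h14, h14, ⟨b, h15⟩, Finset.insert_nonempty _ _, ?_⟩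
        intro b' hb'
        obtain ⟨D, hD⟩ := hB.ne
        have h16 : D ∈ ({kj κ b' P₁} : Finset (Subgroup G)) := by
          rw [← hb']
          exact Finset.mem_insert_of_mem hD
        have h17 : kj κ b P₁ ∈ ({kj κ b' P₁} : Finset (Subgroup G)) := by
          rw [← hb']
          exact Finset.mem_insert_self _ _
        rw [Finset.mem_singleton] at h16 h17
        apply hmem
        rw [h17, ← h16]
        exact hD
    · intro σ hσ
      have hB : TOG.Bd κ ℓ P₁ P σ := (Finset.mem_filter.1 hσ).2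
      obtain ⟨b, hb, hOm, h | h⟩ := hinv σ hB
      · obtain ⟨hmem, h12, h13⟩ := h
        show TOG.inv κ P₁ P (TOG.inv κ P₁ P σ) = σ
        rw [h12]
        have h14 : IsCh ℓ (⊥ : Subgroup G) (σ.erase (kj κ b P₁)) :=
          hB.ch.subset (Finset.erase_subset _ _)
        have h16 : TOG.Om κ P₁ P (σ.erase (kj κ b P₁)) = kj κ b P₁ :=
          TOG.Om_eq hPc hle hc1 h14 h13 (fun D hD => hb D (Finset.mem_of_mem_erase hD))
        unfold TOG.inv
        rw [h16, if_neg (Finset.notMem_erase _ _), Finset.insert_erase hmem]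
      · obtain ⟨hmem, h12⟩ := h
        show TOG.inv κ P₁ P (TOG.inv κ P₁ P σ) = σ
        rw [h12]
        have h14 := (hins σ hB.ch hB.ne b hb).2
        have h15 : ∀ D ∈ insert (kj κ b P₁) σ, D ≤ kj κ b P := by
          intro D hD
          rcases Finset.mem_insert.1 hD with rfl | hD
          · exact kj_mono hle b
          · exact hb D hD
        have h16 : TOG.Om κ P₁ P (insert (kj κ b P₁) σ) = kj κ b P₁ :=
          TOG.Om_eq hPc hle hc1 h14 (Finset.insert_nonempty _ _) h15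
        unfold TOG.inv
        rw [h16, if_pos (Finset.mem_insert_self _ _), Finset.erase_insert hmem]
  -- the sum
  have htot : ∑ σ ∈ Ch ℓ (⊥ : Subgroup G), T σ = ∑ σ ∈ insert ∅ S₁, T σ := by
    have hRs : R ⊆ (Ch ℓ (⊥ : Subgroup G)) \ insert ∅ S₁ := by
      intro σ hσ
      have hB : TOG.Bd κ ℓ P₁ P σ := (Finset.mem_filter.1 hσ).2
      rw [Finset.mem_sdiff]
      refine ⟨(Finset.mem_filter.1 hσ).1, ?_⟩
      intro h12
      rcases Finset.mem_insert.1 h12 with h12 | h12
      · exact hB.ne.ne_empty h12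
      · obtain ⟨D, hD, h13⟩ := Finset.mem_image.1 h12
        obtain ⟨b, hb⟩ := (Finset.mem_filter.1 hD).2
        exact hB.sg b (by rw [← h13, ← hb])
    have h12 : ∑ σ ∈ (Ch ℓ (⊥ : Subgroup G)) \ insert ∅ S₁, T σ = 0 := by
      rw [← Finset.sum_subset hRs, hRsum]
      intro σ hσ hnot
      obtain ⟨h13, h14⟩ := Finset.mem_sdiff.1 hσ
      by_cases hgd : TOG.Gd κ P σ
      · exfalso
        apply hnot
        refine Finset.mem_filter.2 ⟨h13, mem_Ch.1 h13, hgd, ?_, ?_⟩
        · rw [Finset.nonempty_iff_ne_empty]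
          intro h15
          apply h14
          rw [h15]
          exact Finset.mem_insert_self _ _
        · intro b h15
          apply h14
          apply Finset.mem_insert_of_mem
          rw [h15]
          exact Finset.mem_image.2 ⟨kj κ b P₁, Finset.mem_filter.2 ⟨Finset.mem_univ _, b, rfl⟩, rfl⟩
      · exact hzero σ h13 hgd
    rw [← Finset.sum_sdiff hsub, h12, zero_add]
  have hT0 : T ∅ = W ⊤ := by
    show (-1 : ℚ) ^ (∅ : Finset (Subgroup G)).card * W (YS ι (∅ : Finset (Subgroup G))) = _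
    rw [Finset.card_empty, pow_zero, one_mul, YS_empty]
  rw [h3, htot, Finset.sum_insert hne, hT0, hS₁,
    Finset.sum_image (fun D _ E _ h => Finset.singleton_injective h),
    Finset.sum_congr rfl h4, Finset.sum_const, nsmul_eq_mul, ← h8]
  ring

end Pool.Agent.RCB
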