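import Mathlib
import Pool.Agent.RCB.St2

/-!
# RCB_TOT: the number of the characters of the block
-/

namespace Pool.Agent.RCB

open Pool.Agent.DP Pool.Agent.DPV Pool.Agent.DPB Pool.Agent.DPW Pool.Agent.DPX
open Pool.Agent.Lib_helper13 Representation

namespace TOT

section Conj

variable {N : Type} [Group N] {C : Subgroup N} [C.Normal]

theorem cj_mul (g h : N) (φ : C → ℂ) : cj C (g * h) φ = cj C h (cj C g φ) := by
  funext c
  simp only [cj, map_mul, MulAut.mul_apply]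

theorem cj_one (φ : C → ℂ) : cj C (1 : N) φ = φ := by
  funext c
  simp only [cj, map_one, MulAut.one_apply]

theorem cj_inv (g : N) (φ : C → ℂ) : cj C g⁻¹ (cj C g φ) = φ := by
  rw [← cj_mul, mul_inv_cancel, cj_one]

/-- The elements of `C` act trivially. -/
theorem cj_mem [Fintype N] {φ : C → ℂ} (h : IsIrr φ) {g : N} (hg : g ∈ C) : cj C g φ = φ := by
  have : Fintype C := Fintype.ofFinite C
  funext c
  have h1 : (MulAut.conjNormal g c : C) = ⟨g, hg⟩ * c * ⟨g, hg⟩⁻¹ := by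
    apply Subtype.ext
    simp [MulAut.conjNormal_apply]
  rw [cj, h1, h.conj_eq]

open Classical in
/-- The size of an orbit. -/
theorem orbit_card [Fintype N] {S : Subgroup N} (hCS : C ≤ S) {φ : C → ℂ} (hφ : IsIrr φ)
    (hfree : ∀ g ∈ S, cj C g φ = φ → g ∈ C) (F : Finset (C → ℂ))
    (hF : ∀ φ', φ' ∈ F ↔ ∃ g ∈ S, φ' = cj C g φ) : F.card = C.relIndex S := by
  have e1 := Finset.card_eq_sum_card_fiberwise
    (s := Finset.univ.filter fun g : N => g ∈ S) (t := F) (f := fun g => cj C g φ) (by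
      intro g hg
      exact Finset.mem_coe.mpr ((hF _).mpr ⟨g, (Finset.mem_filter.mp hg).2, rfl⟩))
  have e2 : ∀ φ' ∈ F, ((Finset.univ.filter fun g : N => g ∈ S).filter
      fun g => cj C g φ = φ').card = Nat.card C := by
    intro φ' hφ'
    obtain ⟨g₀, hg₀, rfl⟩ := (hF φ').mp hφ'
    have e3 : Nat.card C = (Finset.univ.filter fun g : N => g ∈ C).card := by
      rw [Nat.card_eq_fintype_card, Fintype.card_subtype]
    rw [e3]
    refine Finset.card_bij' (fun g _ => g * g₀⁻¹) (fun c _ => c * g₀) ?_ ?_ ?_ ?_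
    · intro g hg
      rw [Finset.mem_filter, Finset.mem_filter] at hg
      obtain ⟨⟨-, h1⟩, h2⟩ := hg
      refine Finset.mem_filter.mpr ⟨Finset.mem_univ _, hfree _ (mul_mem h1 (inv_mem hg₀)) ?_⟩
      rw [cj_mul, h2, cj_inv]
    · intro c hc
      have h1 : c ∈ C := (Finset.mem_filter.mp hc).2
      rw [Finset.mem_filter, Finset.mem_filter]
      refine ⟨⟨Finset.mem_univ _, mul_mem (hCS h1) hg₀⟩, ?_⟩
      rw [cj_mul, cj_mem hφ h1]
    · intro g _
      exact inv_mul_cancel_right g g₀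
    · intro c _
      exact mul_inv_cancel_right c g₀
  rw [Finset.sum_congr rfl e2, Finset.sum_const, smul_eq_mul] at e1
  have e4 : (Finset.univ.filter fun g : N => g ∈ S).card = Nat.card S := by
    rw [Nat.card_eq_fintype_card, Fintype.card_subtype]
  have e5 : C.relIndex S * Nat.card C = Nat.card S := by
    have h1 := Subgroup.index_mul_card (C.subgroupOf S)
    rw [Nat.card_congr (Subgroup.subgroupOfEquivOfLe hCS).toEquiv] at h1
    exact h1
  rw [e4, ← e5] at e1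
  have e6 : 0 < Nat.card C := Nat.card_pos
  exact (Nat.eq_of_mul_eq_mul_right e6 e1).symm

end Conj

end TOT

open TOT Classical in
/-- RCB_TOT: the number of the characters of the block. -/
theorem TOT_thm (h0 : Stmt_ORC) (h1 : Stmt_LCC) (h2 : Stmt_CNTX) : Stmt_TOT := by
  intro T _ _ 𝔐 ℓ n _ hM hℓ χ₀ P₁ P x₀ _ C _ ψ₀ φ₀ hcf
  obtain ⟨-, hCS, he0, -, hL, hst, -, -, φ₁, hφ₁, hinv, hun⟩ :=
    h0 T 𝔐 ℓ n hM hℓ χ₀ P₁ P x₀ C ψ₀ φ₀ hcf
  obtain ⟨l1, l2, l3, l4, -, l6⟩ := h1 T 𝔐 ℓ n hM hℓ χ₀ P₁ P x₀ C ψ₀ φ₀ hcf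
  have hX := h2 T 𝔐 ℓ n hM hℓ χ₀ hcf.irr P₁ P x₀ hcf.at'
  have hLpos : 0 < ℓ ^ n := Nat.pow_pos (Fact.out : ℓ.Prime).pos
  -- the finite sets
  have finI : (II 𝔐 φ₀).Finite := by
    have : Finite (II 𝔐 φ₀) := Nat.finite_of_card_ne_zero (by rw [hL]; exact hLpos.ne')
    exact Set.toFinite _
  set I : Finset (C → ℂ) := finI.toFinset with hI
  have memI : ∀ φ, φ ∈ I ↔ φ ∈ II 𝔐 φ₀ := fun φ => Set.Finite.mem_toFinset finI
  have cardI : I.card = ℓ ^ n := by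
    rw [← hL]
    exact (Nat.subtype_card I memI).symm
  set Y : Finset (NP P₁ → ℂ) := (irrF (NP P₁)).filter fun ψ =>
    cen 𝔐 (Subgroup.normalizer (P₁ : Set T)).subtype ψ = cen 𝔐 (MonoidHom.id T) χ₀ with hY
  have memY : ∀ ψ, ψ ∈ Y ↔ IsIrr ψ ∧
      cen 𝔐 (Subgroup.normalizer (P₁ : Set T)).subtype ψ = cen 𝔐 (MonoidHom.id T) χ₀ := by
    intro ψ
    rw [hY, Finset.mem_filter, mem_irrF]
  have cardY : Nat.card {ψ : NP P₁ → ℂ // IsIrr ψ ∧
      cen 𝔐 (Subgroup.normalizer (P₁ : Set T)).subtype ψ = cen 𝔐 (MonoidHom.id T) χ₀} =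
      Y.card := Nat.subtype_card Y memY
  -- the relation
  let R : (NP P₁ → ℂ) → (C → ℂ) → Prop := fun ψ φ => ip (fun c : C => ψ c) φ ≠ 0
  -- the number of the characters over `φ`
  have hA : ∀ φ ∈ I, (Y.filter fun ψ => R ψ φ).card =
      if φ = φ₁ then C.relIndex (bS 𝔐 C φ₀) else 1 := by
    intro φ hφ
    have hφ' := (memI φ).mp hφ
    have k1 : Nat.card {ψ : NP P₁ → ℂ // IsIrr ψ ∧ ip (fun c : C => ψ c) φ ≠ 0} =
        (Y.filter fun ψ => R ψ φ).card := by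
      refine Nat.subtype_card _ fun ψ => ?_
      rw [Finset.mem_filter, memY]
      exact ⟨fun h => ⟨h.1.1, h.2⟩, fun h => ⟨⟨h.1, l1 ψ h.1 φ hφ' h.2⟩, h.2⟩⟩
    rw [← k1]
    obtain ⟨m1, m2⟩ := l6 φ hφ'
    by_cases hc : φ = φ₁
    · rw [if_pos hc]
      exact m1 (by rw [hc]; exact hinv)
    · rw [if_neg hc]
      by_cases hall : ∀ g ∈ bS 𝔐 C φ₀, cj C g φ = φ
      · rw [m1 hall]
        have k2 : bS 𝔐 C φ₀ ≤ C := fun g hg => hun φ hφ' hc g hg (hall g hg)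
        exact Subgroup.relIndex_eq_one.mpr k2
      · exact m2 hall
  -- the number of the characters under `ψ`
  have hB : ∀ ψ ∈ Y, (I.filter fun φ => R ψ φ).card =
      if R ψ φ₁ then 1 else C.relIndex (bS 𝔐 C φ₀) := by
    intro ψ hψ
    obtain ⟨hirr, hcen⟩ := (memY ψ).mp hψ
    by_cases hc : R ψ φ₁
    · rw [if_pos hc, Finset.card_eq_one]
      refine ⟨φ₁, ?_⟩
      ext φ
      rw [Finset.mem_filter, Finset.mem_singleton]
      constructor
      · rintro ⟨k1, k2⟩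
        obtain ⟨g, hg, k3⟩ := l3 ψ hirr φ₁ hφ₁ φ ((memI φ).mp k1) hc k2
        rw [k3, hinv g hg]
      · rintro rfl
        exact ⟨(memI _).mpr hφ₁, hc⟩
    · rw [if_neg hc]
      obtain ⟨φ, hφ, hne⟩ := l2 ψ hirr hcen
      have hne1 : φ ≠ φ₁ := by
        rintro rfl
        exact hc hne
      refine orbit_card hCS hφ.1 (hun φ hφ hne1) _ fun φ' => ?_
      rw [Finset.mem_filter, memI]
      constructor
      · rintro ⟨k1, k2⟩
        exact l3 ψ hirr φ hφ φ' k1 hne k2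
      · rintro ⟨g, hg, rfl⟩
        refine ⟨(hst φ hφ g).mpr hg, ?_⟩
        change ip (fun c : C => ψ c) (cj C g φ) ≠ 0
        rw [l4 ψ g φ hirr]
        exact hne
  -- double counting
  have hdc : ∑ ψ ∈ Y, (I.filter fun φ => R ψ φ).card = ∑ φ ∈ I, (Y.filter fun ψ => R ψ φ).card :=
    Finset.sum_card_bipartiteAbove_eq_sum_card_bipartiteBelow R
  rw [Finset.sum_congr rfl hB, Finset.sum_congr rfl hA, Finset.sum_ite, Finset.sum_const,
    Finset.sum_const, smul_eq_mul, smul_eq_mul, mul_one,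
    hA φ₁ ((memI φ₁).mpr hφ₁), if_pos rfl] at hdc
  have hr : ∑ φ ∈ I, (if φ = φ₁ then C.relIndex (bS 𝔐 C φ₀) else 1) =
      C.relIndex (bS 𝔐 C φ₀) + (ℓ ^ n - 1) := by
    rw [← Finset.add_sum_erase I _ ((memI φ₁).mpr hφ₁), if_pos rfl]
    congr 1
    rw [← cardI, ← Finset.card_erase_of_mem ((memI φ₁).mpr hφ₁), Finset.card_eq_sum_ones]
    refine Finset.sum_congr rfl fun φ hφ => ?_
    rw [if_neg (Finset.ne_of_mem_erase hφ)]
  rw [hr] at hdc
  have hs := Finset.card_filter_add_card_filter_not (s := Y) (fun ψ => R ψ φ₁)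
  rw [hA φ₁ ((memI φ₁).mpr hφ₁), if_pos rfl] at hs
  refine ⟨(Y.filter fun ψ => ¬ R ψ φ₁).card, ?_, ?_⟩
  · have h3 : (Y.filter fun ψ => ¬ R ψ φ₁).card * C.relIndex (bS 𝔐 C φ₀) = ℓ ^ n - 1 :=
      Nat.add_left_cancel hdc
    rw [mul_comm, h3]
    omega
  · rw [hX, cardY, ← hs]

end Pool.Agent.RCB
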