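import Mathlib
import Pool.Agent.RCB.St3

/-!
# Theorem P1: TRF, the transfer of a linear character
-/

namespace Pool.Agent.RCB.TRF

open Pool.Agent.DPV

open Subgroup.leftTransversals in
/-- The transfer of an element whose conjugates all lie in the subgroup and have the same
image. -/
theorem transfer_pow {G A : Type*} [Group G] [CommGroup A] (H : Subgroup G) [H.FiniteIndex]
    (f : H →* A) (g : G) (a : A)
    (hg : ∀ x : G, ∃ h : x⁻¹ * g * x ∈ H, f ⟨x⁻¹ * g * x, h⟩ = a) :
    MonoidHom.transfer f g = a ^ H.index := by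
  classical
  obtain ⟨T⟩ : Nonempty H.LeftTransversal := ⟨default⟩
  rw [MonoidHom.transfer_def f T g]
  unfold diff
  simp only
  let _ := H.fintypeQuotientOfFiniteIndex
  have hc : H.index = (Finset.univ : Finset (G ⧸ H)).card := by
    rw [Finset.card_univ, Subgroup.index_eq_card, Nat.card_eq_fintype_card]
  rw [hc]
  refine Finset.prod_eq_pow_card fun q _ => ?_
  have h1 : g⁻¹ • q = q := by
    induction q using QuotientGroup.induction_on with
    | H x =>
      obtain ⟨h, -⟩ := hg x
      have h2 := H.inv_mem h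
      rw [mul_inv_rev, mul_inv_rev, inv_inv] at h2
      have h3 : ((x * (x⁻¹ * (g⁻¹ * x)) : G) : G ⧸ H) = x := QuotientGroup.mk_mul_of_mem x h2
      rw [mul_inv_cancel_left] at h3
      exact h3
  obtain ⟨h, h2⟩ := hg (T.2.leftQuotientEquiv q : G)
  rw [← h2]
  congr 1
  apply Subtype.ext
  simp only
  rw [Subgroup.smul_apply_eq_smul_apply_inv_smul, h1, smul_eq_mul, mul_assoc]

/-- the values of a linear character are not zero -/
theorem ne_zero {C : Type} [Group C] {R : Subgroup C} {μ : C → ℂ} (h : LinOn R μ) {x : C}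
    (hx : x ∈ R) : μ x ≠ 0 := by
  intro h0
  have h1 := h.2 x hx x⁻¹ (R.inv_mem hx)
  rw [mul_inv_cancel, h.1, h0, zero_mul] at h1
  exact one_ne_zero h1

/-- the linear character as a homomorphism of the subgroup `R` of `L` -/
noncomputable def hom {C : Type} [Group C] (L : Subgroup C) {R : Subgroup C} {μ : C → ℂ}
    (h : LinOn R μ) : (R.subgroupOf L) →* ℂˣ :=
  MonoidHom.mk' (fun x => Units.mk0 (μ ((x : L) : C)) (ne_zero h x.2)) fun x y => by
    apply Units.ext
    simp only [Units.val_mk0, Units.val_mul, Subgroup.coe_mul]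
    exact h.2 _ x.2 _ y.2

theorem hom_apply {C : Type} [Group C] (L : Subgroup C) {R : Subgroup C} {μ : C → ℂ}
    (h : LinOn R μ) (x : R.subgroupOf L) : ((hom L h x : ℂˣ) : ℂ) = μ ((x : L) : C) := rfl

end Pool.Agent.RCB.TRF

namespace Pool.Agent.RCB

open Pool.Agent.DPV TRF

/-- RCB_TRF -/
theorem TRF_thm : Stmt_TRF := by
  classical
  intro C _ _ L U R hUR hRL hn μ hμ hinv
  refine ⟨fun x => if h : x ∈ L then ((MonoidHom.transfer (hom L hμ) ⟨x, h⟩ : ℂˣ) : ℂ) else 1,
    ⟨?_, ?_⟩, ?_⟩
  · simp only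
    rw [dif_pos L.one_mem]
    have : (⟨1, L.one_mem⟩ : L) = 1 := rfl
    rw [this, map_one, Units.val_one]
  · intro x hx y hy
    simp only
    rw [dif_pos (L.mul_mem hx hy), dif_pos hx, dif_pos hy, ← Units.val_mul, ← map_mul]
    rfl
  · intro u hu
    have huL : u ∈ L := hRL (hUR hu)
    simp only
    rw [dif_pos huL]
    have h1 : MonoidHom.transfer (hom L hμ) ⟨u, huL⟩ =
        (Units.mk0 (μ u) (ne_zero hμ (hUR hu))) ^ (R.subgroupOf L).index := by
      refine transfer_pow _ _ _ _ fun x => ?_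
      have h2 : ((x : L) : C)⁻¹ * u * x ∈ U := by
        have := hn _ (L.inv_mem x.2) u hu
        rwa [inv_inv] at this
      refine ⟨hUR h2, ?_⟩
      apply Units.ext
      rw [hom_apply, Units.val_mk0]
      have h3 := hinv _ (L.inv_mem x.2) u hu
      rw [inv_inv] at h3
      exact h3
    rw [h1, Units.val_pow_eq_pow_val, Units.val_mk0]
    rfl

end Pool.Agent.RCB
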