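import Mathlib
import Pool.Agent.DPX.AllX
import Pool.Agent.DPC.AllC
import Pool.Agent.DP.All
import Pool.Agent.DPC.CCN
import Pool.Agent.DPC.FIBI
import Pool.Agent.RCB.AIN
import Pool.Agent.RCB.BJA
import Pool.Agent.RCB.BJB
import Pool.Agent.RCB.BSA
import Pool.Agent.RCB.BSB
import Pool.Agent.RCB.BSC
import Pool.Agent.RCB.BSD
import Pool.Agent.RCB.BTW
import Pool.Agent.RCB.C4A
import Pool.Agent.RCB.C4B
import Pool.Agent.RCB.CAG
import Pool.Agent.RCB.CAI
import Pool.Agent.RCB.CAT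
import Pool.Agent.RCB.CEQ
import Pool.Agent.RCB.CFB
import Pool.Agent.RCB.CGL
import Pool.Agent.RCB.CHG
import Pool.Agent.RCB.CLA
import Pool.Agent.RCB.CLQ
import Pool.Agent.RCB.CLR
import Pool.Agent.RCB.CLT
import Pool.Agent.RCB.CN1
import Pool.Agent.RCB.CNA
import Pool.Agent.RCB.COL
import Pool.Agent.RCB.CPA
import Pool.Agent.RCB.CPC
import Pool.Agent.RCB.CPM
import Pool.Agent.RCB.CPN
import Pool.Agent.RCB.CSC
import Pool.Agent.RCB.CVB
import Pool.Agent.RCB.CYL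
import Pool.Agent.RCB.DIC
import Pool.Agent.RCB.DTL
import Pool.Agent.RCB.EQV
import Pool.Agent.RCB.EXL
import Pool.Agent.RCB.FIL
import Pool.Agent.RCB.FLX
import Pool.Agent.RCB.FPS
import Pool.Agent.RCB.FSC
import Pool.Agent.RCB.FSE
import Pool.Agent.RCB.FSK
import Pool.Agent.RCB.FSM
import Pool.Agent.RCB.FSP
import Pool.Agent.RCB.FSU
import Pool.Agent.RCB.FSX
import Pool.Agent.RCB.GEL
import Pool.Agent.RCB.GLU
import Pool.Agent.RCB.GRM
import Pool.Agent.RCB.IDG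
import Pool.Agent.RCB.INP
import Pool.Agent.RCB.INY
import Pool.Agent.RCB.LCC
import Pool.Agent.RCB.LML
import Pool.Agent.RCB.LSP
import Pool.Agent.RCB.LTP
import Pool.Agent.RCB.MLX
import Pool.Agent.RCB.MTD
import Pool.Agent.RCB.MTY
import Pool.Agent.RCB.MZC
import Pool.Agent.RCB.NZX
import Pool.Agent.RCB.ORC
import Pool.Agent.RCB.OUT
import Pool.Agent.RCB.PRT
import Pool.Agent.RCB.RLN
import Pool.Agent.RCB.RON
import Pool.Agent.RCB.ROW
import Pool.Agent.RCB.RZC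
import Pool.Agent.RCB.SEL
import Pool.Agent.RCB.SIN
import Pool.Agent.RCB.SUV
import Pool.Agent.RCB.SYQ
import Pool.Agent.RCB.SZC
import Pool.Agent.RCB.TEI
import Pool.Agent.RCB.TIS
import Pool.Agent.RCB.TOG
import Pool.Agent.RCB.TOT
import Pool.Agent.RCB.TRF
import Pool.Agent.RCB.TRM
import Pool.Agent.RCB.TRV
import Pool.Agent.RCB.VAL
import Pool.Agent.RCB.WFX
import Pool.Agent.RCB.WST
import Pool.Agent.RCB.XTH
import Pool.Agent.RCB.ZCA

/-!
# Theorem P1: all modules together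
-/

namespace Pool.Agent.RCB

open Pool.Agent.DP Pool.Agent.DPV Pool.Agent.DPC Pool.Agent.DPB Pool.Agent.DPW Pool.Agent.DPX
open Pool.Agent.Lib_helper13 Representation

/-! ### Block 3: factor sets -/

theorem exl_all : Stmt_EXL := EXL_thm TRF_thm

theorem glu_all : Stmt_GLU := GLU_thm exl_all CYL_thm COL_thm TEI_thm PRT_thm

theorem fse_all : Stmt_FSE := FSE_thm PRJA_thm

theorem fsp_all : Stmt_FSP := FSP_thm FSM_thm FSK_thm

/-! ### Block 2: the bijection -/

theorem orc_all : Stmt_ORC :=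
  ORC_thm atnx_all atcx_all nilo_all actx_all orbx_all frxx_all

theorem lcc_all : Stmt_LCC :=
  LCC_thm orc_all atnx_all orbx_all SUMM_thm ccor_all gall_all EXTC_thm

theorem tot_all : Stmt_TOT := TOT_thm orc_all lcc_all cntx_all

theorem mty_all : Stmt_MTY :=
  MTY_thm valx_all fexx_all rlzx_all vanx_all idox_all idx_all bknx_all prmx_all kex_all atnx_all

theorem ain_all : Stmt_AIN := AIN_thm orc_all atnx_all atcx_all regx_all osix_all

theorem out_all : Stmt_OUT := OUT_thm ain_all lcc_all mty_all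

theorem grm_all : Stmt_GRM := GRM_thm orc_all ain_all out_all TIS_thm

theorem row_all : Stmt_ROW :=
  ROW_thm orc_all ain_all nrmx_all idx_all osix_all idox_all valx_all

theorem ron_all : Stmt_RON := RON_thm orc_all tot_all ain_all grm_all row_all out_all

theorem mtd_all : Stmt_MTD := MTD_thm orc_all tot_all ain_all grm_all row_all LML_thm

theorem eqv_all : Stmt_EQV := EQV_thm fxgx_all

theorem dic_all : Stmt_DIC :=
  DIC_thm orc_all lcc_all tot_all ain_all mtd_all ron_all TRM_thm eqv_all cntx_all orbx_all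
    SUMM_thm

theorem fil_all : Stmt_FIL := FIL_thm fixx_all EXTC_thm

theorem lsp_all : Stmt_LSP :=
  LSP_thm orc_all lcc_all TRM_thm eqv_all cntx_all orbx_all SUMM_thm ccor_all gall_all EXTC_thm

theorem bja_all : Stmt_BJA := BJA_thm eqv_all fil_all lsp_all

theorem bjb_all : Stmt_BJB := BJB_thm eqv_all fil_all lsp_all

theorem bij_all : Stmt_BIJ := by
  intro G B C _ _ _ _ _ 𝔐 ℓ n _ h𝔐 hℓ h2 ι κ ρ hL ω P₁ P x₀ hS
  rcases dic_all G B C 𝔐 ℓ n h𝔐 hℓ h2 ι κ ρ hL ω P₁ P x₀ hS with h | h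
  · exact bja_all G B C 𝔐 ℓ n h𝔐 hℓ ι κ ρ hL ω P₁ P x₀ hS h
  · exact bjb_all G B C 𝔐 ℓ n h𝔐 hℓ h2 ι κ ρ hL ω P₁ P x₀ hS h

/-! ### Block 4: the classes over an `ℓ`-group -/

theorem suv_all : Pool.Agent.RCB.Stmt_SUV := SUV_thm FPS_thm

theorem iny_all : Pool.Agent.RCB.Stmt_INY := Pool.Agent.RCB.INY_thm locx_all

theorem bsa_all : Stmt_BSA := BSA_thm idx_all

theorem bsb_all : Stmt_BSB := BSB_thm idx_all osix_all idox_all valx_all

theorem wfx_all : Stmt_WFX := WFX_thm FPS_thm SYQ_thm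

theorem bsc_all : Stmt_BSC := BSC_thm bsa_all wfx_all

theorem bsd_all : Stmt_BSD := BSD_thm idx_all bsa_all iny_all suv_all

theorem dtl_all : Stmt_DTL := DTL_thm bsc_all bsb_all bsd_all dxmx_all SYQ_thm

theorem nzx_all : Stmt_NZX := NZX_thm hgtx_all atnx_all TRM_thm

theorem zca_all : Stmt_ZCA := ZCA_thm TRM_thm atnx_all atcx_all orbx_all

theorem wst_all : Stmt_WST := WST_thm eqv_all zca_all

theorem xth_all : Stmt_XTH :=
  XTH_thm supx_all gdx_all gcx_all wfx_all wst_all RLN_thm zca_all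

theorem cpa_all : Pool.Agent.RCB.Stmt_CPA :=
  Pool.Agent.RCB.CPA_thm dtl_all xth_all wst_all SYQ_thm

theorem cpc_all : Stmt_CPC := CPC_thm wst_all RLN_thm zca_all bsc_all SYQ_thm

theorem cpn_all : Stmt_CPN :=
  CPN_thm cpa_all cpc_all wst_all RLN_thm zca_all bsa_all bsd_all

theorem trv_rcb : Pool.Agent.RCB.Stmt_TRV := Pool.Agent.RCB.TRV_thm fsp_all FSX_thm

theorem c4a_all : Stmt_C4A := C4A_thm cpn_all CPM_thm trv_rcb nzx_all

theorem rzc_all : Stmt_RZC := RZC_thm zca_all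

theorem szc_all : Stmt_SZC := SZC_thm zca_all TRM_thm ain_all

theorem val_all : Stmt_VAL := VAL_thm mt2x_all rzc_all MZC_thm szc_all TRM_thm

theorem mlx_all : Stmt_MLX := MLX_thm FLX_thm fsp_all

theorem cla_all : Stmt_CLA := CLA_thm fse_all FSU_thm FSX_thm

theorem c4b_all : Stmt_C4B :=
  C4B_thm dtl_all RLN_thm nzx_all val_all FLX_thm mlx_all cla_all FPS_thm SEL_thm

theorem c4f_all : Stmt_C4F := C4F_thm c4a_all c4b_all

/-! ### Block 5: the local theorem -/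

theorem nuvw_all : Stmt_NUVW := NUVW_thm mulw_all

theorem clr_all : Stmt_CLR := CLR_thm cycx_all

theorem cai_all : Stmt_CAI := CAI_thm CCN_thm IND_thm

theorem cag_all : Stmt_CAG := CAG_thm cai_all CAT_thm

theorem cvb_all : Stmt_CVB := CVB_thm SUMM_thm LOC_thm COVW_thm chnx_all

theorem cgl_all : Stmt_CGL := CGL_thm gall_all

theorem csc_all : Stmt_CSC := CSC_thm valx_all rlzx_all

theorem cfb_all : Stmt_CFB := CFB_thm FIBI_thm INTH_thm EXPV_thm

theorem cna_all : Stmt_CNA := CNA_thm FIBI_thm COSET_thm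

theorem cn1_all : Stmt_CN1 := CN1_thm cgl_all csc_all cfb_all cna_all FIBI_thm

theorem clq_all : Stmt_CLQ := CLQ_thm fse_all FSC_thm' c4f_all

theorem clt_all : Stmt_CLT :=
  CLT_thm glu_all clr_all clq_all nuvw_all EXTV_thm (BETV_thm EXTV_thm)

theorem ceq_all : Stmt_CEQ := CEQ_thm hatg_all clt_all cn1_all dfx_all

theorem ltp_all : Stmt_LTP := LTP_thm bij_all ceq_all cag_all cvb_all fxgx_all

/-! ### Block 1: chains -/

theorem idg_all : Stmt_IDG := IDG_thm idx_all supx_all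

theorem gel_all : Stmt_GEL := GEL_thm idg_all SUMM_thm

theorem chg_all : Stmt_CHG := CHG_thm gel_all

theorem inp_all : Stmt_INP := INP_thm dxmx_all chg_all TOG_thm

theorem btw_all : Stmt_BTW := BTW_thm dxmx_all idg_all SUMM_thm dgn_c hgtx_all

theorem sin_all : Stmt_SIN := SIN_thm Pool.Agent.DPC.INY_thm Pool.Agent.DPC.MIX_thm btw_all

theorem inn_all : Stmt_INN := inp_all ltp_all

/-- Theorem P1. -/
theorem mainR (ℓ : ℕ) (hℓ : ℓ.Prime) (h2 : ℓ ≠ 2) : S_P1 ℓ :=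
  P1_of_inner SPLIT_thm ℓ hℓ (sin_all inn_all ℓ hℓ h2)

end Pool.Agent.RCB
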