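import Mathlib
import Pool.Agent.RCB.St6
import Pool.Agent.RCB.CEQ
import Pool.Agent.RCB.LTP

/-!
# RCB_BI2: the bijection for the prime 2
-/

set_option autoImplicit false

namespace Pool.Agent.RCB

open Pool.Agent.DP Pool.Agent.DPV Pool.Agent.DPB Pool.Agent.DPW Pool.Agent.DPX Pool.Agent.DPC
open Pool.Agent.Lib_helper13 Representation

namespace BI2

theorem sn_sn (n : ℕ) {T : Type} [Group T] (χ : T → ℂ) : sn n (sn n χ) = χ := by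
  funext g
  unfold sn
  split_ifs <;> simp

theorem sn_eq_iff (n : ℕ) {T : Type} [Group T] (χ ψ : T → ℂ) {g g' : T}
    (ho : orderOf g = orderOf g') : sn n χ g = sn n ψ g' ↔ χ g = ψ g' := by
  unfold sn
  rw [ho]
  split_ifs
  · exact neg_inj
  · exact Iff.rfl

theorem stx_sn {G B : Type} [Group G] [Group B] (κ : B →* MulAut G) (σ : Finset (Subgroup G))
    (χ : G → ℂ) (n : ℕ) : Stx κ σ (sn n χ) = Stx κ σ χ := by
  ext b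
  rw [mem_Stx, mem_Stx]
  refine and_congr Iff.rfl (forall_congr' fun g => ?_)
  exact sn_eq_iff n χ χ (MulEquiv.orderOf_eq (κ b) g)

end BI2

open BI2 in
/-- RCB_BI2. -/
theorem BI2_thm (h0 : Stmt_GM2) (h1 : Stmt_TWX) (h2 : Stmt_EQV) (h3 : Stmt_AG2) : Stmt_BI2 := by
  classical
  intro G B C _ _ _ _ _ 𝔐 n hM h2m ι κ ρ h ω P₁ P x₀ hX
  obtain ⟨-, -, hYv, b, Φ₀, hb, hbij, hval, hXv⟩ := h0 G 𝔐 n hM h2m ω P₁ P x₀ hX.at' hX.ex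
  obtain ⟨hsY, hsX⟩ := h1.2 G 𝔐 n hM h2m ω P₁ P x₀ hX.at' hX.ex
  obtain ⟨he1, he2, he3, -⟩ := h2 G B C 𝔐 2 n hM h2m ι κ ρ h ω P₁ P x₀ hX
  have hb0 : (b : ℂ) ≠ 0 := by
    rcases hb with rfl | rfl <;> norm_num
  have huniq : ∀ ψ ∈ YL 𝔐 P₁ ω, ∀ ψ' ∈ YL 𝔐 P₁ ω,
      (∀ g, P₁ ≤ Subgroup.zpowers g → ψ g = ψ' g) → ψ = ψ' := by
    intro ψ hψ ψ' hψ' he
    funext g
    by_cases hg : P₁ ≤ Subgroup.zpowers g
    · exact he g hg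
    · exact hYv ψ hψ ψ' hψ' g hg
  have hcomm : ∀ χ ∈ XS 𝔐 ω, Φ₀ (sn n χ) = sn n (Φ₀ χ) := by
    intro χ hχ
    refine huniq _ (hbij.mapsTo (hsX χ hχ)) _ (hsY _ (hbij.mapsTo hχ)) ?_
    intro g hg
    have e1 := hval _ (hsX χ hχ) g hg
    have e2 := hval χ hχ g hg
    apply mul_left_cancel₀ hb0
    rw [← e1]
    unfold sn
    split_ifs
    · rw [e2, mul_neg]
    · exact e2
  have hirr : ∀ χ ∈ XS 𝔐 ω, IsIrr χ := by
    intro χ hχ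
    exact hχ.1.1.comp_mulEquiv (BLKC.eE G)
  have hz : ∀ b' ∈ Stx κ {P₁} (fun _ => (0 : ℂ)), ∀ g : G,
      P₁ ≤ Subgroup.zpowers g → P₁ ≤ Subgroup.zpowers (κ b' g) := by
    intro b' hb' g hg
    have e1 : P₁.map (κ b').toMonoidHom = P₁ := hb'.1 P₁ (Finset.mem_singleton_self _)
    have e2 : (Subgroup.zpowers g).map (κ b').toMonoidHom = Subgroup.zpowers (κ b' g) :=
      MonoidHom.map_zpowers _ _
    rw [← e2, ← e1]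
    exact Subgroup.map_mono hg
  have hstab : ∀ χ ∈ XS 𝔐 ω, (Stx κ ∅ χ).map ρ = (Stx κ {P₁} (Φ₀ χ)).map ρ := by
    intro χ hχ
    have hψ := hbij.mapsTo hχ
    ext c
    obtain ⟨b', hb', rfl⟩ := he1 c
    rw [(he2 χ hχ b').2, (he3 _ hψ b' hb').2]
    constructor
    · intro hi
      refine huniq _ (he3 _ hψ b' hb').1 _ hψ ?_
      intro g hg
      apply mul_left_cancel₀ hb0
      rw [← hval χ hχ g hg, ← hval χ hχ (κ b' g) (hz b' hb' g hg)]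
      exact congrFun hi g
    · intro hi
      have key : ∀ g, P₁ ≤ Subgroup.zpowers g → χ (κ b' g) = χ g := by
        intro g hg
        rw [hval χ hχ g hg, hval χ hχ (κ b' g) (hz b' hb' g hg)]
        have h8 : Φ₀ χ (κ b' g) = Φ₀ χ g := congrFun hi g
        rw [h8]
      funext g
      by_cases hc : ∃ t : G, P₁.map (MulAut.conj t).toMonoidHom ≤ Subgroup.zpowers g
      · obtain ⟨t, ht⟩ := hc
        have h5 : P₁ ≤ Subgroup.zpowers (t⁻¹ * g * t⁻¹⁻¹) := by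
          intro u hu
          have h6 : t * u * t⁻¹ ∈ Subgroup.zpowers g := ht ⟨u, hu, rfl⟩
          obtain ⟨i, hi'⟩ := Subgroup.mem_zpowers_iff.1 h6
          refine Subgroup.mem_zpowers_iff.2 ⟨i, ?_⟩
          rw [conj_zpow, hi']
          group
        have h7 := key _ h5
        rw [(hirr χ hχ).conj_eq, map_mul, map_mul, map_inv (κ b') t⁻¹, (hirr χ hχ).conj_eq] at h7
        exact h7
      · exact hXv _ (he2 χ hχ b').1 χ hχ g (fun t ht => hc ⟨t, ht⟩)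
  -- the classes
  let pp : Subgroup C → (G → ℂ) → (G → ℂ) → Prop := fun R χ ψ =>
    ∀ Q : Subgroup ↥R, IsPGroup 2 Q → Agr (locN_R h R) P₁ χ ψ Q
  have key : ∀ χ ∈ XS 𝔐 ω, (pp ((Stx κ ∅ χ).map ρ) χ (Φ₀ χ) ∨
      pp ((Stx κ ∅ χ).map ρ) χ (sn n (Φ₀ χ))) ∧
      (pp ((Stx κ ∅ χ).map ρ) χ (Φ₀ χ) → pp ((Stx κ ∅ χ).map ρ) (sn n χ) (sn n (Φ₀ χ))) := by
    intro χ hχ
    have hψ := hbij.mapsTo hχ
    obtain ⟨R, hR⟩ : ∃ R, R = (Stx κ ∅ χ).map ρ := ⟨_, rfl⟩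
    have hSR : Stx κ ∅ χ = R.comap ρ := by
      rw [hR, CEQ.comap_map_stx h hχ.1 stb_empty]
    have hR' : (Stx κ {P₁} (Φ₀ χ)).map ρ = R := by rw [hR, hstab χ hχ]
    have hψR : Stx κ {P₁} (Φ₀ χ) ≤ R.comap ρ := by
      rw [← Subgroup.map_le_iff_le_comap, hR']
    let _ : Fintype ↥(R.comap ρ) := Fintype.ofFinite _
    have hst0 : (Stx (kR κ ρ R) ∅ χ).map (pR ρ R) = ⊤ := by
      have h5 : Stx (kR κ ρ R) ∅ χ = ⊤ := by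
        rw [Stx_R, hSR]
        ext x
        simp only [Subgroup.mem_top, iff_true]
        exact x.2
      rw [h5]
      exact Subgroup.map_top_of_surjective _ (locN_R h R).surj
    have hst1 : (Stx (kR κ ρ R) {P₁} (Φ₀ χ)).map (pR ρ R) = ⊤ := by
      rw [eq_top_iff]
      intro c _
      have h5 : (c : C) ∈ (Stx κ {P₁} (Φ₀ χ)).map ρ := by
        rw [hR']
        exact c.2
      obtain ⟨b, hb, hbc⟩ := h5
      exact ⟨⟨b, hψR hb⟩, hb, Subtype.ext hbc⟩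
    have hXR : StX 𝔐 2 n (kR κ ρ R) ω P₁ P x₀ :=
      ⟨hX.at', fun b g => hX.inv b g, hX.ex⟩
    rw [← hR]
    exact h3 G ↥(R.comap ρ) R 𝔐 n hM h2m (iR h R) (kR κ ρ R) (pR ρ R) (locN_R h R) ω P₁ P x₀
      hXR χ hχ (Φ₀ χ) hψ hst0 hst1 (hsX χ hχ) (hsY _ hψ) b hb (fun g hg => hval χ hχ g hg)
  let p : (G → ℂ) → Prop := fun χ => pp ((Stx κ ∅ χ).map ρ) χ (Φ₀ χ)
  have hp : ∀ χ ∈ XS 𝔐 ω, p χ → p (sn n χ) := by
    intro χ hχ hpχ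
    change pp ((Stx κ ∅ (sn n χ)).map ρ) (sn n χ) (Φ₀ (sn n χ))
    rw [stx_sn, hcomm χ hχ]
    exact (key χ hχ).2 hpχ
  have hpi : ∀ χ ∈ XS 𝔐 ω, (p (sn n χ) ↔ p χ) := by
    intro χ hχ
    constructor
    · intro h5
      have h6 := hp _ (hsX χ hχ) h5
      rwa [sn_sn] at h6
    · exact hp χ hχ
  obtain ⟨Φ, hΦ1, hΦ2⟩ : ∃ Φ : (G → ℂ) → (G → ℂ), (∀ χ, p χ → Φ χ = Φ₀ χ) ∧
      ∀ χ, ¬ p χ → Φ χ = sn n (Φ₀ χ) :=
    ⟨fun χ => if p χ then Φ₀ χ else sn n (Φ₀ χ), fun χ hχ => if_pos hχ, fun χ hχ => if_neg hχ⟩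
  refine ⟨Φ, ⟨?_, ?_, ?_⟩, ?_⟩
  · intro χ hχ
    by_cases hpχ : p χ
    · rw [hΦ1 χ hpχ]
      exact hbij.mapsTo hχ
    · rw [hΦ2 χ hpχ]
      exact hsY _ (hbij.mapsTo hχ)
  · intro χ₁ hχ₁ χ₂ hχ₂ he
    by_cases hp1 : p χ₁ <;> by_cases hp2 : p χ₂
    · rw [hΦ1 _ hp1, hΦ1 _ hp2] at he
      exact hbij.injOn hχ₁ hχ₂ he
    · rw [hΦ1 _ hp1, hΦ2 _ hp2, ← hcomm _ hχ₂] at he
      have h5 := hbij.injOn hχ₁ (hsX _ hχ₂) he
      rw [h5] at hp1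
      exact absurd ((hpi _ hχ₂).1 hp1) hp2
    · rw [hΦ2 _ hp1, hΦ1 _ hp2, ← hcomm _ hχ₁] at he
      have h5 := hbij.injOn (hsX _ hχ₁) hχ₂ he
      rw [← h5] at hp2
      exact absurd ((hpi _ hχ₁).1 hp2) hp1
    · rw [hΦ2 _ hp1, hΦ2 _ hp2, ← hcomm _ hχ₁, ← hcomm _ hχ₂] at he
      have h5 := hbij.injOn (hsX _ hχ₁) (hsX _ hχ₂) he
      rw [← sn_sn n χ₁, h5, sn_sn]
  · intro ψ hψ
    obtain ⟨χ, hχ, rfl⟩ := hbij.surjOn hψ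
    by_cases hpχ : p χ
    · exact ⟨χ, hχ, hΦ1 χ hpχ⟩
    · refine ⟨sn n χ, hsX χ hχ, ?_⟩
      rw [hΦ2 _ (fun h5 => hpχ ((hpi χ hχ).1 h5)), hcomm χ hχ, sn_sn]
  · intro χ hχ
    by_cases hpχ : p χ
    · rw [hΦ1 χ hpχ]
      exact ⟨hstab χ hχ, hpχ⟩
    · rw [hΦ2 χ hpχ, stx_sn]
      exact ⟨hstab χ hχ, (key χ hχ).1.resolve_left hpχ⟩

end Pool.Agent.RCB
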