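import Mathlib
import Pool.Agent.RCB.St6
import Pool.Agent.RCB.CLA

/-!
# Module RCB_CL2: the classes of the invariant linear characters, the prime 2
-/

namespace Pool.Agent.RCB.CL2

open Pool.Agent.DP Pool.Agent.DPV Pool.Agent.DPB Pool.Agent.DPW Pool.Agent.DPX
open Pool.Agent.Lib_helper13 Representation

/-- the powers `u ^ (2 ^ m)` in a cyclic group of order `2 ^ (m + 1)` -/
theorem pow_cases {P : Type} [Group P] [Finite P] (m : ℕ) (p : P) (hp : ∀ u : P, u ∈ Subgroup.zpowers p)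
    (hc : Nat.card P = 2 ^ (m + 1)) (u : P) :
    u ^ (2 ^ m) = 1 ∨ u ^ (2 ^ m) = p ^ (2 ^ m) := by
  obtain ⟨i, rfl⟩ := Subgroup.mem_zpowers_iff.1 (hp u)
  have hz : (p ^ (2 ^ m)) ^ (2 : ℤ) = 1 := by
    rw [zpow_ofNat, ← pow_mul, ← pow_succ, ← hc]
    exact pow_card_eq_one'
  have h1 : (p ^ i) ^ (2 ^ m) = (p ^ (2 ^ m)) ^ i := by
    rw [← zpow_natCast, ← zpow_mul, ← zpow_natCast, ← zpow_mul, mul_comm]
  rw [h1]
  rcases Int.even_or_odd' i with ⟨k, hk | hk⟩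
  · left
    rw [hk, zpow_mul, hz, one_zpow]
  · right
    rw [hk, zpow_add, zpow_mul, hz, one_zpow, one_mul, zpow_one]

theorem exists_l0 {P : Type} [Group P] [Finite P] (n : ℕ) (hn : 0 < n) (hcy : IsCyclic P)
    (hc : Nat.card P = 2 ^ n) :
    ∃ l : P →* ℂˣ, l ≠ 1 ∧ ∀ u : P, l u = if 2 ^ n ∣ orderOf u then -1 else 1 := by
  classical
  obtain ⟨m, rfl⟩ : ∃ m, n = m + 1 := ⟨n - 1, by omega⟩
  obtain ⟨p, hp⟩ := hcy.exists_generator
  have hord : orderOf p = 2 ^ (m + 1) := by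
    rw [← hc]
    exact orderOf_eq_card_of_forall_mem_zpowers hp
  have hcomm : ∀ u v : P, u * v = v * u := by
    intro u v
    obtain ⟨i, rfl⟩ := Subgroup.mem_zpowers_iff.1 (hp u)
    obtain ⟨j, rfl⟩ := Subgroup.mem_zpowers_iff.1 (hp v)
    rw [← zpow_add, ← zpow_add, add_comm]
  have hz1 : p ^ (2 ^ m) ≠ 1 := by
    intro h
    have h2 := Nat.le_of_dvd (by positivity) (orderOf_dvd_of_pow_eq_one h)
    rw [hord, pow_succ] at h2
    have : 0 < 2 ^ m := by positivity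
    omega
  have hz2 : p ^ (2 ^ m) * p ^ (2 ^ m) = 1 := by
    rw [← pow_two, ← pow_mul, ← pow_succ, ← hc]
    exact pow_card_eq_one'
  have hiff : ∀ u : P, 2 ^ (m + 1) ∣ orderOf u ↔ ¬ u ^ (2 ^ m) = 1 := by
    intro u
    have hu : orderOf u ∣ 2 ^ (m + 1) := by
      rw [← hc]
      exact orderOf_dvd_natCard u
    rw [← orderOf_dvd_iff_pow_eq_one]
    constructor
    · intro h h'
      have h2 := Nat.le_of_dvd (by positivity) (h.trans h')
      rw [pow_succ] at h2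
      have : 0 < 2 ^ m := by positivity
      omega
    · intro h
      obtain ⟨k, hk, hk2⟩ := (Nat.dvd_prime_pow Nat.prime_two).1 hu
      rcases Nat.lt_or_ge k (m + 1) with h3 | h3
      · exact absurd (by rw [hk2]; exact pow_dvd_pow 2 (by omega)) h
      · rw [hk2]
        exact pow_dvd_pow 2 h3
  have hmul : ∀ u v : P, (if (u * v) ^ (2 ^ m) = 1 then (1 : ℂˣ) else -1) =
      (if u ^ (2 ^ m) = 1 then (1 : ℂˣ) else -1) * (if v ^ (2 ^ m) = 1 then (1 : ℂˣ) else -1) := by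
    intro u v
    have h1 : (u * v) ^ (2 ^ m) = u ^ (2 ^ m) * v ^ (2 ^ m) := Commute.mul_pow (hcomm u v) _
    rw [h1]
    rcases pow_cases m p hp hc u with hu | hu <;> rcases pow_cases m p hp hc v with hv | hv <;>
      rw [hu, hv] <;> simp [hz1, hz2]
  refine ⟨MonoidHom.mk' (fun u => if u ^ (2 ^ m) = 1 then (1 : ℂˣ) else -1) hmul, ?_, ?_⟩
  · intro h
    have h1 := DFunLike.congr_fun h p
    rw [MonoidHom.mk'_apply, if_neg hz1, MonoidHom.one_apply] at h1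
    have h2 : ((-1 : ℂˣ) : ℂ) = ((1 : ℂˣ) : ℂ) := by rw [h1]
    norm_num at h2
  · intro u
    rw [MonoidHom.mk'_apply]
    by_cases h : u ^ (2 ^ m) = 1
    · rw [if_pos h, if_neg (by rw [hiff]; exact not_not.2 h)]
    · rw [if_neg h, if_pos (by rw [hiff]; exact h)]

end Pool.Agent.RCB.CL2

namespace Pool.Agent.RCB

open Pool.Agent.DP Pool.Agent.DPV Pool.Agent.DPB Pool.Agent.DPW Pool.Agent.DPX
open Pool.Agent.Lib_helper13 Representation Pool.Agent.RCB.CLA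

/-- MODULE RCB_CL2 -/
theorem CL2_thm (h1 : Stmt_FSE) (h2 : Stmt_FSU) (h3 : Stmt_FSX) : Stmt_CL2 := by
  intro P D K _ _ _ _ _ n hn jD cD pD hG hsurj hcy hcard
  have hab : ∀ u v : P, u * v = v * u := by
    obtain ⟨p, hp⟩ := hcy.exists_generator
    intro u v
    obtain ⟨i, rfl⟩ := Subgroup.mem_zpowers_iff.1 (hp u)
    obtain ⟨j, rfl⟩ := Subgroup.mem_zpowers_iff.1 (hp v)
    rw [← zpow_add, ← zpow_add, add_comm]
  have hirr : ∀ lam : P →* ℂˣ, IsIrr (fun u => ((lam u : ℂˣ) : ℂ)) := fun lam => DP.EXTAR.isIrr_lin lam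
  have hb : ∀ lam : Lam cD, ∃ b, FS jD pD (fun u => (((lam : P →* ℂˣ) u : ℂˣ) : ℂ)) b := by
    intro lam
    refine h1 P D K jD cD pD hG hsurj _ (hirr lam) fun y x => ?_
    rw [lam.2 y x]
  choose b hb using hb
  have hmul : ∀ x y : Lam cD, (QuotientGroup.mk (b (x * y)) : (K → K → ℂˣ) ⧸ cob K) =
      QuotientGroup.mk (b x) * QuotientGroup.mk (b y) := by
    intro x y
    have k1 := (h3 P D K jD cD pD hG hsurj).2 _ _ (hirr x) (hirr y) (by simp) (by simp) _ _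
      (hb x) (hb y)
    have k2 := h2 P D K jD cD pD hG hsurj _ k1.1 _ _ (hb (x * y)) k1.2
    rw [← QuotientGroup.mk_mul, QuotientGroup.eq, ← (cob K).inv_mem_iff, mul_inv_rev, inv_inv,
      mul_comm]
    exact k2
  obtain ⟨l, hl1, hl⟩ := CL2.exists_l0 n hn hcy hcard
  have hlm : l ∈ Lam cD := by
    intro d u
    rw [hl, hl, MulEquiv.orderOf_eq]
  refine ⟨Lam cD, MonoidHom.mk' (fun lam => QuotientGroup.mk (b lam)) hmul, ⟨l, hlm⟩, ?_, ?_, ?_,
    fun lam => Iff.rfl, fun lam => ⟨b lam, hb lam, rfl⟩⟩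
  · have hdvd : Nat.card (Lam cD) ∣ 2 ^ n := by
      rw [← hcard, ← card_hom hab]
      exact Subgroup.card_subgroup_dvd_card _
    obtain ⟨k, -, hk⟩ := (Nat.dvd_prime_pow Nat.prime_two).1 hdvd
    exact ⟨k, hk⟩
  · intro h
    exact hl1 (congrArg Subtype.val h)
  · intro u
    show ((l u : ℂˣ) : ℂ) = _
    rw [hl u]
    split_ifs <;> simp

end Pool.Agent.RCB
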