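import Mathlib
import Pool.Agent.RCB.St6
import Pool.Agent.RCB.CLT

/-!
# RCB_CLT2: extensions with the same weights and the same scalars (all primes)
-/

namespace Pool.Agent.RCB

open Pool.Agent.DP Pool.Agent.DPV Pool.Agent.DPB Pool.Agent.DPW Pool.Agent.DPX Pool.Agent.DPC
open Pool.Agent.Lib_helper13 Representation

/-- CLT2. -/
theorem CLT2_thm (h0 : Stmt_GLU) (h1 : Stmt_CLR) (h2 : Stmt_CLQ2) (h3 : Stmt_NUVW)
    (h4 : DPV.Stmt_EXTV) (h5 : DPV.Stmt_BETV) : Stmt_CLT2 := by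
  classical
  intro G B C B' C' _ _ _ _ _ _ _ _ _ 𝔐 ℓ n _ hM hl ι κ ρ ι' κ' ρ' π h hLV ω P₁ P x₀ hSt χ hχ
    ψ hψ hχtop hψtop hEM
  have hfld : (𝔐.IsPrime) := hM.isPrime
  have hdom : IsDomain ((integralClosure ℤ ℂ) ⧸ 𝔐) := Ideal.Quotient.isDomain 𝔐
  -- the extensions
  obtain ⟨f, hf⟩ : ∃ f, ExtL ι' κ' ρ' ∅ χ ⊤ f := (h4 G B' C' ι' κ' ρ' hLV ∅ χ hχ.1 ⊤).2.2.1
  obtain ⟨f₀, hf₀⟩ : ∃ f, ExtL ι' κ' ρ' {P₁} ψ ⊤ f :=
    (h4 G B' C' ι' κ' ρ' hLV {P₁} ψ hψ.1 ⊤).2.2.1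
  have hStop : Stx κ' ∅ χ = ⊤ := by
    rw [Stx_pi h, hχtop, Subgroup.comap_top]
  have hm1 : (Stx κ' ∅ χ).map ρ' = ⊤ := by
    rw [hStop, eq_top_iff]
    intro c _
    obtain ⟨x, rfl⟩ := h.up.surj c
    exact ⟨x, Subgroup.mem_top _, rfl⟩
  have hm2 : (Stx κ' {P₁} ψ).map ρ' = ⊤ := CLT.map_top h hψtop
  obtain ⟨U, ν, hUL, hUc, hUi, hν1, hνm, hνe⟩ := h3 G B' C' 𝔐 ℓ hM hl ι' κ' ρ' hLV ∅ {P₁} χ ψ
    (Or.inl rfl) (Or.inr ⟨P₁, rfl, hSt.at'.cd.c1⟩) hχ.1 hψ.1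
    (fun g => (hχ.2 g).trans (hψ.2 g).symm) ⊤ (by rw [hm1]) (by rw [hm2]) f f₀ hf hf₀
  -- the scalars
  have hs : ∀ w, π w = 1 → f w ≠ 0 ∧ f 1 ≠ 0 ∧ ∀ y, f (w * y) * f 1 = f w * f y :=
    fun w hw => CLT.scalL h hχ.1 hf hw
  have hs₀ : ∀ w, π w = 1 → f₀ w ≠ 0 ∧ f₀ 1 ≠ 0 ∧ ∀ y, f₀ (w * y) * f₀ 1 = f₀ w * f₀ y :=
    fun w hw => CLT.scalL h hψ.1 hf₀ hw
  have hf1 : f 1 ≠ 0 := (hs 1 (map_one π)).2.1
  have hf01 : f₀ 1 ≠ 0 := (hs₀ 1 (map_one π)).2.1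
  have hr : ∀ w, π w = 1 → (f w / f 1) ^ orderOf w = 1 := fun w hw => CLT.root h hχ.1 hf hw
  have hr₀ : ∀ w, π w = 1 → (f₀ w / f₀ 1) ^ orderOf w = 1 := fun w hw => CLT.root h hψ.1 hf₀ hw
  have hord : ∀ w : B', 0 < orderOf w := fun w => orderOf_pos w
  have hredf : ∀ w, π w = 1 → red 𝔐 (f w / f 1) ≠ 0 := by
    intro w hw h6
    have h7 := hr w hw
    have h8 : red 𝔐 ((f w / f 1) ^ orderOf w) = red 𝔐 (f w / f 1) ^ orderOf w :=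
      CLT.red_pw 𝔐 (CLT.int_of_root (hord w) h7) _
    rw [h7, red_one, h6, zero_pow (hord w).ne'] at h8
    exact one_ne_zero h8
  have hWU : π.ker.map ρ' ≤ U := by
    rintro _ ⟨w, hw, rfl⟩
    refine (hUi _).2 ⟨Subgroup.mem_top _, w, rfl, ?_⟩
    rw [CLT.cgT_ker h 𝔐 f hw]
    exact hredf w hw
  -- the function `τ`
  let τ : C' → ℂ := fun c => if hc : ∃ w, π w = 1 ∧ ρ' w = c then
    f₀ hc.choose * f 1 / (f hc.choose * f₀ 1) else 1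
  have hτ : ∀ w, π w = 1 → τ (ρ' w) = f₀ w * f 1 / (f w * f₀ 1) := by
    intro w hw
    have hc : ∃ v, π v = 1 ∧ ρ' v = ρ' w := ⟨w, hw, rfl⟩
    have h6 : hc.choose = w := by
      have h7 := hc.choose_spec
      have h8 : hc.choose * w⁻¹ = 1 := ker_inj h (by rw [map_mul, map_inv, h7.1, hw]; simp)
        (by rw [map_mul, map_inv, h7.2, mul_inv_cancel])
      exact mul_inv_eq_one.1 h8
    change (if hc : ∃ v, π v = 1 ∧ ρ' v = ρ' w then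
      f₀ hc.choose * f 1 / (f hc.choose * f₀ 1) else 1) = _
    rw [dif_pos hc, h6]
  have hτL : LinOn (π.ker.map ρ') τ := by
    constructor
    · have h6 := hτ 1 (map_one π)
      rw [map_one] at h6
      rw [h6, mul_comm (f₀ 1), div_self (mul_ne_zero hf1 hf01)]
    · rintro _ ⟨w, hw, rfl⟩ _ ⟨v, hv, rfl⟩
      have hw' : π w = 1 := hw
      have hv' : π v = 1 := hv
      rw [← map_mul, hτ _ (by rw [map_mul, hw', hv', mul_one]), hτ w hw', hτ v hv']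
      have e1 := (hs w hw').2.2 v
      have e2 := (hs₀ w hw').2.2 v
      have n1 := (hs w hw').1
      have n2 := (hs v hv').1
      have n3 : f (w * v) ≠ 0 := (hs _ (by rw [map_mul, hw', hv', mul_one])).1
      rw [div_mul_div_comm, div_eq_div_iff (mul_ne_zero n3 hf01)
        (mul_ne_zero (mul_ne_zero n1 hf01) (mul_ne_zero n2 hf01))]
      linear_combination (f 1 * f w * f v * f₀ 1) * e2 - (f₀ w * f₀ v * f 1 * f₀ 1) * e1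
  have hτc : ∀ c ∈ (⊤ : Subgroup C'), ∀ u ∈ π.ker.map ρ',
      c * u * c⁻¹ ∈ π.ker.map ρ' ∧ τ (c * u * c⁻¹) = τ u := by
    rintro c - _ ⟨w, hw, rfl⟩
    have hw' : π w = 1 := hw
    have hc : c ∈ (Stx κ' {P₁} ψ).map ρ' := by
      rw [hm2]
      exact Subgroup.mem_top _
    obtain ⟨x, hx, rfl⟩ := hc
    have h6 : π (x * w * x⁻¹) = 1 := by rw [map_mul, map_mul, map_inv, hw', mul_one, mul_inv_cancel]
    have h7 : ρ' x * ρ' w * (ρ' x)⁻¹ = ρ' (x * w * x⁻¹) := by rw [map_mul, map_mul, map_inv]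
    rw [h7]
    refine ⟨⟨_, h6, rfl⟩, ?_⟩
    rw [hτ _ h6, hτ w hw']
    have h8 : f₀ (x * w * x⁻¹) = f₀ w := hf₀.1.1.conj_eq
      (⟨x, Subgroup.mem_inf.2 ⟨hx, Subgroup.mem_top _⟩⟩ :
        ↥(Stx κ' {P₁} ψ ⊓ (⊤ : Subgroup C').comap ρ'))
      ⟨w, Subgroup.mem_inf.2 ⟨CLT.ker_mem h {P₁} ψ hw', Subgroup.mem_top _⟩⟩
    have h9 : f (x * w * x⁻¹) = f w := hf.1.1.conj_eq
      (⟨x, Subgroup.mem_inf.2 ⟨by rw [hStop]; exact Subgroup.mem_top _, Subgroup.mem_top _⟩⟩ :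
        ↥(Stx κ' ∅ χ ⊓ (⊤ : Subgroup C').comap ρ'))
      ⟨w, Subgroup.mem_inf.2 ⟨CLT.ker_mem h ∅ χ hw', Subgroup.mem_top _⟩⟩
    rw [h8, h9]
  have hτν : ∀ w ∈ π.ker.map ρ', red 𝔐 (τ w) = ν w := by
    rintro _ ⟨w, hw, rfl⟩
    have hw' : π w = 1 := hw
    have e1 := hνe w
    rw [CLT.cgT_ker h 𝔐 f hw', CLT.cgT_ker h 𝔐 f₀ hw'] at e1
    have i1 : IsIntegral ℤ (f w / f 1) := CLT.int_of_root (hord w) (hr w hw')
    have h10 : τ (ρ' w) = (f₀ w / f₀ 1) * (f w / f 1)⁻¹ := by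
      rw [hτ w hw', inv_div, div_mul_div_comm, mul_comm (f₀ 1)]
    have i2 : IsIntegral ℤ (τ (ρ' w)) := by
      rw [h10]
      refine (CLT.int_of_root (hord w) (hr₀ w hw')).mul (CLT.int_of_root (hord w) ?_)
      rw [inv_pow, hr w hw', inv_one]
    have e2 : τ (ρ' w) * (f w / f 1) = f₀ w / f₀ 1 := by
      rw [h10, mul_assoc, inv_mul_cancel₀ (div_ne_zero (hs w hw').1 hf1), mul_one]
    have e3 := red_mul 𝔐 i2 i1
    rw [e2, e1] at e3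
    exact (mul_right_cancel₀ (hredf w hw') e3).symm
  -- gluing
  obtain ⟨lam, hlam, hlamW, hlamU⟩ := h0 C' 𝔐 ℓ hM hl ⊤ U (π.ker.map ρ') hWU hUL
    (fun c hc u hu => (hUc c hc u hu).1) (fun c hc u hu => (hτc c hc u hu).1) ν hν1 hνm
    (fun c hc u hu => (hUc c hc u hu).2) τ hτL (fun c hc u hu => (hτc c hc u hu).2) hτν
    (by
      intro r hr' hrl R _ hR
      obtain ⟨c0, hc0, hc1⟩ := h1 G B' C' 𝔐 ℓ n hM hl ι' κ' ρ' h.up P₁ P x₀ ω hSt.at' hSt.ex ψ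
        hψ.1 hψ.2 hm2 f₀ hf₀ r hr' hrl R hR
      refine ⟨c0, hc0, fun c hc => ?_⟩
      obtain ⟨k, t, ht, ht2⟩ := hc1 c hc
      refine ⟨k, ?_⟩
      rw [hνe t] at ht2
      exact (hUi _).2 ⟨Subgroup.mem_top _, t, ht, right_ne_zero_of_mul ht2⟩)
    (by
      intro Q _ hQ
      obtain ⟨μ, hμ, hμe⟩ := h2 G B C B' C' 𝔐 ℓ n hM hl ι κ ρ ι' κ' ρ' π h ω P₁ P x₀ hSt χ hχ
        ψ hψ hχtop hψtop hEM f f₀ hf hf₀ Q hQ
      refine ⟨μ, hμ, ?_⟩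
      rintro _ ⟨w, hw, rfl⟩
      have hw' : π w = 1 := hw
      rw [hτ w hw', eq_div_iff (mul_ne_zero (hs w hw').1 hf01)]
      exact (hμe w hw').symm)
  -- the twisted extension
  have hil : LinOn (⊤ : Subgroup C') (fun c => (lam c)⁻¹) := CLT.linOn_inv hlam
  refine ⟨f, fun x => f₀ x * (lam (ρ' x))⁻¹, hf,
    (h4 G B' C' ι' κ' ρ' hLV {P₁} ψ hψ.1 ⊤).2.2.2.1 f₀ (fun c => (lam c)⁻¹)
      (CLT.linOn_mono le_top hil) hf₀, ?_, ?_⟩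
  · intro t
    have hcom := (h4 G B' C' ι' κ' ρ' hLV {P₁} ψ hψ.1 ⊤).1
    have h6 := (h5 G B' C' 𝔐 ι' κ' ρ' hLV).1 _ f₀ hf₀.1 (by
      rw [hcom]
      have h7 : (fun g => f₀ (ι' g)) = ψ := funext hf₀.2
      rw [h7]
      exact hψ.1) (fun c => (lam c)⁻¹) (CLT.linOn_mono le_top hil) t
    rw [h6, hνe t]
    by_cases ht : ρ' t ∈ U
    · have i1 : IsIntegral ℤ (lam (ρ' t)) :=
        CLT.int_of_root (orderOf_pos _) (CLT.linOn_root hlam (Subgroup.mem_top (ρ' t)))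
      have i2 : IsIntegral ℤ (lam (ρ' t))⁻¹ :=
        CLT.int_of_root (orderOf_pos _) (CLT.linOn_root hil (Subgroup.mem_top (ρ' t)))
      rw [← hlamU _ ht, ← mul_assoc, ← red_mul 𝔐 i2 i1,
        inv_mul_cancel₀ (CLT.linOn_ne hlam (Subgroup.mem_top _)), red_one, one_mul]
    · have h8 : cgT 𝔐 ι'.range f t = 0 := by
        by_contra h9
        exact ht ((hUi _).2 ⟨Subgroup.mem_top _, t, rfl, h9⟩)
      rw [h8, mul_zero, mul_zero]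
  · intro w hw
    change f w * (f₀ 1 * (lam (ρ' 1))⁻¹) = f₀ w * (lam (ρ' w))⁻¹ * f 1
    rw [hlamW _ ⟨w, hw, rfl⟩, hτ w hw, map_one, hlam.1, inv_one, mul_one, inv_div]
    have n1 := (hs₀ w hw).1
    field_simp

end Pool.Agent.RCB
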