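import Mathlib
import Pool.Agent.RCB.St6
import Pool.Agent.RCB.TIS

/-!
# RCB_CZO: the columns of the multiplicity matrix
-/

namespace Pool.Agent.RCB

open Pool.Agent.DP Pool.Agent.DPV Pool.Agent.DPB Pool.Agent.DPW Pool.Agent.DPX
open Pool.Agent.Lib_helper13 Representation

namespace CZO

/-- `∑ χ, ip (χ|C) (φ - φ') * χ g = 0` -/
theorem sum_col {T : Type} [Group T] [Fintype T] {P₁ : Subgroup T} [Fintype (NP P₁)]
    (C : Subgroup (NP P₁)) (φ φ' : C → ℂ) (g : T)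
    (hne : ∀ c : C, φ c ≠ φ' c → P₁ ≤ Subgroup.zpowers ((c : NP P₁) : T))
    (hg : ∀ t : T, ¬ P₁.map (MulAut.conj t).toMonoidHom ≤ Subgroup.zpowers g) :
    ∑ χ ∈ irrF T, (ip (fun c : C => χ ((c : NP P₁) : T)) φ -
      ip (fun c : C => χ ((c : NP P₁) : T)) φ') * χ g = 0 := by
  classical
  have h1 : ∀ χ : T → ℂ, (ip (fun c : C => χ ((c : NP P₁) : T)) φ -
      ip (fun c : C => χ ((c : NP P₁) : T)) φ') * χ g =
      (∑ c : C, (φ c⁻¹ - φ' c⁻¹) * (χ ((c : NP P₁) : T) * χ (g⁻¹)⁻¹)) / Nat.card C := by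
    intro χ
    rw [ip, ip, ← sub_div, ← Finset.sum_sub_distrib, div_mul_eq_mul_div, Finset.sum_mul, inv_inv]
    congr 1
    exact Finset.sum_congr rfl fun c _ => by ring
  rw [Finset.sum_congr rfl fun χ _ => h1 χ, ← Finset.sum_div, Finset.sum_comm]
  have h2 : ∀ c : C, ∑ χ ∈ irrF T,
      (φ c⁻¹ - φ' c⁻¹) * (χ ((c : NP P₁) : T) * χ (g⁻¹)⁻¹) = 0 := by
    intro c
    rw [← Finset.mul_sum, TIS.col]
    by_cases hc : φ c⁻¹ = φ' c⁻¹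
    · rw [hc, sub_self, zero_mul]
    · rw [Finset.sum_eq_zero, mul_zero]
      intro t _
      rw [if_neg]
      intro ht
      have h3 : P₁ ≤ Subgroup.zpowers ((c : NP P₁) : T) := by
        have h4 := hne c⁻¹ hc
        have h5 : (((c⁻¹ : C) : NP P₁) : T) = (((c : NP P₁) : T))⁻¹ := rfl
        rw [h5, Subgroup.zpowers_inv] at h4
        exact h4
      apply hg t
      rw [Subgroup.map_le_iff_le_comap]
      refine h3.trans ?_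
      rw [Subgroup.zpowers_le, Subgroup.mem_comap]
      have h6 : (MulAut.conj t).toMonoidHom ((c : NP P₁) : T) = g⁻¹ := ht
      rw [h6]
      exact (Subgroup.zpowers g).inv_mem (Subgroup.mem_zpowers g)
  rw [Finset.sum_eq_zero fun c _ => h2 c, zero_div]

end CZO

open Classical in
theorem CZO_thm (h0 : Stmt_OUT) (h1 : Stmt_AIN) : Stmt_CZO := by
  intro T _ _ 𝔐 ℓ n _ h𝔐 hℓ𝔐 χ₀ P₁ P x₀ _ C _ ψ₀ φ₀ hcf φ hφ φ' hφ' g hg
  obtain ⟨a1, a2, a3, -⟩ := h1 T 𝔐 ℓ n h𝔐 hℓ𝔐 χ₀ P₁ P x₀ C ψ₀ φ₀ hcf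
  have h6 := CZO.sum_col C φ φ' g (fun c hc => by
    by_contra h
    exact hc ((a3 φ hφ φ' hφ').2 c h)) hg
  rw [← h6, Finset.sum_filter]
  refine Finset.sum_congr rfl fun χ hχ => ?_
  rw [mem_irrF] at hχ
  rw [← a1 χ φ hχ hφ.1, ← a1 χ φ' hχ hφ'.1]
  by_cases h7 : cen 𝔐 (MonoidHom.id T) χ = cen 𝔐 (MonoidHom.id T) χ₀
  · rw [if_pos h7]
    push_cast
    rfl
  · rw [if_neg h7, h0 T 𝔐 ℓ n h𝔐 hℓ𝔐 χ₀ P₁ P x₀ C ψ₀ φ₀ hcf χ hχ h7 φ hφ φ' hφ', sub_self,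
      zero_mul]

end Pool.Agent.RCB
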