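import Mathlib
import Pool.Agent.RCB.St6

/-!
# RCB_TW1: defect groups of order 2
-/

namespace Pool.Agent.RCB

open Pool.Agent.DP Pool.Agent.DPV Pool.Agent.DPB Pool.Agent.DPW Pool.Agent.DPX Pool.Agent.DPC
open Pool.Agent.Lib_helper13 Representation

namespace TW1

/-- A configuration for the block of `χ₀`. -/
theorem exists_cf (h8 : Stmt_CNTX) {T : Type} [Group T] [Fintype T]
    (𝔐 : Ideal (integralClosure ℤ ℂ)) (ℓ n : ℕ) [Fact ℓ.Prime] (hM : 𝔐.IsMaximal)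
    (hl : (ℓ : integralClosure ℤ ℂ) ∈ 𝔐) {χ₀ : T → ℂ} (hχ₀ : IsIrr χ₀) {P₁ P : Subgroup T}
    [Fintype (NP P₁)] {x₀ : T} (hat : AtX ℓ n (cen 𝔐 (MonoidHom.id T) χ₀) P₁ P x₀) :
    ∃ (C : Subgroup (NP P₁)) (_ : C.Normal) (ψ₀ : NP P₁ → ℂ) (φ₀ : C → ℂ),
      Cf 𝔐 ℓ n χ₀ P₁ P x₀ C ψ₀ φ₀ := by
  classical
  obtain ⟨C, hC⟩ : ∃ C : Subgroup (NP P₁), C = Subgroup.centralizer
      ((P₁.subgroupOf (Subgroup.normalizer (P₁ : Set T)) : Subgroup (NP P₁)) :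
        Set (NP P₁)) := ⟨_, rfl⟩
  have hCn : C.Normal := by
    rw [hC]
    infer_instance
  have hcnt := h8 T 𝔐 ℓ n hM hl χ₀ hχ₀ P₁ P x₀ hat
  have hfin : Finite {χ : T → ℂ // IsIrr χ ∧
      cen 𝔐 (MonoidHom.id T) χ = cen 𝔐 (MonoidHom.id T) χ₀} :=
    ((finite_isIrr (H := T)).subset (fun χ hχ => hχ.1)).to_subtype
  have hpos : 0 < Nat.card {ψ : NP P₁ → ℂ // IsIrr ψ ∧
      cen 𝔐 (Subgroup.normalizer (P₁ : Set T)).subtype ψ =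
        cen 𝔐 (MonoidHom.id T) χ₀} := by
    rw [← hcnt]
    have : Nonempty {χ : T → ℂ // IsIrr χ ∧
      cen 𝔐 (MonoidHom.id T) χ = cen 𝔐 (MonoidHom.id T) χ₀} := ⟨⟨χ₀, hχ₀, rfl⟩⟩
    exact Nat.card_pos
  obtain ⟨⟨ψ₀, hψ₀, hcψ₀⟩⟩ := (Nat.card_pos_iff.1 hpos).1
  obtain ⟨φ₀, hφ₀, hip₀⟩ : ∃ φ : C → ℂ, IsIrr φ ∧ ip (fun c : C => ψ₀ c) φ ≠ 0 := by
    by_contra hcon
    push Not at hcon
    have hcf : ∀ g x : C, (fun c : C => ψ₀ c) (g * x * g⁻¹) = (fun c : C => ψ₀ c) x := by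
      intro g x
      exact hψ₀.conj_eq (g : NP P₁) (x : NP P₁)
    have hex := congrFun (class_fn_expand (fun c : C => ψ₀ c) hcf) 1
    rw [Finset.sum_eq_zero (fun χ hχ => by rw [hcon χ (mem_irrF.mp hχ), zero_mul])] at hex
    exact hψ₀.one_ne_zero hex
  exact ⟨C, hCn, ψ₀, φ₀, ⟨hχ₀, hat, hC, hψ₀, hφ₀, hcψ₀, hip₀⟩⟩

end TW1

/-- TW1. -/
theorem TW1_thm (h0 : Stmt_TMT) (h1 : Stmt_OSIX) (h2 : Stmt_CNTX) : Stmt_TW1 := by
  classical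
  intro T _ _ 𝔐 hM hl χ hχ P₁ P x₀ hat
  let _ : Fintype (NP P₁) := Fintype.ofFinite _
  obtain ⟨C, hCn, ψ₀, φ₀, hCf⟩ := TW1.exists_cf h2 𝔐 2 1 hM hl hχ hat
  obtain ⟨-, hcard, b, Ψ, -, hbij, -, hval⟩ := h0 T 𝔐 1 hM hl χ P₁ P x₀ C ψ₀ φ₀ hCf
  -- the block has two characters
  let S : Finset (T → ℂ) := (irrF T).filter
    (fun θ => cen 𝔐 (MonoidHom.id T) θ = cen 𝔐 (MonoidHom.id T) χ)
  have hmem : ∀ θ : T → ℂ, θ ∈ S ↔ IsIrr θ ∧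
      cen 𝔐 (MonoidHom.id T) θ = cen 𝔐 (MonoidHom.id T) χ := by
    intro θ
    rw [Finset.mem_filter, mem_irrF]
  have hS : {θ : T → ℂ | IsIrr θ ∧ cen 𝔐 (MonoidHom.id T) θ = cen 𝔐 (MonoidHom.id T) χ} =
      (S : Set (T → ℂ)) := by
    ext θ
    exact (hmem θ).symm
  have hScard : S.card = 2 := by
    have e1 := Nat.card_congr (hbij.equiv Ψ)
    rw [hcard, hS] at e1
    simpa using e1
  have hχS : χ ∈ S := (hmem χ).2 ⟨hχ, rfl⟩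
  obtain ⟨χ', hχ'⟩ := Finset.card_eq_one.1
    (show (S.erase χ).card = 1 by rw [Finset.card_erase_of_mem hχS, hScard])
  have hχ'S : χ' ∈ S.erase χ := by rw [hχ']; exact Finset.mem_singleton_self _
  have hne : χ' ≠ χ := Finset.ne_of_mem_erase hχ'S
  obtain ⟨hirr', hcen'⟩ := (hmem χ').1 (Finset.mem_of_mem_erase hχ'S)
  have hc2 : ∀ t : T, Nat.card (P₁.map (MulAut.conj t).toMonoidHom) = 2 := by
    intro t
    rw [Subgroup.card_map_of_injective (MulAut.conj t).injective, hat.cd.c1]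
  have hodd : ∀ g : T, ¬ 2 ∣ orderOf g → χ g = χ' g := by
    intro g hg
    refine hval χ χ' hχ rfl hirr' hcen' g ?_
    intro t ht
    apply hg
    have h3 := Subgroup.card_dvd_of_le ht
    rw [hc2 t, Nat.card_zpowers] at h3
    exact h3
  have hone : χ 1 = χ' 1 := hodd 1 (by rw [orderOf_one]; decide)
  have heven : ∀ g : T, 2 ∣ orderOf g → χ' g = -χ g := by
    intro g hg
    have h3 := h1 T 𝔐 2 hM hl χ hχ g hg
    have h4 : ∑ θ ∈ S, θ 1 * θ g = 0 := h3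
    rw [← Finset.add_sum_erase S _ hχS, hχ', Finset.sum_singleton, ← hone, ← mul_add] at h4
    have h5 := (mul_eq_zero.1 h4).resolve_left hχ.one_ne_zero
    linear_combination h5
  have hsn : sn 1 χ = χ' := by
    funext g
    unfold sn
    by_cases hg : 2 ∣ orderOf g
    · rw [pow_one, if_pos hg, heven g hg]
    · rw [pow_one, if_neg hg, hodd g hg]
  rw [hsn]
  exact ⟨hirr', hcen'⟩

end Pool.Agent.RCB
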