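import Mathlib
import Pool.Agent.RCB.St6
import Pool.Agent.DP.INNERV

/-!
# RCB_TWX: all blocks with cyclic defect groups of order `2 ^ n` (the prime 2)
-/

namespace Pool.Agent.RCB

open Pool.Agent.DP Pool.Agent.DPV Pool.Agent.DPB Pool.Agent.DPW Pool.Agent.DPX
open Pool.Agent.Lib_helper13 Representation

namespace TWX

theorem isIrr_of_top {G : Type} [Group G] [Fintype G] {f : G → ℂ}
    (h : IrrOn (⊤ : Subgroup G) f) : IsIrr f :=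
  h.1.comp_mulEquiv (Subgroup.topEquiv (G := G)).symm

theorem mem_XS {G : Type} [Group G] [Fintype G] (𝔐 : Ideal (integralClosure ℤ ℂ))
    (ω : G → (integralClosure ℤ ℂ) ⧸ 𝔐) (χ : G → ℂ) :
    χ ∈ XS 𝔐 ω ↔ IsIrr χ ∧ cen 𝔐 (MonoidHom.id G) χ = ω := by
  constructor
  · rintro ⟨h1, h2⟩
    rw [stb_empty] at h1
    refine ⟨isIrr_of_top h1, ?_⟩
    rw [← INNERV.cg_cen]
    exact funext h2
  · rintro ⟨h1, h2⟩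
    refine ⟨?_, fun g => ?_⟩
    · rw [stb_empty]
      exact INNERV.irrOn_top h1
    · rw [INNERV.cg_cen, h2]

theorem step (h1 : Stmt_TWA) (h2 : Stmt_TWB) {n : ℕ} (hn : 0 < n) (h : TWn n) :
    TWc (n + 1) := by
  intro T _ _ 𝔐 hm h𝔐 χ hχ P₁ P x₀ hc hat
  by_cases hu : ∃ u ∈ P₁, χ u ≠ χ 1
  · exact h1 n hn T 𝔐 hm h𝔐 χ hχ P₁ P x₀ hc hat hu
  · push Not at hu
    exact h2 n hn h T 𝔐 hm h𝔐 χ hχ P₁ P x₀ hc hat hu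

theorem up (h3 : Stmt_TWY) (h4 : Stmt_TWG) {n : ℕ} (h : TWc n) : TWn n := by
  intro T _ _ 𝔐 hm h𝔐 χ hχ P₁ P x₀ hat
  have hex : ∃ θ : T → ℂ, IsIrr θ ∧ cen 𝔐 (MonoidHom.id T) θ = cen 𝔐 (MonoidHom.id T) χ :=
    ⟨χ, hχ, rfl⟩
  have h5 := h3 n h T 𝔐 hm h𝔐 _ P₁ P x₀ hat hex
  have h6 := h4 T 𝔐 n hm h𝔐 _ P₁ P x₀ hat hex h5 χ ((mem_XS 𝔐 _ χ).2 ⟨hχ, rfl⟩)
  exact (mem_XS 𝔐 _ _).1 h6

theorem down {n : ℕ} (h : TWn n) : TWc n :=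
  fun T _ _ 𝔐 hm h𝔐 χ hχ P₁ P x₀ _ hat => h T 𝔐 hm h𝔐 χ hχ P₁ P x₀ hat

end TWX

theorem TWX_thm (h0 : Stmt_TW1) (h1 : Stmt_TWA) (h2 : Stmt_TWB) (h3 : Stmt_TWY)
    (h4 : Stmt_TWG) (h5 : Stmt_DXMX) : Stmt_TWX := by
  have hall : ∀ n : ℕ, 0 < n → TWn n := by
    intro n
    induction n with
    | zero => intro h; exact absurd h (lt_irrefl 0)
    | succ n ih =>
      intro _
      rcases Nat.eq_zero_or_pos n with hn | hn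
      · subst hn
        exact h0
      · exact TWX.up h3 h4 (TWX.step h1 h2 hn (ih hn))
  refine ⟨hall, ?_⟩
  intro G _ _ 𝔐 n hm h𝔐 ω P₁ P x₀ hat hex
  have hn : 0 < n := by
    obtain ⟨θ, hθ, rfl⟩ := hex
    exact ((h5 G 𝔐 2 hm h𝔐 θ hθ).2 n P₁ P x₀ hat).1
  have h6 := h3 n (TWX.down (hall n hn)) G 𝔐 hm h𝔐 ω P₁ P x₀ hat hex
  exact ⟨h6, h4 G 𝔐 n hm h𝔐 ω P₁ P x₀ hat hex h6⟩

end Pool.Agent.RCB
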