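import Mathlib
import Pool.Agent.RCB.St6
import Pool.Agent.RCB.TRM

/-!
# RCB_TWY: the local characters (the prime 2)
-/

namespace Pool.Agent.RCB

open Pool.Agent.DP Pool.Agent.DPV Pool.Agent.DPB Pool.Agent.DPW Pool.Agent.DPX
open Pool.Agent.Lib_helper13 Representation

namespace TWY

/-- a subgroup of order 2 is central in its normalizer -/
theorem central {G : Type} [Group G] (P₁ : Subgroup G) (h : Nat.card P₁ = 2) :
    P₁.subgroupOf (Subgroup.normalizer (P₁ : Set G)) ≤ Subgroup.center (NP P₁) := by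
  intro u hu
  rw [Subgroup.mem_center_iff]
  intro s
  have hu' : (u : G) ∈ P₁ := hu
  have hs : (s : G) * u * (s : G)⁻¹ ∈ P₁ := (Subgroup.mem_normalizer_iff.1 s.2 u).1 hu'
  obtain ⟨w, hw⟩ : ∃ w : P₁, ∀ y : P₁, y = 1 ∨ y = w := by
    obtain ⟨a, b, hab, huniv⟩ := Nat.card_eq_two_iff.1 h
    have hall : ∀ y : P₁, y = a ∨ y = b := by
      intro y
      have : y ∈ ({a, b} : Set P₁) := by rw [huniv]; trivial
      exact this
    rcases hall 1 with h1 | h1
    · exact ⟨b, fun y => by rw [h1]; exact hall y⟩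
    · exact ⟨a, fun y => by rw [h1]; exact (hall y).symm⟩
  apply Subtype.ext
  change (s : G) * u = u * s
  rcases hw ⟨u, hu'⟩ with h1 | h1
  · have h2 : (u : G) = 1 := congrArg Subtype.val h1
    rw [h2, mul_one, one_mul]
  · rcases hw ⟨_, hs⟩ with h3 | h3
    · have h4 : (s : G) * u * (s : G)⁻¹ = 1 := congrArg Subtype.val h3
      have h5 : (u : G) = 1 := by
        have h6 : (s : G) * u = s := mul_inv_eq_one.1 h4
        exact mul_eq_left.1 h6
      rw [h5, mul_one, one_mul]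
    · have h4 : (s : G) * u * (s : G)⁻¹ = u := by
        have h7 := h3.trans h1.symm
        exact congrArg Subtype.val h7
      exact mul_inv_eq_iff_eq_mul.1 h4

theorem sn_coe {G : Type} [Group G] (S : Subgroup G) (n : ℕ) (f : G → ℂ) :
    (fun s : S => sn n f (s : G)) = sn n (fun s : S => f s) := by
  funext s
  simp only [sn, Subgroup.orderOf_coe]

end TWY

theorem TWY_thm (h2 : Stmt_ATNX) : Stmt_TWY := by
  intro n hTW G _ _ 𝔐 h𝔐 hℓ ω P₁ P x hat hθ
  obtain ⟨θ, hθ, rfl⟩ := hθ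
  rintro f ⟨hf, hc⟩
  letI : Fintype (NP P₁) := Fintype.ofFinite _
  rw [TRM.stb_single] at hf
  have hx : x ∈ Subgroup.normalizer (P₁ : Set G) := by
    apply TRM.cen_le
    rw [Subgroup.mem_centralizer_iff]
    intro u hu
    exact hat.cd.cen u (hat.cd.le hu)
  have hcen : cen 𝔐 (Subgroup.normalizer (P₁ : Set G)).subtype
      (fun s : NP P₁ => f s) = cen 𝔐 (MonoidHom.id G) θ := by
    funext g
    have h5 := BLKC.cg_eq_cen 𝔐 (Subgroup.normalizer (P₁ : Set G)) f hf.2 g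
    rw [← hc g]
    exact h5
  obtain ⟨h6, h7⟩ := h2 G 𝔐 2 n h𝔐 hℓ θ hθ P₁ P x hat hx (fun s : NP P₁ => f s) hf.1 hcen
  obtain ⟨h8, h9⟩ := hTW (NP P₁) 𝔐 h𝔐 hℓ (fun s : NP P₁ => f s) hf.1 _ _ _
    (TWY.central P₁ hat.cd.c1) h6
  have h10 := (h7 _ h8).1 h9
  have h11 : ∀ g, g ∉ Subgroup.normalizer (P₁ : Set G) → sn n f g = 0 := by
    intro g hg
    simp [sn, hf.2 g hg]
  refine ⟨?_, ?_⟩
  · rw [TRM.stb_single]
    refine ⟨?_, h11⟩
    rw [TWY.sn_coe]
    exact h8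
  · intro g
    have h5 := BLKC.cg_eq_cen 𝔐 (Subgroup.normalizer (P₁ : Set G)) (sn n f) h11 g
    rw [← h10, ← TWY.sn_coe]
    exact h5.symm

end Pool.Agent.RCB
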