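import Mathlib
import Pool.Agent.RCB.St6
import Pool.Agent.RCB.TW1
import Pool.Agent.RCB.TWX
import Pool.Agent.RCB.TWY

/-!
# RCB_GM2: the bijection on the level of functions on the group (the prime 2)
-/

namespace Pool.Agent.RCB

open Pool.Agent.DP Pool.Agent.DPV Pool.Agent.DPB Pool.Agent.DPW Pool.Agent.DPX Pool.Agent.DPC
open Pool.Agent.Lib_helper13 Representation

namespace GM2

/-- The extension of a function on `C = N` to `N`. -/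
def E {N : Type} [Group N] {C : Subgroup N} (hC : ∀ s : N, s ∈ C) (φ : C → ℂ) : N → ℂ :=
  fun s => φ ⟨s, hC s⟩

theorem E_res {N : Type} [Group N] {C : Subgroup N} (hC : ∀ s : N, s ∈ C) (φ : C → ℂ) :
    (fun c : C => E hC φ c) = φ := rfl

theorem E_of_res {N : Type} [Group N] {C : Subgroup N} (hC : ∀ s : N, s ∈ C) {ψ : N → ℂ}
    {φ : C → ℂ} (h : (fun c : C => ψ c) = φ) : ψ = E hC φ := by
  subst h
  rfl

/-- `C = N`, as an isomorphism. -/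
def eqv {N : Type} [Group N] {C : Subgroup N} (hC : ∀ s : N, s ∈ C) : N ≃* C where
  toFun s := ⟨s, hC s⟩
  invFun c := c
  left_inv _ := rfl
  right_inv _ := rfl
  map_mul' _ _ := rfl

theorem irr_E {N : Type} [Group N] [Fintype N] {C : Subgroup N} (hC : ∀ s : N, s ∈ C)
    {φ : C → ℂ} (h : IsIrr φ) : IsIrr (E hC φ) :=
  h.comp_mulEquiv (eqv hC)

theorem irr_res {N : Type} [Group N] [Fintype N] {C : Subgroup N} (hC : ∀ s : N, s ∈ C)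
    {ψ : N → ℂ} (h : IsIrr ψ) : IsIrr (fun c : C => ψ c) :=
  h.comp_mulEquiv (eqv hC).symm

theorem eq_of_ip {Y : Type} [Group Y] [Fintype Y] {χ χ' : Y → ℂ} (h : IsIrr χ) (h' : IsIrr χ')
    (hne : ip χ χ' ≠ 0) : χ = χ' := by
  by_contra hcon
  exact hne (ip_ne h h' hcon)

end GM2

open GM2 in
/-- RCB_GM2: the bijection on the level of functions on the group. -/
theorem GM2_thm (h0 : Stmt_TMT) (h1 : Stmt_TRM) (h2 : Stmt_LCC) (h3 : Stmt_AIN)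
    (h4 : Stmt_VAL) (h5 : Stmt_CNTX) : Stmt_GM2 := by
  classical
  intro G _ _ 𝔐 n hM hl ω P₁ P x₀ hat hex
  have hex' := hex
  obtain ⟨θ, hθ, hω⟩ := hex
  subst hω
  let _ : Fintype (NP P₁) := Fintype.ofFinite _
  obtain ⟨C, hCn, ψ₀, φ₀, hCf⟩ := TW1.exists_cf h5 𝔐 2 n hM hl hθ hat
  obtain ⟨hn, hcard, b, Ψ, hb, hbij, hval, hvan⟩ := h0 G 𝔐 n hM hl θ P₁ P x₀ C ψ₀ φ₀ hCf
  obtain ⟨z, z', t1, t2, t3, t4, t5, t6, t7, t8, t9, t10, t11, t12, t13, t14⟩ :=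
    h1 G 𝔐 P₁ C hCf.hC
  obtain ⟨l1, l2, -, -, -, -⟩ := h2 G 𝔐 2 n hM hl θ P₁ P x₀ C ψ₀ φ₀ hCf
  obtain ⟨a1, -, a3, -⟩ := h3 G 𝔐 2 n hM hl θ P₁ P x₀ C ψ₀ φ₀ hCf
  -- `C` is everything
  have hC : ∀ s : NP P₁, s ∈ C := by
    intro s
    rw [hCf.hC, Subgroup.mem_centralizer_iff]
    intro u hu
    have h6 := TWY.central P₁ hat.cd.c1 hu
    rw [Subgroup.mem_center_iff] at h6
    exact (h6 s).symm
  have hxs := fun χ => TWX.mem_XS 𝔐 (cen 𝔐 (MonoidHom.id G) θ) χ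
  have hyl : ∀ f : G → ℂ, f ∈ YL 𝔐 P₁ (cen 𝔐 (MonoidHom.id G) θ) ↔
      ∃ φ ∈ II 𝔐 φ₀, f = z' (E hC φ) := by
    intro f
    constructor
    · rintro ⟨hf, hc⟩
      obtain ⟨ψ, hψ, rfl⟩ := (t8 f).1 hf
      have hcψ : cen 𝔐 (Subgroup.normalizer (P₁ : Set G)).subtype ψ =
          cen 𝔐 (MonoidHom.id G) θ := by
        funext g
        rw [← t12 ψ g, hc g]
      obtain ⟨φ, hφ, hip⟩ := l2 ψ hψ hcψ
      exact ⟨φ, hφ, by rw [← E_of_res hC (eq_of_ip (irr_res hC hψ) hφ.1 hip)]⟩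
    · rintro ⟨φ, hφ, rfl⟩
      have hE := irr_E hC hφ.1
      have hip : ip (fun c : C => E hC φ c) φ ≠ 0 := by
        rw [E_res, ip_self hφ.1]
        exact one_ne_zero
      have hcψ := l1 (E hC φ) hE φ hφ hip
      refine ⟨(t8 _).2 ⟨_, hE, rfl⟩, fun g => ?_⟩
      rw [t12, hcψ]
  have hmu2 : ∀ φ φ' : C → ℂ, mu (Subgroup.centralizer (P₁ : Set G)) (z' (E hC φ)) (z φ') =
      ip φ φ' := by
    intro φ φ'
    rw [t11]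
    congr 1
    funext c
    rw [t3]
    rfl
  have hzc : ∀ f : G → ℂ, f ∈ ZC 𝔐 P₁ (cen 𝔐 (MonoidHom.id G) θ) → ∃ φ ∈ II 𝔐 φ₀, f = z φ := by
    rintro f ⟨hf, ψ, hψ, hne⟩
    obtain ⟨φ, hφ, rfl⟩ := (t7 f).1 hf
    obtain ⟨φ', hφ', rfl⟩ := (hyl ψ).1 hψ
    rw [hmu2] at hne
    have h6 := eq_of_ip hφ'.1 hφ hne
    subst h6
    exact ⟨_, hφ', rfl⟩
  have hEB : ¬ EB 𝔐 P₁ (cen 𝔐 (MonoidHom.id G) θ) := by
    rintro ⟨φ, hφ, s, hs, hsc, -⟩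
    exact hsc ((t6 ⟨s, (t5 s).1 hs⟩).1 (hC _))
  refine ⟨hn, hEB, ?_, b, fun χ => z' (E hC (Ψ χ)), hb, ?_, ?_, ?_⟩
  · intro ψ hψ ψ' hψ' g hg
    obtain ⟨φ, hφ, rfl⟩ := (hyl ψ).1 hψ
    obtain ⟨φ', hφ', rfl⟩ := (hyl ψ').1 hψ'
    by_cases hgs : g ∈ stb {P₁}
    · have hgn := (t5 g).1 hgs
      have e1 := t3 (E hC φ) ⟨g, hgn⟩
      have e2 := t3 (E hC φ') ⟨g, hgn⟩
      have e3 := (a3 φ hφ φ' hφ').2 ⟨⟨g, hgn⟩, hC _⟩ hg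
      exact e1.trans (e3.trans e2.symm)
    · rw [t4 _ g hgs, t4 _ g hgs]
  · refine ⟨?_, ?_, ?_⟩
    · intro χ hχ
      exact (hyl _).2 ⟨Ψ χ, hbij.mapsTo ((hxs χ).1 hχ), rfl⟩
    · intro χ hχ χ' hχ' he
      apply hbij.injOn ((hxs χ).1 hχ) ((hxs χ').1 hχ')
      exact congrArg (fun (f : NP P₁ → ℂ) (c : C) => f c) (t10 he)
    · intro f hf
      obtain ⟨φ, hφ, rfl⟩ := (hyl f).1 hf
      obtain ⟨χ, hχ, rfl⟩ := hbij.surjOn hφ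
      exact ⟨χ, (hxs χ).2 hχ, rfl⟩
  · intro χ hχ g hg
    obtain ⟨hχi, hχc⟩ := (hxs χ).1 hχ
    obtain ⟨a, ha1, ha2⟩ := hval χ hχi hχc
    have hΨ := hbij.mapsTo ((hxs χ).1 hχ)
    refine h4 G 𝔐 2 n hM hl _ P₁ P x₀ hat hex' hEB χ hχ _ ((hyl _).2 ⟨Ψ χ, hΨ, rfl⟩) a b ?_ g hg
    intro f hf
    obtain ⟨φ, hφ, rfl⟩ := hzc f hf
    rw [hmu2, t11, ← a1 χ φ hχi hφ.1]
    by_cases hφe : φ = Ψ χ
    · subst hφe
      rw [ha2, ip_self hφ.1, if_pos one_ne_zero]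
      push_cast
      rfl
    · rw [ha1 φ hφ hφe, ip_ne hΨ.1 hφ.1 (fun h => hφe h.symm), if_neg (by simp)]
      rw [add_zero]
  · intro χ hχ χ' hχ' g hg
    obtain ⟨hχi, hχc⟩ := (hxs χ).1 hχ
    obtain ⟨hχi', hχc'⟩ := (hxs χ').1 hχ'
    exact hvan χ χ' hχi hχc hχi' hχc' g hg

end Pool.Agent.RCB
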