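import Mathlib
import Pool.Agent.RCB.St6
import Pool.Agent.RCB.LTP
import Pool.Agent.RCB.CLQ

/-!
# Theorem P1, RCB_LTP2: the local theorem for the prime 2
-/

set_option linter.unusedSectionVars false

namespace Pool.Agent.RCB

open Pool.Agent.DP Pool.Agent.DPV Pool.Agent.DPB Pool.Agent.DPW Pool.Agent.DPX Pool.Agent.DPC
open Pool.Agent.Lib_helper13 Representation

namespace LTP2

variable {G B C : Type} [Group G] [Group B] [Group C] {ι : G →* B} {κ : B →* MulAut G}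
  {ρ : B →* C}

/-- The class hypothesis over the inverse image of `R` gives the one over `B`. -/
theorem agr_up [Fintype G] [Fintype B] (h5 : Stmt_AGM) (h : LocN ι κ ρ) (R : Subgroup C)
    (P₁ : Subgroup G) (χ ψ : G → ℂ) (hχ : IsIrr χ) (hψ : IrrOn (stb {P₁}) ψ)
    (hle : Stx κ ∅ χ ≤ R.comap ρ)
    (hmap : (Stx κ ∅ χ).map ρ = (Stx κ {P₁} ψ).map ρ)
    (hS : (Stx (kR κ ρ R) ∅ χ).map (pR ρ R) = (Stx (kR κ ρ R) {P₁} ψ).map (pR ρ R))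
    (hA : ∀ Q : Subgroup ↥((Stx (kR κ ρ R) ∅ χ).map (pR ρ R)), IsPGroup 2 Q →
      Agr (locN_R (locN_R h R) ((Stx (kR κ ρ R) ∅ χ).map (pR ρ R))) P₁ χ ψ Q)
    (Q₂ : Subgroup ↥((Stx κ ∅ χ).map ρ)) (hQ : IsPGroup 2 Q₂) :
    Agr (locN_R h ((Stx κ ∅ χ).map ρ)) P₁ χ ψ Q₂ := by
  have hfC : Finite C := Finite.of_surjective ρ h.surj
  obtain ⟨S, hSd⟩ : ∃ S, S = (Stx (kR κ ρ R) ∅ χ).map (pR ρ R) := ⟨_, rfl⟩
  have hup : (Stx κ ∅ χ).map ρ = S.map R.subtype := by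
    rw [hSd]
    exact LTP.map_Stx_R κ ρ R ∅ χ hle
  rw [← hSd] at hA hS
  obtain ⟨T, hTd⟩ : ∃ T, T = (Stx κ ∅ χ).map ρ := ⟨_, rfl⟩
  revert Q₂
  rw [← hTd]
  intro Q₂ hQ
  rw [← hTd] at hup hmap
  have hTR : ∀ c ∈ T, c ∈ R := by
    intro c hc
    rw [hup] at hc
    obtain ⟨s, _, rfl⟩ := hc
    exact s.2
  have hTS : ∀ (c : C) (hc : c ∈ T), (⟨c, hTR c hc⟩ : R) ∈ S := by
    intro c hc
    have hc' := hc
    rw [hup] at hc'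
    obtain ⟨s, hs, hsc⟩ := hc'
    have : (⟨c, hTR c hc⟩ : R) = s := Subtype.ext hsc.symm
    rw [this]
    exact hs
  -- the maps
  let m : ↥(T.comap ρ) →* ↥(S.comap (pR ρ R)) :=
    { toFun := fun x => ⟨⟨x, hTR _ x.2⟩, hTS _ x.2⟩
      map_one' := rfl
      map_mul' := fun _ _ => rfl }
  let mC : ↥T →* ↥S :=
    { toFun := fun c => ⟨⟨c, hTR _ c.2⟩, hTS _ c.2⟩
      map_one' := rfl
      map_mul' := fun _ _ => rfl }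
  have hfS : Fintype ↥(S.comap (pR ρ R)) := Fintype.ofFinite _
  have hfT : Fintype ↥(T.comap ρ) := Fintype.ofFinite _
  refine h5 G ↥(S.comap (pR ρ R)) ↥S ↥(T.comap ρ) ↥T (iR (locN_R h R) S)
    (kR (kR κ ρ R) (pR ρ R) S) (pR (pR ρ R) S) (iR h T) (kR κ ρ T) (pR ρ T)
    (locN_R (locN_R h R) S) (locN_R h T) P₁ χ ψ hχ hψ 1 m mC (fun _ => rfl) (fun _ => rfl) ?_
    (fun _ => rfl) (fun _ => rfl) Q₂ (Q₂.map mC) le_rfl ?_ ?_ ?_ (hA _ (hQ.map mC))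
  · exact Subgroup.map_id P₁
  · intro c _
    have hc := hSd.le c.2
    obtain ⟨b, hb, hbc⟩ := hc
    have hb2 : pR ρ R b ∈ S := by
      rw [hbc]
      exact c.2
    exact ⟨⟨b, hb2⟩, hb, Subtype.ext hbc⟩
  · intro c _
    have hc := hS.le c.2
    obtain ⟨b, hb, hbc⟩ := hc
    have hb2 : pR ρ R b ∈ S := by
      rw [hbc]
      exact c.2
    exact ⟨⟨b, hb2⟩, hb, Subtype.ext hbc⟩
  · intro c _
    have hc := hmap.le c.2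
    obtain ⟨b, hb, hbc⟩ := hc
    have hb2 : ρ b ∈ T := by
      rw [hbc]
      exact c.2
    refine ⟨⟨b, hb2⟩, ?_, Subtype.ext hbc⟩
    rw [YS_R h]
    change b ∈ YS ι {P₁}
    rw [mem_YS_iff h.cl]
    exact hb.1

end LTP2

open LTP in
/-- RCB_LTP2. -/
theorem LTP2_thm (h0 : Stmt_BI2) (h1 : Stmt_CEQ2) (h2 : Stmt_CAG) (h3 : Stmt_CVB)
    (h4 : Stmt_FXGX) (h5 : Stmt_AGM) : Stmt_LTP2 := by
  classical
  intro G B C _ _ _ _ _ 𝔐 n hp h𝔐 hℓ ι κ ρ h χ ξ hχ hξ hover P₁ P x₀ hA d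
  have hfin : Finite C := Finite.of_surjective ρ h.surj
  obtain ⟨ω, hω⟩ : ∃ ω, ω = cen 𝔐 (MonoidHom.id G) ξ := ⟨_, rfl⟩
  have hex : ∃ θ : G → ℂ, IsIrr θ ∧ cen 𝔐 (MonoidHom.id G) θ = ω := ⟨ξ, hξ, hω.symm⟩
  have hA' := hA
  rw [← hω] at hA'
  have hωc : ∀ g x, ω (g * x * g⁻¹) = ω x := by
    intro g x
    rw [hω]
    exact cen_cl 𝔐 ξ g x
  obtain ⟨Ω, hΩ⟩ : ∃ Ω, Ω = cen 𝔐 (MonoidHom.id B) χ := ⟨_, rfl⟩
  rw [← hΩ]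
  -- the count over the characters
  have hcag : ∀ σ : Finset (Subgroup G), (σ = ∅ ∨ σ = {P₁}) →
      (Nat.card ((Sw κ σ ω).map ρ) : ℚ) * cnt 𝔐 2 d (YS ι σ).subtype Ω =
        ∑ θ ∈ irrOn (stb σ) with (∀ g, cg 𝔐 θ g = ω g),
          (Nat.card ((Stx κ σ θ).map ρ) : ℚ) * nC 𝔐 2 d ι κ σ Ω θ := by
    intro σ hσ
    refine h2 G B C 𝔐 2 h𝔐 ι κ ρ h σ ω Ω d hωc ?_
    intro θ hθ hn
    obtain ⟨⟨η, hη1, hη2, hη3, hη4⟩⟩ := (Nat.card_ne_zero.mp hn).1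
    obtain ⟨b, hb, hbg⟩ := h3 G B C 𝔐 2 n h𝔐 hℓ ι κ ρ h χ ξ hχ hξ hover P₁ P x₀ hA σ hσ θ hθ η
      hη1 hη2 (fun x => by rw [hη4 x, hΩ])
    exact ⟨b, hb, fun g => by rw [hbg, hω]⟩
  -- the stabilizer of the block
  obtain ⟨R, hR⟩ : ∃ R, R = (Sw κ ∅ ω).map ρ := ⟨_, rfl⟩
  have hRc : R.comap ρ = Sw κ ∅ ω := by
    rw [hR]
    exact Sw_comap h hωc
  have hinv : ∀ (b : ↥(R.comap ρ)) (g : G), ω (kR κ ρ R b g) = ω g := by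
    intro b g
    have hb : (b : B) ∈ Sw κ ∅ ω := by
      rw [← hRc]
      exact b.2
    exact hb.2 g
  have hfR : Fintype ↥(R.comap ρ) := Fintype.ofFinite _
  have hfx := h4 G ↥(R.comap ρ) R 𝔐 2 n h𝔐 hℓ (iR h R) (kR κ ρ R) (pR ρ R) (locN_R h R) ω P₁ P
    x₀ hA' hinv hex
  have hRP : (Sw κ {P₁} ω).map ρ = R := by
    apply le_antisymm
    · rw [hR]
      apply Subgroup.map_mono
      intro b hb
      exact ⟨by simp, hb.2⟩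
    · intro c hc
      have h5 : (⟨c, hc⟩ : R) ∈ (YS (iR h R) {P₁}).map (pR ρ R) := by
        rw [hfx]
        exact Subgroup.mem_top _
      obtain ⟨y, hy, hyc⟩ := h5
      rw [YS_R h] at hy
      have hy1 : (y : B) ∈ YS ι {P₁} := hy
      rw [mem_YS_iff h.cl] at hy1
      exact ⟨(y : B), ⟨hy1, hinv y⟩, congrArg Subtype.val hyc⟩
  -- the bijection
  obtain ⟨Φ, hbij, hΦ⟩ := h0 G ↥(R.comap ρ) R 𝔐 n h𝔐 hℓ (iR h R) (kR κ ρ R) (pR ρ R)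
    (locN_R h R) ω P₁ P x₀ ⟨hA', hinv, hex⟩
  have hStx : ∀ (σ : Finset (Subgroup G)) (θ : G → ℂ), (∀ g, cg 𝔐 θ g = ω g) →
      Stx κ σ θ ≤ R.comap ρ := by
    intro σ θ hθ b hb
    rw [hRc]
    refine ⟨by simp, fun g => ?_⟩
    rw [← hθ, ← hθ]
    exact FIXW.cg_stx 𝔐 hb g
  have hmap : ∀ θ ∈ XS 𝔐 ω, (Stx κ ∅ θ).map ρ = (Stx κ {P₁} (Φ θ)).map ρ := by
    intro θ hθ
    have hθ' := hbij.mapsTo hθ
    rw [map_Stx_R κ ρ R ∅ θ (hStx _ _ hθ.2), map_Stx_R κ ρ R {P₁} (Φ θ) (hStx _ _ hθ'.2),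
      (hΦ θ hθ).1]
  have hceq : ∀ θ ∈ XS 𝔐 ω, nC 𝔐 2 d ι κ ∅ Ω θ = nC 𝔐 2 d ι κ {P₁} Ω (Φ θ) := by
    intro θ hθ
    have hθ' := hbij.mapsTo hθ
    refine h1 G B C 𝔐 2 n h𝔐 hℓ ι κ ρ h ω P₁ P x₀ hA' hex θ hθ (Φ θ) hθ' (hmap θ hθ) ?_ Ω d
    exact LTP2.agr_up h5 h R P₁ θ (Φ θ) (CLQ.irr_empty hθ.1) hθ'.1 (hStx _ _ hθ.2)
      (hmap θ hθ) (hΦ θ hθ).1 (hΦ θ hθ).2
  have hmem : ∀ (σ : Finset (Subgroup G)) (θ : G → ℂ),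
      θ ∈ (irrOn (stb σ)).filter (fun θ => ∀ g, cg 𝔐 θ g = ω g) ↔
        IrrOn (stb σ) θ ∧ ∀ g, cg 𝔐 θ g = ω g := by
    intro σ θ
    rw [Finset.mem_filter, CLIFF.mem_irrOn]
  have hsum : ∑ θ ∈ irrOn (stb (∅ : Finset (Subgroup G))) with (∀ g, cg 𝔐 θ g = ω g),
        (Nat.card ((Stx κ ∅ θ).map ρ) : ℚ) * nC 𝔐 2 d ι κ ∅ Ω θ =
      ∑ θ ∈ irrOn (stb {P₁}) with (∀ g, cg 𝔐 θ g = ω g),
        (Nat.card ((Stx κ {P₁} θ).map ρ) : ℚ) * nC 𝔐 2 d ι κ {P₁} Ω θ := by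
    refine Finset.sum_bij (fun θ _ => Φ θ) ?_ ?_ ?_ ?_
    · intro θ hθ
      rw [hmem] at hθ ⊢
      exact hbij.mapsTo hθ
    · intro θ hθ θ' hθ' he
      rw [hmem] at hθ hθ'
      exact hbij.injOn hθ hθ' he
    · intro ψ hψ
      rw [hmem] at hψ
      obtain ⟨θ, hθ, he⟩ := hbij.surjOn hψ
      exact ⟨θ, (hmem _ _).mpr hθ, he⟩
    · intro θ hθ
      rw [hmem] at hθ
      rw [hmap θ hθ, hceq θ hθ]
  have h6 := hcag ∅ (Or.inl rfl)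
  have h7 := hcag {P₁} (Or.inr rfl)
  rw [hsum, ← h7, ← hR, hRP] at h6
  have hRne : (Nat.card R : ℚ) ≠ 0 := by
    exact_mod_cast Nat.card_pos.ne'
  have h8 := mul_left_cancel₀ hRne h6
  have h9 : cnt 𝔐 2 d (YS ι ∅).subtype Ω = cnt 𝔐 2 d (MonoidHom.id B) Ω :=
    cnt_comp_equiv 𝔐 2 d ((MulEquiv.subgroupCongr (YS_empty h.cl)).trans Subgroup.topEquiv)
      (MonoidHom.id B) Ω
  rw [← h9]
  exact_mod_cast h8

end Pool.Agent.RCB
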