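import Mathlib
import Pool.Agent.RCB.St6
import Pool.Agent.DPW.DF1

/-!
# RCB_QAT: the block of the quotient by a central subgroup of order `ℓ`
-/

namespace Pool.Agent.RCB

open Pool.Agent.DP Pool.Agent.DPV Pool.Agent.DPB Pool.Agent.DPW Pool.Agent.DPX Pool.Agent.DPC
open Pool.Agent.Lib_helper13 Representation

namespace QAT

theorem sum_comp {X Y : Type*} [Group X] [Fintype X] [Group Y] [Fintype Y] (p : X →* Y)
    (hp : Function.Surjective p) (f : Y → ℂ) :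
    ∑ x, f (p x) = (Nat.card p.ker : ℂ) * ∑ y, f y := by
  classical
  rw [← Finset.sum_fiberwise_of_maps_to (s := Finset.univ) (t := Finset.univ) (g := p)
    (fun _ _ => Finset.mem_univ _), Finset.mul_sum]
  refine Finset.sum_congr rfl fun y _ => ?_
  have h1 : ∀ x ∈ Finset.univ.filter (fun x => p x = y), f (p x) = f y := by
    intro x hx
    rw [(Finset.mem_filter.mp hx).2]
  rw [Finset.sum_congr rfl h1, Finset.sum_const, nsmul_eq_mul]
  congr 2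
  obtain ⟨x0, hx0⟩ := hp y
  rw [← Fintype.card_subtype, ← Nat.card_eq_fintype_card]
  refine Nat.card_congr ⟨fun x => ⟨x0⁻¹ * x.1, ?_⟩, fun x => ⟨x0 * x.1, ?_⟩, ?_, ?_⟩
  · rw [MonoidHom.mem_ker, map_mul, map_inv, x.2, hx0, inv_mul_cancel]
  · rw [map_mul, MonoidHom.mem_ker.mp x.2, hx0, mul_one]
  · intro x
    apply Subtype.ext
    simp
  · intro x
    apply Subtype.ext
    simp

theorem card_eq {X Y : Type*} [Group X] [Fintype X] [Group Y] [Fintype Y] (p : X →* Y)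
    (hp : Function.Surjective p) : Nat.card X = Nat.card p.ker * Nat.card Y := by
  have h4 := Subgroup.card_mul_index p.ker
  rw [← h4, Subgroup.index_ker, MonoidHom.range_eq_top.mpr hp]
  congr 1
  exact Nat.card_congr Subgroup.topEquiv.toEquiv

theorem isIrr_comp {X Y : Type*} [Group X] [Fintype X] [Group Y] [Fintype Y] (p : X →* Y)
    (hp : Function.Surjective p) {χ : Y → ℂ} (hχ : IsIrr χ) : IsIrr (fun x => χ (p x)) := by
  refine (hχ.isChr.comp p).isIrr ?_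
  have h1 := sum_comp p hp (fun y => χ y * χ y⁻¹)
  have h2 : ∀ x, χ (p x) * χ (p x⁻¹) = (fun y => χ y * χ y⁻¹) (p x) := by
    intro x
    simp
  rw [Finset.sum_congr rfl fun x _ => h2 x, h1, hχ.sum_self]
  have h3 : Nat.card X = Nat.card p.ker * Nat.card Y := card_eq p hp
  rw [h3]
  push_cast
  rfl

end QAT

theorem QAT_thm (h0 : Stmt_IDX) (h1 : Stmt_QUAX) (h2 : Stmt_QUOX) (h3 : Stmt_HGTX) :
    Stmt_QAT := by
  intro T S _ _ _ _ 𝔐 ℓ n hp hmax hℓ hn π P₁ P x₀ hπ hker hcen χ' hχ' hat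
  classical
  haveI := hmax.isPrime
  have hχ : IsIrr (fun g => χ' (π g)) := QAT.isIrr_comp π hπ hχ'
  let _ : Field ((integralClosure ℤ ℂ) ⧸ 𝔐) := Ideal.Quotient.field 𝔐
  have hrs : Function.Surjective (Ideal.Quotient.mk 𝔐) := Ideal.Quotient.mk_surjective
  have hch : CharP ((integralClosure ℤ ℂ) ⧸ 𝔐) ℓ := by
    rw [CharP.charP_iff_prime_eq_zero (Fact.out : ℓ.Prime)]
    rw [← map_natCast (Ideal.Quotient.mk 𝔐)]
    exact Ideal.Quotient.eq_zero_iff_mem.mpr hℓ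
  obtain ⟨a, ha, hPrm, -, -, -, hBK, -⟩ := h0 _ T 𝔐 ℓ hmax hℓ (Ideal.Quotient.mk 𝔐) hrs
    Ideal.mk_ker _ hχ
  obtain ⟨hB, -⟩ := hBK (n + 1) P₁ P x₀ hat
  obtain ⟨q1, -, -, -, -⟩ := h1 ℓ (n + 1) _ T S π P₁ P x₀ _ hπ hker hcen hB hPrm
  obtain ⟨P₂, hB2, -, -⟩ := h2 ℓ n _ T S π P₁ P x₀ _ hπ hker hcen hn hB hPrm
  obtain ⟨m, hm, hTm⟩ := h3 T 𝔐 ℓ (n + 1) hmax hℓ _ hχ P₁ P x₀ hat
  have hl0 : (ℓ : ℂ) ≠ 0 := Nat.cast_ne_zero.mpr hp.out.ne_zero
  have hcT : Nat.card T = ℓ * Nat.card S := by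
    rw [QAT.card_eq π hπ, hker, hat.cd.c1]
  have hSm : (Nat.card S : ℂ) = ((ℓ : ℂ) ^ n * m) * χ' 1 := by
    apply mul_left_cancel₀ hl0
    have h5 : (Nat.card T : ℂ) = (ℓ : ℂ) * (Nat.card S : ℂ) := by
      rw [hcT]
      push_cast
      rfl
    rw [← h5, hTm]
    simp only [map_one]
    ring
  have hw : DF1.w (fun g => χ' (π g)) x₀ = DF1.w χ' (π x₀) := by
    have e1 := DF1.mul_w hχ x₀ hTm
    have e2 := DF1.mul_w hχ' (π x₀) hSm
    rw [q1] at e1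
    have hc0 : (Nat.card (Subgroup.centralizer ({π x₀} : Set S)) : ℂ) ≠ 0 :=
      Nat.cast_ne_zero.mpr Nat.card_pos.ne'
    apply mul_left_cancel₀ (mul_ne_zero hl0 hc0)
    push_cast at e1
    linear_combination e1 - (ℓ : ℂ) * e2
  refine ⟨P₂, P.map π, π x₀, hB2.cd, ?_, ?_⟩
  · have h6 := hat.ne
    rw [DF1.cen_eq] at h6 ⊢
    rw [← hw]
    exact h6
  · intro y hy
    by_contra hnd
    obtain ⟨i, c, hc, hic⟩ := Nat.exists_eq_pow_mul_and_not_dvd
      (n := Nat.card (Subgroup.centralizer ({y} : Set S))) Nat.card_pos.ne' ℓ hp.out.ne_one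
    have hin : i < n := by
      by_contra hni
      apply hnd
      rw [hic]
      exact Dvd.dvd.mul_right (pow_dvd_pow _ (not_lt.mp hni)) _
    obtain ⟨k, rfl⟩ : ∃ k, n = i + (k + 1) := ⟨n - i - 1, by omega⟩
    apply hy
    rw [DF1.cen_eq]
    apply DF1.red_cancel 𝔐 hℓ hc (DF1.isIntegral_w hχ' y)
    have e2 := DF1.mul_w hχ' y hSm
    rw [hic] at e2
    have e3 : (c : ℂ) * DF1.w χ' y = ((ℓ ^ (k + 1) * m : ℕ) : ℂ) * χ' y := by
      apply mul_left_cancel₀ (pow_ne_zero i hl0)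
      push_cast at e2 ⊢
      rw [pow_add] at e2
      linear_combination e2
    rw [e3]
    refine DF1.red_mul_of_dvd 𝔐 hℓ ?_ (isIntegral_char hχ' _)
    exact Dvd.dvd.mul_right (dvd_pow_self _ (Nat.succ_ne_zero _)) _

end Pool.Agent.RCB
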