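import Pool.Agent.RCB.St1

/-!
# Theorem P1: the idempotent of a block of `G` and its conjugates under `B`
-/

namespace Pool.Agent.RCB

open Pool.Agent.DP Pool.Agent.DPV Pool.Agent.DPB Pool.Agent.DPW Pool.Agent.DPX
open Pool.Agent.Lib_helper13 Representation

namespace IDG

section aut

variable {G : Type} [Group G] [Fintype G]

omit [Fintype G] in
theorem conjInd_aut (κ : MulAut G) (y x : G) : conjInd y x = conjInd (κ y) (κ x) := by
  refine conjInd_congr ⟨fun h => MonoidHom.map_isConj κ.toMonoidHom h, fun h => ?_⟩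
  have := MonoidHom.map_isConj κ.symm.toMonoidHom h
  change IsConj (κ.symm (κ y)) (κ.symm (κ x)) at this
  rwa [MulEquiv.symm_apply_apply, MulEquiv.symm_apply_apply] at this

theorem cen_aut (𝔐 : Ideal (integralClosure ℤ ℂ)) (κ : MulAut G) (χ : G → ℂ) (x : G) :
    cen 𝔐 (MonoidHom.id G) (fun g => χ (κ g)) x = cen 𝔐 (MonoidHom.id G) χ (κ x) := by
  have h := wt_comp_equiv κ χ (fun y => conjInd y (κ x))
  change red 𝔐 (wt (fun g => χ (κ g)) (fun y => conjInd y x)) =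
    red 𝔐 (wt χ (fun y => conjInd y (κ x)))
  rw [← h]
  congr 2
  funext y
  exact conjInd_aut κ y x

theorem wt_aut (κ : MulAut G) (μ f : G → ℂ) :
    wt μ (fun x => f (κ x)) = wt (fun x => μ (κ⁻¹ x)) f := by
  have h := wt_comp_equiv κ (fun x => μ (κ⁻¹ x)) f
  rw [← h]
  congr 1
  funext x
  change μ x = μ (κ.symm (κ x))
  rw [MulEquiv.symm_apply_apply]

theorem cvF_aut {F : Type} [Field F] (κ : MulAut G) (f h : G → F) (x : G) :
    cvF (fun y => f (κ y)) (fun y => h (κ y)) x = cvF f h (κ x) := by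
  unfold cvF
  refine Fintype.sum_equiv κ.toEquiv _ _ fun y => ?_
  change f (κ y) * h (κ (y⁻¹ * x)) = f (κ y) * h ((κ y)⁻¹ * κ x)
  rw [map_mul, map_inv]

end aut

/-- Class functions with the same reductions. -/
theorem red_wt_congr {G : Type} [Group G] [Fintype G] (𝔐 : Ideal (integralClosure ℤ ℂ))
    [𝔐.IsPrime] {ℓ : ℕ} [Fact ℓ.Prime] (hℓ : (ℓ : integralClosure ℤ ℂ) ∈ 𝔐) {μ : G → ℂ}
    (hμ : IsIrr μ) (f f' : G → integralClosure ℤ ℂ) (hf : ∀ g x, f (g * x * g⁻¹) = f x)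
    (hf' : ∀ g x, f' (g * x * g⁻¹) = f' x)
    (h : ∀ x, Ideal.Quotient.mk 𝔐 (f x) = Ideal.Quotient.mk 𝔐 (f' x)) :
    red 𝔐 (wt μ (fun x => (f x : ℂ))) = red 𝔐 (wt μ (fun x => (f' x : ℂ))) := by
  refine red_wt_eq 𝔐 hℓ hμ (⊥ : Subgroup G) IsPGroup.of_bot _ _ ?_ (fun y => (f y).2) ?_
    (fun y => (f' y).2) ?_
  · intro g x
    rw [hf]
  · intro g x
    rw [hf']
  · intro y _
    rw [red_of_integral 𝔐 (f y).2, red_of_integral 𝔐 (f' y).2]
    exact h y

theorem wt_sum_coe {G : Type} [Group G] [Fintype G] {ι : Type} (s : Finset ι) (μ : G → ℂ)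
    (f : ι → G → integralClosure ℤ ℂ) :
    wt μ (fun x => ((∑ i ∈ s, f i x : integralClosure ℤ ℂ) : ℂ)) =
      ∑ i ∈ s, wt μ (fun x => (f i x : ℂ)) := by
  rw [← wt_sum]
  congr 1
  funext x
  exact map_sum (integralClosure ℤ ℂ).subtype (fun i => f i x) s

end IDG

open IDG in
theorem IDG_thm (h1 : Stmt_IDX) (h2 : Stmt_SUPX) : Stmt_IDG := by
  classical
  intro G B _ _ _ _ 𝔐 ℓ n hp hM hℓ ι κ hικ hι ξ hξ P₁ P x₀ hAt
  let _ : Field ((integralClosure ℤ ℂ) ⧸ 𝔐) := Ideal.Quotient.field 𝔐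
  have hMp : 𝔐.IsPrime := hM.isPrime
  let r : integralClosure ℤ ℂ →+* (integralClosure ℤ ℂ) ⧸ 𝔐 := Ideal.Quotient.mk 𝔐
  have hr : Function.Surjective r := Ideal.Quotient.mk_surjective
  have hker : RingHom.ker r = 𝔐 := Ideal.mk_ker
  have hchar : CharP ((integralClosure ℤ ℂ) ⧸ 𝔐) ℓ := by
    rw [CharP.charP_iff_prime_eq_zero hp.out]
    have h3 : r (ℓ : integralClosure ℤ ℂ) = 0 := by
      rw [← RingHom.mem_ker, hker]
      exact hℓ
    rwa [map_natCast] at h3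
  obtain ⟨a, ha, hprm, hval, -, -, hbk, hun⟩ :=
    h1 ((integralClosure ℤ ℂ) ⧸ 𝔐) G 𝔐 ℓ hM hℓ r hr hker ξ hξ
  obtain ⟨hBK, -⟩ := hbk n P₁ P x₀ hAt
  -- the central functions
  let c : B → G → (integralClosure ℤ ℂ) ⧸ 𝔐 := fun b g => cen 𝔐 (MonoidHom.id G) ξ (κ b g)
  have hκmul : ∀ (b b' : B) (x : G), κ (b * b') x = κ b (κ b' x) := fun b b' x => by
    rw [map_mul]
    rfl
  have hκinv : ∀ (b : B) (x : G), κ b (κ b⁻¹ x) = x := fun b x => by
    rw [← hκmul, mul_inv_cancel, map_one]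
    rfl
  -- class functions
  have hacl : ∀ (b : B) (g x : G), a (κ b (g * x * g⁻¹)) = a (κ b x) := fun b g x => by
    rw [map_mul, map_mul, map_inv, ha]
  -- values of the conjugates
  have hvalb : ∀ (b : B) (μ : G → ℂ), IsIrr μ →
      red 𝔐 (wt μ (fun x => (a (κ b x) : ℂ))) =
        if cen 𝔐 (MonoidHom.id G) μ = c b then 1 else 0 := by
    intro b μ hμ
    rw [wt_aut (κ b) μ (fun x => (a x : ℂ))]
    refine (hval (fun x => μ ((κ b)⁻¹ x)) (hμ.comp_mulEquiv (κ b)⁻¹)).trans ?_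
    refine if_congr ?_ rfl rfl
    constructor
    · intro h
      funext x
      have h3 := congrFun h (κ b x)
      rw [cen_aut 𝔐 (κ b)⁻¹ μ] at h3
      have h4 : (κ b)⁻¹ (κ b x) = x := (κ b).symm_apply_apply x
      rw [h4] at h3
      exact h3
    · intro h
      funext x
      rw [cen_aut 𝔐 (κ b)⁻¹ μ, h]
      change cen 𝔐 (MonoidHom.id G) ξ (κ b ((κ b).symm x)) = _
      rw [MulEquiv.apply_symm_apply]
  -- independence
  have hstab : ∀ b : B, c b = cen 𝔐 (MonoidHom.id G) ξ → ∀ x, r (a (κ b x)) = r (a x) := by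
    intro b hb
    refine hun (fun x => a (κ b x)) (fun g x => hacl b g x) ?_ ?_
    · funext x
      have h3 := congrFun hprm.2.1 (κ b x)
      rw [← cvF_aut (κ b) (fun x => r (a x)) (fun x => r (a x)) x] at h3
      exact h3
    · intro χ hχ
      rw [hvalb b χ hχ, hval χ hχ, hb]
  have hind : ∀ b b' : B, c b = c b' → ∀ x, r (a (κ b x)) = r (a (κ b' x)) := by
    intro b b' h x
    have h3 : c (b * b'⁻¹) = cen 𝔐 (MonoidHom.id G) ξ := by
      funext y
      change cen 𝔐 (MonoidHom.id G) ξ (κ (b * b'⁻¹) y) = _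
      rw [hκmul]
      have h4 := congrFun h (κ b'⁻¹ y)
      change cen 𝔐 (MonoidHom.id G) ξ (κ b (κ b'⁻¹ y)) =
        cen 𝔐 (MonoidHom.id G) ξ (κ b' (κ b'⁻¹ y)) at h4
      rw [h4, hκinv]
    have h5 := hstab (b * b'⁻¹) h3 (κ b' x)
    rw [← hκmul, inv_mul_cancel_right] at h5
    exact h5
  -- representatives
  let Ω : Finset (G → (integralClosure ℤ ℂ) ⧸ 𝔐) := Finset.univ.image c
  have hrep : ∀ ω : Ω, ∃ b : B, c b = ω := by
    rintro ⟨ω, hω⟩
    obtain ⟨b, -, hb⟩ := Finset.mem_image.1 hω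
    exact ⟨b, hb⟩
  choose rep hrepc using hrep
  let A : G → integralClosure ℤ ℂ := fun x => ∑ ω : Ω, a (κ (rep ω) x)
  have hA : ∀ (b : B) (x : G), r (A (κ b x)) = r (A x) := by
    intro b x
    change r (∑ ω : Ω, a (κ (rep ω) (κ b x))) = r (∑ ω : Ω, a (κ (rep ω) x))
    rw [map_sum, map_sum]
    have hmem : ∀ (b : B) (ω : Ω), (fun g => (ω : G → (integralClosure ℤ ℂ) ⧸ 𝔐) (κ b g)) ∈ Ω := by
      intro b ω
      refine Finset.mem_image.2 ⟨rep ω * b, Finset.mem_univ _, ?_⟩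
      funext g
      change cen 𝔐 (MonoidHom.id G) ξ (κ (rep ω * b) g) = _
      rw [hκmul, ← hrepc ω]
    refine Fintype.sum_equiv
      { toFun := fun ω => ⟨_, hmem b ω⟩
        invFun := fun ω => ⟨_, hmem b⁻¹ ω⟩
        left_inv := ?_
        right_inv := ?_ } _ _ ?_
    · intro ω
      apply Subtype.ext
      funext g
      change (ω : G → (integralClosure ℤ ℂ) ⧸ 𝔐) (κ b (κ b⁻¹ g)) = _
      rw [hκinv]
    · intro ω
      apply Subtype.ext
      funext g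
      change (ω : G → (integralClosure ℤ ℂ) ⧸ 𝔐) (κ b⁻¹ (κ b g)) = _
      have h3 := hκinv b⁻¹ g
      rw [inv_inv] at h3
      rw [h3]
    · intro ω
      rw [← hκmul]
      refine hind _ _ ?_ x
      have h3 := hrepc (⟨_, hmem b ω⟩ : Ω)
      refine Eq.trans ?_ h3.symm
      funext g
      change cen 𝔐 (MonoidHom.id G) ξ (κ (rep ω * b) g) =
        (ω : G → (integralClosure ℤ ℂ) ⧸ 𝔐) (κ b g)
      rw [hκmul, ← hrepc ω]
  let s : (integralClosure ℤ ℂ) ⧸ 𝔐 → integralClosure ℤ ℂ := Function.surjInv hr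
  have hs : ∀ z, r (s z) = z := Function.surjInv_eq hr
  have hAcl : ∀ g x : G, A (g * x * g⁻¹) = A x := fun g x =>
    Finset.sum_congr rfl fun ω _ => hacl (rep ω) g x
  refine ⟨fun x => (s (r (A x)) : ℂ), fun x => (s (r (A x))).2, fun b x => ?_, fun μ hμ => ?_,
    fun x hx Q hQ hQx => ?_⟩
  · change (s (r (A (κ b x))) : ℂ) = (s (r (A x)) : ℂ)
    rw [hA b x]
  · rw [red_wt_congr 𝔐 hℓ hμ (fun x => s (r (A x))) A (fun g x => by rw [hAcl]) hAcl
      (fun x => hs (r (A x)))]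
    have h3 : red 𝔐 (wt μ (fun x => (A x : ℂ))) =
        ∑ ω : Ω, red 𝔐 (wt μ (fun x => (a (κ (rep ω) x) : ℂ))) := by
      rw [← red_sum 𝔐 Finset.univ (fun ω : Ω => wt μ (fun x => (a (κ (rep ω) x) : ℂ)))]
      · congr 1
        exact wt_sum_coe Finset.univ μ (fun (ω : Ω) x => a (κ (rep ω) x))
      · intro ω _
        refine isIntegral_wt hμ _ (fun g x => ?_) fun y => (a (κ (rep ω) y)).2
        rw [hacl]
    rw [h3]
    simp only [hvalb _ μ hμ, hrepc]
    by_cases h4 : ∃ b : B, ∀ g, cen 𝔐 (MonoidHom.id G) μ g = cen 𝔐 (MonoidHom.id G) ξ (κ b g)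
    · rw [if_pos h4]
      obtain ⟨b, hb⟩ := h4
      have hmem : cen 𝔐 (MonoidHom.id G) μ ∈ Ω :=
        Finset.mem_image.2 ⟨b, Finset.mem_univ _, (funext hb).symm⟩
      rw [Finset.sum_eq_single (⟨_, hmem⟩ : Ω)]
      · rw [if_pos rfl]
      · intro ω _ hne
        rw [if_neg]
        intro h5
        exact hne (Subtype.ext h5.symm)
      · intro h5
        exact absurd (Finset.mem_univ _) h5
    · rw [if_neg h4]
      refine Finset.sum_eq_zero fun ω _ => ?_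
      rw [if_neg]
      intro h5
      apply h4
      refine ⟨rep ω, fun g => ?_⟩
      rw [h5, ← hrepc ω]
  · have h3 : r (A x) ≠ 0 := by
      intro h4
      apply hx
      change red 𝔐 (s (r (A x)) : ℂ) = 0
      rw [red_of_integral 𝔐 (s (r (A x))).2]
      exact (hs (r (A x))).trans h4
    have h5 : r (A x) = ∑ ω : Ω, r (a (κ (rep ω) x)) := map_sum r _ _
    rw [h5] at h3
    obtain ⟨ω, -, hω⟩ := Finset.exists_ne_zero_of_sum_ne_zero h3
    obtain ⟨t, ht⟩ := h2.2.2 ℓ n ((integralClosure ℤ ℂ) ⧸ 𝔐) G P₁ P x₀ (fun x => r (a x)) hBK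
      (κ (rep ω) x) hω (Q.map (κ (rep ω)).toMonoidHom) (hQ.map _) (by
        rintro _ ⟨u, hu, rfl⟩
        change κ (rep ω) u * κ (rep ω) x = κ (rep ω) x * κ (rep ω) u
        rw [← map_mul, ← map_mul, hQx u hu])
    refine ⟨ι t * rep ω, fun u hu => ?_⟩
    have h6 := ht (κ (rep ω) u) ⟨u, hu, rfl⟩
    have h7 : κ (ι t * rep ω) u = t * κ (rep ω) u * t⁻¹ := by
      apply hι
      rw [hκmul, hικ, map_mul, map_mul, map_inv]
    rw [h7]
    exact h6

end Pool.Agent.RCB
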