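import Pool.Agent.RCB.St6
import Pool.Agent.RCB.IDG

/-!
# Module RCB_SBL: characters which agree on the `ℓ`-regular elements are in the same block
-/

namespace Pool.Agent.RCB

open Pool.Agent.DP Pool.Agent.DPV Pool.Agent.DPB Pool.Agent.DPW Pool.Agent.DPX Pool.Agent.DPC
open Pool.Agent.Lib_helper13 Representation

/-- MODULE RCB_SBL -/
theorem SBL_thm (h0 : Stmt_BSA) (h1 : Stmt_BSB) : Stmt_SBL := by
  classical
  intro T _ _ 𝔐 ℓ hp hM hℓ χ χ' hχ hχ' hag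
  have hMp : 𝔐.IsPrime := hM.isPrime
  obtain ⟨⟨a, ha⟩, -, -⟩ := h0 T 𝔐 ℓ hM hℓ χ hχ
  obtain ⟨a', ha'def⟩ : ∃ a' : T → integralClosure ℤ ℂ,
      a' = fun x => if ℓ ∣ orderOf x then 0 else a x := ⟨_, rfl⟩
  have hord : ∀ g x : T, orderOf (g * x * g⁻¹) = orderOf x := by
    intro g x
    have := (MulAut.conj g).orderOf_eq x
    simpa using this
  have ha' : ∀ g x, a' (g * x * g⁻¹) = a' x := by
    intro g x
    rw [ha'def]
    simp only [hord, ha.cf]
  have hmk : ∀ x, Ideal.Quotient.mk 𝔐 (a x) = Ideal.Quotient.mk 𝔐 (a' x) := by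
    intro x
    rw [ha'def]
    simp only
    split_ifs with hx
    · rw [map_zero, Ideal.Quotient.eq_zero_iff_mem]
      by_contra hcon
      exact h1 T 𝔐 ℓ hM hℓ χ hχ x ⟨a, ha, hcon⟩ hx
    · rfl
  have hred : ∀ μ : T → ℂ, IsIrr μ →
      red 𝔐 (wt μ (fun x => (a x : ℂ))) = red 𝔐 (wt μ (fun x => (a' x : ℂ))) :=
    fun μ hμ => IDG.red_wt_congr 𝔐 hℓ hμ a a' ha.cf ha' hmk
  have h11 : χ 1 = χ' 1 := by
    refine hag 1 ?_
    rw [orderOf_one]
    exact hp.out.one_lt.ne' ∘ Nat.dvd_one.1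
  have hwt : wt χ (fun x => (a' x : ℂ)) = wt χ' (fun x => (a' x : ℂ)) := by
    unfold wt
    rw [h11]
    congr 1
    refine Finset.sum_congr rfl fun y _ => ?_
    by_cases hy : ℓ ∣ orderOf y
    · rw [ha'def]
      simp [hy]
    · rw [hag y hy]
  by_contra hne
  have h3 := ha.off χ' hχ' (fun h => hne h.symm)
  have h4 := ha.on χ hχ rfl
  rw [hred χ hχ, hwt, ← hred χ' hχ', h3] at h4
  exact zero_ne_one h4

end Pool.Agent.RCB
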