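import Mathlib
import Pool.Agent.RCB.St6

/-!
# RCB_SE2: the selection lemma for the prime 2
-/

namespace Pool.Agent.RCB

theorem SE2_thm : Stmt_SE2 := by
  intro Λ F Q _ _ _ _ _ l₀ f g c e cl u v hk hl₀ hfg hf hg hu hv
  classical
  by_cases h : ∃ lam, f lam ≠ 0 ∧ g lam ≠ 0
  · obtain ⟨lam, h1, h2⟩ := h
    exact Or.inl ((hu lam h1).symm.trans (hv lam h2))
  by_cases huv : u = v
  · exact Or.inl huv
  right
  push Not at h
  obtain ⟨s, -, hs⟩ := Finset.exists_ne_zero_of_sum_ne_zero hf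
  obtain ⟨s', -, hs'⟩ := Finset.exists_ne_zero_of_sum_ne_zero hg
  have hval : ∀ lam, f lam ≠ 0 → f lam = c := by
    intro lam hlam
    rw [hfg lam, h lam hlam, mul_zero, zero_add]
  have hc : c ≠ 0 := by
    rw [← hval s hs]
    exact hs
  have hS : ∀ lam, f lam ≠ 0 ∨ g lam ≠ 0 := by
    intro lam
    by_cases hgl : g lam = 0
    · left
      rw [hfg lam, hgl, mul_zero, zero_add]
      exact hc
    · exact Or.inr hgl
  have hSu : ∀ lam, cl lam = u → f lam ≠ 0 := by
    intro lam hlam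
    rcases hS lam with h1 | h1
    · exact h1
    · exact absurd (hlam.symm.trans (hv lam h1)) huv
  -- the sum
  have hsum : ∑ lam, f lam = ((Finset.univ.filter fun lam => cl lam = u).card : F) * c := by
    rw [← nsmul_eq_mul, ← Finset.sum_const, Finset.sum_filter]
    refine Finset.sum_congr rfl fun lam _ => ?_
    split_ifs with h1
    · exact hval lam (hSu lam h1)
    · by_contra h2
      exact h1 (hu lam h2)
  have hodd : ¬ 2 ∣ (Finset.univ.filter fun lam => cl lam = u).card := by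
    intro h2
    rw [← CharP.cast_eq_zero_iff F 2] at h2
    rw [h2, zero_mul] at hsum
    exact hf hsum
  have hcard : (Finset.univ.filter fun lam => cl lam = u).card = Nat.card cl.ker := by
    rw [MonoidHom.card_fiber_eq_of_mem_range cl (x := u) (y := 1) ⟨s, hu s hs⟩ ⟨1, map_one cl⟩,
      Nat.card_eq_fintype_card]
    refine (Fintype.card_of_subtype _ fun x => ?_).symm
    rw [Finset.mem_filter, MonoidHom.mem_ker]
    simp
  rw [hcard] at hodd
  obtain ⟨k, hk⟩ := hk
  have hdvd : Nat.card cl.ker ∣ 2 ^ k := hk ▸ Subgroup.card_subgroup_dvd_card cl.ker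
  obtain ⟨j, -, hj⟩ := (Nat.dvd_prime_pow Nat.prime_two).1 hdvd
  have hj0 : j = 0 := by
    by_contra hne
    exact hodd (hj ▸ dvd_pow_self 2 hne)
  rw [hj0, pow_zero] at hj
  have hbot : cl.ker = ⊥ := Subgroup.card_eq_one.1 hj
  have hl : cl l₀ ≠ 1 := by
    intro h1
    have h2 : l₀ ∈ cl.ker := h1
    rw [hbot, Subgroup.mem_bot] at h2
    exact hl₀ h2
  have hmul : cl (l₀ * s') = cl l₀ * v := by
    rw [map_mul, hv s' hs']
  rcases hS (l₀ * s') with h1 | h1
  · rw [← hmul]
    exact (hu _ h1).symm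
  · exfalso
    have h2 := hv _ h1
    rw [hmul] at h2
    exact hl (mul_eq_right.1 h2)

end Pool.Agent.RCB
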