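import Mathlib
import Pool.Agent.RCB.St6

/-!
# Theorem P1, module TMT: the multiplicities for the prime 2, with one sign
-/

namespace Pool.Agent.RCB

open Pool.Agent.DP Pool.Agent.DPV Pool.Agent.DPB Pool.Agent.DPW Pool.Agent.DPX Pool.Agent.DPC
open Pool.Agent.Lib_helper13 Representation

namespace TMT

/-- Two characters of a relation with coefficients `± 1`. -/
theorem key {T : Type} [Group T] [Fintype T] {X : Finset (T → ℂ)} {d : (T → ℂ) → ℤ}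
    {χ χ' : T → ℂ} (hχ : IsIrr χ) (hχ' : IsIrr χ') (hm : χ ∈ X) (hm' : χ' ∈ X)
    (hne : χ ≠ χ') (hd : ∀ θ ∈ X, θ ≠ χ → θ ≠ χ' → d θ = 0) (hu : d χ = 1 ∨ d χ = -1)
    (hw : d χ' = 1 ∨ d χ' = -1) (Q : T → Prop) (hQ : Q 1)
    (hs : ∀ g, Q g → ∑ θ ∈ X, ((d θ : ℤ) : ℂ) * θ g = 0) :
    d χ' = -d χ ∧ ∀ g, Q g → χ g = χ' g := by
  have h1 : ∀ g, Q g → ((d χ : ℤ) : ℂ) * χ g + ((d χ' : ℤ) : ℂ) * χ' g = 0 := by
    intro g hg
    rw [← hs g hg]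
    symm
    refine Finset.sum_eq_add (M := ℂ) (f := fun θ : T → ℂ => ((d θ : ℤ) : ℂ) * θ g) χ χ' hne
      ?_ ?_ ?_
    · intro θ hθ h2
      rw [hd θ hθ h2.1 h2.2]
      simp
    · intro h2
      exact absurd hm h2
    · intro h2
      exact absurd hm' h2
  obtain ⟨m, hm0, hm1⟩ := hχ.exists_degree
  obtain ⟨m', hm0', hm1'⟩ := hχ'.exists_degree
  have h2 := h1 1 hQ
  rw [hm1, hm1'] at h2
  have h3 : d χ * (m : ℤ) + d χ' * (m' : ℤ) = 0 := by exact_mod_cast h2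
  have h4 : d χ' = -d χ := by
    rcases hu with hu | hu <;> rcases hw with hw | hw <;> rw [hu, hw] at h3 ⊢ <;> omega
  refine ⟨h4, fun g hg => ?_⟩
  have h5 := h1 g hg
  rw [h4] at h5
  rcases hu with hu | hu
  · rw [hu] at h5
    push_cast at h5
    linear_combination h5
  · rw [hu] at h5
    push_cast at h5
    linear_combination -h5

/-- The case of two characters. -/
theorem fin2 {T : Type} [Group T] [Fintype T] {P₁ : Subgroup T} [Fintype (NP P₁)]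
    {C : Subgroup (NP P₁)} {X : Set (T → ℂ)} {I : Set (C → ℂ)} {x y : T → ℂ}
    {φ φ' : C → ℂ} (hX : ∀ χ, χ ∈ X ↔ χ = x ∨ χ = y) (hxy : x ≠ y)
    (hI : ∀ θ, θ ∈ I ↔ θ = φ ∨ θ = φ') (hne : φ ≠ φ') (hx : ai C x φ = ai C x φ' + 1)
    (hy : ai C y φ' = ai C y φ + 1) :
    ∃ (b : ℤ) (Ψ : (T → ℂ) → (C → ℂ)), (b = 1 ∨ b = -1) ∧ Set.BijOn Ψ X I ∧
      ∀ χ ∈ X, ∃ a : ℤ, (∀ θ ∈ I, θ ≠ Ψ χ → ai C χ θ = a) ∧ ai C χ (Ψ χ) = a + b := by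
  classical
  refine ⟨1, fun χ => if χ = x then φ else φ', Or.inl rfl, ⟨?_, ?_, ?_⟩, ?_⟩
  · intro χ _
    change (if χ = x then φ else φ') ∈ I
    rw [hI]
    by_cases h : χ = x
    · rw [if_pos h]
      exact Or.inl rfl
    · rw [if_neg h]
      exact Or.inr rfl
  · intro χ hχ χ' hχ' h
    change (if χ = x then φ else φ') = (if χ' = x then φ else φ') at h
    rcases (hX χ).1 hχ with rfl | rfl <;> rcases (hX χ').1 hχ' with rfl | rfl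
    · rfl
    · rw [if_pos rfl, if_neg hxy.symm] at h
      exact absurd h hne
    · rw [if_pos rfl, if_neg hxy.symm] at h
      exact absurd h.symm hne
    · rfl
  · intro θ hθ
    rcases (hI θ).1 hθ with rfl | rfl
    · exact ⟨x, (hX x).2 (Or.inl rfl), if_pos rfl⟩
    · exact ⟨y, (hX y).2 (Or.inr rfl), if_neg hxy.symm⟩
  · intro χ hχ
    rcases (hX χ).1 hχ with rfl | rfl
    · refine ⟨ai C χ φ', ?_, ?_⟩
      · intro θ hθ h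
        change θ ≠ (if χ = χ then φ else φ') at h
        rw [if_pos rfl] at h
        rcases (hI θ).1 hθ with rfl | rfl
        · exact absurd rfl h
        · rfl
      · change ai C χ (if χ = χ then φ else φ') = _
        rw [if_pos rfl]
        exact hx
    · refine ⟨ai C χ φ, ?_, ?_⟩
      · intro θ hθ h
        change θ ≠ (if χ = x then φ else φ') at h
        rw [if_neg hxy.symm] at h
        rcases (hI θ).1 hθ with rfl | rfl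
        · rfl
        · exact absurd rfl h
      · change ai C χ (if χ = x then φ else φ') = _
        rw [if_neg hxy.symm]
        exact hy

end TMT

open TMT in
open Classical in
theorem TMT_thm (h0 : Stmt_ORC) (h1 : Stmt_MTD) (h2 : Stmt_TOT) (h3 : Stmt_ROW)
    (h4 : Stmt_GRM) (h5 : Stmt_CZO) : Stmt_TMT := by
  intro T _ _ 𝔐 n h𝔐 h2𝔐 χ₀ P₁ P x₀ _ C _ ψ₀ φ₀ hcf
  obtain ⟨o1, o2, o3, o4, o5, o6, -, -, o9⟩ := h0 T 𝔐 2 n h𝔐 h2𝔐 χ₀ P₁ P x₀ C ψ₀ φ₀ hcf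
  obtain ⟨r, t1, t2⟩ := h2 T 𝔐 2 n h𝔐 h2𝔐 χ₀ P₁ P x₀ C ψ₀ φ₀ hcf
  have hcz := h5 T 𝔐 2 n h𝔐 h2𝔐 χ₀ P₁ P x₀ C ψ₀ φ₀ hcf
  have he : C.relIndex (bS 𝔐 C φ₀) = 1 := by
    have h6 := Nat.le_of_dvd (by norm_num) o4
    omega
  have hS : bS 𝔐 C φ₀ ≤ C := Subgroup.relIndex_eq_one.1 he
  -- the trivial action
  have hcj : ∀ φ ∈ II 𝔐 φ₀, ∀ g ∈ bS 𝔐 C φ₀, cj C g φ = φ := by
    intro φ hφ g hg
    funext c
    have h6 := hφ.1.conj_eq (⟨g, hS hg⟩ : C) c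
    have h7 : MulAut.conjNormal g c = (⟨g, hS hg⟩ : C) * c * (⟨g, hS hg⟩ : C)⁻¹ := by
      apply Subtype.ext
      rw [MulAut.conjNormal_apply]
      rfl
    change φ (MulAut.conjNormal g c) = φ c
    rw [h7, h6]
  have hCj : ∀ φ ∈ II 𝔐 φ₀, ∀ φ', Cjg 𝔐 C φ₀ φ φ' ↔ φ' = φ := by
    intro φ hφ φ'
    constructor
    · rintro ⟨g, hg, rfl⟩
      exact hcj φ hφ g hg
    · rintro rfl
      exact ⟨1, (bS 𝔐 C φ₀).one_mem, (hcj _ hφ 1 (bS 𝔐 C φ₀).one_mem).symm⟩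
  have hQ1 : ∀ t : T, ¬ P₁.map (MulAut.conj t).toMonoidHom ≤ Subgroup.zpowers (1 : T) := by
    intro t h6
    rw [Subgroup.zpowers_one_eq_bot, le_bot_iff] at h6
    have h7 : Nat.card (P₁.map (MulAut.conj t).toMonoidHom) = 2 := by
      rw [← hcf.at'.cd.c1]
      exact Nat.card_congr
        (Subgroup.equivMapOfInjective P₁ _ (MulAut.conj t).injective).symm.toEquiv
    rw [h6, Subgroup.card_bot] at h7
    omega
  set X : Finset (T → ℂ) := {χ ∈ irrF T | cen 𝔐 (MonoidHom.id T) χ =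
    cen 𝔐 (MonoidHom.id T) χ₀} with hXdef
  have hX : ∀ χ, χ ∈ X ↔ IsIrr χ ∧
      cen 𝔐 (MonoidHom.id T) χ = cen 𝔐 (MonoidHom.id T) χ₀ := by
    intro χ
    rw [hXdef, Finset.mem_filter, mem_irrF]
  refine ⟨o1, o5, ?_⟩
  by_cases hn : 2 ≤ n
  · -- the general case
    have h6 : 2 ^ 2 ≤ 2 ^ n := Nat.pow_le_pow_right (by norm_num) hn
    obtain ⟨m1, m2, m3⟩ := h1 T 𝔐 2 n h𝔐 h2𝔐 χ₀ P₁ P x₀ C ψ₀ φ₀ hcf (by rw [he]; omega)
    have h7 : ∀ χ : T → ℂ, ∃ φ : C → ℂ, ∃ a b : ℤ, χ ∈ X → φ ∈ II 𝔐 φ₀ ∧ (b = 1 ∨ b = -1) ∧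
        ∀ φ' ∈ II 𝔐 φ₀, ai C χ φ' = a + if φ' = φ then b else 0 := by
      intro χ
      by_cases h8 : χ ∈ X
      · obtain ⟨φ, hφ, a, b, hb, hab⟩ := m1 χ ((hX χ).1 h8).1 ((hX χ).1 h8).2
        refine ⟨φ, a, b, fun _ => ⟨hφ, hb, ?_⟩⟩
        intro φ' hφ'
        rw [hab φ' hφ']
        congr 1
        exact if_congr (hCj φ hφ φ') rfl rfl
      · exact ⟨φ₀, 0, 0, fun h9 => absurd h9 h8⟩
    choose Ψ a b hΨ using h7
    have hMt : ∀ χ ∈ X, MtA 𝔐 C φ₀ χ (Ψ χ) := by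
      intro χ hχ
      obtain ⟨hφ, hb, hab⟩ := hΨ χ hχ
      refine ⟨a χ, b χ, hb, fun φ' hφ' => ?_⟩
      rw [hab φ' hφ']
      congr 1
      exact if_congr (hCj _ hφ φ').symm rfl rfl
    have huq : ∀ φ ∈ II 𝔐 φ₀, Nat.card {χ : T → ℂ // (IsIrr χ ∧
        cen 𝔐 (MonoidHom.id T) χ = cen 𝔐 (MonoidHom.id T) χ₀) ∧ MtA 𝔐 C φ₀ χ φ} = 1 := by
      intro φ hφ
      rw [(m3 φ hφ).1 (hcj φ hφ), he]
    have hbij : Set.BijOn Ψ {χ | IsIrr χ ∧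
        cen 𝔐 (MonoidHom.id T) χ = cen 𝔐 (MonoidHom.id T) χ₀} (II 𝔐 φ₀) := by
      refine ⟨?_, ?_, ?_⟩
      · intro χ hχ
        exact (hΨ χ ((hX χ).2 hχ)).1
      · intro χ hχ χ' hχ' h8
        have h9 := (Nat.card_eq_one_iff_unique.1
          (huq (Ψ χ) (hΨ χ ((hX χ).2 hχ)).1)).1
        have h10 := hMt χ' ((hX χ').2 hχ')
        rw [← h8] at h10
        exact congrArg Subtype.val (h9.elim ⟨χ, hχ, hMt χ ((hX χ).2 hχ)⟩ ⟨χ', hχ', h10⟩)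
      · intro φ hφ
        obtain ⟨χ, hχ, hM⟩ := (Nat.card_eq_one_iff_unique.1 (huq φ hφ)).2
        refine ⟨χ, hχ, ?_⟩
        exact ((hCj φ hφ _).1 (m2 χ φ hφ (Ψ χ) (hΨ χ ((hX χ).2 hχ)).1 hM
          (hMt χ ((hX χ).2 hχ))))
    have hkey : ∀ χ ∈ X, ∀ χ' ∈ X, χ ≠ χ' → b χ' = b χ ∧ ∀ g : T,
        (∀ t : T, ¬ P₁.map (MulAut.conj t).toMonoidHom ≤ Subgroup.zpowers g) →
        χ g = χ' g := by
      intro χ hχ χ' hχ' hne
      obtain ⟨hφ, hb, hab⟩ := hΨ χ hχ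
      obtain ⟨hφ', hb', hab'⟩ := hΨ χ' hχ'
      have hne' : Ψ χ ≠ Ψ χ' := fun h8 =>
        hne (hbij.2.1 ((hX χ).1 hχ) ((hX χ').1 hχ') h8)
      have d1 : ai C χ (Ψ χ) - ai C χ (Ψ χ') = b χ := by
        rw [hab _ hφ, hab _ hφ', if_pos rfl, if_neg hne'.symm]
        ring
      have d2 : ai C χ' (Ψ χ) - ai C χ' (Ψ χ') = -b χ' := by
        rw [hab' _ hφ, hab' _ hφ', if_pos rfl, if_neg hne']
        ring
      have e1 : ∀ θ ∈ X, θ ≠ χ → θ ≠ χ' → ai C θ (Ψ χ) - ai C θ (Ψ χ') = 0 := by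
        intro θ hθ n1 n2
        obtain ⟨hφ'', hb'', hab''⟩ := hΨ θ hθ
        have n3 : Ψ χ ≠ Ψ θ := fun h8 => n1 (hbij.2.1 ((hX θ).1 hθ) ((hX χ).1 hχ) h8.symm)
        have n4 : Ψ χ' ≠ Ψ θ := fun h8 =>
          n2 (hbij.2.1 ((hX θ).1 hθ) ((hX χ').1 hχ') h8.symm)
        rw [hab'' _ hφ, hab'' _ hφ', if_neg n3, if_neg n4, sub_self]
      have e2 : ai C χ (Ψ χ) - ai C χ (Ψ χ') = 1 ∨ ai C χ (Ψ χ) - ai C χ (Ψ χ') = -1 := by
        rw [d1]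
        exact hb
      have e3 : ai C χ' (Ψ χ) - ai C χ' (Ψ χ') = 1 ∨ ai C χ' (Ψ χ) - ai C χ' (Ψ χ') = -1 := by
        rw [d2]
        rcases hb' with h8 | h8 <;> rw [h8]
        · exact Or.inr rfl
        · exact Or.inl (by norm_num)
      obtain ⟨k1, k2⟩ := key (X := X) (d := fun θ => ai C θ (Ψ χ) - ai C θ (Ψ χ'))
        ((hX χ).1 hχ).1 ((hX χ').1 hχ').1 hχ hχ' hne e1 e2 e3
        (fun g => ∀ t : T, ¬ P₁.map (MulAut.conj t).toMonoidHom ≤ Subgroup.zpowers g) hQ1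
        (fun g hg => hcz (Ψ χ) hφ (Ψ χ') hφ' g hg)
      refine ⟨?_, k2⟩
      change ai C χ' (Ψ χ) - ai C χ' (Ψ χ') = -(ai C χ (Ψ χ) - ai C χ (Ψ χ')) at k1
      rw [d1, d2] at k1
      omega
    have hχ₀ : χ₀ ∈ X := (hX χ₀).2 ⟨hcf.irr, rfl⟩
    refine ⟨b χ₀, Ψ, (hΨ χ₀ hχ₀).2.1, hbij, ?_, ?_⟩
    · intro χ hχ hcen
      have hm : χ ∈ X := (hX χ).2 ⟨hχ, hcen⟩
      obtain ⟨hφ, hb, hab⟩ := hΨ χ hm
      refine ⟨a χ, ?_, ?_⟩
      · intro φ hφ' hne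
        rw [hab φ hφ', if_neg hne, add_zero]
      · rw [hab _ hφ, if_pos rfl]
        congr 1
        by_cases h8 : χ = χ₀
        · rw [h8]
        · exact (hkey χ₀ hχ₀ χ hm (Ne.symm h8)).1
    · intro χ χ' hχ hcen hχ' hcen' g hg
      by_cases h8 : χ = χ'
      · rw [h8]
      · exact (hkey χ ((hX χ).2 ⟨hχ, hcen⟩) χ' ((hX χ').2 ⟨hχ', hcen'⟩) h8).2 g hg
  · -- two characters
    have hn1 : n = 1 := by omega
    obtain ⟨φ₁, hφ₁, hinv, hfr⟩ := o9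
    have hr : r = 1 := by
      rw [he, hn1] at t1
      omega
    have hII : (II 𝔐 φ₀).ncard = 2 := by
      rw [← Nat.card_coe_set_eq, o5, hn1, pow_one]
    obtain ⟨φ, hφ, hne⟩ : ∃ φ ∈ II 𝔐 φ₀, φ ≠ φ₁ := by
      obtain ⟨φa, φb, hab, hset⟩ := Set.ncard_eq_two.1 hII
      by_cases h6 : φa = φ₁
      · refine ⟨φb, by rw [hset]; simp, fun h7 => hab (h6.trans h7.symm)⟩
      · exact ⟨φa, by rw [hset]; simp, h6⟩
    have hI : ∀ θ, θ ∈ II 𝔐 φ₀ ↔ θ = φ ∨ θ = φ₁ := by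
      obtain ⟨φa, φb, hab, hset⟩ := Set.ncard_eq_two.1 hII
      intro θ
      rw [hset] at hφ hφ₁ ⊢
      simp only [Set.mem_insert_iff, Set.mem_singleton_iff] at hφ hφ₁ ⊢
      rcases hφ with rfl | rfl <;> rcases hφ₁ with rfl | rfl
      · exact absurd rfl hne
      · exact Iff.rfl
      · exact Or.comm
      · exact absurd rfl hne
    have hcard : X.card = 2 := by
      have h6 : Nat.card {χ : T → ℂ // IsIrr χ ∧
          cen 𝔐 (MonoidHom.id T) χ = cen 𝔐 (MonoidHom.id T) χ₀} = 2 := by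
        rw [t2, he, hr]
      rw [← h6]
      exact (Nat.subtype_card _ (fun χ => hX χ)).symm
    have hvne : ∀ χ ∈ X, ai C χ φ - ai C χ φ₁ ≠ 0 := by
      intro χ hχ h6
      have h7 : ∀ φ' ∈ II 𝔐 φ₀, ai C χ φ' = ai C χ φ₁ := by
        intro φ' hφ'
        rcases (hI φ').1 hφ' with rfl | rfl
        · omega
        · rfl
      obtain ⟨φ', hφ', φ'', hφ'', h8⟩ := h3 T 𝔐 2 n h𝔐 h2𝔐 χ₀ P₁ P x₀ C ψ₀ φ₀ hcf χ
        ((hX χ).1 hχ).1 ((hX χ).1 hχ).2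
      exact h8 (by rw [h7 φ' hφ', h7 φ'' hφ''])
    have hsq : ∑ χ ∈ X, (ai C χ φ - ai C χ φ₁) * (ai C χ φ - ai C χ φ₁) = (2 : ℤ) := by
      rw [h4 T 𝔐 2 n h𝔐 h2𝔐 χ₀ P₁ P x₀ C ψ₀ φ₀ hcf φ₁ hφ₁ hinv hfr φ hφ φ hφ hne hne,
        if_pos ((hCj φ hφ φ).2 rfl), he]
      norm_num
    obtain ⟨x, y, hxy, hXxy⟩ := Finset.card_eq_two.1 hcard
    have hx : x ∈ X := by rw [hXxy]; simp
    have hy : y ∈ X := by rw [hXxy]; simp
    rw [hXxy, Finset.sum_pair hxy] at hsq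
    have hvx := hvne x hx
    have hvy := hvne y hy
    have hx1 : 0 < (ai C x φ - ai C x φ₁) * (ai C x φ - ai C x φ₁) := mul_self_pos.2 hvx
    have hy1 : 0 < (ai C y φ - ai C y φ₁) * (ai C y φ - ai C y φ₁) := mul_self_pos.2 hvy
    have hx2 : ai C x φ - ai C x φ₁ = 1 ∨ ai C x φ - ai C x φ₁ = -1 := by
      have h6 : (ai C x φ - ai C x φ₁) * (ai C x φ - ai C x φ₁) = 1 := by omega
      exact mul_self_eq_one_iff.1 h6
    have hy2 : ai C y φ - ai C y φ₁ = 1 ∨ ai C y φ - ai C y φ₁ = -1 := by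
      have h6 : (ai C y φ - ai C y φ₁) * (ai C y φ - ai C y φ₁) = 1 := by omega
      exact mul_self_eq_one_iff.1 h6
    obtain ⟨k1, k2⟩ := key (X := X) (d := fun θ => ai C θ φ - ai C θ φ₁)
      ((hX x).1 hx).1 ((hX y).1 hy).1 hx hy hxy
      (by
        intro θ hθ n1 n2
        rw [hXxy] at hθ
        simp only [Finset.mem_insert, Finset.mem_singleton] at hθ
        rcases hθ with h6 | h6
        · exact absurd h6 n1
        · exact absurd h6 n2) hx2 hy2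
      (fun g => ∀ t : T, ¬ P₁.map (MulAut.conj t).toMonoidHom ≤ Subgroup.zpowers g) hQ1
      (fun g hg => hcz φ hφ φ₁ hφ₁ g hg)
    have hXs : ∀ χ, χ ∈ {χ : T → ℂ | IsIrr χ ∧
        cen 𝔐 (MonoidHom.id T) χ = cen 𝔐 (MonoidHom.id T) χ₀} ↔ χ = x ∨ χ = y := by
      intro χ
      rw [Set.mem_ofPred_eq, ← hX χ, hXxy]
      simp
    have hval : ∀ χ χ' : T → ℂ, IsIrr χ →
        cen 𝔐 (MonoidHom.id T) χ = cen 𝔐 (MonoidHom.id T) χ₀ →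
        IsIrr χ' → cen 𝔐 (MonoidHom.id T) χ' = cen 𝔐 (MonoidHom.id T) χ₀ → ∀ g : T,
        (∀ t : T, ¬ P₁.map (MulAut.conj t).toMonoidHom ≤ Subgroup.zpowers g) →
        χ g = χ' g := by
      intro χ χ' hχ hcen hχ' hcen' g hg
      rcases (hXs χ).1 ⟨hχ, hcen⟩ with rfl | rfl <;>
        rcases (hXs χ').1 ⟨hχ', hcen'⟩ with rfl | rfl
      · rfl
      · exact k2 g hg
      · exact (k2 g hg).symm
      · rfl
    change ai C y φ - ai C y φ₁ = -(ai C x φ - ai C x φ₁) at k1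
    rcases hx2 with h6 | h6
    · obtain ⟨b, Ψ, hb, hbij, hm⟩ := fin2 (C := C) (I := II 𝔐 φ₀) (φ := φ) (φ' := φ₁) hXs hxy
        hI hne (by omega) (by omega)
      exact ⟨b, Ψ, hb, hbij, fun χ hχ hcen => hm χ ⟨hχ, hcen⟩, hval⟩
    · obtain ⟨b, Ψ, hb, hbij, hm⟩ := fin2 (C := C) (I := II 𝔐 φ₀) (φ := φ₁) (φ' := φ) hXs hxy
        (fun θ => (hI θ).trans Or.comm) hne.symm (by omega) (by omega)
      exact ⟨b, Ψ, hb, hbij, fun χ hχ hcen => hm χ ⟨hχ, hcen⟩, hval⟩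

end Pool.Agent.RCB
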