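import Mathlib
import Pool.Agent.RCB.St6
import Pool.Agent.DPM.Stmts
import Pool.Agent.DPM.TWN
import Pool.Agent.Dade90.Twist

/-!
# RCB_TWA: the twist, the character is not trivial on the central subgroup
-/

set_option autoImplicit false

namespace Pool.Agent.RCB

open Pool.Agent.DP Pool.Agent.DPV Pool.Agent.DPB Pool.Agent.DPW Pool.Agent.DPX Pool.Agent.DPC
open Pool.Agent.Lib_helper13 Representation

namespace TWA

/-- The trace of the powers of an endomorphism of finite order. -/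
theorem trace_pow {V : Type*} [AddCommGroup V] [Module ℂ V] [FiniteDimensional ℂ V]
    (f : Module.End ℂ V) {N : ℕ} (hN : 0 < N) (hf : f ^ N = 1) :
    ∃ (s : Finset ℂ) (d : ℂ → ℕ), (∀ μ ∈ s, μ ^ N = 1) ∧
      ∀ k : ℕ, LinearMap.trace ℂ V (f ^ k) = ∑ μ ∈ s, (d μ : ℂ) * μ ^ k := by
  have hss : f.IsSemisimple := by
    refine Module.End.isSemisimple_of_squarefree_aeval_eq_zero
      (p := (Polynomial.X ^ N - 1 : Polynomial ℂ)) ?_ ?_
    · exact ((Polynomial.separable_X_pow_sub_C (1 : ℂ) (by exact_mod_cast hN.ne')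
        one_ne_zero)).squarefree
    · simp [hf]
  have htop : ⨆ μ : ℂ, f.eigenspace μ = ⊤ := hss.iSup_eigenspace_eq_top
  have hint : DirectSum.IsInternal (fun μ : ℂ => f.eigenspace μ) :=
    (DirectSum.isInternal_submodule_iff_iSupIndep_and_iSup_eq_top _).2
      ⟨f.eigenspaces_iSupIndep, htop⟩
  have hfin : {μ : ℂ | f.eigenspace μ ≠ ⊥}.Finite :=
    WellFoundedGT.finite_ne_bot_of_iSupIndep f.eigenspaces_iSupIndep
  have hmap : ∀ (k : ℕ) (μ : ℂ), ∀ v ∈ f.eigenspace μ, (f ^ k) v = μ ^ k • v := by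
    intro k μ v hv
    have h1 := Module.End.mem_eigenspace_iff.1 hv
    induction k with
    | zero => simp
    | succ k ih => rw [pow_succ', Module.End.mul_apply, ih, map_smul, h1, smul_smul, pow_succ]
  refine ⟨hfin.toFinset, fun μ => Module.finrank ℂ (f.eigenspace μ), ?_, ?_⟩
  · intro μ hμ
    rw [Set.Finite.mem_toFinset] at hμ
    obtain ⟨v, hv, hv0⟩ := (Submodule.ne_bot_iff _).1 hμ
    have h1 := hmap N μ v hv
    rw [hf, Module.End.one_apply] at h1
    have h2 : (μ ^ N - 1) • v = 0 := by rw [sub_smul, one_smul, ← h1, sub_self]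
    rcases smul_eq_zero.1 h2 with h3 | h3
    · exact sub_eq_zero.1 h3
    · exact absurd h3 hv0
  · intro k
    have hmt : ∀ μ : ℂ, Set.MapsTo (f ^ k) (f.eigenspace μ) (f.eigenspace μ) := by
      intro μ v hv
      rw [SetLike.mem_coe] at hv ⊢
      rw [hmap k μ v hv]
      exact Submodule.smul_mem _ _ hv
    rw [LinearMap.trace_eq_sum_trace_restrict' hint hfin hmt]
    refine Finset.sum_congr rfl fun μ _ => ?_
    have h1 : (f ^ k).restrict (hmt μ) = μ ^ k • LinearMap.id := by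
      apply LinearMap.ext
      intro v
      apply Subtype.ext
      exact hmap k μ v v.2
    rw [h1, map_smul, LinearMap.trace_id, smul_eq_mul, mul_comm]

/-- A Galois automorphism which raises the roots of unity to the power `k`. -/
theorem sig_char {T : Type} [Group T] [Fintype T] {χ : T → ℂ} (h : IsIrr χ) (σ : ℂ ≃+* ℂ)
    (k : ℕ) (hσ : ∀ ζ : ℂ, ζ ^ Nat.card T = 1 → σ ζ = ζ ^ k) (g : T) :
    σ (χ g) = χ (g ^ k) := by
  obtain ⟨n, ρ, _, rfl⟩ := h
  have hN : 0 < Nat.card T := Nat.card_pos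
  have hf : (ρ g) ^ Nat.card T = 1 := by
    rw [← map_pow, pow_card_eq_one', map_one]
  obtain ⟨s, d, hs, hk⟩ := trace_pow (ρ g) hN hf
  have h1 : ρ.character g = ∑ μ ∈ s, (d μ : ℂ) * μ := by
    have := hk 1
    simp only [pow_one] at this
    exact this
  have h2 : ρ.character (g ^ k) = ∑ μ ∈ s, (d μ : ℂ) * μ ^ k := by
    rw [← hk k, ← map_pow]
    rfl
  rw [h1, h2, map_sum]
  refine Finset.sum_congr rfl fun μ hμ => ?_
  rw [map_mul, map_natCast, hσ μ (hs μ hμ)]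

/-- The exponent. -/
theorem exists_k {N n : ℕ} (hN : 0 < N) (hn : 0 < n) :
    ∃ k : ℕ, Nat.Coprime k N ∧ (∀ m : ℕ, m ∣ N → ¬ 2 ∣ m → k ≡ 1 [MOD m]) ∧
      k ≡ 1 + 2 ^ n [MOD 2 ^ (n + 2)] := by
  obtain ⟨a, m, hm, hN'⟩ := Nat.exists_eq_pow_mul_and_not_dvd hN.ne' 2 (by norm_num)
  have hco : Nat.Coprime (2 ^ (max a (n + 2))) m := Nat.Coprime.pow_left _
    ((Nat.Prime.coprime_iff_not_dvd Nat.prime_two).2 hm)
  have hcop : ∀ m' : ℕ, ¬ 2 ∣ m' → Nat.Coprime m' (2 ^ a) := fun m' hm' =>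
    (Nat.Coprime.pow_left a ((Nat.Prime.coprime_iff_not_dvd Nat.prime_two).2 hm')).symm
  obtain ⟨k, hka, hkb⟩ := Nat.chineseRemainder hco (1 + 2 ^ n) 1
  have hk2 : k ≡ 1 + 2 ^ n [MOD 2 ^ (n + 2)] :=
    hka.of_dvd (pow_dvd_pow 2 (le_max_right _ _))
  have hk3 : k ≡ 1 [MOD 2] := by
    have h1 : k ≡ 1 + 2 ^ n [MOD 2] := hk2.of_dvd (dvd_pow_self 2 (by omega))
    refine h1.trans ?_
    have h2 : 2 ∣ 2 ^ n := dvd_pow_self 2 hn.ne'
    have h3 : 2 ^ n ≡ 0 [MOD 2] := (Nat.modEq_zero_iff_dvd).2 h2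
    exact Nat.ModEq.add_left 1 h3
  refine ⟨k, ?_, ?_, hk2⟩
  · rw [hN']
    apply Nat.Coprime.mul_right
    · apply Nat.Coprime.pow_right
      rw [Nat.coprime_iff_gcd_eq_one, hk3.gcd_eq]
      exact Nat.gcd_one_left _
    · rw [Nat.coprime_iff_gcd_eq_one, hkb.gcd_eq]
      exact Nat.gcd_one_left _
  · intro m' hm' hm2
    rw [hN'] at hm'
    exact hkb.of_dvd ((hcop m' hm2).dvd_of_dvd_mul_left hm')

theorem conj_central {T : Type} [Group T] {P₁ : Subgroup T} (h : P₁ ≤ Subgroup.center T) (t : T) :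
    P₁.map (MulAut.conj t).toMonoidHom = P₁ := by
  have h1 : ∀ u ∈ P₁, t * u * t⁻¹ = u := by
    intro u hu
    have := (Subgroup.mem_center_iff.1 (h hu)) t
    rw [this, mul_inv_cancel_right]
  ext x
  constructor
  · rintro ⟨u, hu, rfl⟩
    change t * u * t⁻¹ ∈ P₁
    rw [h1 u hu]
    exact hu
  · intro hx
    exact ⟨x, hx, h1 x hx⟩

/-- Two elements of order two in a cyclic group. -/
theorem half_eq {T : Type} [Group T] [Fintype T] {g z : T} (hz : z ∈ Subgroup.zpowers g)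
    (hz1 : z ≠ 1) (hz2 : z ^ 2 = 1) : ∃ h : ℕ, orderOf g = 2 * h ∧ z = g ^ h := by
  classical
  obtain ⟨i, rfl⟩ : ∃ i : ℕ, g ^ i = z := by
    obtain ⟨i, _, hi⟩ := Finset.mem_image.1 (mem_zpowers_iff_mem_range_orderOf.1 hz)
    exact ⟨i, hi⟩
  have h1 : orderOf g ∣ i * 2 := by
    rw [orderOf_dvd_iff_pow_eq_one, pow_mul, hz2]
  have h2 : ¬ orderOf g ∣ i := by
    rw [orderOf_dvd_iff_pow_eq_one]
    exact hz1
  have h3 : 2 ∣ orderOf g := by
    by_contra hne
    have hc : Nat.Coprime (orderOf g) 2 :=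
      ((Nat.Prime.coprime_iff_not_dvd Nat.prime_two).2 hne).symm
    exact h2 (hc.dvd_of_dvd_mul_right h1)
  obtain ⟨h, hh⟩ := h3
  refine ⟨h, hh, ?_⟩
  rw [hh, mul_comm i 2] at h1
  have h4 : h ∣ i := Nat.dvd_of_mul_dvd_mul_left (by norm_num) h1
  obtain ⟨q, hq⟩ := h4
  have h5 : ¬ 2 ∣ q := by
    rintro ⟨r, hr⟩
    apply h2
    rw [hh, hq, hr]
    exact ⟨r, by ring⟩
  have h6 : (g ^ h) ^ 2 = 1 := by
    rw [← pow_mul, mul_comm h 2, ← hh, pow_orderOf_eq_one]
  obtain ⟨r, hr⟩ : ∃ r, q = 2 * r + 1 := ⟨q / 2, by omega⟩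
  rw [hq, pow_mul, hr, pow_succ, pow_mul, h6, one_pow, one_mul]

end TWA

open TWA in
theorem TWA_thm (h0 : Stmt_VZC) (h2 : Pool.Agent.DPM.Stmt_GAU) : Stmt_TWA := by
  classical
  intro n hn T _ _ 𝔐 h𝔐 hℓ χ hχ P₁ P x₀ hP₁ hat hu
  obtain ⟨z, hzP, hzχ⟩ := hu
  have hprime : 𝔐.IsPrime := h𝔐.isPrime
  have hN : 0 < Nat.card T := Nat.card_pos
  have hz1 : z ≠ 1 := by
    rintro rfl
    exact hzχ rfl
  have hcard : Nat.card P₁ = 2 := hat.cd.c1
  have hz2 : z ^ 2 = 1 := by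
    have h3 : (⟨z, hzP⟩ : P₁) ^ Nat.card P₁ = 1 := pow_card_eq_one'
    rw [hcard] at h3
    have h4 := congrArg Subtype.val h3
    simpa using h4
  have hzc : ∀ g : T, z * g = g * z := fun g => (Subgroup.mem_center_iff.1 (hP₁ hzP) g).symm
  have hle : ∀ g : T, P₁ ≤ Subgroup.zpowers g ↔ z ∈ Subgroup.zpowers g := by
    intro g
    constructor
    · intro h
      exact h hzP
    · intro h u hu
      have h3 : (⟨u, hu⟩ : P₁) = 1 ∨ (⟨u, hu⟩ : P₁) = ⟨z, hzP⟩ := by
        have h4 : Fintype.card P₁ = 2 := by rw [← Nat.card_eq_fintype_card]; exact hcard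
        by_contra hne
        push Not at hne
        have h5 : ({1, ⟨z, hzP⟩, ⟨u, hu⟩} : Finset P₁).card = 3 := by
          rw [Finset.card_insert_of_notMem, Finset.card_insert_of_notMem,
            Finset.card_singleton]
          · rw [Finset.mem_singleton]
            exact fun h => hne.2 h.symm
          · rw [Finset.mem_insert, Finset.mem_singleton]
            rintro (h | h)
            · exact hz1 (congrArg Subtype.val h).symm
            · exact hne.1 h.symm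
        have h6 := Finset.card_le_univ ({1, ⟨z, hzP⟩, ⟨u, hu⟩} : Finset P₁)
        omega
      rcases h3 with h3 | h3
      · rw [show u = 1 from congrArg Subtype.val h3]
        exact one_mem _
      · rw [show u = z from congrArg Subtype.val h3]
        exact h
  -- the scalar
  obtain ⟨c, hc⟩ := Pool.Agent.DPM.TWN.central hχ hzc
  have hχ1 : χ 1 ≠ 0 := hχ.one_ne_zero
  have hcm : c = -1 := by
    have h3 : c * c = 1 := by
      have h4 : χ (z * (z * 1)) = c * (c * χ 1) := by rw [hc, hc]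
      rw [← mul_assoc, ← mul_assoc, ← pow_two z, hz2, one_mul] at h4
      exact (mul_right_cancel₀ hχ1 (by rw [← h4, one_mul]))
    have h5 : c ≠ 1 := by
      rintro rfl
      apply hzχ
      have := hc 1
      rwa [mul_one, one_mul] at this
    rcases mul_self_eq_one_iff.1 h3 with h6 | h6
    · exact absurd h6 h5
    · exact h6
  obtain ⟨k, hkN, hk1, hk2⟩ := exists_k hN hn
  obtain ⟨σ, hσ1, hσ2⟩ := h2 𝔐 2 h𝔐 hℓ (Nat.card T) k hN hkN hk1
  obtain ⟨v1, v2⟩ := h0 T 𝔐 2 (n + 1) h𝔐 hℓ χ hχ P₁ P x₀ hat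
  -- orders
  have hord : ∀ g : T, orderOf (g ^ k) = orderOf g := by
    intro g
    apply Nat.Coprime.orderOf_pow
    exact (Nat.Coprime.coprime_dvd_right (orderOf_dvd_natCard g) hkN).symm
  have hkge : 1 + 2 ^ n ≤ k := by
    have h3 : k % 2 ^ (n + 2) = (1 + 2 ^ n) % 2 ^ (n + 2) := hk2
    have h4 : 1 + 2 ^ n < 2 ^ (n + 2) := by
      have : 0 < 2 ^ n := by positivity
      rw [pow_add]
      omega
    rw [Nat.mod_eq_of_lt h4] at h3
    rw [← h3]
    exact Nat.mod_le _ _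
  have key : ∀ g : T, χ (g ^ k) = sn (n + 1) χ g := by
    intro g
    have hogN := orderOf_dvd_natCard g
    rw [sn]
    by_cases ha : 2 ∣ orderOf g
    swap
    · -- odd order
      rw [if_neg (fun h => ha (dvd_trans (dvd_pow_self 2 (by omega)) h))]
      have h3 : k ≡ 1 [MOD orderOf g] := hk1 _ hogN ha
      have h4 : g ^ k = g ^ 1 := pow_eq_pow_iff_modEq.2 h3
      rw [h4, pow_one]
    by_cases hb : z ∈ Subgroup.zpowers g
    swap
    · have h3 : χ g = 0 := by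
        apply v2 g ha
        intro t
        rw [conj_central hP₁, hle]
        exact hb
      have h4 : χ (g ^ k) = 0 := by
        apply v2 (g ^ k) (by rw [hord]; exact ha)
        intro t
        rw [conj_central hP₁, hle]
        intro h
        apply hb
        exact (Subgroup.zpowers_le.2 (Subgroup.npow_mem_zpowers g k)) h
      rw [h3, h4]
      simp
    by_cases hcc : 2 ^ (n + 2) ∣ orderOf g
    · rw [v1 g hcc, v1 (g ^ k) (by rw [hord]; exact hcc)]
      simp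
    obtain ⟨j, r, hr, hor⟩ := Nat.exists_eq_pow_mul_and_not_dvd (orderOf_pos g).ne' 2
      (by norm_num)
    have hco : ∀ i : ℕ, Nat.Coprime (2 ^ i) r := fun i => Nat.Coprime.pow_left i
      ((Nat.Prime.coprime_iff_not_dvd Nat.prime_two).2 hr)
    have hkr : k ≡ 1 [MOD r] := hk1 r (dvd_trans ⟨2 ^ j, by rw [hor, mul_comm]⟩ hogN) hr
    by_cases hd : 2 ^ (n + 1) ∣ orderOf g
    swap
    · rw [if_neg hd]
      have hj : j ≤ n := by
        by_contra hj
        apply hd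
        rw [hor]
        exact dvd_mul_of_dvd_left (pow_dvd_pow 2 (by omega)) r
      have h3 : k ≡ 1 [MOD 2 ^ j] := by
        have h4 : k ≡ 1 + 2 ^ n [MOD 2 ^ j] := hk2.of_dvd (pow_dvd_pow 2 (by omega))
        refine h4.trans ?_
        have h5 : 2 ^ n ≡ 0 [MOD 2 ^ j] := (Nat.modEq_zero_iff_dvd).2 (pow_dvd_pow 2 hj)
        exact Nat.ModEq.add_left 1 h5
      have h4 : k ≡ 1 [MOD orderOf g] := by
        rw [hor, ← Nat.modEq_and_modEq_iff_modEq_mul (hco j)]
        exact ⟨h3, hkr⟩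
      have h5 : g ^ k = g ^ 1 := pow_eq_pow_iff_modEq.2 h4
      rw [h5, pow_one]
    rw [if_pos hd]
    have hj : j = n + 1 := by
      apply le_antisymm
      · by_contra hj
        apply hcc
        rw [hor]
        exact dvd_mul_of_dvd_left (pow_dvd_pow 2 (by omega)) r
      · rw [hor] at hd
        exact (Nat.pow_dvd_pow_iff_le_right (by norm_num)).1 ((hco (n + 1)).dvd_of_dvd_mul_right hd)
    obtain ⟨k', hk'⟩ : ∃ k', k = k' + 1 := ⟨k - 1, by have : 0 < 2 ^ n := by positivity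
                                                      omega⟩
    have hk2' : k' ≡ 2 ^ n [MOD 2 ^ (n + 2)] := by
      have h3 : k' + 1 ≡ 2 ^ n + 1 [MOD 2 ^ (n + 2)] := by
        rw [← hk', add_comm (2 ^ n) 1]
        exact hk2
      exact Nat.ModEq.add_right_cancel' 1 h3
    have hkr' : r ∣ k' := by
      have h3 : k' + 1 ≡ 0 + 1 [MOD r] := by
        rw [← hk', zero_add]
        exact hkr
      exact (Nat.modEq_zero_iff_dvd).1 (Nat.ModEq.add_right_cancel' 1 h3)
    have hk3 : 2 ^ n ∣ k' := by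
      have h3 : k' ≡ 2 ^ n [MOD 2 ^ n] := hk2'.of_dvd (pow_dvd_pow 2 (by omega))
      have h4 : 2 ^ n ≡ 0 [MOD 2 ^ n] := (Nat.modEq_zero_iff_dvd).2 dvd_rfl
      exact (Nat.modEq_zero_iff_dvd).1 (h3.trans h4)
    have hk4 : ¬ 2 ^ (n + 1) ∣ k' := by
      intro h
      have h3 : k' ≡ 2 ^ n [MOD 2 ^ (n + 1)] := hk2'.of_dvd (pow_dvd_pow 2 (by omega))
      have h4 : 2 ^ n ≡ 0 [MOD 2 ^ (n + 1)] := h3.symm.trans ((Nat.modEq_zero_iff_dvd).2 h)
      have h5 := (Nat.modEq_zero_iff_dvd).1 h4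
      have h6 := (Nat.pow_dvd_pow_iff_le_right (by norm_num : 1 < 2)).1 h5
      omega
    have hx1 : g ^ k' ≠ 1 := by
      rw [Ne, ← orderOf_dvd_iff_pow_eq_one, hor, hj]
      intro h
      exact hk4 (dvd_trans (dvd_mul_right _ r) h)
    have hx2 : (g ^ k') ^ 2 = 1 := by
      rw [← pow_mul, ← orderOf_dvd_iff_pow_eq_one, hor, hj]
      apply (hco (n + 1)).mul_dvd_of_dvd_of_dvd
      · rw [pow_succ]
        exact Nat.mul_dvd_mul_right hk3 2
      · exact dvd_mul_of_dvd_left hkr' 2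
    obtain ⟨h, hh, hzh⟩ := half_eq hb hz1 hz2
    obtain ⟨h', hh', hxh⟩ := half_eq (Subgroup.npow_mem_zpowers g k') hx1 hx2
    have hhh : h' = h := by omega
    have h3 : g ^ k = z * g := by
      rw [hk', pow_succ, hxh, hhh, ← hzh]
    rw [h3, hc, hcm, neg_one_mul]
  have hsn : sn (n + 1) χ = fun g => σ (χ g) := by
    funext g
    rw [← key g, sig_char hχ σ k hσ1 g]
  rw [hsn]
  refine ⟨Dade90.isIrr_sig σ hχ, ?_⟩
  have hσ3 : ∀ a : ℂ, IsIntegral ℤ a → a ∈ Dade90.cyc (Nat.card T) →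
      red 𝔐 (σ a) = red 𝔐 a ^ 1 := by
    intro a ha ha'
    rw [pow_one]
    exact hσ2 a ha ha'
  funext x
  rw [Dade90.cen_sig 𝔐 hN hσ3 dvd_rfl (MonoidHom.id T) hχ x, pow_one]

end Pool.Agent.RCB
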