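import Mathlib
import Pool.Agent.RCB.St6
import Pool.Agent.RCB.CGL

/-!
# TWB: the twist of a character which is trivial on the central subgroup `P₁`
-/

set_option autoImplicit false

namespace Pool.Agent.RCB

open Pool.Agent.DP Pool.Agent.DPV Pool.Agent.DPB Pool.Agent.DPW Pool.Agent.DPX Pool.Agent.DPC
open Pool.Agent.Lib_helper13 Representation

namespace TWB

theorem sn_pos {T : Type} [Group T] {n : ℕ} (χ : T → ℂ) {g : T} (h : 2 ^ n ∣ orderOf g) :
    sn n χ g = -χ g := if_pos h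

theorem sn_neg {T : Type} [Group T] {n : ℕ} (χ : T → ℂ) {g : T} (h : ¬ 2 ^ n ∣ orderOf g) :
    sn n χ g = χ g := if_neg h

theorem sn_zero {T : Type} [Group T] {n : ℕ} (χ : T → ℂ) {g : T} (h : χ g = 0) :
    sn n χ g = 0 := by
  by_cases h1 : 2 ^ n ∣ orderOf g
  · rw [sn_pos χ h1, h, neg_zero]
  · rw [sn_neg χ h1, h]

theorem not_pow {n : ℕ} (hn : 0 < n) {k : ℕ} (h : ¬ 2 ∣ k) : ¬ 2 ^ n ∣ k :=
  fun h1 => h ((dvd_pow_self 2 hn.ne').trans h1)

/-- the order in the quotient by a subgroup of order 2 -/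
theorem order_two {T S : Type} [Group T] [Finite T] [Group S] (π : T →* S) (P₁ : Subgroup T)
    (hk : π.ker = P₁) (hc : Nat.card P₁ = 2) (g : T) (hg : P₁ ≤ Subgroup.zpowers g) :
    orderOf g = 2 * orderOf (π g) := by
  have h1 : orderOf (π g) ∣ orderOf g := orderOf_map_dvd π g
  have h2 : orderOf g ∣ orderOf (π g) * 2 := by
    rw [orderOf_dvd_iff_pow_eq_one, pow_mul]
    have h3 : g ^ orderOf (π g) ∈ P₁ := by
      rw [← hk, MonoidHom.mem_ker, map_pow, pow_orderOf_eq_one]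
    have h4 : (⟨g ^ orderOf (π g), h3⟩ : P₁) ^ 2 = 1 := by
      rw [← hc]
      exact pow_card_eq_one'
    exact congrArg Subtype.val h4
  have h5 : ¬ orderOf g ∣ orderOf (π g) := by
    intro h5
    have h6 : P₁ = ⊥ := by
      rw [Subgroup.eq_bot_iff_forall]
      intro z hz
      obtain ⟨k, rfl⟩ := hg hz
      rw [← hk, MonoidHom.mem_ker] at hz
      change π (g ^ k) = 1 at hz
      change g ^ k = 1
      rw [map_zpow, ← orderOf_dvd_iff_zpow_eq_one] at hz
      rw [← orderOf_dvd_iff_zpow_eq_one]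
      exact (Int.natCast_dvd_natCast.2 h5).trans hz
    rw [h6, Subgroup.card_bot] at hc
    omega
  obtain ⟨c, hc1⟩ := h1
  have hpos : 0 < orderOf (π g) := by
    rcases Nat.eq_zero_or_pos (orderOf (π g)) with h0 | h0
    · rw [h0, zero_mul] at hc1
      exact absurd hc1 (orderOf_pos g).ne'
    · exact h0
  rw [hc1] at h2 h5 ⊢
  have h7 : c ∣ 2 := (Nat.mul_dvd_mul_iff_left hpos).1 h2
  rcases (Nat.dvd_prime Nat.prime_two).1 h7 with rfl | rfl
  · rw [mul_one] at h5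
    exact absurd dvd_rfl h5
  · exact mul_comm _ _

end TWB

open TWB

/-- TWB -/
theorem TWB_thm (h0 : Stmt_QAT) (h1 : Stmt_VZC) (h2 : Stmt_SBL) : Stmt_TWB := by
  intro n hn hTW T _ _ 𝔐 hmax hmem χ hχ P₁ P x₀ hcen hAt hu
  classical
  have hnor : P₁.Normal := ⟨fun z hz t => by
    rw [Subgroup.mem_center_iff.1 (hcen hz) t, mul_inv_cancel_right]
    exact hz⟩
  have : Fintype (T ⧸ P₁) := Fintype.ofFinite _
  let π : T →* T ⧸ P₁ := QuotientGroup.mk' P₁
  have hπ : Function.Surjective π := QuotientGroup.mk'_surjective P₁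
  have hker : π.ker = P₁ := QuotientGroup.ker_mk' P₁
  obtain ⟨χ', hχ', hχπ⟩ := CGL.defl_of_eq hπ hχ hχ.one_ne_zero (fun w hw => hu w (by
    rw [← hker]
    exact MonoidHom.mem_ker.2 hw))
  have hfun : χ = fun g => χ' (π g) := funext hχπ
  have hAt' := hAt
  rw [hfun] at hAt'
  obtain ⟨P₂, P', x', hQ⟩ := h0 T (T ⧸ P₁) 𝔐 2 n hmax hmem hn π P₁ P x₀ hπ hker hcen χ' hχ' hAt'
  obtain ⟨hirr, -⟩ := hTW (T ⧸ P₁) 𝔐 hmax hmem χ' hχ' P₂ P' x' hQ
  have hc1 : Nat.card P₁ = 2 := hAt.cd.c1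
  have hconj : ∀ t : T, P₁.map (MulAut.conj t).toMonoidHom = P₁ := by
    intro t
    ext y
    constructor
    · rintro ⟨z, hz, rfl⟩
      change t * z * t⁻¹ ∈ P₁
      have h3 := Subgroup.mem_center_iff.1 (hcen hz) t
      rw [h3, mul_inv_cancel_right]
      exact hz
    · intro hy
      refine ⟨y, hy, ?_⟩
      change t * y * t⁻¹ = y
      have h3 := Subgroup.mem_center_iff.1 (hcen hy) t
      rw [h3, mul_inv_cancel_right]
  have hkey : sn (n + 1) χ = fun g => sn n χ' (π g) := by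
    funext g
    by_cases hg : P₁ ≤ Subgroup.zpowers g
    · have ho := order_two π P₁ hker hc1 g hg
      have hiff : 2 ^ (n + 1) ∣ orderOf g ↔ 2 ^ n ∣ orderOf (π g) := by
        rw [ho, pow_succ', Nat.mul_dvd_mul_iff_left two_pos]
      by_cases h3 : 2 ^ n ∣ orderOf (π g)
      · rw [sn_pos χ (hiff.2 h3), sn_pos χ' h3, hχπ]
      · rw [sn_neg χ (fun h => h3 (hiff.1 h)), sn_neg χ' h3, hχπ]
    · by_cases h3 : 2 ∣ orderOf g
      · have h4 : χ g = 0 := (h1 T 𝔐 2 (n + 1) hmax hmem χ hχ P₁ P x₀ hAt).2 g h3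
          (fun t => by rw [hconj]; exact hg)
        have h5 : χ' (π g) = 0 := by rw [← hχπ, h4]
        rw [sn_zero χ h4, sn_zero χ' h5]
      · have h4 : ¬ 2 ∣ orderOf (π g) := fun h => h3 (h.trans (orderOf_map_dvd π g))
        rw [sn_neg χ (not_pow (Nat.succ_pos n) h3), sn_neg χ' (not_pow hn h4), hχπ]
  have hirr2 : IsIrr (sn (n + 1) χ) := by
    rw [hkey]
    exact QB.infl hπ hirr
  refine ⟨hirr2, ?_⟩
  refine h2 T 𝔐 2 hmax hmem (sn (n + 1) χ) χ hirr2 hχ fun g hg => ?_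
  exact sn_neg χ (not_pow (Nat.succ_pos n) hg)

end Pool.Agent.RCB
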