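import Mathlib
import Pool.Agent.RCB.St6
import Pool.Agent.DP.BLKC

/-!
# RCB_TWG: the twist, from the normalizer to the group
-/

namespace Pool.Agent.RCB

open Pool.Agent.DP Pool.Agent.DPV Pool.Agent.DPB Pool.Agent.DPW Pool.Agent.DPX
open Pool.Agent.Lib_helper13 Representation

namespace TWG

theorem orderOf_conj {G : Type} [Group G] (t g : G) : orderOf (t * g * t⁻¹) = orderOf g := by
  have h := orderOf_injective (MulAut.conj t).toMonoidHom (MulAut.conj t).injective g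
  simpa [MulAut.conj_apply] using h

theorem le_zpowers_conj {G : Type} [Group G] {P₁ : Subgroup G} {t g : G}
    (h : P₁.map (MulAut.conj t).toMonoidHom ≤ Subgroup.zpowers g) :
    P₁ ≤ Subgroup.zpowers (t⁻¹ * g * t) := by
  intro u hu
  have h1 : t * u * t⁻¹ ∈ Subgroup.zpowers g :=
    h (Subgroup.mem_map.2 ⟨u, hu, by simp [MulAut.conj_apply]⟩)
  obtain ⟨k, hk⟩ := Subgroup.mem_zpowers_iff.1 h1
  refine Subgroup.mem_zpowers_iff.2 ⟨k, ?_⟩
  have h2 : (t⁻¹ * g * t) ^ k = t⁻¹ * g ^ k * t := by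
    have h3 := conj_zpow (i := k) (a := t⁻¹) (b := g)
    rwa [inv_inv] at h3
  rw [h2, hk]
  group

end TWG

open TWG in
/-- RCB_TWG: the twist, from the normalizer to the group. -/
theorem TWG_thm (h0 : Stmt_GM2) (h1 : Stmt_VZC) : Stmt_TWG := by
  intro G _ _ 𝔐 n hM h2 ω P₁ P x₀ hAt hex hY χ hχ
  haveI : Fact (Nat.Prime 2) := ⟨Nat.prime_two⟩
  obtain ⟨hn, -, -, b, Φ, hb, hΦ, hval, hvan⟩ := h0 G 𝔐 n hM h2 ω P₁ P x₀ hAt hex
  have hψ := hΦ.mapsTo hχ
  obtain ⟨χ', hχ', hΦχ'⟩ := hΦ.surjOn (hY _ hψ)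
  have hirr : ∀ θ ∈ XS 𝔐 ω, IsIrr θ := by
    intro θ hθ
    have h5 := hθ.1.1
    rw [stb_empty] at h5
    exact h5.comp_mulEquiv (Subgroup.topEquiv (G := G)).symm
  have hcen : ∀ θ ∈ XS 𝔐 ω, cen 𝔐 (MonoidHom.id G) θ = ω := by
    intro θ hθ
    funext y
    exact hθ.2 y
  have hz : ∀ θ ∈ XS 𝔐 ω, ∀ g, 2 ∣ orderOf g →
      (∀ t : G, ¬ P₁.map (MulAut.conj t).toMonoidHom ≤ Subgroup.zpowers g) → θ g = 0 := by
    intro θ hθ
    refine (h1 G 𝔐 2 n hM h2 θ (hirr θ hθ) P₁ P x₀ ?_).2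
    rw [hcen θ hθ]
    exact hAt
  suffices hclaim : sn n χ = χ' by
    rw [hclaim]
    exact hχ'
  funext g
  by_cases hg : ∃ t : G, P₁.map (MulAut.conj t).toMonoidHom ≤ Subgroup.zpowers g
  · obtain ⟨t, ht⟩ := hg
    have hg' := le_zpowers_conj ht
    have e1 := hval χ' hχ' _ hg'
    have e2 := hval χ hχ _ hg'
    have ho : orderOf (t⁻¹ * g * t) = orderOf g := by
      have h3 := orderOf_conj t⁻¹ g
      rwa [inv_inv] at h3
    have e3 : χ g = χ (t⁻¹ * g * t) := by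
      have h3 := (hirr χ hχ).conj_eq t⁻¹ g
      rw [inv_inv] at h3
      exact h3.symm
    have e4 : χ' g = χ' (t⁻¹ * g * t) := by
      have h3 := (hirr χ' hχ').conj_eq t⁻¹ g
      rw [inv_inv] at h3
      exact h3.symm
    rw [hΦχ'] at e1
    unfold sn at e1 ⊢
    rw [ho] at e1
    rw [e4, e1, e3, e2]
    split_ifs
    · ring
    · rfl
  · push Not at hg
    have e := hvan χ hχ χ' hχ' g hg
    unfold sn
    by_cases h2g : 2 ∣ orderOf g
    · have h3 := hz χ hχ g h2g hg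
      rw [← e, h3]
      simp
    · rw [if_neg, e]
      intro h3
      exact h2g ((dvd_pow_self 2 hn.ne').trans h3)

end Pool.Agent.RCB
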