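import Mathlib
import Pool.Agent.RCB.St6

/-!
# Theorem P1, module VZC: consequences of the vanishing theorem
-/

set_option autoImplicit false

namespace Pool.Agent.RCB

open Pool.Agent.DP Pool.Agent.DPV Pool.Agent.DPB Pool.Agent.DPW Pool.Agent.DPX Pool.Agent.DPC
open Pool.Agent.Lib_helper13 Representation

namespace VZC

theorem conj_zpow {T : Type} [Group T] (t g : T) (i j : ℤ) :
    (t * g ^ i * t⁻¹) ^ j = t * g ^ (i * j) * t⁻¹ := by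
  rw [zpow_mul, ← MulAut.conj_apply, ← map_zpow, MulAut.conj_apply]

end VZC

theorem VZC_thm (h0 : Stmt_VZX) (h1 : Stmt_GCX) : Stmt_VZC := by
  intro T _ _ 𝔐 ℓ n hf h𝔐 hℓM χ hχ P₁ P x₀ hA
  have hℓ : ℓ.Prime := hf.out
  refine ⟨?_, ?_⟩
  · intro g hg
    refine h0 T 𝔐 ℓ n h𝔐 hℓM χ hχ P₁ P x₀ hA g ?_
    intro t i hm
    have h2 : (t * g ^ i * t⁻¹) ^ ((ℓ ^ n : ℕ) : ℤ) = 1 := by
      rw [zpow_natCast, ← hA.cd.card]
      have h3 := pow_card_eq_one' (x := (⟨t * g ^ i * t⁻¹, hm⟩ : P))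
      exact congrArg Subtype.val h3
    rw [VZC.conj_zpow] at h2
    have h3 : g ^ (i * ((ℓ ^ n : ℕ) : ℤ)) = 1 := by
      have h4 : t * g ^ (i * ((ℓ ^ n : ℕ) : ℤ)) = t := by
        rw [mul_inv_eq_one] at h2
        exact h2
      exact mul_eq_left.mp h4
    have h4 : (orderOf g : ℤ) ∣ i * ((ℓ ^ n : ℕ) : ℤ) := orderOf_dvd_iff_zpow_eq_one.mpr h3
    have h5 : ((ℓ ^ (n + 1) : ℕ) : ℤ) ∣ i * ((ℓ ^ n : ℕ) : ℤ) :=
      (Int.natCast_dvd_natCast.mpr hg).trans h4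
    have h6 : (ℓ : ℤ) * ((ℓ ^ n : ℕ) : ℤ) ∣ i * ((ℓ ^ n : ℕ) : ℤ) := by
      have h7 : ((ℓ ^ (n + 1) : ℕ) : ℤ) = (ℓ : ℤ) * ((ℓ ^ n : ℕ) : ℤ) := by
        push_cast
        ring
      rwa [h7] at h5
    have h8 : ((ℓ ^ n : ℕ) : ℤ) ≠ 0 := by
      exact_mod_cast (pow_pos hℓ.pos n).ne'
    exact Int.dvd_of_mul_dvd_mul_right h8 h6
  · intro g hg hno
    refine h0 T 𝔐 ℓ n h𝔐 hℓM χ hχ P₁ P x₀ hA g ?_
    intro t i hm
    by_contra hi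
    have hp : t * g ^ i * t⁻¹ ≠ 1 := by
      intro hp
      have h3 : g ^ i = 1 := by
        rw [mul_inv_eq_one] at hp
        exact mul_eq_left.mp hp
      have h4 : (orderOf g : ℤ) ∣ i := orderOf_dvd_iff_zpow_eq_one.mpr h3
      exact hi ((Int.natCast_dvd_natCast.mpr hg).trans h4)
    have hP : IsPGroup ℓ P := IsPGroup.of_card hA.cd.card
    have h2 := (h1 ℓ T P₁ hA.cd.c1).2.1 P hA.cd.cyc hA.cd.le hP _ hm hp
    apply hno t⁻¹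
    rintro _ ⟨u, hu, rfl⟩
    obtain ⟨j, rfl⟩ := Subgroup.mem_zpowers_iff.mp (h2 hu)
    refine Subgroup.mem_zpowers_iff.mpr ⟨i * j, ?_⟩
    rw [VZC.conj_zpow]
    simp [mul_assoc]

end Pool.Agent.RCB
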