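import Pool.Agent.RCB.St6
import Pool.Agent.DPW.RPRB

/-!
# Theorem P1, module VZX: vanishing of a block character off the conjugates of `P`
-/

namespace Pool.Agent.RCB

open Pool.Agent.DP Pool.Agent.DPV Pool.Agent.DPB Pool.Agent.DPW Pool.Agent.DPX Pool.Agent.DPC
open Pool.Agent.Lib_helper13 Representation

namespace VZX

/-- A function with `c (g ω) = c ω + 1` modulo `ℓ`. -/
theorem exists_c {Ω G : Type*} [Group G] [MulAction G Ω] (g : G) (ℓ : ℕ)
    (h : ∀ (ω : Ω) (i : ℤ), g ^ i • ω = ω → (ℓ : ℤ) ∣ i) :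
    ∃ c : Ω → ZMod ℓ, ∀ ω, c (g • ω) = c ω + 1 := by
  let S : Setoid Ω :=
    { r := fun a b => ∃ i : ℤ, g ^ i • a = b
      iseqv := ⟨fun a => ⟨0, by rw [zpow_zero, one_smul]⟩,
        fun {a b} ⟨i, hi⟩ => ⟨-i, by rw [← hi, smul_smul, ← zpow_add, neg_add_cancel, zpow_zero,
          one_smul]⟩,
        fun {a b c} ⟨i, hi⟩ ⟨j, hj⟩ => ⟨j + i, by rw [zpow_add, mul_smul, hi, hj]⟩⟩ }
  have h1 : ∀ ω : Ω, ∃ i : ℤ, g ^ i • (Quotient.mk S ω).out = ω := by
    intro ω
    have h2 : S.r (Quotient.mk S ω).out ω := Quotient.exact (Quotient.out_eq _)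
    exact h2
  choose i hi using h1
  refine ⟨fun ω => (i ω : ZMod ℓ), fun ω => ?_⟩
  have h3 : Quotient.mk S (g • ω) = Quotient.mk S ω := by
    apply Quotient.sound
    change ∃ j : ℤ, g ^ j • (g • ω) = ω
    exact ⟨-1, by rw [zpow_neg_one, inv_smul_smul]⟩
  have h4 := hi (g • ω)
  rw [h3] at h4
  have h5 := h (Quotient.mk S ω).out (-(1 + i ω) + i (g • ω)) (by
    rw [zpow_add, mul_smul, h4, zpow_neg, zpow_add, zpow_one, inv_smul_eq_iff, mul_smul, hi])
  have h6 : ((i ω + 1 : ℤ) : ZMod ℓ) = (i (g • ω) : ℤ) := by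
    rw [ZMod.intCast_eq_intCast_iff_dvd_sub]
    have e : i (g • ω) - (i ω + 1) = -(1 + i ω) + i (g • ω) := by ring
    rw [e]
    exact h5
  change (i (g • ω) : ZMod ℓ) = (i ω : ZMod ℓ) + 1
  rw [← h6]
  push_cast
  rfl

theorem pow_val_add_one {R : Type*} [Monoid R] {z : R} {ℓ : ℕ} [NeZero ℓ] (hz : z ^ ℓ = 1)
    (a : ZMod ℓ) : z ^ (a + 1).val = z * z ^ a.val := by
  rw [← pow_succ', ← pow_mod_orderOf, ← pow_mod_orderOf z (a.val + 1)]
  congr 1
  have h1 : orderOf z ∣ ℓ := orderOf_dvd_of_pow_eq_one hz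
  have h2 : (a + 1).val ≡ a.val + 1 [MOD ℓ] := by
    rw [← ZMod.natCast_eq_natCast_iff]
    push_cast
    rw [ZMod.natCast_zmod_val, ZMod.natCast_zmod_val]
  exact h2.of_dvd h1

section Sum

variable {O T : Type} [CommRing O] [Group T] [Fintype T] {d : ℕ}
  (M : T →* Matrix (Fin d) (Fin d) O) (P : Subgroup T) (x₀ : T)

open Classical in
/-- The sum over the cosets of `P`. -/
theorem sum_eq (ℓ n : ℕ) [Fact ℓ.Prime] (hP : Nat.card P = ℓ ^ n)
    (hc : ∀ u ∈ P, u * x₀ = x₀ * u)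
    (hsq : ¬ ℓ ^ (n + 1) ∣ Nat.card (Subgroup.centralizer ({x₀} : Set T))) :
    ∃ k : ℕ, ¬ ℓ ∣ k ∧ ∑ q : T ⧸ P, M (q.out * x₀ * q.out⁻¹) =
      (k : O) • ∑ h : T, (if IsConj h x₀ then (1 : O) else 0) • M h := by
  set m : ℕ := (Finset.univ.filter (fun q : T ⧸ P => q.out * x₀ * q.out⁻¹ = 1 * x₀ * 1⁻¹)).card
    with hm
  have hcount : ∀ g : T, (Finset.univ.filter
      (fun q : T ⧸ P => q.out * x₀ * q.out⁻¹ = g * x₀ * g⁻¹)).card * ℓ ^ n =
      Nat.card (Subgroup.centralizer ({x₀} : Set T)) := by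
    intro g
    have h := RPRB.count P x₀ hc g
    rwa [hP] at h
  have hℓ : 0 < ℓ ^ n := pow_pos (Fact.out : ℓ.Prime).pos n
  have hN : ∀ g : T, (Finset.univ.filter
      (fun q : T ⧸ P => q.out * x₀ * q.out⁻¹ = g * x₀ * g⁻¹)).card = m := fun g =>
    Nat.eq_of_mul_eq_mul_right hℓ ((hcount g).trans (hcount 1).symm)
  refine ⟨m, ?_, ?_⟩
  · rintro ⟨e, he⟩
    apply hsq
    rw [← hcount 1, ← hm, he]
    exact ⟨e, by ring⟩
  · have h1 : ∑ q : T ⧸ P, M (q.out * x₀ * q.out⁻¹) =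
        ∑ h : T, ((Finset.univ.filter (fun q : T ⧸ P => q.out * x₀ * q.out⁻¹ = h)).card : O) •
          M h := by
      rw [← Finset.sum_fiberwise Finset.univ (fun q : T ⧸ P => q.out * x₀ * q.out⁻¹)
        (fun q => M (q.out * x₀ * q.out⁻¹))]
      refine Finset.sum_congr rfl fun h _ => ?_
      rw [Finset.sum_congr rfl (g := fun _ => M h) (fun q hq => by
        rw [(Finset.mem_filter.1 hq).2]), Finset.sum_const, Nat.cast_smul_eq_nsmul]
    rw [h1, Finset.smul_sum]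
    refine Finset.sum_congr rfl fun h _ => ?_
    rw [smul_smul]
    congr 1
    by_cases hh : IsConj h x₀
    · obtain ⟨g, hg⟩ := isConj_iff.1 hh.symm
      rw [← hg, hN g, if_pos, mul_one]
      rw [hg]
      exact hh
    · rw [if_neg hh, mul_zero, Finset.card_eq_zero.2, Nat.cast_zero]
      rw [Finset.filter_eq_empty_iff]
      intro q _ hq
      exact hh (isConj_iff.2 ⟨_, hq⟩).symm

omit [Fintype T] in
/-- The value at a coset. -/
theorem out_conj (hc : ∀ u ∈ P, u * x₀ = x₀ * u) (t : T) :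
    (t : T ⧸ P).out * x₀ * ((t : T ⧸ P).out)⁻¹ = t * x₀ * t⁻¹ := by
  obtain ⟨⟨u, hu⟩, h⟩ := QuotientGroup.mk_out_eq_mul P t
  have h2 : (t : T ⧸ P).out = t * u := h
  have h1 := hc u hu
  rw [h2, mul_inv_rev, mul_assoc t u x₀, h1]
  group

end Sum

end VZX

theorem VZX_thm (h0 : Stmt_VALX) (h1 : Stmt_RLZX) : Stmt_VZX := by
  intro T _ _ 𝔐 ℓ n _ hmax hℓ χ hχ P₁ P x₀ hat g hg
  classical
  obtain ⟨O, hV⟩ := h0 𝔐 ℓ hmax hℓ
  obtain ⟨d, M, hd, htr, hM⟩ := h1 O T χ hχ
  have hℓp : ℓ.Prime := Fact.out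
  have : NeZero ℓ := ⟨hℓp.ne_zero⟩
  have hchr := hV.chr
  -- the scalar `w`
  obtain ⟨w, hw, hwM⟩ := hM (fun h => if IsConj h x₀ then 1 else 0) (by
    intro a x
    have : IsConj (a * x * a⁻¹) x₀ ↔ IsConj x x₀ := by
      have h2 : IsConj x (a * x * a⁻¹) := isConj_iff.2 ⟨a, rfl⟩
      exact ⟨fun h => h2.trans h, fun h => h2.symm.trans h⟩
    simp only [this])
  have hwres : IsLocalRing.residue O w ≠ 0 := by
    rw [Ne, IsLocalRing.residue_eq_zero_iff, ValuationSubring.valuation_lt_one_iff]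
    have hne := hat.ne
    unfold cen at hne
    have e : (fun y => conjInd ((MonoidHom.id T) y) x₀) =
        fun h => (((if IsConj h x₀ then 1 else 0 : O)) : ℂ) := by
      funext h
      unfold conjInd
      rw [MonoidHom.id_apply]
      split_ifs <;> rfl
    rw [e, ← hw] at hne
    by_cases hint : IsIntegral ℤ (w : ℂ)
    · rw [red_of_integral 𝔐 hint, Ne, Ideal.Quotient.eq_zero_iff_mem, hV.max] at hne
      exact hne
    · exact absurd (by unfold red; rw [dif_neg hint]) hne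
  obtain ⟨k, hk, hsum⟩ := VZX.sum_eq M P x₀ ℓ n hat.cd.card hat.cd.cen hat.cd.sq
  rw [hwM] at hsum
  -- the function `f`
  let f : T ⧸ P → Matrix (Fin d) (Fin d) O := fun q => M (q.out * x₀ * q.out⁻¹)
  have hf : ∀ t : T, f (t : T ⧸ P) = M (t * x₀ * t⁻¹) := fun t => by
    change M _ = _
    rw [VZX.out_conj P x₀ hat.cd.cen t]
  have hfg : ∀ q : T ⧸ P, M g * f q = f (g • q) * M g := by
    intro q
    obtain ⟨t, rfl⟩ := QuotientGroup.mk_surjective q
    have e : g • ((t : T) : T ⧸ P) = ((g * t : T) : T ⧸ P) := rfl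
    rw [e, hf, hf, ← map_mul, ← map_mul]
    congr 1
    group
  obtain ⟨c, hc⟩ := VZX.exists_c (Ω := T ⧸ P) g ℓ (by
    intro q i hi
    obtain ⟨t, rfl⟩ := QuotientGroup.mk_surjective q
    have e : ((g ^ i * t : T) : T ⧸ P) = (t : T ⧸ P) := hi
    rw [eq_comm, QuotientGroup.eq] at e
    refine hg t⁻¹ i ?_
    rwa [inv_inv, mul_assoc])
  -- the root of unity
  have hprim := Complex.isPrimitiveRoot_exp ℓ hℓp.ne_zero
  set ζ : ℂ := Complex.exp (2 * Real.pi * Complex.I / ℓ) with hζ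
  have hζint : IsIntegral ℤ ζ := hprim.isIntegral hℓp.pos
  let z : O := ⟨ζ, hV.int ⟨ζ, hζint⟩⟩
  have hz : z ^ ℓ = 1 := Subtype.ext hprim.pow_eq_one
  have hz1 : z ≠ 1 := by
    intro h
    exact hprim.ne_one hℓp.one_lt (congrArg Subtype.val h)
  have hzres : IsLocalRing.residue O z = 1 := by
    have h2 : (IsLocalRing.residue O z - 1) ^ ℓ = 0 := by
      rw [sub_pow_char, ← map_pow, hz, map_one, one_pow, sub_self]
    exact sub_eq_zero.1 (pow_eq_zero_iff hℓp.ne_zero |>.1 h2)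
  -- the matrix `β`
  let β : Matrix (Fin d) (Fin d) O := ∑ q : T ⧸ P, z ^ (-(c q)).val • f q
  have hβ : M g * β = (z • β) * M g := by
    change M g * (∑ q : T ⧸ P, z ^ (-(c q)).val • f q) =
      (z • ∑ q : T ⧸ P, z ^ (-(c q)).val • f q) * M g
    rw [Finset.mul_sum, Finset.smul_sum, Finset.sum_mul]
    have e : ∀ q : T ⧸ P, M g * z ^ (-(c q)).val • f q =
        (fun q' : T ⧸ P => (z • z ^ (-(c q')).val • f q') * M g) (g • q) := by
      intro q
      change M g * z ^ (-(c q)).val • f q = (z • z ^ (-(c (g • q))).val • f (g • q)) * M g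
      rw [Matrix.mul_smul, hfg, hc, smul_smul, ← VZX.pow_val_add_one hz, Matrix.smul_mul]
      congr 3
      ring
    rw [Finset.sum_congr rfl fun q _ => e q]
    exact Equiv.sum_comp (MulAction.toPerm g) (fun q' : T ⧸ P => (z • z ^ (-(c q')).val • f q') * M g)
  have hdet : IsUnit β.det := by
    rw [← IsLocalRing.residue_ne_zero_iff_isUnit]
    have e : (IsLocalRing.residue O).mapMatrix β =
        (IsLocalRing.residue O ((k : O) * w)) • (1 : Matrix (Fin d) (Fin d) _) := by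
      have e1 : (IsLocalRing.residue O).mapMatrix β =
          (IsLocalRing.residue O).mapMatrix (∑ q : T ⧸ P, f q) := by
        rw [map_sum, map_sum]
        refine Finset.sum_congr rfl fun q _ => ?_
        ext i j
        rw [RingHom.mapMatrix_apply, RingHom.mapMatrix_apply, Matrix.map_apply, Matrix.map_apply,
          Matrix.smul_apply, smul_eq_mul, map_mul, map_pow, hzres, one_pow, one_mul]
      rw [e1]
      have e2 : ∑ q : T ⧸ P, f q = (k : O) • w • (1 : Matrix (Fin d) (Fin d) O) := hsum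
      rw [e2]
      ext i j
      rw [RingHom.mapMatrix_apply, Matrix.map_apply, Matrix.smul_apply, Matrix.smul_apply,
        Matrix.smul_apply, smul_eq_mul, smul_eq_mul, smul_eq_mul, map_mul, map_mul, map_mul,
        mul_assoc, Matrix.one_apply, Matrix.one_apply]
      congr 2
      split_ifs
      · exact map_one _
      · exact map_zero _
    rw [RingHom.map_det, e, Matrix.det_smul, Matrix.det_one, mul_one]
    refine pow_ne_zero _ ?_
    rw [map_mul, map_natCast]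
    refine mul_ne_zero ?_ hwres
    rw [Ne, CharP.cast_eq_zero_iff _ ℓ]
    exact hk
  have hβi : β * β⁻¹ = 1 := Matrix.mul_nonsing_inv β hdet
  have hMg : M g = (z • β) * M g * β⁻¹ := by
    rw [← hβ, mul_assoc, hβi, mul_one]
  have htrace : (M g).trace = z * (M g).trace := by
    conv_lhs => rw [hMg, Matrix.smul_mul, Matrix.smul_mul, Matrix.trace_smul,
      Matrix.trace_mul_cycle, Matrix.nonsing_inv_mul β hdet, one_mul]
    rfl
  have h3 : (M g).trace = 0 := by
    have h4 : (1 - z) * (M g).trace = 0 := by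
      rw [sub_mul, one_mul, ← htrace, sub_self]
    exact (mul_eq_zero.1 h4).resolve_left (sub_ne_zero.2 (Ne.symm hz1))
  rw [← htr g, h3]
  rfl

end Pool.Agent.RCB
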