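import Mathlib
import Pool.Agent.RCB.AllR
import Pool.Agent.DPM.GAU
import Pool.Agent.RCB.VZX
import Pool.Agent.RCB.VZC
import Pool.Agent.RCB.CZO
import Pool.Agent.RCB.SBL
import Pool.Agent.RCB.TMT
import Pool.Agent.RCB.GM2
import Pool.Agent.RCB.TW1
import Pool.Agent.RCB.TWA
import Pool.Agent.RCB.QAT
import Pool.Agent.RCB.TWB
import Pool.Agent.RCB.TWY
import Pool.Agent.RCB.TWG
import Pool.Agent.RCB.TWX
import Pool.Agent.RCB.SE2
import Pool.Agent.RCB.CL2
import Pool.Agent.RCB.C4T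
import Pool.Agent.RCB.AGM
import Pool.Agent.RCB.AG2
import Pool.Agent.RCB.BI2
import Pool.Agent.RCB.CLQ2
import Pool.Agent.RCB.CLT2
import Pool.Agent.RCB.CEQ2
import Pool.Agent.RCB.LTP2
import Pool.Agent.RCB.INP2
import Pool.Agent.RCB.SIN2

/-!
# Theorem P1 for all primes

Block 6 (the prime 2), all modules together, and the theorem for all primes.
-/

namespace Pool.Agent.RCB

open Pool.Agent.DP Pool.Agent.DPV Pool.Agent.DPC Pool.Agent.DPB Pool.Agent.DPW Pool.Agent.DPX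
open Pool.Agent.Lib_helper13 Representation

/-! ### Block 6: the prime 2 -/

theorem vzx_all : Stmt_VZX := VZX_thm valx_all rlzx_all

theorem vzc_all : Stmt_VZC := VZC_thm vzx_all gcx_all

theorem czo_all : Stmt_CZO := CZO_thm out_all ain_all

theorem sbl_all : Stmt_SBL := SBL_thm bsa_all bsb_all

theorem tmt_all : Stmt_TMT := TMT_thm orc_all mtd_all tot_all row_all grm_all czo_all

theorem gm2_all : Stmt_GM2 :=
  GM2_thm tmt_all TRM_thm lcc_all ain_all val_all cntx_all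

theorem tw1_all : Stmt_TW1 := TW1_thm tmt_all osix_all cntx_all

theorem twa_all : Stmt_TWA := TWA_thm vzc_all Pool.Agent.DPM.GAU_thm

theorem qat_all : Stmt_QAT := QAT_thm idx_all quax_all quox_all hgtx_all

theorem twb_all : Stmt_TWB := TWB_thm qat_all vzc_all sbl_all

theorem twy_all : Stmt_TWY := TWY_thm atnx_all

theorem twg_all : Stmt_TWG := TWG_thm gm2_all vzc_all

theorem twx_rcb : Pool.Agent.RCB.Stmt_TWX :=
  Pool.Agent.RCB.TWX_thm tw1_all twa_all twb_all twy_all twg_all dxmx_all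

theorem cl2_all : Stmt_CL2 := CL2_thm fse_all FSU_thm FSX_thm

theorem c4t_all : Stmt_C4T :=
  C4T_thm dtl_all RLN_thm FLX_thm mlx_all FPS_thm nzx_all cl2_all SE2_thm

theorem agm_all : Stmt_AGM := AGM_thm fse_all FSU_thm

theorem ag2_all : Stmt_AG2 := AG2_thm c4t_all agm_all fse_all FSU_thm

theorem bi2_all : Stmt_BI2 := BI2_thm gm2_all twx_rcb eqv_all ag2_all

theorem clq2_all : Stmt_CLQ2 := CLQ2_thm fse_all FSC_thm'

theorem clt2_all : Stmt_CLT2 :=
  CLT2_thm glu_all clr_all clq2_all nuvw_all EXTV_thm (BETV_thm EXTV_thm)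

theorem ceq2_all : Stmt_CEQ2 := CEQ2_thm hatg_all clt2_all cn1_all dfx_all

theorem ltp2_all : LTPn 2 := LTP2_thm bi2_all ceq2_all cag_all cvb_all fxgx_all agm_all

theorem inn2_all : INNn 2 := INP2_thm dxmx_all chg_all TOG_thm 2 ltp2_all

/-- The inner sums vanish, for the prime 2. -/
theorem inner_two : S_INNER 2 :=
  SIN2_thm Pool.Agent.DPC.INY_thm Pool.Agent.DPC.MIX_thm btw_all 2 Nat.prime_two inn2_all

/-- Theorem P1 for all primes. -/
theorem mainR2 (ℓ : ℕ) (hℓ : ℓ.Prime) : S_P1 ℓ := by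
  by_cases h2 : ℓ = 2
  · subst h2
    exact P1_of_inner SPLIT_thm 2 Nat.prime_two inner_two
  · exact mainR ℓ hℓ h2

end Pool.Agent.RCB
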