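import Mathlib
import Pool.Agent.DPK.FinalK
import Pool.Agent.RCB.StB

/-!
# Theorem P2: the final argument

`MINU` is a hypothesis here.
-/

namespace Pool.Agent.RCB

open Pool.Agent.DP Pool.Agent.DPC Pool.Agent.DPM Pool.Agent.DPN Pool.Agent.DPT Pool.Agent.DPF
open Pool.Agent.DPK
open Pool.Agent.Lib_helper13 Representation
open Pool.Agent.Lib_helper13.Dade (pCore DadeHolds dadeSum IsIrrChar)

/-- Theorem P2 from the structure of a minimal counterexample. -/
theorem mainS (hMINU : ∀ (Cl : ∀ (Y : Type) [Group Y], Prop), GC Cl → Stmt_MINU Cl)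
    (ℓ : ℕ) (hℓ : ℓ.Prime) (hP1 : S_P1 ℓ) (X : Type) [Group X] [Finite X]
    (hcore : pCore ℓ X ≤ Subgroup.center X)
    (hstem : ∀ (A : Type) [Group A] (S : Subgroup A), CritS ℓ A S →
      (∃ (T : Subgroup X) (g : T →* A), Function.Surjective g) →
      ∀ (Y : Type) [Group Y] [Finite Y] (π : Y →* A), Function.Surjective π →
        π.ker = Subgroup.center Y → IsCyclic (Subgroup.center Y) →
        Subgroup.center Y ≤ commutator Y → pCore ℓ Y ≤ Subgroup.center Y →
        DHO ℓ Y ⁅S.comap π, S.comap π⁆) :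
    DadeHolds ℓ X := by
  classical
  have hf : Fact ℓ.Prime := ⟨hℓ⟩
  have hmain : ∀ n : ℕ, HR (SecC ℓ X) ℓ n := by
    intro n
    induction n with
    | zero =>
      intro Y _ _ _ _ hi
      exact absurd (Nat.le_zero.mp hi) Subgroup.index_ne_zero_of_finite
    | succ n ih =>
      intro V _ _ hCl hV hi
      by_contra hD
      let _ : Fintype V := Fintype.ofFinite V
      have hHR : HR (SecC ℓ X) ℓ ((Subgroup.center V).index - 1) := ih.mono (by omega)
      have hGC := SecC_GC ℓ X
      obtain ⟨-, Y, iY, fY, πY, h1, h2, h3, h4, h5, h6⟩ :=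
        all_MINS (SecC ℓ X) hGC V ℓ hV hCl hHR hD
      let _ : Fintype Y := Fintype.ofFinite Y
      have hClY : SecC ℓ X Y := hGC.up Y (V ⧸ Subgroup.center V) πY h2.le (hGC.quot hCl _)
      have hidx : (Subgroup.center Y).index = (Subgroup.center V).index := by
        rw [← h2, Subgroup.index_ker, Subgroup.index, Nat.card_congr
          (Equiv.ofBijective (Subgroup.subtype πY.range) ⟨Subtype.val_injective, fun x => by
            obtain ⟨y, hy⟩ := h1 x
            exact ⟨⟨x, y, hy⟩, rfl⟩⟩)]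
      have hHRY : HR (SecC ℓ X) ℓ ((Subgroup.center Y).index - 1) := by
        rw [hidx]
        exact hHR
      obtain ⟨S, hS, hnot⟩ := hMINU (SecC ℓ X) hGC Y ℓ hP1 h5 hClY hHRY h6
      apply hnot
      refine hstem (Y ⧸ Subgroup.center Y) S hS ?_ Y (QuotientGroup.mk' (Subgroup.center Y))
        (QuotientGroup.mk'_surjective _) (QuotientGroup.ker_mk' _) h3 h4 h5
      obtain ⟨k1, k2, k3, ⟨Q, hQS, hQp, hQc⟩, k5, -⟩ := hS
      have k4 : ℓ ∣ Nat.card S := by
        have hQ1 : Nat.card Q ∣ Nat.card S := Subgroup.card_dvd_of_le hQS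
        obtain ⟨m, hm⟩ := hQp.exists_card_eq
        rcases Nat.eq_zero_or_pos m with hm0 | hm0
        · exfalso
          apply hQc
          rw [hm0, pow_zero] at hm
          have : Subsingleton Q := (Nat.card_eq_one_iff_unique.mp hm).1
          infer_instance
        · refine Dvd.dvd.trans ?_ hQ1
          rw [hm]
          exact dvd_pow_self ℓ hm0.ne'
      exact hClY ⊤ (Y ⧸ Subgroup.center Y)
        ((QuotientGroup.mk' (Subgroup.center Y)).comp (⊤ : Subgroup Y).subtype)
        (fun k => by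
          obtain ⟨x, rfl⟩ := QuotientGroup.mk'_surjective _ k
          exact ⟨⟨x, Subgroup.mem_top x⟩, rfl⟩)
        S k1 k2 k3 k5 k4
  exact hmain _ X (SecC_self ℓ X) hcore le_rfl

end Pool.Agent.RCB
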