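import Pool.Agent.RCB.StA
import Pool.Agent.RCB.TEI
import Pool.Agent.DPX.StmtsXD
import Pool.Agent.DPG.IRC
import Pool.Agent.DPT.CLQ

/-!
# RCB_LMU: the linear characters of a central subgroup under the characters of a block
-/

namespace Pool.Agent.RCB

open Pool.Agent.DP Pool.Agent.DPC Pool.Agent.DPM Pool.Agent.DPN Pool.Agent.DPT Pool.Agent.DPF
open Pool.Agent.DPK
open Pool.Agent.Lib_helper13 Representation

namespace LMU

variable {T : Type} [Group T] [Fintype T]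

/-- The degree is a positive integer. -/
theorem degree {χ : T → ℂ} (h : IsIrr χ) : ∃ m : ℕ, 0 < m ∧ χ 1 = m := by
  have h1 := h.one_ne_zero
  obtain ⟨n, ρ, _, rfl⟩ := h
  refine ⟨n, ?_, ?_⟩
  · rcases Nat.eq_zero_or_pos n with h0 | h0
    · subst h0
      exact absurd (by simp [Representation.char_one]) h1
    · exact h0
  · simp [Representation.char_one]

end LMU

open Classical in
theorem LMU_thm (h1 : Pool.Agent.DPX.Stmt_OSIX) : Stmt_LMU := by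
  intro T _ _ 𝔐 ℓ _ hmax hℓ U hU χ₀ hχ₀ μ hμ
  by_contra hcon
  push Not at hcon
  -- the block
  set B : Finset (T → ℂ) := {χ ∈ irrF T | cen 𝔐 (MonoidHom.id T) χ =
    cen 𝔐 (MonoidHom.id T) χ₀} with hB
  have hBi : ∀ χ ∈ B, IsIrr χ ∧ cen 𝔐 (MonoidHom.id T) χ = cen 𝔐 (MonoidHom.id T) χ₀ := by
    intro χ hχ
    rw [hB, Finset.mem_filter, mem_irrF] at hχ
    exact hχ
  have hμ0 : ∀ u : U, ((μ u : ℂˣ) : ℂ) ≠ 0 := fun u => Units.ne_zero _
  have hcomm : ∀ u : U, ∀ g : T, (u : T) * g = g * u := fun u g =>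
    (Subgroup.mem_center_iff.mp (hU u.2) g).symm
  -- the sum over `U` vanishes for every character of the block
  have hA : ∀ χ ∈ B, ∑ u : U, (((μ u : ℂˣ) : ℂ))⁻¹ * χ u = 0 := by
    intro χ hχ
    obtain ⟨hi, hc⟩ := hBi χ hχ
    obtain ⟨u0, t0, hut⟩ := hcon χ hi hc
    obtain ⟨c, hcc⟩ := CLQ.central hi (hcomm u0)
    have hcμ : c ≠ ((μ u0 : ℂˣ) : ℂ) := by
      rintro rfl
      exact hut (hcc t0)
    have e1 : ∑ u : U, (((μ u : ℂˣ) : ℂ))⁻¹ * χ u =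
        ∑ u : U, (((μ (u0 * u) : ℂˣ) : ℂ))⁻¹ * χ ((u0 * u : U) : T) :=
      (Fintype.sum_equiv (Equiv.mulLeft u0) _ _ fun a => rfl).symm
    have e2 : ∑ u : U, (((μ (u0 * u) : ℂˣ) : ℂ))⁻¹ * χ ((u0 * u : U) : T) =
        ((((μ u0 : ℂˣ) : ℂ))⁻¹ * c) * ∑ u : U, (((μ u : ℂˣ) : ℂ))⁻¹ * χ u := by
      rw [Finset.mul_sum]
      refine Finset.sum_congr rfl fun u _ => ?_
      have e3 : ((u0 * u : U) : T) = (u0 : T) * u := rfl
      rw [e3, hcc, map_mul, Units.val_mul, mul_inv]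
      ring
    have e3 : (1 - (((μ u0 : ℂˣ) : ℂ))⁻¹ * c) * ∑ u : U, (((μ u : ℂˣ) : ℂ))⁻¹ * χ u = 0 := by
      have e4 := e1.trans e2
      linear_combination e4
    rcases mul_eq_zero.1 e3 with h | h
    · exfalso
      apply hcμ
      have h5 : (((μ u0 : ℂˣ) : ℂ))⁻¹ * c = 1 := (sub_eq_zero.1 h).symm
      have h6 := hμ0 u0
      field_simp at h5
      exact h5
    · exact h
  -- the values at the elements of order prime to `ℓ`
  have hval : ∀ χ ∈ B, ∀ u : U, ¬ ℓ ∣ orderOf (u : T) → χ u = ((μ u : ℂˣ) : ℂ) * χ 1 := by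
    intro χ hχ u hu
    obtain ⟨hi, hc⟩ := hBi χ hχ
    obtain ⟨c, hcc⟩ := CLQ.central hi (hcomm u)
    have hd := hi.one_ne_zero
    have e1 : χ u = c * χ 1 := by
      have := hcc 1
      rwa [mul_one] at this
    have hpw : ∀ m : ℕ, ∀ t, χ ((u : T) ^ m * t) = c ^ m * χ t := by
      intro m
      induction m with
      | zero => intro t; simp
      | succ m ih =>
        intro t
        rw [pow_succ, mul_assoc, ih, hcc, pow_succ]
        ring
    have hcm : c ^ orderOf (u : T) = 1 := by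
      have e2 := hpw (orderOf (u : T)) 1
      rw [pow_orderOf_eq_one, one_mul] at e2
      exact (mul_right_cancel₀ hd (by rw [one_mul]; exact e2)).symm
    have hμm : (((μ u : ℂˣ) : ℂ)) ^ orderOf (u : T) = 1 := by
      have e2 : u ^ orderOf (u : T) = 1 := by
        apply Subtype.ext
        rw [Subgroup.coe_pow, pow_orderOf_eq_one]
        rfl
      rw [← Units.val_pow_eq_pow_val, ← map_pow, e2, map_one, Units.val_one]
    have hred : red 𝔐 c = red 𝔐 (((μ u : ℂˣ) : ℂ)) := by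
      rw [hμ u, ← hc]
      have e3 := DPG.IRC.cen_central (𝔐 := 𝔐) (MonoidHom.id T) (fun _ _ h => h) χ (u : T)
        (hU u.2)
      rw [MonoidHom.id_apply] at e3
      rw [e3, e1, mul_div_assoc, div_self hd, mul_one]
    rw [e1, TEI.red_inj 𝔐 ℓ hmax hℓ hu hcm hμm hred]
  -- the double sum
  have hS : ∑ u : U, (((μ u : ℂˣ) : ℂ))⁻¹ * ∑ χ ∈ B, χ 1 * χ u = 0 := by
    have e1 : ∑ u : U, (((μ u : ℂˣ) : ℂ))⁻¹ * ∑ χ ∈ B, χ 1 * χ u =
        ∑ χ ∈ B, χ 1 * ∑ u : U, (((μ u : ℂˣ) : ℂ))⁻¹ * χ u := by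
      simp only [Finset.mul_sum]
      rw [Finset.sum_comm]
      refine Finset.sum_congr rfl fun χ _ => Finset.sum_congr rfl fun u _ => ?_
      ring
    rw [e1]
    exact Finset.sum_eq_zero fun χ hχ => by rw [hA χ hχ, mul_zero]
  have hS2 : ∀ u : U, (((μ u : ℂˣ) : ℂ))⁻¹ * ∑ χ ∈ B, χ 1 * χ u =
      if ¬ ℓ ∣ orderOf (u : T) then ∑ χ ∈ B, χ 1 * χ 1 else 0 := by
    intro u
    by_cases hu : ¬ ℓ ∣ orderOf (u : T)
    · rw [if_pos hu]
      have e2 : ∑ χ ∈ B, χ 1 * χ u = ((μ u : ℂˣ) : ℂ) * ∑ χ ∈ B, χ 1 * χ 1 := by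
        rw [Finset.mul_sum]
        refine Finset.sum_congr rfl fun χ hχ => ?_
        rw [hval χ hχ u hu]
        ring
      rw [e2, ← mul_assoc, inv_mul_cancel₀ (hμ0 u), one_mul]
    · rw [if_neg hu, h1 T 𝔐 ℓ hmax hℓ χ₀ hχ₀ (u : T) (not_not.1 hu), mul_zero]
  rw [Finset.sum_congr rfl fun u _ => hS2 u, ← Finset.sum_filter, Finset.sum_const,
    nsmul_eq_mul] at hS
  have hpos : ∃ N : ℕ, 0 < N ∧ ∑ χ ∈ B, χ 1 * χ 1 = (N : ℂ) := by
    choose! dg hdg1 hdg2 using fun (χ : T → ℂ) (h : IsIrr χ) => LMU.degree h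
    refine ⟨∑ χ ∈ B, dg χ * dg χ, ?_, ?_⟩
    · have h0 : χ₀ ∈ B := by
        rw [hB, Finset.mem_filter, mem_irrF]
        exact ⟨hχ₀, rfl⟩
      exact Finset.sum_pos' (fun _ _ => Nat.zero_le _)
        ⟨χ₀, h0, Nat.mul_pos (hdg1 _ hχ₀) (hdg1 _ hχ₀)⟩
    · push_cast
      refine Finset.sum_congr rfl fun χ hχ => ?_
      rw [hdg2 χ (hBi χ hχ).1]
  obtain ⟨N, hN, hN2⟩ := hpos
  rw [hN2] at hS
  have hcard : 0 < (Finset.univ.filter fun u : U => ¬ ℓ ∣ orderOf (u : T)).card := by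
    apply Finset.card_pos.2
    refine ⟨1, ?_⟩
    rw [Finset.mem_filter]
    refine ⟨Finset.mem_univ _, ?_⟩
    rw [Subgroup.coe_one, orderOf_one]
    exact (Nat.Prime.one_lt (Fact.out : ℓ.Prime)).ne' ∘ Nat.dvd_one.1
  have h7 : (((Finset.univ.filter fun u : U => ¬ ℓ ∣ orderOf (u : T)).card * N : ℕ) : ℂ) = 0 := by
    push_cast
    exact hS
  have h8 := Nat.cast_eq_zero.1 h7
  have h9 := Nat.mul_pos hcard hN
  omega

end Pool.Agent.RCB
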