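import Pool.Agent.RCB.StB
import Pool.Agent.DPM.DZC
import Pool.Agent.DPM.BTC

/-!
# Module RCB_LRG: a nonvanishing chain sum of large defect belongs to a block with large defect

The proof of the bound is the one of `DZC_thm` (`DPM/DZC.lean`).
-/

set_option autoImplicit false

namespace Pool.Agent.RCB

open Pool.Agent.DP Pool.Agent.DPC Pool.Agent.DPM Pool.Agent.DPN Pool.Agent.DPT Pool.Agent.DPF
open Pool.Agent.DPK
open Pool.Agent.Lib_helper13 Representation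
open Pool.Agent.Lib_helper13.Dade (pCore DadeHolds dadeSum IsIrrChar)

namespace LRG

/-- The bound for the chain sums of a block whose characters have defects at most the one of the
core. -/
theorem bound (G : Type) [Group G] [Fintype G] (𝔐 : Ideal (integralClosure ℤ ℂ)) (ℓ : ℕ)
    [hp : Fact ℓ.Prime] (h𝔐 : 𝔐.IsMaximal) (hℓ : (ℓ : integralClosure ℤ ℂ) ∈ 𝔐)
    (hcent : pCore ℓ G ≤ Subgroup.center G) (d : ℕ) (c : G → (integralClosure ℤ ℂ) ⧸ 𝔐)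
    (hKK : KK 𝔐 ℓ d (pCore ℓ G) c ≠ 0)
    (hall : ∀ (χ' : G → ℂ) (e : ℕ), IsIrr χ' → cen 𝔐 (MonoidHom.id G) χ' = c →
      Dade.HasDefect ℓ χ' e → ℓ ^ e ≤ Nat.card (pCore ℓ G)) :
    ℓ ^ d ≤ Nat.card (pCore ℓ G) := by
  classical
  have hP : 𝔐.IsPrime := h𝔐.isPrime
  set Z : Subgroup G := pCore ℓ G with hZdef
  have hZp : IsPGroup ℓ Z := isPGroup_pCore ℓ
  have hZn : Z.Normal := pCore_normal ℓ
  -- the character of the group
  obtain ⟨σ, hσ, ψ, hψ, hψd, hψc⟩ := KK_ne_zero 𝔐 hKK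
  obtain ⟨χ₀, hχ₀, hcen₀⟩ := exists_irr_of_mult 𝔐 hψ (exists_irr_of_chain 𝔐 hℓ hσ hψ)
  have hc₀ : cen 𝔐 (MonoidHom.id G) χ₀ = c := by
    rw [hcen₀]
    exact funext hψc
  -- the character trivial on the centre
  obtain ⟨χ, hχ, hχt, hχc⟩ := BTC_thm G 𝔐 ℓ h𝔐 hℓ Z hcent hZp 1 χ₀ hχ₀
  have hχt' : ∀ z ∈ Z, ∀ x, χ (z * x) = χ x := by
    intro z hz x
    have := hχt ⟨z, hz⟩ x
    rw [MonoidHom.one_apply, Units.val_one, one_mul] at this
    exact this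
  have hχc' : cen 𝔐 (MonoidHom.id G) χ = c := hχc.trans hc₀
  -- the quotient
  have hfin : Fintype (G ⧸ Z) := Fintype.ofFinite _
  obtain ⟨χb, hb, hbx⟩ := DZC.deflate Z hcent hχ hχt'
  have hb0 : HasDefect ℓ χb 0 :=
    DZC.defect_deflate Z hZp hχ (fun e he => hall χ e hχ hχc' he) hb (hbx 1)
  obtain ⟨x, hx1, hx2⟩ := DZC.exists_y 𝔐 hℓ hb hb0
  have hord : ¬ ℓ ∣ orderOf x := by
    intro h
    apply hx2
    refine h.trans ?_
    have hmem : x ∈ Subgroup.centralizer ({x} : Set (G ⧸ Z)) :=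
      Subgroup.mem_centralizer_singleton_iff.mpr rfl
    have h2 := orderOf_dvd_natCard (⟨x, hmem⟩ : Subgroup.centralizer ({x} : Set (G ⧸ Z)))
    rwa [Subgroup.orderOf_mk] at h2
  obtain ⟨y, hyx, hy⟩ := DZC.exists_lift Z hZp x hord
  have hcy : c y ≠ 0 := by
    rw [← hχc', DZC.cen_id, BLKA.om_cls hχ, DZC.csize_lift Z hcent hZp hord hy, hyx]
    rw [BLKA.om_cls hb, ← hyx, hbx] at hx1
    have h2 : χb 1 = χ 1 := hbx 1
    rw [h2, hyx] at hx1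
    exact hx1
  -- the element of the stabilizer
  have hZS : Z ≤ stb σ := by
    intro z hz
    rw [mem_stb']
    intro D hD w
    have h2 : z * w * z⁻¹ = w := by
      have := Subgroup.mem_center_iff.mp (hcent hz) w
      rw [← this]
      group
    rw [h2]
  have hcy' : cen 𝔐 (stb σ).subtype ψ y ≠ 0 := by
    rw [hψc y]
    exact hcy
  obtain ⟨s, hsy, hs⟩ := DZC.exists_s 𝔐 (stb σ) hψ y hcy'
  have hsx : IsConj ((s : G) : G ⧸ Z) x := by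
    obtain ⟨a, ha⟩ := isConj_iff.mp hsy
    refine isConj_iff.mpr ⟨(a : G ⧸ Z), ?_⟩
    rw [← hyx, ← ha]
    rfl
  obtain ⟨k, hk, hcard⟩ := DZC.card_cent (ℓ := ℓ) Z hcent (stb σ) hZS s (by
    rw [DZC.card_cent_conj hsx]
    exact hx2)
  by_contra hcon
  rw [not_le] at hcon
  obtain ⟨z, hz⟩ := hZp.exists_card_eq
  rw [hz] at hcon hcard
  have hzd : z < d := (Nat.pow_lt_pow_iff_right hp.out.one_lt).mp hcon
  obtain ⟨n, M, hn0, hn, hM, hv⟩ := exists_codeg hψ hψd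
  have hcs := DGN.card_centralizer s
  rw [hcard] at hcs
  have h3 := BLKA.mul_om_cls hψ s hn0 hn hcs hM
  have hint := isIntegral_om hψ (elt_mem_center (BLKA.cls s) (BLKA.cls_conj s))
  have hM0 : M ≠ 0 := by
    rintro rfl
    exact Nat.card_pos.ne' (hM.trans (mul_zero _))
  obtain ⟨M', hM'⟩ : ℓ ^ (z + 1) ∣ M := by
    rw [padicValNat_dvd_iff_le hM0, hv]
    omega
  have h4 : (k : ℂ) * om ψ (elt (BLKA.cls s)) = ((ℓ * M' : ℕ) : ℂ) * ψ s := by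
    have hl0 : ((ℓ ^ z : ℕ) : ℂ) ≠ 0 := by exact_mod_cast (pow_pos hp.out.pos z).ne'
    apply mul_left_cancel₀ hl0
    have h5 : ((ℓ ^ z * k : ℕ) : ℂ) = ((ℓ ^ z : ℕ) : ℂ) * k := by push_cast; ring
    have h6 : (M : ℂ) = ((ℓ ^ z : ℕ) : ℂ) * ((ℓ * M' : ℕ) : ℂ) := by
      rw [hM']
      push_cast
      ring
    rw [h5, h6] at h3
    rw [← mul_assoc, h3, mul_assoc]
  have h5 := BLKA.red_mul_of_dvd 𝔐 hℓ (Dvd.intro M' rfl : ℓ ∣ ℓ * M') (isIntegral_char hψ s)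
  rw [← h4, red_mul 𝔐 (Lib_helper13.isIntegral_natCast k) hint] at h5
  rcases mul_eq_zero.mp h5 with h6 | h6
  · exact red_card_ne_zero 𝔐 hℓ hk h6
  · exact hs h6

end LRG

theorem LRG_thm : Stmt_LRG := by
  intro X _ _ 𝔐 ℓ hp h𝔐 hℓ hcent d ω hd hKK
  have hP : 𝔐.IsPrime := h𝔐.isPrime
  have hZp : IsPGroup ℓ (pCore ℓ X) := isPGroup_pCore ℓ
  obtain ⟨σ, hσ, ψ, hψ, hψd, hψc⟩ := KK_ne_zero 𝔐 hKK
  obtain ⟨χ₀, hχ₀, hcen₀⟩ := exists_irr_of_mult 𝔐 hψ (exists_irr_of_chain 𝔐 hℓ hσ hψ)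
  have hc₀ : cen 𝔐 (MonoidHom.id X) χ₀ = ω := by
    rw [hcen₀]
    exact funext hψc
  refine ⟨χ₀, hχ₀, hc₀, ?_, ?_⟩
  · intro h0
    have h3 := dadeSum_eq 𝔐 ℓ d hχ₀
    rw [h0, hc₀] at h3
    apply hKK
    rw [← h3]
    simp
  · by_contra hcon
    push Not at hcon
    have hall : ∀ (χ' : X → ℂ) (e : ℕ), IsIrr χ' → cen 𝔐 (MonoidHom.id X) χ' = ω →
        Dade.HasDefect ℓ χ' e → ℓ ^ e ≤ Nat.card (pCore ℓ X) := by
      intro χ' e hχ' hc' he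
      exact hcon χ' e hχ' ((sameBlock_iff 𝔐 hχ' hχ₀).mpr (hc'.trans hc₀.symm)) he
    have hb := LRG.bound X 𝔐 ℓ h𝔐 hℓ hcent d ω hKK hall
    obtain ⟨z, hz⟩ := hZp.exists_card_eq
    rw [hz] at hb hd
    rw [padicValNat.prime_pow] at hd
    have := (Nat.pow_le_pow_iff_right hp.out.one_lt).mp hb
    omega

end Pool.Agent.RCB
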