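import Mathlib
import Pool.Agent.RCB.StA
import Pool.Agent.DPK.MINR
import Pool.Agent.DPK.FINS

/-!
# MINT: the structure of a minimal counterexample to Dade's conjecture in a class of groups; the
simple group has noncyclic Sylow `ℓ`-subgroups
-/

namespace Pool.Agent.RCB

open Pool.Agent.DP Pool.Agent.DPC Pool.Agent.DPM Pool.Agent.DPN Pool.Agent.DPT Pool.Agent.DPF
open Pool.Agent.DPK
open Pool.Agent.Lib_helper13
open Representation
open Pool.Agent.Lib_helper13.Dade (pCore DadeHolds dadeSum)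

/-- A noncyclic `ℓ`-subgroup of `N ⧸ (center X).subgroupOf N` gives one of the image of `N` in
`X ⧸ center X`. -/
theorem MINT_image (X : Type) [Group X] (ℓ : ℕ) (N : Subgroup X)
    (Q : Subgroup (N ⧸ (Subgroup.center X).subgroupOf N)) (hQ : IsPGroup ℓ Q)
    (hQc : ¬ IsCyclic Q) :
    ∃ R : Subgroup (X ⧸ Subgroup.center X),
      R ≤ N.map (QuotientGroup.mk' (Subgroup.center X)) ∧ IsPGroup ℓ R ∧ ¬ IsCyclic R := by
  let π : X →* X ⧸ Subgroup.center X := QuotientGroup.mk' (Subgroup.center X)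
  have hk : ∀ x : N, x ∈ (Subgroup.center X).subgroupOf N → (π.comp N.subtype) x = 1 := by
    intro x hx
    rw [Subgroup.mem_subgroupOf] at hx
    exact (QuotientGroup.eq_one_iff (x : X)).mpr hx
  let j : N ⧸ (Subgroup.center X).subgroupOf N →* X ⧸ Subgroup.center X :=
    QuotientGroup.lift ((Subgroup.center X).subgroupOf N) (π.comp N.subtype) hk
  have hj : Function.Injective j := by
    rw [injective_iff_map_eq_one]
    intro a ha
    obtain ⟨x, rfl⟩ := QuotientGroup.mk'_surjective _ a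
    have h1 : π (x : X) = 1 := ha
    have h2 : (x : X) ∈ Subgroup.center X := (QuotientGroup.eq_one_iff (x : X)).mp h1
    exact (QuotientGroup.eq_one_iff x).mpr (Subgroup.mem_subgroupOf.mpr h2)
  refine ⟨Q.map j, ?_, hQ.map j, ?_⟩
  · rintro _ ⟨a, _, rfl⟩
    obtain ⟨x, rfl⟩ := QuotientGroup.mk'_surjective _ a
    exact ⟨(x : X), x.2, rfl⟩
  · intro hc
    apply hQc
    have e : Q.map j ≃* Q := (Q.equivMapOfInjective j hj).symm
    exact isCyclic_of_surjective e.toMonoidHom e.surjective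

theorem MINT_thm (Cl : ∀ (Y : Type) [Group Y], Prop) (h1 : Stmt_FINS Cl) (h2 : Stmt_B0Fr Cl)
    (h3 : Stmt_STRNr Cl) (h4 : Stmt_OUT1r Cl) (h5 : Pool.Agent.DPN.Stmt_DLO) (h6 : Stmt_ASX)
    (h7 : Stmt_GRB) : Stmt_MINT Cl := by
  classical
  intro X _ _ ℓ hf hP1 hcore hCl hHR hD
  have hℓ : ℓ.Prime := hf.out
  obtain ⟨hA, N, hN, hNc, hmin⟩ := h2 X ℓ hcore hCl hHR hD
  obtain ⟨hdv, hna⟩ := hA N hN hNc
  obtain ⟨hs1, hs2, hY⟩ := h1 X ℓ hcore hCl hHR hD N hN hNc hmin hna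
  obtain ⟨P, hP, hNP, hPp, hPi, hPn, hPg⟩ := h3 X ℓ hcore hCl hHR hD N hN hNc
  obtain ⟨𝔐, h𝔐, hℓM, d, ω, hd, hK⟩ := h5 X ℓ hcore hD
  obtain ⟨M, hM, hNM, hMr, H, iH, fH, f, hfs, hfk, hHH⟩ :=
    h4 X 𝔐 ℓ h𝔐 hℓM hcore hCl hHR d ω hd hK N hN hNc
  obtain ⟨Q, hQp, hQc⟩ := h6 X H 𝔐 ℓ h𝔐 hℓM hP1 hcore d ω hd hK M hM f hfs hfk hHH N hN hNc.le
    (UNC.perf N hN hNc hmin hna) hNM hMr
  obtain ⟨P₀, hP₀, hP₀p, hP₀i, hP₀c⟩ := hHH
  let π : X →* X ⧸ Subgroup.center X := QuotientGroup.mk' (Subgroup.center X)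
  have hπs : Function.Surjective π := QuotientGroup.mk'_surjective _
  have hπk : π.ker = Subgroup.center X := QuotientGroup.ker_mk' _
  obtain ⟨g1, g2, g3, g4, g5, g6, g7⟩ :=
    h7 X (X ⧸ Subgroup.center X) ℓ π hπs hπk N hN hNc hmin hna
  have hPmap : (P.map π).index = P.index := MINR.index_map P (hNc.le.trans hNP)
  have hPm : ∀ x ∈ P.map π, ∃ k : ℕ, x ^ ℓ ^ k ∈ N.map π := by
    rintro _ ⟨x, hx, rfl⟩
    obtain ⟨k, hk⟩ := hPp x hx
    exact ⟨k, x ^ ℓ ^ k, hk, map_pow π x _⟩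
  have hmemN : ∀ x : X, π x ∈ N.map π → x ∈ N := by
    rintro x ⟨y, hy, hyx⟩
    have h10 : y⁻¹ * x ∈ π.ker := by
      rw [MonoidHom.mem_ker, map_mul, map_inv, hyx, inv_mul_cancel]
    rw [hπk] at h10
    have h11 := N.mul_mem hy (hNc.le h10)
    rwa [mul_inv_cancel_left] at h11
  refine ⟨⟨N.map π, P.map π, M.map π, g1, hs1, g4, MINT_image X ℓ N Q hQp hQc, g5,
    hP.map π hπs, hM.map π hπs,
    Subgroup.map_mono hNP, Subgroup.map_mono hNM, hPm, ?_, ?_, ?_, ?_, ?_⟩, hY⟩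
  · rw [hPmap]
    exact hPi
  · have : (P.map π).Normal := hP.map π hπs
    exact Group.nilpotent_of_surjective
      (QuotientGroup.map P (P.map π) π (Subgroup.le_comap_map π P))
      (fun q => by
        obtain ⟨a, rfl⟩ := QuotientGroup.mk'_surjective _ q
        obtain ⟨x, rfl⟩ := hπs a
        exact ⟨QuotientGroup.mk' P x, rfl⟩)
  · obtain ⟨x, y, hxy⟩ := hPg
    refine ⟨π x, π y, ?_⟩
    have h10 : (Subgroup.closure {x, y} ⊔ P).map π = ⊤ := by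
      rw [hxy, Subgroup.map_top_of_surjective π hπs]
    rw [Subgroup.map_sup, MonoidHom.map_closure, Set.image_pair] at h10
    exact h10
  · rintro _ ⟨x, hx, rfl⟩ hxl
    rw [← map_pow] at hxl
    exact ⟨x, hMr x hx (hmemN _ hxl), rfl⟩
  · intro a b
    obtain ⟨x, rfl⟩ := hπs a
    obtain ⟨y, rfl⟩ := hπs b
    have hR : (P ⊔ M).Normal := inferInstance
    have hRi : ¬ ℓ ∣ (P ⊔ M).index := fun h =>
      hPi (h.trans (Subgroup.index_dvd_of_le le_sup_left))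
    obtain ⟨k, hk⟩ := hP₀p ⟨f x * f y * (f x)⁻¹ * (f y)⁻¹, hP₀c (f x) (f y)⟩
    have h5 : (f x * f y * (f x)⁻¹ * (f y)⁻¹) ^ ℓ ^ k = 1 := congrArg Subtype.val hk
    have h6 : (x * y * x⁻¹ * y⁻¹) ^ ℓ ^ k ∈ M := by
      rw [← hfk, map_pow, map_mul, map_mul, map_mul, map_inv, map_inv]
      exact h5
    have h7 : x * y * x⁻¹ * y⁻¹ ∈ P ⊔ M :=
      MINR.mem_of_pow hℓ (P ⊔ M) hRi (le_sup_right (a := P) h6)
    rw [← Subgroup.map_sup]
    exact ⟨_, h7, by rw [map_mul, map_mul, map_mul, map_inv, map_inv]⟩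

end Pool.Agent.RCB
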