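import Mathlib
import Pool.Agent.RCB.StB
import Pool.Agent.RCB.MINT
import Pool.Agent.DPK.BAS

/-!
# MINU: the structure of a minimal counterexample to Dade's conjecture in a class of groups; the
blocks over the blocks with noncyclic defect groups of the quasisimple normal subgroup
-/

namespace Pool.Agent.RCB

open Pool.Agent.DP Pool.Agent.DPC Pool.Agent.DPM Pool.Agent.DPN Pool.Agent.DPT Pool.Agent.DPF
open Pool.Agent.DPK
open Pool.Agent.Lib_helper13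
open Representation
open Pool.Agent.Lib_helper13.Dade (pCore DadeHolds dadeSum IsIrrChar)

theorem MINU_thm (Cl : ∀ (Y : Type) [Group Y], Prop) (h1 : Stmt_FINS Cl) (h2 : Stmt_B0Fr Cl)
    (h3 : Stmt_STRNr Cl) (h4 : Stmt_OUT1r Cl) (h5 : Pool.Agent.DPN.Stmt_DLO) (h6 : Stmt_ASY)
    (h7 : Stmt_GRB) (h8 : Stmt_LRG) (h9 : Pool.Agent.DPK.Stmt_BAG) : Stmt_MINU Cl := by
  classical
  intro X _ _ ℓ hf hP1 hcore hCl hHR hD
  have hℓ : ℓ.Prime := hf.out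
  obtain ⟨hA, N, hN, hNc, hmin⟩ := h2 X ℓ hcore hCl hHR hD
  obtain ⟨hdv, hna⟩ := hA N hN hNc
  obtain ⟨hs1, hs2, hY⟩ := h1 X ℓ hcore hCl hHR hD N hN hNc hmin hna
  obtain ⟨P, hP, hNP, hPp, hPi, hPn, hPg⟩ := h3 X ℓ hcore hCl hHR hD N hN hNc
  obtain ⟨𝔐, h𝔐, hℓM, d, ω, hd, hK⟩ := h5 X ℓ hcore hD
  obtain ⟨M, hM, hNM, hMr, H, iH, fH, f, hfs, hfk, hHH⟩ :=
    h4 X 𝔐 ℓ h𝔐 hℓM hcore hCl hHR d ω hd hK N hN hNc
  have hperf : N ≤ ⁅N, N⁆ ⊔ Subgroup.center X := UNC.perf N hN hNc hmin hna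
  obtain ⟨χ, hχ, hχω, hne, hlarge⟩ := h8 X 𝔐 ℓ h𝔐 hℓM hcore d ω hd hK
  have hfK : Fintype ↥⁅N, N⁆ := Fintype.ofFinite _
  obtain ⟨ξ, hξ, hip⟩ := CLG.exists_under (⁅N, N⁆ : Subgroup X).subtype hχ
  have hASY : pCore ℓ ↥⁅N, N⁆ = ⊥ → ∀ x : ↥⁅N, N⁆, cen 𝔐 (MonoidHom.id ↥⁅N, N⁆) ξ x ≠ 0 →
      ∃ Q : Subgroup ↥⁅N, N⁆, IsPGroup ℓ Q ∧ (∀ u ∈ Q, u * x = x * u) ∧ ¬ IsCyclic Q :=
    fun hc => h6 X H 𝔐 ℓ h𝔐 hℓM hP1 hcore d ω hd hK M hM f hfs hfk hHH N hN hNc.le hperf hNM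
      hMr hc χ hχ hχω ξ hξ hip
  have hcenne : ∀ x : ↥⁅N, N⁆, ¬ Dade.CongrMod 𝔐 (Dade.central ξ x) 0 →
      cen 𝔐 (MonoidHom.id ↥⁅N, N⁆) ξ x ≠ 0 := by
    intro x hx h0
    apply hx
    rw [central_eq]
    have h1 : red 𝔐 (wt ξ (fun y => conjInd (MonoidHom.id ↥⁅N, N⁆ y) x)) = red 𝔐 0 := by
      rw [red_zero]
      exact h0
    exact (red_eq_iff 𝔐 (isIntegral_wt_conj _ hξ x) isIntegral_zero).mp h1
  have hover : ∑ᶠ k : ↥⁅N, N⁆, χ k * ξ k⁻¹ ≠ 0 := by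
    rw [finsum_eq_sum_of_fintype]
    intro h
    apply hip
    rw [ip]
    have h2 : ∑ g : ↥⁅N, N⁆, resj (⁅N, N⁆ : Subgroup X).subtype χ g * ξ g⁻¹ = 0 := h
    rw [h2, zero_div]
  have hQ : ∃ R : Subgroup (X ⧸ Subgroup.center X),
      R ≤ N.map (QuotientGroup.mk' (Subgroup.center X)) ∧ IsPGroup ℓ R ∧ ¬ IsCyclic R := by
    by_cases hcyc : ∀ Q : Subgroup (N ⧸ (Subgroup.center X).subgroupOf N), IsPGroup ℓ Q →
        IsCyclic Q
    · exfalso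
      obtain ⟨-, -, hcoreK, hcycK, -⟩ := h9 X ℓ hcore N hN hNc.le hperf hcyc
      obtain ⟨Q, hQp, -, hQc⟩ := hASY hcoreK 1 (hcenne 1 (by
        rw [BAS.central_one hξ]
        exact BAS.not_congr h𝔐))
      exact hQc (hcycK Q hQp)
    · push Not at hcyc
      obtain ⟨Q, hQp, hQc⟩ := hcyc
      exact MINT_image X ℓ N Q hQp hQc
  obtain ⟨P₀, hP₀, hP₀p, hP₀i, hP₀c⟩ := hHH
  let π : X →* X ⧸ Subgroup.center X := QuotientGroup.mk' (Subgroup.center X)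
  have hπs : Function.Surjective π := QuotientGroup.mk'_surjective _
  have hπk : π.ker = Subgroup.center X := QuotientGroup.ker_mk' _
  obtain ⟨g1, g2, g3, g4, g5, g6, g7⟩ :=
    h7 X (X ⧸ Subgroup.center X) ℓ π hπs hπk N hN hNc hmin hna
  have hPmap : (P.map π).index = P.index := MINR.index_map P (hNc.le.trans hNP)
  have hPm : ∀ x ∈ P.map π, ∃ k : ℕ, x ^ ℓ ^ k ∈ N.map π := by
    rintro _ ⟨x, hx, rfl⟩
    obtain ⟨k, hk⟩ := hPp x hx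
    exact ⟨k, x ^ ℓ ^ k, hk, map_pow π x _⟩
  have hmemN : ∀ x : X, π x ∈ N.map π → x ∈ N := by
    rintro x ⟨y, hy, hyx⟩
    have h10 : y⁻¹ * x ∈ π.ker := by
      rw [MonoidHom.mem_ker, map_mul, map_inv, hyx, inv_mul_cancel]
    rw [hπk] at h10
    have h11 := N.mul_mem hy (hNc.le h10)
    rwa [mul_inv_cancel_left] at h11
  have hcomap : (N.map π).comap π = N := by
    apply le_antisymm
    · intro x hx
      exact hmemN x hx
    · exact Subgroup.le_comap_map π N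
  refine ⟨N.map π, ⟨g1, hs1, g4, hQ, g5, P.map π, M.map π, hP.map π hπs, hM.map π hπs,
    Subgroup.map_mono hNP, Subgroup.map_mono hNM, hPm, ?_, ?_, ?_, ?_, ?_⟩, ?_⟩
  · rw [hPmap]
    exact hPi
  · have : (P.map π).Normal := hP.map π hπs
    exact Group.nilpotent_of_surjective
      (QuotientGroup.map P (P.map π) π (Subgroup.le_comap_map π P))
      (fun q => by
        obtain ⟨a, rfl⟩ := QuotientGroup.mk'_surjective _ q
        obtain ⟨x, rfl⟩ := hπs a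
        exact ⟨QuotientGroup.mk' P x, rfl⟩)
  · obtain ⟨x, y, hxy⟩ := hPg
    refine ⟨π x, π y, ?_⟩
    have h10 : (Subgroup.closure {x, y} ⊔ P).map π = ⊤ := by
      rw [hxy, Subgroup.map_top_of_surjective π hπs]
    rw [Subgroup.map_sup, MonoidHom.map_closure, Set.image_pair] at h10
    exact h10
  · rintro _ ⟨x, hx, rfl⟩ hxl
    rw [← map_pow] at hxl
    exact ⟨x, hMr x hx (hmemN _ hxl), rfl⟩
  · intro a b
    obtain ⟨x, rfl⟩ := hπs a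
    obtain ⟨y, rfl⟩ := hπs b
    have hR : (P ⊔ M).Normal := inferInstance
    have hRi : ¬ ℓ ∣ (P ⊔ M).index := fun h =>
      hPi (h.trans (Subgroup.index_dvd_of_le le_sup_left))
    obtain ⟨k, hk⟩ := hP₀p ⟨f x * f y * (f x)⁻¹ * (f y)⁻¹, hP₀c (f x) (f y)⟩
    have h5 : (f x * f y * (f x)⁻¹ * (f y)⁻¹) ^ ℓ ^ k = 1 := congrArg Subtype.val hk
    have h6 : (x * y * x⁻¹ * y⁻¹) ^ ℓ ^ k ∈ M := by
      rw [← hfk, map_pow, map_mul, map_mul, map_mul, map_inv, map_inv]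
      exact h5
    have h7 : x * y * x⁻¹ * y⁻¹ ∈ P ⊔ M :=
      MINR.mem_of_pow hℓ (P ⊔ M) hRi (le_sup_right (a := P) h6)
    rw [← Subgroup.map_sup]
    exact ⟨_, h7, by rw [map_mul, map_mul, map_mul, map_inv, map_inv]⟩
  · change ¬ DHO ℓ X ⁅(N.map π).comap π, (N.map π).comap π⁆
    rw [hcomap]
    intro hDHO
    exact hne (hDHO 𝔐 h𝔐 hℓM χ hχ hlarge ξ hξ hover
      (fun hc x hx => hASY hc x (hcenne x hx)) d)

end Pool.Agent.RCB
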