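import Mathlib
import Pool.Agent.RCB.AllR
import Pool.Agent.RCB.AllP2
import Pool.Agent.RCB.FinP
import Pool.Agent.RCB.MINU
import Pool.Agent.RCB.ASY
import Pool.Agent.RCB.LRG
import Pool.Agent.RCB.LMU

/-!
# Theorem P2: all modules together
-/

namespace Pool.Agent.RCB

open Pool.Agent.DP Pool.Agent.DPC Pool.Agent.DPM Pool.Agent.DPN Pool.Agent.DPT Pool.Agent.DPF
open Pool.Agent.DPK
open Pool.Agent.Lib_helper13 Representation
open Pool.Agent.Lib_helper13.Dade (pCore DadeHolds dadeSum IsIrrChar)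

theorem asy_all : Stmt_ASY :=
  ASY_thm (LMU_thm Pool.Agent.DPX.osix_all) Pool.Agent.DPT.all_GLU Pool.Agent.DPN.MINX_thm
    Pool.Agent.DP.SUMM_thm

theorem all_MINU (Cl : ∀ (Y : Type) [Group Y], Prop) (hC : GC Cl) : Stmt_MINU Cl :=
  MINU_thm Cl (all_FINS Cl hC) (all_B0Fr Cl hC) (all_STRNr Cl hC) (all_OUT1r Cl hC) all_DLO
    asy_all GRB_thm LRG_thm BAG_thm

/-- Theorem P2. -/
theorem mainT (ℓ : ℕ) (hℓ : ℓ.Prime) (X : Type) [Group X] [Finite X]
    (hcore : pCore ℓ X ≤ Subgroup.center X)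
    (hstem : ∀ (A : Type) [Group A] (S : Subgroup A), CritS ℓ A S →
      (∃ (T : Subgroup X) (g : T →* A), Function.Surjective g) →
      ∀ (Y : Type) [Group Y] [Finite Y] (π : Y →* A), Function.Surjective π →
        π.ker = Subgroup.center Y → IsCyclic (Subgroup.center Y) →
        Subgroup.center Y ≤ commutator Y → pCore ℓ Y ≤ Subgroup.center Y →
        DHO ℓ Y ⁅S.comap π, S.comap π⁆) :
    DadeHolds ℓ X :=
  mainS all_MINU ℓ hℓ (mainR2 ℓ hℓ) X hcore hstem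

end Pool.Agent.RCB
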