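import Mathlib
import Pool.Agent.RCB.St6
import Pool.Agent.RCB.C4B

/-!
# Theorem P1, module C4T: the classes over a 2-group (C4.2 of PAPER.md for the prime 2)
-/

set_option autoImplicit false

namespace Pool.Agent.RCB

open Pool.Agent.DP Pool.Agent.DPV Pool.Agent.DPB Pool.Agent.DPW Pool.Agent.DPX
open Pool.Agent.Lib_helper13 Representation

namespace C4T

open C4B

/-- the class of the twisted characters -/
theorem alg1 {Q : Type} [CommGroup Q] {A A' A₁ A₁' z : Q} (h1 : A' = A * z) (h2 : A₁' = A₁ * z) :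
    (A' * A⁻¹) * (A₁' * A₁⁻¹)⁻¹ = 1 := by
  rw [h1, h2, mul_inv_cancel_comm, mul_inv_cancel_comm, mul_inv_cancel]

/-- the stabilizer of the twisted function -/
theorem stx_sn {G B : Type} [Group G] [Group B] (κ : B →* MulAut G) (σ : Finset (Subgroup G))
    (n : ℕ) (ψ : G → ℂ) : Stx κ σ ψ ≤ Stx κ σ (sn n ψ) := by
  intro b hb
  refine ⟨hb.1, fun g => ?_⟩
  have h1 : orderOf (κ b g) = orderOf g :=
    orderOf_injective (κ b).toMonoidHom (κ b).injective g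
  unfold sn
  rw [h1, hb.2 g]

theorem map_sn {G B C : Type} [Group G] [Group B] [Group C] (κ : B →* MulAut G) (ρ : B →* C)
    (σ : Finset (Subgroup G)) (n : ℕ) (ψ : G → ℂ) (h : (Stx κ σ ψ).map ρ = ⊤) :
    (Stx κ σ (sn n ψ)).map ρ = ⊤ := by
  rw [eq_top_iff, ← h]
  exact Subgroup.map_mono (stx_sn κ σ n ψ)

section Core

variable {A Y P D K : Type} [Group A] [Fintype A] [Group Y] [Fintype Y] [Group P] [Fintype P]
  [Group D] [Fintype D] [Group K]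

/-- The classes of the characters with a coefficient which is not zero, and the sum. -/
theorem core (h5 : Stmt_FLX) (h6 : Stmt_MLX) (h8 : Stmt_FPS) {𝔐 : Ideal (integralClosure ℤ ℂ)}
    {ℓ : ℕ} [Fact ℓ.Prime] (h𝔐 : 𝔐.IsMaximal) (hℓ : (ℓ : integralClosure ℤ ℂ) ∈ 𝔐)
    {j : A →* Y} {c : Y →* MulAut A} {p : Y →* K} {jD : P →* D} {cD : D →* MulAut P}
    {pD : D →* K} {i : P →* A} {h : D →* Y} (hY : ClG j c p) (hD : ClG jD cD pD)
    (hs : Function.Surjective pD) (hi : ∀ u, h (jD u) = j (i u)) (hp : ∀ d, p (h d) = pD d)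
    (hK : ∃ m, Nat.card K = ℓ ^ m) (hP : ∀ u v : P, u * v = v * u) (hDp : IsPGroup ℓ D) {x : A}
    (hx : ∀ d, h d * j x = j x * h d) {θ : A → ℂ} (hθ : IsIrr θ)
    (hinv : ∀ d u, θ (i (cD d u) * x) = θ (i u * x)) (hxv : red 𝔐 (θ x) ≠ 0)
    {a : K → K → ℂˣ} (ha : FS j p θ a) {Λ₀ : Subgroup (P →* ℂˣ)} [Fintype Λ₀]
    {cl : Λ₀ →* (K → K → ℂˣ) ⧸ cob K} (hΛ : ∀ lam : P →* ℂˣ, lam ∈ Λ₀ ↔
      ∀ d u, lam (cD d u) = lam u)
    (hcl : ∀ lam : Λ₀, ∃ b, FS jD pD (fun u => (((lam : P →* ℂˣ) u : ℂˣ) : ℂ)) b ∧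
        cl lam = QuotientGroup.mk b) :
    (∀ lam : P →* ℂˣ, IsIntegral ℤ (fL i θ x lam)) ∧
    ∑ lam : Λ₀, red 𝔐 (fL i θ x (lam : P →* ℂˣ)) ≠ 0 ∧
    ∀ lam : Λ₀, red 𝔐 (fL i θ x (lam : P →* ℂˣ)) ≠ 0 → cl lam = QuotientGroup.mk a := by
  classical
  have hix : ∀ u, i u * x = x * i u := by
    intro u
    apply hY.inj
    rw [map_mul, map_mul, ← hi]
    exact hx _
  obtain ⟨f1, -, f3, f4⟩ := h5 A P 𝔐 ℓ h𝔐 hℓ hP i x hix θ hθ
  refine ⟨f1, ?_, ?_⟩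
  · have : Fintype (P →* ℂˣ) := Fintype.ofFinite _
    let _ : MulAction D (P →* ℂˣ) := actL cD
    have hR : ((ℓ : ℕ) : (integralClosure ℤ ℂ) ⧸ 𝔐) = 0 := by
      rw [← map_natCast (Ideal.Quotient.mk 𝔐)]
      exact Ideal.Quotient.eq_zero_iff_mem.mpr hℓ
    have k1 := h8 D (P →* ℂˣ) ((integralClosure ℤ ℂ) ⧸ 𝔐) ℓ hR hDp
      (fun lam => red 𝔐 (fL i θ x lam)) (by
        intro d lam
        change red 𝔐 (fL i θ x (lam.comp (cD d⁻¹).toMonoidHom)) = _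
        rw [f4 (cD d⁻¹) (hinv d⁻¹) lam])
    have k2 : ∑ lam : P →* ℂˣ, red 𝔐 (fL i θ x lam) = red 𝔐 (θ x) := by
      rw [← red_sum 𝔐 _ _ (fun lam _ => f1 lam), f3]
    rw [k2] at k1
    have k3 : red 𝔐 (θ x) = ∑ lam : Λ₀, red 𝔐 (fL i θ x (lam : P →* ℂˣ)) := by
      rw [k1]
      refine Finset.sum_subtype _ (fun lam => ?_) (fun lam => red 𝔐 (fL i θ x lam))
      rw [hΛ]
      constructor
      · intro hlam
        have h1 := ((@Finset.mem_filter _ _ (fun _ => Classical.propDecidable _) _ _).1 hlam).2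
        intro d u
        have h3 := congrArg (fun f : P →* ℂˣ => f u) (h1 d⁻¹)
        change lam (cD d⁻¹⁻¹ u) = lam u at h3
        rwa [inv_inv] at h3
      · intro hlam
        refine (@Finset.mem_filter _ _ (fun _ => Classical.propDecidable _) _ _).2
          ⟨Finset.mem_univ _, fun d => ?_⟩
        ext u
        change ((lam (cD d⁻¹ u) : ℂˣ) : ℂ) = lam u
        rw [hlam]
    rw [← k3]
    exact hxv
  · intro lam hlam
    obtain ⟨b, hb, hb'⟩ := hcl lam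
    have h1 := h6 A Y P D K 𝔐 ℓ h𝔐 hℓ j c p jD cD pD i h hY hD hs hi hp hK hP x hx θ hθ
      (lam : P →* ℂˣ) hlam a b ha hb
    rw [hb', QuotientGroup.eq, mul_comm]
    exact h1

omit [Fintype A] in
/-- The coefficients of the twisted character. -/
theorem fL_sn {i : P →* A} {θ θ' : A → ℂ} {x : A} {l₀ : P →* ℂˣ}
    (h : ∀ u, θ' (i u * x) = ((l₀ u : ℂˣ) : ℂ) * θ (i u * x)) (lam : P →* ℂˣ) :
    fL i θ' x (lam * l₀) = fL i θ x lam := by
  unfold fL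
  congr 1
  refine Finset.sum_congr rfl fun u _ => ?_
  rw [h, MonoidHom.mul_apply, mul_inv, Units.val_mul]
  have h1 : ((l₀ u : ℂˣ) : ℂ) * (((l₀ u)⁻¹ : ℂˣ) : ℂ) = 1 := Units.mul_inv _
  calc ((l₀ u : ℂˣ) : ℂ) * θ (i u * x) * ((((lam u)⁻¹ : ℂˣ) : ℂ) * (((l₀ u)⁻¹ : ℂˣ) : ℂ))
      = (((l₀ u : ℂˣ) : ℂ) * (((l₀ u)⁻¹ : ℂˣ) : ℂ)) * (θ (i u * x) * (((lam u)⁻¹ : ℂˣ) : ℂ)) := by
        ring
    _ = θ (i u * x) * (((lam u)⁻¹ : ℂˣ) : ℂ) := by rw [h1, one_mul]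

end Core

end C4T

open C4B in
/-- RCB_C4T. -/
theorem C4T_thm (h0 : Stmt_DTL) (h1 : Stmt_RLN) (h2 : Stmt_FLX) (h3 : Stmt_MLX) (h4 : Stmt_FPS)
    (h5 : Stmt_NZX) (h6 : Stmt_CL2) (h7 : Stmt_SE2) : Stmt_C4T := by
  classical
  intro G B C _ _ _ _ _ 𝔐 n h𝔐 hℓ ι κ ρ hL hC ω P₁ P x₀ hS χ hχ ψ hψ hχm hψm hχ' hψ' b hb hval0
    j hj a a₁ a' a₁' ha ha₁ ha' ha₁'
  obtain ⟨x, D, hx, hxo, -, hDp, hDx, hDP, hDρ⟩ :=
    h0 G B C 𝔐 2 n h𝔐 hℓ ι κ ρ hL hC ω P₁ P x₀ hS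
  obtain ⟨jD, cD, hjD, hcD, hLD⟩ := h1 G B C ι κ ρ hL D P hDP hDρ
  have hP1 : P₁ ≤ P := hx.cd.le
  have hcyc : IsCyclic P := hx.cd.cyc
  have hcomm : ∀ u v : P, u * v = v * u := fun u v =>
    (IsCyclic.isMulCommutative (α := P)).is_comm.comm u v
  have hn0 : 0 < n := by
    rcases Nat.eq_zero_or_pos n with hn | hn
    · exfalso
      have e1 := hx.cd.card
      rw [hn, pow_zero] at e1
      have e2 : Nat.card P₁ ∣ Nat.card P := Subgroup.card_dvd_of_le hP1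
      rw [hx.cd.c1, e1] at e2
      omega
    · exact hn
  -- `D` normalizes `P₁`
  have hDY : D ≤ YS ι {P₁} := by
    intro d hd
    rw [mem_YS1 hL.cl]
    apply GCX.uniq' hcyc _ hP1 (Subgroup.card_map_of_injective (κ d).injective)
    rintro _ ⟨u, hu, rfl⟩
    rw [← hDP, Subgroup.mem_comap]
    change ι (κ d u) ∈ D
    rw [hL.cl.act]
    refine D.mul_mem (D.mul_mem hd ?_) (D.inv_mem hd)
    rw [← Subgroup.mem_comap, hDP]
    exact hP1 hu
  have hst : ∀ g : G, g ∈ stb {P₁} ↔ P₁.map (MulAut.conj g).toMonoidHom = P₁ := by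
    intro g
    rw [mem_stb]
    simp
  have hcs : ∀ g : G, (∀ u ∈ P₁, u * g = g * u) → g ∈ stb {P₁} := by
    intro g hg
    rw [hst]
    ext y
    constructor
    · rintro ⟨u, hu, rfl⟩
      change g * u * g⁻¹ ∈ P₁
      rw [← hg u hu, mul_inv_cancel_right]
      exact hu
    · intro hy
      refine ⟨y, hy, ?_⟩
      change g * y * g⁻¹ = y
      rw [← hg y hy, mul_inv_cancel_right]
  have hPs : ∀ u ∈ P, u ∈ stb {P₁} := fun u hu => hcs u fun v hv => by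
    have := hcomm ⟨v, hP1 hv⟩ ⟨u, hu⟩
    exact congrArg Subtype.val this
  have hxs : x ∈ stb {P₁} := hcs x fun u hu => hx.cd.cen u (hP1 hu)
  -- the classes
  obtain ⟨Λ₀, cl, l₀, h2k, hl1, hlv, hΛ, hcl⟩ := h6 P D C n hn0 jD cD (ρ.comp D.subtype) hLD.cl
    hLD.surj hcyc hx.cd.card
  have hfinΛ : Finite Λ₀ := inferInstance
  have instΛ : Fintype Λ₀ := Fintype.ofFinite _
  obtain ⟨hNX, hNY⟩ := h5.2 G 𝔐 2 n h𝔐 hℓ ω P₁ P x hx hS.ex
  -- the orders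
  have hord : ∀ u : P, (2 ^ n ∣ orderOf ((u : G) * x) ↔ 2 ^ n ∣ orderOf u) := by
    intro u
    have e1 : orderOf (u : G) ∣ 2 ^ n := by
      rw [← hx.cd.card]
      exact Subgroup.orderOf_dvd_natCard P u.2
    have e2 : Nat.Coprime 2 (orderOf x) := (Nat.prime_two.coprime_iff_not_dvd).2 hxo
    have e3 : Nat.Coprime (orderOf (u : G)) (orderOf x) :=
      Nat.Coprime.coprime_dvd_left e1 (Nat.Coprime.pow_left n e2)
    have e4 : Commute (u : G) x := hx.cd.cen u u.2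
    rw [e4.orderOf_mul_eq_mul_orderOf_of_coprime e3, Subgroup.orderOf_coe]
    exact (Nat.Coprime.pow_left n e2).dvd_mul_right
  have hsn : ∀ (θ : G → ℂ) (u : P), sn n θ ((u : G) * x) =
      ((((l₀ : P →* ℂˣ) u : ℂˣ) : ℂ)) * θ ((u : G) * x) := by
    intro θ u
    rw [hlv]
    unfold sn
    by_cases hd : 2 ^ n ∣ orderOf u
    · rw [if_pos hd, if_pos ((hord u).2 hd)]
      ring
    · rw [if_neg hd, if_neg (fun h => hd ((hord u).1 h)), one_mul]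
  -- `χ` and `sn n χ`
  have coreX : ∀ θ ∈ XS 𝔐 ω, (Stx κ ∅ θ).map ρ = ⊤ → ∀ e, FS ι ρ θ e →
      (∀ lam : P →* ℂˣ, IsIntegral ℤ (fL P.subtype θ x lam)) ∧
      ∑ lam : Λ₀, red 𝔐 (fL P.subtype θ x (lam : P →* ℂˣ)) ≠ 0 ∧
      ∀ lam : Λ₀, red 𝔐 (fL P.subtype θ x (lam : P →* ℂˣ)) ≠ 0 → cl lam = QuotientGroup.mk e := by
    intro θ hθ hθm e he
    exact C4T.core h2 h3 h4 h𝔐 hℓ (j := ι) (c := κ) (p := ρ) (jD := jD) (cD := cD)
      (pD := ρ.comp D.subtype) (i := P.subtype) (h := D.subtype) hL.cl hLD.cl hLD.surj hjD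
      (fun d => rfl) hC hcomm hDp (x := x) (fun d => hDx d d.2) (θ := θ) (hNX θ hθ).1 (by
        intro d u
        have e1 : P.subtype (cD d u) * x = κ (d : B) (u * x) := by
          rw [map_mul]
          change (cD d u : G) * x = _
          rw [hcD]
          congr 1
          apply hL.cl.inj
          rw [hL.cl.act, hDx d d.2, mul_inv_cancel_right]
        rw [e1]
        exact inv_of_map hL.cl ∅ hθ.1 hθm (by simp) (by rw [mem_stb]; simp)) (hNX θ hθ).2 he hΛ hcl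
  -- `ψ` and `sn n ψ`
  have hjS : j = jS hL.cl {P₁} := by
    ext g
    rw [hj]
    rfl
  have hclS : ClG j (cS hL.cl {P₁}) (ρ.comp (YS ι {P₁}).subtype) := by
    rw [hjS]
    exact clG_S hL.cl {P₁}
  let i₁ : P →* ↥(stb {P₁}) := (P.subtype).codRestrict (stb {P₁}) (fun u => hPs u u.2)
  let hh₁ : D →* ↥(YS ι {P₁}) := (D.subtype).codRestrict (YS ι {P₁}) (fun d => hDY d.2)
  have coreY : ∀ θ ∈ YL 𝔐 P₁ ω, (Stx κ {P₁} θ).map ρ = ⊤ → ∀ e,
      FS j (ρ.comp (YS ι {P₁}).subtype) (fun g : stb {P₁} => θ g) e →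
      (∀ lam : P →* ℂˣ, IsIntegral ℤ (fL i₁ (fun g : stb {P₁} => θ g) ⟨x, hxs⟩ lam)) ∧
      ∑ lam : Λ₀, red 𝔐 (fL i₁ (fun g : stb {P₁} => θ g) ⟨x, hxs⟩ (lam : P →* ℂˣ)) ≠ 0 ∧
      ∀ lam : Λ₀, red 𝔐 (fL i₁ (fun g : stb {P₁} => θ g) ⟨x, hxs⟩ (lam : P →* ℂˣ)) ≠ 0 →
        cl lam = QuotientGroup.mk e := by
    intro θ hθ hθm e he
    exact C4T.core h2 h3 h4 h𝔐 hℓ (j := j) (c := cS hL.cl {P₁})
      (p := ρ.comp (YS ι {P₁}).subtype) (jD := jD) (cD := cD)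
      (pD := ρ.comp D.subtype) (i := i₁) (h := hh₁) hclS hLD.cl hLD.surj (by
        intro u
        apply Subtype.ext
        rw [hj]
        exact hjD u)
      (fun d => rfl) hC hcomm hDp (x := ⟨x, hxs⟩) (by
        intro d
        apply Subtype.ext
        change (d : B) * (j ⟨x, hxs⟩ : B) = (j ⟨x, hxs⟩ : B) * d
        rw [hj]
        exact hDx d d.2) (θ := fun g : stb {P₁} => θ g) hθ.1.1 (by
        intro d u
        have e1 : ((i₁ (cD d u) * ⟨x, hxs⟩ : ↥(stb {P₁})) : G) = κ (d : B) (u * x) := by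
          rw [map_mul]
          change (cD d u : G) * x = _
          rw [hcD]
          congr 1
          apply hL.cl.inj
          rw [hL.cl.act, hDx d d.2, mul_inv_cancel_right]
        change θ ((i₁ (cD d u) * ⟨x, hxs⟩ : ↥(stb {P₁})) : G) = θ (u * x)
        rw [e1]
        exact inv_of_map hL.cl {P₁} hθ.1 hθm (by
          intro E hE
          obtain rfl := Finset.mem_singleton.1 hE
          exact (mem_YS1 hL.cl _ _).1 (hDY d.2)) (mul_mem (hPs u u.2) hxs)) (hNY θ hθ) he hΛ hcl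
  obtain ⟨F1, F2, F3⟩ := coreX χ hχ hχm a ha
  obtain ⟨-, -, F3'⟩ := coreX (sn n χ) hχ' (C4T.map_sn κ ρ ∅ n χ hχm) a' ha'
  obtain ⟨G1, G2, G3⟩ := coreY ψ hψ hψm a₁ ha₁
  obtain ⟨-, -, G3'⟩ := coreY (sn n ψ) hψ' (C4T.map_sn κ ρ {P₁} n ψ hψm) a₁' ha₁'
  -- the classes of the twisted characters
  have hA : (QuotientGroup.mk a' : (C → C → ℂˣ) ⧸ cob C) = QuotientGroup.mk a * cl l₀ := by
    obtain ⟨lam, -, hlam⟩ := Finset.exists_ne_zero_of_sum_ne_zero F2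
    rw [← F3 lam hlam, ← map_mul]
    refine (F3' (lam * l₀) ?_).symm
    rw [Subgroup.coe_mul, C4T.fL_sn (θ := χ) (fun u => hsn χ u)]
    exact hlam
  have hA₁ : (QuotientGroup.mk a₁' : (C → C → ℂˣ) ⧸ cob C) = QuotientGroup.mk a₁ * cl l₀ := by
    obtain ⟨lam, -, hlam⟩ := Finset.exists_ne_zero_of_sum_ne_zero G2
    rw [← G3 lam hlam, ← map_mul]
    refine (G3' (lam * l₀) ?_).symm
    rw [Subgroup.coe_mul, C4T.fL_sn (θ := fun g : stb {P₁} => ψ g) (fun u => hsn ψ u)]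
    exact hlam
  constructor
  · rw [← QuotientGroup.eq_one_iff]
    exact C4T.alg1 (Q := (C → C → ℂˣ) ⧸ cob C) hA hA₁
  -- the values
  have hval : ∀ u ∈ P, u ≠ 1 → χ (u * x) = b * ψ (u * x) := by
    intro u hu hu1
    apply hval0
    refine (le_zpowers hP1 hcyc hx.cd.c1 hx.cd.card hu hu1).trans ?_
    rw [Subgroup.zpowers_le]
    exact mem_zpowers_mul hx.cd.card hu hxo (hx.cd.cen u hu)
  set cc : ℂ := (χ x - b * ψ x) / Nat.card P with hcc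
  have hFG : ∀ lam : P →* ℂˣ, fL P.subtype χ x lam =
      b * fL i₁ (fun g : stb {P₁} => ψ g) ⟨x, hxs⟩ lam + cc := by
    intro lam
    have e1 : ∑ u : P, (χ (u * x) - b * ψ (u * x)) * (((lam u)⁻¹ : ℂˣ) : ℂ) =
        χ x - b * ψ x := by
      rw [Finset.sum_eq_single (1 : P)]
      · simp
      · intro u _ hu1
        rw [hval u u.2 (fun h => hu1 (Subtype.ext h)), sub_self, zero_mul]
      · intro h
        exact absurd (Finset.mem_univ _) h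
    rw [hcc, ← e1]
    unfold fL
    rw [mul_div_assoc', ← add_div]
    congr 1
    rw [Finset.mul_sum, ← Finset.sum_add_distrib]
    refine Finset.sum_congr rfl fun u _ => ?_
    change χ (u * x) * _ = b * (ψ (u * x) * _) + _
    ring
  have hbi : IsIntegral ℤ (b : ℂ) := by
    have := isIntegral_algebraMap (R := ℤ) (A := ℂ) (x := b)
    simpa using this
  have hci : IsIntegral ℤ cc := by
    have e1 : cc = fL P.subtype χ x 1 - b * fL i₁ (fun g : stb {P₁} => ψ g) ⟨x, hxs⟩ 1 := by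
      rw [hFG 1]
      ring
    rw [e1]
    exact (F1 1).sub (hbi.mul (G1 1))
  let instF : Field ((integralClosure ℤ ℂ) ⧸ 𝔐) := Ideal.Quotient.field 𝔐
  have hR : ((2 : ℕ) : (integralClosure ℤ ℂ) ⧸ 𝔐) = 0 := by
    rw [← map_natCast (Ideal.Quotient.mk 𝔐)]
    exact Ideal.Quotient.eq_zero_iff_mem.mpr hℓ
  have hchar : CharP ((integralClosure ℤ ℂ) ⧸ 𝔐) 2 :=
    (CharP.charP_iff_prime_eq_zero Nat.prime_two).2 hR
  have key := h7 Λ₀ ((integralClosure ℤ ℂ) ⧸ 𝔐) ((C → C → ℂˣ) ⧸ cob C) l₀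
    (fun lam => red 𝔐 (fL P.subtype χ x (lam : P →* ℂˣ)))
    (fun lam => red 𝔐 (fL i₁ (fun g : stb {P₁} => ψ g) ⟨x, hxs⟩ (lam : P →* ℂˣ)))
    (red 𝔐 cc) (red 𝔐 b) cl (QuotientGroup.mk a) (QuotientGroup.mk a₁) h2k hl1 (by
      intro lam
      rw [hFG, red_add 𝔐 (hbi.mul (G1 _)) hci, red_mul 𝔐 hbi (G1 _)]) F2 G2 F3 G3
  rcases key with key | key
  · left
    rw [← QuotientGroup.eq_one_iff, QuotientGroup.mk_mul, QuotientGroup.mk_inv, key,
      mul_inv_cancel]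
  · right
    rw [← QuotientGroup.eq_one_iff, QuotientGroup.mk_mul, QuotientGroup.mk_inv, key, hA₁,
      mul_comm (cl l₀), mul_inv_cancel]

end Pool.Agent.RCB
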