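import Mathlib
import Pool.Agent.RCB.St5

/-!
# RCB_CAT: transport by an element of the stabilizer of the chain
-/

namespace Pool.Agent.RCB

open Pool.Agent.DP Pool.Agent.DPV Pool.Agent.DPB Pool.Agent.DPW Pool.Agent.DPX
open Pool.Agent.Lib_helper13 Representation

namespace CAT

section A

variable {G : Type} [Group G]

/-- The restriction of an automorphism to an invariant subgroup. -/
def resE (α : MulAut G) (S : Subgroup G) (hS : ∀ x, α x ∈ S ↔ x ∈ S) : S ≃* S where
  toFun s := ⟨α s, (hS _).mpr s.2⟩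
  invFun s := ⟨α.symm s, by rw [← hS, MulEquiv.apply_symm_apply]; exact s.2⟩
  left_inv s := Subtype.ext (α.symm_apply_apply _)
  right_inv s := Subtype.ext (α.apply_symm_apply _)
  map_mul' s t := Subtype.ext (map_mul α _ _)

theorem mem_iff (α : MulAut G) {D : Subgroup G} (h : D.map α.toMonoidHom = D) (y : G) :
    α y ∈ D ↔ y ∈ D := by
  constructor
  · intro hy
    have hy' : α y ∈ D.map α.toMonoidHom := by rw [h]; exact hy
    obtain ⟨z, hz, hzy⟩ := hy'
    have h1 : z = y := α.injective hzy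
    rw [← h1]
    exact hz
  · intro hy
    have h1 : α y ∈ D.map α.toMonoidHom := ⟨y, hy, rfl⟩
    rw [h] at h1
    exact h1

theorem stb_iff (α : MulAut G) {σ : Finset (Subgroup G)}
    (h : ∀ D ∈ σ, D.map α.toMonoidHom = D) (g : G) : α g ∈ stb σ ↔ g ∈ stb σ := by
  rw [mem_stb', mem_stb']
  refine forall₂_congr fun D hD => ?_
  have h1 := mem_iff α (h D hD)
  constructor
  · intro h2 x
    rw [← h1 x, h2 (α x), ← h1 (g * x * g⁻¹), map_mul, map_mul, map_inv]
  · intro h2 x
    have h3 := h2 (α.symm x)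
    rw [← h1, ← h1 (g * α.symm x * g⁻¹), map_mul, map_mul, map_inv,
      MulEquiv.apply_symm_apply] at h3
    exact h3

theorem conjInd_act (α : MulAut G) (x g : G) : conjInd (α x) (α g) = conjInd x g := by
  apply conjInd_congr
  constructor
  · intro h
    have h1 := MonoidHom.map_isConj α.symm.toMonoidHom h
    have h2 : ∀ y, α.symm.toMonoidHom (α y) = y := fun y => α.symm_apply_apply y
    rw [h2, h2] at h1
    exact h1
  · intro h
    exact MonoidHom.map_isConj α.toMonoidHom h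

theorem irrOn_comp (α : MulAut G) [Fintype G] {S : Subgroup G} (hS : ∀ x, α x ∈ S ↔ x ∈ S)
    {f : G → ℂ} (h : IrrOn S f) : IrrOn S (fun g => f (α g)) := by
  have : Fintype S := Fintype.ofFinite _
  exact ⟨h.1.comp_mulEquiv (resE α S hS), fun x hx => h.2 _ (fun h' => hx ((hS x).mp h'))⟩

end A

/-- Conjugation by `b` from the subgroup `S'` to the subgroup `S`. -/
def cjE {B : Type} [Group B] (b : B) {S S' : Subgroup B} (h : ∀ s, b * s * b⁻¹ ∈ S ↔ s ∈ S') :
    S' ≃* S where
  toFun s := ⟨b * s * b⁻¹, (h _).mpr s.2⟩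
  invFun s := ⟨b⁻¹ * s * b, by
    rw [← h]
    have h1 : b * (b⁻¹ * (s : B) * b) * b⁻¹ = s := by group
    rw [h1]
    exact s.2⟩
  left_inv s := Subtype.ext (by
    show b⁻¹ * (b * (s : B) * b⁻¹) * b = s
    group)
  right_inv s := Subtype.ext (by
    show b * (b⁻¹ * (s : B) * b) * b⁻¹ = s
    group)
  map_mul' s t := Subtype.ext (by
    show b * ((s : B) * t) * b⁻¹ = b * s * b⁻¹ * (b * t * b⁻¹)
    group)

theorem ext0_cjE {B : Type} [Group B] (b : B) {S S' : Subgroup B}
    (h : ∀ s, b * s * b⁻¹ ∈ S ↔ s ∈ S') (ψ : S → ℂ) (x : B) :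
    ext0 (fun y => ψ (cjE b h y)) x = ext0 ψ (b * x * b⁻¹) := by
  by_cases hx : x ∈ S'
  · rw [ext0_of_mem _ hx, ext0_of_mem _ ((h x).mpr hx)]
    rfl
  · rw [ext0_of_not_mem _ hx, ext0_of_not_mem]
    exact fun h' => hx ((h x).mp h')

end CAT

open CAT in
/-- RCB_CAT. -/
theorem CAT_thm : Stmt_CAT := by
  intro G B C _ _ _ _ _ 𝔐 ℓ _ h𝔐 ι κ ρ hL σ Ω d b hb θ hθ
  have hbσ : ∀ D ∈ σ, D.map (κ b).toMonoidHom = D := (mem_YS_iff hL.cl σ).mp hb
  have hstb := stb_iff (κ b) hbσ
  have hS : ∀ s, b * s * b⁻¹ ∈ Stx κ σ θ ↔ s ∈ Stx κ σ (fun g => θ (κ b g)) := by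
    intro s
    rw [mem_Stx, mem_Stx, ← mem_YS_iff hL.cl σ, ← mem_YS_iff hL.cl σ]
    refine and_congr ?_ ?_
    · constructor
      · intro h
        have h1 := mul_mem (mul_mem (inv_mem hb) h) hb
        have h2 : b⁻¹ * (b * s * b⁻¹) * b = s := by group
        rwa [h2] at h1
      · intro h
        exact mul_mem (mul_mem hb h) (inv_mem hb)
    · have h0 : ∀ g, κ (b * s * b⁻¹) (κ b g) = κ b (κ s g) := by
        intro g
        rw [← MulAut.mul_apply, ← map_mul, ← MulAut.mul_apply, ← map_mul, inv_mul_cancel_right]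
      constructor
      · intro h g
        have h1 := h (κ b g)
        rw [h0] at h1
        exact h1
      · intro h g
        obtain ⟨g', rfl⟩ := (κ b).surjective g
        rw [h0]
        exact h g'
  refine ⟨irrOn_comp (κ b) hstb hθ, ?_, Nat.card_congr (cjE b hS).toEquiv, ?_⟩
  · intro g
    unfold cg
    simp only [map_one]
    congr 2
    refine Fintype.sum_equiv (κ b).toEquiv _ _ fun x => ?_
    have h1 : conjInd (κ b x) (κ b g) = conjInd x g := conjInd_act (κ b) x g
    rw [← h1]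
    rfl
  · unfold nC
    refine card_irr_equiv (cjE b hS) (fun η => ip (fun g : stb σ => ext0 η (ι g))
      (fun g : stb σ => θ (κ b g)) ≠ 0 ∧ HasDefect ℓ η d ∧
      ∀ x, cen 𝔐 (Stx κ σ (fun g => θ (κ b g))).subtype η x = Ω x)
      (fun η => ip (fun g : stb σ => ext0 η (ι g)) (fun g : stb σ => θ g) ≠ 0 ∧
      HasDefect ℓ η d ∧ ∀ x, cen 𝔐 (Stx κ σ θ).subtype η x = Ω x) fun ψ hψ => ?_
    refine and_congr ?_ (and_congr (hasDefect_comp_equiv _) ?_)
    · have h1 : ip (fun g : stb σ => ext0 (fun y => ψ (cjE b hS y)) (ι g))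
          (fun g : stb σ => θ (κ b g)) = ip (fun g : stb σ => ext0 ψ (ι g))
          (fun g : stb σ => θ g) := by
        rw [ip, ip]
        congr 1
        refine Fintype.sum_equiv (resE (κ b) (stb σ) hstb).toEquiv _ _ fun g => ?_
        have h2 : ext0 (fun y => ψ (cjE b hS y)) (ι g) = ext0 ψ (ι (κ b g)) := by
          rw [ext0_cjE, hL.cl.act]
        rw [h2]
        have h3 : ((((resE (κ b) (stb σ) hstb).toEquiv g)⁻¹ : stb σ) : G) =
            κ b ((g⁻¹ : stb σ) : G) := by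
          rw [Subgroup.coe_inv, Subgroup.coe_inv, map_inv]
          rfl
        rw [h3]
        rfl
      rw [h1]
    · have h1 : cen 𝔐 (Stx κ σ (fun g => θ (κ b g))).subtype (fun y => ψ (cjE b hS y)) =
          cen 𝔐 (Stx κ σ θ).subtype ψ := by
        rw [← cen_comp_equiv 𝔐 (cjE b hS) (Stx κ σ θ).subtype ψ]
        apply cen_conj
        intro y
        exact isConj_iff.mpr ⟨b, rfl⟩
      rw [h1]

end Pool.Agent.RCB
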