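import Pool.Agent.RCB.St3

/-!
# CYL: extension of an invariant linear character over a cyclic quotient
-/

namespace Pool.Agent.RCB

open Pool.Agent.DP Pool.Agent.DPV

namespace CYL

variable {C : Type} [Group C]

/-- a linear character as a homomorphism -/
def hom {U : Subgroup C} {ν : C → ℂ} (h : LinOn U ν) : U →* ℂ where
  toFun u := ν u
  map_one' := h.1
  map_mul' x y := h.2 x x.2 y y.2

theorem ne_zero {U : Subgroup C} {ν : C → ℂ} (h : LinOn U ν) {u : C} (hu : u ∈ U) : ν u ≠ 0 := by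
  intro h0
  have h1 := h.2 u hu u⁻¹ (U.inv_mem hu)
  rw [mul_inv_cancel, h.1, h0, zero_mul] at h1
  exact one_ne_zero h1

theorem zpow_eq {U : Subgroup C} {ν : C → ℂ} (h : LinOn U ν) {u : C} (hu : u ∈ U) (q : ℤ) :
    ν (u ^ q) = ν u ^ q := by
  have h1 := map_zpow (hom h) (⟨u, hu⟩ : U) q
  exact h1

/-- the value at the generator -/
theorem exists_z [Finite C] (U : Subgroup C) (c0 : C) {ν : C → ℂ} (h : LinOn U ν) :
    ∃ z : ℂ, z ≠ 0 ∧ ∀ m : ℤ, c0 ^ m ∈ U → ν (c0 ^ m) = z ^ m := by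
  classical
  have hex : ∃ k : ℕ, 0 < k ∧ c0 ^ k ∈ U :=
    ⟨orderOf c0, orderOf_pos c0, by rw [pow_orderOf_eq_one]; exact U.one_mem⟩
  obtain ⟨hk0, hkU⟩ := Nat.find_spec hex
  have hmin : ∀ r : ℕ, r < Nat.find hex → c0 ^ r ∈ U → r = 0 := by
    intro r hr hrU
    by_contra hne
    exact Nat.find_min hex hr ⟨Nat.pos_of_ne_zero hne, hrU⟩
  set k := Nat.find hex with hk
  obtain ⟨z, hz⟩ := IsAlgClosed.exists_pow_nat_eq (ν (c0 ^ k)) hk0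
  have hz0 : z ≠ 0 := by
    rintro rfl
    rw [zero_pow hk0.ne'] at hz
    exact ne_zero h hkU hz.symm
  refine ⟨z, hz0, fun m hm => ?_⟩
  have hk' : (0 : ℤ) < (k : ℤ) := by exact_mod_cast hk0
  have e1 : (k : ℤ) * (m / (k : ℤ)) + m % (k : ℤ) = m := Int.mul_ediv_add_emod m k
  obtain ⟨r, hr⟩ := Int.eq_ofNat_of_zero_le (Int.emod_nonneg m hk'.ne')
  have hrk : r < k := by
    have h1 := Int.emod_lt_of_pos m hk'
    rw [hr] at h1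
    exact_mod_cast h1
  have hkq : c0 ^ ((k : ℤ) * (m / (k : ℤ))) ∈ U := by
    rw [zpow_mul, zpow_natCast]
    exact U.zpow_mem hkU _
  have hrU : c0 ^ r ∈ U := by
    have e2 : c0 ^ r = (c0 ^ ((k : ℤ) * (m / (k : ℤ))))⁻¹ * c0 ^ m := by
      nth_rewrite 2 [← e1]
      rw [zpow_add, inv_mul_cancel_left, hr]
      exact (zpow_natCast c0 r).symm
    rw [e2]
    exact U.mul_mem (U.inv_mem hkq) hm
  have hr0 := hmin r hrk hrU
  have e3 : m = (k : ℤ) * (m / (k : ℤ)) := by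
    rw [hr, hr0] at e1
    simpa using e1.symm
  have e4 : ν (c0 ^ ((k : ℤ) * (m / (k : ℤ)))) = z ^ ((k : ℤ) * (m / (k : ℤ))) := by
    rw [zpow_mul, zpow_natCast, zpow_eq h hkU, zpow_mul, zpow_natCast, hz]
  rw [← e3] at e4
  exact e4

section main

variable (U : Subgroup C) (c0 : C)

/-- the elements `u * c0 ^ i` -/
def Wg (hc : ∀ i : ℤ, ∀ u ∈ U, c0 ^ i * u * (c0 ^ i)⁻¹ ∈ U) : Subgroup C where
  carrier := {x | ∃ i : ℤ, x * (c0 ^ i)⁻¹ ∈ U}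
  mul_mem' := by
    rintro x y ⟨i, hi⟩ ⟨j, hj⟩
    refine ⟨i + j, ?_⟩
    have e : x * y * (c0 ^ (i + j))⁻¹ =
        (x * (c0 ^ i)⁻¹) * (c0 ^ i * (y * (c0 ^ j)⁻¹) * (c0 ^ i)⁻¹) := by
      rw [zpow_add, mul_inv_rev]
      group
    rw [e]
    exact U.mul_mem hi (hc i _ hj)
  one_mem' := ⟨0, by simp [U.one_mem]⟩
  inv_mem' := by
    rintro x ⟨i, hi⟩
    refine ⟨-i, ?_⟩
    have e : x⁻¹ * (c0 ^ (-i))⁻¹ = c0 ^ (-i) * (x * (c0 ^ i)⁻¹)⁻¹ * (c0 ^ (-i))⁻¹ := by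
      rw [mul_inv_rev, inv_inv, ← mul_assoc, zpow_neg, inv_mul_cancel, one_mul]
    rw [e]
    exact hc (-i) _ (U.inv_mem hi)

end main

end CYL

open CYL in
theorem CYL_thm : Stmt_CYL := by
  classical
  intro C _ _ U R hn hcyc ν hν hinv
  obtain ⟨c0, hc0, hgen⟩ := hcyc
  obtain ⟨z, hz0, hz⟩ := exists_z U c0 hν
  have hc0i : ∀ i : ℤ, c0 ^ i ∈ R := fun i => R.zpow_mem hc0 i
  have hc : ∀ i : ℤ, ∀ u ∈ U, c0 ^ i * u * (c0 ^ i)⁻¹ ∈ U := fun i u hu => hn _ (hc0i i) u hu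
  have hsup : U ⊔ R ≤ Wg U c0 hc := by
    refine sup_le ?_ ?_
    · intro u hu
      exact ⟨0, by simpa using hu⟩
    · intro c hcR
      obtain ⟨k, hk⟩ := hgen c hcR
      refine ⟨-k, ?_⟩
      rw [zpow_neg, inv_inv]
      exact hk
  -- the value does not depend on the exponent
  have wd : ∀ (x : C) (i j : ℤ), x * (c0 ^ i)⁻¹ ∈ U → x * (c0 ^ j)⁻¹ ∈ U →
      ν (x * (c0 ^ i)⁻¹) * z ^ i = ν (x * (c0 ^ j)⁻¹) * z ^ j := by
    intro x i j hi hj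
    have e1 : c0 ^ (j - i) = (x * (c0 ^ j)⁻¹)⁻¹ * (x * (c0 ^ i)⁻¹) := by
      rw [zpow_sub]
      group
    have hm : c0 ^ (j - i) ∈ U := by
      rw [e1]
      exact U.mul_mem (U.inv_mem hj) hi
    have e2 : x * (c0 ^ i)⁻¹ = (x * (c0 ^ j)⁻¹) * c0 ^ (j - i) := by
      rw [e1, mul_inv_cancel_left]
    rw [e2, hν.2 _ hj _ hm, hz _ hm, mul_assoc, ← zpow_add₀ hz0, sub_add_cancel]
  let μ : C → ℂ := fun x => if h : ∃ i : ℤ, x * (c0 ^ i)⁻¹ ∈ U then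
    ν (x * (c0 ^ h.choose)⁻¹) * z ^ h.choose else 1
  have hμ : ∀ (x : C) (i : ℤ), x * (c0 ^ i)⁻¹ ∈ U → μ x = ν (x * (c0 ^ i)⁻¹) * z ^ i := by
    intro x i hi
    have h : ∃ i : ℤ, x * (c0 ^ i)⁻¹ ∈ U := ⟨i, hi⟩
    show (if h : ∃ i : ℤ, x * (c0 ^ i)⁻¹ ∈ U then
      ν (x * (c0 ^ h.choose)⁻¹) * z ^ h.choose else 1) = _
    rw [dif_pos h]
    exact wd x _ i h.choose_spec hi
  have hμU : ∀ u ∈ U, μ u = ν u := by
    intro u hu
    rw [hμ u 0 (by simpa using hu)]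
    simp
  refine ⟨μ, ⟨?_, ?_⟩, hμU⟩
  · rw [hμU 1 U.one_mem, hν.1]
  · intro x hx y hy
    obtain ⟨i, hi⟩ := hsup hx
    obtain ⟨j, hj⟩ := hsup hy
    have e : x * y * (c0 ^ (i + j))⁻¹ =
        (x * (c0 ^ i)⁻¹) * (c0 ^ i * (y * (c0 ^ j)⁻¹) * (c0 ^ i)⁻¹) := by
      rw [zpow_add, mul_inv_rev]
      group
    have hxy : x * y * (c0 ^ (i + j))⁻¹ ∈ U := by
      rw [e]
      exact U.mul_mem hi (hc i _ hj)
    rw [hμ _ _ hxy, hμ x i hi, hμ y j hj, e, hν.2 _ hi _ (hc i _ hj), hinv _ (hc0i i) _ hj,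
      zpow_add₀ hz0]
    ring

end Pool.Agent.RCB
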