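import Mathlib
import Pool.Agent.RCB.StA

/-!
# RCB_SC2: the Sylow `2`-subgroups of a nonabelian simple group are not cyclic
-/

namespace Pool.Agent.RCB

theorem SC2_thm : Stmt_SC2 := by
  intro S _ _ hS hne h2
  have : Fact (Nat.Prime 2) := ⟨Nat.prime_two⟩
  obtain ⟨P⟩ : Nonempty (Sylow 2 S) := inferInstance
  refine ⟨P, P.isPGroup', fun hP => ?_⟩
  have hmin : (Nat.card S).minFac = 2 := (Nat.minFac_eq_two_iff _).2 h2
  have hc := IsCyclic.isComplement' hmin hP
  rcases hS.eq_bot_or_eq_top_of_normal _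
    (inferInstance : (MonoidHom.transferSylow P (hP.normalizer_le_centralizer hmin)).ker.Normal)
    with hK | hK
  · rw [hK] at hc
    have hT : (P : Subgroup S) = ⊤ := Subgroup.isComplement'_bot_left.1 hc
    obtain ⟨a, b, hab⟩ := hne
    have ha : a ∈ (P : Subgroup S) := by rw [hT]; trivial
    have hb : b ∈ (P : Subgroup S) := by rw [hT]; trivial
    let _ := hP.commGroup
    have := mul_comm (⟨a, ha⟩ : (P : Subgroup S)) ⟨b, hb⟩
    exact hab (congrArg Subtype.val this)
  · rw [hK] at hc
    have hB : (P : Subgroup S) = ⊥ := Subgroup.isComplement'_top_left.1 hc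
    exact P.ne_bot_of_dvd_card h2 hB

end Pool.Agent.RCB
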